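import Pool.Agent.H34.RK.Stm5

/-! # Project RK: the number of elements of `El2` -/

set_option autoImplicit false

open Finset MeasureTheory

namespace Pool.Agent.H34.RK

theorem card_Sg (L : ℕ) (us : ℕ → ℕ) (N : ℕ) (h : ∀ l, us l * (4 * L) ≤ N) :
    4 * Fintype.card (Sg L us) ≤ N := by
  have h1 : Fintype.card (Sg L us) = ∑ i : Fin L, us i := by
    rw [Fintype.card_sigma]
    exact Finset.sum_congr rfl fun i _ => Fintype.card_fin _
  have h2 : Fintype.card (Sg L us) * (4 * L) ≤ L * N := by
    rw [h1, Finset.sum_mul]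
    calc ∑ i : Fin L, us i * (4 * L) ≤ ∑ _i : Fin L, N := Finset.sum_le_sum fun i _ => h i
      _ = L * N := by rw [Finset.sum_const, card_univ, Fintype.card_fin, smul_eq_mul]
  rcases Nat.eq_zero_or_pos L with rfl | hL
  · have : Fintype.card (Sg 0 us) = 0 := by rw [h1]; simp
    omega
  · have h3 : L * (4 * Fintype.card (Sg L us)) ≤ L * N := by
      calc L * (4 * Fintype.card (Sg L us)) = Fintype.card (Sg L us) * (4 * L) := by ring
        _ ≤ L * N := h2
    exact Nat.le_of_mul_le_mul_left h3 hL

theorem card_ : S_CARD := by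
  intro L m N r us vs A B hL hm hr hN huv hAB
  have h1 := card_Sg L us N fun l => (huv l).1
  have h2 := card_Sg L vs N fun l => (huv l).2
  have h3 : ∀ t : Fin N, Fintype.card (Gd (A t) (B t)) = 2 + 2 * m := by
    intro t
    simp only [Gd, Fintype.card_sum, Fintype.card_bool, Fintype.card_coe, (hAB t t.2).1, (hAB t t.2).2]
    omega
  have h4 : Fintype.card (Σ t : Fin N, Gd (A t) (B t)) = N * (2 + 2 * m) := by
    rw [Fintype.card_sigma, Finset.sum_congr rfl fun t _ => h3 t, Finset.sum_const, card_univ,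
      Fintype.card_fin, smul_eq_mul]
  have h5 : Fintype.card (El2 L N r us vs A B) = Fintype.card (Sg L us) + Fintype.card (Sg L vs) +
      ((L + L) + N * (2 + 2 * m)) + r * 2 := by
    rw [Fintype.card_sum, Fintype.card_sum, Fintype.card_sum, Fintype.card_sum, Fintype.card_sum, h4,
      Fintype.card_prod, Fintype.card_fin, Fintype.card_fin, Fintype.card_bool]
  rw [h5]
  have h6 : N * 25 ≤ N * m := Nat.mul_le_mul_left N hm
  have h7 : N * (2 + 2 * m) = 2 * N + 2 * (N * m) := by ring
  have h8 : 2 * m * N = 2 * (N * m) := by ring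
  rw [h7, h8]
  omega

end Pool.Agent.H34.RK
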