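import Pool.Agent.H34.RK.Stm4

/-!
# Project RK, part 5: the version for posets with few elements

The posets of the construction of width `w` have at most `2 w` elements.
-/

set_option autoImplicit false

open Finset MeasureTheory

namespace Pool.Agent.H34.RK

/-- `S_CONC` with a bound for the lengths of the chains. -/
def S_CONCK : Prop := ∀ (g : ℝ) (L m N : ℕ) (A B : ℕ → Finset ℕ), 0 < g → 100 ≤ L →
  g * (L : ℝ) ^ 100 ≤ 1 → 20 ≤ m → ((L : ℝ) / g) ^ 40 ≤ N →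
  (∀ t < N, (A t).card = m ∧ (B t).card = m ∧ Sub1 L (A t) ∧ Sub1 L (B t) ∧ L ∈ A t ∧ L ∈ B t) →
  ∃ us vs : ℕ → ℕ, (∀ l, us l * (4 * L) ≤ N ∧ vs l * (4 * L) ≤ N) ∧
    0 < ∫ θ in OmS L, wt us vs θ * ∏ k : Fin N, ZT (phi θ) (psi θ) (A k) (B k) ∧
    (∫ θ in OmS L ∩ {θ | ∃ l, 1 ≤ l ∧ l ≤ L ∧ ((N : ℝ) ^ (-(1 / 4) : ℝ) < |phi θ l - g * l| ∨
        (N : ℝ) ^ (-(1 / 4) : ℝ) < |psi θ l - (1 - g * l)|)},
      wt us vs θ * ∏ k : Fin N, ZT (phi θ) (psi θ) (A k) (B k)) ≤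
    1 / N * ∫ θ in OmS L, wt us vs θ * ∏ k : Fin N, ZT (phi θ) (psi θ) (A k) (B k)

/-- The number of elements of `El2`. -/
def S_CARD : Prop := ∀ (L m N r : ℕ) (us vs : ℕ → ℕ) (A B : ℕ → Finset ℕ), 100 ≤ L → 25 ≤ m →
  r ≤ L → L * 100 ≤ N → (∀ l, us l * (4 * L) ≤ N ∧ vs l * (4 * L) ≤ N) →
  (∀ t < N, (A t).card = m ∧ (B t).card = m) →
  Fintype.card (El2 L N r us vs A B) ≤ 2 * (2 * m * N + r)

/-- `S_BAL2` with the bound for the number of elements. -/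
def S_BAL2K : Prop := ∀ (g η : ℝ) (L m N r : ℕ) (A B : ℕ → Finset ℕ), 0 < g → 100 ≤ L →
  g * (L : ℝ) ^ 100 ≤ 1 → 25 ≤ m → ((L : ℝ) / g) ^ 40 ≤ N → 0 < η → η ≤ 1 / 100 → 8 * η ≤ g →
  r ≤ L → (L : ℝ) ^ 20 * (N : ℝ) ^ (-(1 / 4) : ℝ) ≤ η →
  (∀ t < N, (A t).card = m ∧ (B t).card = m ∧ Sub1 L (A t) ∧ Sub1 L (B t) ∧ L ∈ A t ∧ L ∈ B t) →
  (∀ s t, s < N → t < N → s ≠ t → ∀ r r' : Role, Valid (A s) (B s) r → Valid (A t) (B t) r' →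
    η ≤ |WW (dens (fun l => g * l) (fun l => 1 - g * l) (A s) (B s) r)
      (dens (fun l => g * l) (fun l => 1 - g * l) (A t) (B t) r')|) →
  (∀ t, t < N → ∀ r r' : Role, Valid (A t) (B t) r → Valid (A t) (B t) r' → r ≠ r' →
    r ≠ .lo → r ≠ .hi → r' ≠ .lo → r' ≠ .hi →
    η ≤ |same (fun l => g * l) (fun l => 1 - g * l) (A t) (B t) r r'|) →
  ∃ (P : Type) (_ : Fintype P) (_ : PartialOrder P),
    Fintype.card P ≤ 2 * (2 * m * N + r) ∧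
    Pool.Agent.H931R3.Bal.HasWidth P (2 * m * N + r) ∧
    Pool.Agent.H13R3.WB.balance P ≤ 1 / 2 - η / 8

def S_MAIN2K : Prop := ∃ C w₀ : ℕ, ∀ w : ℕ, w₀ ≤ w → ∃ (P : Type) (_ : Fintype P) (_ : PartialOrder P),
  Fintype.card P ≤ 2 * w ∧ Pool.Agent.H931R3.Bal.HasWidth P w ∧
  Pool.Agent.H13R3.WB.balance P ≤ 1 / 2 - 1 / Real.log w ^ C

/-- `δ w` is the infimum of the balance constants of the posets of width `w` whose number of elements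
is allowed by `K`. -/
def IsDelK (K : ℕ → ℕ → Prop) (δ : ℕ → ℝ) : Prop :=
  ∀ w : ℕ, δ w = sInf {d : ℝ | ∃ (n : ℕ) (r : Fin n → Fin n → Prop), K w n ∧
    (∀ a, r a a) ∧ (∀ a b c, r a b → r b c → r a c) ∧
    (∀ a b, r a b → r b a → a = b) ∧
    (∃ s : Finset (Fin n), s.card = w ∧ ∀ a ∈ s, ∀ b ∈ s, a ≠ b → ¬ r a b) ∧
    (∀ s : Finset (Fin n), (∀ a ∈ s, ∀ b ∈ s, a ≠ b → ¬ r a b) → s.card ≤ w) ∧
    d = sSup {t : ℝ | ∃ x y : Fin n, ¬ r x y ∧ ¬ r y x ∧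
      t = min
        ((Nat.card {σ : Equiv.Perm (Fin n) //
            (∀ a b, r a b → σ a ≤ σ b) ∧ σ x < σ y} : ℝ) /
          (Nat.card {σ : Equiv.Perm (Fin n) // ∀ a b, r a b → σ a ≤ σ b} : ℝ))
        ((Nat.card {σ : Equiv.Perm (Fin n) //
            (∀ a b, r a b → σ a ≤ σ b) ∧ σ y < σ x} : ℝ) /
          (Nat.card {σ : Equiv.Perm (Fin n) // ∀ a b, r a b → σ a ≤ σ b} : ℝ))}}

def S_TRANSK : Prop := ∀ (K : ℕ → ℕ → Prop) (δ : ℕ → ℝ), IsDelK K δ →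
  ∀ (P : Type) (_ : Fintype P) (_ : PartialOrder P) (w : ℕ) (b : ℝ), K w (Fintype.card P) →
    Pool.Agent.H931R3.Bal.HasWidth P w → Pool.Agent.H13R3.WB.balance P ≤ b → δ w ≤ b

/-- Known examples. -/
def S_EXK : Prop := ∀ w : ℕ, 1 ≤ w → ∃ (P : Type) (_ : Fintype P) (_ : PartialOrder P),
  Pool.Agent.H931R3.Bal.HasWidth P w ∧ Fintype.card P ≤ 3 * w ∧
  Pool.Agent.H13R3.WB.balance P ≤ 1 / 2 - 1 / (12 * (w : ℝ) - 8)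

def S_RATEK : Prop := ∃ B : ℝ, 1 ≤ B ∧ ∀ (K : ℕ → ℕ → Prop), (∀ w n, n ≤ 3 * w → K w n) →
  ∀ δ : ℕ → ℝ, IsDelK K δ → ∀ (ε : ℝ) (w : ℕ), 0 < ε → ε ≤ 1 / 2 →
    Real.exp (B * Real.log (2 / ε) / ε) ≤ w → 1 / 2 - ε ≤ δ w

/-- The final theorem. -/
def S_FINK : Prop := ∃ C : ℕ, ∀ K : ℕ → ℕ → Prop, (∀ w n, n ≤ 3 * w → K w n) →
  ∀ δ : ℕ → ℝ, IsDelK K δ →
  (∀ w : ℕ, 3 ≤ w → δ w ≤ 1 / 2 - 1 / Real.log w ^ C) ∧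
  (∀ w v : ℕ, 3 ≤ w → Real.exp (Real.log w ^ C) ≤ v → δ w < δ v) ∧
  (∀ w : ℕ, 3 ≤ w → ∃ u : ℕ, w ≤ u ∧ (u : ℝ) ≤ Real.exp (Real.log w ^ C) ∧ δ u < δ (u + 1))

end Pool.Agent.H34.RK
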