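import Pool.Agent.H34.RK.Conc
import Pool.Agent.H34.RK.Stm5

/-! # Project RK: `S_CONC` with the bound for the chains (proof of helper92) -/

set_option autoImplicit false

open Finset MeasureTheory

namespace Pool.Agent.H34.RK

open Conc in
theorem uu_leK (hdbd : S_DBD) {L : ℕ} {g : ℝ} {m N : ℕ} {A B : ℕ → Finset ℕ} (hg : 0 < g) (hL : 100 ≤ L)
    (hgL : g * L ^ 8 ≤ 1) (hm : 20 ≤ m) (hAB : ∀ t < N, (A t).card = m ∧ (B t).card = m ∧
      Sub1 L (A t) ∧ Sub1 L (B t)) (l : ℕ) : uu g L N A B l * (4 * L) ≤ N := by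
  have hL' : (100 : ℝ) ≤ L := by exact_mod_cast hL
  have h0 : (uu g L N A B l : ℝ) ≤ g * ∑ i ∈ Icc (l + 1) L, Dd g N A B i := by
    unfold uu
    exact Nat.floor_le (mul_nonneg hg.le (Finset.sum_nonneg fun i _ =>
      Dd_nonneg hdbd hg hL hgL hm hAB i))
  have h1 : ∑ i ∈ Icc (l + 1) L, Dd g N A B i ≤ L * (N * (g * L ^ 4)) := by
    calc ∑ i ∈ Icc (l + 1) L, Dd g N A B i ≤ ∑ _i ∈ Icc (l + 1) L, (N : ℝ) * (g * L ^ 4) :=
          Finset.sum_le_sum fun i _ => Dd_le hdbd hg hL hgL hm hAB i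
      _ = (L + 1 - (l + 1) : ℕ) * (N * (g * L ^ 4)) := by
          rw [Finset.sum_const, Nat.card_Icc, nsmul_eq_mul]
      _ ≤ L * (N * (g * L ^ 4)) := by
          apply mul_le_mul_of_nonneg_right _ (by positivity)
          exact_mod_cast (by omega : L + 1 - (l + 1) ≤ L)
  have h2 : (g * L ^ 8) * (g * L ^ 8) ≤ 1 := mul_le_one₀ hgL (by positivity) hgL
  have h3 : g * (L : ℝ) ^ 4 * (g * L) * (4 * L) ≤ 1 := by
    have h4 : (4 : ℝ) ≤ (L : ℝ) ^ 10 := by
      calc (4 : ℝ) ≤ L := by linarith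
        _ ≤ (L : ℝ) ^ 10 := le_self_pow₀ (by linarith) (by norm_num)
    calc g * (L : ℝ) ^ 4 * (g * L) * (4 * L) = g ^ 2 * (L : ℝ) ^ 6 * 4 := by ring
      _ ≤ g ^ 2 * (L : ℝ) ^ 6 * (L : ℝ) ^ 10 := mul_le_mul_of_nonneg_left h4 (by positivity)
      _ = (g * L ^ 8) * (g * L ^ 8) := by ring
      _ ≤ 1 := h2
  have h5 : (uu g L N A B l : ℝ) * (4 * L) ≤ N := by
    calc (uu g L N A B l : ℝ) * (4 * L) ≤ (g * (L * (N * (g * L ^ 4)))) * (4 * L) :=
          mul_le_mul_of_nonneg_right (h0.trans (mul_le_mul_of_nonneg_left h1 hg.le)) (by positivity)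
      _ = N * (g * (L : ℝ) ^ 4 * (g * L) * (4 * L)) := by ring
      _ ≤ N * 1 := mul_le_mul_of_nonneg_left h3 (Nat.cast_nonneg _)
      _ = N := mul_one _
  exact_mod_cast h5

open Conc in
/-- Concentration of the frontiers. -/
theorem concK : S_GRAD → S_DBD → S_CHAIN → S_PERT → S_ZB → S_MASS → S_REG → S_CONCK := by
  intro hgrad hdbd hchain hpert hzb hmass _ g L m N A B hg hL hgL100 hm hN hAB0
  have hL' : (100 : ℝ) ≤ L := by exact_mod_cast hL
  have hL0 : (0 : ℝ) < L := by linarith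
  have hL1 : (1 : ℝ) ≤ L := by linarith
  have hAB : ∀ t < N, (A t).card = m ∧ (B t).card = m ∧ Sub1 L (A t) ∧ Sub1 L (B t) :=
    fun t ht => ⟨(hAB0 t ht).1, (hAB0 t ht).2.1, (hAB0 t ht).2.2.1, (hAB0 t ht).2.2.2.1⟩
  have hAB' : ∀ t < N, (B t).card = m ∧ (A t).card = m ∧ Sub1 L (B t) ∧ Sub1 L (A t) := fun t ht =>
    ⟨(hAB t ht).2.1, (hAB t ht).1, (hAB t ht).2.2.2, (hAB t ht).2.2.1⟩
  have hgL : g * (L : ℝ) ^ 8 ≤ 1 := by
    refine le_trans ?_ hgL100
    exact mul_le_mul_of_nonneg_left (pow_le_pow_right₀ hL1 (by norm_num)) hg.le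
  have hgL2 : g * (L : ℝ) ^ 2 ≤ 1 := by
    refine le_trans ?_ hgL100
    exact mul_le_mul_of_nonneg_left (pow_le_pow_right₀ hL1 (by norm_num)) hg.le
  -- the scale
  obtain ⟨R, hR⟩ : ∃ R : ℝ, R = (N : ℝ) ^ ((1 : ℝ) / 40) := ⟨_, rfl⟩
  have hR0 : 0 ≤ R := by rw [hR]; positivity
  have hRN : (N : ℝ) = R ^ 40 := by
    rw [hR, ← Real.rpow_natCast, ← Real.rpow_mul (Nat.cast_nonneg _)]
    norm_num
  have hRLg : (L : ℝ) / g ≤ R := by
    rw [hRN] at hN
    exact (pow_le_pow_iff_left₀ (by positivity) hR0 (by norm_num)).1 hN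
  have hLRg : (L : ℝ) ≤ R * g := by
    rw [div_le_iff₀ hg] at hRLg
    exact hRLg
  have hg1 : g ≤ 1 := by
    have : g * 1 ≤ g * (L : ℝ) ^ 2 := mul_le_mul_of_nonneg_left (one_le_pow₀ hL1) hg.le
    linarith
  have hLR : (L : ℝ) ≤ R := hLRg.trans (mul_le_of_le_one_right hR0 hg1)
  have hR100 : 100 ≤ R := hL'.trans hLR
  have hRpos : 0 < R := by linarith
  have hNpos : (0 : ℝ) < N := by rw [hRN]; positivity
  obtain ⟨δ, hδ⟩ : ∃ δ : ℝ, δ = (N : ℝ) ^ (-(1 / 4) : ℝ) := ⟨_, rfl⟩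
  have hδR : δ = 1 / R ^ 10 := by
    rw [hδ, hRN, ← Real.rpow_natCast R 40, ← Real.rpow_mul hR0, one_div (R ^ 10),
      ← Real.rpow_natCast R 10, ← Real.rpow_neg hR0]
    norm_num
  have hδ0 : 0 < δ := by rw [hδR]; positivity
  -- the exponent
  have hq1 : (δ / (g * L)) ^ 2 ≤ 1 := by
    have h1 : δ / (g * L) ≤ 1 := by
      rw [div_le_one (by positivity), hδR, div_le_iff₀ (by positivity)]
      have h2 : R * g ≤ R ^ 10 * g := by
        apply mul_le_mul_of_nonneg_right _ hg.le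
        calc R = R ^ 1 := (pow_one R).symm
          _ ≤ R ^ 10 := pow_le_pow_right₀ (by linarith) (by norm_num)
      have h3 : (1 : ℝ) * 1 ≤ (R ^ 10 * g) * L := mul_le_mul (by linarith) hL1 zero_le_one
        (by positivity)
      linarith
    exact pow_le_one₀ (by positivity) h1
  have hK : ∀ D : ℝ, N * (g / (L : ℝ) ^ 2) ≤ D →
      (R ^ 16 - 1) / 6 ≤ (g * D - 1) * min ((δ / (g * L)) ^ 2) 1 / 6 := by
    intro D hD
    rw [min_eq_left hq1]
    apply div_le_div_of_nonneg_right _ (by norm_num)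
    have hq0 : 0 ≤ (δ / (g * L)) ^ 2 := by positivity
    have h1 : g * (N * (g / (L : ℝ) ^ 2)) - 1 ≤ g * D - 1 := by
      have := mul_le_mul_of_nonneg_left hD hg.le
      linarith
    refine le_trans ?_ (mul_le_mul_of_nonneg_right h1 hq0)
    have h2 : g * (N * (g / (L : ℝ) ^ 2)) * (δ / (g * L)) ^ 2 = R ^ 20 / (L : ℝ) ^ 4 := by
      rw [hRN, hδR]
      field_simp
      try ring
    have h3 : R ^ 16 ≤ R ^ 20 / (L : ℝ) ^ 4 := by
      rw [le_div_iff₀ (by positivity)]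
      calc R ^ 16 * (L : ℝ) ^ 4 ≤ R ^ 16 * R ^ 4 :=
            mul_le_mul_of_nonneg_left (pow_le_pow_left₀ hL0.le hLR 4) (by positivity)
        _ = R ^ 20 := by ring
    rw [sub_mul, h2, one_mul]
    linarith
  have hKA := hK _ (Dd_top hdbd hg hL hgL hm hAB fun t ht => (hAB0 t ht).2.2.2.2.1)
  have hKB := hK _ (Dd_top hdbd hg hL hgL hm hAB' fun t ht => (hAB0 t ht).2.2.2.2.2)
  have hZ : ∀ k : Fin N, 0 < ZZ g (A k) (B k) := fun k => by
    obtain ⟨h1, h2, h3, h4⟩ := hAB k k.2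
    exact lt_of_lt_of_le (by positivity) (zlow hzb hg hL hgL hm h3 h4 h1 h2)
  refine ⟨uu g L N A B, uu g L N B A, fun l => ⟨uu_leK hdbd hg hL hgL hm hAB l,
    uu_leK hdbd hg hL hgL hm hAB' l⟩, ?_⟩
  obtain ⟨W, hW⟩ : ∃ W : (Fin L ⊕ Fin L → ℝ) → ℝ, W = fun θ => wt (uu g L N A B) (uu g L N B A) θ *
    ∏ k : Fin N, ZT (phi θ) (psi θ) (A k) (B k) := ⟨_, rfl⟩
  obtain ⟨Ws, hWs⟩ : ∃ Ws : ℝ, Ws = (∏ l ∈ range L, g ^ uu g L N A B l / (uu g L N A B l).factorial) *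
      (∏ l ∈ range L, g ^ uu g L N B A l / (uu g L N B A l).factorial) *
        ∏ k : Fin N, ZZ g (A k) (B k) := ⟨_, rfl⟩
  have hWs0 : 0 < Ws := by
    rw [hWs]
    exact mul_pos (mul_pos (Finset.prod_pos fun l _ => by positivity)
      (Finset.prod_pos fun l _ => by positivity)) (Finset.prod_pos fun k _ => hZ k)
  have hrat := ratio (L := L) (uu g L N A B) (uu g L N B A) N A B g hg hZ
  have hWint : IntegrableOn W (OmS L) := by
    rw [hW]
    exact int_W (uu g L N A B) (uu g L N B A) N A B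
  have hWcont : Continuous W := by
    rw [hW]
    exact cont_W (uu g L N A B) (uu g L N B A) N A B
  have hW0 : ∀ θ ∈ OmS L, 0 ≤ W θ := by
    intro θ hθ
    rw [hW]
    simp only
    apply mul_nonneg
    · unfold wt
      apply mul_nonneg
      · refine Finset.prod_nonneg fun l hl => ?_
        have := hθ.2.1 l (Finset.mem_range.1 hl)
        exact div_nonneg (pow_nonneg (by linarith) _) (Nat.cast_nonneg _)
      · refine Finset.prod_nonneg fun l hl => ?_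
        have := hθ.2.2.1 l (Finset.mem_range.1 hl)
        exact div_nonneg (pow_nonneg (by linarith) _) (Nat.cast_nonneg _)
    · refine Finset.prod_nonneg fun k _ => ?_
      exact (hmass (phi θ) (psi θ) (A k) (B k) (.inl false) (phi_mem hθ.1)
        (psi_mem hθ.1)).2.2.2.1
  -- lower bound for the total mass
  obtain ⟨ρ, hρ⟩ : ∃ ρ : ℝ, ρ = 1 / (N : ℝ) ^ 2 := ⟨_, rfl⟩
  have hρ0 : 0 ≤ ρ := by rw [hρ]; positivity
  have hRR : ρ = 1 / R ^ 80 := by
    rw [hρ, hRN, ← pow_mul]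
  have hρR : ρ * R ^ 80 = 1 := by
    rw [hRR]
    field_simp
  have hpw : ∀ k : ℕ, k ≤ 79 → ρ * R ^ k ≤ 1 / 100 := by
    intro k hk
    have h1 : R ^ k * 100 ≤ R ^ 80 := by
      calc R ^ k * 100 ≤ R ^ k * R := mul_le_mul_of_nonneg_left hR100 (by positivity)
        _ = R ^ (k + 1) := (pow_succ R k).symm
        _ ≤ R ^ 80 := pow_le_pow_right₀ (by linarith) (by omega)
    have h2 : ρ * (R ^ k * 100) ≤ 1 := by
      rw [← hρR]
      exact mul_le_mul_of_nonneg_left h1 hρ0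
    linarith
  have hgR : 1 / g ≤ R := by
    rw [div_le_iff₀ hg]
    linarith
  have hρg : 2 * ρ < g := by
    have h1 := hpw 1 (by norm_num)
    rw [pow_one] at h1
    have h2 : ρ * L ≤ ρ * (R * g) := mul_le_mul_of_nonneg_left hLRg hρ0
    nlinarith
  have hρ1 : (L : ℝ) * N * (2 * ρ / g) ≤ 1 / 2 := by
    have h1 := hpw 42 (by norm_num)
    calc (L : ℝ) * N * (2 * ρ / g) = 2 * (ρ * (L * (1 / g) * N)) := by ring
      _ ≤ 2 * (ρ * (R * R * R ^ 40)) := by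
          rw [hRN]
          gcongr
      _ = 2 * (ρ * R ^ 42) := by ring
      _ ≤ 1 / 2 := by linarith
  have hρ2 : (N : ℝ) * (2 * L ^ 4 * ρ) ≤ 1 / 2 := by
    have h1 := hpw 44 (by norm_num)
    calc (N : ℝ) * (2 * L ^ 4 * ρ) = 2 * (ρ * (L ^ 4 * N)) := by ring
      _ ≤ 2 * (ρ * (R ^ 4 * R ^ 40)) := by
          rw [hRN]
          gcongr
      _ = 2 * (ρ * R ^ 44) := by ring
      _ ≤ 1 / 2 := by linarith
  have hρ3 : 2 * (L : ℝ) ^ 4 * ρ ≤ 1 := by
    have h1 := hpw 4 (by norm_num)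
    calc 2 * (L : ℝ) ^ 4 * ρ = 2 * (ρ * L ^ 4) := by ring
      _ ≤ 2 * (ρ * R ^ 4) := by gcongr
      _ ≤ 1 := by linarith
  have hgLs : 2 * (g * L) + 2 * ρ < 1 := by
    have h1 : g * L * 100 ≤ g * (L : ℝ) ^ 2 := by
      calc g * L * 100 ≤ g * L * L := mul_le_mul_of_nonneg_left hL' (by positivity)
        _ = g * (L : ℝ) ^ 2 := by ring
    have h2 := hpw 0 (by norm_num)
    rw [pow_zero, mul_one] at h2
    nlinarith
  have hsub := box_sub (L := L) hg hρ0 hρg hgLs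
  have hbox : Ws * (1 / 8) * (2 * ρ) ^ (2 * L) ≤ ∫ θ in OmS L, W θ := by
    calc Ws * (1 / 8) * (2 * ρ) ^ (2 * L) = Ws * (1 / 8) *
          (volume (Set.Icc (fun i => cen L g i - ρ) (fun i => cen L g i + ρ))).toReal := by
            rw [vol_box L g ρ hρ0]
      _ ≤ ∫ θ in Set.Icc (fun i => cen L g i - ρ) (fun i => cen L g i + ρ), W θ := by
          rw [mul_comm]
          refine setIntegral_ge_of_const_le (c := Ws * (1 / 8)) measurableSet_Icc ?_
            (fun θ hθ => ?_) (hWint.mono_set hsub)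
          · exact isCompact_Icc.measure_lt_top.ne
          · have h1 := lowb hdbd hpert hzb hg hL hgL hm hAB ρ hρ0 hρg hρ1 hρ2 hρ3 θ (hsub hθ) hθ
            have h2 := hrat θ
            rw [← hWs] at h2
            rw [hW]
            simp only
            rw [h2]
            exact mul_le_mul_of_nonneg_left h1 hWs0.le
      _ ≤ ∫ θ in OmS L, W θ := by
          refine setIntegral_mono_set hWint ?_ hsub.eventuallyLE
          exact ae_restrict_of_forall_mem (meas_OmS L) fun θ hθ => hW0 θ hθ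
  have hfin := fin_num L N R ((R ^ 16 - 1) / 6) hR100 hLR hRN le_rfl
  rw [← hρ] at hfin
  have hpos : 0 < ∫ θ in OmS L, W θ := by
    refine lt_of_lt_of_le ?_ hbox
    have : 0 < ρ := by rw [hρ]; positivity
    positivity
  rw [← hδ]
  have hup : ∫ θ in OmS L ∩ {θ | ∃ l, 1 ≤ l ∧ l ≤ L ∧ (δ < |phi θ l - g * l| ∨
        δ < |psi θ l - (1 - g * l)|)}, W θ ≤ Ws * Real.exp (2 * L - (R ^ 16 - 1) / 6) := by
    refine up_int W _ Set.inter_subset_left _ (by positivity) (fun θ hθ => hW0 θ hθ.1) ?_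
    intro θ hθ
    have h1 := logb hgrad hdbd hchain hzb hmass hg hL hgL hm hAB δ hδ0 θ hθ.1 hθ.2
      ((R ^ 16 - 1) / 6) hKA hKB
    have h2 := hrat θ
    rw [← hWs] at h2
    rw [hW]
    simp only
    rw [h2]
    exact mul_le_mul_of_nonneg_left h1 hWs0.le
  rw [hW] at hpos hup hbox
  refine ⟨hpos, hup.trans ?_⟩
  calc Ws * Real.exp (2 * L - (R ^ 16 - 1) / 6)
      ≤ Ws * (1 / N * ((2 * ρ) ^ (2 * L) * (1 / 8))) := mul_le_mul_of_nonneg_left hfin hWs0.le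
    _ = 1 / N * (Ws * (1 / 8) * (2 * ρ) ^ (2 * L)) := by ring
    _ ≤ _ := mul_le_mul_of_nonneg_left hbox (by positivity)

end Pool.Agent.H34.RK
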