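import Pool.Agent.H34.RK.Stm6

/-!
# Project RK: the final theorem with explicit exponent
-/

set_option autoImplicit false

open Finset MeasureTheory

namespace Pool.Agent.H34.RK

/-- for large `w` -/
theorem large_w4 (B : ℝ) : ∀ᶠ w : ℕ in Filter.atTop,
    2 * B * (2 + 3061 * Real.log (Real.log w)) ≤ Real.log w ∧ 3 ≤ Real.log w := by
  have h1 : Filter.Tendsto (fun w : ℕ => Real.log (w : ℝ)) Filter.atTop Filter.atTop :=
    Real.tendsto_log_atTop.comp tendsto_natCast_atTop_atTop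
  have h2 : (fun x : ℝ => 2 * B * (2 + 3061 * Real.log x)) =o[Filter.atTop] (fun x : ℝ => x) := by
    refine Asymptotics.IsLittleO.const_mul_left ?_ _
    refine Asymptotics.IsLittleO.add ?_ ?_
    · exact Asymptotics.isLittleO_const_id_atTop 2
    · exact Asymptotics.IsLittleO.const_mul_left Real.isLittleO_log_id_atTop _
  have h3 := h2.def (by norm_num : (0 : ℝ) < 1)
  have h4 := h1.eventually h3
  filter_upwards [h1.eventually_ge_atTop (3 : ℝ), h4] with w ha hb
  refine ⟨?_, ha⟩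
  have h6 : ‖Real.log (w : ℝ)‖ = Real.log w := Real.norm_of_nonneg (by linarith)
  rw [h6, one_mul] at hb
  exact (le_abs_self _).trans hb

theorem finE : S_MAIN2E → S_TRANSK → S_RATEE → S_FINE := by
  rintro ⟨w₁, h1⟩ hT ⟨B, hB1, hR⟩
  obtain ⟨w₂, hw₂⟩ := Filter.eventually_atTop.1 (large_w4 B)
  have part1 : ∀ K : ℕ → ℕ → Prop, (∀ w n, n ≤ 2 * w → K w n) → ∀ δ : ℕ → ℝ, IsDelK K δ →
      ∀ w : ℕ, max w₁ w₂ ≤ w → δ w ≤ 1 / 2 - 1 / Real.log w ^ 3061 := by
    intro K hK δ hδ w hw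
    obtain ⟨P, i1, i2, hP0, hP1, hP2⟩ := h1 w ((le_max_left _ _).trans hw)
    exact hT K δ hδ P i1 i2 w _ (hK w _ hP0) hP1 hP2
  have part2 : ∀ K : ℕ → ℕ → Prop, (∀ w n, n ≤ 2 * w → K w n) → ∀ δ : ℕ → ℝ, IsDelK K δ →
      ∀ w v : ℕ, max w₁ w₂ ≤ w → Real.exp (Real.log w ^ 3062) ≤ v → δ w < δ v := by
    intro K hK δ hδ w v hw hv
    obtain ⟨hx1, hx2⟩ := hw₂ w ((le_max_right _ _).trans hw)
    have h1' := part1 K hK δ hδ w hw
    obtain ⟨y, hydef⟩ : ∃ y : ℝ, y = Real.log w := ⟨_, rfl⟩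
    rw [← hydef] at hx1 hx2 hv h1'
    have hy0 : 0 < y := by linarith
    obtain ⟨z, hz⟩ : ∃ z : ℝ, z = y ^ 3061 := ⟨_, rfl⟩
    rw [← hz] at h1'
    have hz1 : 1 ≤ z := by rw [hz]; exact one_le_pow₀ (by linarith)
    have hz0 : 0 < z := by linarith
    have h2 := hR K hK δ hδ (1 / (2 * z)) v (by positivity)
      (one_div_le_one_div_of_le (by norm_num) (by linarith)) (by
        refine le_trans (Real.exp_le_exp.2 ?_) hv
        have e1 : 2 / (1 / (2 * z)) = 4 * z := by field_simp; norm_num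
        have e2 : B * Real.log (2 / (1 / (2 * z))) / (1 / (2 * z)) =
            2 * B * Real.log (4 * z) * z := by
          rw [e1]
          field_simp
        rw [e2]
        have h3 : Real.log (4 * z) ≤ 2 + 3061 * Real.log y := by
          rw [Real.log_mul (by norm_num) hz0.ne', hz, Real.log_pow]
          have h4 : Real.log 4 ≤ 2 := by
            have h5 : Real.log 4 = 2 * Real.log 2 := by
              rw [show (4 : ℝ) = 2 ^ 2 by norm_num, Real.log_pow]
              norm_num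
            have h6 := Real.log_two_lt_d9
            linarith
          push_cast
          linarith
        calc 2 * B * Real.log (4 * z) * z ≤ 2 * B * (2 + 3061 * Real.log y) * z :=
              mul_le_mul_of_nonneg_right (mul_le_mul_of_nonneg_left h3 (by linarith)) hz0.le
          _ ≤ y * z := mul_le_mul_of_nonneg_right hx1 hz0.le
          _ = y ^ 3062 := by rw [hz, ← pow_succ'])
    have h5 : 1 / (2 * z) < 1 / z := one_div_lt_one_div_of_lt hz0 (by linarith)
    linarith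
  refine ⟨max w₁ w₂, fun K hK δ hδ => ⟨part1 K hK δ hδ, part2 K hK δ hδ, fun w hw => ?_⟩⟩
  have hlog : 3 ≤ Real.log w := (hw₂ w ((le_max_right _ _).trans hw)).2
  have hy1 : 1 ≤ Real.log w := by linarith
  obtain ⟨E, hE⟩ : ∃ E : ℝ, E = Real.exp (Real.log w ^ 3062) := ⟨_, rfl⟩
  have hw0 : (0 : ℝ) < w := by
    rcases Nat.eq_zero_or_pos w with h | h
    · rw [h, Nat.cast_zero, Real.log_zero] at hlog
      linarith
    · exact_mod_cast h
  have hwE : (w : ℝ) ≤ E := by
    rw [hE]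
    calc (w : ℝ) = Real.exp (Real.log w) := (Real.exp_log hw0).symm
      _ ≤ _ := Real.exp_le_exp.2 (le_self_pow₀ hy1 (by omega))
  have hlt : δ w < δ ⌈E⌉₊ := part2 K hK δ hδ w ⌈E⌉₊ hw (by rw [← hE]; exact Nat.le_ceil E)
  have hwv : w ≤ ⌈E⌉₊ := by
    have : (w : ℝ) ≤ ⌈E⌉₊ := hwE.trans (Nat.le_ceil E)
    exact_mod_cast this
  by_contra hcon
  have hcon' : ∀ u : ℕ, w ≤ u → (u : ℝ) ≤ E → δ (u + 1) ≤ δ u := by
    intro u hu1 hu2
    by_contra h
    exact hcon ⟨u, hu1, by rw [← hE]; exact hu2, not_le.1 h⟩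
  have hmono : ∀ k : ℕ, w + k ≤ ⌈E⌉₊ → δ (w + k) ≤ δ w := by
    intro k
    induction k with
    | zero => intro _; exact le_rfl
    | succ k ih =>
      intro hk
      have h1 : ((w + k : ℕ) : ℝ) ≤ E := by
        have h2 : w + k < ⌈E⌉₊ := by omega
        exact (Nat.lt_ceil.1 h2).le
      exact (hcon' (w + k) (by omega) h1).trans (ih (by omega))
  have h6 := hmono (⌈E⌉₊ - w) (by omega)
  rw [Nat.add_sub_cancel' hwv] at h6
  exact absurd hlt (not_lt.2 h6)

end Pool.Agent.H34.RK
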