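import Pool.Agent.H34.RK.Stm5

/-!
# Project RK, part 6: the version for posets with few elements, explicit exponent
-/

set_option autoImplicit false

open Finset MeasureTheory

namespace Pool.Agent.H34.RK

def S_MAIN2E : Prop := ∃ w₀ : ℕ, ∀ w : ℕ, w₀ ≤ w → ∃ (P : Type) (_ : Fintype P) (_ : PartialOrder P),
  Fintype.card P ≤ 2 * w ∧ Pool.Agent.H931R3.Bal.HasWidth P w ∧
  Pool.Agent.H13R3.WB.balance P ≤ 1 / 2 - 1 / Real.log w ^ 3061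

def S_RATEE : Prop := ∃ B : ℝ, 1 ≤ B ∧ ∀ (K : ℕ → ℕ → Prop), (∀ w n, n ≤ 2 * w → K w n) →
  ∀ δ : ℕ → ℝ, IsDelK K δ → ∀ (ε : ℝ) (w : ℕ), 0 < ε → ε ≤ 1 / 2 →
    Real.exp (B * Real.log (2 / ε) / ε) ≤ w → 1 / 2 - ε ≤ δ w

/-- The final theorem. -/
def S_FINE : Prop := ∃ w₀ : ℕ, ∀ K : ℕ → ℕ → Prop, (∀ w n : ℕ, n ≤ 2 * w → K w n) →
  ∀ δ : ℕ → ℝ, IsDelK K δ →
  (∀ w : ℕ, w₀ ≤ w → δ w ≤ 1 / 2 - 1 / Real.log w ^ 3061) ∧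
  (∀ w v : ℕ, w₀ ≤ w → Real.exp (Real.log w ^ 3062) ≤ v → δ w < δ v) ∧
  (∀ w : ℕ, w₀ ≤ w → ∃ u : ℕ, w ≤ u ∧ (u : ℝ) ≤ Real.exp (Real.log w ^ 3062) ∧ δ u < δ (u + 1))

end Pool.Agent.H34.RK
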