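import Pool.Agent.H34.RK.Lib
import Pool.Agent.H34.RK.Stm6

/-! The known lower bound, for posets with few elements. -/

set_option autoImplicit false

namespace Pool.Agent.H34.RK.Asm

/-- the sets in the definition of `δ` -/
def SetK (K : ℕ → ℕ → Prop) (w : ℕ) : Set ℝ :=
  {d : ℝ | ∃ (n : ℕ) (r : Fin n → Fin n → Prop), K w n ∧
    (∀ a, r a a) ∧ (∀ a b c, r a b → r b c → r a c) ∧
    (∀ a b, r a b → r b a → a = b) ∧
    (∃ s : Finset (Fin n), s.card = w ∧ ∀ a ∈ s, ∀ b ∈ s, a ≠ b → ¬ r a b) ∧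
    (∀ s : Finset (Fin n), (∀ a ∈ s, ∀ b ∈ s, a ≠ b → ¬ r a b) → s.card ≤ w) ∧
    d = sSup {t : ℝ | ∃ x y : Fin n, ¬ r x y ∧ ¬ r y x ∧
      t = min
        ((Nat.card {σ : Equiv.Perm (Fin n) //
            (∀ a b, r a b → σ a ≤ σ b) ∧ σ x < σ y} : ℝ) /
          (Nat.card {σ : Equiv.Perm (Fin n) // ∀ a b, r a b → σ a ≤ σ b} : ℝ))
        ((Nat.card {σ : Equiv.Perm (Fin n) //
            (∀ a b, r a b → σ a ≤ σ b) ∧ σ y < σ x} : ℝ) /
          (Nat.card {σ : Equiv.Perm (Fin n) // ∀ a b, r a b → σ a ≤ σ b} : ℝ))}}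

theorem isDel_of (δ : ℕ → ℝ) (h : ∀ w, δ w = sInf (SetK (fun _ _ => True) w)) : IsDel δ := by
  intro w
  rw [h w]
  congr 1
  ext d
  unfold SetK
  simp only [Set.mem_ofPred_eq, true_and]

theorem setK_bdd (K : ℕ → ℕ → Prop) (w : ℕ) : BddBelow (SetK K w) := by
  refine ⟨0, ?_⟩
  rintro d ⟨n, r, -, -, -, -, -, -, rfl⟩
  refine Real.sSup_nonneg fun t ht => ?_
  obtain ⟨x, y, -, -, rfl⟩ := ht
  exact le_min (by positivity) (by positivity)

theorem setK_mono (K : ℕ → ℕ → Prop) (w : ℕ) : SetK K w ⊆ SetK (fun _ _ => True) w := by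
  rintro d ⟨n, r, -, h⟩
  exact ⟨n, r, trivial, h⟩

theorem setK_ne (K : ℕ → ℕ → Prop) (hK : ∀ w n, n ≤ 2 * w → K w n) (w : ℕ) :
    (SetK K w).Nonempty := by
  classical
  refine ⟨_, w, fun a b => a = b, hK w w (by omega), fun _ => rfl, fun a b c h1 h2 => h1.trans h2,
    fun a b h _ => h, ⟨Finset.univ, by simp, fun a _ b _ h1 h2 => h1 h2⟩, fun s _ => ?_, rfl⟩
  simpa using Finset.card_le_univ s

theorem t_rateE : S_RATEE := by
  obtain ⟨B, hB, h⟩ := t_rate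
  refine ⟨B, hB, fun K hK δ hδ ε w hε hε2 hw => ?_⟩
  have h1 := h (fun w => sInf (SetK (fun _ _ => True) w)) (isDel_of _ fun _ => rfl) ε w hε hε2 hw
  refine h1.trans ?_
  rw [hδ w]
  exact csInf_le_csInf (setK_bdd _ w) (setK_ne K hK w) (setK_mono K w)

end Pool.Agent.H34.RK.Asm
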