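import Pool.Agent.H34.RK.Stm4

/-!
# RK-PAIR: laws of two extra pairs
-/

set_option autoImplicit false

open Finset MeasureTheory

namespace Pool.Agent.H34.RK

namespace PAIRa

theorem Lder {f F : ℝ → ℝ} {a b : ℝ} (hF : ∀ x, HasDerivAt F (f x) x) (hf : Continuous f)
    (h0 : ∀ x ∈ Set.Ioo a b, 0 ≤ f x) :
    ∫⁻ x in Set.Ioo a b, ENNReal.ofReal (f x) ≤ ENNReal.ofReal (F b - F a) := by
  rcases le_or_gt b a with h | h
  · rw [Set.Ioo_eq_empty (not_lt.2 h)]
    simp
  have h1 : ∫ x in a..b, f x = F b - F a :=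
    intervalIntegral.integral_eq_sub_of_hasDerivAt (fun x _ => hF x) (hf.intervalIntegrable _ _)
  rw [← h1, intervalIntegral.integral_of_le h.le, integral_Ioc_eq_integral_Ioo]
  refine le_of_eq (ofReal_integral_eq_lintegral_ofReal ?_ ?_).symm
  · exact (hf.integrableOn_Icc (a := a) (b := b)).mono_set Set.Ioo_subset_Icc_self
  · exact (ae_restrict_iff' measurableSet_Ioo).2 (Filter.Eventually.of_forall h0)

theorem ite_lt_le (g : ℝ → ENNReal) (a b c : ℝ) :
    ∫⁻ x in Set.Ioo a b, (if x < c then g x else 0) ≤ ∫⁻ x in Set.Ioo a c, g x := by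
  have h : ∀ x, (if x < c then g x else 0) = (Set.Iio c).indicator g x := fun x => by
    simp [Set.indicator_apply]
  simp only [h]
  rw [lintegral_indicator measurableSet_Iio, Measure.restrict_restrict measurableSet_Iio]
  exact lintegral_mono_set fun x hx => ⟨hx.2.1, hx.1⟩

theorem ite_gt_le (g : ℝ → ENNReal) (a b c : ℝ) :
    ∫⁻ x in Set.Ioo a b, (if c < x then g x else 0) ≤ ∫⁻ x in Set.Ioo c b, g x := by
  have h : ∀ x, (if c < x then g x else 0) = (Set.Ioi c).indicator g x := fun x => by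
    simp [Set.indicator_apply]
  simp only [h]
  rw [lintegral_indicator measurableSet_Ioi, Measure.restrict_restrict measurableSet_Ioi]
  exact lintegral_mono_set fun x hx => ⟨hx.1, hx.2.2⟩

/-- inner integral over `d'` of a constant -/
theorem inner_const (a b : ℝ) (c : ENNReal) :
    ∫⁻ _x in Set.Ioo a b, c = c * ENNReal.ofReal (b - a) := by
  rw [setLIntegral_const, Real.volume_Ioo]

/-- `∫_(a')^1 ∫_(e')^1 1_(e' < e)` -/
theorem low (a' e : ℝ) (he1 : e < 1) :
    (∫⁻ e' in Set.Ioo a' 1, ∫⁻ _d' in Set.Ioo e' 1, (if e' < e then (1 : ENNReal) else 0)) ≤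
      if a' < e then ENNReal.ofReal (((1 - a') ^ 2 - (1 - e) ^ 2) / 2) else 0 := by
  have h1 : ∀ e' : ℝ, (∫⁻ _d' in Set.Ioo e' 1, (if e' < e then (1 : ENNReal) else 0)) =
      if e' < e then ENNReal.ofReal (1 - e') else 0 := by
    intro e'
    rw [inner_const]
    split_ifs <;> simp
  simp only [h1]
  refine (ite_lt_le _ _ _ _).trans ?_
  split_ifs with h
  · refine (Lder (F := fun x => -(1 - x) ^ 2 / 2) (fun x => ?_) (by fun_prop)
      (fun x hx => by have := hx.2; linarith)).trans (le_of_eq ?_)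
    · have := (((hasDerivAt_id x).const_sub 1).pow 2).neg.div_const 2
      refine this.congr_deriv ?_
      simp
    · congr 1
      ring
  · rw [Set.Ioo_eq_empty h]
    simp

/-- `∫_(a')^1 ∫_(e')^1 1_(d' < e)` -/
theorem low2 (a' e : ℝ) :
    (∫⁻ e' in Set.Ioo a' 1, ∫⁻ d' in Set.Ioo e' 1, (if d' < e then (1 : ENNReal) else 0)) ≤
      if a' < e then ENNReal.ofReal ((e - a') ^ 2 / 2) else 0 := by
  have h1 : ∀ e' : ℝ, (∫⁻ d' in Set.Ioo e' 1, (if d' < e then (1 : ENNReal) else 0)) ≤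
      if e' < e then ENNReal.ofReal (e - e') else 0 := by
    intro e'
    refine (ite_lt_le (fun _ => 1) _ _ _).trans ?_
    rw [inner_const, one_mul]
    split_ifs with h
    · exact le_rfl
    · rw [ENNReal.ofReal_of_nonpos (by linarith)]
  refine (lintegral_mono h1).trans ?_
  refine (ite_lt_le _ _ _ _).trans ?_
  split_ifs with h
  · refine (Lder (F := fun x => -(e - x) ^ 2 / 2) (fun x => ?_) (by fun_prop)
      (fun x hx => by have := hx.2; linarith)).trans (le_of_eq ?_)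
    · have := (((hasDerivAt_id x).const_sub e).pow 2).neg.div_const 2
      refine this.congr_deriv ?_
      simp
    · congr 1
      ring
  · rw [Set.Ioo_eq_empty h]
    simp

/-- `∫_(a')^1 ∫_(e')^1 1_(d < e')` -/
theorem up (a' d : ℝ) :
    (∫⁻ e' in Set.Ioo a' 1, ∫⁻ _d' in Set.Ioo e' 1, (if d < e' then (1 : ENNReal) else 0)) ≤
      ENNReal.ofReal ((1 - d) ^ 2 / 2) := by
  have h1 : ∀ e' : ℝ, (∫⁻ _d' in Set.Ioo e' 1, (if d < e' then (1 : ENNReal) else 0)) =
      if d < e' then ENNReal.ofReal (1 - e') else 0 := by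
    intro e'
    rw [inner_const]
    split_ifs <;> simp
  simp only [h1]
  refine (ite_gt_le _ _ _ _).trans ?_
  refine (Lder (F := fun x => -(1 - x) ^ 2 / 2) (fun x => ?_) (by fun_prop)
    (fun x hx => by have := hx.2; linarith)).trans (le_of_eq ?_)
  · have := (((hasDerivAt_id x).const_sub 1).pow 2).neg.div_const 2
    refine this.congr_deriv ?_
    simp
  · congr 1
    ring

theorem mono_on {a b : ℝ} {f g : ℝ → ENNReal} (h : ∀ x ∈ Set.Ioo a b, f x ≤ g x) :
    ∫⁻ x in Set.Ioo a b, f x ≤ ∫⁻ x in Set.Ioo a b, g x :=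
  setLIntegral_mono' measurableSet_Ioo h

end PAIRa

open PAIRa in
theorem pair : S_PAIR := by
  intro a a' ha haa ha'
  refine ⟨?_, ?_, ?_, ?_⟩
  · -- first
    have h1 : ∀ e ∈ Set.Ioo a 1, (∫⁻ _d in Set.Ioo e 1, ∫⁻ e' in Set.Ioo a' 1,
        ∫⁻ _d' in Set.Ioo e' 1, (if e' < e then (1 : ENNReal) else 0)) ≤
        if a' < e then ENNReal.ofReal (((1 - a') ^ 2 - (1 - e) ^ 2) / 2 * (1 - e)) else 0 := by
      intro e he
      refine (mono_on fun d _ => low a' e he.2).trans ?_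
      rw [inner_const]
      split_ifs with h
      · rw [← ENNReal.ofReal_mul' (by linarith [he.2])]
      · simp
    refine (mono_on h1).trans ((ite_gt_le _ _ _ _).trans ?_)
    refine (Lder (F := fun x => -((1 - a') ^ 2 * (1 - x) ^ 2 / 4) + (1 - x) ^ 4 / 8) (fun x => ?_)
      (by fun_prop) (fun x hx => ?_)).trans ?_
    · have h1 := ((hasDerivAt_id x).const_sub 1).pow 2
      have h2 := ((hasDerivAt_id x).const_sub 1).pow 4
      have h3 := ((h1.const_mul ((1 - a') ^ 2)).div_const 4).neg.add (h2.div_const 8)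
      refine h3.congr_deriv ?_
      simp
      ring
    · have h3 : 1 - x ≤ 1 - a' := by linarith [hx.1]
      have h4 : 0 ≤ 1 - x := by linarith [hx.2]
      have h5 : (1 - x) ^ 2 ≤ (1 - a') ^ 2 := pow_le_pow_left₀ h4 h3 2
      refine mul_nonneg ?_ h4
      linarith
    · apply ENNReal.ofReal_le_ofReal
      have e1 : -((1 - a') ^ 2 * (1 - 1) ^ 2 / 4) + (1 - 1) ^ 4 / 8 -
        (-((1 - a') ^ 2 * (1 - a') ^ 2 / 4) + (1 - a') ^ 4 / 8) = (1 - a') ^ 2 * ((1 - a') ^ 2 / 8) := by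
        ring
      have e2 : (1 / 2 - (a' - a) / 3) * ((1 - a) ^ 2 / 2 * ((1 - a') ^ 2 / 2)) =
        (1 - a') ^ 2 * ((1 / 2 - (a' - a) / 3) * (1 - a) ^ 2 / 4) := by ring
      show -((1 - a') ^ 2 * (1 - 1) ^ 2 / 4) + (1 - 1) ^ 4 / 8 -
        (-((1 - a') ^ 2 * (1 - a') ^ 2 / 4) + (1 - a') ^ 4 / 8) ≤ _
      rw [e1, e2]
      refine mul_le_mul_of_nonneg_left ?_ (sq_nonneg _)
      have h6 : (1 - a) ^ 2 ≤ 1 := by nlinarith
      nlinarith [mul_nonneg (sub_nonneg.2 haa.le) (sub_nonneg.2 h6)]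
  · -- second
    have h2 : ∀ e ∈ Set.Ioo a 1, (∫⁻ d in Set.Ioo e 1, ∫⁻ e' in Set.Ioo a' 1,
        ∫⁻ d' in Set.Ioo e' 1, (if d' < d then (1 : ENNReal) else 0)) ≤
        ∫⁻ d in Set.Ioo e 1, (if a' < d then ENNReal.ofReal ((d - a') ^ 2 / 2) else 0) := by
      intro e he
      exact mono_on fun d _ => low2 a' d
    have hder : ∀ x : ℝ, HasDerivAt (fun x : ℝ => (x - a') ^ 3 / 6) ((x - a') ^ 2 / 2) x := by
      intro x
      have h1 := (((hasDerivAt_id x).sub_const a').pow 3).div_const 6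
      refine h1.congr_deriv ?_
      simp
      ring
    have h3 : ∀ e : ℝ, (∫⁻ d in Set.Ioo e 1,
        (if a' < d then ENNReal.ofReal ((d - a') ^ 2 / 2) else 0)) ≤
        ENNReal.ofReal ((1 - a') ^ 3 / 6) := by
      intro e
      refine (ite_gt_le _ _ _ _).trans ((Lder hder (by fun_prop) fun x _ => by positivity).trans
        (le_of_eq ?_))
      congr 1
      ring
    have h4 : ∀ e : ℝ, (∫⁻ d in Set.Ioo e 1,
        (if a' < d then ENNReal.ofReal ((d - a') ^ 2 / 2) else 0)) ≤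
        ENNReal.ofReal (((1 - a') ^ 3 - (e - a') ^ 3) / 6) := by
      intro e
      have h5 : (∫⁻ d in Set.Ioo e 1,
        (if a' < d then ENNReal.ofReal ((d - a') ^ 2 / 2) else 0)) ≤
        ∫⁻ d in Set.Ioo e 1, ENNReal.ofReal ((d - a') ^ 2 / 2) := by
        refine lintegral_mono fun d => ?_
        show (if a' < d then ENNReal.ofReal ((d - a') ^ 2 / 2) else 0) ≤ _
        split_ifs
        · exact le_rfl
        · exact bot_le
      refine h5.trans ((Lder hder (by fun_prop) fun x _ => by positivity).trans (le_of_eq ?_))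
      congr 1
      ring
    refine (mono_on h2).trans ?_
    have hun : Set.Ioo a 1 ⊆ Set.Ioo a a' ∪ ({a'} ∪ Set.Ioo a' 1) := by
      intro x hx
      rcases lt_trichotomy x a' with h | h | h
      · exact Or.inl ⟨hx.1, h⟩
      · exact Or.inr (Or.inl h)
      · exact Or.inr (Or.inr ⟨h, hx.2⟩)
    refine (lintegral_mono_set hun).trans ((lintegral_union_le _ _ _).trans ?_)
    refine (add_le_add le_rfl (lintegral_union_le _ _ _)).trans ?_
    rw [setLIntegral_measure_zero _ _ (by simp : volume ({a'} : Set ℝ) = 0), zero_add]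
    have h6 : (∫⁻ e in Set.Ioo a a', ∫⁻ d in Set.Ioo e 1,
        (if a' < d then ENNReal.ofReal ((d - a') ^ 2 / 2) else 0)) ≤
        ENNReal.ofReal ((1 - a') ^ 3 / 6 * (a' - a)) := by
      refine (mono_on fun e _ => h3 e).trans ?_
      rw [inner_const, ← ENNReal.ofReal_mul' (by linarith)]
    have h7 : (∫⁻ e in Set.Ioo a' 1, ∫⁻ d in Set.Ioo e 1,
        (if a' < d then ENNReal.ofReal ((d - a') ^ 2 / 2) else 0)) ≤
        ENNReal.ofReal ((1 - a') ^ 4 / 8) := by
      refine (mono_on fun e _ => h4 e).trans ?_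
      refine (Lder (F := fun x => (1 - a') ^ 3 * x / 6 - (x - a') ^ 4 / 24) (fun x => ?_)
        (by fun_prop) (fun x hx => ?_)).trans (le_of_eq ?_)
      · have h1 := ((hasDerivAt_id x).const_mul ((1 - a') ^ 3)).div_const 6
        have h2 := (((hasDerivAt_id x).sub_const a').pow 4).div_const 24
        refine (h1.sub h2).congr_deriv ?_
        simp
        ring
      · have h8 : (x - a') ^ 3 ≤ (1 - a') ^ 3 :=
          pow_le_pow_left₀ (by linarith [hx.1]) (by linarith [hx.2]) 3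
        linarith
      · congr 1
        ring
    refine (add_le_add h6 h7).trans ?_
    have h9 : 0 ≤ (1 - a') := by linarith
    rw [← ENNReal.ofReal_add (mul_nonneg (by positivity) (by linarith)) (by positivity)]
    apply ENNReal.ofReal_le_ofReal
    have e1 : (1 - a') ^ 3 / 6 * (a' - a) + (1 - a') ^ 4 / 8 =
      (1 - a') ^ 2 * ((1 - a') / 6 * (a' - a) + (1 - a') ^ 2 / 8) := by ring
    have e2 : (1 / 2 - (a' - a) / 3) * ((1 - a) ^ 2 / 2 * ((1 - a') ^ 2 / 2)) =
      (1 - a') ^ 2 * ((1 / 2 - (a' - a) / 3) * (1 - a) ^ 2 / 4) := by ring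
    rw [e1, e2]
    refine mul_le_mul_of_nonneg_left ?_ (sq_nonneg _)
    have h6 : (1 - a) ^ 2 ≤ (1 - a) := by nlinarith
    have h7 : 0 < a' - a := by linarith
    have e3 : (1 / 2 - (a' - a) / 3) * (1 - a) ^ 2 / 4 - ((1 - a') / 6 * (a' - a) + (1 - a') ^ 2 / 8) =
      (a' - a) * ((1 - a') / 12 + (a' - a) / 8 - (1 - a) ^ 2 / 12) := by ring
    have h8 : 0 ≤ (1 - a') / 12 + (a' - a) / 8 - (1 - a) ^ 2 / 12 := by linarith
    have := mul_nonneg h7.le h8
    linarith
  · -- third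
    have hd1 : ∀ x : ℝ, HasDerivAt (fun x : ℝ => -(1 - x) ^ 3 / 6) ((1 - x) ^ 2 / 2) x := by
      intro x
      have h1 := (((hasDerivAt_id x).const_sub 1).pow 3).neg.div_const 6
      refine h1.congr_deriv ?_
      simp
      ring
    have h1 : ∀ e : ℝ, (∫⁻ d in Set.Ioo e 1, ∫⁻ e' in Set.Ioo a' 1,
        ∫⁻ _d' in Set.Ioo e' 1, (if d < e' then (1 : ENNReal) else 0)) ≤
        ENNReal.ofReal ((1 - e) ^ 3 / 6) := by
      intro e
      refine (mono_on fun d _ => up a' d).trans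
        ((Lder hd1 (by fun_prop) fun x _ => by positivity).trans (le_of_eq ?_))
      congr 1
      ring
    refine (mono_on fun e _ => h1 e).trans ?_
    have hd2 : ∀ x : ℝ, HasDerivAt (fun x : ℝ => -(1 - x) ^ 4 / 24) ((1 - x) ^ 3 / 6) x := by
      intro x
      have h1 := (((hasDerivAt_id x).const_sub 1).pow 4).neg.div_const 24
      refine h1.congr_deriv ?_
      simp
      ring
    refine (Lder hd2 (by fun_prop) fun x hx => ?_).trans ?_
    · have : 0 ≤ 1 - x := by linarith [hx.2]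
      positivity
    · apply ENNReal.ofReal_le_ofReal
      have e1 : (-(1 - 1) ^ 4 / 24 - -(1 - a) ^ 4 / 24 : ℝ) = (1 - a) ^ 2 * ((1 - a) ^ 2 / 24) := by
        ring
      have e2 : 1 / 4 * ((1 - a) ^ 2 / 2 * ((1 - a') ^ 2 / 2)) =
        (1 - a) ^ 2 * ((1 - a') ^ 2 / 16) := by ring
      show (-(1 - 1) ^ 4 / 24 - -(1 - a) ^ 4 / 24 : ℝ) ≤ _
      rw [e1, e2]
      refine mul_le_mul_of_nonneg_left ?_ (sq_nonneg _)
      nlinarith
  · -- fourth
    have h1 : ∀ e ∈ Set.Ioo a 1, (∫⁻ _d in Set.Ioo e 1, ∫⁻ e' in Set.Ioo a' 1,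
        ∫⁻ d' in Set.Ioo e' 1, (if d' < e then (1 : ENNReal) else 0)) ≤
        if a' < e then ENNReal.ofReal ((e - a') ^ 2 / 2 * (1 - e)) else 0 := by
      intro e he
      refine (mono_on fun d _ => low2 a' e).trans ?_
      rw [inner_const]
      split_ifs with h
      · rw [← ENNReal.ofReal_mul' (by linarith [he.2])]
      · simp
    refine (mono_on h1).trans ((ite_gt_le _ _ _ _).trans ?_)
    refine (Lder (F := fun x => (1 - a') * (x - a') ^ 3 / 6 - (x - a') ^ 4 / 8) (fun x => ?_)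
      (by fun_prop) (fun x hx => ?_)).trans ?_
    · have h1 := ((((hasDerivAt_id x).sub_const a').pow 3).const_mul (1 - a')).div_const 6
      have h2 := (((hasDerivAt_id x).sub_const a').pow 4).div_const 8
      refine (h1.sub h2).congr_deriv ?_
      simp
      ring
    · have h4 : 0 ≤ 1 - x := by linarith [hx.2]
      positivity
    · apply ENNReal.ofReal_le_ofReal
      have e1 : (1 - a') * (1 - a') ^ 3 / 6 - (1 - a') ^ 4 / 8 -
        ((1 - a') * (a' - a') ^ 3 / 6 - (a' - a') ^ 4 / 8) = (1 - a') ^ 2 * ((1 - a') ^ 2 / 24) := by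
        ring
      have e2 : 1 / 4 * ((1 - a) ^ 2 / 2 * ((1 - a') ^ 2 / 2)) =
        (1 - a') ^ 2 * ((1 - a) ^ 2 / 16) := by ring
      show (1 - a') * (1 - a') ^ 3 / 6 - (1 - a') ^ 4 / 8 -
        ((1 - a') * (a' - a') ^ 3 / 6 - (a' - a') ^ 4 / 8) ≤ _
      rw [e1, e2]
      refine mul_le_mul_of_nonneg_left ?_ (sq_nonneg _)
      nlinarith


end Pool.Agent.H34.RK
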