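import Pool.Agent.H34.RK.Trans
import Pool.Agent.H34.RK.Stm5

/-! # Project RK: `S_TRANSK` (proof of helper82) -/

set_option autoImplicit false

open Finset MeasureTheory

namespace Pool.Agent.H34.RK

open TRA Pool.Agent.H13R3.WB in
/-- **TRANS** -/
theorem transK : S_TRANSK := by
  intro K δ hδ P _ _ w b hK hw hb
  rw [hδ w]
  let e : P ≃ Fin (Fintype.card P) := Fintype.equivFin P
  have hbdd : ∀ (n : ℕ) (r : Fin n → Fin n → Prop), 0 ≤ sSup {t : ℝ | ∃ x y : Fin n, ¬ r x y ∧ ¬ r y x ∧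
      t = min
        ((Nat.card {σ : Equiv.Perm (Fin n) //
            (∀ a b, r a b → σ a ≤ σ b) ∧ σ x < σ y} : ℝ) /
          (Nat.card {σ : Equiv.Perm (Fin n) // ∀ a b, r a b → σ a ≤ σ b} : ℝ))
        ((Nat.card {σ : Equiv.Perm (Fin n) //
            (∀ a b, r a b → σ a ≤ σ b) ∧ σ y < σ x} : ℝ) /
          (Nat.card {σ : Equiv.Perm (Fin n) // ∀ a b, r a b → σ a ≤ σ b} : ℝ))} := by
    intro n r
    refine Real.sSup_nonneg fun t ht => ?_
    obtain ⟨x, y, -, -, rfl⟩ := ht
    exact le_min (by positivity) (by positivity)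
  refine le_trans (csInf_le ⟨0, ?_⟩ ⟨Fintype.card P, fun a b => e.symm a ≤ e.symm b, hK, fun a => le_rfl,
    fun a b c h1 h2 => h1.trans h2, fun a b h1 h2 => e.symm.injective (le_antisymm h1 h2), ?_, ?_,
    rfl⟩) ?_
  · rintro d ⟨n, r, -, -, -, -, -, -, rfl⟩
    exact hbdd n r
  · obtain ⟨⟨s, hs, hc⟩, -⟩ := hw
    refine ⟨s.map e.toEmbedding, by rw [card_map, hc], fun a ha b hb hab h => ?_⟩
    rw [mem_map] at ha hb
    obtain ⟨a, ha, rfl⟩ := ha
    obtain ⟨b, hb, rfl⟩ := hb
    refine hs ha hb (fun h2 => hab (by rw [h2])) ?_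
    simpa using h
  · intro s hs
    have h := hw.2 (s.map e.symm.toEmbedding) (by
      intro a ha b hb hab h
      rw [mem_coe, mem_map] at ha hb
      obtain ⟨a, ha, rfl⟩ := ha
      obtain ⟨b, hb, rfl⟩ := hb
      exact hs a ha b hb (fun h2 => hab (by rw [h2])) h)
    rwa [card_map] at h
  · refine Real.sSup_le ?_ ?_
    · rintro t ⟨x, y, -, -, rfl⟩
      rw [card1 e, card2 e x y, card2 e y x]
      exact (Pool.Agent.H931R3.Bal.le_balance (e.symm x) (e.symm y)).trans hb
    · refine le_trans ?_ hb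
      unfold balance
      refine Real.iSup_nonneg fun p => ?_
      unfold prob
      exact le_min (by positivity) (by positivity)

end Pool.Agent.H34.RK
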