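import Pool.Agent.H34.RK.Stm3

/-!
# RK-FUB: integrating out the segments
-/

set_option autoImplicit false

open Finset MeasureTheory

namespace Pool.Agent.H34.RK

namespace FUBa

/-- currying preserves the volume -/
theorem curry_mp {ι : Type} [Fintype ι] (κ : ι → Type) [∀ i, Fintype (κ i)] :
    MeasurePreserving (fun (f : (Σ i : ι, κ i) → ℝ) (i : ι) (j : κ i) => f ⟨i, j⟩)
      volume volume := by
  have h : MeasurePreserving (MeasurableEquiv.piCurry (fun (i : ι) (_ : κ i) => ℝ)).symm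
      (volume : Measure (∀ i, κ i → ℝ)) (volume : Measure ((Σ i : ι, κ i) → ℝ)) := by
    refine ⟨(MeasurableEquiv.piCurry (fun (i : ι) (_ : κ i) => ℝ)).symm.measurable, ?_⟩
    refine (Measure.pi_eq fun s hs => ?_).symm
    rw [MeasurableEquiv.map_apply]
    have h1 : ((MeasurableEquiv.piCurry (fun (i : ι) (_ : κ i) => ℝ)).symm) ⁻¹' (Set.univ.pi s) =
        Set.univ.pi (fun i => Set.univ.pi fun j => s ⟨i, j⟩) := by
      ext f
      simp only [Set.mem_preimage, Set.mem_pi, Set.mem_univ, true_imp_iff]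
      constructor
      · intro h i j
        exact h ⟨i, j⟩
      · intro h p
        exact h p.1 p.2
    rw [h1, volume_pi_pi, Fintype.prod_sigma]
    refine Finset.prod_congr rfl fun i _ => ?_
    rw [volume_pi_pi]
  exact h.symm

variable {L N : ℕ} {us vs : ℕ → ℕ} {A B : ℕ → Finset ℕ}

abbrev PP (L N : ℕ) (us vs : ℕ → ℕ) (A B : ℕ → Finset ℕ) : Type :=
  ((∀ i : Fin L, Fin (us i) → ℝ) × (∀ i : Fin L, Fin (vs i) → ℝ)) ×
    ((Fin L ⊕ Fin L → ℝ) × (∀ t : Fin N, Gd (A t) (B t) → ℝ))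

def T (L N : ℕ) (us vs : ℕ → ℕ) (A B : ℕ → Finset ℕ) (f : El L N us vs A B → ℝ) :
    PP L N us vs A B :=
  ((fun i j => f (.inl (.inl ⟨i, j⟩)), fun i j => f (.inl (.inr ⟨i, j⟩))),
    (fun i => f (.inr (.inl i)), fun t e => f (.inr (.inr ⟨t, e⟩))))

theorem T_mp (L N : ℕ) (us vs : ℕ → ℕ) (A B : ℕ → Finset ℕ) :
    MeasurePreserving (T L N us vs A B) volume volume := by
  have h1 := volume_measurePreserving_sumPiEquivProdPi
    (fun _ : (Sg L us ⊕ Sg L vs) ⊕ ((Fin L ⊕ Fin L) ⊕ (Σ t : Fin N, Gd (A t) (B t))) => ℝ)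
  have h2 := volume_measurePreserving_sumPiEquivProdPi
    (fun _ : (Sg L us ⊕ Sg L vs) => ℝ)
  have h3 := volume_measurePreserving_sumPiEquivProdPi
    (fun _ : (Fin L ⊕ Fin L) ⊕ (Σ t : Fin N, Gd (A t) (B t)) => ℝ)
  have h4 := (curry_mp (fun i : Fin L => Fin (us i))).prod (curry_mp (fun i : Fin L => Fin (vs i)))
  have h5 := (MeasurePreserving.id (volume : Measure (Fin L ⊕ Fin L → ℝ))).prod
    (curry_mp (fun t : Fin N => Gd (A t) (B t)))
  have h6 := ((h4.comp h2).prod (h5.comp h3)).comp h1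
  exact h6

/-- ordered tuples -/
def SS (n : ℕ) (a b : ℝ) : Set (Fin n → ℝ) :=
  {h | (∀ i j, i < j → h i < h j) ∧ ∀ i, a < h i ∧ h i < b}

theorem mlt {α : Type} [MeasurableSpace α] {f g : α → ℝ} (hf : Measurable f) (hg : Measurable g) :
    Measurable fun a => f a < g a := measurableSet_setOfPred.1 (measurableSet_lt hf hg)

theorem m_phi (l : ℕ) : Measurable (fun θ : Fin L ⊕ Fin L → ℝ => phi θ l) := by
  unfold phi
  split_ifs
  · exact measurable_pi_apply _
  · exact measurable_const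

theorem m_psi (l : ℕ) : Measurable (fun θ : Fin L ⊕ Fin L → ℝ => psi θ l) := by
  unfold psi
  split_ifs
  · exact measurable_pi_apply _
  · exact measurable_const

theorem m_OmS {α : Type} [MeasurableSpace α] {θ : α → (Fin L ⊕ Fin L → ℝ)} (hθ : Measurable θ) :
    Measurable fun a => θ a ∈ OmS L := by
  have h1 : ∀ i, Measurable fun a => θ a i := fun i => (measurable_pi_apply i).comp hθ
  have h2 : ∀ l, Measurable fun a => phi (θ a) l := fun l => (m_phi l).comp hθ
  have h3 : ∀ l, Measurable fun a => psi (θ a) l := fun l => (m_psi l).comp hθ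
  refine Measurable.and ?_ (Measurable.and ?_ (Measurable.and ?_ ?_))
  · exact Measurable.forall fun i => (mlt measurable_const (h1 i)).and (mlt (h1 i) measurable_const)
  · exact Measurable.forall fun l => Measurable.imp measurable_const (mlt (h2 l) (h2 (l + 1)))
  · exact Measurable.forall fun l => Measurable.imp measurable_const (mlt (h3 (l + 1)) (h3 l))
  · exact mlt (h2 L) (h3 L)

theorem m_SS {α : Type} [MeasurableSpace α] {n : ℕ} {h : α → (Fin n → ℝ)} {a b : α → ℝ}
    (hh : Measurable h) (ha : Measurable a) (hb : Measurable b) :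
    Measurable fun x => h x ∈ SS n (a x) (b x) := by
  have h1 : ∀ i, Measurable fun x => h x i := fun i => (measurable_pi_apply i).comp hh
  refine Measurable.and ?_ ?_
  · exact Measurable.forall fun i => Measurable.forall fun j =>
      Measurable.imp measurable_const (mlt (h1 i) (h1 j))
  · exact Measurable.forall fun i => (mlt ha (h1 i)).and (mlt (h1 i) hb)

theorem m_GS {α : Type} [MeasurableSpace α] {A B : Finset ℕ} {ω : α → (Gd A B → ℝ)}
    {φ ψ : α → ℕ → ℝ} (hω : Measurable ω) (hφ : ∀ l, Measurable fun x => φ x l)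
    (hψ : ∀ l, Measurable fun x => ψ x l) :
    Measurable fun x => ω x ∈ GS (φ x) (ψ x) A B := by
  have h1 : ∀ e, Measurable fun x => ω x e := fun e => (measurable_pi_apply e).comp hω
  refine Measurable.and ?_ (Measurable.and ?_ (Measurable.and ?_ (Measurable.and ?_ ?_)))
  · exact Measurable.forall fun i => (mlt measurable_const (h1 i)).and (mlt (h1 i) measurable_const)
  · exact mlt (h1 _) (h1 _)
  · exact Measurable.forall fun s => (mlt (h1 _) (h1 _)).and (mlt (h1 _) (h1 _))
  · exact Measurable.forall fun l => mlt (hφ _) (h1 _)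
  · exact Measurable.forall fun l => mlt (h1 _) (hψ _)

/-- the sets in the product space -/
def HH (us : ℕ → ℕ) (θ : Fin L ⊕ Fin L → ℝ) : Set (∀ i : Fin L, Fin (us i) → ℝ) :=
  {h | ∀ i : Fin L, h i ∈ SS (us i) (phi θ i) (phi θ (i + 1))}

def KK' (vs : ℕ → ℕ) (θ : Fin L ⊕ Fin L → ℝ) : Set (∀ i : Fin L, Fin (vs i) → ℝ) :=
  {h | ∀ i : Fin L, h i ∈ SS (vs i) (psi θ (i + 1)) (psi θ i)}

def GG (N : ℕ) (A B : ℕ → Finset ℕ) (θ : Fin L ⊕ Fin L → ℝ) :
    Set (∀ t : Fin N, Gd (A t) (B t) → ℝ) :=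
  {ω | ∀ t : Fin N, ω t ∈ GS (phi θ) (psi θ) (A t) (B t)}

def W (L N : ℕ) (us vs : ℕ → ℕ) (A B : ℕ → Finset ℕ) : Set (PP L N us vs A B) :=
  {p | p.2.1 ∈ OmS L ∧ p.1.1 ∈ HH us p.2.1 ∧ p.1.2 ∈ KK' vs p.2.1 ∧ p.2.2 ∈ GG N A B p.2.1}

theorem VS_eq : VS L N us vs A B = T L N us vs A B ⁻¹' W L N us vs A B := by
  ext f
  constructor
  · rintro ⟨h1, h2, h3, h4, h5, h6⟩
    exact ⟨h1, fun i => ⟨h2 i, h3 i⟩, fun i => ⟨h4 i, h5 i⟩, h6⟩
  · rintro ⟨h1, h2, h3, h4⟩
    exact ⟨h1, fun i => (h2 i).1, fun i => (h2 i).2, fun i => (h3 i).1, fun i => (h3 i).2, h4⟩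

theorem m_HH {α : Type} [MeasurableSpace α] {θ : α → (Fin L ⊕ Fin L → ℝ)} (hθ : Measurable θ)
    {h : α → (∀ i : Fin L, Fin (us i) → ℝ)} (hh : Measurable h) :
    Measurable fun a => h a ∈ HH us (θ a) :=
  Measurable.forall fun i => m_SS ((measurable_pi_apply i).comp hh) ((m_phi _).comp hθ)
    ((m_phi _).comp hθ)

theorem m_KK {α : Type} [MeasurableSpace α] {θ : α → (Fin L ⊕ Fin L → ℝ)} (hθ : Measurable θ)
    {h : α → (∀ i : Fin L, Fin (vs i) → ℝ)} (hh : Measurable h) :
    Measurable fun a => h a ∈ KK' vs (θ a) :=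
  Measurable.forall fun i => m_SS ((measurable_pi_apply i).comp hh) ((m_psi _).comp hθ)
    ((m_psi _).comp hθ)

theorem m_GG {α : Type} [MeasurableSpace α] {θ : α → (Fin L ⊕ Fin L → ℝ)} (hθ : Measurable θ)
    {ω : α → (∀ t : Fin N, Gd (A t) (B t) → ℝ)} (hh : Measurable ω) :
    Measurable fun a => ω a ∈ GG N A B (θ a) :=
  Measurable.forall fun i => m_GS ((measurable_pi_apply i).comp hh) (fun l => (m_phi l).comp hθ)
    (fun l => (m_psi l).comp hθ)

theorem m_W : MeasurableSet (W L N us vs A B) := by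
  refine measurableSet_setOfPred.2 ?_
  have h1 : Measurable fun p : PP L N us vs A B => p.2.1 := measurable_fst.comp measurable_snd
  have h2 : Measurable fun p : PP L N us vs A B => p.1.1 := measurable_fst.comp measurable_fst
  have h3 : Measurable fun p : PP L N us vs A B => p.1.2 := measurable_snd.comp measurable_fst
  have h4 : Measurable fun p : PP L N us vs A B => p.2.2 := measurable_snd.comp measurable_snd
  exact (m_OmS h1).and ((m_HH h1 h2).and ((m_KK h1 h3).and (m_GG h1 h4)))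

/-- volume of the segments -/
theorem vol_HH (hseg : S_SEGV) {θ : Fin L ⊕ Fin L → ℝ} (hθ : θ ∈ OmS L) :
    volume (HH us θ) = ENNReal.ofReal
      (∏ l ∈ range L, (phi θ (l + 1) - phi θ l) ^ us l / (us l).factorial) := by
  have h1 : HH us θ = Set.univ.pi fun i : Fin L => SS (us i) (phi θ i) (phi θ (i + 1)) := by
    ext h
    simp only [Set.mem_pi, Set.mem_univ, true_imp_iff]
    rfl
  have h2 : ∀ i : Fin L, volume (SS (us i) (phi θ i) (phi θ (i + 1))) =
      ENNReal.ofReal ((phi θ (i + 1) - phi θ i) ^ us i / (us i).factorial) := by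
    intro i
    exact hseg (us i) (phi θ i) (phi θ (i + 1)) (hθ.2.1 i i.2).le
  rw [h1, volume_pi_pi]
  simp only [h2]
  rw [← ENNReal.ofReal_prod_of_nonneg]
  · rw [Finset.prod_range]
  · intro i _
    have := (hθ.2.1 i i.2).le
    exact div_nonneg (pow_nonneg (by linarith) _) (by positivity)

theorem vol_KK (hseg : S_SEGV) {θ : Fin L ⊕ Fin L → ℝ} (hθ : θ ∈ OmS L) :
    volume (KK' vs θ) = ENNReal.ofReal
      (∏ l ∈ range L, (psi θ l - psi θ (l + 1)) ^ vs l / (vs l).factorial) := by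
  have h1 : KK' vs θ = Set.univ.pi fun i : Fin L => SS (vs i) (psi θ (i + 1)) (psi θ i) := by
    ext h
    simp only [Set.mem_pi, Set.mem_univ, true_imp_iff]
    rfl
  have h2 : ∀ i : Fin L, volume (SS (vs i) (psi θ (i + 1)) (psi θ i)) =
      ENNReal.ofReal ((psi θ i - psi θ (i + 1)) ^ vs i / (vs i).factorial) := by
    intro i
    exact hseg (vs i) (psi θ (i + 1)) (psi θ i) (hθ.2.2.1 i i.2).le
  rw [h1, volume_pi_pi]
  simp only [h2]
  rw [← ENNReal.ofReal_prod_of_nonneg]
  · rw [Finset.prod_range]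
  · intro i _
    have := (hθ.2.2.1 i i.2).le
    exact div_nonneg (pow_nonneg (by linarith) _) (by positivity)

theorem vol_prod (hseg : S_SEGV) {θ : Fin L ⊕ Fin L → ℝ} (hθ : θ ∈ OmS L) :
    volume (HH us θ ×ˢ KK' vs θ) = ENNReal.ofReal (wt us vs θ) := by
  rw [Measure.volume_eq_prod, Measure.prod_prod, vol_HH hseg hθ, vol_KK hseg hθ, wt,
    ENNReal.ofReal_mul]
  refine Finset.prod_nonneg fun l hl => ?_
  have := (hθ.2.1 l (mem_range.1 hl)).le
  exact div_nonneg (pow_nonneg (by linarith) _) (by positivity)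

theorem m_wt : Measurable fun θ : Fin L ⊕ Fin L → ℝ => wt us vs θ := by
  unfold wt
  refine Measurable.mul ?_ ?_
  · refine Finset.measurable_prod _ fun l _ => ?_
    exact (((m_phi (l + 1)).sub (m_phi l)).pow_const _).div_const _
  · refine Finset.measurable_prod _ fun l _ => ?_
    exact (((m_psi l).sub (m_psi (l + 1))).pow_const _).div_const _

end FUBa

open FUBa in
theorem fub : S_SEGV → S_FUB := by
  intro hseg L N us vs A B F hF
  have hmW := m_W (L := L) (N := N) (us := us) (vs := vs) (A := A) (B := B)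
  have hFs : Measurable fun p : PP L N us vs A B => F p.2 := hF.comp measurable_snd
  have e1 : ∫⁻ f in VS L N us vs A B, F (fun i => f (.inr (.inl i)),
      fun t e => f (.inr (.inr ⟨t, e⟩))) = ∫⁻ p in W L N us vs A B, F p.2 := by
    rw [VS_eq]
    exact (T_mp L N us vs A B).setLIntegral_comp_preimage hmW hFs
  rw [e1, ← lintegral_indicator hmW, Measure.volume_eq_prod,
    lintegral_prod_symm _ (hFs.indicator hmW).aemeasurable]
  -- the inner integral
  have e2 : ∀ q : (Fin L ⊕ Fin L → ℝ) × (∀ t : Fin N, Gd (A t) (B t) → ℝ),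
      ∫⁻ r : (∀ i : Fin L, Fin (us i) → ℝ) × (∀ i : Fin L, Fin (vs i) → ℝ),
        (W L N us vs A B).indicator (fun p : PP L N us vs A B => F p.2) (r, q) =
      {q : (Fin L ⊕ Fin L → ℝ) × (∀ t : Fin N, Gd (A t) (B t) → ℝ) |
        q.1 ∈ OmS L ∧ q.2 ∈ GG N A B q.1}.indicator
        (fun q => ENNReal.ofReal (wt us vs q.1) * F q) q := by
    intro q
    by_cases hq : q.1 ∈ OmS L ∧ q.2 ∈ GG N A B q.1
    · rw [Set.indicator_of_mem (by exact hq)]
      have h1 : ∀ r : (∀ i : Fin L, Fin (us i) → ℝ) × (∀ i : Fin L, Fin (vs i) → ℝ),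
          (W L N us vs A B).indicator (fun p : PP L N us vs A B => F p.2) (r, q) =
          (HH us q.1 ×ˢ KK' vs q.1).indicator (fun _ => F q) r := by
        intro r
        by_cases hr : r ∈ HH us q.1 ×ˢ KK' vs q.1
        · have hr' := Set.mem_prod.1 hr
          rw [Set.indicator_of_mem hr, Set.indicator_of_mem
            (show (r, q) ∈ W L N us vs A B from ⟨hq.1, hr'.1, hr'.2, hq.2⟩)]
        · rw [Set.indicator_of_notMem hr, Set.indicator_of_notMem]
          rintro ⟨_, h2, h3, _⟩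
          exact hr (Set.mem_prod.2 ⟨h2, h3⟩)
      simp only [h1]
      have hms : MeasurableSet (HH us q.1 ×ˢ KK' vs q.1) := by
        refine MeasurableSet.prod ?_ ?_
        · exact measurableSet_setOfPred.2 (m_HH measurable_const measurable_id)
        · exact measurableSet_setOfPred.2 (m_KK measurable_const measurable_id)
      rw [lintegral_indicator hms, setLIntegral_const, vol_prod hseg hq.1, mul_comm]
    · rw [Set.indicator_of_notMem (by exact hq)]
      have h1 : ∀ r : (∀ i : Fin L, Fin (us i) → ℝ) × (∀ i : Fin L, Fin (vs i) → ℝ),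
          (W L N us vs A B).indicator (fun p : PP L N us vs A B => F p.2) (r, q) = 0 := by
        intro r
        rw [Set.indicator_of_notMem]
        rintro ⟨h1, _, _, h4⟩
        exact hq ⟨h1, h4⟩
      simp only [h1, lintegral_zero]
  have hmQ : MeasurableSet {q : (Fin L ⊕ Fin L → ℝ) × (∀ t : Fin N, Gd (A t) (B t) → ℝ) |
      q.1 ∈ OmS L ∧ q.2 ∈ GG N A B q.1} :=
    measurableSet_setOfPred.2 ((m_OmS measurable_fst).and (m_GG measurable_fst measurable_snd))
  have hmI : Measurable ({q : (Fin L ⊕ Fin L → ℝ) × (∀ t : Fin N, Gd (A t) (B t) → ℝ) |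
      q.1 ∈ OmS L ∧ q.2 ∈ GG N A B q.1}.indicator
        (fun q => ENNReal.ofReal (wt us vs q.1) * F q)) :=
    (((m_wt.comp measurable_fst).ennreal_ofReal).mul hF).indicator hmQ
  refine (lintegral_congr e2).trans ?_
  rw [Measure.volume_eq_prod, lintegral_prod _ hmI.aemeasurable]
  have hmO : MeasurableSet (OmS L) := measurableSet_setOfPred.2 (m_OmS measurable_id)
  rw [← lintegral_indicator hmO]
  refine lintegral_congr fun θ => ?_
  by_cases hθ : θ ∈ OmS L
  · rw [Set.indicator_of_mem hθ]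
    have h1 : ∀ ω : (∀ t : Fin N, Gd (A t) (B t) → ℝ),
        {q : (Fin L ⊕ Fin L → ℝ) × (∀ t : Fin N, Gd (A t) (B t) → ℝ) |
          q.1 ∈ OmS L ∧ q.2 ∈ GG N A B q.1}.indicator
          (fun q => ENNReal.ofReal (wt us vs q.1) * F q) (θ, ω) =
        (GG N A B θ).indicator (fun ω => ENNReal.ofReal (wt us vs θ) * F (θ, ω)) ω := by
      intro ω
      by_cases hω : ω ∈ GG N A B θ
      · rw [Set.indicator_of_mem hω, Set.indicator_of_mem (by exact ⟨hθ, hω⟩)]
      · rw [Set.indicator_of_notMem hω, Set.indicator_of_notMem]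
        rintro ⟨_, h2⟩
        exact hω h2
    have hmG : MeasurableSet (GG N A B θ) :=
      measurableSet_setOfPred.2 (m_GG measurable_const measurable_id)
    refine (lintegral_congr h1).trans ?_
    rw [lintegral_indicator hmG, lintegral_const_mul]
    · rfl
    · exact hF.comp (measurable_const.prodMk measurable_id)
  · rw [Set.indicator_of_notMem hθ]
    refine (lintegral_congr fun ω => ?_).trans lintegral_zero
    rw [Set.indicator_of_notMem]
    rintro ⟨h1, _⟩
    exact hθ h1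

end Pool.Agent.H34.RK
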