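import Pool.Agent.H34.RK.Stm3

/-!
# RK-GPROD: product spaces, functions of two coordinates
-/

set_option autoImplicit false

open Finset MeasureTheory

namespace Pool.Agent.H34.RK

namespace GPRODa

theorem map_two {ι : Type} [Fintype ι] [DecidableEq ι] {Y : ι → Type} [∀ i, MeasurableSpace (Y i)]
    (μ : ∀ i, Measure (Y i)) [∀ i, IsFiniteMeasure (μ i)] (s t : ι) (hst : s ≠ t) :
    (Measure.pi μ).map (fun ω => (ω s, ω t)) =
      (((∏ k ∈ (univ.erase s).erase t, μ k Set.univ) • μ s).prod (μ t)) := by
  have hfin : IsFiniteMeasure ((∏ k ∈ (univ.erase s).erase t, μ k Set.univ) • μ s) := by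
    constructor
    rw [Measure.smul_apply, smul_eq_mul]
    exact ENNReal.mul_lt_top (ENNReal.prod_lt_top fun k _ => measure_lt_top _ _)
      (measure_lt_top _ _)
  symm
  refine Measure.prod_eq ?_
  intro a b ha hb
  have hm : Measurable fun ω : (∀ i, Y i) => (ω s, ω t) :=
    (measurable_pi_apply s).prodMk (measurable_pi_apply t)
  rw [Measure.map_apply hm (ha.prod hb)]
  classical
  have h1 : (fun ω : (∀ i, Y i) => (ω s, ω t)) ⁻¹' (a ×ˢ b) =
      Set.univ.pi (Function.update (Function.update (fun i => (Set.univ : Set (Y i))) s a) t b) := by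
    ext ω
    simp only [Set.mem_preimage, Set.mem_prod, Set.mem_pi, Set.mem_univ, true_imp_iff]
    constructor
    · rintro ⟨h1, h2⟩ i
      by_cases hi : i = t
      · subst hi
        simpa using h2
      · by_cases hi2 : i = s
        · subst hi2
          simpa [Function.update_of_ne hst] using h1
        · rw [Function.update_of_ne hi, Function.update_of_ne hi2]
          exact Set.mem_univ _
    · intro h
      refine ⟨?_, ?_⟩
      · have := h s
        rw [Function.update_of_ne hst, Function.update_self] at this
        exact this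
      · have := h t
        rw [Function.update_self] at this
        exact this
  rw [h1, Measure.pi_pi]
  have hs : s ∈ (univ : Finset ι) := mem_univ s
  have ht : t ∈ (univ.erase s : Finset ι) := mem_erase.2 ⟨hst.symm, mem_univ t⟩
  rw [← Finset.mul_prod_erase _ _ hs, ← Finset.mul_prod_erase _ _ ht, Measure.smul_apply,
    smul_eq_mul, Function.update_of_ne hst, Function.update_self, Function.update_self]
  have h2 : ∏ x ∈ (univ.erase s).erase t,
      μ x (Function.update (Function.update (fun i => (Set.univ : Set (Y i))) s a) t b x) =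
      ∏ x ∈ (univ.erase s).erase t, μ x Set.univ := by
    refine Finset.prod_congr rfl fun x hx => ?_
    have hx1 : x ≠ t := (mem_erase.1 hx).1
    have hx2 : x ≠ s := (mem_erase.1 (mem_erase.1 hx).2).1
    rw [Function.update_of_ne hx1, Function.update_of_ne hx2]
  rw [h2]
  ring

end GPRODa

theorem gprod : S_GPROD := by
  intro N X _ S hS hfin
  have hfm : ∀ i, IsFiniteMeasure ((volume : Measure (X i → ℝ)).restrict (S i)) := fun i =>
    ⟨by rw [Measure.restrict_apply_univ]; exact lt_top_iff_ne_top.2 (hfin i)⟩
  have hset : {ω : ∀ i, X i → ℝ | ∀ i, ω i ∈ S i} = Set.univ.pi S := by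
    ext ω
    simp
  have hres : (volume : Measure (∀ i, X i → ℝ)).restrict {ω : ∀ i, X i → ℝ | ∀ i, ω i ∈ S i} =
      Measure.pi fun i => (volume : Measure (X i → ℝ)).restrict (S i) := by
    rw [hset]
    exact Measure.restrict_pi_pi (fun i => (volume : Measure (X i → ℝ))) S
  refine ⟨?_, ?_⟩
  · intro s F hF
    rw [hres]
    have h1 := lintegral_map (μ := Measure.pi fun i => (volume : Measure (X i → ℝ)).restrict (S i))
      hF (measurable_pi_apply s)
    have h2 := Measure.pi_map_eval (μ := fun i => (volume : Measure (X i → ℝ)).restrict (S i)) s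
    have h3 : ∫⁻ a, F a ∂((Measure.pi fun i => (volume : Measure (X i → ℝ)).restrict (S i)).map
        (Function.eval s)) = ∫⁻ ω, F (ω s) ∂(Measure.pi fun i =>
          (volume : Measure (X i → ℝ)).restrict (S i)) := h1
    rw [← h3, h2, lintegral_smul_measure, smul_eq_mul]
    congr 1
    refine Finset.prod_congr rfl fun k _ => ?_
    rw [Measure.restrict_apply_univ]
  · intro s t F hst hF
    rw [hres]
    have hm : Measurable fun ω : (∀ i, X i → ℝ) => (ω s, ω t) :=
      (measurable_pi_apply s).prodMk (measurable_pi_apply t)
    have h1 := lintegral_map (μ := Measure.pi fun i => (volume : Measure (X i → ℝ)).restrict (S i))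
      hF hm
    rw [← h1, GPRODa.map_two _ s t hst, lintegral_prod _ hF.aemeasurable, lintegral_smul_measure,
      smul_eq_mul]
    congr 1
    refine Finset.prod_congr rfl fun k _ => ?_
    rw [Measure.restrict_apply_univ]

end Pool.Agent.H34.RK
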