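import Pool.Agent.H34.RK.Stm4
import Pool.Agent.H34.RK.Fub
import Pool.Agent.H34.RK.Gprod

/-!
# RK-X: integrating out the extra pairs
-/

set_option autoImplicit false

open Finset MeasureTheory

namespace Pool.Agent.H34.RK

namespace XA

theorem Leq {f F : ℝ → ℝ} {a b : ℝ} (hab : a ≤ b) (hF : ∀ x, HasDerivAt F (f x) x) (hf : Continuous f)
    (h0 : ∀ x ∈ Set.Ioo a b, 0 ≤ f x) :
    ∫⁻ x in Set.Ioo a b, ENNReal.ofReal (f x) = ENNReal.ofReal (F b - F a) := by
  have h1 : ∫ x in a..b, f x = F b - F a :=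
    intervalIntegral.integral_eq_sub_of_hasDerivAt (fun x _ => hF x) (hf.intervalIntegrable _ _)
  rw [← h1, intervalIntegral.integral_of_le hab, integral_Ioc_eq_integral_Ioo]
  refine (ofReal_integral_eq_lintegral_ofReal ?_ ?_).symm
  · exact (hf.integrableOn_Icc (a := a) (b := b)).mono_set Set.Ioo_subset_Icc_self
  · exact (ae_restrict_iff' measurableSet_Ioo).2 (Filter.Eventually.of_forall h0)

/-- currying of the pairs -/
def pe (r : ℕ) : (Fin r → ℝ × ℝ) ≃ᵐ (Fin r × Bool → ℝ) where
  toFun p x := if x.2 then (p x.1).2 else (p x.1).1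
  invFun f j := (f (j, false), f (j, true))
  left_inv p := by funext j; simp
  right_inv f := by funext ⟨j, b⟩; cases b <;> simp
  measurable_toFun := by
    refine measurable_pi_lambda _ fun x => ?_
    rcases x with ⟨j, b⟩
    cases b
    · simpa using (measurable_pi_apply j).fst
    · simpa using (measurable_pi_apply j).snd
  measurable_invFun := measurable_pi_lambda _ fun j =>
    (measurable_pi_apply (j, false)).prodMk (measurable_pi_apply (j, true))

theorem pe_mp (r : ℕ) : MeasurePreserving (pe r) volume volume := by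
  refine ⟨(pe r).measurable, (Measure.pi_eq fun s hs => ?_).symm⟩
  rw [MeasurableEquiv.map_apply]
  have h1 : (pe r) ⁻¹' (Set.univ.pi s) =
      Set.univ.pi (fun j : Fin r => s (j, false) ×ˢ s (j, true)) := by
    ext p
    simp only [Set.mem_preimage, Set.mem_pi, Set.mem_univ, true_imp_iff, Set.mem_prod]
    constructor
    · intro h j
      exact ⟨h (j, false), h (j, true)⟩
    · rintro h ⟨j, b⟩
      cases b
      · exact (h j).1
      · exact (h j).2
  rw [h1, volume_pi_pi, Fintype.prod_prod_type]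
  refine Finset.prod_congr rfl fun j _ => ?_
  rw [Measure.volume_eq_prod, Measure.prod_prod, Fintype.prod_bool, mul_comm]

/-- the range of a pair -/
def RR (x : ℝ) : Set (ℝ × ℝ) := {q | x < q.1 ∧ q.1 < q.2 ∧ q.2 < 1}

theorem m_RR (x : ℝ) : MeasurableSet (RR x) :=
  (measurableSet_lt measurable_const measurable_fst).inter
    ((measurableSet_lt measurable_fst measurable_snd).inter
      (measurableSet_lt measurable_snd measurable_const))

theorem int_RR (x : ℝ) (G : ℝ × ℝ → ENNReal) (hG : Measurable G) :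
    ∫⁻ q in RR x, G q = ∫⁻ e in Set.Ioo x 1, ∫⁻ d in Set.Ioo e 1, G (e, d) := by
  rw [← lintegral_indicator (m_RR x), Measure.volume_eq_prod,
    lintegral_prod _ (hG.indicator (m_RR x)).aemeasurable, ← lintegral_indicator measurableSet_Ioo]
  refine lintegral_congr fun e => ?_
  by_cases he : e ∈ Set.Ioo x 1
  · rw [Set.indicator_of_mem he, ← lintegral_indicator measurableSet_Ioo]
    refine lintegral_congr fun d => ?_
    by_cases hd : d ∈ Set.Ioo e 1
    · rw [Set.indicator_of_mem hd, Set.indicator_of_mem (show (e, d) ∈ RR x from ⟨he.1, hd.1, hd.2⟩)]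
    · rw [Set.indicator_of_notMem hd, Set.indicator_of_notMem]
      rintro ⟨_, h2, h3⟩
      exact hd ⟨h2, h3⟩
  · rw [Set.indicator_of_notMem he]
    refine (lintegral_congr fun d => ?_).trans lintegral_zero
    rw [Set.indicator_of_notMem]
    rintro ⟨h1, h2, h3⟩
    exact he ⟨h1, h2.trans h3⟩

theorem vol_RR (x : ℝ) (hx : x ≤ 1) : volume (RR x) = ENNReal.ofReal ((1 - x) ^ 2 / 2) := by
  have h1 : volume (RR x) = ∫⁻ _q in RR x, 1 := by simp
  rw [h1, int_RR x (fun _ => 1) measurable_const]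
  have h2 : ∀ e : ℝ, ∫⁻ _d in Set.Ioo e 1, (1 : ENNReal) = ENNReal.ofReal (1 - e) := by
    intro e
    simp
  simp only [h2]
  rw [Leq (F := fun x => -(1 - x) ^ 2 / 2) hx (fun x => ?_) (by fun_prop)
    (fun x hx => by have := hx.2; linarith)]
  · congr 1
    ring
  · have := (((hasDerivAt_id x).const_sub 1).pow 2).neg.div_const 2
    refine this.congr_deriv ?_
    simp


theorem g2 {r : ℕ} (S : Fin r → Set (ℝ × ℝ)) (hfin : ∀ i, volume (S i) ≠ ⊤) :
    (∀ c : ENNReal, ∫⁻ _p in Set.univ.pi S, c = (∏ k, volume (S k)) * c) ∧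
    (∀ (s : Fin r) (F : ℝ × ℝ → ENNReal), Measurable F →
      ∫⁻ p in Set.univ.pi S, F (p s) = (∏ k ∈ univ.erase s, volume (S k)) * ∫⁻ q in S s, F q) ∧
    (∀ (s t : Fin r) (F : (ℝ × ℝ) × (ℝ × ℝ) → ENNReal), s ≠ t → Measurable F →
      ∫⁻ p in Set.univ.pi S, F (p s, p t) =
        (∏ k ∈ (univ.erase s).erase t, volume (S k)) * ∫⁻ a in S s, ∫⁻ b in S t, F (a, b)) := by
  have hfm : ∀ i, IsFiniteMeasure ((volume : Measure (ℝ × ℝ)).restrict (S i)) := fun i =>
    ⟨by rw [Measure.restrict_apply_univ]; exact lt_top_iff_ne_top.2 (hfin i)⟩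
  have hres : (volume : Measure (Fin r → ℝ × ℝ)).restrict (Set.univ.pi S) =
      Measure.pi fun i => (volume : Measure (ℝ × ℝ)).restrict (S i) :=
    Measure.restrict_pi_pi (fun _ => (volume : Measure (ℝ × ℝ))) S
  refine ⟨?_, ?_, ?_⟩
  · intro c
    rw [setLIntegral_const, volume_pi_pi, mul_comm]
  · intro s F hF
    rw [hres]
    have h1 := lintegral_map (μ := Measure.pi fun i => (volume : Measure (ℝ × ℝ)).restrict (S i))
      hF (measurable_pi_apply s)
    have h2 := Measure.pi_map_eval (μ := fun i => (volume : Measure (ℝ × ℝ)).restrict (S i)) s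
    have h3 : ∫⁻ a, F a ∂((Measure.pi fun i => (volume : Measure (ℝ × ℝ)).restrict (S i)).map
        (Function.eval s)) = ∫⁻ ω, F (ω s) ∂(Measure.pi fun i =>
          (volume : Measure (ℝ × ℝ)).restrict (S i)) := h1
    rw [← h3, h2, lintegral_smul_measure, smul_eq_mul]
    congr 1
    refine Finset.prod_congr rfl fun k _ => ?_
    rw [Measure.restrict_apply_univ]
  · intro s t F hst hF
    rw [hres]
    have hm : Measurable fun ω : (Fin r → ℝ × ℝ) => (ω s, ω t) :=
      (measurable_pi_apply s).prodMk (measurable_pi_apply t)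
    have h1 := lintegral_map (μ := Measure.pi fun i => (volume : Measure (ℝ × ℝ)).restrict (S i))
      hF hm
    rw [← h1, GPRODa.map_two _ s t hst, lintegral_prod _ hF.aemeasurable, lintegral_smul_measure,
      smul_eq_mul]
    congr 1
    refine Finset.prod_congr rfl fun k _ => ?_
    rw [Measure.restrict_apply_univ]

variable {L N r : ℕ} {us vs : ℕ → ℕ} {A B : ℕ → Finset ℕ}

/-- splitting off the pairs -/
def T2 (L N r : ℕ) (us vs : ℕ → ℕ) (A B : ℕ → Finset ℕ) (f : El2 L N r us vs A B → ℝ) :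
    (El L N us vs A B → ℝ) × (Fin r → ℝ × ℝ) :=
  (fun a => f (.inl a), fun j => (f (.inr (j, false)), f (.inr (j, true))))

theorem T2_mp (L N r : ℕ) (us vs : ℕ → ℕ) (A B : ℕ → Finset ℕ) :
    MeasurePreserving (T2 L N r us vs A B) volume volume := by
  have h1 := volume_measurePreserving_sumPiEquivProdPi
    (fun _ : El L N us vs A B ⊕ (Fin r × Bool) => ℝ)
  have h2 := (MeasurePreserving.id (volume : Measure (El L N us vs A B → ℝ))).prod (pe_mp r).symm
  exact h2.comp h1

/-- the set in the product space -/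
def W2 (L N r : ℕ) (us vs : ℕ → ℕ) (A B : ℕ → Finset ℕ) :
    Set ((El L N us vs A B → ℝ) × (Fin r → ℝ × ℝ)) :=
  {x | x.1 ∈ VS L N us vs A B ∧ ∀ j : Fin r, x.2 j ∈ RR (phi (frl x.1) (j + 1))}

theorem VS2_eq : VS2 L N r us vs A B = T2 L N r us vs A B ⁻¹' W2 L N r us vs A B := rfl

theorem m_VS : MeasurableSet (VS L N us vs A B) := by
  rw [FUBa.VS_eq]
  exact (FUBa.T_mp L N us vs A B).measurable FUBa.m_W

theorem m_frl : Measurable fun f : El L N us vs A B → ℝ => frl f :=
  measurable_pi_lambda _ fun _ => measurable_pi_apply _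

theorem m_W2 : MeasurableSet (W2 L N r us vs A B) := by
  refine measurableSet_setOfPred.2 ?_
  have h1 : Measurable fun x : (El L N us vs A B → ℝ) × (Fin r → ℝ × ℝ) =>
      x.1 ∈ VS L N us vs A B := (measurableSet_setOfPred.1 m_VS).comp measurable_fst
  refine h1.and (Measurable.forall fun j => ?_)
  have h2 : Measurable fun x : (El L N us vs A B → ℝ) × (Fin r → ℝ × ℝ) =>
      phi (frl x.1) (j + 1) := (FUBa.m_phi (j + 1)).comp (m_frl.comp measurable_fst)
  have h3 : Measurable fun x : (El L N us vs A B → ℝ) × (Fin r → ℝ × ℝ) => x.2 j :=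
    (measurable_pi_apply j).comp measurable_snd
  exact (FUBa.mlt h2 h3.fst).and ((FUBa.mlt h3.fst h3.snd).and (FUBa.mlt h3.snd measurable_const))

theorem ton (Φ : (El L N us vs A B → ℝ) × (Fin r → ℝ × ℝ) → ENNReal) (hΦ : Measurable Φ) :
    ∫⁻ f in VS2 L N r us vs A B, Φ (T2 L N r us vs A B f) =
      ∫⁻ g in VS L N us vs A B,
        ∫⁻ p in Set.univ.pi fun j : Fin r => RR (phi (frl g) (j + 1)), Φ (g, p) := by
  have hm := m_W2 (L := L) (N := N) (r := r) (us := us) (vs := vs) (A := A) (B := B)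
  rw [VS2_eq, (T2_mp L N r us vs A B).setLIntegral_comp_preimage hm hΦ,
    ← lintegral_indicator hm, Measure.volume_eq_prod,
    lintegral_prod _ (hΦ.indicator hm).aemeasurable, ← lintegral_indicator m_VS]
  refine lintegral_congr fun g => ?_
  by_cases hg : g ∈ VS L N us vs A B
  · rw [Set.indicator_of_mem hg, ← lintegral_indicator
      (MeasurableSet.univ_pi fun j : Fin r => m_RR (phi (frl g) ((j : ℕ) + 1)))]
    refine lintegral_congr fun p => ?_
    by_cases hp : p ∈ Set.univ.pi fun j : Fin r => RR (phi (frl g) (j + 1))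
    · rw [Set.indicator_of_mem hp, Set.indicator_of_mem
        (show (g, p) ∈ W2 L N r us vs A B from ⟨hg, fun j => hp j (Set.mem_univ j)⟩)]
    · rw [Set.indicator_of_notMem hp, Set.indicator_of_notMem]
      rintro ⟨_, h2⟩
      exact hp fun j _ => h2 j
  · rw [Set.indicator_of_notMem hg]
    refine (lintegral_congr fun p => ?_).trans lintegral_zero
    rw [Set.indicator_of_notMem]
    rintro ⟨h1, _⟩
    exact hg h1

theorem phi_le {θ : Fin L ⊕ Fin L → ℝ} (hθ : θ ∈ OmS L) (l : ℕ) : phi θ l ≤ 1 := by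
  unfold phi
  split_ifs
  · exact (hθ.1 _).2.le
  · exact zero_le_one

theorem prod_vol {θ : Fin L ⊕ Fin L → ℝ} (hθ : θ ∈ OmS L) (S : Finset (Fin r)) (S' : Finset ℕ)
    (h : S.map Fin.valEmbedding = S') :
    ∏ k ∈ S, volume (RR (phi θ (k + 1))) = ENNReal.ofReal (ex S' θ) := by
  have h1 : ∀ k : Fin r, volume (RR (phi θ (k + 1))) =
      ENNReal.ofReal ((1 - phi θ (k + 1)) ^ 2 / 2) := fun k => vol_RR _ (phi_le hθ _)
  simp only [h1]
  rw [← ENNReal.ofReal_prod_of_nonneg (fun i _ => by positivity), ex, ← h, Finset.prod_map]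
  rfl

end XA

open XA in
theorem x_ : S_X := by
  intro L N r us vs A B hL hr
  have hOm : ∀ g ∈ VS L N us vs A B, frl g ∈ OmS L := fun g hg => hg.1
  have hfin : ∀ g ∈ VS L N us vs A B, ∀ j : Fin r, volume (RR (phi (frl g) (j + 1))) ≠ ⊤ := by
    intro g hg j
    rw [vol_RR _ (phi_le (hOm g hg) _)]
    exact ENNReal.ofReal_ne_top
  have hset : ∀ S : Finset ℕ, ∀ T : Finset (Fin r),
      (∀ k : ℕ, k ∈ S ↔ ∃ h : k < r, (⟨k, h⟩ : Fin r) ∈ T) → T.map Fin.valEmbedding = S := by
    intro S T h
    ext k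
    rw [Finset.mem_map, h]
    constructor
    · rintro ⟨j, hj, rfl⟩
      exact ⟨j.2, hj⟩
    · rintro ⟨h1, h2⟩
      exact ⟨⟨k, h1⟩, h2, rfl⟩
  refine ⟨?_, ?_, ?_⟩
  · intro F hF
    refine (ton (fun x => F x.1) (hF.comp measurable_fst)).trans ?_
    refine setLIntegral_congr_fun m_VS fun g hg => ?_
    show ∫⁻ p in Set.univ.pi fun j : Fin r => RR (phi (frl g) (j + 1)), F g = _
    rw [(g2 _ (hfin g hg)).1 (F g), prod_vol (hOm g hg) univ (range r)
      (hset _ _ fun k => by simp)]
  · intro j F hF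
    refine (ton (fun x => F (x.1, x.2 j)) (hF.comp (measurable_fst.prodMk
      ((measurable_pi_apply j).comp measurable_snd)))).trans ?_
    refine setLIntegral_congr_fun m_VS fun g hg => ?_
    show ∫⁻ p in Set.univ.pi fun j : Fin r => RR (phi (frl g) (j + 1)), F (g, p j) = _
    have hFg : Measurable fun q : ℝ × ℝ => F (g, q) := hF.comp (measurable_const.prodMk measurable_id)
    rw [(g2 _ (hfin g hg)).2.1 j (fun q => F (g, q)) hFg,
      prod_vol (hOm g hg) (univ.erase j) ((range r).erase j) (hset _ _ fun k => by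
        simp only [mem_erase, mem_range, mem_univ, and_true, ne_eq, Fin.ext_iff, exists_prop]
        tauto), int_RR _ _ hFg]
  · intro i j F hij hF
    have hmm : Measurable fun x : (El L N us vs A B → ℝ) × (Fin r → ℝ × ℝ) =>
        (x.1, (x.2 i, x.2 j)) := measurable_fst.prodMk
      (((measurable_pi_apply i).comp measurable_snd).prodMk
        ((measurable_pi_apply j).comp measurable_snd))
    refine (ton (fun x => F (x.1, (x.2 i, x.2 j))) (hF.comp hmm)).trans ?_
    refine setLIntegral_congr_fun m_VS fun g hg => ?_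
    show ∫⁻ p in Set.univ.pi fun j : Fin r => RR (phi (frl g) (j + 1)), F (g, (p i, p j)) = _
    have hFg : Measurable fun q : (ℝ × ℝ) × (ℝ × ℝ) => F (g, q) :=
      hF.comp (measurable_const.prodMk measurable_id)
    rw [(g2 _ (hfin g hg)).2.2 i j (fun q => F (g, q)) hij hFg,
      prod_vol (hOm g hg) ((univ.erase i).erase j) (((range r).erase i).erase j)
      (hset _ _ fun k => by
        simp only [mem_erase, mem_range, mem_univ, and_true, ne_eq, Fin.ext_iff, exists_prop]
        tauto), int_RR _ _ (Measurable.lintegral_prod_right' (ν := volume.restrict _) hFg)]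
    congr 1
    refine lintegral_congr fun e => lintegral_congr fun d => ?_
    exact int_RR _ _ (hFg.comp (measurable_const.prodMk measurable_id))

end Pool.Agent.H34.RK
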