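import Pool.Agent.H34.RK.Asm2
import Pool.Agent.H34.RK.X
import Pool.Agent.H34.RK.Pair
import Pool.Agent.H34.RK.ConcK
import Pool.Agent.H34.RK.Balf2K
import Pool.Agent.H34.RK.Mainf2E
import Pool.Agent.H34.RK.TransK
import Pool.Agent.H34.RK.FinE
import Pool.Agent.H34.RK.Lib3

/-! Assembly, part 5: posets with few elements, explicit exponent. -/

set_option autoImplicit false

namespace Pool.Agent.H34.RK.Asm

theorem t_concE : S_CONCK := concK t_grad t_dbd chain t_pert t_zb t_mass reg

theorem t_bal2E : S_BAL2K :=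
  balf2K p1 opvs2 t_wid2 t_vde x_ t_concE t_pert t_mass t_zb t_t6 pair t_pg

theorem t_main2E : S_MAIN2E := mainf2E t_ideal2 t_bal2E

theorem t_finE : S_FINE := finE t_main2E transK t_rateE

end Pool.Agent.H34.RK.Asm
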