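import Pool.Agent.H34.RK.Stm2

/-! RK-AL2 (helper67): two variable invariance. -/

set_option autoImplicit false

open Finset MeasureTheory

namespace Pool.Agent.H34.RK

namespace AL2x

/-! ## The triangle and the square -/

/-- the open triangle -/
def Tr : Set (ℝ × ℝ) := {z | 0 < z.1 ∧ z.1 < z.2 ∧ z.2 < 1}

/-- the open square -/
def Sq : Set (ℝ × ℝ) := Set.Ioo 0 1 ×ˢ Set.Ioo 0 1

lemma tr_meas : MeasurableSet Tr := by
  have h1 : IsOpen {z : ℝ × ℝ | 0 < z.1} := isOpen_lt continuous_const continuous_fst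
  have h2 : IsOpen {z : ℝ × ℝ | z.1 < z.2} := isOpen_lt continuous_fst continuous_snd
  have h3 : IsOpen {z : ℝ × ℝ | z.2 < 1} := isOpen_lt continuous_snd continuous_const
  exact (h1.inter (h2.inter h3)).measurableSet

lemma sq_meas : MeasurableSet Sq := measurableSet_Ioo.prod measurableSet_Ioo

lemma tr_sub : Tr ⊆ Sq := by
  rintro ⟨x, y⟩ ⟨h1, h2, h3⟩
  simp only at h1 h2 h3
  exact ⟨⟨h1, h2.trans h3⟩, ⟨h1.trans h2, h3⟩⟩

lemma sq_vol : volume Sq = 1 := by
  rw [Sq, Measure.volume_eq_prod, Measure.prod_prod]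
  simp

lemma sq_fin : volume Sq < ⊤ := by rw [sq_vol]; exact ENNReal.one_lt_top

lemma tr_fin : volume Tr < ⊤ := lt_of_le_of_lt (measure_mono tr_sub) sq_fin

lemma tr_real : volume.real Tr ≤ 1 := by
  have h : volume Tr ≤ 1 := by
    rw [← sq_vol]
    exact measure_mono tr_sub
  rw [Measure.real]
  calc (volume Tr).toReal ≤ (1 : ENNReal).toReal := ENNReal.toReal_mono (by simp) h
    _ = 1 := by simp

lemma intg {h : ℝ × ℝ → ℝ} (hm : Measurable h) {C : ℝ} (hC : ∀ z ∈ Sq, |h z| ≤ C) :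
    IntegrableOn h Sq ∧ IntegrableOn h Tr := by
  have h1 : IntegrableOn h Sq := by
    refine Measure.integrableOn_of_bounded (M := C) sq_fin.ne hm.aestronglyMeasurable ?_
    exact (ae_restrict_iff' sq_meas).2 (Filter.Eventually.of_forall hC)
  exact ⟨h1, h1.mono_set tr_sub⟩

lemma T_eq {f : ℝ → ℝ → ℝ} (hf : IntegrableOn (fun z : ℝ × ℝ => f z.1 z.2) Tr) :
    (∫ x in (0 : ℝ)..1, ∫ y in x..1, f x y) = ∫ z in Tr, f z.1 z.2 := by
  have hi : Integrable (Tr.indicator (fun z : ℝ × ℝ => f z.1 z.2)) (volume.prod volume) :=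
    (integrable_indicator_iff tr_meas).2 hf
  rw [← integral_indicator tr_meas, Measure.volume_eq_prod, integral_prod _ hi,
    intervalIntegral.integral_of_le zero_le_one, ← integral_indicator measurableSet_Ioc]
  refine integral_congr_ae (Filter.Eventually.of_forall fun x => ?_)
  simp only
  by_cases hx : x ∈ Set.Ioc (0 : ℝ) 1
  · rw [Set.indicator_of_mem hx, intervalIntegral.integral_of_le hx.2, integral_Ioc_eq_integral_Ioo,
      ← integral_indicator measurableSet_Ioo]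
    refine integral_congr_ae (Filter.Eventually.of_forall fun y => ?_)
    simp only
    by_cases hy : y ∈ Set.Ioo x 1
    · have : (x, y) ∈ Tr := ⟨hx.1, hy.1, hy.2⟩
      rw [Set.indicator_of_mem hy, Set.indicator_of_mem this]
    · have : (x, y) ∉ Tr := fun h => hy ⟨h.2.1, h.2.2⟩
      rw [Set.indicator_of_notMem hy, Set.indicator_of_notMem this]
  · rw [Set.indicator_of_notMem hx]
    symm
    refine integral_eq_zero_of_ae (Filter.Eventually.of_forall fun y => ?_)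
    have : (x, y) ∉ Tr := fun h => hx ⟨h.1, (h.2.1.trans h.2.2).le⟩
    simp only [Set.indicator_of_notMem this, Pi.zero_apply]

/-- the reflection -/
def phi : ℝ × ℝ ≃ᵐ ℝ × ℝ :=
  MeasurableEquiv.prodComm.trans
    (MeasurableEquiv.prodCongr (MeasurableEquiv.subLeft (1 : ℝ)) (MeasurableEquiv.subLeft (1 : ℝ)))

lemma phi_apply (z : ℝ × ℝ) : phi z = (1 - z.2, 1 - z.1) := rfl

lemma phi_mp : MeasurePreserving phi (volume : Measure (ℝ × ℝ)) volume := by
  have h1 : MeasurePreserving (fun x : ℝ => 1 - x) volume volume :=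
    Measure.measurePreserving_sub_left volume 1
  have h2 := (h1.prod h1).comp (Measure.measurePreserving_swap (μ := (volume : Measure ℝ))
    (ν := (volume : Measure ℝ)))
  rw [← Measure.volume_eq_prod] at h2
  exact h2

lemma flip (f : ℝ × ℝ → ℝ) : ∫ z in Tr, f z = ∫ z in Tr, f (1 - z.2, 1 - z.1) := by
  have h1 := phi_mp.setIntegral_preimage_emb phi.measurableEmbedding f Tr
  have h2 : phi ⁻¹' Tr = Tr := by
    ext ⟨x, y⟩
    rw [Set.mem_preimage, phi_apply]
    unfold Tr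
    simp only [Set.mem_setOf_eq]
    constructor
    · rintro ⟨a, b, c⟩
      exact ⟨by linarith, by linarith, by linarith⟩
    · rintro ⟨a, b, c⟩
      exact ⟨by linarith, by linarith, by linarith⟩
  rw [h2] at h1
  rw [← h1]
  rfl

lemma cut {h : ℝ → ℝ} {c : ℝ} (hc0 : 0 ≤ c) (hc1 : c ≤ 1) (h0 : ∀ x, c ≤ x → h x = 0) :
    ∫ x in Set.Ioo (0 : ℝ) 1, h x = ∫ x in (0 : ℝ)..c, h x := by
  rw [intervalIntegral.integral_of_le hc0, integral_Ioc_eq_integral_Ioo]
  refine setIntegral_eq_of_subset_of_forall_sdiff_eq_zero measurableSet_Ioo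
    (Set.Ioo_subset_Ioo_right hc1) ?_
  intro x hx
  apply h0
  by_contra hcon
  exact hx.2 ⟨hx.1.1, not_le.1 hcon⟩

lemma intg1 {h : ℝ → ℝ} (hm : Measurable h) {C : ℝ} (hC : ∀ z ∈ Set.Ioo (0 : ℝ) 1, |h z| ≤ C) :
    IntegrableOn h (Set.Ioo 0 1) := by
  refine Measure.integrableOn_of_bounded (M := C) (by simp) hm.aestronglyMeasurable ?_
  exact (ae_restrict_iff' measurableSet_Ioo).2 (Filter.Eventually.of_forall hC)

/-! ## The main estimate -/

lemma X {g : ℝ} {L n : ℕ} (hg : 0 < g) (hL : 100 ≤ L) (hgL : g * L ^ 4 ≤ 1) (hT : S_TAY)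
    (hn : 18 ≤ n) (hn2 : n ≤ 2 * L) {u E E' w w' : ℝ → ℝ} (hu : Measurable u) (hE : Measurable E)
    (hE' : Measurable E') (hw : Measurable w) (hw' : Measurable w')
    (bu : ∀ x, |u x| ≤ 1) (bE : ∀ x ∈ Set.Ioo (0 : ℝ) 1, |E x| ≤ 1)
    (bE' : ∀ x ∈ Set.Ioo (0 : ℝ) 1, |E' x| ≤ 1) (bw : ∀ x ∈ Set.Ioo (0 : ℝ) 1, |w x| ≤ 1)
    (bw' : ∀ x ∈ Set.Ioo (0 : ℝ) 1, |w' x| ≤ 1)
    (zE : ∀ x, g * L ≤ x → E x = 0) (zE' : ∀ x, g * L ≤ x → E' x = 0)
    (heq : ∀ i, i ≤ 6 → ∫ x in Set.Ioo (0 : ℝ) 1, u x * x ^ i * E x =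
      ∫ x in Set.Ioo (0 : ℝ) 1, u x * x ^ i * E' x) {κ : ℝ} (hκ0 : 0 ≤ κ)
    (hκ : ∀ m, m ≤ 2 * L → |(∫ y in Set.Ioo (0 : ℝ) 1, y ^ m * w y) -
      ∫ y in Set.Ioo (0 : ℝ) 1, y ^ m * w' y| ≤ κ) :
    |∫ z in Tr, u z.1 * (z.2 - z.1) ^ n * (E z.1 * w z.2 - E' z.1 * w' z.2)| ≤
      2 * ((g * L) ^ 18 + (2 * L) ^ 7 * (g * L) ^ 7) + 7 * κ := by
  have hL0 : (100 : ℝ) ≤ L := by exact_mod_cast hL
  have hgL0 : 0 < g * L := by positivity
  have hgL2 : g * L ^ 2 ≤ 1 / 2 := by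
    have h1 : g * (L : ℝ) ^ 4 = (g * L ^ 2) * L ^ 2 := by ring
    have h2 : 0 < g * (L : ℝ) ^ 2 := by positivity
    rw [h1] at hgL
    nlinarith
  have hgL1 : g * L ≤ 1 := by nlinarith
  have hn2' : (n : ℝ) ≤ 2 * L := by exact_mod_cast hn2
  -- the functions
  set D : ℝ × ℝ → ℝ := fun z => E z.1 * w z.2 - E' z.1 * w' z.2 with hD
  set f : ℝ × ℝ → ℝ := fun z => u z.1 * (z.2 - z.1) ^ n * D z with hf
  set a : ℕ → ℝ → ℝ := fun i x => u x * x ^ i * E x with ha
  set a' : ℕ → ℝ → ℝ := fun i x => u x * x ^ i * E' x with ha'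
  set b : ℕ → ℝ → ℝ := fun i y => y ^ (n - i) * w y with hb
  set b' : ℕ → ℝ → ℝ := fun i y => y ^ (n - i) * w' y with hb'
  set c : ℕ → ℝ := fun i => (n.choose i : ℝ) * (-1) ^ i with hc
  set F : ℝ × ℝ → ℝ := fun z => ∑ i ∈ range 7,
    (c i * (a i z.1 * b i z.2) - c i * (a' i z.1 * b' i z.2)) with hF
  have hFeq : ∀ z : ℝ × ℝ, F z = u z.1 *
      (∑ i ∈ range 7, (n.choose i : ℝ) * z.2 ^ (n - i) * (-z.1) ^ i) * D z := by
    intro z
    simp only [hF, hD, ha, ha', hb, hb', hc]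
    rw [Finset.mul_sum, Finset.sum_mul]
    refine Finset.sum_congr rfl fun i _ => ?_
    rw [neg_pow z.1 i]
    ring
  have bD : ∀ z ∈ Sq, |D z| ≤ 2 := by
    rintro z ⟨h1, h2⟩
    simp only [hD]
    refine (abs_sub _ _).trans ?_
    rw [abs_mul, abs_mul]
    have e1 := mul_le_mul (bE _ h1) (bw _ h2) (abs_nonneg _) zero_le_one
    have e2 := mul_le_mul (bE' _ h1) (bw' _ h2) (abs_nonneg _) zero_le_one
    linarith
  have zD : ∀ z : ℝ × ℝ, g * L ≤ z.1 → D z = 0 := by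
    intro z hz
    simp only [hD]
    rw [zE _ hz, zE' _ hz]
    ring
  -- comparison
  have hcmp : ∀ z ∈ Sq, ‖Tr.indicator f z - F z‖ ≤
      2 * ((g * L) ^ 18 + (2 * L) ^ 7 * (g * L) ^ 7) := by
    rintro z hz
    rw [Real.norm_eq_abs, hFeq]
    by_cases hx : g * L ≤ z.1
    · rw [zD z hx, mul_zero, sub_zero]
      have : Tr.indicator f z = 0 := by
        by_cases hzT : z ∈ Tr
        · rw [Set.indicator_of_mem hzT]
          simp only [hf]
          rw [zD z hx, mul_zero]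
        · rw [Set.indicator_of_notMem hzT]
      rw [this, abs_zero]
      positivity
    · push Not at hx
      obtain ⟨h1, h2⟩ := hz
      have htay := hT n z.1 z.2 (by omega) h1.1.le h1.2.le h2.1.le h2.2.le
      obtain ⟨Pz, hPz⟩ : ∃ Pz, Pz = ∑ i ∈ range 7, (n.choose i : ℝ) * z.2 ^ (n - i) * (-z.1) ^ i :=
        ⟨_, rfl⟩
      rw [← hPz] at htay ⊢
      have hx7 : (n : ℝ) ^ 7 * z.1 ^ 7 ≤ (2 * L) ^ 7 * (g * L) ^ 7 :=
        mul_le_mul (pow_le_pow_left₀ (Nat.cast_nonneg _) hn2' 7)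
          (pow_le_pow_left₀ h1.1.le hx.le 7) (pow_nonneg h1.1.le 7) (by positivity)
      have htay' := htay.trans hx7
      have hbD := bD z ⟨h1, h2⟩
      have hbu := bu z.1
      by_cases hzT : z ∈ Tr
      · rw [Set.indicator_of_mem hzT]
        simp only [hf]
        have e1 : u z.1 * (z.2 - z.1) ^ n * D z - u z.1 * Pz * D z =
            u z.1 * ((z.2 - z.1) ^ n - Pz) * D z := by ring
        rw [e1, abs_mul, abs_mul]
        have e2 : |u z.1| * |(z.2 - z.1) ^ n - Pz| ≤ 1 * ((2 * L) ^ 7 * (g * L) ^ 7) :=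
          mul_le_mul hbu htay' (abs_nonneg _) zero_le_one
        have e3 : |u z.1| * |(z.2 - z.1) ^ n - Pz| * |D z| ≤ 1 * ((2 * L) ^ 7 * (g * L) ^ 7) * 2 :=
          mul_le_mul e2 hbD (abs_nonneg _) (by positivity)
        have e4 : (0 : ℝ) ≤ (g * L) ^ 18 := by positivity
        linarith
      · rw [Set.indicator_of_notMem hzT, zero_sub, abs_neg]
        have hyx : z.2 ≤ z.1 := by
          by_contra hcon
          exact hzT ⟨h1.1, not_le.1 hcon, h2.2⟩
        have e0 : |(z.2 - z.1) ^ n| ≤ (g * L) ^ 18 := by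
          rw [abs_pow]
          have e1 : |z.2 - z.1| ≤ g * L := by
            rw [abs_le]
            constructor
            · linarith [h2.1]
            · linarith
          calc |z.2 - z.1| ^ n ≤ (g * L) ^ n := pow_le_pow_left₀ (abs_nonneg _) e1 n
            _ ≤ (g * L) ^ 18 := pow_le_pow_of_le_one hgL0.le hgL1 hn
        have e2 : |Pz| ≤ (g * L) ^ 18 + (2 * L) ^ 7 * (g * L) ^ 7 := by
          have e3 : Pz = (z.2 - z.1) ^ n - ((z.2 - z.1) ^ n - Pz) := by ring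
          rw [e3]
          refine (abs_sub _ _).trans (add_le_add e0 htay')
        rw [abs_mul, abs_mul]
        have e3 : |u z.1| * |Pz| ≤ 1 * ((g * L) ^ 18 + (2 * L) ^ 7 * (g * L) ^ 7) :=
          mul_le_mul hbu e2 (abs_nonneg _) zero_le_one
        have e4 : |u z.1| * |Pz| * |D z| ≤ 1 * ((g * L) ^ 18 + (2 * L) ^ 7 * (g * L) ^ 7) * 2 :=
          mul_le_mul e3 hbD (abs_nonneg _) (by positivity)
        linarith
  -- measurability
  have mD : Measurable D := by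
    simp only [hD]
    exact ((hE.comp measurable_fst).mul (hw.comp measurable_snd)).sub
      ((hE'.comp measurable_fst).mul (hw'.comp measurable_snd))
  have mf : Measurable f := by
    simp only [hf]
    exact ((hu.comp measurable_fst).mul ((measurable_snd.sub measurable_fst).pow_const n)).mul mD
  have bf : ∀ z ∈ Sq, |f z| ≤ 2 := by
    intro z hz
    have hbD := bD z hz
    obtain ⟨h1, h2⟩ := hz
    simp only [hf]
    rw [abs_mul, abs_mul, abs_pow]
    have e1 : |z.2 - z.1| ≤ 1 := by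
      rw [abs_le]
      constructor
      · linarith [h2.1, h1.2]
      · linarith [h2.2, h1.1]
    have e2 : |z.2 - z.1| ^ n ≤ 1 := pow_le_one₀ (abs_nonneg _) e1
    have e3 : |u z.1| * |z.2 - z.1| ^ n ≤ 1 * 1 :=
      mul_le_mul (bu _) e2 (by positivity) zero_le_one
    have e4 : |u z.1| * |z.2 - z.1| ^ n * |D z| ≤ 1 * 1 * 2 :=
      mul_le_mul e3 hbD (abs_nonneg _) (by norm_num)
    linarith
  have ma : ∀ i, Measurable (a i) := fun i => (hu.mul (measurable_id.pow_const i)).mul hE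
  have ma' : ∀ i, Measurable (a' i) := fun i => (hu.mul (measurable_id.pow_const i)).mul hE'
  have mb : ∀ i, Measurable (b i) := fun i => (measurable_id.pow_const (n - i)).mul hw
  have mb' : ∀ i, Measurable (b' i) := fun i => (measurable_id.pow_const (n - i)).mul hw'
  have ba : ∀ i, ∀ x ∈ Set.Ioo (0 : ℝ) 1, |a i x| ≤ (g * L) ^ i := by
    intro i x hx
    simp only [ha]
    by_cases hxg : g * L ≤ x
    · rw [zE x hxg, mul_zero, abs_zero]
      positivity
    · push Not at hxg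
      rw [abs_mul, abs_mul, abs_pow, abs_of_pos hx.1]
      have e1 : |u x| * x ^ i ≤ 1 * (g * L) ^ i :=
        mul_le_mul (bu x) (pow_le_pow_left₀ hx.1.le hxg.le i) (pow_nonneg hx.1.le i) zero_le_one
      have e2 : |u x| * x ^ i * |E x| ≤ 1 * (g * L) ^ i * 1 :=
        mul_le_mul e1 (bE x hx) (abs_nonneg _) (by positivity)
      linarith
  have ba' : ∀ i, ∀ x ∈ Set.Ioo (0 : ℝ) 1, |a' i x| ≤ (g * L) ^ i := by
    intro i x hx
    simp only [ha']
    by_cases hxg : g * L ≤ x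
    · rw [zE' x hxg, mul_zero, abs_zero]
      positivity
    · push Not at hxg
      rw [abs_mul, abs_mul, abs_pow, abs_of_pos hx.1]
      have e1 : |u x| * x ^ i ≤ 1 * (g * L) ^ i :=
        mul_le_mul (bu x) (pow_le_pow_left₀ hx.1.le hxg.le i) (pow_nonneg hx.1.le i) zero_le_one
      have e2 : |u x| * x ^ i * |E' x| ≤ 1 * (g * L) ^ i * 1 :=
        mul_le_mul e1 (bE' x hx) (abs_nonneg _) (by positivity)
      linarith
  have hpow1 : ∀ i, (g * L) ^ i ≤ 1 := fun i => pow_le_one₀ hgL0.le hgL1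
  have bb : ∀ i, ∀ x ∈ Set.Ioo (0 : ℝ) 1, |b i x| ≤ 1 := by
    intro i x hx
    simp only [hb]
    rw [abs_mul, abs_pow, abs_of_pos hx.1]
    have e1 : x ^ (n - i) ≤ 1 := pow_le_one₀ hx.1.le hx.2.le
    have e2 := mul_le_mul e1 (bw x hx) (abs_nonneg _) zero_le_one
    linarith
  have bb' : ∀ i, ∀ x ∈ Set.Ioo (0 : ℝ) 1, |b' i x| ≤ 1 := by
    intro i x hx
    simp only [hb']
    rw [abs_mul, abs_pow, abs_of_pos hx.1]
    have e1 : x ^ (n - i) ≤ 1 := pow_le_one₀ hx.1.le hx.2.le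
    have e2 := mul_le_mul e1 (bw' x hx) (abs_nonneg _) zero_le_one
    linarith
  have iab : ∀ i, IntegrableOn (fun z : ℝ × ℝ => a i z.1 * b i z.2) Sq := by
    intro i
    refine (intg (C := 1) (((ma i).comp measurable_fst).mul ((mb i).comp measurable_snd)) ?_).1
    rintro z ⟨h1, h2⟩
    change |a i z.1 * b i z.2| ≤ 1
    rw [abs_mul]
    have := mul_le_mul ((ba i _ h1).trans (hpow1 i)) (bb i _ h2) (abs_nonneg _) zero_le_one
    linarith
  have iab' : ∀ i, IntegrableOn (fun z : ℝ × ℝ => a' i z.1 * b' i z.2) Sq := by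
    intro i
    refine (intg (C := 1) (((ma' i).comp measurable_fst).mul ((mb' i).comp measurable_snd)) ?_).1
    rintro z ⟨h1, h2⟩
    change |a' i z.1 * b' i z.2| ≤ 1
    rw [abs_mul]
    have := mul_le_mul ((ba' i _ h1).trans (hpow1 i)) (bb' i _ h2) (abs_nonneg _) zero_le_one
    linarith
  have iab2 : ∀ i, IntegrableOn (fun z : ℝ × ℝ =>
      c i * (a i z.1 * b i z.2) - c i * (a' i z.1 * b' i z.2)) Sq := fun i =>
    ((iab i).const_mul (c i)).sub ((iab' i).const_mul (c i))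
  have iF : IntegrableOn F Sq := by
    simp only [hF]
    exact integrable_finset_sum _ fun i _ => iab2 i
  have iT : IntegrableOn (Tr.indicator f) Sq := ((intg mf bf).1).indicator tr_meas
  -- the integral over the triangle
  have h1 : ∫ z in Tr, f z = ∫ z in Sq, Tr.indicator f z := by
    rw [setIntegral_indicator tr_meas, Set.inter_eq_self_of_subset_right tr_sub]
  have h2 : |(∫ z in Tr, f z) - ∫ z in Sq, F z| ≤
      2 * ((g * L) ^ 18 + (2 * L) ^ 7 * (g * L) ^ 7) := by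
    rw [h1, ← integral_sub iT iF, ← Real.norm_eq_abs]
    have := norm_setIntegral_le_of_norm_le_const sq_fin hcmp
    rw [Measure.real, sq_vol, ENNReal.toReal_one, mul_one] at this
    exact this
  -- the integral over the square
  have h3 : ∫ z in Sq, F z = ∑ i ∈ range 7, c i * (∫ x in Set.Ioo (0 : ℝ) 1, a i x) *
      ((∫ y in Set.Ioo (0 : ℝ) 1, b i y) - ∫ y in Set.Ioo (0 : ℝ) 1, b' i y) := by
    simp only [hF]
    rw [integral_finset_sum _ fun i _ => iab2 i]
    refine Finset.sum_congr rfl fun i hi => ?_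
    rw [integral_sub ((iab i).const_mul (c i)) ((iab' i).const_mul (c i)), integral_const_mul,
      integral_const_mul]
    have e1 : ∫ z in Sq, a i z.1 * b i z.2 =
        (∫ x in Set.Ioo (0 : ℝ) 1, a i x) * ∫ y in Set.Ioo (0 : ℝ) 1, b i y := by
      rw [Sq, Measure.volume_eq_prod]
      exact setIntegral_prod_mul (a i) (b i) _ _
    have e2 : ∫ z in Sq, a' i z.1 * b' i z.2 =
        (∫ x in Set.Ioo (0 : ℝ) 1, a' i x) * ∫ y in Set.Ioo (0 : ℝ) 1, b' i y := by
      rw [Sq, Measure.volume_eq_prod]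
      exact setIntegral_prod_mul (a' i) (b' i) _ _
    have e3 : (∫ x in Set.Ioo (0 : ℝ) 1, a' i x) = ∫ x in Set.Ioo (0 : ℝ) 1, a i x :=
      (heq i (by have := Finset.mem_range.1 hi; omega)).symm
    rw [e1, e2, e3]
    ring
  have h4 : |∫ z in Sq, F z| ≤ 7 * κ := by
    rw [h3]
    refine (Finset.abs_sum_le_sum_abs _ _).trans ?_
    have : ∑ i ∈ range 7, |c i * (∫ x in Set.Ioo (0 : ℝ) 1, a i x) *
      ((∫ y in Set.Ioo (0 : ℝ) 1, b i y) - ∫ y in Set.Ioo (0 : ℝ) 1, b' i y)| ≤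
        ∑ i ∈ range 7, κ := by
      refine Finset.sum_le_sum fun i hi => ?_
      rw [abs_mul, abs_mul]
      have e1 : |∫ x in Set.Ioo (0 : ℝ) 1, a i x| ≤ (g * L) ^ i := by
        rw [← Real.norm_eq_abs]
        have := norm_setIntegral_le_of_norm_le_const (μ := volume) (s := Set.Ioo (0 : ℝ) 1)
          (f := a i) (C := (g * L) ^ i) (by simp)
          (fun x hx => by rw [Real.norm_eq_abs]; exact ba i x hx)
        simpa [Measure.real] using this
      have e2 : |c i| ≤ (2 * L) ^ i := by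
        simp only [hc]
        rw [abs_mul, abs_pow, abs_neg, abs_one, one_pow, mul_one, Nat.abs_cast]
        have : ((n.choose i : ℕ) : ℝ) ≤ (n : ℝ) ^ i := by exact_mod_cast Nat.choose_le_pow n i
        exact this.trans (pow_le_pow_left₀ (Nat.cast_nonneg _) hn2' i)
      have e3 : |c i| * |∫ x in Set.Ioo (0 : ℝ) 1, a i x| ≤ 1 := by
        calc _ ≤ (2 * (L : ℝ)) ^ i * (g * L) ^ i :=
              mul_le_mul e2 e1 (abs_nonneg _) (by positivity)
          _ = (2 * (g * L ^ 2)) ^ i := by rw [← mul_pow]; congr 1; ring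
          _ ≤ 1 := pow_le_one₀ (by positivity) (by linarith)
      have e4 := hκ (n - i) (by omega)
      calc _ ≤ 1 * κ := mul_le_mul e3 e4 (abs_nonneg _) zero_le_one
        _ = κ := one_mul _
    refine this.trans (le_of_eq ?_)
    rw [Finset.sum_const, card_range, nsmul_eq_mul]
    norm_num
  have h5 : (∫ z in Tr, f z) = ((∫ z in Tr, f z) - ∫ z in Sq, F z) + ∫ z in Sq, F z := by ring
  rw [h5]
  refine (abs_add_le _ _).trans (add_le_add h2 h4)

/-! ## The elementary symmetric sums -/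

/-- the elementary symmetric sums -/
noncomputable def ee (g : ℝ) (A : Finset ℕ) (j : ℕ) (x : ℝ) : ℝ :=
  esy A (fun l => max (g * l - x) 0) j

lemma ee_cont (g : ℝ) (A : Finset ℕ) (j : ℕ) : Continuous (ee g A j) := by
  unfold ee esy
  refine continuous_finsetSum _ fun t _ => continuous_finsetProd _ fun l _ => ?_
  exact (continuous_const.sub continuous_id).max continuous_const

lemma ee_zero_idx (g : ℝ) (A : Finset ℕ) (x : ℝ) : ee g A 0 x = 1 := by
  unfold ee esy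
  simp

lemma ee_nonneg (g : ℝ) (A : Finset ℕ) (j : ℕ) (x : ℝ) : 0 ≤ ee g A j x :=
  Finset.sum_nonneg fun _ _ => Finset.prod_nonneg fun _ _ => le_max_right _ _

lemma ee_vanish {g : ℝ} {L : ℕ} (hg : 0 < g) {A : Finset ℕ} (hA : Sub1 L A) {j : ℕ} (hj : 1 ≤ j)
    {x : ℝ} (hx : g * L ≤ x) : ee g A j x = 0 := by
  unfold ee esy
  refine Finset.sum_eq_zero fun t ht => ?_
  rw [mem_powersetCard] at ht
  have hne : t.Nonempty := by
    rw [← card_pos]
    omega
  obtain ⟨l, hl⟩ := hne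
  refine Finset.prod_eq_zero hl (max_eq_right ?_)
  have h1 : (l : ℝ) ≤ L := by exact_mod_cast (hA l (ht.1 hl)).2
  have h2 := mul_le_mul_of_nonneg_left h1 hg.le
  linarith

lemma ee_le {g : ℝ} {L : ℕ} (hg : 0 < g) (hL : 1 ≤ L) (hgL : g * L ^ 2 ≤ 1) {A : Finset ℕ}
    (hA : Sub1 L A) (j : ℕ) {x : ℝ} (hx : 0 ≤ x) : ee g A j x ≤ 1 := by
  have hL' : (1 : ℝ) ≤ L := by exact_mod_cast hL
  have hcard : A.card ≤ L := by
    have h1 : A ⊆ Icc 1 L := fun l hl => mem_Icc.2 (hA l hl)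
    have h2 := card_le_card h1
    simpa using h2
  unfold ee esy
  calc ∑ t ∈ A.powersetCard j, ∏ l ∈ t, max (g * (l : ℝ) - x) 0
      ≤ ∑ t ∈ A.powersetCard j, (g * L) ^ j := by
        refine Finset.sum_le_sum fun t ht => ?_
        rw [mem_powersetCard] at ht
        calc ∏ l ∈ t, max (g * (l : ℝ) - x) 0 ≤ ∏ l ∈ t, (g * L) := by
              refine Finset.prod_le_prod (fun _ _ => le_max_right _ _) fun l hl => ?_
              have h1 : (l : ℝ) ≤ L := by exact_mod_cast (hA l (ht.1 hl)).2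
              have h2 := mul_le_mul_of_nonneg_left h1 hg.le
              exact max_le (by linarith) (by positivity)
          _ = (g * L) ^ j := by rw [prod_const, ht.2]
    _ = (A.card.choose j : ℝ) * (g * L) ^ j := by
        rw [Finset.sum_const, card_powersetCard, nsmul_eq_mul]
    _ ≤ (L : ℝ) ^ j * (g * L) ^ j := by
        refine mul_le_mul_of_nonneg_right ?_ (by positivity)
        have h1 : ((A.card.choose j : ℕ) : ℝ) ≤ (A.card : ℝ) ^ j := by
          exact_mod_cast Nat.choose_le_pow A.card j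
        exact h1.trans (pow_le_pow_left₀ (Nat.cast_nonneg _) (by exact_mod_cast hcard) j)
    _ = (g * L ^ 2) ^ j := by rw [← mul_pow]; congr 1; ring
    _ ≤ 1 := pow_le_one₀ (by positivity) hgL

/-! ## The pairs -/

section pairs

variable {g : ℝ} {L p : ℕ} {A A' : Finset ℕ} {u : ℝ → ℝ}

/-- exact invariance on the unit interval -/
lemma ov1 (hOV : S_OV) (hg : 0 < g) (hL : 100 ≤ L) (hgL : g * L ^ 4 ≤ 1) (hJ : JEq L p A A')
    (hu : IsTest g L p u) {i j : ℕ} (hi : i ≤ 6) (hj1 : 1 ≤ j) (hj : j ≤ 6) :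
    ∫ x in Set.Ioo (0 : ℝ) 1, u x * x ^ i * ee g A j x =
      ∫ x in Set.Ioo (0 : ℝ) 1, u x * x ^ i * ee g A' j x := by
  have hL0 : (100 : ℝ) ≤ L := by exact_mod_cast hL
  have hgL2 : g * (L : ℝ) ^ 2 ≤ 1 := by
    have h2 : 0 < g * (L : ℝ) ^ 2 := by positivity
    have h1 : g * (L : ℝ) ^ 4 = (g * L ^ 2) * L ^ 2 := by ring
    rw [h1] at hgL
    nlinarith
  have hgL1 : g * L ≤ 1 := by nlinarith
  have h0 : 0 ≤ g * (L : ℝ) := by positivity
  have hi1 : ∀ A0 : Finset ℕ, Sub1 L A0 →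
      IntegrableOn (fun x => u x * x ^ i * ee g A0 j x) (Set.Ioo 0 1) := by
    intro A0 hA0
    refine intg1 (C := 1) ((hu.1.mul (measurable_id.pow_const i)).mul (ee_cont g A0 j).measurable) ?_
    intro x hx
    rw [abs_mul, abs_mul, abs_pow, abs_of_pos hx.1, abs_of_nonneg (ee_nonneg _ _ _ _)]
    have e1 : |u x| * x ^ i ≤ 1 * 1 :=
      mul_le_mul (hu.2.1 x) (pow_le_one₀ hx.1.le hx.2.le) (pow_nonneg hx.1.le i) zero_le_one
    have e2 := mul_le_mul e1 (ee_le hg (by omega) hgL2 hA0 j hx.1.le) (ee_nonneg _ _ _ _)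
      (by norm_num)
    linarith
  have h1 := (hOV g L p A A' u hg hL hgL hJ hu).1 i j (by omega) (by omega)
  have h2 : ∫ x in Set.Ioo (0 : ℝ) 1, (u x * x ^ i * ee g A j x - u x * x ^ i * ee g A' j x) = 0 := by
    rw [cut (h := fun x => u x * x ^ i * ee g A j x - u x * x ^ i * ee g A' j x) h0 hgL1
      (fun x hx => by
        rw [ee_vanish hg hJ.2.1 hj1 hx, ee_vanish hg hJ.2.2.1 hj1 hx]; ring)]
    refine Eq.trans ?_ h1
    refine intervalIntegral.integral_congr fun x _ => ?_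
    simp only [ee]
    ring
  rw [integral_sub (hi1 A hJ.2.1) (hi1 A' hJ.2.2.1)] at h2
  linarith

/-- approximate invariance on the unit interval -/
lemma ov2 (hOV : S_OV) (hg : 0 < g) (hL : 100 ≤ L) (hgL : g * L ^ 4 ≤ 1) (hJ : JEq L p A A')
    {v : ℝ → ℝ} (hu : IsTest g L p (fun y => v (1 - y))) {m j : ℕ} (hm : m ≤ 2 * L) (hj1 : 1 ≤ j)
    (hj : j ≤ 6) :
    |(∫ y in Set.Ioo (0 : ℝ) 1, y ^ m * (v y * ee g A j (1 - y))) -
      ∫ y in Set.Ioo (0 : ℝ) 1, y ^ m * (v y * ee g A' j (1 - y))| ≤ g ^ 7 * L ^ 40 := by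
  have hL0 : (100 : ℝ) ≤ L := by exact_mod_cast hL
  have hgL2 : g * (L : ℝ) ^ 2 ≤ 1 := by
    have h2 : 0 < g * (L : ℝ) ^ 2 := by positivity
    have h1 : g * (L : ℝ) ^ 4 = (g * L ^ 2) * L ^ 2 := by ring
    rw [h1] at hgL
    nlinarith
  have hgL1 : g * L ≤ 1 := by nlinarith
  have h0 : 0 ≤ g * (L : ℝ) := by positivity
  have mv : Measurable v := by
    have h1 : v = fun y => (fun y => v (1 - y)) (1 - y) := by
      funext y
      simp
    rw [h1]
    exact hu.1.comp (measurable_const.sub measurable_id)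
  have bv : ∀ y, |v y| ≤ 1 := by
    intro y
    have := hu.2.1 (1 - y)
    simpa using this
  have hi1 : ∀ A0 : Finset ℕ, Sub1 L A0 →
      IntegrableOn (fun y => y ^ m * (v y * ee g A0 j (1 - y))) (Set.Ioo 0 1) := by
    intro A0 hA0
    refine intg1 (C := 1) ((measurable_id.pow_const m).mul
      (mv.mul ((ee_cont g A0 j).comp (continuous_const.sub continuous_id)).measurable)) ?_
    intro x hx
    rw [abs_mul, abs_mul, abs_pow, abs_of_pos hx.1, abs_of_nonneg (ee_nonneg _ _ _ _)]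
    have e1 : |v x| * ee g A0 j (1 - x) ≤ 1 * 1 :=
      mul_le_mul (bv x) (ee_le hg (by omega) hgL2 hA0 j (by linarith [hx.2])) (ee_nonneg _ _ _ _)
        zero_le_one
    have e2 : x ^ m * (|v x| * ee g A0 j (1 - x)) ≤ 1 * (1 * 1) :=
      mul_le_mul (pow_le_one₀ hx.1.le hx.2.le) e1 (mul_nonneg (abs_nonneg _) (ee_nonneg _ _ _ _))
        zero_le_one
    linarith
  have h1 := (hOV g L p A A' _ hg hL hgL hJ hu).2 m j hm hj
  rw [← integral_sub (hi1 A hJ.2.1) (hi1 A' hJ.2.2.1)]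
  have h2 : ∫ y in Set.Ioo (0 : ℝ) 1, (y ^ m * (v y * ee g A j (1 - y)) -
      y ^ m * (v y * ee g A' j (1 - y))) =
      ∫ y in Set.Ioo (0 : ℝ) 1, (v (1 - y) * (1 - y) ^ m * (ee g A j y - ee g A' j y)) := by
    rw [← integral_Ioc_eq_integral_Ioo, ← integral_Ioc_eq_integral_Ioo,
      ← intervalIntegral.integral_of_le zero_le_one, ← intervalIntegral.integral_of_le zero_le_one]
    have h3 := intervalIntegral.integral_comp_sub_left (a := 0) (b := 1)
      (fun y => y ^ m * (v y * ee g A j (1 - y)) - y ^ m * (v y * ee g A' j (1 - y))) (1 : ℝ)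
    simp only [sub_self, sub_zero] at h3
    rw [← h3]
    refine intervalIntegral.integral_congr fun y _ => ?_
    simp only [sub_sub_cancel]
    ring
  rw [h2, cut (h := fun y => v (1 - y) * (1 - y) ^ m * (ee g A j y - ee g A' j y)) h0 hgL1
    (fun x hx => by
      rw [ee_vanish hg hJ.2.1 hj1 hx, ee_vanish hg hJ.2.2.1 hj1 hx]; ring)]
  exact h1

end pairs

/-- the term of the pair `(j, j')` -/
noncomputable def tt (g : ℝ) (A A' B B' : Finset ℕ) (u v : ℝ → ℝ) (n j j' : ℕ) (z : ℝ × ℝ) : ℝ :=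
  u z.1 * (z.2 - z.1) ^ n * (ee g A j z.1 * (v z.2 * ee g B j' (1 - z.2)) -
    ee g A' j z.1 * (v z.2 * ee g B' j' (1 - z.2)))

lemma pair_pos (hT : S_TAY) (hOV : S_OV) {g : ℝ} {L p q n : ℕ} {A A' B B' : Finset ℕ} {u v : ℝ → ℝ}
    (hg : 0 < g) (hL : 100 ≤ L) (hgL : g * L ^ 4 ≤ 1) (hJ : JEq L p A A') (hJ' : JEq L q B B')
    (hu : IsTest g L p u) (hv : IsTest g L q (fun y => v (1 - y))) (hn : 18 ≤ n) (hn2 : n ≤ 2 * L)
    {j j' : ℕ} (hj1 : 1 ≤ j) (hj : j ≤ 6) (hj' : j' ≤ 6) :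
    |∫ z in Tr, tt g A A' B B' u v n j j' z| ≤
      2 * ((g * L) ^ 18 + (2 * L) ^ 7 * (g * L) ^ 7) + 7 * (g ^ 7 * L ^ 40) := by
  have hL0 : (100 : ℝ) ≤ L := by exact_mod_cast hL
  have hgL2 : g * (L : ℝ) ^ 2 ≤ 1 := by
    have h2 : 0 < g * (L : ℝ) ^ 2 := by positivity
    have h1 : g * (L : ℝ) ^ 4 = (g * L ^ 2) * L ^ 2 := by ring
    rw [h1] at hgL
    nlinarith
  have mv : Measurable v := by
    have h1 : v = fun y => (fun y => v (1 - y)) (1 - y) := by
      funext y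
      simp
    rw [h1]
    exact hv.1.comp (measurable_const.sub measurable_id)
  have bv : ∀ y, |v y| ≤ 1 := by
    intro y
    have := hv.2.1 (1 - y)
    simpa using this
  have mw : ∀ B0 : Finset ℕ, Measurable (fun y => v y * ee g B0 j' (1 - y)) := fun B0 =>
    mv.mul ((ee_cont g B0 j').comp (continuous_const.sub continuous_id)).measurable
  have bw : ∀ B0 : Finset ℕ, Sub1 L B0 → ∀ y ∈ Set.Ioo (0 : ℝ) 1,
      |v y * ee g B0 j' (1 - y)| ≤ 1 := by
    intro B0 hB0 y hy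
    rw [abs_mul, abs_of_nonneg (ee_nonneg _ _ _ _)]
    have e1 : |v y| * ee g B0 j' (1 - y) ≤ 1 * 1 :=
      mul_le_mul (bv y) (ee_le hg (by omega) hgL2 hB0 j' (by linarith [hy.2])) (ee_nonneg _ _ _ _)
        zero_le_one
    linarith
  have bE : ∀ A0 : Finset ℕ, Sub1 L A0 → ∀ y ∈ Set.Ioo (0 : ℝ) 1, |ee g A0 j y| ≤ 1 := by
    intro A0 hA0 y hy
    rw [abs_of_nonneg (ee_nonneg _ _ _ _)]
    exact ee_le hg (by omega) hgL2 hA0 j hy.1.le
  refine X hg hL hgL hT hn hn2 hu.1 (ee_cont g A j).measurable (ee_cont g A' j).measurable (mw B)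
    (mw B') hu.2.1 (bE A hJ.2.1) (bE A' hJ.2.2.1) (bw B hJ'.2.1) (bw B' hJ'.2.2.1)
    (fun x hx => ee_vanish hg hJ.2.1 hj1 hx) (fun x hx => ee_vanish hg hJ.2.2.1 hj1 hx)
    (fun i hi => ov1 hOV hg hL hgL hJ hu hi hj1 hj) (by positivity) ?_
  intro m hm
  rcases Nat.eq_zero_or_pos j' with h0 | h0
  · subst h0
    simp only [ee_zero_idx, sub_self, abs_zero]
    positivity
  · exact ov2 hOV hg hL hgL hJ' hv hm h0 hj'

lemma pair (hT : S_TAY) (hOV : S_OV) {g : ℝ} {L p q n : ℕ} {A A' B B' : Finset ℕ} {u v : ℝ → ℝ}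
    (hg : 0 < g) (hL : 100 ≤ L) (hgL : g * L ^ 4 ≤ 1) (hJ : JEq L p A A') (hJ' : JEq L q B B')
    (hu : IsTest g L p u) (hv : IsTest g L q (fun y => v (1 - y))) (hn : 18 ≤ n) (hn2 : n ≤ 2 * L)
    {j j' : ℕ} (hj : j ≤ 6) (hj' : j' ≤ 6) :
    |∫ z in Tr, tt g A A' B B' u v n j j' z| ≤
      2 * ((g * L) ^ 18 + (2 * L) ^ 7 * (g * L) ^ 7) + 7 * (g ^ 7 * L ^ 40) := by
  rcases Nat.eq_zero_or_pos j with h0 | h0
  · rcases Nat.eq_zero_or_pos j' with h0' | h0'
    · subst h0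
      subst h0'
      unfold tt
      simp only [ee_zero_idx, sub_self, mul_zero, integral_zero, abs_zero]
      positivity
    · rw [flip]
      have hu' : IsTest g L p (fun y => (fun x => u (1 - x)) (1 - y)) := by
        have : (fun y => (fun x => u (1 - x)) (1 - y)) = u := by
          funext y
          simp
        rw [this]
        exact hu
      have h1 := pair_pos (v := fun x => u (1 - x)) hT hOV hg hL hgL hJ' hJ hv hu' hn hn2 h0' hj' hj
      refine le_trans (le_of_eq ?_) h1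
      congr 1
      refine integral_congr_ae (Filter.Eventually.of_forall fun z => ?_)
      unfold tt
      simp only [sub_sub_cancel]
      have e1 : 1 - z.1 - (1 - z.2) = z.2 - z.1 := by ring
      rw [e1]
      ring
  · exact pair_pos hT hOV hg hL hgL hJ hJ' hu hv hn hn2 h0 hj hj'

end AL2x

open AL2x in
theorem al2 : S_EXPK → S_TAY → S_OV → S_AL2 := by
  intro hX hT hOV g L p q A A' B B' u v hg hL hgL hM hJ hJ' hu hv
  have hL0 : (100 : ℝ) ≤ L := by exact_mod_cast hL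
  have hgL2 : g * (L : ℝ) ^ 2 ≤ 1 := by
    have h2 : 0 < g * (L : ℝ) ^ 2 := by positivity
    have h1 : g * (L : ℝ) ^ 4 = (g * L ^ 2) * L ^ 2 := by ring
    rw [h1] at hgL
    nlinarith
  have hgL1 : g * L ≤ 1 := by nlinarith
  have hcA := hJ.1
  have hcB := hJ'.1
  have sA : Sub1 L A := hJ.2.1
  have sA' : Sub1 L A' := hJ.2.2.1
  have sB : Sub1 L B := hJ'.2.1
  have sB' : Sub1 L B' := hJ'.2.2.1
  have hcard : ∀ S0 : Finset ℕ, Sub1 L S0 → S0.card ≤ L := by
    intro S0 hS0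
    have h1 : S0 ⊆ Icc 1 L := fun l hl => mem_Icc.2 (hS0 l hl)
    have h2 := card_le_card h1
    simpa using h2
  have hAL := hcard A sA
  have hBL := hcard B sB
  obtain ⟨M, hMdef⟩ : ∃ M, M = A.card + B.card := ⟨_, rfl⟩
  have mv : Measurable v := by
    have h1 : v = fun y => (fun y => v (1 - y)) (1 - y) := by
      funext y
      simp
    rw [h1]
    exact hv.1.comp (measurable_const.sub measurable_id)
  have bv : ∀ y, |v y| ≤ 1 := by
    intro y
    have := hv.2.1 (1 - y)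
    simpa using this
  -- continuity and boundedness of `KK`
  have cK : ∀ A0 B0 : Finset ℕ, Continuous (fun z : ℝ × ℝ => KK g A0 B0 z.1 z.2) := by
    intro A0 B0
    unfold KK KT
    refine Continuous.mul (continuous_finsetProd _ fun l _ => ?_)
      (continuous_finsetProd _ fun l _ => ?_)
    · exact (continuous_snd.sub (continuous_fst.max continuous_const)).max continuous_const
    · exact ((continuous_snd.min continuous_const).sub continuous_fst).max continuous_const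
  have bK : ∀ A0 B0 : Finset ℕ, ∀ z ∈ Sq, |KK g A0 B0 z.1 z.2| ≤ 1 := by
    rintro A0 B0 z ⟨h1, h2⟩
    unfold KK KT
    rw [abs_mul, abs_of_nonneg (Finset.prod_nonneg fun _ _ => le_max_right _ _),
      abs_of_nonneg (Finset.prod_nonneg fun _ _ => le_max_right _ _)]
    have e1 : ∏ l ∈ A0, max (z.2 - max z.1 (g * (l : ℝ))) 0 ≤ 1 := by
      refine Finset.prod_le_one (fun _ _ => le_max_right _ _) fun l _ => max_le ?_ zero_le_one
      have := le_max_left z.1 (g * (l : ℝ))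
      linarith [h1.1, h2.2]
    have e2 : ∏ l ∈ B0, max (min z.2 (1 - g * (l : ℝ)) - z.1) 0 ≤ 1 := by
      refine Finset.prod_le_one (fun _ _ => le_max_right _ _) fun l _ => max_le ?_ zero_le_one
      have := min_le_left z.2 (1 - g * (l : ℝ))
      linarith [h1.1, h2.2]
    have := mul_le_mul e1 e2 (Finset.prod_nonneg fun _ _ => le_max_right _ _) zero_le_one
    linarith
  -- the integrand
  obtain ⟨R, hR⟩ : ∃ R : ℝ × ℝ → ℝ, R = fun z => u z.1 * v z.2 *
    (KK g A B z.1 z.2 - KK g A' B' z.1 z.2) := ⟨_, rfl⟩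
  have mR : Measurable R := by
    rw [hR]
    exact ((hu.1.comp measurable_fst).mul (mv.comp measurable_snd)).mul
      ((cK A B).measurable.sub (cK A' B').measurable)
  have bR : ∀ z ∈ Sq, |R z| ≤ 2 := by
    intro z hz
    rw [hR]
    simp only
    rw [abs_mul, abs_mul]
    have e1 : |u z.1| * |v z.2| ≤ 1 * 1 := mul_le_mul (hu.2.1 _) (bv _) (abs_nonneg _) zero_le_one
    have e2 : |KK g A B z.1 z.2 - KK g A' B' z.1 z.2| ≤ 2 := by
      refine (abs_sub _ _).trans ?_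
      have := bK A B z hz
      have := bK A' B' z hz
      linarith
    have := mul_le_mul e1 e2 (abs_nonneg _) (by norm_num)
    linarith
  have iR := (intg mR bR).2
  have hTeq : (∫ x in (0 : ℝ)..1, ∫ y in x..1, u x * v y * (KK g A B x y - KK g A' B' x y)) =
      ∫ z in Tr, R z := by
    rw [T_eq (f := fun x y => u x * v y * (KK g A B x y - KK g A' B' x y)) (by rw [hR] at iR; exact iR), hR]
  rw [hTeq]
  -- the terms
  obtain ⟨t, ht⟩ : ∃ t : ℕ → ℕ → ℝ × ℝ → ℝ, t = fun j j' => tt g A A' B B' u v (M - j - j') j j' :=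
    ⟨_, rfl⟩
  have mt : ∀ j j', Measurable (t j j') := by
    intro j j'
    rw [ht]
    simp only
    unfold tt
    have m1 : ∀ A0 : Finset ℕ, Measurable (fun z : ℝ × ℝ => ee g A0 j z.1) := fun A0 =>
      (ee_cont g A0 j).measurable.comp measurable_fst
    have m2 : ∀ B0 : Finset ℕ, Measurable (fun z : ℝ × ℝ => v z.2 * ee g B0 j' (1 - z.2)) := fun B0 =>
      (mv.comp measurable_snd).mul
        ((ee_cont g B0 j').comp (continuous_const.sub continuous_snd)).measurable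
    exact ((hu.1.comp measurable_fst).mul ((measurable_snd.sub measurable_fst).pow_const _)).mul
      (((m1 A).mul (m2 B)).sub ((m1 A').mul (m2 B')))
  have bt : ∀ j j', ∀ z ∈ Sq, |t j j' z| ≤ 2 := by
    rintro j j' z ⟨h1, h2⟩
    rw [ht]
    simp only
    unfold tt
    have e1 : |z.2 - z.1| ≤ 1 := by
      rw [abs_le]
      constructor
      · linarith [h2.1, h1.2]
      · linarith [h2.2, h1.1]
    have e2 : |z.2 - z.1| ^ (M - j - j') ≤ 1 := pow_le_one₀ (abs_nonneg _) e1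
    have f1 : ∀ A0 : Finset ℕ, Sub1 L A0 → |ee g A0 j z.1| ≤ 1 := fun A0 hA0 => by
      rw [abs_of_nonneg (ee_nonneg _ _ _ _)]
      exact ee_le hg (by omega) hgL2 hA0 j h1.1.le
    have f2 : ∀ B0 : Finset ℕ, Sub1 L B0 → |v z.2 * ee g B0 j' (1 - z.2)| ≤ 1 := fun B0 hB0 => by
      rw [abs_mul, abs_of_nonneg (ee_nonneg _ _ _ _)]
      have := mul_le_mul (bv z.2) (ee_le hg (by omega) hgL2 hB0 j' (x := 1 - z.2) (by linarith [h2.2]))
        (ee_nonneg _ _ _ _) zero_le_one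
      linarith
    have e3 : |ee g A j z.1 * (v z.2 * ee g B j' (1 - z.2)) -
        ee g A' j z.1 * (v z.2 * ee g B' j' (1 - z.2))| ≤ 2 := by
      refine (abs_sub _ _).trans ?_
      rw [abs_mul (ee g A j z.1), abs_mul (ee g A' j z.1)]
      have g1 := mul_le_mul (f1 A sA) (f2 B sB) (abs_nonneg _) zero_le_one
      have g2 := mul_le_mul (f1 A' sA') (f2 B' sB') (abs_nonneg _) zero_le_one
      linarith
    rw [abs_mul, abs_mul, abs_pow]
    have e4 : |u z.1| * |z.2 - z.1| ^ (M - j - j') ≤ 1 * 1 :=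
      mul_le_mul (hu.2.1 _) e2 (by positivity) zero_le_one
    have e5 := mul_le_mul e4 e3 (abs_nonneg _) (by norm_num)
    linarith
  have it : ∀ j j', IntegrableOn (t j j') Tr := fun j j' => (intg (mt j j') (bt j j')).2
  obtain ⟨Sm, hSm⟩ : ∃ Sm : ℝ × ℝ → ℝ, Sm = fun z => ∑ j ∈ range 7, ∑ j' ∈ range 7,
    (-1 : ℝ) ^ (j + j') * t j j' z := ⟨_, rfl⟩
  have iS1 : ∀ j j', IntegrableOn (fun z => (-1 : ℝ) ^ (j + j') * t j j' z) Tr := fun j j' =>
    (it j j').const_mul _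
  have iSm : IntegrableOn Sm Tr := by
    rw [hSm]
    exact integrable_finset_sum _ fun j _ => integrable_finset_sum _ fun j' _ => iS1 j j'
  -- the difference
  have hdiff : |(∫ z in Tr, R z) - ∫ z in Tr, Sm z| ≤ 2 * (g ^ 7 * L ^ 30) := by
    rw [← integral_sub iR iSm, ← Real.norm_eq_abs]
    have h1 : ∀ z ∈ Tr, ‖R z - Sm z‖ ≤ 2 * (g ^ 7 * L ^ 30) := by
      intro z hz
      obtain ⟨z1, z2, z3⟩ := hz
      have x1 := hX g L A B z.1 z.2 hg hL hgL sA sB hM z1.le z2.le z3.le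
      have x2 := hX g L A' B' z.1 z.2 hg hL hgL sA' sB' (by omega) z1.le z2.le z3.le
      rw [← hcA, ← hcB, ← hMdef] at x2
      rw [← hMdef] at x1
      obtain ⟨P1, hP1⟩ : ∃ P1 : ℝ, P1 = ∑ j ∈ range 7, ∑ j' ∈ range 7, (-1 : ℝ) ^ (j + j') *
        (z.2 - z.1) ^ (M - j - j') * esy A (fun l => max (g * l - z.1) 0) j *
          esy B (fun l => max (g * l - (1 - z.2)) 0) j' := ⟨_, rfl⟩
      obtain ⟨P2, hP2⟩ : ∃ P2 : ℝ, P2 = ∑ j ∈ range 7, ∑ j' ∈ range 7, (-1 : ℝ) ^ (j + j') *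
        (z.2 - z.1) ^ (M - j - j') * esy A' (fun l => max (g * l - z.1) 0) j *
          esy B' (fun l => max (g * l - (1 - z.2)) 0) j' := ⟨_, rfl⟩
      rw [← hP1] at x1
      rw [← hP2] at x2
      have hS2 : Sm z = u z.1 * v z.2 * (P1 - P2) := by
        rw [hSm, hP1, hP2, ht]
        simp only [tt, ee]
        rw [← Finset.sum_sub_distrib, Finset.mul_sum]
        refine Finset.sum_congr rfl fun j _ => ?_
        rw [← Finset.sum_sub_distrib, Finset.mul_sum]
        refine Finset.sum_congr rfl fun j' _ => ?_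
        ring
      rw [hS2, hR]
      simp only
      rw [← mul_sub, Real.norm_eq_abs, abs_mul, abs_mul]
      have e1 : |u z.1| * |v z.2| ≤ 1 * 1 := mul_le_mul (hu.2.1 _) (bv _) (abs_nonneg _) zero_le_one
      have e2 : |KK g A B z.1 z.2 - KK g A' B' z.1 z.2 - (P1 - P2)| ≤ 2 * (g ^ 7 * L ^ 30) := by
        have e3 : KK g A B z.1 z.2 - KK g A' B' z.1 z.2 - (P1 - P2) =
          (KK g A B z.1 z.2 - P1) - (KK g A' B' z.1 z.2 - P2) := by ring
        rw [e3]
        refine (abs_sub _ _).trans ?_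
        linarith
      have e4 := mul_le_mul e1 e2 (abs_nonneg _) (by norm_num)
      linarith
    have h2 := norm_setIntegral_le_of_norm_le_const tr_fin h1
    refine h2.trans ?_
    have h3 := tr_real
    calc 2 * (g ^ 7 * (L : ℝ) ^ 30) * volume.real Tr ≤ 2 * (g ^ 7 * (L : ℝ) ^ 30) * 1 :=
          mul_le_mul_of_nonneg_left h3 (by positivity)
      _ = _ := mul_one _
  have hSum : |∫ z in Tr, Sm z| ≤
      49 * (2 * ((g * L) ^ 18 + (2 * L) ^ 7 * (g * L) ^ 7) + 7 * (g ^ 7 * L ^ 40)) := by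
    have h1 : ∫ z in Tr, Sm z = ∑ j ∈ range 7, ∑ j' ∈ range 7,
        (-1 : ℝ) ^ (j + j') * ∫ z in Tr, t j j' z := by
      rw [hSm, integral_finset_sum _ fun j _ => integrable_finset_sum _ fun j' _ => iS1 j j']
      refine Finset.sum_congr rfl fun j _ => ?_
      rw [integral_finset_sum _ fun j' _ => iS1 j j']
      refine Finset.sum_congr rfl fun j' _ => ?_
      rw [integral_const_mul]
    rw [h1]
    obtain ⟨β, hβ⟩ : ∃ β : ℝ, β = 2 * ((g * L) ^ 18 + (2 * L) ^ 7 * (g * L) ^ 7) +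
      7 * (g ^ 7 * L ^ 40) := ⟨_, rfl⟩
    rw [← hβ]
    have h2 : ∀ j ∈ range 7, |∑ j' ∈ range 7, (-1 : ℝ) ^ (j + j') * ∫ z in Tr, t j j' z| ≤ 7 * β := by
      intro j hj
      refine (Finset.abs_sum_le_sum_abs _ _).trans ?_
      have : ∑ j' ∈ range 7, |(-1 : ℝ) ^ (j + j') * ∫ z in Tr, t j j' z| ≤ ∑ j' ∈ range 7, β := by
        refine Finset.sum_le_sum fun j' hj' => ?_
        rw [abs_mul, abs_pow, abs_neg, abs_one, one_pow, one_mul, hβ, ht]
        have hj7 := Finset.mem_range.1 hj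
        have hj7' := Finset.mem_range.1 hj'
        exact pair hT hOV hg hL hgL hJ hJ' hu hv (by omega) (by omega) (by omega) (by omega)
      refine this.trans (le_of_eq ?_)
      rw [Finset.sum_const, card_range, nsmul_eq_mul]
      norm_num
    refine (Finset.abs_sum_le_sum_abs _ _).trans ((Finset.sum_le_sum h2).trans (le_of_eq ?_))
    rw [Finset.sum_const, card_range, nsmul_eq_mul]
    ring
  -- the numbers
  have hg7 : 0 < g ^ 7 := by positivity
  have q1 : (g * (L : ℝ)) ^ 18 ≤ g ^ 7 * L ^ 40 := by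
    calc (g * (L : ℝ)) ^ 18 ≤ (g * L) ^ 7 := pow_le_pow_of_le_one (by positivity) hgL1 (by norm_num)
      _ = g ^ 7 * L ^ 7 := mul_pow _ _ _
      _ ≤ g ^ 7 * L ^ 40 := mul_le_mul_of_nonneg_left
          (pow_le_pow_right₀ (by linarith) (by norm_num)) hg7.le
  have q2 : (2 * (L : ℝ)) ^ 7 * (g * L) ^ 7 ≤ 128 * (g ^ 7 * L ^ 40) := by
    have e1 : (2 * (L : ℝ)) ^ 7 * (g * L) ^ 7 = 128 * (g ^ 7 * L ^ 14) := by ring
    rw [e1]
    have e2 : g ^ 7 * (L : ℝ) ^ 14 ≤ g ^ 7 * L ^ 40 := mul_le_mul_of_nonneg_left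
          (pow_le_pow_right₀ (by linarith) (by norm_num)) hg7.le
    linarith
  have q3 : g ^ 7 * (L : ℝ) ^ 30 ≤ g ^ 7 * L ^ 40 := mul_le_mul_of_nonneg_left
          (pow_le_pow_right₀ (by linarith) (by norm_num)) hg7.le
  have q4 : 100000 * (g ^ 7 * (L : ℝ) ^ 40) ≤ g ^ 7 * L ^ 60 := by
    have e1 : g ^ 7 * (L : ℝ) ^ 60 = (L : ℝ) ^ 20 * (g ^ 7 * L ^ 40) := by ring
    rw [e1]
    have e2 : (100000 : ℝ) ≤ (L : ℝ) ^ 20 := by
      calc (100000 : ℝ) ≤ 100 ^ 3 := by norm_num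
        _ ≤ (L : ℝ) ^ 3 := pow_le_pow_left₀ (by norm_num) hL0 3
        _ ≤ (L : ℝ) ^ 20 := pow_le_pow_right₀ (by linarith) (by norm_num)
    exact mul_le_mul_of_nonneg_right e2 (by positivity)
  have q0 : 0 ≤ g ^ 7 * (L : ℝ) ^ 40 := by positivity
  have h5 : (∫ z in Tr, R z) = ((∫ z in Tr, R z) - ∫ z in Tr, Sm z) + ∫ z in Tr, Sm z := by ring
  rw [h5]
  refine (abs_add_le _ _).trans ((add_le_add hdiff hSum).trans ?_)
  linarith

end Pool.Agent.H34.RK
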