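import Pool.Agent.H34.RK.Es

set_option autoImplicit false

open Finset

namespace Pool.Agent.H34.RK

namespace BLK

theorem Y_lt (D : ℕ) : ∀ (c : ZMod 3) (n : ℕ), n ∈ Y D c → n < 3 ^ D := by
  induction D with
  | zero =>
    intro c n hn
    unfold Y at hn
    split_ifs at hn with h
    · rw [mem_singleton.1 hn]
      norm_num
    · exact absurd hn (notMem_empty _)
  | succ D ih =>
    intro c n hn
    unfold Y at hn
    have hp : 3 ^ (D + 1) = 3 * 3 ^ D := by ring
    rw [mem_union, mem_union, mem_image, mem_image] at hn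
    rcases hn with (h | ⟨m, h, rfl⟩) | ⟨m, h, rfl⟩
    · have := ih _ _ h
      omega
    · have := ih _ _ h
      omega
    · have := ih _ _ h
      omega

theorem Y_unique (D : ℕ) : ∀ (a b : ZMod 3) (n : ℕ), n ∈ Y D a → n ∈ Y D b → a = b := by
  induction D with
  | zero =>
    intro a b n ha hb
    unfold Y at ha hb
    split_ifs at ha hb with h1 h2
    · rw [h1, h2]
    · exact absurd hb (notMem_empty _)
    · exact absurd ha (notMem_empty _)
    · exact absurd ha (notMem_empty _)
  | succ D ih =>
    intro a b n ha hb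
    unfold Y at ha hb
    rw [mem_union, mem_union, mem_image, mem_image] at ha hb
    rcases ha with (h | ⟨m, h, rfl⟩) | ⟨m, h, rfl⟩
    · rcases hb with (h' | ⟨m', h', e⟩) | ⟨m', h', e⟩
      · exact ih _ _ _ h h'
      · have := Y_lt _ _ _ h
        omega
      · have := Y_lt _ _ _ h
        omega
    · rcases hb with (h' | ⟨m', h', e⟩) | ⟨m', h', e⟩
      · have := Y_lt _ _ _ h'
        omega
      · have e' : m' = m := by omega
        subst e'
        exact sub_left_injective (ih _ _ _ h h')
      · have := Y_lt _ _ _ h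
        omega
    · rcases hb with (h' | ⟨m', h', e⟩) | ⟨m', h', e⟩
      · have := Y_lt _ _ _ h'
        omega
      · have := Y_lt _ _ _ h'
        omega
      · have e' : m' = m := by omega
        subst e'
        exact sub_left_injective (ih _ _ _ h h')

theorem pw_length (D : ℕ) : ∀ c : ZMod 3, (pw D c).length = 3 ^ D := by
  induction D with
  | zero => intro c; rfl
  | succ D ih =>
    intro c
    unfold pw
    rw [List.length_append, List.length_append, ih, ih, ih]
    ring

/-- the word of the first blocks -/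
def F (D B : ℕ) (c : ℕ → ZMod 3) : List (Fin 3) := (List.range B).flatMap (fun i => pw D (c i))

theorem F_succ (D B : ℕ) (c : ℕ → ZMod 3) : F D (B + 1) c = F D B c ++ pw D (c B) := by
  unfold F
  rw [List.range_succ, List.flatMap_append]
  simp

theorem F_length (D B : ℕ) (c : ℕ → ZMod 3) : (F D B c).length = B * 3 ^ D := by
  induction B with
  | zero => simp [F]
  | succ B ih =>
    rw [F_succ, List.length_append, ih, pw_length]
    ring

theorem change (h : S_PROU) (D : ℕ) (f : List (Fin 3) → ℝ) (hf : Ord (D + 1) f) (a b : ZMod 3)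
    (u w : List (Fin 3)) : f (u ++ (pw D a ++ w)) = f (u ++ (pw D b ++ w)) := by
  have h1 := h D 0 (fun w => f (u ++ w)) (by
    rw [Nat.zero_add]
    exact ES.ord_append u hf) a b
  have h2 : ∀ w, f (u ++ (pw D a ++ w)) - f (u ++ (pw D b ++ w)) = 0 := h1
  linarith [h2 w]

theorem all (h : S_PROU) (D B : ℕ) (c c' : ℕ → ZMod 3) (f : List (Fin 3) → ℝ)
    (hf : Ord (D + 1) f) : ∀ w, f (F D B c ++ w) = f (F D B c' ++ w) := by
  induction B with
  | zero => intro w; rfl
  | succ B ih =>
    intro w
    rw [F_succ, F_succ, List.append_assoc, List.append_assoc, ih, change h D f hf (c B) (c' B)]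

theorem marked (h : S_PROU) (D : ℕ) (c c' : ℕ → ZMod 3) (f : List (Fin 3) → ℝ)
    (hf : Ord (D + 1) f) (i n : ℕ) (hn : n < 3 ^ D) (hi : c i = c' i) : ∀ (B : ℕ), i < B → ∀ w,
    f ((F D B c).set (i * 3 ^ D + n) 2 ++ w) = f ((F D B c').set (i * 3 ^ D + n) 2 ++ w) := by
  intro B
  induction B with
  | zero => intro hB; omega
  | succ B ih =>
    intro hB w
    rw [F_succ, F_succ, List.set_append, List.set_append, F_length, F_length]
    rcases Nat.lt_or_ge i B with hiB | hiB
    · have hlt : i * 3 ^ D + n < B * 3 ^ D := by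
        have : (i + 1) * 3 ^ D ≤ B * 3 ^ D := Nat.mul_le_mul_right _ hiB
        nlinarith
      rw [if_pos hlt, if_pos hlt, List.append_assoc, List.append_assoc, ih hiB,
        change h D f hf (c B) (c' B)]
    · have hiB' : i = B := by omega
      subst hiB'
      rw [if_neg (by omega), if_neg (by omega), hi, List.append_assoc, List.append_assoc,
        all h D i c c' f hf]

theorem mem_blk {D B p : ℕ} {c : ℕ → ZMod 3} (hp : p ∈ blk D B c) :
    p = B * 3 ^ D + 1 ∨ ∃ i n, i < B ∧ n ∈ Y D (c i) ∧ p = i * 3 ^ D + n + 1 := by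
  unfold blk at hp
  rw [mem_union, mem_biUnion, mem_singleton] at hp
  rcases hp with ⟨i, hi, hp⟩ | hp
  · right
    obtain ⟨n, hn, rfl⟩ := mem_image.1 hp
    exact ⟨i, n, mem_range.1 hi, hn, rfl⟩
  · exact Or.inl hp

theorem pos_unique {q i i' n n' : ℕ} (hn : n < q) (hn' : n' < q) (h : i * q + n = i' * q + n') :
    i = i' ∧ n = n' := by
  have h1 : i = i' := by
    rcases Nat.lt_trichotomy i i' with hlt | heq | hlt
    · have : (i + 1) * q ≤ i' * q := Nat.mul_le_mul_right _ hlt
      nlinarith
    · exact heq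
    · have : (i' + 1) * q ≤ i * q := Nat.mul_le_mul_right _ hlt
      nlinarith
  subst h1
  exact ⟨rfl, by omega⟩

end BLK

theorem blk_ : S_PROU → S_BLK := by
  intro h D B p c c' f hf hp
  have hbw : ∀ c, bw D B c = BLK.F D B c ++ [1] := fun c => rfl
  by_cases hp0 : p = 0
  · rw [if_pos hp0, if_pos hp0, hbw, hbw]
    exact BLK.all h D B c c' f hf [1]
  · rw [if_neg hp0, if_neg hp0, hbw, hbw]
    obtain ⟨h1, h2⟩ := hp.resolve_left hp0
    have hlast : p = B * 3 ^ D + 1 → f ((BLK.F D B c ++ [1]).set (p - 1) 2) =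
        f ((BLK.F D B c' ++ [1]).set (p - 1) 2) := by
      intro e
      have e' : p - 1 = B * 3 ^ D := by omega
      rw [e', List.set_append, List.set_append, BLK.F_length, BLK.F_length, if_neg (by omega),
        if_neg (by omega), Nat.sub_self]
      exact BLK.all h D B c c' f hf _
    rcases BLK.mem_blk h1 with e | ⟨i, n, hi, hn, e⟩
    · exact hlast e
    rcases BLK.mem_blk h2 with e' | ⟨i', n', hi', hn', e'⟩
    · exact hlast e'
    have hnl := BLK.Y_lt _ _ _ hn
    have hnl' := BLK.Y_lt _ _ _ hn'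
    obtain ⟨g1, g2⟩ := BLK.pos_unique hnl hnl' (by omega : i * 3 ^ D + n = i' * 3 ^ D + n')
    subst g1
    subst g2
    have hc : c i = c' i := BLK.Y_unique _ _ _ _ hn hn'
    have e2 : p - 1 = i * 3 ^ D + n := by omega
    have hlt : i * 3 ^ D + n < B * 3 ^ D := by
      have : (i + 1) * 3 ^ D ≤ B * 3 ^ D := Nat.mul_le_mul_right _ hi
      nlinarith
    rw [e2, List.set_append, List.set_append, BLK.F_length, BLK.F_length, if_pos hlt, if_pos hlt]
    exact BLK.marked h D c c' f hf i n hnl hc B hi _

end Pool.Agent.H34.RK
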