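import Pool.Agent.H34.RK.YB

/-! # RK-BLKCARD (helper71) -/

set_option autoImplicit false

open Finset

namespace Pool.Agent.H34.RK

theorem blkcard : S_BLKCARD := by
  intro D B c hD
  refine ⟨?_, ?_, ?_⟩
  · rw [Finset.card_eq_sum_ones, sum_blk]
    congr 1
    have : ∀ i ∈ range B, ∑ n ∈ Y D (c i), 1 = 3 ^ (D - 1) := by
      intro i _
      rw [← Finset.card_eq_sum_ones, Y_card D hD]
    rw [Finset.sum_congr rfl this, Finset.sum_const, Finset.card_range, smul_eq_mul]
  · intro l hl
    rw [blk_eq, Finset.mem_biUnion] at hl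
    obtain ⟨i, hi, hl⟩ := hl
    rw [Finset.mem_range] at hi
    have h1 := bk_mem (by omega) hl
    unfold len
    refine ⟨by omega, ?_⟩
    unfold bk at hl
    split_ifs at hl with h
    · have h2 : (i + 1) * 3 ^ D ≤ B * 3 ^ D := Nat.mul_le_mul_right _ h
      omega
    · rw [Finset.mem_singleton] at hl
      omega
  · unfold blk len
    rw [Finset.mem_union]
    exact Or.inr (Finset.mem_singleton_self _)

end Pool.Agent.H34.RK
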