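import Pool.Agent.H34.RK.Stm3

/-! RK-CHAIN (helper33): the chain part. -/

set_option autoImplicit false

open Finset MeasureTheory

namespace Pool.Agent.H34.RK

namespace Chn

theorem log_bound {r : ℝ} (hr : -1 < r) : min (r ^ 2) 1 / 6 ≤ r - Real.log (1 + r) := by
  have h0 : 0 < 1 + r := by linarith
  obtain ⟨s, hs⟩ : ∃ s, s = √(1 + r) := ⟨_, rfl⟩
  have hs0 : 0 < s := by rw [hs]; exact Real.sqrt_pos.2 h0
  have hs2 : s ^ 2 = 1 + r := by rw [hs]; exact Real.sq_sqrt h0.le
  have h1 : Real.log (1 + r) ≤ 2 * (s - 1) := by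
    rw [← hs2, Real.log_pow]
    have := Real.log_le_sub_one_of_pos hs0
    push_cast
    linarith
  have h2 : (s - 1) ^ 2 ≤ r - Real.log (1 + r) := by nlinarith
  refine le_trans ?_ h2
  have hr' : r = s ^ 2 - 1 := by linarith
  rcases le_or_gt r 1 with h | h
  · have h3 : s ≤ 1.42 := by nlinarith
    have h4 : min (r ^ 2) 1 ≤ r ^ 2 := min_le_left _ _
    have h5 : r ^ 2 = (s - 1) ^ 2 * (s + 1) ^ 2 := by rw [hr']; ring
    have h6 : (s + 1) ^ 2 ≤ 6 := by nlinarith
    have h7 : (s - 1) ^ 2 * (s + 1) ^ 2 ≤ (s - 1) ^ 2 * 6 :=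
      mul_le_mul_of_nonneg_left h6 (sq_nonneg _)
    linarith
  · have h3 : 1.41 ≤ s := by nlinarith
    have h4 : min (r ^ 2) 1 ≤ 1 := min_le_right _ _
    nlinarith

theorem term_le {U r : ℝ} (hU : 0 ≤ U) (hr : -1 < r) :
    (⌊U⌋₊ : ℝ) * Real.log (1 + r) - U * r ≤ 1 - (⌊U⌋₊ : ℝ) * (r - Real.log (1 + r)) := by
  have h1 := Nat.floor_le hU
  have h2 := Nat.lt_floor_add_one U
  nlinarith

end Chn

open Chn in
theorem chain : S_CHAIN := by
  intro L g δ D φ hL hg hδ hD hφ0 hφ
  obtain ⟨r, hr⟩ : ∃ r : ℕ → ℝ, ∀ l, r l = (φ (l + 1) - φ l) / g - 1 := ⟨_, fun _ => rfl⟩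
  obtain ⟨U, hU⟩ : ∃ U : ℕ → ℝ, ∀ l, U l = g * ∑ i ∈ Icc (l + 1) L, D i := ⟨_, fun _ => rfl⟩
  have hr1 : ∀ l < L, -1 < r l := by
    intro l hl
    rw [hr]
    have : 0 < (φ (l + 1) - φ l) / g := div_pos (by linarith [hφ l hl]) hg
    linarith
  have hU0 : ∀ l, 0 ≤ U l := fun l => by
    rw [hU]; exact mul_nonneg hg.le (Finset.sum_nonneg fun i _ => hD i)
  have hφs : ∀ l, φ l - g * l = g * ∑ k ∈ range l, r k := by
    intro l
    induction l with
    | zero => simp [hφ0]
    | succ l ih =>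
      rw [Finset.sum_range_succ, mul_add, ← ih, hr]
      push_cast
      field_simp
      ring
  have habel : ∀ n, n ≤ L → ∑ l ∈ Icc 1 n, D l * (φ l - g * l) =
      ∑ l ∈ range n, (g * ∑ i ∈ Icc (l + 1) n, D i) * r l := by
    intro n
    induction n with
    | zero => intro _; simp
    | succ n ih =>
      intro hn
      rw [Finset.sum_Icc_succ_top (by omega), ih (by omega), Finset.sum_range_succ]
      have e1 : ∀ l ∈ range n, (g * ∑ i ∈ Icc (l + 1) (n + 1), D i) * r l =
          (g * ∑ i ∈ Icc (l + 1) n, D i) * r l + g * D (n + 1) * r l := by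
        intro l hl
        rw [Finset.mem_range] at hl
        rw [Finset.sum_Icc_succ_top (by omega)]
        ring
      rw [Finset.sum_congr rfl e1, Finset.sum_add_distrib, hφs, Finset.sum_range_succ,
        ← Finset.mul_sum]
      have e2 : Icc (n + 1) (n + 1) = {n + 1} := Finset.Icc_self _
      rw [e2, Finset.sum_singleton]
      ring
  have hA := habel L le_rfl
  have hmain : ∑ l ∈ range L, (⌊g * ∑ i ∈ Icc (l + 1) L, D i⌋₊ : ℝ) *
      Real.log ((φ (l + 1) - φ l) / g) - ∑ l ∈ Icc 1 L, D l * (φ l - g * l) =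
      ∑ l ∈ range L, ((⌊U l⌋₊ : ℝ) * Real.log (1 + r l) - U l * r l) := by
    rw [hA, Finset.sum_sub_distrib]
    congr 1
    · refine Finset.sum_congr rfl fun l _ => ?_
      rw [hU, hr]
      congr 2
      ring
    · refine Finset.sum_congr rfl fun l _ => ?_
      rw [hU]
  have hnn : ∀ l < L, 0 ≤ (⌊U l⌋₊ : ℝ) * (r l - Real.log (1 + r l)) := by
    intro l hl
    refine mul_nonneg (Nat.cast_nonneg _) ?_
    have h1 := log_bound (hr1 l hl)
    have h2 : 0 ≤ min (r l ^ 2) 1 := le_min (sq_nonneg _) zero_le_one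
    linarith
  rw [hmain]
  constructor
  · calc ∑ l ∈ range L, ((⌊U l⌋₊ : ℝ) * Real.log (1 + r l) - U l * r l)
        ≤ ∑ l ∈ range L, (1 : ℝ) := by
          refine Finset.sum_le_sum fun l hl => ?_
          rw [Finset.mem_range] at hl
          have h1 := term_le (hU0 l) (hr1 l hl)
          have h2 := hnn l hl
          linarith
      _ = L := by simp
  · rintro ⟨l0, hl1, hlL, hbad⟩
    have hL0 : (0 : ℝ) < L := by exact_mod_cast hL
    obtain ⟨i, hi, hri⟩ : ∃ i < L, δ / (g * L) < |r i| := by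
      by_contra hcon
      push Not at hcon
      have h1 : |φ l0 - g * l0| ≤ δ := by
        rw [hφs, abs_mul, abs_of_pos hg]
        calc g * |∑ k ∈ range l0, r k| ≤ g * ∑ k ∈ range l0, |r k| :=
              mul_le_mul_of_nonneg_left (Finset.abs_sum_le_sum_abs _ _) hg.le
          _ ≤ g * ∑ k ∈ range l0, δ / (g * L) := by
              refine mul_le_mul_of_nonneg_left (Finset.sum_le_sum fun k hk => ?_) hg.le
              rw [Finset.mem_range] at hk
              exact hcon k (by omega)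
          _ = δ * (l0 / L) := by
              rw [Finset.sum_const, Finset.card_range, nsmul_eq_mul]
              field_simp
          _ ≤ δ * 1 := by
              refine mul_le_mul_of_nonneg_left ?_ hδ.le
              rw [div_le_one hL0]
              exact_mod_cast hlL
          _ = δ := mul_one _
      linarith
    obtain ⟨m, hm⟩ : ∃ m, m = min ((δ / (g * L)) ^ 2) 1 := ⟨_, rfl⟩
    have hm0 : 0 ≤ m := by rw [hm]; exact le_min (sq_nonneg _) zero_le_one
    have hmr : m ≤ min (r i ^ 2) 1 := by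
      rw [hm]
      refine min_le_min ?_ le_rfl
      rw [← sq_abs (r i)]
      exact pow_le_pow_left₀ (by positivity) hri.le 2
    have hui : g * D L - 1 ≤ (⌊U i⌋₊ : ℝ) := by
      have h1 := Nat.lt_floor_add_one (U i)
      have h2 : g * D L ≤ U i := by
        rw [hU]
        refine mul_le_mul_of_nonneg_left ?_ hg.le
        exact Finset.single_le_sum (f := D) (fun j _ => hD j)
          (Finset.mem_Icc.2 ⟨by omega, le_rfl⟩)
      linarith
    have hbig : (g * D L - 1) * m / 6 ≤ (⌊U i⌋₊ : ℝ) * (r i - Real.log (1 + r i)) := by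
      have h1 := log_bound (hr1 i hi)
      calc (g * D L - 1) * m / 6 ≤ (⌊U i⌋₊ : ℝ) * m / 6 := by
            have := mul_le_mul_of_nonneg_right hui hm0
            linarith
        _ ≤ (⌊U i⌋₊ : ℝ) * (min (r i ^ 2) 1 / 6) := by
            have := mul_le_mul_of_nonneg_left hmr (Nat.cast_nonneg (α := ℝ) ⌊U i⌋₊)
            linarith
        _ ≤ _ := mul_le_mul_of_nonneg_left h1 (Nat.cast_nonneg _)
    rw [← hm]
    have hsum : (⌊U i⌋₊ : ℝ) * (r i - Real.log (1 + r i)) ≤
        ∑ l ∈ range L, (⌊U l⌋₊ : ℝ) * (r l - Real.log (1 + r l)) :=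
      Finset.single_le_sum (f := fun l => (⌊U l⌋₊ : ℝ) * (r l - Real.log (1 + r l)))
        (fun l hl => hnn l (Finset.mem_range.1 hl)) (Finset.mem_range.2 hi)
    calc ∑ l ∈ range L, ((⌊U l⌋₊ : ℝ) * Real.log (1 + r l) - U l * r l)
        ≤ ∑ l ∈ range L, (1 - (⌊U l⌋₊ : ℝ) * (r l - Real.log (1 + r l))) := by
          refine Finset.sum_le_sum fun l hl => ?_
          rw [Finset.mem_range] at hl
          exact term_le (hU0 l) (hr1 l hl)
      _ = L - ∑ l ∈ range L, (⌊U l⌋₊ : ℝ) * (r l - Real.log (1 + r l)) := by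
          rw [Finset.sum_sub_distrib]; simp
      _ ≤ L - (g * D L - 1) * m / 6 := by linarith

end Pool.Agent.H34.RK
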