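import Pool.Agent.H34.RK.Defs

/-!
# Project RK, part 1: combinatorial stubs

All stubs are `def S_X : Prop`. Prove `theorem x : S_X` (name in lower case) in the file named in the
task. Where dependencies are listed, prove `theorem x : S_DEP1 → S_DEP2 → S_X` instead.
-/

set_option autoImplicit false

open Finset

namespace Pool.Agent.H34.RK

/-- Prouhet. The operator `T_p f = f (p ++ ·)`; words with `T_p - T_q` lowering degrees.
Proof: induction on `D`. `D = 0`: `f (b :: w) - f (b' :: w) = (f (b :: w) - f w) - (f (b' :: w) - f w)`.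
Step: let `P = T_(pw D 0)`, `δ_c = T_(pw D c) - P`; `δ_c` lowers the degree by `D + 1`, and
`T_p - 1` lowers the degree by `1` for every word `p`. `T` of `pw (D+1) c` is the product of the three
`P + δ_(c - i)`; expand: it is `P^3 + ∑ δ_(c-i)` modulo operators which lower the degree by `D + 2`
(`δ P² - δ`, `P δ P - δ`, `P² δ - δ`, and products of two `δ`'s), and `∑_i δ_(c - i)` does not
depend on `c`. Note `f ↦ f ∘ (p ++ ·)` is linear, and `T_(p ++ q) f = T_q (T_p f)`. Useful: `Ord` is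
monotone in `k`, closed under sums, and under `f ↦ f (p ++ ·)`. -/
def S_PROU : Prop := ∀ (D k : ℕ) (f : List (Fin 3) → ℝ), Ord (k + D + 1) f → ∀ c c' : ZMod 3,
  Ord k (fun w => f (pw D c ++ w) - f (pw D c' ++ w))

/-- Product of a functional of degree `≤ a` and one of degree `≤ b`. Proof: induction on `a + b`,
`(f g)(b::w) - (f g)(w) = (f(b::w) - f w) g(b::w) + f w (g(b::w) - g w)`, and
`g (b::w) = g w + (g(b::w) - g w)`. -/
def S_ORDMUL : Prop := ∀ (a b : ℕ) (f g : List (Fin 3) → ℝ), Ord (a + 1) f → Ord (b + 1) g →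
  Ord (a + b + 1) (fun w => f w * g w)

/-- The elementary symmetric functionals have degree `≤ 2 j`. Proof: more generally the `r`-th finite
difference in `x` of `x ↦ es w x j` has degree `≤ 2 j - r` as a functional of `w` (`0` if
`r > 2 j`; indeed `es w x j` is a polynomial of degree `≤ j` in `x`). Induction on `j`, and for
fixed `j` downwards on `r`, using the recursion
`es (b::w) x (j+1) = es w (x+1) (j+1) + [b = 1] x es w (x+1) j`. -/
def S_ES : Prop := ∀ (x : ℝ) (j : ℕ), Ord (2 * j + 1) (fun w => es w x j)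

/-- Block words with one marked place: functionals of degree `≤ D` do not see the classes. The mark
`2` is put at the same place `p` of the two words; if the place is inside block `i` then the two
classes of block `i` must agree (this follows from `p` being in both sets, `Y D a ∩ Y D b = ∅` for
`a ≠ b`); `p = 0` means no mark. Proof from `S_PROU` (with `k = 0`): change the classes block by
block. -/
def S_BLK : Prop := ∀ (D B p : ℕ) (c c' : ℕ → ZMod 3) (f : List (Fin 3) → ℝ), Ord (D + 1) f →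
  (p = 0 ∨ (p ∈ blk D B c ∧ p ∈ blk D B c')) →
  f (if p = 0 then bw D B c else (bw D B c).set (p - 1) 2) =
    f (if p = 0 then bw D B c' else (bw D B c').set (p - 1) 2)

/-- Invariance of the integrals. Proof: put `w` = the word of `blk D B c` with the letter at place `p`
replaced by `2`. For `v ∈ (k, k+1)`, `v = k + u`, the elementary symmetric sum of the `(l - v)⁺` is
`es (w.drop k) (1 - u) j`. So the integral over `[0, len]` is `∑_(k < |w|) ∫_0^1 (k + u)^i
es (w.drop k) (1 - u) j du`; with `k = |w| - |suffix|` this is a functional of `w` given by a recursion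
over suffixes, hence of degree `≤ i + 2 j + 1` (`S_ES`, `S_ORDMUL`, `|suffix|` has degree `1`, the
integral over `u` can be avoided: it is a polynomial in `u`, or show that `Ord k` is preserved by
integration over `u`). The integral over `[0, p]` is the same with the extra factor
`#(letters 2 in the suffix)`, which has degree `1`. Use `S_BLK`. -/
def S_JEQ : Prop := ∀ (D B p i j : ℕ) (c c' : ℕ → ZMod 3),
  (p = 0 ∨ (p ∈ blk D B c ∧ p ∈ blk D B c')) → i + 2 * j + 3 ≤ D →
    (∫ v in (0 : ℝ)..(len D B : ℕ), v ^ i * esy ((blk D B c).erase p) (fun l => max ((l : ℝ) - v) 0) j) =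
      (∫ v in (0 : ℝ)..(len D B : ℕ),
        v ^ i * esy ((blk D B c').erase p) (fun l => max ((l : ℝ) - v) 0) j) ∧
    (∫ v in (0 : ℝ)..p, v ^ i * esy ((blk D B c).erase p) (fun l => max ((l : ℝ) - v) 0) j) =
      (∫ v in (0 : ℝ)..p, v ^ i * esy ((blk D B c').erase p) (fun l => max ((l : ℝ) - v) 0) j)

/-- Packaging of `S_JEQ` for `D = 40`. (The cardinality of `blk D B c` is `B * 3 ^ (D - 1) + 1`.) -/
def S_JEQ' : Prop := ∀ (B p : ℕ) (c c' : ℕ → ZMod 3),
  (p = 0 ∨ (p ∈ blk 40 B c ∧ p ∈ blk 40 B c')) →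
    JEq (len 40 B) p ((blk 40 B c).erase p) ((blk 40 B c').erase p)

/-- Basic facts on coded sets. -/
def S_BLKCARD : Prop := ∀ (D B : ℕ) (c : ℕ → ZMod 3), 1 ≤ D →
  (blk D B c).card = B * 3 ^ (D - 1) + 1 ∧ (∀ l ∈ blk D B c, 1 ≤ l ∧ l ≤ len D B) ∧
  len D B ∈ blk D B c

/-- Moments of the part of the coded set above `p`. (Prouhet: the classes `Y D c` have the same power
sums of order `< D`; direct induction on `D` with the binomial theorem.) -/
def S_MOM : Prop := ∀ (D B p a : ℕ) (c c' : ℕ → ZMod 3), a + 1 ≤ D →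
  (p = 0 ∨ (p ∈ blk D B c ∧ p ∈ blk D B c')) →
    (∑ l ∈ (blk D B c).filter (p < ·), (l : ℝ) ^ a) = ∑ l ∈ (blk D B c').filter (p < ·), (l : ℝ) ^ a

/-- Signed fourth power sums. Let `q D a b = Qk 4 (Y D a) (Y D b)`. For `D ≥ 5` the contributions of
different sub-blocks to `q (D+1) a b` cancel (equal moments up to order `4`, antisymmetry), so
`q (D+1) a b = ∑_i q D (a-i) (b-i)`. Moments and `q D` satisfy explicit recursions in `D` (binomial
theorem), so `q 6 a b = 41148 * cyc a b` is a computation (checked numerically; do not enumerate the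
pairs, use the recursion `q (D+1) a b = ∑_(i,j) (...)` with moments), and `q (D+1) = 3 q D` for
`D ≥ 6`. Different blocks cancel in the same way. -/
def S_Q4 : Prop := ∀ (D B : ℕ) (c c' : ℕ → ZMod 3), 8 ≤ D →
  Qk 4 (blk D B c) (blk D B c') = 41148 * 3 ^ (D - 6) * ∑ i ∈ range B, cyc (c i) (c' i)

/-- Signed sixth power sums of the parts above `p`; see `S_Q4`; here
`q 8 a b = -950618916 * cyc a b`, `q (D+1) = 3 q D` for `D ≥ 8`. (`q` for exponent `6` at `D = 7`:
`q 0 1 = -135566494383852`, `q 0 2 = -271132038148788`, `q 1 2 = -135566494383852`.) If `p` lies in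
block `i` then the two parts of block `i` above `p` are equal (same class), so this block contributes
`0` by antisymmetry. -/
def S_Q6 : Prop := ∀ (D B p : ℕ) (c c' : ℕ → ZMod 3), 8 ≤ D →
  (p = 0 ∨ (p ∈ blk D B c ∧ p ∈ blk D B c')) →
  Qk 6 ((blk D B c).filter (p < ·)) ((blk D B c').filter (p < ·)) =
    -950618916 * 3 ^ (D - 8) * ∑ i ∈ (range B).filter (fun i => p ≤ i * 3 ^ D), cyc (c i) (c' i)

/-- Kernel integral 1. (Inner integral: `∫_0^R sign (v'-v) (b-v')⁺ dv' = 2 G(v) - G(0)`,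
`G(v) = ((b-v)⁺)²/2`; then split at `min a b`.) -/
def S_K1 : Prop := ∀ a b R : ℝ, 0 ≤ a → a ≤ R → 0 ≤ b → b ≤ R →
  (∫ v in (0 : ℝ)..R, ∫ v' in (0 : ℝ)..R, Real.sign (v' - v) * max (a - v) 0 * max (b - v') 0) =
    (a ^ 4 - b ^ 4) / 24 - (a ^ 3 * b - a * b ^ 3) / 6 + Real.sign (b - a) * (b - a) ^ 4 / 24

/-- Kernel integral 2. (Inner integral: `2 G(v) - G(0)`, `G(v) = ((b-v)⁺)³/3`.) -/
def S_K2 : Prop := ∀ a b R : ℝ, 0 ≤ a → a ≤ R → 0 ≤ b → b ≤ R →
  (∫ v in (0 : ℝ)..R, ∫ v' in (0 : ℝ)..R,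
      Real.sign (v' - v) * (max (a - v) 0) ^ 2 * (max (b - v') 0) ^ 2) =
    (-a ^ 6 + 6 * a ^ 5 * b - 15 * a ^ 4 * b ^ 2 + 15 * a ^ 2 * b ^ 4 - 6 * a * b ^ 5 + b ^ 6) / 180 -
      Real.sign (b - a) * (b - a) ^ 6 / 180

/-- From `S_K1`, `S_Q4`, `S_MOM`, `S_BLKCARD`: the polynomial parts cancel by antisymmetry since the
moments of order `≤ 4` agree. -/
def S_W1 : Prop := ∀ (D B : ℕ) (c c' : ℕ → ZMod 3), 8 ≤ D →
  (∫ v in (0 : ℝ)..(len D B : ℕ), ∫ v' in (0 : ℝ)..(len D B : ℕ), Real.sign (v' - v) *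
      (∑ l ∈ blk D B c, max ((l : ℝ) - v) 0) * ∑ l ∈ blk D B c', max ((l : ℝ) - v') 0) =
    41148 * 3 ^ (D - 6) / 24 * ((∑ i ∈ range B, cyc (c i) (c' i) : ℤ) : ℝ)

/-- From `S_K2` (shifted by `p`), `S_Q6`, `S_MOM`, `S_BLKCARD`. The elements `l ≤ p` do not
contribute. -/
def S_W2 : Prop := ∀ (D B p : ℕ) (c c' : ℕ → ZMod 3), 8 ≤ D →
  (p = 0 ∨ (p ∈ blk D B c ∧ p ∈ blk D B c')) →
  (∫ v in (p : ℝ)..(len D B : ℕ), ∫ v' in (p : ℝ)..(len D B : ℕ), Real.sign (v' - v) *
      (∑ l ∈ (blk D B c).erase p, (max ((l : ℝ) - v) 0) ^ 2) *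
        ∑ l ∈ (blk D B c').erase p, (max ((l : ℝ) - v') 0) ^ 2) =
    950618916 * 3 ^ (D - 8) / 180 *
      ((∑ i ∈ (range B).filter (fun i => p ≤ i * 3 ^ D), cyc (c i) (c' i) : ℤ) : ℝ)

/-- The code. Proof. Take a prime `q` with `3 J² < q ≤ 6 J²` and `B = 3 J q²`; the blocks come in
groups of three (cells), cell `(l, x, y)` with `l < J`, `x, y ∈ F_q`, in any order. The bits of
`s < 2^J` are `s_0, ..., s_(J-1)`. In cell `(l, x, y)` the word of `s` is `N = (0, 2, 1)`, unless
`y = ∑_(i < l) s_i x^i` in `F_q` (active), and then it is `P = (0, 1, 2)` if `s_l = 0` and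
`M = (1, 2, 0)` if `s_l = 1`. `cyc` summed over a cell is `3` for `(P, M)`, `-3` for `(M, P)`, `0` for
`(N, P), (N, M)` and equal words; all three terms of `(P, M)` are `1`. For `s ≠ t` let `l*` be the
first bit where they differ, `σ = 1` if `s_(l*) = 0`, else `-1`. Levels `l < l*`: same words. Level
`l*`: the `q` cells `(l*, x, y(x))` give `3 σ` each (each single term is `σ`), the others `0`. Levels
`l > l*`: different polynomials of degree `< l`, so both active only for at most `l - 1` values of `x`,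
and only these cells can have a nonzero sum, at most `3` in absolute value; a partial sum of one cell is
at most `3` in absolute value. Hence `σ * full ≥ 3 q - 3 J² / 2`, and
`σ * (sum over i ≥ q') ≥ - 3 J² / 2 - 3` for each `q'`. -/
def S_CODE : Prop := ∀ J : ℕ, 2 ≤ J → ∃ (B : ℕ) (c : ℕ → ℕ → ZMod 3), 1 ≤ B ∧ B ≤ 200 * J ^ 5 ∧
  ∀ s t : ℕ, s < 2 ^ J → t < 2 ^ J → s ≠ t → ∃ σ : ℤ, (σ = 1 ∨ σ = -1) ∧ ∀ q : ℕ,
    1 ≤ σ * (∑ i ∈ (range B).filter (fun i => q ≤ i), cyc (c s i) (c t i) +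
      ∑ i ∈ range B, cyc (c s i) (c t i)) ∧ 1 ≤ σ * ∑ i ∈ range B, cyc (c s i) (c t i)

end Pool.Agent.H34.RK
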