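import Mathlib
import Pool.Agent.H34.RK.Stm1

/-!
# Project RK, job CODE: the code
-/

set_option autoImplicit false

open Finset

namespace Pool.Agent.H34.RK

namespace CodeAux

theorem split (a b : ℕ) (f : ℕ → ℤ) :
    ∑ i ∈ range (a * b), f i = ∑ m ∈ range a, ∑ r ∈ range b, f (m * b + r) := by
  induction a with
  | zero => simp
  | succ a ih => rw [add_mul, one_mul, Finset.sum_range_add, ih, Finset.sum_range_succ]

/-- the value of the polynomial with the first `l` bits of `s` as coefficients -/
def ev (P s l x : ℕ) : ZMod P := ∑ i ∈ range l, if s.testBit i then (x : ZMod P) ^ i else 0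

/-- active cells -/
def act (P s l x y : ℕ) : Bool := decide ((y : ZMod P) = ev P s l x)

/-- the words -/
def w (a b : Bool) (r : ℕ) : ZMod 3 :=
  if a then (if b then (r : ZMod 3) + 1 else (r : ZMod 3)) else 2 * (r : ZMod 3)

/-- the code -/
def cd (P s i : ℕ) : ZMod 3 :=
  w (act P s (i / 3 / P / P) (i / 3 / P % P) (i / 3 % P)) (s.testBit (i / 3 / P / P)) (i % 3)

theorem cell : ∀ a b a' b' : Bool, ∑ r ∈ range 3, cyc (w a b r) (w a' b' r) =
    if a && a' then (if b = b' then 0 else if b' then 3 else -3) else 0 := by
  decide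

theorem cyc_abs (a b : ZMod 3) : -1 ≤ cyc a b ∧ cyc a b ≤ 1 := by
  unfold cyc
  split_ifs <;> simp

theorem cd_cell (P s K r : ℕ) (hr : r < 3) : cd P s (K * 3 + r) =
    w (act P s (K / P / P) (K / P % P) (K % P)) (s.testBit (K / P / P)) r := by
  have h1 : (K * 3 + r) / 3 = K := by omega
  have h2 : (K * 3 + r) % 3 = r := by omega
  unfold cd
  rw [h1, h2]

/-- the triple sum -/
theorem triple (J P : ℕ) (F : ℕ → ℕ → ℕ → ℤ) (hP : 0 < P) :
    ∑ K ∈ range (J * P * P), F (K / P / P) (K / P % P) (K % P) =
      ∑ l ∈ range J, ∑ x ∈ range P, ∑ y ∈ range P, F l x y := by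
  rw [split (J * P) P, split J P]
  refine Finset.sum_congr rfl fun l _ => Finset.sum_congr rfl fun x hx =>
    Finset.sum_congr rfl fun y hy => ?_
  rw [Finset.mem_range] at hx hy
  have h1 : ((l * P + x) * P + y) / P = l * P + x := by
    rw [mul_comm, Nat.mul_add_div hP, Nat.div_eq_of_lt hy, add_zero]
  have h2 : ((l * P + x) * P + y) % P = y := by
    rw [mul_comm, Nat.mul_add_mod, Nat.mod_eq_of_lt hy]
  have h3 : (l * P + x) / P = l := by
    rw [mul_comm, Nat.mul_add_div hP, Nat.div_eq_of_lt hx, add_zero]
  have h4 : (l * P + x) % P = x := by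
    rw [mul_comm, Nat.mul_add_mod, Nat.mod_eq_of_lt hx]
  rw [h1, h2, h3, h4]

/-- every value is taken once -/
theorem one_y (P : ℕ) (hP : 0 < P) (v : ZMod P) :
    ∑ y ∈ range P, (if (y : ZMod P) = v then (3 : ℤ) else 0) = 3 := by
  have : NeZero P := ⟨hP.ne'⟩
  rw [Finset.sum_eq_single v.val]
  · rw [if_pos (ZMod.natCast_zmod_val v)]
  · intro y hy hne
    rw [if_neg]
    intro h
    apply hne
    rw [← h, ZMod.val_natCast, Nat.mod_eq_of_lt (Finset.mem_range.1 hy)]
  · intro h
    exact absurd (Finset.mem_range.2 (ZMod.val_lt v)) h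

open Polynomial in
/-- two different polynomials agree in few points -/
theorem few_roots (P : ℕ) (hP : P.Prime) (s t l l0 : ℕ) (hl : l0 < l)
    (h0 : s.testBit l0 ≠ t.testBit l0) :
    ((range P).filter (fun x => ev P s l x = ev P t l x)).card ≤ l := by
  have : Fact P.Prime := ⟨hP⟩
  classical
  set bs : ℕ → ZMod P := fun i => if s.testBit i then 1 else 0 with hbs
  set bt : ℕ → ZMod P := fun i => if t.testBit i then 1 else 0 with hbt
  set F : (ZMod P)[X] := ∑ i ∈ range l, C (bs i - bt i) * X ^ i with hF
  have hev : ∀ x : ℕ, F.eval (x : ZMod P) = ev P s l x - ev P t l x := by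
    intro x
    rw [hF, eval_finsetSum]
    unfold ev
    rw [← Finset.sum_sub_distrib]
    refine Finset.sum_congr rfl fun i _ => ?_
    simp only [eval_mul, eval_C, eval_pow, eval_X, hbs, hbt]
    split_ifs <;> ring
  have hcoef : F.coeff l0 = bs l0 - bt l0 := by
    rw [hF, finsetSum_coeff, Finset.sum_eq_single l0]
    · rw [coeff_C_mul, coeff_X_pow, if_pos rfl, mul_one]
    · intro i _ hne
      rw [coeff_C_mul, coeff_X_pow, if_neg (Ne.symm hne), mul_zero]
    · intro h
      exact absurd (Finset.mem_range.2 hl) h
  have hF0 : F ≠ 0 := by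
    intro h
    rw [h, coeff_zero] at hcoef
    simp only [hbs, hbt] at hcoef
    cases h1 : s.testBit l0 <;> cases h2 : t.testBit l0
    · exact h0 (by rw [h1, h2])
    · rw [h1, h2] at hcoef
      simp at hcoef
    · rw [h1, h2] at hcoef
      simp at hcoef
    · exact h0 (by rw [h1, h2])
  have hdeg : F.natDegree ≤ l := by
    rw [hF]
    refine natDegree_sum_le_of_forall_le _ _ fun i hi => ?_
    refine (natDegree_C_mul_X_pow_le _ _).trans ?_
    exact (Finset.mem_range.1 hi).le
  calc ((range P).filter (fun x => ev P s l x = ev P t l x)).card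
      = (((range P).filter (fun x => ev P s l x = ev P t l x)).image
          (fun x : ℕ => (x : ZMod P))).card := by
        rw [Finset.card_image_of_injOn]
        intro x hx y hy h
        rw [Finset.mem_coe, Finset.mem_filter, Finset.mem_range] at hx hy
        have h1 := congrArg ZMod.val h
        simp only [ZMod.val_natCast] at h1
        rwa [Nat.mod_eq_of_lt hx.1, Nat.mod_eq_of_lt hy.1] at h1
    _ ≤ F.roots.toFinset.card := by
        apply Finset.card_le_card
        intro v hv
        rw [Finset.mem_image] at hv
        obtain ⟨x, hx, rfl⟩ := hv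
        rw [Finset.mem_filter] at hx
        rw [Multiset.mem_toFinset, mem_roots hF0, IsRoot.def, hev, hx.2, sub_self]
    _ ≤ F.roots.card := Multiset.toFinset_card_le _
    _ ≤ F.natDegree := card_roots' F
    _ ≤ l := hdeg

end CodeAux

open CodeAux in
theorem code : S_CODE := by
  intro J hJ
  obtain ⟨P, hP, hP1, hP2⟩ := Nat.exists_prime_lt_and_le_two_mul (3 * J ^ 2) (by positivity)
  have hP0 : 0 < P := hP.pos
  refine ⟨J * P * P * 3, cd P, ?_, ?_, ?_⟩
  · have : 0 < J * P * P * 3 := by positivity
    omega
  · calc J * P * P * 3 ≤ J * (2 * (3 * J ^ 2)) * (2 * (3 * J ^ 2)) * 3 := by gcongr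
      _ = 108 * J ^ 5 := by ring
      _ ≤ 200 * J ^ 5 := by gcongr; norm_num
  intro s t hs ht hst
  have hex : ∃ i, s.testBit i ≠ t.testBit i := by
    by_contra h
    push Not at h
    exact hst (Nat.eq_of_testBit_eq h)
  classical
  set l0 := Nat.find hex with hl0
  have h0 : s.testBit l0 ≠ t.testBit l0 := Nat.find_spec hex
  have hlt : ∀ i < l0, s.testBit i = t.testBit i := by
    intro i hi
    have := Nat.find_min hex hi
    push Not at this
    exact this
  have hl0J : l0 < J := by
    by_contra h
    push Not at h
    have hpow : 2 ^ J ≤ 2 ^ l0 := Nat.pow_le_pow_right (by norm_num) h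
    apply h0
    rw [Nat.testBit_lt_two_pow (hs.trans_le hpow), Nat.testBit_lt_two_pow (ht.trans_le hpow)]
  set σ : ℤ := if t.testBit l0 then 1 else -1 with hσ
  have hσ2 : σ = 1 ∨ σ = -1 := by
    rw [hσ]; split_ifs <;> simp
  refine ⟨σ, hσ2, ?_⟩
  set g : ℕ → ℤ := fun i => cyc (cd P s i) (cd P t i) with hg
  set good : ℕ → ℕ → ℕ → ℤ := fun l x y =>
    if l = l0 then (if (y : ZMod P) = ev P s l x then 3 else 0) else 0 with hgood
  set bad : ℕ → ℕ → ℕ → ℤ := fun l x y =>
    if l0 < l then (if ev P s l x = ev P t l x then (if (y : ZMod P) = ev P s l x then 3 else 0)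
      else 0) else 0 with hbad
  have hgood0 : ∀ l x y, 0 ≤ good l x y := by
    intro l x y; simp only [hgood]; split_ifs <;> norm_num
  have hbad0 : ∀ l x y, 0 ≤ bad l x y := by
    intro l x y; simp only [hbad]; split_ifs <;> norm_num
  have heveq : ∀ l ≤ l0, ∀ x, ev P s l x = ev P t l x := by
    intro l hl x
    unfold ev
    refine Finset.sum_congr rfl fun i hi => ?_
    rw [hlt i (lt_of_lt_of_le (Finset.mem_range.1 hi) hl)]
  -- one cell
  have hcell : ∀ K, good (K / P / P) (K / P % P) (K % P) - bad (K / P / P) (K / P % P) (K % P) ≤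
      σ * ∑ r ∈ range 3, g (K * 3 + r) := by
    intro K
    have e1 : ∑ r ∈ range 3, g (K * 3 + r) = ∑ r ∈ range 3,
        cyc (w (act P s (K / P / P) (K / P % P) (K % P)) (s.testBit (K / P / P)) r)
          (w (act P t (K / P / P) (K / P % P) (K % P)) (t.testBit (K / P / P)) r) := by
      refine Finset.sum_congr rfl fun r hr => ?_
      rw [Finset.mem_range] at hr
      simp only [hg]
      rw [cd_cell P s K r hr, cd_cell P t K r hr]
    rw [e1, cell]
    set l := K / P / P
    set x := K / P % P
    set y := K % P
    rcases lt_trichotomy l l0 with h | h | h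
    · have hb : s.testBit l = t.testBit l := hlt l h
      simp only [hgood, hbad, if_neg h.ne, if_neg h.not_gt, if_pos hb]
      simp
    · have e2 : ev P s l x = ev P t l x := heveq l h.le x
      have hb : s.testBit l ≠ t.testBit l := by rw [h]; exact h0
      have hσl : σ = if t.testBit l then 1 else -1 := by rw [h]
      have hnl : ¬ l0 < l := by omega
      simp only [hgood, hbad, if_pos h, if_neg hnl, if_neg hb]
      by_cases hy : (y : ZMod P) = ev P s l x
      · have hs' : act P s l x y = true := decide_eq_true hy
        have ht' : act P t l x y = true := decide_eq_true (hy.trans e2)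
        rw [if_pos hy, hs', ht', hσl]
        cases t.testBit l <;> simp
      · have hs' : act P s l x y = false := decide_eq_false hy
        rw [if_neg hy, hs']
        simp
    · have hnl : ¬ l = l0 := by omega
      simp only [hgood, hbad, if_neg hnl, if_pos h]
      by_cases he : ev P s l x = ev P t l x
      · rw [if_pos he]
        by_cases hy : (y : ZMod P) = ev P s l x
        · have hs' : act P s l x y = true := decide_eq_true hy
          have ht' : act P t l x y = true := decide_eq_true (hy.trans he)
          rw [if_pos hy, hs', ht']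
          rcases hσ2 with h5 | h5 <;> rw [h5] <;>
            cases s.testBit l <;> cases t.testBit l <;> simp
        · have hs' : act P s l x y = false := decide_eq_false hy
          rw [if_neg hy, hs']
          simp
      · rw [if_neg he]
        by_cases hy : (y : ZMod P) = ev P s l x
        · have ht' : act P t l x y = false :=
            decide_eq_false (fun h2 => he (hy.symm.trans h2))
          rw [ht']
          simp
        · have hs' : act P s l x y = false := decide_eq_false hy
          rw [hs']
          simp
  -- the sums of good and bad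
  have hgoodsum : ∑ K ∈ range (J * P * P), good (K / P / P) (K / P % P) (K % P) = 3 * P := by
    rw [triple J P good hP0]
    rw [Finset.sum_eq_single l0]
    · simp only [hgood, if_true]
      rw [Finset.sum_congr rfl fun x _ => one_y P hP0 _]
      simp [mul_comm]
    · intro l _ hne
      simp only [hgood, if_neg hne, Finset.sum_const_zero]
    · intro h
      exact absurd (Finset.mem_range.2 hl0J) h
  have hbadsum : ∑ K ∈ range (J * P * P), bad (K / P / P) (K / P % P) (K % P) ≤ 3 * J ^ 2 := by
    rw [triple J P bad hP0]
    have h1 : ∀ l ∈ range J, ∑ x ∈ range P, ∑ y ∈ range P, bad l x y ≤ 3 * J := by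
      intro l hl
      rw [Finset.mem_range] at hl
      by_cases h : l0 < l
      · have h2 : ∀ x ∈ range P, ∑ y ∈ range P, bad l x y =
            if ev P s l x = ev P t l x then 3 else 0 := by
          intro x _
          simp only [hbad, if_pos h]
          split_ifs with he
          · exact one_y P hP0 _
          · simp
        rw [Finset.sum_congr rfl h2, ← Finset.sum_filter, Finset.sum_const, nsmul_eq_mul]
        have h3 := few_roots P hP s t l l0 h h0
        have h4 : (((range P).filter (fun x => ev P s l x = ev P t l x)).card : ℤ) ≤ J := by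
          exact_mod_cast h3.trans hl.le
        linarith
      · have h2 : ∀ x ∈ range P, ∑ y ∈ range P, bad l x y = 0 := by
          intro x _
          simp only [hbad, if_neg h, Finset.sum_const_zero]
        rw [Finset.sum_congr rfl h2]
        simp
    refine (Finset.sum_le_sum h1).trans ?_
    rw [Finset.sum_const, Finset.card_range, nsmul_eq_mul]
    apply le_of_eq
    ring
  have hPJ : (3 * (J : ℤ) ^ 2) + 1 ≤ P := by exact_mod_cast hP1
  have hJ1 : (1 : ℤ) ≤ (J : ℤ) ^ 2 := by
    have : 1 ≤ J ^ 2 := Nat.one_le_pow _ _ (by omega)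
    exact_mod_cast this
  -- the full sum
  have hfull : (3 * P : ℤ) - 3 * J ^ 2 ≤ σ * ∑ i ∈ range (J * P * P * 3), g i := by
    rw [split (J * P * P) 3, Finset.mul_sum]
    have h1 := Finset.sum_le_sum (s := range (J * P * P)) fun K _ => hcell K
    rw [Finset.sum_sub_distrib, hgoodsum] at h1
    linarith
  intro q
  have hpart : -(3 * (J : ℤ) ^ 2) - 3 ≤
      σ * ∑ i ∈ (range (J * P * P * 3)).filter (fun i => q ≤ i), g i := by
    rw [Finset.sum_filter, split (J * P * P) 3, Finset.mul_sum]
    have h1 : ∀ K ∈ range (J * P * P), -bad (K / P / P) (K / P % P) (K % P) -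
        (if K = q / 3 then 3 else 0) ≤
        σ * ∑ r ∈ range 3, (if q ≤ K * 3 + r then g (K * 3 + r) else 0) := by
      intro K _
      have hb := hbad0 (K / P / P) (K / P % P) (K % P)
      have hgd := hgood0 (K / P / P) (K / P % P) (K % P)
      by_cases h2 : q ≤ K * 3
      · have e1 : ∑ r ∈ range 3, (if q ≤ K * 3 + r then g (K * 3 + r) else 0) =
            ∑ r ∈ range 3, g (K * 3 + r) :=
          Finset.sum_congr rfl fun r _ => if_pos (by omega)
        rw [e1]
        have := hcell K
        split_ifs <;> linarith
      · by_cases h3 : K * 3 + 2 < q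
        · have e1 : ∑ r ∈ range 3, (if q ≤ K * 3 + r then g (K * 3 + r) else 0) = 0 := by
            refine Finset.sum_eq_zero fun r hr => if_neg ?_
            rw [Finset.mem_range] at hr
            omega
          rw [e1]
          split_ifs <;> linarith
        · have hK : K = q / 3 := by omega
          rw [if_pos hK]
          have h4 : ∀ r, -1 ≤ (if q ≤ K * 3 + r then g (K * 3 + r) else 0) ∧
              (if q ≤ K * 3 + r then g (K * 3 + r) else 0) ≤ 1 := by
            intro r
            split_ifs
            · exact cyc_abs _ _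
            · norm_num
          have a0 := h4 0
          have a1 := h4 1
          have a2 := h4 2
          have e1 : ∑ r ∈ range 3, (if q ≤ K * 3 + r then g (K * 3 + r) else 0) =
            (if q ≤ K * 3 + 0 then g (K * 3 + 0) else 0) +
            (if q ≤ K * 3 + 1 then g (K * 3 + 1) else 0) +
            (if q ≤ K * 3 + 2 then g (K * 3 + 2) else 0) := by
            simp [Finset.sum_range_succ]
          rw [e1]
          rcases hσ2 with h5 | h5 <;> rw [h5] <;> linarith [a0.1, a0.2, a1.1, a1.2, a2.1, a2.2]
    have h2 := Finset.sum_le_sum h1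
    rw [Finset.sum_sub_distrib, Finset.sum_neg_distrib] at h2
    have h3 : ∑ K ∈ range (J * P * P), (if K = q / 3 then (3 : ℤ) else 0) ≤ 3 := by
      rw [Finset.sum_ite_eq']
      split_ifs <;> norm_num
    linarith
  constructor
  · rw [mul_add]
    nlinarith
  · linarith

end Pool.Agent.H34.RK
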