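import Pool.Agent.H34.RK.Stm3

set_option autoImplicit false

open Finset MeasureTheory

namespace Pool.Agent.H34.RK

namespace Conc

variable {L : ℕ}

lemma phi_zero (θ : Fin L ⊕ Fin L → ℝ) : phi θ 0 = 0 := by simp [phi]

lemma psi_zero (θ : Fin L ⊕ Fin L → ℝ) : psi θ 0 = 1 := by simp [psi]

lemma phi_mem {θ : Fin L ⊕ Fin L → ℝ} (h : ∀ i, 0 < θ i ∧ θ i < 1) (l : ℕ) :
    0 ≤ phi θ l ∧ phi θ l ≤ 1 := by
  unfold phi
  split_ifs with hl
  · exact ⟨(h _).1.le, (h _).2.le⟩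
  · simp

lemma psi_mem {θ : Fin L ⊕ Fin L → ℝ} (h : ∀ i, 0 < θ i ∧ θ i < 1) (l : ℕ) :
    0 ≤ psi θ l ∧ psi θ l ≤ 1 := by
  unfold psi
  split_ifs with hl
  · exact ⟨(h _).1.le, (h _).2.le⟩
  · simp

lemma cont_phi (l : ℕ) : Continuous fun θ : Fin L ⊕ Fin L → ℝ => phi θ l := by
  unfold phi
  split_ifs with hl
  · exact continuous_apply _
  · exact continuous_const

lemma cont_psi (l : ℕ) : Continuous fun θ : Fin L ⊕ Fin L → ℝ => psi θ l := by
  unfold psi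
  split_ifs with hl
  · exact continuous_apply _
  · exact continuous_const

lemma cont_KT (A B : Finset ℕ) : Continuous fun p : ((Fin L ⊕ Fin L → ℝ) × ℝ) × ℝ =>
    KT (phi p.1.1) (psi p.1.1) A B p.1.2 p.2 := by
  unfold KT
  have hx : Continuous fun p : ((Fin L ⊕ Fin L → ℝ) × ℝ) × ℝ => p.1.2 :=
    continuous_snd.comp continuous_fst
  have hy : Continuous fun p : ((Fin L ⊕ Fin L → ℝ) × ℝ) × ℝ => p.2 := continuous_snd
  have hf : ∀ l, Continuous fun p : ((Fin L ⊕ Fin L → ℝ) × ℝ) × ℝ => phi p.1.1 l := fun l =>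
    (cont_phi l).comp (continuous_fst.comp continuous_fst)
  have hp : ∀ l, Continuous fun p : ((Fin L ⊕ Fin L → ℝ) × ℝ) × ℝ => psi p.1.1 l := fun l =>
    (cont_psi l).comp (continuous_fst.comp continuous_fst)
  refine Continuous.mul ?_ ?_
  · refine continuous_finsetProd _ fun l _ => ?_
    exact (hy.sub (hx.max (hf l))).max continuous_const
  · refine continuous_finsetProd _ fun l _ => ?_
    exact ((hy.min (hp l)).sub hx).max continuous_const

lemma cont_ZT (A B : Finset ℕ) :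
    Continuous fun θ : Fin L ⊕ Fin L → ℝ => ZT (phi θ) (psi θ) A B := by
  unfold ZT
  have h1 : Continuous fun p : (Fin L ⊕ Fin L → ℝ) × ℝ =>
      ∫ y in p.2..1, KT (phi p.1) (psi p.1) A B p.2 y := by
    have h2 : Continuous fun p : (Fin L ⊕ Fin L → ℝ) × ℝ =>
        ∫ y in (1 : ℝ)..p.2, KT (phi p.1) (psi p.1) A B p.2 y :=
      intervalIntegral.continuous_parametric_intervalIntegral_of_continuous
        (f := fun (p : (Fin L ⊕ Fin L → ℝ) × ℝ) (y : ℝ) => KT (phi p.1) (psi p.1) A B p.2 y)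
        (cont_KT A B) continuous_snd
    refine (h2.neg).congr fun p => ?_
    rw [intervalIntegral.integral_symm]
    rfl
  exact intervalIntegral.continuous_parametric_intervalIntegral_of_continuous'
    (f := fun (θ : Fin L ⊕ Fin L → ℝ) (x : ℝ) => ∫ y in x..1, KT (phi θ) (psi θ) A B x y) h1 0 1

lemma cont_wt (us vs : ℕ → ℕ) : Continuous fun θ : Fin L ⊕ Fin L → ℝ => wt us vs θ := by
  unfold wt
  refine Continuous.mul ?_ ?_
  · refine continuous_finsetProd _ fun l _ => ?_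
    exact (((cont_phi (l + 1)).sub (cont_phi l)).pow _).div_const _
  · refine continuous_finsetProd _ fun l _ => ?_
    exact (((cont_psi l).sub (cont_psi (l + 1))).pow _).div_const _

lemma cont_W (us vs : ℕ → ℕ) (N : ℕ) (A B : ℕ → Finset ℕ) :
    Continuous fun θ : Fin L ⊕ Fin L → ℝ =>
      wt us vs θ * ∏ k : Fin N, ZT (phi θ) (psi θ) (A k) (B k) :=
  (cont_wt us vs).mul (continuous_finsetProd _ fun k _ => cont_ZT (A k) (B k))

/-- the product formula relative to the centre -/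
lemma ratio (us vs : ℕ → ℕ) (N : ℕ) (A B : ℕ → Finset ℕ) (g : ℝ) (hg : 0 < g)
    (hZ : ∀ k : Fin N, 0 < ZZ g (A k) (B k)) (θ : Fin L ⊕ Fin L → ℝ) :
    wt us vs θ * ∏ k : Fin N, ZT (phi θ) (psi θ) (A k) (B k) =
      ((∏ l ∈ range L, g ^ us l / (us l).factorial) * (∏ l ∈ range L, g ^ vs l / (vs l).factorial) *
        ∏ k : Fin N, ZZ g (A k) (B k)) *
      ((∏ l ∈ range L, ((phi θ (l + 1) - phi θ l) / g) ^ us l) *
        (∏ l ∈ range L, ((psi θ l - psi θ (l + 1)) / g) ^ vs l) *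
        ∏ k : Fin N, (ZT (phi θ) (psi θ) (A k) (B k) / ZZ g (A k) (B k))) := by
  have h1 : (∏ l ∈ range L, (phi θ (l + 1) - phi θ l) ^ us l / ((us l).factorial : ℝ)) =
      (∏ l ∈ range L, g ^ us l / ((us l).factorial : ℝ)) *
        ∏ l ∈ range L, ((phi θ (l + 1) - phi θ l) / g) ^ us l := by
    rw [← Finset.prod_mul_distrib]
    refine Finset.prod_congr rfl fun l _ => ?_
    rw [div_pow]
    field_simp
  have h2 : (∏ l ∈ range L, (psi θ l - psi θ (l + 1)) ^ vs l / ((vs l).factorial : ℝ)) =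
      (∏ l ∈ range L, g ^ vs l / ((vs l).factorial : ℝ)) *
        ∏ l ∈ range L, ((psi θ l - psi θ (l + 1)) / g) ^ vs l := by
    rw [← Finset.prod_mul_distrib]
    refine Finset.prod_congr rfl fun l _ => ?_
    rw [div_pow]
    field_simp
  have h3 : (∏ k : Fin N, ZT (phi θ) (psi θ) (A k) (B k)) =
      (∏ k : Fin N, ZZ g (A k) (B k)) *
        ∏ k : Fin N, (ZT (phi θ) (psi θ) (A k) (B k) / ZZ g (A k) (B k)) := by
    rw [← Finset.prod_mul_distrib]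
    refine Finset.prod_congr rfl fun k _ => ?_
    have := hZ k
    field_simp
  unfold wt
  rw [h1, h2, h3]
  ring

/-- the box around the centre -/
noncomputable def cen (L : ℕ) (g : ℝ) : Fin L ⊕ Fin L → ℝ
  | .inl i => g * ((i : ℕ) + 1)
  | .inr i => 1 - g * ((i : ℕ) + 1)

lemma box_phi {g ρ : ℝ} (hρ : 0 ≤ ρ) {θ : Fin L ⊕ Fin L → ℝ}
    (h : θ ∈ Set.Icc (fun i => cen L g i - ρ) (fun i => cen L g i + ρ)) (l : ℕ) (hl : l ≤ L) :
    |phi θ l - g * l| ≤ ρ ∧ |psi θ l - (1 - g * l)| ≤ ρ := by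
  rcases Nat.eq_zero_or_pos l with h0 | h0
  · subst h0
    rw [phi_zero, psi_zero]
    simp [hρ]
  · have e : ((l - 1 : ℕ) : ℝ) + 1 = l := by
      rw [Nat.cast_sub h0]
      push_cast
      ring
    have h1 := h.1 (.inl ⟨l - 1, by omega⟩)
    have h2 := h.2 (.inl ⟨l - 1, by omega⟩)
    have h3 := h.1 (.inr ⟨l - 1, by omega⟩)
    have h4 := h.2 (.inr ⟨l - 1, by omega⟩)
    simp only [cen, e] at h1 h2 h3 h4
    unfold phi psi
    rw [dif_pos ⟨h0, hl⟩, dif_pos ⟨h0, hl⟩]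
    refine ⟨abs_le.2 ⟨by linarith, by linarith⟩, abs_le.2 ⟨by linarith, by linarith⟩⟩


lemma box_sub {g ρ : ℝ} (hg : 0 < g) (hρ : 0 ≤ ρ) (h2 : 2 * ρ < g)
    (h3 : 2 * (g * L) + 2 * ρ < 1) :
    Set.Icc (fun i => cen L g i - ρ) (fun i => cen L g i + ρ) ⊆ OmS L := by
  intro θ h
  have hb := box_phi hρ h
  refine ⟨?_, ?_, ?_, ?_⟩
  · intro i
    have h4 := h.1 i
    have h5 := h.2 i
    cases i with
    | inl i =>
      simp only [cen] at h4 h5
      have h6 : ((i : ℕ) : ℝ) + 1 ≤ L := by exact_mod_cast i.2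
      have h7 : (0 : ℝ) ≤ (i : ℕ) := Nat.cast_nonneg _
      have h8 : g * (((i : ℕ) : ℝ) + 1) ≤ g * L := mul_le_mul_of_nonneg_left h6 hg.le
      have h9 : g ≤ g * (((i : ℕ) : ℝ) + 1) := by nlinarith
      constructor <;> linarith
    | inr i =>
      simp only [cen] at h4 h5
      have h6 : ((i : ℕ) : ℝ) + 1 ≤ L := by exact_mod_cast i.2
      have h7 : (0 : ℝ) ≤ (i : ℕ) := Nat.cast_nonneg _
      have h8 : g * (((i : ℕ) : ℝ) + 1) ≤ g * L := mul_le_mul_of_nonneg_left h6 hg.le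
      have h9 : g ≤ g * (((i : ℕ) : ℝ) + 1) := by nlinarith
      constructor <;> linarith
  · intro l hl
    have h4 := abs_le.1 (hb l hl.le).1
    have h5 := abs_le.1 (hb (l + 1) hl).1
    push_cast at h5
    linarith [h4.2, h5.1]
  · intro l hl
    have h4 := abs_le.1 (hb l hl.le).2
    have h5 := abs_le.1 (hb (l + 1) hl).2
    push_cast at h5
    linarith [h4.1, h5.2]
  · have h4 := abs_le.1 (hb L le_rfl).1
    have h5 := abs_le.1 (hb L le_rfl).2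
    linarith [h4.2, h5.1]

lemma vol_box (L : ℕ) (g ρ : ℝ) (hρ : 0 ≤ ρ) :
    (volume (Set.Icc (fun i => cen L g i - ρ) (fun i => cen L g i + ρ))).toReal =
      (2 * ρ) ^ (2 * L) := by
  rw [Real.volume_Icc_pi_toReal (fun i => by simp only; linarith)]
  have : ∀ i : Fin L ⊕ Fin L, cen L g i + ρ - (cen L g i - ρ) = 2 * ρ := fun i => by ring
  rw [Finset.prod_congr rfl fun i _ => this i, Finset.prod_const, Finset.card_univ,
    Fintype.card_sum, Fintype.card_fin]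
  congr 1
  ring

lemma OmS_sub (L : ℕ) : OmS L ⊆ Set.Icc (fun _ => 0) (fun _ => 1) := fun _ h =>
  ⟨fun i => (h.1 i).1.le, fun i => (h.1 i).2.le⟩

lemma vol_OmS (L : ℕ) : volume (OmS L) ≤ 1 := by
  refine (measure_mono (OmS_sub L)).trans ?_
  rw [Real.volume_Icc_pi]
  simp

lemma meas_OmS (L : ℕ) : MeasurableSet (OmS L) := by
  have h1 : MeasurableSet {θ : Fin L ⊕ Fin L → ℝ | ∀ i, 0 < θ i ∧ θ i < 1} := by
    have : {θ : Fin L ⊕ Fin L → ℝ | ∀ i, 0 < θ i ∧ θ i < 1} =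
        ⋂ i, ({θ : Fin L ⊕ Fin L → ℝ | 0 < θ i} ∩ {θ | θ i < 1}) := by
      ext θ
      simp
    rw [this]
    exact MeasurableSet.iInter fun i =>
      (measurableSet_lt measurable_const (measurable_pi_apply i)).inter
        (measurableSet_lt (measurable_pi_apply i) measurable_const)
  have h2 : MeasurableSet {θ : Fin L ⊕ Fin L → ℝ | ∀ l < L, phi θ l < phi θ (l + 1)} := by
    have : {θ : Fin L ⊕ Fin L → ℝ | ∀ l < L, phi θ l < phi θ (l + 1)} =
        ⋂ l : ℕ, ⋂ (_ : l < L), {θ : Fin L ⊕ Fin L → ℝ | phi θ l < phi θ (l + 1)} := by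
      ext θ
      simp
    rw [this]
    exact MeasurableSet.iInter fun l => MeasurableSet.iInter fun _ =>
      measurableSet_lt (cont_phi l).measurable (cont_phi (l + 1)).measurable
  have h3 : MeasurableSet {θ : Fin L ⊕ Fin L → ℝ | ∀ l < L, psi θ (l + 1) < psi θ l} := by
    have : {θ : Fin L ⊕ Fin L → ℝ | ∀ l < L, psi θ (l + 1) < psi θ l} =
        ⋂ l : ℕ, ⋂ (_ : l < L), {θ : Fin L ⊕ Fin L → ℝ | psi θ (l + 1) < psi θ l} := by
      ext θ
      simp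
    rw [this]
    exact MeasurableSet.iInter fun l => MeasurableSet.iInter fun _ =>
      measurableSet_lt (cont_psi (l + 1)).measurable (cont_psi l).measurable
  exact h1.inter (h2.inter (h3.inter
    (measurableSet_lt (cont_phi L).measurable (cont_psi L).measurable)))

lemma int_W (us vs : ℕ → ℕ) (N : ℕ) (A B : ℕ → Finset ℕ) :
    IntegrableOn (fun θ : Fin L ⊕ Fin L → ℝ =>
      wt us vs θ * ∏ k : Fin N, ZT (phi θ) (psi θ) (A k) (B k)) (OmS L) :=
  ((cont_W us vs N A B).continuousOn.integrableOn_compact isCompact_Icc).mono_set (OmS_sub L)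

lemma up_int (F : (Fin L ⊕ Fin L → ℝ) → ℝ) (S : Set (Fin L ⊕ Fin L → ℝ)) (hS : S ⊆ OmS L)
    (C : ℝ) (hC : 0 ≤ C) (h0 : ∀ θ ∈ S, 0 ≤ F θ) (h1 : ∀ θ ∈ S, F θ ≤ C) :
    ∫ θ in S, F θ ≤ C := by
  have hv : volume S ≤ 1 := (measure_mono hS).trans (vol_OmS L)
  have h2 := norm_setIntegral_le_of_norm_le_const (μ := volume) (f := F) (s := S) (C := C)
    (hv.trans_lt ENNReal.one_lt_top) (fun θ hθ => by
      rw [Real.norm_eq_abs, abs_of_nonneg (h0 θ hθ)]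
      exact h1 θ hθ)
  have h3 : (volume S).toReal ≤ 1 := by
    have := ENNReal.toReal_mono ENNReal.one_ne_top hv
    simpa using this
  calc ∫ θ in S, F θ ≤ ‖∫ θ in S, F θ‖ := Real.le_norm_self _
    _ ≤ C * (volume S).toReal := h2
    _ ≤ C * 1 := mul_le_mul_of_nonneg_left h3 hC
    _ = C := mul_one C

/-- the total slopes -/
noncomputable def Dd (g : ℝ) (N : ℕ) (A B : ℕ → Finset ℕ) (l : ℕ) : ℝ :=
  ∑ k : Fin N, if l ∈ A k then dA g (A k) (B k) l else 0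

lemma sum_swap (g : ℝ) (N : ℕ) (A B : ℕ → Finset ℕ) (f : ℕ → ℝ)
    (hA : ∀ k : Fin N, Sub1 L (A k)) :
    ∑ k : Fin N, ∑ l ∈ A k, dA g (A k) (B k) l * f l = ∑ l ∈ Icc 1 L, Dd g N A B l * f l := by
  unfold Dd
  simp only [Finset.sum_mul]
  rw [Finset.sum_comm]
  refine Finset.sum_congr rfl fun k _ => ?_
  have h1 : Icc 1 L ∩ A k = A k := by
    ext l
    simp only [Finset.mem_inter, Finset.mem_Icc]
    exact ⟨fun h => h.2, fun h => ⟨hA k l h, h⟩⟩
  have h2 : ∀ l ∈ Icc 1 L, (if l ∈ A k then dA g (A k) (B k) l else 0) * f l =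
      if l ∈ A k then dA g (A k) (B k) l * f l else 0 := fun l _ => by split_ifs <;> simp
  rw [Finset.sum_congr rfl h2, Finset.sum_ite_mem, h1]

/-- product of powers as an exponential -/
lemma prod_exp (L : ℕ) (u : ℕ → ℕ) (r : ℕ → ℝ) (hr : ∀ l < L, 0 < r l) :
    ∏ l ∈ range L, r l ^ u l = Real.exp (∑ l ∈ range L, (u l : ℝ) * Real.log (r l)) := by
  rw [Real.exp_sum]
  refine Finset.prod_congr rfl fun l hl => ?_
  rw [Real.exp_nat_mul, Real.exp_log (hr l (Finset.mem_range.1 hl))]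

lemma prod_pow_ge (L N : ℕ) (u : ℕ → ℕ) (r : ℕ → ℝ) (ε : ℝ) (hε : 0 ≤ ε) (hε1 : ε ≤ 1)
    (hr : ∀ l < L, 1 - ε ≤ r l) (hu : ∀ l < L, u l ≤ N) (hs : (L : ℝ) * N * ε ≤ 1 / 2) :
    1 / 2 ≤ ∏ l ∈ range L, r l ^ u l := by
  have h1 : ∏ l ∈ range L, (1 - ε) ^ N ≤ ∏ l ∈ range L, r l ^ u l := by
    refine Finset.prod_le_prod (fun l _ => pow_nonneg (by linarith) _) fun l hl => ?_
    have hl' := Finset.mem_range.1 hl
    calc (1 - ε) ^ N ≤ (1 - ε) ^ u l := pow_le_pow_of_le_one (by linarith) (by linarith) (hu l hl')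
      _ ≤ r l ^ u l := pow_le_pow_left₀ (by linarith) (hr l hl') _
  refine le_trans ?_ h1
  rw [Finset.prod_const, Finset.card_range, ← pow_mul]
  have h2 := one_add_mul_le_pow (a := -ε) (by linarith) (N * L)
  have h3 : (1 + -ε) = 1 - ε := by ring
  rw [h3] at h2
  refine le_trans ?_ h2
  push_cast
  nlinarith


lemma prod_ge (N : ℕ) (r : Fin N → ℝ) (ε : ℝ) (hε1 : ε ≤ 1)
    (hr : ∀ k, 1 - ε ≤ r k) (hs : (N : ℝ) * ε ≤ 1 / 2) : 1 / 2 ≤ ∏ k, r k := by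
  have h1 : ∏ _k : Fin N, (1 - ε) ≤ ∏ k, r k :=
    Finset.prod_le_prod (fun k _ => by linarith) fun k _ => hr k
  refine le_trans ?_ h1
  rw [Finset.prod_const, Finset.card_univ, Fintype.card_fin]
  have h2 := one_add_mul_le_pow (a := -ε) (by linarith) N
  have h3 : (1 + -ε) = 1 - ε := by ring
  rw [h3] at h2
  refine le_trans ?_ h2
  linarith

lemma zlow (hzb : S_ZB) {g : ℝ} {m : ℕ} {A B : Finset ℕ} (hg : 0 < g) (hL : 100 ≤ L)
    (hgL : g * L ^ 8 ≤ 1) (hm : 20 ≤ m) (hA : Sub1 L A) (hB : Sub1 L B) (hA1 : A.card = m)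
    (hB1 : B.card = m) : 1 / (L : ℝ) ^ 3 ≤ ZZ g A B := by
  have h1 := (hzb g L A B hg hL hgL hA hB (by omega)).2
  refine le_trans ?_ h1
  have hmL : m ≤ L := by
    rw [← hA1]
    calc A.card ≤ (Icc 1 L).card := Finset.card_le_card fun l hl => Finset.mem_Icc.2 (hA l hl)
      _ = L := by simp
  have hmL' : (m : ℝ) ≤ L := by exact_mod_cast hmL
  have hL' : (100 : ℝ) ≤ L := by exact_mod_cast hL
  rw [hA1, hB1]
  push_cast
  rw [div_le_div_iff₀ (by positivity) (by positivity)]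
  have hm0 : (0 : ℝ) ≤ m := Nat.cast_nonneg _
  have h2 : ((m : ℝ) + m + 1) * (m + m + 2) ≤ (2 * L + 1) * (2 * L + 2) := by
    apply mul_le_mul <;> nlinarith
  have h3 : (2 * (L : ℝ) + 1) * (2 * L + 2) ≤ 99 / 100 * (L : ℝ) ^ 3 := by
    have h4 : (100 : ℝ) * (L : ℝ) ^ 2 ≤ (L : ℝ) ^ 3 := by nlinarith [sq_nonneg (L : ℝ)]
    nlinarith
  linarith

lemma Dd_nonneg (hdbd : S_DBD) {g : ℝ} {m N : ℕ} {A B : ℕ → Finset ℕ} (hg : 0 < g) (hL : 100 ≤ L)
    (hgL : g * L ^ 8 ≤ 1) (hm : 20 ≤ m) (hAB : ∀ t < N, (A t).card = m ∧ (B t).card = m ∧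
      Sub1 L (A t) ∧ Sub1 L (B t)) (l : ℕ) : 0 ≤ Dd g N A B l := by
  unfold Dd
  refine Finset.sum_nonneg fun k _ => ?_
  split_ifs with h
  · obtain ⟨h1, h2, h3, h4⟩ := hAB k k.2
    exact le_trans (by positivity) (hdbd g L (A k) (B k) l hg hL hgL h3 h4 (by omega) h).1
  · exact le_rfl

lemma Dd_le (hdbd : S_DBD) {g : ℝ} {m N : ℕ} {A B : ℕ → Finset ℕ} (hg : 0 < g) (hL : 100 ≤ L)
    (hgL : g * L ^ 8 ≤ 1) (hm : 20 ≤ m) (hAB : ∀ t < N, (A t).card = m ∧ (B t).card = m ∧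
      Sub1 L (A t) ∧ Sub1 L (B t)) (l : ℕ) : Dd g N A B l ≤ N * (g * L ^ 4) := by
  unfold Dd
  calc (∑ k : Fin N, if l ∈ A k then dA g (A k) (B k) l else 0) ≤ ∑ _k : Fin N, g * (L : ℝ) ^ 4 := by
        refine Finset.sum_le_sum fun k _ => ?_
        split_ifs with h
        · obtain ⟨h1, h2, h3, h4⟩ := hAB k k.2
          exact (hdbd g L (A k) (B k) l hg hL hgL h3 h4 (by omega) h).2
        · positivity
    _ = N * (g * L ^ 4) := by
        rw [Finset.sum_const, Finset.card_univ, Fintype.card_fin, nsmul_eq_mul]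

lemma Dd_top (hdbd : S_DBD) {g : ℝ} {m N : ℕ} {A B : ℕ → Finset ℕ} (hg : 0 < g) (hL : 100 ≤ L)
    (hgL : g * L ^ 8 ≤ 1) (hm : 20 ≤ m) (hAB : ∀ t < N, (A t).card = m ∧ (B t).card = m ∧
      Sub1 L (A t) ∧ Sub1 L (B t)) (hLA : ∀ t < N, L ∈ A t) :
    N * (g / (L : ℝ) ^ 2) ≤ Dd g N A B L := by
  unfold Dd
  calc N * (g / (L : ℝ) ^ 2) = ∑ _k : Fin N, g / (L : ℝ) ^ 2 := by
        rw [Finset.sum_const, Finset.card_univ, Fintype.card_fin, nsmul_eq_mul]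
    _ ≤ _ := by
        refine Finset.sum_le_sum fun k _ => ?_
        rw [if_pos (hLA k k.2)]
        obtain ⟨h1, h2, h3, h4⟩ := hAB k k.2
        exact (hdbd g L (A k) (B k) L hg hL hgL h3 h4 (by omega) (hLA k k.2)).1

/-- the exponents -/
noncomputable def uu (g : ℝ) (L N : ℕ) (A B : ℕ → Finset ℕ) (l : ℕ) : ℕ :=
  ⌊g * ∑ i ∈ Icc (l + 1) L, Dd g N A B i⌋₊

lemma uu_le (hdbd : S_DBD) {g : ℝ} {m N : ℕ} {A B : ℕ → Finset ℕ} (hg : 0 < g) (hL : 100 ≤ L)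
    (hgL : g * L ^ 8 ≤ 1) (hm : 20 ≤ m) (hAB : ∀ t < N, (A t).card = m ∧ (B t).card = m ∧
      Sub1 L (A t) ∧ Sub1 L (B t)) (l : ℕ) : uu g L N A B l ≤ N := by
  unfold uu
  apply Nat.floor_le_of_le
  have hL' : (100 : ℝ) ≤ L := by exact_mod_cast hL
  have h1 : ∑ i ∈ Icc (l + 1) L, Dd g N A B i ≤ L * (N * (g * L ^ 4)) := by
    calc ∑ i ∈ Icc (l + 1) L, Dd g N A B i ≤ ∑ _i ∈ Icc (l + 1) L, (N : ℝ) * (g * L ^ 4) :=
          Finset.sum_le_sum fun i _ => Dd_le hdbd hg hL hgL hm hAB i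
      _ = (L + 1 - (l + 1) : ℕ) * (N * (g * L ^ 4)) := by
          rw [Finset.sum_const, Nat.card_Icc, nsmul_eq_mul]
      _ ≤ L * (N * (g * L ^ 4)) := by
          apply mul_le_mul_of_nonneg_right _ (by positivity)
          exact_mod_cast (by omega : L + 1 - (l + 1) ≤ L)
  have h2 : (g * L ^ 8) * (g * L ^ 8) ≤ 1 := mul_le_one₀ hgL (by positivity) hgL
  have h3 : g * (L : ℝ) ^ 4 * (g * L) ≤ (g * L ^ 8) * (g * L ^ 8) := by
    have h4 : (1 : ℝ) ≤ (L : ℝ) ^ 11 := one_le_pow₀ (by linarith)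
    calc g * (L : ℝ) ^ 4 * (g * L) = g ^ 2 * (L : ℝ) ^ 5 * 1 := by ring
      _ ≤ g ^ 2 * (L : ℝ) ^ 5 * (L : ℝ) ^ 11 := mul_le_mul_of_nonneg_left h4 (by positivity)
      _ = _ := by ring
  calc g * ∑ i ∈ Icc (l + 1) L, Dd g N A B i ≤ g * (L * (N * (g * L ^ 4))) :=
        mul_le_mul_of_nonneg_left h1 hg.le
    _ = N * (g * (L : ℝ) ^ 4 * (g * L)) := by ring
    _ ≤ N * 1 := mul_le_mul_of_nonneg_left (h3.trans h2) (Nat.cast_nonneg _)
    _ = N := mul_one _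

lemma logb (hgrad : S_GRAD) (hdbd : S_DBD) (hchain : S_CHAIN) (hzb : S_ZB) (hmass : S_MASS)
    {g : ℝ} {m N : ℕ} {A B : ℕ → Finset ℕ} (hg : 0 < g) (hL : 100 ≤ L) (hgL : g * L ^ 8 ≤ 1)
    (hm : 20 ≤ m) (hAB : ∀ t < N, (A t).card = m ∧ (B t).card = m ∧
      Sub1 L (A t) ∧ Sub1 L (B t)) (δ : ℝ) (hδ : 0 < δ) (θ : Fin L ⊕ Fin L → ℝ) (hθ : θ ∈ OmS L)
    (hbad : ∃ l, 1 ≤ l ∧ l ≤ L ∧ (δ < |phi θ l - g * l| ∨ δ < |psi θ l - (1 - g * l)|))
    (K : ℝ) (hKA : K ≤ (g * Dd g N A B L - 1) * min ((δ / (g * L)) ^ 2) 1 / 6)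
    (hKB : K ≤ (g * Dd g N B A L - 1) * min ((δ / (g * L)) ^ 2) 1 / 6) :
    (∏ l ∈ range L, ((phi θ (l + 1) - phi θ l) / g) ^ uu g L N A B l) *
      (∏ l ∈ range L, ((psi θ l - psi θ (l + 1)) / g) ^ uu g L N B A l) *
      ∏ k : Fin N, (ZT (phi θ) (psi θ) (A k) (B k) / ZZ g (A k) (B k)) ≤
      Real.exp (2 * L - K) := by
  have hAB' : ∀ t < N, (B t).card = m ∧ (A t).card = m ∧ Sub1 L (B t) ∧ Sub1 L (A t) := fun t ht =>
    ⟨(hAB t ht).2.1, (hAB t ht).1, (hAB t ht).2.2.2, (hAB t ht).2.2.1⟩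
  have hZ : ∀ k : Fin N, 0 < ZZ g (A k) (B k) := fun k => by
    obtain ⟨h1, h2, h3, h4⟩ := hAB k k.2
    have hL' : (0 : ℝ) < L := by exact_mod_cast (by omega : 0 < L)
    exact lt_of_lt_of_le (by positivity) (zlow hzb hg hL hgL hm h3 h4 h1 h2)
  by_cases hz : ∀ k : Fin N, 0 < ZT (phi θ) (psi θ) (A k) (B k)
  · have hphi : ∀ l < L, 0 < (phi θ (l + 1) - phi θ l) / g := fun l hl =>
      div_pos (sub_pos.2 (hθ.2.1 l hl)) hg
    have hpsi : ∀ l < L, 0 < (psi θ l - psi θ (l + 1)) / g := fun l hl =>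
      div_pos (sub_pos.2 (hθ.2.2.1 l hl)) hg
    have hk : ∏ k : Fin N, (ZT (phi θ) (psi θ) (A k) (B k) / ZZ g (A k) (B k)) =
        Real.exp (∑ k : Fin N, (Real.log (ZT (phi θ) (psi θ) (A k) (B k)) -
          Real.log (ZZ g (A k) (B k)))) := by
      rw [Real.exp_sum]
      refine Finset.prod_congr rfl fun k _ => ?_
      rw [Real.exp_sub, Real.exp_log (hz k), Real.exp_log (hZ k)]
    rw [prod_exp L _ _ hphi, prod_exp L _ _ hpsi, hk, ← Real.exp_add, ← Real.exp_add]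
    apply Real.exp_le_exp.2
    have hsum : ∑ k : Fin N, (Real.log (ZT (phi θ) (psi θ) (A k) (B k)) -
          Real.log (ZZ g (A k) (B k))) ≤
        -(∑ l ∈ Icc 1 L, Dd g N A B l * (phi θ l - g * l)) -
          ∑ l ∈ Icc 1 L, Dd g N B A l * ((1 - psi θ l) - g * l) := by
      rw [← sum_swap g N A B (fun l => phi θ l - g * l) (fun k => (hAB k k.2).2.2.1),
        ← sum_swap g N B A (fun l => (1 - psi θ l) - g * l) (fun k => (hAB k k.2).2.2.2),
        ← Finset.sum_neg_distrib, ← Finset.sum_sub_distrib]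
      refine Finset.sum_le_sum fun k _ => ?_
      obtain ⟨h1, h2, h3, h4⟩ := hAB k k.2
      have h5 := hgrad g L (A k) (B k) (phi θ) (psi θ) hg hL hgL h3 h4 (by omega)
        (phi_mem hθ.1) (psi_mem hθ.1) (hz k)
      have h6 : ∑ l ∈ B k, dA g (B k) (A k) l * ((1 - psi θ l) - g * l) =
          -∑ l ∈ B k, dB g (A k) (B k) l * (psi θ l - (1 - g * l)) := by
        rw [← Finset.sum_neg_distrib]
        refine Finset.sum_congr rfl fun l _ => ?_
        unfold dB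
        ring
      rw [h6]
      linarith
    have hcA := hchain L g δ (Dd g N A B) (phi θ) (by omega) hg hδ
      (Dd_nonneg hdbd hg hL hgL hm hAB) (phi_zero θ) hθ.2.1
    have hcB := hchain L g δ (Dd g N B A) (fun l => 1 - psi θ l) (by omega) hg hδ
      (Dd_nonneg hdbd hg hL hgL hm hAB') (by simp [psi_zero])
      (fun l hl => by
        have := hθ.2.2.1 l hl
        show 1 - psi θ l < 1 - psi θ (l + 1)
        linarith)
    have e1 : ∀ l, (1 - psi θ (l + 1) - (1 - psi θ l)) = psi θ l - psi θ (l + 1) := fun l => by ring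
    simp only [e1] at hcB
    have hXA : ∑ l ∈ range L, ((uu g L N A B l : ℕ) : ℝ) * Real.log ((phi θ (l + 1) - phi θ l) / g) =
        ∑ l ∈ range L, (⌊g * ∑ i ∈ Icc (l + 1) L, Dd g N A B i⌋₊ : ℝ) *
          Real.log ((phi θ (l + 1) - phi θ l) / g) := rfl
    have hXB : ∑ l ∈ range L, ((uu g L N B A l : ℕ) : ℝ) * Real.log ((psi θ l - psi θ (l + 1)) / g) =
        ∑ l ∈ range L, (⌊g * ∑ i ∈ Icc (l + 1) L, Dd g N B A i⌋₊ : ℝ) *
          Real.log ((psi θ l - psi θ (l + 1)) / g) := rfl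
    rw [hXA, hXB]
    obtain ⟨l, hl1, hl2, hl3 | hl3⟩ := hbad
    · have h1 := hcA.2 ⟨l, hl1, hl2, hl3⟩
      have h2 := hcB.1
      linarith
    · have h1 := hcB.2 ⟨l, hl1, hl2, by
        have : 1 - psi θ l - g * l = -(psi θ l - (1 - g * l)) := by ring
        rw [this, abs_neg]
        exact hl3⟩
      have h2 := hcA.1
      linarith
  · push Not at hz
    obtain ⟨k, hk⟩ := hz
    have h0 : ZT (phi θ) (psi θ) (A k) (B k) = 0 :=
      le_antisymm hk (hmass (phi θ) (psi θ) (A k) (B k) (.inl false) (phi_mem hθ.1)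
        (psi_mem hθ.1)).2.2.2.1
    have h1 : ∏ k : Fin N, (ZT (phi θ) (psi θ) (A k) (B k) / ZZ g (A k) (B k)) = 0 :=
      Finset.prod_eq_zero (Finset.mem_univ k) (by rw [h0, zero_div])
    rw [h1, mul_zero]
    exact (Real.exp_pos _).le

/-- the weight near the centre -/
lemma lowb (hdbd : S_DBD) (hpert : S_PERT) (hzb : S_ZB)
    {g : ℝ} {m N : ℕ} {A B : ℕ → Finset ℕ} (hg : 0 < g) (hL : 100 ≤ L) (hgL : g * L ^ 8 ≤ 1)
    (hm : 20 ≤ m) (hAB : ∀ t < N, (A t).card = m ∧ (B t).card = m ∧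
      Sub1 L (A t) ∧ Sub1 L (B t)) (ρ : ℝ) (hρ : 0 ≤ ρ) (hρg : 2 * ρ < g)
    (hρ1 : (L : ℝ) * N * (2 * ρ / g) ≤ 1 / 2) (hρ2 : (N : ℝ) * (2 * L ^ 4 * ρ) ≤ 1 / 2)
    (hρ3 : 2 * L ^ 4 * ρ ≤ 1)
    (θ : Fin L ⊕ Fin L → ℝ) (hθ : θ ∈ OmS L)
    (hbox : θ ∈ Set.Icc (fun i => cen L g i - ρ) (fun i => cen L g i + ρ)) :
    1 / 8 ≤ (∏ l ∈ range L, ((phi θ (l + 1) - phi θ l) / g) ^ uu g L N A B l) *
      (∏ l ∈ range L, ((psi θ l - psi θ (l + 1)) / g) ^ uu g L N B A l) *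
      ∏ k : Fin N, (ZT (phi θ) (psi θ) (A k) (B k) / ZZ g (A k) (B k)) := by
  have hAB' : ∀ t < N, (B t).card = m ∧ (A t).card = m ∧ Sub1 L (B t) ∧ Sub1 L (A t) := fun t ht =>
    ⟨(hAB t ht).2.1, (hAB t ht).1, (hAB t ht).2.2.2, (hAB t ht).2.2.1⟩
  have hb := box_phi hρ hbox
  have hε0 : 0 ≤ 2 * ρ / g := by positivity
  have hε1 : 2 * ρ / g ≤ 1 := by
    rw [div_le_one hg]
    exact hρg.le
  have h1 : 1 / 2 ≤ ∏ l ∈ range L, ((phi θ (l + 1) - phi θ l) / g) ^ uu g L N A B l := by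
    refine prod_pow_ge L N _ _ (2 * ρ / g) hε0 hε1 (fun l hl => ?_)
      (fun l _ => uu_le hdbd hg hL hgL hm hAB l) hρ1
    have h4 := abs_le.1 (hb l hl.le).1
    have h5 := abs_le.1 (hb (l + 1) hl).1
    push_cast at h5
    have e : 1 - 2 * ρ / g = (g - 2 * ρ) / g := by field_simp
    rw [e]
    apply div_le_div_of_nonneg_right _ hg.le
    linarith [h4.2, h5.1]
  have h2 : 1 / 2 ≤ ∏ l ∈ range L, ((psi θ l - psi θ (l + 1)) / g) ^ uu g L N B A l := by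
    refine prod_pow_ge L N _ _ (2 * ρ / g) hε0 hε1 (fun l hl => ?_)
      (fun l _ => uu_le hdbd hg hL hgL hm hAB' l) hρ1
    have h4 := abs_le.1 (hb l hl.le).2
    have h5 := abs_le.1 (hb (l + 1) hl).2
    push_cast at h5
    have e : 1 - 2 * ρ / g = (g - 2 * ρ) / g := by field_simp
    rw [e]
    apply div_le_div_of_nonneg_right _ hg.le
    linarith [h4.1, h5.2]
  have h3 : 1 / 2 ≤ ∏ k : Fin N, (ZT (phi θ) (psi θ) (A k) (B k) / ZZ g (A k) (B k)) := by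
    refine prod_ge N _ (2 * L ^ 4 * ρ) hρ3 (fun k => ?_) hρ2
    obtain ⟨h4, h5, h6, h7⟩ := hAB k k.2
    have hz := zlow hzb hg hL hgL hm h6 h7 h4 h5
    have hL' : (0 : ℝ) < L := by exact_mod_cast (by omega : 0 < L)
    have hz0 : 0 < ZZ g (A k) (B k) := lt_of_lt_of_le (by positivity) hz
    have hp := (hpert g ρ L (phi θ) (psi θ) (A k) (B k) (A k) (B k) hg hL hgL hρ (by linarith)
      h6 h7 h6 h7 (phi_mem hθ.1) (psi_mem hθ.1) (fun l _ hl2 => hb l hl2)).2.1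
    have hp1 := (abs_le.1 hp).1
    rw [le_div_iff₀ hz0]
    have h8 : 2 * (L : ℝ) * ρ ≤ 2 * L ^ 4 * ρ * ZZ g (A k) (B k) := by
      calc 2 * (L : ℝ) * ρ = 2 * L ^ 4 * ρ * (1 / (L : ℝ) ^ 3) := by
            field_simp
        _ ≤ _ := mul_le_mul_of_nonneg_left hz (by positivity)
    nlinarith
  calc (1 : ℝ) / 8 = 1 / 2 * (1 / 2) * (1 / 2) := by norm_num
    _ ≤ _ := mul_le_mul (mul_le_mul h1 h2 (by norm_num) (by linarith)) h3 (by norm_num)
        (mul_nonneg (by linarith) (by linarith))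

/-- the final numerical inequality -/
lemma fin_num (L N : ℕ) (R K : ℝ) (hR : 100 ≤ R) (hRL : (L : ℝ) ≤ R) (hN : (N : ℝ) = R ^ 40)
    (hK : (R ^ 16 - 1) / 6 ≤ K) :
    Real.exp (2 * L - K) ≤ 1 / N * ((2 * (1 / (N : ℝ) ^ 2)) ^ (2 * L) * (1 / 8)) := by
  have hR0 : 0 < R := by linarith
  have hN0 : (0 : ℝ) < N := by rw [hN]; positivity
  set Λ := Real.log R with hΛ
  have hlog : Real.log N = 40 * Λ := by
    rw [hN, Real.log_pow, ← hΛ]
    norm_num
  have hΛR : Λ ≤ R := (Real.log_le_sub_one_of_pos hR0).trans (by linarith)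
  have hΛ0 : 0 ≤ Λ := Real.log_nonneg (by linarith)
  have e1 : (1 : ℝ) / N = Real.exp (-(40 * Λ)) := by
    rw [Real.exp_neg, ← hlog, Real.exp_log hN0, one_div]
  have e2 : ((1 / (N : ℝ) ^ 2)) ^ (2 * L) = Real.exp (-(160 * Λ * L)) := by
    have h1 : (1 / (N : ℝ) ^ 2) = Real.exp (-(80 * Λ)) := by
      rw [show (1 / (N : ℝ) ^ 2) = (1 / N) ^ 2 by rw [div_pow, one_pow], e1, ← Real.exp_nat_mul]
      congr 1
      push_cast
      ring
    rw [h1, ← Real.exp_nat_mul]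
    congr 1
    push_cast
    ring
  have e3 : Real.exp (-3) ≤ 1 / 8 := by
    rw [Real.exp_neg, inv_eq_one_div]
    apply one_div_le_one_div_of_le (by norm_num)
    have h1 : Real.exp 3 = Real.exp 1 ^ 3 := by
      rw [← Real.exp_nat_mul]
      norm_num
    have h2 := Real.exp_one_gt_d9
    rw [h1]
    calc (8 : ℝ) = 2 ^ 3 := by norm_num
      _ ≤ Real.exp 1 ^ 3 := pow_le_pow_left₀ (by norm_num) (by linarith) 3
  have h1 : Real.exp (-(40 * Λ)) * (Real.exp (-(160 * Λ * L)) * Real.exp (-3)) ≤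
      1 / N * ((2 * (1 / (N : ℝ) ^ 2)) ^ (2 * L) * (1 / 8)) := by
    rw [e1]
    apply mul_le_mul_of_nonneg_left _ (Real.exp_pos _).le
    apply mul_le_mul _ e3 (Real.exp_pos _).le (by positivity)
    rw [← e2]
    apply pow_le_pow_left₀ (by positivity)
    have : 0 ≤ 1 / (N : ℝ) ^ 2 := by positivity
    linarith
  refine le_trans ?_ h1
  rw [← Real.exp_add, ← Real.exp_add]
  apply Real.exp_le_exp.2
  have hL0 : (0 : ℝ) ≤ L := Nat.cast_nonneg _
  have h2 : Λ * L ≤ R * R := mul_le_mul hΛR hRL hL0 hR0.le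
  have h3 : (2 : ℝ) * L + 40 * Λ + 160 * (Λ * L) + 3 ≤ 163 * (R * R) := by nlinarith
  have h4 : (1 : ℝ) ≤ R ^ 14 / (100 : ℝ) ^ 14 := by
    rw [one_le_div (by positivity)]
    exact pow_le_pow_left₀ (by norm_num) hR 14
  have h5 : (100 : ℝ) ^ 14 * (R * R) ≤ R ^ 16 := by
    have : R ^ 16 = R ^ 14 * (R * R) := by ring
    rw [this]
    apply mul_le_mul_of_nonneg_right _ (by positivity)
    exact pow_le_pow_left₀ (by norm_num) hR 14
  have h6 : (10000 : ℝ) ≤ R * R := by nlinarith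
  nlinarith

end Conc

open Conc in
/-- Concentration of the frontiers. -/
theorem conc : S_GRAD → S_DBD → S_CHAIN → S_PERT → S_ZB → S_MASS → S_REG → S_CONC := by
  intro hgrad hdbd hchain hpert hzb hmass _ g L m N A B hg hL hgL100 hm hN hAB0
  have hL' : (100 : ℝ) ≤ L := by exact_mod_cast hL
  have hL0 : (0 : ℝ) < L := by linarith
  have hL1 : (1 : ℝ) ≤ L := by linarith
  have hAB : ∀ t < N, (A t).card = m ∧ (B t).card = m ∧ Sub1 L (A t) ∧ Sub1 L (B t) :=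
    fun t ht => ⟨(hAB0 t ht).1, (hAB0 t ht).2.1, (hAB0 t ht).2.2.1, (hAB0 t ht).2.2.2.1⟩
  have hAB' : ∀ t < N, (B t).card = m ∧ (A t).card = m ∧ Sub1 L (B t) ∧ Sub1 L (A t) := fun t ht =>
    ⟨(hAB t ht).2.1, (hAB t ht).1, (hAB t ht).2.2.2, (hAB t ht).2.2.1⟩
  have hgL : g * (L : ℝ) ^ 8 ≤ 1 := by
    refine le_trans ?_ hgL100
    exact mul_le_mul_of_nonneg_left (pow_le_pow_right₀ hL1 (by norm_num)) hg.le
  have hgL2 : g * (L : ℝ) ^ 2 ≤ 1 := by
    refine le_trans ?_ hgL100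
    exact mul_le_mul_of_nonneg_left (pow_le_pow_right₀ hL1 (by norm_num)) hg.le
  -- the scale
  obtain ⟨R, hR⟩ : ∃ R : ℝ, R = (N : ℝ) ^ ((1 : ℝ) / 40) := ⟨_, rfl⟩
  have hR0 : 0 ≤ R := by rw [hR]; positivity
  have hRN : (N : ℝ) = R ^ 40 := by
    rw [hR, ← Real.rpow_natCast, ← Real.rpow_mul (Nat.cast_nonneg _)]
    norm_num
  have hRLg : (L : ℝ) / g ≤ R := by
    rw [hRN] at hN
    exact (pow_le_pow_iff_left₀ (by positivity) hR0 (by norm_num)).1 hN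
  have hLRg : (L : ℝ) ≤ R * g := by
    rw [div_le_iff₀ hg] at hRLg
    exact hRLg
  have hg1 : g ≤ 1 := by
    have : g * 1 ≤ g * (L : ℝ) ^ 2 := mul_le_mul_of_nonneg_left (one_le_pow₀ hL1) hg.le
    linarith
  have hLR : (L : ℝ) ≤ R := hLRg.trans (mul_le_of_le_one_right hR0 hg1)
  have hR100 : 100 ≤ R := hL'.trans hLR
  have hRpos : 0 < R := by linarith
  have hNpos : (0 : ℝ) < N := by rw [hRN]; positivity
  obtain ⟨δ, hδ⟩ : ∃ δ : ℝ, δ = (N : ℝ) ^ (-(1 / 4) : ℝ) := ⟨_, rfl⟩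
  have hδR : δ = 1 / R ^ 10 := by
    rw [hδ, hRN, ← Real.rpow_natCast R 40, ← Real.rpow_mul hR0, one_div (R ^ 10),
      ← Real.rpow_natCast R 10, ← Real.rpow_neg hR0]
    norm_num
  have hδ0 : 0 < δ := by rw [hδR]; positivity
  -- the exponent
  have hq1 : (δ / (g * L)) ^ 2 ≤ 1 := by
    have h1 : δ / (g * L) ≤ 1 := by
      rw [div_le_one (by positivity), hδR, div_le_iff₀ (by positivity)]
      have h2 : R * g ≤ R ^ 10 * g := by
        apply mul_le_mul_of_nonneg_right _ hg.le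
        calc R = R ^ 1 := (pow_one R).symm
          _ ≤ R ^ 10 := pow_le_pow_right₀ (by linarith) (by norm_num)
      have h3 : (1 : ℝ) * 1 ≤ (R ^ 10 * g) * L := mul_le_mul (by linarith) hL1 zero_le_one
        (by positivity)
      linarith
    exact pow_le_one₀ (by positivity) h1
  have hK : ∀ D : ℝ, N * (g / (L : ℝ) ^ 2) ≤ D →
      (R ^ 16 - 1) / 6 ≤ (g * D - 1) * min ((δ / (g * L)) ^ 2) 1 / 6 := by
    intro D hD
    rw [min_eq_left hq1]
    apply div_le_div_of_nonneg_right _ (by norm_num)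
    have hq0 : 0 ≤ (δ / (g * L)) ^ 2 := by positivity
    have h1 : g * (N * (g / (L : ℝ) ^ 2)) - 1 ≤ g * D - 1 := by
      have := mul_le_mul_of_nonneg_left hD hg.le
      linarith
    refine le_trans ?_ (mul_le_mul_of_nonneg_right h1 hq0)
    have h2 : g * (N * (g / (L : ℝ) ^ 2)) * (δ / (g * L)) ^ 2 = R ^ 20 / (L : ℝ) ^ 4 := by
      rw [hRN, hδR]
      field_simp
      try ring
    have h3 : R ^ 16 ≤ R ^ 20 / (L : ℝ) ^ 4 := by
      rw [le_div_iff₀ (by positivity)]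
      calc R ^ 16 * (L : ℝ) ^ 4 ≤ R ^ 16 * R ^ 4 :=
            mul_le_mul_of_nonneg_left (pow_le_pow_left₀ hL0.le hLR 4) (by positivity)
        _ = R ^ 20 := by ring
    rw [sub_mul, h2, one_mul]
    linarith
  have hKA := hK _ (Dd_top hdbd hg hL hgL hm hAB fun t ht => (hAB0 t ht).2.2.2.2.1)
  have hKB := hK _ (Dd_top hdbd hg hL hgL hm hAB' fun t ht => (hAB0 t ht).2.2.2.2.2)
  have hZ : ∀ k : Fin N, 0 < ZZ g (A k) (B k) := fun k => by
    obtain ⟨h1, h2, h3, h4⟩ := hAB k k.2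
    exact lt_of_lt_of_le (by positivity) (zlow hzb hg hL hgL hm h3 h4 h1 h2)
  refine ⟨uu g L N A B, uu g L N B A, ?_⟩
  obtain ⟨W, hW⟩ : ∃ W : (Fin L ⊕ Fin L → ℝ) → ℝ, W = fun θ => wt (uu g L N A B) (uu g L N B A) θ *
    ∏ k : Fin N, ZT (phi θ) (psi θ) (A k) (B k) := ⟨_, rfl⟩
  obtain ⟨Ws, hWs⟩ : ∃ Ws : ℝ, Ws = (∏ l ∈ range L, g ^ uu g L N A B l / (uu g L N A B l).factorial) *
      (∏ l ∈ range L, g ^ uu g L N B A l / (uu g L N B A l).factorial) *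
        ∏ k : Fin N, ZZ g (A k) (B k) := ⟨_, rfl⟩
  have hWs0 : 0 < Ws := by
    rw [hWs]
    exact mul_pos (mul_pos (Finset.prod_pos fun l _ => by positivity)
      (Finset.prod_pos fun l _ => by positivity)) (Finset.prod_pos fun k _ => hZ k)
  have hrat := ratio (L := L) (uu g L N A B) (uu g L N B A) N A B g hg hZ
  have hWint : IntegrableOn W (OmS L) := by
    rw [hW]
    exact int_W (uu g L N A B) (uu g L N B A) N A B
  have hWcont : Continuous W := by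
    rw [hW]
    exact cont_W (uu g L N A B) (uu g L N B A) N A B
  have hW0 : ∀ θ ∈ OmS L, 0 ≤ W θ := by
    intro θ hθ
    rw [hW]
    simp only
    apply mul_nonneg
    · unfold wt
      apply mul_nonneg
      · refine Finset.prod_nonneg fun l hl => ?_
        have := hθ.2.1 l (Finset.mem_range.1 hl)
        exact div_nonneg (pow_nonneg (by linarith) _) (Nat.cast_nonneg _)
      · refine Finset.prod_nonneg fun l hl => ?_
        have := hθ.2.2.1 l (Finset.mem_range.1 hl)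
        exact div_nonneg (pow_nonneg (by linarith) _) (Nat.cast_nonneg _)
    · refine Finset.prod_nonneg fun k _ => ?_
      exact (hmass (phi θ) (psi θ) (A k) (B k) (.inl false) (phi_mem hθ.1)
        (psi_mem hθ.1)).2.2.2.1
  -- lower bound for the total mass
  obtain ⟨ρ, hρ⟩ : ∃ ρ : ℝ, ρ = 1 / (N : ℝ) ^ 2 := ⟨_, rfl⟩
  have hρ0 : 0 ≤ ρ := by rw [hρ]; positivity
  have hRR : ρ = 1 / R ^ 80 := by
    rw [hρ, hRN, ← pow_mul]
  have hρR : ρ * R ^ 80 = 1 := by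
    rw [hRR]
    field_simp
  have hpw : ∀ k : ℕ, k ≤ 79 → ρ * R ^ k ≤ 1 / 100 := by
    intro k hk
    have h1 : R ^ k * 100 ≤ R ^ 80 := by
      calc R ^ k * 100 ≤ R ^ k * R := mul_le_mul_of_nonneg_left hR100 (by positivity)
        _ = R ^ (k + 1) := (pow_succ R k).symm
        _ ≤ R ^ 80 := pow_le_pow_right₀ (by linarith) (by omega)
    have h2 : ρ * (R ^ k * 100) ≤ 1 := by
      rw [← hρR]
      exact mul_le_mul_of_nonneg_left h1 hρ0
    linarith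
  have hgR : 1 / g ≤ R := by
    rw [div_le_iff₀ hg]
    linarith
  have hρg : 2 * ρ < g := by
    have h1 := hpw 1 (by norm_num)
    rw [pow_one] at h1
    have h2 : ρ * L ≤ ρ * (R * g) := mul_le_mul_of_nonneg_left hLRg hρ0
    nlinarith
  have hρ1 : (L : ℝ) * N * (2 * ρ / g) ≤ 1 / 2 := by
    have h1 := hpw 42 (by norm_num)
    calc (L : ℝ) * N * (2 * ρ / g) = 2 * (ρ * (L * (1 / g) * N)) := by ring
      _ ≤ 2 * (ρ * (R * R * R ^ 40)) := by
          rw [hRN]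
          gcongr
      _ = 2 * (ρ * R ^ 42) := by ring
      _ ≤ 1 / 2 := by linarith
  have hρ2 : (N : ℝ) * (2 * L ^ 4 * ρ) ≤ 1 / 2 := by
    have h1 := hpw 44 (by norm_num)
    calc (N : ℝ) * (2 * L ^ 4 * ρ) = 2 * (ρ * (L ^ 4 * N)) := by ring
      _ ≤ 2 * (ρ * (R ^ 4 * R ^ 40)) := by
          rw [hRN]
          gcongr
      _ = 2 * (ρ * R ^ 44) := by ring
      _ ≤ 1 / 2 := by linarith
  have hρ3 : 2 * (L : ℝ) ^ 4 * ρ ≤ 1 := by
    have h1 := hpw 4 (by norm_num)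
    calc 2 * (L : ℝ) ^ 4 * ρ = 2 * (ρ * L ^ 4) := by ring
      _ ≤ 2 * (ρ * R ^ 4) := by gcongr
      _ ≤ 1 := by linarith
  have hgLs : 2 * (g * L) + 2 * ρ < 1 := by
    have h1 : g * L * 100 ≤ g * (L : ℝ) ^ 2 := by
      calc g * L * 100 ≤ g * L * L := mul_le_mul_of_nonneg_left hL' (by positivity)
        _ = g * (L : ℝ) ^ 2 := by ring
    have h2 := hpw 0 (by norm_num)
    rw [pow_zero, mul_one] at h2
    nlinarith
  have hsub := box_sub (L := L) hg hρ0 hρg hgLs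
  have hbox : Ws * (1 / 8) * (2 * ρ) ^ (2 * L) ≤ ∫ θ in OmS L, W θ := by
    calc Ws * (1 / 8) * (2 * ρ) ^ (2 * L) = Ws * (1 / 8) *
          (volume (Set.Icc (fun i => cen L g i - ρ) (fun i => cen L g i + ρ))).toReal := by
            rw [vol_box L g ρ hρ0]
      _ ≤ ∫ θ in Set.Icc (fun i => cen L g i - ρ) (fun i => cen L g i + ρ), W θ := by
          rw [mul_comm]
          refine setIntegral_ge_of_const_le (c := Ws * (1 / 8)) measurableSet_Icc ?_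
            (fun θ hθ => ?_) (hWint.mono_set hsub)
          · exact isCompact_Icc.measure_lt_top.ne
          · have h1 := lowb hdbd hpert hzb hg hL hgL hm hAB ρ hρ0 hρg hρ1 hρ2 hρ3 θ (hsub hθ) hθ
            have h2 := hrat θ
            rw [← hWs] at h2
            rw [hW]
            simp only
            rw [h2]
            exact mul_le_mul_of_nonneg_left h1 hWs0.le
      _ ≤ ∫ θ in OmS L, W θ := by
          refine setIntegral_mono_set hWint ?_ hsub.eventuallyLE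
          exact ae_restrict_of_forall_mem (meas_OmS L) fun θ hθ => hW0 θ hθ
  have hfin := fin_num L N R ((R ^ 16 - 1) / 6) hR100 hLR hRN le_rfl
  rw [← hρ] at hfin
  have hpos : 0 < ∫ θ in OmS L, W θ := by
    refine lt_of_lt_of_le ?_ hbox
    have : 0 < ρ := by rw [hρ]; positivity
    positivity
  rw [← hδ]
  have hup : ∫ θ in OmS L ∩ {θ | ∃ l, 1 ≤ l ∧ l ≤ L ∧ (δ < |phi θ l - g * l| ∨
        δ < |psi θ l - (1 - g * l)|)}, W θ ≤ Ws * Real.exp (2 * L - (R ^ 16 - 1) / 6) := by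
    refine up_int W _ Set.inter_subset_left _ (by positivity) (fun θ hθ => hW0 θ hθ.1) ?_
    intro θ hθ
    have h1 := logb hgrad hdbd hchain hzb hmass hg hL hgL hm hAB δ hδ0 θ hθ.1 hθ.2
      ((R ^ 16 - 1) / 6) hKA hKB
    have h2 := hrat θ
    rw [← hWs] at h2
    rw [hW]
    simp only
    rw [h2]
    exact mul_le_mul_of_nonneg_left h1 hWs0.le
  rw [hW] at hpos hup hbox
  refine ⟨hpos, hup.trans ?_⟩
  calc Ws * Real.exp (2 * L - (R ^ 16 - 1) / 6)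
      ≤ Ws * (1 / N * ((2 * ρ) ^ (2 * L) * (1 / 8))) := mul_le_mul_of_nonneg_left hfin hWs0.le
    _ = 1 / N * (Ws * (1 / 8) * (2 * ρ) ^ (2 * L)) := by ring
    _ ≤ _ := mul_le_mul_of_nonneg_left hbox (by positivity)

end Pool.Agent.H34.RK
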