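import Pool.Agent.H34.RK.Stm3

/-! RK-DBD (helper33): bounds for `dA`. -/

set_option autoImplicit false

open Finset MeasureTheory

namespace Pool.Agent.H34.RK

namespace Dbdn

theorem pow_half {M : ℕ} (hM : 1 ≤ M) {t : ℝ} (ht : 1 - 1 / (2 * (M : ℝ)) ≤ t) {n : ℕ}
    (hn : n ≤ M) : (1 / 2 : ℝ) ≤ t ^ n := by
  have hM0 : (1 : ℝ) ≤ M := by exact_mod_cast hM
  have h1 : (0 : ℝ) ≤ 1 / (2 * M) := by positivity
  have h2 : 1 / (2 * (M : ℝ)) ≤ 1 / 2 := by
    apply one_div_le_one_div_of_le (by norm_num)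
    linarith
  have h3 : (1 : ℝ) + n * (-(1 / (2 * (M : ℝ)))) ≤ (1 + -(1 / (2 * (M : ℝ)))) ^ n :=
    one_add_mul_le_pow (by linarith) n
  have h4 : (n : ℝ) * (1 / (2 * M)) ≤ 1 / 2 := by
    have : (n : ℝ) ≤ M := by exact_mod_cast hn
    rw [mul_one_div, div_le_div_iff₀ (by positivity) (by norm_num)]
    linarith
  have h5 : (1 + -(1 / (2 * (M : ℝ)))) ^ n ≤ t ^ n :=
    pow_le_pow_left₀ (by linarith) (by linarith) n
  linarith

theorem KK_ge {g : ℝ} {L M : ℕ} {A B : Finset ℕ} (hg : 0 < g) (hA : Sub1 L A) (hB : Sub1 L B)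
    (hM : 1 ≤ M) (hAB : A.card + B.card ≤ M) {x y : ℝ}
    (hx1 : x ≤ g * L) (hy : 1 - 1 / (4 * (M : ℝ)) ≤ y) (hy2 : y ≤ 1 - g * L)
    (hgL : g * L ≤ 1 / (8 * (M : ℝ))) : (1 / 2 : ℝ) ≤ KK g A B x y := by
  have hM0 : (0 : ℝ) < M := by exact_mod_cast hM
  obtain ⟨t, ht⟩ : ∃ t : ℝ, t = 1 - 1 / (2 * (M : ℝ)) := ⟨_, rfl⟩
  have e1 : 1 / (2 * (M : ℝ)) = 1 / (4 * M) + 1 / (8 * M) + 1 / (8 * M) := by
    field_simp; norm_num
  have ht0 : 0 ≤ t := by
    have : 1 / (2 * (M : ℝ)) ≤ 1 / 2 := by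
      apply one_div_le_one_div_of_le (by norm_num)
      have : (1 : ℝ) ≤ M := by exact_mod_cast hM
      linarith
    rw [ht]; linarith
  have hp : (0 : ℝ) < 1 / (8 * M) := by positivity
  have hl : ∀ l : ℕ, l ≤ L → g * l ≤ g * L := fun l h =>
    mul_le_mul_of_nonneg_left (by exact_mod_cast h) hg.le
  unfold KK KT
  have h1 : t ^ A.card ≤ ∏ l ∈ A, max (y - max x (g * l)) 0 := by
    rw [← Finset.prod_const]
    refine Finset.prod_le_prod (fun _ _ => ht0) fun l hlA => ?_
    refine le_trans ?_ (le_max_left _ _)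
    have h2 : max x (g * l) ≤ g * L := max_le hx1 (hl l (hA l hlA).2)
    linarith
  have h2 : t ^ B.card ≤ ∏ l ∈ B, max (min y (1 - g * l) - x) 0 := by
    rw [← Finset.prod_const]
    refine Finset.prod_le_prod (fun _ _ => ht0) fun l hlB => ?_
    refine le_trans ?_ (le_max_left _ _)
    have h2 : 1 - 1 / (4 * (M : ℝ)) ≤ min y (1 - g * l) :=
      le_min hy (by linarith [hl l (hB l hlB).2])
    linarith
  calc (1 / 2 : ℝ) ≤ t ^ (A.card + B.card) := pow_half hM ht.ge hAB
    _ = t ^ A.card * t ^ B.card := pow_add _ _ _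
    _ ≤ _ := mul_le_mul h1 h2 (pow_nonneg ht0 _) ((pow_nonneg ht0 _).trans h1)

end Dbdn

open Dbdn in
theorem dbd : S_REG → S_ZB → S_DBD := by
  intro reg zb g L A B l hg hL hgL hA hB hM hlA
  have hl := hA l hlA
  have hL0 : (100 : ℝ) ≤ L := by exact_mod_cast hL
  have hLpos : (0 : ℝ) < L := by linarith
  obtain ⟨M, hMd⟩ : ∃ M, M = A.card + B.card := ⟨_, rfl⟩
  rw [← hMd] at hM
  have hcA : A.card ≤ L := by
    have : A ⊆ Finset.Icc 1 L := fun a ha => Finset.mem_Icc.2 (hA a ha)
    simpa using Finset.card_le_card this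
  have hcB : B.card ≤ L := by
    have : B ⊆ Finset.Icc 1 L := fun a ha => Finset.mem_Icc.2 (hB a ha)
    simpa using Finset.card_le_card this
  have hM2 : (M : ℝ) ≤ 2 * L := by
    have : M ≤ 2 * L := by omega
    exact_mod_cast this
  have hM31 : (31 : ℝ) ≤ M := by exact_mod_cast hM
  have hMpos : (0 : ℝ) < M := by linarith
  have hce : (A.erase l).card + B.card = M - 1 := by
    rw [Finset.card_erase_of_mem hlA]
    have : 1 ≤ A.card := Finset.card_pos.2 ⟨l, hlA⟩
    omega
  have hAe : Sub1 L (A.erase l) := fun a ha => hA a (Finset.mem_of_mem_erase ha)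
  -- `g L` is tiny
  have hgLs : g * L ≤ 1 / (8 * (M : ℝ)) := by
    have h1 : g * L * (L : ℝ) ^ 7 ≤ 1 := by
      calc g * L * (L : ℝ) ^ 7 = g * L ^ 8 := by ring
        _ ≤ 1 := hgL
    have h2 : 8 * (M : ℝ) ≤ (L : ℝ) ^ 7 := by
      calc 8 * (M : ℝ) ≤ 16 * L := by linarith
        _ ≤ L * L := by nlinarith
        _ = (L : ℝ) ^ 2 := (sq _).symm
        _ ≤ (L : ℝ) ^ 7 := pow_le_pow_right₀ (by linarith) (by norm_num)
    rw [le_div_iff₀ (by positivity)]
    have h3 : 0 ≤ g * L := by positivity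
    exact (mul_le_mul_of_nonneg_left h2 h3).trans h1
  have hgL4 : g * (L : ℝ) ^ 4 ≤ 1 := by
    refine le_trans ?_ hgL
    exact mul_le_mul_of_nonneg_left (pow_le_pow_right₀ (by linarith) (by norm_num)) hg.le
  obtain ⟨-, -, -, hcont, hKK, -, -⟩ := reg g L (A.erase l) B 0 0 hg hL hgL4 hAe hB (by omega)
    (Nat.zero_le _) (Nat.zero_le _)
  obtain ⟨hz1, hz2⟩ := zb g L A B hg hL hgL hA hB (by omega)
  rw [← hMd] at hz1 hz2
  have hgl : g * l ≤ g * L := mul_le_mul_of_nonneg_left (by exact_mod_cast hl.2) hg.le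
  have hl1 : (1 : ℝ) ≤ l := by exact_mod_cast hl.1
  have hgl0 : 0 < g * l := by positivity
  have h8 : 1 / (8 * (M : ℝ)) ≤ 1 / 8 := by
    apply one_div_le_one_div_of_le (by norm_num)
    linarith
  have h4 : 1 / (4 * (M : ℝ)) ≤ 1 / 4 := by
    apply one_div_le_one_div_of_le (by norm_num)
    linarith
  have hgl1 : g * l ≤ 1 / 8 := by linarith
  have hcx : ∀ x, Continuous fun y => KK g (A.erase l) B x y := fun x =>
    hcont.comp (Continuous.prodMk_right x)
  have hI : Continuous fun x => ∫ y in (g * l)..1, KK g (A.erase l) B x y :=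
    intervalIntegral.continuous_parametric_intervalIntegral_of_continuous' hcont _ _
  have hZpos : 0 < ZZ g A B := by
    refine lt_of_lt_of_le ?_ hz2
    positivity
  unfold dA
  constructor
  · rw [le_div_iff₀ hZpos]
    have hlow : g / (16 * (M : ℝ)) ≤
        ∫ x in (0 : ℝ)..(g * l), ∫ y in (g * l)..1, KK g (A.erase l) B x y := by
      have h1 : ∀ x ∈ Set.Icc (0 : ℝ) (g * l), 1 / (16 * (M : ℝ)) ≤
          ∫ y in (g * l)..1, KK g (A.erase l) B x y := by
        rintro x ⟨hx0, hx1⟩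
        have h2 : ∫ y in (1 - 1 / (4 * (M : ℝ)))..(1 - g * L), KK g (A.erase l) B x y ≤
            ∫ y in (g * l)..1, KK g (A.erase l) B x y := by
          refine intervalIntegral.integral_mono_interval (by linarith) ?_ (by
            have : 0 ≤ g * L := by positivity
            linarith) ?_ ((hcx x).intervalIntegrable _ _)
          · have : 1 / (8 * (M : ℝ)) ≤ 1 / (4 * (M : ℝ)) := by
              apply one_div_le_one_div_of_le (by positivity)
              linarith
            linarith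
          · refine (ae_restrict_iff' measurableSet_Ioc).2 (Filter.Eventually.of_forall ?_)
            rintro y ⟨hy1, hy2⟩
            exact (hKK x y hx0 (by linarith) hy2).1
        refine le_trans ?_ h2
        have h3 : ∫ y in (1 - 1 / (4 * (M : ℝ)))..(1 - g * L), (1 / 2 : ℝ) ≤
            ∫ y in (1 - 1 / (4 * (M : ℝ)))..(1 - g * L), KK g (A.erase l) B x y := by
          refine intervalIntegral.integral_mono_on ?_ (by simp) ((hcx x).intervalIntegrable _ _) ?_
          · have : 1 / (8 * (M : ℝ)) ≤ 1 / (4 * (M : ℝ)) := by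
              apply one_div_le_one_div_of_le (by positivity)
              linarith
            linarith
          · rintro y ⟨hy1, hy2⟩
            exact KK_ge (M := M) hg hAe hB (by omega) (by omega) (hx1.trans hgl) hy1 hy2 hgLs
        refine le_trans ?_ h3
        rw [intervalIntegral.integral_const, smul_eq_mul]
        have e1 : 1 / (4 * (M : ℝ)) = 1 / (8 * M) + 1 / (8 * M) := by field_simp; norm_num
        have e2 : 1 / (16 * (M : ℝ)) = 1 / (8 * M) * (1 / 2) := by field_simp; norm_num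
        rw [e2]
        refine mul_le_mul_of_nonneg_right ?_ (by norm_num)
        linarith
      have h2 : ∫ x in (0 : ℝ)..(g * l), 1 / (16 * (M : ℝ)) ≤
          ∫ x in (0 : ℝ)..(g * l), ∫ y in (g * l)..1, KK g (A.erase l) B x y :=
        intervalIntegral.integral_mono_on hgl0.le (by simp) (hI.intervalIntegrable _ _) h1
      refine le_trans ?_ h2
      rw [intervalIntegral.integral_const, smul_eq_mul, sub_zero]
      have : g / (16 * (M : ℝ)) = g * 1 * (1 / (16 * M)) := by ring
      rw [this]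
      refine mul_le_mul_of_nonneg_right ?_ (by positivity)
      exact mul_le_mul_of_nonneg_left hl1 hg.le
    refine le_trans ?_ hlow
    calc g / (L : ℝ) ^ 2 * ZZ g A B ≤ g / (L : ℝ) ^ 2 * (1 / ((M + 1) * (M + 2))) :=
          mul_le_mul_of_nonneg_left hz1 (by positivity)
      _ ≤ g / (16 * (M : ℝ)) := by
          rw [div_mul_div_comm, mul_one]
          apply div_le_div_of_nonneg_left hg.le (by positivity)
          have h5 : 16 ≤ (L : ℝ) ^ 2 := by nlinarith
          have h6 : (M : ℝ) ≤ (M + 1) * (M + 2) := by nlinarith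
          exact mul_le_mul h5 h6 hMpos.le (by positivity)
  · rw [div_le_iff₀ hZpos]
    have hup : ∫ x in (0 : ℝ)..(g * l), ∫ y in (g * l)..1, KK g (A.erase l) B x y ≤ g * L := by
      have h1 : ∀ x ∈ Set.Icc (0 : ℝ) (g * l),
          ∫ y in (g * l)..1, KK g (A.erase l) B x y ≤ 1 := by
        rintro x ⟨hx0, hx1⟩
        have h3 : ∫ y in (g * l)..1, KK g (A.erase l) B x y ≤ ∫ y in (g * l)..1, (1 : ℝ) := by
          refine intervalIntegral.integral_mono_on (by linarith)
            ((hcx x).intervalIntegrable _ _) (by simp) ?_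
          rintro y ⟨hy1, hy2⟩
          refine (hKK x y hx0 (by linarith) hy2).2.trans ?_
          exact pow_le_one₀ (by linarith) (by linarith)
        refine h3.trans ?_
        rw [intervalIntegral.integral_const, smul_eq_mul, mul_one]
        linarith
      have h2 : ∫ x in (0 : ℝ)..(g * l), ∫ y in (g * l)..1, KK g (A.erase l) B x y ≤
          ∫ x in (0 : ℝ)..(g * l), (1 : ℝ) :=
        intervalIntegral.integral_mono_on hgl0.le (hI.intervalIntegrable _ _) (by simp) h1
      refine h2.trans ?_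
      rw [intervalIntegral.integral_const, smul_eq_mul, mul_one, sub_zero]
      exact hgl
    refine hup.trans ?_
    have h5 : 1 / (L : ℝ) ^ 3 ≤ ZZ g A B := by
      refine le_trans ?_ hz2
      rw [div_le_div_iff₀ (by positivity) (by positivity)]
      have h6 : ((M : ℝ) + 1) * (M + 2) ≤ (2 * L + 1) * (2 * L + 2) := by
        have : (0 : ℝ) ≤ M := hMpos.le
        nlinarith
      have h7 : (2 * (L : ℝ) + 1) * (2 * L + 2) ≤ 99 / 100 * L ^ 3 := by
        have : 100 * (L : ℝ) ^ 2 ≤ L ^ 3 := by nlinarith [sq_nonneg (L : ℝ)]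
        nlinarith
      linarith
    calc g * L = g * (L : ℝ) ^ 4 * (1 / (L : ℝ) ^ 3) := by field_simp
      _ ≤ g * (L : ℝ) ^ 4 * ZZ g A B := mul_le_mul_of_nonneg_left h5 (by positivity)

end Pool.Agent.H34.RK
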