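import Pool.Agent.H34.RK.Stm2

/-! # Project RK: `S_DUAL` (helper51) -/

set_option autoImplicit false

open Finset MeasureTheory

namespace Pool.Agent.H34.RK

namespace DUAL

theorem kk_dual (g : ℝ) (A B : Finset ℕ) (x y : ℝ) :
    KK g A B x y = KK g B A (1 - y) (1 - x) := by
  unfold KK KT
  rw [mul_comm]
  congr 1
  · refine Finset.prod_congr rfl fun l _ => ?_
    congr 1
    have : min y (1 - g * l) = 1 - max (1 - y) (g * l) := by
      rcases le_total y (1 - g * l) with h | h
      · rw [min_eq_left h, max_eq_left (by linarith)]; ring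
      · rw [min_eq_right h, max_eq_right (by linarith)]
    rw [this]; ring
  · refine Finset.prod_congr rfl fun l _ => ?_
    congr 1
    have : min (1 - x) (1 - g * l) = 1 - max x (g * l) := by
      rcases le_total x (g * l) with h | h
      · rw [min_eq_right (by linarith), max_eq_right h]
      · rw [min_eq_left (by linarith), max_eq_left h]
    rw [this]; ring

theorem kk_cont (g : ℝ) (A B : Finset ℕ) :
    Continuous (fun xy : ℝ × ℝ => KK g A B xy.1 xy.2) := by
  unfold KK KT
  refine Continuous.mul ?_ ?_
  · refine continuous_finsetProd _ fun l _ => ?_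
    fun_prop
  · refine continuous_finsetProd _ fun l _ => ?_
    fun_prop

theorem io_rect (f : ℝ × ℝ → ℝ) (hf : Continuous f) (a b c d : ℝ) :
    IntegrableOn f (Set.uIoc a b ×ˢ Set.uIoc c d) := by
  exact (hf.continuousOn.integrableOn_compact (K := Set.uIcc a b ×ˢ Set.uIcc c d)
    (isCompact_uIcc.prod isCompact_uIcc)).mono_set
    (Set.prod_mono Set.uIoc_subset_uIcc Set.uIoc_subset_uIcc)

theorem swap_rect (f : ℝ → ℝ → ℝ) (hf : Continuous (fun xy : ℝ × ℝ => f xy.1 xy.2)) (a b c d : ℝ) :
    ∫ x in a..b, ∫ y in c..d, f x y = ∫ y in c..d, ∫ x in a..b, f x y :=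
  intervalIntegral_intervalIntegral_swap (io_rect _ hf a b c d)

theorem swap_tri (f : ℝ → ℝ → ℝ) (hf : Continuous (fun xy : ℝ × ℝ => f xy.1 xy.2)) :
    ∫ x in (0 : ℝ)..1, ∫ y in x..1, f x y = ∫ y in (0 : ℝ)..1, ∫ x in (0 : ℝ)..y, f x y := by
  have hfx : ∀ x, Continuous (fun y => f x y) := fun x => hf.comp (by fun_prop : Continuous fun y : ℝ => (x, y))
  have hfy : ∀ y, Continuous (fun x => f x y) := fun y => hf.comp (by fun_prop : Continuous fun x : ℝ => (x, y))
  have hms : MeasurableSet {p : ℝ × ℝ | p.1 < p.2} := measurableSet_lt measurable_fst measurable_snd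
  -- inner integrals with indicator
  have h1 : ∀ x ∈ Set.uIcc (0 : ℝ) 1, ∫ y in x..1, f x y = ∫ y in (0 : ℝ)..1, (if x < y then f x y else 0) := by
    intro x hx
    rw [Set.uIcc_of_le zero_le_one] at hx
    have hi : ∀ a b : ℝ, IntervalIntegrable (fun y => if x < y then f x y else 0) volume a b := by
      intro a b
      rw [intervalIntegrable_iff]
      have h3 : IntegrableOn (fun y => f x y) (Set.uIoc a b) :=
        ((hfx x).intervalIntegrable a b).def'
      have := h3.indicator (measurableSet_Ioi (a := x))
      refine this.congr ?_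
      filter_upwards with y
      simp only [Set.indicator, Set.mem_Ioi]
    rw [← intervalIntegral.integral_add_adjacent_intervals (hi 0 x) (hi x 1)]
    have h4 : ∫ y in (0 : ℝ)..x, (if x < y then f x y else 0) = 0 := by
      rw [intervalIntegral.integral_zero_ae]
      filter_upwards with y hy
      rw [Set.uIoc_of_le hx.1] at hy
      rw [if_neg (not_lt.2 hy.2)]
    rw [h4, zero_add]
    refine intervalIntegral.integral_congr_ae ?_
    filter_upwards with y hy
    rw [Set.uIoc_of_le hx.2] at hy
    rw [if_pos hy.1]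
  have h2 : ∀ y ∈ Set.uIcc (0 : ℝ) 1, ∫ x in (0 : ℝ)..y, f x y = ∫ x in (0 : ℝ)..1, (if x < y then f x y else 0) := by
    intro y hy
    rw [Set.uIcc_of_le zero_le_one] at hy
    have hi : ∀ a b : ℝ, IntervalIntegrable (fun x => if x < y then f x y else 0) volume a b := by
      intro a b
      rw [intervalIntegrable_iff]
      have h3 : IntegrableOn (fun x => f x y) (Set.uIoc a b) :=
        ((hfy y).intervalIntegrable a b).def'
      have := h3.indicator (measurableSet_Iio (a := y))
      refine this.congr ?_
      filter_upwards with x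
      simp only [Set.indicator, Set.mem_Iio]
    rw [← intervalIntegral.integral_add_adjacent_intervals (hi 0 y) (hi y 1)]
    have h4 : ∫ x in y..(1 : ℝ), (if x < y then f x y else 0) = 0 := by
      rw [intervalIntegral.integral_zero_ae]
      filter_upwards with x hx
      rw [Set.uIoc_of_le hy.2] at hx
      rw [if_neg (not_lt.2 hx.1.le)]
    rw [h4, add_zero]
    refine intervalIntegral.integral_congr_ae ?_
    have hne : ∀ᵐ x : ℝ, x ≠ y := by
      rw [ae_iff]; simp
    filter_upwards [hne] with x hxy hx
    rw [Set.uIoc_of_le hy.1] at hx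
    rw [if_pos (lt_of_le_of_ne hx.2 hxy)]
  rw [intervalIntegral.integral_congr h1, intervalIntegral.integral_congr h2]
  refine intervalIntegral_intervalIntegral_swap ?_
  have := (io_rect _ hf 0 1 0 1).indicator hms
  refine this.congr ?_
  filter_upwards with p
  simp only [Set.indicator, Set.mem_ofPred_eq, Function.uncurry]

theorem hzc_dual (g : ℝ) (A B : Finset ℕ) (z : ℝ) : hzc g A B z = hzc g B A (1 - z) := by
  unfold hzc
  rw [swap_rect _ (kk_cont g A B)]
  have h1 : ∀ y, ∫ x in (0 : ℝ)..z, KK g A B x y = ∫ t in (1 - z)..1, KK g B A (1 - y) t := by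
    intro y
    have := intervalIntegral.integral_comp_sub_left (f := fun t => KK g B A (1 - y) t) (a := 0) (b := z) 1
    rw [sub_zero] at this
    rw [← this]
    exact intervalIntegral.integral_congr fun x _ => kk_dual g A B x y
  simp_rw [h1]
  have := intervalIntegral.integral_comp_sub_left
    (f := fun s => ∫ t in (1 - z)..1, KK g B A s t) (a := z) (b := 1) 1
  rw [sub_self] at this
  exact this

theorem hy_dual (g : ℝ) (A B : Finset ℕ) (z : ℝ) : hy g A B z = hx g B A (1 - z) := by
  unfold hy hx hYT hXT
  have := intervalIntegral.integral_comp_sub_left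
    (f := fun t => KK g B A (1 - z) t) (a := 0) (b := z) 1
  rw [sub_zero] at this
  refine Eq.trans ?_ this
  exact intervalIntegral.integral_congr fun x _ => kk_dual g A B x z

theorem zz_dual (g : ℝ) (A B : Finset ℕ) : ZZ g A B = ZZ g B A := by
  unfold ZZ ZT
  change ∫ x in (0 : ℝ)..1, ∫ y in x..1, KK g A B x y = ∫ x in (0 : ℝ)..1, ∫ y in x..1, KK g B A x y
  rw [swap_tri _ (kk_cont g A B)]
  have h1 : ∀ y, ∫ x in (0 : ℝ)..y, KK g A B x y = ∫ t in (1 - y)..1, KK g B A (1 - y) t := by
    intro y
    have := intervalIntegral.integral_comp_sub_left (f := fun t => KK g B A (1 - y) t) (a := 0) (b := y) 1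
    rw [sub_zero] at this
    rw [← this]
    exact intervalIntegral.integral_congr fun x _ => kk_dual g A B x y
  simp_rw [h1]
  have := intervalIntegral.integral_comp_sub_left
    (f := fun s => ∫ t in s..1, KK g B A s t) (a := 0) (b := 1) 1
  rw [sub_self, sub_zero] at this
  exact this

theorem sign_meas : Measurable Real.sign := by
  unfold Real.sign
  refine Measurable.ite (measurableSet_lt measurable_id measurable_const) measurable_const ?_
  exact Measurable.ite (measurableSet_lt measurable_const measurable_id) measurable_const measurable_const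

theorem sign_abs (x : ℝ) : |Real.sign x| ≤ 1 := by
  rcases Real.sign_apply_eq x with h | h | h <;> rw [h] <;> simp

theorem ww_dual (h h' : ℝ → ℝ) : WW (fun z => h (1 - z)) (fun z => h' (1 - z)) = - WW h h' := by
  unfold WW
  have h1 : ∀ z, ∫ z' in (0 : ℝ)..1, Real.sign (z' - z) * h (1 - z) * h' (1 - z') =
      - ∫ t in (0 : ℝ)..1, Real.sign (t - (1 - z)) * h (1 - z) * h' t := by
    intro z
    have := intervalIntegral.integral_comp_sub_left
      (f := fun t => Real.sign (t - (1 - z)) * h (1 - z) * h' t) (a := 0) (b := 1) 1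
    rw [sub_self, sub_zero] at this
    rw [← this, ← intervalIntegral.integral_neg]
    refine intervalIntegral.integral_congr fun t _ => ?_
    have h3 : Real.sign (t - z) = - Real.sign (1 - t - (1 - z)) := by
      rw [← Real.sign_neg]; congr 1; ring
    simp only [h3]; ring
  simp_rw [h1, intervalIntegral.integral_neg]
  congr 1
  have := intervalIntegral.integral_comp_sub_left
    (f := fun s => ∫ t in (0 : ℝ)..1, Real.sign (t - s) * h s * h' t) (a := 0) (b := 1) 1
  rw [sub_self, sub_zero] at this
  exact this

theorem ww_swap (h h' : ℝ → ℝ) (hm : Measurable h) (hm' : Measurable h') (hb : ∃ C, ∀ z, |h z| ≤ C)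
    (hb' : ∃ C, ∀ z, |h' z| ≤ C) : WW h h' = - WW h' h := by
  obtain ⟨C, hC⟩ := hb
  obtain ⟨C', hC'⟩ := hb'
  unfold WW
  rw [intervalIntegral_intervalIntegral_swap, ← intervalIntegral.integral_neg]
  · refine intervalIntegral.integral_congr fun w _ => ?_
    rw [← intervalIntegral.integral_neg]
    refine intervalIntegral.integral_congr fun v _ => ?_
    have h3 : Real.sign (w - v) = - Real.sign (v - w) := by
      rw [← Real.sign_neg]; congr 1; ring
    simp only [h3]; ring
  · refine Measure.integrableOn_of_bounded (M := C * C') ?_ ?_ ?_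
    · rw [Measure.volume_eq_prod, Measure.prod_prod]
      simp
    · refine Measurable.aestronglyMeasurable ?_
      unfold Function.uncurry
      exact ((sign_meas.comp (measurable_snd.sub measurable_fst)).mul (hm.comp measurable_fst)).mul
        (hm'.comp measurable_snd)
    · filter_upwards with p
      simp only [Function.uncurry, Real.norm_eq_abs, abs_mul]
      have h0 : 0 ≤ C := (abs_nonneg _).trans (hC 0)
      calc |Real.sign (p.2 - p.1)| * |h p.1| * |h' p.2| ≤ 1 * C * C' := by
            refine mul_le_mul (mul_le_mul (sign_abs _) (hC _) (abs_nonneg _) zero_le_one) (hC' _)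
              (abs_nonneg _) (by linarith)
        _ = C * C' := by ring

end DUAL

theorem dual : S_DUAL := by
  refine ⟨DUAL.kk_dual, DUAL.hzc_dual, ?_, DUAL.hy_dual, DUAL.zz_dual, DUAL.ww_dual, DUAL.ww_swap⟩
  intro g A B p q z
  unfold hz hZT
  have h1 : (g * p ≤ z ∧ z ≤ 1 - g * q) ↔ (g * q ≤ 1 - z ∧ 1 - z ≤ 1 - g * p) := by
    constructor
    · rintro ⟨h1, h2⟩; constructor <;> linarith
    · rintro ⟨h1, h2⟩; constructor <;> linarith
  by_cases h : g * p ≤ z ∧ z ≤ 1 - g * q
  · rw [if_pos h, if_pos (h1.1 h)]
    exact DUAL.hzc_dual g A B z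
  · rw [if_neg h, if_neg (fun h2 => h (h1.2 h2))]

end Pool.Agent.H34.RK
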