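import Pool.Agent.H34.RK.Stm1

set_option autoImplicit false

open Finset

namespace Pool.Agent.H34.RK

namespace ES

/-- iterated differences -/
def dl : ℕ → (ℝ → ℝ) → ℝ → ℝ
  | 0, f, x => f x
  | r + 1, f, x => dl r f (x + 1) - dl r f x

theorem dl_add (r : ℕ) (f g : ℝ → ℝ) : ∀ x, dl r (fun y => f y + g y) x = dl r f x + dl r g x := by
  induction r with
  | zero => intro x; rfl
  | succ r ih =>
    intro x
    simp only [dl, ih]
    ring

theorem dl_zero (r : ℕ) : ∀ x, dl r (fun _ => 0) x = 0 := by
  induction r with
  | zero => intro x; rfl
  | succ r ih =>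
    intro x
    simp only [dl, ih]
    ring

theorem dl_one (r : ℕ) : ∀ x, dl (r + 1) (fun _ => 1) x = 0 := by
  induction r with
  | zero => intro x; simp [dl]
  | succ r ih =>
    intro x
    rw [dl, ih, ih]
    ring

theorem dl_shift (r : ℕ) (f : ℝ → ℝ) : ∀ x, dl r (fun y => f (y + 1)) x = dl r f (x + 1) := by
  induction r with
  | zero => intro x; rfl
  | succ r ih =>
    intro x
    simp only [dl, ih]

theorem dl_mul (r : ℕ) (f : ℝ → ℝ) : ∀ x, dl (r + 1) (fun y => y * f y) x =
    x * dl (r + 1) f x + (r + 1) * dl r f (x + 1) := by
  induction r with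
  | zero =>
    intro x
    simp only [dl]
    push_cast
    ring
  | succ r ih =>
    intro x
    rw [dl, ih, ih]
    have e1 : dl (r + 1 + 1) f x = dl (r + 1) f (x + 1) - dl (r + 1) f x := rfl
    have e2 : dl (r + 1) f (x + 1) = dl r f (x + 1 + 1) - dl r f (x + 1) := rfl
    rw [e1, e2]
    push_cast
    ring

theorem ord_congr {k : ℕ} {f g : List (Fin 3) → ℝ} (h : ∀ w, f w = g w) (hf : Ord k f) : Ord k g := by
  have : f = g := funext h
  rw [← this]
  exact hf

theorem ord_zero (k : ℕ) : Ord k (fun _ => 0) := by
  induction k with
  | zero => intro w; rfl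
  | succ k ih =>
    intro b
    exact ord_congr (fun w => by ring) ih

theorem ord_add {k : ℕ} : ∀ {f g : List (Fin 3) → ℝ}, Ord k f → Ord k g → Ord k (fun w => f w + g w) := by
  induction k with
  | zero =>
    intro f g hf hg w
    simp only [hf w, hg w, add_zero]
  | succ k ih =>
    intro f g hf hg b
    exact ord_congr (fun w => by ring) (ih (hf b) (hg b))

theorem ord_smul {k : ℕ} (c : ℝ) : ∀ {f : List (Fin 3) → ℝ}, Ord k f → Ord k (fun w => c * f w) := by
  induction k with
  | zero =>
    intro f hf w
    simp only [hf w, mul_zero]
  | succ k ih =>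
    intro f hf b
    exact ord_congr (fun w => by ring) (ih (hf b))

theorem ord_succ {k : ℕ} : ∀ {f : List (Fin 3) → ℝ}, Ord k f → Ord (k + 1) f := by
  induction k with
  | zero =>
    intro f hf b w
    have h0 : ∀ w, f w = 0 := hf
    simp only [h0, sub_zero]
  | succ k ih =>
    intro f hf b
    exact ih (hf b)

theorem ord_mono {k l : ℕ} (h : k ≤ l) {f : List (Fin 3) → ℝ} (hf : Ord k f) : Ord l f := by
  induction l, h using Nat.le_induction with
  | base => exact hf
  | succ n _ ih => exact ord_succ ih

theorem ord_cons {k : ℕ} {f : List (Fin 3) → ℝ} (hf : Ord k f) (b : Fin 3) :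
    Ord k (fun w => f (b :: w)) := by
  have h : Ord k (fun w => f (b :: w) - f w) := by
    cases k with
    | zero =>
      have h0 : ∀ w, f w = 0 := hf
      intro w
      simp only [h0, sub_zero]
    | succ k => exact ord_succ (hf b)
  exact ord_congr (fun w => by ring) (ord_add h hf)

theorem ord_append {k : ℕ} (p : List (Fin 3)) : ∀ {f : List (Fin 3) → ℝ}, Ord k f →
    Ord k (fun w => f (p ++ w)) := by
  induction p with
  | nil => intro f hf; exact hf
  | cons b p ih =>
    intro f hf
    exact ih (f := fun w => f (b :: w)) (ord_cons hf b)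

/-- `es` has degree `≤ j` in `x` -/
theorem van (j : ℕ) : ∀ (w : List (Fin 3)) (r : ℕ), j + 1 ≤ r → ∀ x, dl r (fun y => es w y j) x = 0 := by
  induction j with
  | zero =>
    intro w r hr x
    obtain ⟨r', rfl⟩ : ∃ r', r = r' + 1 := ⟨r - 1, by omega⟩
    have : (fun y => es w y 0) = fun _ => 1 := by
      funext y
      cases w <;> rfl
    rw [this, dl_one]
  | succ j ihj =>
    intro w
    induction w with
    | nil =>
      intro r hr x
      have : (fun y => es [] y (j + 1)) = fun _ => 0 := by
        funext y
        rfl
      rw [this, dl_zero]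
    | cons b w ihw =>
      intro r hr x
      obtain ⟨r', rfl⟩ : ∃ r', r = r' + 1 := ⟨r - 1, by omega⟩
      have e1 : (fun y => es (b :: w) y (j + 1)) = fun y => es w (y + 1) (j + 1) +
          (if b = 1 then y * es w (y + 1) j else 0) := by
        funext y
        rfl
      rw [e1, dl_add (r' + 1) (fun y => es w (y + 1) (j + 1))
        (fun y => if b = 1 then y * es w (y + 1) j else 0),
        dl_shift (r' + 1) (fun y => es w y (j + 1)), ihw (r' + 1) hr]
      by_cases hb : b = 1
      · simp only [hb, if_true]
        rw [dl_mul r' (fun y => es w (y + 1) j), dl_shift (r' + 1) (fun y => es w y j),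
          dl_shift r' (fun y => es w y j), ihj w (r' + 1) (by omega), ihj w r' (by omega)]
        ring
      · simp only [hb, if_false]
        rw [dl_zero]
        ring

theorem main (j : ℕ) : ∀ (m r : ℕ), j + 1 ≤ r + m → ∀ x,
    Ord (2 * j + 1 - r) (fun w => dl r (fun y => es w y j) x) := by
  induction j with
  | zero =>
    intro m r _ x
    have h1 : ∀ w, (fun y => es w y 0) = fun _ => 1 := by
      intro w
      funext y
      cases w <;> rfl
    simp only [h1]
    cases r with
    | zero =>
      intro b w
      simp [dl]
    | succ r =>
      simp only [dl_one]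
      exact ord_zero _
  | succ j ihj =>
    intro m
    induction m with
    | zero =>
      intro r hr x
      have : ∀ w, dl r (fun y => es w y (j + 1)) x = 0 := fun w => van (j + 1) w r (by omega) x
      simp only [this]
      exact ord_zero _
    | succ m ihm =>
      intro r hr x
      by_cases hrj : j + 2 ≤ r
      · have : ∀ w, dl r (fun y => es w y (j + 1)) x = 0 := fun w => van (j + 1) w r (by omega) x
        simp only [this]
        exact ord_zero _
      have hk : 2 * (j + 1) + 1 - r = (2 * (j + 1) + 1 - (r + 1)) + 1 := by omega
      rw [hk]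
      intro b
      have hD := ihm (r + 1) (by omega) x
      -- the extra term
      have hE : Ord (2 * (j + 1) + 1 - (r + 1)) (fun w =>
          dl r (fun y => if b = 1 then y * es w (y + 1) j else 0) x) := by
        by_cases hb : b = 1
        · simp only [hb, if_true]
          cases r with
          | zero =>
            have h2 := ihj (j + 1) 0 (by omega) (x + 1)
            exact ord_mono (by omega) (ord_smul x h2)
          | succ r =>
            have h3 : ∀ w, dl (r + 1) (fun y => y * es w (y + 1) j) x =
                x * dl (r + 1) (fun y => es w y j) (x + 1) +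
                  ((r : ℝ) + 1) * dl r (fun y => es w y j) (x + 1 + 1) := by
              intro w
              rw [dl_mul r (fun y => es w (y + 1) j), dl_shift (r + 1) (fun y => es w y j),
                dl_shift r (fun y => es w y j)]
            simp only [h3]
            refine ord_add (ord_smul _ (ord_mono ?_ (ihj (j + 1) (r + 1) (by omega) (x + 1))))
              (ord_smul _ (ord_mono ?_ (ihj (j + 1) r (by omega) (x + 1 + 1))))
            · omega
            · omega
        · simp only [hb, if_false, dl_zero]
          exact ord_zero _
      refine ord_congr (fun w => ?_) (ord_add hD hE)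
      have e1 : (fun y => es (b :: w) y (j + 1)) = fun y => es w (y + 1) (j + 1) +
          (if b = 1 then y * es w (y + 1) j else 0) := by
        funext y
        rfl
      change dl (r + 1) (fun y => es w y (j + 1)) x + _ =
        dl r (fun y => es (b :: w) y (j + 1)) x - dl r (fun y => es w y (j + 1)) x
      rw [e1, dl_add r (fun y => es w (y + 1) (j + 1))
        (fun y => if b = 1 then y * es w (y + 1) j else 0),
        dl_shift r (fun y => es w y (j + 1))]
      simp only [dl]
      ring

end ES

theorem es_ : S_ES := by
  intro x j
  exact ES.main j (j + 1) 0 (by omega) x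

end Pool.Agent.H34.RK
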