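import Pool.Agent.H34.RK.Stm1

set_option autoImplicit false

open Finset MeasureTheory

namespace Pool.Agent.H34.RK

namespace KI

/-- the integral of a power of the positive part -/
theorem J0 (k : ℕ) (hk : 1 ≤ k) (q : ℝ) :
    (∫ x in (0 : ℝ)..q, (max x 0) ^ k) = (max q 0) ^ (k + 1) / (k + 1) := by
  rcases le_total 0 q with hq | hq
  · have h1 : (∫ x in (0 : ℝ)..q, (max x 0) ^ k) = ∫ x in (0 : ℝ)..q, x ^ k := by
      refine intervalIntegral.integral_congr fun x hx => ?_
      rw [Set.uIcc_of_le hq] at hx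
      rw [max_eq_left hx.1]
    rw [h1, integral_pow, max_eq_left hq]
    simp
  · have h1 : (∫ x in (0 : ℝ)..q, (max x 0) ^ k) = ∫ x in (0 : ℝ)..q, (0 : ℝ) := by
      refine intervalIntegral.integral_congr fun x hx => ?_
      rw [Set.uIcc_of_ge hq] at hx
      rw [max_eq_right hx.2, zero_pow (by omega)]
    rw [h1, max_eq_right hq]
    simp

theorem J1 (k : ℕ) (hk : 1 ≤ k) (b s t : ℝ) :
    (∫ v in s..t, (max (b - v) 0) ^ k) =
      (max (b - s) 0) ^ (k + 1) / (k + 1) - (max (b - t) 0) ^ (k + 1) / (k + 1) := by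
  have h1 := intervalIntegral.integral_comp_sub_left (a := s) (b := t)
    (fun x : ℝ => (max x 0) ^ k) b
  rw [h1]
  have hc : Continuous (fun x : ℝ => (max x 0) ^ k) := by fun_prop
  rw [← intervalIntegral.integral_interval_sub_left (hc.intervalIntegrable 0 (b - s))
    (hc.intervalIntegrable 0 (b - t)), J0 k hk, J0 k hk]

/-- the inner integral -/
theorem inner (k : ℕ) (hk : 1 ≤ k) (b R v c : ℝ) (hb : b ≤ R) (hv0 : 0 ≤ v) (hvR : v ≤ R) :
    (∫ v' in (0 : ℝ)..R, Real.sign (v' - v) * c * (max (b - v') 0) ^ k) =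
      c * (2 * ((max (b - v) 0) ^ (k + 1) / (k + 1)) - (max b 0) ^ (k + 1) / (k + 1)) := by
  have hc : Continuous (fun x : ℝ => c * (max (b - x) 0) ^ k) := by fun_prop
  have hcn : Continuous (fun x : ℝ => -(c * (max (b - x) 0) ^ k)) := by fun_prop
  have e1 : Set.EqOn (fun v' : ℝ => -(c * (max (b - v') 0) ^ k))
      (fun v' => Real.sign (v' - v) * c * (max (b - v') 0) ^ k) (Set.uIoo 0 v) := by
    intro x hx
    rw [Set.uIoo_of_le hv0] at hx
    simp only
    rw [Real.sign_of_neg (by linarith [hx.2])]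
    ring
  have e2 : Set.EqOn (fun v' : ℝ => c * (max (b - v') 0) ^ k)
      (fun v' => Real.sign (v' - v) * c * (max (b - v') 0) ^ k) (Set.uIoo v R) := by
    intro x hx
    rw [Set.uIoo_of_le hvR] at hx
    simp only
    rw [Real.sign_of_pos (by linarith [hx.1])]
    ring
  have i1 := (hcn.intervalIntegrable (μ := volume) 0 v).congr_uIoo e1
  have i2 := (hc.intervalIntegrable (μ := volume) v R).congr_uIoo e2
  rw [← intervalIntegral.integral_add_adjacent_intervals i1 i2,
    ← intervalIntegral.integral_congr_uIoo e1, ← intervalIntegral.integral_congr_uIoo e2,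
    intervalIntegral.integral_neg, intervalIntegral.integral_const_mul,
    intervalIntegral.integral_const_mul, J1 k hk, J1 k hk]
  have h0 : max (b - R) 0 = 0 := max_eq_right (by linarith)
  rw [h0, zero_pow (by omega), sub_zero]
  ring

/-- powers of the positive part on the whole interval -/
theorem J2 (k : ℕ) (hk : 1 ≤ k) (a R : ℝ) (ha : 0 ≤ a) (haR : a ≤ R) :
    (∫ v in (0 : ℝ)..R, (max (a - v) 0) ^ k) = a ^ (k + 1) / (k + 1) := by
  rw [J1 k hk, sub_zero, max_eq_left ha, max_eq_right (by linarith), zero_pow (by omega)]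
  ring

end KI

theorem k1 : S_K1 := by
  intro a b R ha haR hb hbR
  have hR : 0 ≤ R := ha.trans haR
  have e1 : (∫ v in (0 : ℝ)..R, ∫ v' in (0 : ℝ)..R,
      Real.sign (v' - v) * max (a - v) 0 * max (b - v') 0) =
      ∫ v in (0 : ℝ)..R, max (a - v) 0 * (2 * ((max (b - v) 0) ^ (1 + 1) / ((1 : ℕ) + 1)) -
        (max b 0) ^ (1 + 1) / ((1 : ℕ) + 1)) := by
    refine intervalIntegral.integral_congr fun v hv => ?_
    rw [Set.uIcc_of_le hR] at hv
    have h1 := KI.inner 1 le_rfl b R v (max (a - v) 0) hbR hv.1 hv.2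
    simp only [pow_one] at h1
    exact h1
  rw [e1, max_eq_left hb]
  have j1 := KI.J2 1 le_rfl
  have j2 := KI.J2 2 (by norm_num)
  have j3 := KI.J2 3 (by norm_num)
  have c1 : ∀ (x : ℝ) (k : ℕ), Continuous (fun v : ℝ => (max (x - v) 0) ^ k) := fun x k => by fun_prop
  rcases le_total b a with hab | hab
  · have e2 : (∫ v in (0 : ℝ)..R, max (a - v) 0 * (2 * ((max (b - v) 0) ^ (1 + 1) / ((1 : ℕ) + 1)) -
        b ^ (1 + 1) / ((1 : ℕ) + 1))) = ∫ v in (0 : ℝ)..R, ((a - b) * (max (b - v) 0) ^ 2 +
          (max (b - v) 0) ^ 3 - b ^ 2 / 2 * (max (a - v) 0) ^ 1) := by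
      refine intervalIntegral.integral_congr fun v _ => ?_
      push_cast
      rcases le_total v b with hv | hv
      · rw [max_eq_left (by linarith : (0 : ℝ) ≤ b - v), max_eq_left (by linarith : (0 : ℝ) ≤ a - v)]
        ring
      · rw [max_eq_right (by linarith : b - v ≤ 0)]
        ring
    rw [e2, intervalIntegral.integral_sub, intervalIntegral.integral_add,
      intervalIntegral.integral_const_mul, intervalIntegral.integral_const_mul,
      j1 a R ha haR, j2 b R hb hbR, j3 b R hb hbR]
    · rcases hab.lt_or_eq with h | h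
      · rw [Real.sign_of_neg (by linarith)]
        push_cast
        ring
      · rw [h, sub_self, Real.sign_zero]
        push_cast
        ring
    · exact ((c1 b 2).const_mul _).intervalIntegrable _ _
    · exact (c1 b 3).intervalIntegrable _ _
    · exact (((c1 b 2).const_mul _).add (c1 b 3)).intervalIntegrable _ _
    · exact ((c1 a 1).const_mul _).intervalIntegrable _ _
  · have e2 : (∫ v in (0 : ℝ)..R, max (a - v) 0 * (2 * ((max (b - v) 0) ^ (1 + 1) / ((1 : ℕ) + 1)) -
        b ^ (1 + 1) / ((1 : ℕ) + 1))) = ∫ v in (0 : ℝ)..R, (2 * (b - a) * (max (a - v) 0) ^ 2 +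
          (max (a - v) 0) ^ 3 + ((b - a) ^ 2 - b ^ 2 / 2) * (max (a - v) 0) ^ 1) := by
      refine intervalIntegral.integral_congr fun v _ => ?_
      push_cast
      rcases le_total v a with hv | hv
      · rw [max_eq_left (by linarith : (0 : ℝ) ≤ b - v), max_eq_left (by linarith : (0 : ℝ) ≤ a - v)]
        ring
      · rw [max_eq_right (by linarith : a - v ≤ 0)]
        ring
    rw [e2, intervalIntegral.integral_add, intervalIntegral.integral_add,
      intervalIntegral.integral_const_mul, intervalIntegral.integral_const_mul,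
      j1 a R ha haR, j2 a R ha haR, j3 a R ha haR]
    · rcases hab.lt_or_eq with h | h
      · rw [Real.sign_of_pos (by linarith)]
        push_cast
        ring
      · rw [h, sub_self, Real.sign_zero]
        push_cast
        ring
    · exact ((c1 a 2).const_mul _).intervalIntegrable _ _
    · exact (c1 a 3).intervalIntegrable _ _
    · exact (((c1 a 2).const_mul _).add (c1 a 3)).intervalIntegrable _ _
    · exact ((c1 a 1).const_mul _).intervalIntegrable _ _

end Pool.Agent.H34.RK
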