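import Pool.Agent.H34.RK.Stm2

set_option autoImplicit false

open Finset

namespace Pool.Agent.H34.RK

namespace TAY

/-- the partial sums of the binomial expansion -/
noncomputable def S (x y : ℝ) (k n : ℕ) : ℝ := ∑ i ∈ range k, (n.choose i : ℝ) * y ^ (n - i) * (-x) ^ i

theorem S_rec (x y : ℝ) (n : ℕ) : ∀ k, S x y (k + 1) (n + 1) = y * S x y (k + 1) n - x * S x y k n := by
  intro k
  induction k with
  | zero =>
    simp [S, pow_succ]
    ring
  | succ k ih =>
    have e1 : S x y (k + 1 + 1) (n + 1) = S x y (k + 1) (n + 1) +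
        ((n + 1).choose (k + 1) : ℝ) * y ^ (n + 1 - (k + 1)) * (-x) ^ (k + 1) := by
      unfold S
      rw [sum_range_succ]
    have e2 : S x y (k + 1 + 1) n = S x y (k + 1) n +
        (n.choose (k + 1) : ℝ) * y ^ (n - (k + 1)) * (-x) ^ (k + 1) := by
      unfold S
      rw [sum_range_succ]
    have e3 : S x y (k + 1) n = S x y k n + (n.choose k : ℝ) * y ^ (n - k) * (-x) ^ k := by
      unfold S
      rw [sum_range_succ]
    rw [e1, ih, e2]
    have e4 : n + 1 - (k + 1) = n - k := by omega
    rw [e4, Nat.choose_succ_succ]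
    have e5 : (n.choose (k + 1) : ℝ) * y ^ (n - k) = (n.choose (k + 1) : ℝ) * (y * y ^ (n - (k + 1))) := by
      rcases Nat.lt_or_ge n (k + 1) with h | h
      · rw [Nat.choose_eq_zero_of_lt h]
        simp
      · have : n - k = (n - (k + 1)) + 1 := by omega
        rw [this, pow_succ']
    have e6 : (((n.choose k + n.choose (k + 1) : ℕ)) : ℝ) * y ^ (n - k) * (-x) ^ (k + 1) =
        (n.choose k : ℝ) * y ^ (n - k) * (-x) ^ (k + 1) +
          (n.choose (k + 1) : ℝ) * (y * y ^ (n - (k + 1))) * (-x) ^ (k + 1) := by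
      rw [← e5]
      push_cast
      ring
    rw [Nat.succ_eq_add_one, e6, e3]
    ring

theorem bound (x y : ℝ) (hx : 0 ≤ x) (hx1 : x ≤ 1) (hy : 0 ≤ y) (hy1 : y ≤ 1) (n : ℕ) :
    ∀ k, |(y - x) ^ n - S x y k n| ≤ n.choose k * x ^ k := by
  induction n with
  | zero =>
    intro k
    cases k with
    | zero => simp [S]
    | succ k =>
      have : S x y (k + 1) 0 = 1 := by
        unfold S
        rw [sum_range_succ']
        simp
      rw [this]
      simp
  | succ n ih =>
    intro k
    cases k with
    | zero =>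
      have : |y - x| ≤ 1 := by
        rw [abs_le]
        constructor <;> linarith
      simp only [S, range_zero, sum_empty, sub_zero, Nat.choose_zero_right, Nat.cast_one, pow_zero,
        mul_one, abs_pow]
      exact pow_le_one₀ (abs_nonneg _) this
    | succ k =>
      rw [S_rec]
      have e1 : (y - x) ^ (n + 1) - (y * S x y (k + 1) n - x * S x y k n) =
          y * ((y - x) ^ n - S x y (k + 1) n) - x * ((y - x) ^ n - S x y k n) := by ring
      rw [e1]
      calc |y * ((y - x) ^ n - S x y (k + 1) n) - x * ((y - x) ^ n - S x y k n)|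
          ≤ |y * ((y - x) ^ n - S x y (k + 1) n)| + |x * ((y - x) ^ n - S x y k n)| := abs_sub _ _
        _ = y * |(y - x) ^ n - S x y (k + 1) n| + x * |(y - x) ^ n - S x y k n| := by
            rw [abs_mul, abs_mul, abs_of_nonneg hy, abs_of_nonneg hx]
        _ ≤ 1 * (n.choose (k + 1) * x ^ (k + 1)) + x * (n.choose k * x ^ k) := by
            gcongr
            · exact ih (k + 1)
            · exact ih k
        _ = _ := by
            rw [Nat.choose_succ_succ]
            push_cast
            ring

end TAY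

theorem tay : S_TAY := by
  intro n x y _ hx hx1 hy hy1
  have h := TAY.bound x y hx hx1 hy hy1 n 7
  refine h.trans ?_
  have : (n.choose 7 : ℝ) ≤ (n : ℝ) ^ 7 := by exact_mod_cast Nat.choose_le_pow n 7
  gcongr

end Pool.Agent.H34.RK
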