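import Pool.Agent.H34.RK.Zb
import Pool.Agent.H34.RK.K1
import Pool.Agent.H34.RK.Tay

set_option autoImplicit false

open Finset MeasureTheory

namespace Pool.Agent.H34.RK

namespace EX

theorem lemU (γ : ℕ → ℝ) (s : ℝ) (hs0 : 0 ≤ s) (hs1 : s ≤ 1) (A : Finset ℕ) :
    (∀ l ∈ A, 0 ≤ γ l ∧ γ l ≤ s) →
    |∏ l ∈ A, (s - γ l) - (s ^ A.card - s ^ (A.card - 1) * ∑ l ∈ A, γ l)| ≤ (∑ l ∈ A, γ l) ^ 2 := by
  classical
  induction A using Finset.induction_on with
  | empty => intro _; simp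
  | insert a A ha ih =>
    intro h
    have ih' := ih fun l hl => h l (mem_insert_of_mem hl)
    obtain ⟨ha0, ha1⟩ := h a (mem_insert_self a A)
    rw [prod_insert ha, sum_insert ha, card_insert_of_notMem ha]
    set Γ := ∑ l ∈ A, γ l with hΓ
    have hΓ0 : 0 ≤ Γ := sum_nonneg fun l hl => (h l (mem_insert_of_mem hl)).1
    set e := ∏ l ∈ A, (s - γ l) - (s ^ A.card - s ^ (A.card - 1) * Γ) with he
    have hz : Γ * (s ^ A.card - s * s ^ (A.card - 1)) = 0 := by
      rcases Nat.eq_zero_or_pos A.card with h0 | h0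
      · have : A = ∅ := card_eq_zero.1 h0
        rw [hΓ, this]
        simp
      · have : s ^ A.card = s * s ^ (A.card - 1) := by
          rw [← pow_succ']
          congr 1
          omega
        rw [this]
        ring
    have e1 : (s - γ a) * ∏ l ∈ A, (s - γ l) - (s ^ (A.card + 1) - s ^ (A.card + 1 - 1) * (γ a + Γ)) =
        (s - γ a) * e + γ a * s ^ (A.card - 1) * Γ + Γ * (s ^ A.card - s * s ^ (A.card - 1)) := by
      rw [he, Nat.add_sub_cancel, pow_succ]
      ring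
    rw [e1, hz, add_zero]
    have hp0 : 0 ≤ s ^ (A.card - 1) := pow_nonneg hs0 _
    have hp1 : s ^ (A.card - 1) ≤ 1 := pow_le_one₀ hs0 hs1
    calc |(s - γ a) * e + γ a * s ^ (A.card - 1) * Γ| ≤
        |(s - γ a) * e| + |γ a * s ^ (A.card - 1) * Γ| := abs_add_le _ _
      _ = (s - γ a) * |e| + γ a * s ^ (A.card - 1) * Γ := by
          rw [abs_mul, abs_of_nonneg (by linarith : 0 ≤ s - γ a),
            abs_of_nonneg (mul_nonneg (mul_nonneg ha0 hp0) hΓ0)]
      _ ≤ 1 * Γ ^ 2 + γ a * 1 * Γ := by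
          gcongr
          linarith
      _ ≤ (γ a + Γ) ^ 2 := by nlinarith [mul_nonneg ha0 hΓ0, mul_nonneg ha0 ha0]

theorem lemT (γ : ℕ → ℝ) (s : ℝ) (hs0 : 0 ≤ s) (hs1 : s ≤ 1) (A : Finset ℕ) (b : ℕ)
    (hγ : ∀ l ∈ A, 0 ≤ γ l) (hab : 2 ≤ A.card + b) :
    |(∏ l ∈ A, max (s - γ l) 0) * s ^ b -
      (s ^ (A.card + b) - s ^ (A.card + b - 1) * ∑ l ∈ A, γ l)| ≤ (∑ l ∈ A, γ l) ^ 2 := by
  set Γ := ∑ l ∈ A, γ l with hΓ
  have hΓ0 : 0 ≤ Γ := sum_nonneg hγ
  by_cases h : ∀ l ∈ A, γ l ≤ s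
  · have h1 := lemU γ s hs0 hs1 A fun l hl => ⟨hγ l hl, h l hl⟩
    have h2 : ∏ l ∈ A, max (s - γ l) 0 = ∏ l ∈ A, (s - γ l) :=
      prod_congr rfl fun l hl => max_eq_left (by linarith [h l hl])
    rw [h2]
    have h3 : (∏ l ∈ A, (s - γ l)) * s ^ b - (s ^ (A.card + b) - s ^ (A.card + b - 1) * Γ) =
        s ^ b * (∏ l ∈ A, (s - γ l) - (s ^ A.card - s ^ (A.card - 1) * Γ)) := by
      rcases Nat.eq_zero_or_pos A.card with h0 | h0
      · have hA : A = ∅ := card_eq_zero.1 h0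
        have : Γ = 0 := by rw [hΓ, hA]; simp
        rw [this, pow_add]
        ring
      · have : A.card + b - 1 = (A.card - 1) + b := by omega
        rw [this, pow_add, pow_add]
        ring
    rw [h3, abs_mul, abs_of_nonneg (pow_nonneg hs0 b)]
    calc s ^ b * |∏ l ∈ A, (s - γ l) - (s ^ A.card - s ^ (A.card - 1) * Γ)| ≤ 1 * Γ ^ 2 := by
          gcongr
          exact pow_le_one₀ hs0 hs1
      _ = Γ ^ 2 := one_mul _
  · push Not at h
    obtain ⟨l, hl, hls⟩ := h
    have h2 : ∏ l ∈ A, max (s - γ l) 0 = 0 := prod_eq_zero hl (max_eq_right (by linarith))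
    have h3 : γ l ≤ Γ := single_le_sum hγ hl
    have h4 : s ^ (A.card + b) = s ^ (A.card + b - 1) * s := by
      rw [← pow_succ]
      congr 1
      omega
    have h5 : s ^ (A.card + b - 1) ≤ s := pow_le_of_le_one hs0 hs1 (by omega)
    rw [h2, zero_mul, zero_sub, h4, abs_neg, ← mul_sub, abs_mul, abs_of_nonneg (pow_nonneg hs0 _),
      abs_of_nonpos (by linarith)]
    calc s ^ (A.card + b - 1) * -(s - Γ) ≤ Γ * Γ := by
          gcongr
          · linarith
          · linarith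
          · linarith
      _ = Γ ^ 2 := by ring

theorem lemV (γ : ℕ → ℝ) (s : ℝ) (hs0 : 0 ≤ s) (hs1 : s ≤ 1) (B : Finset ℕ) :
    (∀ l ∈ B, 0 ≤ γ l) → |∏ l ∈ B, max (s - γ l) 0 - s ^ B.card| ≤ ∑ l ∈ B, γ l := by
  classical
  induction B using Finset.induction_on with
  | empty => intro _; simp
  | insert a A ha ih =>
    intro h
    have ih' := ih fun l hl => h l (mem_insert_of_mem hl)
    have ha0 := h a (mem_insert_self a A)
    rw [prod_insert ha, sum_insert ha, card_insert_of_notMem ha, pow_succ']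
    have hm0 : 0 ≤ max (s - γ a) 0 := le_max_right _ _
    have hm1 : max (s - γ a) 0 ≤ 1 := max_le (by linarith) zero_le_one
    have hm2 : |max (s - γ a) 0 - s| ≤ γ a := by
      rcases le_total (s - γ a) 0 with h1 | h1
      · rw [max_eq_right h1, zero_sub, abs_neg, abs_of_nonneg hs0]
        linarith
      · rw [max_eq_left h1]
        have : s - γ a - s = -γ a := by ring
        rw [this, abs_neg, abs_of_nonneg ha0]
    have e1 : max (s - γ a) 0 * ∏ l ∈ A, max (s - γ l) 0 - s * s ^ A.card =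
        max (s - γ a) 0 * (∏ l ∈ A, max (s - γ l) 0 - s ^ A.card) +
          (max (s - γ a) 0 - s) * s ^ A.card := by ring
    rw [e1]
    calc _ ≤ |max (s - γ a) 0 * (∏ l ∈ A, max (s - γ l) 0 - s ^ A.card)| +
          |(max (s - γ a) 0 - s) * s ^ A.card| := abs_add_le _ _
      _ = max (s - γ a) 0 * |∏ l ∈ A, max (s - γ l) 0 - s ^ A.card| +
          |max (s - γ a) 0 - s| * s ^ A.card := by
          rw [abs_mul, abs_mul, abs_of_nonneg hm0, abs_of_nonneg (pow_nonneg hs0 A.card)]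
      _ ≤ 1 * (∑ l ∈ A, γ l) + γ a * 1 := by
          gcongr
          exact pow_le_one₀ hs0 hs1
      _ = _ := by ring

theorem kk_form (g : ℝ) (A B : Finset ℕ) (x y : ℝ) : KK g A B x y =
    (∏ l ∈ A, max ((y - x) - max (g * l - x) 0) 0) *
      ∏ l ∈ B, max ((y - x) - max (g * l - (1 - y)) 0) 0 := by
  unfold KK KT
  congr 1
  · refine prod_congr rfl fun l _ => ?_
    congr 1
    rcases le_total x (g * (l : ℝ)) with h | h
    · rw [max_eq_right h, max_eq_left (by linarith)]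
      ring
    · rw [max_eq_left h, max_eq_right (by linarith)]
      ring
  · refine prod_congr rfl fun l _ => ?_
    congr 1
    rcases le_total y (1 - g * (l : ℝ)) with h | h
    · rw [min_eq_left h, max_eq_right (by linarith)]
      ring
    · rw [min_eq_right h, max_eq_left (by linarith)]
      ring

/-- pointwise first order expansion -/
theorem point (g : ℝ) (A B : Finset ℕ) {x y : ℝ} (hx : 0 ≤ x) (hxy : x ≤ y) (hy : y ≤ 1)
    (hM : 2 ≤ A.card + B.card) :
    |KK g A B x y - ((y - x) ^ (A.card + B.card) - (y - x) ^ (A.card + B.card - 1) *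
      ∑ l ∈ A, max (g * l - x) 0)| ≤
      (∑ l ∈ A, max (g * l - x) 0) ^ 2 + ∑ l ∈ B, max (g * l - (1 - y)) 0 := by
  have hs0 : 0 ≤ y - x := by linarith
  have hs1 : y - x ≤ 1 := by linarith
  have h1 := lemT (fun l => max (g * l - x) 0) (y - x) hs0 hs1 A B.card
    (fun l _ => le_max_right _ _) hM
  have h2 := lemV (fun l => max (g * l - (1 - y)) 0) (y - x) hs0 hs1 B (fun l _ => le_max_right _ _)
  rw [kk_form]
  set P := ∏ l ∈ A, max ((y - x) - max (g * l - x) 0) 0 with hP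
  have hP0 : 0 ≤ P := prod_nonneg fun _ _ => le_max_right _ _
  have hP1 : P ≤ 1 := by
    calc P ≤ 1 ^ A.card := REG.prod_bd _ _ _ fun l => ⟨le_max_right _ _, max_le (by
            have : 0 ≤ max (g * (l : ℝ) - x) 0 := le_max_right _ _
            linarith) zero_le_one⟩
      _ = 1 := one_pow _
  set R := ∏ l ∈ B, max ((y - x) - max (g * l - (1 - y)) 0) 0 with hR
  set E := (y - x) ^ (A.card + B.card) - (y - x) ^ (A.card + B.card - 1) *
      ∑ l ∈ A, max (g * l - x) 0 with hE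
  have e1 : P * R - E = P * (R - (y - x) ^ B.card) + (P * (y - x) ^ B.card - E) := by ring
  rw [e1]
  calc _ ≤ |P * (R - (y - x) ^ B.card)| + |P * (y - x) ^ B.card - E| := abs_add_le _ _
    _ = P * |R - (y - x) ^ B.card| + |P * (y - x) ^ B.card - E| := by
        rw [abs_mul, abs_of_nonneg hP0]
    _ ≤ 1 * (∑ l ∈ B, max (g * l - (1 - y)) 0) + (∑ l ∈ A, max (g * l - x) 0) ^ 2 := by
        gcongr
    _ = _ := by ring

theorem int_beta (c x : ℝ) (hc : 0 ≤ c) : (∫ y in x..1, max (c - (1 - y)) 0) ≤ c ^ 2 / 2 := by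
  have h := intervalIntegral.integral_comp_sub_left (a := x) (b := 1)
    (fun t : ℝ => (max (c - t) 0) ^ 1) 1
  simp only [pow_one, sub_self] at h
  rw [h]
  have h2 := KI.J1 1 le_rfl c 0 (1 - x)
  simp only [pow_one] at h2
  rw [h2, sub_zero, max_eq_left hc]
  have : 0 ≤ max (c - (1 - x)) 0 ^ (1 + 1) / ((1 : ℕ) + 1 : ℝ) := by positivity
  push_cast at this ⊢
  linarith

end EX

theorem ex_ : S_REG → S_EX := by
  intro _ g L A B v hg hL hgL hA hB hM hv0 hvL
  obtain ⟨hL', h1, h2, h3⟩ := EXT.gl hg hL hgL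
  set M := A.card + B.card with hMdef
  set x := g * v with hxdef
  have hx0 : 0 ≤ x := by positivity
  have hxL : x ≤ g * L := by
    rw [hxdef]
    gcongr
  have hgl1 : g * L ≤ 1 / 2 := h3.trans (by norm_num)
  have hx1 : x ≤ 1 := by linarith
  have hAL : (A.card : ℝ) ≤ L := by exact_mod_cast ZB.card_le hA
  have hBL : (B.card : ℝ) ≤ L := by exact_mod_cast ZB.card_le hB
  have hMr : (M : ℝ) = A.card + B.card := by rw [hMdef]; push_cast; ring
  have hM30 : (30 : ℝ) ≤ M := by exact_mod_cast hM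
  set Γ := ∑ l ∈ A, max (g * l - x) 0 with hΓ
  have hΓ0 : 0 ≤ Γ := sum_nonneg fun _ _ => le_max_right _ _
  have hΓL : Γ ≤ L * (g * L) := by
    calc Γ ≤ ∑ _l ∈ A, g * L := by
          refine sum_le_sum fun l hl => max_le ?_ h2.le
          have : (l : ℝ) ≤ L := by exact_mod_cast (hA l hl).2
          have : g * (l : ℝ) ≤ g * L := by gcongr
          linarith
      _ = A.card * (g * L) := by simp
      _ ≤ L * (g * L) := by gcongr
  have hΓg : Γ = g * ∑ l ∈ A, max ((l : ℝ) - v) 0 := by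
    rw [hΓ, mul_sum]
    refine sum_congr rfl fun l _ => ?_
    rw [mul_max_of_nonneg _ _ hg.le, mul_zero, hxdef]
    congr 1
    ring
  -- step 1: the integral of the error
  have hs1 : |hx g A B x - ∫ y in x..1, ((y - x) ^ M - (y - x) ^ (M - 1) * Γ)| ≤
      Γ ^ 2 + B.card * ((g * L) ^ 2 / 2) := by
    have hhx : hx g A B x = ∫ y in x..1, KK g A B x y := rfl
    have c1 : Continuous fun y => KK g A B x y := REG.kk_cont' g A B continuous_const continuous_id
    have c2 : Continuous fun y : ℝ => (y - x) ^ M - (y - x) ^ (M - 1) * Γ := by fun_prop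
    have c3 : Continuous fun y : ℝ => Γ ^ 2 + ∑ l ∈ B, max (g * l - (1 - y)) 0 := by fun_prop
    rw [hhx, ← intervalIntegral.integral_sub (c1.intervalIntegrable _ _) (c2.intervalIntegrable _ _),
      ← Real.norm_eq_abs]
    refine (intervalIntegral.norm_integral_le_of_norm_le hx1
      (Filter.Eventually.of_forall fun y hy => ?_) (c3.intervalIntegrable _ _)).trans ?_
    · rw [Real.norm_eq_abs]
      exact EX.point g A B hx0 hy.1.le hy.2 (by omega)
    · have c4 : ∀ l ∈ B, IntervalIntegrable (fun y : ℝ => max (g * (l : ℝ) - (1 - y)) 0) volume x 1 :=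
        fun l _ => (by fun_prop : Continuous fun y : ℝ => max (g * (l : ℝ) - (1 - y)) 0).intervalIntegrable _ _
      rw [intervalIntegral.integral_add (continuous_const.intervalIntegrable _ _)
        ((by fun_prop : Continuous fun y : ℝ => ∑ l ∈ B, max (g * (l : ℝ) - (1 - y)) 0).intervalIntegrable _ _),
        intervalIntegral.integral_finsetSum c4, intervalIntegral.integral_const, smul_eq_mul]
      refine add_le_add ?_ ?_
      · calc (1 - x) * Γ ^ 2 ≤ 1 * Γ ^ 2 := by gcongr; linarith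
          _ = Γ ^ 2 := one_mul _
      · calc ∑ l ∈ B, (∫ y in x..1, max (g * (l : ℝ) - (1 - y)) 0) ≤ ∑ _l ∈ B, (g * L) ^ 2 / 2 := by
              refine sum_le_sum fun l hl => (EX.int_beta _ _ (by positivity)).trans ?_
              have : (l : ℝ) ≤ L := by exact_mod_cast (hB l hl).2
              gcongr
          _ = B.card * ((g * L) ^ 2 / 2) := by simp
  -- step 2: the main integral
  have hs2 : (∫ y in x..1, ((y - x) ^ M - (y - x) ^ (M - 1) * Γ)) =
      (1 - x) ^ (M + 1) / (M + 1) - (1 - x) ^ M / M * Γ := by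
    rw [intervalIntegral.integral_sub
      ((by fun_prop : Continuous fun y : ℝ => (y - x) ^ M).intervalIntegrable _ _)
      ((by fun_prop : Continuous fun y : ℝ => (y - x) ^ (M - 1) * Γ).intervalIntegrable _ _),
      intervalIntegral.integral_mul_const, ZB.int_pow_sub, ZB.int_pow_sub]
    have e : M - 1 + 1 = M := by omega
    have e' : ((M - 1 : ℕ) : ℝ) + 1 = M := by
      exact_mod_cast e
    rw [e, e']
  rw [hs2] at hs1
  -- step 3: the two powers
  have hs3 : |(1 - x) ^ (M + 1) / (M + 1) - (1 / ((M : ℝ) + 1) - x)| ≤ ((M : ℝ) + 1) * x ^ 2 := by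
    have hb := TAY.bound x 1 hx0 hx1 zero_le_one le_rfl (M + 1) 2
    have hS : TAY.S x 1 2 (M + 1) = 1 - (M + 1) * x := by
      unfold TAY.S
      simp [sum_range_succ]
      ring
    rw [hS] at hb
    have hc : ((M + 1).choose 2 : ℝ) ≤ ((M : ℝ) + 1) ^ 2 := by
      exact_mod_cast Nat.choose_le_pow (M + 1) 2
    have hp : (0 : ℝ) < (M : ℝ) + 1 := by positivity
    have e1 : (1 - x) ^ (M + 1) / (M + 1) - (1 / ((M : ℝ) + 1) - x) =
        ((1 - x) ^ (M + 1) - (1 - (M + 1) * x)) / (M + 1) := by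
      field_simp
    rw [e1, abs_div, abs_of_pos hp, div_le_iff₀ hp]
    calc _ ≤ ((M + 1).choose 2 : ℝ) * x ^ 2 := hb
      _ ≤ ((M : ℝ) + 1) ^ 2 * x ^ 2 := by gcongr
      _ = _ := by ring
  have hs4 : |(1 - x) ^ M / M * Γ - 1 / (M : ℝ) * Γ| ≤ x * Γ := by
    have hb := one_add_mul_le_pow (by linarith : (-2 : ℝ) ≤ -x) M
    have hb1 : (1 - x) ^ M ≤ 1 := pow_le_one₀ (by linarith) (by linarith)
    have hb2 : 1 - M * x ≤ (1 - x) ^ M := by
      have e : (1 + -x) ^ M = (1 - x) ^ M := by ring_nf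
      rw [e] at hb
      linarith
    have hp : (0 : ℝ) < M := by linarith
    have e1 : (1 - x) ^ M / M * Γ - 1 / (M : ℝ) * Γ = -((1 - (1 - x) ^ M) / M * Γ) := by ring
    rw [e1, abs_neg, abs_of_nonneg (by
      refine mul_nonneg (div_nonneg (by linarith) hp.le) hΓ0)]
    have : (1 - (1 - x) ^ M) / M ≤ x := by
      rw [div_le_iff₀ hp]
      linarith
    gcongr
  -- assembly
  have hfin : hx g A B x - (1 / ((M : ℝ) + 1) - x - g / M * ∑ l ∈ A, max ((l : ℝ) - v) 0) =
      (hx g A B x - ((1 - x) ^ (M + 1) / (M + 1) - (1 - x) ^ M / M * Γ)) +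
      ((1 - x) ^ (M + 1) / (M + 1) - (1 / ((M : ℝ) + 1) - x)) -
      ((1 - x) ^ M / M * Γ - 1 / (M : ℝ) * Γ) := by
    rw [hΓg]
    ring
  rw [hfin]
  have t1 : Γ ^ 2 ≤ g ^ 2 * L ^ 4 := by
    calc Γ ^ 2 ≤ (L * (g * L)) ^ 2 := by gcongr
      _ = g ^ 2 * L ^ 4 := by ring
  have t2 : (B.card : ℝ) * ((g * L) ^ 2 / 2) ≤ g ^ 2 * L ^ 4 := by
    calc (B.card : ℝ) * ((g * L) ^ 2 / 2) ≤ L * (g * L) ^ 2 := by
          have : 0 ≤ (g * L) ^ 2 := by positivity
          calc (B.card : ℝ) * ((g * L) ^ 2 / 2) ≤ L * ((g * L) ^ 2 / 2) := by gcongr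
            _ ≤ L * (g * L) ^ 2 := by
                gcongr
                linarith
      _ = g ^ 2 * L ^ 3 := by ring
      _ ≤ g ^ 2 * L ^ 4 := by
          gcongr
          · linarith
          · norm_num
  have t3 : ((M : ℝ) + 1) * x ^ 2 ≤ g ^ 2 * L ^ 4 := by
    calc ((M : ℝ) + 1) * x ^ 2 ≤ (L * L) * (g * L) ^ 2 := by
          gcongr
          rw [hMr]
          nlinarith
      _ = g ^ 2 * L ^ 4 := by ring
  have t4 : x * Γ ≤ g ^ 2 * L ^ 4 := by
    calc x * Γ ≤ (g * L) * (L * (g * L)) := by gcongr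
      _ = g ^ 2 * L ^ 3 := by ring
      _ ≤ g ^ 2 * L ^ 4 := by
          gcongr
          · linarith
          · norm_num
  calc _ ≤ |hx g A B x - ((1 - x) ^ (M + 1) / (M + 1) - (1 - x) ^ M / M * Γ)| +
        |(1 - x) ^ (M + 1) / (M + 1) - (1 / ((M : ℝ) + 1) - x)| +
        |(1 - x) ^ M / M * Γ - 1 / (M : ℝ) * Γ| :=
        (abs_sub _ _).trans (by gcongr; exact abs_add_le _ _)
    _ ≤ (g ^ 2 * L ^ 4 + g ^ 2 * L ^ 4) + g ^ 2 * L ^ 4 + g ^ 2 * L ^ 4 := by
        refine add_le_add (add_le_add (hs1.trans (add_le_add t1 t2)) (hs3.trans t3)) (hs4.trans t4)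
    _ = 4 * (g ^ 2 * L ^ 4) := by ring
    _ ≤ (L : ℝ) ^ 6 * (g ^ 2 * L ^ 4) := by
        gcongr
        calc (4 : ℝ) ≤ 100 ^ 6 := by norm_num
          _ ≤ (L : ℝ) ^ 6 := by gcongr
    _ = g ^ 2 * L ^ 10 := by ring

end Pool.Agent.H34.RK
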