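import Pool.Agent.H34.RK.Stm2

/-! # Project RK: EXPK, pointwise expansion of the weight (helper75) -/

set_option autoImplicit false

open Finset

namespace Pool.Agent.H34.RK

namespace ExpkAux

theorem esy_nonneg (A : Finset ℕ) (f : ℕ → ℝ) (hf : ∀ l ∈ A, 0 ≤ f l) (j : ℕ) : 0 ≤ esy A f j :=
  Finset.sum_nonneg fun _ ht => Finset.prod_nonneg fun l hl => hf l ((mem_powersetCard.1 ht).1 hl)

theorem esy_zero (A : Finset ℕ) (f : ℕ → ℝ) (j : ℕ) (h : A.card < j) : esy A f j = 0 := by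
  unfold esy
  rw [powersetCard_eq_empty.2 h, sum_empty]

theorem esy_le (A : Finset ℕ) (f : ℕ → ℝ) (c : ℝ) (n j : ℕ)
    (hf : ∀ l ∈ A, 0 ≤ f l ∧ f l ≤ c) (hn : A.card ≤ n) (hc : 0 ≤ c) :
    esy A f j ≤ (n * c) ^ j := by
  have h1 : esy A f j ≤ ∑ t ∈ A.powersetCard j, c ^ j := by
    refine Finset.sum_le_sum fun t ht => ?_
    obtain ⟨h1, h2⟩ := mem_powersetCard.1 ht
    rw [← h2, ← prod_const]
    exact prod_le_prod (fun l hl => (hf l (h1 hl)).1) fun l hl => (hf l (h1 hl)).2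
  refine h1.trans ?_
  rw [sum_const, card_powersetCard, nsmul_eq_mul, mul_pow]
  refine mul_le_mul_of_nonneg_right ?_ (pow_nonneg hc j)
  have h2 : A.card.choose j ≤ n ^ j :=
    (Nat.choose_le_pow A.card j).trans (Nat.pow_le_pow_left hn j)
  exact_mod_cast h2

theorem prod_expand (A : Finset ℕ) (f : ℕ → ℝ) (s : ℝ) :
    ∏ l ∈ A, (s - f l) = ∑ j ∈ range (A.card + 1), (-1) ^ j * s ^ (A.card - j) * esy A f j := by
  have h1 : ∏ l ∈ A, (s - f l) = ∏ l ∈ A, (-f l + s) := prod_congr rfl fun l _ => by ring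
  rw [h1, prod_add, sum_powerset]
  refine sum_congr rfl fun j hj => ?_
  unfold esy
  rw [mul_sum]
  refine sum_congr rfl fun t ht => ?_
  obtain ⟨h2, h3⟩ := mem_powersetCard.1 ht
  rw [prod_const, card_sdiff_of_subset h2, h3]
  have h4 : ∏ i ∈ t, (-f i) = (-1) ^ j * ∏ i ∈ t, f i := by
    rw [← h3, ← prod_const, ← prod_mul_distrib]
    exact prod_congr rfl fun l _ => by ring
  rw [h4]
  ring

theorem trunc (A : Finset ℕ) (f : ℕ → ℝ) (s c : ℝ) (n : ℕ) (hs : 0 ≤ s) (hs1 : s ≤ 1)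
    (hf : ∀ l ∈ A, 0 ≤ f l ∧ f l ≤ c) (hn : A.card ≤ n) (hc : 0 ≤ c) (hq : n * c ≤ 1 / 2) :
    |∏ l ∈ A, (s - f l) - ∑ j ∈ range 7, (-1) ^ j * s ^ (A.card - j) * esy A f j| ≤
      2 * (n * c) ^ 7 ∧
    |∑ j ∈ range 7, (-1) ^ j * s ^ (A.card - j) * esy A f j| ≤ 2 := by
  obtain ⟨q, hqd⟩ : ∃ q : ℝ, q = n * c := ⟨_, rfl⟩
  have hq0 : 0 ≤ q := by rw [hqd]; positivity
  rw [← hqd] at hq ⊢
  have hb : ∀ j, |(-1) ^ j * s ^ (A.card - j) * esy A f j| ≤ q ^ j := by
    intro j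
    have h1 := esy_nonneg A f (fun l hl => (hf l hl).1) j
    have h2 := esy_le A f c n j hf hn hc
    rw [abs_mul, abs_mul, abs_pow, abs_neg, abs_one, one_pow, one_mul,
      abs_of_nonneg (pow_nonneg hs _), abs_of_nonneg h1, hqd]
    have h3 : s ^ (A.card - j) ≤ 1 := pow_le_one₀ hs hs1
    nlinarith
  have hgeo : ∀ m k : ℕ, ∑ j ∈ Ico m k, |(-1) ^ j * s ^ (A.card - j) * esy A f j| ≤ 2 * q ^ m := by
    intro m k
    refine (sum_le_sum fun j _ => hb j).trans ?_
    refine (geom_sum_Ico_le_of_lt_one hq0 (by linarith)).trans ?_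
    rw [div_le_iff₀ (by linarith)]
    nlinarith [pow_nonneg hq0 m]
  constructor
  · obtain ⟨N, hN⟩ : ∃ N, N = max (A.card + 1) 7 := ⟨_, rfl⟩
    have h1 : ∏ l ∈ A, (s - f l) =
        ∑ j ∈ range N, (-1) ^ j * s ^ (A.card - j) * esy A f j := by
      rw [prod_expand]
      refine sum_subset (range_mono (by rw [hN]; exact le_max_left _ _)) fun j _ hj => ?_
      rw [mem_range, not_lt] at hj
      rw [esy_zero A f j (by omega), mul_zero]
    have h7 : 7 ≤ N := by rw [hN]; exact le_max_right _ _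
    rw [h1, ← sum_Ico_eq_sub _ h7]
    exact (abs_sum_le_sum_abs _ _).trans (hgeo 7 N)
  · rw [range_eq_Ico]
    refine (abs_sum_le_sum_abs _ _).trans ((hgeo 0 7).trans ?_)
    norm_num

theorem card_le (L : ℕ) (A : Finset ℕ) (h : Sub1 L A) : A.card ≤ L := by
  have h1 : A ⊆ Icc 1 L := fun l hl => mem_Icc.2 (h l hl)
  simpa using card_le_card h1

/-- product of the truncated sums -/
theorem prod_trunc (a b : ℕ) (A B : Finset ℕ) (f h : ℕ → ℝ) (s : ℝ) (ha : a = A.card)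
    (hb : b = B.card) :
    (∑ j ∈ range 7, (-1) ^ j * s ^ (a - j) * esy A f j) *
      (∑ j ∈ range 7, (-1) ^ j * s ^ (b - j) * esy B h j) =
    ∑ j ∈ range 7, ∑ j' ∈ range 7, (-1 : ℝ) ^ (j + j') * s ^ (a + b - j - j') * esy A f j *
      esy B h j' := by
  rw [sum_mul_sum]
  refine sum_congr rfl fun j _ => sum_congr rfl fun j' _ => ?_
  rcases lt_or_ge a j with h1 | h1
  · rw [esy_zero A f j (ha ▸ h1)]; ring
  rcases lt_or_ge b j' with h2 | h2
  · rw [esy_zero B h j' (hb ▸ h2)]; ring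
  have h3 : a + b - j - j' = (a - j) + (b - j') := by omega
  rw [h3, pow_add, pow_add]
  ring

end ExpkAux

open ExpkAux in
theorem expk : S_EXPK := by
  intro g L A B x y hg hL hgL hA hB hM hx hxy hy
  obtain ⟨s, hs⟩ : ∃ s, s = y - x := ⟨_, rfl⟩
  obtain ⟨b, hb⟩ : ∃ b, b = g * L := ⟨_, rfl⟩
  have hLR : (100 : ℝ) ≤ L := by exact_mod_cast hL
  have hL0 : (0 : ℝ) < L := by linarith
  have hb0 : 0 < b := by rw [hb]; positivity
  have hs0 : 0 ≤ s := by rw [hs]; linarith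
  have hs1 : s ≤ 1 := by rw [hs]; linarith
  have hL2 : (10000 : ℝ) ≤ (L : ℝ) ^ 2 := by nlinarith
  have hLb : (L : ℝ) * b ≤ 1 / 10000 := by
    have h1 : (L : ℝ) * b * (L : ℝ) ^ 2 = g * (L : ℝ) ^ 4 := by rw [hb]; ring
    have h2 : 0 ≤ (L : ℝ) * b := by positivity
    nlinarith
  have hb1 : b ≤ 1 / 1000000 := by nlinarith
  obtain ⟨α, hα⟩ : ∃ α : ℕ → ℝ, α = fun l : ℕ => max (g * (l : ℝ) - x) 0 := ⟨_, rfl⟩
  obtain ⟨β, hβ⟩ : ∃ β : ℕ → ℝ, β = fun l : ℕ => max (g * (l : ℝ) - (1 - y)) 0 := ⟨_, rfl⟩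
  have hgl : ∀ l : ℕ, l ≤ L → g * l ≤ b := by
    intro l hl
    rw [hb]
    have : (l : ℝ) ≤ L := by exact_mod_cast hl
    nlinarith
  have hα1 : ∀ l ∈ A, 0 ≤ α l ∧ α l ≤ b := by
    intro l hl
    rw [hα]
    exact ⟨le_max_right _ _, max_le (by have := hgl l (hA l hl).2; linarith) hb0.le⟩
  have hβ1 : ∀ l ∈ B, 0 ≤ β l ∧ β l ≤ b := by
    intro l hl
    rw [hβ]
    exact ⟨le_max_right _ _, max_le (by have := hgl l (hB l hl).2; linarith) hb0.le⟩
  have hK : KK g A B x y = (∏ l ∈ A, max (s - α l) 0) * ∏ l ∈ B, max (s - β l) 0 := by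
    unfold KK KT
    congr 1
    · refine prod_congr rfl fun l _ => ?_
      congr 1
      rw [hs, hα]
      rcases le_total (g * l) x with h | h
      · simp only [max_eq_left h, max_eq_right (sub_nonpos.2 h)]; ring
      · simp only [max_eq_right h, max_eq_left (sub_nonneg.2 h)]; ring
    · refine prod_congr rfl fun l _ => ?_
      congr 1
      rw [hs, hβ]
      rcases le_total y (1 - g * l) with h | h
      · have h' : g * l - (1 - y) ≤ 0 := by linarith
        simp only [min_eq_left h, max_eq_right h']; ring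
      · have h' : 0 ≤ g * l - (1 - y) := by linarith
        simp only [min_eq_right h, max_eq_left h']; ring
  rw [hK, ← hs, ← hα, ← hβ]
  have hcA := card_le L A hA
  have hcB := card_le L B hB
  have hpos : (0 : ℝ) < g ^ 7 * L ^ 30 := by positivity
  rcases le_or_gt b s with hbs | hbs
  · -- all factors are nonnegative
    have e1 : ∏ l ∈ A, max (s - α l) 0 = ∏ l ∈ A, (s - α l) :=
      prod_congr rfl fun l hl => max_eq_left (by have := (hα1 l hl).2; linarith)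
    have e2 : ∏ l ∈ B, max (s - β l) 0 = ∏ l ∈ B, (s - β l) :=
      prod_congr rfl fun l hl => max_eq_left (by have := (hβ1 l hl).2; linarith)
    rw [e1, e2]
    obtain ⟨t1, t2⟩ := trunc A α s b L hs0 hs1 hα1 hcA hb0.le (by linarith)
    obtain ⟨u1, u2⟩ := trunc B β s b L hs0 hs1 hβ1 hcB hb0.le (by linarith)
    rw [← prod_trunc A.card B.card A B α β s rfl rfl]
    obtain ⟨TA, hTA⟩ : ∃ TA, TA = ∑ j ∈ range 7, (-1) ^ j * s ^ (A.card - j) * esy A α j := ⟨_, rfl⟩
    obtain ⟨TB, hTB⟩ : ∃ TB, TB = ∑ j ∈ range 7, (-1) ^ j * s ^ (B.card - j) * esy B β j := ⟨_, rfl⟩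
    obtain ⟨PA, hPA⟩ : ∃ PA, PA = ∏ l ∈ A, (s - α l) := ⟨_, rfl⟩
    obtain ⟨PB, hPB⟩ : ∃ PB, PB = ∏ l ∈ B, (s - β l) := ⟨_, rfl⟩
    have hPA1 : |PA| ≤ 1 := by
      rw [hPA, abs_prod]
      refine prod_le_one (fun _ _ => abs_nonneg _) fun l hl => ?_
      have := hα1 l hl
      rw [abs_le]
      constructor <;> linarith
    rw [← hTA, ← hPA] at t1
    rw [← hTB, ← hPB] at u1
    rw [← hTB] at u2
    rw [← hTA, ← hTB, ← hPA, ← hPB]
    have e3 : PA * PB - TA * TB = PA * (PB - TB) + (PA - TA) * TB := by ring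
    rw [e3]
    have h7 : 0 ≤ ((L : ℝ) * b) ^ 7 := by positivity
    have h8 : |PA * (PB - TB)| ≤ 1 * (2 * ((L : ℝ) * b) ^ 7) := by
      rw [abs_mul]
      exact mul_le_mul hPA1 u1 (abs_nonneg _) (by norm_num)
    have h9 : |(PA - TA) * TB| ≤ (2 * ((L : ℝ) * b) ^ 7) * 2 := by
      rw [abs_mul]
      exact mul_le_mul t1 u2 (abs_nonneg _) (by positivity)
    have h10 : ((L : ℝ) * b) ^ 7 = g ^ 7 * (L : ℝ) ^ 14 := by rw [hb]; ring
    have h11 : 6 * (g ^ 7 * (L : ℝ) ^ 14) ≤ g ^ 7 * L ^ 30 := by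
      have h12 : (6 : ℝ) ≤ (L : ℝ) ^ 16 := by
        calc (6 : ℝ) ≤ 100 ^ 16 := by norm_num
          _ ≤ (L : ℝ) ^ 16 := pow_le_pow_left₀ (by norm_num) hLR 16
      have h13 : 0 ≤ g ^ 7 * (L : ℝ) ^ 14 := by positivity
      calc 6 * (g ^ 7 * (L : ℝ) ^ 14) ≤ (L : ℝ) ^ 16 * (g ^ 7 * (L : ℝ) ^ 14) := by gcongr
        _ = _ := by ring
    refine (abs_add_le _ _).trans ?_
    rw [h10] at h8 h9
    linarith
  · -- everything is tiny
    have hsb : s ≤ b := hbs.le
    have hb1' : b ≤ 1 := by linarith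
    have k1 : |(∏ l ∈ A, max (s - α l) 0) * ∏ l ∈ B, max (s - β l) 0| ≤ b ^ 18 := by
      have m1 : |∏ l ∈ A, max (s - α l) 0| ≤ b ^ A.card := by
        rw [abs_prod, ← prod_const]
        refine prod_le_prod (fun _ _ => abs_nonneg _) fun l hl => ?_
        rw [abs_of_nonneg (le_max_right _ _)]
        exact max_le (by have := (hα1 l hl).1; linarith) hb0.le
      have m2 : |∏ l ∈ B, max (s - β l) 0| ≤ b ^ B.card := by
        rw [abs_prod, ← prod_const]
        refine prod_le_prod (fun _ _ => abs_nonneg _) fun l hl => ?_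
        rw [abs_of_nonneg (le_max_right _ _)]
        exact max_le (by have := (hβ1 l hl).1; linarith) hb0.le
      rw [abs_mul]
      calc _ ≤ b ^ A.card * b ^ B.card :=
            mul_le_mul m1 m2 (abs_nonneg _) (by positivity)
        _ = b ^ (A.card + B.card) := (pow_add _ _ _).symm
        _ ≤ b ^ 18 := pow_le_pow_of_le_one hb0.le hb1' (by omega)
    have k2 : |∑ j ∈ range 7, ∑ j' ∈ range 7, (-1 : ℝ) ^ (j + j') *
        s ^ (A.card + B.card - j - j') * esy A α j * esy B β j'| ≤ 49 * b ^ 18 := by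
      have m1 : ∀ j ∈ range 7, ∀ j' ∈ range 7, |(-1 : ℝ) ^ (j + j') *
          s ^ (A.card + B.card - j - j') * esy A α j * esy B β j'| ≤ b ^ 18 := by
        intro j hj j' hj'
        rw [mem_range] at hj hj'
        have n1 := esy_nonneg A α (fun l hl => (hα1 l hl).1) j
        have n2 := esy_nonneg B β (fun l hl => (hβ1 l hl).1) j'
        have n3 : esy A α j ≤ 1 := (esy_le A α b L j hα1 hcA hb0.le).trans
          (pow_le_one₀ (by positivity) (by linarith))
        have n4 : esy B β j' ≤ 1 := (esy_le B β b L j' hβ1 hcB hb0.le).trans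
          (pow_le_one₀ (by positivity) (by linarith))
        have n5 : s ^ (A.card + B.card - j - j') ≤ b ^ 18 :=
          (pow_le_pow_left₀ hs0 hsb _).trans (pow_le_pow_of_le_one hb0.le hb1' (by omega))
        rw [abs_mul, abs_mul, abs_mul, abs_pow, abs_neg, abs_one, one_pow, one_mul,
          abs_of_nonneg (pow_nonneg hs0 _), abs_of_nonneg n1, abs_of_nonneg n2]
        calc _ ≤ b ^ 18 * 1 * 1 := by gcongr
          _ = b ^ 18 := by ring
      refine (abs_sum_le_sum_abs _ _).trans ?_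
      calc ∑ j ∈ range 7, |∑ j' ∈ range 7, (-1 : ℝ) ^ (j + j') *
          s ^ (A.card + B.card - j - j') * esy A α j * esy B β j'|
          ≤ ∑ j ∈ range 7, ∑ j' ∈ range 7, b ^ 18 := by
            refine sum_le_sum fun j hj => (abs_sum_le_sum_abs _ _).trans ?_
            exact sum_le_sum fun j' hj' => m1 j hj j' hj'
        _ = 49 * b ^ 18 := by
            rw [sum_const, sum_const, card_range, nsmul_eq_mul, nsmul_eq_mul]
            ring
    have k3 : 50 * b ^ 18 ≤ b ^ 7 := by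
      have m1 : b ^ 11 ≤ (1 / 1000000 : ℝ) ^ 11 := pow_le_pow_left₀ hb0.le hb1 11
      have m2 : 50 * b ^ 11 ≤ 1 := by
        refine (mul_le_mul_of_nonneg_left m1 (by norm_num)).trans ?_
        norm_num
      have m3 : 0 ≤ b ^ 7 := by positivity
      calc 50 * b ^ 18 = (50 * b ^ 11) * b ^ 7 := by ring
        _ ≤ 1 * b ^ 7 := by gcongr
        _ = b ^ 7 := one_mul _
    have k4 : b ^ 7 ≤ g ^ 7 * L ^ 30 := by
      rw [hb, mul_pow]
      refine mul_le_mul_of_nonneg_left ?_ (by positivity)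
      exact pow_le_pow_right₀ (by linarith) (by norm_num)
    refine (abs_sub _ _).trans ?_
    linarith

end Pool.Agent.H34.RK
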