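import Pool.Agent.H34.RK.Reg

set_option autoImplicit false

open Finset MeasureTheory

namespace Pool.Agent.H34.RK

namespace EXT

/-- basic consequences of `g L^8 ≤ 1` -/
theorem gl {g : ℝ} {L : ℕ} (hg : 0 < g) (hL : 100 ≤ L) (h : g * (L : ℝ) ^ 8 ≤ 1) :
    (100 : ℝ) ≤ L ∧ g * L * (L : ℝ) ^ 7 ≤ 1 ∧ 0 < g * L ∧ g * L ≤ 1 / 100 ^ 7 := by
  have hL' : (100 : ℝ) ≤ L := by exact_mod_cast hL
  have h1 : g * L * (L : ℝ) ^ 7 ≤ 1 := by
    calc g * L * (L : ℝ) ^ 7 = g * (L : ℝ) ^ 8 := by ring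
      _ ≤ 1 := h
  have h2 : 0 < g * L := by positivity
  refine ⟨hL', h1, h2, ?_⟩
  rw [le_div_iff₀ (by norm_num)]
  calc g * L * 100 ^ 7 ≤ g * L * (L : ℝ) ^ 7 := by gcongr
    _ ≤ 1 := h1

end EXT

theorem ext : S_REG → S_EXT := by
  intro _ g L A B x hg hL hgL hA hB hM hx0 hx1
  obtain ⟨hL', h1, h2, h3⟩ := EXT.gl hg hL hgL
  have hgl1 : g * L ≤ 1 := h3.trans (by norm_num)
  have hx00 : 0 ≤ x := by linarith
  obtain ⟨b0, b1⟩ := REG.hx_bd g A B hx00 hx1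
  rw [abs_of_nonneg b0]
  have hb : hx g A B x ≤ (g * L) ^ 30 := by
    have e1 : hx g A B x ≤ ∫ y in x..1, (g * L) ^ 30 := by
      refine intervalIntegral.integral_mono_on hx1
        ((REG.kk_cont' g A B continuous_const continuous_id).intervalIntegrable _ _)
        (continuous_const.intervalIntegrable _ _) fun y hy => ?_
      have hy0 : 0 ≤ y - x := by linarith [hy.1]
      calc KT (fun l => g * l) (fun l => 1 - g * l) A B x y ≤ (y - x) ^ (A.card + B.card) :=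
            REG.kk_le g A B hy.1
        _ ≤ (y - x) ^ 30 := pow_le_pow_of_le_one hy0 (by linarith [hy.2]) hM
        _ ≤ (g * L) ^ 30 := pow_le_pow_left₀ hy0 (by linarith [hy.2]) _
    refine e1.trans ?_
    rw [intervalIntegral.integral_const, smul_eq_mul]
    calc (1 - x) * (g * L) ^ 30 ≤ 1 * (g * L) ^ 30 := by gcongr; linarith
      _ = _ := one_mul _
  refine hb.trans ?_
  have h4 : (g * (L : ℝ) ^ 8) ^ 23 ≤ 1 := pow_le_one₀ (by positivity) hgL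
  have h5 : (g : ℝ) ^ 23 * (L : ℝ) ^ 30 ≤ 1 := by
    calc (g : ℝ) ^ 23 * (L : ℝ) ^ 30 ≤ (g : ℝ) ^ 23 * (L : ℝ) ^ 184 := by
          gcongr
          · linarith
          · norm_num
      _ = (g * (L : ℝ) ^ 8) ^ 23 := by ring
      _ ≤ 1 := h4
  calc (g * L) ^ 30 = g ^ 7 * (g ^ 23 * (L : ℝ) ^ 30) := by ring
    _ ≤ g ^ 7 * 1 := by gcongr
    _ = g ^ 7 := mul_one _

end Pool.Agent.H34.RK
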