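import Pool.Agent.H34.RK.Ex

set_option autoImplicit false

open Finset MeasureTheory

namespace Pool.Agent.H34.RK

theorem ez : S_REG → S_EX → S_EZ := by
  intro _ hEX g L A B v hg hL hgL hA hB hM hv0 hvL
  obtain ⟨hL', h1, h2, h3⟩ := EXT.gl hg hL hgL
  set M := A.card + B.card with hMdef
  set z := g * v with hzdef
  have hz0 : 0 ≤ z := by positivity
  have hzL : z ≤ g * L := by
    rw [hzdef]
    gcongr
  have hgl1 : g * L ≤ 1 / 2 := h3.trans (by norm_num)
  have hz1 : z ≤ 1 := by linarith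
  -- the main term
  set m : ℝ → ℝ := fun x => 1 / ((M : ℝ) + 1) - x - 1 / (M : ℝ) * ∑ l ∈ A, max (g * l - x) 0 with hm
  have hmc : Continuous m := by
    rw [hm]
    fun_prop
  have hpt : ∀ x, 0 ≤ x → x ≤ z → |hx g A B x - m x| ≤ g ^ 2 * L ^ 10 := by
    intro x hx0 hxz
    have hx' : g * (x / g) = x := by field_simp
    have h := hEX g L A B (x / g) hg hL hgL hA hB hM (by positivity) (by
      rw [div_le_iff₀ hg]
      linarith)
    rw [hx'] at h
    have e1 : m x = 1 / (((A.card + B.card : ℕ) : ℝ) + 1) - x -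
        g / ((A.card + B.card : ℕ) : ℝ) * ∑ l ∈ A, max ((l : ℝ) - x / g) 0 := by
      rw [hm]
      simp only
      have e2 : ∑ l ∈ A, max (g * (l : ℝ) - x) 0 = g * ∑ l ∈ A, max ((l : ℝ) - x / g) 0 := by
        rw [mul_sum]
        refine sum_congr rfl fun l _ => ?_
        rw [mul_max_of_nonneg _ _ hg.le, mul_zero, mul_sub, hx']
      rw [e2]
      ring
    rw [e1]
    exact h
  -- splitting
  set t : ℝ → ℝ := fun x => ∫ y in x..z, KK g A B x y with ht
  have htc : Continuous t := REG.cint (f := fun x y => KK g A B x y) (REG.kk_cont g A B)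
    continuous_id continuous_const
  have hsplit : ∀ x, (∫ y in z..1, KK g A B x y) = hx g A B x - t x := by
    intro x
    have hc : Continuous fun y => KK g A B x y := REG.kk_cont' g A B continuous_const continuous_id
    have := intervalIntegral.integral_interval_sub_left (hc.intervalIntegrable x 1)
      (hc.intervalIntegrable (μ := volume) x z)
    exact this.symm
  have hzc1 : hzc g A B z = (∫ x in (0 : ℝ)..z, hx g A B x) - ∫ x in (0 : ℝ)..z, t x := by
    unfold hzc
    simp only [hsplit]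
    exact intervalIntegral.integral_sub ((REG.hx_cont g A B).intervalIntegrable _ _)
      (htc.intervalIntegrable _ _)
  have ht1 : |∫ x in (0 : ℝ)..z, t x| ≤ (g * L) ^ 3 := by
    have hb : ∀ x, 0 ≤ x → x ≤ z → |t x| ≤ (g * L) ^ 2 := by
      intro x hx0 hxz
      rw [← Real.norm_eq_abs]
      have h5 : ∀ y ∈ Set.uIoc x z, ‖KK g A B x y‖ ≤ g * L := by
        intro y hy
        rw [Set.uIoc_of_le hxz] at hy
        rw [Real.norm_eq_abs, abs_of_nonneg (REG.kk_nonneg _ _ _ _ _)]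
        have hyx : 0 ≤ y - x := by linarith [hy.1]
        calc KK g A B x y ≤ (y - x) ^ M := REG.kk_le g A B hy.1.le
          _ ≤ y - x := pow_le_of_le_one hyx (by linarith [hy.2]) (by omega)
          _ ≤ g * L := by linarith [hy.2]
      have := intervalIntegral.norm_integral_le_of_norm_le_const h5
      refine this.trans ?_
      rw [abs_of_nonneg (by linarith : 0 ≤ z - x)]
      calc g * L * (z - x) ≤ g * L * (g * L) := by
            gcongr
            linarith
        _ = (g * L) ^ 2 := by ring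
    have h5 : ∀ x ∈ Set.uIoc 0 z, ‖t x‖ ≤ (g * L) ^ 2 := by
      intro x hx'
      rw [Set.uIoc_of_le hz0] at hx'
      rw [Real.norm_eq_abs]
      exact hb x hx'.1.le hx'.2
    have := intervalIntegral.norm_integral_le_of_norm_le_const h5
    rw [Real.norm_eq_abs] at this
    refine this.trans ?_
    rw [sub_zero, abs_of_nonneg hz0]
    calc (g * L) ^ 2 * z ≤ (g * L) ^ 2 * (g * L) := by gcongr
      _ = (g * L) ^ 3 := by ring
  have ht2 : |(∫ x in (0 : ℝ)..z, hx g A B x) - ∫ x in (0 : ℝ)..z, m x| ≤ g ^ 2 * L ^ 10 * (g * L) := by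
    rw [← intervalIntegral.integral_sub ((REG.hx_cont g A B).intervalIntegrable _ _)
      (hmc.intervalIntegrable _ _)]
    have h5 : ∀ x ∈ Set.uIoc 0 z, ‖hx g A B x - m x‖ ≤ g ^ 2 * L ^ 10 := by
      intro x hx'
      rw [Set.uIoc_of_le hz0] at hx'
      rw [Real.norm_eq_abs]
      exact hpt x hx'.1.le hx'.2
    have := intervalIntegral.norm_integral_le_of_norm_le_const h5
    rw [Real.norm_eq_abs] at this
    refine this.trans ?_
    rw [sub_zero, abs_of_nonneg hz0]
    gcongr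
  have hmint : (∫ x in (0 : ℝ)..z, m x) = z / ((M : ℝ) + 1) - z ^ 2 / 2 -
      1 / (M : ℝ) * ∑ l ∈ A, ((g * l) ^ 2 / 2 - (max (g * l - z) 0) ^ 2 / 2) := by
    have c1 : ∀ l ∈ A, IntervalIntegrable (fun x : ℝ => max (g * (l : ℝ) - x) 0) volume 0 z :=
      fun l _ => (by fun_prop : Continuous fun x : ℝ => max (g * (l : ℝ) - x) 0).intervalIntegrable _ _
    rw [hm, intervalIntegral.integral_sub
      ((by fun_prop : Continuous fun x : ℝ => 1 / ((M : ℝ) + 1) - x).intervalIntegrable _ _)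
      ((by fun_prop : Continuous fun x : ℝ =>
        1 / (M : ℝ) * ∑ l ∈ A, max (g * (l : ℝ) - x) 0).intervalIntegrable _ _),
      intervalIntegral.integral_sub (continuous_const.intervalIntegrable _ _)
      ((continuous_id' : Continuous fun x : ℝ => x).intervalIntegrable _ _),
      intervalIntegral.integral_const_mul,
      intervalIntegral.integral_finsetSum c1, intervalIntegral.integral_const, integral_id,
      smul_eq_mul]
    congr 1
    · ring
    · congr 1
      refine sum_congr rfl fun l _ => ?_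
      have := KI.J1 1 le_rfl (g * l) 0 z
      simp only [pow_one] at this
      rw [this, sub_zero, max_eq_left (by positivity : 0 ≤ g * (l : ℝ))]
      push_cast
      ring
  have hmain : (z / ((M : ℝ) + 1) - z ^ 2 / 2 -
      1 / (M : ℝ) * ∑ l ∈ A, ((g * l) ^ 2 / 2 - (max (g * l - z) 0) ^ 2 / 2)) =
      g * v / ((M : ℝ) + 1) - g ^ 2 * v ^ 2 / 2 -
        g ^ 2 / (2 * (M : ℝ)) * ∑ l ∈ A, ((l : ℝ) ^ 2 - (max ((l : ℝ) - v) 0) ^ 2) := by
    have e : ∑ l ∈ A, ((g * (l : ℝ)) ^ 2 / 2 - (max (g * (l : ℝ) - z) 0) ^ 2 / 2) =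
        g ^ 2 / 2 * ∑ l ∈ A, ((l : ℝ) ^ 2 - (max ((l : ℝ) - v) 0) ^ 2) := by
      rw [mul_sum]
      refine sum_congr rfl fun l _ => ?_
      have : max (g * (l : ℝ) - z) 0 = g * max ((l : ℝ) - v) 0 := by
        rw [mul_max_of_nonneg _ _ hg.le, mul_zero, mul_sub, hzdef]
      rw [this]
      ring
    rw [e, hzdef]
    have hM0 : (M : ℝ) ≠ 0 := by
      have : 0 < M := by omega
      positivity
    field_simp
  rw [hmint, hmain] at ht2
  have hfin : hzc g A B z - (g * v / ((M : ℝ) + 1) - g ^ 2 * v ^ 2 / 2 -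
        g ^ 2 / (2 * (M : ℝ)) * ∑ l ∈ A, ((l : ℝ) ^ 2 - (max ((l : ℝ) - v) 0) ^ 2)) =
      ((∫ x in (0 : ℝ)..z, hx g A B x) - (g * v / ((M : ℝ) + 1) - g ^ 2 * v ^ 2 / 2 -
        g ^ 2 / (2 * (M : ℝ)) * ∑ l ∈ A, ((l : ℝ) ^ 2 - (max ((l : ℝ) - v) 0) ^ 2))) -
      ∫ x in (0 : ℝ)..z, t x := by
    rw [hzc1]
    ring
  rw [hfin]
  calc _ ≤ g ^ 2 * L ^ 10 * (g * L) + (g * L) ^ 3 := (abs_sub _ _).trans (add_le_add ht2 ht1)
    _ = g ^ 3 * (L ^ 11 + L ^ 3) := by ring
    _ ≤ g ^ 3 * L ^ 15 := by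
        gcongr
        have e1 : (L : ℝ) ^ 3 ≤ L ^ 11 := pow_le_pow_right₀ (by linarith) (by norm_num)
        have e2 : (0 : ℝ) ≤ (L : ℝ) ^ 11 := by positivity
        calc (L : ℝ) ^ 11 + (L : ℝ) ^ 3 ≤ (L : ℝ) ^ 11 * 2 := by linarith
          _ ≤ (L : ℝ) ^ 11 * (L : ℝ) ^ 4 := by
              gcongr
              calc (2 : ℝ) ≤ 100 ^ 4 := by norm_num
                _ ≤ (L : ℝ) ^ 4 := by gcongr
          _ = (L : ℝ) ^ 15 := by ring

end Pool.Agent.H34.RK
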