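import Pool.Agent.H34.RK.Stm1

/-!
# RK-JEQ: invariance of the integrals
-/

set_option autoImplicit false

open Finset

namespace Pool.Agent.H34.RK

namespace JEQaux

/-! ### `Ord` -/

lemma ord_congr {k : ℕ} {f g : List (Fin 3) → ℝ} (h : ∀ w, f w = g w) (hf : Ord k f) : Ord k g := by
  have : f = g := funext h
  rwa [this] at hf

lemma ord_add : ∀ (k : ℕ) (f g : List (Fin 3) → ℝ), Ord k f → Ord k g →
    Ord k (fun w => f w + g w)
  | 0, f, g, hf, hg => by
    intro w
    show f w + g w = 0
    rw [hf w, hg w, add_zero]
  | k + 1, f, g, hf, hg => by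
    intro b
    have := ord_add k _ _ (hf b) (hg b)
    refine ord_congr ?_ this
    intro w
    ring

lemma ord_smul : ∀ (k : ℕ) (a : ℝ) (f : List (Fin 3) → ℝ), Ord k f → Ord k (fun w => a * f w)
  | 0, a, f, hf => by
    intro w
    show a * f w = 0
    rw [hf w, mul_zero]
  | k + 1, a, f, hf => by
    intro b
    have := ord_smul k a _ (hf b)
    refine ord_congr ?_ this
    intro w
    ring

lemma ord_succ : ∀ (k : ℕ) (f : List (Fin 3) → ℝ), Ord k f → Ord (k + 1) f
  | 0, f, hf => by
    intro b w
    show f (b :: w) - f w = 0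
    rw [hf, hf, sub_zero]
  | k + 1, f, hf => by
    intro b
    exact ord_succ k _ (hf b)

lemma ord_mono {k l : ℕ} (h : k ≤ l) (f : List (Fin 3) → ℝ) (hf : Ord k f) : Ord l f := by
  induction l, h using Nat.le_induction with
  | base => exact hf
  | succ l _ ih => exact ord_succ l f ih

lemma ord_shift (k : ℕ) (b : Fin 3) (f : List (Fin 3) → ℝ) (hf : Ord k f) :
    Ord k (fun w => f (b :: w)) := by
  cases k with
  | zero => intro w; exact hf _
  | succ k =>
    have h1 := ord_succ k _ (hf b)
    have h2 := ord_add (k + 1) _ _ h1 hf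
    refine ord_congr ?_ h2
    intro w
    ring

lemma ord_sum {ι : Type} (s : Finset ι) (k : ℕ) (F : ι → List (Fin 3) → ℝ)
    (h : ∀ i ∈ s, Ord k (F i)) : Ord k (fun w => ∑ i ∈ s, F i w) := by
  classical
  induction s using Finset.induction_on with
  | empty =>
    have h0 : Ord 0 (fun _ : List (Fin 3) => (0 : ℝ)) := fun _ => rfl
    refine ord_congr ?_ (ord_mono (Nat.zero_le k) _ h0)
    intro w
    simp
  | insert a s ha ih =>
    have h1 := ord_add k _ _ (h a (Finset.mem_insert_self a s))
      (ih fun i hi => h i (Finset.mem_insert_of_mem hi))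
    refine ord_congr ?_ h1
    intro w
    rw [Finset.sum_insert ha]

lemma ord_integral (φ : ℝ → ℝ) (hφ : Continuous φ) : ∀ (m : ℕ) (e : List (Fin 3) → ℝ → ℝ),
    (∀ w, Continuous (e w)) → (∀ u, Ord m (fun w => e w u)) →
    Ord m (fun w => ∫ u in (0 : ℝ)..1, φ u * e w u)
  | 0, e, _, h => by
    intro w
    show ∫ u in (0 : ℝ)..1, φ u * e w u = 0
    have : ∀ u, φ u * e w u = 0 := fun u => by
      have h' : e w u = 0 := h u w
      rw [h', mul_zero]
    simp only [this, intervalIntegral.integral_zero]
  | m + 1, e, hc, h => by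
    intro b
    have h1 := ord_integral φ hφ m (fun w u => e (b :: w) u - e w u)
      (fun w => (hc (b :: w)).sub (hc w)) (fun u => h u b)
    refine ord_congr ?_ h1
    intro w
    have i1 : IntervalIntegrable (fun u => φ u * e (b :: w) u) MeasureTheory.volume 0 1 :=
      (hφ.mul (hc (b :: w))).intervalIntegrable 0 1
    have i2 : IntervalIntegrable (fun u => φ u * e w u) MeasureTheory.volume 0 1 :=
      (hφ.mul (hc w)).intervalIntegrable 0 1
    rw [← intervalIntegral.integral_sub i1 i2]
    congr 1
    ext u
    ring

/-- the functional given by an integral over all suffixes -/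
noncomputable def FF (e : List (Fin 3) → ℝ → ℝ) (i : ℕ) (w : List (Fin 3)) : ℝ :=
  ∑ k ∈ range w.length, ∫ u in (0 : ℝ)..1, ((k : ℝ) + u) ^ i * e (w.drop k) u

lemma FF_cons (e : List (Fin 3) → ℝ → ℝ) (hc : ∀ w, Continuous (e w)) (i : ℕ) (b : Fin 3)
    (w : List (Fin 3)) : FF e i (b :: w) = (∫ u in (0 : ℝ)..1, u ^ i * e (b :: w) u) +
      ∑ r ∈ range (i + 1), (i.choose r : ℝ) * FF e r w := by
  unfold FF
  rw [List.length_cons, Finset.sum_range_succ', add_comm]
  congr 1
  · simp
  · simp only [List.drop_succ_cons, Finset.mul_sum]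
    rw [Finset.sum_comm]
    apply Finset.sum_congr rfl
    intro k _
    have hint : ∀ r ∈ range (i + 1), IntervalIntegrable
        (fun u => (i.choose r : ℝ) * (((k : ℝ) + u) ^ r * e (w.drop k) u)) MeasureTheory.volume 0 1 := by
      intro r _
      have := hc (w.drop k)
      exact (continuous_const.mul (((continuous_const.add continuous_id).pow r).mul
        this)).intervalIntegrable 0 1
    have h1 : ∀ u : ℝ, (((k + 1 : ℕ) : ℝ) + u) ^ i * e (w.drop k) u =
        ∑ r ∈ range (i + 1), (i.choose r : ℝ) * (((k : ℝ) + u) ^ r * e (w.drop k) u) := by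
      intro u
      have h2 : ((k + 1 : ℕ) : ℝ) + u = ((k : ℝ) + u) + 1 := by push_cast; ring
      rw [h2, add_pow, Finset.sum_mul]
      apply Finset.sum_congr rfl
      intro r _
      rw [one_pow]
      ring
    simp only [h1]
    rw [intervalIntegral.integral_finsetSum hint]
    apply Finset.sum_congr rfl
    intro r _
    rw [intervalIntegral.integral_const_mul]

lemma ord_FF (e : List (Fin 3) → ℝ → ℝ) (hc : ∀ w, Continuous (e w)) (m : ℕ)
    (h : ∀ u, Ord m (fun w => e w u)) (i : ℕ) : Ord (i + m + 1) (FF e i) := by
  induction i using Nat.strong_induction_on with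
  | _ i ih =>
    intro b
    have h1 : Ord m (fun w => ∫ u in (0 : ℝ)..1, u ^ i * e w u) :=
      ord_integral (fun u => u ^ i) (continuous_pow i) m e hc h
    have h2 : Ord (i + m) (fun w => ∫ u in (0 : ℝ)..1, u ^ i * e (b :: w) u) :=
      ord_mono (by omega) _ (ord_shift m b _ h1)
    have h3 : Ord (i + m) (fun w => ∑ r ∈ range i, (i.choose r : ℝ) * FF e r w) := by
      apply ord_sum
      intro r hr
      have hr' := Finset.mem_range.mp hr
      exact ord_smul _ _ _ (ord_mono (by omega) _ (ih r hr'))
    refine ord_congr ?_ (ord_add _ _ _ h2 h3)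
    intro w
    rw [FF_cons e hc i b w, Finset.sum_range_succ, Nat.choose_self]
    push_cast
    ring

/-! ### positions of the letters `1` -/

/-- the positions of the letters `1`, with the offset `s` -/
def posF : List (Fin 3) → ℕ → Finset ℕ
  | [], _ => ∅
  | b :: w, s => if b = 1 then insert s (posF w (s + 1)) else posF w (s + 1)

lemma posF_cons (b : Fin 3) (w : List (Fin 3)) (s : ℕ) :
    posF (b :: w) s = if b = 1 then insert s (posF w (s + 1)) else posF w (s + 1) := rfl

lemma posF_ge : ∀ (w : List (Fin 3)) (s l : ℕ), l ∈ posF w s → s ≤ l ∧ l < s + w.length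
  | [], s, l, h => by simp [posF] at h
  | b :: w, s, l, h => by
    unfold posF at h
    split_ifs at h with hb
    · rw [Finset.mem_insert] at h
      rcases h with h | h
      · rw [List.length_cons]; omega
      · have := posF_ge w (s + 1) l h
        rw [List.length_cons]; omega
    · have := posF_ge w (s + 1) l h
      rw [List.length_cons]; omega

lemma posF_append : ∀ (w w' : List (Fin 3)) (s : ℕ),
    posF (w ++ w') s = posF w s ∪ posF w' (s + w.length)
  | [], w', s => by simp [posF]
  | b :: w, w', s => by
    rw [List.cons_append, posF_cons, posF_cons, posF_append w w' (s + 1), List.length_cons,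
      show s + 1 + w.length = s + (w.length + 1) by omega]
    split_ifs
    · rw [Finset.insert_union]
    · rfl

lemma posF_image : ∀ (w : List (Fin 3)) (s t : ℕ), posF w (t + s) = (posF w s).image (fun n => t + n)
  | [], s, t => by simp [posF]
  | b :: w, s, t => by
    unfold posF
    rw [show t + s + 1 = t + (s + 1) by omega, posF_image w (s + 1) t]
    split_ifs
    · rw [Finset.image_insert]
    · rfl

lemma posF_set : ∀ (w : List (Fin 3)) (m s : ℕ), posF (w.set m 2) s = (posF w s).erase (s + m)
  | [], m, s => by simp [posF]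
  | b :: w, 0, s => by
    rw [List.set_cons_zero]
    unfold posF
    rw [if_neg (by decide)]
    have hs : s ∉ posF w (s + 1) := fun h => by
      have := (posF_ge w (s + 1) s h).1
      omega
    rw [add_zero]
    split_ifs
    · rw [Finset.erase_insert hs]
    · rw [Finset.erase_eq_of_notMem hs]
  | b :: w, m + 1, s => by
    rw [List.set_cons_succ]
    unfold posF
    rw [posF_set w m (s + 1), show s + 1 + m = s + (m + 1) by omega]
    split_ifs
    · rw [Finset.erase_insert_of_ne (by omega)]
    · rfl

lemma pw_length : ∀ (D : ℕ) (c : ZMod 3), (pw D c).length = 3 ^ D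
  | 0, c => by simp [pw]
  | D + 1, c => by
    unfold pw
    rw [List.length_append, List.length_append, pw_length, pw_length, pw_length]
    ring

lemma posF_pw : ∀ (D : ℕ) (c : ZMod 3), posF (pw D c) 0 = Y D c
  | 0, c => by
    unfold pw Y
    split_ifs <;> simp [posF]
  | D + 1, c => by
    unfold pw Y
    rw [posF_append, posF_append, pw_length, pw_length, posF_pw D c]
    have e1 : posF (pw D (c - 1)) (0 + 3 ^ D) = (Y D (c - 1)).image (fun n => 3 ^ D + n) := by
      rw [show 0 + 3 ^ D = 3 ^ D + 0 by omega, posF_image, posF_pw]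
    have e2 : posF (pw D (c - 2)) (0 + 3 ^ D + 3 ^ D) =
        (Y D (c - 2)).image (fun n => 2 * 3 ^ D + n) := by
      rw [show 0 + 3 ^ D + 3 ^ D = 2 * 3 ^ D + 0 by omega, posF_image, posF_pw]
    rw [e1, e2, Finset.union_assoc]

lemma flat_length (D : ℕ) (c : ℕ → ZMod 3) (B : ℕ) :
    ((List.range B).flatMap (fun i => pw D (c i))).length = B * 3 ^ D := by
  induction B with
  | zero => simp
  | succ B ih =>
    rw [List.range_succ, List.flatMap_append, List.length_append, ih]
    simp only [List.flatMap_cons, List.flatMap_nil, List.append_nil, pw_length]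
    ring

lemma posF_flat (D : ℕ) (c : ℕ → ZMod 3) (B : ℕ) :
    posF ((List.range B).flatMap (fun i => pw D (c i))) 1 =
      (range B).biUnion (fun i => (Y D (c i)).image (fun n => i * 3 ^ D + n + 1)) := by
  induction B with
  | zero => simp [posF]
  | succ B ih =>
    rw [List.range_succ, List.flatMap_append, posF_append, ih, flat_length]
    rw [Finset.range_add_one, Finset.biUnion_insert, Finset.union_comm]
    congr 1
    simp only [List.flatMap_cons, List.flatMap_nil, List.append_nil]
    rw [show 1 + B * 3 ^ D = (1 + B * 3 ^ D) + 0 by omega, posF_image, posF_pw]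
    apply Finset.image_congr
    intro n _
    simp only
    omega

lemma posF_bw (D B : ℕ) (c : ℕ → ZMod 3) : posF (bw D B c) 1 = blk D B c := by
  unfold bw blk
  rw [posF_append, posF_flat, flat_length]
  congr 1
  simp only [posF, if_true]
  rw [add_comm]
  rfl

lemma bw_length (D B : ℕ) (c : ℕ → ZMod 3) : (bw D B c).length = len D B := by
  unfold bw len
  rw [List.length_append, flat_length]
  rfl

lemma two_notMem_pw : ∀ (D : ℕ) (c : ZMod 3), (2 : Fin 3) ∉ pw D c
  | 0, c => by
    unfold pw
    split_ifs <;> decide
  | D + 1, c => by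
    unfold pw
    simp only [List.mem_append, not_or]
    exact ⟨two_notMem_pw D c, two_notMem_pw D _, two_notMem_pw D _⟩

lemma two_notMem_bw (D B : ℕ) (c : ℕ → ZMod 3) : (2 : Fin 3) ∉ bw D B c := by
  unfold bw
  rw [List.mem_append, not_or]
  refine ⟨?_, by decide⟩
  intro h
  rw [List.mem_flatMap] at h
  obtain ⟨i, _, hi⟩ := h
  exact two_notMem_pw D _ hi

/-! ### elementary symmetric sums -/

lemma esy_insert (A : Finset ℕ) (a : ℕ) (ha : a ∉ A) (f : ℕ → ℝ) (j : ℕ) :
    esy (insert a A) f (j + 1) = esy A f (j + 1) + f a * esy A f j := by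
  unfold esy
  rw [Finset.powersetCard_succ_insert ha, Finset.sum_union]
  · congr 1
    rw [Finset.sum_image, Finset.mul_sum]
    · apply Finset.sum_congr rfl
      intro t ht
      rw [Finset.prod_insert]
      exact fun h => ha ((Finset.mem_powersetCard.mp ht).1 h)
    · intro t ht t' ht' h
      have h1 : a ∉ t := fun h => ha ((Finset.mem_powersetCard.mp ht).1 h)
      have h2 : a ∉ t' := fun h => ha ((Finset.mem_powersetCard.mp ht').1 h)
      have := congrArg (fun s => s.erase a) h
      simpa [Finset.erase_insert h1, Finset.erase_insert h2] using this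
  · rw [Finset.disjoint_left]
    intro t ht ht'
    rw [Finset.mem_image] at ht'
    obtain ⟨s, _, hs⟩ := ht'
    apply ha
    apply (Finset.mem_powersetCard.mp ht).1
    rw [← hs]
    exact Finset.mem_insert_self a s

lemma esy_zero (A : Finset ℕ) (f : ℕ → ℝ) : esy A f 0 = 1 := by
  unfold esy
  rw [Finset.powersetCard_zero]
  simp

lemma esy_posF : ∀ (w : List (Fin 3)) (s : ℕ) (x : ℝ) (f : ℕ → ℝ) (j : ℕ),
    (∀ m : ℕ, f (s + m) = x + m) → esy (posF w s) f j = es w x j
  | w, s, x, f, 0, _ => by
    rw [esy_zero]
    cases w <;> rfl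
  | [], s, x, f, j + 1, _ => by
    unfold posF esy
    have : (∅ : Finset ℕ).powersetCard (j + 1) = ∅ := by
      rw [Finset.powersetCard_eq_empty]; simp
    rw [this]
    rfl
  | b :: w, s, x, f, j + 1, h => by
    have h' : ∀ m : ℕ, f (s + 1 + m) = (x + 1) + m := by
      intro m
      rw [show s + 1 + m = s + (m + 1) by omega, h]
      push_cast
      ring
    have hs : s ∉ posF w (s + 1) := fun h => by
      have := (posF_ge w (s + 1) s h).1
      omega
    have h0 : f s = x := by have := h 0; simpa using this
    show esy (if b = 1 then insert s (posF w (s + 1)) else posF w (s + 1)) f (j + 1) =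
      es w (x + 1) (j + 1) + (if b = 1 then x * es w (x + 1) j else 0)
    split_ifs with hb
    · rw [esy_insert _ _ hs, esy_posF w (s + 1) (x + 1) f (j + 1) h',
        esy_posF w (s + 1) (x + 1) f j h', h0]
    · rw [esy_posF w (s + 1) (x + 1) f (j + 1) h', add_zero]

lemma esy_union (A A' : Finset ℕ) (f : ℕ → ℝ) (h : ∀ l ∈ A, f l = 0) (j : ℕ) :
    esy (A ∪ A') f j = esy A' f j := by
  unfold esy
  symm
  apply Finset.sum_subset (Finset.powersetCard_mono Finset.subset_union_right)
  intro t ht ht'
  rw [Finset.mem_powersetCard] at ht ht'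
  have : ¬ t ⊆ A' := fun hh => ht' ⟨hh, ht.2⟩
  rw [Finset.not_subset] at this
  obtain ⟨l, hl, hlA⟩ := this
  apply Finset.prod_eq_zero hl
  apply h
  rcases Finset.mem_union.mp (ht.1 hl) with h1 | h1
  · exact h1
  · exact absurd h1 hlA

lemma esy_drop (w : List (Fin 3)) (k : ℕ) (hk : k ≤ w.length) (u : ℝ) (hu0 : 0 ≤ u) (hu1 : u ≤ 1)
    (j : ℕ) : esy (posF w 1) (fun l => max ((l : ℝ) - ((k : ℝ) + u)) 0) j = es (w.drop k) (1 - u) j := by
  have hw : posF w 1 = posF (w.take k) 1 ∪ posF (w.drop k) (1 + k) := by
    conv_lhs => rw [← List.take_append_drop k w]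
    rw [posF_append, List.length_take, min_eq_left hk]
  rw [hw, esy_union]
  · apply esy_posF
    intro m
    rw [max_eq_left]
    · push_cast; ring
    · push_cast
      have : (0 : ℝ) ≤ m := by positivity
      linarith
  · intro l hl
    have h1 := (posF_ge _ _ _ hl).2
    rw [List.length_take, min_eq_left hk] at h1
    have h2 : (l : ℝ) ≤ k := by
      have : l ≤ k := by omega
      exact_mod_cast this
    apply max_eq_right
    linarith

lemma es_cont : ∀ (w : List (Fin 3)) (j : ℕ), Continuous (fun x => es w x j)
  | w, 0 => by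
    have : (fun x => es w x 0) = fun _ => 1 := by
      ext x
      cases w <;> rfl
    rw [this]
    exact continuous_const
  | [], j + 1 => by
    have : (fun x => es [] x (j + 1)) = fun _ => 0 := by
      ext x
      rfl
    rw [this]
    exact continuous_const
  | b :: w, j + 1 => by
    have h1 := (es_cont w (j + 1)).comp (continuous_id.add (continuous_const (y := (1 : ℝ))))
    have h2 := (es_cont w j).comp (continuous_id.add (continuous_const (y := (1 : ℝ))))
    have : (fun x => es (b :: w) x (j + 1)) =
        fun x => es w (x + 1) (j + 1) + (if b = 1 then x * es w (x + 1) j else 0) := by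
      ext x
      rfl
    rw [this]
    refine Continuous.add h1 ?_
    split_ifs
    · exact continuous_id.mul h2
    · exact continuous_const

/-! ### integrals -/

lemma integral_split (φ : ℝ → ℝ) (hφ : Continuous φ) (n : ℕ) :
    ∫ v in (0 : ℝ)..n, φ v = ∑ k ∈ range n, ∫ u in (0 : ℝ)..1, φ ((k : ℝ) + u) := by
  have h := intervalIntegral.sum_integral_adjacent_intervals (μ := MeasureTheory.volume)
    (f := φ) (a := fun k : ℕ => (k : ℝ)) (n := n) (fun k _ => hφ.intervalIntegrable _ _)
  simp only [Nat.cast_zero] at h
  rw [← h]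
  apply Finset.sum_congr rfl
  intro k _
  rw [intervalIntegral.integral_comp_add_left]
  push_cast
  rw [add_zero]

lemma integral_word (w : List (Fin 3)) (i j n : ℕ) (hn : n ≤ w.length) :
    ∫ v in (0 : ℝ)..n, v ^ i * esy (posF w 1) (fun l => max ((l : ℝ) - v) 0) j =
      ∑ k ∈ range n, ∫ u in (0 : ℝ)..1, ((k : ℝ) + u) ^ i * es (w.drop k) (1 - u) j := by
  have hc : Continuous (fun v : ℝ => v ^ i * esy (posF w 1) (fun l => max ((l : ℝ) - v) 0) j) := by
    unfold esy
    refine (continuous_pow i).mul ?_
    refine continuous_finsetSum _ fun t _ => ?_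
    refine continuous_finsetProd _ fun l _ => ?_
    exact (continuous_const.sub continuous_id).max continuous_const
  rw [integral_split _ hc]
  apply Finset.sum_congr rfl
  intro k hk
  have hk' := Finset.mem_range.mp hk
  apply intervalIntegral.integral_congr
  intro u hu
  rw [Set.uIcc_of_le zero_le_one] at hu
  simp only
  rw [esy_drop w k (by omega) u hu.1 hu.2]

lemma count_drop (w : List (Fin 3)) (h2 : (2 : Fin 3) ∉ w) (m k : ℕ) (hm : m < w.length) :
    ((w.set m 2).drop k).count 2 = if k ≤ m then 1 else 0 := by
  rw [List.drop_set]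
  split_ifs with h1 h3 h3
  · omega
  · exact List.count_eq_zero.mpr fun h => h2 (List.mem_of_mem_drop h)
  · rw [List.count_set (by rw [List.length_drop]; omega)]
    have h4 : (w.drop k).count 2 = 0 := List.count_eq_zero.mpr fun h => h2 (List.mem_of_mem_drop h)
    rw [h4]
    simp
  · omega

end JEQaux

open JEQaux in
theorem jeq : S_BLK → S_ES → S_ORDMUL → S_JEQ := by
  intro hBLK hES hMUL D B p i j c c' hp hD
  -- the words
  set W : (ℕ → ZMod 3) → List (Fin 3) :=
    fun c => if p = 0 then bw D B c else (bw D B c).set (p - 1) 2 with hW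
  have hWlen : ∀ c, (W c).length = len D B := by
    intro c
    rw [hW]
    simp only
    split_ifs
    · exact bw_length D B c
    · rw [List.length_set]; exact bw_length D B c
  have hWpos : ∀ c, posF (W c) 1 = (blk D B c).erase p := by
    intro c
    rw [hW]
    simp only
    split_ifs with h0
    · rw [posF_bw, h0, Finset.erase_eq_of_notMem]
      intro h
      rw [← posF_bw] at h
      have := (posF_ge _ _ _ h).1
      omega
    · rw [posF_set, posF_bw]
      congr 1
      omega
  have hswitch : ∀ f : List (Fin 3) → ℝ, Ord (D + 1) f → f (W c) = f (W c') := by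
    intro f hf
    exact hBLK D B p c c' f hf hp
  -- the first integral
  set e : List (Fin 3) → ℝ → ℝ := fun w u => es w (1 - u) j with he
  have hec : ∀ w, Continuous (e w) := fun w =>
    (es_cont w j).comp (continuous_const.sub continuous_id)
  have heo : ∀ u, Ord (2 * j + 1) (fun w => e w u) := fun u => hES (1 - u) j
  refine ⟨?_, ?_⟩
  · have h1 : ∀ c, (∫ v in (0 : ℝ)..(len D B : ℕ),
        v ^ i * esy ((blk D B c).erase p) (fun l => max ((l : ℝ) - v) 0) j) = FF e i (W c) := by
      intro c
      rw [← hWpos c, integral_word (W c) i j (len D B) (hWlen c).ge]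
      unfold FF
      rw [hWlen c]
    rw [h1 c, h1 c']
    apply hswitch
    exact ord_mono (by omega) _ (ord_FF e hec (2 * j + 1) heo i)
  · rcases Nat.eq_zero_or_pos p with hp0 | hp0
    · rw [hp0]
      simp
    · have hpne : p ≠ 0 := by omega
      have hpm : p ∈ blk D B c ∧ p ∈ blk D B c' := hp.resolve_left hpne
      set g : List (Fin 3) → ℝ → ℝ := fun w u => (w.count 2 : ℝ) * es w (1 - u) j with hg
      have hgc : ∀ w, Continuous (g w) := fun w => continuous_const.mul (hec w)
      have hcnt : Ord (1 + 1) (fun w : List (Fin 3) => (w.count 2 : ℝ)) := by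
        intro b b' w
        show ((b :: b' :: w).count 2 : ℝ) - ((b' :: w).count 2 : ℝ) -
          (((b :: w).count 2 : ℝ) - (w.count 2 : ℝ)) = 0
        simp only [List.count_cons]
        push_cast
        ring
      have hgo : ∀ u, Ord (1 + 2 * j + 1) (fun w => g w u) := fun u =>
        hMUL 1 (2 * j) _ _ hcnt (heo u)
      have h1 : ∀ c, p ∈ blk D B c → (∫ v in (0 : ℝ)..p,
          v ^ i * esy ((blk D B c).erase p) (fun l => max ((l : ℝ) - v) 0) j) = FF g i (W c) := by
        intro c hpc
        have hple : p ≤ len D B := by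
          rw [← posF_bw] at hpc
          have := (posF_ge _ _ _ hpc).2
          rw [bw_length] at this
          omega
        rw [← hWpos c, integral_word (W c) i j p (by rw [hWlen]; exact hple)]
        unfold FF
        rw [hWlen c]
        have hcount : ∀ k, ((W c).drop k).count 2 = if k ≤ p - 1 then 1 else 0 := by
          intro k
          have : W c = (bw D B c).set (p - 1) 2 := by
            rw [hW]; simp only; rw [if_neg hpne]
          rw [this]
          exact count_drop _ (two_notMem_bw D B c) (p - 1) k (by rw [bw_length]; omega)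
        rw [← Finset.sum_subset (Finset.range_subset_range.mpr hple)]
        · apply Finset.sum_congr rfl
          intro k hk
          have hk' := Finset.mem_range.mp hk
          congr 1
          ext u
          rw [hg]
          simp only
          rw [hcount k, if_pos (by omega)]
          push_cast
          ring
        · intro k _ hk
          rw [Finset.mem_range] at hk
          have : ∀ u : ℝ, ((k : ℝ) + u) ^ i * g ((W c).drop k) u = 0 := by
            intro u
            rw [hg]
            simp only
            rw [hcount k, if_neg (by omega)]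
            push_cast
            ring
          simp only [this, intervalIntegral.integral_zero]
      rw [h1 c hpm.1, h1 c' hpm.2]
      apply hswitch
      exact ord_mono (by omega) _ (ord_FF g hgc (1 + 2 * j + 1) hgo i)

end Pool.Agent.H34.RK
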