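import Pool.Agent.H34.RK.Stm1

/-!
# RK-JEQP: packaging of `S_JEQ`
-/

set_option autoImplicit false

open Finset

namespace Pool.Agent.H34.RK

theorem jeq' : S_BLKCARD → S_JEQ → S_JEQ' := by
  intro hC hJ B p c c' hp
  obtain ⟨c1, c2, c3⟩ := hC 40 B c (by norm_num)
  obtain ⟨d1, d2, d3⟩ := hC 40 B c' (by norm_num)
  refine ⟨?_, ?_, ?_, ?_, ?_⟩
  · rcases Nat.eq_zero_or_pos p with h0 | h0
    · rw [Finset.erase_eq_of_notMem, Finset.erase_eq_of_notMem, c1, d1]
      · intro h
        have := (d2 p h).1
        omega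
      · intro h
        have := (c2 p h).1
        omega
    · have hpm := hp.resolve_left (by omega)
      rw [Finset.card_erase_of_mem hpm.1, Finset.card_erase_of_mem hpm.2, c1, d1]
  · intro l hl
    exact c2 l (Finset.mem_of_mem_erase hl)
  · intro l hl
    exact d2 l (Finset.mem_of_mem_erase hl)
  · rcases Nat.eq_zero_or_pos p with h0 | h0
    · rw [h0]; exact Nat.zero_le _
    · exact (c2 p (hp.resolve_left (by omega)).1).2
  · intro i j hi hj
    exact hJ 40 B p i j c c' hp (by omega)

end Pool.Agent.H34.RK
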