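import Pool.Agent.H34.RK.K1

set_option autoImplicit false

open Finset MeasureTheory

namespace Pool.Agent.H34.RK

theorem k2 : S_K2 := by
  intro a b R ha haR hb hbR
  have hR : 0 ≤ R := ha.trans haR
  have e1 : (∫ v in (0 : ℝ)..R, ∫ v' in (0 : ℝ)..R,
      Real.sign (v' - v) * (max (a - v) 0) ^ 2 * (max (b - v') 0) ^ 2) =
      ∫ v in (0 : ℝ)..R, (max (a - v) 0) ^ 2 * (2 * ((max (b - v) 0) ^ (2 + 1) / ((2 : ℕ) + 1)) -
        (max b 0) ^ (2 + 1) / ((2 : ℕ) + 1)) := by
    refine intervalIntegral.integral_congr fun v hv => ?_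
    rw [Set.uIcc_of_le hR] at hv
    exact KI.inner 2 (by norm_num) b R v ((max (a - v) 0) ^ 2) hbR hv.1 hv.2
  rw [e1, max_eq_left hb]
  have j2 := KI.J2 2 (by norm_num)
  have j3 := KI.J2 3 (by norm_num)
  have j4 := KI.J2 4 (by norm_num)
  have j5 := KI.J2 5 (by norm_num)
  have c1 : ∀ (x : ℝ) (k : ℕ), Continuous (fun v : ℝ => (max (x - v) 0) ^ k) := fun x k => by fun_prop
  rcases le_total b a with hab | hab
  · have e2 : (∫ v in (0 : ℝ)..R, (max (a - v) 0) ^ 2 * (2 * ((max (b - v) 0) ^ (2 + 1) /
        ((2 : ℕ) + 1)) - b ^ (2 + 1) / ((2 : ℕ) + 1))) =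
          ∫ v in (0 : ℝ)..R, (2 / 3 * (a - b) ^ 2 * (max (b - v) 0) ^ 3 +
          4 / 3 * (a - b) * (max (b - v) 0) ^ 4 + 2 / 3 * (max (b - v) 0) ^ 5 -
            b ^ 3 / 3 * (max (a - v) 0) ^ 2) := by
      refine intervalIntegral.integral_congr fun v _ => ?_
      push_cast
      rcases le_total v b with hv | hv
      · rw [max_eq_left (by linarith : (0 : ℝ) ≤ b - v), max_eq_left (by linarith : (0 : ℝ) ≤ a - v)]
        ring
      · rw [max_eq_right (by linarith : b - v ≤ 0)]
        ring
    rw [e2, intervalIntegral.integral_sub, intervalIntegral.integral_add,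
      intervalIntegral.integral_add,
      intervalIntegral.integral_const_mul, intervalIntegral.integral_const_mul,
      intervalIntegral.integral_const_mul, intervalIntegral.integral_const_mul,
      j2 a R ha haR, j3 b R hb hbR, j4 b R hb hbR, j5 b R hb hbR]
    · rcases hab.lt_or_eq with h | h
      · rw [Real.sign_of_neg (by linarith)]
        push_cast
        ring
      · rw [h, sub_self, Real.sign_zero]
        push_cast
        ring
    · exact ((c1 b 3).const_mul _).intervalIntegrable _ _
    · exact ((c1 b 4).const_mul _).intervalIntegrable _ _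
    · exact (((c1 b 3).const_mul _).add ((c1 b 4).const_mul _)).intervalIntegrable _ _
    · exact ((c1 b 5).const_mul _).intervalIntegrable _ _
    · exact ((((c1 b 3).const_mul _).add ((c1 b 4).const_mul _)).add
        ((c1 b 5).const_mul _)).intervalIntegrable _ _
    · exact ((c1 a 2).const_mul _).intervalIntegrable _ _
  · have e2 : (∫ v in (0 : ℝ)..R, (max (a - v) 0) ^ 2 * (2 * ((max (b - v) 0) ^ (2 + 1) /
        ((2 : ℕ) + 1)) - b ^ (2 + 1) / ((2 : ℕ) + 1))) =
          ∫ v in (0 : ℝ)..R, (2 * (b - a) ^ 2 * (max (a - v) 0) ^ 3 +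
          2 * (b - a) * (max (a - v) 0) ^ 4 + 2 / 3 * (max (a - v) 0) ^ 5 +
            (2 / 3 * (b - a) ^ 3 - b ^ 3 / 3) * (max (a - v) 0) ^ 2) := by
      refine intervalIntegral.integral_congr fun v _ => ?_
      push_cast
      rcases le_total v a with hv | hv
      · rw [max_eq_left (by linarith : (0 : ℝ) ≤ b - v), max_eq_left (by linarith : (0 : ℝ) ≤ a - v)]
        ring
      · rw [max_eq_right (by linarith : a - v ≤ 0)]
        ring
    rw [e2, intervalIntegral.integral_add, intervalIntegral.integral_add,
      intervalIntegral.integral_add,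
      intervalIntegral.integral_const_mul, intervalIntegral.integral_const_mul,
      intervalIntegral.integral_const_mul, intervalIntegral.integral_const_mul,
      j2 a R ha haR, j3 a R ha haR, j4 a R ha haR, j5 a R ha haR]
    · rcases hab.lt_or_eq with h | h
      · rw [Real.sign_of_pos (by linarith)]
        push_cast
        ring
      · rw [h, sub_self, Real.sign_zero]
        push_cast
        ring
    · exact ((c1 a 3).const_mul _).intervalIntegrable _ _
    · exact ((c1 a 4).const_mul _).intervalIntegrable _ _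
    · exact (((c1 a 3).const_mul _).add ((c1 a 4).const_mul _)).intervalIntegrable _ _
    · exact ((c1 a 5).const_mul _).intervalIntegrable _ _
    · exact ((((c1 a 3).const_mul _).add ((c1 a 4).const_mul _)).add
        ((c1 a 5).const_mul _)).intervalIntegrable _ _
    · exact ((c1 a 2).const_mul _).intervalIntegrable _ _

end Pool.Agent.H34.RK
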