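import Pool.Agent.H34.RK.Mass

/-! RK-LC (helper33): log-concavity of the partition function in the frontiers. -/

set_option autoImplicit false

open Finset MeasureTheory

namespace Pool.Agent.H34.RK

namespace Lcn

open Masn

/-- positive parts -/
theorem pos_part {lam a a' a'' : ℝ} (h0 : 0 < lam) (h1 : lam < 1)
    (h : lam * a + (1 - lam) * a' ≤ a'') :
    (max a 0) ^ lam * (max a' 0) ^ (1 - lam) ≤ max a'' 0 := by
  rcases le_or_gt a 0 with ha | ha
  · rw [max_eq_right ha, Real.zero_rpow h0.ne', zero_mul]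
    exact le_max_right _ _
  · rcases le_or_gt a' 0 with ha' | ha'
    · rw [max_eq_right ha', Real.zero_rpow (sub_pos.2 h1).ne', mul_zero]
      exact le_max_right _ _
    · rw [max_eq_left ha.le, max_eq_left ha'.le]
      refine le_trans ?_ (le_max_left _ _)
      exact (Real.geom_mean_le_arith_mean2_weighted h0.le (by linarith) ha.le ha'.le
        (by ring)).trans h

theorem prod_part {lam : ℝ} (h0 : 0 < lam) (h1 : lam < 1) (A : Finset ℕ) (u u' u'' : ℕ → ℝ)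
    (h : ∀ l ∈ A, lam * u l + (1 - lam) * u' l ≤ u'' l) :
    (∏ l ∈ A, max (u l) 0) ^ lam * (∏ l ∈ A, max (u' l) 0) ^ (1 - lam) ≤
      ∏ l ∈ A, max (u'' l) 0 := by
  rw [← Real.finsetProd_rpow A _ (fun _ _ => le_max_right _ _),
    ← Real.finsetProd_rpow A _ (fun _ _ => le_max_right _ _), ← Finset.prod_mul_distrib]
  refine Finset.prod_le_prod (fun l _ => ?_) fun l hl => pos_part h0 h1 (h l hl)
  exact mul_nonneg (Real.rpow_nonneg (le_max_right _ _) _) (Real.rpow_nonneg (le_max_right _ _) _)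

theorem max_conv {lam a b a' b' : ℝ} (h0 : 0 < lam) (h1 : lam < 1) :
    max (lam * a + (1 - lam) * a') (lam * b + (1 - lam) * b') ≤
      lam * max a b + (1 - lam) * max a' b' := by
  have h2 : 0 ≤ 1 - lam := by linarith
  refine max_le ?_ ?_
  · exact add_le_add (mul_le_mul_of_nonneg_left (le_max_left _ _) h0.le)
      (mul_le_mul_of_nonneg_left (le_max_left _ _) h2)
  · exact add_le_add (mul_le_mul_of_nonneg_left (le_max_right _ _) h0.le)
      (mul_le_mul_of_nonneg_left (le_max_right _ _) h2)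

theorem min_conc {lam a b a' b' : ℝ} (h0 : 0 < lam) (h1 : lam < 1) :
    lam * min a b + (1 - lam) * min a' b' ≤
      min (lam * a + (1 - lam) * a') (lam * b + (1 - lam) * b') := by
  have h2 : 0 ≤ 1 - lam := by linarith
  refine le_min ?_ ?_
  · exact add_le_add (mul_le_mul_of_nonneg_left (min_le_left _ _) h0.le)
      (mul_le_mul_of_nonneg_left (min_le_left _ _) h2)
  · exact add_le_add (mul_le_mul_of_nonneg_left (min_le_right _ _) h0.le)
      (mul_le_mul_of_nonneg_left (min_le_right _ _) h2)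

theorem KT_lc {lam : ℝ} (h0 : 0 < lam) (h1 : lam < 1) (φ ψ φ' ψ' : ℕ → ℝ) (A B : Finset ℕ)
    (x y x' y' : ℝ) :
    KT φ ψ A B x y ^ lam * KT φ' ψ' A B x' y' ^ (1 - lam) ≤
      KT (fun l => lam * φ l + (1 - lam) * φ' l) (fun l => lam * ψ l + (1 - lam) * ψ' l) A B
        (lam * x + (1 - lam) * x') (lam * y + (1 - lam) * y') := by
  unfold KT
  have hA : ∀ (S : Finset ℕ) (f : ℕ → ℝ), 0 ≤ ∏ l ∈ S, max (f l) 0 := fun S f =>
    Finset.prod_nonneg fun _ _ => le_max_right _ _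
  rw [Real.mul_rpow (hA _ _) (hA _ _), Real.mul_rpow (hA _ _) (hA _ _)]
  calc _ = ((∏ l ∈ A, max (y - max x (φ l)) 0) ^ lam *
          (∏ l ∈ A, max (y' - max x' (φ' l)) 0) ^ (1 - lam)) *
        ((∏ l ∈ B, max (min y (ψ l) - x) 0) ^ lam *
          (∏ l ∈ B, max (min y' (ψ' l) - x') 0) ^ (1 - lam)) := by ring
    _ ≤ _ := by
        refine mul_le_mul ?_ ?_ ?_ (hA _ _)
        · refine prod_part h0 h1 A _ _ _ fun l _ => ?_
          have := max_conv (a := x) (b := φ l) (a' := x') (b' := φ' l) h0 h1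
          linarith
        · refine prod_part h0 h1 B _ _ _ fun l _ => ?_
          have := min_conc (a := y) (b := ψ l) (a' := y') (b' := ψ' l) h0 h1
          linarith
        · exact mul_nonneg (Real.rpow_nonneg (hA _ _) _) (Real.rpow_nonneg (hA _ _) _)

/-- the weight, cut off -/
noncomputable def Kc (φ ψ : ℕ → ℝ) (A B : Finset ℕ) (x y : ℝ) : ℝ :=
  if 0 ≤ x ∧ x < y ∧ y ≤ 1 then KT φ ψ A B x y else 0

theorem Kc_nonneg (φ ψ : ℕ → ℝ) (A B : Finset ℕ) (x y : ℝ) : 0 ≤ Kc φ ψ A B x y := by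
  unfold Kc
  split_ifs
  · exact KT_nonneg _ _ _ _ _ _
  · exact le_rfl

theorem Kc_le_one (φ ψ : ℕ → ℝ) (A B : Finset ℕ) (x y : ℝ) : Kc φ ψ A B x y ≤ 1 := by
  unfold Kc
  split_ifs with h
  · exact KT_le_one _ _ _ _ h.1 h.2.1.le h.2.2
  · exact zero_le_one

theorem Kc_lc {lam : ℝ} (h0 : 0 < lam) (h1 : lam < 1) (φ ψ φ' ψ' : ℕ → ℝ) (A B : Finset ℕ)
    (x y x' y' : ℝ) :
    Kc φ ψ A B x y ^ lam * Kc φ' ψ' A B x' y' ^ (1 - lam) ≤
      Kc (fun l => lam * φ l + (1 - lam) * φ' l) (fun l => lam * ψ l + (1 - lam) * ψ' l) A B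
        (lam * x + (1 - lam) * x') (lam * y + (1 - lam) * y') := by
  have h2 : 0 < 1 - lam := by linarith
  by_cases ha : 0 ≤ x ∧ x < y ∧ y ≤ 1
  · by_cases hb : 0 ≤ x' ∧ x' < y' ∧ y' ≤ 1
    · have hc : 0 ≤ lam * x + (1 - lam) * x' ∧
          lam * x + (1 - lam) * x' < lam * y + (1 - lam) * y' ∧
          lam * y + (1 - lam) * y' ≤ 1 := by
        refine ⟨add_nonneg (mul_nonneg h0.le ha.1) (mul_nonneg h2.le hb.1), ?_, ?_⟩
        · exact add_lt_add (mul_lt_mul_of_pos_left ha.2.1 h0) (mul_lt_mul_of_pos_left hb.2.1 h2)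
        · have e1 := mul_le_mul_of_nonneg_left ha.2.2 h0.le
          have e2 := mul_le_mul_of_nonneg_left hb.2.2 h2.le
          linarith
      unfold Kc
      rw [if_pos ha, if_pos hb, if_pos hc]
      exact KT_lc h0 h1 _ _ _ _ _ _ _ _ _ _
    · have : Kc φ' ψ' A B x' y' = 0 := if_neg hb
      rw [this, Real.zero_rpow h2.ne', mul_zero]
      exact Kc_nonneg _ _ _ _ _ _
  · have : Kc φ ψ A B x y = 0 := if_neg ha
    rw [this, Real.zero_rpow h0.ne', zero_mul]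
    exact Kc_nonneg _ _ _ _ _ _

/-- the superlevel sets of log-concave functions -/
theorem ord_of_lc {f : ℝ → ℝ}
    (hf : ∀ lam x y : ℝ, 0 < lam → lam < 1 → f x ^ lam * f y ^ (1 - lam) ≤
      f (lam * x + (1 - lam) * y)) {t : ℝ} (ht : 0 ≤ t) : Set.OrdConnected {x | t < f x} := by
  apply Convex.ordConnected
  intro x hx y hy a b ha hb hab
  have hx' : t < f x := hx
  have hy' : t < f y := hy
  show t < f (a • x + b • y)
  rw [smul_eq_mul, smul_eq_mul]
  rcases eq_or_lt_of_le ha with h | ha'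
  · have : b = 1 := by linarith
    rw [← h, this]
    simpa using hy'
  · rcases eq_or_lt_of_le hb with h | hb'
    · have : a = 1 := by linarith
      rw [← h, this]
      simpa using hx'
    · have hb2 : b = 1 - a := by linarith
      have ha1 : a < 1 := by linarith
      have h3 : f x ^ a * f y ^ (1 - a) ≤ f (a * x + b * y) := by
        rw [hb2]
        exact hf a x y ha' ha1
      have h1 : t = t ^ a * t ^ (1 - a) := by
        rw [← Real.rpow_add_of_nonneg ht ha (by linarith)]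
        simp
      have h4 : t ^ a < f x ^ a := Real.rpow_lt_rpow ht hx' ha'
      have h5 : t ^ (1 - a) < f y ^ (1 - a) := Real.rpow_lt_rpow ht hy' (sub_pos.2 ha1)
      calc t = t ^ a * t ^ (1 - a) := h1
        _ < f x ^ a * f y ^ (1 - a) := mul_lt_mul'' h4 h5 (Real.rpow_nonneg ht _)
            (Real.rpow_nonneg ht _)
        _ ≤ _ := h3

/-- convex combinations of equal sequences -/
theorem comb_self (lam : ℝ) (φ : ℕ → ℝ) : (fun l => lam * φ l + (1 - lam) * φ l) = φ := by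
  funext l
  ring

/-- the density of the lower centre, cut off -/
noncomputable def Fc (φ ψ : ℕ → ℝ) (A B : Finset ℕ) (x : ℝ) : ℝ :=
  if 0 ≤ x ∧ x ≤ 1 then hXT φ ψ A B x else 0

theorem Kc_int (φ ψ : ℕ → ℝ) (A B : Finset ℕ) (x : ℝ) :
    ∫ y in (0 : ℝ)..1, Kc φ ψ A B x y = Fc φ ψ A B x := by
  unfold Fc
  split_ifs with h
  · have e : (fun y => Kc φ ψ A B x y) = (Set.Ioc x 1).indicator (fun y => KT φ ψ A B x y) := by
      funext y
      unfold Kc
      simp only [Set.indicator, Set.mem_Ioc]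
      by_cases h2 : x < y ∧ y ≤ 1
      · rw [if_pos ⟨h.1, h2⟩, if_pos h2]
      · rw [if_neg (fun h3 => h2 h3.2), if_neg h2]
    unfold hXT
    rw [e, intervalIntegral.integral_of_le zero_le_one, setIntegral_indicator measurableSet_Ioc,
      intervalIntegral.integral_of_le h.2]
    congr 2
    ext y
    simp only [Set.mem_inter_iff, Set.mem_Ioc]
    constructor
    · rintro ⟨_, h3⟩
      exact h3
    · rintro h3
      exact ⟨⟨by linarith [h.1, h3.1], h3.2⟩, h3⟩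
  · have e : (fun y => Kc φ ψ A B x y) = fun _ => 0 := by
      funext y
      unfold Kc
      rw [if_neg]
      rintro ⟨h1, h2, h3⟩
      exact h ⟨h1, by linarith⟩
    rw [e, intervalIntegral.integral_zero]

theorem Fc_bd (φ ψ : ℕ → ℝ) (A B : Finset ℕ) (x : ℝ) :
    0 ≤ Fc φ ψ A B x ∧ Fc φ ψ A B x ≤ 1 := by
  unfold Fc
  split_ifs with h
  · exact hXT_bd φ ψ A B h.1 h.2
  · exact ⟨le_rfl, zero_le_one⟩

theorem Kc_meas (φ ψ : ℕ → ℝ) (A B : Finset ℕ) (x : ℝ) : Measurable fun y => Kc φ ψ A B x y := by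
  unfold Kc
  refine Measurable.ite ?_ ((KT_cont φ ψ A B).comp (Continuous.prodMk_right x)).measurable
    measurable_const
  have : {y : ℝ | 0 ≤ x ∧ x < y ∧ y ≤ 1} = {y : ℝ | 0 ≤ x} ∩ Set.Ioc x 1 := by
    ext y; simp
  rw [this]
  exact (MeasurableSet.const _).inter measurableSet_Ioc

theorem Fc_meas (φ ψ : ℕ → ℝ) (A B : Finset ℕ) : Measurable (Fc φ ψ A B) := by
  unfold Fc
  exact Measurable.ite measurableSet_Icc (hXT_cont φ ψ A B).measurable measurable_const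

/-- the inner application of the Prekopa-Leindler inequality -/
theorem Fc_lc (pl : S_PL) {lam : ℝ} (h0 : 0 < lam) (h1 : lam < 1) (φ ψ φ' ψ' : ℕ → ℝ)
    (A B : Finset ℕ) (x x' : ℝ) :
    Fc φ ψ A B x ^ lam * Fc φ' ψ' A B x' ^ (1 - lam) ≤
      Fc (fun l => lam * φ l + (1 - lam) * φ' l) (fun l => lam * ψ l + (1 - lam) * ψ' l) A B
        (lam * x + (1 - lam) * x') := by
  have hself : ∀ (φ ψ : ℕ → ℝ) (x mu y y' : ℝ), 0 < mu → mu < 1 →
      Kc φ ψ A B x y ^ mu * Kc φ ψ A B x y' ^ (1 - mu) ≤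
        Kc φ ψ A B x (mu * y + (1 - mu) * y') := by
    intro φ ψ x mu y y' hm0 hm1
    have h := Kc_lc hm0 hm1 φ ψ φ ψ A B x y x y'
    rw [comb_self, comb_self] at h
    have e : mu * x + (1 - mu) * x = x := by ring
    rwa [e] at h
  have h := pl (fun y => Kc φ ψ A B x y) (fun y => Kc φ' ψ' A B x' y)
    (fun y => Kc (fun l => lam * φ l + (1 - lam) * φ' l) (fun l => lam * ψ l + (1 - lam) * ψ' l)
      A B (lam * x + (1 - lam) * x') y) lam h0 h1 (Kc_meas _ _ _ _ _) (Kc_meas _ _ _ _ _)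
    (Kc_meas _ _ _ _ _) (fun y => ⟨Kc_nonneg _ _ _ _ _ _, Kc_le_one _ _ _ _ _ _⟩)
    (fun y => ⟨Kc_nonneg _ _ _ _ _ _, Kc_le_one _ _ _ _ _ _⟩)
    (fun y => ⟨Kc_nonneg _ _ _ _ _ _, Kc_le_one _ _ _ _ _ _⟩) ?_ ?_ ?_
  · rw [Kc_int, Kc_int, Kc_int] at h
    exact h
  · intro y hy
    have hz : ∀ (φ ψ : ℕ → ℝ) (x : ℝ), Kc φ ψ A B x y = 0 := by
      intro φ ψ x
      unfold Kc
      rw [if_neg]
      rintro ⟨h1, h2, h3⟩
      rcases hy with hy | hy <;> linarith
    exact ⟨hz _ _ _, hz _ _ _, hz _ _ _⟩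
  · intro t ht
    exact ⟨ord_of_lc (fun mu y y' hm0 hm1 => hself φ ψ x mu y y' hm0 hm1) ht,
      ord_of_lc (fun mu y y' hm0 hm1 => hself φ' ψ' x' mu y y' hm0 hm1) ht⟩
  · intro y y'
    exact Kc_lc h0 h1 φ ψ φ' ψ' A B x y x' y'

theorem Fc_int (φ ψ : ℕ → ℝ) (A B : Finset ℕ) :
    ∫ x in (0 : ℝ)..1, Fc φ ψ A B x = ZT φ ψ A B := by
  rw [ZT_eq]
  refine intervalIntegral.integral_congr fun x hx => ?_
  rw [Set.uIcc_of_le zero_le_one] at hx
  exact if_pos hx

end Lcn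

open Lcn Masn in
theorem lc : S_PL → S_LC := by
  intro pl φ ψ φ' ψ' A B lam h0 h1 _ _ _ _
  have hself : ∀ (φ ψ : ℕ → ℝ) (mu y y' : ℝ), 0 < mu → mu < 1 →
      Fc φ ψ A B y ^ mu * Fc φ ψ A B y' ^ (1 - mu) ≤ Fc φ ψ A B (mu * y + (1 - mu) * y') := by
    intro φ ψ mu y y' hm0 hm1
    have h := Fc_lc pl hm0 hm1 φ ψ φ ψ A B y y'
    rwa [comb_self, comb_self] at h
  have h := pl (Fc φ ψ A B) (Fc φ' ψ' A B)
    (Fc (fun l => lam * φ l + (1 - lam) * φ' l) (fun l => lam * ψ l + (1 - lam) * ψ' l) A B)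
    lam h0 h1 (Fc_meas _ _ _ _) (Fc_meas _ _ _ _) (Fc_meas _ _ _ _) (Fc_bd _ _ _ _)
    (Fc_bd _ _ _ _) (Fc_bd _ _ _ _) ?_ ?_ (Fc_lc pl h0 h1 φ ψ φ' ψ' A B)
  · rwa [Fc_int, Fc_int, Fc_int] at h
  · intro x hx
    have hz : ∀ (φ ψ : ℕ → ℝ), Fc φ ψ A B x = 0 := by
      intro φ ψ
      unfold Fc
      rw [if_neg]
      rintro ⟨h1, h2⟩
      rcases hx with hx | hx <;> linarith
    exact ⟨hz _ _, hz _ _, hz _ _⟩
  · intro t ht
    exact ⟨ord_of_lc (hself φ ψ) ht, ord_of_lc (hself φ' ψ') ht⟩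

end Pool.Agent.H34.RK
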