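import Pool.Agent.H34.RK.Stm2

/-! # Project RK: `S_LW` (helper51) -/

set_option autoImplicit false

open Finset MeasureTheory

namespace Pool.Agent.H34.RK

namespace LW

theorem vol_fin (a b : ℝ) : volume (Set.uIoc a b) ≠ ⊤ :=
  ne_top_of_le_ne_top (isCompact_uIcc (a := a) (b := b)).measure_lt_top.ne
    (measure_mono Set.uIoc_subset_uIcc)

/-- measurable and locally bounded -/
def LB (f : ℝ → ℝ) : Prop := Measurable f ∧ ∀ R : ℝ, ∃ C : ℝ, ∀ z, |z| ≤ R → |f z| ≤ C

theorem LB.of_bdd {f : ℝ → ℝ} (hm : Measurable f) (C : ℝ) (h : ∀ z, |f z| ≤ C) : LB f :=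
  ⟨hm, fun _ => ⟨C, fun z _ => h z⟩⟩

theorem LB.of_cont {f : ℝ → ℝ} (hf : Continuous f) : LB f := by
  refine ⟨hf.measurable, fun R => ?_⟩
  obtain ⟨C, hC⟩ := (isCompact_Icc (a := -R) (b := R)).exists_bound_of_continuousOn hf.continuousOn
  exact ⟨C, fun z hz => hC z (abs_le.1 hz)⟩

theorem LB.mul {f f' : ℝ → ℝ} (h : LB f) (h' : LB f') : LB (fun z => f z * f' z) := by
  refine ⟨h.1.mul h'.1, fun R => ?_⟩
  obtain ⟨C, hC⟩ := h.2 R
  obtain ⟨C', hC'⟩ := h'.2 R
  refine ⟨|C| * |C'|, fun z hz => ?_⟩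
  rw [abs_mul]
  exact mul_le_mul ((hC z hz).trans (le_abs_self _)) ((hC' z hz).trans (le_abs_self _))
    (abs_nonneg _) (abs_nonneg _)

theorem LB.sub {f f' : ℝ → ℝ} (h : LB f) (h' : LB f') : LB (fun z => f z - f' z) := by
  refine ⟨h.1.sub h'.1, fun R => ?_⟩
  obtain ⟨C, hC⟩ := h.2 R
  obtain ⟨C', hC'⟩ := h'.2 R
  refine ⟨C + C', fun z hz => ?_⟩
  exact (abs_sub _ _).trans (add_le_add (hC z hz) (hC' z hz))

theorem LB.ii {f : ℝ → ℝ} (h : LB f) (a b : ℝ) : IntervalIntegrable f volume a b := by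
  rw [intervalIntegrable_iff]
  obtain ⟨C, hC⟩ := h.2 (max |a| |b|)
  refine Measure.integrableOn_of_bounded (M := C) ?_ h.1.aestronglyMeasurable ?_
  · exact (vol_fin _ _)
  · filter_upwards [ae_restrict_mem measurableSet_uIoc] with z hz
    rw [Real.norm_eq_abs]
    refine hC z ?_
    have hz' := Set.uIoc_subset_uIcc hz
    rw [Set.mem_uIcc] at hz'
    rcases hz' with ⟨h1, h2⟩ | ⟨h1, h2⟩
    · exact abs_le_max_abs_abs h1 h2
    · rw [max_comm]; exact abs_le_max_abs_abs h1 h2

theorem sign_meas : Measurable Real.sign := by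
  unfold Real.sign
  refine Measurable.ite (measurableSet_lt measurable_id measurable_const) measurable_const ?_
  exact Measurable.ite (measurableSet_lt measurable_const measurable_id) measurable_const measurable_const

theorem sign_abs (x : ℝ) : |Real.sign x| ≤ 1 := by
  rcases Real.sign_apply_eq x with h | h | h <;> rw [h] <;> simp

noncomputable def W (c d : ℝ) (f f' : ℝ → ℝ) : ℝ :=
  ∫ z in c..d, ∫ z' in c..d, Real.sign (z' - z) * f z * f' z'

noncomputable def S (c d : ℝ) (f : ℝ → ℝ) (z : ℝ) : ℝ := (∫ t in z..d, f t) - ∫ t in c..z, f t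

theorem W_swap {f f' : ℝ → ℝ} (h : LB f) (h' : LB f') (c d : ℝ) : W c d f f' = - W c d f' f := by
  unfold W
  rw [intervalIntegral_intervalIntegral_swap, ← intervalIntegral.integral_neg]
  · refine intervalIntegral.integral_congr fun w _ => ?_
    rw [← intervalIntegral.integral_neg]
    refine intervalIntegral.integral_congr fun v _ => ?_
    have h3 : Real.sign (w - v) = - Real.sign (v - w) := by
      rw [← Real.sign_neg]; congr 1; ring
    simp only [h3]; ring
  · obtain ⟨C, hC⟩ := h.2 (max |c| |d|)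
    obtain ⟨C', hC'⟩ := h'.2 (max |c| |d|)
    refine Measure.integrableOn_of_bounded (M := |C| * |C'|) ?_ ?_ ?_
    · rw [Measure.volume_eq_prod, Measure.prod_prod]
      exact ENNReal.mul_ne_top (vol_fin _ _) (vol_fin _ _)
    · refine Measurable.aestronglyMeasurable ?_
      unfold Function.uncurry
      exact ((sign_meas.comp (measurable_snd.sub measurable_fst)).mul (h.1.comp measurable_fst)).mul
        (h'.1.comp measurable_snd)
    · filter_upwards [ae_restrict_mem (measurableSet_uIoc.prod measurableSet_uIoc)] with p hp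
      have hb : ∀ z ∈ Set.uIoc c d, |z| ≤ max |c| |d| := by
        intro z hz
        have hz' := Set.uIoc_subset_uIcc hz
        rw [Set.mem_uIcc] at hz'
        rcases hz' with ⟨h1, h2⟩ | ⟨h1, h2⟩
        · exact abs_le_max_abs_abs h1 h2
        · rw [max_comm]; exact abs_le_max_abs_abs h1 h2
      simp only [Function.uncurry, Real.norm_eq_abs, abs_mul]
      calc |Real.sign (p.2 - p.1)| * |f p.1| * |f' p.2| ≤ 1 * |C| * |C'| := by
            refine mul_le_mul (mul_le_mul (sign_abs _) ((hC _ (hb _ hp.1)).trans (le_abs_self _))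
              (abs_nonneg _) zero_le_one) ((hC' _ (hb _ hp.2)).trans (le_abs_self _))
              (abs_nonneg _) (by positivity)
        _ = |C| * |C'| := by ring

theorem inner {f : ℝ → ℝ} (h : LB f) {c d z : ℝ} (hc : c ≤ z) (hd : z ≤ d) (a : ℝ) :
    ∫ t in c..d, Real.sign (t - z) * a * f t = a * S c d f z := by
  have hs : LB (fun t => Real.sign (t - z) * a * f t) := by
    refine LB.mul (f := fun t => Real.sign (t - z) * a) (LB.mul (f' := fun _ => a) ?_ ?_) h
    · exact LB.of_bdd (sign_meas.comp (measurable_id.sub measurable_const)) 1 (fun _ => sign_abs _)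
    · exact LB.of_cont continuous_const
  rw [← intervalIntegral.integral_add_adjacent_intervals (hs.ii c z) (hs.ii z d)]
  have h1 : ∫ t in c..z, Real.sign (t - z) * a * f t = ∫ t in c..z, (-a) * f t := by
    refine intervalIntegral.integral_congr_ae ?_
    have hne : ∀ᵐ t : ℝ, t ≠ z := by
      rw [ae_iff]; simp
    filter_upwards [hne] with t htz ht
    rw [Set.uIoc_of_le hc] at ht
    rw [Real.sign_of_neg (by have := lt_of_le_of_ne ht.2 htz; linarith)]
    ring
  have h2 : ∫ t in z..d, Real.sign (t - z) * a * f t = ∫ t in z..d, a * f t := by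
    refine intervalIntegral.integral_congr_ae ?_
    filter_upwards with t ht
    rw [Set.uIoc_of_le hd] at ht
    rw [Real.sign_of_pos (by linarith [ht.1])]
    ring
  rw [h1, h2, intervalIntegral.integral_const_mul, intervalIntegral.integral_const_mul]
  unfold S
  ring

theorem W_eq {f f' : ℝ → ℝ} (h' : LB f') {c d : ℝ} (hcd : c ≤ d) :
    W c d f f' = ∫ z in c..d, f z * S c d f' z := by
  unfold W
  refine intervalIntegral.integral_congr fun z hz => ?_
  rw [Set.uIcc_of_le hcd] at hz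
  exact inner h' hz.1 hz.2 (f z)

theorem S_cont {f : ℝ → ℝ} (h : LB f) (c d : ℝ) : Continuous (S c d f) := by
  unfold S
  refine Continuous.sub ?_ (intervalIntegral.continuous_primitive (fun a b => h.ii a b) c)
  have : (fun z => ∫ t in z..d, f t) = fun z => - ∫ t in d..z, f t := by
    funext z; rw [intervalIntegral.integral_symm]
  rw [this]
  exact (intervalIntegral.continuous_primitive (fun a b => h.ii a b) d).neg

theorem S_sub {f f' : ℝ → ℝ} (h : LB f) (h' : LB f') (c d z : ℝ) :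
    S c d (fun t => f t - f' t) z = S c d f z - S c d f' z := by
  unfold S
  rw [intervalIntegral.integral_sub (h.ii _ _) (h'.ii _ _),
    intervalIntegral.integral_sub (h.ii _ _) (h'.ii _ _)]
  ring

theorem W_sub_right {f f₁ f₂ : ℝ → ℝ} (h : LB f) (h₁ : LB f₁) (h₂ : LB f₂) {c d : ℝ} (hcd : c ≤ d) :
    W c d f (fun t => f₁ t - f₂ t) = W c d f f₁ - W c d f f₂ := by
  rw [W_eq (h₁.sub h₂) hcd, W_eq h₁ hcd, W_eq h₂ hcd, ← intervalIntegral.integral_sub
    ((h.mul (LB.of_cont (S_cont h₁ c d))).ii _ _) ((h.mul (LB.of_cont (S_cont h₂ c d))).ii _ _)]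
  refine intervalIntegral.integral_congr fun z _ => ?_
  simp only [S_sub h₁ h₂]
  ring

theorem W_sub_left {f f₁ f₂ : ℝ → ℝ} (h : LB f) (h₁ : LB f₁) (h₂ : LB f₂) {c d : ℝ} (hcd : c ≤ d) :
    W c d (fun t => f₁ t - f₂ t) f = W c d f₁ f - W c d f₂ f := by
  rw [W_swap (h₁.sub h₂) h, W_sub_right h h₁ h₂ hcd, W_swap h h₁, W_swap h h₂]
  ring

theorem W_self {f : ℝ → ℝ} (h : LB f) (c d : ℝ) : W c d f f = 0 := by
  have := W_swap h h c d
  linarith

theorem W_diff {f f' P : ℝ → ℝ} (h : LB f) (h' : LB f') (hP : LB P) {c d : ℝ} (hcd : c ≤ d) :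
    W c d f f' - W c d (fun z => f z - P z) (fun z => f' z - P z) =
      ∫ z in c..d, S c d P z * (f z - f' z) := by
  rw [W_sub_right (h.sub hP) h' hP hcd, W_sub_left h' h hP hcd, W_sub_left hP h hP hcd,
    W_self hP, W_swap hP h']
  have h1 : ∫ z in c..d, S c d P z * (f z - f' z) = W c d f P - W c d f' P := by
    rw [W_eq hP hcd, W_eq hP hcd, ← intervalIntegral.integral_sub
      ((h.mul (LB.of_cont (S_cont hP c d))).ii _ _) ((h'.mul (LB.of_cont (S_cont hP c d))).ii _ _)]
    refine intervalIntegral.integral_congr fun z _ => ?_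
    ring
  rw [h1]
  ring

theorem W_split {f f' : ℝ → ℝ} (h : LB f) (h' : LB f') {a b c : ℝ} (hab : a ≤ b) (hbc : b ≤ c) :
    W a c f f' = W a b f f' + W b c f f' + (∫ z in a..b, f z) * (∫ z in b..c, f' z) -
      (∫ z in b..c, f z) * (∫ z in a..b, f' z) := by
  have hS := fun c d => LB.of_cont (S_cont h' c d)
  rw [W_eq h' (hab.trans hbc), W_eq h' hab, W_eq h' hbc,
    ← intervalIntegral.integral_add_adjacent_intervals ((h.mul (hS a c)).ii a b)
      ((h.mul (hS a c)).ii b c)]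
  have h1 : ∫ z in a..b, f z * S a c f' z =
      (∫ z in a..b, f z * S a b f' z) + (∫ z in a..b, f z) * (∫ z in b..c, f' z) := by
    rw [← intervalIntegral.integral_mul_const, ← intervalIntegral.integral_add
      ((h.mul (hS a b)).ii a b) ((h.mul (LB.of_cont (continuous_const (y := ∫ z in b..c, f' z)))).ii a b)]
    refine intervalIntegral.integral_congr fun z _ => ?_
    simp only [S]
    rw [← intervalIntegral.integral_add_adjacent_intervals (h'.ii z b) (h'.ii b c)]
    ring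
  have h2 : ∫ z in b..c, f z * S a c f' z =
      (∫ z in b..c, f z * S b c f' z) - (∫ z in b..c, f z) * (∫ z in a..b, f' z) := by
    rw [← intervalIntegral.integral_mul_const, ← intervalIntegral.integral_sub
      ((h.mul (hS b c)).ii b c) ((h.mul (LB.of_cont (continuous_const (y := ∫ z in a..b, f' z)))).ii b c)]
    refine intervalIntegral.integral_congr fun z _ => ?_
    simp only [S]
    rw [← intervalIntegral.integral_add_adjacent_intervals (h'.ii a b) (h'.ii b z)]
    ring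
  rw [h1, h2]
  ring

/-- restriction of an integral -/
theorem cut {Q R u : ℝ → ℝ} (hQ : LB (fun z => Q z * u z)) {c d : ℝ} (h0 : 0 ≤ c) (hcd : c ≤ d)
    (h1 : d ≤ 1) (ha : ∀ z, 0 ≤ z → z < c → Q z = 0) (hb : ∀ z, d < z → z ≤ 1 → Q z = 0)
    (hR : ∀ z, c < z → z < d → Q z = R z) :
    ∫ z in (0 : ℝ)..1, Q z * u z = ∫ z in c..d, R z * u z := by
  rw [← intervalIntegral.integral_add_adjacent_intervals (hQ.ii 0 c) (hQ.ii c 1),
    ← intervalIntegral.integral_add_adjacent_intervals (hQ.ii c d) (hQ.ii d 1)]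
  have hnc : ∀ᵐ t : ℝ, t ≠ c := by rw [ae_iff]; simp
  have hnd : ∀ᵐ t : ℝ, t ≠ d := by rw [ae_iff]; simp
  have e1 : ∫ z in (0 : ℝ)..c, Q z * u z = 0 := by
    rw [intervalIntegral.integral_zero_ae]
    filter_upwards [hnc] with z hzc hz
    rw [Set.uIoc_of_le h0] at hz
    rw [ha z hz.1.le (lt_of_le_of_ne hz.2 hzc), zero_mul]
  have e2 : ∫ z in d..(1 : ℝ), Q z * u z = 0 := by
    rw [intervalIntegral.integral_zero_ae]
    filter_upwards with z hz
    rw [Set.uIoc_of_le h1] at hz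
    rw [hb z hz.1 hz.2, zero_mul]
  have e3 : ∫ z in c..d, Q z * u z = ∫ z in c..d, R z * u z := by
    refine intervalIntegral.integral_congr_ae ?_
    filter_upwards [hnd] with z hzd hz
    rw [Set.uIoc_of_le hcd] at hz
    rw [hR z hz.1 (lt_of_le_of_ne hz.2 hzd)]
  rw [e1, e2, e3]
  ring

theorem LB_cut {R u : ℝ → ℝ} (hR : Measurable R) (hu : LB u) {P : ℝ → Prop}
    (hP : MeasurableSet {z | P z}) [DecidablePred P] (h1 : ∀ z, P z → |R z| ≤ 1) :
    LB (fun z => (if P z then R z else 0) * u z) := by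
  refine LB.mul (LB.of_bdd (Measurable.ite hP hR measurable_const) 1 fun z => ?_) hu
  split_ifs with h
  · exact h1 z h
  · simp

section tests

variable {g : ℝ} {L p q : ℕ} {h h' : ℝ → ℝ} {ε : ℝ}

theorem useB (hg : 0 < g) (hgL : g * L ≤ 1 / 4) (hp : p ≤ L)
    (hd : LB (fun z => h z - h' z))
    (H : ∀ Q : ℝ → ℝ, IsTestD 5 g L p Q → IsTestD 5 g L q (fun y => Q (1 - y)) →
      |∫ z in (0 : ℝ)..1, Q z * (h z - h' z)| ≤ ε)
    (R : ℝ → ℝ) (hR : Measurable R) (hR1 : ∀ z, g * p ≤ z → z ≤ g * L → |R z| ≤ 1)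
    (cf : ℕ → ℝ) (hcf : ∀ i, |cf i| ≤ 1)
    (hRc : ∀ z, g * p ≤ z → z ≤ g * L → R z = ∑ i ∈ range 5, cf i * (z / g) ^ i) :
    |∫ z in (g * p)..(g * L), R z * (h z - h' z)| ≤ ε := by
  have hpL : g * p ≤ g * L := mul_le_mul_of_nonneg_left (by exact_mod_cast hp) hg.le
  have hp0 : 0 ≤ g * p := by positivity
  have hms : MeasurableSet {z : ℝ | g * p ≤ z ∧ z ≤ g * L} := by
    have : {z : ℝ | g * p ≤ z ∧ z ≤ g * L} = Set.Icc (g * p) (g * L) := rfl
    rw [this]; exact measurableSet_Icc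
  have key := H (fun z => if g * p ≤ z ∧ z ≤ g * L then R z else 0) ?_ ?_
  · rw [cut (R := R) (LB_cut hR hd hms fun z hz => hR1 z hz.1 hz.2) hp0 hpL (by linarith)
      (fun z _ hz => if_neg (fun hh => absurd hh.1 (not_le.2 hz)))
      (fun z hz _ => if_neg (fun hh => absurd hh.2 (not_le.2 hz)))
      (fun z h1 h2 => if_pos ⟨h1.le, h2.le⟩)] at key
    exact key
  · refine ⟨Measurable.ite hms hR measurable_const, fun z => ?_, cf, fun i => - cf i, hcf,
      fun i => by rw [abs_neg]; exact hcf i, fun x hx0 hx => ?_⟩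
    · beta_reduce
      split_ifs with hh
      · exact hR1 z hh.1 hh.2
      · simp
    · beta_reduce
      by_cases hxp : x < g * p
      · rw [if_neg (fun hh => absurd hh.1 (not_le.2 hxp)), if_pos hxp, ← Finset.sum_add_distrib]
        rw [Finset.sum_eq_zero]
        intro i _
        ring
      · rw [if_pos ⟨not_lt.1 hxp, hx⟩, if_neg hxp, hRc x (not_lt.1 hxp) hx, add_zero]
  · refine ⟨(Measurable.ite hms hR measurable_const).comp (measurable_const.sub measurable_id),
      fun z => ?_, fun _ => 0, fun _ => 0, by simp, by simp, fun x hx0 hx => ?_⟩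
    · beta_reduce
      split_ifs with hh
      · exact hR1 _ hh.1 hh.2
      · simp
    · beta_reduce
      rw [if_neg (fun hh => by linarith [hh.2])]
      simp

theorem useT (hg : 0 < g) (hgL : g * L ≤ 1 / 4) (hq : q ≤ L)
    (hd : LB (fun z => h z - h' z))
    (H : ∀ Q : ℝ → ℝ, IsTestD 5 g L p Q → IsTestD 5 g L q (fun y => Q (1 - y)) →
      |∫ z in (0 : ℝ)..1, Q z * (h z - h' z)| ≤ ε)
    (R : ℝ → ℝ) (hR : Measurable R) (hR1 : ∀ z, 1 - g * L ≤ z → z ≤ 1 - g * q → |R z| ≤ 1)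
    (cf : ℕ → ℝ) (hcf : ∀ i, |cf i| ≤ 1)
    (hRc : ∀ x, g * q ≤ x → x ≤ g * L → R (1 - x) = ∑ i ∈ range 5, cf i * (x / g) ^ i) :
    |∫ z in (1 - g * L)..(1 - g * q), R z * (h z - h' z)| ≤ ε := by
  have hqL : g * q ≤ g * L := mul_le_mul_of_nonneg_left (by exact_mod_cast hq) hg.le
  have hq0 : 0 ≤ g * q := by positivity
  have hms : MeasurableSet {z : ℝ | 1 - g * L ≤ z ∧ z ≤ 1 - g * q} := by
    have : {z : ℝ | 1 - g * L ≤ z ∧ z ≤ 1 - g * q} = Set.Icc (1 - g * L) (1 - g * q) := rfl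
    rw [this]; exact measurableSet_Icc
  have key := H (fun z => if 1 - g * L ≤ z ∧ z ≤ 1 - g * q then R z else 0) ?_ ?_
  · rw [cut (R := R) (LB_cut hR hd hms fun z hz => hR1 z hz.1 hz.2) (by linarith) (by linarith)
      (by linarith)
      (fun z _ hz => if_neg (fun hh => absurd hh.1 (not_le.2 hz)))
      (fun z hz _ => if_neg (fun hh => absurd hh.2 (not_le.2 hz)))
      (fun z h1 h2 => if_pos ⟨h1.le, h2.le⟩)] at key
    exact key
  · refine ⟨Measurable.ite hms hR measurable_const,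
      fun z => ?_, fun _ => 0, fun _ => 0, by simp, by simp, fun x hx0 hx => ?_⟩
    · beta_reduce
      split_ifs with hh
      · exact hR1 _ hh.1 hh.2
      · simp
    · beta_reduce
      rw [if_neg (fun hh => by linarith [hh.1])]
      simp
  · refine ⟨(Measurable.ite hms hR measurable_const).comp (measurable_const.sub measurable_id),
      fun z => ?_, cf, fun i => - cf i, hcf,
      fun i => by rw [abs_neg]; exact hcf i, fun x hx0 hx => ?_⟩
    · beta_reduce
      split_ifs with hh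
      · exact hR1 _ hh.1 hh.2
      · simp
    · beta_reduce
      by_cases hxp : x < g * q
      · rw [if_neg (fun hh => by linarith [hh.2]), if_pos hxp, ← Finset.sum_add_distrib]
        rw [Finset.sum_eq_zero]
        intro i _
        ring
      · rw [if_pos ⟨by linarith, by linarith [not_lt.1 hxp]⟩, if_neg hxp, hRc x (not_lt.1 hxp) hx,
          add_zero]

theorem useM (hg : 0 < g) (hL : 1 ≤ L) (hgL : g * L ≤ 1 / 4)
    (hd : LB (fun z => h z - h' z))
    (H : ∀ Q : ℝ → ℝ, IsTestD 5 g L p Q → IsTestD 5 g L q (fun y => Q (1 - y)) →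
      |∫ z in (0 : ℝ)..1, Q z * (h z - h' z)| ≤ ε)
    (R : ℝ → ℝ) (hR : Measurable R) (hR1 : ∀ z, g * L < z → z < 1 - g * L → |R z| ≤ 1) :
    |∫ z in (g * L)..(1 - g * L), R z * (h z - h' z)| ≤ ε := by
  have hL0 : 0 ≤ g * L := by positivity
  have hms : MeasurableSet {z : ℝ | g * L < z ∧ z < 1 - g * L} := by
    have : {z : ℝ | g * L < z ∧ z < 1 - g * L} = Set.Ioo (g * L) (1 - g * L) := rfl
    rw [this]; exact measurableSet_Ioo
  have key := H (fun z => if g * L < z ∧ z < 1 - g * L then R z else 0) ?_ ?_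
  · rw [cut (R := R) (LB_cut hR hd hms fun z hz => hR1 z hz.1 hz.2) (by linarith) (by linarith)
      (by linarith)
      (fun z _ hz => if_neg (fun hh => absurd hh.1 (not_lt.2 hz.le)))
      (fun z hz _ => if_neg (fun hh => absurd hh.2 (not_lt.2 hz.le)))
      (fun z h1 h2 => if_pos ⟨h1, h2⟩)] at key
    exact key
  · refine ⟨Measurable.ite hms hR measurable_const,
      fun z => ?_, fun _ => 0, fun _ => 0, by simp, by simp, fun x hx0 hx => ?_⟩
    · beta_reduce
      split_ifs with hh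
      · exact hR1 _ hh.1 hh.2
      · simp
    · beta_reduce
      rw [if_neg (fun hh => by linarith [hh.1])]
      simp
  · refine ⟨(Measurable.ite hms hR measurable_const).comp (measurable_const.sub measurable_id),
      fun z => ?_, fun _ => 0, fun _ => 0, by simp, by simp, fun x hx0 hx => ?_⟩
    · beta_reduce
      split_ifs with hh
      · exact hR1 _ hh.1 hh.2
      · simp
    · beta_reduce
      rw [if_neg (fun hh => by linarith [hh.2])]
      simp

end tests

/-- integral of a polynomial in `z / g` -/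
theorem poly_int {g : ℝ} (hg : 0 < g) (a : ℕ → ℝ) (u v : ℝ) :
    ∫ z in u..v, ∑ i ∈ range 4, a i * (z / g) ^ i =
      ∑ i ∈ range 4, a i * g / (i + 1) * ((v / g) ^ (i + 1) - (u / g) ^ (i + 1)) := by
  rw [intervalIntegral.integral_finsetSum]
  · refine Finset.sum_congr rfl fun i _ => ?_
    rw [intervalIntegral.integral_const_mul]
    have : ∀ z : ℝ, (z / g) ^ i = z ^ i / g ^ i := fun z => div_pow z g i
    simp_rw [this]
    rw [intervalIntegral.integral_div, integral_pow, div_pow, div_pow]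
    have h1 : ((i : ℝ) + 1) ≠ 0 := by positivity
    field_simp
    ring
  · intro i _
    exact (Continuous.intervalIntegrable (by fun_prop) _ _)

/-- the coefficients -/
noncomputable def cf (g : ℝ) (L p : ℕ) (a : ℕ → ℝ) (i : ℕ) : ℝ :=
  if i = 0 then ∑ j ∈ range 4, a j * g / (j + 1) * ((L : ℝ) ^ (j + 1) + (p : ℝ) ^ (j + 1))
  else -2 * a (i - 1) * g / i

theorem poly_S {g : ℝ} (hg : 0 < g) (L p : ℕ) (a : ℕ → ℝ) (z : ℝ) :
    S (g * p) (g * L) (fun z => ∑ i ∈ range 4, a i * (z / g) ^ i) z =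
      ∑ i ∈ range 5, cf g L p a i * (z / g) ^ i := by
  unfold S
  rw [poly_int hg, poly_int hg, Finset.sum_range_succ' (fun i => cf g L p a i * (z / g) ^ i) 4]
  have e1 : g * (L : ℝ) / g = L := by field_simp
  have e2 : g * (p : ℝ) / g = p := by field_simp
  rw [e1, e2, ← Finset.sum_sub_distrib]
  unfold cf
  simp only [if_pos, Nat.succ_ne_zero, if_false, Nat.add_sub_cancel, pow_zero, mul_one]
  rw [← Finset.sum_add_distrib]
  refine Finset.sum_congr rfl fun i _ => ?_
  push_cast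
  ring

theorem cf_le {g : ℝ} (hg : 0 < g) {L p : ℕ} (hL : 1 ≤ L) (hp : p ≤ L)
    (hgL : g * (L : ℝ) ^ 4 ≤ 1 / 8) {a : ℕ → ℝ} (ha : ∀ i, |a i| ≤ 1) (i : ℕ) : |cf g L p a i| ≤ 1 := by
  have hL1 : (1 : ℝ) ≤ L := by exact_mod_cast hL
  have hpL : (p : ℝ) ≤ L := by exact_mod_cast hp
  unfold cf
  split_ifs with h
  · refine (Finset.abs_sum_le_sum_abs _ _).trans ?_
    have : ∀ j ∈ range 4, |a j * g / (j + 1) * ((L : ℝ) ^ (j + 1) + (p : ℝ) ^ (j + 1))| ≤ 1 / 4 := by
      intro j hj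
      have hj4 : j + 1 ≤ 4 := by have := mem_range.1 hj; omega
      rw [abs_mul, abs_div, abs_mul, abs_of_pos hg, abs_of_pos (by positivity : (0 : ℝ) < j + 1),
        abs_of_nonneg (by positivity : (0 : ℝ) ≤ (L : ℝ) ^ (j + 1) + (p : ℝ) ^ (j + 1))]
      have h1 : |a j| * g / (j + 1) ≤ g := by
        rw [div_le_iff₀ (by positivity)]
        have := ha j
        have hj0 : (0 : ℝ) ≤ j := by positivity
        nlinarith [mul_nonneg hg.le hj0, mul_le_mul_of_nonneg_right this hg.le]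
      have h2 : (L : ℝ) ^ (j + 1) + (p : ℝ) ^ (j + 1) ≤ 2 * (L : ℝ) ^ 4 := by
        have e1 : (L : ℝ) ^ (j + 1) ≤ (L : ℝ) ^ 4 := pow_le_pow_right₀ hL1 hj4
        have e2 : (p : ℝ) ^ (j + 1) ≤ (L : ℝ) ^ (j + 1) := pow_le_pow_left₀ (by positivity) hpL _
        linarith
      calc |a j| * g / (j + 1) * ((L : ℝ) ^ (j + 1) + (p : ℝ) ^ (j + 1)) ≤ g * (2 * (L : ℝ) ^ 4) :=
            mul_le_mul h1 h2 (by positivity) hg.le
        _ ≤ 1 / 4 := by linarith
    refine (Finset.sum_le_sum this).trans ?_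
    simp
  · have hi : (1 : ℝ) ≤ i := by exact_mod_cast Nat.one_le_iff_ne_zero.2 h
    rw [abs_div, abs_mul, abs_mul, abs_of_pos hg, abs_of_pos (by linarith : (0 : ℝ) < i),
      div_le_iff₀ (by linarith)]
    have := ha (i - 1)
    have h4 : (1 : ℝ) ≤ (L : ℝ) ^ 4 := one_le_pow₀ hL1
    have h5 : g ≤ 1 / 8 := by nlinarith
    have h6 : |(-2 : ℝ)| = 2 := by norm_num
    rw [h6]
    nlinarith [mul_le_mul_of_nonneg_right this hg.le, abs_nonneg (a (i - 1))]

theorem polyS_le {g : ℝ} (hg : 0 < g) {L p : ℕ} (hL : 1 ≤ L) (hp : p ≤ L)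
    (hgL : g * (L : ℝ) ^ 4 ≤ 1 / 8) {a : ℕ → ℝ} (ha : ∀ i, |a i| ≤ 1) (z : ℝ) (h1 : g * p ≤ z)
    (h2 : z ≤ g * L) :
    |S (g * p) (g * L) (fun z => ∑ i ∈ range 4, a i * (z / g) ^ i) z| ≤ 1 := by
  have hL1 : (1 : ℝ) ≤ L := by exact_mod_cast hL
  have hpL : (p : ℝ) ≤ L := by exact_mod_cast hp
  unfold S
  rw [poly_int hg, poly_int hg]
  have e1 : g * (L : ℝ) / g = L := by field_simp
  have e2 : g * (p : ℝ) / g = p := by field_simp
  rw [e1, e2, ← Finset.sum_sub_distrib]
  refine (Finset.abs_sum_le_sum_abs _ _).trans ?_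
  have hz1 : (p : ℝ) ≤ z / g := by rw [le_div_iff₀ hg]; linarith
  have hz2 : z / g ≤ L := by rw [div_le_iff₀ hg]; linarith
  have hz0 : 0 ≤ z / g := le_trans (by positivity) hz1
  have : ∀ j ∈ range 4, |a j * g / (j + 1) * ((L : ℝ) ^ (j + 1) - (z / g) ^ (j + 1)) -
      a j * g / (j + 1) * ((z / g) ^ (j + 1) - (p : ℝ) ^ (j + 1))| ≤ 1 / 4 := by
    intro j hj
    have hj4 : j + 1 ≤ 4 := by have := mem_range.1 hj; omega
    rw [← mul_sub, abs_mul, abs_div, abs_mul, abs_of_pos hg,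
      abs_of_pos (by positivity : (0 : ℝ) < j + 1)]
    have h1 : |a j| * g / (j + 1) ≤ g := by
      rw [div_le_iff₀ (by positivity)]
      have := ha j
      have hj0 : (0 : ℝ) ≤ j := by positivity
      nlinarith [mul_nonneg hg.le hj0, mul_le_mul_of_nonneg_right this hg.le]
    have h2 : |(L : ℝ) ^ (j + 1) - (z / g) ^ (j + 1) - ((z / g) ^ (j + 1) - (p : ℝ) ^ (j + 1))| ≤
        2 * (L : ℝ) ^ 4 := by
      have e1 : (L : ℝ) ^ (j + 1) ≤ (L : ℝ) ^ 4 := pow_le_pow_right₀ hL1 hj4
      have e2 : (p : ℝ) ^ (j + 1) ≤ (z / g) ^ (j + 1) := pow_le_pow_left₀ (by positivity) hz1 _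
      have e3 : (z / g) ^ (j + 1) ≤ (L : ℝ) ^ (j + 1) := pow_le_pow_left₀ hz0 hz2 _
      have e4 : (0 : ℝ) ≤ (p : ℝ) ^ (j + 1) := by positivity
      rw [abs_le]
      constructor <;> linarith
    calc |a j| * g / (j + 1) *
        |(L : ℝ) ^ (j + 1) - (z / g) ^ (j + 1) - ((z / g) ^ (j + 1) - (p : ℝ) ^ (j + 1))| ≤
          g * (2 * (L : ℝ) ^ 4) := mul_le_mul h1 h2 (abs_nonneg _) hg.le
      _ ≤ 1 / 4 := by linarith
  refine (Finset.sum_le_sum this).trans ?_
  simp

/-- reflection of the polynomial -/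
theorem S_refl (P : ℝ → ℝ) (c d x : ℝ) :
    S (1 - d) (1 - c) (fun z => P (1 - z)) (1 - x) = - S c d P x := by
  unfold S
  rw [intervalIntegral.integral_comp_sub_left (f := P) (a := 1 - x) (b := 1 - c) 1,
    intervalIntegral.integral_comp_sub_left (f := P) (a := 1 - d) (b := 1 - x) 1]
  simp only [sub_sub_cancel]
  ring

theorem zero_left {f r : ℝ → ℝ} {a c : ℝ} (hac : a ≤ c) (hf : ∀ z, z < c → f z = 0) :
    ∫ z in a..c, f z * r z = 0 := by
  have hnc : ∀ᵐ t : ℝ, t ≠ c := by rw [ae_iff]; simp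
  rw [intervalIntegral.integral_zero_ae]
  filter_upwards [hnc] with z hzc hz
  rw [Set.uIoc_of_le hac] at hz
  rw [hf z (lt_of_le_of_ne hz.2 hzc), zero_mul]

theorem zero_right {f r : ℝ → ℝ} {a c : ℝ} (hac : a ≤ c) (hf : ∀ z, a < z → f z = 0) :
    ∫ z in a..c, f z * r z = 0 := by
  rw [intervalIntegral.integral_zero_ae]
  filter_upwards with z hz
  rw [Set.uIoc_of_le hac] at hz
  rw [hf z hz.1, zero_mul]

theorem int_le {f : ℝ → ℝ} (hf : ∀ z, |f z| ≤ 1) {c d : ℝ} (hcd : c ≤ d) :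
    |∫ z in c..d, f z| ≤ d - c := by
  have := intervalIntegral.norm_integral_le_of_norm_le_const (f := f) (C := 1) (a := c) (b := d)
    (fun z _ => hf z)
  rw [Real.norm_eq_abs, one_mul, abs_of_nonneg (by linarith : (0 : ℝ) ≤ d - c)] at this
  exact this

end LW

open LW in
theorem lw : S_LW := by
  intro g L p q h h' a a' ε hg hL hgL8 hp hq hm hm' hb hb' h0 h1 hε H ha ha'
  have hL1 : 1 ≤ L := by omega
  have hL' : (100 : ℝ) ≤ L := by exact_mod_cast hL
  have hL4 : (8 : ℝ) ≤ (L : ℝ) ^ 4 := by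
    calc (8 : ℝ) ≤ 100 ^ 4 := by norm_num
      _ ≤ (L : ℝ) ^ 4 := pow_le_pow_left₀ (by norm_num) hL' 4
  have hgL4 : g * (L : ℝ) ^ 4 ≤ 1 / 8 := by
    have e : g * (L : ℝ) ^ 8 = g * (L : ℝ) ^ 4 * (L : ℝ) ^ 4 := by ring
    rw [e] at hgL8
    have h3 : 0 ≤ g * (L : ℝ) ^ 4 := by positivity
    nlinarith
  have hgL : g * L ≤ 1 / 8 := by
    refine le_trans (mul_le_mul_of_nonneg_left ?_ hg.le) hgL4
    calc (L : ℝ) = (L : ℝ) ^ 1 := (pow_one _).symm
      _ ≤ (L : ℝ) ^ 4 := pow_le_pow_right₀ (by linarith) (by norm_num)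
  have hgL' : g * L ≤ 1 / 4 := by linarith
  have hpL : g * p ≤ g * L := mul_le_mul_of_nonneg_left (by exact_mod_cast hp) hg.le
  have hqL : g * q ≤ g * L := mul_le_mul_of_nonneg_left (by exact_mod_cast hq) hg.le
  have hp0 : 0 ≤ g * p := by positivity
  have hq0 : 0 ≤ g * q := by positivity
  have lh : LB h := LB.of_bdd hm 1 hb
  have lh' : LB h' := LB.of_bdd hm' 1 hb'
  have ld : LB (fun z => h z - h' z) := lh.sub lh'
  have cP : Continuous (fun z : ℝ => ∑ i ∈ range 4, a i * (z / g) ^ i) := by fun_prop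
  have cP' : Continuous (fun z : ℝ => ∑ i ∈ range 4, a' i * (z / g) ^ i) := by fun_prop
  have cPT : Continuous (fun z : ℝ => ∑ i ∈ range 4, a' i * ((1 - z) / g) ^ i) := by fun_prop
  -- split
  have s1 := W_split lh lh' (a := 0) (b := g * p) (c := 1) hp0 (by linarith)
  have s2 := W_split lh lh' (a := g * p) (b := 1 - g * q) (c := 1) (by linarith) (by linarith)
  have s3 := W_split lh lh' (a := g * p) (b := g * L) (c := 1 - g * q) hpL (by linarith)
  have s4 := W_split lh lh' (a := g * L) (b := 1 - g * L) (c := 1 - g * q) (by linarith) (by linarith)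
  have z1 : W 0 (g * p) h h' = 0 := by
    rw [W_eq lh' hp0]; exact zero_left hp0 fun z hz => (h0 z hz).1
  have z2 : ∫ z in (0 : ℝ)..(g * p), h z = 0 := by
    have := zero_left (r := fun _ => 1) hp0 fun z hz => (h0 z hz).1
    simpa using this
  have z3 : ∫ z in (0 : ℝ)..(g * p), h' z = 0 := by
    have := zero_left (r := fun _ => 1) hp0 fun z hz => (h0 z hz).2
    simpa using this
  have z4 : W (1 - g * q) 1 h h' = 0 := by
    rw [W_eq lh' (by linarith)]; exact zero_right (by linarith) fun z hz => (h1 z hz).1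
  have z5 : ∫ z in (1 - g * q)..(1 : ℝ), h z = 0 := by
    have := zero_right (r := fun _ => 1) (by linarith : 1 - g * q ≤ 1) fun z hz => (h1 z hz).1
    simpa using this
  have z6 : ∫ z in (1 - g * q)..(1 : ℝ), h' z = 0 := by
    have := zero_right (r := fun _ => 1) (by linarith : 1 - g * q ≤ 1) fun z hz => (h1 z hz).2
    simpa using this
  rw [z1, z2, z3] at s1
  rw [z4, z5, z6] at s2
  have a1 := intervalIntegral.integral_add_adjacent_intervals (lh.ii (g * L) (1 - g * L))
    (lh.ii (1 - g * L) (1 - g * q))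
  have a2 := intervalIntegral.integral_add_adjacent_intervals (lh'.ii (g * L) (1 - g * L))
    (lh'.ii (1 - g * L) (1 - g * q))
  -- masses
  have mB : |(∫ z in (g * p)..(g * L), h z) - ∫ z in (g * p)..(g * L), h' z| ≤ ε := by
    have := useB hg hgL' hp ld H (fun _ => 1) measurable_const (by simp)
      (fun i => if i = 0 then 1 else 0) (fun i => by split_ifs <;> simp)
      (fun z _ _ => by simp)
    rw [← intervalIntegral.integral_sub (lh.ii _ _) (lh'.ii _ _)]
    simpa using this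
  have mT : |(∫ z in (1 - g * L)..(1 - g * q), h z) - ∫ z in (1 - g * L)..(1 - g * q), h' z| ≤ ε := by
    have := useT hg hgL' hq ld H (fun _ => 1) measurable_const (by simp)
      (fun i => if i = 0 then 1 else 0) (fun i => by split_ifs <;> simp)
      (fun z _ _ => by simp)
    rw [← intervalIntegral.integral_sub (lh.ii _ _) (lh'.ii _ _)]
    simpa using this
  have mM : |(∫ z in (g * L)..(1 - g * L), h z) - ∫ z in (g * L)..(1 - g * L), h' z| ≤ ε := by
    have := useM hg hL1 hgL' ld H (fun _ => 1) measurable_const (by simp)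
    rw [← intervalIntegral.integral_sub (lh.ii _ _) (lh'.ii _ _)]
    simpa using this
  -- middle
  have wM : |W (g * L) (1 - g * L) h h'| ≤ ε := by
    have hle : g * L ≤ 1 - g * L := by linarith
    have e := W_sub_left lh' lh lh' hle
    rw [W_self lh', sub_zero, W_eq lh' hle] at e
    rw [← e]
    have := useM hg hL1 hgL' ld H (S (g * L) (1 - g * L) h') (S_cont lh' _ _).measurable ?_
    · refine le_of_eq_of_le ?_ this
      congr 1
      refine intervalIntegral.integral_congr fun z _ => ?_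
      ring
    · intro z hz1 hz2
      unfold S
      refine (abs_sub _ _).trans ?_
      have i1 := int_le hb' hz2.le
      have i2 := int_le hb' hz1.le
      have : 0 ≤ g * L := by positivity
      linarith
  -- bottom
  have wB := W_diff lh lh' (LB.of_cont cP) hpL
  have wB' : |W (g * p) (g * L) h h' -
      W (g * p) (g * L) (fun z => h z - ∑ i ∈ range 4, a i * (z / g) ^ i)
        (fun z => h' z - ∑ i ∈ range 4, a i * (z / g) ^ i)| ≤ ε := by
    rw [wB]
    exact useB hg hgL' hp ld H _ (S_cont (LB.of_cont cP) _ _).measurable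
      (fun z hz1 hz2 => polyS_le hg hL1 hp hgL4 ha z hz1 hz2) (cf g L p a)
      (fun i => cf_le hg hL1 hp hgL4 ha i) (fun z _ _ => poly_S hg L p a z)
  -- top
  have wT := W_diff lh lh' (LB.of_cont cPT) (by linarith : 1 - g * L ≤ 1 - g * q)
  have wT' : |W (1 - g * L) (1 - g * q) h h' -
      W (1 - g * L) (1 - g * q) (fun z => h z - ∑ i ∈ range 4, a' i * ((1 - z) / g) ^ i)
        (fun z => h' z - ∑ i ∈ range 4, a' i * ((1 - z) / g) ^ i)| ≤ ε := by
    rw [wT]
    have hr := fun x => S_refl (fun z : ℝ => ∑ i ∈ range 4, a' i * (z / g) ^ i) (g * q) (g * L) x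
    refine useT hg hgL' hq ld H _ (S_cont (LB.of_cont cPT) _ _).measurable ?_
      (fun i => - cf g L q a' i) (fun i => by rw [abs_neg]; exact cf_le hg hL1 hq hgL4 ha' i) ?_
    · intro z hz1 hz2
      have := hr (1 - z)
      simp only [sub_sub_cancel] at this
      rw [this, abs_neg]
      exact polyS_le hg hL1 hq hgL4 ha' (1 - z) (by linarith) (by linarith)
    · intro x _ _
      have := hr x
      rw [this, poly_S hg L q a' x, ← Finset.sum_neg_distrib]
      refine Finset.sum_congr rfl fun i _ => ?_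
      ring
  -- bounds of the masses
  have b1 : |∫ z in (g * p)..(g * L), h z| ≤ 1 := (int_le hb hpL).trans (by linarith)
  have b2 : |∫ z in (g * L)..(1 - g * q), h z| ≤ 1 :=
    (int_le hb (by linarith)).trans (by linarith [(by positivity : 0 ≤ g * (L : ℝ))])
  have b3 : |∫ z in (g * L)..(1 - g * L), h z| ≤ 1 :=
    (int_le hb (by linarith)).trans (by linarith [(by positivity : 0 ≤ g * (L : ℝ))])
  have b4 : |∫ z in (1 - g * L)..(1 - g * q), h z| ≤ 1 := (int_le hb (by linarith)).trans (by linarith)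
  change |W 0 1 h h' - W (g * p) (g * L) (fun z => h z - ∑ i ∈ range 4, a i * (z / g) ^ i)
        (fun z => h' z - ∑ i ∈ range 4, a i * (z / g) ^ i) -
      W (1 - g * L) (1 - g * q) (fun z => h z - ∑ i ∈ range 4, a' i * ((1 - z) / g) ^ i)
        (fun z => h' z - ∑ i ∈ range 4, a' i * ((1 - z) / g) ^ i)| ≤ 20 * ε
  rw [s1, s2, s3, s4, ← a1, ← a2]
  rw [← a1] at b2
  generalize (∫ z in (g * p)..(g * L), h z) = x1 at *
  generalize (∫ z in (g * L)..(1 - g * L), h z) = x2 at *
  generalize (∫ z in (1 - g * L)..(1 - g * q), h z) = x3 at *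
  generalize (∫ z in (g * p)..(g * L), h' z) = y1 at *
  generalize (∫ z in (g * L)..(1 - g * L), h' z) = y2 at *
  generalize (∫ z in (1 - g * L)..(1 - g * q), h' z) = y3 at *
  have k1 : |x1 * ((y2 - x2) + (y3 - x3))| ≤ 2 * ε := by
    rw [abs_mul]
    have e1 : |(y2 - x2) + (y3 - x3)| ≤ 2 * ε := by
      refine (abs_add_le _ _).trans ?_
      rw [abs_sub_comm y2, abs_sub_comm y3]; linarith
    calc |x1| * |(y2 - x2) + (y3 - x3)| ≤ 1 * (2 * ε) :=
          mul_le_mul b1 e1 (abs_nonneg _) zero_le_one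
      _ = 2 * ε := by ring
  have k2 : |(x2 + x3) * (x1 - y1)| ≤ ε := by
    rw [abs_mul]
    calc |x2 + x3| * |x1 - y1| ≤ 1 * ε := mul_le_mul b2 mB (abs_nonneg _) zero_le_one
      _ = ε := by ring
  have k3 : |x2 * (y3 - x3)| ≤ ε := by
    rw [abs_mul, abs_sub_comm]
    calc |x2| * |x3 - y3| ≤ 1 * ε := mul_le_mul b3 mT (abs_nonneg _) zero_le_one
      _ = ε := by ring
  have k4 : |x3 * (x2 - y2)| ≤ ε := by
    rw [abs_mul]
    calc |x3| * |x2 - y2| ≤ 1 * ε := mul_le_mul b4 mM (abs_nonneg _) zero_le_one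
      _ = ε := by ring
  rw [abs_le] at wM wB' wT' k1 k2 k3 k4 ⊢
  constructor <;> linarith [wM.1, wM.2, wB'.1, wB'.2, wT'.1, wT'.2, k1.1, k1.2, k2.1, k2.2, k3.1, k3.2,
    k4.1, k4.2]

end Pool.Agent.H34.RK
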