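import Pool.Agent.H34.RK.Stm3

set_option autoImplicit false

open Finset MeasureTheory

namespace Pool.Agent.H34.RK

namespace MARG

lemma box {T : Type} [Fintype T] [DecidableEq T] (I : T → Set ℝ) (i : T) (q : ℝ → ENNReal)
    (hq : Measurable q) :
    ∫⁻ s in Set.univ.pi I, q (s i) = (∏ j ∈ univ.erase i, volume (I j)) * ∫⁻ a in I i, q a := by
  have h1 : (volume : Measure (T → ℝ)).restrict (Set.univ.pi I) =
      Measure.pi (fun j => (volume : Measure ℝ).restrict (I j)) := by
    rw [volume_pi, Measure.restrict_pi_pi]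
  rw [h1]
  have h2 := lintegral_map (μ := Measure.pi (fun j => (volume : Measure ℝ).restrict (I j))) hq
    (measurable_pi_apply i)
  rw [← h2]
  have h3 := Measure.pi_map_eval (μ := fun j => (volume : Measure ℝ).restrict (I j)) i
  have h4 : Measure.map (fun s : T → ℝ => s i) (Measure.pi (fun j => (volume : Measure ℝ).restrict (I j)))
      = (∏ j ∈ univ.erase i, volume (I j)) • (volume : Measure ℝ).restrict (I i) := by
    rw [show (fun s : T → ℝ => s i) = Function.eval i from rfl, h3]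
    congr 1
    refine Finset.prod_congr rfl fun j _ => ?_
    rw [Measure.restrict_apply_univ]
  rw [h4, lintegral_smul_measure, smul_eq_mul]

/-- The centres. -/
def cc (x y : ℝ) : Bool → ℝ := fun b => cond b y x

lemma cc_meas : Measurable (fun p : ℝ × ℝ => cc p.1 p.2) := by
  refine measurable_pi_iff.2 fun b => ?_
  cases b
  · exact measurable_fst
  · exact measurable_snd

lemma mp_bool : MeasurePreserving (fun p : ℝ × ℝ => cc p.1 p.2) volume volume := by
  have h1 := (volume_preserving_finTwoArrow ℝ).symm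
  have h2 := volume_measurePreserving_piCongrLeft (fun _ : Bool => ℝ) finTwoEquiv
  have h3 := h2.comp h1
  convert h3 using 1
  funext p
  funext b
  cases b
  · have := MeasurableEquiv.piCongrLeft_apply_apply (β := fun _ : Bool => ℝ) finTwoEquiv
      ((MeasurableEquiv.finTwoArrow (α := ℝ)).symm p) 0
    exact this.symm
  · have := MeasurableEquiv.piCongrLeft_apply_apply (β := fun _ : Bool => ℝ) finTwoEquiv
      ((MeasurableEquiv.finTwoArrow (α := ℝ)).symm p) 1
    exact this.symm

lemma gad {T : Type} [Fintype T] (F : (Bool ⊕ T → ℝ) → ENNReal) (hF : Measurable F) :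
    ∫⁻ ω, F ω = ∫⁻ x : ℝ, ∫⁻ y : ℝ, ∫⁻ s : T → ℝ, F (Sum.elim (cc x y) s) := by
  have h1 := (volume_measurePreserving_sumPiEquivProdPi_symm (fun _ : Bool ⊕ T => ℝ)).lintegral_comp hF
  rw [← h1]
  have hm : Measurable fun a : (Bool → ℝ) × (T → ℝ) =>
      F ((MeasurableEquiv.sumPiEquivProdPi (fun _ : Bool ⊕ T => ℝ)).symm a) :=
    hF.comp (MeasurableEquiv.measurable _)
  have hs : ∀ (c : Bool → ℝ) (s : T → ℝ),
      (MeasurableEquiv.sumPiEquivProdPi (fun _ : Bool ⊕ T => ℝ)).symm (c, s) = Sum.elim c s := by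
    intro c s
    funext i
    cases i <;> rfl
  change ∫⁻ a, F ((MeasurableEquiv.sumPiEquivProdPi (fun _ : Bool ⊕ T => ℝ)).symm a)
    ∂(volume : Measure ((Bool → ℝ) × (T → ℝ))) = _
  rw [Measure.volume_eq_prod, lintegral_prod _ hm.aemeasurable]
  simp only [hs]
  have hm2 : Measurable fun c : Bool → ℝ => ∫⁻ s : T → ℝ, F (Sum.elim c s) := by
    have := hm.lintegral_prod_right' (ν := (volume : Measure (T → ℝ)))
    simpa only [hs] using this
  have h2 := mp_bool.lintegral_comp hm2
  rw [← h2]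
  change ∫⁻ a, (∫⁻ s : T → ℝ, F (Sum.elim (cc a.1 a.2) s)) ∂(volume : Measure (ℝ × ℝ)) = _
  have hm3 : Measurable fun a : ℝ × ℝ => ∫⁻ s : T → ℝ, F (Sum.elim (cc a.1 a.2) s) :=
    hm2.comp cc_meas
  rw [Measure.volume_eq_prod, lintegral_prod _ hm3.aemeasurable]

/-- The range of a satellite. -/
def II (φ ψ : ℕ → ℝ) (A B : Finset ℕ) (x y : ℝ) : ({l : ℕ // l ∈ A} ⊕ {l : ℕ // l ∈ B}) → Set ℝ
  | .inl l => Set.Ioo (max x (φ l)) y
  | .inr l => Set.Ioo x (min y (ψ l))

lemma mem_GS {φ ψ : ℕ → ℝ} {A B : Finset ℕ} (x y : ℝ)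
    (s : ({l : ℕ // l ∈ A} ⊕ {l : ℕ // l ∈ B}) → ℝ) :
    (Sum.elim (cc x y) s : Gd A B → ℝ) ∈ GS φ ψ A B ↔
      (0 < x ∧ x < y ∧ y < 1) ∧ s ∈ Set.univ.pi (II φ ψ A B x y) := by
  constructor
  · rintro ⟨h1, h2, h3, h4, h5⟩
    have hx := h1 (.inl false)
    have hy := h1 (.inl true)
    simp only [Sum.elim_inl, cc, cond_false, cond_true] at hx hy h2
    refine ⟨⟨hx.1, h2, hy.2⟩, ?_⟩
    intro i _
    rcases i with l | l
    · have a := h3 (.inl l)
      have b := h4 l
      simp only [Sum.elim_inl, Sum.elim_inr, cc, cond_false, cond_true] at a b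
      exact ⟨max_lt a.1 b, a.2⟩
    · have a := h3 (.inr l)
      have b := h5 l
      simp only [Sum.elim_inl, Sum.elim_inr, cc, cond_false, cond_true] at a b
      exact ⟨a.1, lt_min a.2 b⟩
  · rintro ⟨⟨h1, h2, h3⟩, h⟩
    have hs : ∀ i, x < s i ∧ s i < y := by
      intro i
      have := h i (Set.mem_univ _)
      rcases i with l | l
      · exact ⟨lt_of_le_of_lt (le_max_left _ _) this.1, this.2⟩
      · exact ⟨this.1, lt_of_lt_of_le this.2 (min_le_left _ _)⟩
    refine ⟨?_, ?_, ?_, ?_, ?_⟩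
    · intro e
      rcases e with b | i
      · cases b
        · exact ⟨h1, h2.trans h3⟩
        · exact ⟨h1.trans h2, h3⟩
      · exact ⟨h1.trans (hs i).1, (hs i).2.trans h3⟩
    · exact h2
    · exact hs
    · intro l
      exact lt_of_le_of_lt (le_max_right _ _) (h (.inl l) (Set.mem_univ _)).1
    · intro l
      exact lt_of_lt_of_le (h (.inr l) (Set.mem_univ _)).2 (min_le_right _ _)

lemma meas_GS (φ ψ : ℕ → ℝ) (A B : Finset ℕ) : MeasurableSet (GS φ ψ A B) := by
  have h : GS φ ψ A B = (⋂ e : Gd A B, ({ω | 0 < ω e} ∩ {ω | ω e < 1})) ∩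
      ({ω | ω (.inl false) < ω (.inl true)} ∩
      ((⋂ s, ({ω | ω (.inl false) < ω (.inr s)} ∩ {ω | ω (.inr s) < ω (.inl true)})) ∩
      ((⋂ l : {l : ℕ // l ∈ A}, {ω | φ l < ω (.inr (.inl l))}) ∩
      (⋂ l : {l : ℕ // l ∈ B}, {ω | ω (.inr (.inr l)) < ψ l})))) := by
    ext ω
    simp only [GS, Set.mem_ofPred_eq, Set.mem_inter_iff, Set.mem_iInter]
  rw [h]
  have m : ∀ e : Gd A B, Measurable (fun ω : Gd A B → ℝ => ω e) := fun e => measurable_pi_apply e
  refine (MeasurableSet.iInter fun e => ?_).inter (MeasurableSet.inter ?_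
    ((MeasurableSet.iInter fun s => ?_).inter ((MeasurableSet.iInter fun l => ?_).inter
      (MeasurableSet.iInter fun l => ?_))))
  · exact (measurableSet_lt measurable_const (m e)).inter (measurableSet_lt (m e) measurable_const)
  · exact measurableSet_lt (m _) (m _)
  · exact (measurableSet_lt (m _) (m _)).inter (measurableSet_lt (m _) (m _))
  · exact measurableSet_lt measurable_const (m _)
  · exact measurableSet_lt (m _) measurable_const

lemma prod_erase_ite {T : Type} [Fintype T] [DecidableEq T] (h : T → ENNReal) (i : T) :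
    ∏ j ∈ univ.erase i, h j = ∏ j, if j = i then 1 else h j := by
  rw [← Finset.mul_prod_erase univ _ (mem_univ i)]
  simp only [if_true, one_mul]
  refine Finset.prod_congr rfl fun j hj => ?_
  rw [if_neg (Finset.ne_of_mem_erase hj)]

lemma prod_nat (A : Finset ℕ) (h : ℕ → ENNReal) (l : ℕ) (hl : l ∈ A) :
    ∏ j ∈ A, (if j = l then 1 else h j) = ∏ j ∈ A.erase l, h j := by
  rw [← Finset.mul_prod_erase A _ hl]
  simp only [if_true, one_mul]
  refine Finset.prod_congr rfl fun j hj => ?_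
  rw [if_neg (Finset.ne_of_mem_erase hj)]

lemma ofReal_max0 (a : ℝ) : ENNReal.ofReal (max a 0) = ENNReal.ofReal a := by
  rw [ENNReal.ofReal_max, ENNReal.ofReal_zero]
  exact max_eq_left bot_le

lemma vol_inl (φ ψ : ℕ → ℝ) (A B : Finset ℕ) (x y : ℝ) (l : {l : ℕ // l ∈ A}) :
    volume (II φ ψ A B x y (.inl l)) = ENNReal.ofReal (max (y - max x (φ l)) 0) := by
  show volume (Set.Ioo (max x (φ l)) y) = _
  rw [Real.volume_Ioo, ofReal_max0]

lemma vol_inr (φ ψ : ℕ → ℝ) (A B : Finset ℕ) (x y : ℝ) (l : {l : ℕ // l ∈ B}) :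
    volume (II φ ψ A B x y (.inr l)) = ENNReal.ofReal (max (min y (ψ l) - x) 0) := by
  show volume (Set.Ioo x (min y (ψ l))) = _
  rw [Real.volume_Ioo, ofReal_max0]

lemma ofReal_KT (φ ψ : ℕ → ℝ) (A B : Finset ℕ) (x y : ℝ) :
    ENNReal.ofReal (KT φ ψ A B x y) =
      (∏ l ∈ A, ENNReal.ofReal (max (y - max x (φ l)) 0)) *
        ∏ l ∈ B, ENNReal.ofReal (max (min y (ψ l) - x) 0) := by
  rw [KT, ENNReal.ofReal_mul (prod_nonneg fun _ _ => le_max_right _ _),
    ENNReal.ofReal_prod_of_nonneg fun _ _ => le_max_right _ _,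
    ENNReal.ofReal_prod_of_nonneg fun _ _ => le_max_right _ _]

lemma prod_all (φ ψ : ℕ → ℝ) (A B : Finset ℕ) (x y : ℝ) :
    ∏ j, volume (II φ ψ A B x y j) = ENNReal.ofReal (KT φ ψ A B x y) := by
  rw [ofReal_KT, Fintype.prod_sum_type]
  simp only [vol_inl, vol_inr]
  rw [Finset.prod_coe_sort A (fun l => ENNReal.ofReal (max (y - max x (φ l)) 0)),
    Finset.prod_coe_sort B (fun l => ENNReal.ofReal (max (min y (ψ l) - x) 0))]

lemma prod_inl (φ ψ : ℕ → ℝ) (A B : Finset ℕ) (x y : ℝ) (l : {l : ℕ // l ∈ A}) :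
    ∏ j ∈ univ.erase (.inl l), volume (II φ ψ A B x y j) =
      ENNReal.ofReal (KT φ ψ (A.erase l) B x y) := by
  rw [ofReal_KT, prod_erase_ite, Fintype.prod_sum_type]
  simp only [vol_inl, vol_inr, Sum.inl.injEq, reduceCtorEq, if_false]
  have h1 : ∀ j : {l : ℕ // l ∈ A}, (if j = l then (1 : ENNReal) else
      ENNReal.ofReal (max (y - max x (φ j)) 0)) =
      (fun j : ℕ => if j = (l : ℕ) then (1 : ENNReal) else ENNReal.ofReal (max (y - max x (φ j)) 0)) j := by
    intro j
    simp only [Subtype.ext_iff]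
  rw [Finset.prod_congr rfl fun j _ => h1 j,
    Finset.prod_coe_sort A (fun j : ℕ => if j = (l : ℕ) then (1 : ENNReal) else
      ENNReal.ofReal (max (y - max x (φ j)) 0)), prod_nat A _ _ l.2,
    Finset.prod_coe_sort B (fun l => ENNReal.ofReal (max (min y (ψ l) - x) 0))]

lemma prod_inr (φ ψ : ℕ → ℝ) (A B : Finset ℕ) (x y : ℝ) (l : {l : ℕ // l ∈ B}) :
    ∏ j ∈ univ.erase (.inr l), volume (II φ ψ A B x y j) =
      ENNReal.ofReal (KT φ ψ A (B.erase l) x y) := by
  rw [ofReal_KT, prod_erase_ite, Fintype.prod_sum_type]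
  simp only [vol_inl, vol_inr, Sum.inr.injEq, reduceCtorEq, if_false]
  have h1 : ∀ j : {l : ℕ // l ∈ B}, (if j = l then (1 : ENNReal) else
      ENNReal.ofReal (max (min y (ψ j) - x) 0)) =
      (fun j : ℕ => if j = (l : ℕ) then (1 : ENNReal) else ENNReal.ofReal (max (min y (ψ j) - x) 0)) j := by
    intro j
    simp only [Subtype.ext_iff]
  rw [Finset.prod_congr rfl fun j _ => h1 j,
    Finset.prod_coe_sort A (fun l => ENNReal.ofReal (max (y - max x (φ l)) 0)),
    Finset.prod_coe_sort B (fun j : ℕ => if j = (l : ℕ) then (1 : ENNReal) else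
      ENNReal.ofReal (max (min y (ψ j) - x) 0)), prod_nat B _ _ l.2]

/-- The region of the centres. -/
def Reg : Set (ℝ × ℝ) := {p | 0 < p.1 ∧ p.1 < p.2 ∧ p.2 < 1}

open Classical in
lemma start (φ ψ : ℕ → ℝ) (A B : Finset ℕ) (e : Gd A B) (q : ℝ → ENNReal) (hq : Measurable q) :
    ∫⁻ ω in GS φ ψ A B, q (ω e) = ∫⁻ x : ℝ, ∫⁻ y : ℝ, if 0 < x ∧ x < y ∧ y < 1 then
      ∫⁻ s in Set.univ.pi (II φ ψ A B x y), q ((Sum.elim (cc x y) s : Gd A B → ℝ) e) else 0 := by
  have hm : Measurable fun ω : Gd A B → ℝ => q (ω e) := hq.comp (measurable_pi_apply e)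
  rw [← lintegral_indicator (meas_GS φ ψ A B), gad _ (hm.indicator (meas_GS φ ψ A B))]
  refine lintegral_congr fun x => lintegral_congr fun y => ?_
  have hpi : MeasurableSet (Set.univ.pi (II φ ψ A B x y)) := by
    refine MeasurableSet.univ_pi fun i => ?_
    rcases i with l | l
    · exact measurableSet_Ioo
    · exact measurableSet_Ioo
  split_ifs with h
  · rw [← lintegral_indicator hpi]
    refine lintegral_congr fun s => ?_
    by_cases hs : s ∈ Set.univ.pi (II φ ψ A B x y)
    · rw [Set.indicator_of_mem hs, Set.indicator_of_mem ((mem_GS x y s).2 ⟨h, hs⟩)]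
    · rw [Set.indicator_of_notMem hs, Set.indicator_of_notMem fun h' => hs ((mem_GS x y s).1 h').2]
  · rw [← lintegral_zero (μ := (volume : Measure (({l : ℕ // l ∈ A} ⊕ {l : ℕ // l ∈ B}) → ℝ)))]
    refine lintegral_congr fun s => ?_
    rw [Set.indicator_of_notMem fun h' => h ((mem_GS x y s).1 h').1]

lemma cont_KT (φ ψ : ℕ → ℝ) (A B : Finset ℕ) : Continuous (fun p : ℝ × ℝ => KT φ ψ A B p.1 p.2) := by
  unfold KT
  refine (continuous_finsetProd _ fun l _ => ?_).mul (continuous_finsetProd _ fun l _ => ?_)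
  · fun_prop
  · fun_prop

lemma KT_nonneg (φ ψ : ℕ → ℝ) (A B : Finset ℕ) (x y : ℝ) : 0 ≤ KT φ ψ A B x y :=
  mul_nonneg (prod_nonneg fun _ _ => le_max_right _ _) (prod_nonneg fun _ _ => le_max_right _ _)

lemma Ioo_int (f : ℝ → ℝ) (hf : Continuous f) (h0 : ∀ t, 0 ≤ f t) (a b : ℝ) (hab : a ≤ b) :
    ∫⁻ t in Set.Ioo a b, ENNReal.ofReal (f t) = ENNReal.ofReal (∫ t in a..b, f t) := by
  rw [intervalIntegral.integral_of_le hab, ofReal_integral_eq_lintegral_ofReal
    (hf.integrableOn_Ioc) (Filter.Eventually.of_forall h0)]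
  rw [Measure.restrict_congr_set Ioo_ae_eq_Ioc]

lemma two_int (φ ψ : ℕ → ℝ) (A B : Finset ℕ) (z : ℝ) (h0 : 0 < z) (h1 : z < 1) :
    ∫⁻ x in Set.Ioo 0 z, ∫⁻ y in Set.Ioo z 1, ENNReal.ofReal (KT φ ψ A B x y) =
      ENNReal.ofReal (∫ x in (0 : ℝ)..z, ∫ y in z..1, KT φ ψ A B x y) := by
  have hc := cont_KT φ ψ A B
  have h2 : ∀ x, ∫⁻ y in Set.Ioo z 1, ENNReal.ofReal (KT φ ψ A B x y) =
      ENNReal.ofReal (∫ y in z..1, KT φ ψ A B x y) := by
    intro x
    exact Ioo_int _ (by fun_prop) (fun _ => KT_nonneg _ _ _ _ _ _) _ _ h1.le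
  simp only [h2]
  refine Ioo_int _ ?_ (fun x => ?_) _ _ h0.le
  · exact intervalIntegral.continuous_parametric_intervalIntegral_of_continuous' hc _ _
  · exact intervalIntegral.integral_nonneg h1.le fun _ _ => KT_nonneg _ _ _ _ _ _

lemma dbl1 (K : ℝ → ℝ → ENNReal) (q : ℝ → ENNReal) (hK : ∀ x, Measurable (K x)) :
    ∫⁻ x : ℝ, ∫⁻ y : ℝ, (if 0 < x ∧ x < y ∧ y < 1 then q x * K x y else 0) =
      ∫⁻ x in Set.Ioo (0 : ℝ) 1, q x * ∫⁻ y in Set.Ioo x 1, K x y := by
  classical
  rw [← lintegral_indicator measurableSet_Ioo]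
  refine lintegral_congr fun x => ?_
  by_cases hx : x ∈ Set.Ioo (0 : ℝ) 1
  · rw [Set.indicator_of_mem hx, ← lintegral_const_mul _ (hK x),
      ← lintegral_indicator measurableSet_Ioo]
    refine lintegral_congr fun y => ?_
    by_cases hy : y ∈ Set.Ioo x 1
    · rw [Set.indicator_of_mem hy, if_pos ⟨hx.1, hy.1, hy.2⟩]
    · rw [Set.indicator_of_notMem hy, if_neg fun h => hy ⟨h.2.1, h.2.2⟩]
  · rw [Set.indicator_of_notMem hx]
    refine (lintegral_congr (g := fun _ => 0) fun y => ?_).trans lintegral_zero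
    rw [if_neg fun h => hx ⟨h.1, h.2.1.trans h.2.2⟩]

lemma dbl2 (K : ℝ → ℝ → ENNReal) (q : ℝ → ENNReal) (hK : Measurable (Function.uncurry K))
    (hq : Measurable q) :
    ∫⁻ x : ℝ, ∫⁻ y : ℝ, (if 0 < x ∧ x < y ∧ y < 1 then q y * K x y else 0) =
      ∫⁻ y in Set.Ioo (0 : ℝ) 1, q y * ∫⁻ x in Set.Ioo 0 y, K x y := by
  classical
  have hset : MeasurableSet {p : ℝ × ℝ | 0 < p.1 ∧ p.1 < p.2 ∧ p.2 < 1} :=
    (measurableSet_lt measurable_const measurable_fst).inter
      ((measurableSet_lt measurable_fst measurable_snd).inter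
        (measurableSet_lt measurable_snd measurable_const))
  have hF : Measurable (Function.uncurry fun x y : ℝ =>
      if 0 < x ∧ x < y ∧ y < 1 then q y * K x y else 0) :=
    Measurable.ite hset ((hq.comp measurable_snd).mul hK) measurable_const
  rw [lintegral_lintegral_swap hF.aemeasurable, ← lintegral_indicator measurableSet_Ioo]
  refine lintegral_congr fun y => ?_
  have hKy : Measurable fun x => K x y := hK.comp (measurable_id.prodMk measurable_const)
  by_cases hy : y ∈ Set.Ioo (0 : ℝ) 1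
  · rw [Set.indicator_of_mem hy, ← lintegral_const_mul _ hKy,
      ← lintegral_indicator measurableSet_Ioo]
    refine lintegral_congr fun x => ?_
    by_cases hx : x ∈ Set.Ioo 0 y
    · rw [Set.indicator_of_mem hx, if_pos ⟨hx.1, hx.2, hy.2⟩]
    · rw [Set.indicator_of_notMem hx, if_neg fun h => hx ⟨h.1, h.2.1⟩]
  · rw [Set.indicator_of_notMem hy]
    refine (lintegral_congr (g := fun _ => 0) fun x => ?_).trans lintegral_zero
    rw [if_neg fun h => hy ⟨h.1.trans h.2.1, h.2.2⟩]

lemma trip (K : ℝ → ℝ → ENNReal) (w : ℝ → ENNReal) (hK : Measurable (Function.uncurry K))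
    (hw : Measurable w) :
    ∫⁻ x : ℝ, ∫⁻ y : ℝ, (if 0 < x ∧ x < y ∧ y < 1 then K x y * ∫⁻ z in Set.Ioo x y, w z else 0) =
      ∫⁻ z in Set.Ioo (0 : ℝ) 1, w z * ∫⁻ x in Set.Ioo 0 z, ∫⁻ y in Set.Ioo z 1, K x y := by
  classical
  set G : ℝ → ℝ → ℝ → ENNReal := fun x y z =>
    if 0 < x ∧ x < z ∧ z < y ∧ y < 1 then w z * K x y else 0 with hG
  have hset : MeasurableSet {p : ℝ × ℝ × ℝ | 0 < p.1 ∧ p.1 < p.2.2 ∧ p.2.2 < p.2.1 ∧ p.2.1 < 1} :=
    (measurableSet_lt measurable_const measurable_fst).inter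
      ((measurableSet_lt measurable_fst measurable_snd.snd).inter
        ((measurableSet_lt measurable_snd.snd measurable_snd.fst).inter
          (measurableSet_lt measurable_snd.fst measurable_const)))
  have hGm : Measurable fun p : ℝ × ℝ × ℝ => G p.1 p.2.1 p.2.2 :=
    Measurable.ite hset ((hw.comp measurable_snd.snd).mul
      (hK.comp (measurable_fst.prodMk measurable_snd.fst))) measurable_const
  have h1 : ∀ x y, (if 0 < x ∧ x < y ∧ y < 1 then K x y * ∫⁻ z in Set.Ioo x y, w z else 0) =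
      ∫⁻ z, G x y z := by
    intro x y
    split_ifs with h
    · rw [← lintegral_const_mul _ hw, ← lintegral_indicator measurableSet_Ioo]
      refine lintegral_congr fun z => ?_
      by_cases hz : z ∈ Set.Ioo x y
      · rw [Set.indicator_of_mem hz, hG]
        simp only
        rw [if_pos ⟨h.1, hz.1, hz.2, h.2.2⟩, mul_comm]
      · rw [Set.indicator_of_notMem hz, hG]
        simp only
        rw [if_neg fun h' => hz ⟨h'.2.1, h'.2.2.1⟩]
    · rw [← lintegral_zero (μ := (volume : Measure ℝ))]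
      refine lintegral_congr fun z => ?_
      rw [hG]
      simp only
      rw [if_neg fun h' => h ⟨h'.1, h'.2.1.trans h'.2.2.1, h'.2.2.2⟩]
  simp only [h1]
  have h2 : ∀ x, ∫⁻ y, ∫⁻ z, G x y z = ∫⁻ z, ∫⁻ y, G x y z := by
    intro x
    refine lintegral_lintegral_swap (Measurable.aemeasurable ?_)
    exact hGm.comp (measurable_const.prodMk measurable_id)
  simp only [h2]
  have h3 : Measurable (Function.uncurry fun x z => ∫⁻ y, G x y z) := by
    have h4 : Measurable fun p : (ℝ × ℝ) × ℝ => G p.1.1 p.2 p.1.2 :=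
      hGm.comp (measurable_fst.fst.prodMk (measurable_snd.prodMk measurable_fst.snd))
    exact h4.lintegral_prod_right'
  rw [lintegral_lintegral_swap h3.aemeasurable, ← lintegral_indicator measurableSet_Ioo]
  refine lintegral_congr fun z => ?_
  by_cases hz : z ∈ Set.Ioo (0 : ℝ) 1
  · have h5 : Measurable fun x => ∫⁻ y in Set.Ioo z 1, K x y := by
      have := hK.lintegral_prod_right' (ν := (volume : Measure ℝ).restrict (Set.Ioo z 1))
      exact this
    rw [Set.indicator_of_mem hz, ← lintegral_const_mul _ h5,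
      ← lintegral_indicator measurableSet_Ioo]
    refine lintegral_congr fun x => ?_
    have hKx : Measurable (K x) := hK.comp (measurable_const.prodMk measurable_id)
    by_cases hx : x ∈ Set.Ioo 0 z
    · rw [Set.indicator_of_mem hx, ← lintegral_const_mul _ hKx,
        ← lintegral_indicator measurableSet_Ioo]
      refine lintegral_congr fun y => ?_
      by_cases hy : y ∈ Set.Ioo z 1
      · rw [Set.indicator_of_mem hy, hG]
        simp only
        rw [if_pos ⟨hx.1, hx.2, hy.1, hy.2⟩]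
      · rw [Set.indicator_of_notMem hy, hG]
        simp only
        rw [if_neg fun h => hy ⟨h.2.2.1, h.2.2.2⟩]
    · rw [Set.indicator_of_notMem hx]
      rw [← lintegral_zero (μ := (volume : Measure ℝ))]
      refine lintegral_congr fun y => ?_
      rw [hG]
      simp only
      rw [if_neg fun h => hx ⟨h.1, h.2.1⟩]
  · rw [Set.indicator_of_notMem hz]
    refine (lintegral_congr (g := fun _ => 0) fun x => ?_).trans lintegral_zero
    refine (lintegral_congr (g := fun _ => 0) fun y => ?_).trans lintegral_zero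
    rw [hG]
    simp only
    rw [if_neg fun h => hz ⟨h.1.trans h.2.1, h.2.2.1.trans h.2.2.2⟩]

lemma meas_K (φ ψ : ℕ → ℝ) (A B : Finset ℕ) :
    Measurable (Function.uncurry fun x y => ENNReal.ofReal (KT φ ψ A B x y)) :=
  ENNReal.measurable_ofReal.comp (cont_KT φ ψ A B).measurable

end MARG

open MARG

theorem marg : S_MARG := by
  intro φ ψ A B e q hq
  classical
  rw [start φ ψ A B e q hq]
  rcases e with b | l | l
  · have h1 : ∀ x y, (if 0 < x ∧ x < y ∧ y < 1 then
        ∫⁻ s in Set.univ.pi (II φ ψ A B x y), q ((Sum.elim (cc x y) s : Gd A B → ℝ) (.inl b)) else 0) =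
        if 0 < x ∧ x < y ∧ y < 1 then q (cc x y b) * ENNReal.ofReal (KT φ ψ A B x y) else 0 := by
      intro x y
      split_ifs with h
      · simp only [Sum.elim_inl]
        rw [setLIntegral_const, volume_pi_pi, prod_all]
      · rfl
    simp only [h1]
    cases b
    · simp only [cc, cond_false]
      rw [dbl1 (fun x y => ENNReal.ofReal (KT φ ψ A B x y)) q fun x =>
        (meas_K φ ψ A B).comp (measurable_const.prodMk measurable_id)]
      refine setLIntegral_congr_fun measurableSet_Ioo fun x hx => ?_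
      simp only [roleOf, dens, hXT]
      rw [Ioo_int (fun y => KT φ ψ A B x y)
        ((cont_KT φ ψ A B).comp (continuous_const.prodMk continuous_id))
        (fun _ => KT_nonneg _ _ _ _ _ _) _ _ hx.2.le]
    · simp only [cc, cond_true]
      rw [dbl2 (fun x y => ENNReal.ofReal (KT φ ψ A B x y)) q (meas_K φ ψ A B) hq]
      refine setLIntegral_congr_fun measurableSet_Ioo fun y hy => ?_
      simp only [roleOf, dens, hYT]
      rw [Ioo_int (fun x => KT φ ψ A B x y)
        ((cont_KT φ ψ A B).comp (continuous_id.prodMk continuous_const))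
        (fun _ => KT_nonneg _ _ _ _ _ _) _ _ hy.1.le]
  · set w : ℝ → ENNReal := fun z => if φ l < z then q z else 0 with hw
    have hwm : Measurable w :=
      Measurable.ite (measurableSet_lt measurable_const measurable_id) hq measurable_const
    have h1 : ∀ x y, (if 0 < x ∧ x < y ∧ y < 1 then
        ∫⁻ s in Set.univ.pi (II φ ψ A B x y),
          q ((Sum.elim (cc x y) s : Gd A B → ℝ) (.inr (.inl l))) else 0) =
        if 0 < x ∧ x < y ∧ y < 1 then ENNReal.ofReal (KT φ ψ (A.erase l) B x y) *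
          ∫⁻ z in Set.Ioo x y, w z else 0 := by
      intro x y
      split_ifs with h
      · simp only [Sum.elim_inr]
        rw [box _ _ q hq, prod_inl]
        congr 1
        show ∫⁻ a in Set.Ioo (max x (φ l)) y, q a = _
        rw [← lintegral_indicator measurableSet_Ioo, ← lintegral_indicator measurableSet_Ioo]
        refine lintegral_congr fun z => ?_
        by_cases hz : z ∈ Set.Ioo (max x (φ l)) y
        · rw [Set.indicator_of_mem hz, Set.indicator_of_mem
            (show z ∈ Set.Ioo x y from ⟨lt_of_le_of_lt (le_max_left _ _) hz.1, hz.2⟩), hw]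
          simp only
          rw [if_pos (lt_of_le_of_lt (le_max_right _ _) hz.1)]
        · rw [Set.indicator_of_notMem hz]
          by_cases hz2 : z ∈ Set.Ioo x y
          · rw [Set.indicator_of_mem hz2, hw]
            simp only
            rw [if_neg fun h' => hz ⟨max_lt hz2.1 h', hz2.2⟩]
          · rw [Set.indicator_of_notMem hz2]
      · rfl
    simp only [h1]
    rw [trip (fun x y => ENNReal.ofReal (KT φ ψ (A.erase l) B x y)) w (meas_K φ ψ (A.erase l) B) hwm]
    refine setLIntegral_congr_fun_ae measurableSet_Ioo ?_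
    have hne : ∀ᵐ z : ℝ, z ≠ φ l := by
      rw [ae_iff]
      simp
    filter_upwards [hne] with z hz1 hz
    rw [two_int _ _ _ _ _ hz.1 hz.2, hw]
    simp only [roleOf, dens, hZT]
    by_cases h : φ l < z
    · rw [if_pos h, if_pos ⟨h.le, hz.2.le⟩]
    · rw [if_neg h, if_neg fun h' => h (lt_of_le_of_ne h'.1 (Ne.symm hz1))]
      simp
  · set w : ℝ → ENNReal := fun z => if z < ψ l then q z else 0 with hw
    have hwm : Measurable w :=
      Measurable.ite (measurableSet_lt measurable_id measurable_const) hq measurable_const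
    have h1 : ∀ x y, (if 0 < x ∧ x < y ∧ y < 1 then
        ∫⁻ s in Set.univ.pi (II φ ψ A B x y),
          q ((Sum.elim (cc x y) s : Gd A B → ℝ) (.inr (.inr l))) else 0) =
        if 0 < x ∧ x < y ∧ y < 1 then ENNReal.ofReal (KT φ ψ A (B.erase l) x y) *
          ∫⁻ z in Set.Ioo x y, w z else 0 := by
      intro x y
      split_ifs with h
      · simp only [Sum.elim_inr]
        rw [box _ _ q hq, prod_inr]
        congr 1
        show ∫⁻ a in Set.Ioo x (min y (ψ l)), q a = _
        rw [← lintegral_indicator measurableSet_Ioo, ← lintegral_indicator measurableSet_Ioo]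
        refine lintegral_congr fun z => ?_
        by_cases hz : z ∈ Set.Ioo x (min y (ψ l))
        · rw [Set.indicator_of_mem hz, Set.indicator_of_mem
            (show z ∈ Set.Ioo x y from ⟨hz.1, lt_of_lt_of_le hz.2 (min_le_left _ _)⟩), hw]
          simp only
          rw [if_pos (lt_of_lt_of_le hz.2 (min_le_right _ _))]
        · rw [Set.indicator_of_notMem hz]
          by_cases hz2 : z ∈ Set.Ioo x y
          · rw [Set.indicator_of_mem hz2, hw]
            simp only
            rw [if_neg fun h' => hz ⟨hz2.1, lt_min hz2.2 h'⟩]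
          · rw [Set.indicator_of_notMem hz2]
      · rfl
    simp only [h1]
    rw [trip (fun x y => ENNReal.ofReal (KT φ ψ A (B.erase l) x y)) w (meas_K φ ψ A (B.erase l)) hwm]
    refine setLIntegral_congr_fun_ae measurableSet_Ioo ?_
    have hne : ∀ᵐ z : ℝ, z ≠ ψ l := by
      rw [ae_iff]
      simp
    filter_upwards [hne] with z hz1 hz
    rw [two_int _ _ _ _ _ hz.1 hz.2, hw]
    simp only [roleOf, dens, hZT]
    by_cases h : z < ψ l
    · rw [if_pos h, if_pos ⟨hz.1.le, h.le⟩]
    · rw [if_neg h, if_neg fun h' => h (lt_of_le_of_ne h'.2 hz1)]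
      simp

end Pool.Agent.H34.RK
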