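import Pool.Agent.H34.RK.Stm3

/-! RK-MASS (helper33): total masses and regularity for general frontiers. -/

set_option autoImplicit false

open Finset MeasureTheory

namespace Pool.Agent.H34.RK

namespace Masn

theorem KT_cont (φ ψ : ℕ → ℝ) (A B : Finset ℕ) :
    Continuous (fun xy : ℝ × ℝ => KT φ ψ A B xy.1 xy.2) := by
  unfold KT
  fun_prop

theorem KT_nonneg (φ ψ : ℕ → ℝ) (A B : Finset ℕ) (x y : ℝ) : 0 ≤ KT φ ψ A B x y :=
  mul_nonneg (Finset.prod_nonneg fun _ _ => le_max_right _ _)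
    (Finset.prod_nonneg fun _ _ => le_max_right _ _)

theorem KT_le_one (φ ψ : ℕ → ℝ) (A B : Finset ℕ) {x y : ℝ} (hx : 0 ≤ x) (_hxy : x ≤ y)
    (hy : y ≤ 1) : KT φ ψ A B x y ≤ 1 := by
  unfold KT
  refine mul_le_one₀ ?_ (Finset.prod_nonneg fun _ _ => le_max_right _ _) ?_
  · refine Finset.prod_le_one (fun _ _ => le_max_right _ _) fun l _ => max_le ?_ zero_le_one
    linarith [le_max_left x (φ l)]
  · refine Finset.prod_le_one (fun _ _ => le_max_right _ _) fun l _ => max_le ?_ zero_le_one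
    linarith [min_le_left y (ψ l)]

theorem hXT_cont (φ ψ : ℕ → ℝ) (A B : Finset ℕ) : Continuous (hXT φ ψ A B) := by
  have h := intervalIntegral.continuous_parametric_intervalIntegral_of_continuous (μ := volume)
    (a₀ := (1 : ℝ)) (f := fun x y => KT φ ψ A B x y) (KT_cont φ ψ A B) continuous_id
  have e : hXT φ ψ A B = fun x => - ∫ y in (1 : ℝ)..x, KT φ ψ A B x y := by
    funext x
    unfold hXT
    rw [intervalIntegral.integral_symm]
  rw [e]
  exact h.neg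

theorem hYT_cont (φ ψ : ℕ → ℝ) (A B : Finset ℕ) : Continuous (hYT φ ψ A B) := by
  have hc : Continuous (Function.uncurry fun y x : ℝ => KT φ ψ A B x y) :=
    (KT_cont φ ψ A B).comp continuous_swap
  exact intervalIntegral.continuous_parametric_intervalIntegral_of_continuous (μ := volume)
    (a₀ := (0 : ℝ)) (f := fun y x => KT φ ψ A B x y) hc continuous_id

/-- the core of `hZT` -/
noncomputable def core (φ ψ : ℕ → ℝ) (A B : Finset ℕ) (z : ℝ) : ℝ :=
  ∫ x in (0 : ℝ)..z, ∫ y in z..1, KT φ ψ A B x y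

theorem core_cont (φ ψ : ℕ → ℝ) (A B : Finset ℕ) : Continuous (core φ ψ A B) := by
  have h1 : Continuous fun w : ℝ × ℝ => ∫ y in (1 : ℝ)..w.1, KT φ ψ A B w.2 y := by
    have hc : Continuous (Function.uncurry fun (w : ℝ × ℝ) (y : ℝ) => KT φ ψ A B w.2 y) :=
      (KT_cont φ ψ A B).comp (by fun_prop :
        Continuous fun w : (ℝ × ℝ) × ℝ => (w.1.2, w.2))
    exact intervalIntegral.continuous_parametric_intervalIntegral_of_continuous (μ := volume)
      (a₀ := (1 : ℝ)) (f := fun (w : ℝ × ℝ) y => KT φ ψ A B w.2 y) hc continuous_fst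
  have h2 : Continuous (Function.uncurry fun z x : ℝ => ∫ y in z..(1 : ℝ), KT φ ψ A B x y) := by
    have e : (Function.uncurry fun z x : ℝ => ∫ y in z..(1 : ℝ), KT φ ψ A B x y) =
        fun w : ℝ × ℝ => - ∫ y in (1 : ℝ)..w.1, KT φ ψ A B w.2 y := by
      funext w
      simp only [Function.uncurry]
      rw [intervalIntegral.integral_symm]
    rw [e]
    exact h1.neg
  exact intervalIntegral.continuous_parametric_intervalIntegral_of_continuous (μ := volume)
    (a₀ := (0 : ℝ)) h2 continuous_id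

theorem hXT_bd (φ ψ : ℕ → ℝ) (A B : Finset ℕ) {z : ℝ} (h0 : 0 ≤ z) (h1 : z ≤ 1) :
    0 ≤ hXT φ ψ A B z ∧ hXT φ ψ A B z ≤ 1 := by
  unfold hXT
  constructor
  · exact intervalIntegral.integral_nonneg h1 fun y _ => KT_nonneg _ _ _ _ _ _
  · have hc : Continuous fun y => KT φ ψ A B z y := (KT_cont φ ψ A B).comp (Continuous.prodMk_right z)
    have h2 : ∫ y in z..1, KT φ ψ A B z y ≤ ∫ y in z..1, (1 : ℝ) :=
      intervalIntegral.integral_mono_on h1 (hc.intervalIntegrable _ _) (by simp)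
        fun y hy => KT_le_one _ _ _ _ h0 hy.1 hy.2
    refine h2.trans ?_
    rw [intervalIntegral.integral_const, smul_eq_mul, mul_one]
    linarith

theorem hYT_bd (φ ψ : ℕ → ℝ) (A B : Finset ℕ) {z : ℝ} (h0 : 0 ≤ z) (h1 : z ≤ 1) :
    0 ≤ hYT φ ψ A B z ∧ hYT φ ψ A B z ≤ 1 := by
  unfold hYT
  constructor
  · exact intervalIntegral.integral_nonneg h0 fun y _ => KT_nonneg _ _ _ _ _ _
  · have hc : Continuous fun x => KT φ ψ A B x z := (KT_cont φ ψ A B).comp (Continuous.prodMk_left z)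
    have h2 : ∫ x in (0 : ℝ)..z, KT φ ψ A B x z ≤ ∫ x in (0 : ℝ)..z, (1 : ℝ) :=
      intervalIntegral.integral_mono_on h0 (hc.intervalIntegrable _ _) (by simp)
        fun x hx => KT_le_one _ _ _ _ hx.1 hx.2 h1
    refine h2.trans ?_
    rw [intervalIntegral.integral_const, smul_eq_mul, mul_one]
    linarith

theorem core_bd (φ ψ : ℕ → ℝ) (A B : Finset ℕ) {z : ℝ} (h0 : 0 ≤ z) (h1 : z ≤ 1) :
    0 ≤ core φ ψ A B z ∧ core φ ψ A B z ≤ 1 := by
  unfold core
  have hI : Continuous fun x => ∫ y in z..(1 : ℝ), KT φ ψ A B x y :=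
    intervalIntegral.continuous_parametric_intervalIntegral_of_continuous' (KT_cont φ ψ A B) _ _
  constructor
  · exact intervalIntegral.integral_nonneg h0 fun x _ =>
      intervalIntegral.integral_nonneg h1 fun y _ => KT_nonneg _ _ _ _ _ _
  · have h2 : ∀ x ∈ Set.Icc (0 : ℝ) z, ∫ y in z..(1 : ℝ), KT φ ψ A B x y ≤ 1 := by
      intro x hx
      have hc : Continuous fun y => KT φ ψ A B x y := (KT_cont φ ψ A B).comp (Continuous.prodMk_right x)
      have h2 : ∫ y in z..1, KT φ ψ A B x y ≤ ∫ y in z..1, (1 : ℝ) :=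
        intervalIntegral.integral_mono_on h1 (hc.intervalIntegrable _ _) (by simp)
          fun y hy => KT_le_one _ _ _ _ hx.1 (hx.2.trans hy.1) hy.2
      refine h2.trans ?_
      rw [intervalIntegral.integral_const, smul_eq_mul, mul_one]
      linarith
    have h3 : ∫ x in (0 : ℝ)..z, ∫ y in z..(1 : ℝ), KT φ ψ A B x y ≤ ∫ x in (0 : ℝ)..z, (1 : ℝ) :=
      intervalIntegral.integral_mono_on h0 (hI.intervalIntegrable _ _) (by simp) h2
    refine h3.trans ?_
    rw [intervalIntegral.integral_const, smul_eq_mul, mul_one]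
    linarith

theorem hZT_eq (φ ψ : ℕ → ℝ) (A B : Finset ℕ) (lo hi : ℝ) :
    hZT φ ψ A B lo hi = (Set.Icc lo hi).indicator (core φ ψ A B) := by
  funext z
  unfold hZT core
  simp only [Set.indicator, Set.mem_Icc]

theorem hZT_bd (φ ψ : ℕ → ℝ) (A B : Finset ℕ) (lo hi : ℝ) {z : ℝ} (h0 : 0 ≤ z) (h1 : z ≤ 1) :
    0 ≤ hZT φ ψ A B lo hi z ∧ hZT φ ψ A B lo hi z ≤ 1 := by
  rw [hZT_eq]
  unfold Set.indicator
  split_ifs
  · exact core_bd φ ψ A B h0 h1
  · exact ⟨le_rfl, zero_le_one⟩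

theorem hZT_int (φ ψ : ℕ → ℝ) (A B : Finset ℕ) (lo hi a b : ℝ) :
    IntervalIntegrable (hZT φ ψ A B lo hi) volume a b := by
  rw [hZT_eq]
  have h := (core_cont φ ψ A B).intervalIntegrable (μ := volume) a b
  exact ⟨h.1.indicator measurableSet_Icc, h.2.indicator measurableSet_Icc⟩

theorem dens_bd (φ ψ : ℕ → ℝ) (A B : Finset ℕ) (r : Role) {z : ℝ} (h0 : 0 ≤ z) (h1 : z ≤ 1) :
    0 ≤ dens φ ψ A B r z ∧ dens φ ψ A B r z ≤ 1 := by
  cases r with
  | lo => exact hXT_bd φ ψ A B h0 h1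
  | hi => exact hYT_bd φ ψ A B h0 h1
  | sa l => exact hZT_bd φ ψ _ _ _ _ h0 h1
  | sb l => exact hZT_bd φ ψ _ _ _ _ h0 h1

theorem dens_int (φ ψ : ℕ → ℝ) (A B : Finset ℕ) (r : Role) (a b : ℝ) :
    IntervalIntegrable (dens φ ψ A B r) volume a b := by
  cases r with
  | lo => exact (hXT_cont φ ψ A B).intervalIntegrable _ _
  | hi => exact (hYT_cont φ ψ A B).intervalIntegrable _ _
  | sa l => exact hZT_int φ ψ _ _ _ _ _ _
  | sb l => exact hZT_int φ ψ _ _ _ _ _ _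

theorem ZT_eq (φ ψ : ℕ → ℝ) (A B : Finset ℕ) : ZT φ ψ A B = ∫ x in (0 : ℝ)..1, hXT φ ψ A B x := rfl

theorem ZT_bd (φ ψ : ℕ → ℝ) (A B : Finset ℕ) : 0 ≤ ZT φ ψ A B ∧ ZT φ ψ A B ≤ 1 := by
  rw [ZT_eq]
  constructor
  · exact intervalIntegral.integral_nonneg zero_le_one fun x hx => (hXT_bd φ ψ A B hx.1 hx.2).1
  · have h3 : ∫ x in (0 : ℝ)..1, hXT φ ψ A B x ≤ ∫ x in (0 : ℝ)..1, (1 : ℝ) :=
      intervalIntegral.integral_mono_on zero_le_one ((hXT_cont φ ψ A B).intervalIntegrable _ _)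
        (by simp) fun x hx => (hXT_bd φ ψ A B hx.1 hx.2).2
    refine h3.trans ?_
    rw [intervalIntegral.integral_const, smul_eq_mul, mul_one]
    norm_num

/-- volume of the gadget polytope -/
theorem vol_eq (marg : S_MARG) (φ ψ : ℕ → ℝ) (A B : Finset ℕ) (e : Gd A B) :
    volume (GS φ ψ A B) = ENNReal.ofReal (∫ z in (0 : ℝ)..1, dens φ ψ A B (roleOf e) z) := by
  have h := marg φ ψ A B e (fun _ => 1) measurable_const
  rw [setLIntegral_one] at h
  simp only [one_mul] at h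
  rw [h, intervalIntegral.integral_of_le zero_le_one, integral_Ioc_eq_integral_Ioo,
    ofReal_integral_eq_lintegral_ofReal]
  · exact ((dens_int φ ψ A B (roleOf e) 0 1).1).mono_set Set.Ioo_subset_Ioc_self
  · refine (ae_restrict_iff' measurableSet_Ioo).2 (Filter.Eventually.of_forall ?_)
    intro z hz
    exact (dens_bd φ ψ A B (roleOf e) hz.1.le hz.2.le).1

/-- the measure of a window -/
theorem ind_le {x y : ℝ} (hxy : x ≤ y) (lo hi : ℝ) :
    ∫ z in x..y, (if lo ≤ z ∧ z ≤ hi then (1 : ℝ) else 0) ≤ max (min y hi - max x lo) 0 := by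
  have e : (fun z : ℝ => if lo ≤ z ∧ z ≤ hi then (1 : ℝ) else 0) =
      (Set.Icc lo hi).indicator (1 : ℝ → ℝ) := by
    funext z
    simp only [Set.indicator, Set.mem_Icc, Pi.one_apply]
  rw [e, intervalIntegral.integral_of_le hxy, integral_indicator_one measurableSet_Icc,
    measureReal_restrict_apply measurableSet_Icc]
  have hsub : Set.Icc lo hi ∩ Set.Ioc x y ⊆ Set.Icc (max x lo) (min y hi) := by
    rintro z ⟨⟨h1, h2⟩, h3, h4⟩
    exact ⟨max_le h3.le h1, le_min h4 h2⟩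
  refine (measureReal_mono hsub (by simp)).trans ?_
  rw [Real.volume_real_Icc]

theorem ind_int (lo hi x y : ℝ) :
    IntervalIntegrable (fun z : ℝ => if lo ≤ z ∧ z ≤ hi then (1 : ℝ) else 0) volume x y := by
  have e : (fun z : ℝ => if lo ≤ z ∧ z ≤ hi then (1 : ℝ) else 0) =
      (Set.Icc lo hi).indicator (fun _ => (1 : ℝ)) := by
    funext z
    simp only [Set.indicator, Set.mem_Icc]
  rw [e]
  have h := (continuous_const (y := (1 : ℝ))).intervalIntegrable (μ := volume) x y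
  exact ⟨h.1.indicator measurableSet_Icc, h.2.indicator measurableSet_Icc⟩

theorem abs_sign_le (t : ℝ) : |Real.sign t| ≤ 1 := by
  rcases lt_trichotomy t 0 with h | h | h
  · rw [Real.sign_of_neg h]; simp
  · rw [h, Real.sign_zero]; simp
  · rw [Real.sign_of_pos h]; simp

/-- the inner double integral -/
theorem inner_le {x y : ℝ} (hxy : x ≤ y) (lo hi lo' hi' : ℝ) :
    |∫ z in x..y, ∫ z' in x..y, (if lo ≤ z ∧ z ≤ hi ∧ lo' ≤ z' ∧ z' ≤ hi' then
      Real.sign (z' - z) else 0)| ≤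
      max (min y hi - max x lo) 0 * max (min y hi' - max x lo') 0 := by
  obtain ⟨K, hK⟩ : ∃ K, K = ∫ z' in x..y, (if lo' ≤ z' ∧ z' ≤ hi' then (1 : ℝ) else 0) := ⟨_, rfl⟩
  have hK0 : 0 ≤ K := by
    rw [hK]
    refine intervalIntegral.integral_nonneg hxy fun z _ => ?_
    split_ifs <;> norm_num
  have h1 : ∀ z, ‖∫ z' in x..y, (if lo ≤ z ∧ z ≤ hi ∧ lo' ≤ z' ∧ z' ≤ hi' then
      Real.sign (z' - z) else 0)‖ ≤ (if lo ≤ z ∧ z ≤ hi then (1 : ℝ) else 0) * K := by
    intro z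
    rw [hK, ← intervalIntegral.integral_const_mul]
    refine intervalIntegral.norm_integral_le_of_norm_le hxy (Filter.Eventually.of_forall ?_)
      ((ind_int lo' hi' x y).const_mul _)
    intro z' _
    rw [Real.norm_eq_abs]
    by_cases h2 : lo ≤ z ∧ z ≤ hi
    · by_cases h3 : lo' ≤ z' ∧ z' ≤ hi'
      · rw [if_pos ⟨h2.1, h2.2, h3.1, h3.2⟩, if_pos h2, if_pos h3, mul_one]
        exact abs_sign_le _
      · rw [if_neg (fun h => h3 ⟨h.2.2.1, h.2.2.2⟩), if_neg h3, mul_zero, abs_zero]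
    · rw [if_neg (fun h => h2 ⟨h.1, h.2.1⟩), if_neg h2, zero_mul, abs_zero]
  have h2 : ‖∫ z in x..y, ∫ z' in x..y, (if lo ≤ z ∧ z ≤ hi ∧ lo' ≤ z' ∧ z' ≤ hi' then
      Real.sign (z' - z) else 0)‖ ≤ ∫ z in x..y, (if lo ≤ z ∧ z ≤ hi then (1 : ℝ) else 0) * K :=
    intervalIntegral.norm_integral_le_of_norm_le hxy (Filter.Eventually.of_forall fun z _ => h1 z)
      ((ind_int lo hi x y).mul_const _)
  rw [Real.norm_eq_abs] at h2
  refine h2.trans ?_
  rw [intervalIntegral.integral_mul_const]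
  refine mul_le_mul (ind_le hxy lo hi) ?_ hK0 (le_max_right _ _)
  rw [hK]
  exact ind_le hxy lo' hi'

theorem WS_le (φ ψ : ℕ → ℝ) (A' B' A B : Finset ℕ) (lo hi lo' hi' : ℝ)
    (hK : ∀ x y, 0 ≤ x → x ≤ y → y ≤ 1 → KT φ ψ A' B' x y *
      (max (min y hi - max x lo) 0 * max (min y hi' - max x lo') 0) ≤ KT φ ψ A B x y) :
    |WS φ ψ A' B' lo hi lo' hi'| ≤ ZT φ ψ A B := by
  unfold WS ZT
  rw [← Real.norm_eq_abs]
  refine intervalIntegral.norm_integral_le_of_norm_le zero_le_one (Filter.Eventually.of_forall ?_)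
    ((hXT_cont φ ψ A B).intervalIntegrable _ _)
  rintro x ⟨hx0, hx1⟩
  have hc : Continuous fun y => KT φ ψ A B x y := (KT_cont φ ψ A B).comp (Continuous.prodMk_right x)
  refine intervalIntegral.norm_integral_le_of_norm_le hx1 (Filter.Eventually.of_forall ?_)
    (hc.intervalIntegrable _ _)
  rintro y ⟨hy0, hy1⟩
  rw [norm_mul, Real.norm_eq_abs, Real.norm_eq_abs, abs_of_nonneg (KT_nonneg _ _ _ _ _ _)]
  refine le_trans ?_ (hK x y hx0.le hy0.le hy1)
  exact mul_le_mul_of_nonneg_left (inner_le hy0.le lo hi lo' hi') (KT_nonneg _ _ _ _ _ _)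

theorem KT_eraseA (φ ψ : ℕ → ℝ) (A B : Finset ℕ) {l : ℕ} (hl : l ∈ A) (x y : ℝ) :
    KT φ ψ A B x y = KT φ ψ (A.erase l) B x y * max (y - max x (φ l)) 0 := by
  unfold KT
  rw [← Finset.mul_prod_erase A _ hl]
  ring

theorem KT_eraseB (φ ψ : ℕ → ℝ) (A B : Finset ℕ) {l : ℕ} (hl : l ∈ B) (x y : ℝ) :
    KT φ ψ A B x y = KT φ ψ A (B.erase l) x y * max (min y (ψ l) - x) 0 := by
  unfold KT
  rw [← Finset.mul_prod_erase B _ hl]
  ring

end Masn

open Masn in
theorem mass : S_MARG → S_MASS := by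
  intro marg φ ψ A B e hφ hψ
  have hv := vol_eq marg φ ψ A B e
  have hv0 := vol_eq marg φ ψ A B (.inl false)
  have hZ : ∫ z in (0 : ℝ)..1, dens φ ψ A B (roleOf (.inl false : Gd A B)) z = ZT φ ψ A B := rfl
  rw [hZ] at hv0
  have hdn : 0 ≤ ∫ z in (0 : ℝ)..1, dens φ ψ A B (roleOf e) z :=
    intervalIntegral.integral_nonneg zero_le_one fun x hx => (dens_bd φ ψ A B _ hx.1 hx.2).1
  refine ⟨?_, fun z h0 h1 => dens_bd φ ψ A B _ h0 h1, dens_int φ ψ A B _ 0 1, (ZT_bd φ ψ A B).1,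
    (ZT_bd φ ψ A B).2, hv0, ?_⟩
  · have h1 := hv.symm.trans hv0
    rwa [ENNReal.ofReal_eq_ofReal_iff hdn (ZT_bd φ ψ A B).1] at h1
  · have hwA : ∀ (l : ℕ) (x y : ℝ), y ≤ 1 → max (min y 1 - max x (φ l)) 0 =
        max (y - max x (φ l)) 0 := fun l x y hy => by rw [min_eq_left hy]
    have hwB : ∀ (l : ℕ) (x y : ℝ), 0 ≤ x → max (min y (ψ l) - max x 0) 0 =
        max (min y (ψ l) - x) 0 := fun l x y hx => by rw [max_eq_left hx]
    rintro (⟨l, hl⟩ | ⟨l, hl⟩) (⟨l', hl'⟩ | ⟨l', hl'⟩) hne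
    · have hll : l' ≠ l := by
        rintro rfl
        exact hne rfl
      show |WS φ ψ ((A.erase l).erase l') B (φ l) 1 (φ l') 1| ≤ _
      refine WS_le φ ψ _ _ A B _ _ _ _ fun x y hx hxy hy => le_of_eq ?_
      rw [hwA l x y hy, hwA l' x y hy, KT_eraseA φ ψ A B hl,
        KT_eraseA φ ψ (A.erase l) B (Finset.mem_erase.2 ⟨hll, hl'⟩)]
      ring
    · show |WS φ ψ (A.erase l) (B.erase l') (φ l) 1 0 (ψ l')| ≤ _
      refine WS_le φ ψ _ _ A B _ _ _ _ fun x y hx hxy hy => le_of_eq ?_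
      rw [hwA l x y hy, hwB l' x y hx, KT_eraseA φ ψ A B hl, KT_eraseB φ ψ (A.erase l) B hl']
      ring
    · show |WS φ ψ (A.erase l') (B.erase l) 0 (ψ l) (φ l') 1| ≤ _
      refine WS_le φ ψ _ _ A B _ _ _ _ fun x y hx hxy hy => le_of_eq ?_
      rw [hwA l' x y hy, hwB l x y hx, KT_eraseA φ ψ A B hl', KT_eraseB φ ψ (A.erase l') B hl]
      ring
    · have hll : l' ≠ l := by
        rintro rfl
        exact hne rfl
      show |WS φ ψ A ((B.erase l).erase l') 0 (ψ l) 0 (ψ l')| ≤ _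
      refine WS_le φ ψ _ _ A B _ _ _ _ fun x y hx hxy hy => le_of_eq ?_
      rw [hwB l x y hx, hwB l' x y hx, KT_eraseB φ ψ A B hl,
        KT_eraseB φ ψ A (B.erase l) (Finset.mem_erase.2 ⟨hll, hl'⟩)]
      ring

end Pool.Agent.H34.RK
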