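import Pool.Agent.H34.RK.YB

/-! # RK-MOM (helper71) -/

set_option autoImplicit false

open Finset

namespace Pool.Agent.H34.RK

/-- the blocks of two coded sets have the same moments above `p` -/
theorem bk_mom {R : Type*} [CommRing R] (D B p a : ℕ) (c c' : ℕ → ZMod 3) (ha : a + 1 ≤ D)
    (hp : p = 0 ∨ (p ∈ blk D B c ∧ p ∈ blk D B c')) (x : R) (i : ℕ) (hi : i ≤ B) :
    ∑ l ∈ (bk D B c i).filter (p < ·), (x + l) ^ a =
      ∑ l ∈ (bk D B c' i).filter (p < ·), (x + l) ^ a := by
  -- full blocks
  have hfull : ∀ y : R, ∑ l ∈ bk D B c i, (y + l) ^ a = ∑ l ∈ bk D B c' i, (y + l) ^ a := by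
    intro y
    unfold bk
    split_ifs with h
    · rw [Finset.sum_image (by intro x _ y _ h; simpa using h),
        Finset.sum_image (by intro x _ y _ h; simpa using h)]
      have e : ∀ n : ℕ, (y + ((i * 3 ^ D + n + 1 : ℕ) : R)) ^ a =
          (y + (i * 3 ^ D + 1) + n) ^ a := by
        intro n
        push_cast
        ring
      simp only [e]
      exact prouhet D a ha _ _ _
    · rfl
  have hall : ∀ {c : ℕ → ZMod 3}, (∀ l ∈ bk D B c i, p < l) →
      (bk D B c i).filter (p < ·) = bk D B c i := fun h => Finset.filter_true_of_mem h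
  rcases hp with rfl | ⟨hp, hp'⟩
  · rw [hall fun l hl => by have := bk_mem hi hl; omega,
      hall fun l hl => by have := bk_mem hi hl; omega]
    exact hfull x
  · rcases blk_place hp hp' with h | ⟨i₀, h1, h2, h3, h4⟩
    · have hnone : ∀ c : ℕ → ZMod 3, (bk D B c i).filter (p < ·) = ∅ := by
        intro c
        refine Finset.filter_false_of_mem fun l hl => ?_
        unfold bk at hl
        split_ifs at hl with hB
        · rw [Finset.mem_image] at hl
          obtain ⟨n, hn, rfl⟩ := hl
          have := Y_lt _ _ _ hn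
          have h5 : (i + 1) * 3 ^ D ≤ B * 3 ^ D := Nat.mul_le_mul_right _ hB
          have h6 : (i + 1) * 3 ^ D = i * 3 ^ D + 3 ^ D := by ring
          omega
        · rw [Finset.mem_singleton] at hl
          omega
      rw [hnone, hnone]
    · rcases lt_trichotomy i i₀ with h | h | h
      · have hnone : ∀ c : ℕ → ZMod 3, (bk D B c i).filter (p < ·) = ∅ := by
          intro c
          refine Finset.filter_false_of_mem fun l hl => ?_
          have h5 := bk_mem hi hl
          have h6 : (i + 1) * 3 ^ D ≤ i₀ * 3 ^ D := Nat.mul_le_mul_right _ h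
          omega
        rw [hnone, hnone]
      · have : bk D B c i = bk D B c' i := by
          unfold bk
          rw [if_pos (h ▸ h1), if_pos (h ▸ h1), h, h2]
        rw [this]
      · have h5 : (i₀ + 1) * 3 ^ D ≤ i * 3 ^ D := Nat.mul_le_mul_right _ h
        rw [hall fun l hl => by have := bk_mem hi hl; omega,
          hall fun l hl => by have := bk_mem hi hl; omega]
        exact hfull x

theorem blk_filter (D B p : ℕ) (c : ℕ → ZMod 3) : (blk D B c).filter (p < ·) =
    (range (B + 1)).biUnion (fun i => (bk D B c i).filter (p < ·)) := by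
  rw [blk_eq, Finset.filter_biUnion]

theorem sum_blk_filter {R : Type*} [AddCommMonoid R] (D B p : ℕ) (c : ℕ → ZMod 3) (f : ℕ → R) :
    ∑ l ∈ (blk D B c).filter (p < ·), f l =
      ∑ i ∈ range (B + 1), ∑ l ∈ (bk D B c i).filter (p < ·), f l := by
  rw [blk_filter, Finset.sum_biUnion]
  intro i hi j hj hij
  rw [Finset.mem_coe, Finset.mem_range] at hi hj
  rw [Function.onFun, Finset.disjoint_left]
  intro l hl hl'
  rw [Finset.mem_filter] at hl hl'
  rcases lt_or_gt_of_ne hij with h | h
  · exact absurd (bk_sep (c' := c) h (by omega) hl.1 hl'.1) (lt_irrefl l)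
  · exact absurd (bk_sep (c' := c) h (by omega) hl'.1 hl.1) (lt_irrefl l)

theorem mom : S_MOM := by
  intro D B p a c c' ha hp
  rw [sum_blk_filter, sum_blk_filter]
  refine Finset.sum_congr rfl fun i hi => ?_
  rw [Finset.mem_range] at hi
  have := bk_mom (R := ℝ) D B p a c c' ha hp 0 i (by omega)
  simpa only [zero_add] using this

end Pool.Agent.H34.RK
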