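import Pool.Agent.H34.RK.Stm1

/-! Project RK: products of functionals of bounded degree. -/

set_option autoImplicit false

open Finset

namespace Pool.Agent.H34.RK

theorem ord_zero' : ∀ (k : ℕ) (f : List (Fin 3) → ℝ), (∀ w, f w = 0) → Ord k f := by
  intro k
  induction k with
  | zero => intro f h; exact h
  | succ k ih =>
    intro f h b
    apply ih
    intro w
    rw [h, h, sub_zero]

theorem ord_add' : ∀ (k : ℕ) (f g : List (Fin 3) → ℝ), Ord k f → Ord k g →
    Ord k (fun w => f w + g w) := by
  intro k
  induction k with
  | zero =>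
    intro f g hf hg w
    show f w + g w = 0
    rw [hf w, hg w, add_zero]
  | succ k ih =>
    intro f g hf hg b
    have h := ih _ _ (hf b) (hg b)
    have e : (fun w => (fun w => f w + g w) (b :: w) - (fun w => f w + g w) w) =
        fun w => (f (b :: w) - f w) + (g (b :: w) - g w) := by
      funext w
      ring
    rw [e]
    exact h

theorem mul_aux : ∀ (n a b : ℕ) (f g : List (Fin 3) → ℝ), a + b ≤ n + 1 → Ord a f → Ord b g →
    Ord n (fun w => f w * g w) := by
  intro n
  induction n with
  | zero =>
    intro a b f g hab hf hg w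
    rcases Nat.eq_zero_or_pos a with ha | ha
    · subst ha
      show f w * g w = 0
      rw [hf w, zero_mul]
    · have hb : b = 0 := by omega
      subst hb
      show f w * g w = 0
      rw [hg w, mul_zero]
  | succ n ih =>
    intro a b f g hab hf hg
    rcases Nat.eq_zero_or_pos a with ha | ha
    · subst ha
      apply ord_zero'
      intro w
      rw [hf w, zero_mul]
    rcases Nat.eq_zero_or_pos b with hb | hb
    · subst hb
      apply ord_zero'
      intro w
      rw [hg w, mul_zero]
    obtain ⟨a', rfl⟩ : ∃ a', a = a' + 1 := ⟨a - 1, by omega⟩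
    obtain ⟨b', rfl⟩ : ∃ b', b = b' + 1 := ⟨b - 1, by omega⟩
    intro c
    have h1 := ih a' (b' + 1) _ _ (by omega) (hf c) hg
    have h2 := ih a' b' _ _ (by omega) (hf c) (hg c)
    have h3 := ih (a' + 1) b' _ _ (by omega) hf (hg c)
    have h := ord_add' _ _ _ (ord_add' _ _ _ h1 h2) h3
    have e : (fun w => (fun w => f w * g w) (c :: w) - (fun w => f w * g w) w) =
        fun w => ((f (c :: w) - f w) * g w + (f (c :: w) - f w) * (g (c :: w) - g w)) +
          f w * (g (c :: w) - g w) := by
      funext w
      ring
    rw [e]
    exact h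

theorem ordmul : S_ORDMUL := by
  intro a b f g hf hg
  exact mul_aux (a + b + 1) (a + 1) (b + 1) f g (by omega) hf hg

end Pool.Agent.H34.RK
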