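import Pool.Agent.H34.RK.Stm2

/-! # Project RK, stub OV (helper72) -/

set_option autoImplicit false

open Finset MeasureTheory

namespace Pool.Agent.H34.RK

namespace OV

theorem esy_smul (A : Finset ℕ) (f : ℕ → ℝ) (g : ℝ) (j : ℕ) :
    esy A (fun l => g * f l) j = g ^ j * esy A f j := by
  unfold esy
  rw [mul_sum]
  refine sum_congr rfl fun t ht => ?_
  rw [prod_mul_distrib, prod_const, (mem_powersetCard.1 ht).2]

theorem max_g {g : ℝ} (hg : 0 < g) (l v : ℝ) : max (g * l - g * v) 0 = g * max (l - v) 0 := by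
  rw [← mul_sub, mul_max_of_nonneg _ _ hg.le, mul_zero]

theorem esy_g {g : ℝ} (hg : 0 < g) (A : Finset ℕ) (v : ℝ) (j : ℕ) :
    esy A (fun l => max (g * (l : ℝ) - g * v) 0) j =
      g ^ j * esy A (fun l => max ((l : ℝ) - v) 0) j := by
  rw [← esy_smul]
  congr 1
  funext l
  exact max_g hg _ _

theorem cont_esy (A : Finset ℕ) (g : ℝ) (j : ℕ) :
    Continuous fun x : ℝ => esy A (fun l => max (g * (l : ℝ) - x) 0) j := by
  unfold esy
  refine continuous_finsetSum _ fun t _ => continuous_finsetProd _ fun l _ => ?_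
  fun_prop

theorem cont_esy1 (A : Finset ℕ) (j : ℕ) :
    Continuous fun x : ℝ => esy A (fun l => max ((l : ℝ) - x) 0) j := by
  unfold esy
  refine continuous_finsetSum _ fun t _ => continuous_finsetProd _ fun l _ => ?_
  fun_prop

theorem esy_nonneg {A : Finset ℕ} {f : ℕ → ℝ} (hf : ∀ l ∈ A, 0 ≤ f l) (j : ℕ) : 0 ≤ esy A f j :=
  sum_nonneg fun t ht => prod_nonneg fun l hl => hf l ((mem_powersetCard.1 ht).1 hl)

theorem choose_le (n k : ℕ) : n.choose k ≤ n ^ k := by
  calc n.choose k ≤ n.descFactorial k := by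
        rw [Nat.descFactorial_eq_factorial_mul_choose]
        exact Nat.le_mul_of_pos_left _ (Nat.factorial_pos k)
    _ ≤ n ^ k := Nat.descFactorial_le_pow n k

theorem esy_le {A : Finset ℕ} {f : ℕ → ℝ} {c : ℝ} (hf0 : ∀ l ∈ A, 0 ≤ f l) (hf : ∀ l ∈ A, f l ≤ c)
    (hc : 0 ≤ c) {m : ℕ} (hm : A.card ≤ m) (j : ℕ) : esy A f j ≤ (m * c) ^ j := by
  have h1 : esy A f j ≤ ∑ t ∈ A.powersetCard j, c ^ j := by
    refine sum_le_sum fun t ht => ?_
    obtain ⟨h1, h2⟩ := mem_powersetCard.1 ht
    calc ∏ l ∈ t, f l ≤ ∏ _l ∈ t, c :=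
          prod_le_prod (fun l hl => hf0 l (h1 hl)) fun l hl => hf l (h1 hl)
      _ = c ^ j := by rw [prod_const, h2]
  refine h1.trans ?_
  rw [sum_const, card_powersetCard, nsmul_eq_mul, mul_pow]
  refine mul_le_mul_of_nonneg_right ?_ (by positivity)
  have h2 : (A.card.choose j : ℝ) ≤ ((A.card ^ j : ℕ) : ℝ) := by exact_mod_cast choose_le _ _
  refine h2.trans ?_
  push_cast
  exact pow_le_pow_left₀ (by positivity) (by exact_mod_cast hm) j

theorem card_le {L : ℕ} {A : Finset ℕ} (h : ∀ l ∈ A, 1 ≤ l ∧ l ≤ L) : A.card ≤ L := by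
  have h1 : A ⊆ Icc 1 L := fun l hl => mem_Icc.2 (h l hl)
  have := card_le_card h1
  rw [Nat.card_Icc] at this
  omega

theorem ii {u : ℝ → ℝ} (hm : Measurable u) (hb : ∀ x, |u x| ≤ 1) {f : ℝ → ℝ} (hf : Continuous f)
    (a b : ℝ) : IntervalIntegrable (fun x => u x * f x) volume a b := by
  refine (hf.intervalIntegrable a b).mono_fun (hm.mul hf.measurable).aestronglyMeasurable
    (Filter.Eventually.of_forall fun x => ?_)
  simp only [norm_mul, Real.norm_eq_abs]
  exact mul_le_of_le_one_left (abs_nonneg _) (hb x)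

/-- integral over `[0, L]` of a function cut off at `p` -/
theorem cut {p L : ℕ} (hp : p ≤ L) {f : ℝ → ℝ} (hf : Continuous f) :
    ∫ v in (0 : ℝ)..L, (if v < p then f v else 0) = ∫ v in (0 : ℝ)..p, f v := by
  have hp0 : (0 : ℝ) ≤ p := by positivity
  have hpL : (p : ℝ) ≤ L := by exact_mod_cast hp
  have hne : ∀ᵐ v : ℝ, v ≠ (p : ℝ) := by
    have : volume ({(p : ℝ)} : Set ℝ) = 0 := by simp
    exact measure_eq_zero_iff_ae_notMem.1 this
  have i1 : IntervalIntegrable (fun v : ℝ => if v < p then f v else 0) volume 0 p := by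
    refine (hf.intervalIntegrable 0 (p : ℝ)).mono_fun ?_ (Filter.Eventually.of_forall fun x => ?_)
    · exact (Measurable.ite measurableSet_Iio hf.measurable measurable_const).aestronglyMeasurable
    · simp only
      split
      · exact le_rfl
      · simp
  have i2 : IntervalIntegrable (fun v : ℝ => if v < p then f v else 0) volume p L := by
    refine (hf.intervalIntegrable (p : ℝ) L).mono_fun ?_ (Filter.Eventually.of_forall fun x => ?_)
    · exact (Measurable.ite measurableSet_Iio hf.measurable measurable_const).aestronglyMeasurable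
    · simp only
      split
      · exact le_rfl
      · simp
  rw [← intervalIntegral.integral_add_adjacent_intervals i1 i2]
  have e1 : ∫ v in (0 : ℝ)..p, (if v < p then f v else 0) = ∫ v in (0 : ℝ)..p, f v := by
    refine intervalIntegral.integral_congr_ae ?_
    filter_upwards [hne] with v hv hv'
    rw [Set.uIoc_of_le hp0] at hv'
    rw [if_pos (lt_of_le_of_ne hv'.2 hv)]
  have e2 : ∫ v in (p : ℝ)..L, (if v < p then f v else 0) = 0 := by
    have : ∫ v in (p : ℝ)..L, (if v < p then f v else 0) = ∫ _v in (p : ℝ)..L, (0 : ℝ) := by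
      refine intervalIntegral.integral_congr_ae ?_
      filter_upwards with v hv'
      rw [Set.uIoc_of_le hpL] at hv'
      rw [if_neg (not_lt.2 hv'.1.le)]
    rw [this]; simp
  rw [e1, e2, add_zero]

/-- the difference of the elementary symmetric sums -/
noncomputable def De (A A' : Finset ℕ) (j : ℕ) (v : ℝ) : ℝ :=
  esy A (fun l => max ((l : ℝ) - v) 0) j - esy A' (fun l => max ((l : ℝ) - v) 0) j

theorem cont_De (A A' : Finset ℕ) (j : ℕ) : Continuous (De A A' j) :=
  (cont_esy1 A j).sub (cont_esy1 A' j)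

theorem exact {g : ℝ} {L p : ℕ} {A A' : Finset ℕ} {u : ℝ → ℝ} (hg : 0 < g)
    (hJ : JEq L p A A') (hu : IsTest g L p u) (i j : ℕ) (hi : i ≤ 12) (hj : j ≤ 8) :
    (∫ x in (0 : ℝ)..(g * L), u x * x ^ i *
    (esy A (fun l => max (g * l - x) 0) j - esy A' (fun l => max (g * l - x) 0) j)) = 0 := by
  obtain ⟨hm, hb, a, b, ha, hb', huv⟩ := hu
  obtain ⟨-, -, -, hpL, hint⟩ := hJ
  have h0 : (∫ x in (0 : ℝ)..(g * L), u x * x ^ i *
      (esy A (fun l => max (g * l - x) 0) j - esy A' (fun l => max (g * l - x) 0) j)) =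
      g * ∫ v in (0 : ℝ)..L, u (g * v) * (g * v) ^ i *
      (esy A (fun l => max (g * l - g * v) 0) j - esy A' (fun l => max (g * l - g * v) 0) j) := by
    rw [intervalIntegral.integral_comp_mul_left (fun x => u x * x ^ i *
      (esy A (fun l => max (g * l - x) 0) j - esy A' (fun l => max (g * l - x) 0) j)) hg.ne',
      mul_zero, smul_eq_mul, ← mul_assoc, mul_inv_cancel₀ hg.ne', one_mul]
  rw [h0]
  have h1 : ∫ v in (0 : ℝ)..L, u (g * v) * (g * v) ^ i *
      (esy A (fun l => max (g * l - g * v) 0) j - esy A' (fun l => max (g * l - g * v) 0) j) =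
      ∫ v in (0 : ℝ)..L, (∑ m ∈ range 8, (g ^ i * g ^ j * a m) * (v ^ (m + i) * De A A' j v) +
        ∑ m ∈ range 8, (g ^ i * g ^ j * b m) *
          (if v < p then v ^ (m + i) * De A A' j v else 0)) := by
    refine intervalIntegral.integral_congr fun v hv => ?_
    rw [Set.uIcc_of_le (by positivity)] at hv
    have hx0 : 0 ≤ g * v := mul_nonneg hg.le hv.1
    have hx1 : g * v ≤ g * L := mul_le_mul_of_nonneg_left hv.2 hg.le
    rw [huv (g * v) hx0 hx1, esy_g hg, esy_g hg, mul_div_cancel_left₀ _ hg.ne', mul_pow]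
    have hiff : (g * v < g * p) ↔ v < p := mul_lt_mul_iff_right₀ hg
    by_cases hvp : v < p
    · rw [if_pos (hiff.2 hvp)]
      simp only [if_pos hvp, De]
      rw [← sum_add_distrib, ← sum_add_distrib, sum_mul, sum_mul]
      refine sum_congr rfl fun m _ => ?_
      rw [pow_add]
      ring
    · rw [if_neg (fun h => hvp (hiff.1 h))]
      simp only [if_neg hvp, De, mul_zero, sum_const_zero, add_zero]
      rw [sum_mul, sum_mul]
      refine sum_congr rfl fun m _ => ?_
      rw [pow_add]
      ring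
  rw [h1]
  have hcont : ∀ m : ℕ, Continuous fun v : ℝ => v ^ (m + i) * De A A' j v := fun m =>
    (continuous_pow _).mul (cont_De A A' j)
  have hii : ∀ m : ℕ, IntervalIntegrable
      (fun v : ℝ => if v < p then v ^ (m + i) * De A A' j v else 0) volume 0 L := by
    intro m
    refine ((hcont m).intervalIntegrable 0 (L : ℝ)).mono_fun ?_
      (Filter.Eventually.of_forall fun x => ?_)
    · exact (Measurable.ite measurableSet_Iio (hcont m).measurable
        measurable_const).aestronglyMeasurable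
    · simp only
      split
      · exact le_rfl
      · rw [norm_zero]; exact norm_nonneg _
  rw [intervalIntegral.integral_add, intervalIntegral.integral_finsetSum,
    intervalIntegral.integral_finsetSum]
  · have z1 : ∀ m ∈ range 8, ∫ v in (0 : ℝ)..L, (g ^ i * g ^ j * a m) * (v ^ (m + i) * De A A' j v) = 0 := by
      intro m hm8
      have hm8' := mem_range.1 hm8
      rw [intervalIntegral.integral_const_mul]
      have := (hint (m + i) j (by omega) hj).1
      have e : ∫ v in (0 : ℝ)..L, v ^ (m + i) * De A A' j v = 0 := by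
        unfold De
        simp only [mul_sub]
        rw [intervalIntegral.integral_sub, this, sub_self]
        · exact ((continuous_pow _).mul (cont_esy1 A j)).intervalIntegrable _ _
        · exact ((continuous_pow _).mul (cont_esy1 A' j)).intervalIntegrable _ _
      rw [e, mul_zero]
    have z2 : ∀ m ∈ range 8, ∫ v in (0 : ℝ)..L, (g ^ i * g ^ j * b m) *
        (if v < p then v ^ (m + i) * De A A' j v else 0) = 0 := by
      intro m hm8
      have hm8' := mem_range.1 hm8
      rw [intervalIntegral.integral_const_mul, cut hpL (hcont m)]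
      have := (hint (m + i) j (by omega) hj).2
      have e : ∫ v in (0 : ℝ)..p, v ^ (m + i) * De A A' j v = 0 := by
        unfold De
        simp only [mul_sub]
        rw [intervalIntegral.integral_sub, this, sub_self]
        · exact ((continuous_pow _).mul (cont_esy1 A j)).intervalIntegrable _ _
        · exact ((continuous_pow _).mul (cont_esy1 A' j)).intervalIntegrable _ _
      rw [e, mul_zero]
    rw [sum_eq_zero z1, sum_eq_zero z2, add_zero, mul_zero]
  · intro m _
    exact (hii m).const_mul _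
  · intro m _
    exact ((hcont m).intervalIntegrable _ _).const_mul _
  · refine Continuous.intervalIntegrable ?_ _ _
    exact continuous_finsetSum _ fun m _ => (hcont m).const_mul _
  · have := IntervalIntegrable.sum (range 8) (f := fun (m : ℕ) (v : ℝ) =>
      (g ^ i * g ^ j * b m) * (if v < p then v ^ (m + i) * De A A' j v else 0))
      fun m _ => (hii m).const_mul _
    refine this.congr fun v _ => ?_
    rw [Finset.sum_apply]

/-- expansion of `(1 - x) ^ n` -/
theorem tay1 (hT : S_TAY) {n : ℕ} {x : ℝ} (hx0 : 0 ≤ x) (hx1 : x ≤ 1) :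
    |(1 - x) ^ n - ∑ i ∈ range 7, (n.choose i : ℝ) * (-x) ^ i| ≤ n ^ 7 * x ^ 7 := by
  rcases le_or_gt 7 n with hn | hn
  · have := hT n x 1 hn hx0 hx1 zero_le_one le_rfl
    simpa using this
  · have e : (1 - x) ^ n = ∑ i ∈ range 7, (n.choose i : ℝ) * (-x) ^ i := by
      rw [sub_eq_add_neg, add_comm, add_pow]
      have h1 : range (n + 1) ⊆ range 7 := range_subset_range.2 (by omega)
      rw [← sum_subset h1]
      · refine sum_congr rfl fun i _ => ?_
        rw [one_pow]; ring
      · intro i _ hi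
        have : n < i := by
          by_contra h
          exact hi (mem_range.2 (by omega))
        rw [Nat.choose_eq_zero_of_lt this]; simp
    rw [e, sub_self, abs_zero]
    positivity

theorem main (hT : S_TAY) : S_OV := by
  intro g L p A A' u hg hL hgL hJ hu
  have hex := exact hg hJ hu
  refine ⟨hex, fun n j hn hj => ?_⟩
  obtain ⟨hm, hb, -⟩ := hu
  have hL1 : (100 : ℝ) ≤ L := by exact_mod_cast hL
  have hL0 : (0 : ℝ) < L := by linarith
  have hgL1 : L * (g * L) ≤ 1 := by
    refine le_trans ?_ hgL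
    have : L * (g * L) = g * (L : ℝ) ^ 2 := by ring
    rw [this]
    exact mul_le_mul_of_nonneg_left (pow_le_pow_right₀ (by linarith) (by norm_num)) hg.le
  have hgL2 : g * L ≤ 1 := by nlinarith [mul_pos hg hL0]
  have hgL0 : 0 ≤ g * (L : ℝ) := by positivity
  -- the difference
  obtain ⟨Δ, hΔ⟩ : ∃ Δ : ℝ → ℝ, Δ = fun x => esy A (fun l => max (g * (l : ℝ) - x) 0) j -
    esy A' (fun l => max (g * (l : ℝ) - x) 0) j := ⟨_, rfl⟩
  have hΔc : Continuous Δ := by
    rw [hΔ]; exact (cont_esy A g j).sub (cont_esy A' g j)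
  have hbd : ∀ (A : Finset ℕ), (∀ l ∈ A, 1 ≤ l ∧ l ≤ L) → ∀ x, 0 ≤ x →
      0 ≤ esy A (fun l => max (g * (l : ℝ) - x) 0) j ∧
      esy A (fun l => max (g * (l : ℝ) - x) 0) j ≤ 1 := by
    intro A hA x hx
    refine ⟨esy_nonneg (fun l _ => le_max_right _ _) j, ?_⟩
    refine (esy_le (c := g * L) (fun l _ => le_max_right _ _) (fun l hl => ?_) hgL0 (card_le hA)
      j).trans (pow_le_one₀ (by positivity) hgL1)
    refine max_le ?_ hgL0
    have : (l : ℝ) ≤ L := by exact_mod_cast (hA l hl).2
    nlinarith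
  have hΔb : ∀ x, 0 ≤ x → |Δ x| ≤ 1 := by
    intro x hx
    obtain ⟨h1, h2⟩ := hbd A hJ.2.1 x hx
    obtain ⟨h3, h4⟩ := hbd A' hJ.2.2.1 x hx
    rw [hΔ, abs_le]
    constructor <;> simp only <;> linarith
  have hex' : ∀ i ≤ 12, ∫ x in (0 : ℝ)..(g * L), u x * x ^ i * Δ x = 0 := by
    intro i hi
    rw [hΔ]; exact hex i j hi (by omega)
  have hgoal : (∫ x in (0 : ℝ)..(g * L), u x * (1 - x) ^ n *
      (esy A (fun l => max (g * l - x) 0) j - esy A' (fun l => max (g * l - x) 0) j)) =
      ∫ x in (0 : ℝ)..(g * L), u x * ((1 - x) ^ n * Δ x) := by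
    rw [hΔ]
    refine intervalIntegral.integral_congr fun x _ => ?_
    ring
  rw [hgoal]
  -- subtract the polynomial
  have hpoly : ∫ x in (0 : ℝ)..(g * L), u x *
      ((∑ i ∈ range 7, (n.choose i : ℝ) * (-x) ^ i) * Δ x) = 0 := by
    have e1 : ∀ x : ℝ, u x * ((∑ i ∈ range 7, (n.choose i : ℝ) * (-x) ^ i) * Δ x) =
        ∑ i ∈ range 7, ((n.choose i : ℝ) * (-1) ^ i) * (u x * (x ^ i * Δ x)) := by
      intro x
      rw [sum_mul, mul_sum]
      refine sum_congr rfl fun i _ => ?_
      rw [neg_pow]; ring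
    simp only [e1]
    rw [intervalIntegral.integral_finsetSum]
    · refine sum_eq_zero fun i hi => ?_
      rw [intervalIntegral.integral_const_mul]
      have := hex' i (by have := mem_range.1 hi; omega)
      have e2 : ∫ x in (0 : ℝ)..(g * L), u x * (x ^ i * Δ x) = 0 := by
        have e3 : (fun x : ℝ => u x * (x ^ i * Δ x)) = fun x => u x * x ^ i * Δ x := by
          funext x; ring
        rw [e3]
        exact this
      rw [e2, mul_zero]
    · intro i _
      exact (ii hm hb ((continuous_pow i).mul hΔc) _ _).const_mul _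
  have hsub : ∫ x in (0 : ℝ)..(g * L), u x * ((1 - x) ^ n * Δ x) =
      ∫ x in (0 : ℝ)..(g * L), u x *
        (((1 - x) ^ n - ∑ i ∈ range 7, (n.choose i : ℝ) * (-x) ^ i) * Δ x) := by
    have i1 : IntervalIntegrable (fun x => u x * ((1 - x) ^ n * Δ x)) volume 0 (g * L) :=
      ii hm hb (by fun_prop) _ _
    have i2 : IntervalIntegrable (fun x => u x *
        ((∑ i ∈ range 7, (n.choose i : ℝ) * (-x) ^ i) * Δ x)) volume 0 (g * L) :=
      ii hm hb (by fun_prop) _ _
    have i3 := intervalIntegral.integral_sub i1 i2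
    rw [hpoly, sub_zero] at i3
    rw [← i3]
    refine intervalIntegral.integral_congr fun x _ => ?_
    ring
  rw [hsub]
  have hnL : (n : ℝ) ≤ 2 * L := by exact_mod_cast hn
  have hfin : ∀ x ∈ Set.uIoc (0 : ℝ) (g * L), ‖u x *
      (((1 - x) ^ n - ∑ i ∈ range 7, (n.choose i : ℝ) * (-x) ^ i) * Δ x)‖ ≤
      (2 * L) ^ 7 * (g * L) ^ 7 := by
    intro x hx
    rw [Set.uIoc_of_le hgL0] at hx
    rw [norm_mul, norm_mul, Real.norm_eq_abs, Real.norm_eq_abs, Real.norm_eq_abs]
    have h1 := tay1 hT (n := n) hx.1.le (hx.2.trans hgL2)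
    have h2 := hΔb x hx.1.le
    calc _ ≤ 1 * ((n ^ 7 * x ^ 7) * 1) := by
          refine mul_le_mul (hb x) ?_ (by positivity) zero_le_one
          exact mul_le_mul h1 h2 (abs_nonneg _) (by have := hx.1; positivity)
      _ = n ^ 7 * x ^ 7 := by ring
      _ ≤ (2 * L) ^ 7 * (g * L) ^ 7 := by
          have := hx.1.le
          gcongr
          exact hx.2
  have := intervalIntegral.norm_integral_le_of_norm_le_const hfin
  rw [Real.norm_eq_abs] at this
  refine this.trans ?_
  rw [sub_zero, abs_of_nonneg hgL0]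
  have e : (2 * (L : ℝ)) ^ 7 * (g * L) ^ 7 * (g * L) = g ^ 7 * (128 * (g * L) * L ^ 14) := by ring
  rw [e]
  refine mul_le_mul_of_nonneg_left ?_ (by positivity)
  have h128 : (128 : ℝ) ≤ L ^ 2 := by nlinarith
  calc 128 * (g * L) * (L : ℝ) ^ 14 ≤ (L : ℝ) ^ 2 * 1 * (L : ℝ) ^ 14 := by gcongr
    _ = (L : ℝ) ^ 16 := by ring
    _ ≤ (L : ℝ) ^ 40 := pow_le_pow_right₀ (by linarith) (by norm_num)

end OV

theorem ov : S_TAY → S_OV := OV.main

end Pool.Agent.H34.RK
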