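import Pool.Agent.H34.RK.Stm3

/-!
# Project RK: `p1 : S_P1` (linear extensions and volumes)
-/

set_option autoImplicit false

open Finset MeasureTheory

namespace Pool.Agent.H34.RK

namespace PP1

/-- The open order polytope of a relation. -/
def OPr {P : Type} (r : P → P → Prop) : Set (P → ℝ) :=
  {f | (∀ a, 0 < f a ∧ f a < 1) ∧ ∀ a b, r a b → f a < f b}

theorem isOpen_OPr {P : Type} [Fintype P] (r : P → P → Prop) : IsOpen (OPr r) := by
  have : OPr r = (⋂ a, ({f : P → ℝ | 0 < f a} ∩ {f | f a < 1})) ∩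
      ⋂ a, ⋂ b, ⋂ (_ : r a b), {f : P → ℝ | f a < f b} := by
    ext f; simp [OPr]
  rw [this]
  refine IsOpen.inter ?_ ?_
  · exact isOpen_iInter_of_finite fun a =>
      (isOpen_lt continuous_const (continuous_apply a)).inter
        (isOpen_lt (continuous_apply a) continuous_const)
  · exact isOpen_iInter_of_finite fun a => isOpen_iInter_of_finite fun b =>
      isOpen_iInter_of_finite fun _ => isOpen_lt (continuous_apply a) (continuous_apply b)

/-- The chamber of a bijection. -/
def Ch {P : Type} {n : ℕ} (σ : P ≃ Fin n) : Set (P → ℝ) := OPr (fun a b => σ a < σ b)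

theorem vol_Ch {P : Type} [Fintype P] {n : ℕ} (σ τ : P ≃ Fin n) :
    volume (Ch σ) = volume (Ch τ) := by
  have hmp := volume_measurePreserving_piCongrLeft (fun _ : P => ℝ) (σ.trans τ.symm)
  have hpre : (MeasurableEquiv.piCongrLeft (fun _ : P => ℝ) (σ.trans τ.symm)) ⁻¹' (Ch τ) = Ch σ := by
    ext g
    have hev : ∀ b : P, (MeasurableEquiv.piCongrLeft (fun _ : P => ℝ) (σ.trans τ.symm)) g
        ((σ.trans τ.symm) b) = g b := fun b =>
      Equiv.piCongrLeft_apply_apply (fun _ : P => ℝ) (σ.trans τ.symm) g b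
    have hτ : ∀ b : P, τ ((σ.trans τ.symm) b) = σ b := by intro b; simp
    constructor
    · intro hh
      refine ⟨fun a => ?_, fun a b hab => ?_⟩
      · have := hh.1 ((σ.trans τ.symm) a)
        rw [hev] at this
        exact this
      · have := hh.2 ((σ.trans τ.symm) a) ((σ.trans τ.symm) b) (by
          simp only [hτ]; exact hab)
        rw [hev, hev] at this
        exact this
    · intro hh
      refine ⟨fun a => ?_, fun a b hab => ?_⟩
      · obtain ⟨a, rfl⟩ := (σ.trans τ.symm).surjective a
        rw [hev]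
        exact hh.1 a
      · obtain ⟨a, rfl⟩ := (σ.trans τ.symm).surjective a
        obtain ⟨b, rfl⟩ := (σ.trans τ.symm).surjective b
        rw [hev, hev]
        simp only [hτ] at hab
        exact hh.2 a b hab
  rw [← hpre]
  exact hmp.measure_preimage (isOpen_OPr _).measurableSet.nullMeasurableSet

theorem Ch_disj {P : Type} {n : ℕ} {σ τ : P ≃ Fin n} (h : σ ≠ τ) : Disjoint (Ch σ) (Ch τ) := by
  rw [Set.disjoint_left]
  intro f hf hg
  apply h
  have key : ∀ a b, σ a < σ b → τ a < τ b := by
    intro a b hab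
    have h1 : f a < f b := hf.2 a b hab
    by_contra hc
    rcases (not_lt.mp hc).lt_or_eq with h2 | h2
    · exact absurd (hg.2 b a h2) (not_lt.mpr h1.le)
    · have : b = a := τ.injective h2
      rw [this] at h1
      exact lt_irrefl _ h1
  -- the composition is a strictly monotone self-map of `Fin n`
  have hmono : StrictMono (fun i : Fin n => τ (σ.symm i)) := by
    intro i j hij
    exact key _ _ (by simpa using hij)
  have hid : ∀ i : Fin n, τ (σ.symm i) = i := by
    let e : Fin n ≃o Fin n := StrictMono.orderIsoOfSurjective _ hmono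
      (fun y => ⟨σ (τ.symm y), by simp⟩)
    intro i
    have : e = OrderIso.refl _ := Subsingleton.elim _ _
    have h2 : e i = i := by rw [this]; rfl
    exact h2
  ext a
  have := hid (σ a)
  rw [Equiv.symm_apply_apply] at this
  rw [this]

theorem null_noninj (P : Type) [Fintype P] :
    volume {f : P → ℝ | ¬ Function.Injective f} = 0 := by
  classical
  have hsub : {f : P → ℝ | ¬ Function.Injective f} ⊆
      ⋃ p : {p : P × P // p.1 ≠ p.2},
        ((LinearMap.ker (LinearMap.proj (R := ℝ) (φ := fun _ : P => ℝ) p.1.1 -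
          LinearMap.proj (R := ℝ) (φ := fun _ : P => ℝ) p.1.2) : Submodule ℝ (P → ℝ)) :
            Set (P → ℝ)) := by
    intro f hf
    simp only [Set.mem_ofPred_eq, Function.Injective] at hf
    push Not at hf
    obtain ⟨a, b, hab, hne⟩ := hf
    refine Set.mem_iUnion.mpr ⟨⟨(a, b), hne⟩, ?_⟩
    simp only [SetLike.mem_coe, LinearMap.mem_ker, LinearMap.sub_apply, LinearMap.proj_apply]
    linarith
  refine measure_mono_null hsub ?_
  rw [measure_iUnion_null_iff]
  rintro ⟨⟨a, b⟩, hne⟩
  refine Measure.addHaar_submodule volume _ ?_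
  intro htop
  have h1 : (Pi.single a 1 : P → ℝ) ∈ LinearMap.ker
      (LinearMap.proj (R := ℝ) (φ := fun _ : P => ℝ) a -
        LinearMap.proj (R := ℝ) (φ := fun _ : P => ℝ) b) := by
    rw [htop]; trivial
  simp only [LinearMap.mem_ker, LinearMap.sub_apply, LinearMap.proj_apply, Pi.single_eq_same] at h1
  rw [Pi.single_eq_of_ne (Ne.symm hne)] at h1
  norm_num at h1

theorem exists_sigma {P : Type} [Fintype P] (f : P → ℝ) (hf : Function.Injective f) :
    ∃ σ : P ≃ Fin (Fintype.card P), ∀ a b, σ a < σ b ↔ f a < f b := by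
  classical
  let S : Finset ℝ := univ.image f
  have hS : S.card = Fintype.card P := by
    rw [Finset.card_image_of_injective _ hf, Finset.card_univ]
  let o := S.orderIsoOfFin hS
  let e : P ≃ S := Equiv.ofBijective (fun a => ⟨f a, Finset.mem_image_of_mem f (mem_univ a)⟩)
    ⟨fun a b hab => hf (by simpa using hab), fun ⟨y, hy⟩ => by
      obtain ⟨a, -, ha⟩ := Finset.mem_image.mp hy
      exact ⟨a, by simp [ha]⟩⟩
  refine ⟨e.trans o.symm.toEquiv, fun a b => ?_⟩
  have h1 : (e.trans o.symm.toEquiv) a < (e.trans o.symm.toEquiv) b ↔ e a < e b := by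
    simp only [Equiv.trans_apply]
    exact o.symm.lt_iff_lt
  rw [h1]
  exact Iff.rfl

/-- The volume of a set which is the union of the chambers of `S` up to noninjective maps. -/
theorem vol_union {P : Type} [Fintype P] (E : Set (P → ℝ))
    (S : Set (P ≃ Fin (Fintype.card P)))
    (h : ∀ f : P → ℝ, Function.Injective f → ∀ σ : P ≃ Fin (Fintype.card P),
      (∀ a b, σ a < σ b ↔ f a < f b) → (f ∈ E ↔ ((∀ a, 0 < f a ∧ f a < 1) ∧ σ ∈ S)))
    (σ₀ : P ≃ Fin (Fintype.card P)) :
    volume E = Nat.card S * volume (Ch σ₀) := by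
  classical
  have hinj : ∀ (σ : P ≃ Fin (Fintype.card P)) (f : P → ℝ), f ∈ Ch σ →
      Function.Injective f ∧ (∀ a b, σ a < σ b ↔ f a < f b) := by
    intro σ f hf
    have hiff : ∀ a b, σ a < σ b ↔ f a < f b := by
      intro a b
      refine ⟨hf.2 a b, fun hab => ?_⟩
      by_contra hc
      rcases (not_lt.mp hc).lt_or_eq with h2 | h2
      · exact absurd (hf.2 b a h2) (not_lt.mpr hab.le)
      · have : b = a := σ.injective h2
        rw [this] at hab
        exact lt_irrefl _ hab
    refine ⟨fun a b hab => ?_, hiff⟩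
    by_contra hne
    have hσ : σ a ≠ σ b := fun hh => hne (σ.injective hh)
    rcases lt_or_gt_of_ne hσ with h1 | h1
    · exact absurd ((hiff a b).mp h1) (by rw [hab]; exact lt_irrefl _)
    · exact absurd ((hiff b a).mp h1) (by rw [hab]; exact lt_irrefl _)
  have heq : E =ᵐ[volume] ⋃ σ ∈ S.toFinset, Ch σ := by
    have hae : ∀ᵐ f : P → ℝ, Function.Injective f := by
      rw [ae_iff]; exact null_noninj P
    filter_upwards [hae] with f hf
    obtain ⟨σ, hσ⟩ := exists_sigma f hf
    have : (f ∈ E) = (f ∈ ⋃ σ ∈ S.toFinset, Ch σ) := by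
      apply propext
      rw [h f hf σ hσ]
      simp only [Set.mem_iUnion, Set.mem_toFinset, exists_prop]
      constructor
      · rintro ⟨h1, h2⟩
        exact ⟨σ, h2, h1, fun a b hab => (hσ a b).mp hab⟩
      · rintro ⟨τ, hτ, hfτ⟩
        refine ⟨hfτ.1, ?_⟩
        have h3 : f ∈ Ch σ := ⟨hfτ.1, fun a b hab => (hσ a b).mp hab⟩
        by_cases hst : σ = τ
        · rw [hst]; exact hτ
        · exact absurd hfτ (Set.disjoint_left.mp (Ch_disj hst) h3)
    exact this
  rw [measure_congr heq, measure_biUnion_finset]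
  · rw [Finset.sum_congr rfl (fun σ _ => vol_Ch σ σ₀), Finset.sum_const, nsmul_eq_mul]
    congr 2
    rw [Set.toFinset_card, Nat.card_eq_fintype_card]
  · intro σ _ τ _ hst
    exact Ch_disj hst
  · intro σ _
    exact (isOpen_OPr _).measurableSet

end PP1

open PP1 in
theorem p1 : S_P1 := by
  classical
  intro P _ _ a b
  have hOP : OP P = OPr (fun a b : P => a < b) := rfl
  have hopen : IsOpen (OP P) := by rw [hOP]; exact isOpen_OPr _
  -- nonempty
  have hne : (OP P).Nonempty := by
    refine ⟨fun x => ((univ.filter (fun y => y ≤ x)).card : ℝ) / (Fintype.card P + 1), ?_, ?_⟩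
    · intro x
      have h1 : 0 < (univ.filter (fun y => y ≤ x)).card :=
        Finset.card_pos.mpr ⟨x, by simp⟩
      have h2 : (univ.filter (fun y => y ≤ x)).card ≤ Fintype.card P := Finset.card_le_univ _
      have h1' : (0 : ℝ) < (univ.filter (fun y => y ≤ x)).card := by exact_mod_cast h1
      have h2' : ((univ.filter (fun y => y ≤ x)).card : ℝ) ≤ Fintype.card P := by exact_mod_cast h2
      refine ⟨by positivity, ?_⟩
      rw [div_lt_one (by positivity)]
      linarith
    · intro x y hxy
      have : (univ.filter (fun z => z ≤ x)).card < (univ.filter (fun z => z ≤ y)).card := by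
        refine Finset.card_lt_card ⟨?_, ?_⟩
        · intro z hz
          simp only [mem_filter, mem_univ, true_and] at hz ⊢
          exact hz.trans hxy.le
        · intro hsub
          have := hsub (by simp : y ∈ univ.filter (fun z => z ≤ y))
          simp only [mem_filter, mem_univ, true_and] at this
          exact absurd this (not_le_of_gt hxy)
      have h' : ((univ.filter (fun z => z ≤ x)).card : ℝ) < (univ.filter (fun z => z ≤ y)).card := by
        exact_mod_cast this
      exact div_lt_div_of_pos_right h' (by positivity)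
  have hvol0 : volume (OP P) ≠ 0 := (hopen.measure_pos volume hne).ne'
  let σ₀ : P ≃ Fin (Fintype.card P) := Fintype.equivFin P
  -- the cube
  have hcube : volume {f : P → ℝ | ∀ a, 0 < f a ∧ f a < 1} = 1 := by
    have : {f : P → ℝ | ∀ a, 0 < f a ∧ f a < 1} = Set.pi Set.univ (fun _ => Set.Ioo (0 : ℝ) 1) := by
      ext f; simp [Set.mem_pi]
    rw [this, volume_pi_pi]
    simp
  have hsubc : OP P ⊆ {f : P → ℝ | ∀ a, 0 < f a ∧ f a < 1} := fun f hf => hf.1
  have hvolt : volume (OP P) ≠ ⊤ := by
    have := measure_mono (μ := volume) hsubc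
    rw [hcube] at this
    exact ne_top_of_le_ne_top (by simp) this
  refine ⟨hvol0, hvolt, ?_⟩
  have hiffm : ∀ f : P → ℝ, Function.Injective f → ∀ σ : P ≃ Fin (Fintype.card P),
      (∀ a b, σ a < σ b ↔ f a < f b) → ((∀ x y : P, x < y → f x < f y) ↔ Monotone σ) := by
    intro f hf σ hσ
    constructor
    · intro h x y hxy
      rcases eq_or_lt_of_le hxy with h1 | h1
      · rw [h1]
      · exact ((hσ x y).mpr (h x y h1)).le
    · intro h x y hxy
      have h1 := h hxy.le
      have h2 : σ x ≠ σ y := fun hh => hxy.ne (σ.injective hh)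
      exact (hσ x y).mp (lt_of_le_of_ne h1 h2)
  have e1 := vol_union (OP P) {σ : P ≃ Fin (Fintype.card P) | Monotone σ} (by
    intro f hf σ hσ
    have : f ∈ OP P ↔ ((∀ a, 0 < f a ∧ f a < 1) ∧ ∀ x y : P, x < y → f x < f y) := Iff.rfl
    rw [this, hiffm f hf σ hσ]
    rfl) σ₀
  have e2 := vol_union {f ∈ OP P | f a < f b}
    {σ : P ≃ Fin (Fintype.card P) | Monotone σ ∧ σ a < σ b} (by
    intro f hf σ hσ
    have : f ∈ {f ∈ OP P | f a < f b} ↔
        (((∀ a, 0 < f a ∧ f a < 1) ∧ ∀ x y : P, x < y → f x < f y) ∧ f a < f b) := Iff.rfl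
    rw [this, hiffm f hf σ hσ, ← hσ a b]
    simp only [Set.mem_ofPred_eq]
    tauto) σ₀
  have hC0 : volume (Ch σ₀) ≠ 0 := by
    intro h0
    rw [h0, mul_zero] at e1
    exact hvol0 e1
  have hCt : volume (Ch σ₀) ≠ ⊤ := by
    have hs : Ch σ₀ ⊆ {f : P → ℝ | ∀ a, 0 < f a ∧ f a < 1} := fun f hf => hf.1
    have := measure_mono (μ := volume) hs
    rw [hcube] at this
    exact ne_top_of_le_ne_top (by simp) this
  rw [e1, e2, ENNReal.toReal_mul, ENNReal.toReal_mul, ENNReal.toReal_natCast,
    ENNReal.toReal_natCast, mul_div_mul_right _ _ (ENNReal.toReal_ne_zero.mpr ⟨hC0, hCt⟩)]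
  rfl

end Pool.Agent.H34.RK
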