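import Pool.Agent.H34.RK.Ext

set_option autoImplicit false

open Finset MeasureTheory

namespace Pool.Agent.H34.RK

namespace ZB

theorem card_le {L : ℕ} {A : Finset ℕ} (h : Sub1 L A) : A.card ≤ L := by
  have : A ⊆ Finset.Icc 1 L := fun l hl => Finset.mem_Icc.2 (h l hl)
  calc A.card ≤ (Finset.Icc 1 L).card := Finset.card_le_card this
    _ = L := by simp

/-- the weight away from the boundary layers -/
theorem kk_mid {g : ℝ} {L : ℕ} {A B : Finset ℕ} (hg : 0 < g) (hA : Sub1 L A) (hB : Sub1 L B)
    {x y : ℝ} (hx : g * L ≤ x) (hxy : x ≤ y) (hy : y ≤ 1 - g * L) :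
    KK g A B x y = (y - x) ^ (A.card + B.card) := by
  unfold KK KT
  have h0 : 0 ≤ y - x := by linarith
  have e1 : ∀ l ∈ A, max (y - max x (g * (l : ℝ))) 0 = y - x := by
    intro l hl
    have h1 : g * (l : ℝ) ≤ g * L := by
      have : (l : ℝ) ≤ L := by exact_mod_cast (hA l hl).2
      gcongr
    rw [max_eq_left (h1.trans hx), max_eq_left h0]
  have e2 : ∀ l ∈ B, max (min y (1 - g * (l : ℝ)) - x) 0 = y - x := by
    intro l hl
    have h1 : g * (l : ℝ) ≤ g * L := by
      have : (l : ℝ) ≤ L := by exact_mod_cast (hB l hl).2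
      gcongr
    rw [min_eq_left (by linarith), max_eq_left h0]
  rw [prod_congr rfl e1, prod_congr rfl e2, prod_const, prod_const, pow_add]

theorem int_pow_sub (n : ℕ) (x b : ℝ) : (∫ y in x..b, (y - x) ^ n) = (b - x) ^ (n + 1) / (n + 1) := by
  have h := intervalIntegral.integral_comp_sub_right (a := x) (b := b) (fun t : ℝ => t ^ n) x
  rw [h, sub_self, integral_pow]
  simp

theorem int_pow_sub' (n : ℕ) (a b : ℝ) : (∫ x in a..b, (b - x) ^ n) = (b - a) ^ (n + 1) / (n + 1) := by
  have h := intervalIntegral.integral_comp_sub_left (a := a) (b := b) (fun t : ℝ => t ^ n) b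
  rw [h, sub_self, integral_pow]
  simp

end ZB

theorem zb : S_REG → S_ZB := by
  intro _ g L A B hg hL hgL hA hB hM
  obtain ⟨hL', h1, h2, h3⟩ := EXT.gl hg hL hgL
  set M := A.card + B.card with hMdef
  have hZ : ZZ g A B = ∫ x in (0 : ℝ)..1, hx g A B x := rfl
  have hML : (M : ℝ) ≤ 2 * L := by
    have := ZB.card_le hA
    have := ZB.card_le hB
    exact_mod_cast (by omega : M ≤ 2 * L)
  have hM0 : (0 : ℝ) ≤ M := Nat.cast_nonneg _
  constructor
  · have e1 : (∫ x in (0 : ℝ)..1, hx g A B x) ≤ ∫ x in (0 : ℝ)..1, (1 - x) ^ (M + 1) / ((M : ℝ) + 1) := by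
      refine intervalIntegral.integral_mono_on zero_le_one ((REG.hx_cont g A B).intervalIntegrable _ _)
        ((by fun_prop : Continuous fun x : ℝ => (1 - x) ^ (M + 1) / ((M : ℝ) + 1)).intervalIntegrable _ _)
        fun x hxx => ?_
      have e2 : hx g A B x ≤ ∫ y in x..1, (y - x) ^ M := by
        refine intervalIntegral.integral_mono_on hxx.2
          ((REG.kk_cont' g A B continuous_const continuous_id).intervalIntegrable _ _)
          ((by fun_prop : Continuous fun y : ℝ => (y - x) ^ M).intervalIntegrable _ _) fun y hy => ?_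
        exact REG.kk_le g A B hy.1
      rw [ZB.int_pow_sub] at e2
      exact e2
    rw [hZ]
    refine e1.trans (le_of_eq ?_)
    rw [intervalIntegral.integral_div, ZB.int_pow_sub', sub_zero, one_pow]
    push_cast
    field_simp
    ring
  · have hb : g * L ≤ 1 - g * L := by
      have : g * (L : ℝ) ≤ 1 / 2 := h3.trans (by norm_num)
      linarith
    have hnn : ∀ x ∈ Set.Icc (0 : ℝ) 1, 0 ≤ hx g A B x := fun x hx => (REG.hx_bd g A B hx.1 hx.2).1
    have e0 : (∫ x in (g * L)..(1 - g * L), hx g A B x) ≤ ∫ x in (0 : ℝ)..1, hx g A B x := by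
      refine intervalIntegral.integral_mono_interval h2.le hb (by linarith) ?_
        ((REG.hx_cont g A B).intervalIntegrable _ _)
      refine (ae_restrict_iff' measurableSet_Ioc).2 (Filter.Eventually.of_forall fun x hx => ?_)
      exact hnn x ⟨hx.1.le, hx.2⟩
    have e1 : (∫ x in (g * L)..(1 - g * L), (1 - g * L - x) ^ (M + 1) / ((M : ℝ) + 1)) ≤
        ∫ x in (g * L)..(1 - g * L), hx g A B x := by
      refine intervalIntegral.integral_mono_on hb
        ((by fun_prop : Continuous fun x : ℝ => (1 - g * L - x) ^ (M + 1) / ((M : ℝ) + 1)).intervalIntegrable _ _)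
        ((REG.hx_cont g A B).intervalIntegrable _ _) fun x hxx => ?_
      have e2 : (∫ y in x..(1 - g * L), KK g A B x y) ≤ hx g A B x := by
        refine intervalIntegral.integral_mono_interval le_rfl hxx.2 (by linarith) ?_
          ((REG.kk_cont' g A B continuous_const continuous_id).intervalIntegrable _ _)
        exact Filter.Eventually.of_forall fun y => REG.kk_nonneg _ _ _ _ _
      have e3 : (∫ y in x..(1 - g * L), KK g A B x y) = ∫ y in x..(1 - g * L), (y - x) ^ M := by
        refine intervalIntegral.integral_congr fun y hy => ?_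
        rw [Set.uIcc_of_le hxx.2] at hy
        exact ZB.kk_mid hg hA hB hxx.1 hy.1 hy.2
      rw [e3, ZB.int_pow_sub] at e2
      exact e2
    rw [intervalIntegral.integral_div, ZB.int_pow_sub'] at e1
    rw [hZ]
    refine le_trans ?_ (e1.trans e0)
    have h5 : 1 + ((M + 1 + 1 : ℕ) : ℝ) * (-(2 * (g * L))) ≤ (1 + (-(2 * (g * L)))) ^ (M + 1 + 1) :=
      one_add_mul_le_pow (by linarith [h3.trans (by norm_num : (1 : ℝ) / 100 ^ 7 ≤ 1 / 2)]) _
    have h6 : (99 / 100 : ℝ) ≤ (1 - g * L - g * L) ^ (M + 1 + 1) := by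
      have e : 1 - g * L - g * L = 1 + (-(2 * (g * L))) := by ring
      rw [e]
      refine le_trans ?_ h5
      push_cast
      have h7 : ((M : ℝ) + 1 + 1) * (2 * (g * L)) ≤ 1 / 100 := by
        calc ((M : ℝ) + 1 + 1) * (2 * (g * L)) ≤ (3 * L) * (2 * (g * L)) := by
              gcongr
              linarith
          _ = 6 * (g * L * L) := by ring
          _ ≤ 6 * (1 / 100 ^ 6) := by
              gcongr
              rw [le_div_iff₀ (by norm_num)]
              calc g * L * L * 100 ^ 6 ≤ g * L * L * (L : ℝ) ^ 6 := by gcongr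
                _ = g * L * (L : ℝ) ^ 7 := by ring
                _ ≤ 1 := h1
          _ ≤ 1 / 100 := by norm_num
      linarith
    have hp1 : (0 : ℝ) < (M : ℝ) + 1 := by positivity
    have hp2 : (0 : ℝ) < (M : ℝ) + 2 := by positivity
    push_cast
    rw [div_div ((1 - g * (L : ℝ) - g * L) ^ (M + 1 + 1))]
    have e4 : ((M : ℝ) + 1 + 1) * ((M : ℝ) + 1) = ((M : ℝ) + 1) * ((M : ℝ) + 2) := by ring
    rw [e4]
    exact div_le_div_of_nonneg_right h6 (by positivity)

end Pool.Agent.H34.RK
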