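import Pool.Agent.H34.RK.Stm3
import Pool.Agent.H34.RK.Zb

set_option autoImplicit false

open Finset MeasureTheory

namespace Pool.Agent.H34.RK

namespace PERT

/-! ### The weight for general frontiers -/

theorem kt_cont (φ ψ : ℕ → ℝ) (A B : Finset ℕ) :
    Continuous (fun xy : ℝ × ℝ => KT φ ψ A B xy.1 xy.2) := by
  unfold KT
  fun_prop

theorem kt_cont' {X : Type} [TopologicalSpace X] (φ ψ : ℕ → ℝ) (A B : Finset ℕ) {u w : X → ℝ}
    (hu : Continuous u) (hw : Continuous w) : Continuous (fun x => KT φ ψ A B (u x) (w x)) :=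
  (kt_cont φ ψ A B).comp (hu.prodMk hw)

theorem kt_nonneg (φ ψ : ℕ → ℝ) (A B : Finset ℕ) (x y : ℝ) : 0 ≤ KT φ ψ A B x y := by
  unfold KT
  exact mul_nonneg (prod_nonneg fun _ _ => le_max_right _ _) (prod_nonneg fun _ _ => le_max_right _ _)

theorem fA_bd (φ : ℝ) {x y : ℝ} (hx : 0 ≤ x) (hxy : x ≤ y) (hy : y ≤ 1) :
    0 ≤ max (y - max x φ) 0 ∧ max (y - max x φ) 0 ≤ 1 :=
  ⟨le_max_right _ _, max_le (by linarith [le_max_left x φ]) zero_le_one⟩

theorem fB_bd (ψ : ℝ) {x y : ℝ} (hx : 0 ≤ x) (hxy : x ≤ y) (hy : y ≤ 1) :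
    0 ≤ max (min y ψ - x) 0 ∧ max (min y ψ - x) 0 ≤ 1 :=
  ⟨le_max_right _ _, max_le (by linarith [min_le_left y ψ]) zero_le_one⟩

theorem kt_le_one (φ ψ : ℕ → ℝ) (A B : Finset ℕ) {x y : ℝ} (hx : 0 ≤ x) (hxy : x ≤ y) (hy : y ≤ 1) :
    KT φ ψ A B x y ≤ 1 := by
  unfold KT
  refine mul_le_one₀ ?_ (prod_nonneg fun _ _ => le_max_right _ _) ?_
  · exact prod_le_one (fun l _ => (fA_bd _ hx hxy hy).1) fun l _ => (fA_bd _ hx hxy hy).2
  · exact prod_le_one (fun l _ => (fB_bd _ hx hxy hy).1) fun l _ => (fB_bd _ hx hxy hy).2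

theorem prod_diff (A : Finset ℕ) (f f' : ℕ → ℝ) (δ : ℝ) (hf : ∀ l ∈ A, 0 ≤ f l ∧ f l ≤ 1)
    (hf' : ∀ l ∈ A, 0 ≤ f' l ∧ f' l ≤ 1) (h : ∀ l ∈ A, |f l - f' l| ≤ δ) :
    |∏ l ∈ A, f l - ∏ l ∈ A, f' l| ≤ A.card * δ := by
  classical
  induction A using Finset.induction_on with
  | empty => simp
  | insert a A ha ih =>
    have ih' := ih (fun l hl => hf l (mem_insert_of_mem hl)) (fun l hl => hf' l (mem_insert_of_mem hl))
      (fun l hl => h l (mem_insert_of_mem hl))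
    rw [prod_insert ha, prod_insert ha, card_insert_of_notMem ha]
    obtain ⟨a0, a1⟩ := hf a (mem_insert_self a A)
    have h0 := h a (mem_insert_self a A)
    have p0 : 0 ≤ ∏ l ∈ A, f' l := prod_nonneg fun l hl => (hf' l (mem_insert_of_mem hl)).1
    have p1 : ∏ l ∈ A, f' l ≤ 1 := prod_le_one (fun l hl => (hf' l (mem_insert_of_mem hl)).1)
      fun l hl => (hf' l (mem_insert_of_mem hl)).2
    have e : f a * ∏ l ∈ A, f l - f' a * ∏ l ∈ A, f' l =
        f a * (∏ l ∈ A, f l - ∏ l ∈ A, f' l) + (f a - f' a) * ∏ l ∈ A, f' l := by ring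
    rw [e]
    calc _ ≤ |f a * (∏ l ∈ A, f l - ∏ l ∈ A, f' l)| + |(f a - f' a) * ∏ l ∈ A, f' l| :=
          abs_add_le _ _
      _ = f a * |∏ l ∈ A, f l - ∏ l ∈ A, f' l| + |f a - f' a| * ∏ l ∈ A, f' l := by
          rw [abs_mul, abs_mul, abs_of_nonneg a0, abs_of_nonneg p0]
      _ ≤ 1 * (A.card * δ) + δ * 1 := by
          gcongr
          exact (abs_nonneg _).trans h0
      _ = _ := by push_cast; ring

theorem kt_diff (φ ψ φ' ψ' : ℕ → ℝ) (A B : Finset ℕ) (δ : ℝ) {x y : ℝ} (hx : 0 ≤ x) (hxy : x ≤ y)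
    (hy : y ≤ 1) (hA : ∀ l ∈ A, |φ l - φ' l| ≤ δ) (hB : ∀ l ∈ B, |ψ l - ψ' l| ≤ δ) :
    |KT φ ψ A B x y - KT φ' ψ' A B x y| ≤ (A.card + B.card : ℕ) * δ := by
  unfold KT
  have h1 := prod_diff A (fun l => max (y - max x (φ l)) 0) (fun l => max (y - max x (φ' l)) 0) δ
    (fun l _ => fA_bd _ hx hxy hy) (fun l _ => fA_bd _ hx hxy hy) (fun l hl => by
      refine (abs_max_sub_max_le_abs _ _ _).trans ?_
      have e : y - max x (φ l) - (y - max x (φ' l)) = max (φ' l) x - max (φ l) x := by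
        rw [max_comm x, max_comm x]
        ring
      rw [e]
      refine (abs_max_sub_max_le_abs _ _ _).trans ?_
      rw [abs_sub_comm]
      exact hA l hl)
  have h2 := prod_diff B (fun l => max (min y (ψ l) - x) 0) (fun l => max (min y (ψ' l) - x) 0) δ
    (fun l _ => fB_bd _ hx hxy hy) (fun l _ => fB_bd _ hx hxy hy) (fun l hl => by
      refine (abs_max_sub_max_le_abs _ _ _).trans ?_
      have e : min y (ψ l) - x - (min y (ψ' l) - x) = min y (ψ l) - min y (ψ' l) := by ring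
      rw [e]
      refine (abs_min_sub_min_le_max _ _ _ _).trans ?_
      rw [sub_self, abs_zero, max_eq_right (abs_nonneg _)]
      exact hB l hl)
  set P := ∏ l ∈ A, max (y - max x (φ l)) 0
  set P' := ∏ l ∈ A, max (y - max x (φ' l)) 0
  set R := ∏ l ∈ B, max (min y (ψ l) - x) 0 with hR
  set R' := ∏ l ∈ B, max (min y (ψ' l) - x) 0
  have P'0 : 0 ≤ P' := prod_nonneg fun l _ => (fA_bd _ hx hxy hy).1
  have P'1 : P' ≤ 1 := prod_le_one (fun l _ => (fA_bd _ hx hxy hy).1) fun l _ => (fA_bd _ hx hxy hy).2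
  have R0 : 0 ≤ R := prod_nonneg fun l _ => (fB_bd _ hx hxy hy).1
  have R1 : R ≤ 1 := prod_le_one (fun l _ => (fB_bd _ hx hxy hy).1) fun l _ => (fB_bd _ hx hxy hy).2
  have e : P * R - P' * R' = (P - P') * R + P' * (R - R') := by ring
  rw [e]
  calc _ ≤ |(P - P') * R| + |P' * (R - R')| := abs_add_le _ _
    _ = |P - P'| * R + P' * |R - R'| := by rw [abs_mul, abs_mul, abs_of_nonneg R0, abs_of_nonneg P'0]
    _ ≤ |P - P'| * 1 + 1 * |R - R'| := by gcongr
    _ ≤ A.card * δ + B.card * δ := by linarith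
    _ = _ := by push_cast; ring

/-! ### Integrals -/

theorem int_diff {f f' : ℝ → ℝ} (hf : Continuous f) (hf' : Continuous f') {a b c : ℝ} (hc : 0 ≤ c)
    (ha : 0 ≤ a) (hb : b ≤ 1) (hab : a ≤ b) (h : ∀ x, a ≤ x → x ≤ b → |f x - f' x| ≤ c) :
    |(∫ x in a..b, f x) - ∫ x in a..b, f' x| ≤ c := by
  rw [← intervalIntegral.integral_sub (hf.intervalIntegrable _ _) (hf'.intervalIntegrable _ _)]
  have h5 : ∀ x ∈ Set.uIoc a b, ‖f x - f' x‖ ≤ c := by
    intro x hx
    rw [Set.uIoc_of_le hab] at hx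
    rw [Real.norm_eq_abs]
    exact h x hx.1.le hx.2
  have := intervalIntegral.norm_integral_le_of_norm_le_const h5
  rw [Real.norm_eq_abs, abs_of_nonneg (by linarith : 0 ≤ b - a)] at this
  refine this.trans ?_
  calc c * (b - a) ≤ c * 1 := by gcongr; linarith
    _ = c := mul_one c

theorem hXT_cont (φ ψ : ℕ → ℝ) (A B : Finset ℕ) : Continuous (hXT φ ψ A B) := by
  unfold hXT
  exact REG.cint (f := fun x y => KT φ ψ A B x y) (kt_cont φ ψ A B) continuous_id continuous_const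

theorem hYT_cont (φ ψ : ℕ → ℝ) (A B : Finset ℕ) : Continuous (hYT φ ψ A B) := by
  unfold hYT
  exact REG.cint (f := fun y x => KT φ ψ A B x y) (kt_cont' φ ψ A B continuous_snd continuous_fst)
    continuous_const continuous_id

/-- the core of `hZT` -/
noncomputable def hzT (φ ψ : ℕ → ℝ) (A B : Finset ℕ) (z : ℝ) : ℝ :=
  ∫ x in (0 : ℝ)..z, ∫ y in z..1, KT φ ψ A B x y

theorem inner_cont (φ ψ : ℕ → ℝ) (A B : Finset ℕ) (z : ℝ) :
    Continuous (fun x => ∫ y in z..1, KT φ ψ A B x y) :=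
  REG.cint (f := fun x y => KT φ ψ A B x y) (kt_cont φ ψ A B) continuous_const continuous_const

theorem hzT_cont (φ ψ : ℕ → ℝ) (A B : Finset ℕ) : Continuous (hzT φ ψ A B) := by
  unfold hzT
  refine REG.cint (f := fun z x => ∫ y in z..1, KT φ ψ A B x y) ?_ continuous_const continuous_id
  exact REG.cint (f := fun (p : ℝ × ℝ) y => KT φ ψ A B p.2 y)
    (kt_cont' φ ψ A B (by fun_prop) (by fun_prop)) continuous_fst continuous_const

theorem hXT_bd (φ ψ : ℕ → ℝ) (A B : Finset ℕ) {z : ℝ} (h0 : 0 ≤ z) (h1 : z ≤ 1) :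
    0 ≤ hXT φ ψ A B z ∧ hXT φ ψ A B z ≤ 1 := by
  unfold hXT
  exact REG.int_le_one (f := fun y => KT φ ψ A B z y) (kt_cont' φ ψ A B continuous_const continuous_id)
    h0 le_rfl h1 (fun y _ _ => kt_nonneg _ _ _ _ _ _) fun y hy1 hy2 => kt_le_one φ ψ A B h0 hy1 hy2

theorem hYT_bd (φ ψ : ℕ → ℝ) (A B : Finset ℕ) {z : ℝ} (h0 : 0 ≤ z) (h1 : z ≤ 1) :
    0 ≤ hYT φ ψ A B z ∧ hYT φ ψ A B z ≤ 1 := by
  unfold hYT
  exact REG.int_le_one (f := fun x => KT φ ψ A B x z) (kt_cont' φ ψ A B continuous_id continuous_const)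
    le_rfl h1 h0 (fun y _ _ => kt_nonneg _ _ _ _ _ _) fun y hy1 hy2 => kt_le_one φ ψ A B hy1 hy2 h1

theorem hzT_bd (φ ψ : ℕ → ℝ) (A B : Finset ℕ) {z : ℝ} (h0 : 0 ≤ z) (h1 : z ≤ 1) :
    0 ≤ hzT φ ψ A B z ∧ hzT φ ψ A B z ≤ 1 := by
  unfold hzT
  have hin : ∀ x, 0 ≤ x → x ≤ z → 0 ≤ (∫ y in z..1, KT φ ψ A B x y) ∧
      (∫ y in z..1, KT φ ψ A B x y) ≤ 1 := fun x hx0 hxz =>
    REG.int_le_one (f := fun y => KT φ ψ A B x y) (kt_cont' φ ψ A B continuous_const continuous_id) h0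
      le_rfl h1 (fun y _ _ => kt_nonneg _ _ _ _ _ _) fun y hy1 hy2 =>
        kt_le_one φ ψ A B hx0 (hxz.trans hy1) hy2
  exact REG.int_le_one (f := fun x => ∫ y in z..1, KT φ ψ A B x y) (inner_cont φ ψ A B z)
    le_rfl h1 h0 (fun x hx1 hx2 => (hin x hx1 hx2).1) fun x hx1 hx2 => (hin x hx1 hx2).2

theorem hZT_eq (φ ψ : ℕ → ℝ) (A B : Finset ℕ) (lo hi z : ℝ) :
    hZT φ ψ A B lo hi z = if lo ≤ z ∧ z ≤ hi then hzT φ ψ A B z else 0 := rfl

section diff
variable (φ ψ φ' ψ' : ℕ → ℝ) (A B : Finset ℕ) (c : ℝ) (hc : 0 ≤ c)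
  (hK : ∀ x y, 0 ≤ x → x ≤ y → y ≤ 1 → |KT φ ψ A B x y - KT φ' ψ' A B x y| ≤ c)
include hc hK

theorem hXT_diff {z : ℝ} (h0 : 0 ≤ z) (h1 : z ≤ 1) : |hXT φ ψ A B z - hXT φ' ψ' A B z| ≤ c :=
  int_diff (kt_cont' φ ψ A B continuous_const continuous_id)
    (kt_cont' φ' ψ' A B continuous_const continuous_id) hc h0 le_rfl h1
    fun y hy0 hy1 => hK z y h0 hy0 hy1

theorem hYT_diff {z : ℝ} (h0 : 0 ≤ z) (h1 : z ≤ 1) : |hYT φ ψ A B z - hYT φ' ψ' A B z| ≤ c :=
  int_diff (f := fun x => KT φ ψ A B x z) (f' := fun x => KT φ' ψ' A B x z)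
    (kt_cont' φ ψ A B continuous_id continuous_const)
    (kt_cont' φ' ψ' A B continuous_id continuous_const) hc le_rfl h1 h0
    fun y hy0 hy1 => hK y z hy0 hy1 h1

theorem hzT_diff {z : ℝ} (h0 : 0 ≤ z) (h1 : z ≤ 1) : |hzT φ ψ A B z - hzT φ' ψ' A B z| ≤ c :=
  int_diff (inner_cont φ ψ A B z) (inner_cont φ' ψ' A B z) hc le_rfl h1 h0 fun x hx0 hxz =>
    int_diff (kt_cont' φ ψ A B continuous_const continuous_id)
      (kt_cont' φ' ψ' A B continuous_const continuous_id) hc h0 le_rfl h1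
      fun y hy0 hy1 => hK x y hx0 (hxz.trans hy0) hy1

theorem ZT_diff : |ZT φ ψ A B - ZT φ' ψ' A B| ≤ c :=
  int_diff (hXT_cont φ ψ A B) (hXT_cont φ' ψ' A B) hc le_rfl le_rfl zero_le_one
    fun x hx0 hx1 => hXT_diff φ ψ φ' ψ' A B c hc hK hx0 hx1

end diff

/-! ### Windows -/

/-- indicator of an interval -/
noncomputable def ind (a b z : ℝ) : ℝ := if a ≤ z ∧ z ≤ b then 1 else 0

theorem ind_bd (a b z : ℝ) : 0 ≤ ind a b z ∧ ind a b z ≤ 1 := by
  unfold ind
  split_ifs <;> norm_num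

theorem ind_meas (a b : ℝ) : Measurable (ind a b) := by
  unfold ind
  exact Measurable.ite (measurableSet_Icc (a := a) (b := b)) measurable_const measurable_const

theorem ii_of_bd {f : ℝ → ℝ} (hf : Measurable f) {C : ℝ} {a b : ℝ}
    (h : ∀ x ∈ Set.uIoc a b, |f x| ≤ C) : IntervalIntegrable f volume a b := by
  rw [intervalIntegrable_iff]
  refine Measure.integrableOn_of_bounded (M := C) ?_ hf.aestronglyMeasurable ?_
  · simp [Set.uIoc, Real.volume_Ioc]
  · exact (ae_restrict_iff' measurableSet_uIoc).2 (Filter.Eventually.of_forall fun x hx => by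
      rw [Real.norm_eq_abs]
      exact h x hx)

theorem ind_int (a b x y : ℝ) (hxy : x ≤ y) (hab : a ≤ b) : (∫ z in x..y, ind a b z) ≤ b - a := by
  rw [intervalIntegral.integral_of_le hxy]
  have e : ind a b = (Set.Icc a b).indicator (fun _ => (1 : ℝ)) := by
    funext z
    unfold ind
    by_cases h : a ≤ z ∧ z ≤ b
    · rw [if_pos h, Set.indicator_of_mem (show z ∈ Set.Icc a b from h)]
    · rw [if_neg h, Set.indicator_of_notMem (show z ∉ Set.Icc a b from h)]
  rw [e, integral_indicator_const _ measurableSet_Icc, smul_eq_mul, mul_one, measureReal_restrict_apply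
    measurableSet_Icc]
  calc volume.real (Set.Icc a b ∩ Set.Ioc x y) ≤ volume.real (Set.Icc a b) :=
        measureReal_mono Set.inter_subset_left (by rw [Real.volume_Icc]; exact ENNReal.ofReal_ne_top)
    _ = b - a := by rw [Real.volume_real_Icc_of_le hab]

/-- pointwise change of a window -/
theorem win_diff (lo hi lo' hi' F F' c z : ℝ) (hc : 0 ≤ c) (hF : |F| ≤ 1) (hF' : |F'| ≤ 1)
    (h : |F - F'| ≤ c) :
    |(if lo ≤ z ∧ z ≤ hi then F else 0) - (if lo' ≤ z ∧ z ≤ hi' then F' else 0)| ≤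
      c + (ind (min lo lo') (max lo lo') z + ind (min hi hi') (max hi hi') z) := by
  have i1 := ind_bd (min lo lo') (max lo lo') z
  have i2 := ind_bd (min hi hi') (max hi hi') z
  by_cases h1 : lo ≤ z ∧ z ≤ hi
  · by_cases h2 : lo' ≤ z ∧ z ≤ hi'
    · rw [if_pos h1, if_pos h2]
      linarith
    · rw [if_pos h1, if_neg h2, sub_zero]
      rcases lt_or_ge z lo' with h3 | h3
      · have : ind (min lo lo') (max lo lo') z = 1 := by
          unfold ind
          rw [if_pos ⟨(min_le_left _ _).trans h1.1, h3.le.trans (le_max_right _ _)⟩]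
        linarith
      · have h4 : hi' < z := by
          by_contra h5
          exact h2 ⟨h3, not_lt.1 h5⟩
        have : ind (min hi hi') (max hi hi') z = 1 := by
          unfold ind
          rw [if_pos ⟨(min_le_right _ _).trans h4.le, h1.2.trans (le_max_left _ _)⟩]
        linarith
  · by_cases h2 : lo' ≤ z ∧ z ≤ hi'
    · rw [if_neg h1, if_pos h2, zero_sub, abs_neg]
      rcases lt_or_ge z lo with h3 | h3
      · have : ind (min lo lo') (max lo lo') z = 1 := by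
          unfold ind
          rw [if_pos ⟨(min_le_right _ _).trans h2.1, h3.le.trans (le_max_left _ _)⟩]
        linarith
      · have h4 : hi < z := by
          by_contra h5
          exact h1 ⟨h3, not_lt.1 h5⟩
        have : ind (min hi hi') (max hi hi') z = 1 := by
          unfold ind
          rw [if_pos ⟨(min_le_left _ _).trans h4.le, h2.2.trans (le_max_right _ _)⟩]
        linarith
    · rw [if_neg h1, if_neg h2, sub_zero, abs_zero]
      linarith

theorem win_int (lo lo' x y : ℝ) (hxy : x ≤ y) :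
    (∫ z in x..y, ind (min lo lo') (max lo lo') z) ≤ |lo - lo'| := by
  refine (ind_int _ _ x y hxy (min_le_max)).trans ?_
  rw [max_sub_min_eq_abs, abs_sub_comm]

/-! ### Signed forms -/

/-- admissible functions -/
structure Gd1 (h : ℝ → ℝ) : Prop where
  li : ∀ a b, IntervalIntegrable h volume a b
  bd : ∀ z, 0 ≤ z → z ≤ 1 → |h z| ≤ 1

/-- the signed primitive -/
noncomputable def Gs (h : ℝ → ℝ) (x y z : ℝ) : ℝ := (∫ t in z..y, h t) - ∫ t in x..z, h t

theorem Gs_eq {h : ℝ → ℝ} (hh : Gd1 h) (x y z : ℝ) : Gs h x y z =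
    (∫ t in (0 : ℝ)..y, h t) + (∫ t in (0 : ℝ)..x, h t) - 2 * ∫ t in (0 : ℝ)..z, h t := by
  unfold Gs
  rw [← intervalIntegral.integral_interval_sub_left (hh.li 0 y) (hh.li 0 z),
    ← intervalIntegral.integral_interval_sub_left (hh.li 0 z) (hh.li 0 x)]
  ring

theorem prim_cont {h : ℝ → ℝ} (hh : Gd1 h) : Continuous (fun t => ∫ s in (0 : ℝ)..t, h s) :=
  intervalIntegral.continuous_primitive hh.li 0

theorem Gs_cont {h : ℝ → ℝ} (hh : Gd1 h) (x y : ℝ) : Continuous (Gs h x y) := by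
  have : Gs h x y = fun z => (∫ t in (0 : ℝ)..y, h t) + (∫ t in (0 : ℝ)..x, h t) -
      2 * ∫ t in (0 : ℝ)..z, h t := funext fun z => Gs_eq hh x y z
  rw [this]
  exact continuous_const.sub ((prim_cont hh).const_mul 2)

theorem sgn_int {h : ℝ → ℝ} (hh : Gd1 h) {x y z : ℝ} (hxz : x ≤ z) (hzy : z ≤ y) :
    (∫ t in x..y, Real.sign (t - z) * h t) = Gs h x y z := by
  have e1 : Set.EqOn (fun t : ℝ => -h t) (fun t => Real.sign (t - z) * h t) (Set.uIoo x z) := by
    intro t ht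
    rw [Set.uIoo_of_le hxz] at ht
    simp only
    rw [Real.sign_of_neg (by linarith [ht.2])]
    ring
  have e2 : Set.EqOn h (fun t => Real.sign (t - z) * h t) (Set.uIoo z y) := by
    intro t ht
    rw [Set.uIoo_of_le hzy] at ht
    simp only
    rw [Real.sign_of_pos (by linarith [ht.1])]
    ring
  have i1 := ((hh.li x z).neg).congr_uIoo e1
  have i2 := (hh.li z y).congr_uIoo e2
  rw [← intervalIntegral.integral_add_adjacent_intervals i1 i2,
    ← intervalIntegral.integral_congr_uIoo e1, ← intervalIntegral.integral_congr_uIoo e2,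
    intervalIntegral.integral_neg]
  unfold Gs
  ring

theorem abs_int_le {h : ℝ → ℝ} (hh : Gd1 h) {x y : ℝ} (hx : 0 ≤ x) (hxy : x ≤ y) (hy : y ≤ 1) :
    |∫ t in x..y, h t| ≤ y - x := by
  have h5 : ∀ t ∈ Set.uIoc x y, ‖h t‖ ≤ 1 := by
    intro t ht
    rw [Set.uIoc_of_le hxy] at ht
    exact hh.bd t (hx.trans ht.1.le) (ht.2.trans hy)
  have := intervalIntegral.norm_integral_le_of_norm_le_const h5
  rw [Real.norm_eq_abs, abs_of_nonneg (by linarith : 0 ≤ y - x), one_mul] at this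
  exact this

theorem Gs_bd {h : ℝ → ℝ} (hh : Gd1 h) {x y z : ℝ} (hx : 0 ≤ x) (hxz : x ≤ z) (hzy : z ≤ y)
    (hy : y ≤ 1) : |Gs h x y z| ≤ 1 := by
  unfold Gs
  have h1 := abs_int_le hh (hx.trans hxz) hzy hy
  have h2 := abs_int_le hh hx hxz (hzy.trans hy)
  calc _ ≤ |∫ t in z..y, h t| + |∫ t in x..z, h t| := abs_sub _ _
    _ ≤ 1 := by linarith

theorem Gs_diff {h k : ℝ → ℝ} (hh : Gd1 h) (hk : Gd1 k) {x y z : ℝ} (hxz : x ≤ z) (hzy : z ≤ y) :
    |Gs h x y z - Gs k x y z| ≤ ∫ t in x..y, |h t - k t| := by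
  have i : ∀ a b, IntervalIntegrable (fun t => h t - k t) volume a b := fun a b =>
    (hh.li a b).sub (hk.li a b)
  have e : Gs h x y z - Gs k x y z = (∫ t in z..y, (h t - k t)) - ∫ t in x..z, (h t - k t) := by
    unfold Gs
    rw [intervalIntegral.integral_sub (hh.li _ _) (hk.li _ _),
      intervalIntegral.integral_sub (hh.li _ _) (hk.li _ _)]
    ring
  rw [e, ← intervalIntegral.integral_add_adjacent_intervals (i x z).abs (i z y).abs]
  calc _ ≤ |∫ t in z..y, (h t - k t)| + |∫ t in x..z, (h t - k t)| := abs_sub _ _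
    _ ≤ (∫ t in z..y, |h t - k t|) + ∫ t in x..z, |h t - k t| :=
        add_le_add (intervalIntegral.abs_integral_le_integral_abs hzy)
          (intervalIntegral.abs_integral_le_integral_abs hxz)
    _ = _ := add_comm _ _

/-- the signed form on `[x, y]` -/
noncomputable def WX (h h' : ℝ → ℝ) (x y : ℝ) : ℝ :=
  ∫ z in x..y, ∫ z' in x..y, Real.sign (z' - z) * h z * h' z'

theorem WX_eq {h h' : ℝ → ℝ} (hh' : Gd1 h') {x y : ℝ} (hxy : x ≤ y) :
    WX h h' x y = ∫ z in x..y, h z * Gs h' x y z := by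
  unfold WX
  refine intervalIntegral.integral_congr fun z hz => ?_
  rw [Set.uIcc_of_le hxy] at hz
  have e : ∀ z', Real.sign (z' - z) * h z * h' z' = h z * (Real.sign (z' - z) * h' z') := fun z' => by
    ring
  simp only [e]
  rw [intervalIntegral.integral_const_mul, sgn_int hh' hz.1 hz.2]

theorem prod_ii {h : ℝ → ℝ} (hh : Gd1 h) {G : ℝ → ℝ} (hG : Continuous G) (a b : ℝ) :
    IntervalIntegrable (fun z => h z * G z) volume a b :=
  (hh.li a b).mul_continuousOn hG.continuousOn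

theorem WX_diff {h h' k k' : ℝ → ℝ} (hh : Gd1 h) (hh' : Gd1 h') (hk : Gd1 k) (hk' : Gd1 k')
    {x y : ℝ} (hx : 0 ≤ x) (hxy : x ≤ y) (hy : y ≤ 1) :
    |WX h h' x y - WX k k' x y| ≤ (∫ z in x..y, |h z - k z|) + ∫ z in x..y, |h' z - k' z| := by
  rw [WX_eq hh' hxy, WX_eq hk' hxy, ← intervalIntegral.integral_sub (prod_ii hh (Gs_cont hh' x y) x y)
    (prod_ii hk (Gs_cont hk' x y) x y)]
  set D := ∫ z in x..y, |h' z - k' z| with hD
  have hD0 : 0 ≤ D := intervalIntegral.integral_nonneg hxy fun _ _ => abs_nonneg _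
  have i1 : IntervalIntegrable (fun z => |h z - k z|) volume x y := ((hh.li x y).sub (hk.li x y)).abs
  rw [← Real.norm_eq_abs]
  refine (intervalIntegral.norm_integral_le_of_norm_le hxy (g := fun z => |h z - k z| + D)
    (Filter.Eventually.of_forall fun z hz => ?_) (i1.add (continuous_const.intervalIntegrable _ _))).trans ?_
  · rw [Real.norm_eq_abs]
    have e : h z * Gs h' x y z - k z * Gs k' x y z =
        (h z - k z) * Gs h' x y z + k z * (Gs h' x y z - Gs k' x y z) := by ring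
    rw [e]
    have b1 := Gs_bd hh' hx hz.1.le hz.2 hy
    have b2 := hk.bd z (hx.trans hz.1.le) (hz.2.trans hy)
    have b3 := Gs_diff hh' hk' hz.1.le hz.2
    calc _ ≤ |(h z - k z) * Gs h' x y z| + |k z * (Gs h' x y z - Gs k' x y z)| := abs_add_le _ _
      _ = |h z - k z| * |Gs h' x y z| + |k z| * |Gs h' x y z - Gs k' x y z| := by
          rw [abs_mul, abs_mul]
      _ ≤ |h z - k z| * 1 + 1 * D := by gcongr
      _ = _ := by ring
  · rw [intervalIntegral.integral_add i1 (continuous_const.intervalIntegrable _ _),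
      intervalIntegral.integral_const, smul_eq_mul]
    have : (y - x) * D ≤ 1 * D := by
      gcongr
      linarith
    linarith

theorem WX_bd {h h' : ℝ → ℝ} (hh : Gd1 h) (hh' : Gd1 h') {x y : ℝ} (hx : 0 ≤ x) (hxy : x ≤ y)
    (hy : y ≤ 1) : |WX h h' x y| ≤ 1 := by
  rw [WX_eq hh' hxy]
  have h5 : ∀ z ∈ Set.uIoc x y, ‖h z * Gs h' x y z‖ ≤ 1 := by
    intro z hz
    rw [Set.uIoc_of_le hxy] at hz
    rw [Real.norm_eq_abs, abs_mul]
    exact mul_le_one₀ (hh.bd z (hx.trans hz.1.le) (hz.2.trans hy)) (abs_nonneg _)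
      (Gs_bd hh' hx hz.1.le hz.2 hy)
  have := intervalIntegral.norm_integral_le_of_norm_le_const h5
  rw [Real.norm_eq_abs, abs_of_nonneg (by linarith : 0 ≤ y - x), one_mul] at this
  linarith

/-- a continuous formula for `WX` -/
noncomputable def WF (h h' : ℝ → ℝ) (p : ℝ × ℝ) : ℝ :=
  ((∫ t in (0 : ℝ)..p.2, h' t) + ∫ t in (0 : ℝ)..p.1, h' t) *
      ((∫ t in (0 : ℝ)..p.2, h t) - ∫ t in (0 : ℝ)..p.1, h t) -
    2 * ((∫ t in (0 : ℝ)..p.2, h t * ∫ s in (0 : ℝ)..t, h' s) -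
      ∫ t in (0 : ℝ)..p.1, h t * ∫ s in (0 : ℝ)..t, h' s)

theorem WF_cont {h h' : ℝ → ℝ} (hh : Gd1 h) (hh' : Gd1 h') : Continuous (WF h h') := by
  have c1 := prim_cont hh
  have c2 := prim_cont hh'
  have c3 : Continuous (fun t => ∫ s in (0 : ℝ)..t, h s * ∫ r in (0 : ℝ)..s, h' r) :=
    intervalIntegral.continuous_primitive (fun a b => prod_ii hh c2 a b) 0
  unfold WF
  exact (((c2.comp continuous_snd).add (c2.comp continuous_fst)).mul
    ((c1.comp continuous_snd).sub (c1.comp continuous_fst))).sub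
    (((c3.comp continuous_snd).sub (c3.comp continuous_fst)).const_mul 2)

theorem WX_WF {h h' : ℝ → ℝ} (hh : Gd1 h) (hh' : Gd1 h') {x y : ℝ} (hxy : x ≤ y) :
    WX h h' x y = WF h h' (x, y) := by
  rw [WX_eq hh' hxy]
  have c2 := prim_cont hh'
  have e : ∀ z, h z * Gs h' x y z = ((∫ t in (0 : ℝ)..y, h' t) + ∫ t in (0 : ℝ)..x, h' t) * h z -
      2 * (h z * ∫ t in (0 : ℝ)..z, h' t) := by
    intro z
    rw [Gs_eq hh']
    ring
  simp only [e]
  rw [intervalIntegral.integral_sub ((hh.li x y).const_mul _) ((prod_ii hh c2 x y).const_mul _),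
    intervalIntegral.integral_const_mul, intervalIntegral.integral_const_mul,
    ← intervalIntegral.integral_interval_sub_left (hh.li 0 y) (hh.li 0 x),
    ← intervalIntegral.integral_interval_sub_left (prod_ii hh c2 0 y) (prod_ii hh c2 0 x)]
  rfl

theorem ind_gd (a b : ℝ) : Gd1 (ind a b) where
  li x y := ii_of_bd (ind_meas a b) (C := 1) fun z _ => by
    rw [abs_of_nonneg (ind_bd a b z).1]
    exact (ind_bd a b z).2
  bd z _ _ := by
    rw [abs_of_nonneg (ind_bd a b z).1]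
    exact (ind_bd a b z).2

theorem win_eq (lo hi lo' hi' z z' : ℝ) :
    (if lo ≤ z ∧ z ≤ hi ∧ lo' ≤ z' ∧ z' ≤ hi' then Real.sign (z' - z) else 0) =
      Real.sign (z' - z) * ind lo hi z * ind lo' hi' z' := by
  unfold ind
  by_cases h1 : lo ≤ z ∧ z ≤ hi
  · by_cases h2 : lo' ≤ z' ∧ z' ≤ hi'
    · rw [if_pos ⟨h1.1, h1.2, h2.1, h2.2⟩, if_pos h1, if_pos h2]
      ring
    · rw [if_neg (fun h => h2 ⟨h.2.2.1, h.2.2.2⟩), if_neg h2]
      ring
  · rw [if_neg (fun h => h1 ⟨h.1, h.2.1⟩), if_neg h1]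
    ring

theorem WS_eq (φ ψ : ℕ → ℝ) (A B : Finset ℕ) (lo hi lo' hi' : ℝ) :
    WS φ ψ A B lo hi lo' hi' =
      ∫ x in (0 : ℝ)..1, ∫ y in x..1, KT φ ψ A B x y * WF (ind lo hi) (ind lo' hi') (x, y) := by
  unfold WS
  simp only [win_eq]
  refine intervalIntegral.integral_congr fun x hx => ?_
  rw [Set.uIcc_of_le zero_le_one] at hx
  refine intervalIntegral.integral_congr fun y hy => ?_
  rw [Set.uIcc_of_le hx.2] at hy
  have := WX_WF (ind_gd lo hi) (ind_gd lo' hi') hy.1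
  unfold WX at this
  rw [this]

theorem ind_diff_int (a b a' b' x y : ℝ) (hxy : x ≤ y) :
    (∫ z in x..y, |ind a b z - ind a' b' z|) ≤ |a - a'| + |b - b'| := by
  have i : ∀ u v x y : ℝ, IntervalIntegrable (ind u v) volume x y := fun u v => (ind_gd u v).li
  calc (∫ z in x..y, |ind a b z - ind a' b' z|) ≤
      ∫ z in x..y, (ind (min a a') (max a a') z + ind (min b b') (max b b') z) := by
        refine intervalIntegral.integral_mono_on hxy (((i a b x y).sub (i a' b' x y)).abs)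
          ((i _ _ x y).add (i _ _ x y)) fun z _ => ?_
        have := win_diff a b a' b' 1 1 0 z le_rfl (by simp) (by simp) (by simp)
        rw [zero_add] at this
        exact this
    _ = (∫ z in x..y, ind (min a a') (max a a') z) + ∫ z in x..y, ind (min b b') (max b b') z :=
        intervalIntegral.integral_add (i _ _ x y) (i _ _ x y)
    _ ≤ _ := add_le_add (win_int _ _ _ _ hxy) (win_int _ _ _ _ hxy)

theorem WS_diff (φ ψ φ' ψ' : ℕ → ℝ) (A B : Finset ℕ) (c : ℝ) (hc : 0 ≤ c)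
    (hK : ∀ x y, 0 ≤ x → x ≤ y → y ≤ 1 → |KT φ ψ A B x y - KT φ' ψ' A B x y| ≤ c)
    (lo hi lo' hi' ko ki ko' ki' : ℝ) :
    |WS φ ψ A B lo hi lo' hi' - WS φ' ψ' A B ko ki ko' ki'| ≤
      c + ((|lo - ko| + |hi - ki|) + (|lo' - ko'| + |hi' - ki'|)) := by
  rw [WS_eq, WS_eq]
  set F := WF (ind lo hi) (ind lo' hi') with hF
  set F' := WF (ind ko ki) (ind ko' ki') with hF'
  have cF : Continuous F := WF_cont (ind_gd _ _) (ind_gd _ _)
  have cF' : Continuous F' := WF_cont (ind_gd _ _) (ind_gd _ _)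
  set w := (|lo - ko| + |hi - ki|) + (|lo' - ko'| + |hi' - ki'|) with hw
  have hw0 : 0 ≤ w := by positivity
  have hpt : ∀ x y, 0 ≤ x → x ≤ y → y ≤ 1 →
      |KT φ ψ A B x y * F (x, y) - KT φ' ψ' A B x y * F' (x, y)| ≤ c + w := by
    intro x y hx hxy hy
    have b1 : |F (x, y)| ≤ 1 := by
      rw [hF, ← WX_WF (ind_gd _ _) (ind_gd _ _) hxy]
      exact WX_bd (ind_gd _ _) (ind_gd _ _) hx hxy hy
    have b2 : |F (x, y) - F' (x, y)| ≤ w := by
      rw [hF, hF', ← WX_WF (ind_gd _ _) (ind_gd _ _) hxy, ← WX_WF (ind_gd _ _) (ind_gd _ _) hxy]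
      exact (WX_diff (ind_gd _ _) (ind_gd _ _) (ind_gd _ _) (ind_gd _ _) hx hxy hy).trans
        (add_le_add (ind_diff_int _ _ _ _ _ _ hxy) (ind_diff_int _ _ _ _ _ _ hxy))
    have b3 := kt_nonneg φ' ψ' A B x y
    have b4 := kt_le_one φ' ψ' A B hx hxy hy
    have e : KT φ ψ A B x y * F (x, y) - KT φ' ψ' A B x y * F' (x, y) =
        (KT φ ψ A B x y - KT φ' ψ' A B x y) * F (x, y) +
          KT φ' ψ' A B x y * (F (x, y) - F' (x, y)) := by ring
    rw [e]
    calc _ ≤ |(KT φ ψ A B x y - KT φ' ψ' A B x y) * F (x, y)| +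
          |KT φ' ψ' A B x y * (F (x, y) - F' (x, y))| := abs_add_le _ _
      _ = |KT φ ψ A B x y - KT φ' ψ' A B x y| * |F (x, y)| +
          KT φ' ψ' A B x y * |F (x, y) - F' (x, y)| := by
          rw [abs_mul, abs_mul, abs_of_nonneg b3]
      _ ≤ c * 1 + 1 * w := by
          gcongr
          exact hK x y hx hxy hy
      _ = c + w := by ring
  have cj : ∀ (φ ψ : ℕ → ℝ) (F : ℝ × ℝ → ℝ), Continuous F →
      Continuous (fun p : ℝ × ℝ => KT φ ψ A B p.1 p.2 * F p) := fun φ ψ F h =>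
    (kt_cont φ ψ A B).mul h
  refine int_diff (f := fun x => ∫ y in x..1, KT φ ψ A B x y * F (x, y))
    (f' := fun x => ∫ y in x..1, KT φ' ψ' A B x y * F' (x, y))
    (REG.cint (f := fun x y => KT φ ψ A B x y * F (x, y)) (cj φ ψ F cF) continuous_id continuous_const)
    (REG.cint (f := fun x y => KT φ' ψ' A B x y * F' (x, y)) (cj φ' ψ' F' cF') continuous_id
      continuous_const) (by positivity) le_rfl le_rfl zero_le_one fun x hx0 hx1 => ?_
  exact int_diff (f := fun y => KT φ ψ A B x y * F (x, y)) (f' := fun y => KT φ' ψ' A B x y * F' (x, y))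
    ((cj φ ψ F cF).comp (by fun_prop : Continuous fun y : ℝ => (x, y)))
    ((cj φ' ψ' F' cF').comp (by fun_prop : Continuous fun y : ℝ => (x, y))) (by positivity)
    hx0 le_rfl hx1 fun y hy0 hy1 => hpt x y hx0 hy0 hy1

/-! ### The densities -/

theorem hZT_gd (φ ψ : ℕ → ℝ) (A B : Finset ℕ) (lo hi : ℝ) : Gd1 (hZT φ ψ A B lo hi) := by
  have e : hZT φ ψ A B lo hi = fun z => ind lo hi z * hzT φ ψ A B z := by
    funext z
    rw [hZT_eq]
    unfold ind
    split_ifs <;> ring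
  rw [e]
  refine ⟨fun a b => prod_ii (ind_gd lo hi) (hzT_cont φ ψ A B) a b, fun z h0 h1 => ?_⟩
  rw [abs_mul]
  refine mul_le_one₀ ((ind_gd lo hi).bd z h0 h1) (abs_nonneg _) ?_
  rw [abs_of_nonneg (hzT_bd φ ψ A B h0 h1).1]
  exact (hzT_bd φ ψ A B h0 h1).2

theorem dens_gd (φ ψ : ℕ → ℝ) (A B : Finset ℕ) (r : Role) : Gd1 (dens φ ψ A B r) := by
  cases r with
  | lo =>
    refine ⟨fun a b => (hXT_cont φ ψ A B).intervalIntegrable a b, fun z h0 h1 => ?_⟩
    change |hXT φ ψ A B z| ≤ 1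
    rw [abs_of_nonneg (hXT_bd φ ψ A B h0 h1).1]
    exact (hXT_bd φ ψ A B h0 h1).2
  | hi =>
    refine ⟨fun a b => (hYT_cont φ ψ A B).intervalIntegrable a b, fun z h0 h1 => ?_⟩
    change |hYT φ ψ A B z| ≤ 1
    rw [abs_of_nonneg (hYT_bd φ ψ A B h0 h1).1]
    exact (hYT_bd φ ψ A B h0 h1).2
  | sa l => exact hZT_gd _ _ _ _ _ _
  | sb l => exact hZT_gd _ _ _ _ _ _

theorem hZT_diff_int (φ ψ φ' ψ' : ℕ → ℝ) (A B : Finset ℕ) (c : ℝ) (hc : 0 ≤ c)
    (hK : ∀ x y, 0 ≤ x → x ≤ y → y ≤ 1 → |KT φ ψ A B x y - KT φ' ψ' A B x y| ≤ c)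
    (lo hi lo' hi' : ℝ) :
    (∫ z in (0 : ℝ)..1, |hZT φ ψ A B lo hi z - hZT φ' ψ' A B lo' hi' z|) ≤
      c + (|lo - lo'| + |hi - hi'|) := by
  have i : ∀ u v x y : ℝ, IntervalIntegrable (ind u v) volume x y := fun u v => (ind_gd u v).li
  calc _ ≤ ∫ z in (0 : ℝ)..1, (c + (ind (min lo lo') (max lo lo') z + ind (min hi hi') (max hi hi') z)) := by
        refine intervalIntegral.integral_mono_on zero_le_one
          (((hZT_gd φ ψ A B lo hi).li 0 1).sub ((hZT_gd φ' ψ' A B lo' hi').li 0 1)).abs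
          ((continuous_const.intervalIntegrable _ _).add ((i _ _ _ _).add (i _ _ _ _))) fun z hz => ?_
        have h1 := hzT_bd φ ψ A B hz.1 hz.2
        have h2 := hzT_bd φ' ψ' A B hz.1 hz.2
        exact win_diff lo hi lo' hi' (hzT φ ψ A B z) (hzT φ' ψ' A B z) c z hc
          (by rw [abs_of_nonneg h1.1]; exact h1.2) (by rw [abs_of_nonneg h2.1]; exact h2.2)
          (hzT_diff φ ψ φ' ψ' A B c hc hK hz.1 hz.2)
    _ = c + ((∫ z in (0 : ℝ)..1, ind (min lo lo') (max lo lo') z) +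
          ∫ z in (0 : ℝ)..1, ind (min hi hi') (max hi hi') z) := by
        rw [intervalIntegral.integral_add (continuous_const.intervalIntegrable _ _)
          ((i _ _ _ _).add (i _ _ _ _)), intervalIntegral.integral_add (i _ _ _ _) (i _ _ _ _)]
        simp
    _ ≤ _ := by
        gcongr
        · exact win_int _ _ _ _ zero_le_one
        · exact win_int _ _ _ _ zero_le_one

theorem sub_card {L : ℕ} {A B : Finset ℕ} (hA : Sub1 L A) (hB : Sub1 L B) :
    ((A.card + B.card : ℕ) : ℝ) ≤ 2 * L := by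
  have := ZB.card_le hA
  have := ZB.card_le hB
  exact_mod_cast (by omega : A.card + B.card ≤ 2 * L)

theorem sub_erase {L : ℕ} {A : Finset ℕ} (hA : Sub1 L A) (l : ℕ) : Sub1 L (A.erase l) :=
  fun k hk => hA k (mem_of_mem_erase hk)

theorem cont_abs {f f' : ℝ → ℝ} (hf : Gd1 f) (hf' : Gd1 f') {c : ℝ}
    (h : ∀ z, 0 ≤ z → z ≤ 1 → |f z - f' z| ≤ c) : (∫ z in (0 : ℝ)..1, |f z - f' z|) ≤ c := by
  calc _ ≤ ∫ _z in (0 : ℝ)..1, c := intervalIntegral.integral_mono_on zero_le_one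
        ((hf.li 0 1).sub (hf'.li 0 1)).abs (continuous_const.intervalIntegrable _ _)
        fun z hz => h z hz.1 hz.2
    _ = c := by simp

end PERT

open PERT in
theorem pert : S_REG → S_MASS → S_PERT := by
  intro _ _ g δ L φ ψ A B A' B' hg hL hgL hδ hδg hA hB hA' hB' hφ hψ hd
  obtain ⟨hL', h1, h2, h3⟩ := EXT.gl hg hL hgL
  set φ' : ℕ → ℝ := fun l => g * l with hφ'
  set ψ' : ℕ → ℝ := fun l => 1 - g * l with hψ'
  have hLδ : 0 ≤ (L : ℝ) * δ := by positivity
  have hδL : δ ≤ L * δ := by nlinarith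
  have hc : 0 ≤ 2 * (L : ℝ) * δ := by positivity
  have hK : ∀ A B : Finset ℕ, Sub1 L A → Sub1 L B → ∀ x y, 0 ≤ x → x ≤ y → y ≤ 1 →
      |KT φ ψ A B x y - KT φ' ψ' A B x y| ≤ 2 * L * δ := by
    intro A B hA hB x y hx hxy hy
    refine (kt_diff φ ψ φ' ψ' A B δ hx hxy hy (fun l hl => (hd l (hA l hl).1 (hA l hl).2).1)
      (fun l hl => (hd l (hB l hl).1 (hB l hl).2).2)).trans ?_
    have := sub_card hA hB
    gcongr
  -- the densities
  have hdens : ∀ A B : Finset ℕ, Sub1 L A → Sub1 L B → ∀ e : Gd A B,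
      (∫ z in (0 : ℝ)..1, |dens φ ψ A B (roleOf e) z - dens φ' ψ' A B (roleOf e) z|) ≤
        4 * (L * δ) := by
    intro A B hA hB e
    rcases e with b | l | l
    · cases b with
      | false =>
        refine (cont_abs (dens_gd _ _ _ _ _) (dens_gd _ _ _ _ _) (fun z h0 h1 =>
          hXT_diff φ ψ φ' ψ' A B _ hc (hK A B hA hB) h0 h1)).trans ?_
        linarith
      | true =>
        refine (cont_abs (dens_gd _ _ _ _ _) (dens_gd _ _ _ _ _) (fun z h0 h1 =>
          hYT_diff φ ψ φ' ψ' A B _ hc (hK A B hA hB) h0 h1)).trans ?_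
        linarith
    · have hl := hA l.1 l.2
      refine (hZT_diff_int φ ψ φ' ψ' (A.erase l.1) B _ hc (hK _ _ (sub_erase hA l.1) hB)
        (φ l.1) 1 (φ' l.1) 1).trans ?_
      have := (hd l.1 hl.1 hl.2).1
      rw [sub_self, abs_zero]
      linarith
    · have hl := hB l.1 l.2
      refine (hZT_diff_int φ ψ φ' ψ' A (B.erase l.1) _ hc (hK _ _ hA (sub_erase hB l.1))
        0 (ψ l.1) 0 (ψ' l.1)).trans ?_
      have := (hd l.1 hl.1 hl.2).2
      rw [sub_self, abs_zero]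
      linarith
  refine ⟨hK A B hA hB, ZT_diff φ ψ φ' ψ' A B _ hc (hK A B hA hB), ?_, ?_, ?_, ?_⟩
  · intro e e'
    have h := WX_diff (dens_gd φ ψ A B (roleOf e)) (dens_gd φ ψ A' B' (roleOf e'))
      (dens_gd φ' ψ' A B (roleOf e)) (dens_gd φ' ψ' A' B' (roleOf e')) le_rfl zero_le_one le_rfl
    have h4 := hdens A B hA hB e
    have h5 := hdens A' B' hA' hB' e'
    refine (h.trans (add_le_add h4 h5)).trans ?_
    linarith
  · intro s s' hss
    have hee : ∀ A, Sub1 L A → ∀ l l', Sub1 L ((A.erase l).erase l') := fun A hA l l' =>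
      sub_erase (sub_erase hA l) l'
    rcases s with l | l <;> rcases s' with l' | l'
    · have hl := (hd l.1 (hA l.1 l.2).1 (hA l.1 l.2).2).1
      have hl' := (hd l'.1 (hA l'.1 l'.2).1 (hA l'.1 l'.2).2).1
      refine (WS_diff φ ψ φ' ψ' ((A.erase l.1).erase l'.1) B _ hc (hK _ _ (hee A hA _ _) hB)
        (φ l.1) 1 (φ l'.1) 1 (φ' l.1) 1 (φ' l'.1) 1).trans ?_
      rw [sub_self, abs_zero]
      linarith
    · have hl := (hd l.1 (hA l.1 l.2).1 (hA l.1 l.2).2).1
      have hl' := (hd l'.1 (hB l'.1 l'.2).1 (hB l'.1 l'.2).2).2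
      refine (WS_diff φ ψ φ' ψ' (A.erase l.1) (B.erase l'.1) _ hc
        (hK _ _ (sub_erase hA _) (sub_erase hB _))
        (φ l.1) 1 0 (ψ l'.1) (φ' l.1) 1 0 (ψ' l'.1)).trans ?_
      rw [sub_self, sub_self, abs_zero]
      linarith
    · have hl := (hd l.1 (hB l.1 l.2).1 (hB l.1 l.2).2).2
      have hl' := (hd l'.1 (hA l'.1 l'.2).1 (hA l'.1 l'.2).2).1
      refine (WS_diff φ ψ φ' ψ' (A.erase l'.1) (B.erase l.1) _ hc
        (hK _ _ (sub_erase hA _) (sub_erase hB _))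
        0 (ψ l.1) (φ l'.1) 1 0 (ψ' l.1) (φ' l'.1) 1).trans ?_
      rw [sub_self, sub_self, abs_zero]
      linarith
    · have hl := (hd l.1 (hB l.1 l.2).1 (hB l.1 l.2).2).2
      have hl' := (hd l'.1 (hB l'.1 l'.2).1 (hB l'.1 l'.2).2).2
      refine (WS_diff φ ψ φ' ψ' A ((B.erase l.1).erase l'.1) _ hc (hK _ _ hA (hee B hB _ _))
        0 (ψ l.1) 0 (ψ l'.1) 0 (ψ' l.1) 0 (ψ' l'.1)).trans ?_
      rw [sub_self, abs_zero]
      linarith
  · have hLL := hd L (by omega) le_rfl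
    have hg1 : g ≤ g * L := by nlinarith
    have hφL : φ L ≤ 2 * g * L := by
      have := (abs_le.1 hLL.1).2
      linarith
    have hgl2 : 2 * g * L ≤ 1 := by
      have : g * (L : ℝ) ≤ 1 / 2 := h3.trans (by norm_num)
      linarith
    have hφ0 := (hφ L).1
    have e1 : (∫ x in (0 : ℝ)..(φ L), hXT φ ψ A B x) ≤
        ∫ x in (0 : ℝ)..(φ L), (hx g A B x + 2 * L * δ) := by
      refine intervalIntegral.integral_mono_on hφ0 ((hXT_cont _ _ _ _).intervalIntegrable _ _)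
        (((REG.hx_cont g A B).add continuous_const).intervalIntegrable _ _) fun x hxx => ?_
      have := (abs_le.1 (hXT_diff φ ψ φ' ψ' A B _ hc (hK A B hA hB) hxx.1
        (hxx.2.trans (hφL.trans hgl2)))).2
      change hXT φ ψ A B x ≤ hXT φ' ψ' A B x + 2 * L * δ
      linarith
    have e2 : (∫ x in (0 : ℝ)..(φ L), hx g A B x) ≤ ∫ x in (0 : ℝ)..(2 * g * L), hx g A B x := by
      refine intervalIntegral.integral_mono_interval le_rfl hφ0 hφL ?_
        ((REG.hx_cont g A B).intervalIntegrable _ _)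
      refine (ae_restrict_iff' measurableSet_Ioc).2 (Filter.Eventually.of_forall fun x hxx => ?_)
      exact (REG.hx_bd g A B hxx.1.le (hxx.2.trans hgl2)).1
    rw [intervalIntegral.integral_add ((REG.hx_cont g A B).intervalIntegrable _ _)
      (continuous_const.intervalIntegrable _ _), intervalIntegral.integral_const, smul_eq_mul] at e1
    have e3 : (φ L - 0) * (2 * L * δ) ≤ 1 * (2 * L * δ) := by
      gcongr
      linarith [hφL.trans hgl2]
    linarith
  · have hLL := hd L (by omega) le_rfl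
    have hg1 : g ≤ g * L := by nlinarith
    have hψL : 1 - 2 * g * L ≤ ψ L := by
      have := (abs_le.1 hLL.2).1
      linarith
    have hgl2 : 2 * g * L ≤ 1 := by
      have : g * (L : ℝ) ≤ 1 / 2 := h3.trans (by norm_num)
      linarith
    have hψ1 := (hψ L).2
    have e1 : (∫ x in (ψ L)..1, hYT φ ψ A B x) ≤
        ∫ x in (ψ L)..1, (hy g A B x + 2 * L * δ) := by
      refine intervalIntegral.integral_mono_on hψ1 ((hYT_cont _ _ _ _).intervalIntegrable _ _)
        (((REG.hy_cont g A B).add continuous_const).intervalIntegrable _ _) fun x hxx => ?_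
      have := (abs_le.1 (hYT_diff φ ψ φ' ψ' A B _ hc (hK A B hA hB)
        ((by linarith : (0 : ℝ) ≤ ψ L).trans hxx.1) hxx.2)).2
      change hYT φ ψ A B x ≤ hYT φ' ψ' A B x + 2 * L * δ
      linarith
    have e2 : (∫ x in (ψ L)..1, hy g A B x) ≤ ∫ x in (1 - 2 * g * L)..1, hy g A B x := by
      refine intervalIntegral.integral_mono_interval hψL hψ1 le_rfl ?_
        ((REG.hy_cont g A B).intervalIntegrable _ _)
      refine (ae_restrict_iff' measurableSet_Ioc).2 (Filter.Eventually.of_forall fun x hxx => ?_)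
      exact (REG.hy_bd g A B (by linarith [hxx.1]) hxx.2).1
    rw [intervalIntegral.integral_add ((REG.hy_cont g A B).intervalIntegrable _ _)
      (continuous_const.intervalIntegrable _ _), intervalIntegral.integral_const, smul_eq_mul] at e1
    have e3 : (1 - ψ L) * (2 * L * δ) ≤ 1 * (2 * L * δ) := by
      gcongr
      linarith [(hψ L).1]
    linarith

end Pool.Agent.H34.RK
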