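import Pool.Agent.H34.RK.Stm3

/-! RK-PL: the one-dimensional Prekopa-Leindler inequality for unimodal functions (helper26). -/

set_option autoImplicit false

open Finset MeasureTheory

namespace Pool.Agent.H34.RK.PLaux

/-- combination of two intervals -/
theorem vol_comb {A B S : Set ℝ} {lam : ℝ} (h0 : 0 < lam) (h1 : lam < 1) (hA : A.OrdConnected)
    (hB : B.OrdConnected) (hAn : A.Nonempty) (hBn : B.Nonempty) (hAs : A ⊆ Set.Icc 0 1)
    (hBs : B ⊆ Set.Icc 0 1) (hS : ∀ x ∈ A, ∀ y ∈ B, lam * x + (1 - lam) * y ∈ S) :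
    ENNReal.ofReal lam * volume A + ENNReal.ofReal (1 - lam) * volume B ≤ volume S := by
  have hAb : BddBelow A := ⟨0, fun x hx => (hAs hx).1⟩
  have hAa : BddAbove A := ⟨1, fun x hx => (hAs hx).2⟩
  have hBb : BddBelow B := ⟨0, fun x hx => (hBs hx).1⟩
  have hBa : BddAbove B := ⟨1, fun x hx => (hBs hx).2⟩
  have hA1 : sInf A ≤ sSup A := by
    obtain ⟨x, hx⟩ := hAn
    exact (csInf_le hAb hx).trans (le_csSup hAa hx)
  have hB1 : sInf B ≤ sSup B := by
    obtain ⟨x, hx⟩ := hBn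
    exact (csInf_le hBb hx).trans (le_csSup hBa hx)
  have hvA : volume A ≤ ENNReal.ofReal (sSup A - sInf A) := by
    rw [← Real.volume_Icc]
    exact measure_mono fun x hx => ⟨csInf_le hAb hx, le_csSup hAa hx⟩
  have hvB : volume B ≤ ENNReal.ofReal (sSup B - sInf B) := by
    rw [← Real.volume_Icc]
    exact measure_mono fun x hx => ⟨csInf_le hBb hx, le_csSup hBa hx⟩
  have hsub : Set.Ioo (lam * sInf A + (1 - lam) * sInf B) (lam * sSup A + (1 - lam) * sSup B) ⊆
      S := by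
    intro z hz
    have hpre : ((fun w : ℝ × ℝ => lam * w.1 + (1 - lam) * w.2) '' (A ×ˢ B)).OrdConnected := by
      apply IsPreconnected.ordConnected
      apply (hA.isPreconnected.prod hB.isPreconnected).image
      apply Continuous.continuousOn
      fun_prop
    have hlo : ∃ w ∈ (fun w : ℝ × ℝ => lam * w.1 + (1 - lam) * w.2) '' (A ×ˢ B), w ≤ z := by
      obtain ⟨x, hx, hx'⟩ := exists_lt_of_csInf_lt hAn
        (show sInf A < sInf A + (z - (lam * sInf A + (1 - lam) * sInf B)) by linarith [hz.1])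
      obtain ⟨y, hy, hy'⟩ := exists_lt_of_csInf_lt hBn
        (show sInf B < sInf B + (z - (lam * sInf A + (1 - lam) * sInf B)) by linarith [hz.1])
      refine ⟨_, ⟨(x, y), ⟨hx, hy⟩, rfl⟩, ?_⟩
      have h2 := mul_lt_mul_of_pos_left hx' h0
      have h3 := mul_lt_mul_of_pos_left hy' (by linarith : 0 < 1 - lam)
      simp only
      linarith
    have hhi : ∃ w ∈ (fun w : ℝ × ℝ => lam * w.1 + (1 - lam) * w.2) '' (A ×ˢ B), z ≤ w := by
      obtain ⟨x, hx, hx'⟩ := exists_lt_of_lt_csSup hAn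
        (show sSup A - ((lam * sSup A + (1 - lam) * sSup B) - z) < sSup A by linarith [hz.2])
      obtain ⟨y, hy, hy'⟩ := exists_lt_of_lt_csSup hBn
        (show sSup B - ((lam * sSup A + (1 - lam) * sSup B) - z) < sSup B by linarith [hz.2])
      refine ⟨_, ⟨(x, y), ⟨hx, hy⟩, rfl⟩, ?_⟩
      have h2 := mul_lt_mul_of_pos_left hx' h0
      have h3 := mul_lt_mul_of_pos_left hy' (by linarith : 0 < 1 - lam)
      simp only
      linarith
    obtain ⟨u, hu, huz⟩ := hlo
    obtain ⟨v, hv, hvz⟩ := hhi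
    obtain ⟨w, hw, rfl⟩ := hpre.out hu hv ⟨huz, hvz⟩
    exact hS w.1 hw.1 w.2 hw.2
  have hvS := measure_mono (μ := volume) hsub
  rw [Real.volume_Ioo] at hvS
  refine le_trans ?_ hvS
  have h2 : lam * sSup A + (1 - lam) * sSup B - (lam * sInf A + (1 - lam) * sInf B) =
      lam * (sSup A - sInf A) + (1 - lam) * (sSup B - sInf B) := by ring
  rw [h2, ENNReal.ofReal_add (mul_nonneg h0.le (by linarith))
    (mul_nonneg (by linarith) (by linarith)), ENNReal.ofReal_mul h0.le,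
    ENNReal.ofReal_mul (by linarith)]
  exact add_le_add (mul_le_mul_right hvA _) (mul_le_mul_right hvB _)

theorem meas_level (f : ℝ → ℝ) : Measurable fun t : ℝ => volume {x | t < f x} := by
  apply Antitone.measurable
  intro s t hst
  exact measure_mono fun x hx => lt_of_le_of_lt hst hx

theorem integ {f : ℝ → ℝ} (hf : Measurable f) {M : ℝ} (hb : ∀ x, 0 ≤ f x ∧ f x ≤ M)
    (hs : ∀ x, x < 0 ∨ 1 < x → f x = 0) : Integrable f := by
  have h1 : IntegrableOn f (Set.Icc 0 1) := by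
    apply Measure.integrableOn_of_bounded (M := M)
    · simp
    · exact hf.aestronglyMeasurable
    · refine Filter.Eventually.of_forall fun x => ?_
      rw [Real.norm_of_nonneg (hb x).1]
      exact (hb x).2
  rwa [integrableOn_iff_integrable_of_support_subset] at h1
  intro x hx
  by_contra hcon
  apply hx
  apply hs
  rw [Set.mem_Icc, not_and_or, not_le, not_le] at hcon
  exact hcon

theorem int_eq {f : ℝ → ℝ} (hs : ∀ x, x < 0 ∨ 1 < x → f x = 0) :
    ∫ x in (0 : ℝ)..1, f x = ∫ x, f x := by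
  rw [intervalIntegral.integral_of_le zero_le_one, ← integral_Icc_eq_integral_Ioc]
  apply setIntegral_eq_integral_of_forall_compl_eq_zero
  intro x hx
  apply hs
  rw [Set.mem_Icc, not_and_or, not_le, not_le] at hx
  exact hx

/-- the normalised case -/
theorem core {f g h : ℝ → ℝ} {lam M : ℝ} (h0 : 0 < lam) (h1 : lam < 1) (hf : Measurable f)
    (hg : Measurable g) (hh : Measurable h) (hf1 : ∀ x, 0 ≤ f x ∧ f x ≤ 1)
    (hg1 : ∀ x, 0 ≤ g x ∧ g x ≤ 1) (hh1 : ∀ x, 0 ≤ h x ∧ h x ≤ M)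
    (hfs : ∀ x, x < 0 ∨ 1 < x → f x = 0) (hgs : ∀ x, x < 0 ∨ 1 < x → g x = 0)
    (hhs : ∀ x, x < 0 ∨ 1 < x → h x = 0) (hfo : ∀ t : ℝ, 0 ≤ t → Set.OrdConnected {x | t < f x})
    (hgo : ∀ t : ℝ, 0 ≤ t → Set.OrdConnected {x | t < g x})
    (hfn : ∀ t < (1 : ℝ), ∃ x, t < f x) (hgn : ∀ t < (1 : ℝ), ∃ x, t < g x)
    (hfg : ∀ x y, f x ^ lam * g y ^ (1 - lam) ≤ h (lam * x + (1 - lam) * y)) :
    lam * (∫ x, f x) + (1 - lam) * (∫ x, g x) ≤ ∫ x, h x := by
  have hif := integ hf hf1 hfs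
  have hig := integ hg hg1 hgs
  have hih := integ hh hh1 hhs
  have hf0 : 0 ≤ ∫ x, f x := integral_nonneg fun x => (hf1 x).1
  have hg0 : 0 ≤ ∫ x, g x := integral_nonneg fun x => (hg1 x).1
  have hh0 : 0 ≤ ∫ x, h x := integral_nonneg fun x => (hh1 x).1
  have h10 : 0 ≤ 1 - lam := by linarith
  rw [← ENNReal.ofReal_le_ofReal_iff hh0, ENNReal.ofReal_add (mul_nonneg h0.le hf0)
    (mul_nonneg h10 hg0), ENNReal.ofReal_mul h0.le, ENNReal.ofReal_mul h10,
    ofReal_integral_eq_lintegral_ofReal hif (Filter.Eventually.of_forall fun x => (hf1 x).1),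
    ofReal_integral_eq_lintegral_ofReal hig (Filter.Eventually.of_forall fun x => (hg1 x).1),
    ofReal_integral_eq_lintegral_ofReal hih (Filter.Eventually.of_forall fun x => (hh1 x).1),
    lintegral_eq_lintegral_meas_lt _ (Filter.Eventually.of_forall fun x => (hf1 x).1)
      hf.aemeasurable,
    lintegral_eq_lintegral_meas_lt _ (Filter.Eventually.of_forall fun x => (hg1 x).1)
      hg.aemeasurable,
    lintegral_eq_lintegral_meas_lt _ (Filter.Eventually.of_forall fun x => (hh1 x).1)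
      hh.aemeasurable]
  have hcut : ∀ u : ℝ → ℝ, (∀ x, u x ≤ 1) →
      ∫⁻ t in Set.Ioi (0 : ℝ), volume {x | t < u x} =
        ∫⁻ t in Set.Ioo (0 : ℝ) 1, volume {x | t < u x} := by
    intro u hu
    rw [← Set.Ioo_union_Ici_eq_Ioi (show (0 : ℝ) < 1 by norm_num),
      lintegral_union measurableSet_Ici]
    · have h2 : ∫⁻ t in Set.Ici (1 : ℝ), volume {x | t < u x} = 0 := by
        rw [setLIntegral_congr_fun (g := fun _ => 0) measurableSet_Ici]
        · simp
        · intro t ht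
          simp only
          have h3 : {x | t < u x} = ∅ := by
            ext x
            simp only [Set.mem_ofPred_eq, Set.mem_empty_iff_false, iff_false, not_lt]
            exact (hu x).trans ht
          rw [h3, measure_empty]
      rw [h2, add_zero]
    · rw [Set.disjoint_left]
      intro x hx hx'
      exact absurd hx.2 (not_lt.2 hx')
  rw [hcut f fun x => (hf1 x).2, hcut g fun x => (hg1 x).2,
    ← lintegral_const_mul _ (meas_level f), ← lintegral_const_mul _ (meas_level g),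
    ← lintegral_add_left ((meas_level f).const_mul _)]
  have hmono : ∫⁻ t in Set.Ioo (0 : ℝ) 1, volume {x | t < h x} ≤
      ∫⁻ t in Set.Ioi (0 : ℝ), volume {x | t < h x} :=
    lintegral_mono_set Set.Ioo_subset_Ioi_self
  refine le_trans ?_ hmono
  apply setLIntegral_mono' measurableSet_Ioo
  intro t ht
  have hsub : ∀ u : ℝ → ℝ, (∀ x, x < 0 ∨ 1 < x → u x = 0) → {x | t < u x} ⊆ Set.Icc 0 1 := by
    intro u hu x hx
    by_contra hcon
    rw [Set.mem_Icc, not_and_or, not_le, not_le] at hcon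
    have h2 : t < u x := hx
    rw [hu x hcon] at h2
    linarith [ht.1]
  refine vol_comb h0 h1 (hfo t ht.1.le) (hgo t ht.1.le) (hfn t ht.2) (hgn t ht.2) (hsub f hfs)
    (hsub g hgs) ?_
  intro x hx y hy
  have hx' : t < f x := hx
  have hy' : t < g y := hy
  have ht0 : 0 < t := ht.1
  have h2 : t = t ^ lam * t ^ (1 - lam) := by
    rw [← Real.rpow_add ht0, add_sub_cancel, Real.rpow_one]
  have h3 : t ^ lam < f x ^ lam := Real.rpow_lt_rpow ht0.le hx' h0
  have h4 : t ^ (1 - lam) < g y ^ (1 - lam) := Real.rpow_lt_rpow ht0.le hy' (by linarith)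
  have h5 : t < f x ^ lam * g y ^ (1 - lam) := by
    rw [h2]
    exact mul_lt_mul'' h3 h4 (by positivity) (by positivity)
  exact h5.trans_le (hfg x y)

theorem pl (f g h : ℝ → ℝ) (lam : ℝ) (h0 : 0 < lam) (h1 : lam < 1) (hf : Measurable f)
    (hg : Measurable g) (hh : Measurable h) (hf1 : ∀ x, 0 ≤ f x ∧ f x ≤ 1)
    (hg1 : ∀ x, 0 ≤ g x ∧ g x ≤ 1) (hh1 : ∀ x, 0 ≤ h x ∧ h x ≤ 1)
    (hs : ∀ x, x < 0 ∨ 1 < x → f x = 0 ∧ g x = 0 ∧ h x = 0)
    (ho : ∀ t : ℝ, 0 ≤ t → Set.OrdConnected {x | t < f x} ∧ Set.OrdConnected {x | t < g x})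
    (hfg : ∀ x y, f x ^ lam * g y ^ (1 - lam) ≤ h (lam * x + (1 - lam) * y)) :
    (∫ x in (0 : ℝ)..1, f x) ^ lam * (∫ x in (0 : ℝ)..1, g x) ^ (1 - lam) ≤
      ∫ x in (0 : ℝ)..1, h x := by
  rw [int_eq fun x hx => (hs x hx).1, int_eq fun x hx => (hs x hx).2.1,
    int_eq fun x hx => (hs x hx).2.2]
  have hh0 : 0 ≤ ∫ x, h x := integral_nonneg fun x => (hh1 x).1
  have h10 : 0 < 1 - lam := by linarith
  have hbf : BddAbove (Set.range f) := ⟨1, by rintro _ ⟨x, rfl⟩; exact (hf1 x).2⟩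
  have hbg : BddAbove (Set.range g) := ⟨1, by rintro _ ⟨x, rfl⟩; exact (hg1 x).2⟩
  obtain ⟨a, ha⟩ : ∃ a : ℝ, a = ⨆ x, f x := ⟨_, rfl⟩
  obtain ⟨b, hb⟩ : ∃ b : ℝ, b = ⨆ x, g x := ⟨_, rfl⟩
  have hfa : ∀ x, f x ≤ a := fun x => by rw [ha]; exact le_ciSup hbf x
  have hgb : ∀ x, g x ≤ b := fun x => by rw [hb]; exact le_ciSup hbg x
  have ha0 : 0 ≤ a := (hf1 0).1.trans (hfa 0)
  have hb0 : 0 ≤ b := (hg1 0).1.trans (hgb 0)
  rcases ha0.eq_or_lt with hae | ha0
  · have h2 : ∀ x, f x = 0 := fun x => le_antisymm (by rw [hae]; exact hfa x) (hf1 x).1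
    have h3 : ∫ x, f x = 0 := by
      rw [integral_congr_ae (Filter.Eventually.of_forall h2)]
      simp
    rw [h3, Real.zero_rpow h0.ne', zero_mul]
    exact hh0
  rcases hb0.eq_or_lt with hbe | hb0
  · have h2 : ∀ x, g x = 0 := fun x => le_antisymm (by rw [hbe]; exact hgb x) (hg1 x).1
    have h3 : ∫ x, g x = 0 := by
      rw [integral_congr_ae (Filter.Eventually.of_forall h2)]
      simp
    rw [h3, Real.zero_rpow h10.ne', mul_zero]
    exact hh0
  obtain ⟨c, hc⟩ : ∃ c : ℝ, c = a ^ lam * b ^ (1 - lam) := ⟨_, rfl⟩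
  have hc0 : 0 < c := by rw [hc]; positivity
  have hex : ∀ (u : ℝ → ℝ) (e : ℝ), 0 < e → e = (⨆ x, u x) → BddAbove (Set.range u) →
      ∀ t < (1 : ℝ), ∃ x, t < u x / e := by
    intro u e he0 he _ t ht
    have h2 : t * e < ⨆ x, u x := by
      rw [← he]
      nlinarith
    obtain ⟨x, hx⟩ := exists_lt_of_lt_ciSup h2
    exact ⟨x, (lt_div_iff₀ he0).2 hx⟩
  have hord : ∀ (u : ℝ → ℝ) (e : ℝ), 0 < e → (∀ t : ℝ, 0 ≤ t → Set.OrdConnected {x | t < u x}) →
      ∀ t : ℝ, 0 ≤ t → Set.OrdConnected {x | t < u x / e} := by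
    intro u e he hu t ht
    have h2 := hu (t * e) (by positivity)
    have h3 : {x | t < u x / e} = {x | t * e < u x} := by
      ext x
      exact lt_div_iff₀ he
    rw [h3]
    exact h2
  have key := core (f := fun x => f x / a) (g := fun x => g x / b) (h := fun x => h x / c)
    (M := 1 / c) h0 h1 (hf.div_const a) (hg.div_const b) (hh.div_const c)
    (fun x => ⟨div_nonneg (hf1 x).1 ha0.le, (div_le_one ha0).2 (hfa x)⟩)
    (fun x => ⟨div_nonneg (hg1 x).1 hb0.le, (div_le_one hb0).2 (hgb x)⟩)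
    (fun x => ⟨div_nonneg (hh1 x).1 hc0.le, div_le_div_of_nonneg_right (hh1 x).2 hc0.le⟩)
    (fun x hx => by simp only [(hs x hx).1, zero_div])
    (fun x hx => by simp only [(hs x hx).2.1, zero_div])
    (fun x hx => by simp only [(hs x hx).2.2, zero_div])
    (hord f a ha0 fun t ht => (ho t ht).1) (hord g b hb0 fun t ht => (ho t ht).2)
    (hex f a ha0 ha hbf) (hex g b hb0 hb hbg)
    (fun x y => by
      rw [Real.div_rpow (hf1 x).1 ha0.le, Real.div_rpow (hg1 y).1 hb0.le, div_mul_div_comm, ← hc]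
      exact div_le_div_of_nonneg_right (hfg x y) hc0.le)
  rw [integral_div, integral_div, integral_div] at key
  obtain ⟨I, hI⟩ : ∃ I : ℝ, I = ∫ x, f x := ⟨_, rfl⟩
  obtain ⟨J, hJ⟩ : ∃ J : ℝ, J = ∫ x, g x := ⟨_, rfl⟩
  have hI0 : 0 ≤ I := by rw [hI]; exact integral_nonneg fun x => (hf1 x).1
  have hJ0 : 0 ≤ J := by rw [hJ]; exact integral_nonneg fun x => (hg1 x).1
  rw [← hI, ← hJ] at key ⊢
  have hAG := Real.geom_mean_le_arith_mean2_weighted h0.le h10.le (div_nonneg hI0 ha0.le)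
    (div_nonneg hJ0 hb0.le) (by ring)
  have h2 := hAG.trans key
  rw [Real.div_rpow hI0 ha0.le, Real.div_rpow hJ0 hb0.le, div_mul_div_comm, ← hc] at h2
  exact (div_le_div_iff_of_pos_right hc0).1 h2

end Pool.Agent.H34.RK.PLaux

namespace Pool.Agent.H34.RK

theorem pl : S_PL := by
  intro f g h lam h0 h1 hf hg hh hf1 hg1 hh1 hs ho hfg
  exact PLaux.pl f g h lam h0 h1 hf hg hh hf1 hg1 hh1 hs ho hfg

end Pool.Agent.H34.RK
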