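import Pool.Agent.H34.RK.Stm1

/-! Project RK: Prouhet words and functionals of bounded degree. -/

set_option autoImplicit false

open Finset

namespace Pool.Agent.H34.RK

namespace Prou

theorem ord_zero : ∀ (k : ℕ) (f : List (Fin 3) → ℝ), (∀ w, f w = 0) → Ord k f := by
  intro k
  induction k with
  | zero => intro f h; exact h
  | succ k ih =>
    intro f h b
    apply ih
    intro w
    rw [h, h, sub_zero]

theorem ord_add : ∀ (k : ℕ) (f g : List (Fin 3) → ℝ), Ord k f → Ord k g →
    Ord k (fun w => f w + g w) := by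
  intro k
  induction k with
  | zero =>
    intro f g hf hg w
    show f w + g w = 0
    rw [hf w, hg w, add_zero]
  | succ k ih =>
    intro f g hf hg b
    have h := ih _ _ (hf b) (hg b)
    have e : (fun w => (fun w => f w + g w) (b :: w) - (fun w => f w + g w) w) =
        fun w => (f (b :: w) - f w) + (g (b :: w) - g w) := by
      funext w
      ring
    rw [e]
    exact h

theorem ord_neg : ∀ (k : ℕ) (f : List (Fin 3) → ℝ), Ord k f → Ord k (fun w => - f w) := by
  intro k
  induction k with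
  | zero =>
    intro f hf w
    show - f w = 0
    rw [hf w, neg_zero]
  | succ k ih =>
    intro f hf b
    have h := ih _ (hf b)
    have e : (fun w => (fun w => - f w) (b :: w) - (fun w => - f w) w) =
        fun w => -(f (b :: w) - f w) := by
      funext w
      ring
    rw [e]
    exact h

theorem ord_sub (k : ℕ) (f g : List (Fin 3) → ℝ) (hf : Ord k f) (hg : Ord k g) :
    Ord k (fun w => f w - g w) := by
  have h := ord_add k f _ hf (ord_neg k g hg)
  have e : (fun w => f w - g w) = fun w => f w + - g w := by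
    funext w
    ring
  rw [e]
  exact h

theorem ord_mono : ∀ (k : ℕ) (f : List (Fin 3) → ℝ), Ord k f → Ord (k + 1) f := by
  intro k
  induction k with
  | zero =>
    intro f hf
    exact ord_zero 1 f hf
  | succ k ih =>
    intro f hf b
    exact ih _ (hf b)

theorem ord_congr {k : ℕ} {f g : List (Fin 3) → ℝ} (h : ∀ w, f w = g w) (hf : Ord k f) : Ord k g := by
  have e : f = g := funext h
  rw [← e]
  exact hf

/-- composition with a letter -/
theorem ord_letter (k : ℕ) (f : List (Fin 3) → ℝ) (hf : Ord k f) (b : Fin 3) :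
    Ord k (fun w => f (b :: w)) := by
  rcases k with _ | k
  · intro w
    exact hf _
  · have h1 := ord_mono _ _ (hf b)
    have h2 := ord_add _ _ _ hf h1
    refine ord_congr (fun w => ?_) h2
    ring

/-- composition with a word -/
theorem ord_T (k : ℕ) (p : List (Fin 3)) : ∀ f : List (Fin 3) → ℝ, Ord k f →
    Ord k (fun w => f (p ++ w)) := by
  induction p with
  | nil => intro f hf; exact hf
  | cons b p ih =>
    intro f hf
    exact ih _ (ord_letter k f hf b)

/-- `T_p - 1` lowers the degree -/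
theorem ord_T1 (k : ℕ) (p : List (Fin 3)) : ∀ f : List (Fin 3) → ℝ, Ord (k + 1) f →
    Ord k (fun w => f (p ++ w) - f w) := by
  induction p with
  | nil =>
    intro f _
    apply ord_zero
    intro w
    show f ([] ++ w) - f w = 0
    rw [List.nil_append, sub_self]
  | cons b p ih =>
    intro f hf
    have h1 := ord_T k p _ (hf b)
    have h2 := ih f hf
    refine ord_congr (fun w => ?_) (ord_add _ _ _ h1 h2)
    show (f (b :: (p ++ w)) - f (p ++ w)) + (f (p ++ w) - f w) = f (b :: p ++ w) - f w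
    rw [List.cons_append]
    ring

theorem sum3 (g : ZMod 3 → ℝ) (c : ZMod 3) : g c + g (c - 1) + g (c - 2) = g 0 + g 1 + g 2 := by
  have h : ∀ c : ZMod 3, c = 0 ∨ c = 1 ∨ c = 2 := by decide
  rcases h c with h | h | h <;> subst h
  · rw [show (0 : ZMod 3) - 1 = 2 by decide, show (0 : ZMod 3) - 2 = 1 by decide]
    ring
  · rw [show (1 : ZMod 3) - 1 = 0 by decide, show (1 : ZMod 3) - 2 = 2 by decide]
    ring
  · rw [show (2 : ZMod 3) - 1 = 1 by decide, show (2 : ZMod 3) - 2 = 0 by decide]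
    ring

/-- the error of the linearisation -/
theorem step (D : ℕ) (ih : ∀ (k : ℕ) (f : List (Fin 3) → ℝ), Ord (k + D + 1) f → ∀ c c' : ZMod 3,
    Ord k (fun w => f (pw D c ++ w) - f (pw D c' ++ w))) (k : ℕ) (f : List (Fin 3) → ℝ)
    (hf : Ord (k + (D + 1) + 1) f) (c : ZMod 3) :
    Ord k (fun w => f (pw (D + 1) c ++ w) - f (pw D 0 ++ (pw D 0 ++ (pw D 0 ++ w))) -
      ((f (pw D c ++ w) - f (pw D 0 ++ w)) + (f (pw D (c - 1) ++ w) - f (pw D 0 ++ w)) +
        (f (pw D (c - 2) ++ w) - f (pw D 0 ++ w)))) := by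
  have hf1 : Ord ((k + D + 1) + 1) f := by
    have e : k + (D + 1) + 1 = (k + D + 1) + 1 := by ring
    rwa [e] at hf
  have hf2 : Ord ((k + 1) + D + 1) f := by
    have e : k + (D + 1) + 1 = (k + 1) + D + 1 := by ring
    rwa [e] at hf
  -- δ_{c-2} (A_{c-1} A_c f - f)
  have h1 : Ord k (fun w => (f ((pw D c ++ pw D (c - 1)) ++ (pw D (c - 2) ++ w)) - f (pw D (c - 2) ++ w)) -
      (f ((pw D c ++ pw D (c - 1)) ++ (pw D 0 ++ w)) - f (pw D 0 ++ w))) :=
    ih k (fun w => f ((pw D c ++ pw D (c - 1)) ++ w) - f w) (ord_T1 (k + D + 1) _ f hf1) (c - 2) 0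
  -- δ_{c-1} (A_c f - f)
  have h2 : Ord k (fun w => (f (pw D c ++ (pw D (c - 1) ++ w)) - f (pw D (c - 1) ++ w)) -
      (f (pw D c ++ (pw D 0 ++ w)) - f (pw D 0 ++ w))) :=
    ih k (fun w => f (pw D c ++ w) - f w) (ord_T1 (k + D + 1) _ f hf1) (c - 1) 0
  -- (P - 1) δ_{c-1} A_c f
  have h3a : Ord (k + 1) (fun w => f (pw D c ++ (pw D (c - 1) ++ w)) - f (pw D c ++ (pw D 0 ++ w))) :=
    ih (k + 1) (fun w => f (pw D c ++ w)) (ord_T _ _ f hf2) (c - 1) 0
  have h3 := ord_T1 k (pw D 0) _ h3a
  -- (P P - 1) δ_c f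
  have h4a : Ord (k + 1) (fun w => f (pw D c ++ w) - f (pw D 0 ++ w)) := ih (k + 1) f hf2 c 0
  have h4 := ord_T1 k (pw D 0 ++ pw D 0) _ h4a
  refine ord_congr (fun w => ?_) (ord_add _ _ _ (ord_add _ _ _ h1 h2) (ord_add _ _ _ h3 h4))
  simp only [pw, List.append_assoc]
  ring

end Prou

open Prou in
theorem prou : S_PROU := by
  intro D
  induction D with
  | zero =>
    intro k f hf c c'
    have e : ∀ c : ZMod 3, ∃ b : Fin 3, pw 0 c = [b] := fun c => ⟨_, rfl⟩
    obtain ⟨b, hb⟩ := e c
    obtain ⟨b', hb'⟩ := e c'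
    rw [hb, hb']
    refine ord_congr (fun w => ?_) (ord_sub k _ _ (hf b) (hf b'))
    show (f (b :: w) - f w) - (f (b' :: w) - f w) = f (b :: w) - f (b' :: w)
    ring
  | succ D ih =>
    intro k f hf c c'
    have h1 := step D (fun k f hf c c' => ih k f hf c c') k f hf c
    have h2 := step D (fun k f hf c c' => ih k f hf c c') k f hf c'
    refine ord_congr (fun w => ?_) (ord_sub k _ _ h1 h2)
    have s1 := sum3 (fun x => f (pw D x ++ w) - f (pw D 0 ++ w)) c
    have s2 := sum3 (fun x => f (pw D x ++ w) - f (pw D 0 ++ w)) c'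
    rw [s1, s2]
    ring

end Pool.Agent.H34.RK
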