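import Pool.Agent.H34.RK.Stm1

/-!
# Project RK: signed power sums (stub Q4, and general tools)
-/

set_option autoImplicit false

open Finset

namespace Pool.Agent.H34.RK

namespace QT

/-- the moments up to order `e` agree -/
def SM (e : ℕ) (A A' : Finset ℕ) : Prop := ∀ j ≤ e, ∑ l ∈ A, (l : ℤ) ^ j = ∑ l ∈ A', (l : ℤ) ^ j

theorem SM.symm {e : ℕ} {A A' : Finset ℕ} (h : SM e A A') : SM e A' A := fun j hj => (h j hj).symm

theorem SM_refl (e : ℕ) (A : Finset ℕ) : SM e A A := fun _ _ => rfl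

theorem sum_add_pow (A : Finset ℕ) (t : ℤ) (j : ℕ) :
    ∑ l ∈ A, (t + (l : ℤ)) ^ j =
      ∑ m ∈ range (j + 1), (t ^ (j - m) * (j.choose m : ℤ)) * ∑ l ∈ A, (l : ℤ) ^ m := by
  simp_rw [mul_sum]
  rw [sum_comm]
  refine sum_congr rfl fun l _ => ?_
  rw [add_comm, add_pow]
  refine sum_congr rfl fun m _ => ?_
  ring

theorem SM.add {e : ℕ} {A A' : Finset ℕ} (h : SM e A A') (t : ℤ) {j : ℕ} (hj : j ≤ e) :
    ∑ l ∈ A, (t + (l : ℤ)) ^ j = ∑ l ∈ A', (t + (l : ℤ)) ^ j := by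
  rw [sum_add_pow, sum_add_pow]
  refine sum_congr rfl fun m hm => ?_
  rw [mem_range] at hm
  rw [h m (by omega)]

theorem SM.sub {e : ℕ} (he : Even e) {A A' : Finset ℕ} (h : SM e A A') (s : ℤ) :
    ∑ l ∈ A, (s - (l : ℤ)) ^ e = ∑ l ∈ A', (s - (l : ℤ)) ^ e := by
  have h1 : ∀ B : Finset ℕ, ∑ l ∈ B, (s - (l : ℤ)) ^ e = ∑ l ∈ B, (-s + (l : ℤ)) ^ e := by
    intro B
    refine sum_congr rfl fun l _ => ?_
    rw [← he.neg_pow (s - (l : ℤ))]
    congr 1
    ring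
  rw [h1, h1, h.add (-s) le_rfl]

theorem cross {e : ℕ} (he : Even e) {A A' B B' : Finset ℕ} (h1 : SM e A A') (h2 : SM e B B') :
    ∑ l ∈ A, ∑ l' ∈ B', ((l' : ℤ) - l) ^ e = ∑ l ∈ B, ∑ l' ∈ A', ((l' : ℤ) - l) ^ e := by
  have hsw : ∀ x y : ℤ, (x - y) ^ e = (y - x) ^ e := by
    intro x y
    rw [← he.neg_pow (x - y)]
    congr 1
    ring
  calc ∑ l ∈ A, ∑ l' ∈ B', ((l' : ℤ) - l) ^ e = ∑ l' ∈ B', ∑ l ∈ A, ((l' : ℤ) - l) ^ e := sum_comm
    _ = ∑ l' ∈ B', ∑ l ∈ A', ((l' : ℤ) - l) ^ e := sum_congr rfl fun l' _ => h1.sub he l'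
    _ = ∑ l ∈ A', ∑ l' ∈ B', ((l : ℤ) - l') ^ e := by
        rw [sum_comm]
        exact sum_congr rfl fun l _ => sum_congr rfl fun l' _ => hsw _ _
    _ = ∑ l ∈ A', ∑ l' ∈ B, ((l : ℤ) - l') ^ e := sum_congr rfl fun l _ => h2.symm.sub he l
    _ = ∑ l ∈ B, ∑ l' ∈ A', ((l' : ℤ) - l) ^ e := sum_comm

theorem Qk_pos {e N : ℕ} {A B : Finset ℕ} (hA : ∀ l ∈ A, l < N) (hB : ∀ l ∈ B, N ≤ l) :
    Qk e A B = ∑ l ∈ A, ∑ l' ∈ B, ((l' : ℤ) - l) ^ e := by
  unfold Qk
  refine sum_congr rfl fun l hl => sum_congr rfl fun l' hl' => ?_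
  have h1 := hA l hl
  have h2 := hB l' hl'
  rw [Int.sign_eq_one_of_pos (by omega), one_mul]

theorem Qk_neg {e N : ℕ} {A B : Finset ℕ} (hA : ∀ l ∈ A, l < N) (hB : ∀ l ∈ B, N ≤ l) :
    Qk e B A = - ∑ l ∈ B, ∑ l' ∈ A, ((l' : ℤ) - l) ^ e := by
  unfold Qk
  rw [← sum_neg_distrib]
  refine sum_congr rfl fun l hl => ?_
  rw [← sum_neg_distrib]
  refine sum_congr rfl fun l' hl' => ?_
  have h1 := hA l' hl'
  have h2 := hB l hl
  rw [Int.sign_eq_neg_one_of_neg (by omega)]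
  ring

theorem Qk_union {e N : ℕ} (he : Even e) {A A' B B' : Finset ℕ} (hA : ∀ l ∈ A, l < N)
    (hA' : ∀ l ∈ A', l < N) (hB : ∀ l ∈ B, N ≤ l) (hB' : ∀ l ∈ B', N ≤ l) (h1 : SM e A A')
    (h2 : SM e B B') : Qk e (A ∪ B) (A' ∪ B') = Qk e A A' + Qk e B B' := by
  have hd : ∀ X Y : Finset ℕ, (∀ l ∈ X, l < N) → (∀ l ∈ Y, N ≤ l) → Disjoint X Y := by
    intro X Y hX hY
    rw [disjoint_left]
    intro x hx hy
    exact absurd (hX x hx) (not_lt.2 (hY x hy))
  have e1 : Qk e (A ∪ B) (A' ∪ B') = Qk e A A' + Qk e A B' + (Qk e B A' + Qk e B B') := by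
    unfold Qk
    rw [sum_union (hd A B hA hB), ← sum_add_distrib, ← sum_add_distrib]
    congr 1
    · exact sum_congr rfl fun l _ => sum_union (hd A' B' hA' hB')
    · exact sum_congr rfl fun l _ => sum_union (hd A' B' hA' hB')
  rw [e1, Qk_pos hA hB', Qk_neg hA' hB, cross he h1 h2]
  ring

theorem Qk_shift (e t : ℕ) (A A' : Finset ℕ) :
    Qk e (A.image (fun n => t + n)) (A'.image (fun n => t + n)) = Qk e A A' := by
  unfold Qk
  have hinj : ∀ B : Finset ℕ, Set.InjOn (fun n : ℕ => t + n) (B : Set ℕ) := by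
    intro B x _ y _ h
    exact Nat.add_left_cancel h
  rw [sum_image (hinj A)]
  refine sum_congr rfl fun l _ => ?_
  rw [sum_image (hinj A')]
  refine sum_congr rfl fun l' _ => ?_
  push_cast
  rw [add_sub_add_left_eq_sub]

theorem SM_shift {e : ℕ} {A A' : Finset ℕ} (h : SM e A A') (t : ℕ) :
    SM e (A.image (fun n => t + n)) (A'.image (fun n => t + n)) := by
  intro j hj
  have hinj : ∀ B : Finset ℕ, Set.InjOn (fun n : ℕ => t + n) (B : Set ℕ) := by
    intro B x _ y _ h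
    exact Nat.add_left_cancel h
  rw [sum_image (hinj A), sum_image (hinj A')]
  push_cast
  exact h.add t hj

theorem SM_union {e N : ℕ} {A A' B B' : Finset ℕ} (hA : ∀ l ∈ A, l < N)
    (hA' : ∀ l ∈ A', l < N) (hB : ∀ l ∈ B, N ≤ l) (hB' : ∀ l ∈ B', N ≤ l) (h1 : SM e A A')
    (h2 : SM e B B') : SM e (A ∪ B) (A' ∪ B') := by
  have hd : ∀ X Y : Finset ℕ, (∀ l ∈ X, l < N) → (∀ l ∈ Y, N ≤ l) → Disjoint X Y := by
    intro X Y hX hY
    rw [disjoint_left]
    intro x hx hy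
    exact absurd (hX x hx) (not_lt.2 (hY x hy))
  intro j hj
  rw [sum_union (hd A B hA hB), sum_union (hd A' B' hA' hB'), h1 j hj, h2 j hj]

theorem Y_lt (D : ℕ) : ∀ (c : ZMod 3) (n : ℕ), n ∈ Y D c → n < 3 ^ D := by
  induction D with
  | zero =>
    intro c n hn
    unfold Y at hn
    split_ifs at hn
    · rw [mem_singleton] at hn
      rw [hn]
      norm_num
    · exact absurd hn (notMem_empty n)
  | succ D ih =>
    intro c n hn
    unfold Y at hn
    rw [mem_union, mem_union, mem_image, mem_image] at hn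
    rw [pow_succ]
    rcases hn with (hn | ⟨k, hk, rfl⟩) | ⟨k, hk, rfl⟩
    · have := ih c n hn
      omega
    · have := ih _ k hk
      omega
    · have := ih _ k hk
      omega

theorem mem_shift {D t : ℕ} {c : ZMod 3} {l : ℕ} (hl : l ∈ (Y D c).image (fun n => t + n)) :
    t ≤ l ∧ l < t + 3 ^ D := by
  rw [mem_image] at hl
  obtain ⟨n, hn, rfl⟩ := hl
  have := Y_lt D c n hn
  omega

theorem mem_two {D : ℕ} {c c' : ZMod 3} {l : ℕ}
    (hl : l ∈ Y D c ∪ (Y D c').image (fun n => 3 ^ D + n)) : l < 2 * 3 ^ D := by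
  rw [mem_union] at hl
  rcases hl with hl | hl
  · have := Y_lt D c l hl
    omega
  · have := (mem_shift hl).2
    omega

theorem Y_succ (D : ℕ) (c : ZMod 3) : Y (D + 1) c =
    (Y D c ∪ (Y D (c - 1)).image (fun n => 3 ^ D + n)) ∪
      (Y D (c - 2)).image (fun n => 2 * 3 ^ D + n) := rfl

theorem sumY (D : ℕ) (c : ZMod 3) (f : ℕ → ℤ) : ∑ n ∈ Y (D + 1) c, f n =
    ∑ n ∈ Y D c, f n + ∑ n ∈ Y D (c - 1), f (3 ^ D + n) + ∑ n ∈ Y D (c - 2), f (2 * 3 ^ D + n) := by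
  have hinj : ∀ (t : ℕ) (B : Finset ℕ), Set.InjOn (fun n : ℕ => t + n) (B : Set ℕ) := by
    intro t B x _ y _ h
    exact Nat.add_left_cancel h
  have hd1 : Disjoint (Y D c) ((Y D (c - 1)).image (fun n => 3 ^ D + n)) := by
    rw [disjoint_left]
    intro x hx hy
    have h1 := Y_lt D c x hx
    have h2 := (mem_shift hy).1
    omega
  have hd2 : Disjoint (Y D c ∪ (Y D (c - 1)).image (fun n => 3 ^ D + n))
      ((Y D (c - 2)).image (fun n => 2 * 3 ^ D + n)) := by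
    rw [disjoint_left]
    intro x hx hy
    have h1 := mem_two hx
    have h2 := (mem_shift hy).1
    omega
  rw [Y_succ, sum_union hd2, sum_union hd1, sum_image (hinj _ _), sum_image (hinj _ _)]

theorem SM_Y (D : ℕ) : ∀ (e : ℕ), e < D → ∀ c c' : ZMod 3, SM e (Y D c) (Y D c') := by
  induction D with
  | zero => intro e he; omega
  | succ D ih =>
    intro e he c c' j hj
    have hlow : ∀ (t : ℤ) (x x' : ZMod 3), ∑ n ∈ Y D x, (t + (n : ℤ)) ^ j - ∑ n ∈ Y D x, (n : ℤ) ^ j =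
        ∑ n ∈ Y D x', (t + (n : ℤ)) ^ j - ∑ n ∈ Y D x', (n : ℤ) ^ j := by
      intro t x x'
      rw [sum_add_pow, sum_add_pow, sum_range_succ, sum_range_succ]
      have h1 : ∑ m ∈ range j, (t ^ (j - m) * (j.choose m : ℤ)) * ∑ l ∈ Y D x, (l : ℤ) ^ m =
          ∑ m ∈ range j, (t ^ (j - m) * (j.choose m : ℤ)) * ∑ l ∈ Y D x', (l : ℤ) ^ m := by
        refine sum_congr rfl fun m hm => ?_
        rw [mem_range] at hm
        rw [ih m (by omega) x x' m le_rfl]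
      rw [h1]
      simp
    have htot : ∀ c : ZMod 3, ∑ n ∈ Y D c, (n : ℤ) ^ j + ∑ n ∈ Y D (c - 1), (n : ℤ) ^ j +
        ∑ n ∈ Y D (c - 2), (n : ℤ) ^ j = ∑ x : ZMod 3, ∑ n ∈ Y D x, (n : ℤ) ^ j := by
      intro c
      have h3 : ∀ (g : ZMod 3 → ℤ) (c : ZMod 3), g c + g (c - 1) + g (c - 2) = ∑ x : ZMod 3, g x := by
        intro g c
        have h4 : (univ : Finset (ZMod 3)) = {c, c - 1, c - 2} := by
          revert c
          decide
        rw [h4, sum_insert, sum_insert, sum_singleton, add_assoc]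
        · rw [mem_singleton]
          revert c
          decide
        · rw [mem_insert, mem_singleton]
          revert c
          decide
      exact h3 (fun x => ∑ n ∈ Y D x, (n : ℤ) ^ j) c
    rw [sumY, sumY]
    push_cast
    have e1 := hlow (3 ^ D) (c - 1) (c' - 1)
    have e2 := hlow (2 * 3 ^ D) (c - 2) (c' - 2)
    have e3 := htot c
    have e4 := htot c'
    linarith

theorem Qk_Y {e D : ℕ} (he : Even e) (heD : e < D) (a b : ZMod 3) :
    Qk e (Y (D + 1) a) (Y (D + 1) b) =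
      Qk e (Y D a) (Y D b) + Qk e (Y D (a - 1)) (Y D (b - 1)) + Qk e (Y D (a - 2)) (Y D (b - 2)) := by
  rw [Y_succ, Y_succ, Qk_union (N := 2 * 3 ^ D) he (fun l hl => mem_two hl) (fun l hl => mem_two hl)
    (fun l hl => (mem_shift hl).1) (fun l hl => (mem_shift hl).1)
    (SM_union (N := 3 ^ D) (Y_lt D a) (Y_lt D b) (fun l hl => (mem_shift hl).1)
      (fun l hl => (mem_shift hl).1) (SM_Y D e heD a b) (SM_shift (SM_Y D e heD _ _) _))
    (SM_shift (SM_Y D e heD _ _) _), Qk_shift,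
    Qk_union (N := 3 ^ D) he (Y_lt D a) (Y_lt D b) (fun l hl => (mem_shift hl).1)
      (fun l hl => (mem_shift hl).1) (SM_Y D e heD a b) (SM_shift (SM_Y D e heD _ _) _), Qk_shift]

theorem Qk_antisymm {e : ℕ} (he : Even e) (A A' : Finset ℕ) : Qk e A' A = - Qk e A A' := by
  unfold Qk
  rw [sum_comm, ← sum_neg_distrib]
  refine sum_congr rfl fun l _ => ?_
  rw [← sum_neg_distrib]
  refine sum_congr rfl fun l' _ => ?_
  have h1 : ((l : ℤ) - l') = -((l' : ℤ) - l) := by ring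
  rw [h1, Int.sign_neg, he.neg_pow]
  ring

theorem Qk_self {e : ℕ} (he : Even e) (A : Finset ℕ) : Qk e A A = 0 := by
  have := Qk_antisymm he A A
  omega

theorem cyc_shift : ∀ a b i : ZMod 3, cyc (a - i) (b - i) = cyc a b := by decide

/-- passage from `D` to larger depths -/
theorem Qk_Y_all {e D₀ : ℕ} (he : Even e) (heD : e < D₀) (K : ℤ)
    (h : ∀ a b : ZMod 3, Qk e (Y D₀ a) (Y D₀ b) = K * cyc a b) (D : ℕ) (hD : D₀ ≤ D) (a b : ZMod 3) :
    Qk e (Y D a) (Y D b) = K * 3 ^ (D - D₀) * cyc a b := by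
  induction D, hD using Nat.le_induction generalizing a b with
  | base => rw [Nat.sub_self, pow_zero, mul_one, h]
  | succ D hD ih =>
    rw [Qk_Y he (by omega), ih, ih, ih, cyc_shift, cyc_shift, Nat.succ_sub hD, pow_succ]
    ring

/-- the blocks -/
def bs (D B : ℕ) (c : ℕ → ZMod 3) : Finset ℕ :=
  (range B).biUnion (fun i => (Y D (c i)).image (fun n => i * 3 ^ D + n + 1))

theorem bs_succ (D B : ℕ) (c : ℕ → ZMod 3) : bs D (B + 1) c =
    bs D B c ∪ (Y D (c B)).image (fun n => (B * 3 ^ D + 1) + n) := by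
  unfold bs
  rw [range_add_one, biUnion_insert, union_comm]
  congr 1
  apply image_congr
  intro n _
  change B * 3 ^ D + n + 1 = B * 3 ^ D + 1 + n
  ring

theorem bs_lt (D B : ℕ) (c : ℕ → ZMod 3) : ∀ l ∈ bs D B c, l < B * 3 ^ D + 1 := by
  intro l hl
  unfold bs at hl
  rw [mem_biUnion] at hl
  obtain ⟨i, hi, hl⟩ := hl
  rw [mem_range] at hi
  rw [mem_image] at hl
  obtain ⟨n, hn, rfl⟩ := hl
  have h1 := Y_lt D _ n hn
  have h2 : (i + 1) * 3 ^ D ≤ B * 3 ^ D := Nat.mul_le_mul_right _ hi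
  rw [add_mul, one_mul] at h2
  omega

theorem SM_bs {e D : ℕ} (heD : e < D) (B : ℕ) (c c' : ℕ → ZMod 3) :
    SM e (bs D B c) (bs D B c') := by
  induction B with
  | zero => exact SM_refl _ _
  | succ B ih =>
    rw [bs_succ, bs_succ]
    exact SM_union (N := B * 3 ^ D + 1) (bs_lt D B c) (bs_lt D B c')
      (fun l hl => (mem_shift hl).1) (fun l hl => (mem_shift hl).1) ih
      (SM_shift (SM_Y D e heD _ _) _)

theorem Qk_bs {e D : ℕ} (he : Even e) (heD : e < D) (B : ℕ) (c c' : ℕ → ZMod 3) :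
    Qk e (bs D B c) (bs D B c') = ∑ i ∈ range B, Qk e (Y D (c i)) (Y D (c' i)) := by
  induction B with
  | zero => rfl
  | succ B ih =>
    rw [bs_succ, bs_succ, Qk_union (N := B * 3 ^ D + 1) he (bs_lt D B c) (bs_lt D B c')
      (fun l hl => (mem_shift hl).1) (fun l hl => (mem_shift hl).1) (SM_bs heD B c c')
      (SM_shift (SM_Y D e heD _ _) _), ih, Qk_shift, sum_range_succ]

theorem blk_eq (D B : ℕ) (c : ℕ → ZMod 3) : blk D B c = bs D B c ∪ {B * 3 ^ D + 1} := rfl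

theorem SM_blk {e D : ℕ} (heD : e < D) (B : ℕ) (c c' : ℕ → ZMod 3) :
    SM e (blk D B c) (blk D B c') := by
  rw [blk_eq, blk_eq]
  exact SM_union (N := B * 3 ^ D + 1) (bs_lt D B c) (bs_lt D B c')
    (fun l hl => by rw [mem_singleton] at hl; omega) (fun l hl => by rw [mem_singleton] at hl; omega)
    (SM_bs heD B c c') (SM_refl _ _)

theorem Qk_blk {e D : ℕ} (he : Even e) (heD : e < D) (B : ℕ) (c c' : ℕ → ZMod 3) :
    Qk e (blk D B c) (blk D B c') = ∑ i ∈ range B, Qk e (Y D (c i)) (Y D (c' i)) := by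
  rw [blk_eq, blk_eq, Qk_union (N := B * 3 ^ D + 1) he (bs_lt D B c) (bs_lt D B c')
    (fun l hl => by rw [mem_singleton] at hl; omega) (fun l hl => by rw [mem_singleton] at hl; omega)
    (SM_bs heD B c c') (SM_refl _ _), Qk_bs he heD, Qk_self he, add_zero]

theorem q5_01 : Qk 4 (Y 5 0) (Y 5 1) = -16992396 := by decide +kernel

theorem q5_12 : Qk 4 (Y 5 1) (Y 5 2) = 8516772 := by decide +kernel

theorem q5_20 : Qk 4 (Y 5 2) (Y 5 0) = 8516772 := by decide +kernel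

theorem even4 : Even 4 := ⟨2, rfl⟩

/-- the values for `D = 5` -/
def tab (a b : ZMod 3) : ℤ :=
  if b = a + 1 then (if a = 0 then -16992396 else 8516772)
  else if a = b + 1 then (if b = 0 then 16992396 else -8516772) else 0

theorem q5 (a b : ZMod 3) : Qk 4 (Y 5 a) (Y 5 b) = tab a b := by
  have h0 : ∀ a : ZMod 3, a = 0 ∨ a = 1 ∨ a = 2 := by decide
  rcases h0 a with rfl | rfl | rfl <;> rcases h0 b with rfl | rfl | rfl
  · rw [Qk_self even4]; decide
  · rw [q5_01]; decide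
  · rw [Qk_antisymm even4, q5_20]; decide
  · rw [Qk_antisymm even4, q5_01]; decide
  · rw [Qk_self even4]; decide
  · rw [q5_12]; decide
  · rw [q5_20]; decide
  · rw [Qk_antisymm even4, q5_12]; decide
  · rw [Qk_self even4]; decide

theorem q6 (a b : ZMod 3) : Qk 4 (Y 6 a) (Y 6 b) = 41148 * cyc a b := by
  rw [Qk_Y even4 (by norm_num), q5, q5, q5]
  revert a b
  decide

end QT

open QT in
theorem q4 : S_Q4 := by
  intro D B c c' hD
  rw [Qk_blk even4 (by omega), mul_sum]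
  refine sum_congr rfl fun i _ => ?_
  exact Qk_Y_all even4 (by norm_num) 41148 QT.q6 D (by omega) _ _

end Pool.Agent.H34.RK
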