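import Pool.Agent.H34.RK.Stm2

set_option autoImplicit false

open Finset MeasureTheory

namespace Pool.Agent.H34.RK

namespace REG

theorem kk_cont (g : ℝ) (A B : Finset ℕ) : Continuous (fun xy : ℝ × ℝ => KK g A B xy.1 xy.2) := by
  unfold KK KT
  fun_prop

theorem kk_cont' {X : Type} [TopologicalSpace X] (g : ℝ) (A B : Finset ℕ) {u w : X → ℝ}
    (hu : Continuous u) (hw : Continuous w) : Continuous (fun x => KK g A B (u x) (w x)) :=
  (kk_cont g A B).comp (hu.prodMk hw)

theorem kk_nonneg (g : ℝ) (A B : Finset ℕ) (x y : ℝ) : 0 ≤ KK g A B x y := by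
  unfold KK KT
  exact mul_nonneg (prod_nonneg fun _ _ => le_max_right _ _) (prod_nonneg fun _ _ => le_max_right _ _)

theorem prod_bd (A : Finset ℕ) (f : ℕ → ℝ) (s : ℝ) (h : ∀ l, 0 ≤ f l ∧ f l ≤ s) :
    ∏ l ∈ A, f l ≤ s ^ A.card := by
  calc ∏ l ∈ A, f l ≤ ∏ _l ∈ A, s := prod_le_prod (fun l _ => (h l).1) fun l _ => (h l).2
    _ = s ^ A.card := by simp

theorem kk_le (g : ℝ) (A B : Finset ℕ) {x y : ℝ} (hxy : x ≤ y) :
    KK g A B x y ≤ (y - x) ^ (A.card + B.card) := by
  unfold KK KT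
  rw [pow_add]
  have h0 : 0 ≤ y - x := by linarith
  refine mul_le_mul ?_ ?_ (prod_nonneg fun _ _ => le_max_right _ _) (pow_nonneg h0 _)
  · refine prod_bd _ _ _ fun l => ⟨le_max_right _ _, max_le ?_ h0⟩
    have := le_max_left x (g * l)
    linarith
  · refine prod_bd _ _ _ fun l => ⟨le_max_right _ _, max_le ?_ h0⟩
    have := min_le_left y (1 - g * l)
    linarith

theorem kk_le_one (g : ℝ) (A B : Finset ℕ) {x y : ℝ} (hxy : x ≤ y) (hx : 0 ≤ x) (hy : y ≤ 1) :
    KK g A B x y ≤ 1 :=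
  (kk_le g A B hxy).trans (pow_le_one₀ (by linarith) (by linarith))

/-- parametric integrals -/
theorem cint {X : Type} [TopologicalSpace X] {f : X → ℝ → ℝ} (hf : Continuous f.uncurry)
    {s t : X → ℝ} (hs : Continuous s) (ht : Continuous t) :
    Continuous (fun x => ∫ y in (s x)..(t x), f x y) := by
  have hfx : ∀ x, Continuous (f x) := fun x => hf.comp (by fun_prop : Continuous fun y => (x, y))
  have h : ∀ x, (∫ y in (s x)..(t x), f x y) = (∫ y in (0 : ℝ)..(t x), f x y) -
      ∫ y in (0 : ℝ)..(s x), f x y := fun x =>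
    (intervalIntegral.integral_interval_sub_left ((hfx x).intervalIntegrable 0 (t x))
      ((hfx x).intervalIntegrable 0 (s x))).symm
  simp only [h]
  exact (intervalIntegral.continuous_parametric_intervalIntegral_of_continuous hf ht).sub
    (intervalIntegral.continuous_parametric_intervalIntegral_of_continuous hf hs)

theorem hx_cont (g : ℝ) (A B : Finset ℕ) : Continuous (hx g A B) := by
  unfold hx hXT
  exact cint (f := fun x y => KK g A B x y) (kk_cont g A B) continuous_id continuous_const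

theorem hy_cont (g : ℝ) (A B : Finset ℕ) : Continuous (hy g A B) := by
  unfold hy hYT
  exact cint (f := fun y x => KK g A B x y) (kk_cont' g A B continuous_snd continuous_fst)
    continuous_const continuous_id

theorem hzc_cont (g : ℝ) (A B : Finset ℕ) : Continuous (hzc g A B) := by
  unfold hzc
  refine cint (f := fun z x => ∫ y in z..1, KK g A B x y) ?_ continuous_const continuous_id
  exact cint (f := fun (p : ℝ × ℝ) y => KK g A B p.2 y)
    (kk_cont' g A B (by fun_prop) (by fun_prop)) continuous_fst continuous_const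

theorem int_le_one {f : ℝ → ℝ} (hf : Continuous f) {a b : ℝ} (ha : 0 ≤ a) (hb : b ≤ 1) (hab : a ≤ b)
    (h0 : ∀ x, a ≤ x → x ≤ b → 0 ≤ f x) (h1 : ∀ x, a ≤ x → x ≤ b → f x ≤ 1) :
    0 ≤ (∫ x in a..b, f x) ∧ (∫ x in a..b, f x) ≤ 1 := by
  constructor
  · exact intervalIntegral.integral_nonneg hab fun x hx => h0 x hx.1 hx.2
  · calc (∫ x in a..b, f x) ≤ ∫ x in a..b, (1 : ℝ) :=
          intervalIntegral.integral_mono_on hab (hf.intervalIntegrable _ _)
            (continuous_const.intervalIntegrable _ _) fun x hx => h1 x hx.1 hx.2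
      _ = b - a := by simp
      _ ≤ 1 := by linarith

theorem hx_bd (g : ℝ) (A B : Finset ℕ) {z : ℝ} (h0 : 0 ≤ z) (h1 : z ≤ 1) :
    0 ≤ hx g A B z ∧ hx g A B z ≤ 1 := by
  unfold hx hXT
  exact int_le_one (f := fun y => KK g A B z y) (kk_cont' g A B continuous_const continuous_id) h0
    le_rfl h1 (fun y _ _ => kk_nonneg _ _ _ _ _) fun y hy1 hy2 => kk_le_one g A B hy1 h0 hy2

theorem hy_bd (g : ℝ) (A B : Finset ℕ) {z : ℝ} (h0 : 0 ≤ z) (h1 : z ≤ 1) :
    0 ≤ hy g A B z ∧ hy g A B z ≤ 1 := by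
  unfold hy hYT
  exact int_le_one (f := fun x => KK g A B x z) (kk_cont' g A B continuous_id continuous_const) le_rfl
    h1 h0 (fun y _ _ => kk_nonneg _ _ _ _ _) fun y hy1 hy2 => kk_le_one g A B hy2 hy1 h1

theorem hzc_bd (g : ℝ) (A B : Finset ℕ) {z : ℝ} (h0 : 0 ≤ z) (h1 : z ≤ 1) :
    0 ≤ hzc g A B z ∧ hzc g A B z ≤ 1 := by
  unfold hzc
  have hin : ∀ x, 0 ≤ x → x ≤ z → 0 ≤ (∫ y in z..1, KK g A B x y) ∧
      (∫ y in z..1, KK g A B x y) ≤ 1 := fun x hx0 hxz =>
    int_le_one (f := fun y => KK g A B x y) (kk_cont' g A B continuous_const continuous_id) h0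
      le_rfl h1 (fun y _ _ => kk_nonneg _ _ _ _ _) fun y hy1 hy2 =>
        kk_le_one g A B (hxz.trans hy1) hx0 hy2
  exact int_le_one (f := fun x => ∫ y in z..1, KK g A B x y)
    (cint (f := fun x y => KK g A B x y) (kk_cont g A B) continuous_const continuous_const)
    le_rfl h1 h0 (fun x hx1 hx2 => (hin x hx1 hx2).1) fun x hx1 hx2 => (hin x hx1 hx2).2

theorem hz_eq (g : ℝ) (A B : Finset ℕ) (p q : ℕ) (z : ℝ) :
    hz g A B p q z = if g * p ≤ z ∧ z ≤ 1 - g * q then hzc g A B z else 0 := rfl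

end REG

theorem reg : S_REG := by
  intro g L A B p q hg hL hgL hA hB hM hp hq
  refine ⟨?_, ?_, ?_, REG.kk_cont g A B, fun x y hx hxy hy =>
    ⟨REG.kk_nonneg _ _ _ _ _, REG.kk_le g A B hxy⟩, fun z h0 h1 =>
    ⟨(REG.hx_bd g A B h0 h1).1, (REG.hx_bd g A B h0 h1).2, (REG.hy_bd g A B h0 h1).1,
      (REG.hy_bd g A B h0 h1).2⟩, ?_⟩
  · exact Measurable.ite (measurableSet_Icc (a := (0 : ℝ)) (b := 1)) (REG.hx_cont g A B).measurable
      measurable_const
  · exact Measurable.ite (measurableSet_Icc (a := (0 : ℝ)) (b := 1)) (REG.hy_cont g A B).measurable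
      measurable_const
  · have : hz g A B p q = fun z => if g * p ≤ z ∧ z ≤ 1 - g * q then hzc g A B z else 0 := rfl
    rw [this]
    exact Measurable.ite (measurableSet_Icc (a := g * (p : ℝ)) (b := 1 - g * q))
      (REG.hzc_cont g A B).measurable measurable_const
  · intro z
    rw [REG.hz_eq]
    split_ifs with h
    · refine REG.hzc_bd g A B ?_ ?_
      · exact le_trans (by positivity) h.1
      · have : 0 ≤ g * (q : ℝ) := by positivity
        linarith [h.2]
    · exact ⟨le_rfl, zero_le_one⟩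

end Pool.Agent.H34.RK
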