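import Pool.Agent.H34.RK.Stm3

set_option autoImplicit false

/-! # Volume of the frontiers along a segment -/

namespace Pool.Agent.H34.RK

open Finset MeasureTheory

theorem segv_aux : ∀ (n : ℕ) (a b : ℝ), a ≤ b →
  volume {h : Fin n → ℝ | (∀ i j, i < j → h i < h j) ∧ ∀ i, a < h i ∧ h i < b} =
    ENNReal.ofReal ((b - a) ^ n / n.factorial) := by
  intro n
  induction n with
  | zero =>
    intro a b _
    have h : {h : Fin 0 → ℝ | (∀ i j, i < j → h i < h j) ∧ ∀ i, a < h i ∧ h i < b} = Set.univ := by
      ext h
      simp
    rw [h, volume_pi, Measure.pi_of_empty]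
    simp
  | succ n ih =>
    intro a b hab
    have hmp := volume_preserving_piFinSuccAbove (fun _ : Fin (n + 1) => ℝ) (Fin.last n)
    obtain ⟨S, hSd⟩ : ∃ S : Set (ℝ × (Fin n → ℝ)), S = {p | (a < p.1 ∧ p.1 < b) ∧
      (∀ i j : Fin n, i < j → p.2 i < p.2 j) ∧ ∀ i, a < p.2 i ∧ p.2 i < p.1} := ⟨_, rfl⟩
    have hS : {h : Fin (n + 1) → ℝ | (∀ i j, i < j → h i < h j) ∧ ∀ i, a < h i ∧ h i < b} =
        MeasurableEquiv.piFinSuccAbove (fun _ : Fin (n + 1) => ℝ) (Fin.last n) ⁻¹' S := by
      ext h
      rw [hSd]
      simp only [Set.mem_ofPred_eq, Set.mem_preimage, MeasurableEquiv.piFinSuccAbove_apply,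
        Fin.insertNthEquiv_symm_apply, Fin.removeNth, Fin.succAbove_last]
      constructor
      · rintro ⟨h1, h2⟩
        exact ⟨h2 _, fun i j hij => h1 _ _ (Fin.castSucc_lt_castSucc_iff.2 hij), fun i =>
          ⟨(h2 _).1, h1 _ _ (Fin.castSucc_lt_last i)⟩⟩
      · rintro ⟨h1, h2, h3⟩
        refine ⟨fun i j hij => ?_, fun i => ?_⟩
        · induction j using Fin.lastCases with
          | last =>
            induction i using Fin.lastCases with
            | last => exact absurd hij (lt_irrefl _)
            | cast i => exact (h3 i).2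
          | cast j =>
            induction i using Fin.lastCases with
            | last => exact absurd hij (not_lt.2 (Fin.le_last _))
            | cast i => exact h2 i j (Fin.castSucc_lt_castSucc_iff.1 hij)
        · induction i using Fin.lastCases with
          | last => exact h1
          | cast i => exact ⟨(h3 i).1, (h3 i).2.trans h1.2⟩
    have hSm : MeasurableSet S := by
      rw [hSd]
      refine MeasurableSet.inter ?_ (MeasurableSet.inter ?_ ?_)
      · exact (measurableSet_lt measurable_const measurable_fst).inter
          (measurableSet_lt measurable_fst measurable_const)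
      · have : {p : ℝ × (Fin n → ℝ) | ∀ i j : Fin n, i < j → p.2 i < p.2 j} =
            ⋂ i, ⋂ j, ⋂ _ : i < j, {p : ℝ × (Fin n → ℝ) | p.2 i < p.2 j} := by
          ext p
          simp
        show MeasurableSet {p : ℝ × (Fin n → ℝ) | ∀ i j : Fin n, i < j → p.2 i < p.2 j}
        rw [this]
        refine MeasurableSet.iInter fun i => MeasurableSet.iInter fun j => MeasurableSet.iInter fun _ => ?_
        exact measurableSet_lt ((measurable_pi_apply i).comp measurable_snd)
          ((measurable_pi_apply j).comp measurable_snd)
      · have : {p : ℝ × (Fin n → ℝ) | ∀ i : Fin n, a < p.2 i ∧ p.2 i < p.1} =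
            ⋂ i, {p : ℝ × (Fin n → ℝ) | a < p.2 i ∧ p.2 i < p.1} := by
          ext p
          simp
        show MeasurableSet {p : ℝ × (Fin n → ℝ) | ∀ i : Fin n, a < p.2 i ∧ p.2 i < p.1}
        rw [this]
        refine MeasurableSet.iInter fun i => ?_
        exact (measurableSet_lt measurable_const ((measurable_pi_apply i).comp measurable_snd)).inter
          (measurableSet_lt ((measurable_pi_apply i).comp measurable_snd) measurable_fst)
    rw [hS, hmp.measure_preimage hSm.nullMeasurableSet, Measure.volume_eq_prod,
      Measure.prod_apply hSm]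
    have h1 : ∀ t : ℝ, volume (Prod.mk t ⁻¹' S) =
        (Set.Ioo a b).indicator (fun t => ENNReal.ofReal ((t - a) ^ n / n.factorial)) t := by
      intro t
      by_cases ht : t ∈ Set.Ioo a b
      · rw [Set.indicator_of_mem ht, ← ih a t ht.1.le]
        congr 1
        ext h
        rw [hSd]
        simp only [Set.mem_preimage, Set.mem_ofPred_eq]
        exact ⟨fun h => h.2, fun h => ⟨ht, h⟩⟩
      · rw [Set.indicator_of_notMem ht]
        have : Prod.mk t ⁻¹' S = ∅ := by
          ext h
          rw [hSd]
          simp only [Set.mem_preimage, Set.mem_ofPred_eq, Set.mem_empty_iff_false, iff_false]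
          exact fun h => ht h.1
        rw [this, measure_empty]
    simp only [h1]
    rw [lintegral_indicator measurableSet_Ioo]
    have h2 : ∫ t in Set.Ioo a b, (t - a) ^ n / n.factorial =
        (b - a) ^ (n + 1) / (n + 1).factorial := by
      rw [← integral_Ioc_eq_integral_Ioo, ← intervalIntegral.integral_of_le hab,
        intervalIntegral.integral_div, intervalIntegral.integral_comp_sub_right
          (fun t => t ^ n), integral_pow]
      rw [Nat.factorial_succ]
      push_cast
      rw [sub_self]
      field_simp
      simp
    rw [← h2, ofReal_integral_eq_lintegral_ofReal]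
    · have : ContinuousOn (fun t : ℝ => (t - a) ^ n / n.factorial) (Set.Icc a b) := by fun_prop
      exact (this.integrableOn_Icc).mono_set Set.Ioo_subset_Icc_self
    · refine (ae_restrict_iff' measurableSet_Ioo).2 (Filter.Eventually.of_forall fun t ht => ?_)
      have : 0 ≤ t - a := by linarith [ht.1]
      simp only [Pi.zero_apply]
      positivity

theorem segv : S_SEGV := segv_aux

end Pool.Agent.H34.RK
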