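import Pool.Agent.H34.RK.TTools

/-! `S_T1`: the lower centres. -/

set_option autoImplicit false

open Finset MeasureTheory

namespace Pool.Agent.H34.RK

namespace TT

theorem WW_congr {h h' k k' : ℝ → ℝ} (h1 : ∀ z, 0 ≤ z → z ≤ 1 → h z = k z)
    (h2 : ∀ z, 0 ≤ z → z ≤ 1 → h' z = k' z) : WW h h' = WW k k' := by
  unfold WW
  apply intervalIntegral.integral_congr
  intro z hz
  rw [Set.uIcc_of_le zero_le_one] at hz
  apply intervalIntegral.integral_congr
  intro z' hz'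
  rw [Set.uIcc_of_le zero_le_one] at hz'
  simp only
  rw [h1 z hz.1 hz.2, h2 z' hz'.1 hz'.2]

theorem blk_facts (hBC : S_BLKCARD) (B : ℕ) (c : ℕ → ZMod 3) :
    (blk 40 B c).card = B * 3 ^ 39 + 1 ∧ Sub1 (len 40 B) (blk 40 B c) ∧ 0 ∉ blk 40 B c := by
  obtain ⟨h1, h2, h3⟩ := hBC 40 B c (by norm_num)
  refine ⟨by simpa using h1, h2, fun h => ?_⟩
  have := (h2 0 h).1
  omega

theorem jeq0 (hJ : S_JEQ') (hBC : S_BLKCARD) (B : ℕ) (c c' : ℕ → ZMod 3) :
    JEq (len 40 B) 0 (blk 40 B c) (blk 40 B c') := by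
  have h := hJ B 0 c c' (Or.inl rfl)
  rwa [erase_eq_of_notMem (blk_facts hBC B c).2.2, erase_eq_of_notMem (blk_facts hBC B c').2.2] at h

theorem sum_max_bound (A : Finset ℕ) (L : ℕ) (r : ℕ) (hA : Sub1 L A) (v : ℝ) (hv0 : 0 ≤ v) :
    |∑ l ∈ A, (max ((l : ℝ) - v) 0) ^ r| ≤ A.card * (L : ℝ) ^ r := by
  rw [abs_of_nonneg (Finset.sum_nonneg fun l _ => by positivity), ← nsmul_eq_mul]
  apply Finset.sum_le_card_nsmul
  intro l hl
  apply pow_le_pow_left₀ (le_max_right _ _)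
  apply max_le
  · have : (l : ℝ) ≤ L := by exact_mod_cast (hA l hl).2
    linarith
  · positivity

end TT

open TT

theorem t1 : S_LW → S_WIX → S_EX → S_EXT → S_W1 → S_JEQ' → S_BLKCARD → S_REG → S_T1 := by
  intro hLW hWIX hEX hEXT hW1 hJEQ hBC hREG g B c c' d d' hg hB hgL hcyc
  obtain ⟨L, hLd⟩ : ∃ L, L = len 40 B := ⟨_, rfl⟩
  obtain ⟨hAc, hAs, -⟩ := blk_facts hBC B c
  obtain ⟨hAc', hAs', -⟩ := blk_facts hBC B c'
  obtain ⟨hEc, hEs, -⟩ := blk_facts hBC B d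
  obtain ⟨hEc', hEs', -⟩ := blk_facts hBC B d'
  have hJA := jeq0 hJEQ hBC B c c'
  have hJE := jeq0 hJEQ hBC B d d'
  have hW1' := hW1 40 B c c' (by norm_num)
  rw [← hLd] at hAs hAs' hEs hEs' hJA hJE hgL hW1' ⊢
  obtain ⟨A, hA⟩ : ∃ A, A = blk 40 B c := ⟨_, rfl⟩
  obtain ⟨A', hA'⟩ : ∃ A', A' = blk 40 B c' := ⟨_, rfl⟩
  obtain ⟨E, hE⟩ : ∃ E, E = blk 40 B d := ⟨_, rfl⟩
  obtain ⟨E', hE'⟩ : ∃ E', E' = blk 40 B d' := ⟨_, rfl⟩
  rw [← hA] at hAc hAs hJA hW1' ⊢
  rw [← hA'] at hAc' hAs' hJA hW1' ⊢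
  rw [← hE] at hEc hEs hJE ⊢
  rw [← hE'] at hEc' hEs' hJE ⊢
  have hLv : L = B * 3 ^ 40 + 1 := hLd
  have hL100 : 100 ≤ L := by omega
  obtain ⟨m, hm⟩ : ∃ m, m = B * 3 ^ 39 + 1 := ⟨_, rfl⟩
  rw [← hm] at hAc hAc' hEc hEc'
  have hm30 : 30 ≤ m := by omega
  have hmL : m + m ≤ L := by omega
  have hLr : (100 : ℝ) ≤ L := by exact_mod_cast hL100
  have hL1 : (1 : ℝ) ≤ L := by linarith
  have hL0 : (0 : ℝ) < L := by linarith
  have hmLr : (m : ℝ) + m ≤ L := by exact_mod_cast hmL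
  have hm0 : (30 : ℝ) ≤ m := by exact_mod_cast hm30
  have hpow : ∀ n ≤ 100, g * (L : ℝ) ^ n ≤ 1 := by
    intro n hn
    refine le_trans ?_ hgL
    exact mul_le_mul_of_nonneg_left (pow_le_pow_right₀ hL1 hn) hg.le
  have hg1 : g ≤ 1 := by
    have := hpow 0 (by norm_num)
    simpa using this
  have hgL1 : g * L ≤ 1 := by
    have := hpow 1 (by norm_num)
    simpa using this
  obtain ⟨-, -, -, -, -, hreg, -⟩ := hREG g L A E 0 0 hg hL100 (hpow 4 (by norm_num)) hAs hEs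
    (by omega) (Nat.zero_le _) (Nat.zero_le _)
  obtain ⟨-, -, -, -, -, hreg', -⟩ := hREG g L A' E' 0 0 hg hL100 (hpow 4 (by norm_num)) hAs' hEs'
    (by omega) (Nat.zero_le _) (Nat.zero_le _)
  obtain ⟨hmeas, -⟩ := hREG g L A E 0 0 hg hL100 (hpow 4 (by norm_num)) hAs hEs
    (by omega) (Nat.zero_le _) (Nat.zero_le _)
  obtain ⟨hmeas', -⟩ := hREG g L A' E' 0 0 hg hL100 (hpow 4 (by norm_num)) hAs' hEs'
    (by omega) (Nat.zero_le _) (Nat.zero_le _)
  obtain ⟨h, hh⟩ : ∃ h : ℝ → ℝ, h = fun z => if 0 ≤ z ∧ z ≤ 1 then hx g A E z else 0 := ⟨_, rfl⟩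
  obtain ⟨h', hh'⟩ : ∃ h' : ℝ → ℝ, h' = fun z => if 0 ≤ z ∧ z ≤ 1 then hx g A' E' z else 0 :=
    ⟨_, rfl⟩
  rw [← hh] at hmeas
  rw [← hh'] at hmeas'
  have hin : ∀ z, 0 ≤ z → z ≤ 1 → hx g A E z = h z := by
    intro z h0 h1
    rw [hh]
    simp only
    rw [if_pos ⟨h0, h1⟩]
  have hin' : ∀ z, 0 ≤ z → z ≤ 1 → hx g A' E' z = h' z := by
    intro z h0 h1
    rw [hh']
    simp only
    rw [if_pos ⟨h0, h1⟩]
  have hb : ∀ z, |h z| ≤ 1 := by
    intro z
    rw [hh]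
    simp only
    split_ifs with h0
    · obtain ⟨h1, h2, -⟩ := hreg z h0.1 h0.2
      rw [abs_of_nonneg h1]
      exact h2
    · simp
  have hb' : ∀ z, |h' z| ≤ 1 := by
    intro z
    rw [hh']
    simp only
    split_ifs with h0
    · obtain ⟨h1, h2, -⟩ := hreg' z h0.1 h0.2
      rw [abs_of_nonneg h1]
      exact h2
    · simp
  rw [WW_congr hin hin']
  obtain ⟨a, ha⟩ : ∃ a : ℕ → ℝ, a = fun i => if i = 0 then 1 / ((m + m : ℕ) + 1 : ℝ) else
    if i = 1 then -g else 0 := ⟨_, rfl⟩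
  have hab : ∀ i, |a i| ≤ 1 := by
    intro i
    rw [ha]
    simp only
    split_ifs
    · rw [abs_of_nonneg (by positivity), div_le_one (by positivity)]
      push_cast
      linarith
    · rw [abs_neg, abs_of_pos hg]
      exact hg1
    · simp
  have hPa : ∀ v : ℝ, ∑ i ∈ range 4, a i * (g * v / g) ^ i = 1 / ((m + m : ℕ) + 1 : ℝ) - g * v := by
    intro v
    rw [mul_div_cancel_left₀ v hg.ne', ha]
    simp only [Finset.sum_range_succ, Finset.sum_range_zero]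
    norm_num
    ring
  have key := hLW g L 0 0 h h' a (fun _ => 0) (g ^ 7 * L ^ 60) hg hL100 (hpow 8 (by norm_num))
    (Nat.zero_le _) (Nat.zero_le _) hmeas hmeas' hb hb'
    (by
      intro z hz
      rw [Nat.cast_zero, mul_zero] at hz
      rw [hh, hh']
      simp only
      rw [if_neg (by push Not; intro h0; linarith), if_neg (by push Not; intro h0; linarith)]
      exact ⟨rfl, rfl⟩)
    (by
      intro z hz
      rw [Nat.cast_zero, mul_zero, sub_zero] at hz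
      rw [hh, hh']
      simp only
      rw [if_neg (by push Not; intro _; exact hz), if_neg (by push Not; intro _; exact hz)]
      exact ⟨rfl, rfl⟩)
    (by positivity)
    (by
      intro Q hQ _
      have h1 := hWIX g L A A' E E' Q hg hL100 (hpow 8 (by norm_num)) (by omega) hJA hJE hQ
      have h2 : (∫ z in (0 : ℝ)..1, Q z * (h z - h' z)) =
          ∫ x in (0 : ℝ)..1, Q x * (hx g A E x - hx g A' E' x) := by
        apply intervalIntegral.integral_congr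
        intro z hz
        rw [Set.uIcc_of_le zero_le_one] at hz
        simp only
        rw [hin z hz.1 hz.2, hin' z hz.1 hz.2]
      rw [h2]
      exact h1)
    hab (by simp)
  -- the two layers
  obtain ⟨I2, hI2⟩ : ∃ I2, I2 = ∫ z in (1 - g * L)..(1 - g * ((0 : ℕ) : ℝ)),
      ∫ z' in (1 - g * L)..(1 - g * ((0 : ℕ) : ℝ)), Real.sign (z' - z) *
        (h z - ∑ i ∈ range 4, (fun _ : ℕ => (0 : ℝ)) i * ((1 - z) / g) ^ i) *
          (h' z' - ∑ i ∈ range 4, (fun _ : ℕ => (0 : ℝ)) i * ((1 - z') / g) ^ i) := ⟨_, rfl⟩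
  rw [← hI2] at key
  have hI2b : |I2| ≤ (g * L) ^ 2 * (g ^ 7) ^ 2 := by
    have hup : ∀ z, 1 - g * L ≤ z → z ≤ 1 - g * ((0 : ℕ) : ℝ) → 0 ≤ z ∧ z ≤ 1 := by
      intro z h1 h2
      rw [Nat.cast_zero, mul_zero, sub_zero] at h2
      exact ⟨by linarith, h2⟩
    have := small (1 - g * L) (1 - g * ((0 : ℕ) : ℝ)) (g ^ 7) (by
        rw [Nat.cast_zero, mul_zero, sub_zero]
        have : 0 ≤ g * L := by positivity
        linarith)
      (fun z => h z - ∑ i ∈ range 4, (fun _ : ℕ => (0 : ℝ)) i * ((1 - z) / g) ^ i)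
      (fun z => h' z - ∑ i ∈ range 4, (fun _ : ℕ => (0 : ℝ)) i * ((1 - z) / g) ^ i)
      (by
        intro z h1 h2
        obtain ⟨h3, h4⟩ := hup z h1 h2
        simp only [zero_mul, Finset.sum_const_zero, sub_zero]
        rw [← hin z h3 h4]
        exact hEXT g L A E z hg hL100 (hpow 8 (by norm_num)) hAs hEs (by omega) h1 h4)
      (by
        intro z h1 h2
        obtain ⟨h3, h4⟩ := hup z h1 h2
        simp only [zero_mul, Finset.sum_const_zero, sub_zero]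
        rw [← hin' z h3 h4]
        exact hEXT g L A' E' z hg hL100 (hpow 8 (by norm_num)) hAs' hEs' (by omega) h1 h4)
    rw [← hI2] at this
    refine this.trans (le_of_eq ?_)
    rw [Nat.cast_zero]
    ring
  obtain ⟨I1, hI1⟩ : ∃ I1, I1 = ∫ z in (g * ((0 : ℕ) : ℝ))..(g * L),
      ∫ z' in (g * ((0 : ℕ) : ℝ))..(g * L), Real.sign (z' - z) *
        (h z - ∑ i ∈ range 4, a i * (z / g) ^ i) * (h' z' - ∑ i ∈ range 4, a i * (z' / g) ^ i) :=
    ⟨_, rfl⟩
  rw [← hI1] at key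
  obtain ⟨q, hq⟩ : ∃ q : ℝ, q = g / (m + m : ℕ) := ⟨_, rfl⟩
  have hq0 : 0 < q := by
    rw [hq]
    apply div_pos hg
    push_cast
    linarith
  have hmeasP : Measurable (fun z : ℝ => ∑ i ∈ range 4, a i * (z / g) ^ i) := by
    fun_prop
  have hqk : ∀ (A₀ : Finset ℕ), A₀.card = m → Sub1 L A₀ → ∀ v : ℝ, 0 ≤ v →
      |-(q * ∑ l ∈ A₀, max ((l : ℝ) - v) 0)| ≤ g * L := by
    intro A₀ hc hs v hv
    have h1 := sum_max_bound A₀ L 1 hs v hv
    simp only [pow_one] at h1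
    rw [abs_neg, abs_mul, abs_of_pos hq0, hc] at *
    calc q * |∑ l ∈ A₀, max ((l : ℝ) - v) 0| ≤ q * (m * L) := mul_le_mul_of_nonneg_left h1 hq0.le
      _ = (m / (m + m : ℕ)) * (g * L) := by rw [hq]; ring
      _ ≤ 1 * (g * L) := by
          apply mul_le_mul_of_nonneg_right _ (by positivity)
          rw [div_le_one (by push_cast; linarith)]
          push_cast
          linarith
      _ = g * L := one_mul _
  have hI1b := layer g ((0 : ℕ) : ℝ) (L : ℝ) (g * L) (g ^ 2 * L ^ 10) hg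
    (by rw [Nat.cast_zero]; exact hL0.le) (by positivity)
    (by
      have := hpow 9 (by norm_num)
      calc g ^ 2 * (L : ℝ) ^ 10 = (g * L) * (g * (L : ℝ) ^ 9) := by ring
        _ ≤ (g * L) * 1 := mul_le_mul_of_nonneg_left this (by positivity)
        _ = g * L := mul_one _)
    (fun z => h z - ∑ i ∈ range 4, a i * (z / g) ^ i)
    (fun z => h' z - ∑ i ∈ range 4, a i * (z / g) ^ i)
    (fun v => -(q * ∑ l ∈ A, max ((l : ℝ) - v) 0)) (fun v => -(q * ∑ l ∈ A', max ((l : ℝ) - v) 0))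
    (hmeas.sub hmeasP) (hmeas'.sub hmeasP)
    (((Finset.measurable_sum _ fun l _ =>
      (measurable_const.sub measurable_id).max measurable_const).const_mul q).neg)
    (((Finset.measurable_sum _ fun l _ =>
      (measurable_const.sub measurable_id).max measurable_const).const_mul q).neg)
    (fun v h1 _ => hqk A hAc hAs v (by rwa [Nat.cast_zero] at h1))
    (fun v h1 _ => hqk A' hAc' hAs' v (by rwa [Nat.cast_zero] at h1))
    (by
      intro v h1 h2
      rw [Nat.cast_zero] at h1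
      have h3 : g * v ≤ 1 := (mul_le_mul_of_nonneg_left h2 hg.le).trans hgL1
      have h4 := hEX g L A E v hg hL100 (hpow 8 (by norm_num)) hAs hEs (by omega) h1 h2
      rw [hAc, hEc, ← hq, hin _ (by positivity) h3] at h4
      rw [hPa v]
      refine le_trans (le_of_eq ?_) h4
      congr 1
      ring)
    (by
      intro v h1 h2
      rw [Nat.cast_zero] at h1
      have h3 : g * v ≤ 1 := (mul_le_mul_of_nonneg_left h2 hg.le).trans hgL1
      have h4 := hEX g L A' E' v hg hL100 (hpow 8 (by norm_num)) hAs' hEs' (by omega) h1 h2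
      rw [hAc', hEc', ← hq, hin' _ (by positivity) h3] at h4
      rw [hPa v]
      refine le_trans (le_of_eq ?_) h4
      congr 1
      ring)
  rw [← hI1] at hI1b
  obtain ⟨S, hS⟩ : ∃ S : ℤ, S = ∑ i ∈ range B, cyc (c i) (c' i) := ⟨_, rfl⟩
  rw [← hS] at hW1' hcyc
  have hJ : (∫ v in ((0 : ℕ) : ℝ)..(L : ℝ), ∫ v' in ((0 : ℕ) : ℝ)..(L : ℝ), Real.sign (v' - v) *
      (-(q * ∑ l ∈ A, max ((l : ℝ) - v) 0)) * (-(q * ∑ l ∈ A', max ((l : ℝ) - v') 0))) =
      q ^ 2 * (41148 * 3 ^ (40 - 6) / 24 * (S : ℝ)) := by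
    rw [← hW1', Nat.cast_zero, ← intervalIntegral.integral_const_mul]
    apply intervalIntegral.integral_congr
    intro v _
    simp only
    rw [← intervalIntegral.integral_const_mul]
    apply intervalIntegral.integral_congr
    intro v' _
    simp only
    ring
  rw [hJ, Nat.cast_zero, sub_zero] at hI1b
  -- numbers
  have hSr : 1 ≤ |(S : ℝ)| := by
    have : (1 : ℝ) ≤ ((|S| : ℤ) : ℝ) := by exact_mod_cast hcyc
    rwa [Int.cast_abs] at this
  obtain ⟨X, hX⟩ : ∃ X, X = g ^ 4 / (L : ℝ) ^ 2 := ⟨_, rfl⟩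
  have hX0 : 0 < X := by rw [hX]; positivity
  have hT : 100 * X ≤ |g ^ 2 * (q ^ 2 * (41148 * 3 ^ (40 - 6) / 24 * (S : ℝ)))| := by
    rw [abs_mul, abs_mul, abs_mul, abs_of_pos (by positivity : 0 < g ^ 2),
      abs_of_pos (by positivity : 0 < q ^ 2),
      abs_of_pos (by positivity : (0 : ℝ) < 41148 * 3 ^ (40 - 6) / 24)]
    have h1 : g / L ≤ q := by
      rw [hq]
      apply div_le_div_of_nonneg_left hg.le (by push_cast; linarith)
      push_cast
      exact hmLr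
    have h2 : (g / L) ^ 2 ≤ q ^ 2 := pow_le_pow_left₀ (by positivity) h1 2
    have h3 : X = g ^ 2 * (g / L) ^ 2 := by
      rw [hX]
      ring
    rw [h3]
    calc 100 * (g ^ 2 * (g / L) ^ 2) = g ^ 2 * ((g / L) ^ 2 * (100 * 1)) := by ring
      _ ≤ g ^ 2 * (q ^ 2 * (41148 * 3 ^ (40 - 6) / 24 * |(S : ℝ)|)) := by
          apply mul_le_mul_of_nonneg_left _ (by positivity)
          apply mul_le_mul h2 _ (by norm_num) (by positivity)
          apply mul_le_mul _ hSr (by norm_num) (by positivity)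
          norm_num
  have e1 : g ^ 7 * (L : ℝ) ^ 60 ≤ X := by
    rw [hX, le_div_iff₀ (by positivity)]
    have h1 := hpow 62 (by norm_num)
    calc g ^ 7 * (L : ℝ) ^ 60 * L ^ 2 = g ^ 4 * (g ^ 2 * (g * L ^ 62)) := by ring
      _ ≤ g ^ 4 * (1 * 1) := by
          apply mul_le_mul_of_nonneg_left _ (by positivity)
          exact mul_le_mul (pow_le_one₀ hg.le hg1) h1 (by positivity) (by norm_num)
      _ = g ^ 4 := by ring
  have e2 : g ^ 2 * (L : ℝ) ^ 2 * (3 * (g * L) * (g ^ 2 * L ^ 10)) ≤ 3 * X := by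
    rw [hX, ← mul_div_assoc, le_div_iff₀ (by positivity)]
    have h1 := hpow 15 (by norm_num)
    calc g ^ 2 * (L : ℝ) ^ 2 * (3 * (g * L) * (g ^ 2 * L ^ 10)) * L ^ 2 =
        3 * g ^ 4 * (g * L ^ 15) := by ring
      _ ≤ 3 * g ^ 4 * 1 := mul_le_mul_of_nonneg_left h1 (by positivity)
      _ = 3 * g ^ 4 := mul_one _
  have e3 : (g * L) ^ 2 * (g ^ 7) ^ 2 ≤ X := by
    rw [hX, le_div_iff₀ (by positivity)]
    have h1 := hpow 4 (by norm_num)
    calc (g * L) ^ 2 * (g ^ 7) ^ 2 * (L : ℝ) ^ 2 = g ^ 4 * (g ^ 11 * (g * L ^ 4)) := by ring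
      _ ≤ g ^ 4 * (1 * 1) := by
          apply mul_le_mul_of_nonneg_left _ (by positivity)
          exact mul_le_mul (pow_le_one₀ hg.le hg1) h1 (by positivity) (by norm_num)
      _ = g ^ 4 := by ring
  have hXL : g ^ 4 / (L : ℝ) ^ 4 ≤ X := by
    rw [hX]
    apply div_le_div_of_nonneg_left (by positivity) (by positivity)
    exact pow_le_pow_right₀ hL1 (by norm_num)
  refine hXL.trans ?_
  obtain ⟨T, hTd⟩ : ∃ T, T = g ^ 2 * (q ^ 2 * (41148 * 3 ^ (40 - 6) / 24 * (S : ℝ))) := ⟨_, rfl⟩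
  rw [← hTd] at hT hI1b
  obtain ⟨W, hW⟩ : ∃ W, W = WW h h' := ⟨_, rfl⟩
  rw [← hW] at key ⊢
  have t2 : |T| ≤ |W| + |W - I1 - I2| + |I1 - T| + |I2| := by
    have : T = W - (W - I1 - I2) - (I1 - T) - I2 := by ring
    calc |T| = |W - (W - I1 - I2) - (I1 - T) - I2| := congrArg _ this
      _ ≤ |W - (W - I1 - I2) - (I1 - T)| + |I2| := abs_sub _ _
      _ ≤ |W - (W - I1 - I2)| + |I1 - T| + |I2| := by
          have := abs_sub (W - (W - I1 - I2)) (I1 - T)
          linarith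
      _ ≤ |W| + |W - I1 - I2| + |I1 - T| + |I2| := by
          have := abs_sub W (W - I1 - I2)
          linarith
  linarith

end Pool.Agent.H34.RK
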