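import Pool.Agent.H34.RK.T1

/-! `S_T3`: equal satellites. -/

set_option autoImplicit false

open Finset MeasureTheory

namespace Pool.Agent.H34.RK

namespace TT

theorem flip_layer (a b : ℝ) (f f' : ℝ → ℝ) :
    (∫ z in (1 - b)..(1 - a), ∫ z' in (1 - b)..(1 - a), Real.sign (z' - z) * f z * f' z') =
      -∫ w in a..b, ∫ w' in a..b, Real.sign (w' - w) * f (1 - w) * f' (1 - w') := by
  rw [← intervalIntegral.integral_comp_sub_left, ← intervalIntegral.integral_neg]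
  apply intervalIntegral.integral_congr
  intro w _
  simp only
  rw [← intervalIntegral.integral_comp_sub_left, ← intervalIntegral.integral_neg]
  apply intervalIntegral.integral_congr
  intro w' _
  simp only
  have h1 : (1 - w' - (1 - w)) = -(w' - w) := by ring
  rw [h1, Real.sign_neg]
  ring

theorem hz_eq_hzc {g : ℝ} {A B : Finset ℕ} {p q : ℕ} {z : ℝ} (h1 : g * p ≤ z)
    (h2 : z ≤ 1 - g * q) : hz g A B p q z = hzc g A B z := by
  unfold hz hZT hzc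
  rw [if_pos ⟨h1, h2⟩]
  rfl

end TT

open TT

theorem t3 : S_LW → S_WIZ → S_EZ → S_DUAL → S_W2 → S_JEQ' → S_BLKCARD → S_MOM → S_REG → S_T3 := by
  intro hLW hWIZ hEZ hDU hW2 hJEQ hBC hMOM hREG g B p c c' d d' hg hB hgL hpc hpc' hcyc
  obtain ⟨L, hLd⟩ : ∃ L, L = len 40 B := ⟨_, rfl⟩
  obtain ⟨hAc0, hAs0, hAz⟩ := blk_facts hBC B c
  obtain ⟨hAc0', hAs0', hAz'⟩ := blk_facts hBC B c'
  obtain ⟨hEc, hEs, hEz⟩ := blk_facts hBC B d
  obtain ⟨hEc', hEs', hEz'⟩ := blk_facts hBC B d'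
  have hJA := hJEQ B p c c' (Or.inr ⟨hpc, hpc'⟩)
  have hJE := jeq0 hJEQ hBC B d d'
  have hWA := hW2 40 B p c c' (by norm_num) (Or.inr ⟨hpc, hpc'⟩)
  have hWE := hW2 40 B 0 d d' (by norm_num) (Or.inl rfl)
  rw [erase_eq_of_notMem hEz, erase_eq_of_notMem hEz',
    Finset.filter_true_of_mem (fun i _ => Nat.zero_le _)] at hWE
  have hMA := hMOM 40 B 0 2 c c' (by norm_num) (Or.inl rfl)
  have hME := hMOM 40 B 0 2 d d' (by norm_num) (Or.inl rfl)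
  rw [Finset.filter_true_of_mem (fun l hl => Nat.pos_of_ne_zero (fun h => hAz (h ▸ hl))),
    Finset.filter_true_of_mem (fun l hl => Nat.pos_of_ne_zero (fun h => hAz' (h ▸ hl)))] at hMA
  rw [Finset.filter_true_of_mem (fun l hl => Nat.pos_of_ne_zero (fun h => hEz (h ▸ hl))),
    Finset.filter_true_of_mem (fun l hl => Nat.pos_of_ne_zero (fun h => hEz' (h ▸ hl)))] at hME
  have hM2 : ∑ l ∈ (blk 40 B c).erase p, (l : ℝ) ^ 2 = ∑ l ∈ (blk 40 B c').erase p, (l : ℝ) ^ 2 := by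
    have h1 := Finset.add_sum_erase (blk 40 B c) (fun l => (l : ℝ) ^ 2) hpc
    have h2 := Finset.add_sum_erase (blk 40 B c') (fun l => (l : ℝ) ^ 2) hpc'
    linarith
  rw [← hLd] at hAs0 hAs0' hEs hEs' hJA hJE hgL hWA hWE ⊢
  have hpL : p ≤ L := (hAs0 p hpc).2
  obtain ⟨A, hA⟩ : ∃ A, A = (blk 40 B c).erase p := ⟨_, rfl⟩
  obtain ⟨A', hA'⟩ : ∃ A', A' = (blk 40 B c').erase p := ⟨_, rfl⟩
  obtain ⟨E, hE⟩ : ∃ E, E = blk 40 B d := ⟨_, rfl⟩
  obtain ⟨E', hE'⟩ : ∃ E', E' = blk 40 B d' := ⟨_, rfl⟩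
  have hAs : Sub1 L A := by
    intro l hl
    rw [hA] at hl
    exact hAs0 l (Finset.mem_of_mem_erase hl)
  have hAs' : Sub1 L A' := by
    intro l hl
    rw [hA'] at hl
    exact hAs0' l (Finset.mem_of_mem_erase hl)
  have hLv : L = B * 3 ^ 40 + 1 := hLd
  have hL100 : 100 ≤ L := by omega
  obtain ⟨m, hm⟩ : ∃ m, m = B * 3 ^ 39 := ⟨_, rfl⟩
  have hAc : A.card = m := by
    rw [hA, Finset.card_erase_of_mem hpc, hAc0, hm]
    exact Nat.add_sub_cancel _ _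
  have hAc' : A'.card = m := by
    rw [hA', Finset.card_erase_of_mem hpc', hAc0', hm]
    exact Nat.add_sub_cancel _ _
  rw [← hA] at hJA hWA hM2 ⊢
  rw [← hA'] at hJA hWA hM2 ⊢
  rw [← hE] at hEc hEs hJE hWE hME ⊢
  rw [← hE'] at hEc' hEs' hJE hWE hME ⊢
  rw [← hm] at hEc hEc'
  have hm30 : 30 ≤ m := by omega
  obtain ⟨M, hM⟩ : ∃ M, M = m + (m + 1) := ⟨_, rfl⟩
  have hAE : A.card + E.card = M := by rw [hAc, hEc, hM]
  have hAE' : A'.card + E'.card = M := by rw [hAc', hEc', hM]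
  have hEA : E.card + A.card = M := by rw [add_comm]; exact hAE
  have hEA' : E'.card + A'.card = M := by rw [add_comm]; exact hAE'
  have hM30 : 30 ≤ M := by omega
  have hML : M ≤ L := by omega
  have hMr : (30 : ℝ) ≤ M := by exact_mod_cast hM30
  have hMLr : (M : ℝ) ≤ L := by exact_mod_cast hML
  have hLr : (100 : ℝ) ≤ L := by exact_mod_cast hL100
  have hL1 : (1 : ℝ) ≤ L := by linarith
  have hL0 : (0 : ℝ) < L := by linarith
  have hpLr : (p : ℝ) ≤ L := by exact_mod_cast hpL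
  have hp0 : (0 : ℝ) ≤ p := Nat.cast_nonneg p
  have hpow : ∀ n ≤ 100, g * (L : ℝ) ^ n ≤ 1 := by
    intro n hn
    refine le_trans ?_ hgL
    exact mul_le_mul_of_nonneg_left (pow_le_pow_right₀ hL1 hn) hg.le
  have hg1 : g ≤ 1 := by
    have := hpow 0 (by norm_num)
    simpa using this
  have hgL2 : g * L ≤ 1 / 100 := by
    have h1 := hpow 2 (by norm_num)
    rw [le_div_iff₀ (by norm_num)]
    calc g * L * 100 ≤ g * L * L := mul_le_mul_of_nonneg_left hLr (by positivity)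
      _ = g * L ^ 2 := by ring
      _ ≤ 1 := h1
  have hgL1 : g * L ≤ 1 := by linarith
  have hgL22 : g ^ 2 * (L : ℝ) ^ 2 ≤ 1 := by
    calc g ^ 2 * (L : ℝ) ^ 2 = (g * L) ^ 2 := by ring
      _ ≤ 1 := pow_le_one₀ (by positivity) hgL1
  obtain ⟨-, -, hmeas, -, -, -, hreg⟩ := hREG g L A E p 0 hg hL100 (hpow 4 (by norm_num)) hAs hEs
    (by omega) hpL (Nat.zero_le _)
  obtain ⟨-, -, hmeas', -, -, -, hreg'⟩ := hREG g L A' E' p 0 hg hL100 (hpow 4 (by norm_num)) hAs'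
    hEs' (by omega) hpL (Nat.zero_le _)
  obtain ⟨h, hh⟩ : ∃ h : ℝ → ℝ, h = hz g A E p 0 := ⟨_, rfl⟩
  obtain ⟨h', hh'⟩ : ∃ h' : ℝ → ℝ, h' = hz g A' E' p 0 := ⟨_, rfl⟩
  rw [← hh] at hmeas hreg
  rw [← hh'] at hmeas' hreg'
  have hb : ∀ z, |h z| ≤ 1 := by
    intro z
    rw [abs_of_nonneg (hreg z).1]
    exact (hreg z).2
  have hb' : ∀ z, |h' z| ≤ 1 := by
    intro z
    rw [abs_of_nonneg (hreg' z).1]
    exact (hreg' z).2
  obtain ⟨q, hq⟩ : ∃ q : ℝ, q = g ^ 2 / (2 * (M : ℕ)) := ⟨_, rfl⟩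
  have hq0 : 0 < q := by
    rw [hq]
    apply div_pos (by positivity)
    linarith
  have hqM : ∀ x : ℝ, 0 ≤ x → x ≤ M * (L : ℝ) ^ 2 → q * x ≤ g ^ 2 * L ^ 2 := by
    intro x _ hx
    calc q * x ≤ q * (M * (L : ℝ) ^ 2) := mul_le_mul_of_nonneg_left hx hq0.le
      _ = (g ^ 2 * L ^ 2) / 2 := by
          rw [hq]
          have : (M : ℝ) ≠ 0 := by linarith
          field_simp
      _ ≤ g ^ 2 * L ^ 2 := by
          have : 0 ≤ g ^ 2 * (L : ℝ) ^ 2 := by positivity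
          linarith
  have hsq : ∀ A₀ : Finset ℕ, A₀.card ≤ M → Sub1 L A₀ → 0 ≤ ∑ l ∈ A₀, (l : ℝ) ^ 2 ∧
      ∑ l ∈ A₀, (l : ℝ) ^ 2 ≤ M * (L : ℝ) ^ 2 := by
    intro A₀ hc hs
    refine ⟨Finset.sum_nonneg fun l _ => by positivity, ?_⟩
    calc ∑ l ∈ A₀, (l : ℝ) ^ 2 ≤ A₀.card • (L : ℝ) ^ 2 := by
          apply Finset.sum_le_card_nsmul
          intro l hl
          exact pow_le_pow_left₀ (by positivity) (by exact_mod_cast (hs l hl).2) 2
      _ ≤ M * (L : ℝ) ^ 2 := by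
          rw [nsmul_eq_mul]
          exact mul_le_mul_of_nonneg_right (by exact_mod_cast hc) (by positivity)
  have hqk : ∀ (A₀ : Finset ℕ), A₀.card ≤ M → Sub1 L A₀ → ∀ v : ℝ, 0 ≤ v →
      |q * ∑ l ∈ A₀, (max ((l : ℝ) - v) 0) ^ 2| ≤ g ^ 2 * L ^ 2 := by
    intro A₀ hc hs v hv
    have h1 := sum_max_bound A₀ L 2 hs v hv
    rw [abs_mul, abs_of_pos hq0]
    apply hqM _ (abs_nonneg _)
    refine h1.trans ?_
    exact mul_le_mul_of_nonneg_right (by exact_mod_cast hc) (by positivity)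
  -- the coefficients
  obtain ⟨co, hco⟩ : ∃ co : ℝ → ℕ → ℝ, co = fun s i => if i = 0 then -(q * s) else
    if i = 1 then g / ((M : ℕ) + 1 : ℝ) else if i = 2 then -(g ^ 2 / 2) else 0 := ⟨_, rfl⟩
  have hcob : ∀ s, 0 ≤ s → s ≤ M * (L : ℝ) ^ 2 → ∀ i, |co s i| ≤ 1 := by
    intro s hs0 hs1 i
    rw [hco]
    simp only
    split_ifs
    · rw [abs_neg, abs_of_nonneg (by positivity)]
      exact (hqM s hs0 hs1).trans hgL22
    · rw [abs_of_nonneg (by positivity), div_le_one (by positivity)]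
      linarith
    · rw [abs_neg, abs_of_nonneg (by positivity)]
      have : g ^ 2 ≤ 1 := pow_le_one₀ hg.le hg1
      linarith
    · simp
  have hPa : ∀ s v : ℝ, ∑ i ∈ range 4, co s i * v ^ i =
      -(q * s) + g * v / ((M : ℕ) + 1 : ℝ) - g ^ 2 * v ^ 2 / 2 := by
    intro s v
    rw [hco]
    simp only [Finset.sum_range_succ, Finset.sum_range_zero]
    norm_num
    ring
  obtain ⟨s, hs⟩ : ∃ s : ℝ, s = ∑ l ∈ A, (l : ℝ) ^ 2 := ⟨_, rfl⟩
  obtain ⟨s', hs'⟩ : ∃ s' : ℝ, s' = ∑ l ∈ E, (l : ℝ) ^ 2 := ⟨_, rfl⟩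
  have hsb := hsq A (by omega) hAs
  have hsb' := hsq E (by omega) hEs
  rw [← hs] at hM2 hsb
  rw [← hs'] at hME hsb'
  -- expansion of the core
  have hexp : ∀ (A₀ E₀ : Finset ℕ) (s₀ : ℝ), A₀.card + E₀.card = M → Sub1 L A₀ → Sub1 L E₀ →
      s₀ = ∑ l ∈ A₀, (l : ℝ) ^ 2 → ∀ v : ℝ, 0 ≤ v → v ≤ L →
      |hzc g A₀ E₀ (g * v) - ∑ i ∈ range 4, co s₀ i * v ^ i -
        q * ∑ l ∈ A₀, (max ((l : ℝ) - v) 0) ^ 2| ≤ g ^ 3 * L ^ 15 := by
    intro A₀ E₀ s₀ hc hA₀ hE₀ hs₀ v hv0 hv1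
    have h1 := hEZ g L A₀ E₀ v hg hL100 (hpow 8 (by norm_num)) hA₀ hE₀ (by omega) hv0 hv1
    rw [hc, ← hq, Finset.sum_sub_distrib, ← hs₀] at h1
    rw [hPa]
    refine le_trans (le_of_eq ?_) h1
    congr 1
    ring
  have key := hLW g L p 0 h h' (co s) (co s') (10 * g ^ 7 * L ^ 60) hg hL100 (hpow 8 (by norm_num))
    hpL (Nat.zero_le _) hmeas hmeas' hb hb'
    (by
      intro z hz0
      rw [hh, hh']
      unfold hz hZT
      rw [if_neg (by push Not; intro h0; linarith), if_neg (by push Not; intro h0; linarith)]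
      exact ⟨rfl, rfl⟩)
    (by
      intro z hz0
      rw [hh, hh']
      unfold hz hZT
      rw [if_neg (by push Not; intro _; exact hz0), if_neg (by push Not; intro _; exact hz0)]
      exact ⟨rfl, rfl⟩)
    (by positivity)
    (by
      intro Q hQ hQ'
      rw [hh, hh']
      exact hWIZ g L p 0 A A' E E' Q hg hL100 (hpow 8 (by norm_num)) (by omega) hJA hJE hQ hQ')
    (hcob s hsb.1 hsb.2) (hcob s' hsb'.1 hsb'.2)
  have hmeasP : ∀ a : ℕ → ℝ, Measurable (fun z : ℝ => ∑ i ∈ range 4, a i * (z / g) ^ i) := by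
    intro a
    fun_prop
  have hmk : ∀ A₀ : Finset ℕ, Measurable (fun v : ℝ => q * ∑ l ∈ A₀, (max ((l : ℝ) - v) 0) ^ 2) :=
    fun A₀ => (Finset.measurable_sum _ fun l _ =>
      ((measurable_const.sub measurable_id).max measurable_const).pow_const 2).const_mul q
  have heK : g ^ 3 * (L : ℝ) ^ 15 ≤ g ^ 2 * L ^ 2 := by
    have := hpow 13 (by norm_num)
    calc g ^ 3 * (L : ℝ) ^ 15 = (g ^ 2 * L ^ 2) * (g * L ^ 13) := by ring
      _ ≤ (g ^ 2 * L ^ 2) * 1 := mul_le_mul_of_nonneg_left this (by positivity)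
      _ = _ := mul_one _
  -- the lower layer
  obtain ⟨I1, hI1⟩ : ∃ I1, I1 = ∫ z in (g * (p : ℝ))..(g * L),
      ∫ z' in (g * (p : ℝ))..(g * L), Real.sign (z' - z) *
        (h z - ∑ i ∈ range 4, co s i * (z / g) ^ i) *
        (h' z' - ∑ i ∈ range 4, co s i * (z' / g) ^ i) := ⟨_, rfl⟩
  rw [← hI1] at key
  have hlow : ∀ v : ℝ, (p : ℝ) ≤ v → v ≤ L → g * (p : ℝ) ≤ g * v ∧ g * v ≤ 1 - g * ((0 : ℕ) : ℝ) := by
    intro v h1 h2
    refine ⟨mul_le_mul_of_nonneg_left h1 hg.le, ?_⟩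
    rw [Nat.cast_zero, mul_zero, sub_zero]
    exact (mul_le_mul_of_nonneg_left h2 hg.le).trans hgL1
  have hI1b := layer g (p : ℝ) (L : ℝ) (g ^ 2 * L ^ 2) (g ^ 3 * L ^ 15) hg hpLr (by positivity) heK
    (fun z => h z - ∑ i ∈ range 4, co s i * (z / g) ^ i)
    (fun z => h' z - ∑ i ∈ range 4, co s i * (z / g) ^ i)
    (fun v => q * ∑ l ∈ A, (max ((l : ℝ) - v) 0) ^ 2)
    (fun v => q * ∑ l ∈ A', (max ((l : ℝ) - v) 0) ^ 2)
    (hmeas.sub (hmeasP _)) (hmeas'.sub (hmeasP _)) (hmk A) (hmk A')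
    (fun v h1 _ => hqk A (by omega) hAs v (hp0.trans h1))
    (fun v h1 _ => hqk A' (by omega) hAs' v (hp0.trans h1))
    (by
      intro v h1 h2
      obtain ⟨h3, h4⟩ := hlow v h1 h2
      have h5 := hexp A E s hAE hAs hEs hs v (hp0.trans h1) h2
      rw [mul_div_cancel_left₀ v hg.ne', hh, hz_eq_hzc h3 h4]
      exact h5)
    (by
      intro v h1 h2
      obtain ⟨h3, h4⟩ := hlow v h1 h2
      have h5 := hexp A' E' s hAE' hAs' hEs' hM2 v (hp0.trans h1) h2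
      rw [mul_div_cancel_left₀ v hg.ne', hh', hz_eq_hzc h3 h4]
      exact h5)
  rw [← hI1] at hI1b
  -- the upper layer
  obtain ⟨I2, hI2⟩ : ∃ I2, I2 = ∫ z in (1 - g * L)..(1 - g * ((0 : ℕ) : ℝ)),
      ∫ z' in (1 - g * L)..(1 - g * ((0 : ℕ) : ℝ)), Real.sign (z' - z) *
        (h z - ∑ i ∈ range 4, co s' i * ((1 - z) / g) ^ i) *
        (h' z' - ∑ i ∈ range 4, co s' i * ((1 - z') / g) ^ i) := ⟨_, rfl⟩
  rw [← hI2] at key
  have hI2f := flip_layer (g * ((0 : ℕ) : ℝ)) (g * L)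
    (fun z => h z - ∑ i ∈ range 4, co s' i * ((1 - z) / g) ^ i)
    (fun z => h' z - ∑ i ∈ range 4, co s' i * ((1 - z) / g) ^ i)
  rw [← hI2] at hI2f
  have hupp : ∀ v : ℝ, 0 ≤ v → v ≤ L → g * (p : ℝ) ≤ 1 - g * v ∧
      1 - g * v ≤ 1 - g * ((0 : ℕ) : ℝ) := by
    intro v h1 h2
    have h3 : g * v ≤ g * L := mul_le_mul_of_nonneg_left h2 hg.le
    have h4 : g * (p : ℝ) ≤ g * L := mul_le_mul_of_nonneg_left hpLr hg.le
    have h5 : 0 ≤ g * v := by positivity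
    rw [Nat.cast_zero, mul_zero, sub_zero]
    exact ⟨by linarith, by linarith⟩
  have hI2b := layer g ((0 : ℕ) : ℝ) (L : ℝ) (g ^ 2 * L ^ 2) (g ^ 3 * L ^ 15) hg
    (by rw [Nat.cast_zero]; exact hL0.le) (by positivity) heK
    (fun w => h (1 - w) - ∑ i ∈ range 4, co s' i * ((1 - (1 - w)) / g) ^ i)
    (fun w => h' (1 - w) - ∑ i ∈ range 4, co s' i * ((1 - (1 - w)) / g) ^ i)
    (fun v => q * ∑ l ∈ E, (max ((l : ℝ) - v) 0) ^ 2)
    (fun v => q * ∑ l ∈ E', (max ((l : ℝ) - v) 0) ^ 2)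
    ((hmeas.comp (measurable_const.sub measurable_id)).sub
      ((hmeasP (co s')).comp (measurable_const.sub (measurable_const.sub measurable_id))))
    ((hmeas'.comp (measurable_const.sub measurable_id)).sub
      ((hmeasP (co s')).comp (measurable_const.sub (measurable_const.sub measurable_id))))
    (hmk E) (hmk E')
    (fun v h1 _ => hqk E (by omega) hEs v (by rwa [Nat.cast_zero] at h1))
    (fun v h1 _ => hqk E' (by omega) hEs' v (by rwa [Nat.cast_zero] at h1))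
    (by
      intro v h1 h2
      rw [Nat.cast_zero] at h1
      obtain ⟨h3, h4⟩ := hupp v h1 h2
      have h5 := hexp E A s' hEA hEs hAs hs' v h1 h2
      rw [sub_sub_cancel, mul_div_cancel_left₀ v hg.ne', hh, hz_eq_hzc h3 h4, hDU.2.1,
        sub_sub_cancel]
      exact h5)
    (by
      intro v h1 h2
      rw [Nat.cast_zero] at h1
      obtain ⟨h3, h4⟩ := hupp v h1 h2
      have h5 := hexp E' A' s' hEA' hEs' hAs' hME v h1 h2
      rw [sub_sub_cancel, mul_div_cancel_left₀ v hg.ne', hh', hz_eq_hzc h3 h4, hDU.2.1,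
        sub_sub_cancel]
      exact h5)
  -- main terms
  obtain ⟨S1, hS1⟩ : ∃ S1 : ℤ, S1 = ∑ i ∈ (range B).filter (fun i => p ≤ i * 3 ^ 40),
    cyc (c i) (c' i) := ⟨_, rfl⟩
  obtain ⟨S2, hS2⟩ : ∃ S2 : ℤ, S2 = ∑ i ∈ range B, cyc (d i) (d' i) := ⟨_, rfl⟩
  rw [← hS1] at hWA hcyc
  rw [← hS2] at hWE hcyc
  obtain ⟨K2, hK2⟩ : ∃ K2 : ℝ, K2 = 950618916 * 3 ^ (40 - 8) / 180 := ⟨_, rfl⟩
  rw [← hK2] at hWA hWE
  have hmain : ∀ (A₀ A₁ : Finset ℕ) (a b : ℝ), (∫ v in a..b, ∫ v' in a..b, Real.sign (v' - v) *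
      (q * ∑ l ∈ A₀, (max ((l : ℝ) - v) 0) ^ 2) * (q * ∑ l ∈ A₁, (max ((l : ℝ) - v') 0) ^ 2)) =
      q ^ 2 * ∫ v in a..b, ∫ v' in a..b, Real.sign (v' - v) *
        (∑ l ∈ A₀, (max ((l : ℝ) - v) 0) ^ 2) * ∑ l ∈ A₁, (max ((l : ℝ) - v') 0) ^ 2 := by
    intro A₀ A₁ a b
    rw [← intervalIntegral.integral_const_mul]
    apply intervalIntegral.integral_congr
    intro v _
    simp only
    rw [← intervalIntegral.integral_const_mul]
    apply intervalIntegral.integral_congr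
    intro v' _
    simp only
    ring
  rw [hmain, hWA] at hI1b
  rw [hmain, hWE, Nat.cast_zero, sub_zero] at hI2b
  rw [Nat.cast_zero] at hI2f
  obtain ⟨I3, hI3⟩ : ∃ I3, I3 = ∫ w in (g * (0 : ℝ))..(g * L), ∫ w' in (g * (0 : ℝ))..(g * L),
    Real.sign (w' - w) * (h (1 - w) - ∑ i ∈ range 4, co s' i * ((1 - (1 - w)) / g) ^ i) *
      (h' (1 - w') - ∑ i ∈ range 4, co s' i * ((1 - (1 - w')) / g) ^ i) := ⟨_, rfl⟩
  rw [← hI3] at hI2b hI2f
  -- numbers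
  have hSr : 1 ≤ |(S1 : ℝ) - S2| := by
    have : (1 : ℝ) ≤ ((|S1 - S2| : ℤ) : ℝ) := by exact_mod_cast hcyc
    rwa [Int.cast_abs, Int.cast_sub] at this
  obtain ⟨X, hX⟩ : ∃ X, X = g ^ 6 / (L : ℝ) ^ 2 := ⟨_, rfl⟩
  have hX0 : 0 < X := by rw [hX]; positivity
  have hK2p : 4000 ≤ K2 := by rw [hK2]; norm_num
  have hT : 1000 * X ≤ |g ^ 2 * (q ^ 2 * (K2 * ((S1 : ℝ) - S2)))| := by
    rw [abs_mul, abs_mul, abs_mul, abs_of_pos (by positivity : 0 < g ^ 2),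
      abs_of_pos (by positivity : 0 < q ^ 2), abs_of_pos (by linarith : (0 : ℝ) < K2)]
    have h1 : g ^ 2 / (2 * L) ≤ q := by
      rw [hq]
      apply div_le_div_of_nonneg_left (by positivity) (by linarith)
      linarith
    have h2 : (g ^ 2 / (2 * L)) ^ 2 ≤ q ^ 2 := pow_le_pow_left₀ (by positivity) h1 2
    have h3 : X = 4 * (g ^ 2 * (g ^ 2 / (2 * L)) ^ 2) := by
      rw [hX]
      field_simp
      ring
    rw [h3]
    calc 1000 * (4 * (g ^ 2 * (g ^ 2 / (2 * L)) ^ 2)) =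
        g ^ 2 * ((g ^ 2 / (2 * L)) ^ 2 * (4000 * 1)) := by ring
      _ ≤ g ^ 2 * (q ^ 2 * (K2 * |(S1 : ℝ) - S2|)) := by
          apply mul_le_mul_of_nonneg_left _ (by positivity)
          apply mul_le_mul h2 _ (by norm_num) (by positivity)
          exact mul_le_mul hK2p hSr (by norm_num) (by linarith)
  have e1 : 10 * g ^ 7 * (L : ℝ) ^ 60 ≤ 10 * X := by
    rw [hX, ← mul_div_assoc, le_div_iff₀ (by positivity)]
    have h1 := hpow 62 (by norm_num)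
    calc 10 * g ^ 7 * (L : ℝ) ^ 60 * L ^ 2 = 10 * g ^ 6 * (g * L ^ 62) := by ring
      _ ≤ 10 * g ^ 6 * 1 := mul_le_mul_of_nonneg_left h1 (by positivity)
      _ = 10 * g ^ 6 := by ring
  have e2 : g ^ 2 * (L : ℝ) ^ 2 * (3 * (g ^ 2 * L ^ 2) * (g ^ 3 * L ^ 15)) ≤ 3 * X := by
    rw [hX, ← mul_div_assoc, le_div_iff₀ (by positivity)]
    have h1 := hpow 21 (by norm_num)
    calc g ^ 2 * (L : ℝ) ^ 2 * (3 * (g ^ 2 * L ^ 2) * (g ^ 3 * L ^ 15)) * L ^ 2 =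
        3 * g ^ 6 * (g * L ^ 21) := by ring
      _ ≤ 3 * g ^ 6 * 1 := mul_le_mul_of_nonneg_left h1 (by positivity)
      _ = 3 * g ^ 6 := mul_one _
  have e3 : g ^ 2 * ((L : ℝ) - p) ^ 2 * (3 * (g ^ 2 * L ^ 2) * (g ^ 3 * L ^ 15)) ≤ 3 * X := by
    refine le_trans ?_ e2
    apply mul_le_mul_of_nonneg_right _ (by positivity)
    apply mul_le_mul_of_nonneg_left _ (by positivity)
    exact pow_le_pow_left₀ (by linarith) (by linarith) 2
  have hXL : g ^ 6 / (L : ℝ) ^ 4 ≤ X := by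
    rw [hX]
    apply div_le_div_of_nonneg_left (by positivity) (by positivity)
    exact pow_le_pow_right₀ hL1 (by norm_num)
  refine hXL.trans ?_
  obtain ⟨W, hW⟩ : ∃ W, W = WW h h' := ⟨_, rfl⟩
  rw [← hh, ← hh', ← hW]
  rw [← hW, hI2f] at key
  obtain ⟨T1, hT1⟩ : ∃ T1 : ℝ, T1 = g ^ 2 * (q ^ 2 * (K2 * (S1 : ℝ))) := ⟨_, rfl⟩
  obtain ⟨T2, hT2⟩ : ∃ T2 : ℝ, T2 = g ^ 2 * (q ^ 2 * (K2 * (S2 : ℝ))) := ⟨_, rfl⟩
  rw [← hT1] at hI1b
  rw [← hT2] at hI2b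
  have hTT : g ^ 2 * (q ^ 2 * (K2 * ((S1 : ℝ) - S2))) = T1 - T2 := by
    rw [hT1, hT2]
    ring
  rw [hTT] at hT
  have t2 : |T1 - T2| ≤ |W| + |W - I1 - -I3| + |I1 - T1| + |I3 - T2| := by
    have : T1 - T2 = W - (W - I1 - -I3) - (I1 - T1) + (I3 - T2) := by ring
    calc |T1 - T2| = |W - (W - I1 - -I3) - (I1 - T1) + (I3 - T2)| := congrArg _ this
      _ ≤ |W - (W - I1 - -I3) - (I1 - T1)| + |I3 - T2| := abs_add_le _ _
      _ ≤ |W - (W - I1 - -I3)| + |I1 - T1| + |I3 - T2| := by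
          have := abs_sub (W - (W - I1 - -I3)) (I1 - T1)
          linarith
      _ ≤ |W| + |W - I1 - -I3| + |I1 - T1| + |I3 - T2| := by
          have := abs_sub W (W - I1 - -I3)
          linarith
  linarith

end Pool.Agent.H34.RK
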