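import Pool.Agent.H34.RK.Stm2

/-! # Project RK, stub T4: satellites with different windows (helper4) -/

set_option autoImplicit false

open Finset MeasureTheory

namespace Pool.Agent.H34.RK

namespace T4

/-! ### The bilinear form -/

/-- measurable, and bounded on `[0, 1]` -/
def Bd (h : ℝ → ℝ) : Prop := Measurable h ∧ ∃ C : ℝ, ∀ z, 0 ≤ z → z ≤ 1 → |h z| ≤ C

/-- the `L¹` norm on `[0, 1]` -/
noncomputable def N (h : ℝ → ℝ) : ℝ := ∫ z in (0 : ℝ)..1, |h z|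

noncomputable abbrev mu : Measure ℝ := volume.restrict (Set.Ioc (0 : ℝ) 1)

lemma Bd.add {h k : ℝ → ℝ} (H : Bd h) (K : Bd k) : Bd (fun z => h z + k z) := by
  obtain ⟨hm, C, hC⟩ := H
  obtain ⟨km, D, hD⟩ := K
  refine ⟨hm.add km, C + D, fun z h0 h1 => (abs_add_le _ _).trans (add_le_add (hC z h0 h1) (hD z h0 h1))⟩

lemma Bd.neg {h : ℝ → ℝ} (H : Bd h) : Bd (fun z => -h z) := by
  obtain ⟨hm, C, hC⟩ := H
  refine ⟨hm.neg, C, fun z h0 h1 => by rw [abs_neg]; exact hC z h0 h1⟩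

lemma Bd.sub {h k : ℝ → ℝ} (H : Bd h) (K : Bd k) : Bd (fun z => h z - k z) := by
  have := H.add K.neg
  simpa [sub_eq_add_neg] using this

lemma Bd.mul {h k : ℝ → ℝ} (H : Bd h) (K : Bd k) : Bd (fun z => h z * k z) := by
  obtain ⟨hm, C, hC⟩ := H
  obtain ⟨km, D, hD⟩ := K
  refine ⟨hm.mul km, C * D, fun z h0 h1 => ?_⟩
  rw [abs_mul]
  exact mul_le_mul (hC z h0 h1) (hD z h0 h1) (abs_nonneg _) ((abs_nonneg _).trans (hC z h0 h1))

lemma Bd.of_cont {h : ℝ → ℝ} (H : Continuous h) : Bd h := by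
  obtain ⟨C, hC⟩ := (isCompact_Icc (a := (0 : ℝ)) (b := 1)).exists_bound_of_continuousOn H.continuousOn
  exact ⟨H.measurable, C, fun z h0 h1 => by simpa using hC z ⟨h0, h1⟩⟩

lemma Bd.ii {h : ℝ → ℝ} (H : Bd h) {a b : ℝ} (ha : 0 ≤ a) (hab : a ≤ b) (hb : b ≤ 1) : IntervalIntegrable h volume a b := by
  obtain ⟨hm, C, hC⟩ := H
  rw [intervalIntegrable_iff_integrableOn_Ioc_of_le hab]
  refine Measure.integrableOn_of_bounded (M := C) (by simp) hm.aestronglyMeasurable ?_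
  filter_upwards [ae_restrict_mem measurableSet_Ioc] with z hz
  exact hC z (ha.trans hz.1.le) (hz.2.trans hb)

lemma Bd.ii1 {h : ℝ → ℝ} (H : Bd h) : IntervalIntegrable h volume 0 1 := H.ii le_rfl zero_le_one le_rfl

lemma meas_sign : Measurable Real.sign := by
  unfold Real.sign
  exact Measurable.ite measurableSet_Iio measurable_const
    (Measurable.ite measurableSet_Ioi measurable_const measurable_const)

lemma abs_sign (x : ℝ) : |Real.sign x| ≤ 1 := by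
  rcases lt_trichotomy x 0 with h | h | h
  · rw [Real.sign_of_neg h]; simp
  · rw [h, Real.sign_zero]; simp
  · rw [Real.sign_of_pos h]; simp

lemma ae_sq : ∀ᵐ p : ℝ × ℝ ∂(mu.prod mu), (0 ≤ p.1 ∧ p.1 ≤ 1) ∧ 0 ≤ p.2 ∧ p.2 ≤ 1 := by
  rw [Measure.prod_restrict]
  filter_upwards [ae_restrict_mem (measurableSet_Ioc.prod measurableSet_Ioc)] with p hp
  exact ⟨⟨hp.1.1.le, hp.1.2⟩, hp.2.1.le, hp.2.2⟩

lemma Bd.int2 {h h' : ℝ → ℝ} (H : Bd h) (H' : Bd h') :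
    Integrable (fun p : ℝ × ℝ => Real.sign (p.2 - p.1) * h p.1 * h' p.2) (mu.prod mu) := by
  obtain ⟨hm, C, hC⟩ := H
  obtain ⟨hm', C', hC'⟩ := H'
  refine Integrable.of_bound (C := C * C') (Measurable.aestronglyMeasurable ?_) ?_
  · exact ((meas_sign.comp (measurable_snd.sub measurable_fst)).mul (hm.comp measurable_fst)).mul
      (hm'.comp measurable_snd)
  · filter_upwards [ae_sq] with p hp
    rw [Real.norm_eq_abs, abs_mul, abs_mul]
    have h1 := hC p.1 hp.1.1 hp.1.2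
    have h2 := hC' p.2 hp.2.1 hp.2.2
    have h3 : |Real.sign (p.2 - p.1)| * |h p.1| ≤ C := by
      calc |Real.sign (p.2 - p.1)| * |h p.1| ≤ 1 * |h p.1| :=
            mul_le_mul_of_nonneg_right (abs_sign _) (abs_nonneg _)
        _ ≤ C := by rw [one_mul]; exact h1
    exact mul_le_mul h3 h2 (abs_nonneg _) ((abs_nonneg _).trans h1)

lemma WW_prod {h h' : ℝ → ℝ} (H : Bd h) (H' : Bd h') :
    WW h h' = ∫ p : ℝ × ℝ, Real.sign (p.2 - p.1) * h p.1 * h' p.2 ∂(mu.prod mu) := by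
  rw [integral_prod _ (H.int2 H')]
  unfold WW
  rw [intervalIntegral.integral_of_le zero_le_one]
  simp_rw [intervalIntegral.integral_of_le (zero_le_one (α := ℝ))]

lemma WW_add_left {h k h' : ℝ → ℝ} (H : Bd h) (K : Bd k) (H' : Bd h') :
    WW (fun z => h z + k z) h' = WW h h' + WW k h' := by
  rw [WW_prod (H.add K) H', WW_prod H H', WW_prod K H', ← integral_add (H.int2 H') (K.int2 H')]
  congr 1
  funext p
  ring

lemma WW_anti {h h' : ℝ → ℝ} (H : Bd h) (H' : Bd h') : WW h h' = -WW h' h := by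
  rw [WW_prod H H', WW_prod H' H, ← integral_neg, ← integral_prod_swap]
  congr 1
  funext p
  simp only [Prod.fst_swap, Prod.snd_swap]
  rw [← neg_sub p.2 p.1, Real.sign_neg]
  ring

lemma WW_self {h : ℝ → ℝ} (H : Bd h) : WW h h = 0 := by
  have := WW_anti H H
  linarith

lemma WW_add_right {h h' k' : ℝ → ℝ} (H : Bd h) (H' : Bd h') (K' : Bd k') :
    WW h (fun z => h' z + k' z) = WW h h' + WW h k' := by
  rw [WW_anti H (H'.add K'), WW_add_left H' K' H, WW_anti H H', WW_anti H K']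
  ring

lemma WW_congr {h k h' k' : ℝ → ℝ} (e : ∀ z, h z = k z) (e' : ∀ z, h' z = k' z) : WW h h' = WW k k' := by
  rw [funext e, funext e']

lemma WW_le {h h' : ℝ → ℝ} (H : Bd h) (H' : Bd h') : |WW h h'| ≤ N h * N h' := by
  rw [WW_prod H H', ← Real.norm_eq_abs]
  refine (norm_integral_le_integral_norm _).trans ?_
  unfold N
  rw [intervalIntegral.integral_of_le zero_le_one, intervalIntegral.integral_of_le zero_le_one,
    ← integral_prod_mul (μ := mu) (ν := mu) (fun z => |h z|) (fun z => |h' z|)]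
  refine integral_mono (H.int2 H').norm ?_ fun p => ?_
  · have a1 : Integrable (fun z => |h z|) mu := by
      have := H.ii1
      rw [intervalIntegrable_iff_integrableOn_Ioc_of_le zero_le_one] at this
      exact this.abs
    have a2 : Integrable (fun z => |h' z|) mu := by
      have := H'.ii1
      rw [intervalIntegrable_iff_integrableOn_Ioc_of_le zero_le_one] at this
      exact this.abs
    exact a1.mul_prod a2
  · simp only [Real.norm_eq_abs, abs_mul]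
    have h1 := abs_sign (p.2 - p.1)
    have h2 : |Real.sign (p.2 - p.1)| * |h p.1| ≤ 1 * |h p.1| := mul_le_mul_of_nonneg_right h1 (abs_nonneg _)
    rw [one_mul] at h2
    exact mul_le_mul_of_nonneg_right h2 (abs_nonneg _)

lemma N_nonneg (h : ℝ → ℝ) : 0 ≤ N h := intervalIntegral.integral_nonneg zero_le_one fun _ _ => abs_nonneg _

lemma N_add {h k : ℝ → ℝ} (H : Bd h) (K : Bd k) : N (fun z => h z + k z) ≤ N h + N k := by
  unfold N
  rw [← intervalIntegral.integral_add H.ii1.abs K.ii1.abs]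
  exact intervalIntegral.integral_mono_on zero_le_one (H.add K).ii1.abs (H.ii1.abs.add K.ii1.abs)
    fun z _ => abs_add_le _ _

lemma N_le {h : ℝ → ℝ} (H : Bd h) {C : ℝ} (hC : ∀ z, 0 ≤ z → z ≤ 1 → |h z| ≤ C) : N h ≤ C := by
  unfold N
  calc ∫ z in (0 : ℝ)..1, |h z| ≤ ∫ _z in (0 : ℝ)..1, C :=
        intervalIntegral.integral_mono_on zero_le_one H.ii1.abs (by simp) fun z hz => hC z hz.1 hz.2
    _ = C := by simp

/-- against a continuous function -/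
lemma WW_cont {X k : ℝ → ℝ} (hk : Continuous k) :
    WW X k = ∫ z in (0 : ℝ)..1, X z * ((∫ t in (0 : ℝ)..1, k t) - 2 * ∫ t in (0 : ℝ)..z, k t) := by
  unfold WW
  refine intervalIntegral.integral_congr fun z hz => ?_
  rw [Set.uIcc_of_le zero_le_one] at hz
  have e1 : ∫ z' in (0 : ℝ)..z, Real.sign (z' - z) * X z * k z' = ∫ z' in (0 : ℝ)..z, -X z * k z' := by
    refine intervalIntegral.integral_congr_Ioo_of_le hz.1 fun t ht => ?_
    rw [Real.sign_of_neg (by linarith [ht.2])]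
    ring
  have e2 : ∫ z' in z..1, Real.sign (z' - z) * X z * k z' = ∫ z' in z..1, X z * k z' := by
    refine intervalIntegral.integral_congr_Ioo_of_le hz.2 fun t ht => ?_
    rw [Real.sign_of_pos (by linarith [ht.1])]
    ring
  have m : Measurable fun z' => Real.sign (z' - z) * X z * k z' :=
    ((meas_sign.comp (measurable_id.sub_const z)).mul_const _).mul hk.measurable
  have B : Bd fun z' => Real.sign (z' - z) * X z * k z' := by
    obtain ⟨_, C, hC⟩ := Bd.of_cont hk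
    refine ⟨m, 1 * |X z| * C, fun t h0 h1 => ?_⟩
    rw [abs_mul, abs_mul]
    exact mul_le_mul (mul_le_mul_of_nonneg_right (abs_sign _) (abs_nonneg _)) (hC t h0 h1) (abs_nonneg _)
      (by positivity)
  rw [← intervalIntegral.integral_add_adjacent_intervals (B.ii le_rfl hz.1 hz.2) (B.ii hz.1 hz.2 le_rfl), e1, e2,
    intervalIntegral.integral_const_mul, intervalIntegral.integral_const_mul,
    ← intervalIntegral.integral_add_adjacent_intervals (hk.intervalIntegrable 0 z) (hk.intervalIntegrable z 1)]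
  ring

/-- a window -/
lemma win {f : ℝ → ℝ} {a b : ℝ} (ha : 0 ≤ a) (hab : a ≤ b) (hb : b ≤ 1) :
    ∫ z in (0 : ℝ)..1, (if a ≤ z ∧ z ≤ b then f z else 0) = ∫ z in a..b, f z := by
  have e1 : (fun z => if a ≤ z ∧ z ≤ b then f z else 0) = (Set.Icc a b).indicator f := by
    funext z
    rw [Set.indicator_apply]
    rfl
  rw [e1, intervalIntegral.integral_of_le zero_le_one, intervalIntegral.integral_of_le hab,
    setIntegral_indicator measurableSet_Icc]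
  refine setIntegral_congr_set ?_
  have e2 : Set.Ioc a b = Set.Ioc 0 1 ∩ Set.Ioc a b :=
    (Set.inter_eq_right.2 (Set.Ioc_subset_Ioc ha hb)).symm
  rw [e2]
  exact (ae_eq_set_inter (Filter.EventuallyEq.refl _ _) Ioc_ae_eq_Icc).symm

/-! ### The main terms -/

noncomputable def k0 (M : ℕ) (z : ℝ) : ℝ := (1 - z ^ (M + 2) - (1 - z) ^ (M + 2)) / (((M : ℝ) + 1) * (M + 2))

noncomputable def F (M : ℕ) (z : ℝ) : ℝ :=
  (z - (z ^ (M + 3) + 1 - (1 - z) ^ (M + 3)) / (M + 3)) / (((M : ℝ) + 1) * (M + 2))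

noncomputable def aa (M : ℕ) (z : ℝ) : ℝ := (1 - z ^ M) / M

noncomputable def K0 (M : ℕ) : ℝ := 1 / (((M : ℝ) + 2) * (M + 3))

noncomputable def Ph (M : ℕ) (z : ℝ) : ℝ := 2 * F M z - K0 M

lemma k0_cont (M : ℕ) : Continuous (k0 M) := by unfold k0; fun_prop
lemma F_cont (M : ℕ) : Continuous (F M) := by unfold F; fun_prop
lemma aa_cont (M : ℕ) : Continuous (aa M) := by unfold aa; fun_prop
lemma Ph_cont (M : ℕ) : Continuous (Ph M) := by
  unfold Ph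
  exact (continuous_const.mul (F_cont M)).sub continuous_const

lemma k0_eq (M : ℕ) (z : ℝ) : (∫ x in (0 : ℝ)..z, ∫ y in z..1, (y - x) ^ M) = k0 M z := by
  have e1 : ∀ x : ℝ, ∫ y in z..1, (y - x) ^ M = ((1 - x) ^ (M + 1) - (z - x) ^ (M + 1)) / (M + 1) := by
    intro x
    rw [intervalIntegral.integral_comp_sub_right (fun u => u ^ M) x, integral_pow]
  simp_rw [e1]
  rw [intervalIntegral.integral_div, intervalIntegral.integral_sub
    ((by fun_prop : Continuous fun x : ℝ => (1 - x) ^ (M + 1)).intervalIntegrable _ _)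
    ((by fun_prop : Continuous fun x : ℝ => (z - x) ^ (M + 1)).intervalIntegrable _ _),
    intervalIntegral.integral_comp_sub_left (fun u => u ^ (M + 1)) 1,
    intervalIntegral.integral_comp_sub_left (fun u => u ^ (M + 1)) z, integral_pow, integral_pow]
  unfold k0
  have h1 : (M : ℝ) + 1 ≠ 0 := by positivity
  have h2 : (M : ℝ) + 2 ≠ 0 := by positivity
  have h3 : (M : ℝ) + 1 + 1 = M + 2 := by ring
  push_cast
  simp only [sub_zero, sub_self, one_pow, h3]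
  rw [zero_pow (by omega)]
  field_simp
  ring

lemma F_deriv (M : ℕ) (z : ℝ) : HasDerivAt (F M) (k0 M z) z := by
  have h1 : HasDerivAt (fun z : ℝ => z ^ (M + 3)) (((M + 3 : ℕ) : ℝ) * z ^ (M + 2)) z := by
    simpa using hasDerivAt_pow (M + 3) z
  have h2 : HasDerivAt (fun z : ℝ => (1 - z) ^ (M + 3)) (((M + 3 : ℕ) : ℝ) * (1 - z) ^ (M + 2) * (-1)) z := by
    have h3 : HasDerivAt (fun z : ℝ => 1 - z) (-1) z := by simpa using (hasDerivAt_id z).const_sub 1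
    simpa using h3.fun_pow (M + 3)
  have h4 := ((hasDerivAt_id z).sub (((h1.add_const (1 : ℝ)).sub h2).div_const ((M : ℝ) + 3))).div_const (((M : ℝ) + 1) * (M + 2))
  have h5 : (M : ℝ) + 3 ≠ 0 := by positivity
  convert! h4 using 1
  unfold k0
  push_cast
  field_simp
  ring

lemma F_int (M : ℕ) (a b : ℝ) : ∫ t in a..b, k0 M t = F M b - F M a :=
  intervalIntegral.integral_eq_sub_of_hasDerivAt (fun t _ => F_deriv M t) ((k0_cont M).intervalIntegrable _ _)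

lemma F_zero (M : ℕ) : F M 0 = 0 := by
  unfold F
  rw [zero_pow (by omega)]
  simp

lemma F_symm (M : ℕ) (z : ℝ) : F M (1 - z) = K0 M - F M z := by
  unfold F K0
  have h1 : (M : ℝ) + 1 ≠ 0 := by positivity
  have h2 : (M : ℝ) + 2 ≠ 0 := by positivity
  have h3 : (M : ℝ) + 3 ≠ 0 := by positivity
  rw [sub_sub_cancel]
  field_simp
  ring

lemma F_one (M : ℕ) : F M 1 = K0 M := by
  have := F_symm M 0
  rwa [F_zero, sub_zero, sub_zero] at this

lemma Ph_symm (M : ℕ) (z : ℝ) : Ph M (1 - z) = -Ph M z := by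
  unfold Ph
  rw [F_symm]
  ring

lemma pw_upper (n : ℕ) {z : ℝ} (h0 : 0 ≤ z) (h1 : z ≤ 1) : (1 - z) ^ n ≤ 1 - n * z + n * (n - 1) / 2 * z ^ 2 := by
  induction n with
  | zero => simp
  | succ n ih =>
    have h2 := mul_le_mul_of_nonneg_right ih (by linarith : 0 ≤ 1 - z)
    rw [pow_succ]
    refine h2.trans ?_
    have h3 : (0 : ℝ) ≤ n * (n - 1) / 2 * z ^ 3 := by
      rcases Nat.eq_zero_or_pos n with h | h
      · subst h; simp
      · have : (1 : ℝ) ≤ n := by exact_mod_cast h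
        have h4 : (0 : ℝ) ≤ n - 1 := by linarith
        positivity
    push_cast
    nlinarith

lemma k0_nonneg (M : ℕ) {z : ℝ} (h0 : 0 ≤ z) (h1 : z ≤ 1) : 0 ≤ k0 M z := by
  unfold k0
  refine div_nonneg ?_ (by positivity)
  have h2 : z ^ (M + 2) ≤ z := pow_le_of_le_one h0 h1 (by omega)
  have h3 : (1 - z) ^ (M + 2) ≤ 1 - z := pow_le_of_le_one (by linarith) (by linarith) (by omega)
  linarith

lemma k0_le (M : ℕ) {z : ℝ} (h0 : 0 ≤ z) (h1 : z ≤ 1) : k0 M z ≤ z := by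
  unfold k0
  have h2 : 1 + ((M + 2 : ℕ) : ℝ) * (-z) ≤ (1 + (-z)) ^ (M + 2) := one_add_mul_le_pow (by linarith) (M + 2)
  have h3 : (1 + (-z)) ^ (M + 2) = (1 - z) ^ (M + 2) := by ring
  rw [h3] at h2
  push_cast at h2
  have h4 : 0 ≤ z ^ (M + 2) := by positivity
  rw [div_le_iff₀ (by positivity)]
  have h5 : 0 ≤ (M : ℝ) := by positivity
  nlinarith [mul_nonneg h5 h0, mul_nonneg (mul_nonneg h5 h5) h0]

lemma k0_ge (M : ℕ) {z : ℝ} (h0 : 0 ≤ z) (h1 : z ≤ 1) : z / (M + 1) - z ^ 2 ≤ k0 M z := by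
  unfold k0
  have h2 := pw_upper (M + 2) h0 h1
  have h3 : z ^ (M + 2) ≤ z ^ 2 := pow_le_pow_of_le_one h0 h1 (by omega)
  rw [le_div_iff₀ (by positivity)]
  have h4 : (M : ℝ) + 1 ≠ 0 := by positivity
  have h5 : (z / (M + 1) - z ^ 2) * (((M : ℝ) + 1) * (M + 2)) = (M + 2) * z - (M + 1) * (M + 2) * z ^ 2 := by
    field_simp
  rw [h5]
  push_cast at h2
  have h6 : 0 ≤ (M : ℝ) := by positivity
  have h7 : 0 ≤ z ^ 2 := by positivity
  nlinarith [mul_nonneg h6 h7, mul_nonneg (mul_nonneg h6 h6) h7]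

lemma F_mono (M : ℕ) {x y : ℝ} (h0 : 0 ≤ x) (hxy : x ≤ y) (h1 : y ≤ 1) : F M x ≤ F M y := by
  have h2 := F_int M x y
  have h3 : 0 ≤ ∫ t in x..y, k0 M t :=
    intervalIntegral.integral_nonneg hxy fun t ht => k0_nonneg M (h0.trans ht.1) (ht.2.trans h1)
  linarith

lemma F_nonneg (M : ℕ) {z : ℝ} (h0 : 0 ≤ z) (h1 : z ≤ 1) : 0 ≤ F M z := by
  have := F_mono M le_rfl h0 h1
  rwa [F_zero] at this

lemma F_le (M : ℕ) {z : ℝ} (h0 : 0 ≤ z) (h1 : z ≤ 1) : F M z ≤ z ^ 2 / 2 := by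
  have h2 := F_int M 0 z
  rw [F_zero, sub_zero] at h2
  rw [← h2]
  calc ∫ t in (0 : ℝ)..z, k0 M t ≤ ∫ t in (0 : ℝ)..z, t :=
        intervalIntegral.integral_mono_on h0 ((k0_cont M).intervalIntegrable _ _) (by simp)
          fun t ht => k0_le M ht.1 (ht.2.trans h1)
    _ = z ^ 2 / 2 := by rw [integral_id]; ring

lemma F_leK (M : ℕ) {z : ℝ} (h0 : 0 ≤ z) (h1 : z ≤ 1) : F M z ≤ K0 M := by
  rw [← F_one]
  exact F_mono M h0 h1 le_rfl

lemma F_ge (M : ℕ) {x y : ℝ} (h0 : 0 ≤ x) (hxy : x ≤ y) (h1 : y ≤ 1) :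
    (y ^ 2 - x ^ 2) / (2 * (M + 1)) - y ^ 3 / 3 ≤ F M y - F M x := by
  rw [← F_int]
  have h2 : ∫ t in x..y, (t / ((M : ℝ) + 1) - t ^ 2) ≤ ∫ t in x..y, k0 M t :=
    intervalIntegral.integral_mono_on hxy
      ((by fun_prop : Continuous fun t : ℝ => t / ((M : ℝ) + 1) - t ^ 2).intervalIntegrable _ _)
      ((k0_cont M).intervalIntegrable _ _) fun t ht => k0_ge M (h0.trans ht.1) (ht.2.trans h1)
  have h3 : ∫ t in x..y, (t / ((M : ℝ) + 1) - t ^ 2) = (y ^ 2 - x ^ 2) / (2 * (M + 1)) - (y ^ 3 - x ^ 3) / 3 := by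
    rw [intervalIntegral.integral_sub
      ((by fun_prop : Continuous fun t : ℝ => t / ((M : ℝ) + 1)).intervalIntegrable _ _)
      ((by fun_prop : Continuous fun t : ℝ => t ^ 2).intervalIntegrable _ _), intervalIntegral.integral_div,
      integral_id, integral_pow]
    have h4 : (M : ℝ) + 1 ≠ 0 := by positivity
    push_cast
    field_simp
    ring
  rw [h3] at h2
  have h5 : 0 ≤ x ^ 3 := by positivity
  linarith

lemma Ph_abs (M : ℕ) {z : ℝ} (h0 : 0 ≤ z) (h1 : z ≤ 1) : |Ph M z| ≤ K0 M := by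
  unfold Ph
  have h2 := F_nonneg M h0 h1
  have h3 := F_leK M h0 h1
  rw [abs_le]
  constructor <;> linarith

lemma Ph_int (M : ℕ) (a b : ℝ) : ∫ t in a..b, k0 M t * Ph M t = (Ph M b ^ 2 - Ph M a ^ 2) / 4 := by
  have h1 : ∀ t : ℝ, HasDerivAt (fun t => Ph M t ^ 2 / 4) (k0 M t * Ph M t) t := by
    intro t
    have h2 : HasDerivAt (Ph M) (2 * k0 M t) t := by
      unfold Ph
      exact ((F_deriv M t).const_mul 2).sub_const _
    have h3 := (h2.fun_pow 2).div_const 4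
    convert! h3 using 1
    push_cast
    ring
  rw [intervalIntegral.integral_eq_sub_of_hasDerivAt (fun t _ => h1 t)
    (((k0_cont M).mul (Ph_cont M)).intervalIntegrable _ _)]
  ring

lemma WW_k0 (M : ℕ) {X : ℝ → ℝ} (hX : Bd X) : WW (k0 M) X = ∫ z in (0 : ℝ)..1, X z * Ph M z := by
  rw [WW_anti (Bd.of_cont (k0_cont M)) hX, WW_cont (k0_cont M), ← intervalIntegral.integral_neg]
  refine intervalIntegral.integral_congr fun z _ => ?_
  rw [F_int, F_int, F_zero, F_one]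
  unfold Ph
  ring

lemma Ph_int0 (M : ℕ) : ∫ z in (0 : ℝ)..1, Ph M z = 0 := by
  have h1 := intervalIntegral.integral_comp_sub_left (a := 0) (b := 1) (fun z => Ph M z) (1 : ℝ)
  simp only [Ph_symm, intervalIntegral.integral_neg, sub_self, sub_zero] at h1
  linarith

/-- the integral of `aa` against `Ph` -/
noncomputable def Aq (M : ℕ) : ℝ := ∫ z in (0 : ℝ)..1, aa M z * Ph M z

lemma Aq_symm (M : ℕ) : ∫ z in (0 : ℝ)..1, aa M (1 - z) * Ph M z = -Aq M := by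
  have h1 := intervalIntegral.integral_comp_sub_left (a := 0) (b := 1) (fun z => aa M (1 - z) * Ph M z) (1 : ℝ)
  simp only [Ph_symm, sub_self, sub_zero, sub_sub_cancel, mul_neg, intervalIntegral.integral_neg] at h1
  unfold Aq
  linarith

lemma Aq_ge {M : ℕ} (hM : 1 ≤ M) : -(K0 M / (M * (M + 1))) ≤ Aq M := by
  have hM' : (0 : ℝ) < M := by exact_mod_cast hM
  have c1 : Continuous fun z : ℝ => z ^ M * Ph M z := (continuous_pow M).mul (Ph_cont M)
  have h1 : Aq M = -(∫ z in (0 : ℝ)..1, z ^ M * Ph M z) / M := by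
    have h2 : Aq M = (∫ z in (0 : ℝ)..1, (Ph M z - z ^ M * Ph M z)) / M := by
      unfold Aq
      rw [← intervalIntegral.integral_div]
      refine intervalIntegral.integral_congr fun z _ => ?_
      unfold aa
      field_simp
    rw [h2, intervalIntegral.integral_sub ((Ph_cont M).intervalIntegrable _ _)
      (c1.intervalIntegrable _ _), Ph_int0, zero_sub]
  have h3 : ∫ z in (0 : ℝ)..1, z ^ M * Ph M z ≤ ∫ z in (0 : ℝ)..1, z ^ M * K0 M := by
    refine intervalIntegral.integral_mono_on zero_le_one (((continuous_pow M).mul (Ph_cont M)).intervalIntegrable _ _)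
      (((continuous_pow M).mul continuous_const).intervalIntegrable _ _) fun z hz => ?_
    exact mul_le_mul_of_nonneg_left ((le_abs_self _).trans (Ph_abs M hz.1 hz.2)) (pow_nonneg hz.1 _)
  rw [intervalIntegral.integral_mul_const, integral_pow] at h3
  have h4 : ((1 : ℝ) ^ (M + 1) - 0 ^ (M + 1)) / (M + 1) * K0 M = K0 M / (M + 1) := by
    rw [zero_pow (by omega), one_pow]
    ring
  rw [h4] at h3
  rw [h1, neg_div, neg_le_neg_iff]
  calc (∫ z in (0 : ℝ)..1, z ^ M * Ph M z) / M ≤ K0 M / (M + 1) / M := div_le_div_of_nonneg_right h3 hM'.le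
    _ = K0 M / (M * (M + 1)) := by rw [div_div]; ring

lemma aa_bd (M : ℕ) {z : ℝ} (h0 : 0 ≤ z) (h1 : z ≤ 1) : 0 ≤ aa M z ∧ aa M z ≤ 1 / M := by
  unfold aa
  have h2 : z ^ M ≤ 1 := pow_le_one₀ h0 h1
  have h3 : 0 ≤ z ^ M := by positivity
  exact ⟨div_nonneg (by linarith) (by positivity), div_le_div_of_nonneg_right (by linarith) (by positivity)⟩

/-! ### Assembly -/

/-- the windowed density -/
noncomputable def mm (g : ℝ) (M p q : ℕ) (z : ℝ) : ℝ := if g * p ≤ z ∧ z ≤ 1 - g * q then k0 M z else 0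

lemma mm_bd (g : ℝ) (M p q : ℕ) : Bd (mm g M p q) := by
  obtain ⟨hm, C, hC⟩ := Bd.of_cont (k0_cont M)
  refine ⟨Measurable.ite (measurableSet_Icc (a := g * (p : ℝ)) (b := 1 - g * q)) hm measurable_const, C, fun z h0 h1 => ?_⟩
  unfold mm
  split_ifs
  · exact hC z h0 h1
  · simpa using (abs_nonneg _).trans (hC z h0 h1)

/-- the integral of the windowed density against `Ph` -/
lemma mm_Ph {g : ℝ} {L p q M : ℕ} (hg : 0 < g) (hgL : g * L ≤ 1 / 2) (hp : p ≤ L) (hq : q ≤ L) :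
    ∫ z in (0 : ℝ)..1, mm g M p q z * Ph M z = (Ph M (g * q) ^ 2 - Ph M (g * p) ^ 2) / 4 := by
  have hp' : (p : ℝ) ≤ L := by exact_mod_cast hp
  have hq' : (q : ℝ) ≤ L := by exact_mod_cast hq
  have hp0 : (0 : ℝ) ≤ p := by positivity
  have hq0 : (0 : ℝ) ≤ q := by positivity
  have h1 : g * p ≤ 1 / 2 := (mul_le_mul_of_nonneg_left hp' hg.le).trans hgL
  have h2 : g * q ≤ 1 / 2 := (mul_le_mul_of_nonneg_left hq' hg.le).trans hgL
  have h3 : 0 ≤ g * p := by positivity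
  have h4 : 0 ≤ g * q := by positivity
  have e1 : ∀ z, mm g M p q z * Ph M z = if g * p ≤ z ∧ z ≤ 1 - g * q then k0 M z * Ph M z else 0 := by
    intro z
    unfold mm
    split_ifs <;> simp
  simp_rw [e1]
  rw [win h3 (by linarith) (by linarith), Ph_int, Ph_symm]
  ring

lemma mm_N {g : ℝ} {L p q M : ℕ} (hg : 0 < g) (hgL : g * L ≤ 1 / 2) (hp : p ≤ L) (hq : q ≤ L) :
    N (fun z => mm g M p q z - k0 M z) ≤ g ^ 2 * L ^ 2 := by
  have hp' : (p : ℝ) ≤ L := by exact_mod_cast hp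
  have hq' : (q : ℝ) ≤ L := by exact_mod_cast hq
  have hp0 : (0 : ℝ) ≤ p := by positivity
  have hq0 : (0 : ℝ) ≤ q := by positivity
  have h1 : g * p ≤ g * L := mul_le_mul_of_nonneg_left hp' hg.le
  have h2 : g * q ≤ g * L := mul_le_mul_of_nonneg_left hq' hg.le
  have h3 : 0 ≤ g * p := by positivity
  have h4 : 0 ≤ g * q := by positivity
  have e1 : N (fun z => mm g M p q z - k0 M z) = (∫ z in (0 : ℝ)..1, k0 M z) - ∫ z in (0 : ℝ)..1, mm g M p q z := by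
    unfold N
    rw [← intervalIntegral.integral_sub ((k0_cont M).intervalIntegrable _ _) (mm_bd g M p q).ii1]
    refine intervalIntegral.integral_congr fun z hz => ?_
    rw [Set.uIcc_of_le zero_le_one] at hz
    have h5 := k0_nonneg M hz.1 hz.2
    by_cases hw : g * p ≤ z ∧ z ≤ 1 - g * q
    · simp [mm, hw]
    · simp [mm, hw, abs_of_nonneg h5]
  have e2 : ∫ z in (0 : ℝ)..1, mm g M p q z = ∫ z in (g * p)..(1 - g * q), k0 M z := by
    unfold mm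
    exact win h3 (by linarith) (by linarith)
  rw [e1, e2, F_int, F_int, F_zero, F_one, F_symm]
  have h5 := F_le M h3 (by linarith)
  have h6 := F_le M h4 (by linarith)
  have h7 : (g * p) ^ 2 ≤ (g * L) ^ 2 := by gcongr
  have h8 : (g * q) ^ 2 ≤ (g * L) ^ 2 := by gcongr
  have h9 : (g * (L : ℝ)) ^ 2 = g ^ 2 * L ^ 2 := by ring
  linarith

/-- combinations of `aa z` and `aa (1 - z)` -/
noncomputable def EE (M : ℕ) (g s t : ℝ) (z : ℝ) : ℝ := g ^ 2 / 2 * s * aa M z + g ^ 2 / 2 * t * aa M (1 - z)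

lemma EE_cont (M : ℕ) (g s t : ℝ) : Continuous (EE M g s t) := by
  unfold EE
  have h1 := aa_cont M
  exact (continuous_const.mul h1).add (continuous_const.mul (h1.comp (by fun_prop)))

lemma EE_N {M : ℕ} (hM : 1 ≤ M) {g s t : ℝ} (hs : 0 ≤ s) (ht : 0 ≤ t) : N (EE M g s t) ≤ g ^ 2 * (s + t) / (2 * M) := by
  have hM' : (0 : ℝ) < M := by exact_mod_cast hM
  refine N_le (Bd.of_cont (EE_cont M g s t)) fun z h0 h1 => ?_
  have h2 := aa_bd M h0 h1
  have h3 := aa_bd M (z := 1 - z) (by linarith) (by linarith)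
  have h4 : 0 ≤ EE M g s t z := by
    unfold EE
    have := h2.1
    have := h3.1
    positivity
  rw [abs_of_nonneg h4]
  unfold EE
  have h5 : g ^ 2 / 2 * s * aa M z ≤ g ^ 2 / 2 * s * (1 / M) := mul_le_mul_of_nonneg_left h2.2 (by positivity)
  have h6 : g ^ 2 / 2 * t * aa M (1 - z) ≤ g ^ 2 / 2 * t * (1 / M) := mul_le_mul_of_nonneg_left h3.2 (by positivity)
  have h7 : g ^ 2 / 2 * s * (1 / M) + g ^ 2 / 2 * t * (1 / M) = g ^ 2 * (s + t) / (2 * M) := by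
    field_simp
  linarith

lemma EE_Ph (M : ℕ) (g s t : ℝ) : ∫ z in (0 : ℝ)..1, EE M g s t z * Ph M z = g ^ 2 / 2 * (s - t) * Aq M := by
  have h1 := aa_cont M
  have h2 := Ph_cont M
  have c1 : Continuous fun z => g ^ 2 / 2 * s * (aa M z * Ph M z) := continuous_const.mul (h1.mul h2)
  have c2 : Continuous fun z => g ^ 2 / 2 * t * (aa M (1 - z) * Ph M z) :=
    continuous_const.mul ((h1.comp (by fun_prop : Continuous fun z : ℝ => 1 - z)).mul h2)
  have e1 : ∀ z, EE M g s t z * Ph M z = g ^ 2 / 2 * s * (aa M z * Ph M z) + g ^ 2 / 2 * t * (aa M (1 - z) * Ph M z) := by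
    intro z
    unfold EE
    ring
  simp_rw [e1]
  rw [intervalIntegral.integral_add (c1.intervalIntegrable _ _) (c2.intervalIntegrable _ _),
    intervalIntegral.integral_const_mul, intervalIntegral.integral_const_mul, Aq_symm]
  unfold Aq
  ring

/-- difference of the squares of `Ph` -/
lemma Ph_sq (M : ℕ) {x y : ℝ} (h0 : 0 ≤ x) (hxy : x ≤ y) (h1 : y ≤ 1) :
    K0 M * ((y ^ 2 - x ^ 2) / (2 * (M + 1)) - y ^ 3 / 3) - y ^ 4 ≤ (Ph M x ^ 2 - Ph M y ^ 2) / 4 := by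
  have e1 : (Ph M x ^ 2 - Ph M y ^ 2) / 4 = (F M y - F M x) * (K0 M - F M x - F M y) := by
    unfold Ph; ring
  rw [e1]
  have h2 := F_ge M h0 hxy h1
  have h3 := F_mono M h0 hxy h1
  have h4 := F_le M (h0.trans hxy) h1
  have h5 := F_nonneg M h0 (hxy.trans h1)
  have hK : 0 < K0 M := by unfold K0; positivity
  have h6 : (F M y - F M x) * (F M x + F M y) ≤ (y ^ 2 / 2) * (y ^ 2 / 2 + y ^ 2 / 2) :=
    mul_le_mul (by linarith) (by linarith) (by linarith) (by positivity)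
  have h7 := mul_le_mul_of_nonneg_left h2 hK.le
  have h8 : 0 ≤ y ^ 4 := by positivity
  nlinarith

/-- the numerical conclusion -/
lemma numeric {g L M P : ℝ} (hg : 0 < g) (hL : 100 ≤ L) (hgL : g * L ^ 30 ≤ 1) (hM : 30 ≤ M) (hML : M ≤ 2 * L)
    (hP : 1 ≤ P) :
    g ^ 2 / L ^ 6 + 30 * (g ^ 3 * L ^ 15) ≤
      1 / ((M + 2) * (M + 3)) * (g ^ 2 * P / (2 * (M + 1))) - g ^ 2 / 2 * P * (1 / ((M + 2) * (M + 3)) / (M * (M + 1))) := by
  have hL0 : 0 < L := by linarith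
  have hM0 : 0 < M := by linarith
  have e1 : 1 / ((M + 2) * (M + 3)) * (g ^ 2 * P / (2 * (M + 1))) - g ^ 2 / 2 * P * (1 / ((M + 2) * (M + 3)) / (M * (M + 1))) =
      g ^ 2 * P * (1 / 2 * (1 - 1 / M)) * (1 / ((M + 1) * (M + 2) * (M + 3))) := by
    field_simp
  rw [e1]
  have h1 : (29 / 60 : ℝ) ≤ 1 / 2 * (1 - 1 / M) := by
    have : 1 / M ≤ 1 / 30 := one_div_le_one_div_of_le (by norm_num) hM
    linarith
  have h2 : 1 / (27 * L ^ 3) ≤ 1 / ((M + 1) * (M + 2) * (M + 3)) := by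
    refine one_div_le_one_div_of_le (by positivity) ?_
    calc (M + 1) * (M + 2) * (M + 3) ≤ (3 * L) * (3 * L) * (3 * L) := by
          gcongr <;> linarith
      _ = 27 * L ^ 3 := by ring
  have h3 : g ^ 2 * (29 / 60) * (1 / (27 * L ^ 3)) ≤
      g ^ 2 * P * (1 / 2 * (1 - 1 / M)) * (1 / ((M + 1) * (M + 2) * (M + 3))) := by
    have h4 : g ^ 2 * (29 / 60) ≤ g ^ 2 * P * (1 / 2 * (1 - 1 / M)) := by
      calc g ^ 2 * (29 / 60) = g ^ 2 * 1 * (29 / 60) := by ring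
        _ ≤ g ^ 2 * P * (1 / 2 * (1 - 1 / M)) :=
          mul_le_mul (mul_le_mul_of_nonneg_left hP (by positivity)) h1 (by norm_num) (by positivity)
    exact mul_le_mul h4 h2 (by positivity) (by
      have : 0 ≤ 1 / 2 * (1 - 1 / M) := by linarith
      positivity)
  refine le_trans ?_ h3
  have h5 : g ^ 3 * L ^ 15 ≤ g ^ 2 / L ^ 15 := by
    rw [le_div_iff₀ (by positivity)]
    calc g ^ 3 * L ^ 15 * L ^ 15 = g ^ 2 * (g * L ^ 30) := by ring
      _ ≤ g ^ 2 * 1 := mul_le_mul_of_nonneg_left hgL (by positivity)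
      _ = g ^ 2 := mul_one _
  have h6 : g ^ 2 / L ^ 15 ≤ g ^ 2 / L ^ 6 / 10 ^ 18 := by
    rw [div_div]
    refine div_le_div_of_nonneg_left (by positivity) (by positivity) ?_
    have : (10 : ℝ) ^ 18 ≤ L ^ 9 := by
      calc (10 : ℝ) ^ 18 = 100 ^ 9 := by norm_num
        _ ≤ L ^ 9 := by gcongr
    calc L ^ 6 * 10 ^ 18 ≤ L ^ 6 * L ^ 9 := mul_le_mul_of_nonneg_left this (by positivity)
      _ = L ^ 15 := by ring
  have h7 : g ^ 2 * (29 / 60) * (1 / (27 * L ^ 3)) = g ^ 2 / L ^ 6 * (29 / 1620 * L ^ 3) := by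
    field_simp
    norm_num
  rw [h7]
  have h8 : (10 : ℝ) ^ 6 ≤ L ^ 3 := by
    calc (10 : ℝ) ^ 6 = 100 ^ 3 := by norm_num
      _ ≤ L ^ 3 := by gcongr
  have h9 : 0 < g ^ 2 / L ^ 6 := by positivity
  nlinarith [mul_le_mul_of_nonneg_left h8 h9.le]

lemma card_le {L : ℕ} {A : Finset ℕ} (hA : Sub1 L A) : A.card ≤ L := by
  have h1 : A ⊆ Finset.Icc 1 L := fun l hl => Finset.mem_Icc.2 (hA l hl)
  have := Finset.card_le_card h1
  simpa using this

lemma sq_le {L : ℕ} {A : Finset ℕ} (hA : Sub1 L A) : ∑ l ∈ A, (l : ℝ) ^ 2 ≤ (L : ℝ) ^ 3 := by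
  calc ∑ l ∈ A, (l : ℝ) ^ 2 ≤ ∑ _l ∈ A, (L : ℝ) ^ 2 := Finset.sum_le_sum fun l hl => by
        have : (l : ℝ) ≤ L := by exact_mod_cast (hA l hl).2
        gcongr
    _ = A.card * (L : ℝ) ^ 2 := by rw [Finset.sum_const, nsmul_eq_mul]
    _ ≤ (L : ℝ) * (L : ℝ) ^ 2 := by
        have : (A.card : ℝ) ≤ L := by exact_mod_cast card_le hA
        gcongr
    _ = (L : ℝ) ^ 3 := by ring

noncomputable def GG (M : ℕ) (g S S' : ℝ) (z : ℝ) : ℝ := k0 M z - EE M g S S' z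

noncomputable def XX (M : ℕ) (g : ℝ) (p q : ℕ) (z : ℝ) : ℝ :=
  (mm g M p q z - k0 M z) + EE M g ((p : ℝ) ^ 2) ((q : ℝ) ^ 2) z

lemma GG_bd (M : ℕ) (g S S' : ℝ) : Bd (GG M g S S') := (Bd.of_cont (k0_cont M)).sub (Bd.of_cont (EE_cont M g S S'))

lemma XX_bd (M : ℕ) (g : ℝ) (p q : ℕ) : Bd (XX M g p q) :=
  ((mm_bd g M p q).sub (Bd.of_cont (k0_cont M))).add (Bd.of_cont (EE_cont M g _ _))

lemma approx (hH : S_HZL1) {g : ℝ} {L M p q : ℕ} {A B : Finset ℕ} {S S' : ℝ} (hg : 0 < g) (hL : 100 ≤ L)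
    (hg8 : g * (L : ℝ) ^ 8 ≤ 1) (sA : Sub1 L A) (sB : Sub1 L B) (hM : 30 ≤ M) (hAB : A.card + B.card = M)
    (hp : p ≤ L) (hq : q ≤ L) (hS : ∑ l ∈ A, (l : ℝ) ^ 2 + (p : ℝ) ^ 2 = S)
    (hS' : ∑ l ∈ B, (l : ℝ) ^ 2 + (q : ℝ) ^ 2 = S') :
    N (fun z => hz g A B p q z - (GG M g S S' z + XX M g p q z)) ≤ g ^ 3 * L ^ 15 := by
  have h := hH g L A B p q hg hL hg8 sA sB (by omega) hp hq
  refine le_trans (le_of_eq ?_) h
  unfold N
  refine intervalIntegral.integral_congr fun z _ => ?_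
  beta_reduce
  rw [hAB]
  congr 1
  by_cases hw : g * p ≤ z ∧ z ≤ 1 - g * q
  · simp only [GG, XX, EE, aa, mm, hw, and_self, if_true, k0_eq, ← hS, ← hS']
    ring
  · simp only [GG, XX, EE, aa, mm, hw, if_false, ← hS, ← hS']
    ring

lemma XX_N {g : ℝ} {L p q M : ℕ} (hg : 0 < g) (hgL : g * L ≤ 1 / 2) (hM : 30 ≤ M) (hp : p ≤ L) (hq : q ≤ L) :
    N (XX M g p q) ≤ 2 * (g ^ 2 * L ^ 2) := by
  have h1 := N_add ((mm_bd g M p q).sub (Bd.of_cont (k0_cont M))) (Bd.of_cont (EE_cont M g ((p : ℝ) ^ 2) ((q : ℝ) ^ 2)))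
  have h2 := mm_N (M := M) hg hgL hp hq
  have h3 := EE_N (M := M) (g := g) (s := (p : ℝ) ^ 2) (t := (q : ℝ) ^ 2) (by omega) (by positivity) (by positivity)
  have hp' : (p : ℝ) ≤ L := by exact_mod_cast hp
  have hq' : (q : ℝ) ≤ L := by exact_mod_cast hq
  have hM' : (30 : ℝ) ≤ M := by exact_mod_cast hM
  have h4 : g ^ 2 * ((p : ℝ) ^ 2 + (q : ℝ) ^ 2) / (2 * M) ≤ g ^ 2 * L ^ 2 := by
    rw [div_le_iff₀ (by positivity)]
    have h5 : (p : ℝ) ^ 2 + (q : ℝ) ^ 2 ≤ 2 * (L : ℝ) ^ 2 := by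
      have a1 : (p : ℝ) ^ 2 ≤ (L : ℝ) ^ 2 := by gcongr
      have a2 : (q : ℝ) ^ 2 ≤ (L : ℝ) ^ 2 := by gcongr
      linarith
    calc g ^ 2 * ((p : ℝ) ^ 2 + (q : ℝ) ^ 2) ≤ g ^ 2 * (2 * (L : ℝ) ^ 2) := mul_le_mul_of_nonneg_left h5 (by positivity)
      _ = g ^ 2 * L ^ 2 * (2 * 1) := by ring
      _ ≤ g ^ 2 * L ^ 2 * (2 * M) := mul_le_mul_of_nonneg_left (by linarith) (by positivity)
  have h6 : N (XX M g p q) = N (fun z => (fun z => mm g M p q z - k0 M z) z + EE M g ((p : ℝ) ^ 2) ((q : ℝ) ^ 2) z) := rfl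
  rw [h6]
  linarith

lemma perturb {h1 h2 H1 H2 : ℝ → ℝ} (b1 : Bd h1) (b2 : Bd h2) (c1 : Bd H1) (c2 : Bd H2) {ε : ℝ} (n1 : N h1 ≤ 1)
    (n2 : N h2 ≤ 1) (e1 : N (fun z => h1 z - H1 z) ≤ ε) (e2 : N (fun z => h2 z - H2 z) ≤ ε) (hε : ε ≤ 1) :
    WW H1 H2 - 3 * ε ≤ WW h1 h2 := by
  have a1 : WW h1 h2 = WW H1 h2 + WW (fun z => h1 z - H1 z) h2 := by
    rw [← WW_add_left c1 (b1.sub c1) b2]
    exact WW_congr (fun z => by ring) (fun z => rfl)
  have a2 : WW H1 h2 = WW H1 H2 + WW H1 (fun z => h2 z - H2 z) := by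
    rw [← WW_add_right c1 c2 (b2.sub c2)]
    exact WW_congr (fun z => rfl) (fun z => by ring)
  have d1 := WW_le (b1.sub c1) b2
  have d2 := WW_le c1 (b2.sub c2)
  have n3 : N H1 ≤ N h1 + N (fun z => h1 z - H1 z) := by
    have h := N_add b1 (c1.sub b1)
    have h3 : N (fun z => h1 z + (H1 z - h1 z)) = N H1 := by
      congr 1; funext z; ring
    have h4 : N (fun z => H1 z - h1 z) = N (fun z => h1 z - H1 z) := by
      unfold N
      congr 1; funext z; exact abs_sub_comm _ _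
    rwa [h3, h4] at h
  have n0 := N_nonneg (fun z => h1 z - H1 z)
  have n4 := N_nonneg (fun z => h2 z - H2 z)
  have n5 := N_nonneg h2
  have n6 := N_nonneg H1
  have d3 : N (fun z => h1 z - H1 z) * N h2 ≤ ε * 1 := mul_le_mul e1 n2 n5 (n0.trans e1)
  have d4 : N H1 * N (fun z => h2 z - H2 z) ≤ 2 * ε := mul_le_mul (by linarith) e2 n4 (by norm_num)
  have d5 := (abs_le.1 (d1.trans d3)).1
  have d6 := (abs_le.1 (d2.trans d4)).1
  linarith

lemma core {g : ℝ} {L M p q p' q' : ℕ} {S S' : ℝ} (hg : 0 < g) (hL : 100 ≤ L) (hgL : g * L ≤ 1 / 2) (hM : 30 ≤ M)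
    (hp' : p' ≤ L) (hq : q ≤ L) (hpp : p ≤ p') (hqq : q' ≤ q) (hS0 : 0 ≤ S) (hS0' : 0 ≤ S')
    (hS : S ≤ 2 * (L : ℝ) ^ 3) (hS' : S' ≤ 2 * (L : ℝ) ^ 3) {P : ℝ}
    (hP : P = ((p' : ℝ) ^ 2 - (p : ℝ) ^ 2) + ((q : ℝ) ^ 2 - (q' : ℝ) ^ 2)) :
    K0 M * (g ^ 2 * P / (2 * (M + 1))) - g ^ 2 / 2 * P * (K0 M / (M * (M + 1))) - 20 * (g ^ 3 * (L : ℝ) ^ 15) ≤
      WW (fun z => GG M g S S' z + XX M g p q z) (fun z => GG M g S S' z + XX M g p' q' z) := by
  have hLr : (100 : ℝ) ≤ L := by exact_mod_cast hL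
  have hMr : (30 : ℝ) ≤ M := by exact_mod_cast hM
  have hp : p ≤ L := hpp.trans hp'
  have hq' : q' ≤ L := hqq.trans hq
  have bG := GG_bd M g S S'
  have bX := XX_bd M g p q
  have bY := XX_bd M g p' q'
  have bk := Bd.of_cont (k0_cont M)
  have bD := Bd.of_cont (EE_cont M g S S')
  -- bilinearity
  have e1 : WW (fun z => GG M g S S' z + XX M g p q z) (fun z => GG M g S S' z + XX M g p' q' z) =
      WW (GG M g S S') (XX M g p' q') - WW (GG M g S S') (XX M g p q) + WW (XX M g p q) (XX M g p' q') := by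
    rw [WW_add_left bG bX (bG.add bY), WW_add_right bG bG bY, WW_add_right bX bG bY, WW_self bG,
      WW_anti bX bG]
    ring
  have e2 : ∀ X : ℝ → ℝ, Bd X → WW (GG M g S S') X = WW (k0 M) X - WW (EE M g S S') X := by
    intro X hX
    have h := WW_add_left bG bD hX
    have h2 : WW (fun z => GG M g S S' z + EE M g S S' z) X = WW (k0 M) X :=
      WW_congr (fun z => by unfold GG; ring) fun z => rfl
    rw [h2] at h
    linarith
  rw [e1, e2 _ bX, e2 _ bY, WW_k0 M bX, WW_k0 M bY]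
  -- the integrals
  have e3 : ∀ p q : ℕ, p ≤ L → q ≤ L → ∫ z in (0 : ℝ)..1, XX M g p q z * Ph M z =
      (Ph M (g * q) ^ 2 - Ph M (g * p) ^ 2) / 4 - (∫ z in (0 : ℝ)..1, k0 M z * Ph M z) +
        g ^ 2 / 2 * ((p : ℝ) ^ 2 - (q : ℝ) ^ 2) * Aq M := by
    intro p q hp hq
    have b1 : Bd (fun z => mm g M p q z * Ph M z) := (mm_bd g M p q).mul (Bd.of_cont (Ph_cont M))
    have b2 : Bd (fun z => k0 M z * Ph M z) := bk.mul (Bd.of_cont (Ph_cont M))
    have b3 : Bd (fun z => EE M g ((p : ℝ) ^ 2) ((q : ℝ) ^ 2) z * Ph M z) :=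
      (Bd.of_cont (EE_cont M g _ _)).mul (Bd.of_cont (Ph_cont M))
    have e4 : ∀ z, XX M g p q z * Ph M z = (mm g M p q z * Ph M z - k0 M z * Ph M z) +
        EE M g ((p : ℝ) ^ 2) ((q : ℝ) ^ 2) z * Ph M z := by
      intro z
      unfold XX
      ring
    simp_rw [e4]
    rw [intervalIntegral.integral_add (b1.sub b2).ii1 b3.ii1, intervalIntegral.integral_sub b1.ii1 b2.ii1,
      mm_Ph hg hgL hp hq, EE_Ph]
  rw [e3 p q hp hq, e3 p' q' hp' hq']
  -- the main terms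
  have hx0 : (0 : ℝ) ≤ g * p := by positivity
  have hy0 : (0 : ℝ) ≤ g * q' := by positivity
  have cp' : (p' : ℝ) ≤ L := by exact_mod_cast hp'
  have cq : (q : ℝ) ≤ L := by exact_mod_cast hq
  have cpp : (p : ℝ) ≤ p' := by exact_mod_cast hpp
  have cqq : (q' : ℝ) ≤ q := by exact_mod_cast hqq
  have hx1 : g * p ≤ g * p' := mul_le_mul_of_nonneg_left cpp hg.le
  have hy1 : g * q' ≤ g * q := mul_le_mul_of_nonneg_left cqq hg.le
  have hx2 : g * p' ≤ g * L := mul_le_mul_of_nonneg_left cp' hg.le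
  have hy2 : g * q ≤ g * L := mul_le_mul_of_nonneg_left cq hg.le
  have m1 := Ph_sq M hx0 hx1 (by linarith)
  have m2 := Ph_sq M hy0 hy1 (by linarith)
  have hK : 0 < K0 M := by unfold K0; positivity
  have hK1 : K0 M ≤ 1 := by
    unfold K0
    rw [div_le_one (by positivity)]
    nlinarith
  have hPn : 0 ≤ P := by
    have a1 : (p : ℝ) ^ 2 ≤ (p' : ℝ) ^ 2 := by gcongr
    have a2 : (q' : ℝ) ^ 2 ≤ (q : ℝ) ^ 2 := by gcongr
    rw [hP]; linarith
  have m3 := mul_le_mul_of_nonneg_left (Aq_ge (M := M) (by omega)) (by positivity : 0 ≤ g ^ 2 / 2 * P)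
  -- the errors
  have x1 := XX_N (M := M) hg hgL hM hp hq
  have x2 := XX_N (M := M) hg hgL hM hp' hq'
  have x3 : N (EE M g S S') ≤ g ^ 2 * L ^ 3 := by
    refine (EE_N (by omega) hS0 hS0').trans ?_
    rw [div_le_iff₀ (by positivity)]
    calc g ^ 2 * (S + S') ≤ g ^ 2 * (4 * (L : ℝ) ^ 3) := mul_le_mul_of_nonneg_left (by linarith) (by positivity)
      _ = g ^ 2 * L ^ 3 * 4 := by ring
      _ ≤ g ^ 2 * L ^ 3 * (2 * M) := mul_le_mul_of_nonneg_left (by linarith) (by positivity)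
  have n1 := N_nonneg (XX M g p q)
  have n2 := N_nonneg (XX M g p' q')
  have n3 := N_nonneg (EE M g S S')
  have w1 := (abs_le.1 ((WW_le bX bY).trans (mul_le_mul x1 x2 n2 (by positivity)))).1
  have w2 := (abs_le.1 ((WW_le bD bX).trans (mul_le_mul x3 x1 n1 (by positivity)))).1
  have w3 := (abs_le.1 ((WW_le bD bY).trans (mul_le_mul x3 x2 n2 (by positivity)))).2
  set u : ℝ := g * L with hu
  have hu0 : 0 ≤ u := by positivity
  have t1 : (g * (p' : ℝ)) ^ 3 ≤ u ^ 3 := by gcongr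
  have t2 : (g * (q : ℝ)) ^ 3 ≤ u ^ 3 := by gcongr
  have t3 : (g * (p' : ℝ)) ^ 4 ≤ u ^ 4 := by gcongr
  have t4 : (g * (q : ℝ)) ^ 4 ≤ u ^ 4 := by gcongr
  have t5 : u ^ 4 ≤ u ^ 3 := by
    calc u ^ 4 = u ^ 3 * u := by ring
      _ ≤ u ^ 3 * 1 := mul_le_mul_of_nonneg_left (by linarith) (by positivity)
      _ = u ^ 3 := mul_one _
  have s1 : 2 * (g ^ 2 * (L : ℝ) ^ 2) * (2 * (g ^ 2 * L ^ 2)) = 4 * u ^ 4 := by rw [hu]; ring
  have s2 : g ^ 2 * (L : ℝ) ^ 3 * (2 * (g ^ 2 * L ^ 2)) = 2 * u ^ 4 * L := by rw [hu]; ring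
  rw [s1] at w1
  rw [s2] at w2 w3
  have t6 : u ^ 4 * L ≤ u ^ 3 * L := mul_le_mul_of_nonneg_right t5 (by positivity)
  have t7 : u ^ 3 ≤ u ^ 3 * L := by
    have : 0 ≤ u ^ 3 := by positivity
    nlinarith
  have t8 : u ^ 3 * L ≤ g ^ 3 * (L : ℝ) ^ 15 := by
    calc u ^ 3 * L = g ^ 3 * (L : ℝ) ^ 4 := by rw [hu]; ring
      _ ≤ g ^ 3 * (L : ℝ) ^ 15 := mul_le_mul_of_nonneg_left
        (pow_le_pow_right₀ (by linarith) (by norm_num)) (by positivity)
  have t9 : K0 M * ((g * (p' : ℝ)) ^ 3 / 3) ≤ u ^ 3 := by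
    calc K0 M * ((g * (p' : ℝ)) ^ 3 / 3) ≤ 1 * ((g * (p' : ℝ)) ^ 3 / 3) :=
          mul_le_mul_of_nonneg_right hK1 (by positivity)
      _ ≤ u ^ 3 := by
        have : 0 ≤ u ^ 3 := by positivity
        linarith
  have t10 : K0 M * ((g * (q : ℝ)) ^ 3 / 3) ≤ u ^ 3 := by
    calc K0 M * ((g * (q : ℝ)) ^ 3 / 3) ≤ 1 * ((g * (q : ℝ)) ^ 3 / 3) :=
          mul_le_mul_of_nonneg_right hK1 (by positivity)
      _ ≤ u ^ 3 := by
        have : 0 ≤ u ^ 3 := by positivity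
        linarith
  have r1 : K0 M * (((g * (p' : ℝ)) ^ 2 - (g * p) ^ 2) / (2 * (M + 1)) - (g * (p' : ℝ)) ^ 3 / 3) +
      K0 M * (((g * (q : ℝ)) ^ 2 - (g * q') ^ 2) / (2 * (M + 1)) - (g * (q : ℝ)) ^ 3 / 3) =
      K0 M * (g ^ 2 * P / (2 * (M + 1))) - K0 M * ((g * (p' : ℝ)) ^ 3 / 3) - K0 M * ((g * (q : ℝ)) ^ 3 / 3) := by
    rw [hP]; ring
  have r2 : g ^ 2 / 2 * ((p' : ℝ) ^ 2 - (q' : ℝ) ^ 2) * Aq M - g ^ 2 / 2 * ((p : ℝ) ^ 2 - (q : ℝ) ^ 2) * Aq M =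
      g ^ 2 / 2 * P * Aq M := by
    rw [hP]; ring
  have m3' : -(g ^ 2 / 2 * P * (K0 M / (M * (M + 1)))) ≤ g ^ 2 / 2 * P * Aq M := by
    rw [← mul_neg]; exact m3
  have f1 : K0 M * (g ^ 2 * P / (2 * (M + 1))) - 2 * u ^ 3 - 2 * u ^ 4 ≤
      (Ph M (g * p) ^ 2 - Ph M (g * p') ^ 2) / 4 + (Ph M (g * q') ^ 2 - Ph M (g * q) ^ 2) / 4 := by
    linarith only [m1, m2, r1, t3, t4, t9, t10]
  have f2 : 2 * u ^ 3 + 2 * u ^ 4 + 4 * u ^ 4 + 4 * (u ^ 4 * L) ≤ 20 * (g ^ 3 * (L : ℝ) ^ 15) := by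
    linarith only [t5, t6, t7, t8, (by positivity : 0 ≤ g ^ 3 * (L : ℝ) ^ 15)]
  linarith only [f1, f2, m3', r2, w1, w2, w3]

end T4

open T4 in
theorem t4 (hH : S_HZL1) (hR : S_REG) : S_T4 := by
  intro g L A₁ B₁ A₂ B₂ p q p' q' hg hL hgL sA₁ sB₁ sA₂ sB₂ hM hMM hp' hq hpp hqq hne hS hS'
  obtain ⟨M, hMd⟩ : ∃ M, A₁.card + B₁.card = M := ⟨_, rfl⟩
  have hM2 : A₂.card + B₂.card = M := by omega
  have hM30 : 30 ≤ M := by omega
  have hML : M ≤ 2 * L := by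
    have := card_le sA₁
    have := card_le sB₁
    omega
  have hL' : (100 : ℝ) ≤ L := by exact_mod_cast hL
  have hL1 : (1 : ℝ) ≤ L := by linarith
  have hL0 : (0 : ℝ) < L := by linarith
  have hgp : ∀ n : ℕ, n ≤ 30 → g * (L : ℝ) ^ n ≤ 1 := fun n hn =>
    (mul_le_mul_of_nonneg_left (pow_le_pow_right₀ hL1 hn) hg.le).trans hgL
  have hg2 := hgp 2 (by norm_num)
  have hgL1 : g * L ≤ 1 / 2 := by nlinarith
  have hp : p ≤ L := hpp.trans hp'
  have hq' : q' ≤ L := hqq.trans hq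
  have R1 := hR g L A₁ B₁ p q hg hL (hgp 4 (by norm_num)) sA₁ sB₁ hM hp hq
  have R2 := hR g L A₂ B₂ p' q' hg hL (hgp 4 (by norm_num)) sA₂ sB₂ (by omega) hp' hq'
  have b1 : Bd (hz g A₁ B₁ p q) := ⟨R1.2.2.1, 1, fun z _ _ => by
    rw [abs_of_nonneg (R1.2.2.2.2.2.2 z).1]; exact (R1.2.2.2.2.2.2 z).2⟩
  have b2 : Bd (hz g A₂ B₂ p' q') := ⟨R2.2.2.1, 1, fun z _ _ => by
    rw [abs_of_nonneg (R2.2.2.2.2.2.2 z).1]; exact (R2.2.2.2.2.2.2 z).2⟩
  have n1 : N (hz g A₁ B₁ p q) ≤ 1 := N_le b1 fun z _ _ => by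
    rw [abs_of_nonneg (R1.2.2.2.2.2.2 z).1]; exact (R1.2.2.2.2.2.2 z).2
  have n2 : N (hz g A₂ B₂ p' q') ≤ 1 := N_le b2 fun z _ _ => by
    rw [abs_of_nonneg (R2.2.2.2.2.2.2 z).1]; exact (R2.2.2.2.2.2.2 z).2
  have a1 := approx hH hg hL (hgp 8 (by norm_num)) sA₁ sB₁ hM30 hMd hp hq rfl rfl
  have a2 := approx hH hg hL (hgp 8 (by norm_num)) sA₂ sB₂ hM30 hM2 hp' hq' hS.symm hS'.symm
  have pw : ∀ r : ℕ, r ≤ L → ∀ A : Finset ℕ, Sub1 L A → 0 ≤ ∑ l ∈ A, (l : ℝ) ^ 2 + (r : ℝ) ^ 2 ∧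
      ∑ l ∈ A, (l : ℝ) ^ 2 + (r : ℝ) ^ 2 ≤ 2 * (L : ℝ) ^ 3 := by
    intro r hr A sA
    refine ⟨by positivity, ?_⟩
    have h1 := sq_le sA
    have h2 : (r : ℝ) ≤ L := by exact_mod_cast hr
    have h3 : (r : ℝ) ^ 2 ≤ (L : ℝ) ^ 2 := by gcongr
    have h4 : (L : ℝ) ^ 2 ≤ (L : ℝ) ^ 3 := pow_le_pow_right₀ hL1 (by norm_num)
    linarith
  have c := core (S := ∑ l ∈ A₁, (l : ℝ) ^ 2 + (p : ℝ) ^ 2) (S' := ∑ l ∈ B₁, (l : ℝ) ^ 2 + (q : ℝ) ^ 2)
    hg hL hgL1 hM30 hp' hq hpp hqq (pw p hp A₁ sA₁).1 (pw q hq B₁ sB₁).1 (pw p hp A₁ sA₁).2 (pw q hq B₁ sB₁).2 rfl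
  have hε : g ^ 3 * (L : ℝ) ^ 15 ≤ 1 := by
    have h1 := hgp 5 (by norm_num)
    have h2 : (g * (L : ℝ) ^ 5) ^ 3 ≤ 1 := pow_le_one₀ (by positivity) h1
    calc g ^ 3 * (L : ℝ) ^ 15 = (g * (L : ℝ) ^ 5) ^ 3 := by ring
      _ ≤ 1 := h2
  have pt := perturb b1 b2 ((GG_bd M g _ _).add (XX_bd M g p q)) ((GG_bd M g _ _).add (XX_bd M g p' q')) n1 n2 a1 a2 hε
  have hP : (1 : ℝ) ≤ ((p' : ℝ) ^ 2 - (p : ℝ) ^ 2) + ((q : ℝ) ^ 2 - (q' : ℝ) ^ 2) := by
    have h1 : p < p' ∨ q' < q := by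
      rcases lt_or_eq_of_le hpp with h | h
      · exact Or.inl h
      · rcases lt_or_eq_of_le hqq with h' | h'
        · exact Or.inr h'
        · exact absurd (by rw [h, h']) hne
    have h2 : ∀ a b : ℕ, a ≤ b → (0 : ℝ) ≤ (b : ℝ) ^ 2 - (a : ℝ) ^ 2 := by
      intro a b hab
      have : (a : ℝ) ≤ b := by exact_mod_cast hab
      have : (a : ℝ) ^ 2 ≤ (b : ℝ) ^ 2 := by gcongr
      linarith
    have h3 : ∀ a b : ℕ, a < b → (1 : ℝ) ≤ (b : ℝ) ^ 2 - (a : ℝ) ^ 2 := by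
      intro a b hab
      have h4 : (a : ℝ) + 1 ≤ b := by exact_mod_cast hab
      have h5 : (0 : ℝ) ≤ a := by positivity
      nlinarith
    rcases h1 with h | h
    · have := h3 p p' h
      have := h2 q' q hqq
      linarith
    · have := h3 q' q h
      have := h2 p p' hpp
      linarith
  have nm := numeric hg hL' hgL (M := (M : ℝ)) (by exact_mod_cast hM30) (by exact_mod_cast hML) hP
  have e0 : K0 M = 1 / (((M : ℝ) + 2) * (M + 3)) := rfl
  rw [← e0] at nm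
  have h0 : 0 ≤ g ^ 3 * (L : ℝ) ^ 15 := by positivity
  linarith

end Pool.Agent.H34.RK
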