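import Pool.Agent.H34.RK.Stm2

set_option autoImplicit false

open Finset MeasureTheory

namespace Pool.Agent.H34.RK

namespace TS

/-- `t |t| / 2` -/
noncomputable def Ph (t : ℝ) : ℝ := t * |t| / 2

theorem Ph_nonneg {t : ℝ} (h : 0 ≤ t) : Ph t = t ^ 2 / 2 := by
  unfold Ph
  rw [abs_of_nonneg h]
  ring

theorem Ph_nonpos {t : ℝ} (h : t ≤ 0) : Ph t = -(t ^ 2 / 2) := by
  unfold Ph
  rw [abs_of_nonpos h]
  ring

theorem continuous_Ph : Continuous Ph := by
  unfold Ph
  fun_prop

theorem hasDerivAt_Ph (t : ℝ) : HasDerivAt Ph |t| t := by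
  rcases lt_trichotomy t 0 with h | h | h
  · have h1 : HasDerivAt (fun t : ℝ => -(t ^ 2 / 2)) (-t) t :=
      ((hasDerivAt_pow 2 t).div_const 2).neg.congr_deriv (by norm_num)
    rw [abs_of_neg h]
    refine h1.congr_of_eventuallyEq ?_
    filter_upwards [Iio_mem_nhds h] with s hs
    exact Ph_nonpos (le_of_lt hs)
  · subst h
    rw [abs_zero, hasDerivAt_iff_tendsto]
    simp only [Ph, sub_zero, abs_zero, mul_zero, zero_div, smul_eq_mul, Real.norm_eq_abs]
    have h2 : Filter.Tendsto (fun x : ℝ => |x| / 2) (nhds 0) (nhds 0) := by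
      have : Continuous fun x : ℝ => |x| / 2 := by fun_prop
      have h3 := this.tendsto 0
      simpa using h3
    refine h2.congr fun x => ?_
    by_cases hx : x = 0
    · simp [hx]
    · have hx' : |x| ≠ 0 := abs_ne_zero.2 hx
      rw [abs_div, abs_mul, abs_abs, abs_two]
      field_simp
  · have h1 : HasDerivAt (fun t : ℝ => t ^ 2 / 2) t t :=
      ((hasDerivAt_pow 2 t).div_const 2).congr_deriv (by norm_num)
    rw [abs_of_pos h]
    refine h1.congr_of_eventuallyEq ?_
    filter_upwards [Ioi_mem_nhds h] with s hs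
    exact Ph_nonneg (le_of_lt hs)

theorem int_abs (c a b : ℝ) : ∫ z in a..b, |c - z| = Ph (c - a) - Ph (c - b) := by
  have h1 : ∀ z ∈ Set.uIcc a b, HasDerivAt (fun z => -Ph (c - z)) |c - z| z := by
    intro z _
    have h2 : HasDerivAt (fun z => Ph (c - z)) (|c - z| * (-1)) z :=
      (hasDerivAt_Ph (c - z)).comp z ((hasDerivAt_id z).const_sub c)
    exact h2.neg.congr_deriv (by ring)
  rw [intervalIntegral.integral_eq_sub_of_hasDerivAt h1
    ((by fun_prop : Continuous fun z : ℝ => |c - z|).intervalIntegrable _ _)]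
  ring

theorem int_sign (z a b : ℝ) : ∫ z' in a..b, Real.sign (z' - z) = |b - z| - |a - z| := by
  have hc : Continuous fun z' : ℝ => |z' - z| := by fun_prop
  refine MeasureTheory.integral_eq_of_hasDerivAt_off_countable (fun z' => |z' - z|)
    (fun z' => Real.sign (z' - z)) (Set.countable_singleton z) hc.continuousOn ?_ ?_
  · intro x hx
    have hne : x - z ≠ 0 := fun h => hx.2 (by simpa using sub_eq_zero.1 h)
    rcases lt_or_gt_of_ne hne with h | h
    · rw [Real.sign_of_neg h]
      have h4 : HasDerivAt (fun t : ℝ => |t|) (-1) (id x - z) := hasDerivAt_abs_neg h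
      have h5 := h4.comp x ((hasDerivAt_id x).sub_const z)
      exact h5.congr_deriv (by ring)
    · rw [Real.sign_of_pos h]
      have h4 : HasDerivAt (fun t : ℝ => |t|) 1 (id x - z) := hasDerivAt_abs_pos h
      have h5 := h4.comp x ((hasDerivAt_id x).sub_const z)
      exact h5.congr_deriv (by ring)
  · have hm : Measurable fun z' : ℝ => Real.sign (z' - z) := by
      unfold Real.sign
      refine Measurable.ite (measurableSet_lt (by fun_prop) (by fun_prop)) (by fun_prop)
        (Measurable.ite (measurableSet_lt (by fun_prop) (by fun_prop)) (by fun_prop) (by fun_prop))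
    refine IntervalIntegrable.mono_fun (f := fun _ => (1 : ℝ)) intervalIntegrable_const ?_ ?_
    · exact hm.aestronglyMeasurable
    · refine Filter.Eventually.of_forall fun x => ?_
      simp only [Real.norm_eq_abs, abs_one]
      rcases Real.sign_apply_eq (x - z) with h | h | h <;> rw [h] <;> norm_num

/-- restriction to a window -/
theorem int_window (f : ℝ → ℝ) {x y lo hi : ℝ} (hxy : x ≤ y) :
    (∫ z in x..y, if lo ≤ z ∧ z ≤ hi then f z else 0) =
      ∫ z in (max x lo)..(max (max x lo) (min y hi)), f z := by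
  rw [intervalIntegral.integral_of_le hxy, intervalIntegral.integral_of_le (le_max_left _ _)]
  have h1 : (fun z => if lo ≤ z ∧ z ≤ hi then f z else 0) = Set.indicator (Set.Icc lo hi) f := by
    ext z
    simp only [Set.indicator, Set.mem_Icc]
  rw [h1, setIntegral_indicator measurableSet_Icc]
  refine setIntegral_congr_set ?_
  by_cases h : max x lo ≤ min y hi
  · rw [max_eq_right h]
    have h2 : (Set.Ioc x y ∩ Set.Icc lo hi : Set ℝ) =ᵐ[volume] (Set.Ioc x y ∩ Set.Ioc lo hi : Set ℝ) :=
      (Filter.EventuallyEq.refl _ _).inter Ioc_ae_eq_Icc.symm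
    refine h2.trans ?_
    rw [Set.Ioc_inter_Ioc]
    all_goals exact Filter.EventuallyEq.rfl
  · rw [not_le] at h
    rw [max_eq_left h.le, Set.Ioc_self]
    have h2 : (Set.Ioc x y ∩ Set.Icc lo hi : Set ℝ) = ∅ := by
      ext z
      simp only [Set.mem_inter_iff, Set.mem_Ioc, Set.mem_Icc, Set.mem_empty_iff_false, iff_false]
      rintro ⟨⟨h3, h4⟩, h5, h6⟩
      have : max x lo ≤ min y hi := (max_le h3.le h5).trans (le_min h4 h6)
      linarith
    rw [h2]
    all_goals exact Filter.EventuallyEq.rfl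

/-- the inner double integral -/
noncomputable def II (lo hi lo' hi' x y : ℝ) : ℝ :=
  Ph (max (max x lo') (min y hi') - max x lo)
    - Ph (max (max x lo') (min y hi') - max (max x lo) (min y hi))
    - Ph (max x lo' - max x lo) + Ph (max x lo' - max (max x lo) (min y hi))

theorem II_eq {lo hi lo' hi' x y : ℝ} (hxy : x ≤ y) :
    (∫ z in x..y, ∫ z' in x..y, (if lo ≤ z ∧ z ≤ hi ∧ lo' ≤ z' ∧ z' ≤ hi' then
      Real.sign (z' - z) else 0)) = II lo hi lo' hi' x y := by
  have h1 : ∀ z : ℝ, (∫ z' in x..y, (if lo ≤ z ∧ z ≤ hi ∧ lo' ≤ z' ∧ z' ≤ hi' then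
      Real.sign (z' - z) else 0)) = if lo ≤ z ∧ z ≤ hi then
        (|max (max x lo') (min y hi') - z| - |max x lo' - z|) else 0 := by
    intro z
    by_cases hz : lo ≤ z ∧ z ≤ hi
    · rw [if_pos hz, ← int_sign, ← int_window _ hxy]
      refine intervalIntegral.integral_congr fun z' _ => ?_
      simp only [hz.1, hz.2, true_and]
    · rw [if_neg hz]
      have h2 : ∀ z' : ℝ, (if lo ≤ z ∧ z ≤ hi ∧ lo' ≤ z' ∧ z' ≤ hi' then
          Real.sign (z' - z) else 0) = 0 := by
        intro z'
        rw [if_neg]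
        rintro ⟨h3, h4, -⟩
        exact hz ⟨h3, h4⟩
      simp only [h2, intervalIntegral.integral_zero]
  simp only [h1]
  rw [int_window _ hxy, intervalIntegral.integral_sub
    ((by fun_prop : Continuous fun z : ℝ => |max (max x lo') (min y hi') - z|).intervalIntegrable _ _)
    ((by fun_prop : Continuous fun z : ℝ => |max x lo' - z|).intervalIntegrable _ _), int_abs, int_abs]
  unfold II
  ring

theorem II_cont (lo hi lo' hi' : ℝ) : Continuous fun v : ℝ × ℝ => II lo hi lo' hi' v.1 v.2 := by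
  unfold II Ph
  fun_prop

/-- four ordered numbers -/
theorem four {a b a' b' : ℝ} (h1 : a ≤ b) (h2 : a' ≤ b') (h3 : a ≤ a') (h4 : b ≤ b') :
    0 ≤ Ph (b' - a) - Ph (b' - b) - Ph (a' - a) + Ph (a' - b) := by
  rw [Ph_nonneg (by linarith : 0 ≤ b' - a), Ph_nonneg (by linarith : 0 ≤ b' - b),
    Ph_nonneg (by linarith : 0 ≤ a' - a)]
  rcases le_total a' b with h | h
  · rw [Ph_nonpos (by linarith)]
    nlinarith [mul_nonneg (sub_nonneg.2 h) (sub_nonneg.2 h4), mul_nonneg (sub_nonneg.2 h3) (sub_nonneg.2 h2)]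
  · rw [Ph_nonneg (by linarith)]
    nlinarith [mul_nonneg (sub_nonneg.2 h1) (sub_nonneg.2 h2)]

theorem II_nonneg {lo hi lo' hi' x y : ℝ} (h1 : lo ≤ lo') (h2 : hi ≤ hi') :
    0 ≤ II lo hi lo' hi' x y := by
  unfold II
  refine four (le_max_left _ _) (le_max_left _ _) (max_le_max le_rfl h1) ?_
  exact max_le_max (max_le_max le_rfl h1) (min_le_min le_rfl h2)

theorem II_low {lo hi lo' hi' x y : ℝ} (h1 : max x lo ≤ max x lo') (h2 : max x lo' ≤ min y hi)
    (h3 : min y hi = y) (h4 : min y hi' = y) :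
    II lo hi lo' hi' x y = (max x lo' - max x lo) * (y - max x lo') := by
  unfold II
  rw [h3] at h2
  rw [h3, h4, max_eq_right h2, max_eq_right (h1.trans h2)]
  rw [Ph_nonneg (by linarith : 0 ≤ y - max x lo), Ph_nonneg (by linarith : 0 ≤ y - y),
    Ph_nonneg (by linarith : 0 ≤ max x lo' - max x lo), Ph_nonpos (by linarith)]
  ring

theorem II_up {lo hi lo' hi' x y : ℝ} (h1 : max x lo = x) (h2 : max x lo' = x)
    (h3 : x ≤ min y hi) (h4 : min y hi ≤ min y hi') :
    II lo hi lo' hi' x y = (min y hi - x) * (min y hi' - min y hi) := by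
  unfold II
  rw [h1, h2, max_eq_right h3, max_eq_right (h3.trans h4)]
  rw [Ph_nonneg (by linarith : 0 ≤ min y hi' - x), Ph_nonneg (by linarith : 0 ≤ min y hi' - min y hi),
    sub_self, Ph_nonneg le_rfl, Ph_nonpos (by linarith)]
  ring

/-- lower bound of a nested integral by a box -/
theorem box {F : ℝ → ℝ → ℝ} (hF : Continuous fun v : ℝ × ℝ => F v.1 v.2)
    (hnn : ∀ x y, 0 ≤ x → x ≤ y → y ≤ 1 → 0 ≤ F x y) {c d e f m : ℝ} (h0 : 0 ≤ c) (hcd : c ≤ d)
    (hde : d ≤ e) (hef : e ≤ f) (hf1 : f ≤ 1)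
    (hm : ∀ x y, c ≤ x → x ≤ d → e ≤ y → y ≤ f → m ≤ F x y) :
    (d - c) * ((f - e) * m) ≤ ∫ x in (0 : ℝ)..1, ∫ y in x..1, F x y := by
  have hslice : ∀ x, Continuous fun y => F x y := fun x =>
    hF.comp (by fun_prop : Continuous fun y : ℝ => (x, y))
  have hcontH : Continuous fun x => ∫ y in x..1, F x y := by
    have h1 : Continuous fun x => ∫ y in (0 : ℝ)..x, F x y :=
      intervalIntegral.continuous_parametric_intervalIntegral_of_continuous hF continuous_id
    have h2 : Continuous fun x => ∫ y in (0 : ℝ)..1, F x y :=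
      intervalIntegral.continuous_parametric_intervalIntegral_of_continuous' hF 0 1
    have h3 : (fun x => ∫ y in x..1, F x y) =
        fun x => (∫ y in (0 : ℝ)..1, F x y) - ∫ y in (0 : ℝ)..x, F x y := by
      ext x
      rw [intervalIntegral.integral_interval_sub_left ((hslice x).intervalIntegrable _ _)
        ((hslice x).intervalIntegrable _ _)]
    rw [h3]
    exact h2.sub h1
  have hHnn : ∀ x, 0 ≤ x → x ≤ 1 → 0 ≤ ∫ y in x..1, F x y := by
    intro x hx0 hx1
    exact intervalIntegral.integral_nonneg hx1 fun y hy => hnn x y hx0 hy.1 hy.2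
  have hd1 : d ≤ 1 := hde.trans (hef.trans hf1)
  have hHlow : ∀ x, c ≤ x → x ≤ d → (f - e) * m ≤ ∫ y in x..1, F x y := by
    intro x hxc hxd
    have h5 : (∫ y in e..f, F x y) ≤ ∫ y in x..1, F x y := by
      refine intervalIntegral.integral_mono_interval (hxd.trans hde) hef hf1 ?_
        ((hslice x).intervalIntegrable _ _)
      rw [Filter.EventuallyLE, ae_restrict_iff' measurableSet_Ioc]
      exact Filter.Eventually.of_forall fun y hy => hnn x y (h0.trans hxc) hy.1.le hy.2
    have h6 : (∫ _ in e..f, m) ≤ ∫ y in e..f, F x y := by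
      refine intervalIntegral.integral_mono_on hef (by simp) ((hslice x).intervalIntegrable _ _) ?_
      intro y hy
      exact hm x y hxc hxd hy.1 hy.2
    rw [intervalIntegral.integral_const, smul_eq_mul] at h6
    exact h6.trans h5
  have h7 : (∫ x in c..d, ∫ y in x..1, F x y) ≤ ∫ x in (0 : ℝ)..1, ∫ y in x..1, F x y := by
    refine intervalIntegral.integral_mono_interval h0 hcd hd1 ?_ (hcontH.intervalIntegrable _ _)
    rw [Filter.EventuallyLE, ae_restrict_iff' measurableSet_Ioc]
    exact Filter.Eventually.of_forall fun x hx => hHnn x hx.1.le hx.2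
  have h8 : (∫ _ in c..d, (f - e) * m) ≤ ∫ x in c..d, ∫ y in x..1, F x y := by
    refine intervalIntegral.integral_mono_on hcd (by simp) (hcontH.intervalIntegrable _ _) ?_
    intro x hx
    exact hHlow x hx.1 hx.2
  rw [intervalIntegral.integral_const, smul_eq_mul] at h8
  exact h8.trans h7

theorem KT_cont (φ ψ : ℕ → ℝ) (A B : Finset ℕ) : Continuous fun v : ℝ × ℝ => KT φ ψ A B v.1 v.2 := by
  unfold KT
  fun_prop

theorem KT_nonneg (φ ψ : ℕ → ℝ) (A B : Finset ℕ) (x y : ℝ) : 0 ≤ KT φ ψ A B x y :=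
  mul_nonneg (prod_nonneg fun _ _ => le_max_right _ _) (prod_nonneg fun _ _ => le_max_right _ _)

/-- lower bound of the weight by Bernoulli -/
theorem KT_low {g : ℝ} {L : ℕ} {A B : Finset ℕ} (hg : 0 < g) (hA : Sub1 L A) (hB : Sub1 L B)
    {x y : ℝ} {s : ℝ} (hs : s ≤ 1) (h1 : 1 - s ≤ y - x) (h2 : 1 - s ≤ y - g * L)
    (h3 : 1 - s ≤ 1 - g * L - x) (hsM : s * (A.card + B.card : ℕ) ≤ 1 / 2) :
    1 / 2 ≤ KT (fun l => g * l) (fun l => 1 - g * l) A B x y := by
  have hA' : (1 - s) ^ A.card ≤ ∏ l ∈ A, max (y - max x (g * l)) 0 := by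
    rw [← prod_const]
    refine prod_le_prod (fun _ _ => by linarith) fun l hl => ?_
    refine le_max_of_le_left ?_
    have h5 : (l : ℝ) ≤ L := by exact_mod_cast (hA l hl).2
    have h6 : g * l ≤ g * L := mul_le_mul_of_nonneg_left h5 hg.le
    have h7 : max x (g * l) ≤ y - (1 - s) := max_le (by linarith) (by linarith)
    linarith
  have hB' : (1 - s) ^ B.card ≤ ∏ l ∈ B, max (min y (1 - g * l) - x) 0 := by
    rw [← prod_const]
    refine prod_le_prod (fun _ _ => by linarith) fun l hl => ?_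
    refine le_max_of_le_left ?_
    have h5 : (l : ℝ) ≤ L := by exact_mod_cast (hB l hl).2
    have h6 : g * l ≤ g * L := mul_le_mul_of_nonneg_left h5 hg.le
    have h7 : x + (1 - s) ≤ min y (1 - g * l) := le_min (by linarith) (by linarith)
    linarith
  have hber := one_add_mul_le_pow (a := -s) (by linarith) (A.card + B.card)
  have h8 : 1 / 2 ≤ (1 - s) ^ (A.card + B.card) := by
    have h9 : 1 + ((A.card + B.card : ℕ) : ℝ) * -s ≤ (1 + -s) ^ (A.card + B.card) := hber
    have h10 : (1 + -s) = 1 - s := by ring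
    rw [h10] at h9
    linarith [mul_comm s ((A.card + B.card : ℕ) : ℝ)]
  unfold KT
  refine h8.trans ?_
  rw [pow_add]
  exact mul_le_mul hA' hB' (pow_nonneg (by linarith) _)
    (prod_nonneg fun _ _ => le_max_right _ _)

theorem card_le {L : ℕ} {A : Finset ℕ} (hA : Sub1 L A) : A.card ≤ L := by
  have h : A ⊆ Finset.Icc 1 L := fun l hl => Finset.mem_Icc.2 (hA l hl)
  have := card_le_card h
  simpa using this

end TS

open TS

theorem t4s' : S_T4S := by
  intro g L A B p q p' q' hg hL hgL hA hB hM hp' hq hpp hqq hne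
  have hLR : (100 : ℝ) ≤ L := by exact_mod_cast hL
  have hLpos : (0 : ℝ) < L := by linarith
  -- smallness of `g`
  have hgL3 : g * L ^ 3 ≤ 1 / 1000 := by
    have h1 : (L : ℝ) ^ 30 = L ^ 3 * L ^ 27 := by ring
    have h2 : (1000 : ℝ) ≤ L ^ 27 := by
      calc (1000 : ℝ) ≤ 100 ^ 27 := by norm_num
        _ ≤ (L : ℝ) ^ 27 := pow_le_pow_left₀ (by norm_num) hLR 27
    rw [h1] at hgL
    have h3 : 0 ≤ g * (L : ℝ) ^ 3 := by positivity
    nlinarith
  have hg1L : g * L ≤ 1 / 1000 / L ^ 2 := by
    rw [le_div_iff₀ (by positivity)]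
    calc g * L * L ^ 2 = g * L ^ 3 := by ring
      _ ≤ _ := hgL3
  have hL2 : (1 : ℝ) / 1000 / L ^ 2 ≤ 1 / (1000 * L) / 100 := by
    rw [div_div, div_div]
    refine one_div_le_one_div_of_le (by positivity) ?_
    nlinarith
  set u : ℝ := 1 / (1000 * L) with hu
  have hupos : 0 < u := by positivity
  have hgLu : g * L ≤ u / 100 := hg1L.trans hL2
  have huL : u * L = 1 / 1000 := by rw [hu]; field_simp
  have hgu : g ≤ u / 10000 := by
    have h1 : g * 100 ≤ g * L := mul_le_mul_of_nonneg_left hLR hg.le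
    linarith
  have hu1 : u ≤ 1 / 100000 := by
    have : u * 100 ≤ u * L := mul_le_mul_of_nonneg_left hLR hupos.le
    linarith
  have hcA := card_le hA
  have hcB := card_le hB
  have hMR : ((A.card + B.card : ℕ) : ℝ) ≤ 2 * L := by
    have : A.card + B.card ≤ 2 * L := by omega
    exact_mod_cast this
  have hs : (200 * u) * ((A.card + B.card : ℕ) : ℝ) ≤ 1 / 2 := by
    calc (200 * u) * ((A.card + B.card : ℕ) : ℝ) ≤ (200 * u) * (2 * L) :=
          mul_le_mul_of_nonneg_left hMR (by positivity)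
      _ = 400 * (u * L) := by ring
      _ ≤ 1 / 2 := by rw [huL]; norm_num
  set φ : ℕ → ℝ := fun l => g * l with hφ
  set ψ : ℕ → ℝ := fun l => 1 - g * l with hψ
  set F : ℝ → ℝ → ℝ := fun x y => KT φ ψ A B x y * II (g * p) (1 - g * q) (g * p') (1 - g * q') x y
    with hF
  have hppR : (p : ℝ) ≤ p' := by exact_mod_cast hpp
  have hqqR : (q' : ℝ) ≤ q := by exact_mod_cast hqq
  have hp'R : (p' : ℝ) ≤ L := by exact_mod_cast hp'
  have hqR : (q : ℝ) ≤ L := by exact_mod_cast hq
  have hgp : g * p ≤ g * p' := mul_le_mul_of_nonneg_left hppR hg.le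
  have hgq : g * q' ≤ g * q := mul_le_mul_of_nonneg_left hqqR hg.le
  have hgp' : g * p' ≤ g * L := mul_le_mul_of_nonneg_left hp'R hg.le
  have hgqL : g * q ≤ g * L := mul_le_mul_of_nonneg_left hqR hg.le
  have hgp0 : 0 ≤ g * (p : ℝ) := by positivity
  have hgq0 : 0 ≤ g * (q' : ℝ) := by positivity
  have hWS : WS φ ψ A B (g * p) (1 - g * q) (g * p') (1 - g * q') =
      ∫ x in (0 : ℝ)..1, ∫ y in x..1, F x y := by
    unfold WS
    refine intervalIntegral.integral_congr fun x hx => ?_
    rw [Set.uIcc_of_le zero_le_one] at hx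
    refine intervalIntegral.integral_congr fun y hy => ?_
    rw [Set.uIcc_of_le hx.2] at hy
    simp only [hF]
    rw [II_eq hy.1]
  have hFc : Continuous fun v : ℝ × ℝ => F v.1 v.2 :=
    (KT_cont φ ψ A B).mul (II_cont _ _ _ _)
  have hFnn : ∀ x y, 0 ≤ x → x ≤ y → y ≤ 1 → 0 ≤ F x y := by
    intro x y _ _ _
    exact mul_nonneg (KT_nonneg _ _ _ _ _ _) (II_nonneg hgp (by linarith))
  have hfin : g ^ 2 / (L : ℝ) ^ 6 ≤ g / 2 * (u * (1 / 2 * (g / 4))) := by
    have e1 : g / 2 * (u * (1 / 2 * (g / 4))) = g ^ 2 * (u / 16) := by ring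
    rw [e1, div_eq_mul_one_div]
    refine mul_le_mul_of_nonneg_left ?_ (by positivity)
    rw [hu, div_div]
    refine one_div_le_one_div_of_le (by positivity) ?_
    have h1 : (100 : ℝ) ^ 5 ≤ (L : ℝ) ^ 5 := pow_le_pow_left₀ (by norm_num) hLR 5
    have h2 : (L : ℝ) ^ 6 = L ^ 5 * L := by ring
    rw [h2]
    nlinarith
  change g ^ 2 / (L : ℝ) ^ 6 ≤ WS φ ψ A B (g * p) (1 - g * q) (g * p') (1 - g * q')
  rw [hWS]
  refine hfin.trans ?_
  by_cases hpe : p < p'
  · -- lower layer
    have hp1 : (p : ℝ) + 1 ≤ p' := by exact_mod_cast hpe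
    have hgp1 : g * p + g ≤ g * p' := by
      calc g * p + g = g * (p + 1) := by ring
        _ ≤ g * p' := mul_le_mul_of_nonneg_left hp1 hg.le
    have hb := box hFc hFnn (c := 0) (d := g / 2) (e := 1 - 2 * u) (f := 1 - u)
      (m := 1 / 2 * (g / 4)) le_rfl (by linarith) (by linarith) (by linarith) (by linarith) ?_
    · refine le_trans (le_of_eq ?_) hb
      ring
    · intro x y hx0 hx1 hy0 hy1
      have hmx : max x (g * p') = g * p' := max_eq_right (by linarith)
      have hmx2 : max x (g * p) ≤ g * p' - g / 2 := max_le (by linarith) (by linarith)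
      have hy2 : y ≤ 1 - g * q := by linarith
      have hy3 : y ≤ 1 - g * q' := by linarith
      have hK : 1 / 2 ≤ KT φ ψ A B x y :=
        KT_low hg hA hB (s := 200 * u) (by linarith) (by linarith) (by linarith)
          (by linarith) hs
      have hI : g / 4 ≤ II (g * p) (1 - g * q) (g * p') (1 - g * q') x y := by
        rw [II_low (max_le_max le_rfl hgp) (by rw [hmx, min_eq_left hy2]; linarith) (min_eq_left hy2)
          (min_eq_left hy3), hmx]
        have h1 : g / 2 ≤ g * p' - max x (g * p) := by linarith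
        have h2 : 1 / 2 ≤ y - g * p' := by linarith
        calc g / 4 = g / 2 * (1 / 2) := by ring
          _ ≤ _ := mul_le_mul h1 h2 (by norm_num) (by linarith)
      exact mul_le_mul hK hI (by positivity) (KT_nonneg _ _ _ _ _ _)
  · -- upper layer
    have hpe' : p = p' := by omega
    have hqe : q' < q := by
      refine lt_of_le_of_ne hqq fun h => hne ?_
      rw [hpe', h]
    have hq1 : (q' : ℝ) + 1 ≤ q := by exact_mod_cast hqe
    have hgq1 : g * q' + g ≤ g * q := by
      calc g * q' + g = g * (q' + 1) := by ring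
        _ ≤ g * q := mul_le_mul_of_nonneg_left hq1 hg.le
    have hb := box hFc hFnn (c := u) (d := 2 * u) (e := 1 - g / 2) (f := 1)
      (m := 1 / 2 * (g / 4)) hupos.le (by linarith) (by linarith) (by linarith) le_rfl ?_
    · refine le_trans (le_of_eq ?_) hb
      ring
    · intro x y hx0 hx1 hy0 hy1
      have hm1 : max x (g * p) = x := max_eq_left (by linarith)
      have hm2 : max x (g * p') = x := max_eq_left (by linarith)
      have hm3 : min y (1 - g * q) = 1 - g * q := min_eq_right (by linarith)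
      have hm4 : 1 - g * q + g / 2 ≤ min y (1 - g * q') := le_min (by linarith) (by linarith)
      have hK : 1 / 2 ≤ KT φ ψ A B x y :=
        KT_low hg hA hB (s := 200 * u) (by linarith) (by linarith) (by linarith)
          (by linarith) hs
      have hI : g / 4 ≤ II (g * p) (1 - g * q) (g * p') (1 - g * q') x y := by
        rw [II_up hm1 hm2 (by rw [hm3]; linarith) (by rw [hm3]; linarith), hm3]
        have h1 : 1 / 2 ≤ 1 - g * q - x := by linarith
        have h2 : g / 2 ≤ min y (1 - g * q') - (1 - g * q) := by linarith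
        calc g / 4 = 1 / 2 * (g / 2) := by ring
          _ ≤ _ := mul_le_mul h1 h2 (by positivity) (by linarith)
      exact mul_le_mul hK hI (by positivity) (KT_nonneg _ _ _ _ _ _)

theorem t4s : S_REG → S_T4S := fun _ => t4s'

end Pool.Agent.H34.RK
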