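import Pool.Agent.H34.RK.TB

/-! # Project RK: `S_T5` (helper82) -/

set_option autoImplicit false

open Finset MeasureTheory

namespace Pool.Agent.H34.RK

namespace TA

/-- in the middle the weight is a power -/
lemma kk_mid {g : ℝ} {L : ℕ} {A B : Finset ℕ} (hg : 0 < g) (hA : Sub1 L A) (hB : Sub1 L B)
    (x y : ℝ) (hx : g * L ≤ x) (hxy : x ≤ y) (hy : y ≤ 1 - g * L) :
    KK g A B x y = (y - x) ^ (A.card + B.card) := by
  have h1 : ∀ l : ℕ, l ≤ L → g * (l : ℝ) ≤ g * L := fun l hl => by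
    have : (l : ℝ) ≤ L := by exact_mod_cast hl
    exact mul_le_mul_of_nonneg_left this hg.le
  unfold KK KT
  rw [pow_add]
  congr 1
  · rw [← prod_const]
    refine prod_congr rfl fun l hl => ?_
    rw [max_eq_left ((h1 l (hA l hl).2).trans hx), max_eq_left (by linarith)]
  · rw [← prod_const]
    refine prod_congr rfl fun l hl => ?_
    have := h1 l (hB l hl).2
    rw [min_eq_left (by linarith), max_eq_left (by linarith)]

section

variable {g : ℝ} {A B : Finset ℕ} {M : ℕ}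

lemma inner_cont (hK : Continuous fun xy : ℝ × ℝ => KK g A B xy.1 xy.2) (a b : ℝ) :
    Continuous fun x => ∫ y in a..b, KK g A B x y :=
  intervalIntegral.continuous_parametric_intervalIntegral_of_continuous' hK a b

lemma hz_le (hK : Continuous fun xy : ℝ × ℝ => KK g A B xy.1 xy.2)
    (hB : ∀ x y, 0 ≤ x → x ≤ y → y ≤ 1 → 0 ≤ KK g A B x y ∧ KK g A B x y ≤ (y - x) ^ M)
    (p q : ℕ) (z : ℝ) (hz0 : 0 ≤ z) (hz1 : z ≤ 1) :
    hz g A B p q z ≤ 1 / (((M : ℝ) + 1) * (M + 2)) := by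
  unfold hz hZT
  split_ifs with h
  · have h1 : ∫ x in (0 : ℝ)..z, ∫ y in z..1, KK g A B x y ≤
        ∫ x in (0 : ℝ)..z, (1 - x) ^ (M + 1) * ((M : ℝ) + 1)⁻¹ := by
      refine intervalIntegral.integral_mono_on hz0 ((inner_cont hK z 1).intervalIntegrable _ _) ?_
        fun x hx => ?_
      · exact (Continuous.intervalIntegrable (by fun_prop) _ _)
      · rw [← div_eq_mul_inv]
        exact kk_le hK hB x z hx.1 hx.2 hz1
    rw [intervalIntegral.integral_mul_const, int_pow_left, sub_zero, one_pow] at h1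
    refine h1.trans ?_
    have h2 : 0 ≤ (1 - z) ^ (M + 1 + 1) := pow_nonneg (by linarith) _
    calc (1 - (1 - z) ^ (M + 1 + 1)) / (((M + 1 : ℕ) : ℝ) + 1) * ((M : ℝ) + 1)⁻¹
        ≤ 1 / (((M + 1 : ℕ) : ℝ) + 1) * ((M : ℝ) + 1)⁻¹ := by
          gcongr
          linarith
      _ = 1 / (((M : ℝ) + 1) * (M + 2)) := by
          push_cast
          field_simp
          ring_nf
  · positivity

/-- lower bound of the density of a satellite -/
lemma hz_ge {L : ℕ} (hg : 0 < g) (hA : Sub1 L A) (hBs : Sub1 L B)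
    (hK : Continuous fun xy : ℝ × ℝ => KK g A B xy.1 xy.2)
    (hB : ∀ x y, 0 ≤ x → x ≤ y → y ≤ 1 → 0 ≤ KK g A B x y ∧
      KK g A B x y ≤ (y - x) ^ (A.card + B.card))
    (p q : ℕ) (hp : p ≤ L) (hq : q ≤ L) (z : ℝ) (hz0 : g * L ≤ z) (hz1 : z ≤ 1 - g * L) :
    ((1 - 2 * (g * L)) ^ (A.card + B.card + 2) - (1 - g * L - z) ^ (A.card + B.card + 2) -
      (z - g * L) ^ (A.card + B.card + 2)) / (((A.card + B.card : ℕ) + 1) *
        ((A.card + B.card : ℕ) + 2) : ℝ) ≤ hz g A B p q z := by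
  set b : ℝ := g * L with hb
  set M : ℕ := A.card + B.card with hM
  have b0 : 0 ≤ b := by positivity
  have h1 : ∀ l : ℕ, l ≤ L → g * (l : ℝ) ≤ b := fun l hl => by
    have : (l : ℝ) ≤ L := by exact_mod_cast hl
    exact mul_le_mul_of_nonneg_left this hg.le
  have hw : g * (p : ℝ) ≤ z ∧ z ≤ 1 - g * q := by
    have := h1 p hp
    have := h1 q hq
    constructor <;> linarith
  have z0 : 0 ≤ z := b0.trans hz0
  have z1 : z ≤ 1 := by linarith
  have e0 : hz g A B p q z = ∫ x in (0 : ℝ)..z, ∫ y in z..1, KK g A B x y := by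
    unfold hz hZT
    rw [if_pos hw]
    rfl
  rw [e0, ← intervalIntegral.integral_add_adjacent_intervals
    ((inner_cont hK z 1).intervalIntegrable 0 b) ((inner_cont hK z 1).intervalIntegrable b z)]
  have p1 : 0 ≤ ∫ x in (0 : ℝ)..b, ∫ y in z..1, KK g A B x y :=
    intervalIntegral.integral_nonneg b0 fun x hx => kk_nn hB x z 1 hx.1 (hx.2.trans hz0) z1 le_rfl
  have p2 : ∫ x in b..z, ((1 - b - x) ^ (M + 1) - (z - x) ^ (M + 1)) * ((M : ℝ) + 1)⁻¹ ≤
      ∫ x in b..z, ∫ y in z..1, KK g A B x y := by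
    refine intervalIntegral.integral_mono_on hz0 ?_ ((inner_cont hK z 1).intervalIntegrable _ _)
      fun x hx => ?_
    · exact (Continuous.intervalIntegrable (by fun_prop) _ _)
    · have x0 : 0 ≤ x := b0.trans hx.1
      rw [← intervalIntegral.integral_add_adjacent_intervals (kk_int hK x z (1 - b))
        (kk_int hK x (1 - b) 1)]
      have q1 : 0 ≤ ∫ y in (1 - b)..1, KK g A B x y :=
        kk_nn hB x _ _ x0 (hx.2.trans hz1) (by linarith) le_rfl
      have q2 : ∫ y in z..(1 - b), KK g A B x y = ∫ y in z..(1 - b), (y - x) ^ M := by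
        refine intervalIntegral.integral_congr fun y hy => ?_
        rw [Set.uIcc_of_le hz1] at hy
        exact kk_mid hg hA hBs x y hx.1 (hx.2.trans hy.1) hy.2
      rw [q2, int_pow_right, div_eq_mul_inv]
      linarith
  rw [intervalIntegral.integral_mul_const, intervalIntegral.integral_sub, int_pow_left,
    int_pow_left, sub_self] at p2
  · have e2 : ((1 - 2 * b) ^ (M + 2) - (1 - b - z) ^ (M + 2) - (z - b) ^ (M + 2)) /
        (((M : ℝ) + 1) * (M + 2)) =
        (((1 - b - b) ^ (M + 1 + 1) - (1 - b - z) ^ (M + 1 + 1)) / (((M + 1 : ℕ) : ℝ) + 1) -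
          ((z - b) ^ (M + 1 + 1) - 0 ^ (M + 1 + 1)) / (((M + 1 : ℕ) : ℝ) + 1)) *
            ((M : ℝ) + 1)⁻¹ := by
      rw [zero_pow (by omega), show 1 - b - b = 1 - 2 * b by ring]
      push_cast
      field_simp
      ring_nf
    have e3 : (((M : ℕ) : ℝ)) = (M : ℝ) := rfl
    rw [e2]
    linarith
  · exact (Continuous.intervalIntegrable (by fun_prop) _ _)
  · exact (Continuous.intervalIntegrable (by fun_prop) _ _)

/-- the mass of a satellite -/
lemma hz_mass {L : ℕ} (hg : 0 < g) (hL : 100 ≤ L) (hgL : g * L ^ 8 ≤ 1) (hA : Sub1 L A)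
    (hBs : Sub1 L B)
    (hK : Continuous fun xy : ℝ × ℝ => KK g A B xy.1 xy.2)
    (hB : ∀ x y, 0 ≤ x → x ≤ y → y ≤ 1 → 0 ≤ KK g A B x y ∧
      KK g A B x y ≤ (y - x) ^ (A.card + B.card))
    (p q : ℕ) (hp : p ≤ L) (hq : q ≤ L) (hm : Measurable (hz g A B p q))
    (hb : ∀ z, 0 ≤ hz g A B p q z ∧ hz g A B p q z ≤ 1) :
    (99 / 100 : ℝ) / (((A.card + B.card : ℕ) + 2) * ((A.card + B.card : ℕ) + 3) : ℝ) ≤
      ∫ z in (0 : ℝ)..1, hz g A B p q z := by
  have hL1 : (100 : ℝ) ≤ L := by exact_mod_cast hL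
  have g1 := gL_small hg hL hgL 1 (by norm_num)
  have g2 := gL_small hg hL hgL 2 (by norm_num)
  norm_num at g1 g2
  set b : ℝ := g * L with hbd
  set M : ℕ := A.card + B.card with hM
  have hML : (M : ℝ) ≤ 2 * L := by
    have h1 := card_le_L hA
    have h2 := card_le_L hBs
    have : M ≤ 2 * L := by omega
    exact_mod_cast this
  have b0 : 0 ≤ b := by positivity
  have b1 : b ≤ 1 / 4 := by linarith
  have hi : ∀ a c : ℝ, IntervalIntegrable (hz g A B p q) volume a c := fun a c =>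
    ii_of_bdd hm (C := 1) (fun z => by rw [abs_of_nonneg (hb z).1]; exact (hb z).2) a c
  have e1 : ∫ z in (0 : ℝ)..1, hz g A B p q z = (∫ z in (0 : ℝ)..b, hz g A B p q z) +
      (∫ z in b..(1 - b), hz g A B p q z) + ∫ z in (1 - b)..1, hz g A B p q z := by
    rw [intervalIntegral.integral_add_adjacent_intervals (hi _ _) (hi _ _),
      intervalIntegral.integral_add_adjacent_intervals (hi _ _) (hi _ _)]
  have n1 : 0 ≤ ∫ z in (0 : ℝ)..b, hz g A B p q z :=
    intervalIntegral.integral_nonneg b0 fun z _ => (hb z).1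
  have n2 : 0 ≤ ∫ z in (1 - b)..1, hz g A B p q z :=
    intervalIntegral.integral_nonneg (by linarith) fun z _ => (hb z).1
  have n3 : ∫ z in b..(1 - b), ((1 - 2 * b) ^ (M + 2) - (1 - b - z) ^ (M + 2) -
      (z - b) ^ (M + 2)) * ((((M : ℝ) + 1) * (M + 2)))⁻¹ ≤ ∫ z in b..(1 - b), hz g A B p q z := by
    refine intervalIntegral.integral_mono_on (by linarith) ?_ (hi _ _) fun z hz' => ?_
    · exact (Continuous.intervalIntegrable (by fun_prop) _ _)
    · rw [← div_eq_mul_inv]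
      exact hz_ge hg hA hBs hK hB p q hp hq z hz'.1 hz'.2
  rw [intervalIntegral.integral_mul_const, intervalIntegral.integral_sub,
    intervalIntegral.integral_sub, int_pow_left, int_pow_right,
    intervalIntegral.integral_const, sub_self, smul_eq_mul] at n3
  · have e2 : ((1 - b - b) * (1 - 2 * b) ^ (M + 2) -
        ((1 - b - b) ^ (M + 2 + 1) - 0 ^ (M + 2 + 1)) / (((M + 2 : ℕ) : ℝ) + 1) -
        ((1 - b - b) ^ (M + 2 + 1) - (b - b) ^ (M + 2 + 1)) / (((M + 2 : ℕ) : ℝ) + 1)) *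
        (((M : ℝ) + 1) * (M + 2))⁻¹ = (1 - 2 * b) ^ (M + 3) / (((M : ℝ) + 2) * (M + 3)) := by
      rw [sub_self, zero_pow (by omega), show 1 - b - b = 1 - 2 * b by ring]
      push_cast
      field_simp
      ring_nf
    rw [e2] at n3
    have n4 : (99 / 100 : ℝ) ≤ (1 - 2 * b) ^ (M + 3) := by
      have := one_add_mul_le_pow (a := -(2 * b)) (by linarith) (M + 3)
      have e : 1 + -(2 * b) = 1 - 2 * b := by ring
      rw [e] at this
      refine le_trans ?_ this
      push_cast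
      have k1 : b * ((M : ℝ) + 3) ≤ b * (2 * L + 3) := by gcongr
      have k2 : b * (2 * (L : ℝ) + 3) ≤ 3 * (g * L ^ 2) := by
        rw [hbd]; nlinarith
      nlinarith
    have n5 : (99 / 100 : ℝ) / (((M : ℝ) + 2) * (M + 3)) ≤
        (1 - 2 * b) ^ (M + 3) / (((M : ℝ) + 2) * (M + 3)) :=
      div_le_div_of_nonneg_right n4 (by positivity)
    rw [e1]
    linarith
  · exact (Continuous.intervalIntegrable (by fun_prop) _ _)
  · exact (Continuous.intervalIntegrable (by fun_prop) _ _)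
  · exact (Continuous.intervalIntegrable (by fun_prop) _ _)
  · exact (Continuous.intervalIntegrable (by fun_prop) _ _)

end

end TA

/-- **T5** -/
theorem t5 : S_REG → S_ZB → S_DUAL → S_T5 := by
  intro HR HZ HD g L A B A' B' p q hg hL hgL hA hB hA' hB' hM hM' hp hq
  obtain ⟨-, -, -, d4, d5, -, -⟩ := HD
  have hL1 : (100 : ℝ) ≤ L := by exact_mod_cast hL
  have hL0 : (0 : ℝ) < L := by linarith
  -- facts on a lower centre
  have cen : ∀ A B : Finset ℕ, Sub1 L A → Sub1 L B → 30 ≤ A.card + B.card →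
      ∀ c : ℝ, 1 / 4 ≤ c → c ≤ 1 →
      ∫ z in c..1, hx g A B z ≤ 1 / 100 * ∫ z in (0 : ℝ)..1, hx g A B z := by
    intro A B hA hB hM c hc hc1
    obtain ⟨r1, r2, r3, r4, r5, r6, r7⟩ := reg_facts HR g L A B hg hL hgL hA hB hM
    have hz := (HZ g L A B hg hL hgL hA hB hM).2
    have h1 := TA.hx_tail r1 r2 r3 r5 c (by linarith) hc1
    have h2 : ∫ z in (0 : ℝ)..1, hx g A B z = ZZ g A B := rfl
    rw [h2]
    refine h1.trans ?_
    set M : ℕ := A.card + B.card with hMd
    have h3 : (1 - c) ^ (M + 2) ≤ 99 / 10000 := by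
      calc (1 - c) ^ (M + 2) ≤ (3 / 4 : ℝ) ^ (M + 2) := by
            apply pow_le_pow_left₀ (by linarith) (by linarith)
        _ ≤ (3 / 4 : ℝ) ^ 32 := pow_le_pow_of_le_one (by norm_num) (by norm_num) (by omega)
        _ ≤ 99 / 10000 := by norm_num
    have h4 : (0 : ℝ) < ((M : ℝ) + 1) * (M + 2) := by positivity
    calc (1 - c) ^ (M + 2) / (((M : ℝ) + 1) * (M + 2)) ≤ (99 / 10000) / (((M : ℝ) + 1) * (M + 2)) :=
          div_le_div_of_nonneg_right h3 h4.le
      _ = 1 / 100 * ((99 / 100) / (((M : ℝ) + 1) * (M + 2))) := by ring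
      _ ≤ 1 / 100 * ZZ g A B := mul_le_mul_of_nonneg_left hz (by norm_num)
  -- the upper centre
  have flip : ∀ A B : Finset ℕ, ∀ a b : ℝ,
      ∫ z in a..b, hy g A B z = ∫ z in (1 - b)..(1 - a), hx g B A z := by
    intro A B a b
    have e : ∫ y in a..b, hy g A B y = ∫ y in a..b, hx g B A (1 - y) :=
      intervalIntegral.integral_congr fun y _ => d4 g A B y
    rw [e, intervalIntegral.integral_comp_sub_left (fun x => hx g B A x) 1]
  have ymass : ∀ A B : Finset ℕ, ∫ z in (0 : ℝ)..1, hy g A B z = ZZ g A B := by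
    intro A B
    rw [flip, sub_self, sub_zero, d5]
    rfl
  have yc : ∀ A B : Finset ℕ, Sub1 L A → Sub1 L B → 30 ≤ A.card + B.card →
      ∀ c : ℝ, 0 ≤ c → c ≤ 3 / 4 →
      ∫ z in (0 : ℝ)..c, hy g A B z ≤ 1 / 100 * ∫ z in (0 : ℝ)..1, hy g A B z := by
    intro A B hA hB hM c hc hc1
    have h := cen B A hB hA (by omega) (1 - c) (by linarith) (by linarith)
    rw [flip A B 0 c, flip A B 0 1, sub_zero, sub_self]
    exact h
  -- lower bound of the partition function
  have zlow : ∀ A B : Finset ℕ, Sub1 L A → Sub1 L B → 30 ≤ A.card + B.card →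
      1 / (9 * (L : ℝ) ^ 2) ≤ ZZ g A B := by
    intro A B hA hB hM
    have hz := (HZ g L A B hg hL hgL hA hB hM).2
    refine le_trans ?_ hz
    have hML : ((A.card + B.card : ℕ) : ℝ) ≤ 2 * L := by
      have h1 := card_le_L hA
      have h2 := card_le_L hB
      have : A.card + B.card ≤ 2 * L := by omega
      exact_mod_cast this
    rw [div_le_div_iff₀ (by positivity) (by positivity)]
    have : ((((A.card + B.card : ℕ) : ℝ)) + 1) * (((A.card + B.card : ℕ) : ℝ) + 2) ≤
        (2 * L + 1) * (2 * L + 2) := by gcongr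
    nlinarith
  have fin : ∀ a b : ℝ, 1 / (9 * (L : ℝ) ^ 2) ≤ a → 1 / (10 * (L : ℝ) ^ 2) ≤ b →
      1 / (L : ℝ) ^ 10 ≤ (1 - 2 * (3 / 11) - 2 * (1 / 100)) * (a * b) := by
    intro a b ha hb
    have ha0 : 0 ≤ a := le_trans (by positivity) ha
    have h1 : 1 / (9 * (L : ℝ) ^ 2) * (1 / (10 * (L : ℝ) ^ 2)) ≤ a * b := by gcongr
    have h2 : (2 / 5 : ℝ) * (1 / (9 * (L : ℝ) ^ 2) * (1 / (10 * (L : ℝ) ^ 2))) ≤
        (1 - 2 * (3 / 11) - 2 * (1 / 100)) * (a * b) := by
      have h3 : 0 ≤ 1 / (9 * (L : ℝ) ^ 2) * (1 / (10 * (L : ℝ) ^ 2)) := by positivity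
      nlinarith
    refine le_trans ?_ h2
    have e : (2 / 5 : ℝ) * (1 / (9 * (L : ℝ) ^ 2) * (1 / (10 * (L : ℝ) ^ 2))) =
        1 / (225 * (L : ℝ) ^ 4) := by
      field_simp
      norm_num
    rw [e]
    apply one_div_le_one_div_of_le (by positivity)
    have h4 : (225 : ℝ) ≤ (L : ℝ) ^ 6 := by
      calc (225 : ℝ) ≤ 100 ^ 6 := by norm_num
        _ ≤ (L : ℝ) ^ 6 := pow_le_pow_left₀ (by norm_num) hL1 6
    calc 225 * (L : ℝ) ^ 4 ≤ (L : ℝ) ^ 6 * (L : ℝ) ^ 4 := by gcongr
      _ = (L : ℝ) ^ 10 := by ring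
  obtain ⟨r1, r2, r3, r4, r5, r6, r7⟩ := reg_facts HR g L A B hg hL hgL hA hB hM
  obtain ⟨s1, s2, s3, s4, s5, s6, s7⟩ := reg_facts HR g L A' B' hg hL hgL hA' hB' hM'
  obtain ⟨hm, hbz⟩ := s7 p q hp hq
  have mass := TA.hz_mass hg hL hgL hA' hB' s1 s2 p q hp hq hm hbz
  have mcut : Measurable (TA.cut (hz g A' B' p q)) := by
    unfold TA.cut
    exact Measurable.ite (measurableSet_Ici.inter measurableSet_Iic) hm measurable_const
  set M' : ℕ := A'.card + B'.card with hMd'
  have hM'30 : (30 : ℝ) ≤ M' := by exact_mod_cast hM'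
  have hML' : (M' : ℝ) ≤ 2 * L := by
    have h1 := card_le_L hA'
    have h2 := card_le_L hB'
    have : M' ≤ 2 * L := by omega
    exact_mod_cast this
  have massL : 1 / (10 * (L : ℝ) ^ 2) ≤ ∫ z in (0 : ℝ)..1, hz g A' B' p q z := by
    refine le_trans ?_ mass
    rw [div_le_div_iff₀ (by positivity) (by positivity)]
    have : ((M' : ℝ) + 2) * ((M' : ℝ) + 3) ≤ (2 * L + 2) * (2 * L + 3) := by gcongr
    nlinarith
  -- a quarter of the unit interval has a small mass
  have quarter : ∀ a : ℝ, 0 ≤ a → a + 1 / 4 ≤ 1 →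
      ∫ z in a..(a + 1 / 4), hz g A' B' p q z ≤
        3 / 11 * ∫ z in (0 : ℝ)..1, hz g A' B' p q z := by
    intro a ha ha1
    have b1 := intervalIntegral.norm_integral_le_of_norm_le_const (a := a) (b := a + 1 / 4)
      (C := 1 / (((M' : ℝ) + 1) * (M' + 2))) (f := hz g A' B' p q) fun x hx' => by
        rw [Set.uIoc_of_le (by linarith)] at hx'
        rw [Real.norm_eq_abs, abs_of_nonneg (hbz x).1]
        exact TA.hz_le s1 s2 p q x (by linarith [hx'.1]) (by linarith [hx'.2])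
    have b2 : |a + 1 / 4 - a| = 1 / 4 := by
      rw [show a + 1 / 4 - a = (1 / 4 : ℝ) by ring]
      exact abs_of_pos (by norm_num)
    rw [b2] at b1
    refine (le_trans (le_abs_self _) b1).trans ?_
    refine le_trans ?_ (mul_le_mul_of_nonneg_left mass (by norm_num))
    rw [div_mul_div_comm, mul_div_assoc', div_le_div_iff₀ (by positivity) (by positivity)]
    nlinarith
  refine ⟨?_, ?_, ?_⟩
  · have h := TA.ww_lower (hx g A B) (hz g A' B' p q) (1 / 4) (1 / 100) (3 / 11) (by norm_num)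
      (by norm_num) r3 mcut r5 (fun z _ _ => hbz z) (cen A B hA hB hM _ le_rfl (by norm_num))
      (by have := quarter 0 le_rfl (by norm_num); rwa [zero_add] at this)
    refine le_trans ?_ h
    have e : (1 - 2 * (1 / 100) - 2 * (3 / 11) : ℝ) = 1 - 2 * (3 / 11) - 2 * (1 / 100) := by ring
    rw [e]
    exact fin _ _ (zlow A B hA hB hM) massL
  · have h := TA.ww_lower (hz g A' B' p q) (hy g A B) (3 / 4) (3 / 11) (1 / 100) (by norm_num)
      (by norm_num) mcut r4 (fun z _ _ => hbz z) r6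
      (by have := quarter (3 / 4) (by norm_num) (by norm_num)
          rwa [show (3 / 4 : ℝ) + 1 / 4 = 1 by norm_num] at this)
      (yc A B hA hB hM _ (by norm_num) le_rfl)
    refine le_trans ?_ h
    rw [mul_comm (∫ z in (0 : ℝ)..1, hz g A' B' p q z)]
    refine fin _ _ ?_ massL
    rw [ymass]
    exact zlow A B hA hB hM
  · have h := TA.ww_lower (hx g A B) (hy g A' B') (1 / 4) (1 / 100) (1 / 100) (by norm_num)
      (by norm_num) r3 s4 r5 s6 (cen A B hA hB hM _ le_rfl (by norm_num))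
      (yc A' B' hA' hB' hM' _ (by norm_num) (by norm_num))
    refine le_trans ?_ h
    have h1 := zlow A B hA hB hM
    have h2 := zlow A' B' hA' hB' hM'
    rw [← ymass A' B'] at h2
    have h3 : ∫ z in (0 : ℝ)..1, hx g A B z = ZZ g A B := rfl
    rw [h3]
    have p1 : (0 : ℝ) < 1 / (9 * (L : ℝ) ^ 2) := by positivity
    refine (fin _ _ h1 (le_trans ?_ h2)).trans ?_
    · apply one_div_le_one_div_of_le (by positivity)
      nlinarith
    · apply mul_le_mul_of_nonneg_right (by norm_num)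
      exact mul_nonneg (p1.le.trans h1) (p1.le.trans h2)

end Pool.Agent.H34.RK
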