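import Pool.Agent.H34.RK.TB

/-! # Project RK: `S_T6` (helper82) -/

set_option autoImplicit false

open Finset MeasureTheory

namespace Pool.Agent.H34.RK

/-- **T6** -/
theorem t6 : S_REG → S_ZB → S_DUAL → S_T6 := by
  intro HR HZ HD g L A B hg hL hgL hA hB hM
  refine ⟨t6_low HR HZ g L A B hg hL hgL hA hB hM, ?_⟩
  obtain ⟨-, -, -, d4, d5, -, -⟩ := HD
  have h := t6_low HR HZ g L B A hg hL hgL hB hA (by omega)
  rw [← d5] at h
  refine le_trans (le_of_eq ?_) h
  have e : ∫ y in (1 - 2 * g * L)..1, hy g A B y = ∫ y in (1 - 2 * g * L)..1, hx g B A (1 - y) :=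
    intervalIntegral.integral_congr fun y _ => d4 g A B y
  rw [e, intervalIntegral.integral_comp_sub_left (fun x => hx g B A x) 1]
  congr 1 <;> ring

end Pool.Agent.H34.RK
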