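import Pool.Agent.H34.RK.W2

/-! # RK-W1 (helper71), adapted from W2 (helper63) -/

set_option autoImplicit false

open Finset MeasureTheory

namespace Pool.Agent.H34.RK

open W2aux

theorem w1 : S_K1 → S_Q4 → S_MOM → S_BLKCARD → S_W1 := by
  classical
  intro hK hQ hM hC D B c c' hD
  obtain ⟨A, hA⟩ : ∃ A, A = blk D B c := ⟨_, rfl⟩
  obtain ⟨A', hA'⟩ : ∃ A', A' = blk D B c' := ⟨_, rfl⟩
  have hCc := hC D B c (by omega)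
  have hCc' := hC D B c' (by omega)
  have hq := hQ D B c c' hD
  rw [← hA] at hCc hq ⊢
  rw [← hA'] at hCc' hq ⊢
  have hR : (0 : ℝ) ≤ (len D B : ℕ) := Nat.cast_nonneg _
  rw [dbl hR A A' (fun l v => max ((l : ℝ) - v) 0) (fun l v => max ((l : ℝ) - v) 0)
    (fun l => by fun_prop) (fun l => by fun_prop)]
  have e2 : (∑ l ∈ A, ∑ l' ∈ A', ∫ v in (0 : ℝ)..(len D B : ℕ), ∫ v' in (0 : ℝ)..(len D B : ℕ),
      Real.sign (v' - v) * max ((l : ℝ) - v) 0 * max ((l' : ℝ) - v') 0) =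
      ∑ l ∈ A, ∑ l' ∈ A', ((1 / 24) * ((l : ℝ) ^ 4 * (l' : ℝ) ^ 0) +
        (-1 / 24) * ((l : ℝ) ^ 0 * (l' : ℝ) ^ 4) + (-1 / 6) * ((l : ℝ) ^ 3 * (l' : ℝ) ^ 1) +
        (1 / 6) * ((l : ℝ) ^ 1 * (l' : ℝ) ^ 3) +
        (1 / 24) * (Real.sign ((l' : ℝ) - l) * ((l' : ℝ) - l) ^ 4)) := by
    refine sum_congr rfl fun l hl => sum_congr rfl fun l' hl' => ?_
    rw [hK l l' (len D B : ℕ) (Nat.cast_nonneg _) (by exact_mod_cast (hCc.2.1 l hl).2)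
      (Nat.cast_nonneg _) (by exact_mod_cast (hCc'.2.1 l' hl').2)]
    ring
  rw [e2]
  have hm : ∀ a ≤ 4, ∑ l ∈ A, (l : ℝ) ^ a = ∑ l ∈ A', (l : ℝ) ^ a := by
    intro a ha
    have h := hM D B 0 a c c' (by omega) (Or.inl rfl)
    rw [← hA, ← hA'] at h
    rw [Finset.filter_true_of_mem (fun l hl => by have := hCc.2.1 l hl; omega),
      Finset.filter_true_of_mem (fun l hl => by have := hCc'.2.1 l hl; omega)] at h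
    exact h
  have e0 : ∀ i j : ℕ, ∑ l ∈ A, ∑ l' ∈ A', (l : ℝ) ^ i * (l' : ℝ) ^ j =
      (∑ l ∈ A, (l : ℝ) ^ i) * (∑ l ∈ A', (l : ℝ) ^ j) := fun i j => (sum_mul_sum _ _ _ _).symm
  have hqR : (∑ l ∈ A, ∑ l' ∈ A', Real.sign ((l' : ℝ) - l) * ((l' : ℝ) - l) ^ 4) =
      ((41148 * 3 ^ (D - 6) * ∑ i ∈ range B, cyc (c i) (c' i) : ℤ) : ℝ) := by
    rw [← hq]
    unfold Qk
    push_cast
    refine sum_congr rfl fun l _ => sum_congr rfl fun l' _ => ?_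
    rw [sign_cast]
    push_cast
    rfl
  have e3 : ∀ (S : ℕ → ℕ → ℝ), ∑ l ∈ A, ∑ l' ∈ A', ((1 / 24) * ((l : ℝ) ^ 4 * (l' : ℝ) ^ 0) +
        (-1 / 24) * ((l : ℝ) ^ 0 * (l' : ℝ) ^ 4) + (-1 / 6) * ((l : ℝ) ^ 3 * (l' : ℝ) ^ 1) +
        (1 / 6) * ((l : ℝ) ^ 1 * (l' : ℝ) ^ 3) + (1 / 24) * S l l') =
      (1 / 24) * ((∑ l ∈ A, (l : ℝ) ^ 4) * (∑ l ∈ A', (l : ℝ) ^ 0)) +
        (-1 / 24) * ((∑ l ∈ A, (l : ℝ) ^ 0) * (∑ l ∈ A', (l : ℝ) ^ 4)) +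
        (-1 / 6) * ((∑ l ∈ A, (l : ℝ) ^ 3) * (∑ l ∈ A', (l : ℝ) ^ 1)) +
        (1 / 6) * ((∑ l ∈ A, (l : ℝ) ^ 1) * (∑ l ∈ A', (l : ℝ) ^ 3)) +
        (1 / 24) * ∑ l ∈ A, ∑ l' ∈ A', S l l' := by
    intro S
    rw [← e0, ← e0, ← e0, ← e0]
    simp only [sum_add_distrib, ← mul_sum]
  rw [e3 (fun l l' => Real.sign ((l' : ℝ) - l) * ((l' : ℝ) - l) ^ 4), hqR,
    hm 0 (by norm_num), hm 1 (by norm_num), hm 3 (by norm_num), hm 4 (by norm_num)]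
  push_cast
  ring

end Pool.Agent.H34.RK
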