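import Pool.Agent.H34.RK.Stm1

/-! RK-W2 (helper63) -/

set_option autoImplicit false

open Finset MeasureTheory

namespace Pool.Agent.H34.RK

namespace W2aux

theorem meas_sign : Measurable Real.sign := by
  unfold Real.sign
  exact Measurable.ite measurableSet_Iio measurable_const
    (Measurable.ite measurableSet_Ioi measurable_const measurable_const)

theorem abs_sign_le (x : ℝ) : ‖Real.sign x‖ ≤ 1 := by
  rcases Real.sign_apply_eq x with h | h | h <;> rw [h] <;> norm_num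

/-- double integrals of sums -/
theorem dbl {p L : ℝ} (h : p ≤ L) (A A' : Finset ℕ) (f g : ℕ → ℝ → ℝ) (hf : ∀ l, Continuous (f l))
    (hg : ∀ l, Continuous (g l)) :
    ∫ v in p..L, ∫ v' in p..L, Real.sign (v' - v) * (∑ l ∈ A, f l v) * (∑ l' ∈ A', g l' v') =
      ∑ l ∈ A, ∑ l' ∈ A', ∫ v in p..L, ∫ v' in p..L, Real.sign (v' - v) * f l v * g l' v' := by
  simp only [intervalIntegral.integral_of_le h]
  set μ := (volume : Measure ℝ).restrict (Set.Ioc p L) with hμ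
  have hfi : ∀ l, Integrable (f l) μ := fun l =>
    ((hf l).continuousOn.integrableOn_compact isCompact_Icc).mono_set Set.Ioc_subset_Icc_self
  have hgi : ∀ l, Integrable (g l) μ := fun l =>
    ((hg l).continuousOn.integrableOn_compact isCompact_Icc).mono_set Set.Ioc_subset_Icc_self
  have hKi : ∀ l l', Integrable (fun z : ℝ × ℝ => Real.sign (z.2 - z.1) * f l z.1 * g l' z.2)
      (μ.prod μ) := by
    intro l l'
    have h1 : Integrable (fun z : ℝ × ℝ => f l z.1 * g l' z.2) (μ.prod μ) :=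
      (hfi l).mul_prod (hgi l')
    have h2 : Integrable (fun z : ℝ × ℝ => Real.sign (z.2 - z.1) * (f l z.1 * g l' z.2))
        (μ.prod μ) :=
      h1.bdd_mul (c := 1)
        ((meas_sign.comp (measurable_snd.sub measurable_fst)).aestronglyMeasurable)
        (Filter.Eventually.of_forall fun z => abs_sign_le _)
    refine h2.congr (Filter.Eventually.of_forall fun z => ?_)
    simp only
    ring
  have e1 : ∀ l l', ∫ v, ∫ v', Real.sign (v' - v) * f l v * g l' v' ∂μ ∂μ =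
      ∫ z : ℝ × ℝ, Real.sign (z.2 - z.1) * f l z.1 * g l' z.2 ∂(μ.prod μ) := fun l l' =>
    (integral_prod _ (hKi l l')).symm
  have e2 : (fun z : ℝ × ℝ => Real.sign (z.2 - z.1) * (∑ l ∈ A, f l z.1) *
      (∑ l' ∈ A', g l' z.2)) = fun z : ℝ × ℝ =>
      ∑ l ∈ A, ∑ l' ∈ A', Real.sign (z.2 - z.1) * f l z.1 * g l' z.2 := by
    funext z
    rw [mul_assoc, sum_mul_sum, mul_sum]
    refine sum_congr rfl fun l _ => ?_
    rw [mul_sum]
    refine sum_congr rfl fun l' _ => ?_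
    ring
  have hsi : ∀ l ∈ A, Integrable (fun z : ℝ × ℝ =>
      ∑ l' ∈ A', Real.sign (z.2 - z.1) * f l z.1 * g l' z.2) (μ.prod μ) := fun l _ =>
    integrable_finsetSum _ fun l' _ => hKi l l'
  have e3 : ∫ v, ∫ v', Real.sign (v' - v) * (∑ l ∈ A, f l v) * (∑ l' ∈ A', g l' v') ∂μ ∂μ =
      ∫ z : ℝ × ℝ, Real.sign (z.2 - z.1) * (∑ l ∈ A, f l z.1) * (∑ l' ∈ A', g l' z.2)
        ∂(μ.prod μ) := by
    refine (integral_prod (fun z : ℝ × ℝ => Real.sign (z.2 - z.1) * (∑ l ∈ A, f l z.1) *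
      (∑ l' ∈ A', g l' z.2)) ?_).symm
    rw [e2]
    exact integrable_finsetSum _ hsi
  rw [e3, e2, integral_finsetSum _ hsi]
  refine sum_congr rfl fun l _ => ?_
  rw [integral_finsetSum _ fun l' _ => hKi l l']
  exact sum_congr rfl fun l' _ => (e1 l l').symm

/-- shift -/
theorem shift (hK : S_K2) {p L a b : ℝ} (ha : p ≤ a) (haL : a ≤ L) (hb : p ≤ b) (hbL : b ≤ L) :
    (∫ v in p..L, ∫ v' in p..L, Real.sign (v' - v) * (max (a - v) 0) ^ 2 * (max (b - v') 0) ^ 2) =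
      (-(a - p) ^ 6 + 6 * (a - p) ^ 5 * (b - p) - 15 * (a - p) ^ 4 * (b - p) ^ 2 +
        15 * (a - p) ^ 2 * (b - p) ^ 4 - 6 * (a - p) * (b - p) ^ 5 + (b - p) ^ 6) / 180 -
        Real.sign (b - a) * (b - a) ^ 6 / 180 := by
  have h := hK (a - p) (b - p) (L - p) (by linarith) (by linarith) (by linarith) (by linarith)
  have e1 : ∀ φ : ℝ → ℝ, ∫ v in p..L, φ v = ∫ v in (0 : ℝ)..(L - p), φ (v + p) := by
    intro φ
    rw [intervalIntegral.integral_comp_add_right]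
    congr 1 <;> ring
  rw [e1]
  have e2 : ∀ v : ℝ, (∫ v' in p..L, Real.sign (v' - (v + p)) * (max (a - (v + p)) 0) ^ 2 *
      (max (b - v') 0) ^ 2) = ∫ v' in (0 : ℝ)..(L - p), Real.sign (v' - v) *
        (max (a - p - v) 0) ^ 2 * (max (b - p - v') 0) ^ 2 := by
    intro v
    rw [e1]
    congr 1
    funext v'
    rw [show v' + p - (v + p) = v' - v by ring, show a - (v + p) = a - p - v by ring,
      show b - (v' + p) = b - p - v' by ring]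
  simp only [e2]
  rw [h]
  rw [show b - p - (a - p) = b - a by ring]

theorem sign_cast (z : ℤ) : ((Int.sign z : ℤ) : ℝ) = Real.sign (z : ℝ) := by
  rcases lt_trichotomy z 0 with h | h | h
  · rw [Int.sign_eq_neg_one_of_neg h, Real.sign_of_neg (by exact_mod_cast h)]
    norm_num
  · subst h
    simp
  · rw [Int.sign_eq_one_of_pos h, Real.sign_of_pos (by exact_mod_cast h)]
    norm_num

/-- shifted moments -/
theorem shmom {A A' : Finset ℕ} {p : ℝ} (k : ℕ)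
    (h : ∀ a ≤ k, ∑ l ∈ A, (l : ℝ) ^ a = ∑ l ∈ A', (l : ℝ) ^ a) :
    ∑ l ∈ A, ((l : ℝ) - p) ^ k = ∑ l ∈ A', ((l : ℝ) - p) ^ k := by
  have e : ∀ S : Finset ℕ, ∑ l ∈ S, ((l : ℝ) - p) ^ k =
      ∑ j ∈ range (k + 1), (∑ l ∈ S, (l : ℝ) ^ j) * ((-p) ^ (k - j) * (k.choose j : ℝ)) := by
    intro S
    simp only [sub_eq_add_neg, add_pow]
    rw [sum_comm]
    refine sum_congr rfl fun j _ => ?_
    rw [sum_mul]
    refine sum_congr rfl fun l _ => ?_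
    ring
  rw [e, e]
  refine sum_congr rfl fun j hj => ?_
  rw [h j (by
    rw [mem_range] at hj
    omega)]

theorem sum_poly (A A' : Finset ℕ) (x : ℕ → ℝ) (S : ℕ → ℕ → ℝ) :
    (∑ l ∈ A, ∑ l' ∈ A', ((-(x l) ^ 6 + 6 * (x l) ^ 5 * (x l') - 15 * (x l) ^ 4 * (x l') ^ 2 +
        15 * (x l) ^ 2 * (x l') ^ 4 - 6 * (x l) * (x l') ^ 5 + (x l') ^ 6) / 180 - S l l' / 180)) =
      (-(∑ l ∈ A, (x l) ^ 6) * (∑ l ∈ A', (x l) ^ 0) +
        6 * (∑ l ∈ A, (x l) ^ 5) * (∑ l ∈ A', (x l) ^ 1) -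
        15 * (∑ l ∈ A, (x l) ^ 4) * (∑ l ∈ A', (x l) ^ 2) +
        15 * (∑ l ∈ A, (x l) ^ 2) * (∑ l ∈ A', (x l) ^ 4) -
        6 * (∑ l ∈ A, (x l) ^ 1) * (∑ l ∈ A', (x l) ^ 5) +
        (∑ l ∈ A, (x l) ^ 0) * (∑ l ∈ A', (x l) ^ 6)) / 180 -
      (∑ l ∈ A, ∑ l' ∈ A', S l l') / 180 := by
  have e0 : ∀ i j : ℕ, (∑ l ∈ A, (x l) ^ i) * (∑ l ∈ A', (x l) ^ j) =
      ∑ l ∈ A, ∑ l' ∈ A', (x l) ^ i * (x l') ^ j := fun i j => sum_mul_sum _ _ _ _
  have e1 : (∑ l ∈ A, ∑ l' ∈ A', ((-(x l) ^ 6 + 6 * (x l) ^ 5 * (x l') - 15 * (x l) ^ 4 * (x l') ^ 2 +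
        15 * (x l) ^ 2 * (x l') ^ 4 - 6 * (x l) * (x l') ^ 5 + (x l') ^ 6) / 180 - S l l' / 180)) =
      ∑ l ∈ A, ∑ l' ∈ A', ((-1 / 180) * ((x l) ^ 6 * (x l') ^ 0) + (6 / 180) * ((x l) ^ 5 * (x l') ^ 1) +
        (-15 / 180) * ((x l) ^ 4 * (x l') ^ 2) + (15 / 180) * ((x l) ^ 2 * (x l') ^ 4) +
        (-6 / 180) * ((x l) ^ 1 * (x l') ^ 5) + (1 / 180) * ((x l) ^ 0 * (x l') ^ 6) +
        (-1 / 180) * S l l') := by
    refine sum_congr rfl fun l _ => sum_congr rfl fun l' _ => ?_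
    ring
  rw [e1]
  simp only [sum_add_distrib, ← mul_sum, ← sum_mul]
  ring

end W2aux

open W2aux

theorem w2 : S_K2 → S_Q6 → S_MOM → S_BLKCARD → S_W2 := by
  classical
  intro hK hQ hM hC D B p c c' hD hp
  set A := (blk D B c).filter (p < ·) with hA
  set A' := (blk D B c').filter (p < ·) with hA'
  have hCc := hC D B c (by omega)
  have hCc' := hC D B c' (by omega)
  have hpL : p ≤ len D B := by
    rcases hp with h | h
    · omega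
    · exact (hCc.2.1 p h.1).2
  have hpLR : (p : ℝ) ≤ (len D B : ℕ) := by exact_mod_cast hpL
  have hmA : ∀ l ∈ A, (p : ℝ) ≤ l ∧ (l : ℝ) ≤ (len D B : ℕ) := by
    intro l hl
    rw [hA, mem_filter] at hl
    exact ⟨by exact_mod_cast hl.2.le, by exact_mod_cast (hCc.2.1 l hl.1).2⟩
  have hmA' : ∀ l ∈ A', (p : ℝ) ≤ l ∧ (l : ℝ) ≤ (len D B : ℕ) := by
    intro l hl
    rw [hA', mem_filter] at hl
    exact ⟨by exact_mod_cast hl.2.le, by exact_mod_cast (hCc'.2.1 l hl.1).2⟩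
  -- the elements below `p` do not contribute
  have hsub : ∀ (S : Finset ℕ) (v : ℝ), (p : ℝ) ≤ v → ∑ l ∈ S.erase p, (max ((l : ℝ) - v) 0) ^ 2 =
      ∑ l ∈ S.filter (p < ·), (max ((l : ℝ) - v) 0) ^ 2 := by
    intro S v hv
    symm
    refine sum_subset ?_ ?_
    · intro l hl
      rw [mem_filter] at hl
      exact mem_erase.2 ⟨by omega, hl.1⟩
    · intro l hl hnl
      rw [mem_erase] at hl
      rw [mem_filter, not_and] at hnl
      have h1 := hnl hl.2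
      have h2 : (l : ℝ) ≤ p := by
        have : l ≤ p := by omega
        exact_mod_cast this
      rw [max_eq_right (by linarith)]
      norm_num
  have e1 : (∫ v in (p : ℝ)..(len D B : ℕ), ∫ v' in (p : ℝ)..(len D B : ℕ), Real.sign (v' - v) *
      (∑ l ∈ (blk D B c).erase p, (max ((l : ℝ) - v) 0) ^ 2) *
        ∑ l ∈ (blk D B c').erase p, (max ((l : ℝ) - v') 0) ^ 2) =
      ∫ v in (p : ℝ)..(len D B : ℕ), ∫ v' in (p : ℝ)..(len D B : ℕ), Real.sign (v' - v) *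
      (∑ l ∈ A, (max ((l : ℝ) - v) 0) ^ 2) * ∑ l ∈ A', (max ((l : ℝ) - v') 0) ^ 2 := by
    refine intervalIntegral.integral_congr fun v hv => ?_
    rw [Set.uIcc_of_le hpLR] at hv
    refine intervalIntegral.integral_congr fun v' hv' => ?_
    rw [Set.uIcc_of_le hpLR] at hv'
    rw [hsub _ v hv.1, hsub _ v' hv'.1]
  rw [e1, dbl hpLR A A' (fun l v => (max ((l : ℝ) - v) 0) ^ 2) (fun l v => (max ((l : ℝ) - v) 0) ^ 2)
    (fun l => by fun_prop) (fun l => by fun_prop)]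
  have e2 : (∑ l ∈ A, ∑ l' ∈ A', ∫ v in (p : ℝ)..(len D B : ℕ), ∫ v' in (p : ℝ)..(len D B : ℕ),
      Real.sign (v' - v) * (max ((l : ℝ) - v) 0) ^ 2 * (max ((l' : ℝ) - v') 0) ^ 2) =
      ∑ l ∈ A, ∑ l' ∈ A', ((-((l : ℝ) - p) ^ 6 + 6 * ((l : ℝ) - p) ^ 5 * ((l' : ℝ) - p) -
        15 * ((l : ℝ) - p) ^ 4 * ((l' : ℝ) - p) ^ 2 +
        15 * ((l : ℝ) - p) ^ 2 * ((l' : ℝ) - p) ^ 4 - 6 * ((l : ℝ) - p) * ((l' : ℝ) - p) ^ 5 +
        ((l' : ℝ) - p) ^ 6) / 180 -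
        Real.sign ((l' : ℝ) - l) * ((l' : ℝ) - l) ^ 6 / 180) :=
    sum_congr rfl fun l hl => sum_congr rfl fun l' hl' =>
      shift hK (hmA l hl).1 (hmA l hl).2 (hmA' l' hl').1 (hmA' l' hl').2
  rw [e2]
  -- moments
  have hm : ∀ k ≤ 6, ∑ l ∈ A, ((l : ℝ) - p) ^ k = ∑ l ∈ A', ((l : ℝ) - p) ^ k := fun k hk =>
    shmom k fun a ha => hM D B p a c c' (by omega) hp
  have hq := hQ D B p c c' hD hp
  have hqR : (∑ l ∈ A, ∑ l' ∈ A', Real.sign ((l' : ℝ) - l) * ((l' : ℝ) - l) ^ 6) =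
      ((-950618916 * 3 ^ (D - 8) *
        ∑ i ∈ (range B).filter (fun i => p ≤ i * 3 ^ D), cyc (c i) (c' i) : ℤ) : ℝ) := by
    rw [← hq]
    unfold Qk
    push_cast
    refine sum_congr rfl fun l _ => sum_congr rfl fun l' _ => ?_
    rw [sign_cast]
    push_cast
    rfl
  have h0 := hm 0 (by norm_num)
  have h1 := hm 1 (by norm_num)
  have h2 := hm 2 (by norm_num)
  have h4 := hm 4 (by norm_num)
  have h5 := hm 5 (by norm_num)
  have h6 := hm 6 (by norm_num)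
  have e3 : (∑ l ∈ A, ∑ l' ∈ A', ((-((l : ℝ) - p) ^ 6 + 6 * ((l : ℝ) - p) ^ 5 * ((l' : ℝ) - p) -
        15 * ((l : ℝ) - p) ^ 4 * ((l' : ℝ) - p) ^ 2 +
        15 * ((l : ℝ) - p) ^ 2 * ((l' : ℝ) - p) ^ 4 - 6 * ((l : ℝ) - p) * ((l' : ℝ) - p) ^ 5 +
        ((l' : ℝ) - p) ^ 6) / 180 -
        Real.sign ((l' : ℝ) - l) * ((l' : ℝ) - l) ^ 6 / 180)) =
      (-(∑ l ∈ A, ((l : ℝ) - p) ^ 6) * (∑ l ∈ A', ((l : ℝ) - p) ^ 0) +
        6 * (∑ l ∈ A, ((l : ℝ) - p) ^ 5) * (∑ l ∈ A', ((l : ℝ) - p) ^ 1) -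
        15 * (∑ l ∈ A, ((l : ℝ) - p) ^ 4) * (∑ l ∈ A', ((l : ℝ) - p) ^ 2) +
        15 * (∑ l ∈ A, ((l : ℝ) - p) ^ 2) * (∑ l ∈ A', ((l : ℝ) - p) ^ 4) -
        6 * (∑ l ∈ A, ((l : ℝ) - p) ^ 1) * (∑ l ∈ A', ((l : ℝ) - p) ^ 5) +
        (∑ l ∈ A, ((l : ℝ) - p) ^ 0) * (∑ l ∈ A', ((l : ℝ) - p) ^ 6)) / 180 -
      (∑ l ∈ A, ∑ l' ∈ A', Real.sign ((l' : ℝ) - l) * ((l' : ℝ) - l) ^ 6) / 180 := by
    exact sum_poly A A' (fun l => (l : ℝ) - p) (fun l l' => Real.sign ((l' : ℝ) - l) * ((l' : ℝ) - l) ^ 6)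
  rw [e3, hqR, h0, h1, h2, h4, h5, h6]
  push_cast
  ring

end Pool.Agent.H34.RK
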