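import Pool.Agent.H34.RK.Stm2

/-! # Project RK, stub WIX (helper72) -/

set_option autoImplicit false

open Finset

namespace Pool.Agent.H34.RK

theorem IsTestD.isTest {d : ℕ} (hd : d ≤ 8) {g : ℝ} {L p : ℕ} {u : ℝ → ℝ}
    (h : IsTestD d g L p u) : IsTest g L p u := by
  obtain ⟨hm, hb, a, b, ha, hb', hu⟩ := h
  refine ⟨hm, hb, fun i => if i < d then a i else 0, fun i => if i < d then b i else 0,
    fun i => ?_, fun i => ?_, fun x hx0 hx1 => ?_⟩
  · simp only; split
    · exact ha i
    · simp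
  · simp only; split
    · exact hb' i
    · simp
  · rw [hu x hx0 hx1]
    have e : ∀ c : ℕ → ℝ, ∑ i ∈ range 8, (if i < d then c i else 0) * (x / g) ^ i =
        ∑ i ∈ range d, c i * (x / g) ^ i := by
      intro c
      have h1 : range d ⊆ range 8 := range_subset_range.2 hd
      rw [← sum_subset h1]
      · exact sum_congr rfl fun i hi => by rw [if_pos (mem_range.1 hi)]
      · intro i _ hi
        rw [if_neg (fun h => hi (mem_range.2 h)), zero_mul]
    rw [e, e]

theorem isTest_one {g : ℝ} (L : ℕ) : IsTest g L 0 (fun _ => 1) := by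
  refine ⟨measurable_const, fun x => by simp, fun i => if i = 0 then 1 else 0, fun _ => 0,
    fun i => ?_, fun i => by simp, fun x hx0 hx1 => ?_⟩
  · simp only; split <;> simp
  · simp

theorem pow4_le {g : ℝ} {L : ℕ} (hg : 0 < g) (hL : 100 ≤ L) (h : g * L ^ 8 ≤ 1) :
    g * (L : ℝ) ^ 4 ≤ 1 := by
  have hL1 : (1 : ℝ) ≤ L := by exact_mod_cast (by omega : 1 ≤ L)
  refine le_trans (mul_le_mul_of_nonneg_left ?_ hg.le) h
  exact pow_le_pow_right₀ hL1 (by norm_num)

theorem wix : S_AL2 → S_REG → S_WIX := by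
  intro hAL hREG g L A A' B B' Q hg hL hgL hc hA hB hQ
  have hgL4 := pow4_le hg hL hgL
  have hQ' := hQ.isTest (by norm_num)
  have key := hAL g L 0 0 A A' B B' Q (fun _ => 1) hg hL hgL4 hc hA hB hQ' (isTest_one L)
  have hc' : 30 ≤ A'.card + B'.card := by rw [← hA.1, ← hB.1]; exact hc
  obtain ⟨-, -, -, hcont, -⟩ := hREG g L A B 0 0 hg hL hgL4 hA.2.1 hB.2.1 hc (by omega) (by omega)
  obtain ⟨-, -, -, hcont', -⟩ := hREG g L A' B' 0 0 hg hL hgL4 hA.2.2.1 hB.2.2.1 hc' (by omega)
    (by omega)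
  refine le_of_eq_of_le ?_ key
  congr 1
  refine intervalIntegral.integral_congr fun x _ => ?_
  have h1 : ∀ y : ℝ, Q x * 1 * (KK g A B x y - KK g A' B' x y) =
      Q x * (KK g A B x y - KK g A' B' x y) := fun y => by rw [mul_one]
  simp only [h1]
  rw [intervalIntegral.integral_const_mul, intervalIntegral.integral_sub]
  · rfl
  · exact (hcont.comp (Continuous.prodMk continuous_const continuous_id)).intervalIntegrable _ _
  · exact (hcont'.comp (Continuous.prodMk continuous_const continuous_id)).intervalIntegrable _ _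

end Pool.Agent.H34.RK
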