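import Pool.Agent.H34.RK.Stm2

/-!
# Project RK: `wiz : S_AL2 → S_REG → S_WIZ` (weak invariance of the density of a satellite)
-/

set_option autoImplicit false

open Finset

namespace Pool.Agent.H34.RK

namespace WIZ

open MeasureTheory

/-! ## Fubini -/

/-- Moving the innermost variable of a triple integral. -/
theorem fub3 (μ : Measure ℝ) [IsFiniteMeasure μ] (G : ℝ → ℝ → ℝ → ℝ)
    (hG : Measurable (fun p : ℝ × ℝ × ℝ => G p.1 p.2.1 p.2.2)) (C : ℝ)
    (hb : ∀ x y z, |G x y z| ≤ C) :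
    ∫ z, ∫ x, ∫ y, G x y z ∂μ ∂μ ∂μ = ∫ x, ∫ y, ∫ z, G x y z ∂μ ∂μ ∂μ := by
  -- swap `z` and `x`
  have hC : 0 ≤ C := le_trans (abs_nonneg _) (hb 0 0 0)
  have hm1 : StronglyMeasurable (fun p : (ℝ × ℝ) × ℝ => G p.1.2 p.2 p.1.1) := by
    have : Measurable (fun p : (ℝ × ℝ) × ℝ => G p.1.2 p.2 p.1.1) :=
      hG.comp (g := fun p : ℝ × ℝ × ℝ => G p.1 p.2.1 p.2.2)
        (f := fun p : (ℝ × ℝ) × ℝ => (p.1.2, p.2, p.1.1)) (by fun_prop)
    exact this.stronglyMeasurable
  have hg : StronglyMeasurable (fun p : ℝ × ℝ => ∫ y, G p.2 y p.1 ∂μ) :=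
    StronglyMeasurable.integral_prod_right (f := fun (p : ℝ × ℝ) (y : ℝ) => G p.2 y p.1) hm1
  have h1 : ∫ z, ∫ x, ∫ y, G x y z ∂μ ∂μ ∂μ = ∫ x, ∫ z, ∫ y, G x y z ∂μ ∂μ ∂μ := by
    refine integral_integral_swap (f := fun z x => ∫ y, G x y z ∂μ) ?_
    refine Integrable.of_bound hg.aestronglyMeasurable (C * μ.real Set.univ) ?_
    refine Filter.Eventually.of_forall (fun p => ?_)
    refine (norm_integral_le_of_norm_le_const (C := C) ?_)
    exact Filter.Eventually.of_forall (fun y => by rw [Real.norm_eq_abs]; exact hb _ _ _)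
  rw [h1]
  refine integral_congr_ae (Filter.Eventually.of_forall (fun x => ?_))
  refine integral_integral_swap (f := fun z y => G x y z) ?_
  have hm2 : Measurable (fun p : ℝ × ℝ => G x p.2 p.1) :=
    hG.comp (g := fun p : ℝ × ℝ × ℝ => G p.1 p.2.1 p.2.2)
      (f := fun p : ℝ × ℝ => (x, p.2, p.1)) (by fun_prop)
  refine Integrable.of_bound hm2.aestronglyMeasurable C ?_
  exact Filter.Eventually.of_forall (fun p => by rw [Real.norm_eq_abs]; exact hb _ _ _)

/-- The Fubini identity for the density of a satellite. -/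
theorem fubK (K : ℝ → ℝ → ℝ) (q : ℝ → ℝ) (hK : Continuous (fun p : ℝ × ℝ => K p.1 p.2))
    (hq : Measurable q) (hq1 : ∀ t, |q t| ≤ 1)
    (hK1 : ∀ x y, 0 ≤ x → x ≤ y → y ≤ 1 → |K x y| ≤ 1) :
    (∫ z in (0 : ℝ)..1, q z * ∫ x in (0 : ℝ)..z, ∫ y in z..1, K x y) =
      ∫ x in (0 : ℝ)..1, ∫ y in x..1, K x y * ∫ t in x..y, q t := by
  classical
  set μ : Measure ℝ := volume.restrict (Set.Ioc (0 : ℝ) 1) with hμ
  let G : ℝ → ℝ → ℝ → ℝ := fun x y z =>
    if (0 ≤ x ∧ y ≤ 1) ∧ x ≤ z ∧ z < y then K x y * q z else 0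
  have hGm : Measurable (fun p : ℝ × ℝ × ℝ => G p.1 p.2.1 p.2.2) := by
    refine Measurable.ite ?_ ?_ measurable_const
    · refine MeasurableSet.inter (MeasurableSet.inter ?_ ?_) (MeasurableSet.inter ?_ ?_)
      · exact measurableSet_le measurable_const measurable_fst
      · exact measurableSet_le (measurable_fst.comp measurable_snd) measurable_const
      · exact measurableSet_le measurable_fst (measurable_snd.comp measurable_snd)
      · exact measurableSet_lt (measurable_snd.comp measurable_snd)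
          (measurable_fst.comp measurable_snd)
    · refine Measurable.mul ?_ ?_
      · exact hK.measurable.comp (g := fun p : ℝ × ℝ => K p.1 p.2)
          (f := fun p : ℝ × ℝ × ℝ => (p.1, p.2.1)) (by fun_prop)
      · exact hq.comp (measurable_snd.comp measurable_snd)
  have hGb : ∀ x y z, |G x y z| ≤ 1 := by
    intro x y z
    simp only [G]
    split_ifs with h
    · rw [abs_mul]
      have h1 := hK1 x y h.1.1 (by linarith [h.2.1, h.2.2]) h.1.2
      have h2 := hq1 z
      calc |K x y| * |q z| ≤ 1 * 1 := mul_le_mul h1 h2 (abs_nonneg _) (by norm_num)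
        _ = 1 := by norm_num
    · simp
  have key := fub3 μ G hGm 1 hGb
  -- left hand side
  have hL : (∫ z in (0 : ℝ)..1, q z * ∫ x in (0 : ℝ)..z, ∫ y in z..1, K x y) =
      ∫ z, ∫ x, ∫ y, G x y z ∂μ ∂μ ∂μ := by
    rw [intervalIntegral.integral_of_le zero_le_one]
    refine setIntegral_congr_fun measurableSet_Ioc (fun z hz => ?_)
    obtain ⟨hz0, hz1⟩ := hz
    rw [intervalIntegral.integral_of_le hz0.le, ← integral_const_mul]
    have e1 : ∀ F : ℝ → ℝ, ∫ x in Set.Ioc 0 z, F x = ∫ x, (if x ≤ z then F x else 0) ∂μ := by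
      intro F
      have : Set.Ioc (0 : ℝ) z = Set.Ioc 0 1 ∩ Set.Iic z := by
        ext x; simp only [Set.mem_Ioc, Set.mem_inter_iff, Set.mem_Iic]
        constructor
        · intro h; exact ⟨⟨h.1, h.2.trans hz1⟩, h.2⟩
        · intro h; exact ⟨h.1.1, h.2⟩
      rw [this, ← setIntegral_indicator measurableSet_Iic]
      refine integral_congr_ae (Filter.Eventually.of_forall (fun x => ?_))
      simp only [Set.indicator, Set.mem_Iic]
    rw [e1]
    have h0 : ∀ᵐ x ∂μ, 0 < x := by
      rw [hμ]; exact (ae_restrict_mem measurableSet_Ioc).mono (fun x hx => hx.1)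
    refine integral_congr_ae (h0.mono (fun x hx => ?_))
    simp only
    by_cases hxz : x ≤ z
    · rw [if_pos hxz, intervalIntegral.integral_of_le hz1, ← integral_const_mul]
      have e2 : ∀ F : ℝ → ℝ, ∫ y in Set.Ioc z 1, F y = ∫ y, (if z < y then F y else 0) ∂μ := by
        intro F
        have : Set.Ioc z (1 : ℝ) = Set.Ioc 0 1 ∩ Set.Ioi z := by
          ext y; simp only [Set.mem_Ioc, Set.mem_inter_iff, Set.mem_Ioi]
          constructor
          · intro h; exact ⟨⟨hz0.trans h.1, h.2⟩, h.1⟩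
          · intro h; exact ⟨h.2, h.1.2⟩
        rw [this, ← setIntegral_indicator measurableSet_Ioi]
        refine integral_congr_ae (Filter.Eventually.of_forall (fun y => ?_))
        simp only [Set.indicator, Set.mem_Ioi]
      rw [e2]
      have h0' : ∀ᵐ y ∂μ, y ≤ 1 := by
        rw [hμ]; exact (ae_restrict_mem measurableSet_Ioc).mono (fun x hx => hx.2)
      refine integral_congr_ae (h0'.mono (fun y hy => ?_))
      simp only [G]
      by_cases hzy : z < y
      · rw [if_pos hzy, if_pos ⟨⟨hx.le, hy⟩, hxz, hzy⟩, mul_comm]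
      · rw [if_neg hzy, if_neg (fun h => hzy h.2.2)]
    · rw [if_neg hxz]
      symm
      have : ∀ y, G x y z = 0 := fun y => if_neg (fun h => hxz h.2.1)
      simp [this]
  -- right hand side
  have hR : (∫ x in (0 : ℝ)..1, ∫ y in x..1, K x y * ∫ t in x..y, q t) =
      ∫ x, ∫ y, ∫ z, G x y z ∂μ ∂μ ∂μ := by
    rw [intervalIntegral.integral_of_le zero_le_one]
    refine setIntegral_congr_fun measurableSet_Ioc (fun x hx => ?_)
    obtain ⟨hx0, hx1⟩ := hx
    rw [intervalIntegral.integral_of_le hx1]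
    have e2 : ∀ F : ℝ → ℝ, ∫ y in Set.Ioc x 1, F y = ∫ y, (if x < y then F y else 0) ∂μ := by
      intro F
      have : Set.Ioc x (1 : ℝ) = Set.Ioc 0 1 ∩ Set.Ioi x := by
        ext y; simp only [Set.mem_Ioc, Set.mem_inter_iff, Set.mem_Ioi]
        constructor
        · intro h; exact ⟨⟨hx0.trans h.1, h.2⟩, h.1⟩
        · intro h; exact ⟨h.2, h.1.2⟩
      rw [this, ← setIntegral_indicator measurableSet_Ioi]
      refine integral_congr_ae (Filter.Eventually.of_forall (fun y => ?_))
      simp only [Set.indicator, Set.mem_Ioi]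
    rw [e2]
    have h0' : ∀ᵐ y ∂μ, y ≤ 1 := by
      rw [hμ]; exact (ae_restrict_mem measurableSet_Ioc).mono (fun x hx => hx.2)
    refine integral_congr_ae (h0'.mono (fun y hy => ?_))
    simp only
    by_cases hxy : x < y
    · rw [if_pos hxy, intervalIntegral.integral_of_le hxy.le, ← integral_Ico_eq_integral_Ioc,
        ← integral_const_mul]
      have : Set.Ico x y ∩ Set.Ioc 0 1 = Set.Ioc 0 1 ∩ Set.Ico x y := Set.inter_comm _ _
      have e3 : Set.Ico x y = Set.Ioc 0 1 ∩ Set.Ico x y := by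
        ext t; simp only [Set.mem_Ioc, Set.mem_inter_iff, Set.mem_Ico]
        constructor
        · intro h; exact ⟨⟨lt_of_lt_of_le hx0 h.1, (h.2.le).trans hy⟩, h⟩
        · intro h; exact h.2
      rw [e3, ← setIntegral_indicator measurableSet_Ico]
      refine integral_congr_ae (Filter.Eventually.of_forall (fun z => ?_))
      simp only [Set.indicator, Set.mem_Ico, G]
      by_cases hz : x ≤ z ∧ z < y
      · rw [if_pos hz, if_pos ⟨⟨hx0.le, hy⟩, hz⟩]
      · rw [if_neg hz, if_neg (fun h => hz h.2)]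
    · rw [if_neg hxy]
      symm
      have : ∀ z, G x y z = 0 := fun z => if_neg (fun h => hxy (lt_of_le_of_lt h.2.1 h.2.2))
      simp [this]
  rw [hL, hR, key]

/-! ## The primitive of the test function -/

/-- The test function cut off outside the window. -/
noncomputable def qc (g : ℝ) (p q : ℕ) (Q : ℝ → ℝ) (t : ℝ) : ℝ :=
  if g * p ≤ t ∧ t ≤ 1 - g * q then Q t else 0

/-- The primitive. -/
noncomputable def Rf (g : ℝ) (p q : ℕ) (Q : ℝ → ℝ) (t : ℝ) : ℝ := ∫ s in (0 : ℝ)..t, qc g p q Q s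

theorem qc_meas {g : ℝ} {p q : ℕ} {Q : ℝ → ℝ} (hQ : Measurable Q) : Measurable (qc g p q Q) := by
  refine Measurable.ite ?_ hQ measurable_const
  exact MeasurableSet.inter (measurableSet_le measurable_const measurable_id)
    (measurableSet_le measurable_id measurable_const)

theorem qc_le {g : ℝ} {p q : ℕ} {Q : ℝ → ℝ} (hQ : ∀ x, |Q x| ≤ 1) (t : ℝ) :
    |qc g p q Q t| ≤ 1 := by
  unfold qc
  split_ifs
  · exact hQ t
  · simp

theorem qc_int {g : ℝ} {p q : ℕ} {Q : ℝ → ℝ} (hQm : Measurable Q) (hQ : ∀ x, |Q x| ≤ 1)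
    (a b : ℝ) : IntervalIntegrable (qc g p q Q) volume a b := by
  refine (intervalIntegrable_const (c := (1 : ℝ))).mono_fun'
    (qc_meas hQm).aestronglyMeasurable ?_
  exact Filter.Eventually.of_forall (fun t => by
    simp only
    rw [Real.norm_eq_abs]; exact qc_le hQ t)

theorem Rf_cont {g : ℝ} {p q : ℕ} {Q : ℝ → ℝ} (hQm : Measurable Q) (hQ : ∀ x, |Q x| ≤ 1) :
    Continuous (Rf g p q Q) :=
  intervalIntegral.continuous_primitive (fun a b => qc_int hQm hQ a b) 0

theorem Rf_sub {g : ℝ} {p q : ℕ} {Q : ℝ → ℝ} (hQm : Measurable Q) (hQ : ∀ x, |Q x| ≤ 1)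
    (x y : ℝ) : ∫ t in x..y, qc g p q Q t = Rf g p q Q y - Rf g p q Q x := by
  unfold Rf
  rw [intervalIntegral.integral_interval_sub_left (qc_int hQm hQ 0 y) (qc_int hQm hQ 0 x)]

theorem Rf_le {g : ℝ} (hg : 0 < g) {p q : ℕ} {Q : ℝ → ℝ} (hQm : Measurable Q)
    (hQ : ∀ x, |Q x| ≤ 1) (t : ℝ) : |Rf g p q Q t| ≤ 1 := by
  have hunit : ∀ s : ℝ, 0 ≤ s → s ≤ 1 → |Rf g p q Q s| ≤ 1 := by
    intro s hs0 hs1
    have := intervalIntegral.norm_integral_le_of_norm_le_const (a := 0) (b := s) (C := 1)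
      (f := qc g p q Q) (fun x _ => by rw [Real.norm_eq_abs]; exact qc_le hQ x)
    rw [Real.norm_eq_abs, sub_zero, abs_of_nonneg hs0, one_mul] at this
    exact this.trans hs1
  have hgp : 0 ≤ g * p := by positivity
  have hgq : 0 ≤ g * q := by positivity
  rcases lt_or_ge t 0 with h | h
  · have : Rf g p q Q t = 0 := by
      unfold Rf
      rw [intervalIntegral.integral_symm, intervalIntegral.integral_of_le h.le]
      have : ∫ x in Set.Ioc t 0, qc g p q Q x = ∫ x in Set.Ioo t 0, qc g p q Q x :=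
        integral_Ioc_eq_integral_Ioo
      rw [this, setIntegral_eq_zero_of_forall_eq_zero, neg_zero]
      intro x hx
      unfold qc
      rw [if_neg]
      intro hh
      linarith [hh.1, hx.2]
    rw [this]; simp
  · rcases le_or_gt t 1 with h1 | h1
    · exact hunit t h h1
    · have e : Rf g p q Q t - Rf g p q Q 1 = 0 := by
        rw [← Rf_sub hQm hQ, intervalIntegral.integral_of_le h1.le]
        refine setIntegral_eq_zero_of_forall_eq_zero ?_
        intro x hx
        unfold qc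
        rw [if_neg]
        intro hh
        linarith [hh.2, hx.1]
      have := hunit 1 zero_le_one le_rfl
      rw [show Rf g p q Q t = Rf g p q Q 1 by linarith]
      exact this

/-- Integral of a polynomial in `s / g`. -/
theorem int_poly {g : ℝ} (hg : 0 < g) (p : ℕ) (a : ℕ → ℝ) (x : ℝ) :
    ∫ s in (g * p)..x, ∑ i ∈ range 5, a i * (s / g) ^ i =
      ∑ i ∈ range 5, a i * (g * ((x / g) ^ (i + 1) - (p : ℝ) ^ (i + 1)) / (i + 1)) := by
  rw [intervalIntegral.integral_finsetSum]
  · refine Finset.sum_congr rfl (fun i _ => ?_)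
    rw [intervalIntegral.integral_const_mul]
    congr 1
    have : ∀ s : ℝ, (s / g) ^ i = (g ^ i)⁻¹ * s ^ i := by
      intro s; rw [div_pow]; field_simp
    simp only [this]
    rw [intervalIntegral.integral_const_mul, integral_pow]
    have h1 : ((i : ℝ) + 1) ≠ 0 := by positivity
    rw [div_pow]
    field_simp
    ring
  · intro i _
    exact Continuous.intervalIntegrable (by fun_prop) _ _

/-- The primitive is a test function near `0`. -/
theorem Rf_test {g : ℝ} {L p q : ℕ} {Q : ℝ → ℝ} (hg : 0 < g) (hL : 100 ≤ L)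
    (hgL : g * (L : ℝ) ^ 8 ≤ 1) (hp : p ≤ L) (hq : q ≤ L) (hQ : IsTestD 5 g L p Q) :
    ∃ a b : ℕ → ℝ, (∀ i, |a i| ≤ 1 / 2) ∧ (∀ i, |b i| ≤ 1 / 2) ∧
      ∀ x, 0 ≤ x → x ≤ g * L → Rf g p q Q x / 2 = ∑ i ∈ range 8, a i * (x / g) ^ i +
        if x < g * p then ∑ i ∈ range 8, b i * (x / g) ^ i else 0 := by
  obtain ⟨hQm, hQ1, α, β, hα, hβ, hform⟩ := hQ
  have hL' : (100 : ℝ) ≤ L := by exact_mod_cast hL
  have hp' : (p : ℝ) ≤ L := by exact_mod_cast hp
  have hq' : (q : ℝ) ≤ L := by exact_mod_cast hq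
  have hp0 : (0 : ℝ) ≤ p := by positivity
  have hgL5 : g * (5 * (L : ℝ) ^ 5) ≤ 1 := by
    refine le_trans ?_ hgL
    refine mul_le_mul_of_nonneg_left ?_ hg.le
    have : (L : ℝ) ^ 8 = L ^ 3 * L ^ 5 := by ring
    rw [this]
    refine mul_le_mul_of_nonneg_right ?_ (by positivity)
    have : (100 : ℝ) ^ 3 ≤ L ^ 3 := pow_le_pow_left₀ (by norm_num) hL' 3
    linarith
  have hg1 : g ≤ 1 := by
    have : (1 : ℝ) ≤ 5 * (L : ℝ) ^ 5 := by
      have : (1 : ℝ) ≤ (L : ℝ) ^ 5 := one_le_pow₀ (by linarith)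
      linarith
    nlinarith
  have hgL1 : g * L ≤ 1 / 2 := by
    have h1 : (1 : ℝ) ≤ (L : ℝ) ^ 4 := one_le_pow₀ (by linarith)
    have h2 : 2 * (L : ℝ) ≤ 5 * (L : ℝ) ^ 5 := by
      have : (L : ℝ) ^ 5 = L ^ 4 * L := by ring
      rw [this]; nlinarith
    nlinarith
  let a : ℕ → ℝ := fun i => if i = 0 then -(g / 2) * ∑ j ∈ range 5, α j * ((p : ℝ) ^ (j + 1) / (j + 1))
    else if i ≤ 5 then g / 2 * (α (i - 1) / i) else 0
  have ha : ∀ i, |a i| ≤ 1 / 2 := by
    intro i
    simp only [a]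
    split_ifs with h h2
    · rw [abs_mul, abs_neg, abs_of_pos (by positivity : 0 < g / 2)]
      have : |∑ j ∈ range 5, α j * ((p : ℝ) ^ (j + 1) / (j + 1))| ≤ 5 * (L : ℝ) ^ 5 := by
        refine (Finset.abs_sum_le_sum_abs _ _).trans ?_
        calc ∑ j ∈ range 5, |α j * ((p : ℝ) ^ (j + 1) / (j + 1))|
            ≤ ∑ j ∈ range 5, (L : ℝ) ^ 5 := by
              refine Finset.sum_le_sum (fun j hj => ?_)
              have hj5 : j + 1 ≤ 5 := by have := Finset.mem_range.mp hj; omega
              rw [abs_mul]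
              have h1 : |(p : ℝ) ^ (j + 1) / (j + 1)| ≤ (L : ℝ) ^ 5 := by
                rw [abs_of_nonneg (by positivity)]
                calc (p : ℝ) ^ (j + 1) / (j + 1) ≤ (p : ℝ) ^ (j + 1) :=
                      div_le_self (by positivity) (by linarith [(Nat.cast_nonneg j : (0:ℝ) ≤ j)])
                  _ ≤ (L : ℝ) ^ (j + 1) := pow_le_pow_left₀ hp0 hp' _
                  _ ≤ (L : ℝ) ^ 5 := pow_le_pow_right₀ (by linarith) hj5
              calc |α j| * |(p : ℝ) ^ (j + 1) / (j + 1)| ≤ 1 * (L : ℝ) ^ 5 :=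
                    mul_le_mul (hα j) h1 (abs_nonneg _) (by norm_num)
                _ = (L : ℝ) ^ 5 := one_mul _
          _ = 5 * (L : ℝ) ^ 5 := by simp
      calc g / 2 * |∑ j ∈ range 5, α j * ((p : ℝ) ^ (j + 1) / (j + 1))|
          ≤ g / 2 * (5 * (L : ℝ) ^ 5) := mul_le_mul_of_nonneg_left this (by positivity)
        _ ≤ 1 / 2 := by linarith
    · rw [abs_mul, abs_of_pos (by positivity : 0 < g / 2), abs_div]
      have hi : (1 : ℝ) ≤ i := by
        have : 1 ≤ i := by omega
        exact_mod_cast this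
      have : |α (i - 1)| / |(i : ℝ)| ≤ 1 := by
        rw [abs_of_pos (by linarith : (0 : ℝ) < i), div_le_one (by linarith)]
        exact (hα _).trans hi
      calc g / 2 * (|α (i - 1)| / |(i : ℝ)|) ≤ g / 2 * 1 :=
            mul_le_mul_of_nonneg_left this (by positivity)
        _ ≤ 1 / 2 := by linarith
    · simp
  refine ⟨a, fun i => -a i, ha, fun i => by rw [abs_neg]; exact ha i, ?_⟩
  intro x hx0 hx1
  have hqc : ∀ s, s ≤ g * L → qc g p q Q s = if g * p ≤ s then Q s else 0 := by
    intro s hs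
    unfold qc
    by_cases h : g * p ≤ s
    · have hgq : g * q ≤ g * L := mul_le_mul_of_nonneg_left hq' hg.le
      have hh : g * p ≤ s ∧ s ≤ 1 - g * q := ⟨h, by linarith⟩
      rw [if_pos h, if_pos hh]
    · rw [if_neg h, if_neg (fun hh => h hh.1)]
  by_cases hxp : x < g * p
  · rw [if_pos hxp]
    have e1 : ∑ i ∈ range 8, a i * (x / g) ^ i + ∑ i ∈ range 8, -a i * (x / g) ^ i = 0 := by
      rw [← Finset.sum_add_distrib]
      refine Finset.sum_eq_zero (fun i _ => ?_)
      ring
    rw [e1]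
    have : Rf g p q Q x = 0 := by
      unfold Rf
      rw [intervalIntegral.integral_of_le hx0]
      refine setIntegral_eq_zero_of_forall_eq_zero ?_
      intro s hs
      rw [hqc s (hs.2.trans hx1), if_neg]
      push Not
      exact lt_of_le_of_lt hs.2 hxp
    rw [this]; simp
  · rw [if_neg hxp, add_zero]
    have hxp' : g * p ≤ x := not_lt.mp hxp
    have e0 : Rf g p q Q (g * p) = 0 := by
      unfold Rf
      rw [intervalIntegral.integral_of_le (by positivity)]
      have : ∫ x in Set.Ioc 0 (g * p), qc g p q Q x = ∫ x in Set.Ioo 0 (g * p), qc g p q Q x :=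
        integral_Ioc_eq_integral_Ioo
      rw [this]
      refine setIntegral_eq_zero_of_forall_eq_zero ?_
      intro s hs
      rw [hqc s (by linarith [hs.2]), if_neg]
      push Not
      exact hs.2
    have e1 : Rf g p q Q x = ∫ s in (g * p)..x, ∑ i ∈ range 5, α i * (s / g) ^ i := by
      have := Rf_sub (g := g) (p := p) (q := q) hQm hQ1 (g * p) x
      rw [e0, sub_zero] at this
      rw [← this]
      refine intervalIntegral.integral_congr (fun s hs => ?_)
      rw [Set.uIcc_of_le hxp'] at hs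
      have hs1 : s ≤ g * L := hs.2.trans hx1
      have hs0 : 0 ≤ s := le_trans (by positivity) hs.1
      rw [hqc s hs1, if_pos hs.1, hform s hs0 hs1, if_neg (not_lt.mpr hs.1), add_zero]
    rw [e1, int_poly hg]
    simp only [Finset.sum_range_succ, Finset.sum_range_zero, a]
    norm_num
    ring

theorem Rf_refl {g : ℝ} {p q : ℕ} {Q : ℝ → ℝ} (hQm : Measurable Q) (hQ : ∀ x, |Q x| ≤ 1)
    (y : ℝ) : Rf g p q Q (1 - y) = Rf g p q Q 1 - Rf g q p (fun t => Q (1 - t)) y := by
  have h1 : Rf g q p (fun t => Q (1 - t)) y = ∫ s in (1 - y)..1, qc g p q Q s := by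
    unfold Rf
    have e : ∀ s, qc g q p (fun t => Q (1 - t)) s = qc g p q Q (1 - s) := by
      intro s
      unfold qc
      by_cases h : g * q ≤ s ∧ s ≤ 1 - g * p
      · rw [if_pos h, if_pos ⟨by linarith [h.2], by linarith [h.1]⟩]
      · rw [if_neg h, if_neg]
        intro hh
        exact h ⟨by linarith [hh.2], by linarith [hh.1]⟩
    simp only [e]
    rw [intervalIntegral.integral_comp_sub_left (fun s => qc g p q Q s) 1, sub_zero]
  rw [h1, Rf_sub hQm hQ]
  ring

theorem Rf_isTest0 {g : ℝ} {L p q : ℕ} {Q : ℝ → ℝ} (hg : 0 < g) (hL : 100 ≤ L)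
    (hgL : g * (L : ℝ) ^ 8 ≤ 1) (hp : p ≤ L) (hq : q ≤ L) (hQ : IsTestD 5 g L p Q) :
    IsTest g L p (fun x => Rf g p q Q x / 2) := by
  obtain ⟨a, b, ha, hb, hf⟩ := Rf_test hg hL hgL hp hq hQ
  refine ⟨?_, ?_, a, b, fun i => (ha i).trans (by norm_num), fun i => (hb i).trans (by norm_num),
    hf⟩
  · exact ((Rf_cont hQ.1 hQ.2.1).div_const 2).measurable
  · intro x
    have := Rf_le hg (p := p) (q := q) hQ.1 hQ.2.1 x
    rw [abs_div, abs_two]
    linarith

theorem Rf_isTest1 {g : ℝ} {L p q : ℕ} {Q : ℝ → ℝ} (hg : 0 < g) (hL : 100 ≤ L)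
    (hgL : g * (L : ℝ) ^ 8 ≤ 1) (hp : p ≤ L) (hq : q ≤ L) (hQm : Measurable Q)
    (hQ1 : ∀ x, |Q x| ≤ 1) (hQ : IsTestD 5 g L q (fun y => Q (1 - y))) :
    IsTest g L q (fun y => Rf g p q Q (1 - y) / 2) := by
  obtain ⟨a, b, ha, hb, hf⟩ := Rf_test hg hL hgL hq hp hQ
  have hR1 := Rf_le hg (p := p) (q := q) hQm hQ1
  refine ⟨?_, ?_, fun i => if i = 0 then Rf g p q Q 1 / 2 - a 0 else - a i, fun i => - b i, ?_, ?_,
    ?_⟩
  · exact (((Rf_cont hQm hQ1).comp (continuous_const.sub continuous_id)).div_const 2).measurable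
  · intro x
    have := hR1 (1 - x)
    rw [abs_div, abs_two]
    linarith
  · intro i
    simp only
    split_ifs with h
    · have h1 := hR1 1
      have h2 := ha 0
      calc |Rf g p q Q 1 / 2 - a 0| ≤ |Rf g p q Q 1 / 2| + |a 0| := abs_sub _ _
        _ = |Rf g p q Q 1| / 2 + |a 0| := by rw [abs_div, abs_two]
        _ ≤ 1 := by linarith
    · rw [abs_neg]; exact (ha i).trans (by norm_num)
  · intro i
    rw [abs_neg]; exact (hb i).trans (by norm_num)
  · intro y hy0 hy1
    have h1 := hf y hy0 hy1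
    have h2 : Rf g p q Q (1 - y) / 2 = Rf g p q Q 1 / 2 -
        Rf g q p (fun t => Q (1 - t)) y / 2 := by
      rw [Rf_refl hQm hQ1]; ring
    simp only
    rw [h2, h1]
    by_cases hyq : y < g * q
    · rw [if_pos hyq, if_pos hyq]
      simp only [Finset.sum_range_succ, Finset.sum_range_zero]
      norm_num
      ring
    · rw [if_neg hyq, if_neg hyq]
      simp only [Finset.sum_range_succ, Finset.sum_range_zero]
      norm_num
      ring

theorem isTest_one (g : ℝ) (L p : ℕ) : IsTest g L p (fun _ => 1) := by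
  refine ⟨measurable_const, fun _ => by simp, fun i => if i = 0 then 1 else 0, fun _ => 0, ?_, ?_,
    ?_⟩
  · intro i; simp only; split_ifs <;> simp
  · intro i; simp
  · intro x _ _
    simp

end WIZ

open WIZ MeasureTheory in
theorem wiz : S_AL2 → S_REG → S_WIZ := by
  intro hal2 hreg g L p q A A' B B' Q hg hL hgL hcard hJA hJB hQ0 hQ1
  have hL' : (100 : ℝ) ≤ L := by exact_mod_cast hL
  have hgL4 : g * (L : ℝ) ^ 4 ≤ 1 := by
    refine le_trans ?_ hgL
    exact mul_le_mul_of_nonneg_left (pow_le_pow_right₀ (by linarith) (by norm_num)) hg.le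
  have hp : p ≤ L := hJA.2.2.2.1
  have hq : q ≤ L := hJB.2.2.2.1
  have hcard' : 30 ≤ A'.card + B'.card := by rw [← hJA.1, ← hJB.1]; exact hcard
  obtain ⟨-, -, hzm, hKc, hK1, -, hzb⟩ :=
    hreg g L A B p q hg hL hgL4 hJA.2.1 hJB.2.1 hcard hp hq
  obtain ⟨-, -, hzm', hKc', hK1', -, hzb'⟩ :=
    hreg g L A' B' p q hg hL hgL4 hJA.2.2.1 hJB.2.2.1 hcard' hp hq
  have hQm := hQ0.1
  have hQb := hQ0.2.1
  let D : ℝ → ℝ → ℝ := fun x y => KK g A B x y - KK g A' B' x y
  have hDc : Continuous (fun xy : ℝ × ℝ => D xy.1 xy.2) := hKc.sub hKc'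
  have hDy : ∀ x, Continuous (fun y => D x y) := fun x =>
    hDc.comp (Continuous.prodMk continuous_const continuous_id)
  have hKy : ∀ x, Continuous (fun y => KK g A B x y) := fun x =>
    hKc.comp (Continuous.prodMk continuous_const continuous_id)
  have hKy' : ∀ x, Continuous (fun y => KK g A' B' x y) := fun x =>
    hKc'.comp (Continuous.prodMk continuous_const continuous_id)
  have hKone : ∀ x y, 0 ≤ x → x ≤ y → y ≤ 1 → 0 ≤ KK g A B x y ∧ KK g A B x y ≤ 1 := by
    intro x y hx hxy hy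
    obtain ⟨h1, h2⟩ := hK1 x y hx hxy hy
    exact ⟨h1, h2.trans (pow_le_one₀ (by linarith) (by linarith))⟩
  have hKone' : ∀ x y, 0 ≤ x → x ≤ y → y ≤ 1 → 0 ≤ KK g A' B' x y ∧ KK g A' B' x y ≤ 1 := by
    intro x y hx hxy hy
    obtain ⟨h1, h2⟩ := hK1' x y hx hxy hy
    exact ⟨h1, h2.trans (pow_le_one₀ (by linarith) (by linarith))⟩
  have hD1 : ∀ x y, 0 ≤ x → x ≤ y → y ≤ 1 → |D x y| ≤ 1 := by
    intro x y hx hxy hy
    obtain ⟨h1, h2⟩ := hKone x y hx hxy hy
    obtain ⟨h3, h4⟩ := hKone' x y hx hxy hy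
    rw [abs_le]
    constructor <;> simp only [D] <;> linarith
  -- the difference of the densities
  have hdiff : ∀ z, Q z * (hz g A B p q z - hz g A' B' p q z) =
      qc g p q Q z * ∫ x in (0 : ℝ)..z, ∫ y in z..1, D x y := by
    intro z
    unfold hz hZT qc
    by_cases h : g * p ≤ z ∧ z ≤ 1 - g * q
    · rw [if_pos h, if_pos h, if_pos h]
      congr 1
      have e1 : ∀ x, ∫ y in z..1, D x y = (∫ y in z..1, KK g A B x y) -
          ∫ y in z..1, KK g A' B' x y := by
        intro x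
        rw [← intervalIntegral.integral_sub ((hKy x).intervalIntegrable _ _)
          ((hKy' x).intervalIntegrable _ _)]
      simp only [e1]
      rw [intervalIntegral.integral_sub]
      · rfl
      · exact (intervalIntegral.continuous_parametric_intervalIntegral_of_continuous'
          (f := fun x y => KK g A B x y) hKc z 1).intervalIntegrable _ _
      · exact (intervalIntegral.continuous_parametric_intervalIntegral_of_continuous'
          (f := fun x y => KK g A' B' x y) hKc' z 1).intervalIntegrable _ _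
    · rw [if_neg h, if_neg h, if_neg h]
      simp
  simp only [hdiff]
  rw [fubK D (qc g p q Q) hDc (qc_meas hQm) (qc_le hQb) hD1]
  -- split
  have hRc := Rf_cont (g := g) (p := p) (q := q) hQm hQb
  set R := Rf g p q Q with hR
  have hin : ∀ x, ∫ y in x..1, D x y * ∫ t in x..y, qc g p q Q t =
      2 * (∫ y in x..1, (1 : ℝ) * (R y / 2) * D x y) - 2 * ∫ y in x..1, (R x / 2) * 1 * D x y := by
    intro x
    have hDx := hDy x
    have i1 : IntervalIntegrable (fun y => 2 * ((1 : ℝ) * (R y / 2) * D x y)) volume x 1 :=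
      Continuous.intervalIntegrable (by fun_prop) _ _
    have i2 : IntervalIntegrable (fun y => 2 * ((R x / 2) * 1 * D x y)) volume x 1 :=
      Continuous.intervalIntegrable (by fun_prop) _ _
    rw [← intervalIntegral.integral_const_mul, ← intervalIntegral.integral_const_mul,
      ← intervalIntegral.integral_sub i1 i2]
    refine intervalIntegral.integral_congr (fun y _ => ?_)
    simp only [Rf_sub hQm hQb, ← hR]
    ring
  simp only [hin]
  have hc1 : Continuous (fun x => ∫ y in x..1, (1 : ℝ) * (R y / 2) * D x y) := by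
    have h := intervalIntegral.continuous_parametric_intervalIntegral_of_continuous (μ := volume)
      (f := fun x y => (1 : ℝ) * (R y / 2) * D x y) (a₀ := 1) (s := fun x => x)
      (by
        have h1 : Continuous (fun p : ℝ × ℝ => (1 : ℝ) * (R p.2 / 2) * D p.1 p.2) := by
          have := hRc.comp continuous_snd (X := ℝ × ℝ)
          exact ((continuous_const.mul (this.div_const 2)).mul hDc)
        exact h1) continuous_id
    have : (fun x => ∫ y in x..1, (1 : ℝ) * (R y / 2) * D x y) =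
        fun x => - ∫ y in (1 : ℝ)..x, (1 : ℝ) * (R y / 2) * D x y := by
      funext x; rw [intervalIntegral.integral_symm]
    rw [this]
    exact h.neg
  have hc2 : Continuous (fun x => ∫ y in x..1, (R x / 2) * 1 * D x y) := by
    have h := intervalIntegral.continuous_parametric_intervalIntegral_of_continuous (μ := volume)
      (f := fun x y => (R x / 2) * 1 * D x y) (a₀ := 1) (s := fun x => x)
      (by
        have h1 : Continuous (fun p : ℝ × ℝ => (R p.1 / 2) * 1 * D p.1 p.2) := by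
          have := hRc.comp continuous_fst (X := ℝ × ℝ)
          exact (((this.div_const 2).mul continuous_const).mul hDc)
        exact h1) continuous_id
    have : (fun x => ∫ y in x..1, (R x / 2) * 1 * D x y) =
        fun x => - ∫ y in (1 : ℝ)..x, (R x / 2) * 1 * D x y := by
      funext x; rw [intervalIntegral.integral_symm]
    rw [this]
    exact h.neg
  rw [intervalIntegral.integral_sub ((hc1.const_mul 2).intervalIntegrable _ _)
    ((hc2.const_mul 2).intervalIntegrable _ _), intervalIntegral.integral_const_mul,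
    intervalIntegral.integral_const_mul]
  have b1 := hal2 g L p q A A' B B' (fun _ => 1) (fun y => R y / 2) hg hL hgL4 hcard hJA hJB
    (isTest_one g L p) (Rf_isTest1 hg hL hgL hp hq hQm hQb hQ1)
  have b2 := hal2 g L p q A A' B B' (fun x => R x / 2) (fun _ => 1) hg hL hgL4 hcard hJA hJB
    (Rf_isTest0 hg hL hgL hp hq hQ0) (isTest_one g L q)
  have hpos : 0 ≤ g ^ 7 * (L : ℝ) ^ 60 := by positivity
  rw [abs_le] at b1 b2 ⊢
  constructor
  · have := b1.1
    have := b2.2
    simp only [D]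
    nlinarith
  · have := b1.2
    have := b2.1
    simp only [D]
    nlinarith

end Pool.Agent.H34.RK
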