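import Pool.Agent.H34.RK.Al2
import Pool.Agent.H34.RK.Blk
import Pool.Agent.H34.RK.Blkcard
import Pool.Agent.H34.RK.Chain
import Pool.Agent.H34.RK.Code
import Pool.Agent.H34.RK.Conc
import Pool.Agent.H34.RK.Dbd
import Pool.Agent.H34.RK.Dual
import Pool.Agent.H34.RK.Es
import Pool.Agent.H34.RK.Ex
import Pool.Agent.H34.RK.Expk
import Pool.Agent.H34.RK.Ext
import Pool.Agent.H34.RK.Ez
import Pool.Agent.H34.RK.Fub
import Pool.Agent.H34.RK.Gprod
import Pool.Agent.H34.RK.Ideal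
import Pool.Agent.H34.RK.JEQ
import Pool.Agent.H34.RK.JEQP
import Pool.Agent.H34.RK.K1
import Pool.Agent.H34.RK.K2
import Pool.Agent.H34.RK.Lc
import Pool.Agent.H34.RK.Lw
import Pool.Agent.H34.RK.Marg
import Pool.Agent.H34.RK.Mass
import Pool.Agent.H34.RK.Mom
import Pool.Agent.H34.RK.OrdMul
import Pool.Agent.H34.RK.Ov
import Pool.Agent.H34.RK.P1
import Pool.Agent.H34.RK.Pert
import Pool.Agent.H34.RK.Pl
import Pool.Agent.H34.RK.Prou
import Pool.Agent.H34.RK.Q4
import Pool.Agent.H34.RK.Q6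
import Pool.Agent.H34.RK.Reg
import Pool.Agent.H34.RK.Segv
import Pool.Agent.H34.RK.T1
import Pool.Agent.H34.RK.T3
import Pool.Agent.H34.RK.T4
import Pool.Agent.H34.RK.T4s
import Pool.Agent.H34.RK.T5
import Pool.Agent.H34.RK.T6
import Pool.Agent.H34.RK.Tay
import Pool.Agent.H34.RK.W1
import Pool.Agent.H34.RK.W2
import Pool.Agent.H34.RK.Wix
import Pool.Agent.H34.RK.Wiz
import Pool.Agent.H34.RK.Zb

/-! Assembly, part 1. -/

set_option autoImplicit false

namespace Pool.Agent.H34.RK.Asm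

theorem t_jeq : S_JEQ := jeq (blk_ prou) es_ ordmul
theorem t_jeq' : S_JEQ' := jeq' blkcard t_jeq
theorem t_w1 : S_W1 := w1 k1 q4 mom blkcard
theorem t_w2 : S_W2 := w2 k2 q6 mom blkcard
theorem t_ov : S_OV := ov tay
theorem t_al2 : S_AL2 := al2 expk tay t_ov
theorem t_wix : S_WIX := wix t_al2 reg
theorem t_wiz : S_WIZ := wiz t_al2 reg
theorem t_ex : S_EX := ex_ reg
theorem t_ext : S_EXT := ext reg
theorem t_ez : S_EZ := ez reg t_ex
theorem t_zb : S_ZB := zb reg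
theorem t_t1 : S_T1 := t1 lw t_wix t_ex t_ext t_w1 t_jeq' blkcard reg
theorem t_t3 : S_T3 := t3 lw t_wiz t_ez dual t_w2 t_jeq' blkcard mom reg
theorem t_t4s : S_T4S := t4s reg
theorem t_t5 : S_T5 := t5 reg t_zb dual
theorem t_t6 : S_T6 := t6 reg t_zb dual
theorem t_mass : S_MASS := mass marg
theorem t_pert : S_PERT := pert reg t_mass
theorem t_lc : S_LC := lc pl
theorem t_dbd : S_DBD := dbd reg t_zb
theorem t_fub : S_FUB := fub segv

theorem t_ideal (h : S_HZL1) : S_IDEAL :=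
  ideal code t_t1 t_t3 (t4 h reg) t_t4s t_t5 dual blkcard mom reg

theorem t_conc (h : S_GRAD) : S_CONC := conc h t_dbd chain t_pert t_zb t_mass reg

end Pool.Agent.H34.RK.Asm
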