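import Pool.Agent.H34.RK.Stm4

/-!
# Project RK: the final theorem
-/

set_option autoImplicit false

open Finset MeasureTheory

namespace Pool.Agent.H34.RK

theorem one_lt_log_three : 1 < Real.log 3 := by
  rw [Real.lt_log_iff_exp_lt (by norm_num)]
  exact Real.exp_one_lt_d9.trans (by norm_num)

theorem log_three_le {w : ℕ} (hw : 3 ≤ w) : Real.log 3 ≤ Real.log w :=
  Real.log_le_log (by norm_num) (by exact_mod_cast hw)

theorem fin_ : S_MAIN2 → S_TRANS → S_RATE → S_DLE → S_FIN := by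
  rintro ⟨C₁, w₀, h1⟩ hT ⟨B, hB1, hR⟩ hD
  have hlog3 := one_lt_log_three
  obtain ⟨C₃, hC₃⟩ := pow_unbounded_of_one_lt (max (12 * w₀ : ℝ) (8 * B)) hlog3
  have hw₀ : (12 * w₀ : ℝ) ≤ Real.log 3 ^ C₃ := (le_max_left _ _).trans hC₃.le
  have hB8 : 8 * B ≤ Real.log 3 ^ C₃ := (le_max_right _ _).trans hC₃.le
  have part1 : ∀ δ : ℕ → ℝ, IsDel δ → ∀ w : ℕ, 3 ≤ w →
      δ w ≤ 1 / 2 - 1 / Real.log w ^ (C₁ + C₃) := by
    intro δ hδ w hw
    have hy := log_three_le hw
    have hy1 : 1 ≤ Real.log w := hlog3.le.trans hy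
    by_cases h : w₀ ≤ w
    · obtain ⟨P, i1, i2, hP1, hP2⟩ := h1 w h
      have h2 := hT δ hδ P i1 i2 w _ hP1 hP2
      have h3 : 1 / Real.log w ^ (C₁ + C₃) ≤ 1 / Real.log w ^ C₁ :=
        one_div_le_one_div_of_le (by positivity)
          (pow_le_pow_right₀ hy1 (Nat.le_add_right _ _))
      linarith
    · have h2 := hD δ hδ w (by omega)
      have hw3 : (3 : ℝ) ≤ w := by exact_mod_cast hw
      have h3 : (12 * (w : ℝ) - 8) ≤ Real.log w ^ (C₁ + C₃) := by
        have h4 : (w : ℝ) ≤ w₀ := by exact_mod_cast (by omega : w ≤ w₀)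
        calc (12 * (w : ℝ) - 8) ≤ 12 * w₀ := by linarith
          _ ≤ Real.log 3 ^ C₃ := hw₀
          _ ≤ Real.log w ^ C₃ := pow_le_pow_left₀ (by linarith) hy C₃
          _ ≤ Real.log w ^ (C₁ + C₃) := pow_le_pow_right₀ hy1 (Nat.le_add_left _ _)
      have h5 : 1 / Real.log w ^ (C₁ + C₃) ≤ 1 / (12 * (w : ℝ) - 8) :=
        one_div_le_one_div_of_le (by linarith) h3
      linarith
  have part2 : ∀ δ : ℕ → ℝ, IsDel δ → ∀ w v : ℕ, 3 ≤ w →
      Real.exp (Real.log w ^ (2 * (C₁ + C₃) + C₃ + 1)) ≤ v → δ w < δ v := by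
    intro δ hδ w v hw hv
    have hy := log_three_le hw
    have hy1 : 1 ≤ Real.log w := hlog3.le.trans hy
    obtain ⟨y, hydef⟩ : ∃ y : ℝ, y = Real.log w := ⟨_, rfl⟩
    have h1' := part1 δ hδ w hw
    rw [← hydef] at hy hy1 hv h1'
    obtain ⟨z, hz⟩ : ∃ z : ℝ, z = y ^ (C₁ + C₃) := ⟨_, rfl⟩
    rw [← hz] at h1'
    have hz1 : 1 ≤ z := by rw [hz]; exact one_le_pow₀ hy1
    have hz0 : 0 < z := by linarith
    have h2 := hR δ hδ (1 / (2 * z)) v (by positivity)
      (one_div_le_one_div_of_le (by norm_num) (by linarith)) (by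
        refine le_trans (Real.exp_le_exp.2 ?_) hv
        have e1 : 2 / (1 / (2 * z)) = 4 * z := by field_simp; norm_num
        have e2 : B * Real.log (2 / (1 / (2 * z))) / (1 / (2 * z)) =
            2 * B * z * Real.log (4 * z) := by
          rw [e1]
          field_simp
        rw [e2]
        have h3 : Real.log (4 * z) ≤ 4 * z := (Real.log_le_self (by positivity))
        have h4 : 8 * B ≤ y ^ C₃ := hB8.trans (pow_le_pow_left₀ (by linarith) hy C₃)
        calc 2 * B * z * Real.log (4 * z) ≤ 2 * B * z * (4 * z) :=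
              mul_le_mul_of_nonneg_left h3 (by positivity)
          _ = 8 * B * (z * z) := by ring
          _ ≤ y ^ C₃ * (z * z) := mul_le_mul_of_nonneg_right h4 (by positivity)
          _ = y ^ (2 * (C₁ + C₃) + C₃) := by
              rw [hz, ← pow_add, ← pow_add]
              congr 1
              ring
          _ ≤ y ^ (2 * (C₁ + C₃) + C₃ + 1) := pow_le_pow_right₀ hy1 (Nat.le_succ _))
    have h5 : 1 / (2 * z) < 1 / z := one_div_lt_one_div_of_lt hz0 (by linarith)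
    linarith
  refine ⟨2 * (C₁ + C₃) + C₃ + 1, fun δ hδ => ⟨fun w hw => ?_, part2 δ hδ, fun w hw => ?_⟩⟩
  · have hy1 : 1 ≤ Real.log w := hlog3.le.trans (log_three_le hw)
    have h3 : 1 / Real.log w ^ (2 * (C₁ + C₃) + C₃ + 1) ≤ 1 / Real.log w ^ (C₁ + C₃) :=
      one_div_le_one_div_of_le (by positivity) (pow_le_pow_right₀ hy1 (by omega))
    have h4 := part1 δ hδ w hw
    linarith
  · have hy1 : 1 ≤ Real.log w := hlog3.le.trans (log_three_le hw)
    obtain ⟨E, hE⟩ : ∃ E : ℝ, E = Real.exp (Real.log w ^ (2 * (C₁ + C₃) + C₃ + 1)) := ⟨_, rfl⟩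
    have hw0 : (0 : ℝ) < w := by exact_mod_cast (by omega : 0 < w)
    have hwE : (w : ℝ) ≤ E := by
      rw [hE]
      calc (w : ℝ) = Real.exp (Real.log w) := (Real.exp_log hw0).symm
        _ ≤ _ := Real.exp_le_exp.2 (le_self_pow₀ hy1 (by omega))
    have hlt : δ w < δ ⌈E⌉₊ := part2 δ hδ w ⌈E⌉₊ hw (by rw [← hE]; exact Nat.le_ceil E)
    have hwv : w ≤ ⌈E⌉₊ := by
      have : (w : ℝ) ≤ ⌈E⌉₊ := hwE.trans (Nat.le_ceil E)
      exact_mod_cast this
    by_contra hcon
    have hcon' : ∀ u : ℕ, w ≤ u → (u : ℝ) ≤ E → δ (u + 1) ≤ δ u := by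
      intro u hu1 hu2
      by_contra h
      exact hcon ⟨u, hu1, by rw [← hE]; exact hu2, not_le.1 h⟩
    have hmono : ∀ k : ℕ, w + k ≤ ⌈E⌉₊ → δ (w + k) ≤ δ w := by
      intro k
      induction k with
      | zero => intro _; exact le_rfl
      | succ k ih =>
        intro hk
        have h1 : ((w + k : ℕ) : ℝ) ≤ E := by
          have h2 : w + k < ⌈E⌉₊ := by omega
          exact (Nat.lt_ceil.1 h2).le
        exact (hcon' (w + k) (by omega) h1).trans (ih (by omega))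
    have h6 := hmono (⌈E⌉₊ - w) (by omega)
    rw [Nat.add_sub_cancel' hwv] at h6
    exact absurd hlt (not_lt.2 h6)

end Pool.Agent.H34.RK
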