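import Pool.Agent.H34.RK.Stm3
import Pool.Agent.H34.RK.Dual

/-!
RK-GRAD: the gradient inequality for the logarithm of the partition function.
-/

set_option autoImplicit false

open Finset MeasureTheory Filter Topology

namespace Pool.Agent.H34.RK

namespace GRAD

/-- the square -/
def Sq : Set (ℝ × ℝ) := Set.Ioc 0 1 ×ˢ Set.Ioc 0 1

theorem sq_meas : MeasurableSet Sq := measurableSet_Ioc.prod measurableSet_Ioc

theorem sq_fin : volume Sq ≠ ⊤ :=
  ((Metric.isBounded_Ioc (0 : ℝ) 1).prod (Metric.isBounded_Ioc (0 : ℝ) 1)).measure_lt_top.ne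

theorem kt_cont (φ ψ : ℕ → ℝ) (A B : Finset ℕ) :
    Continuous (fun p : ℝ × ℝ => KT φ ψ A B p.1 p.2) := by
  unfold KT
  refine Continuous.mul ?_ ?_
  · exact continuous_finsetProd _ fun l _ => by fun_prop
  · exact continuous_finsetProd _ fun l _ => by fun_prop

theorem fac1 (x y c : ℝ) (hx : 0 ≤ x) (hy : y ≤ 1) :
    0 ≤ max (y - max x c) 0 ∧ max (y - max x c) 0 ≤ 1 := by
  refine ⟨le_max_right _ _, max_le ?_ zero_le_one⟩
  have := le_max_left x c
  linarith

theorem fac2 (x y c : ℝ) (hx : 0 ≤ x) (hy : y ≤ 1) :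
    0 ≤ max (min y c - x) 0 ∧ max (min y c - x) 0 ≤ 1 := by
  refine ⟨le_max_right _ _, max_le ?_ zero_le_one⟩
  have := min_le_left y c
  linarith

theorem kt_bd (φ ψ : ℕ → ℝ) (A B : Finset ℕ) (x y : ℝ) (hx : 0 ≤ x) (hy : y ≤ 1) :
    0 ≤ KT φ ψ A B x y ∧ KT φ ψ A B x y ≤ 1 := by
  unfold KT
  have h1 : 0 ≤ ∏ l ∈ A, max (y - max x (φ l)) 0 :=
    Finset.prod_nonneg fun l _ => (fac1 x y (φ l) hx hy).1
  have h2 : 0 ≤ ∏ l ∈ B, max (min y (ψ l) - x) 0 :=
    Finset.prod_nonneg fun l _ => (fac2 x y (ψ l) hx hy).1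
  have h3 : ∏ l ∈ A, max (y - max x (φ l)) 0 ≤ 1 :=
    Finset.prod_le_one (fun l _ => (fac1 x y (φ l) hx hy).1) fun l _ => (fac1 x y (φ l) hx hy).2
  have h4 : ∏ l ∈ B, max (min y (ψ l) - x) 0 ≤ 1 :=
    Finset.prod_le_one (fun l _ => (fac2 x y (ψ l) hx hy).1) fun l _ => (fac2 x y (ψ l) hx hy).2
  exact ⟨mul_nonneg h1 h2, mul_le_one₀ h3 h2 h4⟩

/-- the integrand on the square -/
noncomputable def G (φ ψ : ℕ → ℝ) (A B : Finset ℕ) (p : ℝ × ℝ) : ℝ :=
  if p.1 < p.2 then KT φ ψ A B p.1 p.2 else 0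

theorem G_meas (φ ψ : ℕ → ℝ) (A B : Finset ℕ) : Measurable (G φ ψ A B) :=
  Measurable.ite (measurableSet_lt measurable_fst measurable_snd) (kt_cont φ ψ A B).measurable
    measurable_const

theorem intOn (f : ℝ × ℝ → ℝ) (hf : Measurable f) (C : ℝ) (hb : ∀ p ∈ Sq, ‖f p‖ ≤ C) :
    IntegrableOn f Sq :=
  Measure.integrableOn_of_bounded (M := C) sq_fin hf.aestronglyMeasurable
    ((ae_restrict_iff' sq_meas).2 (ae_of_all _ hb))

theorem G_bd (φ ψ : ℕ → ℝ) (A B : Finset ℕ) (p : ℝ × ℝ) (hp : p ∈ Sq) : ‖G φ ψ A B p‖ ≤ 1 := by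
  unfold G
  split_ifs with h
  · have h1 := kt_bd φ ψ A B p.1 p.2 hp.1.1.le hp.2.2
    rw [Real.norm_eq_abs, abs_of_nonneg h1.1]
    exact h1.2
  · simp

theorem G_int (φ ψ : ℕ → ℝ) (A B : Finset ℕ) : IntegrableOn (G φ ψ A B) Sq :=
  intOn _ (G_meas φ ψ A B) 1 (G_bd φ ψ A B)

theorem ZT_eq (φ ψ : ℕ → ℝ) (A B : Finset ℕ) : ZT φ ψ A B = ∫ p in Sq, G φ ψ A B p := by
  have h1 := G_int φ ψ A B
  unfold Sq at h1 ⊢
  rw [Measure.volume_eq_prod] at h1 ⊢
  rw [setIntegral_prod _ h1]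
  unfold ZT
  rw [intervalIntegral.integral_of_le zero_le_one]
  refine setIntegral_congr_fun measurableSet_Ioc fun x hx => ?_
  show ∫ y in x..1, KT φ ψ A B x y = ∫ y in Set.Ioc 0 1, G φ ψ A B (x, y)
  rw [intervalIntegral.integral_of_le hx.2]
  have h2 : ∀ y, G φ ψ A B (x, y) = (Set.Ioi x).indicator (fun y => KT φ ψ A B x y) y := by
    intro y
    unfold G
    by_cases h : x < y
    · rw [if_pos h, Set.indicator_of_mem (Set.mem_Ioi.2 h)]
    · rw [if_neg h, Set.indicator_of_notMem (fun h' => h (Set.mem_Ioi.1 h'))]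
  simp only [h2]
  rw [setIntegral_indicator measurableSet_Ioi]
  congr 2
  ext y
  simp only [Set.mem_Ioc, Set.mem_inter_iff, Set.mem_Ioi]
  constructor
  · rintro ⟨h3, h4⟩
    exact ⟨⟨hx.1.trans h3, h4⟩, h3⟩
  · rintro ⟨⟨_, h4⟩, h3⟩
    exact ⟨h3, h4⟩

/-- integral over a rectangle -/
theorem rect (f : ℝ × ℝ → ℝ) (hf : Continuous f) (c : ℝ) (h0 : 0 ≤ c) (h1 : c ≤ 1) :
    ∫ p in Sq, (if p.1 < c ∧ c < p.2 then f p else 0) = ∫ x in (0 : ℝ)..c, ∫ y in c..1, f (x, y) := by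
  obtain ⟨T, hT⟩ : ∃ T : Set (ℝ × ℝ), T = {p | p.1 < c ∧ c < p.2} := ⟨_, rfl⟩
  have hTm : MeasurableSet T := by
    rw [hT]
    exact (measurableSet_lt measurable_fst measurable_const).inter
      (measurableSet_lt measurable_const measurable_snd)
  have h2 : ∀ p : ℝ × ℝ, (if p.1 < c ∧ c < p.2 then f p else 0) = T.indicator f p := by
    intro p
    by_cases h : p.1 < c ∧ c < p.2
    · rw [if_pos h, Set.indicator_of_mem (by rw [hT]; exact h)]
    · rw [if_neg h, Set.indicator_of_notMem (by rw [hT]; exact h)]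
  simp only [h2]
  rw [setIntegral_indicator hTm]
  have h3 : Sq ∩ T = Set.Ioo 0 c ×ˢ Set.Ioc c 1 := by
    ext p
    rw [hT]
    constructor
    · rintro ⟨⟨h4, h5⟩, h6, h7⟩
      exact ⟨⟨h4.1, h6⟩, ⟨h7, h5.2⟩⟩
    · rintro ⟨h4, h5⟩
      exact ⟨⟨⟨h4.1, h4.2.le.trans h1⟩, ⟨h0.trans_lt h5.1, h5.2⟩⟩, h4.2, h5.1⟩
  rw [h3]
  have h4 : IntegrableOn f (Set.Ioo 0 c ×ˢ Set.Ioc c 1) := by
    refine (hf.continuousOn.integrableOn_compact (K := Set.Icc 0 c ×ˢ Set.Icc c 1)
      (isCompact_Icc.prod isCompact_Icc)).mono_set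
      (Set.prod_mono Set.Ioo_subset_Icc_self Set.Ioc_subset_Icc_self)
  rw [Measure.volume_eq_prod] at h4 ⊢
  rw [setIntegral_prod _ h4, intervalIntegral.integral_of_le h0, integral_Ioc_eq_integral_Ioo]
  refine setIntegral_congr_fun measurableSet_Ioo fun x _ => ?_
  show ∫ y in Set.Ioc c 1, f (x, y) = ∫ y in c..1, f (x, y)
  rw [intervalIntegral.integral_of_le h1]

theorem ev_lt (c h x : ℝ) (hx : x < c) : ∀ᶠ s : ℝ in 𝓝 0, x < c + s * h := by
  have h1 : ContinuousAt (fun s : ℝ => c + s * h) 0 := by fun_prop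
  have h2 : x < (fun s : ℝ => c + s * h) 0 := by simpa using hx
  exact h1.eventually (lt_mem_nhds h2)

theorem ev_gt (c h x : ℝ) (hx : c < x) : ∀ᶠ s : ℝ in 𝓝 0, c + s * h < x := by
  have h1 : ContinuousAt (fun s : ℝ => c + s * h) 0 := by fun_prop
  have h2 : (fun s : ℝ => c + s * h) 0 < x := by simpa using hx
  exact h1.eventually (gt_mem_nhds h2)

theorem lin_d (c h : ℝ) : HasDerivAt (fun s : ℝ => c + s * h) h 0 :=
  (((hasDerivAt_id' (0 : ℝ)).mul_const h).const_add c).congr_deriv (by ring)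

theorem d1 (x y c h : ℝ) (hx : x ≠ c) (hy : y ≠ c) :
    HasDerivAt (fun s : ℝ => max (y - max x (c + s * h)) 0) (if x < c ∧ c < y then -h else 0) 0 := by
  rcases lt_or_gt_of_ne hx with hx | hx
  · rcases lt_or_gt_of_ne hy with hy | hy
    · rw [if_neg (fun h => lt_asymm h.2 hy)]
      refine (hasDerivAt_const (0 : ℝ) (0 : ℝ)).congr_of_eventuallyEq ?_
      filter_upwards [ev_lt c h x hx, ev_lt c h y hy] with s h1 h2
      rw [max_eq_right h1.le, max_eq_right (by linarith)]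
    · rw [if_pos ⟨hx, hy⟩]
      refine ((lin_d c h).const_sub y).congr_of_eventuallyEq ?_
      filter_upwards [ev_lt c h x hx, ev_gt c h y hy] with s h1 h2
      rw [max_eq_right h1.le, max_eq_left (by linarith)]
  · rw [if_neg (fun h => lt_asymm h.1 hx)]
    refine (hasDerivAt_const (0 : ℝ) (max (y - x) 0)).congr_of_eventuallyEq ?_
    filter_upwards [ev_gt c h x hx] with s h1
    rw [max_eq_left h1.le]

theorem d2 (x y c h : ℝ) (hx : x ≠ c) (hy : y ≠ c) :
    HasDerivAt (fun s : ℝ => max (min y (c + s * h) - x) 0) (if x < c ∧ c < y then h else 0) 0 := by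
  rcases lt_or_gt_of_ne hy with hy | hy
  · rw [if_neg (fun h => lt_asymm h.2 hy)]
    refine (hasDerivAt_const (0 : ℝ) (max (y - x) 0)).congr_of_eventuallyEq ?_
    filter_upwards [ev_lt c h y hy] with s h1
    rw [min_eq_left h1.le]
  · rcases lt_or_gt_of_ne hx with hx | hx
    · rw [if_pos ⟨hx, hy⟩]
      refine ((lin_d c h).sub_const x).congr_of_eventuallyEq ?_
      filter_upwards [ev_lt c h x hx, ev_gt c h y hy] with s h1 h2
      rw [min_eq_right h2.le, max_eq_left (by linarith)]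
    · rw [if_neg (fun h => lt_asymm h.1 hx)]
      refine (hasDerivAt_const (0 : ℝ) (0 : ℝ)).congr_of_eventuallyEq ?_
      filter_upwards [ev_gt c h x hx, ev_gt c h y hy] with s h1 h2
      rw [min_eq_right h2.le, max_eq_right (by linarith)]

theorem l1 (x y c h s t : ℝ) :
    |max (y - max x (c + s * h)) 0 - max (y - max x (c + t * h)) 0| ≤ |h| * |s - t| := by
  refine (abs_max_sub_max_le_abs _ _ _).trans ?_
  have h1 : y - max x (c + s * h) - (y - max x (c + t * h)) =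
      max (c + t * h) x - max (c + s * h) x := by
    rw [max_comm x, max_comm x]; ring
  rw [h1]
  refine (abs_max_sub_max_le_abs _ _ _).trans (le_of_eq ?_)
  rw [show c + t * h - (c + s * h) = h * (t - s) by ring, abs_mul, abs_sub_comm]

theorem l2 (x y c h s t : ℝ) :
    |max (min y (c + s * h) - x) 0 - max (min y (c + t * h) - x) 0| ≤ |h| * |s - t| := by
  refine (abs_max_sub_max_le_abs _ _ _).trans ?_
  have h1 : min y (c + s * h) - x - (min y (c + t * h) - x) =
      min (c + s * h) y - min (c + t * h) y := by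
    rw [min_comm y, min_comm y]; ring
  rw [h1]
  refine (abs_min_sub_min_le_max _ _ _ _).trans ?_
  rw [sub_self, abs_zero, max_eq_left (abs_nonneg _),
    show c + s * h - (c + t * h) = h * (s - t) by ring, abs_mul]

theorem prod_lip (A : Finset ℕ) (f f' : ℕ → ℝ) (hf : ∀ l, 0 ≤ f l ∧ f l ≤ 1)
    (hf' : ∀ l, 0 ≤ f' l ∧ f' l ≤ 1) : |∏ l ∈ A, f l - ∏ l ∈ A, f' l| ≤ ∑ l ∈ A, |f l - f' l| := by
  classical
  induction A using Finset.induction_on with
  | empty => simp
  | insert a A ha ih =>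
    rw [Finset.prod_insert ha, Finset.prod_insert ha, Finset.sum_insert ha]
    have h1 : 0 ≤ ∏ l ∈ A, f l := Finset.prod_nonneg fun l _ => (hf l).1
    have h2 : ∏ l ∈ A, f l ≤ 1 := Finset.prod_le_one (fun l _ => (hf l).1) fun l _ => (hf l).2
    have h3 : f a * ∏ l ∈ A, f l - f' a * ∏ l ∈ A, f' l =
        (f a - f' a) * ∏ l ∈ A, f l + f' a * (∏ l ∈ A, f l - ∏ l ∈ A, f' l) := by ring
    rw [h3]
    refine (abs_add_le _ _).trans (add_le_add ?_ ?_)
    · rw [abs_mul, abs_of_nonneg h1]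
      exact mul_le_of_le_one_right (abs_nonneg _) h2
    · rw [abs_mul, abs_of_nonneg (hf' a).1]
      exact (mul_le_of_le_one_left (abs_nonneg _) (hf' a).2).trans ih

section

variable (a b h k : ℕ → ℝ) (A B : Finset ℕ)

theorem kt_lip (p : ℝ × ℝ) (hp : p ∈ Sq) (s t : ℝ) :
    |KT (fun l => a l + s * h l) (fun l => b l + s * k l) A B p.1 p.2 -
      KT (fun l => a l + t * h l) (fun l => b l + t * k l) A B p.1 p.2| ≤
      (∑ l ∈ A, |h l| + ∑ l ∈ B, |k l|) * |s - t| := by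
  unfold KT
  have hx := hp.1.1.le
  have hy := hp.2.2
  have u1 : ∀ s : ℝ, 0 ≤ ∏ l ∈ A, max (p.2 - max p.1 (a l + s * h l)) 0 ∧
      ∏ l ∈ A, max (p.2 - max p.1 (a l + s * h l)) 0 ≤ 1 := fun s =>
    ⟨Finset.prod_nonneg fun l _ => (fac1 _ _ _ hx hy).1,
      Finset.prod_le_one (fun l _ => (fac1 _ _ _ hx hy).1) fun l _ => (fac1 _ _ _ hx hy).2⟩
  have u2 : ∀ s : ℝ, 0 ≤ ∏ l ∈ B, max (min p.2 (b l + s * k l) - p.1) 0 ∧
      ∏ l ∈ B, max (min p.2 (b l + s * k l) - p.1) 0 ≤ 1 := fun s =>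
    ⟨Finset.prod_nonneg fun l _ => (fac2 _ _ _ hx hy).1,
      Finset.prod_le_one (fun l _ => (fac2 _ _ _ hx hy).1) fun l _ => (fac2 _ _ _ hx hy).2⟩
  have v1 : |∏ l ∈ A, max (p.2 - max p.1 (a l + s * h l)) 0 -
      ∏ l ∈ A, max (p.2 - max p.1 (a l + t * h l)) 0| ≤ (∑ l ∈ A, |h l|) * |s - t| := by
    refine (prod_lip A _ _ (fun l => fac1 _ _ _ hx hy) (fun l => fac1 _ _ _ hx hy)).trans ?_
    rw [Finset.sum_mul]
    exact Finset.sum_le_sum fun l _ => l1 _ _ _ _ _ _
  have v2 : |∏ l ∈ B, max (min p.2 (b l + s * k l) - p.1) 0 -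
      ∏ l ∈ B, max (min p.2 (b l + t * k l) - p.1) 0| ≤ (∑ l ∈ B, |k l|) * |s - t| := by
    refine (prod_lip B _ _ (fun l => fac2 _ _ _ hx hy) (fun l => fac2 _ _ _ hx hy)).trans ?_
    rw [Finset.sum_mul]
    exact Finset.sum_le_sum fun l _ => l2 _ _ _ _ _ _
  have h3 : ∀ P P' R R' : ℝ, P * R - P' * R' = (P - P') * R + P' * (R - R') := fun _ _ _ _ => by ring
  rw [h3, add_mul]
  refine (abs_add_le _ _).trans (add_le_add ?_ ?_)
  · rw [abs_mul, abs_of_nonneg (u2 s).1]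
    exact (mul_le_of_le_one_right (abs_nonneg _) (u2 s).2).trans v1
  · rw [abs_mul, abs_of_nonneg (u1 t).1]
    exact (mul_le_of_le_one_left (abs_nonneg _) (u1 t).2).trans v2

/-- the derivative of the integrand -/
noncomputable def G' (p : ℝ × ℝ) : ℝ :=
  ∑ l ∈ A, (if p.1 < a l ∧ a l < p.2 then -h l * KT a b (A.erase l) B p.1 p.2 else 0) +
    ∑ l ∈ B, (if p.1 < b l ∧ b l < p.2 then k l * KT a b A (B.erase l) p.1 p.2 else 0)

theorem G'_meas : Measurable (G' a b h k A B) := by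
  unfold G'
  refine Measurable.add ?_ ?_
  · refine Finset.measurable_sum _ fun l _ => ?_
    refine Measurable.ite ((measurableSet_lt measurable_fst measurable_const).inter
      (measurableSet_lt measurable_const measurable_snd)) ?_ measurable_const
    exact (kt_cont a b (A.erase l) B).measurable.const_mul _
  · refine Finset.measurable_sum _ fun l _ => ?_
    refine Measurable.ite ((measurableSet_lt measurable_fst measurable_const).inter
      (measurableSet_lt measurable_const measurable_snd)) ?_ measurable_const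
    exact (kt_cont a b A (B.erase l)).measurable.const_mul _

theorem G_deriv (p : ℝ × ℝ) (h1 : ∀ l ∈ A, p.1 ≠ a l ∧ p.2 ≠ a l)
    (h2 : ∀ l ∈ B, p.1 ≠ b l ∧ p.2 ≠ b l) :
    HasDerivAt (fun s : ℝ => G (fun l => a l + s * h l) (fun l => b l + s * k l) A B p)
      (G' a b h k A B p) 0 := by
  unfold G
  by_cases hlt : p.1 < p.2
  · simp only [if_pos hlt]
    unfold KT
    have e1 := HasDerivAt.fun_finsetProd (u := A)
      (f := fun l s => max (p.2 - max p.1 (a l + s * h l)) 0)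
      (fun l hl => d1 p.1 p.2 (a l) (h l) (h1 l hl).1 (h1 l hl).2)
    have e2 := HasDerivAt.fun_finsetProd (u := B)
      (f := fun l s => max (min p.2 (b l + s * k l) - p.1) 0)
      (fun l hl => d2 p.1 p.2 (b l) (k l) (h2 l hl).1 (h2 l hl).2)
    refine (e1.mul e2).congr_deriv ?_
    unfold G' KT
    simp only [zero_mul, add_zero, smul_eq_mul]
    rw [Finset.sum_mul, Finset.mul_sum]
    congr 1
    · refine Finset.sum_congr rfl fun l _ => ?_
      split_ifs <;> ring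
    · refine Finset.sum_congr rfl fun l _ => ?_
      split_ifs <;> ring
  · simp only [if_neg hlt]
    have : G' a b h k A B p = 0 := by
      unfold G'
      rw [Finset.sum_eq_zero, Finset.sum_eq_zero, add_zero]
      · intro l _
        rw [if_neg (fun h => hlt (h.1.trans h.2))]
      · intro l _
        rw [if_neg (fun h => hlt (h.1.trans h.2))]
    rw [this]
    exact hasDerivAt_const _ _

theorem null_line (c : ℝ) : ∀ᵐ p : ℝ × ℝ, p.1 ≠ c ∧ p.2 ≠ c := by
  have h1 : volume {p : ℝ × ℝ | p.1 = c} = 0 := by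
    have : {p : ℝ × ℝ | p.1 = c} = {c} ×ˢ Set.univ := by
      ext p; simp
    rw [this, Measure.volume_eq_prod, Measure.prod_prod, Real.volume_singleton, zero_mul]
  have h2 : volume {p : ℝ × ℝ | p.2 = c} = 0 := by
    have : {p : ℝ × ℝ | p.2 = c} = Set.univ ×ˢ {c} := by
      ext p; simp
    rw [this, Measure.volume_eq_prod, Measure.prod_prod, Real.volume_singleton, mul_zero]
  have h3 : ∀ᵐ p : ℝ × ℝ, p.1 ≠ c := by
    rw [ae_iff]; simpa using h1
  have h4 : ∀ᵐ p : ℝ × ℝ, p.2 ≠ c := by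
    rw [ae_iff]; simpa using h2
  filter_upwards [h3, h4] with p h5 h6
  exact ⟨h5, h6⟩

theorem ae_all (f : ℕ → ℝ) (A : Finset ℕ) : ∀ᵐ p : ℝ × ℝ, ∀ l ∈ A, p.1 ≠ f l ∧ p.2 ≠ f l := by
  rw [Filter.eventually_all_finset]
  intro l _
  exact null_line (f l)

theorem ZT_deriv (ha : ∀ l ∈ A, 0 ≤ a l ∧ a l ≤ 1) (hb : ∀ l ∈ B, 0 ≤ b l ∧ b l ≤ 1) :
    HasDerivAt (fun s : ℝ => ZT (fun l => a l + s * h l) (fun l => b l + s * k l) A B)
      (-(∑ l ∈ A, h l * ∫ x in (0 : ℝ)..(a l), ∫ y in (a l)..1, KT a b (A.erase l) B x y) +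
        ∑ l ∈ B, k l * ∫ x in (0 : ℝ)..(b l), ∫ y in (b l)..1, KT a b A (B.erase l) x y) 0 := by
  obtain ⟨C, hC⟩ : ∃ C, C = ∑ l ∈ A, |h l| + ∑ l ∈ B, |k l| := ⟨_, rfl⟩
  have hC0 : 0 ≤ C := by
    rw [hC]
    exact add_nonneg (Finset.sum_nonneg fun _ _ => abs_nonneg _)
      (Finset.sum_nonneg fun _ _ => abs_nonneg _)
  have key := hasDerivAt_integral_of_dominated_loc_of_lip (μ := volume.restrict Sq)
    (F := fun (s : ℝ) (p : ℝ × ℝ) => G (fun l => a l + s * h l) (fun l => b l + s * k l) A B p)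
    (F' := G' a b h k A B) (x₀ := 0) (s := Set.univ) (bound := fun _ => C) Filter.univ_mem
    (Filter.Eventually.of_forall fun s => (G_meas _ _ _ _).aestronglyMeasurable)
    (G_int _ _ _ _) (G'_meas a b h k A B).aestronglyMeasurable ?_ ?_ ?_
  · have h3 : ∫ p in Sq, G' a b h k A B p =
        -(∑ l ∈ A, h l * ∫ x in (0 : ℝ)..(a l), ∫ y in (a l)..1, KT a b (A.erase l) B x y) +
        ∑ l ∈ B, k l * ∫ x in (0 : ℝ)..(b l), ∫ y in (b l)..1, KT a b A (B.erase l) x y := by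
      have i1 : ∀ (A' B' : Finset ℕ) (c m : ℝ), IntegrableOn (fun p : ℝ × ℝ =>
          if p.1 < c ∧ c < p.2 then m * KT a b A' B' p.1 p.2 else 0) Sq := by
        intro A' B' c m
        refine intOn _ ?_ |m| ?_
        · refine Measurable.ite ((measurableSet_lt measurable_fst measurable_const).inter
            (measurableSet_lt measurable_const measurable_snd)) ?_ measurable_const
          exact (kt_cont a b A' B').measurable.const_mul _
        · intro p hp
          split_ifs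
          · have h4 := kt_bd a b A' B' p.1 p.2 hp.1.1.le hp.2.2
            rw [Real.norm_eq_abs, abs_mul, abs_of_nonneg h4.1]
            exact mul_le_of_le_one_right (abs_nonneg _) h4.2
          · simp
      have i2 : ∀ (A' B' : Finset ℕ) (c m : ℝ), 0 ≤ c → c ≤ 1 → ∫ p in Sq,
          (if p.1 < c ∧ c < p.2 then m * KT a b A' B' p.1 p.2 else 0) =
          m * ∫ x in (0 : ℝ)..c, ∫ y in c..1, KT a b A' B' x y := by
        intro A' B' c m hc0 hc1
        rw [rect (fun p => m * KT a b A' B' p.1 p.2) ((kt_cont a b A' B').const_mul m) c hc0 hc1]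
        simp only [intervalIntegral.integral_const_mul]
      unfold G'
      rw [integral_add, integral_finsetSum _ fun l _ => i1 _ _ _ _,
        integral_finsetSum _ fun l _ => i1 _ _ _ _]
      · rw [← Finset.sum_neg_distrib]
        congr 1
        · refine Finset.sum_congr rfl fun l hl => ?_
          rw [i2 _ _ _ _ (ha l hl).1 (ha l hl).2]
          ring
        · refine Finset.sum_congr rfl fun l hl => ?_
          rw [i2 _ _ _ _ (hb l hl).1 (hb l hl).2]
      · exact integrable_finsetSum _ fun l _ => i1 _ _ _ _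
      · exact integrable_finsetSum _ fun l _ => i1 _ _ _ _
    rw [← h3]
    have h4 := key.2
    simp only [← ZT_eq] at h4
    exact h4
  · rw [ae_restrict_iff' sq_meas]
    refine ae_of_all _ fun p hp => ?_
    refine LipschitzOnWith.of_dist_le_mul fun s _ t _ => ?_
    rw [Real.coe_nnabs, abs_of_nonneg hC0, Real.dist_eq, Real.dist_eq]
    show |G _ _ A B p - G _ _ A B p| ≤ _
    unfold G
    split_ifs
    · rw [hC]
      exact kt_lip a b h k A B p hp s t
    · rw [sub_self, abs_zero]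
      exact mul_nonneg hC0 (abs_nonneg _)
  · exact integrableOn_const sq_fin
  · refine ae_restrict_of_ae ?_
    filter_upwards [ae_all a A, ae_all b B] with p h1 h2
    exact G_deriv a b h k A B p h1 h2

end

theorem KT_congr (φ ψ φ' ψ' : ℕ → ℝ) (A B : Finset ℕ) (h1 : ∀ l ∈ A, φ l = φ' l)
    (h2 : ∀ l ∈ B, ψ l = ψ' l) : KT φ ψ A B = KT φ' ψ' A B := by
  funext x y
  unfold KT
  rw [Finset.prod_congr rfl fun l hl => by rw [h1 l hl],
    Finset.prod_congr (s₁ := B) rfl fun l hl => by rw [h2 l hl]]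

theorem ZT_congr (φ ψ φ' ψ' : ℕ → ℝ) (A B : Finset ℕ) (h1 : ∀ l ∈ A, φ l = φ' l)
    (h2 : ∀ l ∈ B, ψ l = ψ' l) : ZT φ ψ A B = ZT φ' ψ' A B := by
  unfold ZT
  rw [KT_congr φ ψ φ' ψ' A B h1 h2]

/-- duality for the rectangle integrals -/
theorem rect_dual (g : ℝ) (A B : Finset ℕ) (c : ℝ) :
    ∫ x in (0 : ℝ)..(1 - c), ∫ y in (1 - c)..1, KK g A B x y =
      ∫ x in (0 : ℝ)..c, ∫ y in c..1, KK g B A x y := by
  have h1 : ∀ x : ℝ, ∫ y in (1 - c)..1, KK g A B x y = ∫ y in (0 : ℝ)..c, KK g B A y (1 - x) := by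
    intro x
    have h2 := intervalIntegral.integral_comp_sub_left (a := 1 - c) (b := 1)
      (fun y => KK g B A y (1 - x)) 1
    rw [sub_self, sub_sub_cancel] at h2
    rw [← h2]
    refine intervalIntegral.integral_congr fun y _ => ?_
    exact DUAL.kk_dual g A B x y
  simp only [h1]
  have h3 := intervalIntegral.integral_comp_sub_left (a := 0) (b := 1 - c)
    (fun x => ∫ y in (0 : ℝ)..c, KK g B A y x) 1
  rw [sub_zero, sub_sub_cancel] at h3
  rw [h3]
  exact DUAL.swap_rect (fun x y => KK g B A y x)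
    ((DUAL.kk_cont g B A).comp (by fun_prop : Continuous fun p : ℝ × ℝ => (p.2, p.1))) c 1 0 c

end GRAD

open GRAD in
theorem grad : S_LC → S_REG → S_ZB → S_GRAD := by
  intro hLC _ hZB g L A B φ ψ hg hL hgL hA hB hM hφ hψ hz
  have hL1 : (1 : ℝ) ≤ L := by exact_mod_cast (by omega : 1 ≤ L)
  have hgL1 : g * L ≤ 1 := by
    refine le_trans ?_ hgL
    exact mul_le_mul_of_nonneg_left (le_self_pow₀ hL1 (by norm_num)) hg.le
  have hgl : ∀ l : ℕ, l ≤ L → 0 ≤ g * l ∧ g * l ≤ 1 := by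
    intro l hl
    have h1 : (l : ℝ) ≤ L := by exact_mod_cast hl
    exact ⟨by positivity, (mul_le_mul_of_nonneg_left h1 hg.le).trans hgL1⟩
  obtain ⟨Z, hZ⟩ : ∃ Z, Z = ZZ g A B := ⟨_, rfl⟩
  obtain ⟨z, hz'⟩ : ∃ z, z = ZT φ ψ A B := ⟨_, rfl⟩
  have hZ0 : 0 < Z := by
    rw [hZ]
    refine lt_of_lt_of_le ?_ (hZB g L A B hg hL hgL hA hB hM).2
    positivity
  -- the clipped progression
  obtain ⟨φs, hφs⟩ : ∃ φs : ℕ → ℝ, φs = fun l => if l ≤ L then g * l else 0 := ⟨_, rfl⟩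
  obtain ⟨ψs, hψs⟩ : ∃ ψs : ℕ → ℝ, ψs = fun l => if l ≤ L then 1 - g * l else 1 := ⟨_, rfl⟩
  have hφs1 : ∀ l, 0 ≤ φs l ∧ φs l ≤ 1 := by
    intro l
    rw [hφs]
    simp only
    split_ifs with h
    · exact hgl l h
    · norm_num
  have hψs1 : ∀ l, 0 ≤ ψs l ∧ ψs l ≤ 1 := by
    intro l
    rw [hψs]
    simp only
    split_ifs with h
    · have := hgl l h
      constructor <;> linarith
    · norm_num
  have hφA : ∀ l ∈ A, φs l = g * l := by
    intro l hl
    rw [hφs]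
    simp only
    rw [if_pos (hA l hl).2]
  have hψB : ∀ l ∈ B, ψs l = 1 - g * l := by
    intro l hl
    rw [hψs]
    simp only
    rw [if_pos (hB l hl).2]
  have hZs : ZT φs ψs A B = Z := by
    rw [hZ]
    exact ZT_congr _ _ _ _ _ _ hφA hψB
  obtain ⟨F, hF⟩ : ∃ F : ℝ → ℝ, F = fun s => ZT (fun l => g * l + s * (φ l - g * l))
      (fun l => (1 - g * l) + s * (ψ l - (1 - g * l))) A B := ⟨_, rfl⟩
  have hF0 : F 0 = Z := by
    rw [hF, hZ]
    simp only
    exact ZT_congr _ _ _ _ _ _ (fun l _ => by ring) (fun l _ => by ring)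
  have hLC' : ∀ s : ℝ, 0 < s → s < 1 → z ^ s * Z ^ (1 - s) ≤ F s := by
    intro s h0 h1
    have h2 := hLC φ ψ φs ψs A B s h0 h1 hφ hψ hφs1 hψs1
    rw [hZs, ← hz'] at h2
    refine h2.trans (le_of_eq ?_)
    rw [hF]
    simp only
    refine ZT_congr _ _ _ _ _ _ (fun l hl => ?_) (fun l hl => ?_)
    · rw [hφA l hl]; ring
    · rw [hψB l hl]; ring
  rw [← hz'] at hz ⊢
  have hD := ZT_deriv (fun l => g * l) (fun l => 1 - g * l) (fun l => φ l - g * l)
    (fun l => ψ l - (1 - g * l)) A B (fun l hl => hgl l (hA l hl).2)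
    (fun l hl => by
      have := hgl l (hB l hl).2
      constructor <;> linarith)
  obtain ⟨D, hDe⟩ : ∃ D, D = (-(∑ l ∈ A, (φ l - g * l) * ∫ x in (0 : ℝ)..(g * l), ∫ y in (g * l)..1,
      KT (fun l => g * l) (fun l => 1 - g * l) (A.erase l) B x y) +
      ∑ l ∈ B, (ψ l - (1 - g * l)) * ∫ x in (0 : ℝ)..(1 - g * l), ∫ y in (1 - g * l)..1,
        KT (fun l => g * l) (fun l => 1 - g * l) A (B.erase l) x y) := ⟨_, rfl⟩
  have hD' : HasDerivAt F D 0 := by
    rw [hF, hDe]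
    exact hD
  -- the inequality in the limit
  have hlim := hD'.tendsto_slope_zero_right
  have hge : Z * (Real.log z - Real.log Z) ≤ D := by
    refine ge_of_tendsto hlim ?_
    have h1 : ∀ᶠ s : ℝ in 𝓝[>] 0, s < 1 :=
      (gt_mem_nhds (zero_lt_one' ℝ)).filter_mono nhdsWithin_le_nhds
    filter_upwards [h1, self_mem_nhdsWithin] with s hs1 hs0
    have hs0' : 0 < s := hs0
    rw [zero_add, hF0, smul_eq_mul]
    have h2 := hLC' s hs0' hs1
    have h3 : z ^ s * Z ^ (1 - s) = Z * Real.exp (s * (Real.log z - Real.log Z)) := by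
      rw [Real.rpow_def_of_pos hz, Real.rpow_def_of_pos hZ0]
      conv_rhs => rw [← Real.exp_log hZ0]
      rw [← Real.exp_add, ← Real.exp_add, Real.log_exp]
      congr 1
      ring
    have h4 := Real.add_one_le_exp (s * (Real.log z - Real.log Z))
    have h5 : Z * (s * (Real.log z - Real.log Z)) ≤ F s - Z := by
      rw [h3] at h2
      have h6 := mul_le_mul_of_nonneg_left h4 hZ0.le
      linarith
    rw [inv_mul_eq_div, le_div_iff₀ hs0']
    linarith
  -- the value of the derivative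
  have hval : D = Z * (-(∑ l ∈ A, dA g A B l * (φ l - g * l)) +
      ∑ l ∈ B, dB g A B l * (ψ l - (1 - g * l))) := by
    rw [hDe, mul_add, mul_neg, Finset.mul_sum, Finset.mul_sum]
    congr 1
    · congr 1
      refine Finset.sum_congr rfl fun l _ => ?_
      unfold dA
      rw [← hZ]
      have h1 : ∀ x y, KT (fun l => g * l) (fun l => 1 - g * l) (A.erase l) B x y =
        KK g (A.erase l) B x y := fun _ _ => rfl
      simp only [h1]
      field_simp
    · refine Finset.sum_congr rfl fun l _ => ?_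
      unfold dB dA
      rw [← DUAL.zz_dual g A B, ← hZ, ← rect_dual g A (B.erase l) (g * l)]
      have h1 : ∀ x y, KT (fun l => g * l) (fun l => 1 - g * l) A (B.erase l) x y =
        KK g A (B.erase l) x y := fun _ _ => rfl
      simp only [h1]
      field_simp
  rw [hval] at hge
  have h7 := le_of_mul_le_mul_left hge hZ0
  rw [← hZ]
  linarith

end Pool.Agent.H34.RK
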