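import Pool.Agent.H34.RK.T4s
import Pool.Agent.H34.RK.K1

set_option autoImplicit false

open Finset MeasureTheory

namespace Pool.Agent.H34.RK

namespace HZ

open TS

/-- first order expansion of a product of positive parts -/
theorem prodexp {ι : Type*} (s : Finset ι) (hs : s.Nonempty) (γ : ι → ℝ) (hγ : ∀ i, 0 ≤ γ i) {t : ℝ}
    (h0 : 0 ≤ t) (h1 : t ≤ 1) :
    0 ≤ ∏ i ∈ s, max (t - γ i) 0 - t ^ s.card + t ^ (s.card - 1) * ∑ i ∈ s, γ i ∧
    t * (∏ i ∈ s, max (t - γ i) 0 - t ^ s.card + t ^ (s.card - 1) * ∑ i ∈ s, γ i) ≤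
      (∑ i ∈ s, γ i) ^ 2 ∧
    (2 ≤ s.card → ∏ i ∈ s, max (t - γ i) 0 - t ^ s.card + t ^ (s.card - 1) * ∑ i ∈ s, γ i ≤
      (∑ i ∈ s, γ i) ^ 2) := by
  classical
  induction hs using Finset.Nonempty.cons_induction with
  | singleton a =>
    have h2 := hγ a
    simp only [prod_singleton, card_singleton, pow_one, sum_singleton, Nat.sub_self, pow_zero, one_mul]
    rcases le_total (γ a) t with h | h
    · rw [max_eq_left (by linarith)]
      refine ⟨by linarith, by nlinarith, fun h3 => by omega⟩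
    · rw [max_eq_right (by linarith)]
      refine ⟨by linarith, by nlinarith, fun h3 => by omega⟩
  | cons a s ha hs ih =>
    obtain ⟨m, hm⟩ : ∃ m, s.card = m + 1 := ⟨s.card - 1, by have := hs.card_pos; omega⟩
    rw [prod_cons, sum_cons, card_cons, hm]
    rw [hm] at ih
    simp only [Nat.add_sub_cancel] at ih ⊢
    obtain ⟨i1, i2, -⟩ := ih
    have hS : 0 ≤ ∑ i ∈ s, γ i := sum_nonneg fun i _ => hγ i
    set S := ∑ i ∈ s, γ i with hSdef
    set P := ∏ i ∈ s, max (t - γ i) 0 with hPdef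
    set R := P - t ^ (m + 1) + t ^ m * S with hRdef
    have hPR : P = t ^ (m + 1) - t ^ m * S + R := by rw [hRdef]; ring
    have hu0 : 0 ≤ t ^ m := pow_nonneg h0 m
    have hu1 : t ^ m ≤ 1 := pow_le_one₀ h0 h1
    have ha0 := hγ a
    have key : 0 ≤ max (t - γ a) 0 * P - t ^ (m + 1 + 1) + t ^ (m + 1) * (γ a + S) ∧
        max (t - γ a) 0 * P - t ^ (m + 1 + 1) + t ^ (m + 1) * (γ a + S) ≤ (γ a + S) ^ 2 := by
      rcases le_total (γ a) t with h | h
      · rw [max_eq_left (by linarith)]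
        have e : (t - γ a) * P - t ^ (m + 1 + 1) + t ^ (m + 1) * (γ a + S) =
            t ^ m * S * γ a + (t - γ a) * R := by
          rw [hPR]; ring
        rw [e]
        have h3 : 0 ≤ (t - γ a) * R := mul_nonneg (by linarith) i1
        have h4 : 0 ≤ S * γ a := mul_nonneg hS ha0
        have h5 : 0 ≤ t ^ m * S * γ a := by positivity
        have h6 : t ^ m * S * γ a ≤ S * γ a := by
          calc t ^ m * S * γ a = t ^ m * (S * γ a) := by ring
            _ ≤ 1 * (S * γ a) := mul_le_mul_of_nonneg_right hu1 h4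
            _ = _ := one_mul _
        have h7 : (t - γ a) * R ≤ t * R := by nlinarith
        refine ⟨by linarith, ?_⟩
        nlinarith
      · rw [max_eq_right (by linarith)]
        have e : 0 * P - t ^ (m + 1 + 1) + t ^ (m + 1) * (γ a + S) =
            (t ^ m * t) * (γ a + S - t) := by ring
        rw [e]
        have h3 : t ^ m * t ≤ γ a := by nlinarith
        have h4 : 0 ≤ t ^ m * t := by positivity
        refine ⟨mul_nonneg h4 (by linarith), ?_⟩
        calc (t ^ m * t) * (γ a + S - t) ≤ γ a * (γ a + S) :=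
              mul_le_mul h3 (by linarith) (by linarith) ha0
          _ ≤ (γ a + S) ^ 2 := by nlinarith
    refine ⟨key.1, ?_, fun _ => key.2⟩
    refine le_trans ?_ key.2
    exact mul_le_of_le_one_left key.1 h1

theorem pow_diff {a b : ℝ} (hb : 0 ≤ b) (hab : b ≤ a) (ha : a ≤ 1) (k : ℕ) :
    0 ≤ a ^ k - b ^ k ∧ a ^ k - b ^ k ≤ k * (a - b) := by
  refine ⟨sub_nonneg.2 (pow_le_pow_left₀ hb hab k), ?_⟩
  induction k with
  | zero => simp
  | succ n ih =>
    have h1 : 0 ≤ a ^ n - b ^ n := sub_nonneg.2 (pow_le_pow_left₀ hb hab n)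
    have h2 : a ^ (n + 1) - b ^ (n + 1) = a * (a ^ n - b ^ n) + b ^ n * (a - b) := by ring
    have h3 : b ^ n ≤ 1 := pow_le_one₀ hb (hab.trans ha)
    have h4 : 0 ≤ b ^ n := pow_nonneg hb n
    rw [h2]
    push_cast
    nlinarith

/-- double integral over `[0, z] × [z, 1]` -/
noncomputable def Iz (z : ℝ) (F : ℝ → ℝ → ℝ) : ℝ := ∫ x in (0 : ℝ)..z, ∫ y in z..1, F x y

theorem slice {F : ℝ → ℝ → ℝ} (hF : Continuous fun v : ℝ × ℝ => F v.1 v.2) (x : ℝ) :
    Continuous fun y => F x y :=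
  hF.comp (by fun_prop : Continuous fun y : ℝ => (x, y))

theorem outer {F : ℝ → ℝ → ℝ} (hF : Continuous fun v : ℝ × ℝ => F v.1 v.2) (z w : ℝ) :
    Continuous fun x => ∫ y in z..w, F x y :=
  intervalIntegral.continuous_parametric_intervalIntegral_of_continuous' hF z w

theorem Iz_bound {z : ℝ} (hz0 : 0 ≤ z) (hz1 : z ≤ 1) {F G : ℝ → ℝ → ℝ}
    (hG : Continuous fun v : ℝ × ℝ => G v.1 v.2)
    (h : ∀ x y, 0 ≤ x → x ≤ z → z ≤ y → y ≤ 1 → |F x y| ≤ G x y) : |Iz z F| ≤ Iz z G := by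
  unfold Iz
  rw [← Real.norm_eq_abs]
  refine intervalIntegral.norm_integral_le_of_norm_le hz0 ?_ ((outer hG z 1).intervalIntegrable _ _)
  refine Filter.Eventually.of_forall fun x hx => ?_
  refine intervalIntegral.norm_integral_le_of_norm_le hz1 ?_ ((slice hG x).intervalIntegrable _ _)
  refine Filter.Eventually.of_forall fun y hy => ?_
  exact h x y hx.1.le hx.2 hy.1.le hy.2

theorem Iz_add {z : ℝ} {F G : ℝ → ℝ → ℝ} (hF : Continuous fun v : ℝ × ℝ => F v.1 v.2)
    (hG : Continuous fun v : ℝ × ℝ => G v.1 v.2) : Iz z (fun x y => F x y + G x y) = Iz z F + Iz z G := by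
  unfold Iz
  rw [← intervalIntegral.integral_add ((outer hF z 1).intervalIntegrable _ _)
    ((outer hG z 1).intervalIntegrable _ _)]
  refine intervalIntegral.integral_congr fun x _ => ?_
  exact intervalIntegral.integral_add ((slice hF x).intervalIntegrable _ _)
    ((slice hG x).intervalIntegrable _ _)

theorem Iz_sub {z : ℝ} {F G : ℝ → ℝ → ℝ} (hF : Continuous fun v : ℝ × ℝ => F v.1 v.2)
    (hG : Continuous fun v : ℝ × ℝ => G v.1 v.2) : Iz z (fun x y => F x y - G x y) = Iz z F - Iz z G := by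
  unfold Iz
  rw [← intervalIntegral.integral_sub ((outer hF z 1).intervalIntegrable _ _)
    ((outer hG z 1).intervalIntegrable _ _)]
  refine intervalIntegral.integral_congr fun x _ => ?_
  exact intervalIntegral.integral_sub ((slice hF x).intervalIntegrable _ _)
    ((slice hG x).intervalIntegrable _ _)

theorem Iz_prod (z : ℝ) (a b : ℝ → ℝ) :
    Iz z (fun x y => a x * b y) = (∫ x in (0 : ℝ)..z, a x) * ∫ y in z..1, b y := by
  unfold Iz
  simp only [intervalIntegral.integral_const_mul, intervalIntegral.integral_mul_const]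

/-- the lower satellites' terms -/
noncomputable def sa (g : ℝ) (A : Finset ℕ) (x : ℝ) : ℝ := ∑ l ∈ A, max (g * l - x) 0

theorem sa_cont (g : ℝ) (A : Finset ℕ) : Continuous (sa g A) := by
  unfold sa
  fun_prop

theorem sa_nonneg (g : ℝ) (A : Finset ℕ) (x : ℝ) : 0 ≤ sa g A x := sum_nonneg fun _ _ => le_max_right _ _

theorem sa_le {g : ℝ} (hg : 0 < g) {L : ℕ} {A : Finset ℕ} (hA : Sub1 L A) {x : ℝ} (hx : 0 ≤ x) :
    sa g A x ≤ g * L ^ 2 := by
  have h1 : sa g A x ≤ ∑ _l ∈ A, g * (L : ℝ) := by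
    refine sum_le_sum fun l hl => ?_
    have h5 : (l : ℝ) ≤ L := by exact_mod_cast (hA l hl).2
    have h6 : g * l ≤ g * L := mul_le_mul_of_nonneg_left h5 hg.le
    have h7 : 0 ≤ g * (L : ℝ) := by positivity
    exact max_le (by linarith) h7
  rw [sum_const, nsmul_eq_mul] at h1
  have h2 : (A.card : ℝ) ≤ L := by exact_mod_cast card_le hA
  have h3 : 0 ≤ g * (L : ℝ) := by positivity
  calc sa g A x ≤ (A.card : ℝ) * (g * L) := h1
    _ ≤ L * (g * L) := mul_le_mul_of_nonneg_right h2 h3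
    _ = _ := by ring

theorem sa_mul_le {g : ℝ} (hg : 0 < g) {L : ℕ} {A : Finset ℕ} (hA : Sub1 L A) {x : ℝ} :
    x * sa g A x ≤ g * L * sa g A x := by
  unfold sa
  rw [mul_sum, mul_sum]
  refine sum_le_sum fun l hl => ?_
  have h5 : (l : ℝ) ≤ L := by exact_mod_cast (hA l hl).2
  have h6 : g * l ≤ g * L := mul_le_mul_of_nonneg_left h5 hg.le
  rcases le_total (g * l - x) 0 with h | h
  · rw [max_eq_right h]; simp
  · rw [max_eq_left h]
    exact mul_le_mul_of_nonneg_right (by linarith) h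

/-- the constant -/
noncomputable def cA (g : ℝ) (A : Finset ℕ) : ℝ := g ^ 2 / 2 * ∑ l ∈ A, (l : ℝ) ^ 2

theorem int_sa {g : ℝ} (hg : 0 < g) (A : Finset ℕ) (z : ℝ) :
    (∫ x in (0 : ℝ)..z, sa g A x) = cA g A - ∑ l ∈ A, (max (g * l - z) 0) ^ 2 / 2 := by
  unfold sa cA
  have e := intervalIntegral.integral_finsetSum (μ := volume) (a := 0) (b := z) (s := A)
    (f := fun (l : ℕ) (x : ℝ) => max (g * l - x) 0) (fun l _ =>
    (by fun_prop : Continuous fun x : ℝ => max (g * l - x) 0).intervalIntegrable _ _)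
  rw [e]
  rw [mul_sum, ← sum_sub_distrib]
  refine sum_congr rfl fun l _ => ?_
  have h := KI.J1 1 le_rfl (g * l) 0 z
  simp only [pow_one] at h
  rw [h, sub_zero, max_eq_left (by positivity : 0 ≤ g * (l : ℝ))]
  norm_num
  ring

theorem cA_le {g : ℝ} {L : ℕ} {A : Finset ℕ} (hA : Sub1 L A) : cA g A ≤ g ^ 2 * L ^ 3 / 2 := by
  unfold cA
  have h1 : ∑ l ∈ A, (l : ℝ) ^ 2 ≤ ∑ _l ∈ A, (L : ℝ) ^ 2 := by
    refine sum_le_sum fun l hl => ?_
    have h5 : (l : ℝ) ≤ L := by exact_mod_cast (hA l hl).2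
    exact pow_le_pow_left₀ (Nat.cast_nonneg _) h5 2
  rw [sum_const, nsmul_eq_mul] at h1
  have h2 : (A.card : ℝ) ≤ L := by exact_mod_cast card_le hA
  have h3 : (A.card : ℝ) * (L : ℝ) ^ 2 ≤ L * L ^ 2 := mul_le_mul_of_nonneg_right h2 (by positivity)
  calc g ^ 2 / 2 * ∑ l ∈ A, (l : ℝ) ^ 2 ≤ g ^ 2 / 2 * (L * L ^ 2) :=
        mul_le_mul_of_nonneg_left (h1.trans h3) (by positivity)
    _ = _ := by ring

theorem cA_nonneg (g : ℝ) (A : Finset ℕ) : 0 ≤ cA g A := by
  unfold cA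
  positivity

/-- `0 ≤ cA - ∫ sa` is at most `cA`, and is zero above the layer -/
theorem rest {g : ℝ} (hg : 0 < g) {L : ℕ} {A : Finset ℕ} (hA : Sub1 L A) {z : ℝ} (hz : 0 ≤ z) :
    0 ≤ cA g A - (∫ x in (0 : ℝ)..z, sa g A x) ∧
    cA g A - (∫ x in (0 : ℝ)..z, sa g A x) ≤ if 0 ≤ z ∧ z ≤ g * L then g ^ 2 * L ^ 3 / 2 else 0 := by
  rw [int_sa hg]
  have h0 : cA g A - (cA g A - ∑ l ∈ A, (max (g * l - z) 0) ^ 2 / 2) =
      ∑ l ∈ A, (max (g * l - z) 0) ^ 2 / 2 := by ring
  rw [h0]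
  refine ⟨sum_nonneg fun _ _ => by positivity, ?_⟩
  split_ifs with h
  · refine le_trans ?_ (cA_le (g := g) hA)
    unfold cA
    rw [mul_sum]
    refine sum_le_sum fun l _ => ?_
    have h1 : 0 ≤ g * (l : ℝ) := by positivity
    have h2 : max (g * l - z) 0 ≤ g * l := max_le (by linarith) h1
    have h3 : (max (g * l - z) 0) ^ 2 ≤ (g * l) ^ 2 := pow_le_pow_left₀ (le_max_right _ _) h2 2
    calc (max (g * l - z) 0) ^ 2 / 2 ≤ (g * l) ^ 2 / 2 := by linarith
      _ = _ := by ring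
  · refine le_of_eq (sum_eq_zero fun l hl => ?_)
    have h5 : (l : ℝ) ≤ L := by exact_mod_cast (hA l hl).2
    have h6 : g * l ≤ g * L := mul_le_mul_of_nonneg_left h5 hg.le
    have h7 : g * L < z := by
      by_contra h8
      exact h ⟨hz, not_lt.1 h8⟩
    rw [max_eq_right (by linarith)]
    norm_num

/-- the weight with positive parts -/
theorem KK_eq (g : ℝ) (A B : Finset ℕ) (x y : ℝ) :
    KK g A B x y = ∏ i ∈ A.disjSum B, max ((y - x) -
      Sum.elim (fun l : ℕ => max (g * l - x) 0) (fun l : ℕ => max (g * l - (1 - y)) 0) i) 0 := by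
  unfold KK KT
  rw [prod_disjSum]
  congr 1
  · refine prod_congr rfl fun l _ => ?_
    simp only [Sum.elim_inl]
    congr 1
    rcases le_total x (g * l) with h | h
    · rw [max_eq_right h, max_eq_left (by linarith)]; ring
    · rw [max_eq_left h, max_eq_right (by linarith)]; ring
  · refine prod_congr rfl fun l _ => ?_
    simp only [Sum.elim_inr]
    congr 1
    rcases le_total y (1 - g * l) with h | h
    · rw [min_eq_left h, max_eq_right (by linarith)]; ring
    · rw [min_eq_right h, max_eq_left (by linarith)]; ring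

/-- the pointwise estimate -/
theorem pointwise {g : ℝ} {L : ℕ} {A B : Finset ℕ} (hg : 0 < g) (hA : Sub1 L A)
    (hB : Sub1 L B) (hM : 30 ≤ A.card + B.card) {x y : ℝ} (hx : 0 ≤ x) (hxy : x ≤ y) (hy : y ≤ 1) :
    |KK g A B x y - (y - x) ^ (A.card + B.card) +
      (sa g A x * y ^ (A.card + B.card - 1) + (1 - x) ^ (A.card + B.card - 1) * sa g B (1 - y))| ≤
      4 * g * L ^ 2 * (sa g A x + sa g B (1 - y)) := by
  classical
  set M := A.card + B.card with hMdef
  have hcard : (A.disjSum B).card = M := card_disjSum A B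
  set γ : ℕ ⊕ ℕ → ℝ := Sum.elim (fun l : ℕ => max (g * l - x) 0) (fun l : ℕ => max (g * l - (1 - y)) 0)
    with hγdef
  have hγ : ∀ i, 0 ≤ γ i := by
    rintro (l | l) <;> exact le_max_right _ _
  have hsum : ∑ i ∈ A.disjSum B, γ i = sa g A x + sa g B (1 - y) := by
    rw [sum_disjSum]
    rfl
  have hne : (A.disjSum B).Nonempty := by
    rw [← card_pos, hcard]
    omega
  have h1 := prodexp (A.disjSum B) hne γ hγ (t := y - x) (by linarith) (by linarith)
  rw [hcard, hsum, ← KK_eq] at h1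
  obtain ⟨i1, -, i3⟩ := h1
  have i4 := i3 (by omega)
  have hSA := sa_nonneg g A x
  have hSB := sa_nonneg g B (1 - y)
  have hSA2 := sa_le hg hA hx
  have hSB2 := sa_le hg hB (x := 1 - y) (by linarith)
  set a := sa g A x with ha
  set b := sa g B (1 - y) with hb
  have hMR : ((M - 1 : ℕ) : ℝ) ≤ 2 * L := by
    have h2 := card_le hA
    have h3 := card_le hB
    have : M - 1 ≤ 2 * L := by omega
    exact_mod_cast this
  -- replacing the power
  have p1 := pow_diff (a := y) (b := y - x) (by linarith) (by linarith) hy (M - 1)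
  have p2 := pow_diff (a := 1 - x) (b := y - x) (by linarith) (by linarith) (by linarith) (M - 1)
  have q1 : x * a ≤ g * L * a := sa_mul_le hg hA
  have q2 : (1 - y) * b ≤ g * L * b := sa_mul_le hg hB
  have r1 : a * (y ^ (M - 1) - (y - x) ^ (M - 1)) ≤ 2 * L * (g * L * a) := by
    calc a * (y ^ (M - 1) - (y - x) ^ (M - 1)) ≤ a * (((M - 1 : ℕ) : ℝ) * (y - (y - x))) :=
          mul_le_mul_of_nonneg_left p1.2 hSA
      _ = ((M - 1 : ℕ) : ℝ) * (x * a) := by ring
      _ ≤ 2 * L * (x * a) := mul_le_mul_of_nonneg_right hMR (mul_nonneg hx hSA)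
      _ ≤ 2 * L * (g * L * a) := mul_le_mul_of_nonneg_left q1 (by positivity)
  have r2 : b * ((1 - x) ^ (M - 1) - (y - x) ^ (M - 1)) ≤ 2 * L * (g * L * b) := by
    calc b * ((1 - x) ^ (M - 1) - (y - x) ^ (M - 1)) ≤ b * (((M - 1 : ℕ) : ℝ) * ((1 - x) - (y - x))) :=
          mul_le_mul_of_nonneg_left p2.2 hSB
      _ = ((M - 1 : ℕ) : ℝ) * ((1 - y) * b) := by ring
      _ ≤ 2 * L * ((1 - y) * b) := mul_le_mul_of_nonneg_right hMR (mul_nonneg (by linarith) hSB)
      _ ≤ 2 * L * (g * L * b) := mul_le_mul_of_nonneg_left q2 (by positivity)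
  have r3 : 0 ≤ a * (y ^ (M - 1) - (y - x) ^ (M - 1)) := mul_nonneg hSA p1.1
  have r4 : 0 ≤ b * ((1 - x) ^ (M - 1) - (y - x) ^ (M - 1)) := mul_nonneg hSB p2.1
  have r5 : (a + b) ^ 2 ≤ 2 * g * L ^ 2 * (a + b) := by
    have : a + b ≤ 2 * g * L ^ 2 := by linarith
    nlinarith
  have e : KK g A B x y - (y - x) ^ M + (a * y ^ (M - 1) + (1 - x) ^ (M - 1) * b) =
      (KK g A B x y - (y - x) ^ M + (y - x) ^ (M - 1) * (a + b)) +
      a * (y ^ (M - 1) - (y - x) ^ (M - 1)) + b * ((1 - x) ^ (M - 1) - (y - x) ^ (M - 1)) := by ring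
  rw [e, abs_of_nonneg (by linarith)]
  nlinarith

/-- estimate at a height in the window -/
theorem at_height {g : ℝ} {L : ℕ} {A B : Finset ℕ} (hg : 0 < g) (hA : Sub1 L A)
    (hB : Sub1 L B) (hM : 30 ≤ A.card + B.card) {z : ℝ} (hz0 : 0 ≤ z) (hz1 : z ≤ 1) :
    |Iz z (KK g A B) - (Iz z (fun x y => (y - x) ^ (A.card + B.card))
      - cA g A * ((1 - z ^ (A.card + B.card)) / (A.card + B.card : ℕ))
      - cA g B * ((1 - (1 - z) ^ (A.card + B.card)) / (A.card + B.card : ℕ)))| ≤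
      4 * g ^ 3 * L ^ 5 + (if 0 ≤ z ∧ z ≤ g * L then g ^ 2 * L ^ 3 / 2 else 0) +
        (if 0 ≤ 1 - z ∧ 1 - z ≤ g * L then g ^ 2 * L ^ 3 / 2 else 0) := by
  set M := A.card + B.card with hMdef
  have hcK : Continuous fun v : ℝ × ℝ => KK g A B v.1 v.2 := KT_cont _ _ A B
  have hcP : Continuous fun v : ℝ × ℝ => (v.2 - v.1) ^ M := by fun_prop
  have hsA := sa_cont g A
  have hsB := sa_cont g B
  have hcF : Continuous fun v : ℝ × ℝ => sa g A v.1 * v.2 ^ (M - 1) := by fun_prop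
  have hcF' : Continuous fun v : ℝ × ℝ => (1 - v.1) ^ (M - 1) * sa g B (1 - v.2) := by fun_prop
  have hcG : Continuous fun v : ℝ × ℝ => 4 * g * L ^ 2 * (sa g A v.1 + sa g B (1 - v.2)) := by fun_prop
  have h1 := Iz_bound hz0 hz1 (F := fun x y => KK g A B x y - (y - x) ^ M +
    (sa g A x * y ^ (M - 1) + (1 - x) ^ (M - 1) * sa g B (1 - y))) hcG
    (fun x y hx0 hxz hzy hy1 => pointwise hg hA hB hM hx0 (hxz.trans hzy) hy1)
  have hMpos : 0 < M := by omega
  have hMR : (0 : ℝ) < (M : ℝ) := by exact_mod_cast hMpos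
  have hMsub : ((M - 1 : ℕ) : ℝ) + 1 = M := by
    rw [← Nat.cast_add_one]
    congr 1
    omega
  have hMs : M - 1 + 1 = M := by omega
  -- splitting
  have s1 : Iz z (fun x y => KK g A B x y - (y - x) ^ M +
      (sa g A x * y ^ (M - 1) + (1 - x) ^ (M - 1) * sa g B (1 - y))) =
      Iz z (KK g A B) - Iz z (fun x y => (y - x) ^ M) + (Iz z (fun x y => sa g A x * y ^ (M - 1)) +
        Iz z (fun x y => (1 - x) ^ (M - 1) * sa g B (1 - y))) := by
    rw [Iz_add (F := fun x y => KK g A B x y - (y - x) ^ M)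
      (G := fun x y => sa g A x * y ^ (M - 1) + (1 - x) ^ (M - 1) * sa g B (1 - y))
      (hcK.sub hcP) (hcF.add hcF'), Iz_sub hcK hcP, Iz_add hcF hcF']
  have i1 : (∫ y in z..1, y ^ (M - 1)) = (1 - z ^ M) / M := by
    rw [integral_pow, hMs, hMsub, one_pow]
  have i2 : (∫ x in (0 : ℝ)..z, (1 - x) ^ (M - 1)) = (1 - (1 - z) ^ M) / M := by
    rw [intervalIntegral.integral_comp_sub_left (fun x : ℝ => x ^ (M - 1)) 1, integral_pow, hMs, hMsub,
      sub_zero, one_pow]
  have i3 : (∫ y in z..1, sa g B (1 - y)) = ∫ y in (0 : ℝ)..(1 - z), sa g B y := by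
    rw [intervalIntegral.integral_comp_sub_left (fun y : ℝ => sa g B y) 1, sub_self]
  have s2 : Iz z (fun x y => sa g A x * y ^ (M - 1)) =
      (∫ x in (0 : ℝ)..z, sa g A x) * ((1 - z ^ M) / M) := by
    rw [Iz_prod z (sa g A) (fun y => y ^ (M - 1)), i1]
  have s3 : Iz z (fun x y => (1 - x) ^ (M - 1) * sa g B (1 - y)) =
      ((1 - (1 - z) ^ M) / M) * ∫ y in (0 : ℝ)..(1 - z), sa g B y := by
    rw [Iz_prod z (fun x => (1 - x) ^ (M - 1)) (fun y => sa g B (1 - y)), i2, i3]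
  rw [s1, s2, s3] at h1
  -- the bound
  obtain ⟨a1, a2⟩ := rest hg hA hz0
  obtain ⟨b1, b2⟩ := rest hg hB (z := 1 - z) (by linarith)
  set IA := ∫ x in (0 : ℝ)..z, sa g A x with hIA
  set IB := ∫ y in (0 : ℝ)..(1 - z), sa g B y with hIB
  have hIA0 : 0 ≤ IA := intervalIntegral.integral_nonneg hz0 fun x _ => sa_nonneg g A x
  have hIB0 : 0 ≤ IB := intervalIntegral.integral_nonneg (by linarith) fun x _ => sa_nonneg g B x
  have s4 : Iz z (fun x y => 4 * g * L ^ 2 * (sa g A x + sa g B (1 - y))) ≤ 4 * g ^ 3 * L ^ 5 := by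
    have t1 : Iz z (fun x y => 4 * g * L ^ 2 * (sa g A x + sa g B (1 - y))) =
        Iz z (fun x _ => (4 * g * L ^ 2 * sa g A x) * 1) + Iz z (fun _ y => 1 * (4 * g * L ^ 2 * sa g B (1 - y))) := by
      rw [← Iz_add (F := fun x _ => (4 * g * L ^ 2 * sa g A x) * 1)
        (G := fun _ y => 1 * (4 * g * L ^ 2 * sa g B (1 - y))) (by fun_prop) (by fun_prop)]
      congr 1
      ext x y
      ring
    rw [t1, Iz_prod z (fun x => 4 * g * L ^ 2 * sa g A x) (fun _ => 1),
      Iz_prod z (fun _ => 1) (fun y => 4 * g * L ^ 2 * sa g B (1 - y)),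
      intervalIntegral.integral_const_mul, intervalIntegral.integral_const_mul, i3,
      intervalIntegral.integral_const, intervalIntegral.integral_const]
    simp only [smul_eq_mul, mul_one, sub_zero]
    rw [← hIA]
    have c1 := cA_le (g := g) hA
    have c2 := cA_le (g := g) hB
    have d1 : IA * (1 - z) ≤ g ^ 2 * L ^ 3 / 2 := by nlinarith
    have d2 : z * IB ≤ g ^ 2 * L ^ 3 / 2 := by nlinarith
    calc 4 * g * L ^ 2 * IA * (1 - z) + z * (4 * g * L ^ 2 * IB)
        = 4 * g * L ^ 2 * (IA * (1 - z) + z * IB) := by ring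
      _ ≤ 4 * g * L ^ 2 * (g ^ 2 * L ^ 3) := mul_le_mul_of_nonneg_left (by linarith) (by positivity)
      _ = 4 * g ^ 3 * L ^ 5 := by ring
  have w1 : 0 ≤ (1 - z ^ M) / M ∧ (1 - z ^ M) / M ≤ 1 := by
    have h2 : z ^ M ≤ 1 := pow_le_one₀ hz0 hz1
    have h3 : 0 ≤ z ^ M := pow_nonneg hz0 _
    refine ⟨div_nonneg (by linarith) hMR.le, ?_⟩
    rw [div_le_one hMR]
    have : (1 : ℝ) ≤ M := by exact_mod_cast hMpos
    linarith
  have w2 : 0 ≤ (1 - (1 - z) ^ M) / M ∧ (1 - (1 - z) ^ M) / M ≤ 1 := by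
    have h2 : (1 - z) ^ M ≤ 1 := pow_le_one₀ (by linarith) (by linarith)
    have h3 : 0 ≤ (1 - z) ^ M := pow_nonneg (by linarith) _
    refine ⟨div_nonneg (by linarith) hMR.le, ?_⟩
    rw [div_le_one hMR]
    have : (1 : ℝ) ≤ M := by exact_mod_cast hMpos
    linarith
  set w := (1 - z ^ M) / (M : ℝ) with hw
  set w' := (1 - (1 - z) ^ M) / (M : ℝ) with hw'
  have e : Iz z (KK g A B) - (Iz z (fun x y => (y - x) ^ M) - cA g A * w - cA g B * w') =
      (Iz z (KK g A B) - Iz z (fun x y => (y - x) ^ M) + (IA * w + w' * IB)) +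
      ((cA g A - IA) * w + (cA g B - IB) * w') := by ring
  rw [e]
  refine (abs_add_le _ _).trans ?_
  have f1 : 0 ≤ (cA g A - IA) * w + (cA g B - IB) * w' :=
    add_nonneg (mul_nonneg a1 w1.1) (mul_nonneg b1 w2.1)
  have f2 : (cA g A - IA) * w ≤ cA g A - IA := mul_le_of_le_one_right a1 w1.2
  have f3 : (cA g B - IB) * w' ≤ cA g B - IB := mul_le_of_le_one_right b1 w2.2
  rw [abs_of_nonneg f1]
  linarith

theorem ii_ite (lo hi c x y : ℝ) :
    IntervalIntegrable (fun z : ℝ => if lo ≤ z ∧ z ≤ hi then c else 0) volume x y := by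
  refine IntervalIntegrable.mono_fun (f := fun _ => c) intervalIntegrable_const ?_ ?_
  · refine Measurable.aestronglyMeasurable ?_
    exact Measurable.ite measurableSet_Icc measurable_const measurable_const
  · refine Filter.Eventually.of_forall fun z => ?_
    simp only
    split_ifs
    · exact le_rfl
    · rw [norm_zero]
      exact norm_nonneg _

end HZ

open HZ TS

theorem hzl1' : S_HZL1 := by
  intro g L A B p q hg hL hgL hA hB hM hp hq
  have hLR : (100 : ℝ) ≤ L := by exact_mod_cast hL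
  have hLpos : (0 : ℝ) < L := by linarith
  set M := A.card + B.card with hMdef
  have hgL1 : g * L ≤ 1 / 100 := by
    have h1 : (100 : ℝ) ≤ L ^ 7 := by
      calc (100 : ℝ) ≤ 100 ^ 7 := by norm_num
        _ ≤ (L : ℝ) ^ 7 := pow_le_pow_left₀ (by norm_num) hLR 7
    have h2 : g * (L : ℝ) ^ 8 = (g * L) * L ^ 7 := by ring
    rw [h2] at hgL
    have h3 : 0 ≤ g * (L : ℝ) := by positivity
    nlinarith
  have hgL0 : 0 ≤ g * (L : ℝ) := by positivity
  have hpR : (p : ℝ) ≤ L := by exact_mod_cast hp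
  have hqR : (q : ℝ) ≤ L := by exact_mod_cast hq
  have hgp : g * p ≤ g * L := mul_le_mul_of_nonneg_left hpR hg.le
  have hgq : g * q ≤ g * L := mul_le_mul_of_nonneg_left hqR hg.le
  have hMpos : 0 < M := by omega
  have hMR : (0 : ℝ) < (M : ℝ) := by exact_mod_cast hMpos
  set c : ℝ := g ^ 2 * L ^ 3 with hc
  have hc0 : 0 ≤ c := by positivity
  -- the bound
  set G : ℝ → ℝ := fun z => 4 * g ^ 3 * L ^ 5 + (if 0 ≤ z ∧ z ≤ g * L then c else 0) +
    (if 1 - g * L ≤ z ∧ z ≤ 1 then c else 0) with hG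
  have hGint : IntervalIntegrable G volume 0 1 :=
    (intervalIntegrable_const.add (ii_ite _ _ _ _ _)).add (ii_ite _ _ _ _ _)
  have hGval : (∫ z in (0 : ℝ)..1, G z) ≤ g ^ 3 * L ^ 15 := by
    have h1 : (∫ z in (0 : ℝ)..1, G z) = 4 * g ^ 3 * L ^ 5 + g * L * c + g * L * c := by
      rw [hG, intervalIntegral.integral_add (intervalIntegrable_const.add (ii_ite _ _ _ _ _))
        (ii_ite _ _ _ _ _), intervalIntegral.integral_add intervalIntegrable_const (ii_ite _ _ _ _ _),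
        int_window _ zero_le_one, int_window _ zero_le_one, intervalIntegral.integral_const,
        intervalIntegral.integral_const, intervalIntegral.integral_const, max_self,
        min_eq_right (by linarith : g * L ≤ 1), max_eq_right hgL0,
        max_eq_right (by linarith : (0 : ℝ) ≤ 1 - g * L), min_self,
        max_eq_right (by linarith : 1 - g * L ≤ 1)]
      simp only [smul_eq_mul]
      ring
    rw [h1, hc]
    have h2 : (1 : ℝ) ≤ L ^ 10 := one_le_pow₀ (by linarith)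
    have h3 : (6 : ℝ) * (g ^ 3 * L ^ 5) ≤ (g ^ 3 * L ^ 5) * L ^ 10 := by
      have h4 : (6 : ℝ) ≤ L ^ 10 := by
        calc (6 : ℝ) ≤ 100 ^ 10 := by norm_num
          _ ≤ (L : ℝ) ^ 10 := pow_le_pow_left₀ (by norm_num) hLR 10
      rw [mul_comm]
      exact mul_le_mul_of_nonneg_left h4 (by positivity)
    have h5 : g * L * (g ^ 2 * L ^ 3) ≤ g ^ 3 * L ^ 5 := by
      have h6 : g * L * (g ^ 2 * L ^ 3) = (g ^ 3 * L ^ 4) * 1 := by ring
      have h7 : g ^ 3 * (L : ℝ) ^ 5 = (g ^ 3 * L ^ 4) * L := by ring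
      rw [h6, h7]
      exact mul_le_mul_of_nonneg_left (by linarith) (by positivity)
    have h8 : g ^ 3 * (L : ℝ) ^ 15 = (g ^ 3 * L ^ 5) * L ^ 10 := by ring
    rw [h8]
    linarith
  refine le_trans ?_ hGval
  refine le_trans (le_abs_self _) ?_
  rw [← Real.norm_eq_abs]
  refine intervalIntegral.norm_integral_le_of_norm_le zero_le_one ?_ hGint
  refine Filter.Eventually.of_forall fun z hzz => ?_
  have hz0 : 0 ≤ z := hzz.1.le
  have hz1 : z ≤ 1 := hzz.2
  rw [Real.norm_eq_abs, abs_abs]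
  have hcA := cA_le (g := g) hA
  have hcB := cA_le (g := g) hB
  have hcA0 := cA_nonneg g A
  have hcB0 := cA_nonneg g B
  by_cases hw : g * p ≤ z ∧ z ≤ 1 - g * q
  · have h1 := at_height hg hA hB hM hz0 hz1
    have h2 : hz g A B p q z = Iz z (KK g A B) := by
      unfold Pool.Agent.H34.RK.hz hZT
      rw [if_pos hw]
      rfl
    rw [h2, if_pos hw]
    refine le_trans h1 ?_
    simp only [hG]
    have h3 : (if 0 ≤ z ∧ z ≤ g * L then g ^ 2 * (L : ℝ) ^ 3 / 2 else 0) ≤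
        if 0 ≤ z ∧ z ≤ g * L then c else 0 := by
      split_ifs <;> linarith
    have h4 : (if 0 ≤ 1 - z ∧ 1 - z ≤ g * L then g ^ 2 * (L : ℝ) ^ 3 / 2 else 0) ≤
        if 1 - g * L ≤ z ∧ z ≤ 1 then c else 0 := by
      by_cases h5 : 0 ≤ 1 - z ∧ 1 - z ≤ g * L
      · rw [if_pos h5, if_pos ⟨by linarith [h5.2], by linarith [h5.1]⟩]
        linarith
      · rw [if_neg h5]
        split_ifs <;> linarith
    linarith
  · have h2 : hz g A B p q z = 0 := by
      unfold Pool.Agent.H34.RK.hz hZT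
      rw [if_neg hw]
    rw [h2, if_neg hw]
    have w1 : 0 ≤ (1 - z ^ M) / M ∧ (1 - z ^ M) / M ≤ 1 := by
      have h2 : z ^ M ≤ 1 := pow_le_one₀ hz0 hz1
      have h3 : 0 ≤ z ^ M := pow_nonneg hz0 _
      refine ⟨div_nonneg (by linarith) hMR.le, ?_⟩
      rw [div_le_one hMR]
      have : (1 : ℝ) ≤ M := by exact_mod_cast hMpos
      linarith
    have w2 : 0 ≤ (1 - (1 - z) ^ M) / M ∧ (1 - (1 - z) ^ M) / M ≤ 1 := by
      have h2 : (1 - z) ^ M ≤ 1 := pow_le_one₀ (by linarith) (by linarith)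
      have h3 : 0 ≤ (1 - z) ^ M := pow_nonneg (by linarith) _
      refine ⟨div_nonneg (by linarith) hMR.le, ?_⟩
      rw [div_le_one hMR]
      have : (1 : ℝ) ≤ M := by exact_mod_cast hMpos
      linarith
    have e : (0 : ℝ) - (0 - g ^ 2 / 2 * (∑ l ∈ A, (l : ℝ) ^ 2) * ((1 - z ^ M) / (M : ℝ)) -
        g ^ 2 / 2 * (∑ l ∈ B, (l : ℝ) ^ 2) * ((1 - (1 - z) ^ M) / (M : ℝ))) =
        cA g A * ((1 - z ^ M) / (M : ℝ)) + cA g B * ((1 - (1 - z) ^ M) / (M : ℝ)) := by
      unfold cA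
      ring
    rw [e, abs_of_nonneg (add_nonneg (mul_nonneg hcA0 w1.1) (mul_nonneg hcB0 w2.1))]
    have f1 : cA g A * ((1 - z ^ M) / (M : ℝ)) ≤ cA g A := mul_le_of_le_one_right hcA0 w1.2
    have f2 : cA g B * ((1 - (1 - z) ^ M) / (M : ℝ)) ≤ cA g B := mul_le_of_le_one_right hcB0 w2.2
    have f3 : c ≤ G z := by
      simp only [hG]
      have h9 : 0 ≤ 4 * g ^ 3 * (L : ℝ) ^ 5 := by positivity
      by_cases h5 : g * p ≤ z
      · have h6 : 1 - g * q < z := by
          by_contra h7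
          exact hw ⟨h5, not_lt.1 h7⟩
        rw [if_pos (⟨by linarith, hz1⟩ : 1 - g * L ≤ z ∧ z ≤ 1)]
        have : 0 ≤ if 0 ≤ z ∧ z ≤ g * L then c else 0 := by split_ifs <;> linarith
        linarith
      · have h6 : z < g * p := not_le.1 h5
        rw [if_pos (⟨hz0, by linarith⟩ : 0 ≤ z ∧ z ≤ g * L)]
        have : 0 ≤ if 1 - g * L ≤ z ∧ z ≤ 1 then c else 0 := by split_ifs <;> linarith
        linarith
    linarith

theorem hzl1 : S_REG → S_HZL1 := fun _ => hzl1'

end Pool.Agent.H34.RK
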