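import Pool.Agent.H34.RK.TB

/-! # Project RK: `S_IDEAL` (helper82) -/

set_option autoImplicit false

open Finset MeasureTheory

namespace Pool.Agent.H34.RK

namespace IDL

/-- the other satellites of the first kind -/
def rA (A : Finset ℕ) : Role → Finset ℕ
  | .sa l => A.erase l
  | _ => A

/-- the other satellites of the second kind -/
def rB (B : Finset ℕ) : Role → Finset ℕ
  | .sb l => B.erase l
  | _ => B

/-- the lower end of the window -/
def rp : Role → ℕ
  | .sa l => l
  | _ => 0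

/-- the upper end of the window -/
def rq : Role → ℕ
  | .sb l => l
  | _ => 0

/-- satellites -/
def Sat : Role → Prop
  | .sa _ => True
  | .sb _ => True
  | _ => False

lemma dens_sat (g : ℝ) (A B : Finset ℕ) (r : Role) (hr : Sat r) :
    dens (fun l => g * l) (fun l => 1 - g * l) A B r = hz g (rA A r) (rB B r) (rp r) (rq r) := by
  cases r with
  | lo => exact hr.elim
  | hi => exact hr.elim
  | sa l =>
    funext z
    simp [dens, hz, rA, rB, rp, rq]
  | sb l =>
    funext z
    simp [dens, hz, rA, rB, rp, rq]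

lemma same_sat (g : ℝ) (A B : Finset ℕ) (r r' : Role) (hr : Sat r) (hr' : Sat r') :
    same (fun l => g * l) (fun l => 1 - g * l) A B r r' =
      WS (fun l => g * l) (fun l => 1 - g * l) (rA (rA A r) r') (rB (rB B r) r')
        (g * rp r) (1 - g * rq r) (g * rp r') (1 - g * rq r') := by
  cases r <;> cases r' <;> simp [Sat] at hr hr' <;> simp [same, rA, rB, rp, rq]

lemma erase_sum {A : Finset ℕ} {l : ℕ} (h : l ∈ A) :
    ∑ k ∈ A.erase l, (k : ℝ) ^ 2 + (l : ℝ) ^ 2 = ∑ k ∈ A, (k : ℝ) ^ 2 :=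
  sum_erase_add A _ h

lemma sat_data {L : ℕ} {A B : Finset ℕ} (hA : Sub1 L A) (hB : Sub1 L B) (r : Role) (hr : Sat r)
    (hv : Valid A B r) :
    Sub1 L (rA A r) ∧ Sub1 L (rB B r) ∧ (rA A r).card + (rB B r).card + 1 = A.card + B.card ∧
      rp r ≤ L ∧ rq r ≤ L ∧
      ∑ l ∈ rA A r, (l : ℝ) ^ 2 + (rp r : ℝ) ^ 2 = ∑ l ∈ A, (l : ℝ) ^ 2 ∧
      ∑ l ∈ rB B r, (l : ℝ) ^ 2 + (rq r : ℝ) ^ 2 = ∑ l ∈ B, (l : ℝ) ^ 2 := by
  have he : ∀ (C : Finset ℕ) (l : ℕ), Sub1 L C → Sub1 L (C.erase l) := fun C l h k hk =>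
    h k (mem_of_mem_erase hk)
  cases r with
  | lo => exact hr.elim
  | hi => exact hr.elim
  | sa l =>
    have hl : l ∈ A := hv
    refine ⟨he A l hA, hB, ?_, (hA l hl).2, Nat.zero_le _, erase_sum hl, ?_⟩
    · show (A.erase l).card + B.card + 1 = _
      have := card_erase_add_one hl
      omega
    · show ∑ l ∈ B, (l : ℝ) ^ 2 + ((0 : ℕ) : ℝ) ^ 2 = _
      simp
  | sb l =>
    have hl : l ∈ B := hv
    refine ⟨hA, he B l hB, ?_, Nat.zero_le _, (hB l hl).2, ?_, erase_sum hl⟩
    · show A.card + (B.erase l).card + 1 = _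
      have := card_erase_add_one hl
      omega
    · show ∑ l ∈ A, (l : ℝ) ^ 2 + ((0 : ℕ) : ℝ) ^ 2 = _
      simp

/-- the windows are ordered -/
lemma win {L : ℕ} {A B A' B' : Finset ℕ} (hA : Sub1 L A) (hB : Sub1 L B) (hA' : Sub1 L A')
    (hB' : Sub1 L B') (r r' : Role) (hr : Sat r) (hr' : Sat r') (hv : Valid A B r)
    (hv' : Valid A' B' r') :
    r = r' ∨ (((rp r ≤ rp r' ∧ rq r' ≤ rq r) ∨ (rp r' ≤ rp r ∧ rq r ≤ rq r')) ∧
      (rp r, rq r) ≠ (rp r', rq r')) := by
  cases r with
  | lo => exact hr.elim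
  | hi => exact hr.elim
  | sa l =>
    have hl : 1 ≤ l := (hA l hv).1
    cases r' with
    | lo => exact hr'.elim
    | hi => exact hr'.elim
    | sa l' =>
      by_cases h : l = l'
      · left; rw [h]
      · right
        refine ⟨?_, fun e => h (congrArg Prod.fst e)⟩
        simp only [rp, rq]
        omega
    | sb l' =>
      have hl' : 1 ≤ l' := (hB' l' hv').1
      right
      refine ⟨?_, fun e => ?_⟩
      · simp only [rp, rq]; omega
      · have : l = 0 := congrArg Prod.fst e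
        omega
  | sb l =>
    have hl : 1 ≤ l := (hB l hv).1
    cases r' with
    | lo => exact hr'.elim
    | hi => exact hr'.elim
    | sa l' =>
      have hl' : 1 ≤ l' := (hA' l' hv').1
      right
      refine ⟨?_, fun e => ?_⟩
      · simp only [rp, rq]; omega
      · have : l = 0 := congrArg Prod.snd e
        omega
    | sb l' =>
      by_cases h : l = l'
      · left; rw [h]
      · right
        refine ⟨?_, fun e => h (congrArg Prod.snd e)⟩
        simp only [rp, rq]
        omega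

/-- antisymmetry -/
lemma ww_anti (HD : S_DUAL) (h h' : ℝ → ℝ) (hm : Measurable (TA.cut h))
    (hm' : Measurable (TA.cut h')) (hb : ∀ z, 0 ≤ z → z ≤ 1 → 0 ≤ h z ∧ h z ≤ 1)
    (hb' : ∀ z, 0 ≤ z → z ≤ 1 → 0 ≤ h' z ∧ h' z ≤ 1) : WW h h' = - WW h' h := by
  obtain ⟨-, -, -, -, -, -, d7⟩ := HD
  rw [TA.ww_cut h h', TA.ww_cut h' h]
  have key : ∀ k : ℝ → ℝ, (∀ z, 0 ≤ z → z ≤ 1 → 0 ≤ k z ∧ k z ≤ 1) → ∃ C, ∀ z, |TA.cut k z| ≤ C := by
    intro k hk
    refine ⟨1, fun z => ?_⟩
    unfold TA.cut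
    split_ifs with q
    · rw [abs_of_nonneg (hk z q.1 q.2).1]; exact (hk z q.1 q.2).2
    · simp
  exact d7 _ _ hm hm' (key h hb) (key h' hb')

/-- antisymmetry of `WS` -/
lemma ws_anti (φ ψ : ℕ → ℝ) (A B : Finset ℕ) (lo hi lo' hi' : ℝ) :
    WS φ ψ A B lo hi lo' hi' = - WS φ ψ A B lo' hi' lo hi := by
  unfold WS
  rw [← intervalIntegral.integral_neg]
  refine intervalIntegral.integral_congr fun x _ => ?_
  rw [← intervalIntegral.integral_neg]
  refine intervalIntegral.integral_congr fun y _ => ?_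
  rw [← mul_neg]
  congr 1
  set F : ℝ → ℝ → ℝ := fun z z' => if lo ≤ z ∧ z ≤ hi ∧ lo' ≤ z' ∧ z' ≤ hi' then
      Real.sign (z' - z) else 0 with hF
  have hFm : Measurable (Function.uncurry F) := by
    have e : Function.uncurry F = fun p : ℝ × ℝ => if lo ≤ p.1 ∧ p.1 ≤ hi ∧ lo' ≤ p.2 ∧ p.2 ≤ hi'
      then Real.sign (p.2 - p.1) else 0 := by
      funext p; rfl
    rw [e]
    refine Measurable.ite ?_ (TA.sign_meas.comp (measurable_snd.sub measurable_fst))
      measurable_const
    refine (measurableSet_le measurable_const measurable_fst).inter ?_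
    refine (measurableSet_le measurable_fst measurable_const).inter ?_
    exact (measurableSet_le measurable_const measurable_snd).inter
      (measurableSet_le measurable_snd measurable_const)
  have hFb : ∀ p : ℝ × ℝ, ‖Function.uncurry F p‖ ≤ 1 := by
    intro p
    show |if lo ≤ p.1 ∧ p.1 ≤ hi ∧ lo' ≤ p.2 ∧ p.2 ≤ hi' then Real.sign (p.2 - p.1) else 0| ≤ 1
    split_ifs
    · exact TA.sign_abs _
    · simp
  have hswap : ∫ z in x..y, ∫ z' in x..y, F z z' = ∫ z' in x..y, ∫ z in x..y, F z z' := by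
    refine intervalIntegral_intervalIntegral_swap ?_
    refine Measure.integrableOn_of_bounded (M := 1) ?_ hFm.aestronglyMeasurable
      (Filter.Eventually.of_forall hFb)
    rw [Measure.volume_eq_prod, Measure.prod_prod]
    exact ENNReal.mul_ne_top (by simp [Set.uIoc]) (by simp [Set.uIoc])
  show ∫ z in x..y, ∫ z' in x..y, F z z' = _
  rw [hswap, ← intervalIntegral.integral_neg]
  refine intervalIntegral.integral_congr fun z _ => ?_
  rw [← intervalIntegral.integral_neg]
  refine intervalIntegral.integral_congr fun z' _ => ?_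
  simp only [hF]
  by_cases h : lo ≤ z' ∧ z' ≤ hi ∧ lo' ≤ z ∧ z ≤ hi'
  · rw [if_pos h, if_pos ⟨h.2.2.1, h.2.2.2, h.1, h.2.1⟩, ← Real.sign_neg]
    congr 1; ring
  · rw [if_neg h, if_neg fun h2 => h ⟨h2.2.2.1, h2.2.2.2, h2.1, h2.2.1⟩, neg_zero]

/-- antisymmetric lower bounds -/
lemma abs_of_or {h h' : ℝ → ℝ} {K : ℝ} (ha : WW h h' = - WW h' h)
    (h1 : K ≤ WW h h' ∨ K ≤ WW h' h) : K ≤ |WW h h'| := by
  rcases h1 with h1 | h1
  · exact h1.trans (le_abs_self _)
  · rw [ha, abs_neg]
    exact h1.trans (le_abs_self _)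

lemma cyc_neg (a b : ZMod 3) : cyc (-a) (-b) = - cyc a b := by
  revert a b
  decide

lemma ge_of_sigma {σ x : ℤ} (hσ : σ = 1 ∨ σ = -1) (h : 1 ≤ σ * x) : 1 ≤ |x| := by
  rcases hσ with rfl | rfl
  · rw [one_mul] at h
    exact h.trans (le_abs_self _)
  · have : 1 ≤ -x := by linarith
    exact this.trans (neg_le_abs _)

end IDL

open IDL in
/-- **IDEAL** -/
theorem ideal : S_CODE → S_T1 → S_T3 → S_T4 → S_T4S → S_T5 → S_DUAL → S_BLKCARD → S_MOM → S_REG →
    S_IDEAL := by
  intro HC H1 H3 H4 H4S H5 HD HBC HMOM HR J hJ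
  obtain ⟨N, c, hN1, hN2, hc⟩ := HC J hJ
  have bc := fun c : ℕ → ZMod 3 => HBC 40 N c (by norm_num)
  have hlen : len 40 N = N * 3 ^ 40 + 1 := rfl
  have hL100 : 100 ≤ len 40 N := by
    rw [hlen]
    have : 1 * 3 ^ 40 ≤ N * 3 ^ 40 := Nat.mul_le_mul_right _ hN1
    have h3 : 100 ≤ 1 * 3 ^ 40 := by norm_num
    omega
  have hm100 : 100 ≤ N * 3 ^ 39 + 1 := by
    have : 1 * 3 ^ 39 ≤ N * 3 ^ 39 := Nat.mul_le_mul_right _ hN1
    have h3 : 100 ≤ 1 * 3 ^ 39 := by norm_num
    omega
  refine ⟨len 40 N, N * 3 ^ 39 + 1, fun t => blk 40 N (c t), fun t => blk 40 N fun i => - c t i,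
    ?_, hL100, by omega, fun t _ => ?_, ?_⟩
  · exact Nat.add_le_add_right (Nat.mul_le_mul_right _ hN2) 1
  · exact ⟨(bc _).1, (bc _).1, (bc _).2.1, (bc _).2.1, (bc _).2.2, (bc _).2.2⟩
  intro g hg hgL
  beta_reduce
  have H1' := H1 g N
  have H3' := H3 g N
  clear H1 H3
  set L : ℕ := len 40 N with hLdef
  clear_value L
  have hL1 : (100 : ℝ) ≤ L := by exact_mod_cast hL100
  have hL0 : (0 : ℝ) < L := by linarith
  have hpow : ∀ k : ℕ, k ≤ 100 → g * (L : ℝ) ^ k ≤ 1 := fun k hk => by
    refine le_trans (mul_le_mul_of_nonneg_left ?_ hg.le) hgL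
    exact pow_le_pow_right₀ (by linarith) hk
  have g8 := hpow 8 (by norm_num)
  have g30 := hpow 30 (by norm_num)
  have g1 : g ≤ 1 := by simpa using hpow 0 (by norm_num)
  -- comparison of the bounds
  have K2 : g ^ 6 / (L : ℝ) ^ 12 ≤ g ^ 2 / (L : ℝ) ^ 6 := by
    rw [div_le_div_iff₀ (by positivity) (by positivity)]
    have h1 : g ^ 6 ≤ g ^ 2 := pow_le_pow_of_le_one hg.le g1 (by norm_num)
    have h2 : (L : ℝ) ^ 6 ≤ (L : ℝ) ^ 12 := pow_le_pow_right₀ (by linarith) (by norm_num)
    exact mul_le_mul h1 h2 (by positivity) (by positivity)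
  have K4 : g ^ 6 / (L : ℝ) ^ 12 ≤ g ^ 4 / (L : ℝ) ^ 4 := by
    rw [div_le_div_iff₀ (by positivity) (by positivity)]
    have h1 : g ^ 6 ≤ g ^ 4 := pow_le_pow_of_le_one hg.le g1 (by norm_num)
    have h2 : (L : ℝ) ^ 4 ≤ (L : ℝ) ^ 12 := pow_le_pow_right₀ (by linarith) (by norm_num)
    exact mul_le_mul h1 h2 (by positivity) (by positivity)
  have K6 : g ^ 6 / (L : ℝ) ^ 12 ≤ g ^ 6 / (L : ℝ) ^ 4 := by
    rw [div_le_div_iff₀ (by positivity) (by positivity)]
    have h2 : (L : ℝ) ^ 4 ≤ (L : ℝ) ^ 12 := pow_le_pow_right₀ (by linarith) (by norm_num)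
    exact mul_le_mul le_rfl h2 (by positivity) (by positivity)
  have K10 : g ^ 6 / (L : ℝ) ^ 12 ≤ 1 / (L : ℝ) ^ 10 := by
    rw [div_le_div_iff₀ (by positivity) (by positivity)]
    have h1 : g ^ 6 ≤ 1 := pow_le_one₀ hg.le g1
    have h2 : (L : ℝ) ^ 10 ≤ (L : ℝ) ^ 12 := pow_le_pow_right₀ (by linarith) (by norm_num)
    exact mul_le_mul h1 h2 (by positivity) (by positivity)
  obtain ⟨d1, d2, d3, d4, d5, d6, d7⟩ := id HD
  have hA1 : ∀ t, Sub1 L (blk 40 N (c t)) := fun t => (bc _).2.1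
  have hB1 : ∀ t, Sub1 L (blk 40 N fun i => - c t i) := fun t => (bc _).2.1
  have hcA : ∀ t, (blk 40 N (c t)).card = N * 3 ^ 39 + 1 := fun t => (bc _).1
  have hcB : ∀ t, (blk 40 N fun i => - c t i).card = N * 3 ^ 39 + 1 := fun t => (bc _).1
  -- facts on all densities
  have gx : ∀ t, Measurable (TA.cut (hx g (blk 40 N (c t)) (blk 40 N fun i => - c t i))) ∧
      ∀ z, 0 ≤ z → z ≤ 1 → 0 ≤ hx g (blk 40 N (c t)) (blk 40 N fun i => - c t i) z ∧
        hx g (blk 40 N (c t)) (blk 40 N fun i => - c t i) z ≤ 1 := fun t => by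
    have := reg_facts HR g L _ _ hg hL100 g8 (hA1 t) (hB1 t) (by rw [hcA, hcB]; omega)
    exact ⟨this.2.2.1, this.2.2.2.2.1⟩
  have gy : ∀ t, Measurable (TA.cut (hy g (blk 40 N (c t)) (blk 40 N fun i => - c t i))) ∧
      ∀ z, 0 ≤ z → z ≤ 1 → 0 ≤ hy g (blk 40 N (c t)) (blk 40 N fun i => - c t i) z ∧
        hy g (blk 40 N (c t)) (blk 40 N fun i => - c t i) z ≤ 1 := fun t => by
    have := reg_facts HR g L _ _ hg hL100 g8 (hA1 t) (hB1 t) (by rw [hcA, hcB]; omega)
    exact ⟨this.2.2.2.1, this.2.2.2.2.2.1⟩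
  have gz : ∀ (C D : Finset ℕ) (p q : ℕ), Sub1 L C → Sub1 L D → 30 ≤ C.card + D.card → p ≤ L →
      q ≤ L → Measurable (TA.cut (hz g C D p q)) ∧
      ∀ z, 0 ≤ z → z ≤ 1 → 0 ≤ hz g C D p q z ∧ hz g C D p q z ≤ 1 := by
    intro C D p q h1 h2 h3 h4 h5
    obtain ⟨m1, m2⟩ := (reg_facts HR g L _ _ hg hL100 g8 h1 h2 h3).2.2.2.2.2.2 p q h4 h5
    refine ⟨?_, fun z _ _ => m2 z⟩
    unfold TA.cut
    exact Measurable.ite (measurableSet_Ici.inter measurableSet_Iic) m1 measurable_const
  have satd : ∀ t r, Sat r → Valid (blk 40 N (c t)) (blk 40 N fun i => - c t i) r →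
      Sub1 L (rA (blk 40 N (c t)) r) ∧ Sub1 L (rB (blk 40 N fun i => - c t i) r) ∧
      (rA (blk 40 N (c t)) r).card + (rB (blk 40 N fun i => - c t i) r).card = 2 * (N * 3 ^ 39) + 1 ∧
      rp r ≤ L ∧ rq r ≤ L ∧
      ∑ l ∈ rA (blk 40 N (c t)) r, (l : ℝ) ^ 2 + (rp r : ℝ) ^ 2 =
        ∑ l ∈ blk 40 N (c t), (l : ℝ) ^ 2 ∧
      ∑ l ∈ rB (blk 40 N fun i => - c t i) r, (l : ℝ) ^ 2 + (rq r : ℝ) ^ 2 =
        ∑ l ∈ blk 40 N fun i => - c t i, (l : ℝ) ^ 2 := by
    intro t r hr hv
    obtain ⟨s1, s2, s3, s4, s5, s6, s7⟩ := sat_data (hA1 t) (hB1 t) r hr hv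
    have := hcA t
    have := hcB t
    exact ⟨s1, s2, by omega, s4, s5, s6, s7⟩
  have mom : ∀ c c' : ℕ → ZMod 3, ∑ l ∈ blk 40 N c, (l : ℝ) ^ 2 = ∑ l ∈ blk 40 N c', (l : ℝ) ^ 2 := by
    intro c c'
    have h := HMOM 40 N 0 2 c c' (by norm_num) (Or.inl rfl)
    have e : ∀ c : ℕ → ZMod 3, (blk 40 N c).filter (0 < ·) = blk 40 N c := fun c =>
      filter_true_of_mem fun l hl => ((bc c).2.1 l hl).1
    rwa [e, e] at h
  have big : 30 ≤ 2 * (N * 3 ^ 39) + 1 := by omega
  refine ⟨?_, ?_⟩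
  · -- two gadgets
    intro s t hs ht hst
    obtain ⟨σ, hσ, hcode⟩ := hc s t hs ht hst
    have full : (1 : ℤ) ≤ |∑ i ∈ range N, cyc (c s i) (c t i)| := ge_of_sigma hσ (hcode 0).2
    have negsum : ∀ S : Finset ℕ, ∑ i ∈ S, cyc (-c s i) (-c t i) = -∑ i ∈ S, cyc (c s i) (c t i) := by
      intro S
      rw [← sum_neg_distrib]
      exact sum_congr rfl fun i _ => cyc_neg _ _
    have part : ∀ p : ℕ, (1 : ℤ) ≤ |∑ i ∈ (range N).filter (fun i => p ≤ i * 3 ^ 40),
        cyc (c s i) (c t i) + ∑ i ∈ range N, cyc (c s i) (c t i)| := by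
      intro p
      have h := (hcode ((p + (3 ^ 40 - 1)) / 3 ^ 40)).1
      have e : (range N).filter (fun i => p ≤ i * 3 ^ 40) =
          (range N).filter (fun i => (p + (3 ^ 40 - 1)) / 3 ^ 40 ≤ i) := by
        refine filter_congr fun i _ => ?_
        rw [Nat.div_le_iff_le_mul_add_pred (by norm_num)]
        constructor <;> intro h <;> omega
      rw [e]
      exact ge_of_sigma hσ h
    intro r r' hv hv'
    -- satellites
    by_cases hr : Sat r
    · obtain ⟨s1, s2, s3, s4, s5, s6, s7⟩ := satd s r hr hv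
      have hg1 := gz _ _ (rp r) (rq r) s1 s2 (by omega) s4 s5
      rw [dens_sat g _ _ r hr]
      by_cases hr' : Sat r'
      · obtain ⟨t1, t2, t3, t4, t5, t6, t7⟩ := satd t r' hr' hv'
        have hg2 := gz _ _ (rp r') (rq r') t1 t2 (by omega) t4 t5
        rw [dens_sat g _ _ r' hr']
        rcases win (hA1 s) (hB1 s) (hA1 t) (hB1 t) r r' hr hr' hv hv' with rfl | ⟨h, hne⟩
        · -- equal satellites
          cases r with
          | lo => exact hr.elim
          | hi => exact hr.elim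
          | sa l =>
            refine K6.trans ?_
            refine H3' l (c s) (c t) (fun i => - c s i) (fun i => - c t i) hg hN1 hgL hv hv' ?_
            rw [negsum, sub_neg_eq_add]
            exact part l
          | sb l =>
            refine K6.trans ?_
            have h := H3' l (fun i => - c s i) (fun i => - c t i) (c s) (c t) hg hN1 hgL hv hv' (by
              rw [negsum, ← neg_add', abs_neg]
              exact part l)
            have e1 : ∀ t, hz g (blk 40 N (c t)) ((blk 40 N fun i => - c t i).erase l) 0 l =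
                fun z => hz g ((blk 40 N fun i => - c t i).erase l) (blk 40 N (c t)) l 0 (1 - z) :=
              fun t => funext fun z => d3 _ _ _ _ _ _
            show _ ≤ |WW (hz g (blk 40 N (c s)) ((blk 40 N fun i => - c s i).erase l) 0 l)
              (hz g (blk 40 N (c t)) ((blk 40 N fun i => - c t i).erase l) 0 l)|
            rw [e1, e1, d6, abs_neg]
            exact h
        · -- different satellites
          refine abs_of_or (ww_anti HD _ _ hg1.1 hg2.1 hg1.2 hg2.2) ?_
          have mA := mom (c s) (c t)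
          have mB := mom (fun i => - c s i) (fun i => - c t i)
          rcases h with h | h
          · left
            refine K2.trans ?_
            exact H4 g L _ _ _ _ _ _ _ _ hg hL100 g30 s1 s2 t1 t2 (by omega) (by omega) t4 s5 h.1 h.2
              hne (by rw [s6, t6, mA]) (by rw [s7, t7, mB])
          · right
            refine K2.trans ?_
            exact H4 g L _ _ _ _ _ _ _ _ hg hL100 g30 t1 t2 s1 s2 (by omega) (by omega) s4 t5 h.1 h.2
              hne.symm (by rw [s6, t6, mA]) (by rw [s7, t7, mB])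
      · cases r' with
        | sa l => exact (hr' trivial).elim
        | sb l => exact (hr' trivial).elim
        | lo =>
          have h5 := H5 g L (blk 40 N (c t)) (blk 40 N fun i => - c t i) _ _ (rp r) (rq r) hg hL100 g8
            (hA1 t) (hB1 t) s1 s2 (by rw [hcA, hcB]; omega) (by omega) s4 s5
          have h6 := abs_of_or (ww_anti HD _ _ hg1.1 (gx t).1 hg1.2 (gx t).2)
            (Or.inr (K10.trans h5.1))
          exact h6
        | hi =>
          have h5 := H5 g L (blk 40 N (c t)) (blk 40 N fun i => - c t i) _ _ (rp r) (rq r) hg hL100 g8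
            (hA1 t) (hB1 t) s1 s2 (by rw [hcA, hcB]; omega) (by omega) s4 s5
          have h6 := abs_of_or (ww_anti HD _ _ hg1.1 (gy t).1 hg1.2 (gy t).2)
            (Or.inl (K10.trans h5.2.1))
          exact h6
    · by_cases hr' : Sat r'
      · obtain ⟨t1, t2, t3, t4, t5, t6, t7⟩ := satd t r' hr' hv'
        have hg2 := gz _ _ (rp r') (rq r') t1 t2 (by omega) t4 t5
        rw [dens_sat g _ _ r' hr']
        have h5 := H5 g L (blk 40 N (c s)) (blk 40 N fun i => - c s i) _ _ (rp r') (rq r') hg hL100 g8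
            (hA1 s) (hB1 s) t1 t2 (by rw [hcA, hcB]; omega) (by omega) t4 t5
        cases r with
        | sa l => exact (hr trivial).elim
        | sb l => exact (hr trivial).elim
        | lo => exact (K10.trans h5.1).trans (le_abs_self _)
        | hi =>
          have h6 := abs_of_or (ww_anti HD _ _ (gy s).1 hg2.1 (gy s).2 hg2.2)
            (Or.inr (K10.trans h5.2.1))
          exact h6
      · have h5 := H5 g L (blk 40 N (c s)) (blk 40 N fun i => - c s i)
          (blk 40 N (c t)) (blk 40 N fun i => - c t i) 0 0 hg hL100 g8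
            (hA1 s) (hB1 s) (hA1 t) (hB1 t) (by rw [hcA, hcB]; omega) (by rw [hcA, hcB]; omega)
            (by omega) (by omega)
        have h5' := H5 g L (blk 40 N (c t)) (blk 40 N fun i => - c t i)
          (blk 40 N (c s)) (blk 40 N fun i => - c s i) 0 0 hg hL100 g8
            (hA1 t) (hB1 t) (hA1 s) (hB1 s) (by rw [hcA, hcB]; omega) (by rw [hcA, hcB]; omega)
            (by omega) (by omega)
        cases r with
        | sa l => exact (hr trivial).elim
        | sb l => exact (hr trivial).elim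
        | lo =>
          cases r' with
          | sa l => exact (hr' trivial).elim
          | sb l => exact (hr' trivial).elim
          | lo => exact K4.trans (H1' (c s) (c t) _ _ hg hN1 hgL full)
          | hi => exact (K10.trans h5.2.2).trans (le_abs_self _)
        | hi =>
          cases r' with
          | sa l => exact (hr' trivial).elim
          | sb l => exact (hr' trivial).elim
          | lo =>
            have h6 := abs_of_or (ww_anti HD _ _ (gy s).1 (gx t).1 (gy s).2 (gx t).2)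
              (Or.inr (K10.trans h5'.2.2))
            exact h6
          | hi =>
            have h := H1' (fun i => - c s i) (fun i => - c t i) (c s) (c t) hg hN1 hgL (by
              rw [negsum, abs_neg]; exact full)
            refine K4.trans ?_
            have e1 : ∀ t, hy g (blk 40 N (c t)) (blk 40 N fun i => - c t i) =
                fun z => hx g (blk 40 N fun i => - c t i) (blk 40 N (c t)) (1 - z) :=
              fun t => funext fun z => d4 _ _ _ _
            show _ ≤ |WW (hy g (blk 40 N (c s)) (blk 40 N fun i => - c s i))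
              (hy g (blk 40 N (c t)) (blk 40 N fun i => - c t i))|
            rw [e1, e1, d6, abs_neg]
            exact h
  · -- one gadget
    intro t _ r r' hv hv' hne h1 h2 h3 h4
    have sat : ∀ r : Role, r ≠ .lo → r ≠ .hi → Sat r := by
      intro r h1 h2
      cases r with
      | lo => exact absurd rfl h1
      | hi => exact absurd rfl h2
      | sa l => trivial
      | sb l => trivial
    have hr : Sat r := sat r h1 h2
    have hr' : Sat r' := sat r' h3 h4
    rw [same_sat g _ _ r r' hr hr']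
    have he : ∀ (C : Finset ℕ) (r : Role), Sub1 L C → Sub1 L (rA C r) ∧ Sub1 L (rB C r) ∧
        C.card ≤ (rA C r).card + 1 ∧ C.card ≤ (rB C r).card + 1 := by
      intro C r hC
      have q : ∀ l, C.card ≤ (C.erase l).card + 1 := fun l => by
        have := pred_card_le_card_erase (s := C) (a := l)
        omega
      cases r with
      | lo => exact ⟨hC, hC, Nat.le_succ _, Nat.le_succ _⟩
      | hi => exact ⟨hC, hC, Nat.le_succ _, Nat.le_succ _⟩
      | sa l => exact ⟨fun k hk => hC k (mem_of_mem_erase hk), hC, q l, Nat.le_succ _⟩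
      | sb l => exact ⟨hC, fun k hk => hC k (mem_of_mem_erase hk), Nat.le_succ _, q l⟩
    obtain ⟨a1, -, a3, -⟩ := he _ r (hA1 t)
    obtain ⟨-, b2, -, b4⟩ := he _ r (hB1 t)
    obtain ⟨a1', -, a3', -⟩ := he _ r' a1
    obtain ⟨-, b2', -, b4'⟩ := he _ r' b2
    have hcA' := hcA t
    have hcB' := hcB t
    obtain ⟨-, -, -, s4, s5, -, -⟩ := satd t r hr hv
    obtain ⟨-, -, -, t4, t5, -, -⟩ := satd t r' hr' hv'
    rcases win (hA1 t) (hB1 t) (hA1 t) (hB1 t) r r' hr hr' hv hv' with h | ⟨h, hne2⟩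
    · exact absurd h hne
    rcases h with h | h
    · refine K2.trans (le_trans ?_ (le_abs_self _))
      exact H4S g L _ _ _ _ _ _ hg hL100 g30 a1' b2' (by omega) t4 s5 h.1 h.2 hne2
    · rw [ws_anti, abs_neg]
      refine K2.trans (le_trans ?_ (le_abs_self _))
      exact H4S g L _ _ _ _ _ _ hg hL100 g30 a1' b2' (by omega) s4 t5 h.1 h.2 hne2.symm

end Pool.Agent.H34.RK
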