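import Pool.Agent.H34.RK.Stm4
import Pool.Agent.H34.RK.Ideal

/-! # Project RK: `S_IDEAL2` (helper82) -/

set_option autoImplicit false

open Finset MeasureTheory

namespace Pool.Agent.H34.RK

open IDL in
/-- **IDEAL2** -/
theorem ideal2 : S_CODE → S_T1 → S_T3 → S_T4 → S_T4S → S_T5 → S_DUAL → S_BLKCARD → S_MOM → S_REG →
    S_IDEAL2 := by
  intro HC H1 H3 H4 H4S H5 HD HBC HMOM HR J hJ
  obtain ⟨N, c, hN1, hN2, hc⟩ := HC J hJ
  have bc := fun c : ℕ → ZMod 3 => HBC 40 N c (by norm_num)
  have hlen : len 40 N = N * 3 ^ 40 + 1 := rfl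
  have hL100 : 100 ≤ len 40 N := by
    rw [hlen]
    have : 1 * 3 ^ 40 ≤ N * 3 ^ 40 := Nat.mul_le_mul_right _ hN1
    have h3 : 100 ≤ 1 * 3 ^ 40 := by norm_num
    omega
  have hm100 : 100 ≤ N * 3 ^ 39 + 1 := by
    have : 1 * 3 ^ 39 ≤ N * 3 ^ 39 := Nat.mul_le_mul_right _ hN1
    have h3 : 100 ≤ 1 * 3 ^ 39 := by norm_num
    omega
  have h2m : 2 * (N * 3 ^ 39 + 1) ≤ len 40 N + 1 := by
    rw [hlen]
    have h3 : N * 3 ^ 40 = 3 * (N * 3 ^ 39) := by
      rw [show (3 : ℕ) ^ 40 = 3 * 3 ^ 39 from pow_succ' 3 39]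
      ring
    rw [h3]
    omega
  refine ⟨len 40 N, N * 3 ^ 39 + 1, fun t => blk 40 N (c t), fun t => blk 40 N fun i => - c t i,
    ?_, hL100, by omega, h2m, fun t _ => ?_, ?_⟩
  · exact Nat.add_le_add_right (Nat.mul_le_mul_right _ hN2) 1
  · exact ⟨(bc _).1, (bc _).1, (bc _).2.1, (bc _).2.1, (bc _).2.2, (bc _).2.2⟩
  intro g hg hgL
  beta_reduce
  have H1' := H1 g N
  have H3' := H3 g N
  clear H1 H3
  set L : ℕ := len 40 N with hLdef
  clear_value L
  have hL1 : (100 : ℝ) ≤ L := by exact_mod_cast hL100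
  have hL0 : (0 : ℝ) < L := by linarith
  have hpow : ∀ k : ℕ, k ≤ 100 → g * (L : ℝ) ^ k ≤ 1 := fun k hk => by
    refine le_trans (mul_le_mul_of_nonneg_left ?_ hg.le) hgL
    exact pow_le_pow_right₀ (by linarith) hk
  have g8 := hpow 8 (by norm_num)
  have g30 := hpow 30 (by norm_num)
  have g1 : g ≤ 1 := by simpa using hpow 0 (by norm_num)
  -- comparison of the bounds
  have K2 : g ^ 6 / (L : ℝ) ^ 12 ≤ g ^ 2 / (L : ℝ) ^ 6 := by
    rw [div_le_div_iff₀ (by positivity) (by positivity)]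
    have h1 : g ^ 6 ≤ g ^ 2 := pow_le_pow_of_le_one hg.le g1 (by norm_num)
    have h2 : (L : ℝ) ^ 6 ≤ (L : ℝ) ^ 12 := pow_le_pow_right₀ (by linarith) (by norm_num)
    exact mul_le_mul h1 h2 (by positivity) (by positivity)
  have K4 : g ^ 6 / (L : ℝ) ^ 12 ≤ g ^ 4 / (L : ℝ) ^ 4 := by
    rw [div_le_div_iff₀ (by positivity) (by positivity)]
    have h1 : g ^ 6 ≤ g ^ 4 := pow_le_pow_of_le_one hg.le g1 (by norm_num)
    have h2 : (L : ℝ) ^ 4 ≤ (L : ℝ) ^ 12 := pow_le_pow_right₀ (by linarith) (by norm_num)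
    exact mul_le_mul h1 h2 (by positivity) (by positivity)
  have K6 : g ^ 6 / (L : ℝ) ^ 12 ≤ g ^ 6 / (L : ℝ) ^ 4 := by
    rw [div_le_div_iff₀ (by positivity) (by positivity)]
    have h2 : (L : ℝ) ^ 4 ≤ (L : ℝ) ^ 12 := pow_le_pow_right₀ (by linarith) (by norm_num)
    exact mul_le_mul le_rfl h2 (by positivity) (by positivity)
  have K10 : g ^ 6 / (L : ℝ) ^ 12 ≤ 1 / (L : ℝ) ^ 10 := by
    rw [div_le_div_iff₀ (by positivity) (by positivity)]
    have h1 : g ^ 6 ≤ 1 := pow_le_one₀ hg.le g1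
    have h2 : (L : ℝ) ^ 10 ≤ (L : ℝ) ^ 12 := pow_le_pow_right₀ (by linarith) (by norm_num)
    exact mul_le_mul h1 h2 (by positivity) (by positivity)
  obtain ⟨d1, d2, d3, d4, d5, d6, d7⟩ := id HD
  have hA1 : ∀ t, Sub1 L (blk 40 N (c t)) := fun t => (bc _).2.1
  have hB1 : ∀ t, Sub1 L (blk 40 N fun i => - c t i) := fun t => (bc _).2.1
  have hcA : ∀ t, (blk 40 N (c t)).card = N * 3 ^ 39 + 1 := fun t => (bc _).1
  have hcB : ∀ t, (blk 40 N fun i => - c t i).card = N * 3 ^ 39 + 1 := fun t => (bc _).1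
  -- facts on all densities
  have gx : ∀ t, Measurable (TA.cut (hx g (blk 40 N (c t)) (blk 40 N fun i => - c t i))) ∧
      ∀ z, 0 ≤ z → z ≤ 1 → 0 ≤ hx g (blk 40 N (c t)) (blk 40 N fun i => - c t i) z ∧
        hx g (blk 40 N (c t)) (blk 40 N fun i => - c t i) z ≤ 1 := fun t => by
    have := reg_facts HR g L _ _ hg hL100 g8 (hA1 t) (hB1 t) (by rw [hcA, hcB]; omega)
    exact ⟨this.2.2.1, this.2.2.2.2.1⟩
  have gy : ∀ t, Measurable (TA.cut (hy g (blk 40 N (c t)) (blk 40 N fun i => - c t i))) ∧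
      ∀ z, 0 ≤ z → z ≤ 1 → 0 ≤ hy g (blk 40 N (c t)) (blk 40 N fun i => - c t i) z ∧
        hy g (blk 40 N (c t)) (blk 40 N fun i => - c t i) z ≤ 1 := fun t => by
    have := reg_facts HR g L _ _ hg hL100 g8 (hA1 t) (hB1 t) (by rw [hcA, hcB]; omega)
    exact ⟨this.2.2.2.1, this.2.2.2.2.2.1⟩
  have gz : ∀ (C D : Finset ℕ) (p q : ℕ), Sub1 L C → Sub1 L D → 30 ≤ C.card + D.card → p ≤ L →
      q ≤ L → Measurable (TA.cut (hz g C D p q)) ∧
      ∀ z, 0 ≤ z → z ≤ 1 → 0 ≤ hz g C D p q z ∧ hz g C D p q z ≤ 1 := by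
    intro C D p q h1 h2 h3 h4 h5
    obtain ⟨m1, m2⟩ := (reg_facts HR g L _ _ hg hL100 g8 h1 h2 h3).2.2.2.2.2.2 p q h4 h5
    refine ⟨?_, fun z _ _ => m2 z⟩
    unfold TA.cut
    exact Measurable.ite (measurableSet_Ici.inter measurableSet_Iic) m1 measurable_const
  have satd : ∀ t r, Sat r → Valid (blk 40 N (c t)) (blk 40 N fun i => - c t i) r →
      Sub1 L (rA (blk 40 N (c t)) r) ∧ Sub1 L (rB (blk 40 N fun i => - c t i) r) ∧
      (rA (blk 40 N (c t)) r).card + (rB (blk 40 N fun i => - c t i) r).card = 2 * (N * 3 ^ 39) + 1 ∧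
      rp r ≤ L ∧ rq r ≤ L ∧
      ∑ l ∈ rA (blk 40 N (c t)) r, (l : ℝ) ^ 2 + (rp r : ℝ) ^ 2 =
        ∑ l ∈ blk 40 N (c t), (l : ℝ) ^ 2 ∧
      ∑ l ∈ rB (blk 40 N fun i => - c t i) r, (l : ℝ) ^ 2 + (rq r : ℝ) ^ 2 =
        ∑ l ∈ blk 40 N fun i => - c t i, (l : ℝ) ^ 2 := by
    intro t r hr hv
    obtain ⟨s1, s2, s3, s4, s5, s6, s7⟩ := sat_data (hA1 t) (hB1 t) r hr hv
    have := hcA t
    have := hcB t
    exact ⟨s1, s2, by omega, s4, s5, s6, s7⟩
  have mom : ∀ c c' : ℕ → ZMod 3, ∑ l ∈ blk 40 N c, (l : ℝ) ^ 2 = ∑ l ∈ blk 40 N c', (l : ℝ) ^ 2 := by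
    intro c c'
    have h := HMOM 40 N 0 2 c c' (by norm_num) (Or.inl rfl)
    have e : ∀ c : ℕ → ZMod 3, (blk 40 N c).filter (0 < ·) = blk 40 N c := fun c =>
      filter_true_of_mem fun l hl => ((bc c).2.1 l hl).1
    rwa [e, e] at h
  have big : 30 ≤ 2 * (N * 3 ^ 39) + 1 := by omega
  refine ⟨?_, ?_⟩
  · -- two gadgets
    intro s t hs ht hst
    obtain ⟨σ, hσ, hcode⟩ := hc s t hs ht hst
    have full : (1 : ℤ) ≤ |∑ i ∈ range N, cyc (c s i) (c t i)| := ge_of_sigma hσ (hcode 0).2
    have negsum : ∀ S : Finset ℕ, ∑ i ∈ S, cyc (-c s i) (-c t i) = -∑ i ∈ S, cyc (c s i) (c t i) := by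
      intro S
      rw [← sum_neg_distrib]
      exact sum_congr rfl fun i _ => cyc_neg _ _
    have part : ∀ p : ℕ, (1 : ℤ) ≤ |∑ i ∈ (range N).filter (fun i => p ≤ i * 3 ^ 40),
        cyc (c s i) (c t i) + ∑ i ∈ range N, cyc (c s i) (c t i)| := by
      intro p
      have h := (hcode ((p + (3 ^ 40 - 1)) / 3 ^ 40)).1
      have e : (range N).filter (fun i => p ≤ i * 3 ^ 40) =
          (range N).filter (fun i => (p + (3 ^ 40 - 1)) / 3 ^ 40 ≤ i) := by
        refine filter_congr fun i _ => ?_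
        rw [Nat.div_le_iff_le_mul_add_pred (by norm_num)]
        constructor <;> intro h <;> omega
      rw [e]
      exact ge_of_sigma hσ h
    intro r r' hv hv'
    -- satellites
    by_cases hr : Sat r
    · obtain ⟨s1, s2, s3, s4, s5, s6, s7⟩ := satd s r hr hv
      have hg1 := gz _ _ (rp r) (rq r) s1 s2 (by omega) s4 s5
      rw [dens_sat g _ _ r hr]
      by_cases hr' : Sat r'
      · obtain ⟨t1, t2, t3, t4, t5, t6, t7⟩ := satd t r' hr' hv'
        have hg2 := gz _ _ (rp r') (rq r') t1 t2 (by omega) t4 t5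
        rw [dens_sat g _ _ r' hr']
        rcases win (hA1 s) (hB1 s) (hA1 t) (hB1 t) r r' hr hr' hv hv' with rfl | ⟨h, hne⟩
        · -- equal satellites
          cases r with
          | lo => exact hr.elim
          | hi => exact hr.elim
          | sa l =>
            refine K6.trans ?_
            refine H3' l (c s) (c t) (fun i => - c s i) (fun i => - c t i) hg hN1 hgL hv hv' ?_
            rw [negsum, sub_neg_eq_add]
            exact part l
          | sb l =>
            refine K6.trans ?_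
            have h := H3' l (fun i => - c s i) (fun i => - c t i) (c s) (c t) hg hN1 hgL hv hv' (by
              rw [negsum, ← neg_add', abs_neg]
              exact part l)
            have e1 : ∀ t, hz g (blk 40 N (c t)) ((blk 40 N fun i => - c t i).erase l) 0 l =
                fun z => hz g ((blk 40 N fun i => - c t i).erase l) (blk 40 N (c t)) l 0 (1 - z) :=
              fun t => funext fun z => d3 _ _ _ _ _ _
            show _ ≤ |WW (hz g (blk 40 N (c s)) ((blk 40 N fun i => - c s i).erase l) 0 l)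
              (hz g (blk 40 N (c t)) ((blk 40 N fun i => - c t i).erase l) 0 l)|
            rw [e1, e1, d6, abs_neg]
            exact h
        · -- different satellites
          refine abs_of_or (ww_anti HD _ _ hg1.1 hg2.1 hg1.2 hg2.2) ?_
          have mA := mom (c s) (c t)
          have mB := mom (fun i => - c s i) (fun i => - c t i)
          rcases h with h | h
          · left
            refine K2.trans ?_
            exact H4 g L _ _ _ _ _ _ _ _ hg hL100 g30 s1 s2 t1 t2 (by omega) (by omega) t4 s5 h.1 h.2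
              hne (by rw [s6, t6, mA]) (by rw [s7, t7, mB])
          · right
            refine K2.trans ?_
            exact H4 g L _ _ _ _ _ _ _ _ hg hL100 g30 t1 t2 s1 s2 (by omega) (by omega) s4 t5 h.1 h.2
              hne.symm (by rw [s6, t6, mA]) (by rw [s7, t7, mB])
      · cases r' with
        | sa l => exact (hr' trivial).elim
        | sb l => exact (hr' trivial).elim
        | lo =>
          have h5 := H5 g L (blk 40 N (c t)) (blk 40 N fun i => - c t i) _ _ (rp r) (rq r) hg hL100 g8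
            (hA1 t) (hB1 t) s1 s2 (by rw [hcA, hcB]; omega) (by omega) s4 s5
          have h6 := abs_of_or (ww_anti HD _ _ hg1.1 (gx t).1 hg1.2 (gx t).2)
            (Or.inr (K10.trans h5.1))
          exact h6
        | hi =>
          have h5 := H5 g L (blk 40 N (c t)) (blk 40 N fun i => - c t i) _ _ (rp r) (rq r) hg hL100 g8
            (hA1 t) (hB1 t) s1 s2 (by rw [hcA, hcB]; omega) (by omega) s4 s5
          have h6 := abs_of_or (ww_anti HD _ _ hg1.1 (gy t).1 hg1.2 (gy t).2)
            (Or.inl (K10.trans h5.2.1))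
          exact h6
    · by_cases hr' : Sat r'
      · obtain ⟨t1, t2, t3, t4, t5, t6, t7⟩ := satd t r' hr' hv'
        have hg2 := gz _ _ (rp r') (rq r') t1 t2 (by omega) t4 t5
        rw [dens_sat g _ _ r' hr']
        have h5 := H5 g L (blk 40 N (c s)) (blk 40 N fun i => - c s i) _ _ (rp r') (rq r') hg hL100 g8
            (hA1 s) (hB1 s) t1 t2 (by rw [hcA, hcB]; omega) (by omega) t4 t5
        cases r with
        | sa l => exact (hr trivial).elim
        | sb l => exact (hr trivial).elim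
        | lo => exact (K10.trans h5.1).trans (le_abs_self _)
        | hi =>
          have h6 := abs_of_or (ww_anti HD _ _ (gy s).1 hg2.1 (gy s).2 hg2.2)
            (Or.inr (K10.trans h5.2.1))
          exact h6
      · have h5 := H5 g L (blk 40 N (c s)) (blk 40 N fun i => - c s i)
          (blk 40 N (c t)) (blk 40 N fun i => - c t i) 0 0 hg hL100 g8
            (hA1 s) (hB1 s) (hA1 t) (hB1 t) (by rw [hcA, hcB]; omega) (by rw [hcA, hcB]; omega)
            (by omega) (by omega)
        have h5' := H5 g L (blk 40 N (c t)) (blk 40 N fun i => - c t i)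
          (blk 40 N (c s)) (blk 40 N fun i => - c s i) 0 0 hg hL100 g8
            (hA1 t) (hB1 t) (hA1 s) (hB1 s) (by rw [hcA, hcB]; omega) (by rw [hcA, hcB]; omega)
            (by omega) (by omega)
        cases r with
        | sa l => exact (hr trivial).elim
        | sb l => exact (hr trivial).elim
        | lo =>
          cases r' with
          | sa l => exact (hr' trivial).elim
          | sb l => exact (hr' trivial).elim
          | lo => exact K4.trans (H1' (c s) (c t) _ _ hg hN1 hgL full)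
          | hi => exact (K10.trans h5.2.2).trans (le_abs_self _)
        | hi =>
          cases r' with
          | sa l => exact (hr' trivial).elim
          | sb l => exact (hr' trivial).elim
          | lo =>
            have h6 := abs_of_or (ww_anti HD _ _ (gy s).1 (gx t).1 (gy s).2 (gx t).2)
              (Or.inr (K10.trans h5'.2.2))
            exact h6
          | hi =>
            have h := H1' (fun i => - c s i) (fun i => - c t i) (c s) (c t) hg hN1 hgL (by
              rw [negsum, abs_neg]; exact full)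
            refine K4.trans ?_
            have e1 : ∀ t, hy g (blk 40 N (c t)) (blk 40 N fun i => - c t i) =
                fun z => hx g (blk 40 N fun i => - c t i) (blk 40 N (c t)) (1 - z) :=
              fun t => funext fun z => d4 _ _ _ _
            show _ ≤ |WW (hy g (blk 40 N (c s)) (blk 40 N fun i => - c s i))
              (hy g (blk 40 N (c t)) (blk 40 N fun i => - c t i))|
            rw [e1, e1, d6, abs_neg]
            exact h
  · -- one gadget
    intro t _ r r' hv hv' hne h1 h2 h3 h4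
    have sat : ∀ r : Role, r ≠ .lo → r ≠ .hi → Sat r := by
      intro r h1 h2
      cases r with
      | lo => exact absurd rfl h1
      | hi => exact absurd rfl h2
      | sa l => trivial
      | sb l => trivial
    have hr : Sat r := sat r h1 h2
    have hr' : Sat r' := sat r' h3 h4
    rw [same_sat g _ _ r r' hr hr']
    have he : ∀ (C : Finset ℕ) (r : Role), Sub1 L C → Sub1 L (rA C r) ∧ Sub1 L (rB C r) ∧
        C.card ≤ (rA C r).card + 1 ∧ C.card ≤ (rB C r).card + 1 := by
      intro C r hC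
      have q : ∀ l, C.card ≤ (C.erase l).card + 1 := fun l => by
        have := pred_card_le_card_erase (s := C) (a := l)
        omega
      cases r with
      | lo => exact ⟨hC, hC, Nat.le_succ _, Nat.le_succ _⟩
      | hi => exact ⟨hC, hC, Nat.le_succ _, Nat.le_succ _⟩
      | sa l => exact ⟨fun k hk => hC k (mem_of_mem_erase hk), hC, q l, Nat.le_succ _⟩
      | sb l => exact ⟨hC, fun k hk => hC k (mem_of_mem_erase hk), Nat.le_succ _, q l⟩
    obtain ⟨a1, -, a3, -⟩ := he _ r (hA1 t)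
    obtain ⟨-, b2, -, b4⟩ := he _ r (hB1 t)
    obtain ⟨a1', -, a3', -⟩ := he _ r' a1
    obtain ⟨-, b2', -, b4'⟩ := he _ r' b2
    have hcA' := hcA t
    have hcB' := hcB t
    obtain ⟨-, -, -, s4, s5, -, -⟩ := satd t r hr hv
    obtain ⟨-, -, -, t4, t5, -, -⟩ := satd t r' hr' hv'
    rcases win (hA1 t) (hB1 t) (hA1 t) (hB1 t) r r' hr hr' hv hv' with h | ⟨h, hne2⟩
    · exact absurd h hne
    rcases h with h | h
    · refine K2.trans (le_trans ?_ (le_abs_self _))
      exact H4S g L _ _ _ _ _ _ hg hL100 g30 a1' b2' (by omega) t4 s5 h.1 h.2 hne2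
    · rw [ws_anti, abs_neg]
      refine K2.trans (le_trans ?_ (le_abs_self _))
      exact H4S g L _ _ _ _ _ _ hg hL100 g30 a1' b2' (by omega) s4 t5 h.1 h.2 hne2.symm

end Pool.Agent.H34.RK
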