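import Pool.Agent.H34.RK.Stm4

/-!
# Project RK: the main theorem for all large widths
-/

set_option autoImplicit false

open Finset MeasureTheory

namespace Pool.Agent.H34.RK

/-- for large `w` -/
theorem large_w2 : ∀ᶠ w : ℕ in Filter.atTop,
    (200 * 3 ^ 40 * 32 + 1 : ℝ) ≤ Real.log w ∧ 2 * (Real.log w) ^ 24252 ≤ (w : ℝ) ∧ 2 ≤ w := by
  have h1 : Filter.Tendsto (fun w : ℕ => Real.log (w : ℝ)) Filter.atTop Filter.atTop :=
    Real.tendsto_log_atTop.comp tendsto_natCast_atTop_atTop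
  have h2 : (fun x : ℝ => Real.log x ^ 24252) =o[Filter.atTop] (fun x : ℝ => x) :=
    Real.isLittleO_pow_log_id_atTop
  have h3 := (h2.def (by norm_num : (0 : ℝ) < 1 / 2)).filter_mono
    (le_refl Filter.atTop)
  have h4 := tendsto_natCast_atTop_atTop (R := ℝ) |>.eventually h3
  filter_upwards [h1.eventually_ge_atTop (200 * 3 ^ 40 * 32 + 1 : ℝ), h4,
    Filter.eventually_ge_atTop 2] with w ha hb hc
  refine ⟨ha, ?_, hc⟩
  have h5 : Real.log (w : ℝ) ^ 24252 ≤ 1 / 2 * (w : ℝ) := by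
    have h6 : ‖(w : ℝ)‖ = w := Real.norm_of_nonneg (Nat.cast_nonneg w)
    rw [h6] at hb
    exact (le_abs_self _).trans hb
  linarith

theorem clog_le2 {w : ℕ} (hw : 2 ≤ w) (hx : 2 ≤ Real.log w) :
    (Nat.clog 2 w : ℝ) ≤ 2 * Real.log w := by
  have h1 : 2 ^ (Nat.clog 2 w).pred < w := Nat.pow_pred_clog_lt_self (by norm_num) hw
  have h2 : ((2 : ℝ) ^ (Nat.clog 2 w).pred) < w := by exact_mod_cast h1
  have h3 : ((Nat.clog 2 w).pred : ℝ) * Real.log 2 < Real.log w := by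
    have := Real.log_lt_log (by positivity) h2
    rwa [Real.log_pow] at this
  have h4 : 0.6931471803 < Real.log 2 := Real.log_two_gt_d9
  have h5 : (Nat.clog 2 w : ℝ) ≤ ((Nat.clog 2 w).pred : ℝ) + 1 := by
    have : Nat.clog 2 w ≤ (Nat.clog 2 w).pred + 1 := by
      rw [Nat.pred_eq_sub_one]; omega
    exact_mod_cast this
  have h6 : (0 : ℝ) ≤ ((Nat.clog 2 w).pred : ℝ) := Nat.cast_nonneg _
  nlinarith

theorem mainf2 : S_IDEAL2 → S_BAL2 → S_MAIN2 := by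
  intro hI hBal
  obtain ⟨w₀, hw₀⟩ := Filter.eventually_atTop.1 large_w2
  refine ⟨4000, w₀, fun w hw => ?_⟩
  obtain ⟨hx, hxw, hw2⟩ := hw₀ w hw
  obtain ⟨x, hxdef⟩ : ∃ x : ℝ, x = Real.log w := ⟨_, rfl⟩
  rw [← hxdef] at hx hxw
  have hx8 : (8 : ℝ) ≤ x := le_trans (by norm_num) hx
  have hx1 : (1 : ℝ) ≤ x := by linarith
  have hx0 : (0 : ℝ) ≤ x := by linarith
  obtain ⟨J, hJdef⟩ : ∃ J : ℕ, J = Nat.clog 2 w := ⟨_, rfl⟩
  have hJx : (J : ℝ) ≤ 2 * x := by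
    rw [hJdef, hxdef]
    exact clog_le2 hw2 (by rw [← hxdef]; linarith)
  have hwJ : w ≤ 2 ^ J := by
    rw [hJdef]
    exact Nat.le_pow_clog (by norm_num) w
  have hJ2 : 2 ≤ J := by
    by_contra hc
    have hJ1 : J ≤ 1 := by omega
    have h1 : w ≤ 2 := hwJ.trans (by
      calc 2 ^ J ≤ 2 ^ 1 := Nat.pow_le_pow_right (by norm_num) hJ1
        _ = 2 := by norm_num)
    have h2 : (w : ℝ) ≤ 2 := by exact_mod_cast h1
    have h3 : x ≤ Real.log 2 := by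
      rw [hxdef]
      exact Real.log_le_log (by exact_mod_cast (by omega : 0 < w)) h2
    have h4 : Real.log 2 < 0.6931471808 := Real.log_two_lt_d9
    linarith
  obtain ⟨L, m, A, B, hL, hL100, hm25, hmL, hAB, hg⟩ := hI J hJ2
  -- size of `L`
  have hL1 : (1 : ℝ) ≤ L := by exact_mod_cast (by omega : 1 ≤ L)
  have hL100' : (100 : ℝ) ≤ L := by exact_mod_cast hL100
  have hL0 : (0 : ℝ) < L := by linarith
  have hLx : (L : ℝ) ≤ x ^ 6 := by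
    have h1 : (L : ℝ) ≤ 200 * (J : ℝ) ^ 5 * 3 ^ 40 + 1 := by exact_mod_cast hL
    have h2 : (J : ℝ) ^ 5 ≤ (2 * x) ^ 5 := pow_le_pow_left₀ (Nat.cast_nonneg J) hJx 5
    have h3 : (1 : ℝ) ≤ x ^ 5 := one_le_pow₀ hx1
    have h4 : (200 * 3 ^ 40 * 32 + 1 : ℝ) * x ^ 5 ≤ x * x ^ 5 :=
      mul_le_mul_of_nonneg_right hx (by positivity)
    have h5 : (2 * x) ^ 5 = 32 * x ^ 5 := by ring
    have h6 : x * x ^ 5 = x ^ 6 := by ring
    nlinarith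
  -- `N` and `r`
  obtain ⟨N, hN⟩ : ∃ N : ℕ, N = w / (2 * m) := ⟨_, rfl⟩
  obtain ⟨r, hr⟩ : ∃ r : ℕ, r = w % (2 * m) := ⟨_, rfl⟩
  have hm0 : 0 < 2 * m := by omega
  have hdm : 2 * m * N + r = w := by
    rw [hN, hr]
    exact Nat.div_add_mod w (2 * m)
  have hmod : r < 2 * m := by
    rw [hr]
    exact Nat.mod_lt w hm0
  have hrL : r ≤ L := by omega
  have hNJ : N ≤ 2 ^ J := by
    rw [hN]
    exact (Nat.div_le_self _ _).trans hwJ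
  -- `N` is large
  have hNL : (L : ℝ) ^ 4040 ≤ N := by
    have h1 : (w : ℝ) ≤ 2 * L * (N + 1) := by
      have h2 : w ≤ (L + 1) * (N + 1) := by
        calc w = 2 * m * N + r := hdm.symm
          _ ≤ 2 * m * N + 2 * m := by omega
          _ = 2 * m * (N + 1) := by ring
          _ ≤ (L + 1) * (N + 1) := Nat.mul_le_mul_right _ hmL
      have h3 : (w : ℝ) ≤ (L + 1) * (N + 1) := by exact_mod_cast h2
      have h4 : (0 : ℝ) ≤ N := Nat.cast_nonneg N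
      nlinarith
    have h3 : (L : ℝ) ^ 4042 ≤ x ^ 24252 := by
      calc (L : ℝ) ^ 4042 ≤ (x ^ 6) ^ 4042 := pow_le_pow_left₀ hL0.le hLx 4042
        _ = x ^ 24252 := by rw [← pow_mul]
    have h4 : (L : ℝ) ^ 4042 = L ^ 4041 * L := pow_succ _ _
    have h5 : (L : ℝ) ^ 4041 * L ≤ (N + 1) * L := by
      rw [← h4]
      nlinarith
    have h6 : (L : ℝ) ^ 4041 ≤ N + 1 := le_of_mul_le_mul_right h5 hL0
    have h7 : (L : ℝ) ^ 4041 = L ^ 4040 * L := pow_succ _ _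
    have h8 : (1 : ℝ) ≤ (L : ℝ) ^ 4040 := one_le_pow₀ hL1
    nlinarith
  have hN0' : (0 : ℝ) < N := lt_of_lt_of_le (by positivity) hNL
  obtain ⟨g, hgdef⟩ : ∃ g : ℝ, g = ((L : ℝ) ^ 100)⁻¹ := ⟨_, rfl⟩
  have hg0 : 0 < g := by rw [hgdef]; positivity
  have hg1 : g * (L : ℝ) ^ 100 ≤ 1 := by
    rw [hgdef, inv_mul_cancel₀ (by positivity)]
  have hη : g ^ 6 / (L : ℝ) ^ 12 = ((L : ℝ) ^ 612)⁻¹ := by
    rw [hgdef, inv_pow, ← pow_mul, div_eq_mul_inv, ← mul_inv, ← pow_add]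
  obtain ⟨hg2, hg3⟩ := hg g hg0 hg1
  rw [hη] at hg2 hg3
  have hη0 : (0 : ℝ) < ((L : ℝ) ^ 612)⁻¹ := by positivity
  have hL612 : (100 : ℝ) ≤ (L : ℝ) ^ 612 := hL100'.trans (le_self_pow₀ hL1 (by norm_num))
  have hη1 : ((L : ℝ) ^ 612)⁻¹ ≤ 1 / 100 := by
    rw [one_div]
    exact inv_anti₀ (by norm_num) hL612
  have hηg : 8 * ((L : ℝ) ^ 612)⁻¹ ≤ g := by
    have h1 : (L : ℝ) ^ 612 = L ^ 100 * L ^ 512 := by rw [← pow_add]
    have h2 : (8 : ℝ) ≤ (L : ℝ) ^ 512 :=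
      (by linarith : (8 : ℝ) ≤ L).trans (le_self_pow₀ hL1 (by norm_num))
    rw [hgdef, h1, mul_inv, mul_left_comm]
    have h3 : 8 * ((L : ℝ) ^ 512)⁻¹ ≤ 1 := by
      rw [← div_eq_mul_inv, div_le_one (by positivity)]
      exact h2
    calc ((L : ℝ) ^ 100)⁻¹ * (8 * ((L : ℝ) ^ 512)⁻¹) ≤ ((L : ℝ) ^ 100)⁻¹ * 1 :=
          mul_le_mul_of_nonneg_left h3 (by positivity)
      _ = ((L : ℝ) ^ 100)⁻¹ := mul_one _
  have hLg : ((L : ℝ) / g) ^ 40 ≤ N := by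
    have h1 : (L : ℝ) / g = L ^ 101 := by
      rw [hgdef, div_inv_eq_mul, ← pow_succ']
    rw [h1, ← pow_mul]
    exact hNL
  have hpert : (L : ℝ) ^ 20 * (N : ℝ) ^ (-(1 / 4) : ℝ) ≤ ((L : ℝ) ^ 612)⁻¹ := by
    have h1 : (L : ℝ) ^ 2528 ≤ N := (pow_le_pow_right₀ hL1 (by norm_num)).trans hNL
    have h2 : (L : ℝ) ^ 632 ≤ (N : ℝ) ^ (1 / 4 : ℝ) := by
      have h3 : ((L : ℝ) ^ 2528) ^ (1 / 4 : ℝ) ≤ (N : ℝ) ^ (1 / 4 : ℝ) :=
        Real.rpow_le_rpow (by positivity) h1 (by norm_num)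
      have h4 : ((L : ℝ) ^ 2528) ^ (1 / 4 : ℝ) = (L : ℝ) ^ 632 := by
        rw [← Real.rpow_natCast, ← Real.rpow_natCast, ← Real.rpow_mul hL0.le]
        norm_num
      rwa [h4] at h3
    rw [Real.rpow_neg hN0'.le]
    have h5 : ((N : ℝ) ^ (1 / 4 : ℝ))⁻¹ ≤ ((L : ℝ) ^ 632)⁻¹ := inv_anti₀ (by positivity) h2
    calc (L : ℝ) ^ 20 * ((N : ℝ) ^ (1 / 4 : ℝ))⁻¹ ≤ (L : ℝ) ^ 20 * ((L : ℝ) ^ 632)⁻¹ :=
          mul_le_mul_of_nonneg_left h5 (by positivity)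
      _ = ((L : ℝ) ^ 612)⁻¹ := by
          have h6 : (L : ℝ) ^ 632 = L ^ 20 * L ^ 612 := by rw [← pow_add]
          rw [h6, mul_inv, ← mul_assoc, mul_inv_cancel₀ (by positivity), one_mul]
  obtain ⟨P, i1, i2, hPw, hPb⟩ := hBal g (((L : ℝ) ^ 612)⁻¹) L m N r A B hg0 hL100 hg1 hm25 hLg hη0
    hη1 hηg hrL hpert (fun t ht => hAB t (ht.trans_le hNJ))
    (fun s t hs ht => hg2 s t (hs.trans_le hNJ) (ht.trans_le hNJ))
    (fun t ht => hg3 t (ht.trans_le hNJ))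
  rw [hdm] at hPw
  refine ⟨P, i1, i2, hPw, hPb.trans ?_⟩
  have h1 : 8 * (L : ℝ) ^ 612 ≤ x ^ 4000 := by
    calc 8 * (L : ℝ) ^ 612 ≤ x * (x ^ 6) ^ 612 :=
          mul_le_mul hx8 (pow_le_pow_left₀ hL0.le hLx 612) (by positivity) hx0
      _ = x ^ 3673 := by rw [← pow_mul, ← pow_succ']
      _ ≤ x ^ 4000 := pow_le_pow_right₀ hx1 (by norm_num)
  have h2 : 1 / Real.log w ^ 4000 ≤ ((L : ℝ) ^ 612)⁻¹ / 8 := by
    rw [one_div, ← hxdef]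
    calc (x ^ 4000)⁻¹ ≤ (8 * (L : ℝ) ^ 612)⁻¹ := inv_anti₀ (by positivity) h1
      _ = ((L : ℝ) ^ 612)⁻¹ / 8 := by rw [mul_inv]; ring
  linarith

end Pool.Agent.H34.RK
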