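import Pool.Agent.H34.RK.Marg
import Pool.Agent.H34.RK.Pert

set_option autoImplicit false

open Finset MeasureTheory

namespace Pool.Agent.H34.RK

namespace MARG2

open MARG PERT

lemma box2 {T : Type} [Fintype T] [DecidableEq T] (I : T → Set ℝ) (hI : ∀ j, volume (I j) ≠ ⊤)
    (i i' : T) (hne : i ≠ i') (f : ℝ × ℝ → ENNReal) (hf : Measurable f) :
    ∫⁻ s in Set.univ.pi I, f (s i, s i') =
      (∏ j ∈ (univ.erase i).erase i', volume (I j)) * ∫⁻ a in I i, ∫⁻ b in I i', f (a, b) := by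
  have h1 : (volume : Measure (T → ℝ)).restrict (Set.univ.pi I) =
      Measure.pi (fun j => (volume : Measure ℝ).restrict (I j)) := by
    rw [volume_pi, Measure.restrict_pi_pi]
  rw [h1]
  set μ : T → Measure ℝ := fun j => (volume : Measure ℝ).restrict (I j) with hμ
  set c := ∏ j ∈ (univ.erase i).erase i', volume (I j) with hc
  have hct : c ≠ ⊤ := ENNReal.prod_ne_top fun j _ => hI j
  have hfin : IsFiniteMeasure (μ i) := ⟨by
    rw [hμ]
    simp only [Measure.restrict_apply_univ]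
    exact (hI i).lt_top⟩
  have hfin2 : IsFiniteMeasure (c • μ i) := ⟨by
    rw [Measure.smul_apply, smul_eq_mul]
    exact ENNReal.mul_lt_top hct.lt_top (measure_lt_top _ _)⟩
  have hm : Measurable (fun s : T → ℝ => (s i, s i')) :=
    (measurable_pi_apply i).prodMk (measurable_pi_apply i')
  have h3 : Measure.map (fun s : T → ℝ => (s i, s i')) (Measure.pi μ) = (c • μ i).prod (μ i') := by
    symm
    refine Measure.prod_eq fun S U hS hU => ?_
    rw [Measure.map_apply hm (hS.prod hU)]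
    have h4 : (fun s : T → ℝ => (s i, s i')) ⁻¹' (S ×ˢ U) =
        Set.univ.pi (fun j => if j = i then S else if j = i' then U else Set.univ) := by
      ext s
      simp only [Set.mem_preimage, Set.mem_prod, Set.mem_pi, Set.mem_univ, forall_true_left]
      constructor
      · rintro ⟨a, b⟩ j
        by_cases h : j = i
        · rw [if_pos h, h]
          exact a
        · rw [if_neg h]
          by_cases h' : j = i'
          · rw [if_pos h', h']
            exact b
          · rw [if_neg h']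
            trivial
      · intro h
        have a := h i
        have b := h i'
        rw [if_pos rfl] at a
        rw [if_neg (Ne.symm hne), if_pos rfl] at b
        exact ⟨a, b⟩
    rw [h4, Measure.pi_pi, ← Finset.mul_prod_erase univ _ (mem_univ i),
      ← Finset.mul_prod_erase (univ.erase i) _ (mem_erase.2 ⟨Ne.symm hne, mem_univ i'⟩),
      if_pos rfl, if_neg (Ne.symm hne), if_pos rfl]
    have h5 : ∏ j ∈ (univ.erase i).erase i', μ j (if j = i then S else if j = i' then U else Set.univ) =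
        c := by
      rw [hc]
      refine prod_congr rfl fun j hj => ?_
      have hj' := mem_erase.1 hj
      rw [if_neg (mem_erase.1 hj'.2).1, if_neg hj'.1, hμ]
      simp only [Measure.restrict_apply_univ]
    rw [h5, Measure.smul_apply, smul_eq_mul]
    ring
  have h2 := lintegral_map (μ := Measure.pi μ) hf hm
  rw [← h2, h3, lintegral_prod _ hf.aemeasurable, lintegral_smul_measure, smul_eq_mul]

/-- windows -/
def win (φ ψ : ℕ → ℝ) (A B : Finset ℕ) : ({l : ℕ // l ∈ A} ⊕ {l : ℕ // l ∈ B}) → ℝ × ℝ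
  | .inl l => (φ l, 1)
  | .inr l => (0, ψ l)

lemma II_ae (φ ψ : ℕ → ℝ) (A B : Finset ℕ) {x y : ℝ} (hx : 0 < x) (hy : y < 1)
    (j : {l : ℕ // l ∈ A} ⊕ {l : ℕ // l ∈ B}) :
    (II φ ψ A B x y j : Set ℝ) =ᵐ[volume]
      (Set.Ioo x y ∩ Set.Icc (win φ ψ A B j).1 (win φ ψ A B j).2 : Set ℝ) := by
  rcases j with l | l
  · have hne : ∀ᵐ z : ℝ, z ≠ φ l := by
      rw [ae_iff]
      simp
    refine Filter.eventuallyEq_set.2 ?_
    filter_upwards [hne] with z hz
    change z ∈ Set.Ioo (max x (φ l)) y ↔ z ∈ Set.Ioo x y ∩ Set.Icc (φ l) 1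
    constructor
    · rintro ⟨h1, h2⟩
      exact ⟨⟨lt_of_le_of_lt (le_max_left _ _) h1, h2⟩,
        (lt_of_le_of_lt (le_max_right _ _) h1).le, (h2.trans hy).le⟩
    · rintro ⟨⟨h1, h2⟩, h3, h4⟩
      exact ⟨max_lt h1 (lt_of_le_of_ne h3 (Ne.symm hz)), h2⟩
  · have hne : ∀ᵐ z : ℝ, z ≠ ψ l := by
      rw [ae_iff]
      simp
    refine Filter.eventuallyEq_set.2 ?_
    filter_upwards [hne] with z hz
    change z ∈ Set.Ioo x (min y (ψ l)) ↔ z ∈ Set.Ioo x y ∩ Set.Icc 0 (ψ l)
    constructor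
    · rintro ⟨h1, h2⟩
      exact ⟨⟨h1, lt_of_lt_of_le h2 (min_le_left _ _)⟩, (hx.trans h1).le,
        (lt_of_lt_of_le h2 (min_le_right _ _)).le⟩
    · rintro ⟨⟨h1, h2⟩, h3, h4⟩
      exact ⟨h1, lt_min h2 (lt_of_le_of_ne h4 hz)⟩

lemma ofReal_ind (a b z : ℝ) : ENNReal.ofReal (ind a b z) = (Set.Icc a b).indicator (fun _ => 1) z := by
  unfold ind
  by_cases h : a ≤ z ∧ z ≤ b
  · rw [if_pos h, Set.indicator_of_mem (show z ∈ Set.Icc a b from h), ENNReal.ofReal_one]
  · rw [if_neg h, Set.indicator_of_notMem (show z ∉ Set.Icc a b from h), ENNReal.ofReal_zero]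

/-- conversion of integrals -/
lemma conv {f : ℝ → ℝ} {a b : ℝ} (hab : a ≤ b) (hf : IntervalIntegrable f volume a b)
    (h0 : ∀ t, a < t → t < b → 0 ≤ f t) :
    ∫⁻ t in Set.Ioo a b, ENNReal.ofReal (f t) = ENNReal.ofReal (∫ t in a..b, f t) := by
  rw [intervalIntegral.integral_of_le hab, integral_Ioc_eq_integral_Ioo,
    ofReal_integral_eq_lintegral_ofReal]
  · exact ((intervalIntegrable_iff_integrableOn_Ioo_of_le hab).1 hf)
  · exact (ae_restrict_iff' measurableSet_Ioo).2 (Filter.Eventually.of_forall fun t ht => h0 t ht.1 ht.2)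

/-- the two parts -/
noncomputable def PF (h h' : ℝ → ℝ) (p : ℝ × ℝ) : ℝ :=
  (∫ t in (0 : ℝ)..p.2, h' t) * ((∫ t in (0 : ℝ)..p.2, h t) - ∫ t in (0 : ℝ)..p.1, h t) -
    ((∫ t in (0 : ℝ)..p.2, h t * ∫ s in (0 : ℝ)..t, h' s) -
      ∫ t in (0 : ℝ)..p.1, h t * ∫ s in (0 : ℝ)..t, h' s)

noncomputable def NF (h h' : ℝ → ℝ) (p : ℝ × ℝ) : ℝ :=
  ((∫ t in (0 : ℝ)..p.2, h t * ∫ s in (0 : ℝ)..t, h' s) -
      ∫ t in (0 : ℝ)..p.1, h t * ∫ s in (0 : ℝ)..t, h' s) -
    (∫ t in (0 : ℝ)..p.1, h' t) * ((∫ t in (0 : ℝ)..p.2, h t) - ∫ t in (0 : ℝ)..p.1, h t)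

lemma PF_NF (h h' : ℝ → ℝ) (p : ℝ × ℝ) : PF h h' p - NF h h' p = WF h h' p := by
  unfold PF NF WF
  ring

lemma PF_cont {h h' : ℝ → ℝ} (hh : Gd1 h) (hh' : Gd1 h') : Continuous (PF h h') := by
  have c1 := prim_cont hh
  have c2 := prim_cont hh'
  have c3 : Continuous (fun t => ∫ s in (0 : ℝ)..t, h s * ∫ r in (0 : ℝ)..s, h' r) :=
    intervalIntegral.continuous_primitive (fun a b => prod_ii hh c2 a b) 0
  unfold PF
  exact ((c2.comp continuous_snd).mul ((c1.comp continuous_snd).sub (c1.comp continuous_fst))).sub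
    ((c3.comp continuous_snd).sub (c3.comp continuous_fst))

lemma NF_cont {h h' : ℝ → ℝ} (hh : Gd1 h) (hh' : Gd1 h') : Continuous (NF h h') := by
  have c1 := prim_cont hh
  have c2 := prim_cont hh'
  have c3 : Continuous (fun t => ∫ s in (0 : ℝ)..t, h s * ∫ r in (0 : ℝ)..s, h' r) :=
    intervalIntegral.continuous_primitive (fun a b => prod_ii hh c2 a b) 0
  unfold NF
  exact ((c3.comp continuous_snd).sub (c3.comp continuous_fst)).sub
    ((c2.comp continuous_fst).mul ((c1.comp continuous_snd).sub (c1.comp continuous_fst)))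

lemma PF_eq {h h' : ℝ → ℝ} (hh : Gd1 h) (hh' : Gd1 h') (x y : ℝ) :
    PF h h' (x, y) = ∫ z in x..y, h z * ∫ t in z..y, h' t := by
  have c2 := prim_cont hh'
  have e : ∀ z, h z * (∫ t in z..y, h' t) = (∫ t in (0 : ℝ)..y, h' t) * h z -
      h z * ∫ t in (0 : ℝ)..z, h' t := by
    intro z
    rw [← intervalIntegral.integral_interval_sub_left (hh'.li 0 y) (hh'.li 0 z)]
    ring
  simp only [e]
  rw [intervalIntegral.integral_sub ((hh.li x y).const_mul _) (prod_ii hh c2 x y),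
    intervalIntegral.integral_const_mul,
    ← intervalIntegral.integral_interval_sub_left (hh.li 0 y) (hh.li 0 x),
    ← intervalIntegral.integral_interval_sub_left (prod_ii hh c2 0 y) (prod_ii hh c2 0 x)]
  rfl

lemma NF_eq {h h' : ℝ → ℝ} (hh : Gd1 h) (hh' : Gd1 h') (x y : ℝ) :
    NF h h' (x, y) = ∫ z in x..y, h z * ∫ t in x..z, h' t := by
  have c2 := prim_cont hh'
  have e : ∀ z, h z * (∫ t in x..z, h' t) = h z * (∫ t in (0 : ℝ)..z, h' t) -
      (∫ t in (0 : ℝ)..x, h' t) * h z := by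
    intro z
    rw [← intervalIntegral.integral_interval_sub_left (hh'.li 0 z) (hh'.li 0 x)]
    ring
  simp only [e]
  rw [intervalIntegral.integral_sub (prod_ii hh c2 x y) ((hh.li x y).const_mul _),
    intervalIntegral.integral_const_mul,
    ← intervalIntegral.integral_interval_sub_left (hh.li 0 y) (hh.li 0 x),
    ← intervalIntegral.integral_interval_sub_left (prod_ii hh c2 0 y) (prod_ii hh c2 0 x)]
  rfl

lemma ii_ind_up (a b a' b' x y : ℝ) :
    IntervalIntegrable (fun z => ind a b z * ∫ t in z..y, ind a' b' t) volume x y := by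
  have c : Continuous fun z => ∫ t in z..y, ind a' b' t := by
    have h : (fun z => ∫ t in z..y, ind a' b' t) = fun z => (∫ t in (0 : ℝ)..y, ind a' b' t) -
        ∫ t in (0 : ℝ)..z, ind a' b' t := funext fun z =>
      (intervalIntegral.integral_interval_sub_left ((ind_gd a' b').li 0 y) ((ind_gd a' b').li 0 z)).symm
    rw [h]
    exact continuous_const.sub (prim_cont (ind_gd a' b'))
  exact prod_ii (ind_gd a b) c x y

lemma ii_ind_dn (a b a' b' x y : ℝ) :
    IntervalIntegrable (fun z => ind a b z * ∫ t in x..z, ind a' b' t) volume x y := by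
  have c : Continuous fun z => ∫ t in x..z, ind a' b' t :=
    intervalIntegral.continuous_primitive (ind_gd a' b').li x
  exact prod_ii (ind_gd a b) c x y

lemma ind_int_nonneg (a b x y : ℝ) (hxy : x ≤ y) : 0 ≤ ∫ t in x..y, ind a b t :=
  intervalIntegral.integral_nonneg hxy fun t _ => (ind_bd a b t).1

/-- `s < s'` -/
lemma pairUp (a b a' b' : ℝ) {x y : ℝ} (hxy : x ≤ y) :
    ∫⁻ u in (Set.Ioo x y ∩ Set.Icc a b), ∫⁻ v in (Set.Ioo x y ∩ Set.Icc a' b'),
      {p : ℝ × ℝ | p.1 < p.2}.indicator (fun _ => (1 : ENNReal)) (u, v) =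
      ENNReal.ofReal (PF (ind a b) (ind a' b') (x, y)) := by
  classical
  have hin : ∀ u ∈ Set.Ioo x y, ∫⁻ v in (Set.Ioo x y ∩ Set.Icc a' b'),
      {p : ℝ × ℝ | p.1 < p.2}.indicator (fun _ => (1 : ENNReal)) (u, v) =
      ENNReal.ofReal (∫ v in u..y, ind a' b' v) := by
    intro u hu
    rw [← conv hu.2.le ((ind_gd a' b').li u y) (fun t _ _ => (ind_bd _ _ _).1),
      ← lintegral_indicator (measurableSet_Ioo.inter measurableSet_Icc),
      ← lintegral_indicator measurableSet_Ioo]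
    refine lintegral_congr fun v => ?_
    by_cases hv : v ∈ Set.Ioo u y
    · rw [Set.indicator_of_mem hv, ofReal_ind]
      by_cases hv2 : v ∈ Set.Icc a' b'
      · rw [Set.indicator_of_mem hv2, Set.indicator_of_mem
          (show v ∈ Set.Ioo x y ∩ Set.Icc a' b' from ⟨⟨hu.1.trans hv.1, hv.2⟩, hv2⟩),
          Set.indicator_of_mem (show (u, v) ∈ {p : ℝ × ℝ | p.1 < p.2} from hv.1)]
      · rw [Set.indicator_of_notMem hv2, Set.indicator_of_notMem (fun h => hv2 h.2)]
    · rw [Set.indicator_of_notMem hv]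
      by_cases hv3 : v ∈ Set.Ioo x y ∩ Set.Icc a' b'
      · rw [Set.indicator_of_mem hv3, Set.indicator_of_notMem]
        intro h
        exact hv ⟨h, hv3.1.2⟩
      · rw [Set.indicator_of_notMem hv3]
  rw [PF_eq (ind_gd _ _) (ind_gd _ _), ← conv hxy (ii_ind_up a b a' b' x y) (fun t h1 h2 =>
    mul_nonneg (ind_bd _ _ _).1 (ind_int_nonneg _ _ _ _ h2.le)),
    ← lintegral_indicator (measurableSet_Ioo.inter measurableSet_Icc),
    ← lintegral_indicator measurableSet_Ioo]
  refine lintegral_congr fun u => ?_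
  by_cases hu : u ∈ Set.Ioo x y
  · rw [Set.indicator_of_mem hu, ENNReal.ofReal_mul (ind_bd _ _ _).1, ofReal_ind]
    by_cases hu2 : u ∈ Set.Icc a b
    · rw [Set.indicator_of_mem (show u ∈ Set.Ioo x y ∩ Set.Icc a b from ⟨hu, hu2⟩),
        Set.indicator_of_mem hu2, one_mul, hin u hu]
    · rw [Set.indicator_of_notMem (fun h : u ∈ Set.Ioo x y ∩ Set.Icc a b => hu2 h.2),
        Set.indicator_of_notMem hu2, zero_mul]
  · rw [Set.indicator_of_notMem hu,
      Set.indicator_of_notMem (fun h : u ∈ Set.Ioo x y ∩ Set.Icc a b => hu h.1)]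

/-- `s' < s` -/
lemma pairDn (a b a' b' : ℝ) {x y : ℝ} (hxy : x ≤ y) :
    ∫⁻ u in (Set.Ioo x y ∩ Set.Icc a b), ∫⁻ v in (Set.Ioo x y ∩ Set.Icc a' b'),
      {p : ℝ × ℝ | p.2 < p.1}.indicator (fun _ => (1 : ENNReal)) (u, v) =
      ENNReal.ofReal (NF (ind a b) (ind a' b') (x, y)) := by
  classical
  have hin : ∀ u ∈ Set.Ioo x y, ∫⁻ v in (Set.Ioo x y ∩ Set.Icc a' b'),
      {p : ℝ × ℝ | p.2 < p.1}.indicator (fun _ => (1 : ENNReal)) (u, v) =
      ENNReal.ofReal (∫ v in x..u, ind a' b' v) := by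
    intro u hu
    rw [← conv hu.1.le ((ind_gd a' b').li x u) (fun t _ _ => (ind_bd _ _ _).1),
      ← lintegral_indicator (measurableSet_Ioo.inter measurableSet_Icc),
      ← lintegral_indicator measurableSet_Ioo]
    refine lintegral_congr fun v => ?_
    by_cases hv : v ∈ Set.Ioo x u
    · rw [Set.indicator_of_mem hv, ofReal_ind]
      by_cases hv2 : v ∈ Set.Icc a' b'
      · rw [Set.indicator_of_mem hv2, Set.indicator_of_mem
          (show v ∈ Set.Ioo x y ∩ Set.Icc a' b' from ⟨⟨hv.1, hv.2.trans hu.2⟩, hv2⟩),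
          Set.indicator_of_mem (show (u, v) ∈ {p : ℝ × ℝ | p.2 < p.1} from hv.2)]
      · rw [Set.indicator_of_notMem hv2, Set.indicator_of_notMem (fun h => hv2 h.2)]
    · rw [Set.indicator_of_notMem hv]
      by_cases hv3 : v ∈ Set.Ioo x y ∩ Set.Icc a' b'
      · rw [Set.indicator_of_mem hv3, Set.indicator_of_notMem]
        intro h
        exact hv ⟨hv3.1.1, h⟩
      · rw [Set.indicator_of_notMem hv3]
  rw [NF_eq (ind_gd _ _) (ind_gd _ _), ← conv hxy (ii_ind_dn a b a' b' x y) (fun t h1 h2 =>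
    mul_nonneg (ind_bd _ _ _).1 (ind_int_nonneg _ _ _ _ h1.le)),
    ← lintegral_indicator (measurableSet_Ioo.inter measurableSet_Icc),
    ← lintegral_indicator measurableSet_Ioo]
  refine lintegral_congr fun u => ?_
  by_cases hu : u ∈ Set.Ioo x y
  · rw [Set.indicator_of_mem hu, ENNReal.ofReal_mul (ind_bd _ _ _).1, ofReal_ind]
    by_cases hu2 : u ∈ Set.Icc a b
    · rw [Set.indicator_of_mem (show u ∈ Set.Ioo x y ∩ Set.Icc a b from ⟨hu, hu2⟩),
        Set.indicator_of_mem hu2, one_mul, hin u hu]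
    · rw [Set.indicator_of_notMem (fun h : u ∈ Set.Ioo x y ∩ Set.Icc a b => hu2 h.2),
        Set.indicator_of_notMem hu2, zero_mul]
  · rw [Set.indicator_of_notMem hu,
      Set.indicator_of_notMem (fun h : u ∈ Set.Ioo x y ∩ Set.Icc a b => hu h.1)]

lemma PF_nonneg (a b a' b' : ℝ) {x y : ℝ} (hxy : x ≤ y) : 0 ≤ PF (ind a b) (ind a' b') (x, y) := by
  rw [PF_eq (ind_gd _ _) (ind_gd _ _)]
  exact intervalIntegral.integral_nonneg hxy fun t ht =>
    mul_nonneg (ind_bd _ _ _).1 (ind_int_nonneg _ _ _ _ ht.2)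

lemma NF_nonneg (a b a' b' : ℝ) {x y : ℝ} (hxy : x ≤ y) : 0 ≤ NF (ind a b) (ind a' b') (x, y) := by
  rw [NF_eq (ind_gd _ _) (ind_gd _ _)]
  exact intervalIntegral.integral_nonneg hxy fun t ht =>
    mul_nonneg (ind_bd _ _ _).1 (ind_int_nonneg _ _ _ _ ht.1)

open Classical in
/-- the volume for one of the two orders -/
lemma vol (φ ψ : ℕ → ℝ) (A B : Finset ℕ) (s s' : {l : ℕ // l ∈ A} ⊕ {l : ℕ // l ∈ B}) (hss : s ≠ s')
    (A' B' : Finset ℕ)
    (hK : ∀ x y, ∏ j ∈ (univ.erase s).erase s', volume (II φ ψ A B x y j) =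
      ENNReal.ofReal (KT φ ψ A' B' x y))
    (E : Set (ℝ × ℝ)) (hE : MeasurableSet E) (F : ℝ × ℝ → ℝ) (hF : Continuous F)
    (hF0 : ∀ x y, x ≤ y → 0 ≤ F (x, y))
    (hEF : ∀ x y, x ≤ y → ∫⁻ u in (Set.Ioo x y ∩ Set.Icc (win φ ψ A B s).1 (win φ ψ A B s).2),
      ∫⁻ v in (Set.Ioo x y ∩ Set.Icc (win φ ψ A B s').1 (win φ ψ A B s').2),
      E.indicator (fun _ => (1 : ENNReal)) (u, v) = ENNReal.ofReal (F (x, y))) :
    (volume {ω ∈ GS φ ψ A B | (ω (.inr s), ω (.inr s')) ∈ E}).toReal =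
      ∫ x in (0 : ℝ)..1, ∫ y in x..1, KT φ ψ A' B' x y * F (x, y) := by
  have hm : Measurable fun ω : Gd A B → ℝ => (ω (.inr s), ω (.inr s')) :=
    (measurable_pi_apply _).prodMk (measurable_pi_apply _)
  have hset : MeasurableSet {ω ∈ GS φ ψ A B | (ω (.inr s), ω (.inr s')) ∈ E} :=
    (meas_GS φ ψ A B).inter (hm hE)
  have h1 : volume {ω ∈ GS φ ψ A B | (ω (.inr s), ω (.inr s')) ∈ E} =
      ∫⁻ x : ℝ, ∫⁻ y : ℝ, if 0 < x ∧ x < y ∧ y < 1 then
        (1 : ENNReal) * ENNReal.ofReal (KT φ ψ A' B' x y * F (x, y)) else 0 := by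
    rw [← lintegral_indicator_one hset, gad _ (measurable_one.indicator hset)]
    refine lintegral_congr fun x => lintegral_congr fun y => ?_
    have hpi : MeasurableSet (Set.univ.pi (II φ ψ A B x y)) := by
      refine MeasurableSet.univ_pi fun i => ?_
      rcases i with l | l
      · exact measurableSet_Ioo
      · exact measurableSet_Ioo
    split_ifs with h
    · have e1 : ∫⁻ σ : ({l : ℕ // l ∈ A} ⊕ {l : ℕ // l ∈ B}) → ℝ,
          ({ω ∈ GS φ ψ A B | (ω (.inr s), ω (.inr s')) ∈ E}).indicator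
            (1 : (Gd A B → ℝ) → ENNReal) (Sum.elim (cc x y) σ) =
          ∫⁻ σ in Set.univ.pi (II φ ψ A B x y), E.indicator (fun _ => (1 : ENNReal)) (σ s, σ s') := by
        rw [← lintegral_indicator hpi]
        refine lintegral_congr fun σ => ?_
        by_cases hσ : σ ∈ Set.univ.pi (II φ ψ A B x y)
        · rw [Set.indicator_of_mem hσ]
          by_cases hE' : (σ s, σ s') ∈ E
          · rw [Set.indicator_of_mem hE', Set.indicator_of_mem]
            · rfl
            · exact ⟨(mem_GS x y σ).2 ⟨h, hσ⟩, hE'⟩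
          · rw [Set.indicator_of_notMem hE', Set.indicator_of_notMem]
            intro h'
            exact hE' h'.2
        · rw [Set.indicator_of_notMem hσ, Set.indicator_of_notMem]
          intro h'
          exact hσ ((mem_GS x y σ).1 h'.1).2
      rw [e1, box2 _ (fun j => ?_) s s' hss _ (measurable_const.indicator hE), hK]
      · rw [Measure.restrict_congr_set (II_ae φ ψ A B h.1 h.2.2 s)]
        have e2 : ∀ u, ∫⁻ v in II φ ψ A B x y s', E.indicator (fun _ => (1 : ENNReal)) (u, v) =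
            ∫⁻ v in (Set.Ioo x y ∩ Set.Icc (win φ ψ A B s').1 (win φ ψ A B s').2),
              E.indicator (fun _ => (1 : ENNReal)) (u, v) := by
          intro u
          rw [Measure.restrict_congr_set (II_ae φ ψ A B h.1 h.2.2 s')]
        simp only [e2]
        rw [hEF x y h.2.1.le, one_mul, ENNReal.ofReal_mul (KT_nonneg _ _ _ _ _ _)]
      · rcases j with l | l
        · change volume (Set.Ioo (max x (φ l)) y) ≠ ⊤
          rw [Real.volume_Ioo]
          exact ENNReal.ofReal_ne_top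
        · change volume (Set.Ioo x (min y (ψ l))) ≠ ⊤
          rw [Real.volume_Ioo]
          exact ENNReal.ofReal_ne_top
    · rw [← lintegral_zero (μ := (volume : Measure (({l : ℕ // l ∈ A} ⊕ {l : ℕ // l ∈ B}) → ℝ)))]
      refine lintegral_congr fun σ => ?_
      rw [Set.indicator_of_notMem fun h' => h ((mem_GS x y σ).1 h'.1).1]
  have cj : Continuous (fun p : ℝ × ℝ => KT φ ψ A' B' p.1 p.2 * F p) := (kt_cont φ ψ A' B').mul hF
  have h2 : volume {ω ∈ GS φ ψ A B | (ω (.inr s), ω (.inr s')) ∈ E} =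
      ENNReal.ofReal (∫ x in (0 : ℝ)..1, ∫ y in x..1, KT φ ψ A' B' x y * F (x, y)) := by
    rw [h1, dbl1 (fun x y => ENNReal.ofReal (KT φ ψ A' B' x y * F (x, y))) (fun _ => 1) (fun x =>
      ENNReal.measurable_ofReal.comp
        (cj.comp (by fun_prop : Continuous fun y : ℝ => (x, y))).measurable)]
    have hc : Continuous fun x => ∫ y in x..1, KT φ ψ A' B' x y * F (x, y) :=
      REG.cint (f := fun x y => KT φ ψ A' B' x y * F (x, y)) cj continuous_id continuous_const
    rw [← conv zero_le_one (hc.intervalIntegrable _ _) (fun x _ hx1 =>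
      intervalIntegral.integral_nonneg hx1.le fun y hy =>
        mul_nonneg (kt_nonneg _ _ _ _ _ _) (hF0 x y hy.1))]
    refine setLIntegral_congr_fun measurableSet_Ioo fun x hx => ?_
    simp only [one_mul]
    exact conv hx.2.le ((cj.comp (by fun_prop : Continuous fun y : ℝ => (x, y))).intervalIntegrable _ _)
      (fun y hy _ => mul_nonneg (kt_nonneg _ _ _ _ _ _) (hF0 x y hy.le))
  rw [h2, ENNReal.toReal_ofReal]
  exact intervalIntegral.integral_nonneg zero_le_one fun x hx =>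
    intervalIntegral.integral_nonneg hx.2 fun y hy =>
      mul_nonneg (kt_nonneg _ _ _ _ _ _) (hF0 x y hy.1)

open Classical in
lemma core (φ ψ : ℕ → ℝ) (A B : Finset ℕ) (s s' : {l : ℕ // l ∈ A} ⊕ {l : ℕ // l ∈ B}) (hss : s ≠ s')
    (A' B' : Finset ℕ)
    (hK : ∀ x y, ∏ j ∈ (univ.erase s).erase s', volume (II φ ψ A B x y j) =
      ENNReal.ofReal (KT φ ψ A' B' x y)) :
    (volume {ω ∈ GS φ ψ A B | ω (.inr s) < ω (.inr s')}).toReal -
      (volume {ω ∈ GS φ ψ A B | ω (.inr s') < ω (.inr s)}).toReal =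
      WS φ ψ A' B' (win φ ψ A B s).1 (win φ ψ A B s).2 (win φ ψ A B s').1 (win φ ψ A B s').2 := by
  have v1 := vol φ ψ A B s s' hss A' B' hK {p : ℝ × ℝ | p.1 < p.2}
    (measurableSet_lt measurable_fst measurable_snd) _ (PF_cont (ind_gd _ _) (ind_gd _ _))
    (fun x y hxy => PF_nonneg _ _ _ _ hxy) (fun x y hxy => pairUp _ _ _ _ hxy)
  have v2 := vol φ ψ A B s s' hss A' B' hK {p : ℝ × ℝ | p.2 < p.1}
    (measurableSet_lt measurable_snd measurable_fst) _ (NF_cont (ind_gd _ _) (ind_gd _ _))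
    (fun x y hxy => NF_nonneg _ _ _ _ hxy) (fun x y hxy => pairDn _ _ _ _ hxy)
  set P : ℝ × ℝ → ℝ := PF (ind (win φ ψ A B s).1 (win φ ψ A B s).2)
    (ind (win φ ψ A B s').1 (win φ ψ A B s').2) with hP
  set N : ℝ × ℝ → ℝ := NF (ind (win φ ψ A B s).1 (win φ ψ A B s).2)
    (ind (win φ ψ A B s').1 (win φ ψ A B s').2) with hN
  have cP : Continuous P := PF_cont (ind_gd _ _) (ind_gd _ _)
  have cN : Continuous N := NF_cont (ind_gd _ _) (ind_gd _ _)
  have cj1 : Continuous (fun p : ℝ × ℝ => KT φ ψ A' B' p.1 p.2 * P p) := (kt_cont φ ψ A' B').mul cP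
  have cj2 : Continuous (fun p : ℝ × ℝ => KT φ ψ A' B' p.1 p.2 * N p) := (kt_cont φ ψ A' B').mul cN
  have co1 : Continuous (fun x : ℝ => ∫ y in x..1, KT φ ψ A' B' x y * P (x, y)) :=
    REG.cint (f := fun x y => KT φ ψ A' B' x y * P (x, y)) cj1 continuous_id continuous_const
  have co2 : Continuous (fun x : ℝ => ∫ y in x..1, KT φ ψ A' B' x y * N (x, y)) :=
    REG.cint (f := fun x y => KT φ ψ A' B' x y * N (x, y)) cj2 continuous_id continuous_const
  have hfin : (∫ x in (0 : ℝ)..1, ∫ y in x..1, KT φ ψ A' B' x y * P (x, y)) -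
      (∫ x in (0 : ℝ)..1, ∫ y in x..1, KT φ ψ A' B' x y * N (x, y)) =
      WS φ ψ A' B' (win φ ψ A B s).1 (win φ ψ A B s).2 (win φ ψ A B s').1 (win φ ψ A B s').2 := by
    rw [WS_eq, ← intervalIntegral.integral_sub (co1.intervalIntegrable _ _)
      (co2.intervalIntegrable _ _)]
    refine intervalIntegral.integral_congr fun x _ => ?_
    have i1 : IntervalIntegrable (fun y => KT φ ψ A' B' x y * P (x, y)) volume x 1 :=
      (cj1.comp (by fun_prop : Continuous fun y : ℝ => (x, y))).intervalIntegrable _ _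
    have i2 : IntervalIntegrable (fun y => KT φ ψ A' B' x y * N (x, y)) volume x 1 :=
      (cj2.comp (by fun_prop : Continuous fun y : ℝ => (x, y))).intervalIntegrable _ _
    change (∫ y in x..1, KT φ ψ A' B' x y * P (x, y)) - (∫ y in x..1, KT φ ψ A' B' x y * N (x, y)) = _
    rw [← intervalIntegral.integral_sub i1 i2]
    refine intervalIntegral.integral_congr fun y _ => ?_
    change KT φ ψ A' B' x y * P (x, y) - KT φ ψ A' B' x y * N (x, y) = _
    rw [← mul_sub, hP, hN, PF_NF]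
  rw [← hfin, ← v1, ← v2]
  rfl

lemma prod_erase2_ite {T : Type} [Fintype T] [DecidableEq T] (h : T → ENNReal) (i i' : T) (hne : i ≠ i') :
    ∏ j ∈ (univ.erase i).erase i', h j = ∏ j, if j = i ∨ j = i' then 1 else h j := by
  rw [← Finset.mul_prod_erase univ _ (mem_univ i),
    ← Finset.mul_prod_erase (univ.erase i) _ (mem_erase.2 ⟨Ne.symm hne, mem_univ i'⟩)]
  simp only [true_or, or_true, if_true, one_mul]
  refine Finset.prod_congr rfl fun j hj => ?_
  have hj' := mem_erase.1 hj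
  rw [if_neg]
  rintro (h | h)
  · exact (mem_erase.1 hj'.2).1 h
  · exact hj'.1 h

lemma prod_nat2 (A : Finset ℕ) (h : ℕ → ENNReal) (l l' : ℕ) (hl : l ∈ A) (hl' : l' ∈ A) (hne : l ≠ l') :
    ∏ j ∈ A, (if j = l ∨ j = l' then 1 else h j) = ∏ j ∈ (A.erase l).erase l', h j := by
  rw [← Finset.mul_prod_erase A _ hl,
    ← Finset.mul_prod_erase (A.erase l) _ (mem_erase.2 ⟨Ne.symm hne, hl'⟩)]
  simp only [true_or, or_true, if_true, one_mul]
  refine Finset.prod_congr rfl fun j hj => ?_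
  have hj' := mem_erase.1 hj
  rw [if_neg]
  rintro (h | h)
  · exact (mem_erase.1 hj'.2).1 h
  · exact hj'.1 h

open Classical in
lemma prod_ll (φ ψ : ℕ → ℝ) (A B : Finset ℕ) (x y : ℝ) (l l' : {l : ℕ // l ∈ A}) (hne : l ≠ l') :
    ∏ j ∈ (univ.erase (.inl l)).erase (.inl l'), volume (II φ ψ A B x y j) =
      ENNReal.ofReal (KT φ ψ ((A.erase l).erase l') B x y) := by
  rw [ofReal_KT, prod_erase2_ite _ _ _ (fun h => hne (Sum.inl.inj h)), Fintype.prod_sum_type]
  simp only [vol_inl, vol_inr, Sum.inl.injEq, reduceCtorEq, or_self, if_false]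
  have h1 : ∀ j : {l : ℕ // l ∈ A}, (if j = l ∨ j = l' then (1 : ENNReal) else
      ENNReal.ofReal (max (y - max x (φ j)) 0)) =
      (fun j : ℕ => if j = (l : ℕ) ∨ j = (l' : ℕ) then (1 : ENNReal) else
        ENNReal.ofReal (max (y - max x (φ j)) 0)) j := by
    intro j
    simp only [Subtype.ext_iff]
  rw [Finset.prod_congr rfl fun j _ => h1 j,
    Finset.prod_coe_sort A (fun j : ℕ => if j = (l : ℕ) ∨ j = (l' : ℕ) then (1 : ENNReal) else
      ENNReal.ofReal (max (y - max x (φ j)) 0)),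
    prod_nat2 A _ _ _ l.2 l'.2 (fun h => hne (Subtype.ext h)),
    Finset.prod_coe_sort B (fun l => ENNReal.ofReal (max (min y (ψ l) - x) 0))]

open Classical in
lemma prod_rr (φ ψ : ℕ → ℝ) (A B : Finset ℕ) (x y : ℝ) (l l' : {l : ℕ // l ∈ B}) (hne : l ≠ l') :
    ∏ j ∈ (univ.erase (.inr l)).erase (.inr l'), volume (II φ ψ A B x y j) =
      ENNReal.ofReal (KT φ ψ A ((B.erase l).erase l') x y) := by
  rw [ofReal_KT, prod_erase2_ite _ _ _ (fun h => hne (Sum.inr.inj h)), Fintype.prod_sum_type]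
  simp only [vol_inl, vol_inr, Sum.inr.injEq, reduceCtorEq, or_self, if_false]
  have h1 : ∀ j : {l : ℕ // l ∈ B}, (if j = l ∨ j = l' then (1 : ENNReal) else
      ENNReal.ofReal (max (min y (ψ j) - x) 0)) =
      (fun j : ℕ => if j = (l : ℕ) ∨ j = (l' : ℕ) then (1 : ENNReal) else
        ENNReal.ofReal (max (min y (ψ j) - x) 0)) j := by
    intro j
    simp only [Subtype.ext_iff]
  rw [Finset.prod_congr rfl fun j _ => h1 j,
    Finset.prod_coe_sort A (fun l => ENNReal.ofReal (max (y - max x (φ l)) 0)),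
    Finset.prod_coe_sort B (fun j : ℕ => if j = (l : ℕ) ∨ j = (l' : ℕ) then (1 : ENNReal) else
      ENNReal.ofReal (max (min y (ψ j) - x) 0)),
    prod_nat2 B _ _ _ l.2 l'.2 (fun h => hne (Subtype.ext h))]

open Classical in
lemma prod_lr (φ ψ : ℕ → ℝ) (A B : Finset ℕ) (x y : ℝ) (l : {l : ℕ // l ∈ A}) (l' : {l : ℕ // l ∈ B}) :
    ∏ j, (if j = (.inl l : {l : ℕ // l ∈ A} ⊕ {l : ℕ // l ∈ B}) ∨ j = .inr l' then (1 : ENNReal) else
      volume (II φ ψ A B x y j)) = ENNReal.ofReal (KT φ ψ (A.erase l) (B.erase l') x y) := by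
  rw [ofReal_KT, Fintype.prod_sum_type]
  simp only [vol_inl, vol_inr, Sum.inl.injEq, Sum.inr.injEq, reduceCtorEq, or_false, false_or]
  have h1 : ∀ j : {l : ℕ // l ∈ A}, (if j = l then (1 : ENNReal) else
      ENNReal.ofReal (max (y - max x (φ j)) 0)) =
      (fun j : ℕ => if j = (l : ℕ) then (1 : ENNReal) else
        ENNReal.ofReal (max (y - max x (φ j)) 0)) j := by
    intro j
    simp only [Subtype.ext_iff]
  have h2 : ∀ j : {l : ℕ // l ∈ B}, (if j = l' then (1 : ENNReal) else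
      ENNReal.ofReal (max (min y (ψ j) - x) 0)) =
      (fun j : ℕ => if j = (l' : ℕ) then (1 : ENNReal) else
        ENNReal.ofReal (max (min y (ψ j) - x) 0)) j := by
    intro j
    simp only [Subtype.ext_iff]
  rw [Finset.prod_congr rfl fun j _ => h1 j, Finset.prod_congr rfl fun j _ => h2 j,
    Finset.prod_coe_sort A (fun j : ℕ => if j = (l : ℕ) then (1 : ENNReal) else
      ENNReal.ofReal (max (y - max x (φ j)) 0)),
    Finset.prod_coe_sort B (fun j : ℕ => if j = (l' : ℕ) then (1 : ENNReal) else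
      ENNReal.ofReal (max (min y (ψ j) - x) 0)),
    prod_nat A _ _ l.2, prod_nat B _ _ l'.2]

end MARG2

open MARG2 in
theorem marg2 : S_MARG2 := by
  classical
  intro φ ψ A B s s' hss
  rcases s with l | l <;> rcases s' with l' | l'
  · exact core φ ψ A B _ _ hss ((A.erase l).erase l') B
      (fun x y => by convert prod_ll φ ψ A B x y l l' (fun h => hss (by rw [h])))
  · refine core φ ψ A B _ _ hss (A.erase l) (B.erase l') (fun x y => ?_)
    rw [← prod_lr φ ψ A B x y l l', prod_erase2_ite _ _ _ hss]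
  · refine core φ ψ A B _ _ hss (A.erase l') (B.erase l) (fun x y => ?_)
    rw [← prod_lr φ ψ A B x y l' l, prod_erase2_ite _ _ _ hss]
    refine Finset.prod_congr rfl fun j _ => ?_
    simp only [or_comm]
  · exact core φ ψ A B _ _ hss A ((B.erase l).erase l')
      (fun x y => by convert prod_rr φ ψ A B x y l l' (fun h => hss (by rw [h])))


end Pool.Agent.H34.RK
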