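import Pool.Agent.H34.RK.Stm3

/-!
RK-OPVS: the set of the labelings is nonempty and is the order polytope.
-/

set_option autoImplicit false

open Finset MeasureTheory

namespace Pool.Agent.H34.RK

theorem phi_zero {L : ℕ} (θ : Fin L ⊕ Fin L → ℝ) : phi θ 0 = 0 := by
  unfold phi
  rw [dif_neg (by omega)]

theorem psi_zero {L : ℕ} (θ : Fin L ⊕ Fin L → ℝ) : psi θ 0 = 1 := by
  unfold psi
  rw [dif_neg (by omega)]

theorem phi_succ {L : ℕ} (θ : Fin L ⊕ Fin L → ℝ) (i : Fin L) : phi θ (i + 1) = θ (.inl i) := by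
  unfold phi
  rw [dif_pos ⟨by omega, i.2⟩]
  congr 2

theorem psi_succ {L : ℕ} (θ : Fin L ⊕ Fin L → ℝ) (i : Fin L) : psi θ (i + 1) = θ (.inr i) := by
  unfold psi
  rw [dif_pos ⟨by omega, i.2⟩]
  congr 2

/-- an index is zero or a successor -/
theorem idx_cases {L : ℕ} (l : ℕ) (h : l ≤ L) : l = 0 ∨ ∃ i : Fin L, l = i + 1 := by
  rcases Nat.eq_zero_or_pos l with h0 | h0
  · exact Or.inl h0
  · exact Or.inr ⟨⟨l - 1, by omega⟩, by simp only; omega⟩

section

variable {L N : ℕ} {us vs : ℕ → ℕ} {A B : ℕ → Finset ℕ}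

/-- the special labeling -/
noncomputable def lab0 (L N : ℕ) (us vs : ℕ → ℕ) (A B : ℕ → Finset ℕ)
    (z : (Σ t : Fin N, {l : ℕ // l ∈ A t} ⊕ {l : ℕ // l ∈ B t}) → ℝ) :
    El L N us vs A B → ℝ
  | .inl (.inl ⟨i, j⟩) => ((i : ℕ) + ((j : ℕ) + 1) / ((us i : ℕ) + 1 : ℝ)) / (4 * L)
  | .inl (.inr ⟨i, j⟩) => 1 - ((i : ℕ) + 1) / (4 * L) + (((j : ℕ) + 1) / ((vs i : ℕ) + 1 : ℝ)) / (4 * L)
  | .inr (.inl (.inl i)) => ((i : ℕ) + 1) / (4 * L)
  | .inr (.inl (.inr i)) => 1 - ((i : ℕ) + 1) / (4 * L)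
  | .inr (.inr ⟨_, .inl false⟩) => 1 / 3
  | .inr (.inr ⟨_, .inl true⟩) => 2 / 3
  | .inr (.inr ⟨t, .inr s⟩) => z ⟨t, s⟩

theorem phi_lab (z : (Σ t : Fin N, {l : ℕ // l ∈ A t} ⊕ {l : ℕ // l ∈ B t}) → ℝ) (l : ℕ)
    (hl : l ≤ L) : phi (fun i => lab0 L N us vs A B z (.inr (.inl i))) l = l / (4 * L) := by
  rcases idx_cases l hl with rfl | ⟨i, rfl⟩
  · rw [phi_zero]; simp
  · rw [phi_succ]
    simp [lab0]

theorem psi_lab (z : (Σ t : Fin N, {l : ℕ // l ∈ A t} ⊕ {l : ℕ // l ∈ B t}) → ℝ) (l : ℕ)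
    (hl : l ≤ L) : psi (fun i => lab0 L N us vs A B z (.inr (.inl i))) l = 1 - l / (4 * L) := by
  rcases idx_cases l hl with rfl | ⟨i, rfl⟩
  · rw [psi_zero]; simp
  · rw [psi_succ]
    simp [lab0]

theorem lab_mem (hL : 1 ≤ L) (hAB : ∀ t < N, Sub1 L (A t) ∧ Sub1 L (B t))
    (z : (Σ t : Fin N, {l : ℕ // l ∈ A t} ⊕ {l : ℕ // l ∈ B t}) → ℝ)
    (hz : ∀ s, 1 / 3 < z s ∧ z s < 2 / 3) : lab0 L N us vs A B z ∈ VS L N us vs A B := by
  have hL0 : (0 : ℝ) < 4 * L := by positivity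
  have hi1 : ∀ i : Fin L, ((i : ℕ) : ℝ) + 1 ≤ L := fun i => by exact_mod_cast i.2
  have hi0 : ∀ i : Fin L, (0 : ℝ) ≤ ((i : ℕ) : ℝ) := fun i => by positivity
  have hq : ∀ i : Fin L, 0 < (((i : ℕ) : ℝ) + 1) / (4 * L) ∧ (((i : ℕ) : ℝ) + 1) / (4 * L) ≤ 1 / 4 := by
    intro i
    refine ⟨by positivity, ?_⟩
    rw [div_le_div_iff₀ hL0 (by norm_num)]
    linarith [hi1 i]
  have hfr : ∀ (u j : ℕ), j < u → 0 < ((j : ℝ) + 1) / ((u : ℝ) + 1) ∧ ((j : ℝ) + 1) / ((u : ℝ) + 1) < 1 := by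
    intro u j hj
    refine ⟨by positivity, ?_⟩
    rw [div_lt_one (by positivity)]
    have : (j : ℝ) < u := by exact_mod_cast hj
    linarith
  have hfl : ∀ (u j j' : ℕ), j < j' → ((j : ℝ) + 1) / ((u : ℝ) + 1) < ((j' : ℝ) + 1) / ((u : ℝ) + 1) := by
    intro u j j' hj
    have : (j : ℝ) < j' := by exact_mod_cast hj
    gcongr
  refine ⟨⟨?_, ?_, ?_, ?_⟩, ?_, ?_, ?_, ?_, ?_⟩
  · rintro (i | i)
    · show 0 < (((i : ℕ) : ℝ) + 1) / (4 * L) ∧ (((i : ℕ) : ℝ) + 1) / (4 * L) < 1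
      have := hq i
      constructor <;> linarith
    · show 0 < 1 - (((i : ℕ) : ℝ) + 1) / (4 * L) ∧ 1 - (((i : ℕ) : ℝ) + 1) / (4 * L) < 1
      have := hq i
      constructor <;> linarith
  · intro l hl
    rw [phi_lab z l hl.le, phi_lab z (l + 1) hl]
    push_cast
    gcongr
    linarith
  · intro l hl
    rw [psi_lab z l hl.le, psi_lab z (l + 1) hl]
    push_cast
    have : (l : ℝ) / (4 * L) < ((l : ℝ) + 1) / (4 * L) := by
      gcongr
      linarith
    linarith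
  · rw [phi_lab z L le_rfl, psi_lab z L le_rfl]
    have h1 : (L : ℝ) / (4 * L) = 1 / 4 := by
      have : (L : ℝ) ≠ 0 := by positivity
      field_simp
    rw [h1]; norm_num
  · intro i j j' hj
    show ((i : ℕ) + ((j : ℕ) + 1) / ((us i : ℕ) + 1 : ℝ)) / (4 * L) <
      ((i : ℕ) + ((j' : ℕ) + 1) / ((us i : ℕ) + 1 : ℝ)) / (4 * L)
    have := hfl (us i) j j' hj
    gcongr
  · intro i j
    rw [phi_lab z i i.2.le, phi_lab z (i + 1) i.2]
    show ((i : ℕ) : ℝ) / (4 * L) < ((i : ℕ) + ((j : ℕ) + 1) / ((us i : ℕ) + 1 : ℝ)) / (4 * L) ∧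
      ((i : ℕ) + ((j : ℕ) + 1) / ((us i : ℕ) + 1 : ℝ)) / (4 * L) < (((i : ℕ) + 1 : ℕ) : ℝ) / (4 * L)
    have := hfr (us i) j j.2
    push_cast
    constructor <;> gcongr <;> linarith
  · intro i j j' hj
    show 1 - ((i : ℕ) + 1) / (4 * L) + (((j : ℕ) + 1) / ((vs i : ℕ) + 1 : ℝ)) / (4 * L) <
      1 - ((i : ℕ) + 1) / (4 * L) + (((j' : ℕ) + 1) / ((vs i : ℕ) + 1 : ℝ)) / (4 * L)
    have := hfl (vs i) j j' hj
    gcongr
  · intro i j
    rw [psi_lab z i i.2.le, psi_lab z (i + 1) i.2]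
    show 1 - (((i : ℕ) + 1 : ℕ) : ℝ) / (4 * L) <
      1 - ((i : ℕ) + 1) / (4 * L) + (((j : ℕ) + 1) / ((vs i : ℕ) + 1 : ℝ)) / (4 * L) ∧
      1 - ((i : ℕ) + 1) / (4 * L) + (((j : ℕ) + 1) / ((vs i : ℕ) + 1 : ℝ)) / (4 * L) <
        1 - ((i : ℕ) : ℝ) / (4 * L)
    have h1 := hfr (vs i) j j.2
    push_cast
    have h2 : 0 < (((j : ℕ) + 1) / ((vs i : ℕ) + 1 : ℝ)) / (4 * L) := by positivity
    have h3 : (((j : ℕ) + 1) / ((vs i : ℕ) + 1 : ℝ)) / (4 * L) < 1 / (4 * L) := by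
      gcongr
      exact h1.2
    have h4 : (((i : ℕ) : ℝ) + 1) / (4 * L) = ((i : ℕ) : ℝ) / (4 * L) + 1 / (4 * L) := by ring
    constructor <;> linarith
  · intro t
    refine ⟨?_, ?_, ?_, ?_, ?_⟩
    · rintro (e | s)
      · cases e
        · show (0 : ℝ) < 1 / 3 ∧ (1 : ℝ) / 3 < 1
          norm_num
        · show (0 : ℝ) < 2 / 3 ∧ (2 : ℝ) / 3 < 1
          norm_num
      · show 0 < z ⟨t, s⟩ ∧ z ⟨t, s⟩ < 1
        have := hz ⟨t, s⟩
        constructor <;> linarith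
    · show (1 : ℝ) / 3 < 2 / 3
      norm_num
    · intro s
      exact hz ⟨t, s⟩
    · intro l
      have h1 := (hAB t t.2).1 l l.2
      rw [phi_lab z l h1.2]
      show ((l : ℕ) : ℝ) / (4 * L) < z ⟨t, .inl l⟩
      have h2 := hz ⟨t, .inl l⟩
      have h3 : ((l : ℕ) : ℝ) / (4 * L) ≤ 1 / 4 := by
        rw [div_le_div_iff₀ hL0 (by norm_num)]
        have : ((l : ℕ) : ℝ) ≤ L := by exact_mod_cast h1.2
        linarith
      linarith [h2.1]
    · intro l
      have h1 := (hAB t t.2).2 l l.2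
      rw [psi_lab z l h1.2]
      show z ⟨t, .inr l⟩ < 1 - ((l : ℕ) : ℝ) / (4 * L)
      have h2 := hz ⟨t, .inr l⟩
      have h3 : ((l : ℕ) : ℝ) / (4 * L) ≤ 1 / 4 := by
        rw [div_le_div_iff₀ hL0 (by norm_num)]
        have : ((l : ℕ) : ℝ) ≤ L := by exact_mod_cast h1.2
        linarith
      linarith [h2.2]

/-- the strict order -/
theorem po_lt (hne : (VS L N us vs A B).Nonempty) (a b : El L N us vs A B) :
    (@LT.lt _ (po L N us vs A B hne).toLT a b) ↔ ∀ f ∈ VS L N us vs A B, f a < f b := by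
  constructor
  · rintro ⟨h1, h2⟩
    rcases h1 with rfl | h1
    · exact absurd (Or.inl rfl) h2
    · exact h1
  · intro h
    refine ⟨Or.inr h, ?_⟩
    obtain ⟨f, hf⟩ := hne
    rintro (rfl | h2)
    · exact lt_irrefl _ (h f hf)
    · exact lt_asymm (h f hf) (h2 f hf)

/-- values of the frontiers of a labeling in `VS` -/
theorem phi_nn {f : El L N us vs A B → ℝ} (hf : f ∈ VS L N us vs A B) (l : ℕ) (hl : l ≤ L) :
    0 ≤ phi (fun i => f (.inr (.inl i))) l ∧ phi (fun i => f (.inr (.inl i))) l < 1 := by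
  rcases idx_cases l hl with rfl | ⟨i, rfl⟩
  · rw [phi_zero]; norm_num
  · rw [phi_succ]
    have := hf.1.1 (.inl i)
    exact ⟨this.1.le, this.2⟩

theorem psi_nn {f : El L N us vs A B → ℝ} (hf : f ∈ VS L N us vs A B) (l : ℕ) (hl : l ≤ L) :
    0 < psi (fun i => f (.inr (.inl i))) l ∧ psi (fun i => f (.inr (.inl i))) l ≤ 1 := by
  rcases idx_cases l hl with rfl | ⟨i, rfl⟩
  · rw [psi_zero]; norm_num
  · rw [psi_succ]
    have := hf.1.1 (.inr i)
    exact ⟨this.1, this.2.le⟩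

theorem vs_bd {f : El L N us vs A B → ℝ} (hf : f ∈ VS L N us vs A B) (a : El L N us vs A B) :
    0 < f a ∧ f a < 1 := by
  obtain ⟨h1, h2, h3, h4, h5, h6⟩ := id hf
  rcases a with (⟨i, j⟩ | ⟨i, j⟩) | (i | ⟨t, e⟩)
  · have a1 := h3 i j
    have a2 := phi_nn hf i i.2.le
    have a3 := phi_nn hf (i + 1) i.2
    exact ⟨lt_of_le_of_lt a2.1 a1.1, a1.2.trans a3.2⟩
  · have a1 := h5 i j
    have a2 := psi_nn hf i i.2.le
    have a3 := psi_nn hf (i + 1) i.2
    exact ⟨a3.1.trans a1.1, lt_of_lt_of_le a1.2 a2.2⟩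
  · exact h1.1 i
  · exact (h6 t).1 e

end

theorem opvs : S_OPVS := by
  intro L N us vs A B hL hAB
  refine ⟨fun z hz => ⟨lab0 L N us vs A B z, lab_mem hL hAB z hz, fun s => ?_⟩, fun hne => ?_⟩
  · obtain ⟨t, s⟩ := s
    rfl
  · ext f
    have hpair : f ∈ @OP (El L N us vs A B) (po L N us vs A B hne) →
        ∀ a b : El L N us vs A B, (∀ g ∈ VS L N us vs A B, g a < g b) → f a < f b := by
      intro hf a b hab
      exact hf.2 a b ((po_lt hne a b).2 hab)
    constructor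
    · intro hf
      have hp := hpair hf
      have hb : ∀ a, 0 < f a ∧ f a < 1 := hf.1
      have hphi : ∀ l ≤ L, ∀ a : El L N us vs A B,
          (∀ g ∈ VS L N us vs A B, phi (fun i => g (.inr (.inl i))) l < g a) →
          phi (fun i => f (.inr (.inl i))) l < f a := by
        intro l hl a ha
        rcases idx_cases l hl with rfl | ⟨i, rfl⟩
        · rw [phi_zero]; exact (hb a).1
        · simp only [phi_succ] at ha ⊢
          exact hp _ _ ha
      have hpsi : ∀ l ≤ L, ∀ a : El L N us vs A B,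
          (∀ g ∈ VS L N us vs A B, g a < psi (fun i => g (.inr (.inl i))) l) →
          f a < psi (fun i => f (.inr (.inl i))) l := by
        intro l hl a ha
        rcases idx_cases l hl with rfl | ⟨i, rfl⟩
        · rw [psi_zero]; exact (hb a).2
        · simp only [psi_succ] at ha ⊢
          exact hp _ _ ha
      have hphi' : ∀ (i : Fin L), ∀ a : El L N us vs A B,
          (∀ g ∈ VS L N us vs A B, g a < phi (fun i => g (.inr (.inl i))) (i + 1)) →
          f a < phi (fun i => f (.inr (.inl i))) (i + 1) := by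
        intro i a ha
        simp only [phi_succ] at ha ⊢
        exact hp _ _ ha
      have hpsi' : ∀ (i : Fin L), ∀ a : El L N us vs A B,
          (∀ g ∈ VS L N us vs A B, psi (fun i => g (.inr (.inl i))) (i + 1) < g a) →
          psi (fun i => f (.inr (.inl i))) (i + 1) < f a := by
        intro i a ha
        simp only [psi_succ] at ha ⊢
        exact hp _ _ ha
      refine ⟨⟨fun i => hb _, ?_, ?_, ?_⟩, ?_, ?_, ?_, ?_, ?_⟩
      · intro l hl
        have h1 := phi_succ (fun i => f (.inr (.inl i))) ⟨l, hl⟩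
        simp only at h1
        rw [h1]
        refine hphi l hl.le _ fun g hg => ?_
        have h2 := hg.1.2.1 l hl
        have h3 := phi_succ (fun i => g (.inr (.inl i))) ⟨l, hl⟩
        simp only at h3
        rw [h3] at h2
        exact h2
      · intro l hl
        have h1 := psi_succ (fun i => f (.inr (.inl i))) ⟨l, hl⟩
        simp only at h1
        rw [h1]
        refine hpsi l hl.le _ fun g hg => ?_
        have h2 := hg.1.2.2.1 l hl
        have h3 := psi_succ (fun i => g (.inr (.inl i))) ⟨l, hl⟩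
        simp only at h3
        rw [h3] at h2
        exact h2
      · obtain ⟨i, hi⟩ : ∃ i : Fin L, L = i + 1 := ⟨⟨L - 1, by omega⟩, by simp only; omega⟩
        have e1 : ∀ g : El L N us vs A B → ℝ, psi (fun i => g (.inr (.inl i))) L =
            g (.inr (.inl (.inr i))) := fun g => by
          have := psi_succ (fun i => g (.inr (.inl i))) i
          rwa [← hi] at this
        rw [e1]
        refine hphi L le_rfl _ fun g hg => ?_
        have h2 := hg.1.2.2.2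
        rw [e1 g] at h2
        exact h2
      · intro i j j' hj
        exact hp _ _ fun g hg => hg.2.1 i j j' hj
      · intro i j
        exact ⟨hphi i i.2.le _ fun g hg => (hg.2.2.1 i j).1,
          hphi' i _ fun g hg => (hg.2.2.1 i j).2⟩
      · intro i j j' hj
        exact hp _ _ fun g hg => hg.2.2.2.1 i j j' hj
      · intro i j
        exact ⟨hpsi' i _ fun g hg => (hg.2.2.2.2.1 i j).1,
          hpsi i i.2.le _ fun g hg => (hg.2.2.2.2.1 i j).2⟩
      · intro t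
        refine ⟨fun e => hb _, ?_, ?_, ?_, ?_⟩
        · exact hp _ _ fun g hg => (hg.2.2.2.2.2 t).2.1
        · intro s
          exact ⟨hp _ _ fun g hg => ((hg.2.2.2.2.2 t).2.2.1 s).1,
            hp _ _ fun g hg => ((hg.2.2.2.2.2 t).2.2.1 s).2⟩
        · intro l
          exact hphi l ((hAB t t.2).1 l l.2).2 _ fun g hg => (hg.2.2.2.2.2 t).2.2.2.1 l
        · intro l
          exact hpsi l ((hAB t t.2).2 l l.2).2 _ fun g hg => (hg.2.2.2.2.2 t).2.2.2.2 l
    · intro hf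
      exact ⟨fun a => vs_bd hf a, fun a b hab => (po_lt hne a b).1 hab f hf⟩

end Pool.Agent.H34.RK
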