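import Pool.Agent.H34.RK.Stm4
import Pool.Agent.H34.RK.Opvs

/-!
RK-OPVS2: the order polytope of the poset with extra pairs.
-/

set_option autoImplicit false

open Finset MeasureTheory

namespace Pool.Agent.H34.RK

theorem po2_lt {L N r : ℕ} {us vs : ℕ → ℕ} {A B : ℕ → Finset ℕ}
    (hne : (VS2 L N r us vs A B).Nonempty) (a b : El2 L N r us vs A B) :
    (@LT.lt _ (po2 L N r us vs A B hne).toLT a b) ↔ ∀ f ∈ VS2 L N r us vs A B, f a < f b := by
  constructor
  · rintro ⟨h1, h2⟩
    rcases h1 with rfl | h1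
    · exact absurd (Or.inl rfl) h2
    · exact h1
  · intro h
    refine ⟨Or.inr h, ?_⟩
    obtain ⟨f, hf⟩ := hne
    rintro (rfl | h2)
    · exact lt_irrefl _ (h f hf)
    · exact lt_asymm (h f hf) (h2 f hf)

theorem opvs2 : S_OPVS2 := by
  intro L N r us vs A B hL hr hAB
  refine ⟨fun z e hz he => ?_, fun hne => ?_⟩
  · refine ⟨Sum.elim (lab0 L N us vs A B z) (fun p => if p.2 then 2 / 3 else e p.1),
      ⟨lab_mem hL hAB z hz, ?_⟩, ?_, ?_⟩
    · intro j
      have hj : (j : ℕ) + 1 ≤ L := by omega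
      have h1 := phi_lab (us := us) (vs := vs) z (j + 1) hj
      have h2 : phi (frl fun a => Sum.elim (lab0 L N us vs A B z)
          (fun p : Fin r × Bool => if p.2 then 2 / 3 else e p.1) (.inl a)) (j + 1) =
          (((j : ℕ) + 1 : ℕ) : ℝ) / (4 * L) := h1
      rw [h2]
      have hL0 : (0 : ℝ) < 4 * L := by positivity
      have h3 : (((j : ℕ) + 1 : ℕ) : ℝ) / (4 * L) ≤ 1 / 4 := by
        rw [div_le_div_iff₀ hL0 (by norm_num)]
        have : (((j : ℕ) + 1 : ℕ) : ℝ) ≤ L := by exact_mod_cast hj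
        linarith
      have h4 := he j
      show (((j : ℕ) + 1 : ℕ) : ℝ) / (4 * L) < e j ∧ e j < 2 / 3 ∧ (2 : ℝ) / 3 < 1
      refine ⟨by linarith, h4.2, by norm_num⟩
    · rintro ⟨t, s⟩
      rfl
    · intro j
      rfl
  · have hneV : (VS L N us vs A B).Nonempty := by
      obtain ⟨f, hf⟩ := hne
      exact ⟨_, hf.1⟩
    have hOP := (opvs L N us vs A B hL hAB).2 hneV
    ext f
    constructor
    · intro hf
      have hp : ∀ a b : El2 L N r us vs A B, (∀ g ∈ VS2 L N r us vs A B, g a < g b) → f a < f b :=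
        fun a b hab => hf.2 a b ((po2_lt hne a b).2 hab)
      have hb : ∀ a, 0 < f a ∧ f a < 1 := hf.1
      refine ⟨?_, fun j => ⟨?_, ?_, (hb _).2⟩⟩
      · rw [← hOP]
        refine ⟨fun a => hb _, fun a b hab => ?_⟩
        have h1 := (po_lt hneV a b).1 hab
        exact hp _ _ fun g hg => h1 _ hg.1
      · have hj : (j : ℕ) < L := by omega
        have e1 : ∀ g : El2 L N r us vs A B → ℝ, phi (frl fun a => g (.inl a)) (j + 1) =
            g (.inl (.inr (.inl (.inl ⟨j, hj⟩)))) := fun g =>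
          phi_succ (frl fun a => g (.inl a)) ⟨j, hj⟩
        rw [e1]
        refine hp _ _ fun g hg => ?_
        have h2 := (hg.2 j).1
        rw [e1] at h2
        exact h2
      · exact hp _ _ fun g hg => (hg.2 j).2.1
    · intro hf
      refine ⟨?_, fun a b hab => (po2_lt hne a b).1 hab f hf⟩
      rintro (a | ⟨j, b⟩)
      · exact vs_bd hf.1 a
      · have h1 := hf.2 j
        have h2 := phi_nn hf.1 (j + 1) (by omega)
        have h3 : 0 ≤ phi (frl fun a => f (.inl a)) (j + 1) := h2.1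
        cases b
        · exact ⟨by linarith, by linarith⟩
        · exact ⟨by linarith, h1.2.2⟩

end Pool.Agent.H34.RK
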