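import Pool.Agent.H34.RK.Stm4
import Pool.Agent.H34.RK.T5

/-! # Project RK: `S_PG` -/

set_option autoImplicit false

open Finset MeasureTheory

namespace Pool.Agent.H34.RK

namespace PGm

/-- a weight which is small near `0` against the lower centre -/
lemma centre (HR : S_REG) (HZ : S_ZB) (g : ℝ) (L : ℕ) (A B : Finset ℕ) (hg : 0 < g) (hL : 100 ≤ L)
    (hgL : g * L ^ 8 ≤ 1) (hA : Sub1 L A) (hB : Sub1 L B) (hM : 40 ≤ A.card + B.card)
    (u : ℝ → ℝ) (hu : Continuous u) (h1 : ∀ x, 0 ≤ x → x ≤ 1 → u x ≤ 1)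
    (h2 : ∀ x, 0 ≤ x → x ≤ 1 / 8 → u x ≤ 1 / 4) :
    (∫ x in (0 : ℝ)..1, u x * hx g A B x) ≤ 2 / 5 * ZZ g A B := by
  obtain ⟨r1, r2, r3, r4, r5, r6, r7⟩ := reg_facts HR g L A B hg hL hgL hA hB (by omega)
  have hz := (HZ g L A B hg hL hgL hA hB (by omega)).2
  set M : ℕ := A.card + B.card with hMd
  have tail := TA.hx_tail r1 r2 r3 r5 (1 / 8) (by norm_num) (by norm_num)
  have i1 := TA.hx_int r3 r5 0 (1 / 8) le_rfl (by norm_num) (by norm_num)
  have i2 := TA.hx_int r3 r5 (1 / 8) 1 (by norm_num) (by norm_num) le_rfl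
  have j1 : IntervalIntegrable (fun x => u x * hx g A B x) volume 0 (1 / 8) :=
    i1.continuousOn_mul hu.continuousOn
  have j2 : IntervalIntegrable (fun x => u x * hx g A B x) volume (1 / 8) 1 :=
    i2.continuousOn_mul hu.continuousOn
  have ez : ZZ g A B = (∫ x in (0 : ℝ)..(1 / 8), hx g A B x) + ∫ x in (1 / 8 : ℝ)..1, hx g A B x := by
    rw [intervalIntegral.integral_add_adjacent_intervals i1 i2]
    rfl
  have k1 : ∫ x in (0 : ℝ)..(1 / 8), u x * hx g A B x ≤
      ∫ x in (0 : ℝ)..(1 / 8), 1 / 4 * hx g A B x := by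
    refine intervalIntegral.integral_mono_on (by norm_num) j1 (i1.const_mul _) fun x hx' => ?_
    exact mul_le_mul_of_nonneg_right (h2 x hx'.1 hx'.2) (r5 x hx'.1 (by linarith [hx'.2])).1
  have k2 : ∫ x in (1 / 8 : ℝ)..1, u x * hx g A B x ≤ ∫ x in (1 / 8 : ℝ)..1, hx g A B x := by
    refine intervalIntegral.integral_mono_on (by norm_num) j2 i2 fun x hx' => ?_
    have hx0 : 0 ≤ x := by linarith [hx'.1]
    calc u x * hx g A B x ≤ 1 * hx g A B x :=
          mul_le_mul_of_nonneg_right (h1 x hx0 hx'.2) (r5 x hx0 hx'.2).1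
      _ = _ := one_mul _
  rw [intervalIntegral.integral_const_mul] at k1
  have n2 : 0 ≤ ∫ x in (1 / 8 : ℝ)..1, hx g A B x :=
    intervalIntegral.integral_nonneg (by norm_num) fun x hx' =>
      (r5 x (by linarith [hx'.1]) hx'.2).1
  have h3 : ((1 : ℝ) - 1 / 8) ^ (M + 2) ≤ 99 / 1000 := by
    calc ((1 : ℝ) - 1 / 8) ^ (M + 2) ≤ (1 - 1 / 8 : ℝ) ^ 42 :=
          pow_le_pow_of_le_one (by norm_num) (by norm_num) (by omega)
      _ ≤ 99 / 1000 := by norm_num
  have h4 : (0 : ℝ) < ((M : ℝ) + 1) * (M + 2) := by positivity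
  have h5 : ∫ x in (1 / 8 : ℝ)..1, hx g A B x ≤ 1 / 10 * ZZ g A B := by
    refine tail.trans ?_
    calc ((1 : ℝ) - 1 / 8) ^ (M + 2) / (((M : ℝ) + 1) * (M + 2)) ≤
          (99 / 1000) / (((M : ℝ) + 1) * (M + 2)) := div_le_div_of_nonneg_right h3 h4.le
      _ = 1 / 10 * ((99 / 100) / (((M : ℝ) + 1) * (M + 2))) := by ring
      _ ≤ 1 / 10 * ZZ g A B := mul_le_mul_of_nonneg_left hz (by norm_num)
  rw [← intervalIntegral.integral_add_adjacent_intervals j1 j2]
  linarith

/-- a weight with small integral against a satellite -/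
lemma sat (HR : S_REG) (HZ : S_ZB) (g : ℝ) (L : ℕ) (A B A' B' : Finset ℕ) (p q : ℕ) (hg : 0 < g)
    (hL : 100 ≤ L) (hgL : g * L ^ 8 ≤ 1) (hA : Sub1 L A) (hB : Sub1 L B) (hA' : Sub1 L A')
    (hB' : Sub1 L B') (hM : 40 ≤ A.card + B.card) (hM' : A.card + B.card = A'.card + B'.card + 1)
    (hp : p ≤ L) (hq : q ≤ L)
    (u : ℝ → ℝ) (hu : Continuous u) (h0 : ∀ x, 0 ≤ x → x ≤ 1 → 0 ≤ u x)
    (h1 : ∫ x in (0 : ℝ)..1, u x ≤ 341 / 1000) :
    (∫ z in (0 : ℝ)..1, u z * hz g A' B' p q z) ≤ 2 / 5 * ZZ g A B := by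
  obtain ⟨r1, r2, r3, r4, r5, r6, r7⟩ := reg_facts HR g L A' B' hg hL hgL hA' hB' (by omega)
  have hz := (HZ g L A B hg hL hgL hA hB (by omega)).2
  obtain ⟨hm, hb⟩ := r7 p q hp hq
  set M : ℕ := A'.card + B'.card with hMd
  rw [hM'] at hz
  have hM39 : (39 : ℝ) ≤ M := by
    have : 39 ≤ M := by omega
    exact_mod_cast this
  have i1 : IntervalIntegrable (Pool.Agent.H34.RK.hz g A' B' p q) volume 0 1 :=
    TA.ii_of_bdd hm (C := 1) (fun z => by rw [abs_of_nonneg (hb z).1]; exact (hb z).2) 0 1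
  have j1 : IntervalIntegrable (fun x => u x * Pool.Agent.H34.RK.hz g A' B' p q x) volume 0 1 :=
    i1.continuousOn_mul hu.continuousOn
  have k1 : ∫ z in (0 : ℝ)..1, u z * Pool.Agent.H34.RK.hz g A' B' p q z ≤
      ∫ z in (0 : ℝ)..1, u z * (1 / (((M : ℝ) + 1) * (M + 2))) := by
    refine intervalIntegral.integral_mono_on zero_le_one j1 ?_ fun z hz' => ?_
    · exact (hu.mul continuous_const).intervalIntegrable _ _
    · exact mul_le_mul_of_nonneg_left (TA.hz_le r1 r2 p q z hz'.1 hz'.2) (h0 z hz'.1 hz'.2)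
  rw [intervalIntegral.integral_mul_const] at k1
  refine k1.trans ?_
  have h4 : (0 : ℝ) < ((M : ℝ) + 1) * (M + 2) := by positivity
  calc (∫ x in (0 : ℝ)..1, u x) * (1 / (((M : ℝ) + 1) * (M + 2)))
      ≤ 341 / 1000 * (1 / (((M : ℝ) + 1) * (M + 2))) := by gcongr
    _ ≤ 2 / 5 * ((99 / 100 : ℝ) / (((M + 1 : ℕ) + 1) * ((M + 1 : ℕ) + 2) : ℝ)) := by
        push_cast
        rw [mul_one_div, mul_div_assoc', div_le_div_iff₀ h4 (by positivity)]
        nlinarith
    _ ≤ 2 / 5 * ZZ g A B := mul_le_mul_of_nonneg_left hz (by norm_num)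

end PGm

theorem pg : S_REG → S_ZB → S_DUAL → S_PG := by
  intro HR HZ HD g a L A B hg hL hgL hA hB hM ha0 ha1
  obtain ⟨-, -, -, d4, d5, -, -⟩ := HD
  have h1a : (99 / 100 : ℝ) ≤ 1 - a := by linarith
  have h1a' : 1 - a ≤ 1 := by linarith
  have h1p : (0 : ℝ) < 1 - a := by linarith
  refine ⟨?_, ?_, ?_⟩
  · refine PGm.centre HR HZ g L A B hg hL hgL hA hB hM
      (fun x => 1 - min (((1 - x) / (1 - a)) ^ 2) 1) ?_ ?_ ?_
    · fun_prop
    · intro x _ _
      have : 0 ≤ min (((1 - x) / (1 - a)) ^ 2) 1 := le_min (sq_nonneg _) zero_le_one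
      show 1 - min (((1 - x) / (1 - a)) ^ 2) 1 ≤ 1
      linarith
    · intro x hx0 hx1
      have h3 : (3 / 4 : ℝ) ≤ min (((1 - x) / (1 - a)) ^ 2) 1 := by
        apply le_min _ (by norm_num)
        have h4 : (7 / 8 : ℝ) ≤ (1 - x) / (1 - a) := by
          rw [le_div_iff₀ h1p]
          nlinarith
        nlinarith
      show 1 - min (((1 - x) / (1 - a)) ^ 2) 1 ≤ 1 / 4
      linarith
  · have e1 : (∫ y in (0 : ℝ)..1, (1 - (max (y - a) 0 / (1 - a)) ^ 2) * hy g A B y) =
        ∫ x in (0 : ℝ)..1, (1 - (max (1 - x - a) 0 / (1 - a)) ^ 2) * hx g B A x := by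
      have e2 := intervalIntegral.integral_comp_sub_left (a := 0) (b := 1)
        (fun x => (1 - (max (1 - x - a) 0 / (1 - a)) ^ 2) * hx g B A x) 1
      simp only [sub_self, sub_zero, sub_sub_cancel] at e2
      rw [← e2]
      refine intervalIntegral.integral_congr fun y _ => ?_
      rw [d4]
    rw [e1, d5]
    refine PGm.centre HR HZ g L B A hg hL hgL hB hA (by omega)
      (fun x => 1 - (max (1 - x - a) 0 / (1 - a)) ^ 2) ?_ ?_ ?_
    · fun_prop
    · intro x _ _
      show 1 - (max (1 - x - a) 0 / (1 - a)) ^ 2 ≤ 1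
      have := sq_nonneg (max (1 - x - a) 0 / (1 - a))
      linarith
    · intro x hx0 hx1
      have h4 : (13 / 15 : ℝ) ≤ max (1 - x - a) 0 / (1 - a) := by
        rw [le_div_iff₀ h1p]
        refine le_trans ?_ (le_max_left _ _)
        nlinarith
      show 1 - (max (1 - x - a) 0 / (1 - a)) ^ 2 ≤ 1 / 4
      nlinarith
  · intro e
    -- the two weights
    have c1 : Continuous fun z : ℝ => min (((1 - z) / (1 - a)) ^ 2) 1 := by fun_prop
    have c2 : Continuous fun z : ℝ => (max (z - a) 0 / (1 - a)) ^ 2 := by fun_prop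
    have n1 : ∀ x : ℝ, 0 ≤ x → x ≤ 1 → 0 ≤ min (((1 - x) / (1 - a)) ^ 2) 1 :=
      fun x _ _ => le_min (sq_nonneg _) zero_le_one
    have n2 : ∀ x : ℝ, 0 ≤ x → x ≤ 1 → 0 ≤ (max (x - a) 0 / (1 - a)) ^ 2 :=
      fun x _ _ => sq_nonneg _
    have m1 : ∫ z in (0 : ℝ)..1, min (((1 - z) / (1 - a)) ^ 2) 1 ≤ 341 / 1000 := by
      have h3 : ∫ z in (0 : ℝ)..1, min (((1 - z) / (1 - a)) ^ 2) 1 ≤
          ∫ z in (0 : ℝ)..1, (1 - z) ^ 2 * (1023 / 1000) := by
        refine intervalIntegral.integral_mono_on zero_le_one (c1.intervalIntegrable _ _)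
          (Continuous.intervalIntegrable (by fun_prop) _ _) fun z hz' => ?_
        refine (min_le_left _ _).trans ?_
        rw [div_pow, div_le_iff₀ (by positivity)]
        have h5 : (1000 / 1023 : ℝ) ≤ (1 - a) ^ 2 := by nlinarith
        have h6 : 0 ≤ (1 - z) ^ 2 := sq_nonneg _
        nlinarith
      refine h3.trans ?_
      rw [intervalIntegral.integral_mul_const]
      have h7 : ∫ z in (0 : ℝ)..1, (1 - z) ^ 2 = 1 / 3 := by
        have e2 := intervalIntegral.integral_comp_sub_left (a := 0) (b := 1)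
          (fun x : ℝ => x ^ 2) 1
        rw [e2, sub_self, sub_zero, integral_pow]
        norm_num
      rw [h7]
      norm_num
    have m2 : ∫ z in (0 : ℝ)..1, (max (z - a) 0 / (1 - a)) ^ 2 ≤ 341 / 1000 := by
      have h3 : ∫ z in (0 : ℝ)..1, (max (z - a) 0 / (1 - a)) ^ 2 ≤
          ∫ z in (0 : ℝ)..1, z ^ 2 := by
        refine intervalIntegral.integral_mono_on zero_le_one (c2.intervalIntegrable _ _)
          (Continuous.intervalIntegrable (by fun_prop) _ _) fun z hz' => ?_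
        have h8 : 0 ≤ max (z - a) 0 / (1 - a) := div_nonneg (le_max_right _ _) h1p.le
        have h9 : max (z - a) 0 / (1 - a) ≤ z := by
          rw [div_le_iff₀ h1p]
          apply max_le
          · nlinarith [hz'.1, hz'.2, mul_le_of_le_one_right ha0 hz'.2]
          · exact mul_nonneg hz'.1 h1p.le
        exact pow_le_pow_left₀ h8 h9 2
      refine h3.trans ?_
      rw [integral_pow]
      norm_num
    rcases e with ⟨l, hl⟩ | ⟨l, hl⟩
    · have ed : dens (fun l => g * l) (fun l => 1 - g * l) A B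
          (roleOf (.inr (.inl ⟨l, hl⟩) : Gd A B)) = hz g (A.erase l) B l 0 := by
        funext z
        show hZT (fun l => g * l) (fun l => 1 - g * l) (A.erase l) B (g * l) 1 z = _
        unfold hz
        simp
      rw [ed]
      have hc : A.card + B.card = (A.erase l).card + B.card + 1 := by
        rw [card_erase_of_mem hl]
        have := card_pos.2 ⟨l, hl⟩
        omega
      have hAe : Sub1 L (A.erase l) := fun x hx' => hA x (mem_of_mem_erase hx')
      exact ⟨PGm.sat HR HZ g L A B (A.erase l) B l 0 hg hL hgL hA hB hAe hB hM hc (hA l hl).2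
          (by omega) _ c1 n1 m1,
        PGm.sat HR HZ g L A B (A.erase l) B l 0 hg hL hgL hA hB hAe hB hM hc (hA l hl).2
          (by omega) _ c2 n2 m2⟩
    · have ed : dens (fun l => g * l) (fun l => 1 - g * l) A B
          (roleOf (.inr (.inr ⟨l, hl⟩) : Gd A B)) = hz g A (B.erase l) 0 l := by
        funext z
        show hZT (fun l => g * l) (fun l => 1 - g * l) A (B.erase l) 0 (1 - g * l) z = _
        unfold hz
        simp
      rw [ed]
      have hc : A.card + B.card = A.card + (B.erase l).card + 1 := by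
        rw [card_erase_of_mem hl]
        have := card_pos.2 ⟨l, hl⟩
        omega
      have hBe : Sub1 L (B.erase l) := fun x hx' => hB x (mem_of_mem_erase hx')
      exact ⟨PGm.sat HR HZ g L A B A (B.erase l) 0 l hg hL hgL hA hB hA hBe hM hc
          (by omega) (hB l hl).2 _ c1 n1 m1,
        PGm.sat HR HZ g L A B A (B.erase l) 0 l hg hL hgL hA hB hA hBe hM hc
          (by omega) (hB l hl).2 _ c2 n2 m2⟩

end Pool.Agent.H34.RK
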