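import Pool.Agent.H34.RK.Stm4

/-! # Project RK: `S_TRANS` (helper82) -/

set_option autoImplicit false

open Finset MeasureTheory

namespace Pool.Agent.H34.RK

namespace TRA

open Pool.Agent.H13R3.WB

variable {P : Type} [Fintype P] [PartialOrder P]

/-- the bijections -/
def E {n : ℕ} (e : P ≃ Fin n) : Equiv.Perm (Fin n) ≃ (P ≃ Fin n) where
  toFun σ := e.trans σ
  invFun f := e.symm.trans f
  left_inv σ := by ext x; simp
  right_inv f := by ext x; simp

lemma mono_iff' {n : ℕ} (e : P ≃ Fin n) (σ : Equiv.Perm (Fin n)) :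
    (∀ a b, e.symm a ≤ e.symm b → σ a ≤ σ b) ↔ Monotone (E e σ) := by
  constructor
  · intro h x y hxy
    exact h (e x) (e y) (by simpa using hxy)
  · intro h a b hab
    have := h hab
    simpa [E] using this

lemma card1 (e : P ≃ Fin (Fintype.card P)) :
    Nat.card {σ : Equiv.Perm (Fin (Fintype.card P)) // ∀ a b, e.symm a ≤ e.symm b → σ a ≤ σ b} =
      Nat.card {f : P ≃ Fin (Fintype.card P) // Monotone f} :=
  Nat.card_congr ((E e).subtypeEquiv fun σ => mono_iff' e σ)

lemma card2 (e : P ≃ Fin (Fintype.card P)) (x y : Fin (Fintype.card P)) :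
    Nat.card {σ : Equiv.Perm (Fin (Fintype.card P)) //
      (∀ a b, e.symm a ≤ e.symm b → σ a ≤ σ b) ∧ σ x < σ y} =
      Nat.card {f : P ≃ Fin (Fintype.card P) // Monotone f ∧ f (e.symm x) < f (e.symm y)} :=
  Nat.card_congr ((E e).subtypeEquiv fun σ => by
    rw [mono_iff' e σ]
    have h : ∀ z, (E e σ) (e.symm z) = σ z := fun z => by simp [E]
    rw [h, h])

end TRA

open TRA Pool.Agent.H13R3.WB in
/-- **TRANS** -/
theorem trans_ : S_TRANS := by
  intro δ hδ P _ _ w b hw hb
  rw [hδ w]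
  let e : P ≃ Fin (Fintype.card P) := Fintype.equivFin P
  have hbdd : ∀ (n : ℕ) (r : Fin n → Fin n → Prop), 0 ≤ sSup {t : ℝ | ∃ x y : Fin n, ¬ r x y ∧ ¬ r y x ∧
      t = min
        ((Nat.card {σ : Equiv.Perm (Fin n) //
            (∀ a b, r a b → σ a ≤ σ b) ∧ σ x < σ y} : ℝ) /
          (Nat.card {σ : Equiv.Perm (Fin n) // ∀ a b, r a b → σ a ≤ σ b} : ℝ))
        ((Nat.card {σ : Equiv.Perm (Fin n) //
            (∀ a b, r a b → σ a ≤ σ b) ∧ σ y < σ x} : ℝ) /
          (Nat.card {σ : Equiv.Perm (Fin n) // ∀ a b, r a b → σ a ≤ σ b} : ℝ))} := by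
    intro n r
    refine Real.sSup_nonneg fun t ht => ?_
    obtain ⟨x, y, -, -, rfl⟩ := ht
    exact le_min (by positivity) (by positivity)
  refine le_trans (csInf_le ⟨0, ?_⟩ ⟨Fintype.card P, fun a b => e.symm a ≤ e.symm b, fun a => le_rfl,
    fun a b c h1 h2 => h1.trans h2, fun a b h1 h2 => e.symm.injective (le_antisymm h1 h2), ?_, ?_,
    rfl⟩) ?_
  · rintro d ⟨n, r, -, -, -, -, -, rfl⟩
    exact hbdd n r
  · obtain ⟨⟨s, hs, hc⟩, -⟩ := hw
    refine ⟨s.map e.toEmbedding, by rw [card_map, hc], fun a ha b hb hab h => ?_⟩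
    rw [mem_map] at ha hb
    obtain ⟨a, ha, rfl⟩ := ha
    obtain ⟨b, hb, rfl⟩ := hb
    refine hs ha hb (fun h2 => hab (by rw [h2])) ?_
    simpa using h
  · intro s hs
    have h := hw.2 (s.map e.symm.toEmbedding) (by
      intro a ha b hb hab h
      rw [mem_coe, mem_map] at ha hb
      obtain ⟨a, ha, rfl⟩ := ha
      obtain ⟨b, hb, rfl⟩ := hb
      exact hs a ha b hb (fun h2 => hab (by rw [h2])) h)
    rwa [card_map] at h
  · refine Real.sSup_le ?_ ?_
    · rintro t ⟨x, y, -, -, rfl⟩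
      rw [card1 e, card2 e x y, card2 e y x]
      exact (Pool.Agent.H931R3.Bal.le_balance (e.symm x) (e.symm y)).trans hb
    · refine le_trans ?_ hb
      unfold balance
      refine Real.iSup_nonneg fun p => ?_
      unfold prob
      exact le_min (by positivity) (by positivity)

end Pool.Agent.H34.RK
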