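import Pool.Agent.H34.RK.Stm3

/-!
# Project RK: `S_VD`, the final volume formulas.
-/

set_option autoImplicit false

open Finset MeasureTheory

namespace Pool.Agent.H34.RK

namespace VdAux

lemma phi_meas {L : ℕ} (l : ℕ) : Measurable (fun θ : Fin L ⊕ Fin L → ℝ => phi θ l) := by
  by_cases h : 1 ≤ l ∧ l ≤ L
  · have : (fun θ : Fin L ⊕ Fin L → ℝ => phi θ l) = fun θ => θ (.inl ⟨l - 1, by omega⟩) := by
      funext θ; simp only [phi]; rw [dif_pos h]
    rw [this]; exact measurable_pi_apply _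
  · have : (fun θ : Fin L ⊕ Fin L → ℝ => phi θ l) = fun _ => 0 := by
      funext θ; simp only [phi]; rw [dif_neg h]
    rw [this]; exact measurable_const

lemma psi_meas {L : ℕ} (l : ℕ) : Measurable (fun θ : Fin L ⊕ Fin L → ℝ => psi θ l) := by
  by_cases h : 1 ≤ l ∧ l ≤ L
  · have : (fun θ : Fin L ⊕ Fin L → ℝ => psi θ l) = fun θ => θ (.inr ⟨l - 1, by omega⟩) := by
      funext θ; simp only [psi]; rw [dif_pos h]
    rw [this]; exact measurable_pi_apply _
  · have : (fun θ : Fin L ⊕ Fin L → ℝ => psi θ l) = fun _ => 1 := by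
      funext θ; simp only [psi]; rw [dif_neg h]
    rw [this]; exact measurable_const

lemma phi_bd {L : ℕ} {θ : Fin L ⊕ Fin L → ℝ} (hθ : θ ∈ OmS L) (l : ℕ) :
    0 ≤ phi θ l ∧ phi θ l ≤ 1 := by
  unfold phi
  split_ifs with h
  · exact ⟨(hθ.1 _).1.le, (hθ.1 _).2.le⟩
  · exact ⟨le_rfl, zero_le_one⟩

lemma psi_bd {L : ℕ} {θ : Fin L ⊕ Fin L → ℝ} (hθ : θ ∈ OmS L) (l : ℕ) :
    0 ≤ psi θ l ∧ psi θ l ≤ 1 := by
  unfold psi
  split_ifs with h
  · exact ⟨(hθ.1 _).1.le, (hθ.1 _).2.le⟩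
  · exact ⟨zero_le_one, le_rfl⟩

lemma omS_meas (L : ℕ) : MeasurableSet (OmS L) := by
  have : OmS L = (⋂ i, ({θ | 0 < θ i} ∩ {θ | θ i < 1})) ∩
      ((⋂ l, ⋂ (_ : l < L), {θ | phi θ l < phi θ (l + 1)}) ∩
        ((⋂ l, ⋂ (_ : l < L), {θ | psi θ (l + 1) < psi θ l}) ∩ {θ | phi θ L < psi θ L})) := by
    ext θ
    simp only [OmS, Set.mem_ofPred_eq, Set.mem_inter_iff, Set.mem_iInter]
  rw [this]
  refine MeasurableSet.inter (MeasurableSet.iInter fun i => ?_)
    (MeasurableSet.inter (MeasurableSet.iInter fun l => MeasurableSet.iInter fun _ => ?_)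
      (MeasurableSet.inter (MeasurableSet.iInter fun l => MeasurableSet.iInter fun _ => ?_) ?_))
  · exact (measurableSet_lt measurable_const (measurable_pi_apply i)).inter
      (measurableSet_lt (measurable_pi_apply i) measurable_const)
  · exact measurableSet_lt (phi_meas _) (phi_meas _)
  · exact measurableSet_lt (psi_meas _) (psi_meas _)
  · exact measurableSet_lt (phi_meas _) (psi_meas _)

lemma gs_meas {Θ : Type} [MeasurableSpace Θ] {A B : Finset ℕ} (φ ψ : Θ → ℕ → ℝ)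
    (w : Θ → (Gd A B → ℝ)) (hφ : ∀ l, Measurable fun x => φ x l)
    (hψ : ∀ l, Measurable fun x => ψ x l) (hw : Measurable w) :
    MeasurableSet {x | w x ∈ GS (φ x) (ψ x) A B} := by
  have hwe : ∀ e, Measurable fun x => w x e := fun e => (measurable_pi_apply e).comp hw
  have : {x | w x ∈ GS (φ x) (ψ x) A B} =
      (⋂ e, ({x | 0 < w x e} ∩ {x | w x e < 1})) ∩
        ({x | w x (.inl false) < w x (.inl true)} ∩
          ((⋂ s, ({x | w x (.inl false) < w x (.inr s)} ∩ {x | w x (.inr s) < w x (.inl true)})) ∩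
            ((⋂ l : {l : ℕ // l ∈ A}, {x | φ x l < w x (.inr (.inl l))}) ∩
              (⋂ l : {l : ℕ // l ∈ B}, {x | w x (.inr (.inr l)) < ψ x l})))) := by
    ext x
    simp only [GS, Set.mem_ofPred_eq, Set.mem_inter_iff, Set.mem_iInter]
  rw [this]
  refine MeasurableSet.inter (MeasurableSet.iInter fun e => ?_) (MeasurableSet.inter ?_
    (MeasurableSet.inter (MeasurableSet.iInter fun s => ?_) (MeasurableSet.inter
      (MeasurableSet.iInter fun l => ?_) (MeasurableSet.iInter fun l => ?_))))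
  · exact (measurableSet_lt measurable_const (hwe e)).inter
      (measurableSet_lt (hwe e) measurable_const)
  · exact measurableSet_lt (hwe _) (hwe _)
  · exact (measurableSet_lt (hwe _) (hwe _)).inter (measurableSet_lt (hwe _) (hwe _))
  · exact measurableSet_lt (hφ _) (hwe _)
  · exact measurableSet_lt (hwe _) (hψ _)

lemma wt_meas {L : ℕ} (us vs : ℕ → ℕ) :
    Measurable (fun θ : Fin L ⊕ Fin L → ℝ => wt us vs θ) := by
  unfold wt
  refine Measurable.mul ?_ ?_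
  · refine Finset.measurable_fun_prod _ fun l _ => ?_
    exact (((phi_meas _).sub (phi_meas _)).pow_const _).div_const _
  · refine Finset.measurable_fun_prod _ fun l _ => ?_
    exact (((psi_meas _).sub (psi_meas _)).pow_const _).div_const _

lemma wt_bd {L : ℕ} {us vs : ℕ → ℕ} {θ : Fin L ⊕ Fin L → ℝ} (hθ : θ ∈ OmS L) :
    0 ≤ wt us vs θ ∧ wt us vs θ ≤ 1 := by
  have key : ∀ (a b : ℝ) (n : ℕ), 0 ≤ a → a ≤ b → b ≤ 1 →
      0 ≤ (b - a) ^ n / (n.factorial : ℝ) ∧ (b - a) ^ n / (n.factorial : ℝ) ≤ 1 := by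
    intro a b n ha hab hb
    have h0 : 0 ≤ b - a := by linarith
    have h1 : b - a ≤ 1 := by linarith
    refine ⟨by positivity, ?_⟩
    have h2 : (b - a) ^ n ≤ 1 := pow_le_one₀ h0 h1
    have h3 : (1 : ℝ) ≤ n.factorial := by exact_mod_cast Nat.one_le_iff_ne_zero.2 n.factorial_ne_zero
    rw [div_le_one (by linarith)]
    linarith
  have h1 : ∀ l ∈ range L, 0 ≤ (phi θ (l + 1) - phi θ l) ^ us l / ((us l).factorial : ℝ) ∧
      (phi θ (l + 1) - phi θ l) ^ us l / ((us l).factorial : ℝ) ≤ 1 := fun l hl =>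
    key _ _ _ (phi_bd hθ l).1 (hθ.2.1 l (mem_range.1 hl)).le (phi_bd hθ (l + 1)).2
  have h2 : ∀ l ∈ range L, 0 ≤ (psi θ l - psi θ (l + 1)) ^ vs l / ((vs l).factorial : ℝ) ∧
      (psi θ l - psi θ (l + 1)) ^ vs l / ((vs l).factorial : ℝ) ≤ 1 := fun l hl =>
    key _ _ _ (psi_bd hθ (l + 1)).1 (hθ.2.2.1 l (mem_range.1 hl)).le (psi_bd hθ l).2
  refine ⟨mul_nonneg (prod_nonneg fun l hl => (h1 l hl).1) (prod_nonneg fun l hl => (h2 l hl).1), ?_⟩
  exact mul_le_one₀ (prod_le_one (fun l hl => (h1 l hl).1) fun l hl => (h1 l hl).2)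
    (prod_nonneg fun l hl => (h2 l hl).1)
    (prod_le_one (fun l hl => (h2 l hl).1) fun l hl => (h2 l hl).2)

lemma cube1 {ι : Type} [Fintype ι] : volume {f : ι → ℝ | ∀ i, 0 < f i ∧ f i < 1} = 1 := by
  have : {f : ι → ℝ | ∀ i, 0 < f i ∧ f i < 1} = Set.univ.pi (fun _ => Set.Ioo (0 : ℝ) 1) := by
    ext f; simp
  rw [this, volume_pi_pi]
  simp

lemma omS_le (L : ℕ) : volume (OmS L) ≤ 1 := by
  rw [← cube1 (ι := Fin L ⊕ Fin L)]
  exact measure_mono fun θ hθ => hθ.1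

lemma gd_le {N : ℕ} (A B : ℕ → Finset ℕ) (φ ψ : ℕ → ℝ) :
    volume {ω : ∀ t : Fin N, Gd (A t) (B t) → ℝ | ∀ t : Fin N, ω t ∈ GS φ ψ (A t) (B t)} ≤ 1 := by
  have h1 : {ω : ∀ t : Fin N, Gd (A t) (B t) → ℝ | ∀ t : Fin N, ω t ∈ GS φ ψ (A t) (B t)} ⊆
      Set.univ.pi (fun t : Fin N => {f : Gd (A t) (B t) → ℝ | ∀ i, 0 < f i ∧ f i < 1}) := by
    intro ω hω t _
    exact (hω t).1
  refine (measure_mono h1).trans ?_
  rw [volume_pi_pi, Finset.prod_congr rfl fun t _ => cube1]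
  simp

/-- The core: volumes of measurable subsets of `VS`, defined by the frontiers and the gadgets. -/
lemma core (hF : S_FUB) (L N : ℕ) (us vs : ℕ → ℕ) (A B : ℕ → Finset ℕ)
    (P : Set ((Fin L ⊕ Fin L → ℝ) × (∀ t : Fin N, Gd (A t) (B t) → ℝ))) (hP : MeasurableSet P) :
    volume {f ∈ VS L N us vs A B |
      ((fun i => f (.inr (.inl i)), fun t e => f (.inr (.inr ⟨t, e⟩))) :
        (Fin L ⊕ Fin L → ℝ) × (∀ t : Fin N, Gd (A t) (B t) → ℝ)) ∈ P} ≤ 1 ∧
    (volume {f ∈ VS L N us vs A B |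
      ((fun i => f (.inr (.inl i)), fun t e => f (.inr (.inr ⟨t, e⟩))) :
        (Fin L ⊕ Fin L → ℝ) × (∀ t : Fin N, Gd (A t) (B t) → ℝ)) ∈ P}).toReal =
      ∫ θ in OmS L, wt us vs θ * (volume {ω : ∀ t : Fin N, Gd (A t) (B t) → ℝ |
        (∀ t : Fin N, ω t ∈ GS (phi θ) (psi θ) (A t) (B t)) ∧ (θ, ω) ∈ P}).toReal ∧
    IntegrableOn (fun θ => wt us vs θ * (volume {ω : ∀ t : Fin N, Gd (A t) (B t) → ℝ |
        (∀ t : Fin N, ω t ∈ GS (phi θ) (psi θ) (A t) (B t)) ∧ (θ, ω) ∈ P}).toReal) (OmS L) := by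
  classical
  -- the map
  have hmap : Measurable (fun f : El L N us vs A B → ℝ =>
      ((fun i => f (.inr (.inl i)), fun t e => f (.inr (.inr ⟨t, e⟩))) :
        (Fin L ⊕ Fin L → ℝ) × (∀ t : Fin N, Gd (A t) (B t) → ℝ))) := by
    refine Measurable.prodMk ?_ ?_
    · exact measurable_pi_lambda _ fun i => measurable_pi_apply _
    · exact measurable_pi_lambda _ fun t => measurable_pi_lambda _ fun e => measurable_pi_apply _
  -- the set of the gadgets
  have hGm : MeasurableSet {p : (Fin L ⊕ Fin L → ℝ) × (∀ t : Fin N, Gd (A t) (B t) → ℝ) |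
      (∀ t : Fin N, p.2 t ∈ GS (phi p.1) (psi p.1) (A t) (B t)) ∧ p ∈ P} := by
    have : {p : (Fin L ⊕ Fin L → ℝ) × (∀ t : Fin N, Gd (A t) (B t) → ℝ) |
      (∀ t : Fin N, p.2 t ∈ GS (phi p.1) (psi p.1) (A t) (B t)) ∧ p ∈ P} =
      (⋂ t : Fin N, {p | p.2 t ∈ GS (phi p.1) (psi p.1) (A t) (B t)}) ∩ P := by
      ext p
      simp only [Set.mem_ofPred_eq, Set.mem_inter_iff, Set.mem_iInter]
    rw [this]
    refine MeasurableSet.inter (MeasurableSet.iInter fun t => ?_) hP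
    exact gs_meas
      (fun p : (Fin L ⊕ Fin L → ℝ) × (∀ t : Fin N, Gd (A t) (B t) → ℝ) => phi p.1)
      (fun p => psi p.1) (fun p => p.2 t)
      (fun l => (phi_meas l).comp measurable_fst) (fun l => (psi_meas l).comp measurable_fst)
      ((measurable_pi_apply t).comp measurable_snd)
  set V : (Fin L ⊕ Fin L → ℝ) → ENNReal := fun θ =>
    volume {ω : ∀ t : Fin N, Gd (A t) (B t) → ℝ |
        (∀ t : Fin N, ω t ∈ GS (phi θ) (psi θ) (A t) (B t)) ∧ (θ, ω) ∈ P} with hV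
  have hVm : Measurable V := measurable_measure_prodMk_left hGm
  have hV1 : ∀ θ, V θ ≤ 1 := fun θ =>
    (measure_mono fun ω hω => hω.1).trans (gd_le A B (phi θ) (psi θ))
  have h1 := hF L N us vs A B (P.indicator 1) (measurable_one.indicator hP)
  have h2 : ∫⁻ f in VS L N us vs A B, P.indicator 1
      (((fun i => f (.inr (.inl i)), fun t e => f (.inr (.inr ⟨t, e⟩))) :
        (Fin L ⊕ Fin L → ℝ) × (∀ t : Fin N, Gd (A t) (B t) → ℝ))) =
      volume {f ∈ VS L N us vs A B |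
      ((fun i => f (.inr (.inl i)), fun t e => f (.inr (.inr ⟨t, e⟩))) :
        (Fin L ⊕ Fin L → ℝ) × (∀ t : Fin N, Gd (A t) (B t) → ℝ)) ∈ P} := by
    have h3 := lintegral_indicator_one (μ := volume.restrict (VS L N us vs A B)) (hmap hP)
    rw [Measure.restrict_apply (hmap hP)] at h3
    rw [Set.inter_comm] at h3
    exact h3
  have h3 : ∀ θ : Fin L ⊕ Fin L → ℝ, ∫⁻ ω in {ω : ∀ t : Fin N, Gd (A t) (B t) → ℝ |
        ∀ t : Fin N, ω t ∈ GS (phi θ) (psi θ) (A t) (B t)}, P.indicator 1 (θ, ω) = V θ := by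
    intro θ
    have hm : MeasurableSet (Prod.mk θ ⁻¹' P) := measurable_prodMk_left hP
    have h4 := lintegral_indicator_one (μ := volume.restrict
      {ω : ∀ t : Fin N, Gd (A t) (B t) → ℝ |
        ∀ t : Fin N, ω t ∈ GS (phi θ) (psi θ) (A t) (B t)}) hm
    rw [Measure.restrict_apply hm, Set.inter_comm] at h4
    exact h4
  rw [h2] at h1
  simp only [h3] at h1
  have hle : ∀ θ ∈ OmS L, ENNReal.ofReal (wt us vs θ) * V θ ≤ 1 := fun θ hθ => by
    calc ENNReal.ofReal (wt us vs θ) * V θ ≤ 1 * 1 :=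
          mul_le_mul' (by rw [← ENNReal.ofReal_one]; exact ENNReal.ofReal_le_ofReal (wt_bd hθ).2) (hV1 θ)
      _ = 1 := one_mul _
  have hfm : Measurable fun θ => ENNReal.ofReal (wt us vs θ) * V θ :=
    (ENNReal.measurable_ofReal.comp (wt_meas us vs)).mul hVm
  refine ⟨?_, ?_, ?_⟩
  · rw [h1]
    calc ∫⁻ θ in OmS L, ENNReal.ofReal (wt us vs θ) * V θ ≤ ∫⁻ θ in OmS L, 1 :=
          setLIntegral_mono measurable_const hle
      _ = volume (OmS L) := by simp
      _ ≤ 1 := omS_le L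
  · rw [h1, ← integral_toReal hfm.aemeasurable]
    · refine setIntegral_congr_fun (omS_meas L) fun θ hθ => ?_
      rw [ENNReal.toReal_mul, ENNReal.toReal_ofReal (wt_bd hθ).1]
    · refine (ae_restrict_iff' (omS_meas L)).2 (Filter.Eventually.of_forall fun θ hθ => ?_)
      exact (hle θ hθ).trans_lt ENNReal.one_lt_top
  · refine Measure.integrableOn_of_bounded (M := 1) ((omS_le L).trans_lt ENNReal.one_lt_top).ne ?_ ?_
    · exact ((wt_meas us vs).mul hVm.ennreal_toReal).aestronglyMeasurable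
    · refine (ae_restrict_iff' (omS_meas L)).2 (Filter.Eventually.of_forall fun θ hθ => ?_)
      rw [Real.norm_eq_abs, abs_of_nonneg (mul_nonneg (wt_bd hθ).1 ENNReal.toReal_nonneg)]
      refine mul_le_one₀ (wt_bd hθ).2 ENNReal.toReal_nonneg ?_
      have := ENNReal.toReal_mono ENNReal.one_ne_top (hV1 θ)
      simpa using this

/-- One coordinate. -/
lemma one (hG : S_GPROD) (hS : S_MASS) {L N : ℕ} (A B : ℕ → Finset ℕ)
    {θ : Fin L ⊕ Fin L → ℝ} (hθ : θ ∈ OmS L) (t : Fin N) (S : Set (Gd (A t) (B t) → ℝ))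
    (hSm : MeasurableSet S) :
    volume {ω : ∀ t : Fin N, Gd (A t) (B t) → ℝ |
      (∀ k : Fin N, ω k ∈ GS (phi θ) (psi θ) (A k) (B k)) ∧ ω t ∈ S} =
      ENNReal.ofReal (∏ k ∈ univ.erase t, ZT (phi θ) (psi θ) (A k) (B k)) *
        volume {a ∈ GS (phi θ) (psi θ) (A t) (B t) | a ∈ S} := by
  classical
  have hm : ∀ k : Fin N, MeasurableSet (GS (phi θ) (psi θ) (A k) (B k)) := fun k =>
    gs_meas (fun _ => phi θ) (fun _ => psi θ) (fun w : Gd (A k) (B k) → ℝ => w)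
      (fun _ => measurable_const) (fun _ => measurable_const) measurable_id
  have hz := fun k : Fin N => hS (phi θ) (psi θ) (A k) (B k) (.inl false) (phi_bd hθ) (psi_bd hθ)
  have hv : ∀ k : Fin N, volume (GS (phi θ) (psi θ) (A k) (B k)) ≠ ⊤ := fun k => by
    rw [(hz k).2.2.2.2.2.1]; exact ENNReal.ofReal_ne_top
  have h1 := (hG N (fun k => Gd (A k) (B k)) (fun k => GS (phi θ) (psi θ) (A k) (B k)) hm hv).1 t
    (S.indicator 1) (measurable_one.indicator hSm)
  have hS' : MeasurableSet {ω : ∀ t : Fin N, Gd (A t) (B t) → ℝ | ω t ∈ S} :=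
    (measurable_pi_apply t) hSm
  have h2 := lintegral_indicator_one (μ := volume.restrict {ω : ∀ t : Fin N, Gd (A t) (B t) → ℝ |
      (∀ k : Fin N, ω k ∈ GS (phi θ) (psi θ) (A k) (B k))}) hS'
  rw [Measure.restrict_apply hS', Set.inter_comm] at h2
  have h3 := lintegral_indicator_one (μ := volume.restrict (GS (phi θ) (psi θ) (A t) (B t))) hSm
  rw [Measure.restrict_apply hSm, Set.inter_comm] at h3
  rw [ENNReal.ofReal_prod_of_nonneg fun k _ => (hz k).2.2.2.1]
  simp only [← (hz _).2.2.2.2.2.1]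
  calc _ = _ := h2.symm
    _ = _ := h1
    _ = _ := by rw [h3]; rfl

/-- Two coordinates. -/
lemma two (hG : S_GPROD) (hM : S_MARG) (hS : S_MASS) {L N : ℕ} (A B : ℕ → Finset ℕ)
    {θ : Fin L ⊕ Fin L → ℝ} (hθ : θ ∈ OmS L) (s t : Fin N) (hst : s ≠ t)
    (e : Gd (A s) (B s)) (e' : Gd (A t) (B t)) (R : Set (ℝ × ℝ)) (hR : MeasurableSet R) :
    volume {ω : ∀ t : Fin N, Gd (A t) (B t) → ℝ |
      (∀ k : Fin N, ω k ∈ GS (phi θ) (psi θ) (A k) (B k)) ∧ (ω s e, ω t e') ∈ R} =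
      ENNReal.ofReal (∏ k ∈ (univ.erase s).erase t, ZT (phi θ) (psi θ) (A k) (B k)) *
        ∫⁻ z in Set.Ioo (0 : ℝ) 1, (∫⁻ z' in Set.Ioo (0 : ℝ) 1, R.indicator 1 (z, z') *
          ENNReal.ofReal (dens (phi θ) (psi θ) (A t) (B t) (roleOf e') z')) *
          ENNReal.ofReal (dens (phi θ) (psi θ) (A s) (B s) (roleOf e) z) := by
  classical
  have hm : ∀ k : Fin N, MeasurableSet (GS (phi θ) (psi θ) (A k) (B k)) := fun k =>
    gs_meas (fun _ => phi θ) (fun _ => psi θ) (fun w : Gd (A k) (B k) → ℝ => w)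
      (fun _ => measurable_const) (fun _ => measurable_const) measurable_id
  have hz := fun k : Fin N => hS (phi θ) (psi θ) (A k) (B k) (.inl false) (phi_bd hθ) (psi_bd hθ)
  have hv : ∀ k : Fin N, volume (GS (phi θ) (psi θ) (A k) (B k)) ≠ ⊤ := fun k => by
    rw [(hz k).2.2.2.2.2.1]; exact ENNReal.ofReal_ne_top
  have hsm : MeasurableSet {p : (Gd (A s) (B s) → ℝ) × (Gd (A t) (B t) → ℝ) |
      (p.1 e, p.2 e') ∈ R} :=
    (((measurable_pi_apply e).comp measurable_fst).prodMk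
      ((measurable_pi_apply e').comp measurable_snd)) hR
  have h1 := (hG N (fun k => Gd (A k) (B k)) (fun k => GS (phi θ) (psi θ) (A k) (B k)) hm hv).2 s t
    ({p : (Gd (A s) (B s) → ℝ) × (Gd (A t) (B t) → ℝ) | (p.1 e, p.2 e') ∈ R}.indicator 1) hst
    (measurable_one.indicator hsm)
  have hS' : MeasurableSet {ω : ∀ t : Fin N, Gd (A t) (B t) → ℝ | (ω s e, ω t e') ∈ R} :=
    (((measurable_pi_apply e).comp (measurable_pi_apply s)).prodMk
      ((measurable_pi_apply e').comp (measurable_pi_apply t))) hR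
  have h2 := lintegral_indicator_one (μ := volume.restrict {ω : ∀ t : Fin N, Gd (A t) (B t) → ℝ |
      (∀ k : Fin N, ω k ∈ GS (phi θ) (psi θ) (A k) (B k))}) hS'
  rw [Measure.restrict_apply hS', Set.inter_comm] at h2
  have h4 : ∀ a : Gd (A s) (B s) → ℝ, ∫⁻ b in GS (phi θ) (psi θ) (A t) (B t),
      {p : (Gd (A s) (B s) → ℝ) × (Gd (A t) (B t) → ℝ) | (p.1 e, p.2 e') ∈ R}.indicator 1 (a, b) =
      ∫⁻ z' in Set.Ioo (0 : ℝ) 1, R.indicator 1 (a e, z') *
          ENNReal.ofReal (dens (phi θ) (psi θ) (A t) (B t) (roleOf e') z') := fun a => by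
    rw [← hM (phi θ) (psi θ) (A t) (B t) e' (fun z' => R.indicator 1 (a e, z'))
      ((measurable_one.indicator hR).comp measurable_prodMk_left)]
    rfl
  have h5 := hM (phi θ) (psi θ) (A s) (B s) e (fun z => ∫⁻ z' in Set.Ioo (0 : ℝ) 1,
    R.indicator 1 (z, z') * ENNReal.ofReal (dens (phi θ) (psi θ) (A t) (B t) (roleOf e') z')) ?_
  · rw [ENNReal.ofReal_prod_of_nonneg fun k _ => (hz k).2.2.2.1]
    simp only [← (hz _).2.2.2.2.2.1]
    calc _ = _ := h2.symm
      _ = _ := h1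
      _ = _ := by
        simp only [h4]
        rw [h5]
  · have hii := (hS (phi θ) (psi θ) (A t) (B t) e' (phi_bd hθ) (psi_bd hθ)).2.2.1
    have hi : AEMeasurable (fun z' => ENNReal.ofReal (dens (phi θ) (psi θ) (A t) (B t)
        (roleOf e') z')) (volume.restrict (Set.Ioo (0 : ℝ) 1)) :=
      ENNReal.measurable_ofReal.comp_aemeasurable
        ((hii.1.mono_set Set.Ioo_subset_Ioc_self).aestronglyMeasurable.aemeasurable)
    have heq : (fun z => ∫⁻ z' in Set.Ioo (0 : ℝ) 1, R.indicator 1 (z, z') *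
        ENNReal.ofReal (dens (phi θ) (psi θ) (A t) (B t) (roleOf e') z')) =
        fun z => ∫⁻ z' in Set.Ioo (0 : ℝ) 1, R.indicator 1 (z, z') * hi.mk _ z' := by
      funext z
      refine lintegral_congr_ae (hi.ae_eq_mk.mono fun z' hz' => ?_)
      exact congrArg (fun c => R.indicator 1 (z, z') * c) hz'
    rw [heq]
    exact Measurable.lintegral_prod_right' (f := fun p : ℝ × ℝ => R.indicator 1 p * hi.mk _ p.2)
      ((measurable_one.indicator hR).mul (hi.measurable_mk.comp measurable_snd))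

lemma prodint (h h' : ℝ → ℝ) (hn : ∀ z, 0 ≤ z → z ≤ 1 → 0 ≤ h z)
    (hn' : ∀ z, 0 ≤ z → z ≤ 1 → 0 ≤ h' z) (hi : IntervalIntegrable h volume 0 1)
    (hi' : IntervalIntegrable h' volume 0 1) (R : Set (ℝ × ℝ)) (hR : MeasurableSet R) :
    Integrable (R.indicator fun p => h p.1 * h' p.2)
      ((volume.restrict (Set.Ioo (0 : ℝ) 1)).prod (volume.restrict (Set.Ioo (0 : ℝ) 1))) ∧
    (∫⁻ z in Set.Ioo (0 : ℝ) 1, (∫⁻ z' in Set.Ioo (0 : ℝ) 1, R.indicator 1 (z, z') *
          ENNReal.ofReal (h' z')) * ENNReal.ofReal (h z)).toReal =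
      ∫ p, R.indicator (fun p => h p.1 * h' p.2) p
        ∂((volume.restrict (Set.Ioo (0 : ℝ) 1)).prod (volume.restrict (Set.Ioo (0 : ℝ) 1))) := by
  have h1 : Integrable h (volume.restrict (Set.Ioo (0 : ℝ) 1)) :=
    hi.1.mono_set Set.Ioo_subset_Ioc_self
  have h1' : Integrable h' (volume.restrict (Set.Ioo (0 : ℝ) 1)) :=
    hi'.1.mono_set Set.Ioo_subset_Ioc_self
  have h2 : Integrable (R.indicator fun p : ℝ × ℝ => h p.1 * h' p.2)
      ((volume.restrict (Set.Ioo (0 : ℝ) 1)).prod (volume.restrict (Set.Ioo (0 : ℝ) 1))) :=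
    (h1.mul_prod h1').indicator hR
  refine ⟨h2, ?_⟩
  rw [integral_eq_lintegral_of_nonneg_ae ?_ h2.aestronglyMeasurable,
    lintegral_prod _ h2.aestronglyMeasurable.aemeasurable.ennreal_ofReal]
  · congr 1
    refine setLIntegral_congr_fun measurableSet_Ioo fun z hz => ?_
    rw [← lintegral_mul_const' _ _ ENNReal.ofReal_ne_top]
    refine setLIntegral_congr_fun measurableSet_Ioo fun z' hz' => ?_
    simp only [Set.indicator]
    split_ifs
    · rw [ENNReal.ofReal_mul (hn z hz.1.le hz.2.le)]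
      simp only [Pi.one_apply, one_mul]
      rw [mul_comm]
    · simp
  · rw [Measure.prod_restrict]
    refine (ae_restrict_iff' (measurableSet_Ioo.prod measurableSet_Ioo)).2
      (Filter.Eventually.of_forall fun p hp => ?_)
    simp only [Set.indicator, Pi.zero_apply]
    split_ifs
    · exact mul_nonneg (hn _ hp.1.1.le hp.1.2.le) (hn' _ hp.2.1.le hp.2.2.le)
    · exact le_rfl

lemma ww (h h' : ℝ → ℝ) (hn : ∀ z, 0 ≤ z → z ≤ 1 → 0 ≤ h z)
    (hn' : ∀ z, 0 ≤ z → z ≤ 1 → 0 ≤ h' z) (hi : IntervalIntegrable h volume 0 1)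
    (hi' : IntervalIntegrable h' volume 0 1) :
    (∫⁻ z in Set.Ioo (0 : ℝ) 1, (∫⁻ z' in Set.Ioo (0 : ℝ) 1,
        {p : ℝ × ℝ | p.1 < p.2}.indicator 1 (z, z') *
          ENNReal.ofReal (h' z')) * ENNReal.ofReal (h z)).toReal -
      (∫⁻ z in Set.Ioo (0 : ℝ) 1, (∫⁻ z' in Set.Ioo (0 : ℝ) 1,
        {p : ℝ × ℝ | p.2 < p.1}.indicator 1 (z, z') *
          ENNReal.ofReal (h' z')) * ENNReal.ofReal (h z)).toReal = WW h h' := by
  obtain ⟨a1, a2⟩ := prodint h h' hn hn' hi hi' {p : ℝ × ℝ | p.1 < p.2}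
    (measurableSet_lt measurable_fst measurable_snd)
  obtain ⟨b1, b2⟩ := prodint h h' hn hn' hi hi' {p : ℝ × ℝ | p.2 < p.1}
    (measurableSet_lt measurable_snd measurable_fst)
  rw [a2, b2, ← integral_sub a1 b1]
  have hfun : (fun p : ℝ × ℝ => {p : ℝ × ℝ | p.1 < p.2}.indicator (fun p => h p.1 * h' p.2) p -
      {p : ℝ × ℝ | p.2 < p.1}.indicator (fun p => h p.1 * h' p.2) p) =
      fun p => Real.sign (p.2 - p.1) * h p.1 * h' p.2 := by
    funext p
    simp only [Set.indicator, Set.mem_ofPred_eq]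
    rcases lt_trichotomy p.1 p.2 with hlt | heq | hgt
    · rw [if_pos hlt, if_neg (not_lt.2 hlt.le), Real.sign_of_pos (by linarith)]; ring
    · rw [heq]; simp
    · rw [if_neg (not_lt.2 hgt.le), if_pos hgt, Real.sign_of_neg (by linarith)]; ring
  have hint : Integrable (fun p : ℝ × ℝ => Real.sign (p.2 - p.1) * h p.1 * h' p.2)
      ((volume.restrict (Set.Ioo (0 : ℝ) 1)).prod (volume.restrict (Set.Ioo (0 : ℝ) 1))) := by
    rw [← hfun]; exact a1.sub b1
  rw [hfun, integral_prod _ hint]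
  unfold WW
  rw [intervalIntegral.integral_of_le zero_le_one, integral_Ioc_eq_integral_Ioo]
  simp only [intervalIntegral.integral_of_le zero_le_one, integral_Ioc_eq_integral_Ioo]

lemma marg1 (hM : S_MARG) (hS : S_MASS) {φ ψ : ℕ → ℝ} (hφ : ∀ l, 0 ≤ φ l ∧ φ l ≤ 1)
    (hψ : ∀ l, 0 ≤ ψ l ∧ ψ l ≤ 1) (A B : Finset ℕ) (e : Gd A B) (T : Set ℝ)
    (hT : MeasurableSet T) :
    (volume {a ∈ GS φ ψ A B | a e ∈ T}).toReal =
      ∫ z in Set.Ioo (0 : ℝ) 1 ∩ T, dens φ ψ A B (roleOf e) z := by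
  obtain ⟨-, h2, h3, -⟩ := hS φ ψ A B e hφ hψ
  have hT' : MeasurableSet {a : Gd A B → ℝ | a e ∈ T} := (measurable_pi_apply e) hT
  have h4 := lintegral_indicator_one (μ := volume.restrict (GS φ ψ A B)) hT'
  rw [Measure.restrict_apply hT', Set.inter_comm] at h4
  have h5 := hM φ ψ A B e (T.indicator 1) (measurable_one.indicator hT)
  have h6 : volume {a ∈ GS φ ψ A B | a e ∈ T} =
      ∫⁻ z in Set.Ioo (0 : ℝ) 1 ∩ T, ENNReal.ofReal (dens φ ψ A B (roleOf e) z) := by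
    calc _ = _ := h4.symm
      _ = _ := h5
      _ = ∫⁻ z in Set.Ioo (0 : ℝ) 1,
          T.indicator (fun z => ENNReal.ofReal (dens φ ψ A B (roleOf e) z)) z := by
        refine lintegral_congr fun z => ?_
        simp only [Set.indicator]
        split_ifs <;> simp
      _ = _ := by rw [setLIntegral_indicator hT, Set.inter_comm]
  have h7 : IntegrableOn (dens φ ψ A B (roleOf e)) (Set.Ioo (0 : ℝ) 1 ∩ T) :=
    h3.1.mono_set (Set.inter_subset_left.trans Set.Ioo_subset_Ioc_self)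
  rw [integral_eq_lintegral_of_nonneg_ae ?_ h7.aestronglyMeasurable, h6]
  refine (ae_restrict_iff' (measurableSet_Ioo.inter hT)).2
    (Filter.Eventually.of_forall fun z hz => ?_)
  exact (h2 z hz.1.1.le hz.1.2.le).1

end VdAux

open VdAux in
theorem vd : S_FUB → S_GPROD → S_MARG → S_MARG2 → S_MASS → S_VD := by
  intro hF hG hM hM2 hS L N us vs A B hL hAB
  classical
  have hz := fun (θ : Fin L ⊕ Fin L → ℝ) (hθ : θ ∈ OmS L) (k : Fin N) =>
    hS (phi θ) (psi θ) (A k) (B k) (.inl false) (phi_bd hθ) (psi_bd hθ)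
  obtain ⟨u1, u2, u3⟩ := core hF L N us vs A B Set.univ MeasurableSet.univ
  have hVS : {f ∈ VS L N us vs A B |
      ((fun i => f (.inr (.inl i)), fun t e => f (.inr (.inr ⟨t, e⟩))) :
        (Fin L ⊕ Fin L → ℝ) × (∀ t : Fin N, Gd (A t) (B t) → ℝ)) ∈ Set.univ} =
      VS L N us vs A B := by
    ext f
    simp only [Set.mem_univ, and_true, Set.mem_ofPred_eq]
  rw [hVS] at u1 u2
  refine ⟨ne_top_of_le_ne_top ENNReal.one_ne_top u1, ?_, ?_, ?_, ?_, ?_⟩
  · rw [u2]
    refine setIntegral_congr_fun (omS_meas L) fun θ hθ => ?_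
    have h1 : {ω : ∀ t : Fin N, Gd (A t) (B t) → ℝ |
        (∀ t : Fin N, ω t ∈ GS (phi θ) (psi θ) (A t) (B t)) ∧ (θ, ω) ∈ Set.univ} =
        Set.univ.pi (fun t : Fin N => GS (phi θ) (psi θ) (A t) (B t)) := by
      ext ω
      simp only [Set.mem_univ, and_true, Set.mem_ofPred_eq, Set.mem_pi, forall_const]
    simp only [h1]
    rw [volume_pi_pi, ENNReal.toReal_prod]
    congr 1
    refine Finset.prod_congr rfl fun k _ => ?_
    rw [(hz θ hθ k).2.2.2.2.2.1, ENNReal.toReal_ofReal (hz θ hθ k).2.2.2.1]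
  · intro s t e e' hst
    obtain ⟨-, a2, a3⟩ := core hF L N us vs A B
      {p : (Fin L ⊕ Fin L → ℝ) × (∀ t : Fin N, Gd (A t) (B t) → ℝ) | p.2 s e < p.2 t e'}
      (measurableSet_lt ((measurable_pi_apply e).comp ((measurable_pi_apply s).comp measurable_snd))
        ((measurable_pi_apply e').comp ((measurable_pi_apply t).comp measurable_snd)))
    obtain ⟨-, b2, b3⟩ := core hF L N us vs A B
      {p : (Fin L ⊕ Fin L → ℝ) × (∀ t : Fin N, Gd (A t) (B t) → ℝ) | p.2 t e' < p.2 s e}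
      (measurableSet_lt ((measurable_pi_apply e').comp ((measurable_pi_apply t).comp measurable_snd))
        ((measurable_pi_apply e).comp ((measurable_pi_apply s).comp measurable_snd)))
    have h1 := congrArg₂ (fun x y : ℝ => x - y) a2 b2
    rw [← integral_sub a3 b3] at h1
    refine Eq.trans h1 (setIntegral_congr_fun (omS_meas L) fun θ hθ => ?_)
    have c1 := two hG hM hS A B hθ s t hst e e' {p : ℝ × ℝ | p.1 < p.2}
      (measurableSet_lt measurable_fst measurable_snd)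
    have c2 := two hG hM hS A B hθ s t hst e e' {p : ℝ × ℝ | p.2 < p.1}
      (measurableSet_lt measurable_snd measurable_fst)
    obtain ⟨-, n1, i1, -⟩ := hS (phi θ) (psi θ) (A s) (B s) e (phi_bd hθ) (psi_bd hθ)
    obtain ⟨-, n2, i2, -⟩ := hS (phi θ) (psi θ) (A t) (B t) e' (phi_bd hθ) (psi_bd hθ)
    have c3 := ww _ _ (fun z h0 h1 => (n1 z h0 h1).1) (fun z h0 h1 => (n2 z h0 h1).1) i1 i2
    have c1' := congrArg ENNReal.toReal c1
    have c2' := congrArg ENNReal.toReal c2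
    have hp : 0 ≤ ∏ k ∈ (univ.erase s).erase t, ZT (phi θ) (psi θ) (A k) (B k) :=
      Finset.prod_nonneg fun k _ => (hz θ hθ k).2.2.2.1
    rw [ENNReal.toReal_mul, ENNReal.toReal_ofReal hp] at c1' c2'
    have h5 : ∀ (w v1 v2 p q1 q2 W : ℝ), v1 = p * q1 → v2 = p * q2 → q1 - q2 = W →
        w * v1 - w * v2 = w * p * W := by
      intro w v1 v2 p q1 q2 W e1 e2 e3
      rw [e1, e2, ← e3]; ring
    exact h5 _ _ _ _ _ _ _ c1' c2' c3
  · intro t s s' hss
    obtain ⟨-, a2, a3⟩ := core hF L N us vs A B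
      {p : (Fin L ⊕ Fin L → ℝ) × (∀ t : Fin N, Gd (A t) (B t) → ℝ) |
        p.2 t (.inr s) < p.2 t (.inr s')}
      (measurableSet_lt ((measurable_pi_apply _).comp ((measurable_pi_apply t).comp measurable_snd))
        ((measurable_pi_apply _).comp ((measurable_pi_apply t).comp measurable_snd)))
    obtain ⟨-, b2, b3⟩ := core hF L N us vs A B
      {p : (Fin L ⊕ Fin L → ℝ) × (∀ t : Fin N, Gd (A t) (B t) → ℝ) |
        p.2 t (.inr s') < p.2 t (.inr s)}
      (measurableSet_lt ((measurable_pi_apply _).comp ((measurable_pi_apply t).comp measurable_snd))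
        ((measurable_pi_apply _).comp ((measurable_pi_apply t).comp measurable_snd)))
    have h1 := congrArg₂ (fun x y : ℝ => x - y) a2 b2
    rw [← integral_sub a3 b3] at h1
    refine Eq.trans h1 (setIntegral_congr_fun (omS_meas L) fun θ hθ => ?_)
    have c1 := one hG hS A B hθ t {a : Gd (A t) (B t) → ℝ | a (.inr s) < a (.inr s')}
      (measurableSet_lt (measurable_pi_apply _) (measurable_pi_apply _))
    have c2 := one hG hS A B hθ t {a : Gd (A t) (B t) → ℝ | a (.inr s') < a (.inr s)}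
      (measurableSet_lt (measurable_pi_apply _) (measurable_pi_apply _))
    have c3 := hM2 (phi θ) (psi θ) (A t) (B t) s s' hss
    have c1' := congrArg ENNReal.toReal c1
    have c2' := congrArg ENNReal.toReal c2
    have hp : 0 ≤ ∏ k ∈ univ.erase t, ZT (phi θ) (psi θ) (A k) (B k) :=
      Finset.prod_nonneg fun k _ => (hz θ hθ k).2.2.2.1
    rw [ENNReal.toReal_mul, ENNReal.toReal_ofReal hp] at c1' c2'
    have h5 : ∀ (w v1 v2 p q1 q2 W : ℝ), v1 = p * q1 → v2 = p * q2 → q1 - q2 = W →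
        w * v1 - w * v2 = w * p * W := by
      intro w v1 v2 p q1 q2 W e1 e2 e3
      rw [e1, e2, ← e3]; ring
    exact h5 _ _ _ _ _ _ _ c1' c2' c3
  · intro t
    obtain ⟨-, a2, -⟩ := core hF L N us vs A B
      {p : (Fin L ⊕ Fin L → ℝ) × (∀ t : Fin N, Gd (A t) (B t) → ℝ) |
        p.2 t (.inl false) < phi p.1 L}
      (measurableSet_lt ((measurable_pi_apply _).comp ((measurable_pi_apply t).comp measurable_snd))
        ((phi_meas L).comp measurable_fst))
    refine Eq.trans a2 (setIntegral_congr_fun (omS_meas L) fun θ hθ => ?_)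
    have c1 := one hG hS A B hθ t {a : Gd (A t) (B t) → ℝ | a (.inl false) < phi θ L}
      (measurableSet_lt (measurable_pi_apply _) measurable_const)
    have c1' := congrArg ENNReal.toReal c1
    have hp : 0 ≤ ∏ k ∈ univ.erase t, ZT (phi θ) (psi θ) (A k) (B k) :=
      Finset.prod_nonneg fun k _ => (hz θ hθ k).2.2.2.1
    rw [ENNReal.toReal_mul, ENNReal.toReal_ofReal hp] at c1'
    have c3 := marg1 hM hS (phi_bd hθ) (psi_bd hθ) (A t) (B t) (.inl false) (Set.Iio (phi θ L))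
      measurableSet_Iio
    have hset : Set.Ioo (0 : ℝ) 1 ∩ Set.Iio (phi θ L) = Set.Ioo 0 (phi θ L) := by
      ext z
      simp only [Set.mem_inter_iff, Set.mem_Ioo, Set.mem_Iio]
      constructor
      · rintro ⟨⟨h1, h2⟩, h3⟩; exact ⟨h1, h3⟩
      · rintro ⟨h1, h2⟩; exact ⟨⟨h1, h2.trans_le (phi_bd hθ L).2⟩, h2⟩
    rw [hset, ← integral_Ioc_eq_integral_Ioo,
      ← intervalIntegral.integral_of_le (phi_bd hθ L).1] at c3
    have h5 : ∀ (w v1 p q1 W : ℝ), v1 = p * q1 → q1 = W → w * v1 = w * p * W := by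
      intro w v1 p q1 W e1 e3
      rw [e1, ← e3]; ring
    exact h5 _ _ _ _ _ c1' c3
  · intro t
    obtain ⟨-, a2, -⟩ := core hF L N us vs A B
      {p : (Fin L ⊕ Fin L → ℝ) × (∀ t : Fin N, Gd (A t) (B t) → ℝ) |
        psi p.1 L < p.2 t (.inl true)}
      (measurableSet_lt ((psi_meas L).comp measurable_fst)
        ((measurable_pi_apply _).comp ((measurable_pi_apply t).comp measurable_snd)))
    refine Eq.trans a2 (setIntegral_congr_fun (omS_meas L) fun θ hθ => ?_)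
    have c1 := one hG hS A B hθ t {a : Gd (A t) (B t) → ℝ | psi θ L < a (.inl true)}
      (measurableSet_lt measurable_const (measurable_pi_apply _))
    have c1' := congrArg ENNReal.toReal c1
    have hp : 0 ≤ ∏ k ∈ univ.erase t, ZT (phi θ) (psi θ) (A k) (B k) :=
      Finset.prod_nonneg fun k _ => (hz θ hθ k).2.2.2.1
    rw [ENNReal.toReal_mul, ENNReal.toReal_ofReal hp] at c1'
    have c3 := marg1 hM hS (phi_bd hθ) (psi_bd hθ) (A t) (B t) (.inl true) (Set.Ioi (psi θ L))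
      measurableSet_Ioi
    have hset : Set.Ioo (0 : ℝ) 1 ∩ Set.Ioi (psi θ L) = Set.Ioo (psi θ L) 1 := by
      ext z
      simp only [Set.mem_inter_iff, Set.mem_Ioo, Set.mem_Ioi]
      constructor
      · rintro ⟨⟨h1, h2⟩, h3⟩; exact ⟨h3, h2⟩
      · rintro ⟨h1, h2⟩; exact ⟨⟨(psi_bd hθ L).1.trans_lt h1, h2⟩, h1⟩
    rw [hset, ← integral_Ioc_eq_integral_Ioo,
      ← intervalIntegral.integral_of_le (psi_bd hθ L).2] at c3
    have h5 : ∀ (w v1 p q1 W : ℝ), v1 = p * q1 → q1 = W → w * v1 = w * p * W := by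
      intro w v1 p q1 W e1 e3
      rw [e1, ← e3]; ring
    exact h5 _ _ _ _ _ c1' c3

end Pool.Agent.H34.RK
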