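import Pool.Agent.H34.RK.Stm4
import Pool.Agent.H34.RK.Vd

/-!
# Project RK: `S_VDE`, the volume formulas with a weight.
-/

set_option autoImplicit false

open Finset MeasureTheory

namespace Pool.Agent.H34.RK

namespace VdeAux

open VdAux

lemma hmap {L N : ℕ} {us vs : ℕ → ℕ} {A B : ℕ → Finset ℕ} :
    Measurable (fun f : El L N us vs A B → ℝ =>
      ((fun i => f (.inr (.inl i)), fun t e => f (.inr (.inr ⟨t, e⟩))) :
        (Fin L ⊕ Fin L → ℝ) × (∀ t : Fin N, Gd (A t) (B t) → ℝ))) := by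
  refine Measurable.prodMk ?_ ?_
  · exact measurable_pi_lambda _ fun i => measurable_pi_apply _
  · exact measurable_pi_lambda _ fun t => measurable_pi_lambda _ fun e => measurable_pi_apply _

lemma hG0 {L N : ℕ} (A B : ℕ → Finset ℕ) :
    MeasurableSet {p : (Fin L ⊕ Fin L → ℝ) × (∀ t : Fin N, Gd (A t) (B t) → ℝ) |
      (∀ t : Fin N, p.2 t ∈ GS (phi p.1) (psi p.1) (A t) (B t))} := by
  have : {p : (Fin L ⊕ Fin L → ℝ) × (∀ t : Fin N, Gd (A t) (B t) → ℝ) |
      (∀ t : Fin N, p.2 t ∈ GS (phi p.1) (psi p.1) (A t) (B t))} =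
      (⋂ t : Fin N, {p | p.2 t ∈ GS (phi p.1) (psi p.1) (A t) (B t)}) := by
    ext p
    simp only [Set.mem_ofPred_eq, Set.mem_iInter]
  rw [this]
  refine MeasurableSet.iInter fun t => ?_
  exact gs_meas
    (fun p : (Fin L ⊕ Fin L → ℝ) × (∀ t : Fin N, Gd (A t) (B t) → ℝ) => phi p.1)
    (fun p => psi p.1) (fun p => p.2 t)
    (fun l => (phi_meas l).comp measurable_fst) (fun l => (psi_meas l).comp measurable_fst)
    ((measurable_pi_apply t).comp measurable_snd)

/-- The weighted core. -/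
lemma coreE (hF : S_FUB) (L N : ℕ) (us vs : ℕ → ℕ) (A B : ℕ → Finset ℕ)
    (E : (Fin L ⊕ Fin L → ℝ) → ℝ) (hE : Measurable E) (hE1 : ∀ θ, 0 ≤ E θ ∧ E θ ≤ 1)
    (P : Set ((Fin L ⊕ Fin L → ℝ) × (∀ t : Fin N, Gd (A t) (B t) → ℝ))) (hP : MeasurableSet P) :
    (∫⁻ f in {f ∈ VS L N us vs A B |
      ((fun i => f (.inr (.inl i)), fun t e => f (.inr (.inr ⟨t, e⟩))) :
        (Fin L ⊕ Fin L → ℝ) × (∀ t : Fin N, Gd (A t) (B t) → ℝ)) ∈ P},
          ENNReal.ofReal (E (frl f))).toReal =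
      ∫ θ in OmS L, E θ * (wt us vs θ * (volume {ω : ∀ t : Fin N, Gd (A t) (B t) → ℝ |
        (∀ t : Fin N, ω t ∈ GS (phi θ) (psi θ) (A t) (B t)) ∧ (θ, ω) ∈ P}).toReal) ∧
    IntegrableOn (fun θ => E θ * (wt us vs θ * (volume {ω : ∀ t : Fin N, Gd (A t) (B t) → ℝ |
        (∀ t : Fin N, ω t ∈ GS (phi θ) (psi θ) (A t) (B t)) ∧ (θ, ω) ∈ P}).toReal)) (OmS L) := by
  classical
  -- the set of the gadgets
  have hGm : MeasurableSet {p : (Fin L ⊕ Fin L → ℝ) × (∀ t : Fin N, Gd (A t) (B t) → ℝ) |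
      (∀ t : Fin N, p.2 t ∈ GS (phi p.1) (psi p.1) (A t) (B t)) ∧ p ∈ P} := (hG0 A B).inter hP
  set V : (Fin L ⊕ Fin L → ℝ) → ENNReal := fun θ =>
    volume {ω : ∀ t : Fin N, Gd (A t) (B t) → ℝ |
        (∀ t : Fin N, ω t ∈ GS (phi θ) (psi θ) (A t) (B t)) ∧ (θ, ω) ∈ P} with hV
  have hVm : Measurable V := measurable_measure_prodMk_left hGm
  have hV1 : ∀ θ, V θ ≤ 1 := fun θ =>
    (measure_mono fun ω hω => hω.1).trans (gd_le A B (phi θ) (psi θ))
  have hEm : Measurable fun p : (Fin L ⊕ Fin L → ℝ) × (∀ t : Fin N, Gd (A t) (B t) → ℝ) =>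
      ENNReal.ofReal (E p.1) := ENNReal.measurable_ofReal.comp (hE.comp measurable_fst)
  have h1 := hF L N us vs A B (P.indicator fun p => ENNReal.ofReal (E p.1)) (hEm.indicator hP)
  have h2 : ∫⁻ f in VS L N us vs A B, P.indicator (fun p => ENNReal.ofReal (E p.1))
      (((fun i => f (.inr (.inl i)), fun t e => f (.inr (.inr ⟨t, e⟩))) :
        (Fin L ⊕ Fin L → ℝ) × (∀ t : Fin N, Gd (A t) (B t) → ℝ))) =
      ∫⁻ f in {f ∈ VS L N us vs A B |
      ((fun i => f (.inr (.inl i)), fun t e => f (.inr (.inr ⟨t, e⟩))) :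
        (Fin L ⊕ Fin L → ℝ) × (∀ t : Fin N, Gd (A t) (B t) → ℝ)) ∈ P},
          ENNReal.ofReal (E (frl f)) := by
    have h3 := setLIntegral_indicator (μ := volume) (hmap (L := L) (N := N) (us := us) (vs := vs)
      (A := A) (B := B) hP) (t := VS L N us vs A B) (fun f => ENNReal.ofReal (E (frl f)))
    rw [Set.inter_comm] at h3
    exact h3
  have h3 : ∀ θ : Fin L ⊕ Fin L → ℝ, ∫⁻ ω in {ω : ∀ t : Fin N, Gd (A t) (B t) → ℝ |
        ∀ t : Fin N, ω t ∈ GS (phi θ) (psi θ) (A t) (B t)},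
          P.indicator (fun p => ENNReal.ofReal (E p.1)) (θ, ω) = ENNReal.ofReal (E θ) * V θ := by
    intro θ
    have hm : MeasurableSet (Prod.mk θ ⁻¹' P) := measurable_prodMk_left hP
    have h4 := lintegral_indicator_one (μ := volume.restrict
      {ω : ∀ t : Fin N, Gd (A t) (B t) → ℝ |
        ∀ t : Fin N, ω t ∈ GS (phi θ) (psi θ) (A t) (B t)}) hm
    rw [Measure.restrict_apply hm, Set.inter_comm] at h4
    have h5 : (V θ : ENNReal) = ∫⁻ ω in {ω : ∀ t : Fin N, Gd (A t) (B t) → ℝ |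
        ∀ t : Fin N, ω t ∈ GS (phi θ) (psi θ) (A t) (B t)}, P.indicator 1 (θ, ω) := h4.symm
    rw [h5, ← lintegral_const_mul' _ _ ENNReal.ofReal_ne_top]
    refine lintegral_congr fun ω => ?_
    simp only [Set.indicator, Pi.one_apply]
    split_ifs <;> simp
  rw [h2] at h1
  simp only [h3] at h1
  have hE2 : ∀ θ, ENNReal.ofReal (E θ) ≤ 1 := fun θ => by
    rw [← ENNReal.ofReal_one]; exact ENNReal.ofReal_le_ofReal (hE1 θ).2
  have hle : ∀ θ ∈ OmS L, ENNReal.ofReal (wt us vs θ) * (ENNReal.ofReal (E θ) * V θ) ≤ 1 :=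
    fun θ hθ => by
    calc ENNReal.ofReal (wt us vs θ) * (ENNReal.ofReal (E θ) * V θ) ≤ 1 * (1 * 1) :=
          mul_le_mul' (by rw [← ENNReal.ofReal_one]; exact ENNReal.ofReal_le_ofReal (wt_bd hθ).2)
            (mul_le_mul' (hE2 θ) (hV1 θ))
      _ = 1 := by simp
  have hfm : Measurable fun θ => ENNReal.ofReal (wt us vs θ) * (ENNReal.ofReal (E θ) * V θ) :=
    (ENNReal.measurable_ofReal.comp (wt_meas us vs)).mul
      ((ENNReal.measurable_ofReal.comp hE).mul hVm)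
  refine ⟨?_, ?_⟩
  · rw [h1, ← integral_toReal hfm.aemeasurable]
    · refine setIntegral_congr_fun (omS_meas L) fun θ hθ => ?_
      rw [ENNReal.toReal_mul, ENNReal.toReal_mul, ENNReal.toReal_ofReal (wt_bd hθ).1,
        ENNReal.toReal_ofReal (hE1 θ).1]
      ring
    · refine (ae_restrict_iff' (omS_meas L)).2 (Filter.Eventually.of_forall fun θ hθ => ?_)
      exact (hle θ hθ).trans_lt ENNReal.one_lt_top
  · refine Measure.integrableOn_of_bounded (M := 1) ((omS_le L).trans_lt ENNReal.one_lt_top).ne ?_ ?_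
    · exact (hE.mul ((wt_meas us vs).mul hVm.ennreal_toReal)).aestronglyMeasurable
    · refine (ae_restrict_iff' (omS_meas L)).2 (Filter.Eventually.of_forall fun θ hθ => ?_)
      have h5 : (V θ).toReal ≤ 1 := by
        have := ENNReal.toReal_mono ENNReal.one_ne_top (hV1 θ)
        simpa using this
      have h6 : 0 ≤ wt us vs θ * (V θ).toReal := mul_nonneg (wt_bd hθ).1 ENNReal.toReal_nonneg
      rw [Real.norm_eq_abs, abs_of_nonneg (mul_nonneg (hE1 θ).1 h6)]
      exact mul_le_one₀ (hE1 θ).2 h6 (mul_le_one₀ (wt_bd hθ).2 ENNReal.toReal_nonneg h5)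

/-- One coordinate, a function. -/
lemma oneG (hG : S_GPROD) (hM : S_MARG) (hS : S_MASS) {L N : ℕ} (A B : ℕ → Finset ℕ)
    {θ : Fin L ⊕ Fin L → ℝ} (hθ : θ ∈ OmS L) (t : Fin N) (e : Gd (A t) (B t)) (q : ℝ → ℝ)
    (hq : Measurable q) (hq1 : ∀ z, 0 ≤ q z ∧ q z ≤ 1) :
    (∫⁻ ω in {ω : ∀ t : Fin N, Gd (A t) (B t) → ℝ |
      (∀ k : Fin N, ω k ∈ GS (phi θ) (psi θ) (A k) (B k))}, ENNReal.ofReal (q (ω t e))).toReal =
      (∏ k ∈ univ.erase t, ZT (phi θ) (psi θ) (A k) (B k)) *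
        ∫ z in (0 : ℝ)..1, q z * dens (phi θ) (psi θ) (A t) (B t) (roleOf e) z := by
  classical
  have hm : ∀ k : Fin N, MeasurableSet (GS (phi θ) (psi θ) (A k) (B k)) := fun k =>
    gs_meas (fun _ => phi θ) (fun _ => psi θ) (fun w : Gd (A k) (B k) → ℝ => w)
      (fun _ => measurable_const) (fun _ => measurable_const) measurable_id
  have hz := fun k : Fin N => hS (phi θ) (psi θ) (A k) (B k) (.inl false) (phi_bd hθ) (psi_bd hθ)
  have hv : ∀ k : Fin N, volume (GS (phi θ) (psi θ) (A k) (B k)) ≠ ⊤ := fun k => by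
    rw [(hz k).2.2.2.2.2.1]; exact ENNReal.ofReal_ne_top
  have hqm : Measurable fun a : Gd (A t) (B t) → ℝ => ENNReal.ofReal (q (a e)) :=
    ENNReal.measurable_ofReal.comp (hq.comp (measurable_pi_apply e))
  have h1 := (hG N (fun k => Gd (A k) (B k)) (fun k => GS (phi θ) (psi θ) (A k) (B k)) hm hv).1 t
    (fun a => ENNReal.ofReal (q (a e))) hqm
  have h2 := hM (phi θ) (psi θ) (A t) (B t) e (fun z => ENNReal.ofReal (q z))
    (ENNReal.measurable_ofReal.comp hq)
  have hp : (∏ k ∈ univ.erase t, volume (GS (phi θ) (psi θ) (A k) (B k))) =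
      ENNReal.ofReal (∏ k ∈ univ.erase t, ZT (phi θ) (psi θ) (A k) (B k)) := by
    rw [ENNReal.ofReal_prod_of_nonneg fun k _ => (hz k).2.2.2.1]
    simp only [← (hz _).2.2.2.2.2.1]
  have h3 : ∫⁻ ω in {ω : ∀ t : Fin N, Gd (A t) (B t) → ℝ |
      (∀ k : Fin N, ω k ∈ GS (phi θ) (psi θ) (A k) (B k))}, ENNReal.ofReal (q (ω t e)) =
      ENNReal.ofReal (∏ k ∈ univ.erase t, ZT (phi θ) (psi θ) (A k) (B k)) *
      ∫⁻ z in Set.Ioo (0 : ℝ) 1, ENNReal.ofReal (q z) *
        ENNReal.ofReal (dens (phi θ) (psi θ) (A t) (B t) (roleOf e) z) := by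
    rw [← hp]
    refine Eq.trans h1 ?_
    exact congrArg _ h2
  have hp0 : 0 ≤ ∏ k ∈ univ.erase t, ZT (phi θ) (psi θ) (A k) (B k) :=
      Finset.prod_nonneg fun k _ => (hz k).2.2.2.1
  rw [h3, ENNReal.toReal_mul, ENNReal.toReal_ofReal hp0]
  congr 1
  obtain ⟨-, d2, d3, -⟩ := hS (phi θ) (psi θ) (A t) (B t) e (phi_bd hθ) (psi_bd hθ)
  have d4 : IntegrableOn (dens (phi θ) (psi θ) (A t) (B t) (roleOf e)) (Set.Ioo (0 : ℝ) 1) :=
    d3.1.mono_set Set.Ioo_subset_Ioc_self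
  rw [intervalIntegral.integral_of_le zero_le_one, integral_Ioc_eq_integral_Ioo,
    integral_eq_lintegral_of_nonneg_ae ?_ ?_]
  · congr 1
    refine setLIntegral_congr_fun measurableSet_Ioo fun z hz => ?_
    rw [ENNReal.ofReal_mul (hq1 z).1]
  · refine (ae_restrict_iff' measurableSet_Ioo).2 (Filter.Eventually.of_forall fun z hz => ?_)
    exact mul_nonneg (hq1 z).1 (d2 z hz.1.le hz.2.le).1
  · exact hq.aestronglyMeasurable.mul d4.aestronglyMeasurable

end VdeAux

open VdAux VdeAux in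
theorem vde : S_FUB → S_GPROD → S_MARG → S_MARG2 → S_MASS → S_VDE := by
  intro hF hG hM hM2 hS L N us vs A B E hL hAB hE hE1
  classical
  have hz := fun (θ : Fin L ⊕ Fin L → ℝ) (hθ : θ ∈ OmS L) (k : Fin N) =>
    hS (phi θ) (psi θ) (A k) (B k) (.inl false) (phi_bd hθ) (psi_bd hθ)
  obtain ⟨u2, u3⟩ := coreE hF L N us vs A B E hE hE1 Set.univ MeasurableSet.univ
  have hVS : {f ∈ VS L N us vs A B |
      ((fun i => f (.inr (.inl i)), fun t e => f (.inr (.inr ⟨t, e⟩))) :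
        (Fin L ⊕ Fin L → ℝ) × (∀ t : Fin N, Gd (A t) (B t) → ℝ)) ∈ Set.univ} =
      VS L N us vs A B := by
    ext f
    simp only [Set.mem_univ, and_true, Set.mem_ofPred_eq]
  rw [hVS] at u2
  refine ⟨?_, ?_, ?_, ?_⟩
  · rw [u2]
    refine setIntegral_congr_fun (omS_meas L) fun θ hθ => ?_
    have h1 : {ω : ∀ t : Fin N, Gd (A t) (B t) → ℝ |
        (∀ t : Fin N, ω t ∈ GS (phi θ) (psi θ) (A t) (B t)) ∧ (θ, ω) ∈ Set.univ} =
        Set.univ.pi (fun t : Fin N => GS (phi θ) (psi θ) (A t) (B t)) := by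
      ext ω
      simp only [Set.mem_univ, and_true, Set.mem_ofPred_eq, Set.mem_pi, forall_const]
    simp only [h1]
    rw [volume_pi_pi, ENNReal.toReal_prod]
    congr 2
    refine Finset.prod_congr rfl fun k _ => ?_
    rw [(hz θ hθ k).2.2.2.2.2.1, ENNReal.toReal_ofReal (hz θ hθ k).2.2.2.1]
  · intro s t e e' hst
    obtain ⟨a2, a3⟩ := coreE hF L N us vs A B E hE hE1
      {p : (Fin L ⊕ Fin L → ℝ) × (∀ t : Fin N, Gd (A t) (B t) → ℝ) | p.2 s e < p.2 t e'}
      (measurableSet_lt ((measurable_pi_apply e).comp ((measurable_pi_apply s).comp measurable_snd))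
        ((measurable_pi_apply e').comp ((measurable_pi_apply t).comp measurable_snd)))
    obtain ⟨b2, b3⟩ := coreE hF L N us vs A B E hE hE1
      {p : (Fin L ⊕ Fin L → ℝ) × (∀ t : Fin N, Gd (A t) (B t) → ℝ) | p.2 t e' < p.2 s e}
      (measurableSet_lt ((measurable_pi_apply e').comp ((measurable_pi_apply t).comp measurable_snd))
        ((measurable_pi_apply e).comp ((measurable_pi_apply s).comp measurable_snd)))
    have h1 := congrArg₂ (fun x y : ℝ => x - y) a2 b2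
    rw [← integral_sub a3 b3] at h1
    refine Eq.trans h1 (setIntegral_congr_fun (omS_meas L) fun θ hθ => ?_)
    have c1 := two hG hM hS A B hθ s t hst e e' {p : ℝ × ℝ | p.1 < p.2}
      (measurableSet_lt measurable_fst measurable_snd)
    have c2 := two hG hM hS A B hθ s t hst e e' {p : ℝ × ℝ | p.2 < p.1}
      (measurableSet_lt measurable_snd measurable_fst)
    obtain ⟨-, n1, i1, -⟩ := hS (phi θ) (psi θ) (A s) (B s) e (phi_bd hθ) (psi_bd hθ)
    obtain ⟨-, n2, i2, -⟩ := hS (phi θ) (psi θ) (A t) (B t) e' (phi_bd hθ) (psi_bd hθ)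
    have c3 := ww _ _ (fun z h0 h1 => (n1 z h0 h1).1) (fun z h0 h1 => (n2 z h0 h1).1) i1 i2
    have c1' := congrArg ENNReal.toReal c1
    have c2' := congrArg ENNReal.toReal c2
    have hp : 0 ≤ ∏ k ∈ (univ.erase s).erase t, ZT (phi θ) (psi θ) (A k) (B k) :=
      Finset.prod_nonneg fun k _ => (hz θ hθ k).2.2.2.1
    rw [ENNReal.toReal_mul, ENNReal.toReal_ofReal hp] at c1' c2'
    have h5 : ∀ (E w v1 v2 p q1 q2 W : ℝ), v1 = p * q1 → v2 = p * q2 → q1 - q2 = W →
        E * (w * v1) - E * (w * v2) = E * (w * p * W) := by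
      intro E w v1 v2 p q1 q2 W e1 e2 e3
      rw [e1, e2, ← e3]; ring
    exact h5 _ _ _ _ _ _ _ _ c1' c2' c3
  · intro t s s' hss
    obtain ⟨a2, a3⟩ := coreE hF L N us vs A B E hE hE1
      {p : (Fin L ⊕ Fin L → ℝ) × (∀ t : Fin N, Gd (A t) (B t) → ℝ) |
        p.2 t (.inr s) < p.2 t (.inr s')}
      (measurableSet_lt ((measurable_pi_apply _).comp ((measurable_pi_apply t).comp measurable_snd))
        ((measurable_pi_apply _).comp ((measurable_pi_apply t).comp measurable_snd)))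
    obtain ⟨b2, b3⟩ := coreE hF L N us vs A B E hE hE1
      {p : (Fin L ⊕ Fin L → ℝ) × (∀ t : Fin N, Gd (A t) (B t) → ℝ) |
        p.2 t (.inr s') < p.2 t (.inr s)}
      (measurableSet_lt ((measurable_pi_apply _).comp ((measurable_pi_apply t).comp measurable_snd))
        ((measurable_pi_apply _).comp ((measurable_pi_apply t).comp measurable_snd)))
    have h1 := congrArg₂ (fun x y : ℝ => x - y) a2 b2
    rw [← integral_sub a3 b3] at h1
    refine Eq.trans h1 (setIntegral_congr_fun (omS_meas L) fun θ hθ => ?_)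
    have c1 := one hG hS A B hθ t {a : Gd (A t) (B t) → ℝ | a (.inr s) < a (.inr s')}
      (measurableSet_lt (measurable_pi_apply _) (measurable_pi_apply _))
    have c2 := one hG hS A B hθ t {a : Gd (A t) (B t) → ℝ | a (.inr s') < a (.inr s)}
      (measurableSet_lt (measurable_pi_apply _) (measurable_pi_apply _))
    have c3 := hM2 (phi θ) (psi θ) (A t) (B t) s s' hss
    have c1' := congrArg ENNReal.toReal c1
    have c2' := congrArg ENNReal.toReal c2
    have hp : 0 ≤ ∏ k ∈ univ.erase t, ZT (phi θ) (psi θ) (A k) (B k) :=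
      Finset.prod_nonneg fun k _ => (hz θ hθ k).2.2.2.1
    rw [ENNReal.toReal_mul, ENNReal.toReal_ofReal hp] at c1' c2'
    have h5 : ∀ (E w v1 v2 p q1 q2 W : ℝ), v1 = p * q1 → v2 = p * q2 → q1 - q2 = W →
        E * (w * v1) - E * (w * v2) = E * (w * p * W) := by
      intro E w v1 v2 p q1 q2 W e1 e2 e3
      rw [e1, e2, ← e3]; ring
    exact h5 _ _ _ _ _ _ _ _ c1' c2' c3
  · intro t e G hGm hG1
    have hFm : Measurable fun p : (Fin L ⊕ Fin L → ℝ) × (∀ t : Fin N, Gd (A t) (B t) → ℝ) =>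
        ENNReal.ofReal (G (p.1, p.2 t e)) :=
      ENNReal.measurable_ofReal.comp (hGm.comp (measurable_fst.prodMk
        ((measurable_pi_apply e).comp ((measurable_pi_apply t).comp measurable_snd))))
    have h1 := hF L N us vs A B (fun p => ENNReal.ofReal (G (p.1, p.2 t e))) hFm
    have h2 : (∫⁻ f in VS L N us vs A B, ENNReal.ofReal (G (frl f, f (.inr (.inr ⟨t, e⟩))))) = _ :=
      h1
    rw [h2]
    set V : (Fin L ⊕ Fin L → ℝ) → ENNReal := fun θ =>
      ∫⁻ ω in {ω : ∀ t : Fin N, Gd (A t) (B t) → ℝ |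
        ∀ t : Fin N, ω t ∈ GS (phi θ) (psi θ) (A t) (B t)}, ENNReal.ofReal (G (θ, ω t e)) with hV
    have hVm : Measurable V := by
      have h3 := Measurable.lintegral_prod_right'
        (ν := (volume : Measure (∀ t : Fin N, Gd (A t) (B t) → ℝ)))
        (hFm.indicator (hG0 (L := L) (N := N) A B))
      have h4 : V = fun θ => ∫⁻ ω : ∀ t : Fin N, Gd (A t) (B t) → ℝ,
          {p : (Fin L ⊕ Fin L → ℝ) × (∀ t : Fin N, Gd (A t) (B t) → ℝ) |
            (∀ t : Fin N, p.2 t ∈ GS (phi p.1) (psi p.1) (A t) (B t))}.indicator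
            (fun p => ENNReal.ofReal (G (p.1, p.2 t e))) (θ, ω) := by
        funext θ
        have hm : MeasurableSet {ω : ∀ t : Fin N, Gd (A t) (B t) → ℝ |
            ∀ t : Fin N, ω t ∈ GS (phi θ) (psi θ) (A t) (B t)} :=
          measurable_prodMk_left (x := θ) (hG0 (L := L) (N := N) A B)
        simp only [hV]
        rw [← lintegral_indicator hm]
        rfl
      rw [h4]
      exact h3
    have hV1 : ∀ θ, V θ ≤ 1 := fun θ => by
      calc V θ ≤ ∫⁻ ω in {ω : ∀ t : Fin N, Gd (A t) (B t) → ℝ |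
            ∀ t : Fin N, ω t ∈ GS (phi θ) (psi θ) (A t) (B t)}, 1 := by
            refine lintegral_mono fun ω => ?_
            rw [← ENNReal.ofReal_one]; exact ENNReal.ofReal_le_ofReal (hG1 _).2
        _ = volume {ω : ∀ t : Fin N, Gd (A t) (B t) → ℝ |
            ∀ t : Fin N, ω t ∈ GS (phi θ) (psi θ) (A t) (B t)} := by simp
        _ ≤ 1 := gd_le A B (phi θ) (psi θ)
    have hle : ∀ θ ∈ OmS L, ENNReal.ofReal (wt us vs θ) * V θ ≤ 1 := fun θ hθ => by
      calc ENNReal.ofReal (wt us vs θ) * V θ ≤ 1 * 1 :=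
            mul_le_mul' (by rw [← ENNReal.ofReal_one]; exact ENNReal.ofReal_le_ofReal (wt_bd hθ).2)
              (hV1 θ)
        _ = 1 := one_mul _
    have hfm : Measurable fun θ => ENNReal.ofReal (wt us vs θ) * V θ :=
      (ENNReal.measurable_ofReal.comp (wt_meas us vs)).mul hVm
    rw [← integral_toReal hfm.aemeasurable]
    · refine setIntegral_congr_fun (omS_meas L) fun θ hθ => ?_
      rw [ENNReal.toReal_mul, ENNReal.toReal_ofReal (wt_bd hθ).1, mul_assoc]
      congr 1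
      exact oneG hG hM hS A B hθ t e (fun z => G (θ, z)) (hGm.comp measurable_prodMk_left)
        fun z => hG1 _
    · refine (ae_restrict_iff' (omS_meas L)).2 (Filter.Eventually.of_forall fun θ hθ => ?_)
      exact (hle θ hθ).trans_lt ENNReal.one_lt_top

end Pool.Agent.H34.RK
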