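import Pool.Agent.H34.RK.Opvs

/-!
RK-WID: the width of the poset.
-/

set_option autoImplicit false

open Finset MeasureTheory

namespace Pool.Agent.H34.RK

section

variable {L N : ℕ} {us vs : ℕ → ℕ} {A B : ℕ → Finset ℕ}

theorem phi_mono {f : El L N us vs A B → ℝ} (hf : f ∈ VS L N us vs A B) (l l' : ℕ) (h : l ≤ l')
    (hl : l' ≤ L) :
    phi (fun i => f (.inr (.inl i))) l ≤ phi (fun i => f (.inr (.inl i))) l' := by
  induction l', h using Nat.le_induction with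
  | base => exact le_rfl
  | succ l' h ih => exact (ih (by omega)).trans (hf.1.2.1 l' (by omega)).le

theorem psi_anti {f : El L N us vs A B → ℝ} (hf : f ∈ VS L N us vs A B) (l l' : ℕ) (h : l ≤ l')
    (hl : l' ≤ L) :
    psi (fun i => f (.inr (.inl i))) l' ≤ psi (fun i => f (.inr (.inl i))) l := by
  induction l', h using Nat.le_induction with
  | base => exact le_rfl
  | succ l' h ih => exact (hf.1.2.2.1 l' (by omega)).le.trans (ih (by omega))

/-- `a` is always below `b` -/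
def Lt (a b : El L N us vs A B) : Prop := ∀ f ∈ VS L N us vs A B, f a < f b

/-- `a` and `b` are comparable -/
def Cmp (a b : El L N us vs A B) : Prop := a = b ∨ Lt a b ∨ Lt b a

theorem Lt.trans' {a b c : El L N us vs A B} (h1 : Lt a b) (h2 : Lt b c) : Lt a c :=
  fun f hf => (h1 f hf).trans (h2 f hf)

theorem Cmp.symm' {a b : El L N us vs A B} (h : Cmp a b) : Cmp b a := by
  rcases h with h | h | h
  · exact Or.inl h.symm
  · exact Or.inr (Or.inr h)
  · exact Or.inr (Or.inl h)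

/-- the elements of the bottom chain with their keys: `(i, some j)` for the segments, `(i, none)` for
the frontier above segment `i` -/
def botE : (Sg L us) ⊕ (Fin L) → El L N us vs A B
  | .inl s => .inl (.inl s)
  | .inr i => .inr (.inl (.inl i))

def topE : (Sg L vs) ⊕ (Fin L) → El L N us vs A B
  | .inl s => .inl (.inr s)
  | .inr i => .inr (.inl (.inr i))

def keyI {us : ℕ → ℕ} : (Sg L us) ⊕ (Fin L) → Fin L
  | .inl s => s.1
  | .inr i => i

theorem bot_bd {f : El L N us vs A B → ℝ} (hf : f ∈ VS L N us vs A B) (a : (Sg L us) ⊕ (Fin L)) :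
    phi (fun i => f (.inr (.inl i))) (keyI a) < f (botE a) ∧
      f (botE a) ≤ phi (fun i => f (.inr (.inl i))) (keyI a + 1) := by
  rcases a with ⟨i, j⟩ | i
  · have := hf.2.2.1 i j
    exact ⟨this.1, this.2.le⟩
  · have h1 := hf.1.2.1 i i.2
    have h2 := phi_succ (fun i => f (.inr (.inl i))) i
    show phi (fun i => f (.inr (.inl i))) i < f (.inr (.inl (.inl i))) ∧
      f (.inr (.inl (.inl i))) ≤ phi (fun i => f (.inr (.inl i))) (i + 1)
    rw [← h2]
    exact ⟨h1, le_rfl⟩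

theorem top_bd {f : El L N us vs A B → ℝ} (hf : f ∈ VS L N us vs A B) (a : (Sg L vs) ⊕ (Fin L)) :
    psi (fun i => f (.inr (.inl i))) (keyI a + 1) ≤ f (topE a) ∧
      f (topE a) < psi (fun i => f (.inr (.inl i))) (keyI a) := by
  rcases a with ⟨i, j⟩ | i
  · have := hf.2.2.2.2.1 i j
    exact ⟨this.1.le, this.2⟩
  · have h1 := hf.1.2.2.1 i i.2
    have h2 := psi_succ (fun i => f (.inr (.inl i))) i
    show psi (fun i => f (.inr (.inl i))) (i + 1) ≤ f (.inr (.inl (.inr i))) ∧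
      f (.inr (.inl (.inr i))) < psi (fun i => f (.inr (.inl i))) i
    rw [← h2]
    exact ⟨le_rfl, h1⟩

theorem bot_lt {a b : (Sg L us) ⊕ (Fin L)} (h : keyI a < keyI b) :
    Lt (botE a : El L N us vs A B) (botE b) := by
  intro f hf
  have h1 := bot_bd hf a
  have h2 := bot_bd hf b
  have h3 := phi_mono hf (keyI a + 1) (keyI b) h (keyI b).2.le
  linarith [h1.2, h2.1]

theorem top_lt {a b : (Sg L vs) ⊕ (Fin L)} (h : keyI a < keyI b) :
    Lt (topE b : El L N us vs A B) (topE a) := by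
  intro f hf
  have h1 := top_bd hf a
  have h2 := top_bd hf b
  have h3 := psi_anti hf (keyI a + 1) (keyI b) h (keyI b).2.le
  linarith [h1.1, h2.2]

theorem bot_cmp (a b : (Sg L us) ⊕ (Fin L)) : Cmp (botE a : El L N us vs A B) (botE b) := by
  rcases lt_trichotomy (keyI a) (keyI b) with h | h | h
  · exact Or.inr (Or.inl (bot_lt h))
  · rcases a with ⟨i, j⟩ | i <;> rcases b with ⟨i', j'⟩ | i'
    · change i = i' at h
      subst h
      rcases lt_trichotomy j j' with h1 | h1 | h1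
      · exact Or.inr (Or.inl fun f hf => hf.2.1 i j j' h1)
      · subst h1; exact Or.inl rfl
      · exact Or.inr (Or.inr fun f hf => hf.2.1 i j' j h1)
    · change i = i' at h
      subst h
      refine Or.inr (Or.inl fun f hf => ?_)
      have h1 := (hf.2.2.1 i j).2
      rw [phi_succ] at h1
      exact h1
    · change i = i' at h
      subst h
      refine Or.inr (Or.inr fun f hf => ?_)
      have h1 := (hf.2.2.1 i j').2
      rw [phi_succ] at h1
      exact h1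
    · change i = i' at h
      subst h
      exact Or.inl rfl
  · exact Or.inr (Or.inr (bot_lt h))

theorem top_cmp (a b : (Sg L vs) ⊕ (Fin L)) : Cmp (topE a : El L N us vs A B) (topE b) := by
  rcases lt_trichotomy (keyI a) (keyI b) with h | h | h
  · exact Or.inr (Or.inr (top_lt h))
  · rcases a with ⟨i, j⟩ | i <;> rcases b with ⟨i', j'⟩ | i'
    · change i = i' at h
      subst h
      rcases lt_trichotomy j j' with h1 | h1 | h1
      · exact Or.inr (Or.inl fun f hf => hf.2.2.2.1 i j j' h1)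
      · subst h1; exact Or.inl rfl
      · exact Or.inr (Or.inr fun f hf => hf.2.2.2.1 i j' j h1)
    · change i = i' at h
      subst h
      refine Or.inr (Or.inr fun f hf => ?_)
      have h1 := (hf.2.2.2.2.1 i j).1
      rw [psi_succ] at h1
      exact h1
    · change i = i' at h
      subst h
      refine Or.inr (Or.inl fun f hf => ?_)
      have h1 := (hf.2.2.2.2.1 i j').1
      rw [psi_succ] at h1
      exact h1
    · change i = i' at h
      subst h
      exact Or.inl rfl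
  · exact Or.inr (Or.inl (top_lt h))

/-- lower centre, upper centre, satellites -/
def lo (t : Fin N) : El L N us vs A B := .inr (.inr ⟨t, .inl false⟩)
def hi (t : Fin N) : El L N us vs A B := .inr (.inr ⟨t, .inl true⟩)
def sat (t : Fin N) (s : {l : ℕ // l ∈ A t} ⊕ {l : ℕ // l ∈ B t}) : El L N us vs A B :=
  .inr (.inr ⟨t, .inr s⟩)

theorem lo_sat (t : Fin N) (s : {l : ℕ // l ∈ A t} ⊕ {l : ℕ // l ∈ B t}) :
    Lt (lo t : El L N us vs A B) (sat t s) := fun _ hf => ((hf.2.2.2.2.2 t).2.2.1 s).1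

theorem sat_hi (t : Fin N) (s : {l : ℕ // l ∈ A t} ⊕ {l : ℕ // l ∈ B t}) :
    Lt (sat t s : El L N us vs A B) (hi t) := fun _ hf => ((hf.2.2.2.2.2 t).2.2.1 s).2

theorem bot_sat (t : Fin N) (l : {l : ℕ // l ∈ A t}) (hl : (l : ℕ) = L)
    (a : (Sg L us) ⊕ (Fin L)) : Lt (botE a : El L N us vs A B) (sat t (.inl l)) := by
  intro f hf
  have h1 := bot_bd hf a
  have h2 := phi_mono hf (keyI a + 1) L (keyI a).2 le_rfl
  have h3 := (hf.2.2.2.2.2 t).2.2.2.1 l
  rw [hl] at h3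
  have h4 : phi (fun i => f (.inr (.inl i))) L < f (sat t (.inl l)) := h3
  linarith [h1.2]

theorem sat_top (t : Fin N) (l : {l : ℕ // l ∈ B t}) (hl : (l : ℕ) = L)
    (a : (Sg L vs) ⊕ (Fin L)) : Lt (sat t (.inr l) : El L N us vs A B) (topE a) := by
  intro f hf
  have h1 := top_bd hf a
  have h2 := psi_anti hf (keyI a + 1) L (keyI a).2 le_rfl
  have h3 := (hf.2.2.2.2.2 t).2.2.2.2 l
  rw [hl] at h3
  have h4 : f (sat t (.inr l)) < psi (fun i => f (.inr (.inl i))) L := h3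
  linarith [h1.1]

/-- the cover by chains -/
def cov (t0 : Fin N) (hA : ∀ t : Fin N, L ∈ A t) (hB : ∀ t : Fin N, L ∈ B t) :
    El L N us vs A B → Σ t : Fin N, {l : ℕ // l ∈ A t} ⊕ {l : ℕ // l ∈ B t}
  | .inl (.inl _) => ⟨t0, .inl ⟨L, hA t0⟩⟩
  | .inl (.inr _) => ⟨t0, .inr ⟨L, hB t0⟩⟩
  | .inr (.inl (.inl _)) => ⟨t0, .inl ⟨L, hA t0⟩⟩
  | .inr (.inl (.inr _)) => ⟨t0, .inr ⟨L, hB t0⟩⟩
  | .inr (.inr ⟨t, .inl false⟩) => if t = t0 then ⟨t0, .inr ⟨L, hB t0⟩⟩ else ⟨t, .inl ⟨L, hA t⟩⟩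
  | .inr (.inr ⟨t, .inl true⟩) => ⟨t, .inl ⟨L, hA t⟩⟩
  | .inr (.inr ⟨t, .inr s⟩) => ⟨t, s⟩

/-- the cases of an element over a given satellite -/
theorem cov_cases (t0 : Fin N) (hA : ∀ t : Fin N, L ∈ A t) (hB : ∀ t : Fin N, L ∈ B t)
    (a : El L N us vs A B) :
    ((∃ s, a = botE s) ∧ cov t0 hA hB a = ⟨t0, .inl ⟨L, hA t0⟩⟩) ∨
    ((∃ s, a = topE s) ∧ cov t0 hA hB a = ⟨t0, .inr ⟨L, hB t0⟩⟩) ∨
    (a = lo t0 ∧ cov t0 hA hB a = ⟨t0, .inr ⟨L, hB t0⟩⟩) ∨
    (∃ t, t ≠ t0 ∧ a = lo t ∧ cov t0 hA hB a = ⟨t, .inl ⟨L, hA t⟩⟩) ∨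
    (∃ t, a = hi t ∧ cov t0 hA hB a = ⟨t, .inl ⟨L, hA t⟩⟩) ∨
    (∃ t s, a = sat t s ∧ cov t0 hA hB a = ⟨t, s⟩) := by
  rcases a with (s | s) | ((i | i) | ⟨t, e | s⟩)
  · exact Or.inl ⟨⟨.inl s, rfl⟩, rfl⟩
  · exact Or.inr (Or.inl ⟨⟨.inl s, rfl⟩, rfl⟩)
  · exact Or.inl ⟨⟨.inr i, rfl⟩, rfl⟩
  · exact Or.inr (Or.inl ⟨⟨.inr i, rfl⟩, rfl⟩)
  · cases e
    · by_cases ht : t = t0
      · subst ht
        refine Or.inr (Or.inr (Or.inl ⟨rfl, ?_⟩))
        exact if_pos rfl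
      · refine Or.inr (Or.inr (Or.inr (Or.inl ⟨t, ht, rfl, ?_⟩)))
        exact if_neg ht
    · exact Or.inr (Or.inr (Or.inr (Or.inr (Or.inl ⟨t, rfl, rfl⟩))))
  · exact Or.inr (Or.inr (Or.inr (Or.inr (Or.inr ⟨t, s, rfl, rfl⟩))))

theorem inl_ne_inr {t t' : Fin N} {x : {l : ℕ // l ∈ A t}} {y : {l : ℕ // l ∈ B t'}}
    (h : (⟨t, .inl x⟩ : Σ t : Fin N, {l : ℕ // l ∈ A t} ⊕ {l : ℕ // l ∈ B t}) = ⟨t', .inr y⟩) :
    False := by
  have h1 : t = t' := congrArg Sigma.fst h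
  subst h1
  simp at h

/-- the fibres are chains -/
theorem cov_cmp (t0 : Fin N) (hA : ∀ t : Fin N, L ∈ A t) (hB : ∀ t : Fin N, L ∈ B t)
    (a b : El L N us vs A B) (h : cov t0 hA hB a = cov t0 hA hB b) : Cmp a b := by
  have h1 := cov_cases t0 hA hB a
  have h2 := cov_cases t0 hA hB b
  rw [h] at h1
  rcases h1 with ⟨⟨s, rfl⟩, h1⟩ | ⟨⟨s, rfl⟩, h1⟩ | ⟨rfl, h1⟩ | ⟨t, ht, rfl, h1⟩ | ⟨t, rfl, h1⟩ |
    ⟨t, s, rfl, h1⟩ <;>
  rcases h2 with ⟨⟨s', rfl⟩, h2⟩ | ⟨⟨s', rfl⟩, h2⟩ | ⟨rfl, h2⟩ | ⟨t', ht', rfl, h2⟩ | ⟨t', rfl, h2⟩ |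
    ⟨t', s', rfl, h2⟩ <;> rw [h2] at h1
  -- a = bottom
  · exact bot_cmp s s'
  · exact (inl_ne_inr h1.symm).elim
  · exact (inl_ne_inr h1.symm).elim
  · exact absurd (congrArg Sigma.fst h1) ht'
  · have h3 : t' = t0 := congrArg Sigma.fst h1
    subst h3
    exact Or.inr (Or.inl ((bot_sat t' ⟨L, hA t'⟩ rfl s).trans' (sat_hi t' _)))
  · have h3 : t' = t0 := congrArg Sigma.fst h1
    subst h3
    have h4 : s' = .inl ⟨L, hA t'⟩ := by simpa using h1
    subst h4
    exact Or.inr (Or.inl (bot_sat t' ⟨L, hA t'⟩ rfl s))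
  -- a = top
  · exact (inl_ne_inr h1).elim
  · exact top_cmp s s'
  · exact Or.inr (Or.inr ((lo_sat t0 (.inr ⟨L, hB t0⟩)).trans' (sat_top t0 ⟨L, hB t0⟩ rfl s)))
  · exact absurd (congrArg Sigma.fst h1) ht'
  · exact (inl_ne_inr h1).elim
  · have h3 : t' = t0 := congrArg Sigma.fst h1
    subst h3
    have h4 : s' = .inr ⟨L, hB t'⟩ := by simpa using h1
    subst h4
    exact Or.inr (Or.inr (sat_top t' ⟨L, hB t'⟩ rfl s))
  -- a = lo t0
  · exact (inl_ne_inr h1).elim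
  · exact Or.inr (Or.inl ((lo_sat t0 (.inr ⟨L, hB t0⟩)).trans' (sat_top t0 ⟨L, hB t0⟩ rfl s')))
  · exact Or.inl rfl
  · exact absurd (congrArg Sigma.fst h1) ht'
  · exact (inl_ne_inr h1).elim
  · have h3 : t' = t0 := congrArg Sigma.fst h1
    subst h3
    exact Or.inr (Or.inl (lo_sat t' s'))
  -- a = lo t, t ≠ t0
  · exact absurd (congrArg Sigma.fst h1).symm ht
  · exact (inl_ne_inr h1.symm).elim
  · exact (inl_ne_inr h1.symm).elim
  · have h3 : t' = t := congrArg Sigma.fst h1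
    subst h3
    exact Or.inl rfl
  · have h3 : t' = t := congrArg Sigma.fst h1
    subst h3
    exact Or.inr (Or.inl ((lo_sat t' (.inl ⟨L, hA t'⟩)).trans' (sat_hi t' _)))
  · have h3 : t' = t := congrArg Sigma.fst h1
    subst h3
    exact Or.inr (Or.inl (lo_sat t' s'))
  -- a = hi t
  · have h3 : t0 = t := congrArg Sigma.fst h1
    subst h3
    exact Or.inr (Or.inr ((bot_sat t0 ⟨L, hA t0⟩ rfl s').trans' (sat_hi t0 _)))
  · exact (inl_ne_inr h1.symm).elim
  · exact (inl_ne_inr h1.symm).elim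
  · have h3 : t' = t := congrArg Sigma.fst h1
    subst h3
    exact Or.inr (Or.inr ((lo_sat t' (.inl ⟨L, hA t'⟩)).trans' (sat_hi t' _)))
  · have h3 : t' = t := congrArg Sigma.fst h1
    subst h3
    exact Or.inl rfl
  · have h3 : t' = t := congrArg Sigma.fst h1
    subst h3
    exact Or.inr (Or.inr (sat_hi t' s'))
  -- a = sat t s
  · have h3 : t0 = t := congrArg Sigma.fst h1
    subst h3
    have h4 : s = .inl ⟨L, hA t0⟩ := by simpa using h1.symm
    subst h4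
    exact Or.inr (Or.inr (bot_sat t0 ⟨L, hA t0⟩ rfl s'))
  · have h3 : t0 = t := congrArg Sigma.fst h1
    subst h3
    have h4 : s = .inr ⟨L, hB t0⟩ := by simpa using h1.symm
    subst h4
    exact Or.inr (Or.inl (sat_top t0 ⟨L, hB t0⟩ rfl s'))
  · have h3 : t0 = t := congrArg Sigma.fst h1
    subst h3
    exact Or.inr (Or.inr (lo_sat t0 s))
  · have h3 : t' = t := congrArg Sigma.fst h1
    subst h3
    exact Or.inr (Or.inr (lo_sat t' s))
  · have h3 : t' = t := congrArg Sigma.fst h1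
    subst h3
    exact Or.inr (Or.inl (sat_hi t' s))
  · have h3 : t' = t := congrArg Sigma.fst h1
    subst h3
    have h4 : s' = s := by simpa using h1
    subst h4
    exact Or.inl rfl

end

theorem wid : S_OPVS → S_WID := by
  intro hopvs L N m us vs A B hL hN hm hAB hne
  classical
  have hcard : Fintype.card (Σ t : Fin N, {l : ℕ // l ∈ A t} ⊕ {l : ℕ // l ∈ B t}) = 2 * m * N := by
    rw [Fintype.card_sigma]
    have h1 : ∀ t : Fin N, Fintype.card ({l : ℕ // l ∈ A t} ⊕ {l : ℕ // l ∈ B t}) = 2 * m := by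
      intro t
      obtain ⟨_, _, h3, h4, _, _⟩ := hAB t t.2
      rw [Fintype.card_sum, Fintype.card_coe, Fintype.card_coe, h3, h4]
      ring
    rw [Finset.sum_congr rfl fun t _ => h1 t, Finset.sum_const, Finset.card_univ, Fintype.card_fin,
      smul_eq_mul]
    ring
  have hle : ∀ a b : El L N us vs A B,
      (@LE.le _ (po L N us vs A B hne).toLE a b) ↔ a = b ∨ ∀ f ∈ VS L N us vs A B, f a < f b :=
    fun a b => Iff.rfl
  refine ⟨?_, ?_⟩
  · refine ⟨univ.image fun s : (Σ t : Fin N, {l : ℕ // l ∈ A t} ⊕ {l : ℕ // l ∈ B t}) =>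
      (.inr (.inr ⟨s.1, .inr s.2⟩) : El L N us vs A B), ?_, ?_⟩
    · rw [Finset.coe_image, Finset.coe_univ, Set.image_univ]
      rintro _ ⟨s, rfl⟩ _ ⟨s', rfl⟩ hss' h
      rcases (hle _ _).1 h with h | h
      · exact hss' h
      · obtain ⟨f, hf, hfz⟩ := (hopvs L N us vs A B hL
          (fun t ht => ⟨(hAB t ht).1, (hAB t ht).2.1⟩)).1 (fun _ => 1 / 2) (fun s => by norm_num)
        have h1 := h f hf
        rw [hfz s, hfz s'] at h1
        exact lt_irrefl _ h1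
    · rw [Finset.card_image_of_injective, Finset.card_univ, hcard]
      rintro ⟨t, s⟩ ⟨t', s'⟩ h
      simp only [Sum.inr.injEq, Sigma.mk.injEq] at h
      obtain ⟨h1, h2⟩ := h
      subst h1
      simp only [heq_eq_eq, Sum.inr.injEq] at h2
      subst h2
      rfl
  · intro s hs
    have hA : ∀ t : Fin N, L ∈ A t := fun t => (hAB t t.2).2.2.2.2.1
    have hB : ∀ t : Fin N, L ∈ B t := fun t => (hAB t t.2).2.2.2.2.2
    rw [← hcard, ← Finset.card_univ]
    refine Finset.card_le_card_of_injOn (cov ⟨0, hN⟩ hA hB) (fun _ _ => Finset.mem_univ _) ?_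
    intro a ha b hb hab
    by_contra hne'
    rcases cov_cmp ⟨0, hN⟩ hA hB a b hab with h | h | h
    · exact hne' h
    · exact hs ha hb hne' ((hle a b).2 (Or.inr h))
    · exact hs hb ha (Ne.symm hne') ((hle b a).2 (Or.inr h))

end Pool.Agent.H34.RK
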