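import Pool.Agent.H34.RK.Stm4
import Pool.Agent.H34.RK.Wid

/-!
RK-WID2: the width of the poset with the extra pairs.
-/

set_option autoImplicit false

open Finset MeasureTheory

namespace Pool.Agent.H34.RK

theorem wid2 : S_OPVS2 → S_WID2 := by
  intro hopvs L N r m us vs A B hL hN hm hr hAB hne
  classical
  have hcard : Fintype.card ((Σ t : Fin N, {l : ℕ // l ∈ A t} ⊕ {l : ℕ // l ∈ B t}) ⊕ Fin r) =
      2 * m * N + r := by
    rw [Fintype.card_sum, Fintype.card_sigma, Fintype.card_fin]
    have h1 : ∀ t : Fin N, Fintype.card ({l : ℕ // l ∈ A t} ⊕ {l : ℕ // l ∈ B t}) = 2 * m := by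
      intro t
      obtain ⟨_, _, h3, h4, _, _⟩ := hAB t t.2
      rw [Fintype.card_sum, Fintype.card_coe, Fintype.card_coe, h3, h4]
      ring
    rw [Finset.sum_congr rfl fun t _ => h1 t, Finset.sum_const, Finset.card_univ, Fintype.card_fin,
      smul_eq_mul]
    ring
  have hle : ∀ a b : El2 L N r us vs A B,
      (@LE.le _ (po2 L N r us vs A B hne).toLE a b) ↔
        a = b ∨ ∀ f ∈ VS2 L N r us vs A B, f a < f b :=
    fun a b => Iff.rfl
  refine ⟨?_, ?_⟩
  · let φ : (Σ t : Fin N, {l : ℕ // l ∈ A t} ⊕ {l : ℕ // l ∈ B t}) ⊕ Fin r →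
      El2 L N r us vs A B := fun s => match s with
        | .inl s => .inl (.inr (.inr ⟨s.1, .inr s.2⟩))
        | .inr j => .inr (j, false)
    obtain ⟨f, hf, hfz, hfe⟩ := (hopvs L N r us vs A B hL hr
      (fun t ht => ⟨(hAB t ht).1, (hAB t ht).2.1⟩)).1 (fun _ => 1 / 2) (fun _ => 1 / 2)
        (fun s => by norm_num) (fun j => by norm_num)
    have hval : ∀ s, f (φ s) = 1 / 2 := by
      rintro (s | j)
      · exact hfz s
      · exact hfe j
    refine ⟨univ.image φ, ?_, ?_⟩
    · rw [Finset.coe_image, Finset.coe_univ, Set.image_univ]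
      rintro _ ⟨s, rfl⟩ _ ⟨s', rfl⟩ hss' h
      rcases (hle _ _).1 h with h | h
      · exact hss' h
      · have h1 := h f hf
        rw [hval s, hval s'] at h1
        exact lt_irrefl _ h1
    · rw [Finset.card_image_of_injective, Finset.card_univ, hcard]
      rintro (⟨t, s⟩ | j) (⟨t', s'⟩ | j') h
      · simp only [φ, Sum.inl.injEq, Sum.inr.injEq, Sigma.mk.injEq] at h
        obtain ⟨h1, h2⟩ := h
        subst h1
        simp only [heq_eq_eq, Sum.inr.injEq] at h2
        subst h2
        rfl
      · simp [φ] at h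
      · simp [φ] at h
      · simp only [φ, Sum.inr.injEq, Prod.mk.injEq, and_true] at h
        rw [h]
  · intro s hs
    have hA : ∀ t : Fin N, L ∈ A t := fun t => (hAB t t.2).2.2.2.2.1
    have hB : ∀ t : Fin N, L ∈ B t := fun t => (hAB t t.2).2.2.2.2.2
    rw [← hcard, ← Finset.card_univ]
    let c : El2 L N r us vs A B →
      (Σ t : Fin N, {l : ℕ // l ∈ A t} ⊕ {l : ℕ // l ∈ B t}) ⊕ Fin r := fun a => match a with
        | .inl a => .inl (cov ⟨0, hN⟩ hA hB a)
        | .inr (j, _) => .inr j
    refine Finset.card_le_card_of_injOn c (fun _ _ => Finset.mem_univ _) ?_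
    intro a ha b hb hab
    by_contra hne'
    -- the fibres are chains
    have hcmp : (∀ f ∈ VS2 L N r us vs A B, f a < f b) ∨ (∀ f ∈ VS2 L N r us vs A B, f b < f a) := by
      rcases a with a | ⟨j, x⟩ <;> rcases b with b | ⟨j', x'⟩
      · have hab' : cov ⟨0, hN⟩ hA hB a = cov ⟨0, hN⟩ hA hB b := by
          simpa [c] using hab
        rcases cov_cmp ⟨0, hN⟩ hA hB a b hab' with h | h | h
        · exact absurd (by rw [h]) hne'
        · exact Or.inl fun f hf => h _ hf.1
        · exact Or.inr fun f hf => h _ hf.1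
      · simp [c] at hab
      · simp [c] at hab
      · have hj : j = j' := by simpa [c] using hab
        subst hj
        cases x <;> cases x'
        · exact absurd rfl hne'
        · exact Or.inl fun f hf => (hf.2 j).2.1
        · exact Or.inr fun f hf => (hf.2 j).2.1
        · exact absurd rfl hne'
    rcases hcmp with h | h
    · exact hs ha hb hne' ((hle a b).2 (Or.inr h))
    · exact hs hb ha (Ne.symm hne') ((hle b a).2 (Or.inr h))

end Pool.Agent.H34.RK
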