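import Pool.Agent.H34.RK.Asm1
import Pool.Agent.H34.RK.Grad
import Pool.Agent.H34.RK.Hzl1
import Pool.Agent.H34.RK.Marg2
import Pool.Agent.H34.RK.Vde
import Pool.Agent.H34.RK.Opvs2
import Pool.Agent.H34.RK.Wid2
import Pool.Agent.H34.RK.Pg
import Pool.Agent.H34.RK.Ideal2
import Pool.Agent.H34.RK.Mainf2
import Pool.Agent.H34.RK.Trans
import Pool.Agent.H34.RK.Fin_

/-! Assembly, part 2. -/

set_option autoImplicit false

namespace Pool.Agent.H34.RK.Asm

theorem t_hzl1 : S_HZL1 := hzl1 reg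
theorem t_grad : S_GRAD := grad t_lc reg t_zb
theorem t_conc' : S_CONC := t_conc t_grad
theorem t_ideal2 : S_IDEAL2 :=
  ideal2 code t_t1 t_t3 (t4 t_hzl1 reg) t_t4s t_t5 dual blkcard mom reg
theorem t_vde : S_VDE := vde t_fub gprod marg marg2 t_mass
theorem t_wid2 : S_WID2 := wid2 opvs2
theorem t_pg : S_PG := pg reg t_zb dual

end Pool.Agent.H34.RK.Asm
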