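import Pool.Agent.H34.RK.B2.Gd

/-!
# RK-BAL2: the balance constant of the poset with extra pairs
-/

set_option autoImplicit false

open Finset MeasureTheory

namespace Pool.Agent.H34.RK

open BALF B2

theorem balf2 (hP1 : S_P1) (hOPVS : S_OPVS2) (hWID : S_WID2) (hVDE : S_VDE) (hX : S_X)
    (hCONC : S_CONC) (hPERT : S_PERT) (hMASS : S_MASS) (hZB : S_ZB) (hT6 : S_T6) (hPAIR : S_PAIR)
    (hPG : S_PG) : S_BAL2 := by
  intro g η L m N r A B hg hL hgL hm hN hη hη1 hηg hr hηN hcard hWWp hsame
  obtain ⟨us, vs, hI, hbadI⟩ := hCONC g L m N A B hg hL hgL (by omega) hN hcard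
  set δ : ℝ := (N : ℝ) ^ (-(1 / 4) : ℝ) with hδdef
  obtain ⟨hN1, hδ0, hδg, hg8, h2000, h10000, hν⟩ :=
    numbers hg hL hgL hN hη (by linarith) hδdef hηN
  have hL' : (100 : ℝ) ≤ L := by exact_mod_cast hL
  have hL1 : 1 ≤ L := by omega
  obtain ⟨hgs2, hgs1, hgs0⟩ := glsmall hg hL hg8
  have hsub : ∀ t < N, Sub1 L (A t) ∧ Sub1 L (B t) := fun t ht =>
    ⟨(hcard t ht).2.2.1, (hcard t ht).2.2.2.1⟩
  have hop := hOPVS L N r us vs A B hL1 hr hsub
  have hne : (VS2 L N r us vs A B).Nonempty := by
    obtain ⟨f, hf, _⟩ := hop.1 (fun _ => 1 / 2) (fun _ => 1 / 2) (fun _ => by norm_num)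
      (fun _ => by norm_num)
    exact ⟨f, hf⟩
  have hwid := hWID L N r m us vs A B hL1 hN1 (by omega) hr
    (fun t ht => ⟨(hsub t ht).1, (hsub t ht).2, (hcard t ht).1, (hcard t ht).2.1,
      (hcard t ht).2.2.2.2.1, (hcard t ht).2.2.2.2.2⟩) hne
  letI inst := po2 L N r us vs A B hne
  refine ⟨El2 L N r us vs A B, inferInstance, inst, hwid, ?_⟩
  have hOm : MeasurableSet (OmS L) := meas_OmS L
  -- the good frontiers
  set bad : Set (Fr L) := {θ | ∃ l, 1 ≤ l ∧ l ≤ L ∧ (δ < |phi θ l - g * l| ∨
        δ < |psi θ l - (1 - g * l)|)} with hbaddef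
  have hbadm : MeasurableSet bad := by
    have h1 : bad = ⋃ l, ({θ : Fr L | 1 ≤ l} ∩ ({θ | l ≤ L} ∩ ({θ | δ < |phi θ l - g * l|} ∪
        {θ | δ < |psi θ l - (1 - g * l)|}))) := by
      ext θ
      simp only [hbaddef, Set.mem_ofPred_eq, Set.mem_iUnion, Set.mem_inter_iff, Set.mem_union]
    rw [h1]
    refine MeasurableSet.iUnion fun l => (MeasurableSet.const _).inter
      ((MeasurableSet.const _).inter (MeasurableSet.union ?_ ?_))
    · exact measurableSet_lt measurable_const ((meas_phi l).sub measurable_const).norm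
    · exact measurableSet_lt measurable_const ((meas_psi l).sub measurable_const).norm
  have hgood : ∀ θ : Fr L, θ ∉ bad → ∀ l, 1 ≤ l → l ≤ L →
      |phi θ l - g * l| ≤ δ ∧ |psi θ l - (1 - g * l)| ≤ δ := by
    intro θ hθ l h1 h2
    constructor
    · by_contra hcon
      exact hθ ⟨l, h1, h2, Or.inl (not_le.1 hcon)⟩
    · by_contra hcon
      exact hθ ⟨l, h1, h2, Or.inr (not_le.1 hcon)⟩
  have hφg : ∀ θ : Fr L, θ ∉ bad → ∀ l, 1 ≤ l → l ≤ L → phi θ l ≤ 2 * (g * L) := by
    intro θ hθ l h1 h2
    have h3 := (abs_le.1 (hgood θ hθ l h1 h2).1).2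
    have h4 : g * (l : ℝ) ≤ g * L := mul_le_mul_of_nonneg_left (by exact_mod_cast h2) hg.le
    linarith
  have hZm : ∀ k : Fin N, Measurable fun θ : Fr L => ZT (phi θ) (psi θ) (A k) (B k) :=
    fun k => meas_ZT _ _
  have hZ : ∀ θ ∈ OmS L, ∀ k : Fin N, 0 ≤ ZT (phi θ) (psi θ) (A k) (B k) ∧
      ZT (phi θ) (psi θ) (A k) (B k) ≤ 1 := by
    intro θ hθ k
    have h1 := hMASS (phi θ) (psi θ) (A k) (B k) (.inl false) (phi_mem hθ) (psi_mem hθ)
    exact ⟨h1.2.2.2.1, h1.2.2.2.2.1⟩
  have hν0 : 0 ≤ 1 / (N : ℝ) := by positivity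
  have hε : 20 * (L : ℝ) * δ ≤ η := by
    have h0 : 0 ≤ (L : ℝ) * δ := by positivity
    linarith
  -- the weights
  obtain ⟨hIE, hbE⟩ := weights (E := EE r) (W := fun θ : Fr L => wt us vs θ *
      ∏ k : Fin N, ZT (phi θ) (psi θ) (A k) (B k)) hOm hbadm hI hbadI hν0 (by linarith)
    (EE_meas r) ((meas_wt us vs).mul (Finset.measurable_prod _ fun k _ => hZm k))
    (fun θ hθ => mul_nonneg (wt_nonneg hθ _ _) (prod_nonneg fun k _ => (hZ θ hθ k).1)) (EE_bd r)
    (fun θ hθ hb => EE_low hθ (ε := 2 * (g * L)) (by positivity) (by linarith)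
      (fun j hj => hφg θ hb (j + 1) (by omega) (by omega)) (by
        have h1 : (r : ℝ) ≤ L := by exact_mod_cast hr
        have h2 : g * L * (r : ℝ) ≤ g * L * L := mul_le_mul_of_nonneg_left h1 (by positivity)
        nlinarith))
  set IE : ℝ := ∫ θ in OmS L, EE r θ * (wt us vs θ *
    ∏ k : Fin N, ZT (phi θ) (psi θ) (A k) (B k)) with hIEd
  have hc0 : (0 : ℝ) < (1 / 2) ^ r := by positivity
  have hvde := hVDE L N us vs A B (EE r) hL1 hsub (EE_meas r) (EE_bd r)
  set V : ℝ := (volume (VS2 L N r us vs A B)).toReal with hV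
  have hVI : V = (1 / 2) ^ r * IE := by
    have h1 := (hX L N r us vs A B hL1 hr).1 (fun _ => 1) measurable_const
    rw [setLIntegral_one] at h1
    have h2 : ∫⁻ f in VS L N us vs A B, ENNReal.ofReal (ex (range r) (frl f)) * 1 =
        ENNReal.ofReal ((1 / 2) ^ r) * ∫⁻ f in VS L N us vs A B, ENNReal.ofReal (EE r (frl f)) := by
      rw [← lintegral_const_mul' _ _ ENNReal.ofReal_ne_top]
      refine setLIntegral_congr_fun XA.m_VS fun h hh => ?_
      rw [mul_one, ← ENNReal.ofReal_mul hc0.le, EE_eq (show frl h ∈ OmS L from hh.1)]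
    rw [hV, h1, h2, ENNReal.toReal_mul, ENNReal.toReal_ofReal hc0.le, hvde.1]
  have hV0 : 0 < V := by rw [hVI]; exact mul_pos hc0 hIE
  have hVtop : volume (VS2 L N r us vs A B) ≠ ⊤ := by
    intro h
    rw [hV, h, ENNReal.toReal_top] at hV0
    exact lt_irrefl _ hV0
  set q : El2 L N r us vs A B → El2 L N r us vs A B → ℝ := fun a b =>
    (volume {f ∈ VS2 L N r us vs A B | f a < f b}).toReal with hq
  have hprob : ∀ a b, Pool.Agent.H13R3.WB.prob (El2 L N r us vs A B) a b = q a b / V := by
    intro a b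
    have h1 := (hP1 (El2 L N r us vs A B) a b).2.2
    rw [hop.2 hne] at h1
    exact h1
  have hsum : ∀ a b, q a b + q b a ≤ V := by
    intro a b
    have hm1 : MeasurableSet {f : El2 L N r us vs A B → ℝ | f a < f b} :=
      measurableSet_lt (measurable_pi_apply a) (measurable_pi_apply b)
    have h1 := measure_inter_add_diff (μ := (volume : Measure (El2 L N r us vs A B → ℝ)))
      (VS2 L N r us vs A B) hm1
    have h2 : volume {f ∈ VS2 L N r us vs A B | f b < f a} ≤
        volume (VS2 L N r us vs A B \ {f | f a < f b}) := by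
      refine measure_mono fun f hf => ⟨hf.1, fun h => ?_⟩
      exact lt_asymm hf.2 h
    have h3 : volume {f ∈ VS2 L N r us vs A B | f a < f b} +
        volume {f ∈ VS2 L N r us vs A B | f b < f a} ≤ volume (VS2 L N r us vs A B) := by
      rw [← h1]
      exact add_le_add le_rfl h2
    have h4 : volume {f ∈ VS2 L N r us vs A B | f a < f b} ≠ ⊤ :=
      ((measure_mono (Set.sep_subset _ _)).trans_lt (lt_top_iff_ne_top.2 hVtop)).ne
    have h5 : volume {f ∈ VS2 L N r us vs A B | f b < f a} ≠ ⊤ :=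
      ((measure_mono (Set.sep_subset _ _)).trans_lt (lt_top_iff_ne_top.2 hVtop)).ne
    rw [hq, hV]
    simp only
    rw [← ENNReal.toReal_add h4 h5]
    exact ENNReal.toReal_mono hVtop h3
  set T : El2 L N r us vs A B → El2 L N r us vs A B → Prop := fun a b =>
    min (Pool.Agent.H13R3.WB.prob (El2 L N r us vs A B) a b)
      (Pool.Agent.H13R3.WB.prob (El2 L N r us vs A B) b a) ≤ 1 / 2 - η / 8 with hT
  have hTsymm : ∀ a b, T a b → T b a := fun a b h => by
    rw [hT] at h ⊢
    simp only at h ⊢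
    rwa [min_comm]
  have hsmall : ∀ (c : ℝ) (a b), q a b ≤ (c + 2 * (1 / (N : ℝ))) * V →
      c + 2 * (1 / (N : ℝ)) ≤ 1 / 2 - η / 8 → T a b := by
    intro c a b h hc
    refine min_small ?_ hc
    rw [hprob, div_le_iff₀ hV0]
    exact h
  have hle : ∀ a b, (∀ f ∈ VS2 L N r us vs A B, f a ≤ f b) → T b a := by
    intro a b h
    refine hsmall 0 b a ?_ (by linarith)
    have h1 : {f ∈ VS2 L N r us vs A B | f b < f a} = ∅ := by
      ext f
      simp only [Set.mem_sep_iff, Set.mem_empty_iff_false, iff_false, not_and]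
      exact fun hf h' => absurd (h f hf) (not_le.2 h')
    rw [hq]
    simp only
    rw [h1, measure_empty, ENNReal.toReal_zero]
    positivity
  have hcmp : ∀ a b : El L N us vs A B, Cmp a b → T (.inl a) (.inl b) := by
    intro a b h
    rcases h with h | h | h
    · exact hTsymm _ _ (hle _ _ fun f hf => (h (rs f) hf.1).le)
    · exact hle _ _ fun f hf => (h (rs f) hf.1).le
    · exact hle _ _ fun f hf => by rw [h]
  have hdiff : ∀ a b, η / 4 * V ≤ |q a b - q b a| → T a b := by
    intro a b h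
    refine min_diff ?_ ?_
    · rw [hprob, hprob, ← add_div, div_le_one hV0]
      exact hsum a b
    · rw [hprob, hprob, ← sub_div, abs_div, abs_of_pos hV0, le_div_iff₀ hV0]
      exact h
  -- volumes of events in the small polytope
  have hqE : ∀ a b : El L N us vs A B, q (.inl a) (.inl b) = (1 / 2) ^ r *
      (∫⁻ f in {f ∈ VS L N us vs A B | f a < f b}, ENNReal.ofReal (EE r (frl f))).toReal := by
    intro a b
    have hm0 : MeasurableSet {f : El L N us vs A B → ℝ | f a < f b} :=
      measurableSet_lt (measurable_pi_apply a) (measurable_pi_apply b)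
    have hm2 : MeasurableSet {f : El2 L N r us vs A B → ℝ | f (.inl a) < f (.inl b)} :=
      measurableSet_lt (measurable_pi_apply _) (measurable_pi_apply _)
    have h1 := (hX L N r us vs A B hL1 hr).1
      ({f : El L N us vs A B → ℝ | f a < f b}.indicator 1) (measurable_one.indicator hm0)
    have h2 : ∫⁻ f in VS2 L N r us vs A B,
        ({f : El L N us vs A B → ℝ | f a < f b}.indicator 1 : (El L N us vs A B → ℝ) → ENNReal)
          (fun a => f (.inl a)) = volume {f ∈ VS2 L N r us vs A B | f (.inl a) < f (.inl b)} := by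
      have h3 := lintegral_indicator_one (μ := volume.restrict (VS2 L N r us vs A B)) hm2
      rw [Measure.restrict_apply hm2, Set.inter_comm] at h3
      calc _ = _ := lintegral_congr fun f => rfl
        _ = _ := h3
    have h4 : ∫⁻ f in VS L N us vs A B, ENNReal.ofReal (ex (range r) (frl f)) *
        ({f : El L N us vs A B → ℝ | f a < f b}.indicator 1 : (El L N us vs A B → ℝ) → ENNReal) f =
        ENNReal.ofReal ((1 / 2) ^ r) * ∫⁻ f in {f ∈ VS L N us vs A B | f a < f b},
          ENNReal.ofReal (EE r (frl f)) := by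
      rw [← lintegral_const_mul' _ _ ENNReal.ofReal_ne_top]
      have h5 : {f ∈ VS L N us vs A B | f a < f b} =
          {f : El L N us vs A B → ℝ | f a < f b} ∩ VS L N us vs A B := by
        ext f
        exact and_comm
      rw [h5, ← setLIntegral_indicator hm0]
      refine setLIntegral_congr_fun XA.m_VS fun h hh => ?_
      by_cases hab : h ∈ {f : El L N us vs A B → ℝ | f a < f b}
      · rw [Set.indicator_of_mem hab, Set.indicator_of_mem hab, Pi.one_apply, mul_one,
          ← ENNReal.ofReal_mul hc0.le, EE_eq (show frl h ∈ OmS L from hh.1)]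
      · rw [Set.indicator_of_notMem hab, Set.indicator_of_notMem hab, mul_zero]
    rw [hq]
    simp only
    rw [← h2, h1, h4, ENNReal.toReal_mul, ENNReal.toReal_ofReal hc0.le]
  have hnum := num3 h2000 hν hν0 hη hη1 hδ0
  -- gadget elements in different gadgets
  have hpair : ∀ (s t : Fin N) (e : Gd (A s) (B s)) (e' : Gd (A t) (B t)), s ≠ t →
      T (.inl (.inr (.inr ⟨s, e⟩))) (.inl (.inr (.inr ⟨t, e'⟩))) := by
    intro s t e e' hst
    refine hdiff _ _ ?_
    rw [hqE, hqE, ← mul_sub, hvde.2.1 s t e e' hst, abs_mul, abs_of_pos hc0, hVI]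
    have hPE := fun θ (hθ : θ ∈ OmS L) (hb : θ ∉ bad) => (hPERT g δ L (phi θ) (psi θ) (A s) (B s)
      (A t) (B t) hg hL hg8 hδ0.le hδg (hsub s s.2).1 (hsub s s.2).2 (hsub t t.2).1 (hsub t t.2).2
      (phi_mem hθ) (psi_mem hθ) (hgood θ hb)).2.2.1 e e'
    have key := pair_bound (K := fun θ : Fr L => EE r θ * (wt us vs θ *
        ∏ k ∈ (univ.erase s).erase t, ZT (phi θ) (psi θ) (A k) (B k)))
      (w := fun θ : Fr L => WW (dens (phi θ) (psi θ) (A s) (B s) (roleOf e))
        (dens (phi θ) (psi θ) (A t) (B t) (roleOf e')))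
      (zz := fun θ : Fr L => ZT (phi θ) (psi θ) (A s) (B s) * ZT (phi θ) (psi θ) (A t) (B t))
      (ν := 2 * (1 / (N : ℝ)))
      hOm hbadm hIE hbE hε
      (((EE_meas r).mul ((meas_wt us vs).mul (Finset.measurable_prod _ fun k _ => hZm k))).mul
        (meas_WW _ _ _ _ _ _))
      (by
        intro θ
        rw [← Finset.mul_prod_erase univ (fun k : Fin N => ZT (phi θ) (psi θ) (A k) (B k))
          (mem_univ s), ← Finset.mul_prod_erase (univ.erase s)
          (fun k : Fin N => ZT (phi θ) (psi θ) (A k) (B k)) (mem_erase.2 ⟨hst.symm, mem_univ t⟩)]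
        ring)
      (fun θ hθ => mul_nonneg (EE_bd r θ).1
        (mul_nonneg (wt_nonneg hθ _ _) (prod_nonneg fun k _ => (hZ θ hθ k).1)))
      (by
        intro θ hθ
        have h1 := hZ θ hθ s
        have h2 := hZ θ hθ t
        exact ⟨mul_nonneg h1.1 h2.1, mul_le_one₀ h1.2 h2.1 h2.2⟩)
      (by
        intro θ hθ
        have h1 := hMASS (phi θ) (psi θ) (A s) (B s) e (phi_mem hθ) (psi_mem hθ)
        have h2 := hMASS (phi θ) (psi θ) (A t) (B t) e' (phi_mem hθ) (psi_mem hθ)
        have h3 := WW_bound _ _ (fun z h h' => (h1.2.1 z h h').1) (fun z h h' => (h2.2.1 z h h').1)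
          h1.2.2.1 h2.2.2.1
        rw [h1.1, h2.1] at h3
        exact h3)
      hPE
      (hWWp s t s.2 t.2 (fun h => hst (Fin.ext h)) _ _ (valid_role e) (valid_role e'))
    have h5 : η / 4 * IE ≤ |∫ θ in OmS L, EE r θ * (wt us vs θ *
        (∏ k ∈ (univ.erase s).erase t, ZT (phi θ) (psi θ) (A k) (B k)) *
          WW (dens (phi θ) (psi θ) (A s) (B s) (roleOf e))
            (dens (phi θ) (psi θ) (A t) (B t) (roleOf e')))| := by
      refine (mul_le_mul_of_nonneg_right hnum hIE.le).trans (key.trans (le_of_eq ?_))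
      congr 1
      refine integral_congr_ae (Filter.Eventually.of_forall fun θ => ?_)
      simp only
      ring
    calc η / 4 * ((1 / 2) ^ r * IE) = (1 / 2) ^ r * (η / 4 * IE) := by ring
      _ ≤ _ := mul_le_mul_of_nonneg_left h5 hc0.le
  have hsat : ∀ (t : Fin N) (s s' : {l : ℕ // l ∈ A t} ⊕ {l : ℕ // l ∈ B t}), s ≠ s' →
      T (.inl (.inr (.inr ⟨t, .inr s⟩))) (.inl (.inr (.inr ⟨t, .inr s'⟩))) := by
    intro t s s' hss
    refine hdiff _ _ ?_
    rw [hqE, hqE, ← mul_sub, hvde.2.2.1 t s s' hss, abs_mul, abs_of_pos hc0, hVI]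
    have hPE := fun θ (hθ : θ ∈ OmS L) (hb : θ ∉ bad) => (hPERT g δ L (phi θ) (psi θ) (A t) (B t)
      (A t) (B t) hg hL hg8 hδ0.le hδg (hsub t t.2).1 (hsub t t.2).2 (hsub t t.2).1 (hsub t t.2).2
      (phi_mem hθ) (psi_mem hθ) (hgood θ hb)).2.2.2.1 s s' hss
    have key := pair_bound (K := fun θ : Fr L => EE r θ * (wt us vs θ *
        ∏ k ∈ univ.erase t, ZT (phi θ) (psi θ) (A k) (B k)))
      (w := fun θ : Fr L => same (phi θ) (psi θ) (A t) (B t) (roleOf (.inr s : Gd (A t) (B t)))
        (roleOf (.inr s' : Gd (A t) (B t))))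
      (zz := fun θ : Fr L => ZT (phi θ) (psi θ) (A t) (B t))
      (ν := 2 * (1 / (N : ℝ)))
      hOm hbadm hIE hbE hε
      (((EE_meas r).mul ((meas_wt us vs).mul (Finset.measurable_prod _ fun k _ => hZm k))).mul
        (meas_same _ _ _ _))
      (by
        intro θ
        rw [← Finset.mul_prod_erase univ (fun k : Fin N => ZT (phi θ) (psi θ) (A k) (B k))
          (mem_univ t)]
        ring)
      (fun θ hθ => mul_nonneg (EE_bd r θ).1
        (mul_nonneg (wt_nonneg hθ _ _) (prod_nonneg fun k _ => (hZ θ hθ k).1)))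
      (fun θ hθ => hZ θ hθ t)
      (fun θ hθ => (hMASS (phi θ) (psi θ) (A t) (B t) (.inl false) (phi_mem hθ)
        (psi_mem hθ)).2.2.2.2.2.2 s s' hss)
      hPE
      (hsame t t.2 _ _ (valid_role _) (valid_role _) (role_ne hss) (role_sat s).1 (role_sat s).2
        (role_sat s').1 (role_sat s').2)
    have h5 : η / 4 * IE ≤ |∫ θ in OmS L, EE r θ * (wt us vs θ *
        (∏ k ∈ univ.erase t, ZT (phi θ) (psi θ) (A k) (B k)) *
          same (phi θ) (psi θ) (A t) (B t) (roleOf (.inr s : Gd (A t) (B t)))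
            (roleOf (.inr s' : Gd (A t) (B t))))| := by
      refine (mul_le_mul_of_nonneg_right hnum hIE.le).trans (key.trans (le_of_eq ?_))
      congr 1
      refine integral_congr_ae (Filter.Eventually.of_forall fun θ => ?_)
      simp only
      ring
    calc η / 4 * ((1 / 2) ^ r * IE) = (1 / 2) ^ r * (η / 4 * IE) := by ring
      _ ≤ _ := mul_le_mul_of_nonneg_left h5 hc0.le
  -- numbers for the gadgets
  have hmL : ∀ t : Fin N, m ≤ L := by
    intro t
    have h1 : A t ⊆ Icc 1 L := fun l hl => mem_Icc.2 ((hsub t t.2).1 l hl)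
    have h2 := card_le_card h1
    rw [(hcard t t.2).1, Nat.card_Icc] at h2
    omega
  have hcA : ∀ t : Fin N, (A t).card + (B t).card = m + m := fun t => by
    rw [(hcard t t.2).1, (hcard t t.2).2.1]
  have hzz : ∀ t : Fin N, 5000 * ((L : ℝ) * δ) ≤ ZZ g (A t) (B t) := by
    intro t
    refine zb_num hL (hmL t) ?_ hδ0 h10000
    have h1 := (hZB g L (A t) (B t) hg hL hg8 (hsub t t.2).1 (hsub t t.2).2 (by
      rw [hcA]; omega)).2
    rw [hcA] at h1
    exact h1
  have hu0 : 0 ≤ (L : ℝ) * δ := by positivity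
  have hZlow : ∀ (t : Fin N), ∀ θ ∈ OmS L, θ ∉ bad →
      ZZ g (A t) (B t) - 2 * (L * δ) ≤ ZT (phi θ) (psi θ) (A t) (B t) := by
    intro t θ hθ hb
    have h2 := (hPERT g δ L (phi θ) (psi θ) (A t) (B t) (A t) (B t) hg hL hg8 hδ0.le hδg
      (hsub t t.2).1 (hsub t t.2).2 (hsub t t.2).1 (hsub t t.2).2
      (phi_mem hθ) (psi_mem hθ) (hgood θ hb)).2.1
    have h3 := (abs_le.1 h2).1
    linarith
  -- the upper bound
  have hUP : ∀ (a b : El2 L N r us vs A B) (t : Fin N) (e : Gd (A t) (B t))
      (K : Fr L × ℝ → ℝ) (c : ℝ), Measurable K → (∀ x, 0 ≤ K x ∧ K x ≤ 1) → 0 ≤ c →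
      c + 2 * (1 / (N : ℝ)) ≤ 1 / 2 - η / 8 →
      (∀ θ ∈ OmS L, θ ∉ bad →
        (∫ z in (0 : ℝ)..1, K (θ, z) * dens (phi θ) (psi θ) (A t) (B t) (roleOf e) z) ≤
          c * ZT (phi θ) (psi θ) (A t) (B t)) →
      volume {f ∈ VS2 L N r us vs A B | f a < f b} ≤ ∫⁻ h in VS L N us vs A B,
        ENNReal.ofReal (ex (range r) (frl h) * K (frl h, h (.inr (.inr ⟨t, e⟩)))) → T a b := by
    intro a b t e K c hKm hK1 hc hc2 hgd hv
    refine hsmall c a b ?_ hc2
    have h1 := up hVDE hMASS hL1 hsub hbadm hIE hbE t e K c _ hKm hK1 hc hgd hv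
    rw [← hIEd, ← hVI] at h1
    exact h1
  have h920 : (9 / 20 : ℝ) + 2 * (1 / (N : ℝ)) ≤ 1 / 2 - η / 8 := by linarith
  have h10 : (1 / 10 : ℝ) + 2 * (1 / (N : ℝ)) ≤ 1 / 2 - η / 8 := by linarith
  have h19 : (1 / 9 : ℝ) + 2 * (1 / (N : ℝ)) ≤ 1 / 2 - η / 8 := by linarith
  -- chains against gadgets
  have hbotg : ∀ (a : El L N us vs A B) (t : Fin N) (e : Gd (A t) (B t)), Bot a →
      T (.inl a) (.inl (.inr (.inr ⟨t, e⟩))) := by
    intro a t e ha
    refine hTsymm _ _ (hUP _ _ t (.inl false) (fun x => if x.2 ≤ phi x.1 L then 1 else 0) (1 / 9)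
      (Measurable.ite (measurableSet_le measurable_snd ((meas_phi L).comp measurable_fst))
        measurable_const measurable_const) (fun x => by split_ifs <;> simp) (by norm_num) h19 ?_ ?_)
    · intro θ hθ hb
      simp only
      rw [layer_lo (phi_mem hθ L).1 (phi_mem hθ L).2 (PERT.dens_gd _ _ _ _ _)]
      have h2 := (hPERT g δ L (phi θ) (psi θ) (A t) (B t) (A t) (B t) hg hL hg8 hδ0.le hδg
          (hsub t t.2).1 (hsub t t.2).2 (hsub t t.2).1 (hsub t t.2).2
          (phi_mem hθ) (psi_mem hθ) (hgood θ hb)).2.2.2.2.1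
      have h3 := (hT6 g L (A t) (B t) hg hL hg8 (hsub t t.2).1 (hsub t t.2).2
        (by rw [hcA]; omega)).1
      refine chain_num (zz := ZZ g (A t) (B t)) (u := L * δ) ?_ (hZlow t θ hθ hb) (hzz t) hu0
      have h4 : (∫ z in (0 : ℝ)..(phi θ L), dens (phi θ) (psi θ) (A t) (B t)
        (roleOf (.inl false : Gd (A t) (B t))) z) =
        ∫ x in (0 : ℝ)..(phi θ L), hXT (phi θ) (psi θ) (A t) (B t) x := rfl
      rw [h4]
      linarith
    · refine tr1 hX hL1 hr (fun h => if h (.inr (.inr ⟨t, .inl false⟩)) ≤ phi (frl h) L then 1 else 0)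
        _ (Measurable.ite (measurableSet_le (measurable_pi_apply _)
          ((meas_phi L).comp XA.m_frl)) measurable_const measurable_const) ?_ ?_
      · intro f hf hlt
        have h1 := gd_lo (show rs f ∈ VS L N us vs A B from hf.1) t e
        have h2 := bot_le (show rs f ∈ VS L N us vs A B from hf.1) a ha
        rw [if_pos]
        exact (h1.trans hlt.le).trans h2
      · intro h _
        split_ifs <;> simp
  have htopg : ∀ (a : El L N us vs A B) (t : Fin N) (e : Gd (A t) (B t)), Top a →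
      T (.inl a) (.inl (.inr (.inr ⟨t, e⟩))) := by
    intro a t e ha
    refine hUP _ _ t (.inl true) (fun x => if psi x.1 L < x.2 then 1 else 0) (1 / 9)
      (Measurable.ite (measurableSet_lt ((meas_psi L).comp measurable_fst) measurable_snd)
        measurable_const measurable_const) (fun x => by split_ifs <;> simp) (by norm_num) h19 ?_ ?_
    · intro θ hθ hb
      simp only
      rw [layer_hi (psi_mem hθ L).1 (psi_mem hθ L).2 (PERT.dens_gd _ _ _ _ _)]
      have h2 := (hPERT g δ L (phi θ) (psi θ) (A t) (B t) (A t) (B t) hg hL hg8 hδ0.le hδg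
          (hsub t t.2).1 (hsub t t.2).2 (hsub t t.2).1 (hsub t t.2).2
          (phi_mem hθ) (psi_mem hθ) (hgood θ hb)).2.2.2.2.2
      have h3 := (hT6 g L (A t) (B t) hg hL hg8 (hsub t t.2).1 (hsub t t.2).2
        (by rw [hcA]; omega)).2
      refine chain_num (zz := ZZ g (A t) (B t)) (u := L * δ) ?_ (hZlow t θ hθ hb) (hzz t) hu0
      have h4 : (∫ z in (psi θ L)..1, dens (phi θ) (psi θ) (A t) (B t)
        (roleOf (.inl true : Gd (A t) (B t))) z) =
        ∫ x in (psi θ L)..1, hYT (phi θ) (psi θ) (A t) (B t) x := rfl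
      rw [h4]
      linarith
    · refine tr1 hX hL1 hr (fun h => if psi (frl h) L < h (.inr (.inr ⟨t, .inl true⟩)) then 1 else 0)
        _ (Measurable.ite (measurableSet_lt ((meas_psi L).comp XA.m_frl)
          (measurable_pi_apply _)) measurable_const measurable_const) ?_ ?_
      · intro f hf hlt
        have h1 := gd_hi (show rs f ∈ VS L N us vs A B from hf.1) t e
        have h2 := top_ge (show rs f ∈ VS L N us vs A B from hf.1) a ha
        rw [if_pos]
        exact (h2.trans_lt hlt).trans_le h1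
      · intro h _
        split_ifs <;> simp
  have hgg : ∀ (s t : Fin N) (e : Gd (A s) (B s)) (e' : Gd (A t) (B t)),
      T (.inl (.inr (.inr ⟨s, e⟩))) (.inl (.inr (.inr ⟨t, e'⟩))) := by
    intro s t e e'
    by_cases hst : s = t
    · subst hst
      rcases e with (_ | _) | s1
      · rcases e' with (_ | _) | s2
        · exact hcmp _ _ (Or.inr (Or.inr rfl))
        · exact hcmp _ _ (Or.inl fun f hf => (hf.2.2.2.2.2 s).2.1)
        · exact hcmp _ _ (Or.inl fun f hf => ((hf.2.2.2.2.2 s).2.2.1 s2).1)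
      · rcases e' with (_ | _) | s2
        · exact hcmp _ _ (Or.inr (Or.inl fun f hf => (hf.2.2.2.2.2 s).2.1))
        · exact hcmp _ _ (Or.inr (Or.inr rfl))
        · exact hcmp _ _ (Or.inr (Or.inl fun f hf => ((hf.2.2.2.2.2 s).2.2.1 s2).2))
      · rcases e' with (_ | _) | s2
        · exact hcmp _ _ (Or.inr (Or.inl fun f hf => ((hf.2.2.2.2.2 s).2.2.1 s1).1))
        · exact hcmp _ _ (Or.inl fun f hf => ((hf.2.2.2.2.2 s).2.2.1 s1).2)
        · by_cases h12 : s1 = s2
          · subst h12
            exact hcmp _ _ (Or.inr (Or.inr rfl))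
          · exact hsat s s1 s2 h12
    · exact hpair s t e e' hst
  -- the pairs
  have hN0 : 0 < N := by omega
  have hjL : ∀ j : Fin r, (j : ℕ) + 1 ≤ L := fun j => by have := j.2; omega
  have hlt2 : ∀ f ∈ VS2 L N r us vs A B, ∀ (j : Fin r) (β : Bool),
      f (.inr (j, false)) ≤ f (.inr (j, β)) ∧ f (.inr (j, β)) ≤ f (.inr (j, true)) := by
    intro f hf j β
    have h := (hf.2 j).2.1
    cases β
    · exact ⟨le_rfl, h.le⟩
    · exact ⟨h.le, le_rfl⟩
  have hconst : ∀ (t : Fin N) (e : Gd (A t) (B t)) (θ : Fr L), θ ∈ OmS L → ∀ k c : ℝ, k ≤ c →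
      (∫ z in (0 : ℝ)..1, k * dens (phi θ) (psi θ) (A t) (B t) (roleOf e) z) ≤
        c * ZT (phi θ) (psi θ) (A t) (B t) := by
    intro t e θ hθ k c hk
    rw [intervalIntegral.integral_const_mul,
      (hMASS (phi θ) (psi θ) (A t) (B t) e (phi_mem hθ) (psi_mem hθ)).1]
    exact mul_le_mul_of_nonneg_right hk (hZ θ hθ t).1
  have c1 : ∀ a z : ℝ, clp (1 - k1 a z) = 1 - k1 a z := fun a z =>
    clp_eq (by linarith [(k1_bd a z).2]) (by linarith [(k1_bd a z).1])
  have c3 : ∀ a z : ℝ, a < 1 → z ≤ 1 → clp (1 - k3 a z) = 1 - k3 a z := fun a z h h' =>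
    clp_eq (by linarith [k3_le h h']) (by linarith [k3_nn a z])
  have c1' : ∀ a z : ℝ, clp (k1 a z) = k1 a z := fun a z => clp_eq (k1_bd a z).1 (k1_bd a z).2
  have c3' : ∀ a z : ℝ, a < 1 → z ≤ 1 → clp (k3 a z) = k3 a z := fun a z h h' =>
    clp_eq (k3_nn a z) (k3_le h h')
  have hbotp : ∀ (a : El L N us vs A B) (j : Fin r) (β : Bool), Bot a →
      T (.inl a) (.inr (j, β)) := by
    intro a j β ha
    refine hTsymm _ _ (hUP _ _ ⟨0, hN0⟩ (.inl false)
      (fun x => clp (1 - k1 (phi x.1 (j + 1)) (phi x.1 L))) (1 / 10)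
      (clp_meas.comp (measurable_const.sub (m_k1 ((meas_phi _).comp measurable_fst)
        ((meas_phi L).comp measurable_fst)))) (fun x => clp_bd _) (by norm_num) h10 ?_ ?_)
    · intro θ hθ hb
      refine hconst ⟨0, hN0⟩ (.inl false) θ hθ (clp (1 - k1 (phi θ (j + 1)) (phi θ L))) _ ?_
      have h1 := hφg θ hb L hL1 le_rfl
      show clp (1 - k1 (phi θ (j + 1)) (phi θ L)) ≤ 1 / 10
      rw [c1]
      exact k1_low (phi_mem hθ (j + 1)).1 (phi_lt_one hθ _) (phi_mem hθ L).1 (by linarith)
    · refine tr2 hX hL1 hr j (fun x => if x.2.1 < phi (frl x.1) L then 1 else 0) _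
        (Measurable.ite (measurableSet_lt measurable_snd.fst
          ((meas_phi L).comp (XA.m_frl.comp measurable_fst))) measurable_const measurable_const) ?_ ?_
      · intro f hf hlt
        have h1 := hlt2 f hf j β
        have h2 := bot_le (show rs f ∈ VS L N us vs A B from hf.1) a ha
        simp only
        rw [if_pos]
        exact (h1.1.trans_lt hlt).trans_le h2
      · intro h hh
        have h1 := K2 (phi_lt_one (show frl h ∈ OmS L from hh.1) (j + 1))
          (phi_mem (show frl h ∈ OmS L from hh.1) L).2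
        rw [← c1] at h1
        exact h1
  have htopp : ∀ (a : El L N us vs A B) (j : Fin r) (β : Bool), Top a →
      T (.inl a) (.inr (j, β)) := by
    intro a j β ha
    refine hUP _ _ ⟨0, hN0⟩ (.inl false)
      (fun x => clp (1 - k3 (phi x.1 (j + 1)) (psi x.1 L))) (1 / 10)
      (clp_meas.comp (measurable_const.sub (m_k3 ((meas_phi _).comp measurable_fst)
        ((meas_psi L).comp measurable_fst)))) (fun x => clp_bd _) (by norm_num) h10 ?_ ?_
    · intro θ hθ hb
      refine hconst ⟨0, hN0⟩ (.inl false) θ hθ (clp (1 - k3 (phi θ (j + 1)) (psi θ L))) _ ?_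
      have h1 := hφg θ hb (j + 1) (by omega) (hjL j)
      have h2 := (abs_le.1 (hgood θ hb L hL1 le_rfl).2).1
      show clp (1 - k3 (phi θ (j + 1)) (psi θ L)) ≤ 1 / 10
      rw [c3 _ _ (phi_lt_one hθ _) (psi_mem hθ L).2]
      exact k3_low (phi_mem hθ (j + 1)).1 (by linarith) (by linarith)
    · refine tr2 hX hL1 hr j (fun x => if psi (frl x.1) L < x.2.2 then 1 else 0) _
        (Measurable.ite (measurableSet_lt ((meas_psi L).comp (XA.m_frl.comp measurable_fst))
          measurable_snd.snd) measurable_const measurable_const) ?_ ?_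
      · intro f hf hlt
        have h1 := hlt2 f hf j β
        have h2 := top_ge (show rs f ∈ VS L N us vs A B from hf.1) a ha
        simp only
        rw [if_pos]
        exact (h2.trans_lt hlt).trans_le h1.2
      · intro h hh
        have h1 := K4 (phi_lt_one (show frl h ∈ OmS L from hh.1) (j + 1))
          (psi_mem (show frl h ∈ OmS L from hh.1) L).2
        rw [← c3 _ _ (phi_lt_one (show frl h ∈ OmS L from hh.1) (j + 1))
          (psi_mem (show frl h ∈ OmS L from hh.1) L).2] at h1
        exact h1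
  have hpg := fun (t : Fin N) (θ : Fr L) (hθ : θ ∈ OmS L) (hb : θ ∉ bad) (j : Fin r) =>
    pgood hPG hg hL hg8 hδ0.le (hsub t t.2).1 (hsub t t.2).2 (by rw [hcA]; omega) (hgood θ hb)
      (phi_mem hθ (j + 1)).1 (show phi θ (j + 1) ≤ 1 / 100 by
        have := hφg θ hb (j + 1) (by omega) (hjL j)
        linarith)
  have hgp : ∀ (t : Fin N) (e : Gd (A t) (B t)) (j : Fin r) (β : Bool),
      T (.inl (.inr (.inr ⟨t, e⟩))) (.inr (j, β)) := by
    intro t e j β
    rcases e with (_ | _) | s
    · refine hTsymm _ _ (hUP _ _ t (.inl false) (fun x => clp (1 - k1 (phi x.1 (j + 1)) x.2)) (9 / 20)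
        (clp_meas.comp (measurable_const.sub (m_k1 ((meas_phi _).comp measurable_fst)
          measurable_snd))) (fun x => clp_bd _) (by norm_num) h920 ?_ ?_)
      · intro θ hθ hb
        exact pg_num (hpg t θ hθ hb j).1 (hZlow t θ hθ hb) (hzz t) hu0
      · refine tr2 hX hL1 hr j
          (fun x => if x.2.1 < x.1 (.inr (.inr ⟨t, .inl false⟩)) then 1 else 0) _
          (Measurable.ite (measurableSet_lt measurable_snd.fst
            ((measurable_pi_apply _).comp measurable_fst)) measurable_const measurable_const) ?_ ?_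
        · intro f hf hlt
          simp only
          rw [if_pos]
          exact (hlt2 f hf j β).1.trans_lt hlt
        · intro h hh
          have h1 := K2 (phi_lt_one (show frl h ∈ OmS L from hh.1) (j + 1))
            (vs_bd hh (.inr (.inr ⟨t, .inl false⟩))).2.le
          rw [← c1] at h1
          exact h1
    · refine hUP _ _ t (.inl true) (fun x => clp (1 - k3 (phi x.1 (j + 1)) x.2)) (9 / 20)
        (clp_meas.comp (measurable_const.sub (m_k3 ((meas_phi _).comp measurable_fst)
          measurable_snd))) (fun x => clp_bd _) (by norm_num) h920 ?_ ?_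
      · intro θ hθ hb
        exact pg_num (hpg t θ hθ hb j).2.1 (hZlow t θ hθ hb) (hzz t) hu0
      · refine tr2 hX hL1 hr j
          (fun x => if x.1 (.inr (.inr ⟨t, .inl true⟩)) < x.2.2 then 1 else 0) _
          (Measurable.ite (measurableSet_lt ((measurable_pi_apply _).comp measurable_fst)
            measurable_snd.snd) measurable_const measurable_const) ?_ ?_
        · intro f hf hlt
          simp only
          rw [if_pos]
          exact hlt.trans_le (hlt2 f hf j β).2
        · intro h hh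
          have h1 := K4 (phi_lt_one (show frl h ∈ OmS L from hh.1) (j + 1))
            (vs_bd hh (.inr (.inr ⟨t, .inl true⟩))).2.le
          rw [← c3 _ _ (phi_lt_one (show frl h ∈ OmS L from hh.1) (j + 1))
            (vs_bd hh (.inr (.inr ⟨t, .inl true⟩))).2.le] at h1
          exact h1
    · cases β with
      | false =>
        refine hUP _ _ t (.inr s) (fun x => clp (k1 (phi x.1 (j + 1)) x.2)) (9 / 20)
          (clp_meas.comp (m_k1 ((meas_phi _).comp measurable_fst)
            measurable_snd)) (fun x => clp_bd _) (by norm_num) h920 ?_ ?_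
        · intro θ hθ hb
          exact pg_num ((hpg t θ hθ hb j).2.2 s).1 (hZlow t θ hθ hb) (hzz t) hu0
        · refine tr2 hX hL1 hr j
            (fun x => if x.1 (.inr (.inr ⟨t, .inr s⟩)) < x.2.1 then 1 else 0) _
            (Measurable.ite (measurableSet_lt ((measurable_pi_apply _).comp measurable_fst)
              measurable_snd.fst) measurable_const measurable_const) ?_ ?_
          · intro f hf hlt
            simp only
            rw [if_pos]
            exact hlt
          · intro h hh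
            have h1 := K1 (phi_lt_one (show frl h ∈ OmS L from hh.1) (j + 1))
              (vs_bd hh (.inr (.inr ⟨t, .inr s⟩))).2.le
            rw [← c1'] at h1
            exact h1
      | true =>
        refine hTsymm _ _ (hUP _ _ t (.inr s) (fun x => clp (k3 (phi x.1 (j + 1)) x.2)) (9 / 20)
          (clp_meas.comp (m_k3 ((meas_phi _).comp measurable_fst)
            measurable_snd)) (fun x => clp_bd _) (by norm_num) h920 ?_ ?_)
        · intro θ hθ hb
          exact pg_num ((hpg t θ hθ hb j).2.2 s).2 (hZlow t θ hθ hb) (hzz t) hu0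
        · refine tr2 hX hL1 hr j
            (fun x => if x.2.2 < x.1 (.inr (.inr ⟨t, .inr s⟩)) then 1 else 0) _
            (Measurable.ite (measurableSet_lt measurable_snd.snd
              ((measurable_pi_apply _).comp measurable_fst)) measurable_const measurable_const) ?_ ?_
          · intro f hf hlt
            simp only
            rw [if_pos]
            exact hlt
          · intro h hh
            have h1 := K3 (phi_lt_one (show frl h ∈ OmS L from hh.1) (j + 1))
              (vs_bd hh (.inr (.inr ⟨t, .inr s⟩))).2.le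
            rw [← c3' _ _ (phi_lt_one (show frl h ∈ OmS L from hh.1) (j + 1))
              (vs_bd hh (.inr (.inr ⟨t, .inr s⟩))).2.le] at h1
            exact h1
  -- two pairs
  have hpp : ∀ (i j : Fin r), i < j → ∀ (a b : El2 L N r us vs A B)
      (F : (El L N us vs A B → ℝ) × ((ℝ × ℝ) × (ℝ × ℝ)) → ENNReal), Measurable F → (∀ x, F x ≤ 1) →
      (∀ f ∈ VS2 L N r us vs A B, f a < f b →
        1 ≤ F (rs f, ((f (.inr (i, false)), f (.inr (i, true))),
          (f (.inr (j, false)), f (.inr (j, true)))))) →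
      (∀ h ∈ VS L N us vs A B, phi (frl h) (j + 1) ≤ 1 / 100 →
        ∫⁻ e in Set.Ioo (phi (frl h) (i + 1)) 1, ∫⁻ d in Set.Ioo e 1,
        ∫⁻ e' in Set.Ioo (phi (frl h) (j + 1)) 1, ∫⁻ d' in Set.Ioo e' 1,
        F (h, ((e, d), (e', d'))) ≤ ENNReal.ofReal
          ((1 / 2 - (phi (frl h) (j + 1) - phi (frl h) (i + 1)) / 3) *
          ((1 - phi (frl h) (i + 1)) ^ 2 / 2 * ((1 - phi (frl h) (j + 1)) ^ 2 / 2)))) → T a b := by
    intro i j hij a b F hFm hF1 h1 h2
    have hcl : ∀ θ ∈ OmS L, phi θ (j + 1) ≤ 1 / 100 →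
        clp (1 / 2 - (phi θ (j + 1) - phi θ (i + 1)) / 3) =
          1 / 2 - (phi θ (j + 1) - phi θ (i + 1)) / 3 := by
      intro θ hθ hs
      have h3 := phi_mono hθ (a := i + 1) (b := j + 1) (by have : (i : ℕ) < j := hij; omega) (hjL j)
      have h4 := (phi_mem hθ (i + 1)).1
      exact clp_eq (by linarith) (by linarith)
    refine hUP _ _ ⟨0, hN0⟩ (.inl false) (fun x => if phi x.1 (j + 1) ≤ 1 / 100 then
        clp (1 / 2 - (phi x.1 (j + 1) - phi x.1 (i + 1)) / 3) else 1) (1 / 2 - g / 6)
      (Measurable.ite (measurableSet_le ((meas_phi _).comp measurable_fst) measurable_const)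
        (clp_meas.comp (measurable_const.sub ((((meas_phi _).comp measurable_fst).sub
          ((meas_phi _).comp measurable_fst)).div_const _))) measurable_const)
      (fun x => by split_ifs; exacts [clp_bd _, ⟨zero_le_one, le_rfl⟩])
      (by linarith) (by linarith) ?_ ?_
    · intro θ hθ hb
      refine hconst ⟨0, hN0⟩ (.inl false) θ hθ (if phi θ (j + 1) ≤ 1 / 100 then
        clp (1 / 2 - (phi θ (j + 1) - phi θ (i + 1)) / 3) else 1) _ ?_
      have h3 := hφg θ hb (j + 1) (by omega) (hjL j)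
      have h4 := (abs_le.1 (hgood θ hb (j + 1) (by omega) (hjL j)).1).1
      have h5 := (abs_le.1 (hgood θ hb (i + 1) (by omega) (hjL i)).1).2
      have h6 : (i : ℝ) + 1 ≤ j := by
        have : (i : ℕ) + 1 ≤ j := hij
        exact_mod_cast this
      have h7 : g * ((i : ℝ) + 1) ≤ g * j := mul_le_mul_of_nonneg_left h6 hg.le
      have h8 : δ ≤ L * δ := by nlinarith
      push_cast at h4 h5
      have h9 : phi θ (j + 1) ≤ 1 / 100 := by linarith
      show (if phi θ (j + 1) ≤ 1 / 100 then
        clp (1 / 2 - (phi θ (j + 1) - phi θ (i + 1)) / 3) else 1) ≤ 1 / 2 - g / 6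
      rw [if_pos h9, hcl θ hθ h9]
      nlinarith
    · refine tr3 hX hL1 hr i j (ne_of_lt hij) F _ hFm h1 ?_
      intro h hh
      by_cases hs : phi (frl h) (j + 1) ≤ 1 / 100
      · have h3 := h2 h hh hs
        rw [← hcl (frl h) hh.1 hs] at h3
        simp only
        rw [if_pos hs]
        exact h3
      · simp only
        rw [if_neg hs, one_mul]
        exact tot2 (phi_mem (show frl h ∈ OmS L from hh.1) _).2
          (phi_mem (show frl h ∈ OmS L from hh.1) _).2 (fun e d e' d' => F (h, ((e, d), (e', d'))))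
          (fun e d e' d' => hF1 _)
  have hpa := fun (i j : Fin r) (hij : i < j) (h : El L N us vs A B → ℝ)
      (hh : h ∈ VS L N us vs A B) (hs : phi (frl h) (j + 1) ≤ 1 / 100) =>
    hPAIR (phi (frl h) (i + 1)) (phi (frl h) (j + 1))
      (phi_mem (show frl h ∈ OmS L from hh.1) _).1
      (phi_lt (show frl h ∈ OmS L from hh.1) (by have : (i : ℕ) < j := hij; omega) (hjL j)) hs
  have hquart : ∀ (i j : Fin r) (h : El L N us vs A B → ℝ),
      h ∈ VS L N us vs A B → phi (frl h) (j + 1) ≤ 1 / 100 →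
      ENNReal.ofReal (1 / 4 * ((1 - phi (frl h) (i + 1)) ^ 2 / 2 *
        ((1 - phi (frl h) (j + 1)) ^ 2 / 2))) ≤
      ENNReal.ofReal ((1 / 2 - (phi (frl h) (j + 1) - phi (frl h) (i + 1)) / 3) *
          ((1 - phi (frl h) (i + 1)) ^ 2 / 2 * ((1 - phi (frl h) (j + 1)) ^ 2 / 2))) := by
    intro i j h hh hs
    refine ENNReal.ofReal_le_ofReal (mul_le_mul_of_nonneg_right ?_ (by positivity))
    have := (phi_mem (show frl h ∈ OmS L from hh.1) (i + 1)).1
    linarith
  have hpair2 : ∀ (i j : Fin r), i < j → ∀ β β' : Bool,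
      T (.inr (i, β)) (.inr (j, β')) := by
    intro i j hij β β'
    have me : Measurable fun x : (El L N us vs A B → ℝ) × ((ℝ × ℝ) × (ℝ × ℝ)) => x.2.1.1 :=
      measurable_snd.fst.fst
    have md : Measurable fun x : (El L N us vs A B → ℝ) × ((ℝ × ℝ) × (ℝ × ℝ)) => x.2.1.2 :=
      measurable_snd.fst.snd
    have me' : Measurable fun x : (El L N us vs A B → ℝ) × ((ℝ × ℝ) × (ℝ × ℝ)) => x.2.2.1 :=
      measurable_snd.snd.fst
    have md' : Measurable fun x : (El L N us vs A B → ℝ) × ((ℝ × ℝ) × (ℝ × ℝ)) => x.2.2.2 :=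
      measurable_snd.snd.snd
    cases β with
    | false =>
      cases β' with
      | false =>
        refine hTsymm _ _ (hpp i j hij _ _ (fun x => if x.2.2.1 < x.2.1.1 then 1 else 0)
          (Measurable.ite (measurableSet_lt me' me) measurable_const measurable_const)
          (fun x => by split_ifs <;> simp) ?_ (fun h hh hs => (hpa i j hij h hh hs).1))
        intro f hf hlt
        simp only
        rw [if_pos hlt]
      | true =>
        refine hTsymm _ _ (hpp i j hij _ _ (fun x => if x.2.2.2 < x.2.1.1 then 1 else 0)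
          (Measurable.ite (measurableSet_lt md' me) measurable_const measurable_const)
          (fun x => by split_ifs <;> simp) ?_
          (fun h hh hs => (hpa i j hij h hh hs).2.2.2.trans (hquart i j h hh hs)))
        intro f hf hlt
        simp only
        rw [if_pos hlt]
    | true =>
      cases β' with
      | false =>
        refine hpp i j hij _ _ (fun x => if x.2.1.2 < x.2.2.1 then 1 else 0)
          (Measurable.ite (measurableSet_lt md me') measurable_const measurable_const)
          (fun x => by split_ifs <;> simp) ?_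
          (fun h hh hs => (hpa i j hij h hh hs).2.2.1.trans (hquart i j h hh hs))
        intro f hf hlt
        simp only
        rw [if_pos hlt]
      | true =>
        refine hTsymm _ _ (hpp i j hij _ _ (fun x => if x.2.2.2 < x.2.1.2 then 1 else 0)
          (Measurable.ite (measurableSet_lt md' md) measurable_const measurable_const)
          (fun x => by split_ifs <;> simp) ?_ (fun h hh hs => (hpa i j hij h hh hs).2.1))
        intro f hf hlt
        simp only
        rw [if_pos hlt]
  have hpairs : ∀ (x y : Fin r × Bool), T (.inr x) (.inr y) := by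
    rintro ⟨i, β⟩ ⟨j, β'⟩
    rcases lt_trichotomy i j with h | h | h
    · exact hpair2 i j h β β'
    · subst h
      cases β <;> cases β'
      · exact hle _ _ fun f _ => le_rfl
      · exact hTsymm _ _ (hle _ _ fun f hf => (hlt2 f hf i true).1)
      · exact hle _ _ fun f hf => (hlt2 f hf i true).1
      · exact hle _ _ fun f _ => le_rfl
    · exact hTsymm _ _ (hpair2 j i h β' β)
  have hall1 : ∀ a b : El L N us vs A B, T (.inl a) (.inl b) := by
    intro a b
    rcases split_el a with ha | ha | ⟨s, e, rfl⟩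
    · rcases split_el b with hb | hb | ⟨t, e', rfl⟩
      · exact hcmp _ _ (cmp_bot a b ha hb)
      · exact hcmp _ _ (cmp_bot_top a b ha hb)
      · exact hbotg a t e' ha
    · rcases split_el b with hb | hb | ⟨t, e', rfl⟩
      · exact hTsymm _ _ (hcmp _ _ (cmp_bot_top b a hb ha))
      · exact hcmp _ _ (cmp_top a b ha hb)
      · exact htopg a t e' ha
    · rcases split_el b with hb | hb | ⟨t, e', rfl⟩
      · exact hTsymm _ _ (hbotg b s e hb)
      · exact hTsymm _ _ (htopg b s e hb)
      · exact hgg s t e e'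
  have hall2 : ∀ (a : El L N us vs A B) (y : Fin r × Bool), T (.inl a) (.inr y) := by
    rintro a ⟨j, β⟩
    rcases split_el a with ha | ha | ⟨s, e, rfl⟩
    · exact hbotp a j β ha
    · exact htopp a j β ha
    · exact hgp s e j β
  have hall : ∀ a b, T a b := by
    intro a b
    rcases a with a | a
    · rcases b with b | b
      · exact hall1 a b
      · exact hall2 a b
    · rcases b with b | b
      · exact hTsymm _ _ (hall2 b a)
      · exact hpairs a b
  haveI : Nonempty (El2 L N r us vs A B) := ⟨.inl (.inr (.inl (.inl ⟨0, by omega⟩)))⟩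
  unfold Pool.Agent.H13R3.WB.balance
  exact ciSup_le fun p => hall p.1 p.2

end Pool.Agent.H34.RK
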