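import Pool.Agent.H34.RK.Stm4
import Pool.Agent.H34.L.N376.KS.Final

/-! The known bounds (library). -/

set_option autoImplicit false

namespace Pool.Agent.H34.RK.Asm

theorem isDelta {δ : ℕ → ℝ} (h : IsDel δ) : Pool.Agent.Y352.KSR.IsDelta δ := h

theorem t_rate : S_RATE := by
  obtain ⟨B, hB, h⟩ := Pool.Agent.N376.KS.rate1
  exact ⟨B, hB, fun δ hδ => h δ (isDelta hδ)⟩

theorem t_dle : S_DLE := fun δ hδ w hw => Pool.Agent.Y352.KSR.delta_le (isDelta hδ) w hw

end Pool.Agent.H34.RK.Asm
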