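import Pool.Agent.H34.RK.Asm2
import Pool.Agent.H34.RK.X
import Pool.Agent.H34.RK.Pair
import Pool.Agent.H34.RK.Balf2
import Pool.Agent.H34.RK.Lib

/-! Assembly, part 3. -/

set_option autoImplicit false

namespace Pool.Agent.H34.RK.Asm

theorem t_bal2 : S_BAL2 :=
  balf2 p1 opvs2 t_wid2 t_vde x_ t_conc' t_pert t_mass t_zb t_t6 pair t_pg

theorem t_main2 : S_MAIN2 := mainf2 t_ideal2 t_bal2

theorem t_fin : S_FIN := fin_ t_main2 trans_ t_rate t_dle

end Pool.Agent.H34.RK.Asm
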