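import Pool.Agent.H34.RK.Stm3

set_option autoImplicit false

open Finset MeasureTheory

namespace Pool.Agent.H34.RK

namespace BALF

/-! ### Measurability -/

lemma meas_ii {X : Type} [MeasurableSpace X] (f : X → ℝ → ℝ) (hf : Measurable (Function.uncurry f))
    (a b : X → ℝ) (ha : Measurable a) (hb : Measurable b) :
    Measurable fun x => ∫ t in a x..b x, f x t := by
  have key : ∀ a b : X → ℝ, Measurable a → Measurable b →
      Measurable fun x => ∫ t in Set.Ioc (a x) (b x), f x t := by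
    intro a b ha hb
    have h1 : ∀ x, ∫ t in Set.Ioc (a x) (b x), f x t =
        ∫ t, (Set.Ioc (a x) (b x)).indicator (f x) t := fun x =>
      (integral_indicator measurableSet_Ioc).symm
    simp only [h1]
    have hset : MeasurableSet {p : X × ℝ | p.2 ∈ Set.Ioc (a p.1) (b p.1)} :=
      (measurableSet_lt (ha.comp measurable_fst) measurable_snd).inter
        (measurableSet_le measurable_snd (hb.comp measurable_fst))
    have h2 : Measurable (fun p : X × ℝ => (Set.Ioc (a p.1) (b p.1)).indicator (f p.1) p.2) := by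
      have h3 := hf.indicator hset
      have h4 : (fun p : X × ℝ => (Set.Ioc (a p.1) (b p.1)).indicator (f p.1) p.2) =
          {p : X × ℝ | p.2 ∈ Set.Ioc (a p.1) (b p.1)}.indicator (Function.uncurry f) := by
        funext p
        by_cases hp : p.2 ∈ Set.Ioc (a p.1) (b p.1)
        · rw [Set.indicator_of_mem hp, Set.indicator_of_mem (show p ∈ {p : X × ℝ | p.2 ∈ Set.Ioc (a p.1) (b p.1)} from hp)]
          rfl
        · rw [Set.indicator_of_notMem hp, Set.indicator_of_notMem (show p ∉ {p : X × ℝ | p.2 ∈ Set.Ioc (a p.1) (b p.1)} from hp)]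
      rw [h4]
      exact h3
    exact (h2.stronglyMeasurable.integral_prod_right' (ν := volume)).measurable
  have h3 : ∀ x, ∫ t in a x..b x, f x t =
      (∫ t in Set.Ioc (a x) (b x), f x t) - ∫ t in Set.Ioc (b x) (a x), f x t := fun x => rfl
  simp only [h3]
  exact (key a b ha hb).sub (key b a hb ha)

/-- Frontier space. -/
abbrev Fr (L : ℕ) : Type := Fin L ⊕ Fin L → ℝ

lemma meas_phi {L : ℕ} (l : ℕ) : Measurable fun θ : Fr L => phi θ l := by
  unfold phi
  split_ifs with h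
  · exact measurable_pi_apply _
  · exact measurable_const

lemma meas_psi {L : ℕ} (l : ℕ) : Measurable fun θ : Fr L => psi θ l := by
  unfold psi
  split_ifs with h
  · exact measurable_pi_apply _
  · exact measurable_const

lemma meas_KT {L : ℕ} {Y : Type} [MeasurableSpace Y] (A B : Finset ℕ) (th : Y → Fr L) (a b : Y → ℝ)
    (hth : Measurable th) (ha : Measurable a) (hb : Measurable b) :
    Measurable fun u => KT (phi (th u)) (psi (th u)) A B (a u) (b u) := by
  unfold KT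
  refine Measurable.mul ?_ ?_
  · refine Finset.measurable_prod _ fun l _ => ?_
    exact (hb.sub (ha.max ((meas_phi l).comp hth))).max measurable_const
  · refine Finset.measurable_prod _ fun l _ => ?_
    exact ((hb.min ((meas_psi l).comp hth)).sub ha).max measurable_const

lemma meas_hXT {L : ℕ} {Y : Type} [MeasurableSpace Y] (A B : Finset ℕ) (th : Y → Fr L) (a : Y → ℝ)
    (hth : Measurable th) (ha : Measurable a) :
    Measurable fun u => hXT (phi (th u)) (psi (th u)) A B (a u) := by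
  unfold hXT
  refine meas_ii _ ?_ _ _ ha measurable_const
  exact meas_KT A B (fun p : Y × ℝ => th p.1) (fun p => a p.1) (fun p => p.2)
    (hth.comp measurable_fst) (ha.comp measurable_fst) measurable_snd

lemma meas_hYT {L : ℕ} {Y : Type} [MeasurableSpace Y] (A B : Finset ℕ) (th : Y → Fr L) (a : Y → ℝ)
    (hth : Measurable th) (ha : Measurable a) :
    Measurable fun u => hYT (phi (th u)) (psi (th u)) A B (a u) := by
  unfold hYT
  refine meas_ii _ ?_ _ _ measurable_const ha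
  exact meas_KT A B (fun p : Y × ℝ => th p.1) (fun p => p.2) (fun p => a p.1)
    (hth.comp measurable_fst) measurable_snd (ha.comp measurable_fst)

lemma meas_ZT {L : ℕ} (A B : Finset ℕ) : Measurable fun θ : Fr L => ZT (phi θ) (psi θ) A B := by
  unfold ZT
  refine meas_ii _ ?_ _ _ measurable_const measurable_const
  exact meas_hXT A B (fun p : Fr L × ℝ => p.1) (fun p => p.2) measurable_fst measurable_snd

lemma meas_hZT {L : ℕ} {Y : Type} [MeasurableSpace Y] (A B : Finset ℕ) (th : Y → Fr L)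
    (lo hi a : Y → ℝ) (hth : Measurable th) (hlo : Measurable lo) (hhi : Measurable hi)
    (ha : Measurable a) :
    Measurable fun u => hZT (phi (th u)) (psi (th u)) A B (lo u) (hi u) (a u) := by
  unfold hZT
  refine Measurable.ite ((measurableSet_le hlo ha).inter (measurableSet_le ha hhi)) ?_ measurable_const
  refine meas_ii _ ?_ _ _ measurable_const ha
  refine meas_ii (fun (p : Y × ℝ) y => KT (phi (th p.1)) (psi (th p.1)) A B p.2 y) ?_ _ _
    (ha.comp measurable_fst) measurable_const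
  exact meas_KT A B (fun p : (Y × ℝ) × ℝ => th p.1.1) (fun p => p.1.2) (fun p => p.2)
    (hth.comp measurable_fst.fst) measurable_fst.snd measurable_snd

lemma meas_dens {L : ℕ} {Y : Type} [MeasurableSpace Y] (A B : Finset ℕ) (r : Role) (th : Y → Fr L)
    (a : Y → ℝ) (hth : Measurable th) (ha : Measurable a) :
    Measurable fun u => dens (phi (th u)) (psi (th u)) A B r (a u) := by
  cases r with
  | lo => exact meas_hXT A B th a hth ha
  | hi => exact meas_hYT A B th a hth ha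
  | sa l => exact meas_hZT _ _ th _ _ a hth ((meas_phi l).comp hth) measurable_const ha
  | sb l => exact meas_hZT _ _ th _ _ a hth measurable_const ((meas_psi l).comp hth) ha

lemma meas_sign : Measurable Real.sign := by
  unfold Real.sign
  exact Measurable.ite (measurableSet_lt measurable_id measurable_const) measurable_const
    (Measurable.ite (measurableSet_lt measurable_const measurable_id) measurable_const
      measurable_const)

lemma meas_WW {L : ℕ} (A B A' B' : Finset ℕ) (r r' : Role) :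
    Measurable fun θ : Fr L =>
      WW (dens (phi θ) (psi θ) A B r) (dens (phi θ) (psi θ) A' B' r') := by
  unfold WW
  refine meas_ii _ ?_ _ _ measurable_const measurable_const
  refine meas_ii (fun (p : Fr L × ℝ) z' => Real.sign (z' - p.2) *
    dens (phi p.1) (psi p.1) A B r p.2 * dens (phi p.1) (psi p.1) A' B' r' z') ?_ _ _
    measurable_const measurable_const
  refine Measurable.mul (Measurable.mul ?_ ?_) ?_
  · exact meas_sign.comp (measurable_snd.sub measurable_fst.snd)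
  · exact meas_dens A B r (fun p : (Fr L × ℝ) × ℝ => p.1.1) (fun p => p.1.2) measurable_fst.fst
      measurable_fst.snd
  · exact meas_dens A' B' r' (fun p : (Fr L × ℝ) × ℝ => p.1.1) (fun p => p.2) measurable_fst.fst
      measurable_snd

lemma meas_WS {L : ℕ} (A B : Finset ℕ) (lo hi lo' hi' : Fr L → ℝ) (hlo : Measurable lo)
    (hhi : Measurable hi) (hlo' : Measurable lo') (hhi' : Measurable hi') :
    Measurable fun θ : Fr L => WS (phi θ) (psi θ) A B (lo θ) (hi θ) (lo' θ) (hi' θ) := by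
  unfold WS
  refine meas_ii _ ?_ _ _ measurable_const measurable_const
  refine meas_ii (fun (p : Fr L × ℝ) y => KT (phi p.1) (psi p.1) A B p.2 y *
    ∫ z in p.2..y, ∫ z' in p.2..y, (if lo p.1 ≤ z ∧ z ≤ hi p.1 ∧ lo' p.1 ≤ z' ∧ z' ≤ hi' p.1 then
      Real.sign (z' - z) else 0)) ?_ _ _ measurable_snd measurable_const
  refine Measurable.mul ?_ ?_
  · exact meas_KT A B (fun p : (Fr L × ℝ) × ℝ => p.1.1) (fun p => p.1.2) (fun p => p.2)
      measurable_fst.fst measurable_fst.snd measurable_snd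
  · refine meas_ii (fun (p : (Fr L × ℝ) × ℝ) z => ∫ z' in p.1.2..p.2,
      (if lo p.1.1 ≤ z ∧ z ≤ hi p.1.1 ∧ lo' p.1.1 ≤ z' ∧ z' ≤ hi' p.1.1 then
      Real.sign (z' - z) else 0)) ?_ _ _ measurable_fst.snd measurable_snd
    refine meas_ii (fun (p : ((Fr L × ℝ) × ℝ) × ℝ) z' =>
      (if lo p.1.1.1 ≤ p.2 ∧ p.2 ≤ hi p.1.1.1 ∧ lo' p.1.1.1 ≤ z' ∧ z' ≤ hi' p.1.1.1 then
      Real.sign (z' - p.2) else 0)) ?_ _ _ measurable_fst.fst.snd measurable_fst.snd
    have m0 : Measurable fun q : (((Fr L × ℝ) × ℝ) × ℝ) × ℝ => q.1.1.1.1 :=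
      measurable_fst.fst.fst.fst
    have mz : Measurable fun q : (((Fr L × ℝ) × ℝ) × ℝ) × ℝ => q.1.2 := measurable_fst.snd
    have mz' : Measurable fun q : (((Fr L × ℝ) × ℝ) × ℝ) × ℝ => q.2 := measurable_snd
    refine Measurable.ite ?_ (meas_sign.comp (mz'.sub mz)) measurable_const
    exact (measurableSet_le (hlo.comp m0) mz).inter ((measurableSet_le mz (hhi.comp m0)).inter
      ((measurableSet_le (hlo'.comp m0) mz').inter (measurableSet_le mz' (hhi'.comp m0))))

lemma meas_same {L : ℕ} (A B : Finset ℕ) (r r' : Role) :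
    Measurable fun θ : Fr L => same (phi θ) (psi θ) A B r r' := by
  cases r <;> cases r' <;> simp only [same] <;>
    first
    | exact measurable_const
    | exact meas_WS _ _ _ _ _ _ (meas_phi _) measurable_const (meas_phi _) measurable_const
    | exact meas_WS _ _ _ _ _ _ (meas_phi _) measurable_const measurable_const (meas_psi _)
    | exact meas_WS _ _ _ _ _ _ measurable_const (meas_psi _) (meas_phi _) measurable_const
    | exact meas_WS _ _ _ _ _ _ measurable_const (meas_psi _) measurable_const (meas_psi _)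

lemma meas_wt {L : ℕ} (us vs : ℕ → ℕ) : Measurable fun θ : Fr L => wt us vs θ := by
  unfold wt
  refine Measurable.mul ?_ ?_
  · refine Finset.measurable_prod _ fun l _ => ?_
    exact (((meas_phi _).sub (meas_phi _)).pow_const _).div_const _
  · refine Finset.measurable_prod _ fun l _ => ?_
    exact (((meas_psi _).sub (meas_psi _)).pow_const _).div_const _

/-! ### Frontiers -/

lemma phi_mem {L : ℕ} {θ : Fr L} (h : θ ∈ OmS L) (l : ℕ) : 0 ≤ phi θ l ∧ phi θ l ≤ 1 := by
  unfold phi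
  split_ifs with h1
  · exact ⟨(h.1 _).1.le, (h.1 _).2.le⟩
  · exact ⟨le_rfl, zero_le_one⟩

lemma psi_mem {L : ℕ} {θ : Fr L} (h : θ ∈ OmS L) (l : ℕ) : 0 ≤ psi θ l ∧ psi θ l ≤ 1 := by
  unfold psi
  split_ifs with h1
  · exact ⟨(h.1 _).1.le, (h.1 _).2.le⟩
  · exact ⟨zero_le_one, le_rfl⟩

lemma phi_mono {L : ℕ} {θ : Fr L} (h : θ ∈ OmS L) {a b : ℕ} (hab : a ≤ b) (hb : b ≤ L) :
    phi θ a ≤ phi θ b := by
  induction b, hab using Nat.le_induction with
  | base => exact le_rfl
  | succ b hab ih => exact (ih (by omega)).trans (h.2.1 b (by omega)).le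

lemma psi_anti {L : ℕ} {θ : Fr L} (h : θ ∈ OmS L) {a b : ℕ} (hab : a ≤ b) (hb : b ≤ L) :
    psi θ b ≤ psi θ a := by
  induction b, hab using Nat.le_induction with
  | base => exact le_rfl
  | succ b hab ih => exact (h.2.2.1 b (by omega)).le.trans (ih (by omega))

lemma phi_lt {L : ℕ} {θ : Fr L} (h : θ ∈ OmS L) {a b : ℕ} (hab : a < b) (hb : b ≤ L) :
    phi θ a < phi θ b := (h.2.1 a (by omega)).trans_le (phi_mono h hab hb)

lemma psi_lt {L : ℕ} {θ : Fr L} (h : θ ∈ OmS L) {a b : ℕ} (hab : a < b) (hb : b ≤ L) :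
    psi θ b < psi θ a := (psi_anti h hab hb).trans_lt (h.2.2.1 a (by omega))

lemma wt_nonneg {L : ℕ} {θ : Fr L} (h : θ ∈ OmS L) (us vs : ℕ → ℕ) : 0 ≤ wt us vs θ := by
  unfold wt
  refine mul_nonneg (prod_nonneg fun l hl => ?_) (prod_nonneg fun l hl => ?_)
  · exact div_nonneg (pow_nonneg (sub_nonneg.2 (h.2.1 l (mem_range.1 hl)).le) _) (Nat.cast_nonneg _)
  · exact div_nonneg (pow_nonneg (sub_nonneg.2 (h.2.2.1 l (mem_range.1 hl)).le) _) (Nat.cast_nonneg _)

lemma meas_OmS (L : ℕ) : MeasurableSet (OmS L) := by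
  have h : OmS L = (⋂ i, ({θ : Fr L | 0 < θ i} ∩ {θ | θ i < 1})) ∩
      ((⋂ l, ⋂ (_ : l < L), {θ | phi θ l < phi θ (l + 1)}) ∩
      ((⋂ l, ⋂ (_ : l < L), {θ | psi θ (l + 1) < psi θ l}) ∩ {θ | phi θ L < psi θ L})) := by
    ext θ
    simp only [OmS, Set.mem_ofPred_eq, Set.mem_inter_iff, Set.mem_iInter]
  rw [h]
  refine (MeasurableSet.iInter fun i => ?_).inter ((MeasurableSet.iInter fun l =>
    MeasurableSet.iInter fun _ => ?_).inter ((MeasurableSet.iInter fun l =>
    MeasurableSet.iInter fun _ => ?_).inter ?_))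
  · exact (measurableSet_lt measurable_const (measurable_pi_apply i)).inter
      (measurableSet_lt (measurable_pi_apply i) measurable_const)
  · exact measurableSet_lt (meas_phi _) (meas_phi _)
  · exact measurableSet_lt (meas_psi _) (meas_psi _)
  · exact measurableSet_lt (meas_phi _) (meas_psi _)

/-! ### Comparison of means -/

section Ratio

variable {X : Type} [MeasurableSpace X] {μ : Measure X} {O bad : Set X} {W f : X → ℝ} {ν c : ℝ}

/-- Lower bound for a mean. -/
lemma ratio_lower (hO : MeasurableSet O) (hbad : MeasurableSet bad) (hW : 0 < ∫ x in O, W x ∂μ)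
    (hb : ∫ x in O ∩ bad, W x ∂μ ≤ ν * ∫ x in O, W x ∂μ) (hc : 0 ≤ c)
    (hf : Measurable f) (h1 : ∀ x ∈ O, |f x| ≤ W x) (h2 : ∀ x ∈ O, x ∉ bad → c * W x ≤ f x) :
    (c - (c + 1) * ν) * ∫ x in O, W x ∂μ ≤ ∫ x in O, f x ∂μ := by
  have hWi : IntegrableOn W O μ := by
    by_contra hcon
    rw [integral_undef hcon] at hW
    exact lt_irrefl _ hW
  have hWb : IntegrableOn (bad.indicator W) O μ := hWi.indicator hbad
  have hfi : IntegrableOn f O μ := by
    refine Integrable.mono' hWi hf.aestronglyMeasurable ?_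
    filter_upwards [ae_restrict_mem hO] with x hx
    exact h1 x hx
  have h3 : ∫ x in O, bad.indicator W x ∂μ = ∫ x in O ∩ bad, W x ∂μ := by
    rw [integral_indicator hbad, Measure.restrict_restrict hbad, Set.inter_comm]
  have h4 : ∫ x in O, (c * W x - (c + 1) * bad.indicator W x) ∂μ ≤ ∫ x in O, f x ∂μ := by
    refine setIntegral_mono_on ((hWi.const_mul c).sub (hWb.const_mul (c + 1))) hfi hO ?_
    intro x hx
    by_cases hxb : x ∈ bad
    · rw [Set.indicator_of_mem hxb]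
      have := (abs_le.1 (h1 x hx)).1
      linarith
    · rw [Set.indicator_of_notMem hxb]
      have := h2 x hx hxb
      linarith
  rw [integral_sub (hWi.const_mul c) (hWb.const_mul (c + 1)), integral_const_mul,
    integral_const_mul, h3] at h4
  nlinarith

/-- Upper bound for a mean. -/
lemma ratio_upper (hO : MeasurableSet O) (hbad : MeasurableSet bad) (hW : 0 < ∫ x in O, W x ∂μ)
    (hb : ∫ x in O ∩ bad, W x ∂μ ≤ ν * ∫ x in O, W x ∂μ) (hc : 0 ≤ c)
    (h1 : ∀ x ∈ O, 0 ≤ f x ∧ f x ≤ W x) (h2 : ∀ x ∈ O, x ∉ bad → f x ≤ c * W x) :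
    ∫ x in O, f x ∂μ ≤ (c + ν) * ∫ x in O, W x ∂μ := by
  have hWi : IntegrableOn W O μ := by
    by_contra hcon
    rw [integral_undef hcon] at hW
    exact lt_irrefl _ hW
  have hWb : IntegrableOn (bad.indicator W) O μ := hWi.indicator hbad
  have h3 : ∫ x in O, bad.indicator W x ∂μ = ∫ x in O ∩ bad, W x ∂μ := by
    rw [integral_indicator hbad, Measure.restrict_restrict hbad, Set.inter_comm]
  have h4 : ∫ x in O, f x ∂μ ≤ ∫ x in O, (c * W x + bad.indicator W x) ∂μ := by
    refine integral_mono_of_nonneg ?_ ((hWi.const_mul c).add hWb) ?_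
    · filter_upwards [ae_restrict_mem hO] with x hx
      exact (h1 x hx).1
    · filter_upwards [ae_restrict_mem hO] with x hx
      have hW0 : 0 ≤ W x := (h1 x hx).1.trans (h1 x hx).2
      by_cases hxb : x ∈ bad
      · simp only [Set.indicator_of_mem hxb]
        have := (h1 x hx).2
        nlinarith
      · simp only [Set.indicator_of_notMem hxb]
        have := h2 x hx hxb
        linarith
  rw [integral_add (hWi.const_mul c) hWb, integral_const_mul, h3] at h4
  nlinarith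

end Ratio

lemma abs_sign_le (x : ℝ) : |Real.sign x| ≤ 1 := by
  rcases Real.sign_apply_eq x with h | h | h <;> rw [h] <;> norm_num

lemma WW_bound (h h' : ℝ → ℝ) (h0 : ∀ z, 0 ≤ z → z ≤ 1 → 0 ≤ h z)
    (h0' : ∀ z, 0 ≤ z → z ≤ 1 → 0 ≤ h' z) (hi : IntervalIntegrable h volume 0 1)
    (hi' : IntervalIntegrable h' volume 0 1) :
    |WW h h'| ≤ (∫ z in (0 : ℝ)..1, h z) * ∫ z in (0 : ℝ)..1, h' z := by
  unfold WW
  have inner : ∀ z, 0 ≤ z → z ≤ 1 → ‖∫ z' in (0 : ℝ)..1, Real.sign (z' - z) * h z * h' z'‖ ≤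
      h z * ∫ z in (0 : ℝ)..1, h' z := by
    intro z hz hz1
    rw [← intervalIntegral.integral_const_mul]
    refine intervalIntegral.norm_integral_le_of_norm_le zero_le_one ?_ (hi'.const_mul _)
    refine Filter.Eventually.of_forall fun z' hz' => ?_
    have a := h0 z hz hz1
    have b := h0' z' hz'.1.le hz'.2
    rw [Real.norm_eq_abs, abs_mul, abs_mul, abs_of_nonneg a, abs_of_nonneg b]
    have := abs_sign_le (z' - z)
    have hab := mul_nonneg a b
    nlinarith [mul_le_mul_of_nonneg_right this hab]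
  rw [← Real.norm_eq_abs, ← intervalIntegral.integral_mul_const]
  refine intervalIntegral.norm_integral_le_of_norm_le zero_le_one ?_ (hi.mul_const _)
  exact Filter.Eventually.of_forall fun z hz => inner z hz.1.le hz.2

lemma part_int (h : ℝ → ℝ) (h0 : ∀ z, 0 ≤ z → z ≤ 1 → 0 ≤ h z)
    (hi : IntervalIntegrable h volume 0 1) (a b : ℝ) (ha : 0 ≤ a) (hab : a ≤ b) (hb : b ≤ 1) :
    0 ≤ (∫ z in a..b, h z) ∧ (∫ z in a..b, h z) ≤ ∫ z in (0 : ℝ)..1, h z := by
  have i1 : IntervalIntegrable h volume 0 a :=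
    hi.mono_set (by rw [Set.uIcc_of_le ha, Set.uIcc_of_le zero_le_one]; exact Set.Icc_subset_Icc le_rfl (hab.trans hb))
  have i2 : IntervalIntegrable h volume a b :=
    hi.mono_set (by rw [Set.uIcc_of_le hab, Set.uIcc_of_le zero_le_one]; exact Set.Icc_subset_Icc ha hb)
  have i3 : IntervalIntegrable h volume b 1 :=
    hi.mono_set (by rw [Set.uIcc_of_le hb, Set.uIcc_of_le zero_le_one]; exact Set.Icc_subset_Icc (ha.trans hab) le_rfl)
  have e1 := intervalIntegral.integral_add_adjacent_intervals i1 i2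
  have e2 := intervalIntegral.integral_add_adjacent_intervals (i1.trans i2) i3
  have n1 : 0 ≤ ∫ z in (0 : ℝ)..a, h z :=
    intervalIntegral.integral_nonneg ha fun z hz => h0 z hz.1 (hz.2.trans (hab.trans hb))
  have n2 : 0 ≤ ∫ z in a..b, h z :=
    intervalIntegral.integral_nonneg hab fun z hz => h0 z (ha.trans hz.1) (hz.2.trans hb)
  have n3 : 0 ≤ ∫ z in b..1, h z :=
    intervalIntegral.integral_nonneg hb fun z hz => h0 z ((ha.trans hab).trans hz.1) hz.2
  constructor
  · exact n2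
  · rw [← e2, ← e1]
    linarith

/-! ### The polytope -/

section Poly

variable {L N : ℕ} {us vs : ℕ → ℕ} {A B : ℕ → Finset ℕ}

/-- The frontiers of a point. -/
abbrev fr (f : El L N us vs A B → ℝ) : Fr L := fun i => f (.inr (.inl i))

/-- Bottom elements. -/
def Bot : El L N us vs A B → Prop
  | .inl (.inl _) => True
  | .inr (.inl (.inl _)) => True
  | _ => False

/-- Top elements. -/
def Top : El L N us vs A B → Prop
  | .inl (.inr _) => True
  | .inr (.inl (.inr _)) => True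
  | _ => False

lemma phi_fr (f : El L N us vs A B → ℝ) (k : Fin L) :
    phi (fr f) (k + 1) = f (.inr (.inl (.inl k))) := by
  unfold phi
  rw [dif_pos ⟨by omega, by omega⟩]
  rfl

lemma psi_fr (f : El L N us vs A B → ℝ) (k : Fin L) :
    psi (fr f) (k + 1) = f (.inr (.inl (.inr k))) := by
  unfold psi
  rw [dif_pos ⟨by omega, by omega⟩]
  rfl

lemma bot_le {f : El L N us vs A B → ℝ} (hf : f ∈ VS L N us vs A B) (a : El L N us vs A B)
    (ha : Bot a) : f a ≤ phi (fr f) L := by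
  obtain ⟨h1, h2, h3, h4, h5, h6⟩ := hf
  rcases a with (⟨i, j⟩ | ⟨i, j⟩) | ((k | k) | ⟨t, e⟩)
  · exact (h3 i j).2.le.trans (phi_mono h1 (by omega) le_rfl)
  · exact absurd ha id
  · rw [← phi_fr f k]
    exact phi_mono h1 (by omega) le_rfl
  · exact absurd ha id
  · exact absurd ha id

lemma top_ge {f : El L N us vs A B → ℝ} (hf : f ∈ VS L N us vs A B) (a : El L N us vs A B)
    (ha : Top a) : psi (fr f) L ≤ f a := by
  obtain ⟨h1, h2, h3, h4, h5, h6⟩ := hf
  rcases a with (⟨i, j⟩ | ⟨i, j⟩) | ((k | k) | ⟨t, e⟩)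
  · exact absurd ha id
  · exact (psi_anti h1 (by omega) le_rfl).trans (h5 i j).1.le
  · exact absurd ha id
  · rw [← psi_fr f k]
    exact psi_anti h1 (by omega) le_rfl
  · exact absurd ha id

/-- Comparable or equal. -/
def Cmp (a b : El L N us vs A B) : Prop :=
  (∀ f ∈ VS L N us vs A B, f a < f b) ∨ (∀ f ∈ VS L N us vs A B, f b < f a) ∨ a = b

lemma Cmp.symm {a b : El L N us vs A B} (h : Cmp a b) : Cmp b a := by
  rcases h with h | h | h
  · exact Or.inr (Or.inl h)
  · exact Or.inl h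
  · exact Or.inr (Or.inr h.symm)

lemma cmp_bot (a b : El L N us vs A B) (ha : Bot a) (hb : Bot b) : Cmp a b := by
  rcases a with (⟨i, j⟩ | ⟨i, j⟩) | ((k | k) | ⟨t, e⟩)
  · rcases b with (⟨i', j'⟩ | ⟨i', j'⟩) | ((k' | k') | ⟨t', e'⟩)
    · rcases lt_trichotomy i i' with h | h | h
      · refine Or.inl fun f hf => ?_
        obtain ⟨h1, h2, h3, h4, h5, h6⟩ := hf
        exact ((h3 i j).2.trans_le (phi_mono h1 h i'.2.le)).trans (h3 i' j').1
      · subst h
        rcases lt_trichotomy j j' with h | h | h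
        · exact Or.inl fun f hf => hf.2.1 i j j' h
        · exact Or.inr (Or.inr (by rw [h]))
        · exact Or.inr (Or.inl fun f hf => hf.2.1 i j' j h)
      · refine Or.inr (Or.inl fun f hf => ?_)
        obtain ⟨h1, h2, h3, h4, h5, h6⟩ := hf
        exact ((h3 i' j').2.trans_le (phi_mono h1 h i.2.le)).trans (h3 i j).1
    · exact absurd hb id
    · by_cases h : (i : ℕ) ≤ k'
      · refine Or.inl fun f hf => ?_
        obtain ⟨h1, h2, h3, h4, h5, h6⟩ := hf
        rw [← phi_fr f k']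
        exact (h3 i j).2.trans_le (phi_mono h1 (by omega) (by omega))
      · refine Or.inr (Or.inl fun f hf => ?_)
        obtain ⟨h1, h2, h3, h4, h5, h6⟩ := hf
        rw [← phi_fr f k']
        exact (phi_mono h1 (by omega) i.2.le).trans_lt (h3 i j).1
    · exact absurd hb id
    · exact absurd hb id
  · exact absurd ha id
  · rcases b with (⟨i', j'⟩ | ⟨i', j'⟩) | ((k' | k') | ⟨t', e'⟩)
    · by_cases h : (i' : ℕ) ≤ k
      · refine Or.inr (Or.inl fun f hf => ?_)
        obtain ⟨h1, h2, h3, h4, h5, h6⟩ := hf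
        rw [← phi_fr f k]
        exact (h3 i' j').2.trans_le (phi_mono h1 (by omega) (by omega))
      · refine Or.inl fun f hf => ?_
        obtain ⟨h1, h2, h3, h4, h5, h6⟩ := hf
        rw [← phi_fr f k]
        exact (phi_mono h1 (by omega) i'.2.le).trans_lt (h3 i' j').1
    · exact absurd hb id
    · rcases lt_trichotomy k k' with h | h | h
      · refine Or.inl fun f hf => ?_
        rw [← phi_fr f k, ← phi_fr f k']
        exact phi_lt hf.1 (by omega) (by omega)
      · exact Or.inr (Or.inr (by rw [h]))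
      · refine Or.inr (Or.inl fun f hf => ?_)
        rw [← phi_fr f k, ← phi_fr f k']
        exact phi_lt hf.1 (by omega) (by omega)
    · exact absurd hb id
    · exact absurd hb id
  · exact absurd ha id
  · exact absurd ha id

lemma cmp_top (a b : El L N us vs A B) (ha : Top a) (hb : Top b) : Cmp a b := by
  rcases a with (⟨i, j⟩ | ⟨i, j⟩) | ((k | k) | ⟨t, e⟩)
  · exact absurd ha id
  · rcases b with (⟨i', j'⟩ | ⟨i', j'⟩) | ((k' | k') | ⟨t', e'⟩)
    · exact absurd hb id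
    · rcases lt_trichotomy i i' with h | h | h
      · refine Or.inr (Or.inl fun f hf => ?_)
        obtain ⟨h1, h2, h3, h4, h5, h6⟩ := hf
        exact ((h5 i' j').2.trans_le (psi_anti h1 h i'.2.le)).trans (h5 i j).1
      · subst h
        rcases lt_trichotomy j j' with h | h | h
        · exact Or.inl fun f hf => hf.2.2.2.1 i j j' h
        · exact Or.inr (Or.inr (by rw [h]))
        · exact Or.inr (Or.inl fun f hf => hf.2.2.2.1 i j' j h)
      · refine Or.inl fun f hf => ?_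
        obtain ⟨h1, h2, h3, h4, h5, h6⟩ := hf
        exact ((h5 i j).2.trans_le (psi_anti h1 h i.2.le)).trans (h5 i' j').1
    · exact absurd hb id
    · by_cases h : (i : ℕ) ≤ k'
      · refine Or.inr (Or.inl fun f hf => ?_)
        obtain ⟨h1, h2, h3, h4, h5, h6⟩ := hf
        rw [← psi_fr f k']
        exact (psi_anti h1 (by omega) (by omega)).trans_lt (h5 i j).1
      · refine Or.inl fun f hf => ?_
        obtain ⟨h1, h2, h3, h4, h5, h6⟩ := hf
        rw [← psi_fr f k']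
        exact (h5 i j).2.trans_le (psi_anti h1 (by omega) i.2.le)
    · exact absurd hb id
  · exact absurd ha id
  · rcases b with (⟨i', j'⟩ | ⟨i', j'⟩) | ((k' | k') | ⟨t', e'⟩)
    · exact absurd hb id
    · by_cases h : (i' : ℕ) ≤ k
      · refine Or.inl fun f hf => ?_
        obtain ⟨h1, h2, h3, h4, h5, h6⟩ := hf
        rw [← psi_fr f k]
        exact (psi_anti h1 (by omega) (by omega)).trans_lt (h5 i' j').1
      · refine Or.inr (Or.inl fun f hf => ?_)
        obtain ⟨h1, h2, h3, h4, h5, h6⟩ := hf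
        rw [← psi_fr f k]
        exact (h5 i' j').2.trans_le (psi_anti h1 (by omega) i'.2.le)
    · exact absurd hb id
    · rcases lt_trichotomy k k' with h | h | h
      · refine Or.inr (Or.inl fun f hf => ?_)
        rw [← psi_fr f k, ← psi_fr f k']
        exact psi_lt hf.1 (by omega) (by omega)
      · exact Or.inr (Or.inr (by rw [h]))
      · refine Or.inl fun f hf => ?_
        rw [← psi_fr f k, ← psi_fr f k']
        exact psi_lt hf.1 (by omega) (by omega)
    · exact absurd hb id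
  · exact absurd ha id

lemma cmp_bot_top (a b : El L N us vs A B) (ha : Bot a) (hb : Top b) : Cmp a b :=
  Or.inl fun f hf => ((bot_le hf a ha).trans_lt hf.1.2.2.2).trans_le (top_ge hf b hb)

lemma gd_lo {f : El L N us vs A B → ℝ} (hf : f ∈ VS L N us vs A B) (t : Fin N)
    (e : Gd (A t) (B t)) : f (.inr (.inr ⟨t, .inl false⟩)) ≤ f (.inr (.inr ⟨t, e⟩)) := by
  obtain ⟨h1, h2, h3, h4, h5, h6⟩ := hf
  have h := h6 t
  rcases e with (_ | _) | s
  · exact le_rfl
  · exact h.2.1.le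
  · exact (h.2.2.1 s).1.le

lemma gd_hi {f : El L N us vs A B → ℝ} (hf : f ∈ VS L N us vs A B) (t : Fin N)
    (e : Gd (A t) (B t)) : f (.inr (.inr ⟨t, e⟩)) ≤ f (.inr (.inr ⟨t, .inl true⟩)) := by
  obtain ⟨h1, h2, h3, h4, h5, h6⟩ := hf
  have h := h6 t
  rcases e with (_ | _) | s
  · exact h.2.1.le
  · exact le_rfl
  · exact (h.2.2.1 s).2.le

lemma cmp_bot_hi (a : El L N us vs A B) (ha : Bot a) (t : Fin N) (hL : L ∈ A t) :
    Cmp a (.inr (.inr ⟨t, .inl true⟩)) := by
  refine Or.inl fun f hf => ?_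
  have h1 := bot_le hf a ha
  obtain ⟨_, h2, h3, h4, h5, h6⟩ := hf
  have h := h6 t
  exact (h1.trans_lt (h.2.2.2.1 ⟨L, hL⟩)).trans (h.2.2.1 (.inl ⟨L, hL⟩)).2

lemma cmp_top_lo (a : El L N us vs A B) (ha : Top a) (t : Fin N) (hL : L ∈ B t) :
    Cmp a (.inr (.inr ⟨t, .inl false⟩)) := by
  refine Or.inr (Or.inl fun f hf => ?_)
  have h1 := top_ge hf a ha
  obtain ⟨_, h2, h3, h4, h5, h6⟩ := hf
  have h := h6 t
  exact ((h.2.2.1 (.inr ⟨L, hL⟩)).1.trans (h.2.2.2.2 ⟨L, hL⟩)).trans_le h1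

end Poly

/-! ### Lower bound for the modulus of a mean -/

lemma pair_bound {X : Type} [MeasurableSpace X] {μ : Measure X} {O bad : Set X} {W K w zz : X → ℝ}
    {ν η ε ws : ℝ} (hO : MeasurableSet O) (hbad : MeasurableSet bad) (hW : 0 < ∫ x in O, W x ∂μ)
    (hb : ∫ x in O ∩ bad, W x ∂μ ≤ ν * ∫ x in O, W x ∂μ) (hε : ε ≤ η)
    (hf : Measurable fun x => K x * w x) (hWe : ∀ x, W x = K x * zz x)
    (hK : ∀ x ∈ O, 0 ≤ K x) (hz : ∀ x ∈ O, 0 ≤ zz x ∧ zz x ≤ 1) (hw : ∀ x ∈ O, |w x| ≤ zz x)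
    (hp : ∀ x ∈ O, x ∉ bad → |w x - ws| ≤ ε) (hws : η ≤ |ws|) :
    ((η - ε) - ((η - ε) + 1) * ν) * ∫ x in O, W x ∂μ ≤ |∫ x in O, K x * w x ∂μ| := by
  have hc : 0 ≤ η - ε := by linarith
  have habs : ∀ x ∈ O, |K x * w x| ≤ W x := by
    intro x hx
    rw [abs_mul, abs_of_nonneg (hK x hx), hWe]
    exact mul_le_mul_of_nonneg_left (hw x hx) (hK x hx)
  have low : ∀ k z v : ℝ, 0 ≤ k → 0 ≤ z → z ≤ 1 → η - ε ≤ v → (η - ε) * (k * z) ≤ k * v := by
    intro k z v hk hz0 hz1 hv
    have h1 : k * (η - ε) ≤ k * v := mul_le_mul_of_nonneg_left hv hk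
    have h2 : (η - ε) * k * z ≤ (η - ε) * k * 1 :=
      mul_le_mul_of_nonneg_left hz1 (mul_nonneg hc hk)
    nlinarith
  rcases le_total 0 ws with h | h
  · rw [abs_of_nonneg h] at hws
    refine (ratio_lower hO hbad hW hb hc hf habs fun x hx hxb => ?_).trans (le_abs_self _)
    rw [hWe]
    refine low _ _ _ (hK x hx) (hz x hx).1 (hz x hx).2 ?_
    have := (abs_le.1 (hp x hx hxb)).1
    linarith
  · rw [abs_of_nonpos h] at hws
    have h1 : ∀ x, -(K x * w x) = K x * -w x := fun x => by ring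
    have h2 := ratio_lower (f := fun x => -(K x * w x)) hO hbad hW hb hc hf.neg
      (fun x hx => by rw [abs_neg]; exact habs x hx) (fun x hx hxb => by
        rw [hWe, h1]
        refine low _ _ _ (hK x hx) (hz x hx).1 (hz x hx).2 ?_
        have := (abs_le.1 (hp x hx hxb)).2
        linarith)
    rw [integral_neg] at h2
    exact h2.trans (neg_le_abs _)

/-! ### Numbers -/

lemma numbers {g η δ : ℝ} {L N : ℕ} (hg : 0 < g) (hL : 100 ≤ L) (hgL : g * (L : ℝ) ^ 100 ≤ 1)
    (hN : ((L : ℝ) / g) ^ 40 ≤ N) (hη : 0 < η) (hη4 : η ≤ 1 / 4)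
    (hδ : δ = (N : ℝ) ^ (-(1 / 4) : ℝ)) (hηN : (L : ℝ) ^ 20 * δ ≤ η) :
    1 ≤ N ∧ 0 < δ ∧ δ ≤ g ∧ g * (L : ℝ) ^ 8 ≤ 1 ∧ 2000 * (L * δ) ≤ η ∧ 10000 * ((L : ℝ) ^ 3 * δ) ≤ 1 / 4 ∧
      1 / (N : ℝ) ≤ η / 2000 := by
  have hL' : (100 : ℝ) ≤ L := by exact_mod_cast hL
  have hL0 : (0 : ℝ) < L := by linarith
  have hNR : (0 : ℝ) < N := lt_of_lt_of_le (by positivity) hN
  have hN1 : 1 ≤ N := by
    have : 0 < N := by exact_mod_cast hNR
    omega
  have hδ0 : 0 < δ := by rw [hδ]; positivity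
  have hδ4 : δ ^ 4 = 1 / N := by
    rw [hδ, ← Real.rpow_natCast, ← Real.rpow_mul hNR.le]
    norm_num
    rw [Real.rpow_neg_one]
  have hp : ∀ k : ℕ, k ≤ 100 → (L : ℝ) ^ k ≤ (L : ℝ) ^ 100 := fun k hk =>
    pow_le_pow_right₀ (by linarith) hk
  have hg8 : g * (L : ℝ) ^ 8 ≤ 1 :=
    (mul_le_mul_of_nonneg_left (hp 8 (by norm_num)) hg.le).trans hgL
  have hg1 : g ≤ 1 := by
    have h1 : (1 : ℝ) ≤ (L : ℝ) ^ 100 := one_le_pow₀ (by linarith)
    nlinarith
  have hgL1 : g / L ≤ 1 := by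
    rw [div_le_one hL0]
    linarith
  have hgL0 : 0 ≤ g / L := by positivity
  have h10 : δ ≤ (g / L) ^ 10 := by
    by_contra hcon
    push Not at hcon
    have h1 : ((g / L) ^ 10) ^ 4 < δ ^ 4 := pow_lt_pow_left₀ hcon (by positivity) (by norm_num)
    rw [hδ4, ← pow_mul] at h1
    have h2 : (g / L) ^ (10 * 4) * ((L : ℝ) / g) ^ 40 = 1 := by
      rw [show 10 * 4 = 40 from rfl, ← mul_pow]
      rw [show g / L * (L / g) = 1 by field_simp, one_pow]
    have h3 : (g / L) ^ (10 * 4) * ((L : ℝ) / g) ^ 40 < 1 := by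
      calc (g / L) ^ (10 * 4) * ((L : ℝ) / g) ^ 40 ≤ (g / L) ^ (10 * 4) * N :=
            mul_le_mul_of_nonneg_left hN (by positivity)
        _ < 1 / N * N := mul_lt_mul_of_pos_right h1 hNR
        _ = 1 := by field_simp
    linarith
  have hδg : δ ≤ g := by
    have h1 : (g / L) ^ 10 ≤ (g / L) ^ 1 := pow_le_pow_of_le_one hgL0 hgL1 (by norm_num)
    have h2 : g / L ≤ g := div_le_self hg.le (by linarith)
    rw [pow_one] at h1
    linarith
  have hδ1 : δ ≤ 1 := hδg.trans hg1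
  have hL3 : 2000 * (L : ℝ) ≤ (L : ℝ) ^ 20 := by
    have h1 : (L : ℝ) ^ 3 ≤ (L : ℝ) ^ 20 := pow_le_pow_right₀ (by linarith) (by norm_num)
    nlinarith [sq_nonneg ((L : ℝ) - 100)]
  have hL5 : 10000 * (L : ℝ) ^ 3 ≤ (L : ℝ) ^ 20 := by
    have h1 : (L : ℝ) ^ 5 ≤ (L : ℝ) ^ 20 := pow_le_pow_right₀ (by linarith) (by norm_num)
    have h2 : (10000 : ℝ) ≤ (L : ℝ) ^ 2 := by nlinarith
    have h3 : (L : ℝ) ^ 5 = (L : ℝ) ^ 2 * (L : ℝ) ^ 3 := by ring
    have h4 : 10000 * (L : ℝ) ^ 3 ≤ (L : ℝ) ^ 2 * (L : ℝ) ^ 3 :=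
      mul_le_mul_of_nonneg_right h2 (by positivity)
    linarith
  have h2000 : 2000 * (L * δ) ≤ η := by
    calc 2000 * (L * δ) = (2000 * L) * δ := by ring
      _ ≤ (L : ℝ) ^ 20 * δ := mul_le_mul_of_nonneg_right hL3 hδ0.le
      _ ≤ η := hηN
  refine ⟨hN1, hδ0, hδg, hg8, h2000, ?_, ?_⟩
  · calc 10000 * ((L : ℝ) ^ 3 * δ) = (10000 * (L : ℝ) ^ 3) * δ := by ring
      _ ≤ (L : ℝ) ^ 20 * δ := mul_le_mul_of_nonneg_right hL5 hδ0.le
      _ ≤ 1 / 4 := hηN.trans hη4
  · rw [← hδ4]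
    have h1 : δ ^ 4 ≤ δ ^ 1 := pow_le_pow_of_le_one hδ0.le hδ1 (by norm_num)
    rw [pow_one] at h1
    have h2 : δ ≤ L * δ := by nlinarith
    linarith

lemma min_of_small {x y η : ℝ} (h : x ≤ 1 / 8) (hη : η ≤ 1 / 4) : min x y ≤ 1 / 2 - η / 4 :=
  (min_le_left _ _).trans (by linarith)

lemma min_of_diff {x y η : ℝ} (h : x + y ≤ 1) (hd : η / 2 ≤ |x - y|) :
    min x y ≤ 1 / 2 - η / 4 := by
  rcases le_total x y with h1 | h1
  · rw [min_eq_left h1]
    rw [abs_of_nonpos (by linarith)] at hd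
    linarith
  · rw [min_eq_right h1]
    rw [abs_of_nonneg (by linarith)] at hd
    linarith

lemma valid_role {A B : Finset ℕ} (e : Gd A B) : Valid A B (roleOf e) := by
  rcases e with (_ | _) | (l | l)
  · exact trivial
  · exact trivial
  · exact l.2
  · exact l.2

lemma chain_num {zz u Z I : ℝ} (h1 : I ≤ zz / 16 + 20 * u) (h2 : zz - 2 * u ≤ Z)
    (h3 : 5000 * u ≤ zz) (h0 : 0 ≤ u) : I ≤ 1 / 9 * Z := by
  linarith

lemma zb_num {L m : ℕ} {zz δ : ℝ} (hL : 100 ≤ L) (hm : m ≤ L)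
    (hz : (99 / 100 : ℝ) / (((m + m : ℕ) + 1) * ((m + m : ℕ) + 2) : ℝ) ≤ zz) (hδ : 0 < δ)
    (h3 : 10000 * ((L : ℝ) ^ 3 * δ) ≤ 1 / 4) : 5000 * (L * δ) ≤ zz := by
  have hL' : (100 : ℝ) ≤ L := by exact_mod_cast hL
  have hm' : (m : ℝ) ≤ L := by exact_mod_cast hm
  have hm0 : (0 : ℝ) ≤ m := Nat.cast_nonneg _
  refine le_trans ?_ hz
  push_cast
  rw [le_div_iff₀ (by positivity)]
  have h4 : ((m : ℝ) + m + 1) * (m + m + 2) ≤ 5 * (L : ℝ) ^ 2 := by nlinarith
  have h5 : 5000 * ((L : ℝ) * δ) * (((m : ℝ) + m + 1) * (m + m + 2)) ≤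
      5000 * ((L : ℝ) * δ) * (5 * (L : ℝ) ^ 2) := mul_le_mul_of_nonneg_left h4 (by positivity)
  have h6 : 5000 * ((L : ℝ) * δ) * (5 * (L : ℝ) ^ 2) = 25000 * ((L : ℝ) ^ 3 * δ) := by ring
  linarith

lemma num2 {η δ ν : ℝ} {L : ℕ} (h2000 : 2000 * ((L : ℝ) * δ) ≤ η) (hν : ν ≤ η / 2000) (hν0 : 0 ≤ ν)
    (hη : 0 < η) (hη4 : η ≤ 1 / 4) (hδ : 0 < δ) :
    η / 2 ≤ (η - 20 * L * δ) - ((η - 20 * L * δ) + 1) * ν := by
  have h0 : 0 ≤ (L : ℝ) * δ := by positivity
  have h1 : 20 * (L : ℝ) * δ = 20 * (L * δ) := by ring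
  rw [h1]
  have h2 : ((η - 20 * ((L : ℝ) * δ)) + 1) * ν ≤ (5 / 4) * ν :=
    mul_le_mul_of_nonneg_right (by linarith) hν0
  linarith

lemma role_ne {A B : Finset ℕ} {s s' : {l : ℕ // l ∈ A} ⊕ {l : ℕ // l ∈ B}} (h : s ≠ s') :
    roleOf (.inr s : Gd A B) ≠ roleOf (.inr s' : Gd A B) := by
  rcases s with l | l <;> rcases s' with l' | l' <;> intro h' <;> simp only [roleOf] at h'
  · injection h' with h'
    exact h (congrArg Sum.inl (Subtype.ext h'))
  · cases h'
  · cases h'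
  · injection h' with h'
    exact h (congrArg Sum.inr (Subtype.ext h'))

lemma role_sat {A B : Finset ℕ} (s : {l : ℕ // l ∈ A} ⊕ {l : ℕ // l ∈ B}) :
    roleOf (.inr s : Gd A B) ≠ .lo ∧ roleOf (.inr s : Gd A B) ≠ .hi := by
  rcases s with l | l <;> constructor <;> intro h <;> simp only [roleOf] at h <;> cases h

lemma split_el {L N : ℕ} {us vs : ℕ → ℕ} {A B : ℕ → Finset ℕ} (a : El L N us vs A B) :
    Bot a ∨ Top a ∨ ∃ (t : Fin N) (e : Gd (A t) (B t)), a = .inr (.inr ⟨t, e⟩) := by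
  rcases a with (⟨i, j⟩ | ⟨i, j⟩) | ((k | k) | ⟨t, e⟩)
  · exact Or.inl trivial
  · exact Or.inr (Or.inl trivial)
  · exact Or.inl trivial
  · exact Or.inr (Or.inl trivial)
  · exact Or.inr (Or.inr ⟨t, e, rfl⟩)

end BALF

open BALF

theorem balf (hP1 : S_P1) (hOPVS : S_OPVS) (hWID : S_WID) (hVD : S_VD) (hCONC : S_CONC)
    (hPERT : S_PERT) (hMASS : S_MASS) (hZB : S_ZB) (hT6 : S_T6) : S_BAL := by
  intro g η L m N A B hg hL hgL hm hN hη hη4 hηN hcard hWWp hsame
  obtain ⟨us, vs, hI, hbadI⟩ := hCONC g L m N A B hg hL hgL hm hN hcard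
  set δ : ℝ := (N : ℝ) ^ (-(1 / 4) : ℝ) with hδdef
  obtain ⟨hN1, hδ0, hδg, hg8, h2000, h10000, hν⟩ := numbers hg hL hgL hN hη hη4 hδdef hηN
  have hL' : (100 : ℝ) ≤ L := by exact_mod_cast hL
  have hL1 : 1 ≤ L := by omega
  have hsub : ∀ t < N, Sub1 L (A t) ∧ Sub1 L (B t) := fun t ht =>
    ⟨(hcard t ht).2.2.1, (hcard t ht).2.2.2.1⟩
  have hop := hOPVS L N us vs A B hL1 hsub
  have hne : (VS L N us vs A B).Nonempty := by
    obtain ⟨f, hf, _⟩ := hop.1 (fun _ => 1 / 2) (fun _ => by norm_num)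
    exact ⟨f, hf⟩
  have hwid := hWID L N m us vs A B hL1 hN1 (by omega)
    (fun t ht => ⟨(hsub t ht).1, (hsub t ht).2, (hcard t ht).1, (hcard t ht).2.1,
      (hcard t ht).2.2.2.2.1, (hcard t ht).2.2.2.2.2⟩) hne
  obtain ⟨hVtop, hVval, hVpair, hVsame, hVlo, hVhi⟩ := hVD L N us vs A B hL1 hsub
  letI inst := po L N us vs A B hne
  refine ⟨El L N us vs A B, inferInstance, inst, hwid, ?_⟩
  -- notation
  set V : ℝ := (volume (VS L N us vs A B)).toReal with hV
  have hVI : V = ∫ θ in OmS L, wt us vs θ * ∏ k : Fin N, ZT (phi θ) (psi θ) (A k) (B k) := hVval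
  have hV0 : 0 < V := hVI ▸ hI
  set q : El L N us vs A B → El L N us vs A B → ℝ := fun a b =>
    (volume {f ∈ VS L N us vs A B | f a < f b}).toReal with hq
  have hprob : ∀ a b, Pool.Agent.H13R3.WB.prob (El L N us vs A B) a b = q a b / V := by
    intro a b
    have h1 := (hP1 (El L N us vs A B) a b).2.2
    rw [hop.2 hne] at h1
    exact h1
  have hqle : ∀ (a b) (S : Set (El L N us vs A B → ℝ)),
      (∀ f ∈ VS L N us vs A B, f a < f b → f ∈ S) → S ⊆ VS L N us vs A B →
      q a b ≤ (volume S).toReal := by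
    intro a b S hS hSV
    refine ENNReal.toReal_mono ((measure_mono hSV).trans_lt (lt_top_iff_ne_top.2 hVtop)).ne
      (measure_mono ?_)
    intro f hf
    exact hS f hf.1 hf.2
  have hsum : ∀ a b, q a b + q b a ≤ V := by
    intro a b
    have hm1 : MeasurableSet {f : El L N us vs A B → ℝ | f a < f b} :=
      measurableSet_lt (measurable_pi_apply a) (measurable_pi_apply b)
    have h1 := measure_inter_add_diff (μ := (volume : Measure (El L N us vs A B → ℝ)))
      (VS L N us vs A B) hm1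
    have h2 : volume {f ∈ VS L N us vs A B | f b < f a} ≤
        volume (VS L N us vs A B \ {f | f a < f b}) := by
      refine measure_mono fun f hf => ⟨hf.1, fun h => ?_⟩
      exact lt_asymm hf.2 h
    have h3 : volume {f ∈ VS L N us vs A B | f a < f b} +
        volume {f ∈ VS L N us vs A B | f b < f a} ≤ volume (VS L N us vs A B) := by
      rw [← h1]
      exact add_le_add le_rfl h2
    have h4 : volume {f ∈ VS L N us vs A B | f a < f b} ≠ ⊤ :=
      ((measure_mono (Set.sep_subset _ _)).trans_lt (lt_top_iff_ne_top.2 hVtop)).ne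
    have h5 : volume {f ∈ VS L N us vs A B | f b < f a} ≠ ⊤ :=
      ((measure_mono (Set.sep_subset _ _)).trans_lt (lt_top_iff_ne_top.2 hVtop)).ne
    rw [hq, hV]
    simp only
    rw [← ENNReal.toReal_add h4 h5]
    exact ENNReal.toReal_mono hVtop h3
  set T : El L N us vs A B → El L N us vs A B → Prop := fun a b =>
    min (Pool.Agent.H13R3.WB.prob (El L N us vs A B) a b)
      (Pool.Agent.H13R3.WB.prob (El L N us vs A B) b a) ≤ 1 / 2 - η / 4 with hT
  have hTsymm : ∀ a b, T a b → T b a := fun a b h => by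
    rw [hT] at h ⊢
    simp only at h ⊢
    rwa [min_comm]
  have hsmall : ∀ a b, q a b ≤ 1 / 8 * V → T a b := by
    intro a b h
    refine min_of_small ?_ hη4
    rw [hprob, div_le_iff₀ hV0]
    exact h
  have hcmp : ∀ a b, Cmp a b → T a b := by
    have key : ∀ a b, (∀ f ∈ VS L N us vs A B, f a ≤ f b) → T b a := by
      intro a b h
      refine hsmall b a ?_
      have h1 : {f ∈ VS L N us vs A B | f b < f a} = ∅ := by
        ext f
        simp only [Set.mem_sep_iff, Set.mem_empty_iff_false, iff_false, not_and]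
        exact fun hf h' => absurd (h f hf) (not_le.2 h')
      rw [hq]
      simp only
      rw [h1, measure_empty, ENNReal.toReal_zero]
      positivity
    intro a b h
    rcases h with h | h | h
    · exact hTsymm _ _ (key a b fun f hf => (h f hf).le)
    · exact key b a fun f hf => (h f hf).le
    · exact key b a fun f hf => by rw [h]
  have hdiff : ∀ a b, η / 2 * V ≤ |q a b - q b a| → T a b := by
    intro a b h
    refine min_of_diff ?_ ?_
    · rw [hprob, hprob, ← add_div, div_le_one hV0]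
      exact hsum a b
    · rw [hprob, hprob, ← sub_div, abs_div, abs_of_pos hV0, le_div_iff₀ hV0]
      exact h
  -- the good frontiers
  set bad : Set (Fr L) := {θ | ∃ l, 1 ≤ l ∧ l ≤ L ∧ (δ < |phi θ l - g * l| ∨
        δ < |psi θ l - (1 - g * l)|)} with hbaddef
  have hOm : MeasurableSet (OmS L) := meas_OmS L
  have hbadm : MeasurableSet bad := by
    have h1 : bad = ⋃ l, ({θ : Fr L | 1 ≤ l} ∩ ({θ | l ≤ L} ∩ ({θ | δ < |phi θ l - g * l|} ∪
        {θ | δ < |psi θ l - (1 - g * l)|}))) := by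
      ext θ
      simp only [hbaddef, Set.mem_ofPred_eq, Set.mem_iUnion, Set.mem_inter_iff, Set.mem_union]
    rw [h1]
    refine MeasurableSet.iUnion fun l => (MeasurableSet.const _).inter
      ((MeasurableSet.const _).inter (MeasurableSet.union ?_ ?_))
    · exact measurableSet_lt measurable_const ((meas_phi l).sub measurable_const).norm
    · exact measurableSet_lt measurable_const ((meas_psi l).sub measurable_const).norm
  have hgood : ∀ θ : Fr L, θ ∉ bad → ∀ l, 1 ≤ l → l ≤ L →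
      |phi θ l - g * l| ≤ δ ∧ |psi θ l - (1 - g * l)| ≤ δ := by
    intro θ hθ l h1 h2
    constructor
    · by_contra hcon
      exact hθ ⟨l, h1, h2, Or.inl (not_le.1 hcon)⟩
    · by_contra hcon
      exact hθ ⟨l, h1, h2, Or.inr (not_le.1 hcon)⟩
  have hZm : ∀ k : Fin N, Measurable fun θ : Fr L => ZT (phi θ) (psi θ) (A k) (B k) :=
    fun k => meas_ZT _ _
  have hZ : ∀ θ ∈ OmS L, ∀ k : Fin N, 0 ≤ ZT (phi θ) (psi θ) (A k) (B k) ∧
      ZT (phi θ) (psi θ) (A k) (B k) ≤ 1 := by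
    intro θ hθ k
    have h1 := hMASS (phi θ) (psi θ) (A k) (B k) (.inl false) (phi_mem hθ) (psi_mem hθ)
    exact ⟨h1.2.2.2.1, h1.2.2.2.2.1⟩
  have hν0 : 0 ≤ 1 / (N : ℝ) := by positivity
  have hnum := num2 h2000 hν hν0 hη hη4 hδ0
  have hε : 20 * (L : ℝ) * δ ≤ η := by
    have h0 : 0 ≤ (L : ℝ) * δ := by positivity
    linarith
  -- gadget elements in different gadgets
  have hpair : ∀ (s t : Fin N) (e : Gd (A s) (B s)) (e' : Gd (A t) (B t)), s ≠ t →
      T (.inr (.inr ⟨s, e⟩)) (.inr (.inr ⟨t, e'⟩)) := by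
    intro s t e e' hst
    refine hdiff _ _ ?_
    rw [hq]
    simp only
    rw [hVpair s t e e' hst]
    refine le_trans (mul_le_mul_of_nonneg_right hnum hV0.le) ?_
    rw [hVI]
    have hPE := fun θ (hθ : θ ∈ OmS L) (hb : θ ∉ bad) => (hPERT g δ L (phi θ) (psi θ) (A s) (B s)
      (A t) (B t) hg hL hg8 hδ0.le hδg (hsub s s.2).1 (hsub s s.2).2 (hsub t t.2).1 (hsub t t.2).2
      (phi_mem hθ) (psi_mem hθ) (hgood θ hb)).2.2.1 e e'
    refine pair_bound (zz := fun θ => ZT (phi θ) (psi θ) (A s) (B s) * ZT (phi θ) (psi θ) (A t) (B t))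
      hOm hbadm hI hbadI hε ?_ ?_ ?_ ?_ ?_ hPE
      (hWWp s t s.2 t.2 (fun h => hst (Fin.ext h)) _ _ (valid_role e) (valid_role e'))
    · exact ((meas_wt us vs).mul (Finset.measurable_prod _ fun k _ => hZm k)).mul
        (meas_WW _ _ _ _ _ _)
    · intro θ
      rw [← Finset.mul_prod_erase univ (fun k : Fin N => ZT (phi θ) (psi θ) (A k) (B k))
        (mem_univ s), ← Finset.mul_prod_erase (univ.erase s)
        (fun k : Fin N => ZT (phi θ) (psi θ) (A k) (B k)) (mem_erase.2 ⟨hst.symm, mem_univ t⟩)]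
      ring
    · intro θ hθ
      exact mul_nonneg (wt_nonneg hθ _ _) (prod_nonneg fun k _ => (hZ θ hθ k).1)
    · intro θ hθ
      have h1 := hZ θ hθ s
      have h2 := hZ θ hθ t
      exact ⟨mul_nonneg h1.1 h2.1, mul_le_one₀ h1.2 h2.1 h2.2⟩
    · intro θ hθ
      have h1 := hMASS (phi θ) (psi θ) (A s) (B s) e (phi_mem hθ) (psi_mem hθ)
      have h2 := hMASS (phi θ) (psi θ) (A t) (B t) e' (phi_mem hθ) (psi_mem hθ)
      have h3 := WW_bound _ _ (fun z h h' => (h1.2.1 z h h').1) (fun z h h' => (h2.2.1 z h h').1)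
        h1.2.2.1 h2.2.2.1
      rw [h1.1, h2.1] at h3
      exact h3
  have hsat : ∀ (t : Fin N) (s s' : {l : ℕ // l ∈ A t} ⊕ {l : ℕ // l ∈ B t}), s ≠ s' →
      T (.inr (.inr ⟨t, .inr s⟩)) (.inr (.inr ⟨t, .inr s'⟩)) := by
    intro t s s' hss
    refine hdiff _ _ ?_
    rw [hq]
    simp only
    rw [hVsame t s s' hss]
    refine le_trans (mul_le_mul_of_nonneg_right hnum hV0.le) ?_
    rw [hVI]
    have hPE := fun θ (hθ : θ ∈ OmS L) (hb : θ ∉ bad) => (hPERT g δ L (phi θ) (psi θ) (A t) (B t)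
      (A t) (B t) hg hL hg8 hδ0.le hδg (hsub t t.2).1 (hsub t t.2).2 (hsub t t.2).1 (hsub t t.2).2
      (phi_mem hθ) (psi_mem hθ) (hgood θ hb)).2.2.2.1 s s' hss
    refine pair_bound (zz := fun θ => ZT (phi θ) (psi θ) (A t) (B t))
      hOm hbadm hI hbadI hε ?_ ?_ ?_ ?_ ?_ hPE
      (hsame t t.2 _ _ (valid_role _) (valid_role _) (role_ne hss) (role_sat s).1 (role_sat s).2
        (role_sat s').1 (role_sat s').2)
    · exact ((meas_wt us vs).mul (Finset.measurable_prod _ fun k _ => hZm k)).mul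
        (meas_same _ _ _ _)
    · intro θ
      rw [← Finset.mul_prod_erase univ (fun k : Fin N => ZT (phi θ) (psi θ) (A k) (B k))
        (mem_univ t)]
      ring
    · intro θ hθ
      exact mul_nonneg (wt_nonneg hθ _ _) (prod_nonneg fun k _ => (hZ θ hθ k).1)
    · intro θ hθ
      exact hZ θ hθ t
    · intro θ hθ
      exact (hMASS (phi θ) (psi θ) (A t) (B t) (.inl false) (phi_mem hθ)
        (psi_mem hθ)).2.2.2.2.2.2 s s' hss
  -- the chains
  have hmL : ∀ t : Fin N, m ≤ L := by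
    intro t
    have h1 : A t ⊆ Icc 1 L := fun l hl => mem_Icc.2 ((hsub t t.2).1 l hl)
    have h2 := card_le_card h1
    rw [(hcard t t.2).1, Nat.card_Icc] at h2
    omega
  have hcA : ∀ t : Fin N, (A t).card + (B t).card = m + m := fun t => by
    rw [(hcard t t.2).1, (hcard t t.2).2.1]
  have hzz : ∀ t : Fin N, 5000 * ((L : ℝ) * δ) ≤ ZZ g (A t) (B t) := by
    intro t
    refine zb_num hL (hmL t) ?_ hδ0 h10000
    have h1 := (hZB g L (A t) (B t) hg hL hg8 (hsub t t.2).1 (hsub t t.2).2 (by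
      rw [hcA]; omega)).2
    rw [hcA] at h1
    exact h1
  have hu0 : 0 ≤ (L : ℝ) * δ := by positivity
  have hK0 : ∀ θ ∈ OmS L, ∀ t : Fin N,
      0 ≤ wt us vs θ * ∏ k ∈ univ.erase t, ZT (phi θ) (psi θ) (A k) (B k) := fun θ hθ t =>
    mul_nonneg (wt_nonneg hθ _ _) (prod_nonneg fun k _ => (hZ θ hθ k).1)
  have hWe : ∀ (θ : Fr L) (t : Fin N),
      wt us vs θ * ∏ k : Fin N, ZT (phi θ) (psi θ) (A k) (B k) =
      (wt us vs θ * ∏ k ∈ univ.erase t, ZT (phi θ) (psi θ) (A k) (B k)) *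
        ZT (phi θ) (psi θ) (A t) (B t) := by
    intro θ t
    rw [← Finset.mul_prod_erase univ (fun k : Fin N => ZT (phi θ) (psi θ) (A k) (B k))
        (mem_univ t)]
    ring
  have hchain : ∀ (t : Fin N) (I : Fr L → ℝ),
      (∀ θ ∈ OmS L, 0 ≤ I θ ∧ I θ ≤ ZT (phi θ) (psi θ) (A t) (B t)) →
      (∀ θ ∈ OmS L, θ ∉ bad → I θ ≤ ZZ g (A t) (B t) / 16 + 20 * L * δ) →
      ∫ θ in OmS L, wt us vs θ * (∏ k ∈ univ.erase t, ZT (phi θ) (psi θ) (A k) (B k)) * I θ ≤
        1 / 8 * V := by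
    intro t I hI1 hI2
    have h1 := ratio_upper (μ := volume) (f := fun θ : Fr L =>
      wt us vs θ * (∏ k ∈ univ.erase t, ZT (phi θ) (psi θ) (A k) (B k)) * I θ) (c := 1 / 9)
      hOm hbadm hI hbadI (by norm_num) (by
        intro θ hθ
        refine ⟨mul_nonneg (hK0 θ hθ t) (hI1 θ hθ).1, ?_⟩
        rw [hWe θ t]
        exact mul_le_mul_of_nonneg_left (hI1 θ hθ).2 (hK0 θ hθ t)) (by
        intro θ hθ hb
        have h2 := (hPERT g δ L (phi θ) (psi θ) (A t) (B t) (A t) (B t) hg hL hg8 hδ0.le hδg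
          (hsub t t.2).1 (hsub t t.2).2 (hsub t t.2).1 (hsub t t.2).2
          (phi_mem hθ) (psi_mem hθ) (hgood θ hb)).2.1
        have h3 := (abs_le.1 h2).1
        have h4 := hI2 θ hθ hb
        have h5 : I θ ≤ 1 / 9 * ZT (phi θ) (psi θ) (A t) (B t) :=
          chain_num (zz := ZZ g (A t) (B t)) (u := L * δ) (by linarith) (by linarith) (hzz t) hu0
        rw [hWe θ t]
        have h6 := mul_le_mul_of_nonneg_left h5 (hK0 θ hθ t)
        linarith)
    rw [← hVI] at h1
    refine h1.trans (mul_le_mul_of_nonneg_right ?_ hV0.le)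
    linarith
  have hbotg : ∀ (a : El L N us vs A B) (t : Fin N) (e : Gd (A t) (B t)), Bot a →
      T a (.inr (.inr ⟨t, e⟩)) := by
    intro a t e ha
    refine hTsymm _ _ (hsmall _ _ ?_)
    refine (hqle _ _ {f ∈ VS L N us vs A B | f (.inr (.inr ⟨t, .inl false⟩)) <
        phi (fun i => f (.inr (.inl i))) L} ?_ (Set.sep_subset _ _)).trans ?_
    · intro f hf hlt
      exact ⟨hf, ((gd_lo hf t e).trans_lt hlt).trans_le (bot_le hf a ha)⟩
    rw [hVlo t]
    refine hchain t (fun θ => ∫ x in (0 : ℝ)..(phi θ L), hXT (phi θ) (psi θ) (A t) (B t) x) ?_ ?_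
    · intro θ hθ
      have h1 := hMASS (phi θ) (psi θ) (A t) (B t) (.inl false) (phi_mem hθ) (psi_mem hθ)
      have h2 := part_int _ (fun z h h' => (h1.2.1 z h h').1) h1.2.2.1 0 (phi θ L) le_rfl
        (phi_mem hθ L).1 (phi_mem hθ L).2
      rw [h1.1] at h2
      exact h2
    · intro θ hθ hb
      have h2 := (hPERT g δ L (phi θ) (psi θ) (A t) (B t) (A t) (B t) hg hL hg8 hδ0.le hδg
          (hsub t t.2).1 (hsub t t.2).2 (hsub t t.2).1 (hsub t t.2).2
          (phi_mem hθ) (psi_mem hθ) (hgood θ hb)).2.2.2.2.1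
      have h3 := (hT6 g L (A t) (B t) hg hL hg8 (hsub t t.2).1 (hsub t t.2).2
        (by rw [hcA]; omega)).1
      linarith
  have htopg : ∀ (a : El L N us vs A B) (t : Fin N) (e : Gd (A t) (B t)), Top a →
      T a (.inr (.inr ⟨t, e⟩)) := by
    intro a t e ha
    refine hsmall _ _ ?_
    refine (hqle _ _ {f ∈ VS L N us vs A B | psi (fun i => f (.inr (.inl i))) L <
        f (.inr (.inr ⟨t, .inl true⟩))} ?_ (Set.sep_subset _ _)).trans ?_
    · intro f hf hlt
      exact ⟨hf, ((top_ge hf a ha).trans_lt hlt).trans_le (gd_hi hf t e)⟩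
    rw [hVhi t]
    refine hchain t (fun θ => ∫ y in (psi θ L)..1, hYT (phi θ) (psi θ) (A t) (B t) y) ?_ ?_
    · intro θ hθ
      have h1 := hMASS (phi θ) (psi θ) (A t) (B t) (.inl true) (phi_mem hθ) (psi_mem hθ)
      have h2 := part_int _ (fun z h h' => (h1.2.1 z h h').1) h1.2.2.1 (psi θ L) 1
        (psi_mem hθ L).1 (psi_mem hθ L).2 le_rfl
      rw [h1.1] at h2
      exact h2
    · intro θ hθ hb
      have h2 := (hPERT g δ L (phi θ) (psi θ) (A t) (B t) (A t) (B t) hg hL hg8 hδ0.le hδg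
          (hsub t t.2).1 (hsub t t.2).2 (hsub t t.2).1 (hsub t t.2).2
          (phi_mem hθ) (psi_mem hθ) (hgood θ hb)).2.2.2.2.2
      have h3 := (hT6 g L (A t) (B t) hg hL hg8 (hsub t t.2).1 (hsub t t.2).2
        (by rw [hcA]; omega)).2
      linarith
  have hgg : ∀ (s t : Fin N) (e : Gd (A s) (B s)) (e' : Gd (A t) (B t)),
      T (.inr (.inr ⟨s, e⟩)) (.inr (.inr ⟨t, e'⟩)) := by
    intro s t e e'
    by_cases hst : s = t
    · subst hst
      rcases e with (_ | _) | s1
      · rcases e' with (_ | _) | s2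
        · exact hcmp _ _ (Or.inr (Or.inr rfl))
        · exact hcmp _ _ (Or.inl fun f hf => (hf.2.2.2.2.2 s).2.1)
        · exact hcmp _ _ (Or.inl fun f hf => ((hf.2.2.2.2.2 s).2.2.1 s2).1)
      · rcases e' with (_ | _) | s2
        · exact hcmp _ _ (Or.inr (Or.inl fun f hf => (hf.2.2.2.2.2 s).2.1))
        · exact hcmp _ _ (Or.inr (Or.inr rfl))
        · exact hcmp _ _ (Or.inr (Or.inl fun f hf => ((hf.2.2.2.2.2 s).2.2.1 s2).2))
      · rcases e' with (_ | _) | s2
        · exact hcmp _ _ (Or.inr (Or.inl fun f hf => ((hf.2.2.2.2.2 s).2.2.1 s1).1))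
        · exact hcmp _ _ (Or.inl fun f hf => ((hf.2.2.2.2.2 s).2.2.1 s1).2)
        · by_cases h12 : s1 = s2
          · subst h12
            exact hcmp _ _ (Or.inr (Or.inr rfl))
          · exact hsat s s1 s2 h12
    · exact hpair s t e e' hst
  have hall : ∀ a b, T a b := by
    intro a b
    rcases split_el a with ha | ha | ⟨s, e, rfl⟩
    · rcases split_el b with hb | hb | ⟨t, e', rfl⟩
      · exact hcmp _ _ (cmp_bot a b ha hb)
      · exact hcmp _ _ (cmp_bot_top a b ha hb)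
      · exact hbotg a t e' ha
    · rcases split_el b with hb | hb | ⟨t, e', rfl⟩
      · exact hTsymm _ _ (hcmp _ _ (cmp_bot_top b a hb ha))
      · exact hcmp _ _ (cmp_top a b ha hb)
      · exact htopg a t e' ha
    · rcases split_el b with hb | hb | ⟨t, e', rfl⟩
      · exact hTsymm _ _ (hbotg b s e hb)
      · exact hTsymm _ _ (htopg b s e hb)
      · exact hgg s t e e'
  haveI : Nonempty (El L N us vs A B) := ⟨.inr (.inl (.inl ⟨0, by omega⟩))⟩
  unfold Pool.Agent.H13R3.WB.balance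
  exact ciSup_le fun p => hall p.1 p.2

end Pool.Agent.H34.RK
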