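import Mathlib

/-!
# Project RK (MP_c890a7_co): `1/2 - δ_w ≥ (log w)^(-C)`. Definitions.
-/

set_option autoImplicit false

open Finset

namespace Pool.Agent.H34.RK

/-- Prouhet classes: `Y D c` is the set of the `n < 3 ^ D` whose ternary digit sum is `c` mod `3`. -/
def Y : ℕ → ZMod 3 → Finset ℕ
  | 0, c => if c = 0 then {0} else ∅
  | D + 1, c => (Y D c ∪ (Y D (c - 1)).image (fun n => 3 ^ D + n)) ∪
      (Y D (c - 2)).image (fun n => 2 * 3 ^ D + n)

/-- The coded set: `B` blocks of length `3 ^ D`, block `i` carries the class `c i`; a subset of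
`[1, B * 3 ^ D + 1]` whose last element `B * 3 ^ D + 1` is always present. -/
def blk (D B : ℕ) (c : ℕ → ZMod 3) : Finset ℕ :=
  (range B).biUnion (fun i => (Y D (c i)).image (fun n => i * 3 ^ D + n + 1)) ∪ {B * 3 ^ D + 1}

/-- Length of the coded region. -/
def len (D B : ℕ) : ℕ := B * 3 ^ D + 1

/-- Elementary symmetric sums of the values `f ℓ`, `ℓ ∈ A`. -/
def esy (A : Finset ℕ) (f : ℕ → ℝ) (j : ℕ) : ℝ := ∑ t ∈ A.powersetCard j, ∏ l ∈ t, f l

/-- The skew form on three symbols. -/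
def cyc (a b : ZMod 3) : ℤ := if b = a + 1 then 1 else if a = b + 1 then -1 else 0

/-- Functionals on words of degree `< k`. -/
def Ord : ℕ → (List (Fin 3) → ℝ) → Prop
  | 0, f => ∀ w, f w = 0
  | k + 1, f => ∀ b : Fin 3, Ord k (fun w => f (b :: w) - f w)

/-- Prouhet words (letter `1` at the places of `Y D c`, letter `0` at the others). -/
def pw : ℕ → ZMod 3 → List (Fin 3)
  | 0, c => [if c = 0 then 1 else 0]
  | D + 1, c => pw D c ++ (pw D (c - 1) ++ pw D (c - 2))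

/-- The word of `blk D B c`. -/
def bw (D B : ℕ) (c : ℕ → ZMod 3) : List (Fin 3) :=
  (List.range B).flatMap (fun i => pw D (c i)) ++ [1]

/-- Elementary symmetric sum of the values `x + i`, `i` running over the places of the letters `1`. -/
noncomputable def es : List (Fin 3) → ℝ → ℕ → ℝ
  | _, _, 0 => 1
  | [], _, _ + 1 => 0
  | b :: w, x, j + 1 => es w (x + 1) (j + 1) + (if b = 1 then x * es w (x + 1) j else 0)

/-- Signed power sums of two sets. -/
def Qk (k : ℕ) (A A' : Finset ℕ) : ℤ :=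
  ∑ l ∈ A, ∑ l' ∈ A', Int.sign ((l' : ℤ) - l) * ((l' : ℤ) - l) ^ k

/-- The weight of the centres `x < y` of a gadget with frontiers `φ`, `ψ`: the volume of the set of
the positions of the satellites; a satellite `l ∈ A` lies in `(φ l, 1)`, a satellite `l ∈ B` lies in
`(0, ψ l)`, and all lie between `x` and `y`. -/
noncomputable def KT (φ ψ : ℕ → ℝ) (A B : Finset ℕ) (x y : ℝ) : ℝ :=
  (∏ l ∈ A, max (y - max x (φ l)) 0) * ∏ l ∈ B, max (min y (ψ l) - x) 0

/-- The weight for frontiers in arithmetic progression. -/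
noncomputable def KK (g : ℝ) (A B : Finset ℕ) (x y : ℝ) : ℝ :=
  KT (fun l => g * l) (fun l => 1 - g * l) A B x y

/-- Partition function. -/
noncomputable def ZT (φ ψ : ℕ → ℝ) (A B : Finset ℕ) : ℝ :=
  ∫ x in (0 : ℝ)..1, ∫ y in x..1, KT φ ψ A B x y

/-- Density (not normalised) of the lower centre. -/
noncomputable def hXT (φ ψ : ℕ → ℝ) (A B : Finset ℕ) (x : ℝ) : ℝ := ∫ y in x..1, KT φ ψ A B x y

/-- Density (not normalised) of the upper centre. -/
noncomputable def hYT (φ ψ : ℕ → ℝ) (A B : Finset ℕ) (y : ℝ) : ℝ := ∫ x in (0 : ℝ)..y, KT φ ψ A B x y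

/-- Density (not normalised) of a satellite with window `[lo, hi]`, where `A`, `B` are the other
satellites. -/
noncomputable def hZT (φ ψ : ℕ → ℝ) (A B : Finset ℕ) (lo hi : ℝ) (z : ℝ) : ℝ :=
  if lo ≤ z ∧ z ≤ hi then ∫ x in (0 : ℝ)..z, ∫ y in z..1, KT φ ψ A B x y else 0

noncomputable def ZZ (g : ℝ) (A B : Finset ℕ) : ℝ := ZT (fun l => g * l) (fun l => 1 - g * l) A B
noncomputable def hx (g : ℝ) (A B : Finset ℕ) (x : ℝ) : ℝ :=
  hXT (fun l => g * l) (fun l => 1 - g * l) A B x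
noncomputable def hy (g : ℝ) (A B : Finset ℕ) (x : ℝ) : ℝ :=
  hYT (fun l => g * l) (fun l => 1 - g * l) A B x
/-- Satellite with window `[g * p, 1 - g * q]`. -/
noncomputable def hz (g : ℝ) (A B : Finset ℕ) (p q : ℕ) (z : ℝ) : ℝ :=
  hZT (fun l => g * l) (fun l => 1 - g * l) A B (g * p) (1 - g * q) z

/-- `WW h h' = (mass of z < z') - (mass of z > z')` for the product of `h z dz` and `h' z' dz'`. -/
noncomputable def WW (h h' : ℝ → ℝ) : ℝ :=
  ∫ z in (0 : ℝ)..1, ∫ z' in (0 : ℝ)..1, Real.sign (z' - z) * h z * h' z'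

/-- Test functions: bounded by `1`, and on `[0, g L]` a polynomial of degree `< 8` in `x / g` on each
side of `g p`, with coefficients at most `1`. -/
def IsTest (g : ℝ) (L p : ℕ) (u : ℝ → ℝ) : Prop :=
  Measurable u ∧ (∀ x, |u x| ≤ 1) ∧ ∃ a b : ℕ → ℝ, (∀ i, |a i| ≤ 1) ∧ (∀ i, |b i| ≤ 1) ∧
    ∀ x, 0 ≤ x → x ≤ g * L → u x = ∑ i ∈ range 8, a i * (x / g) ^ i +
      if x < g * p then ∑ i ∈ range 8, b i * (x / g) ^ i else 0

/-- `A` and `A'` have the same integral invariants of low order. -/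
def JEq (L p : ℕ) (A A' : Finset ℕ) : Prop :=
  A.card = A'.card ∧ (∀ l ∈ A, 1 ≤ l ∧ l ≤ L) ∧ (∀ l ∈ A', 1 ≤ l ∧ l ≤ L) ∧ p ≤ L ∧
  ∀ i j : ℕ, i ≤ 20 → j ≤ 8 →
    (∫ v in (0 : ℝ)..L, v ^ i * esy A (fun l => max ((l : ℝ) - v) 0) j) =
      (∫ v in (0 : ℝ)..L, v ^ i * esy A' (fun l => max ((l : ℝ) - v) 0) j) ∧
    (∫ v in (0 : ℝ)..p, v ^ i * esy A (fun l => max ((l : ℝ) - v) 0) j) =
      (∫ v in (0 : ℝ)..p, v ^ i * esy A' (fun l => max ((l : ℝ) - v) 0) j)

end Pool.Agent.H34.RK
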