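import Pool.Agent.H34.RK.Stm3

/-!
# Project RK: the main theorem from the ideal model and the balance constants of the posets
-/

set_option autoImplicit false

open Finset MeasureTheory

namespace Pool.Agent.H34.RK

theorem balance_nonneg' {P : Type} [Fintype P] [PartialOrder P] :
    0 ≤ Pool.Agent.H13R3.WB.balance P := by
  unfold Pool.Agent.H13R3.WB.balance
  refine Real.iSup_nonneg fun p => le_min ?_ ?_
  · unfold Pool.Agent.H13R3.WB.prob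
    positivity
  · unfold Pool.Agent.H13R3.WB.prob
    positivity

theorem dAll_le {v : ℕ} {P : Type} [Fintype P] [PartialOrder P]
    (h : Pool.Agent.H931R3.Bal.HasWidth P v) : dAll v ≤ Pool.Agent.H13R3.WB.balance P := by
  unfold dAll
  refine csInf_le ⟨0, ?_⟩ ⟨P, inferInstance, inferInstance, h, rfl⟩
  rintro d ⟨Q, i1, i2, -, rfl⟩
  exact balance_nonneg'

/-- for large `w` -/
theorem large_w : ∀ᶠ w : ℕ in Filter.atTop,
    (200 * 3 ^ 40 * 32 + 1 : ℝ) ≤ Real.log w ∧ 2 * (Real.log w) ^ 24246 ≤ (w : ℝ) ∧ 2 ≤ w := by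
  have h1 : Filter.Tendsto (fun w : ℕ => Real.log (w : ℝ)) Filter.atTop Filter.atTop :=
    Real.tendsto_log_atTop.comp tendsto_natCast_atTop_atTop
  have h2 : (fun x : ℝ => Real.log x ^ 24246) =o[Filter.atTop] (fun x : ℝ => x) :=
    Real.isLittleO_pow_log_id_atTop
  have h3 := (h2.def (by norm_num : (0 : ℝ) < 1 / 2)).filter_mono
    (le_refl Filter.atTop)
  have h4 := tendsto_natCast_atTop_atTop (R := ℝ) |>.eventually h3
  filter_upwards [h1.eventually_ge_atTop (200 * 3 ^ 40 * 32 + 1 : ℝ), h4,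
    Filter.eventually_ge_atTop 2] with w ha hb hc
  refine ⟨ha, ?_, hc⟩
  have h5 : Real.log (w : ℝ) ^ 24246 ≤ 1 / 2 * (w : ℝ) := by
    have h6 : ‖(w : ℝ)‖ = w := Real.norm_of_nonneg (Nat.cast_nonneg w)
    rw [h6] at hb
    exact (le_abs_self _).trans hb
  linarith

theorem clog_le {w : ℕ} (hw : 2 ≤ w) (hx : 2 ≤ Real.log w) :
    (Nat.clog 2 w : ℝ) ≤ 2 * Real.log w := by
  have h1 : 2 ^ (Nat.clog 2 w).pred < w := Nat.pow_pred_clog_lt_self (by norm_num) hw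
  have h2 : ((2 : ℝ) ^ (Nat.clog 2 w).pred) < w := by exact_mod_cast h1
  have h3 : ((Nat.clog 2 w).pred : ℝ) * Real.log 2 < Real.log w := by
    have := Real.log_lt_log (by positivity) h2
    rwa [Real.log_pow] at this
  have h4 : 0.6931471803 < Real.log 2 := Real.log_two_gt_d9
  have h5 : (Nat.clog 2 w : ℝ) ≤ ((Nat.clog 2 w).pred : ℝ) + 1 := by
    have : Nat.clog 2 w ≤ (Nat.clog 2 w).pred + 1 := by
      rw [Nat.pred_eq_sub_one]; omega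
    exact_mod_cast this
  have h6 : (0 : ℝ) ≤ ((Nat.clog 2 w).pred : ℝ) := Nat.cast_nonneg _
  nlinarith

theorem mainf : S_IDEAL → S_BAL → S_MAIN := by
  intro hI hBal
  obtain ⟨w₀, hw₀⟩ := Filter.eventually_atTop.1 large_w
  refine ⟨4000, w₀, fun w hw => ?_⟩
  obtain ⟨hx, hxw, hw2⟩ := hw₀ w hw
  obtain ⟨x, hxdef⟩ : ∃ x : ℝ, x = Real.log w := ⟨_, rfl⟩
  rw [← hxdef] at hx hxw
  have hx4 : (4 : ℝ) ≤ x := le_trans (by norm_num) hx
  have hx1 : (1 : ℝ) ≤ x := by linarith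
  have hx0 : (0 : ℝ) ≤ x := by linarith
  obtain ⟨J, hJdef⟩ : ∃ J : ℕ, J = Nat.clog 2 w := ⟨_, rfl⟩
  have hJx : (J : ℝ) ≤ 2 * x := by
    rw [hJdef, hxdef]
    exact clog_le hw2 (by rw [← hxdef]; linarith)
  have hwJ : w ≤ 2 ^ J := by
    rw [hJdef]
    exact Nat.le_pow_clog (by norm_num) w
  have hJ2 : 2 ≤ J := by
    by_contra hc
    have hJ1 : J ≤ 1 := by omega
    have h1 : w ≤ 2 := hwJ.trans (by
      calc 2 ^ J ≤ 2 ^ 1 := Nat.pow_le_pow_right (by norm_num) hJ1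
        _ = 2 := by norm_num)
    have h2 : (w : ℝ) ≤ 2 := by exact_mod_cast h1
    have h3 : x ≤ Real.log 2 := by
      rw [hxdef]
      exact Real.log_le_log (by exact_mod_cast (by omega : 0 < w)) h2
    have h4 : Real.log 2 < 0.6931471808 := Real.log_two_lt_d9
    linarith
  obtain ⟨L, m, A, B, hL, hL100, hm20, hAB, hg⟩ := hI J hJ2
  -- size of `L`
  have hL1 : (1 : ℝ) ≤ L := by exact_mod_cast (by omega : 1 ≤ L)
  have hL0 : (0 : ℝ) < L := by linarith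
  have hLx : (L : ℝ) ≤ x ^ 6 := by
    have h1 : (L : ℝ) ≤ 200 * (J : ℝ) ^ 5 * 3 ^ 40 + 1 := by exact_mod_cast hL
    have h2 : (J : ℝ) ^ 5 ≤ (2 * x) ^ 5 := pow_le_pow_left₀ (Nat.cast_nonneg J) hJx 5
    have h3 : (1 : ℝ) ≤ x ^ 5 := one_le_pow₀ hx1
    have h4 : (200 * 3 ^ 40 * 32 + 1 : ℝ) * x ^ 5 ≤ x * x ^ 5 :=
      mul_le_mul_of_nonneg_right hx (by positivity)
    have h5 : (2 * x) ^ 5 = 32 * x ^ 5 := by ring
    have h6 : x * x ^ 5 = x ^ 6 := by ring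
    nlinarith
  -- `m ≤ L`
  have hmL : m ≤ L := by
    obtain ⟨h1, -, h2, -, -, -⟩ := hAB 0 (by positivity)
    rw [← h1]
    have h3 : A 0 ⊆ Finset.Icc 1 L := fun l hl => by
      rw [Finset.mem_Icc]
      exact h2 l hl
    have h4 := Finset.card_le_card h3
    rwa [Nat.card_Icc, Nat.add_sub_cancel] at h4
  have hmL' : (m : ℝ) ≤ L := by exact_mod_cast hmL
  -- `N`
  obtain ⟨N, hN⟩ : ∃ N : ℕ, N = (w - 1) / (2 * m) + 1 := ⟨_, rfl⟩
  have hm0 : 0 < 2 * m := by omega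
  have hdm := Nat.div_add_mod (w - 1) (2 * m)
  have hmod := Nat.mod_lt (w - 1) hm0
  have hvN : 2 * m * N = 2 * m * ((w - 1) / (2 * m)) + 2 * m := by
    rw [hN]; ring
  have hwv : w ≤ 2 * m * N := by
    rw [hvN]
    generalize 2 * m * ((w - 1) / (2 * m)) = q at hdm ⊢
    omega
  have hvw : 2 * m * N ≤ w + 2 * m := by
    rw [hvN]
    generalize 2 * m * ((w - 1) / (2 * m)) = q at hdm ⊢
    omega
  have hNJ : N ≤ 2 ^ J := by
    have h1 : (w - 1) / (2 * m) < 2 ^ J := by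
      rw [Nat.div_lt_iff_lt_mul hm0]
      have h2 : w - 1 < 2 ^ J := by omega
      nlinarith
    omega
  have hN0 : 0 < N := by rw [hN]; exact Nat.succ_pos _
  have hN0' : (0 : ℝ) < N := by exact_mod_cast hN0
  -- `N` is large
  have hNL : (L : ℝ) ^ 4040 ≤ N := by
    have h1 : (w : ℝ) ≤ 2 * m * N := by exact_mod_cast hwv
    have h2 : (2 : ℝ) * m * N ≤ 2 * L * N := by
      have := mul_le_mul_of_nonneg_right hmL' hN0'.le
      nlinarith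
    have h3 : (L : ℝ) ^ 4041 ≤ x ^ 24246 := by
      calc (L : ℝ) ^ 4041 ≤ (x ^ 6) ^ 4041 := pow_le_pow_left₀ hL0.le hLx 4041
        _ = x ^ 24246 := by rw [← pow_mul]
    have h4 : (L : ℝ) ^ 4041 = L ^ 4040 * L := pow_succ _ _
    have h5 : (L : ℝ) ^ 4040 * L ≤ N * L := by
      rw [← h4]
      nlinarith
    exact le_of_mul_le_mul_right h5 hL0
  obtain ⟨g, hgdef⟩ : ∃ g : ℝ, g = ((L : ℝ) ^ 100)⁻¹ := ⟨_, rfl⟩
  have hg0 : 0 < g := by rw [hgdef]; positivity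
  have hg1 : g * (L : ℝ) ^ 100 ≤ 1 := by
    rw [hgdef, inv_mul_cancel₀ (by positivity)]
  have hη : g ^ 6 / (L : ℝ) ^ 12 = ((L : ℝ) ^ 612)⁻¹ := by
    rw [hgdef, inv_pow, ← pow_mul, div_eq_mul_inv, ← mul_inv, ← pow_add]
  obtain ⟨hg2, hg3⟩ := hg g hg0 hg1
  rw [hη] at hg2 hg3
  have hη0 : (0 : ℝ) < ((L : ℝ) ^ 612)⁻¹ := by positivity
  have hL612 : (4 : ℝ) ≤ (L : ℝ) ^ 612 := by
    have h1 : (4 : ℝ) ≤ L := by exact_mod_cast (by omega : 4 ≤ L)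
    exact h1.trans (le_self_pow₀ hL1 (by norm_num))
  have hη1 : ((L : ℝ) ^ 612)⁻¹ ≤ 1 / 4 := by
    rw [one_div]
    exact inv_anti₀ (by norm_num) hL612
  have hLg : ((L : ℝ) / g) ^ 40 ≤ N := by
    have h1 : (L : ℝ) / g = L ^ 101 := by
      rw [hgdef, div_inv_eq_mul, ← pow_succ']
    rw [h1, ← pow_mul]
    exact hNL
  have hpert : (L : ℝ) ^ 20 * (N : ℝ) ^ (-(1 / 4) : ℝ) ≤ ((L : ℝ) ^ 612)⁻¹ := by
    have h1 : (L : ℝ) ^ 2528 ≤ N := (pow_le_pow_right₀ hL1 (by norm_num)).trans hNL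
    have h2 : (L : ℝ) ^ 632 ≤ (N : ℝ) ^ (1 / 4 : ℝ) := by
      have h3 : ((L : ℝ) ^ 2528) ^ (1 / 4 : ℝ) ≤ (N : ℝ) ^ (1 / 4 : ℝ) :=
        Real.rpow_le_rpow (by positivity) h1 (by norm_num)
      have h4 : ((L : ℝ) ^ 2528) ^ (1 / 4 : ℝ) = (L : ℝ) ^ 632 := by
        rw [← Real.rpow_natCast, ← Real.rpow_natCast, ← Real.rpow_mul hL0.le]
        norm_num
      rwa [h4] at h3
    rw [Real.rpow_neg hN0'.le]
    have h5 : ((N : ℝ) ^ (1 / 4 : ℝ))⁻¹ ≤ ((L : ℝ) ^ 632)⁻¹ := inv_anti₀ (by positivity) h2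
    calc (L : ℝ) ^ 20 * ((N : ℝ) ^ (1 / 4 : ℝ))⁻¹ ≤ (L : ℝ) ^ 20 * ((L : ℝ) ^ 632)⁻¹ :=
          mul_le_mul_of_nonneg_left h5 (by positivity)
      _ = ((L : ℝ) ^ 612)⁻¹ := by
          have h6 : (L : ℝ) ^ 632 = L ^ 20 * L ^ 612 := by rw [← pow_add]
          rw [h6, mul_inv, ← mul_assoc, mul_inv_cancel₀ (by positivity), one_mul]
  obtain ⟨P, i1, i2, hPw, hPb⟩ := hBal g (((L : ℝ) ^ 612)⁻¹) L m N A B hg0 hL100 hg1 hm20 hLg hη0
    hη1 hpert (fun t ht => hAB t (ht.trans_le hNJ))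
    (fun s t hs ht => hg2 s t (hs.trans_le hNJ) (ht.trans_le hNJ))
    (fun t ht => hg3 t (ht.trans_le hNJ))
  refine ⟨2 * m * N, hwv, ?_, (dAll_le hPw).trans (hPb.trans ?_)⟩
  · have h1 : ((2 * m * N : ℕ) : ℝ) ≤ w + 2 * m := by exact_mod_cast hvw
    have h2 : (2 : ℝ) * x ^ 6 ≤ x ^ 4000 := by
      calc (2 : ℝ) * x ^ 6 ≤ x * x ^ 6 := mul_le_mul_of_nonneg_right (by linarith) (by positivity)
        _ = x ^ 7 := by rw [← pow_succ']
        _ ≤ x ^ 4000 := pow_le_pow_right₀ hx1 (by norm_num)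
    rw [← hxdef]
    linarith
  · have hv0 : (0 : ℝ) < w := by exact_mod_cast (by omega : 0 < w)
    have hxv : x ≤ Real.log ((2 * m * N : ℕ) : ℝ) := by
      rw [hxdef]
      exact Real.log_le_log hv0 (by exact_mod_cast hwv)
    have h1 : 4 * (L : ℝ) ^ 612 ≤ Real.log ((2 * m * N : ℕ) : ℝ) ^ 4000 := by
      calc 4 * (L : ℝ) ^ 612 ≤ x * (x ^ 6) ^ 612 :=
            mul_le_mul hx4 (pow_le_pow_left₀ hL0.le hLx 612) (by positivity) hx0
        _ = x ^ 3673 := by rw [← pow_mul, ← pow_succ']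
        _ ≤ x ^ 4000 := pow_le_pow_right₀ hx1 (by norm_num)
        _ ≤ _ := pow_le_pow_left₀ hx0 hxv 4000
    have h2 : 1 / Real.log ((2 * m * N : ℕ) : ℝ) ^ 4000 ≤ ((L : ℝ) ^ 612)⁻¹ / 4 := by
      rw [one_div]
      calc (Real.log ((2 * m * N : ℕ) : ℝ) ^ 4000)⁻¹ ≤ (4 * (L : ℝ) ^ 612)⁻¹ :=
            inv_anti₀ (by positivity) h1
        _ = ((L : ℝ) ^ 612)⁻¹ / 4 := by rw [mul_inv]; ring
    linarith

end Pool.Agent.H34.RK
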