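import Pool.Agent.H34.RK.QC

/-! # RK-Q6 (helper71) -/

set_option autoImplicit false

open Finset

namespace Pool.Agent.H34.RK

theorem q6 : S_Q6 := by
  intro D B p c c' hD hp
  rw [Qk_blk 6 D B p (by decide) (by omega) c c' hp, Finset.mul_sum]
  exact Finset.sum_congr rfl fun i _ => Q6_all D hD _ _

end Pool.Agent.H34.RK
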