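import Pool.Agent.H34.RK.QS

/-!
# Project RK: computation of the signed power sums of the Prouhet classes (helper71)
-/

set_option autoImplicit false

open Finset

namespace Pool.Agent.H34.RK

/-- power sums of a Prouhet class -/
def mm (D : ℕ) (c : ZMod 3) (j : ℕ) : ℤ := ∑ n ∈ Y D c, (n : ℤ) ^ j

/-- power sums of a translated set -/
def sh (h : ℤ) (M : ℕ → ℤ) (a : ℕ) : ℤ := ∑ j ∈ range (a + 1), h ^ (a - j) * (a.choose j : ℤ) * M j

/-- double power sums `∑ (h + n' - n) ^ k` -/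
def XX (k : ℕ) (h : ℤ) (M M' : ℕ → ℤ) : ℤ :=
  ∑ t ∈ range (k + 1), (k.choose t : ℤ) * ((-1) ^ t * M t) * sh h M' (k - t)

theorem sum_shift (S : Finset ℕ) (h : ℤ) (a : ℕ) :
    ∑ n ∈ S, (h + n) ^ a = sh h (fun j => ∑ n ∈ S, (n : ℤ) ^ j) a := by
  have := shift_pow (R := ℤ) S 0 h a
  simp only [zero_add] at this
  exact this

theorem sum_double (k : ℕ) (S S' : Finset ℕ) (h : ℤ) :
    ∑ n ∈ S, ∑ n' ∈ S', (h + n' - n) ^ k =
      XX k h (fun j => ∑ n ∈ S, (n : ℤ) ^ j) (fun j => ∑ n ∈ S', (n : ℤ) ^ j) := by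
  have h1 : ∀ n n' : ℕ, (h + n' - n : ℤ) ^ k =
      ∑ t ∈ range (k + 1), (k.choose t : ℤ) * ((-1) ^ t * (n : ℤ) ^ t) * (h + n') ^ (k - t) := by
    intro n n'
    have : (h + n' - n : ℤ) = -n + (h + n') := by ring
    rw [this, add_pow]
    refine Finset.sum_congr rfl fun t _ => ?_
    rw [neg_pow]
    ring
  have h2 : ∀ n ∈ S, ∑ n' ∈ S', (h + n' - n : ℤ) ^ k =
      ∑ t ∈ range (k + 1), (k.choose t : ℤ) * ((-1) ^ t * (n : ℤ) ^ t) *
        ∑ n' ∈ S', (h + n' : ℤ) ^ (k - t) := by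
    intro n _
    rw [Finset.sum_congr rfl fun n' _ => h1 n n', Finset.sum_comm]
    refine Finset.sum_congr rfl fun t _ => ?_
    rw [Finset.mul_sum]
  rw [Finset.sum_congr rfl h2, Finset.sum_comm]
  unfold XX
  refine Finset.sum_congr rfl fun t _ => ?_
  rw [sum_shift, Finset.mul_sum, Finset.mul_sum, ← Finset.sum_mul]

theorem mm_step (D : ℕ) (c : ZMod 3) (j : ℕ) : mm (D + 1) c j =
    mm D c j + sh (3 ^ D) (mm D (c - 1)) j + sh (2 * 3 ^ D) (mm D (c - 2)) j := by
  unfold mm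
  rw [sum_Y_succ]
  have e1 : ∀ n : ℕ, (((3 ^ D + n : ℕ) : ℤ)) ^ j = ((3 : ℤ) ^ D + n) ^ j := by
    intro n
    push_cast
    rfl
  have e2 : ∀ n : ℕ, (((2 * 3 ^ D + n : ℕ) : ℤ)) ^ j = (2 * (3 : ℤ) ^ D + n) ^ j := by
    intro n
    push_cast
    rfl
  simp only [e1, e2]
  rw [sum_shift, sum_shift]

theorem Qk_block (k D : ℕ) (u v : ZMod 3) (i j : ℕ) (hij : i < j) :
    Qk k ((Y D u).image (fun n => i * 3 ^ D + n)) ((Y D v).image (fun n => j * 3 ^ D + n)) =
      XX k ((j - i) * 3 ^ D) (mm D u) (mm D v) := by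
  have h3 : (i + 1) * 3 ^ D ≤ j * 3 ^ D := Nat.mul_le_mul_right _ hij
  rw [Qk_lt]
  · rw [Finset.sum_image (by intro x _ y _ h; simpa using h)]
    have := sum_double k (Y D u) (Y D v) ((j - i) * 3 ^ D)
    unfold mm
    rw [← this]
    refine Finset.sum_congr rfl fun n _ => ?_
    rw [Finset.sum_image (by intro x _ y _ h; simpa using h)]
    refine Finset.sum_congr rfl fun n' _ => ?_
    push_cast
    ring
  · intro l hl l' hl'
    rw [Finset.mem_image] at hl hl'
    obtain ⟨m, hm, rfl⟩ := hl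
    obtain ⟨m', hm', rfl⟩ := hl'
    have := Y_lt _ _ _ hm
    rw [add_mul, one_mul] at h3
    omega

theorem Qk_block' (k D : ℕ) (u v : ZMod 3) (i j : ℕ) (hij : j < i) :
    Qk k ((Y D u).image (fun n => i * 3 ^ D + n)) ((Y D v).image (fun n => j * 3 ^ D + n)) =
      -XX k ((j - i) * 3 ^ D) (mm D u) (mm D v) := by
  have h3 : (j + 1) * 3 ^ D ≤ i * 3 ^ D := Nat.mul_le_mul_right _ hij
  rw [Qk_gt]
  · rw [Finset.sum_image (by intro x _ y _ h; simpa using h)]
    have := sum_double k (Y D u) (Y D v) ((j - i) * 3 ^ D)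
    unfold mm
    rw [← this]
    congr 1
    refine Finset.sum_congr rfl fun n _ => ?_
    rw [Finset.sum_image (by intro x _ y _ h; simpa using h)]
    refine Finset.sum_congr rfl fun n' _ => ?_
    push_cast
    ring
  · intro l hl l' hl'
    rw [Finset.mem_image] at hl hl'
    obtain ⟨m, hm, rfl⟩ := hl
    obtain ⟨m', hm', rfl⟩ := hl'
    have := Y_lt _ _ _ hm'
    rw [add_mul, one_mul] at h3
    omega

theorem QY_step (k D : ℕ) (a b : ZMod 3) : Qk k (Y (D + 1) a) (Y (D + 1) b) =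
    Qk k (Y D a) (Y D b) + Qk k (Y D (a - 1)) (Y D (b - 1)) + Qk k (Y D (a - 2)) (Y D (b - 2)) +
      (XX k (3 ^ D) (mm D a) (mm D (b - 1)) + XX k (2 * 3 ^ D) (mm D a) (mm D (b - 2)) +
        XX k (3 ^ D) (mm D (a - 1)) (mm D (b - 2))) -
      (XX k (-3 ^ D) (mm D (a - 1)) (mm D b) + XX k (-2 * 3 ^ D) (mm D (a - 2)) (mm D b) +
        XX k (-3 ^ D) (mm D (a - 2)) (mm D (b - 1))) := by
  have hY : ∀ c : ZMod 3, Y (D + 1) c = ((Y D c).image (fun n => 0 * 3 ^ D + n) ∪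
      (Y D (c - 1)).image (fun n => 1 * 3 ^ D + n)) ∪
      (Y D (c - 2)).image (fun n => 2 * 3 ^ D + n) := by
    intro c
    rw [Y_succ]
    simp only [zero_mul, zero_add, one_mul, Finset.image_id']
  have hd1 : ∀ c c' : ZMod 3, Disjoint ((Y D c).image (fun n => 0 * 3 ^ D + n))
      ((Y D c').image (fun n => 1 * 3 ^ D + n)) := by
    intro c c'
    rw [Finset.disjoint_left]
    intro l hl hl'
    rw [Finset.mem_image] at hl hl'
    obtain ⟨m, hm, rfl⟩ := hl
    obtain ⟨m', hm', h⟩ := hl'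
    have := Y_lt _ _ _ hm
    omega
  have hd2 : ∀ c c' c'' : ZMod 3, Disjoint ((Y D c).image (fun n => 0 * 3 ^ D + n) ∪
      (Y D c').image (fun n => 1 * 3 ^ D + n)) ((Y D c'').image (fun n => 2 * 3 ^ D + n)) := by
    intro c c' c''
    rw [Finset.disjoint_left]
    intro l hl hl'
    rw [Finset.mem_union, Finset.mem_image, Finset.mem_image] at hl
    rw [Finset.mem_image] at hl'
    obtain ⟨m', hm', h⟩ := hl'
    rcases hl with ⟨m, hm, h'⟩ | ⟨m, hm, h'⟩
    · have := Y_lt _ _ _ hm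
      omega
    · have := Y_lt _ _ _ hm
      omega
  rw [hY a, hY b, Qk_union_left k (hd2 _ _ _), Qk_union_left k (hd1 _ _),
    Qk_union_right k (hd2 _ _ _), Qk_union_right k (hd1 _ _),
    Qk_union_right k (hd2 _ _ _), Qk_union_right k (hd1 _ _),
    Qk_union_right k (hd2 _ _ _), Qk_union_right k (hd1 _ _),
    Qk_image, Qk_image, Qk_image,
    Qk_block k D _ _ 0 1 (by norm_num), Qk_block k D _ _ 0 2 (by norm_num),
    Qk_block k D _ _ 1 2 (by norm_num), Qk_block' k D _ _ 1 0 (by norm_num),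
    Qk_block' k D _ _ 2 0 (by norm_num), Qk_block' k D _ _ 2 1 (by norm_num)]
  have e1 : (((1 : ℕ) : ℤ) - ((0 : ℕ) : ℤ)) * 3 ^ D = 3 ^ D := by push_cast; ring
  have e2 : (((2 : ℕ) : ℤ) - ((0 : ℕ) : ℤ)) * 3 ^ D = 2 * 3 ^ D := by push_cast; ring
  have e3 : (((2 : ℕ) : ℤ) - ((1 : ℕ) : ℤ)) * 3 ^ D = 3 ^ D := by push_cast; ring
  have e4 : (((0 : ℕ) : ℤ) - ((1 : ℕ) : ℤ)) * 3 ^ D = -3 ^ D := by push_cast; ring
  have e5 : (((0 : ℕ) : ℤ) - ((2 : ℕ) : ℤ)) * 3 ^ D = -2 * 3 ^ D := by push_cast; ring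
  have e6 : (((1 : ℕ) : ℤ) - ((2 : ℕ) : ℤ)) * 3 ^ D = -3 ^ D := by push_cast; ring
  rw [e1, e2, e3, e4, e5, e6]
  ring

/-- look up -/
def tb (T : List (List (List ℤ))) (D : ℕ) (c : ZMod 3) (j : ℕ) : ℤ :=
  ((T.getD D []).getD c.val []).getD j 0

theorem sh_congr (h : ℤ) (M M' : ℕ → ℤ) (a : ℕ) (hM : ∀ j ≤ a, M j = M' j) :
    sh h M a = sh h M' a := by
  unfold sh
  refine Finset.sum_congr rfl fun j hj => ?_
  rw [Finset.mem_range] at hj
  rw [hM j (by omega)]

theorem XX_congr (k : ℕ) (h : ℤ) (M N M' N' : ℕ → ℤ) (hM : ∀ j ≤ k, M j = M' j)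
    (hN : ∀ j ≤ k, N j = N' j) : XX k h M N = XX k h M' N' := by
  unfold XX
  refine Finset.sum_congr rfl fun t ht => ?_
  rw [Finset.mem_range] at ht
  rw [hM t (by omega), sh_congr h N N' (k - t) fun j hj => hN j (by omega)]

/-- the moment table is correct -/
theorem table_M (k N : ℕ) (T : List (List (List ℤ)))
    (h0 : ∀ c : ZMod 3, ∀ j < k + 1, tb T 0 c j = if c = 0 ∧ j = 0 then 1 else 0)
    (hs : ∀ D < N, ∀ c : ZMod 3, ∀ j < k + 1, tb T (D + 1) c j = tb T D c j +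
      sh (3 ^ D) (tb T D (c - 1)) j + sh (2 * 3 ^ D) (tb T D (c - 2)) j) :
    ∀ D ≤ N, ∀ (c : ZMod 3), ∀ j ≤ k, mm D c j = tb T D c j := by
  intro D
  induction D with
  | zero =>
    intro _ c j hj
    rw [h0 c j (by omega)]
    unfold mm Y
    split_ifs with h1 h2 h2
    · rw [h2.2]
      simp
    · have : j ≠ 0 := fun h => h2 ⟨h1, h⟩
      simp [this]
    · exact absurd h2.1 h1
    · simp
  | succ D ih =>
    intro hD c j hj
    rw [mm_step, hs D (by omega) c j (by omega), ih (by omega) c j hj]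
    rw [sh_congr _ (mm D (c - 1)) (tb T D (c - 1)) j fun i hi => ih (by omega) _ i (by omega),
      sh_congr _ (mm D (c - 2)) (tb T D (c - 2)) j fun i hi => ih (by omega) _ i (by omega)]

/-- the table of the signed power sums is correct -/
theorem table_Q (k N : ℕ) (T U : List (List (List ℤ)))
    (hT : ∀ D < N, ∀ (c : ZMod 3), ∀ j ≤ k, mm D c j = tb T D c j)
    (h0 : ∀ a b : ZMod 3, tb U 0 a b.val = 0)
    (hs : ∀ D < N, ∀ a b : ZMod 3, tb U (D + 1) a b.val =
      tb U D a b.val + tb U D (a - 1) (b - 1).val + tb U D (a - 2) (b - 2).val +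
      (XX k (3 ^ D) (tb T D a) (tb T D (b - 1)) + XX k (2 * 3 ^ D) (tb T D a) (tb T D (b - 2)) +
        XX k (3 ^ D) (tb T D (a - 1)) (tb T D (b - 2))) -
      (XX k (-3 ^ D) (tb T D (a - 1)) (tb T D b) + XX k (-2 * 3 ^ D) (tb T D (a - 2)) (tb T D b) +
        XX k (-3 ^ D) (tb T D (a - 2)) (tb T D (b - 1)))) :
    ∀ D ≤ N, ∀ a b : ZMod 3, Qk k (Y D a) (Y D b) = tb U D a b.val := by
  intro D
  induction D with
  | zero =>
    intro _ a b
    rw [h0]
    unfold Qk Y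
    split_ifs <;> simp
  | succ D ih =>
    intro hD a b
    rw [QY_step, hs D (by omega) a b, ih (by omega), ih (by omega), ih (by omega)]
    have hc : ∀ u v : ZMod 3, ∀ h : ℤ, XX k h (mm D u) (mm D v) = XX k h (tb T D u) (tb T D v) :=
      fun u v h => XX_congr k h _ _ _ _ (hT D (by omega) u) (hT D (by omega) v)
    rw [hc, hc, hc, hc, hc, hc]

/-- moments up to order six -/
def T6 : List (List (List ℤ)) := [
  [[1, 0, 0, 0, 0, 0, 0], [0, 0, 0, 0, 0, 0, 0], [0, 0, 0, 0, 0, 0, 0]],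
  [[1, 0, 0, 0, 0, 0, 0], [1, 1, 1, 1, 1, 1, 1], [1, 2, 4, 8, 16, 32, 64]],
  [[3, 12, 74, 468, 3026, 19932, 133274], [3, 12, 74, 540, 4178, 33012, 262874], [3, 12, 56, 288, 1568, 8832, 50816]],
  [[9, 117, 2067, 41067, 878631, 19753227, 459850047], [9, 117, 2067, 40581, 840723, 17994717, 393583947], [9, 117, 2067, 41553, 891267, 19869057, 454363107]],
  [[27, 1080, 57960, 3499200, 225284400, 15099631200, 1040197132080], [27, 1080, 57960, 3499200, 225441864, 15136372800, 1045728055080], [27, 1080, 57960, 3499200, 225284400, 15110128800, 1042716556080]],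
  [[81, 9801, 1584495, 288178803, 55906370883, 11297729506131, 2348334569475675], [81, 9801, 1584495, 288178803, 55906370883, 11297601960291, 2348241971195835], [81, 9801, 1584495, 288178803, 55906370883, 11297665733211, 2348265120765795]],
  [[243, 88452, 42958188, 23471268912, 13679046930276, 8304314887460592, 5185446410537365428], [243, 88452, 42958188, 23471268912, 13679046930276, 8304314887460592, 5185446689480117508], [243, 88452, 42958188, 23471268912, 13679046930276, 8304314887460592, 5185446689480117508]]]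

/-- signed sixth power sums -/
def U6 : List (List (List ℤ)) := [
  [[0, 0, 0], [0, 0, 0], [0, 0, 0]],
  [[0, 1, 64], [-1, 0, 1], [-64, -1, 0]],
  [[0, 208692, 33732], [-208692, 0, -33732], [-33732, 33732, 0]],
  [[0, -100182780, 100182780], [100182780, 0, 193353444], [-100182780, -193353444, 0]],
  [[0, 19134136764, 38303481636], [-19134136764, 0, 19134136764], [-38303481636, -19134136764, 0]],
  [[0, -4239021200508, -2119457788092], [4239021200508, 0, 2119457788092], [2119457788092, -2119457788092, 0]],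
  [[0, -11281790264004, 11281790264004], [11281790264004, 0, 22563263655036], [-11281790264004, -22563263655036, 0]],
  [[0, -135566494383852, -271132038148788], [135566494383852, 0, -135566494383852], [271132038148788, 135566494383852, 0]]]

/-- moments up to order four -/
def T4 : List (List (List ℤ)) := [
  [[1, 0, 0, 0, 0], [0, 0, 0, 0, 0], [0, 0, 0, 0, 0]],
  [[1, 0, 0, 0, 0], [1, 1, 1, 1, 1], [1, 2, 4, 8, 16]],
  [[3, 12, 74, 468, 3026], [3, 12, 74, 540, 4178], [3, 12, 56, 288, 1568]],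
  [[9, 117, 2067, 41067, 878631], [9, 117, 2067, 40581, 840723], [9, 117, 2067, 41553, 891267]],
  [[27, 1080, 57960, 3499200, 225284400], [27, 1080, 57960, 3499200, 225441864], [27, 1080, 57960, 3499200, 225284400]]]

/-- signed fourth power sums -/
def U4 : List (List (List ℤ)) := [
  [[0, 0, 0], [0, 0, 0], [0, 0, 0]],
  [[0, 1, 16], [-1, 0, 1], [-16, -1, 0]],
  [[0, 2436, 780], [-2436, 0, -780], [-780, 780, 0]],
  [[0, -131964, 131964], [131964, 0, 268500], [-131964, -268500, 0]],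
  [[0, 704412, 1395108], [-704412, 0, 704412], [-1395108, -704412, 0]],
  [[0, -16992396, -8516772], [16992396, 0, 8516772], [8516772, -8516772, 0]]]


theorem mm6 : ∀ D ≤ 6, ∀ (c : ZMod 3), ∀ j ≤ 6, mm D c j = tb T6 D c j := by
  refine table_M 6 6 T6 ?_ ?_
  · decide +kernel
  · decide +kernel

theorem mm4 : ∀ D ≤ 4, ∀ (c : ZMod 3), ∀ j ≤ 4, mm D c j = tb T4 D c j := by
  refine table_M 4 4 T4 ?_ ?_
  · decide +kernel
  · decide +kernel

theorem QQ6 : ∀ D ≤ 7, ∀ a b : ZMod 3, Qk 6 (Y D a) (Y D b) = tb U6 D a b.val := by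
  refine table_Q 6 7 T6 U6 (fun D hD => mm6 D (by omega)) ?_ ?_
  · decide +kernel
  · decide +kernel

theorem QQ4 : ∀ D ≤ 5, ∀ a b : ZMod 3, Qk 4 (Y D a) (Y D b) = tb U4 D a b.val := by
  refine table_Q 4 5 T4 U4 (fun D hD => mm4 D (by omega)) ?_ ?_
  · decide +kernel
  · decide +kernel

theorem cyc_sub (a b i : ZMod 3) : cyc (a - i) (b - i) = cyc a b := by
  revert a b i
  decide

/-- the signed sixth power sums for `D ≥ 8` -/
theorem Q6_all (D : ℕ) (hD : 8 ≤ D) (a b : ZMod 3) :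
    Qk 6 (Y D a) (Y D b) = -950618916 * 3 ^ (D - 8) * cyc a b := by
  obtain ⟨E, rfl⟩ : ∃ E, D = 8 + E := ⟨D - 8, by omega⟩
  rw [Nat.add_sub_cancel_left]
  clear hD
  revert a b
  induction E with
  | zero =>
    intro a b
    rw [show 8 + 0 = 7 + 1 from rfl, Qk_step 6 7 (by decide) (by norm_num), QQ6 7 le_rfl,
      QQ6 7 le_rfl, QQ6 7 le_rfl]
    revert a b
    decide +kernel
  | succ E ih =>
    intro a b
    rw [show 8 + (E + 1) = (8 + E) + 1 by ring, Qk_step 6 (8 + E) (by decide) (by omega), ih, ih,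
      ih, cyc_sub, cyc_sub, pow_succ]
    ring

/-- the signed fourth power sums for `D ≥ 6` -/
theorem Q4_all (D : ℕ) (hD : 6 ≤ D) (a b : ZMod 3) :
    Qk 4 (Y D a) (Y D b) = 41148 * 3 ^ (D - 6) * cyc a b := by
  obtain ⟨E, rfl⟩ : ∃ E, D = 6 + E := ⟨D - 6, by omega⟩
  rw [Nat.add_sub_cancel_left]
  clear hD
  revert a b
  induction E with
  | zero =>
    intro a b
    rw [show 6 + 0 = 5 + 1 from rfl, Qk_step 4 5 (by decide) (by norm_num), QQ4 5 le_rfl,
      QQ4 5 le_rfl, QQ4 5 le_rfl]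
    revert a b
    decide +kernel
  | succ E ih =>
    intro a b
    rw [show 6 + (E + 1) = (6 + E) + 1 by ring, Qk_step 4 (6 + E) (by decide) (by omega), ih, ih,
      ih, cyc_sub, cyc_sub, pow_succ]
    ring

end Pool.Agent.H34.RK
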