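import Pool.Agent.H34.RK.Mom

/-!
# Project RK: signed power sums of separated blocks with equal moments (helper71)
-/

set_option autoImplicit false

open Finset

namespace Pool.Agent.H34.RK

theorem Qk_union_left (k : ℕ) {A B C : Finset ℕ} (h : Disjoint A B) :
    Qk k (A ∪ B) C = Qk k A C + Qk k B C := by
  unfold Qk
  rw [Finset.sum_union h]

theorem Qk_union_right (k : ℕ) {A B C : Finset ℕ} (h : Disjoint A B) :
    Qk k C (A ∪ B) = Qk k C A + Qk k C B := by
  unfold Qk
  rw [← Finset.sum_add_distrib]
  refine Finset.sum_congr rfl fun l _ => ?_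
  rw [Finset.sum_union h]

theorem Qk_lt (k : ℕ) {A B : Finset ℕ} (h : ∀ l ∈ A, ∀ l' ∈ B, l < l') :
    Qk k A B = ∑ l ∈ A, ∑ l' ∈ B, ((l' : ℤ) - l) ^ k := by
  unfold Qk
  refine Finset.sum_congr rfl fun l hl => Finset.sum_congr rfl fun l' hl' => ?_
  have := h l hl l' hl'
  rw [Int.sign_eq_one_of_pos (by omega), one_mul]

theorem Qk_gt (k : ℕ) {A B : Finset ℕ} (h : ∀ l ∈ A, ∀ l' ∈ B, l' < l) :
    Qk k A B = -∑ l ∈ A, ∑ l' ∈ B, ((l' : ℤ) - l) ^ k := by
  unfold Qk
  rw [← Finset.sum_neg_distrib]
  refine Finset.sum_congr rfl fun l hl => ?_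
  rw [← Finset.sum_neg_distrib]
  refine Finset.sum_congr rfl fun l' hl' => ?_
  have := h l hl l' hl'
  rw [Int.sign_eq_neg_one_of_neg (by omega)]
  ring

theorem Qk_anti (k : ℕ) (hk : Even k) (A B : Finset ℕ) : Qk k A B = -Qk k B A := by
  unfold Qk
  rw [Finset.sum_comm, ← Finset.sum_neg_distrib]
  refine Finset.sum_congr rfl fun l _ => ?_
  rw [← Finset.sum_neg_distrib]
  refine Finset.sum_congr rfl fun l' _ => ?_
  have h1 : (l : ℤ) - l' = -((l' : ℤ) - l) := by ring
  rw [h1, Int.sign_neg, hk.neg_pow]
  ring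

theorem Qk_self (k : ℕ) (hk : Even k) (A : Finset ℕ) : Qk k A A = 0 := by
  have := Qk_anti k hk A A
  omega

theorem Qk_image (k h : ℕ) (A B : Finset ℕ) :
    Qk k (A.image (fun n => h + n)) (B.image (fun n => h + n)) = Qk k A B := by
  unfold Qk
  rw [Finset.sum_image (by intro x _ y _ h; simpa using h)]
  refine Finset.sum_congr rfl fun l _ => ?_
  rw [Finset.sum_image (by intro x _ y _ h; simpa using h)]
  refine Finset.sum_congr rfl fun l' _ => ?_
  have : (((h + l' : ℕ) : ℤ) - ((h + l : ℕ) : ℤ)) = (l' : ℤ) - l := by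
    push_cast
    ring
  rw [this]

/-- separated blocks with equal moments: only the diagonal terms remain -/
theorem Qk_sum (k : ℕ) (hk : Even k) (A A' : ℕ → Finset ℕ) : ∀ N : ℕ,
    (∀ i < N, ∀ j < N, i < j → ∀ l, (l ∈ A i ∨ l ∈ A' i) → ∀ l', (l' ∈ A j ∨ l' ∈ A' j) → l < l') →
    (∀ i < N, ∀ x : ℤ, ∑ l ∈ A i, (x + l) ^ k = ∑ l ∈ A' i, (x + l) ^ k) →
    Qk k ((range N).biUnion A) ((range N).biUnion A') = ∑ i ∈ range N, Qk k (A i) (A' i) := by
  intro N
  induction N with
  | zero =>
    intro _ _
    simp [Qk]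
  | succ N ih =>
    intro hsep hm
    have hIH := ih (fun i hi j hj => hsep i (by omega) j (by omega)) (fun i hi => hm i (by omega))
    have hlt : ∀ l, (l ∈ (range N).biUnion A ∨ l ∈ (range N).biUnion A') →
        ∀ l', (l' ∈ A N ∨ l' ∈ A' N) → l < l' := by
      intro l hl l' hl'
      rw [Finset.mem_biUnion, Finset.mem_biUnion] at hl
      rcases hl with ⟨i, hi, hl⟩ | ⟨i, hi, hl⟩
      · rw [Finset.mem_range] at hi
        exact hsep i (by omega) N (by omega) hi l (Or.inl hl) l' hl'
      · rw [Finset.mem_range] at hi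
        exact hsep i (by omega) N (by omega) hi l (Or.inr hl) l' hl'
    have hU : (range (N + 1)).biUnion A = (range N).biUnion A ∪ A N := by
      rw [Finset.range_add_one, Finset.biUnion_insert, Finset.union_comm]
    have hU' : (range (N + 1)).biUnion A' = (range N).biUnion A' ∪ A' N := by
      rw [Finset.range_add_one, Finset.biUnion_insert, Finset.union_comm]
    have hd : Disjoint ((range N).biUnion A) (A N) := by
      rw [Finset.disjoint_left]
      intro l h1 h2
      exact absurd (hlt l (Or.inl h1) l (Or.inl h2)) (lt_irrefl l)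
    have hd' : Disjoint ((range N).biUnion A') (A' N) := by
      rw [Finset.disjoint_left]
      intro l h1 h2
      exact absurd (hlt l (Or.inr h1) l (Or.inr h2)) (lt_irrefl l)
    rw [hU, hU', Qk_union_left k hd, Qk_union_right k hd', Qk_union_right k hd', hIH,
      Finset.sum_range_succ]
    have hmN : ∀ x : ℤ, ∑ l ∈ A N, ((l : ℤ) - x) ^ k = ∑ l ∈ A' N, ((l : ℤ) - x) ^ k := by
      intro x
      have := hm N (by omega) (-x)
      simpa only [neg_add_eq_sub] using this
    have hmU : ∀ x : ℤ, ∑ l ∈ (range N).biUnion A, ((l : ℤ) - x) ^ k =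
        ∑ l ∈ (range N).biUnion A', ((l : ℤ) - x) ^ k := by
      intro x
      rw [Finset.sum_biUnion, Finset.sum_biUnion]
      · refine Finset.sum_congr rfl fun i hi => ?_
        rw [Finset.mem_range] at hi
        have := hm i (by omega) (-x)
        simpa only [neg_add_eq_sub] using this
      · intro i hi j hj hij
        rw [Finset.mem_coe, Finset.mem_range] at hi hj
        rw [Function.onFun, Finset.disjoint_left]
        intro l hl hl'
        rcases lt_or_gt_of_ne hij with h | h
        · exact absurd (hsep i (by omega) j (by omega) h l (Or.inr hl) l (Or.inr hl')) (lt_irrefl l)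
        · exact absurd (hsep j (by omega) i (by omega) h l (Or.inr hl') l (Or.inr hl)) (lt_irrefl l)
      · intro i hi j hj hij
        rw [Finset.mem_coe, Finset.mem_range] at hi hj
        rw [Function.onFun, Finset.disjoint_left]
        intro l hl hl'
        rcases lt_or_gt_of_ne hij with h | h
        · exact absurd (hsep i (by omega) j (by omega) h l (Or.inl hl) l (Or.inl hl')) (lt_irrefl l)
        · exact absurd (hsep j (by omega) i (by omega) h l (Or.inl hl') l (Or.inl hl)) (lt_irrefl l)
    have h1 : Qk k ((range N).biUnion A) (A' N) + Qk k (A N) ((range N).biUnion A') = 0 := by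
      rw [Qk_lt k (fun l hl l' hl' => hlt l (Or.inl hl) l' (Or.inr hl')),
        Qk_gt k (fun l hl l' hl' => hlt l' (Or.inr hl') l (Or.inl hl))]
      have hsw : ∀ a b : ℤ, (a - b) ^ k = (b - a) ^ k := by
        intro a b
        have : a - b = -(b - a) := by ring
        rw [this, hk.neg_pow]
      have e1 : ∑ l ∈ (range N).biUnion A, ∑ l' ∈ A' N, ((l' : ℤ) - l) ^ k =
          ∑ l' ∈ A' N, ∑ l ∈ (range N).biUnion A', ((l : ℤ) - l') ^ k := by
        rw [Finset.sum_comm]
        refine Finset.sum_congr rfl fun l' _ => ?_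
        rw [← hmU]
        refine Finset.sum_congr rfl fun l _ => ?_
        exact hsw _ _
      have e2 : ∑ l ∈ A N, ∑ l' ∈ (range N).biUnion A', ((l' : ℤ) - l) ^ k =
          ∑ l' ∈ (range N).biUnion A', ∑ l ∈ A' N, ((l : ℤ) - l') ^ k := by
        rw [Finset.sum_comm]
        refine Finset.sum_congr rfl fun l' _ => ?_
        rw [← hmN]
        refine Finset.sum_congr rfl fun l _ => ?_
        exact hsw _ _
      rw [e1, e2, Finset.sum_comm (s := A' N)]
      have e3 : ∑ y ∈ (range N).biUnion A', ∑ x ∈ A' N, ((y : ℤ) - x) ^ k =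
          ∑ y ∈ (range N).biUnion A', ∑ x ∈ A' N, ((x : ℤ) - y) ^ k :=
        Finset.sum_congr rfl fun l' _ => Finset.sum_congr rfl fun l _ => hsw _ _
      rw [e3, add_neg_cancel]
    linear_combination h1

/-- one step of the recursion for the signed power sums of the Prouhet classes -/
theorem Qk_step (k D : ℕ) (hk : Even k) (hD : k + 1 ≤ D) (a b : ZMod 3) :
    Qk k (Y (D + 1) a) (Y (D + 1) b) =
      Qk k (Y D a) (Y D b) + Qk k (Y D (a - 1)) (Y D (b - 1)) +
        Qk k (Y D (a - 2)) (Y D (b - 2)) := by
  have hY : ∀ c : ZMod 3, Y (D + 1) c = (range 3).biUnion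
      (fun i => (Y D (c - (i : ℕ))).image (fun n => i * 3 ^ D + n)) := by
    intro c
    rw [Y_succ]
    ext l
    simp only [Finset.mem_union, Finset.mem_biUnion, Finset.mem_range, Finset.mem_image]
    constructor
    · rintro ((h | ⟨m, hm, rfl⟩) | ⟨m, hm, rfl⟩)
      · exact ⟨0, by omega, l, by simpa using h, by simp⟩
      · exact ⟨1, by omega, m, by simpa using hm, by simp⟩
      · exact ⟨2, by omega, m, by simpa using hm, by simp⟩
    · rintro ⟨i, hi, m, hm, rfl⟩
      have : i = 0 ∨ i = 1 ∨ i = 2 := by omega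
      rcases this with rfl | rfl | rfl
      · left; left
        simpa using hm
      · left; right
        exact ⟨m, by simpa using hm, by simp⟩
      · right
        exact ⟨m, by simpa using hm, by simp⟩
  rw [hY a, hY b, Qk_sum k hk _ _ 3]
  · rw [Finset.sum_range_succ, Finset.sum_range_succ, Finset.sum_range_succ, Finset.sum_range_zero]
    rw [Qk_image, Qk_image, Qk_image]
    simp
  · intro i _ j _ hij l hl l' hl'
    have h1 : l < (i + 1) * 3 ^ D := by
      rw [add_mul, one_mul]
      rcases hl with h | h <;>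
      · rw [Finset.mem_image] at h
        obtain ⟨m, hm, rfl⟩ := h
        have := Y_lt _ _ _ hm
        omega
    have h2 : j * 3 ^ D ≤ l' := by
      rcases hl' with h | h <;>
      · rw [Finset.mem_image] at h
        obtain ⟨m, hm, rfl⟩ := h
        omega
    have h3 : (i + 1) * 3 ^ D ≤ j * 3 ^ D := Nat.mul_le_mul_right _ hij
    omega
  · intro i _ x
    rw [Finset.sum_image (by intro x _ y _ h; simpa using h),
      Finset.sum_image (by intro x _ y _ h; simpa using h)]
    have e : ∀ n : ℕ, (x + ((i * 3 ^ D + n : ℕ) : ℤ)) ^ k = ((x + i * 3 ^ D) + n) ^ k := by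
      intro n
      push_cast
      ring
    simp only [e]
    exact prouhet D k hD _ _ _

/-- signed power sums of coded sets (parts above `p`) -/
theorem Qk_blk (k D B p : ℕ) (hk : Even k) (hD : k + 1 ≤ D) (c c' : ℕ → ZMod 3)
    (hp : p = 0 ∨ (p ∈ blk D B c ∧ p ∈ blk D B c')) :
    Qk k ((blk D B c).filter (p < ·)) ((blk D B c').filter (p < ·)) =
      ∑ i ∈ (range B).filter (fun i => p ≤ i * 3 ^ D), Qk k (Y D (c i)) (Y D (c' i)) := by
  rw [blk_filter, blk_filter, Qk_sum k hk _ _ (B + 1), Finset.sum_range_succ]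
  · have hlast : Qk k ((bk D B c B).filter (p < ·)) ((bk D B c' B).filter (p < ·)) = 0 := by
      have : bk D B c B = bk D B c' B := by
        unfold bk
        rw [if_neg (lt_irrefl B), if_neg (lt_irrefl B)]
      rw [this]
      exact Qk_self k hk _
    rw [hlast, add_zero, Finset.sum_filter]
    refine Finset.sum_congr rfl fun i hi => ?_
    rw [Finset.mem_range] at hi
    split_ifs with h
    · have hall : ∀ c : ℕ → ZMod 3, (bk D B c i).filter (p < ·) = bk D B c i := by
        intro c
        refine Finset.filter_true_of_mem fun l hl => ?_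
        have := bk_mem (by omega) hl
        omega
      rw [hall, hall]
      unfold bk
      rw [if_pos hi, if_pos hi]
      have e : (fun n : ℕ => i * 3 ^ D + n + 1) = fun n => (i * 3 ^ D + 1) + n := by
        funext n
        ring
      rw [e, Qk_image]
    · rcases hp with rfl | ⟨hp, hp'⟩
      · exact absurd (Nat.zero_le _) h
      · rcases blk_place hp hp' with h0 | ⟨i₀, h1, h2, h3, h4⟩
        · have hnone : ∀ c : ℕ → ZMod 3, (bk D B c i).filter (p < ·) = ∅ := by
            intro c
            refine Finset.filter_false_of_mem fun l hl => ?_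
            have h5 := bk_mem (by omega) hl
            have h6 : (i + 1) * 3 ^ D ≤ B * 3 ^ D := Nat.mul_le_mul_right _ hi
            omega
          rw [hnone, hnone]
          simp [Qk]
        · rcases lt_trichotomy i i₀ with h5 | h5 | h5
          · have hnone : ∀ c : ℕ → ZMod 3, (bk D B c i).filter (p < ·) = ∅ := by
              intro c
              refine Finset.filter_false_of_mem fun l hl => ?_
              have h6 := bk_mem (by omega) hl
              have h7 : (i + 1) * 3 ^ D ≤ i₀ * 3 ^ D := Nat.mul_le_mul_right _ h5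
              omega
            rw [hnone, hnone]
            simp [Qk]
          · have : bk D B c i = bk D B c' i := by
              unfold bk
              rw [if_pos (h5 ▸ h1), if_pos (h5 ▸ h1), h5, h2]
            rw [this]
            exact Qk_self k hk _
          · have h6 : (i₀ + 1) * 3 ^ D ≤ i * 3 ^ D := Nat.mul_le_mul_right _ h5
            omega
  · intro i _ j hj hij l hl l' hl'
    rw [Finset.mem_filter, Finset.mem_filter] at hl hl'
    rcases hl with hl | hl <;> rcases hl' with hl' | hl'
    · exact bk_sep hij (by omega) hl.1 hl'.1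
    · exact bk_sep hij (by omega) hl.1 hl'.1
    · exact bk_sep hij (by omega) hl.1 hl'.1
    · exact bk_sep hij (by omega) hl.1 hl'.1
  · intro i hi x
    exact bk_mom D B p k c c' hD hp x i (by omega)

end Pool.Agent.H34.RK
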