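import Pool.Agent.H34.RK.Stm1

/-!
# Project RK, part 2: analysis stubs

Notation: `b = g L` is the width of the two boundary layers, `M = A.card + B.card`. On the layer
`[0, b]` we use the coordinate `v`, `x = g v`; on the layer `[1 - b, 1]`, `y = 1 - g η`. With
`α l = (g l - x)⁺`, `β l = (g l - (1 - y))⁺` one has
`KK g A B x y = ∏_(l ∈ A) (y - x - α l)⁺ * ∏_(l ∈ B) (y - x - β l)⁺` for `0 ≤ x ≤ y ≤ 1`.
All error bounds are very wasteful, use this.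
-/

set_option autoImplicit false

open Finset

namespace Pool.Agent.H34.RK

/-- Test functions of degree `< d`. -/
def IsTestD (d : ℕ) (g : ℝ) (L p : ℕ) (u : ℝ → ℝ) : Prop :=
  Measurable u ∧ (∀ x, |u x| ≤ 1) ∧ ∃ a b : ℕ → ℝ, (∀ i, |a i| ≤ 1) ∧ (∀ i, |b i| ≤ 1) ∧
    ∀ x, 0 ≤ x → x ≤ g * L → u x = ∑ i ∈ range d, a i * (x / g) ^ i +
      if x < g * p then ∑ i ∈ range d, b i * (x / g) ^ i else 0

/-- All elements of `A` lie in `[1, L]`. -/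
def Sub1 (L : ℕ) (A : Finset ℕ) : Prop := ∀ l ∈ A, 1 ≤ l ∧ l ≤ L

/-- The core of `hz` (without the window). -/
noncomputable def hzc (g : ℝ) (A B : Finset ℕ) (z : ℝ) : ℝ :=
  ∫ x in (0 : ℝ)..z, ∫ y in z..1, KK g A B x y

/-- Pointwise expansion of the weight. `∏ (s - γ_l)` over `A ⊔ B` is
`∑ (-1)^(j+j') s^(M-j-j') e_j(α) e_(j')(β)`; terms with `j ≥ 7` or `j' ≥ 7` are
`O((L · g L)^7)`, and the positive parts only matter if `y - x ≤ g L`, and then everything is at most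
`(g L)^(M - 12) (…)`. (`e_j(α) ≤ (L · g L)^j`.) -/
def S_EXPK : Prop := ∀ (g : ℝ) (L : ℕ) (A B : Finset ℕ) (x y : ℝ), 0 < g → 100 ≤ L →
  g * L ^ 4 ≤ 1 → Sub1 L A → Sub1 L B → 30 ≤ A.card + B.card → 0 ≤ x → x ≤ y → y ≤ 1 →
  |KK g A B x y - ∑ j ∈ range 7, ∑ j' ∈ range 7, (-1 : ℝ) ^ (j + j') *
      (y - x) ^ (A.card + B.card - j - j') * esy A (fun l => max (g * l - x) 0) j *
      esy B (fun l => max (g * l - (1 - y)) 0) j'| ≤ g ^ 7 * L ^ 30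

/-- Taylor expansion of `(y - x)^n` at `x = 0` to order `7`. -/
def S_TAY : Prop := ∀ (n : ℕ) (x y : ℝ), 7 ≤ n → 0 ≤ x → x ≤ 1 → 0 ≤ y → y ≤ 1 →
  |(y - x) ^ n - ∑ i ∈ range 7, (n.choose i : ℝ) * y ^ (n - i) * (-x) ^ i| ≤ n ^ 7 * x ^ 7

/-- One variable invariance. Exact: for `i ≤ 12` and `j ≤ 8` the integral of `u x * x ^ i *` (difference
of the `e_j`) over `[0, g L]` vanishes (substitute `x = g v`, use `JEq`; `e_j((g l - g v)⁺) =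
g^j e_j((l - v)⁺)`). Approximate: expand `(1 - x)^n` by `S_TAY` (for `n < 7` it is a polynomial). -/
def S_OV : Prop := ∀ (g : ℝ) (L p : ℕ) (A A' : Finset ℕ) (u : ℝ → ℝ), 0 < g → 100 ≤ L →
  g * L ^ 4 ≤ 1 → JEq L p A A' → IsTest g L p u →
  (∀ i j : ℕ, i ≤ 12 → j ≤ 8 → (∫ x in (0 : ℝ)..(g * L), u x * x ^ i *
    (esy A (fun l => max (g * l - x) 0) j - esy A' (fun l => max (g * l - x) 0) j)) = 0) ∧
  ∀ n j : ℕ, n ≤ 2 * L → j ≤ 6 → |∫ x in (0 : ℝ)..(g * L), u x * (1 - x) ^ n *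
    (esy A (fun l => max (g * l - x) 0) j - esy A' (fun l => max (g * l - x) 0) j)| ≤
      g ^ 7 * L ^ 40

/-- Two variable invariance. Proof: insert `S_EXPK`. For `j = j' = 0` the difference vanishes. For
`j ≥ 1` the integrand lives on `x ≤ g L`; there expand `(y - x)^n` by `S_TAY` (remainder `(2L · g L)^7`),
after extending the domain of `y` from `[x, 1]` to `[0, 1]` (error: `|y - x|^n ≤ (g L)^n`, `n ≥ 18`, for
`y ≤ x ≤ g L`). If `j' = 0` the `x`-integrals vanish exactly by `S_OV`. If `j' ≥ 1` the `x`-integrals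
for `A` and for `A'` agree exactly, and the difference of the `y`-integrals (weight
`y^(n-i) = (1 - η)^(n-i)`, `η = 1 - y ≤ g L`) is small by the second part of `S_OV`. `j = 0`, `j' ≥ 1`
is symmetric. -/
def S_AL2 : Prop := ∀ (g : ℝ) (L p q : ℕ) (A A' B B' : Finset ℕ) (u u' : ℝ → ℝ), 0 < g → 100 ≤ L →
  g * L ^ 4 ≤ 1 → 30 ≤ A.card + B.card → JEq L p A A' → JEq L q B B' → IsTest g L p u →
  IsTest g L q (fun y => u' (1 - y)) →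
  |∫ x in (0 : ℝ)..1, ∫ y in x..1, u x * u' y * (KK g A B x y - KK g A' B' x y)| ≤ g ^ 7 * L ^ 60

/-- Weak invariance of the density of the lower centre: `S_AL2` with `u = Q`, `u' = 1`. -/
def S_WIX : Prop := ∀ (g : ℝ) (L : ℕ) (A A' B B' : Finset ℕ) (Q : ℝ → ℝ), 0 < g → 100 ≤ L →
  g * L ^ 8 ≤ 1 → 30 ≤ A.card + B.card → JEq L 0 A A' → JEq L 0 B B' → IsTestD 5 g L 0 Q →
  |∫ x in (0 : ℝ)..1, Q x * (hx g A B x - hx g A' B' x)| ≤ g ^ 7 * L ^ 60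

/-- Weak invariance of the density of a satellite. With `R t = ∫_0^t Q 1_[g p, 1 - g q]` one has
`∫ Q hz = ∫∫_(x<y) KK x y (R y - R x)` (Fubini). `R / 2` is a test function of degree `< 6` near
`0`, and near `1`. Use `S_AL2` twice. -/
def S_WIZ : Prop := ∀ (g : ℝ) (L p q : ℕ) (A A' B B' : Finset ℕ) (Q : ℝ → ℝ), 0 < g → 100 ≤ L →
  g * L ^ 8 ≤ 1 → 30 ≤ A.card + B.card → JEq L p A A' → JEq L q B B' → IsTestD 5 g L p Q →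
  IsTestD 5 g L q (fun y => Q (1 - y)) →
  |∫ z in (0 : ℝ)..1, Q z * (hz g A B p q z - hz g A' B' p q z)| ≤ 10 * g ^ 7 * L ^ 60

/-- Abstract lemma. Split `[0, 1]` into `[0, g p)` (nothing), `I_B = [g p, g L]`, `I_M`, `I_T = [1 - g L,
1 - g q]`, rest (nothing). The contributions of pairs of different parts are products of masses, and
cancel up to `ε` (`Q` = indicator functions of the parts). `W_MM(h, h') = W_MM(h - h', h')`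
`= ∫_M (h - h') G` with `G z = ∫_M sign (z' - z) h' z' dz'` is small (`Q = G 1_M`). With
`h = P + ξ`, `h' = P + ξ'` on `I_B`: `W_BB(h, h') = W_BB(ξ, ξ') + ∫_B (h - h') F`,
`F z = ∫_B sign (z' - z) P z' dz'`, a polynomial of degree `≤ 4` in `z / g` with small
coefficients (`Q = F 1_B`). The same for `I_T`. -/
def S_LW : Prop := ∀ (g : ℝ) (L p q : ℕ) (h h' : ℝ → ℝ) (a a' : ℕ → ℝ) (ε : ℝ), 0 < g → 100 ≤ L →
  g * L ^ 8 ≤ 1 → p ≤ L → q ≤ L → Measurable h → Measurable h' → (∀ z, |h z| ≤ 1) →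
  (∀ z, |h' z| ≤ 1) → (∀ z, z < g * p → h z = 0 ∧ h' z = 0) →
  (∀ z, 1 - g * q < z → h z = 0 ∧ h' z = 0) → 0 ≤ ε →
  (∀ Q : ℝ → ℝ, IsTestD 5 g L p Q → IsTestD 5 g L q (fun y => Q (1 - y)) →
    |∫ z in (0 : ℝ)..1, Q z * (h z - h' z)| ≤ ε) →
  (∀ i, |a i| ≤ 1) → (∀ i, |a' i| ≤ 1) →
  |WW h h'
    - (∫ z in (g * p)..(g * L), ∫ z' in (g * p)..(g * L), Real.sign (z' - z) *
        (h z - ∑ i ∈ range 4, a i * (z / g) ^ i) * (h' z' - ∑ i ∈ range 4, a i * (z' / g) ^ i))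
    - (∫ z in (1 - g * L)..(1 - g * q), ∫ z' in (1 - g * L)..(1 - g * q), Real.sign (z' - z) *
        (h z - ∑ i ∈ range 4, a' i * ((1 - z) / g) ^ i) *
          (h' z' - ∑ i ∈ range 4, a' i * ((1 - z') / g) ^ i))| ≤ 20 * ε

/-- First order expansion of the density of the lower centre on the lower layer. Main term:
`∫_x^1 (y - x)^M dy - ∑_A (g l - x)⁺ ∫ (y - x)^(M-1) dy`, the rest is `O(g² L^5)`
(`|∏ (s - γ_l)⁺ - s^M + s^(M-1) ∑ γ_l| ≤ (∑ γ_l)²` for `0 ≤ s, γ_l ≤ 1`; the `B` part is active only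
for `y ≥ 1 - g L` and changes the integrand by at most `L · g L`). -/
def S_EX : Prop := ∀ (g : ℝ) (L : ℕ) (A B : Finset ℕ) (v : ℝ), 0 < g → 100 ≤ L →
  g * L ^ 8 ≤ 1 → Sub1 L A → Sub1 L B → 30 ≤ A.card + B.card → 0 ≤ v → v ≤ L →
  |hx g A B (g * v) - (1 / ((A.card + B.card : ℕ) + 1 : ℝ) - g * v -
    g / (A.card + B.card : ℕ) * ∑ l ∈ A, max ((l : ℝ) - v) 0)| ≤ g ^ 2 * L ^ 10

/-- On the upper layer the density of the lower centre is tiny: `KK ≤ (y - x)^M ≤ (g L)^30`. -/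
def S_EXT : Prop := ∀ (g : ℝ) (L : ℕ) (A B : Finset ℕ) (x : ℝ), 0 < g → 100 ≤ L →
  g * L ^ 8 ≤ 1 → Sub1 L A → Sub1 L B → 30 ≤ A.card + B.card → 1 - g * L ≤ x → x ≤ 1 →
  |hx g A B x| ≤ g ^ 7

/-- Expansion of `hzc` on the lower layer, from `S_EX`: `hzc (g v) = ∫_0^(g v) hx`, up to the part
`y ≤ g v`, which is tiny. -/
def S_EZ : Prop := ∀ (g : ℝ) (L : ℕ) (A B : Finset ℕ) (v : ℝ), 0 < g → 100 ≤ L →
  g * L ^ 8 ≤ 1 → Sub1 L A → Sub1 L B → 30 ≤ A.card + B.card → 0 ≤ v → v ≤ L →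
  |hzc g A B (g * v) - (g * v / ((A.card + B.card : ℕ) + 1 : ℝ) - g ^ 2 * v ^ 2 / 2 -
    g ^ 2 / (2 * (A.card + B.card : ℕ)) * ∑ l ∈ A, ((l : ℝ) ^ 2 - (max ((l : ℝ) - v) 0) ^ 2))| ≤
      g ^ 3 * L ^ 15

/-- Duality `t ↦ 1 - t`. -/
def S_DUAL : Prop :=
  (∀ (g : ℝ) (A B : Finset ℕ) (x y : ℝ), KK g A B x y = KK g B A (1 - y) (1 - x)) ∧
  (∀ (g : ℝ) (A B : Finset ℕ) (z : ℝ), hzc g A B z = hzc g B A (1 - z)) ∧
  (∀ (g : ℝ) (A B : Finset ℕ) (p q : ℕ) (z : ℝ), hz g A B p q z = hz g B A q p (1 - z)) ∧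
  (∀ (g : ℝ) (A B : Finset ℕ) (z : ℝ), hy g A B z = hx g B A (1 - z)) ∧
  (∀ (g : ℝ) (A B : Finset ℕ), ZZ g A B = ZZ g B A) ∧
  (∀ h h' : ℝ → ℝ, WW (fun z => h (1 - z)) (fun z => h' (1 - z)) = - WW h h') ∧
  (∀ h h' : ℝ → ℝ, Measurable h → Measurable h' → (∃ C, ∀ z, |h z| ≤ C) → (∃ C, ∀ z, |h' z| ≤ C) →
    WW h h' = - WW h' h)

/-- Regularity: the densities are nonnegative, measurable and bounded by `1` (on the relevant range);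
`hx`, `hy` are only used on `[0, 1]`. -/
def S_REG : Prop := ∀ (g : ℝ) (L : ℕ) (A B : Finset ℕ) (p q : ℕ), 0 < g → 100 ≤ L → g * L ^ 4 ≤ 1 →
  Sub1 L A → Sub1 L B → 30 ≤ A.card + B.card → p ≤ L → q ≤ L →
  Measurable (fun z => if 0 ≤ z ∧ z ≤ 1 then hx g A B z else 0) ∧
  Measurable (fun z => if 0 ≤ z ∧ z ≤ 1 then hy g A B z else 0) ∧
  Measurable (hz g A B p q) ∧ Continuous (fun xy : ℝ × ℝ => KK g A B xy.1 xy.2) ∧
  (∀ x y, 0 ≤ x → x ≤ y → y ≤ 1 → 0 ≤ KK g A B x y ∧ KK g A B x y ≤ (y - x) ^ (A.card + B.card)) ∧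
  (∀ z, 0 ≤ z → z ≤ 1 → 0 ≤ hx g A B z ∧ hx g A B z ≤ 1 ∧ 0 ≤ hy g A B z ∧ hy g A B z ≤ 1) ∧
  (∀ z, 0 ≤ hz g A B p q z ∧ hz g A B p q z ≤ 1)

/-- Lower centres. From `S_LW` (with `p = q = 0`, `a 0 = 1/(M+1)`, `a 1 = -g`, `a' = 0`, `h = hx`
cut off outside `[0, 1]`), `S_WIX`, `S_EX`, `S_EXT`, `S_W1`, `S_JEQ'`, `S_BLKCARD`, `S_REG`. Main term:
`g² (g/M)² · 41148 · 3^34 / 24 · ∑ cyc`. -/
def S_T1 : Prop := ∀ (g : ℝ) (B : ℕ) (c c' d d' : ℕ → ZMod 3), 0 < g → 1 ≤ B →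
  g * (len 40 B : ℝ) ^ 100 ≤ 1 → 1 ≤ |∑ i ∈ range B, cyc (c i) (c' i)| →
  g ^ 4 / (len 40 B : ℝ) ^ 4 ≤
    |WW (hx g (blk 40 B c) (blk 40 B d)) (hx g (blk 40 B c') (blk 40 B d'))|

/-- Equal satellites. From `S_LW` (with `p`, `q = 0`), `S_WIZ`, `S_EZ`, `S_DUAL`, `S_W2`, `S_JEQ'`,
`S_BLKCARD`, `S_MOM`, `S_REG`. With `M = |A.erase p| + |E|`: on the lower layer
`hz (g v) = P + (g²/(2M)) ∑_(A.erase p) ((l - v)⁺)² + O(g³)`,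
`P = g v/(M+1) - g² v²/2 - (g²/(2M)) ∑_(A.erase p) l²`, the same for `A'` (equal second moments); on
the upper layer, `z = 1 - g v`: `hz = hzc g A E z = hzc g E A (g v)` and the same formula with
`E`, and the orientation is reversed. Main term:
`g² (g²/(2M))² · 950618916 · 3^32 / 180 · (∑_(p ≤ i 3^40) cyc (c i) (c' i) - ∑ cyc (d i) (d' i))`. -/
def S_T3 : Prop := ∀ (g : ℝ) (B p : ℕ) (c c' d d' : ℕ → ZMod 3), 0 < g → 1 ≤ B →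
  g * (len 40 B : ℝ) ^ 100 ≤ 1 → p ∈ blk 40 B c → p ∈ blk 40 B c' →
  1 ≤ |∑ i ∈ (range B).filter (fun i => p ≤ i * 3 ^ 40), cyc (c i) (c' i) -
    ∑ i ∈ range B, cyc (d i) (d' i)| →
  g ^ 6 / (len 40 B : ℝ) ^ 4 ≤
    |WW (hz g ((blk 40 B c).erase p) (blk 40 B d) p 0)
      (hz g ((blk 40 B c').erase p) (blk 40 B d') p 0)|

/-- `L¹` expansion of the density of a satellite. `k₀ z = ∫_0^z ∫_z^1 (y - x)^M`. First order
expansion of the product as in `S_EX`, errors `O((L · g L)²)` on `{x ≤ g L} ∪ {y ≥ 1 - g L}`, a set of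
measure `2 g L`; `∫_0^(g l) (g l - x) ∫_z^1 (y - x)^(M-1) dy dx = (g² l²/2) (1 - z^M)/M + O(g³)` for
`z ≥ g L`, and the layers `z ≤ g L`, `z ≥ 1 - g L` contribute `O(g³)`. -/
def S_HZL1 : Prop := ∀ (g : ℝ) (L : ℕ) (A B : Finset ℕ) (p q : ℕ), 0 < g → 100 ≤ L → g * L ^ 8 ≤ 1 →
  Sub1 L A → Sub1 L B → 30 ≤ A.card + B.card → p ≤ L → q ≤ L →
  (∫ z in (0 : ℝ)..1, |hz g A B p q z -
    ((if g * p ≤ z ∧ z ≤ 1 - g * q then
        ∫ x in (0 : ℝ)..z, ∫ y in z..1, (y - x) ^ (A.card + B.card) else 0)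
      - g ^ 2 / 2 * (∑ l ∈ A, (l : ℝ) ^ 2) * ((1 - z ^ (A.card + B.card)) / (A.card + B.card : ℕ))
      - g ^ 2 / 2 * (∑ l ∈ B, (l : ℝ) ^ 2) *
          ((1 - (1 - z) ^ (A.card + B.card)) / (A.card + B.card : ℕ)))|) ≤ g ^ 3 * L ^ 15

/-- Satellites with different windows. From `S_HZL1`, `S_REG`. With `a_M z = (1 - z^M)/M`,
`S = ∑_(A₁) l² + p² = ∑_(A₂) l² + p'²`, `S'` similarly, the two densities are
`1_win k₀ - (g²/2) (S - p²) a_M(z) - (g²/2) (S' - q²) a_M(1 - z)` up to `O(g³)` in `L¹`.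
`WW(1_win k₀, 1_win' k₀) ≥ mass[g p, g p'] · mass[g p', 1 - g q] + ...
= (g²/2) ((p'² - p²) + (q² - q'²)) · 1/(M+1) · K₀ + O(g³)`, `K₀ = ∫ k₀ = 1/((M+2)(M+3))`. The terms
with `S`, `S'` cancel by antisymmetry up to `O(g⁴)`; the others are
`(g²/2) (p² - p'²) ∫ a_M Θ + (g²/2) (q² - q'²) ∫ a_M(1 - z) Θ`, `Θ z = ∫ sign (z' - z) k₀ z' dz'`,
`∫ Θ = 0`, `|∫ a_M Θ| = |∫ z^M Θ| / M ≤ K₀/(M (M+1))`, smaller than the main term by the factor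
`1/M`. -/
def S_T4 : Prop := ∀ (g : ℝ) (L : ℕ) (A₁ B₁ A₂ B₂ : Finset ℕ) (p q p' q' : ℕ), 0 < g → 100 ≤ L →
  g * L ^ 30 ≤ 1 → Sub1 L A₁ → Sub1 L B₁ → Sub1 L A₂ → Sub1 L B₂ → 30 ≤ A₁.card + B₁.card →
  A₁.card + B₁.card = A₂.card + B₂.card → p' ≤ L → q ≤ L → p ≤ p' → q' ≤ q → (p, q) ≠ (p', q') →
  ∑ l ∈ A₁, (l : ℝ) ^ 2 + (p : ℝ) ^ 2 = ∑ l ∈ A₂, (l : ℝ) ^ 2 + (p' : ℝ) ^ 2 →
  ∑ l ∈ B₁, (l : ℝ) ^ 2 + (q : ℝ) ^ 2 = ∑ l ∈ B₂, (l : ℝ) ^ 2 + (q' : ℝ) ^ 2 →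
  g ^ 2 / (L : ℝ) ^ 6 ≤ WW (hz g A₁ B₁ p q) (hz g A₂ B₂ p' q')

/-- Two satellites of the same gadget. -/
noncomputable def WS (φ ψ : ℕ → ℝ) (A B : Finset ℕ) (lo hi lo' hi' : ℝ) : ℝ :=
  ∫ x in (0 : ℝ)..1, ∫ y in x..1, KT φ ψ A B x y *
    ∫ z in x..y, ∫ z' in x..y, (if lo ≤ z ∧ z ≤ hi ∧ lo' ≤ z' ∧ z' ≤ hi' then
      Real.sign (z' - z) else 0)

/-- The inner double integral is `(a'-a)(b'-a') + (b-a')(b'-b) ≥ 0` for `[a, b] = [x, y] ∩ [lo, hi]`,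
`[a', b'] = [x, y] ∩ [lo', hi']` (if these are nonempty and overlap); for
`x ≤ g/2`, `1 - 1/M ≤ y ≤ 1 - g L` (if `p < p'`) or `g L ≤ x ≤ 1/M`, `1 - g/2 ≤ y` (if `q' < q`) it is
at least `g / 10`, and `KK ≥ 1/20` there. -/
def S_T4S : Prop := ∀ (g : ℝ) (L : ℕ) (A B : Finset ℕ) (p q p' q' : ℕ), 0 < g → 100 ≤ L →
  g * L ^ 30 ≤ 1 → Sub1 L A → Sub1 L B → 20 ≤ A.card + B.card → p' ≤ L → q ≤ L → p ≤ p' → q' ≤ q →
  (p, q) ≠ (p', q') →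
  g ^ 2 / (L : ℝ) ^ 6 ≤ WS (fun l => g * l) (fun l => 1 - g * l) A B (g * p) (1 - g * q) (g * p')
    (1 - g * q')

/-- Bounds for the partition function: `KK = (y - x)^M` for `g L ≤ x ≤ y ≤ 1 - g L` and
`KK ≤ (y - x)^M` always, so `ZZ` is between `(1 - 2 g L)^(M+2)/((M+1)(M+2))` and `1/((M+1)(M+2))`. -/
def S_ZB : Prop := ∀ (g : ℝ) (L : ℕ) (A B : Finset ℕ), 0 < g → 100 ≤ L → g * L ^ 8 ≤ 1 →
  Sub1 L A → Sub1 L B → 30 ≤ A.card + B.card →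
  ZZ g A B ≤ 1 / (((A.card + B.card : ℕ) + 1) * ((A.card + B.card : ℕ) + 2) : ℝ) ∧
  (99 / 100 : ℝ) / (((A.card + B.card : ℕ) + 1) * ((A.card + B.card : ℕ) + 2) : ℝ) ≤ ZZ g A B

/-- Elements of different kinds are strongly unbalanced. The lower centre: `Pr[x > 1/4] ≤ 1/100`
(density `≤ (1-x)^(M+1)/(M+1)`, total mass `≥ 0.99/((M+1)(M+2))`); a satellite: `Pr[z < 1/4] ≤ 0.28`
(density `≤ 1/((M'+1)(M'+2))`, total mass `≥ 0.9/((M'+2)(M'+3))` since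
`∫ hz = ∫∫ KK (min y hi - max x lo)⁺`); the upper centre is dual to the lower centre. -/
def S_T5 : Prop := ∀ (g : ℝ) (L : ℕ) (A B A' B' : Finset ℕ) (p q : ℕ), 0 < g → 100 ≤ L →
  g * L ^ 8 ≤ 1 → Sub1 L A → Sub1 L B → Sub1 L A' → Sub1 L B' → 30 ≤ A.card + B.card →
  30 ≤ A'.card + B'.card → p ≤ L → q ≤ L →
  1 / (L : ℝ) ^ 10 ≤ WW (hx g A B) (hz g A' B' p q) ∧ 1 / (L : ℝ) ^ 10 ≤ WW (hz g A' B' p q) (hy g A B) ∧
  1 / (L : ℝ) ^ 10 ≤ WW (hx g A B) (hy g A' B')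

/-- The lower centre is rarely in the lower layer, and dually. -/
def S_T6 : Prop := ∀ (g : ℝ) (L : ℕ) (A B : Finset ℕ), 0 < g → 100 ≤ L → g * L ^ 8 ≤ 1 →
  Sub1 L A → Sub1 L B → 30 ≤ A.card + B.card →
  (∫ x in (0 : ℝ)..(2 * g * L), hx g A B x) ≤ ZZ g A B / 16 ∧
  (∫ y in (1 - 2 * g * L)..1, hy g A B y) ≤ ZZ g A B / 16

/-- The roles of the elements of a gadget: lower centre, upper centre, satellites of the two kinds. -/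
inductive Role
  | lo | hi | sa (l : ℕ) | sb (l : ℕ)

/-- Valid roles. -/
def Valid (A B : Finset ℕ) : Role → Prop
  | .lo => True
  | .hi => True
  | .sa l => l ∈ A
  | .sb l => l ∈ B

/-- Density of an element of the gadget, general frontiers. -/
noncomputable def dens (φ ψ : ℕ → ℝ) (A B : Finset ℕ) : Role → ℝ → ℝ
  | .lo => hXT φ ψ A B
  | .hi => hYT φ ψ A B
  | .sa l => hZT φ ψ (A.erase l) B (φ l) 1
  | .sb l => hZT φ ψ A (B.erase l) 0 (ψ l)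

/-- Two satellites of one gadget, general frontiers. -/
noncomputable def same (φ ψ : ℕ → ℝ) (A B : Finset ℕ) : Role → Role → ℝ
  | .sa l, .sa l' => WS φ ψ ((A.erase l).erase l') B (φ l) 1 (φ l') 1
  | .sa l, .sb l' => WS φ ψ (A.erase l) (B.erase l') (φ l) 1 0 (ψ l')
  | .sb l, .sa l' => WS φ ψ (A.erase l') (B.erase l) 0 (ψ l) (φ l') 1
  | .sb l, .sb l' => WS φ ψ A ((B.erase l).erase l') 0 (ψ l) 0 (ψ l')
  | _, _ => 1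

/-- Part 2 final statement. From `S_CODE`, `S_T1`, `S_T3`, `S_T4`, `S_T4S`, `S_T5`, `S_DUAL`,
`S_BLKCARD`, `S_MOM`, `S_REG`: `A t = blk 40 B (c t)`, `B t = blk 40 B (-c t)`, `L = len 40 B`,
`m = B * 3^39 + 1`; `cyc (-a) (-b) = - cyc a b`. Lower/lower: `S_T1`; upper/upper: dual. Equal
satellites `sa l, sa l`: `S_T3` with `c`, `d = -c`; `sb l, sb l`: dual. Different satellites: `S_T4`
(`sa l` has window `(l, 0)`, `sb l` has window `(0, l)`). Others: `S_T5`. -/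
def S_IDEAL : Prop := ∀ J : ℕ, 2 ≤ J → ∃ (L m : ℕ) (A B : ℕ → Finset ℕ),
  L ≤ 200 * J ^ 5 * 3 ^ 40 + 1 ∧ 100 ≤ L ∧ 20 ≤ m ∧
  (∀ t, t < 2 ^ J → (A t).card = m ∧ (B t).card = m ∧ Sub1 L (A t) ∧ Sub1 L (B t) ∧
    L ∈ A t ∧ L ∈ B t) ∧
  ∀ g : ℝ, 0 < g → g * (L : ℝ) ^ 100 ≤ 1 →
    (∀ s t, s < 2 ^ J → t < 2 ^ J → s ≠ t → ∀ r r' : Role, Valid (A s) (B s) r →
      Valid (A t) (B t) r' →
      g ^ 6 / (L : ℝ) ^ 12 ≤ |WW (dens (fun l => g * l) (fun l => 1 - g * l) (A s) (B s) r)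
        (dens (fun l => g * l) (fun l => 1 - g * l) (A t) (B t) r')|) ∧
    (∀ t, t < 2 ^ J → ∀ r r' : Role, Valid (A t) (B t) r → Valid (A t) (B t) r' → r ≠ r' →
      r ≠ .lo → r ≠ .hi → r' ≠ .lo → r' ≠ .hi →
      g ^ 6 / (L : ℝ) ^ 12 ≤ |same (fun l => g * l) (fun l => 1 - g * l) (A t) (B t) r r'|)

end Pool.Agent.H34.RK
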