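import Pool.Agent.H34.RK.Stm2
import Pool.Agent.H34.L.H931R3.Bal14

/-!
# Project RK, part 3: the poset, its order polytope, concentration

The poset `El`: a bottom chain (`L` segments with `us 0, ..., us (L-1)` elements, segment `i` followed
by the frontier `φ_(i+1)`), a top chain (segment `i` between the frontiers `ψ_(i+1)` and
`ψ_i`), and `N` gadgets: a lower centre `x`, an upper centre `y`, satellites `z` between `x` and `y`,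
one above `φ_l` for each `l ∈ A t` and one below `ψ_l` for each `l ∈ B t`.
The order is defined by `a < b ↔ f a < f b for all f ∈ VS`, `VS` being the set of the labelings which
satisfy the constraints; so `VS` is the (open) order polytope.
-/

set_option autoImplicit false

open Finset MeasureTheory

namespace Pool.Agent.H34.RK

/-- Segments. -/
abbrev Sg (L : ℕ) (us : ℕ → ℕ) : Type := Σ i : Fin L, Fin (us i)

/-- A gadget: `inl false` = lower centre, `inl true` = upper centre, `inr` = satellites. -/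
abbrev Gd (A B : Finset ℕ) : Type := Bool ⊕ ({l : ℕ // l ∈ A} ⊕ {l : ℕ // l ∈ B})

/-- The elements of the poset. -/
abbrev El (L N : ℕ) (us vs : ℕ → ℕ) (A B : ℕ → Finset ℕ) : Type :=
  (Sg L us ⊕ Sg L vs) ⊕ ((Fin L ⊕ Fin L) ⊕ (Σ t : Fin N, Gd (A t) (B t)))

/-- The role of an element of a gadget. -/
def roleOf {A B : Finset ℕ} : Gd A B → Role
  | .inl false => .lo
  | .inl true => .hi
  | .inr (.inl l) => .sa l
  | .inr (.inr l) => .sb l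

/-- Bottom frontiers, `phi 0 = 0`. -/
noncomputable def phi {L : ℕ} (θ : Fin L ⊕ Fin L → ℝ) (l : ℕ) : ℝ :=
  if h : 1 ≤ l ∧ l ≤ L then θ (.inl ⟨l - 1, by omega⟩) else 0

/-- Top frontiers, `psi 0 = 1`. -/
noncomputable def psi {L : ℕ} (θ : Fin L ⊕ Fin L → ℝ) (l : ℕ) : ℝ :=
  if h : 1 ≤ l ∧ l ≤ L then θ (.inr ⟨l - 1, by omega⟩) else 1

/-- Ordered frontiers. -/
def OmS (L : ℕ) : Set (Fin L ⊕ Fin L → ℝ) :=
  {θ | (∀ i, 0 < θ i ∧ θ i < 1) ∧ (∀ l < L, phi θ l < phi θ (l + 1)) ∧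
    (∀ l < L, psi θ (l + 1) < psi θ l) ∧ phi θ L < psi θ L}

/-- Gadget polytope. -/
def GS (φ ψ : ℕ → ℝ) (A B : Finset ℕ) : Set (Gd A B → ℝ) :=
  {ω | (∀ e, 0 < ω e ∧ ω e < 1) ∧ ω (.inl false) < ω (.inl true) ∧
    (∀ s, ω (.inl false) < ω (.inr s) ∧ ω (.inr s) < ω (.inl true)) ∧
    (∀ l : {l : ℕ // l ∈ A}, φ l < ω (.inr (.inl l))) ∧
    ∀ l : {l : ℕ // l ∈ B}, ω (.inr (.inr l)) < ψ l}

/-- The order polytope of the whole poset. -/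
def VS (L N : ℕ) (us vs : ℕ → ℕ) (A B : ℕ → Finset ℕ) : Set (El L N us vs A B → ℝ) :=
  {f | (fun i => f (.inr (.inl i))) ∈ OmS L ∧
    (∀ (i : Fin L) (j j' : Fin (us i)), j < j' → f (.inl (.inl ⟨i, j⟩)) < f (.inl (.inl ⟨i, j'⟩))) ∧
    (∀ (i : Fin L) (j : Fin (us i)), phi (fun i => f (.inr (.inl i))) i < f (.inl (.inl ⟨i, j⟩)) ∧
      f (.inl (.inl ⟨i, j⟩)) < phi (fun i => f (.inr (.inl i))) (i + 1)) ∧
    (∀ (i : Fin L) (j j' : Fin (vs i)), j < j' → f (.inl (.inr ⟨i, j⟩)) < f (.inl (.inr ⟨i, j'⟩))) ∧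
    (∀ (i : Fin L) (j : Fin (vs i)), psi (fun i => f (.inr (.inl i))) (i + 1) < f (.inl (.inr ⟨i, j⟩)) ∧
      f (.inl (.inr ⟨i, j⟩)) < psi (fun i => f (.inr (.inl i))) i) ∧
    ∀ t : Fin N, (fun e => f (.inr (.inr ⟨t, e⟩))) ∈
      GS (phi (fun i => f (.inr (.inl i)))) (psi (fun i => f (.inr (.inl i)))) (A t) (B t)}

/-- The order. -/
@[reducible] def po (L N : ℕ) (us vs : ℕ → ℕ) (A B : ℕ → Finset ℕ) (hne : (VS L N us vs A B).Nonempty) :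
    PartialOrder (El L N us vs A B) where
  le a b := a = b ∨ ∀ f ∈ VS L N us vs A B, f a < f b
  lt a b := (a = b ∨ ∀ f ∈ VS L N us vs A B, f a < f b) ∧
    ¬ (b = a ∨ ∀ f ∈ VS L N us vs A B, f b < f a)
  lt_iff_le_not_ge _ _ := Iff.rfl
  le_refl a := Or.inl rfl
  le_trans a b c hab hbc := by
    rcases hab with rfl | hab
    · exact hbc
    · rcases hbc with rfl | hbc
      · exact Or.inr hab
      · exact Or.inr fun f hf => (hab f hf).trans (hbc f hf)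
  le_antisymm a b hab hba := by
    rcases hab with rfl | hab
    · rfl
    · rcases hba with rfl | hba
      · rfl
      · obtain ⟨f, hf⟩ := hne
        exact absurd ((hab f hf).trans (hba f hf)) (lt_irrefl _)

/-- The open order polytope of a poset. -/
def OP (P : Type) [PartialOrder P] : Set (P → ℝ) :=
  {f | (∀ a, 0 < f a ∧ f a < 1) ∧ ∀ a b, a < b → f a < f b}

/-- Linear extensions and volumes. The cube minus a null set is the disjoint union of the `n!`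
chambers `{f : f ∘ σ⁻¹ strictly increasing}`, `σ : P ≃ Fin n`; the chambers have the same volume (the
maps `f ↦ f ∘ π` preserve the volume), and `OP P` is (up to a null set) the union of the chambers of
the monotone `σ`. -/
def S_P1 : Prop := ∀ (P : Type) [Fintype P] [PartialOrder P] (a b : P),
  volume (OP P) ≠ 0 ∧ volume (OP P) ≠ ⊤ ∧
  Pool.Agent.H13R3.WB.prob P a b = (volume {f ∈ OP P | f a < f b}).toReal / (volume (OP P)).toReal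

/-- `VS` is nonempty and is the order polytope. More precisely for arbitrary values of the satellites in
`(1/3, 2/3)` there is `f ∈ VS` with these values. (Frontiers `l/(4 L)` and `1 - l/(4 L)`, segments in
between, centres `1/3`, `2/3`.) -/
def S_OPVS : Prop := ∀ (L N : ℕ) (us vs : ℕ → ℕ) (A B : ℕ → Finset ℕ), 1 ≤ L →
  (∀ t < N, Sub1 L (A t) ∧ Sub1 L (B t)) →
  (∀ z : (Σ t : Fin N, {l : ℕ // l ∈ A t} ⊕ {l : ℕ // l ∈ B t}) → ℝ,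
    (∀ s, 1 / 3 < z s ∧ z s < 2 / 3) → ∃ f ∈ VS L N us vs A B, ∀ s, f (.inr (.inr ⟨s.1, .inr s.2⟩)) = z s) ∧
  ∀ hne : (VS L N us vs A B).Nonempty,
    @OP (El L N us vs A B) (po L N us vs A B hne) = VS L N us vs A B

/-- The width is `2 m N`. Antichain: all satellites (for two of them there are `f ∈ VS` with both
orders, `S_OPVS`). Upper bound: map every element to a satellite with fibres which are chains: every
satellite to itself, the bottom chain to the satellite `L ∈ A 0` of gadget `0`, the top chain to the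
satellite `L ∈ B 0` of gadget `0`, the centres of gadget `t ≠ 0` to its satellite `L ∈ A t`, the lower
centre of gadget `0` to its satellite `L ∈ B 0` and the upper centre of gadget `0` to its satellite
`L ∈ A 0`. -/
def S_WID : Prop := ∀ (L N m : ℕ) (us vs : ℕ → ℕ) (A B : ℕ → Finset ℕ), 1 ≤ L → 1 ≤ N → 1 ≤ m →
  (∀ t < N, Sub1 L (A t) ∧ Sub1 L (B t) ∧ (A t).card = m ∧ (B t).card = m ∧ L ∈ A t ∧ L ∈ B t) →
  ∀ hne : (VS L N us vs A B).Nonempty,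
    @Pool.Agent.H931R3.Bal.HasWidth (El L N us vs A B) (po L N us vs A B hne) (2 * m * N)

/-- Volume of an ordered simplex (induction on `n`, or by symmetry). -/
def S_SEGV : Prop := ∀ (n : ℕ) (a b : ℝ), a ≤ b →
  volume {h : Fin n → ℝ | (∀ i j, i < j → h i < h j) ∧ ∀ i, a < h i ∧ h i < b} =
    ENNReal.ofReal ((b - a) ^ n / n.factorial)

/-- Weight of the frontiers coming from the segments. -/
noncomputable def wt {L : ℕ} (us vs : ℕ → ℕ) (θ : Fin L ⊕ Fin L → ℝ) : ℝ :=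
  (∏ l ∈ range L, (phi θ (l + 1) - phi θ l) ^ us l / (us l).factorial) *
    ∏ l ∈ range L, (psi θ l - psi θ (l + 1)) ^ vs l / (vs l).factorial

/-- Integrating out the segments. Decompose `El → ℝ` as a product (sum types, sigma types), Tonelli, and
`S_SEGV` for each segment. -/
def S_FUB : Prop := ∀ (L N : ℕ) (us vs : ℕ → ℕ) (A B : ℕ → Finset ℕ)
  (F : (Fin L ⊕ Fin L → ℝ) × (∀ t : Fin N, Gd (A t) (B t) → ℝ) → ENNReal), Measurable F →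
  ∫⁻ f in VS L N us vs A B, F (fun i => f (.inr (.inl i)), fun t e => f (.inr (.inr ⟨t, e⟩))) =
    ∫⁻ θ in OmS L, ENNReal.ofReal (wt us vs θ) *
      ∫⁻ ω in {ω : ∀ t : Fin N, Gd (A t) (B t) → ℝ |
        ∀ t : Fin N, ω t ∈ GS (phi θ) (psi θ) (A t) (B t)}, F (θ, ω)

/-- Product spaces: functions of two coordinates. -/
def S_GPROD : Prop := ∀ (N : ℕ) (X : Fin N → Type) [∀ i, Fintype (X i)]
  (S : ∀ i, Set (X i → ℝ)), (∀ i, MeasurableSet (S i)) → (∀ i, volume (S i) ≠ ⊤) →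
  (∀ (s : Fin N) (F : (X s → ℝ) → ENNReal), Measurable F →
    ∫⁻ ω in {ω : ∀ i, X i → ℝ | ∀ i, ω i ∈ S i}, F (ω s) =
      (∏ k ∈ univ.erase s, volume (S k)) * ∫⁻ a in S s, F a) ∧
  (∀ (s t : Fin N) (F : (X s → ℝ) × (X t → ℝ) → ENNReal), s ≠ t → Measurable F →
    ∫⁻ ω in {ω : ∀ i, X i → ℝ | ∀ i, ω i ∈ S i}, F (ω s, ω t) =
      (∏ k ∈ (univ.erase s).erase t, volume (S k)) * ∫⁻ a in S s, ∫⁻ b in S t, F (a, b))

/-- The law of one element of a gadget. For fixed centres `x < y` the satellites are independent, and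
the volume of the range of a satellite is a factor of `KT`. -/
def S_MARG : Prop := ∀ (φ ψ : ℕ → ℝ) (A B : Finset ℕ) (e : Gd A B) (q : ℝ → ENNReal), Measurable q →
  ∫⁻ ω in GS φ ψ A B, q (ω e) = ∫⁻ z in Set.Ioo (0 : ℝ) 1, q z *
    ENNReal.ofReal (dens φ ψ A B (roleOf e) z)

/-- Two satellites of one gadget. -/
def S_MARG2 : Prop := ∀ (φ ψ : ℕ → ℝ) (A B : Finset ℕ) (s s' : {l : ℕ // l ∈ A} ⊕ {l : ℕ // l ∈ B}),
  s ≠ s' →
  (volume {ω ∈ GS φ ψ A B | ω (.inr s) < ω (.inr s')}).toReal -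
    (volume {ω ∈ GS φ ψ A B | ω (.inr s') < ω (.inr s)}).toReal =
    same φ ψ A B (roleOf (.inr s)) (roleOf (.inr s'))

/-- Total masses and regularity for general frontiers. `KT` is continuous, and between `0` and `1` for
`0 ≤ x ≤ y ≤ 1`, `0 ≤ φ`, `ψ ≤ 1`; for nonnegative `h, h'` one has `|WW h h'| ≤ ∫ h ∫ h'`. -/
def S_MASS : Prop := ∀ (φ ψ : ℕ → ℝ) (A B : Finset ℕ) (e : Gd A B),
  (∀ l, 0 ≤ φ l ∧ φ l ≤ 1) → (∀ l, 0 ≤ ψ l ∧ ψ l ≤ 1) →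
  (∫ z in (0 : ℝ)..1, dens φ ψ A B (roleOf e) z) = ZT φ ψ A B ∧
  (∀ z, 0 ≤ z → z ≤ 1 → 0 ≤ dens φ ψ A B (roleOf e) z ∧ dens φ ψ A B (roleOf e) z ≤ 1) ∧
  IntervalIntegrable (dens φ ψ A B (roleOf e)) volume 0 1 ∧
  0 ≤ ZT φ ψ A B ∧ ZT φ ψ A B ≤ 1 ∧
  volume (GS φ ψ A B) = ENNReal.ofReal (ZT φ ψ A B) ∧
  (∀ s s' : {l : ℕ // l ∈ A} ⊕ {l : ℕ // l ∈ B}, s ≠ s' →
    |same φ ψ A B (roleOf (.inr s : Gd A B)) (roleOf (.inr s' : Gd A B))| ≤ ZT φ ψ A B)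

/-- The final volume formulas, from `S_FUB`, `S_GPROD`, `S_MARG`, `S_MARG2`, `S_MASS`. (All functions
are bounded and measurable in `θ`: by Tonelli, or by continuity.) -/
def S_VD : Prop := ∀ (L N : ℕ) (us vs : ℕ → ℕ) (A B : ℕ → Finset ℕ), 1 ≤ L →
  (∀ t < N, Sub1 L (A t) ∧ Sub1 L (B t)) →
  volume (VS L N us vs A B) ≠ ⊤ ∧
  (volume (VS L N us vs A B)).toReal = ∫ θ in OmS L, wt us vs θ *
    ∏ k : Fin N, ZT (phi θ) (psi θ) (A k) (B k) ∧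
  (∀ (s t : Fin N) (e : Gd (A s) (B s)) (e' : Gd (A t) (B t)), s ≠ t →
    (volume {f ∈ VS L N us vs A B | f (.inr (.inr ⟨s, e⟩)) < f (.inr (.inr ⟨t, e'⟩))}).toReal -
      (volume {f ∈ VS L N us vs A B | f (.inr (.inr ⟨t, e'⟩)) < f (.inr (.inr ⟨s, e⟩))}).toReal =
    ∫ θ in OmS L, wt us vs θ *
      (∏ k ∈ (univ.erase s).erase t, ZT (phi θ) (psi θ) (A k) (B k)) *
      WW (dens (phi θ) (psi θ) (A s) (B s) (roleOf e)) (dens (phi θ) (psi θ) (A t) (B t) (roleOf e'))) ∧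
  (∀ (t : Fin N) (s s' : {l : ℕ // l ∈ A t} ⊕ {l : ℕ // l ∈ B t}), s ≠ s' →
    (volume {f ∈ VS L N us vs A B | f (.inr (.inr ⟨t, .inr s⟩)) < f (.inr (.inr ⟨t, .inr s'⟩))}).toReal -
      (volume {f ∈ VS L N us vs A B | f (.inr (.inr ⟨t, .inr s'⟩)) < f (.inr (.inr ⟨t, .inr s⟩))}).toReal =
    ∫ θ in OmS L, wt us vs θ * (∏ k ∈ univ.erase t, ZT (phi θ) (psi θ) (A k) (B k)) *
      same (phi θ) (psi θ) (A t) (B t) (roleOf (.inr s : Gd (A t) (B t)))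
        (roleOf (.inr s' : Gd (A t) (B t)))) ∧
  (∀ t : Fin N,
    (volume {f ∈ VS L N us vs A B | f (.inr (.inr ⟨t, .inl false⟩)) <
        phi (fun i => f (.inr (.inl i))) L}).toReal =
    ∫ θ in OmS L, wt us vs θ * (∏ k ∈ univ.erase t, ZT (phi θ) (psi θ) (A k) (B k)) *
      ∫ x in (0 : ℝ)..(phi θ L), hXT (phi θ) (psi θ) (A t) (B t) x) ∧
  (∀ t : Fin N,
    (volume {f ∈ VS L N us vs A B | psi (fun i => f (.inr (.inl i))) L <
        f (.inr (.inr ⟨t, .inl true⟩))}).toReal =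
    ∫ θ in OmS L, wt us vs θ * (∏ k ∈ univ.erase t, ZT (phi θ) (psi θ) (A k) (B k)) *
      ∫ y in (psi θ L)..1, hYT (phi θ) (psi θ) (A t) (B t) y)

/-- One-dimensional Prekopa-Leindler inequality for unimodal functions. Normalise `sup f = sup g = 1`
(if one of the integrals is `0` there is nothing to prove); the superlevel sets `{f > t}`, `{g > t}`
are nonempty bounded intervals for `t < 1`, and `{h > t} ⊇ λ {f > t} + (1 - λ) {g > t}` has length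
at least `λ |{f > t}| + (1 - λ) |{g > t}|`; integrate over `t` and use the weighted
arithmetic-geometric mean inequality. -/
def S_PL : Prop := ∀ (f g h : ℝ → ℝ) (lam : ℝ), 0 < lam → lam < 1 → Measurable f → Measurable g →
  Measurable h → (∀ x, 0 ≤ f x ∧ f x ≤ 1) → (∀ x, 0 ≤ g x ∧ g x ≤ 1) → (∀ x, 0 ≤ h x ∧ h x ≤ 1) →
  (∀ x, x < 0 ∨ 1 < x → f x = 0 ∧ g x = 0 ∧ h x = 0) →
  (∀ t : ℝ, 0 ≤ t → Set.OrdConnected {x | t < f x} ∧ Set.OrdConnected {x | t < g x}) →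
  (∀ x y, f x ^ lam * g y ^ (1 - lam) ≤ h (lam * x + (1 - lam) * y)) →
  (∫ x in (0 : ℝ)..1, f x) ^ lam * (∫ x in (0 : ℝ)..1, g x) ^ (1 - lam) ≤ ∫ x in (0 : ℝ)..1, h x

/-- Log-concavity of the partition function in the frontiers; `S_PL` twice, first in `y`, then in `x`:
`(x, y, φ, ψ) ↦ 1_(0 ≤ x ≤ y ≤ 1) KT φ ψ A B x y` is log-concave, since each factor
`(y - max x φ)⁺`, `(min y ψ - x)⁺` is the positive part of a concave function. -/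
def S_LC : Prop := ∀ (φ ψ φ' ψ' : ℕ → ℝ) (A B : Finset ℕ) (lam : ℝ), 0 < lam → lam < 1 →
  (∀ l, 0 ≤ φ l ∧ φ l ≤ 1) → (∀ l, 0 ≤ ψ l ∧ ψ l ≤ 1) →
  (∀ l, 0 ≤ φ' l ∧ φ' l ≤ 1) → (∀ l, 0 ≤ ψ' l ∧ ψ' l ≤ 1) →
  ZT φ ψ A B ^ lam * ZT φ' ψ' A B ^ (1 - lam) ≤
    ZT (fun l => lam * φ l + (1 - lam) * φ' l) (fun l => lam * ψ l + (1 - lam) * ψ' l) A B

/-- `- ∂ log ZZ / ∂ φ_l` at the arithmetic progression. -/
noncomputable def dA (g : ℝ) (A B : Finset ℕ) (l : ℕ) : ℝ :=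
  (∫ x in (0 : ℝ)..(g * l), ∫ y in (g * l)..1, KK g (A.erase l) B x y) / ZZ g A B

/-- `∂ log ZZ / ∂ ψ_l`. -/
noncomputable def dB (g : ℝ) (A B : Finset ℕ) (l : ℕ) : ℝ := dA g B A l

/-- Gradient inequality. By `S_LC` `log ZT(θ) - log ZZ ≤ (log ZT(θ* + λ (θ - θ*)) - log ZZ)/λ` for
`0 < λ < 1`; and `ZT(θ* + λ h) ≤ ZZ - λ (∑_A h_l ZZ dA_l - ∑_B h_l ZZ dB_l) + C λ²` (each factor
`(y - max x (g l + λ h))⁺` is `(y - max x (g l))⁺ - λ h 1_(x < g l < y)` up to `λ` on a set of measure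
`O(λ)`; the constant `C` may depend on everything except `λ`). Let `λ → 0`. -/
def S_GRAD : Prop := ∀ (g : ℝ) (L : ℕ) (A B : Finset ℕ) (φ ψ : ℕ → ℝ), 0 < g → 100 ≤ L →
  g * L ^ 8 ≤ 1 → Sub1 L A → Sub1 L B → 30 ≤ A.card + B.card →
  (∀ l, 0 ≤ φ l ∧ φ l ≤ 1) → (∀ l, 0 ≤ ψ l ∧ ψ l ≤ 1) → 0 < ZT φ ψ A B →
  Real.log (ZT φ ψ A B) ≤ Real.log (ZZ g A B) - ∑ l ∈ A, dA g A B l * (φ l - g * l) +
    ∑ l ∈ B, dB g A B l * (ψ l - (1 - g * l))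

/-- Bounds for `dA`. Lower bound: `KK ≥ 1/20` for `x ≤ g l`, `1 - 1/M ≤ y ≤ 1 - g L`, and `ZZ ≤ 1`.
Upper bound: `KK ≤ 1` and `ZZ ≥ 1/L^3` (`S_ZB`). -/
def S_DBD : Prop := ∀ (g : ℝ) (L : ℕ) (A B : Finset ℕ) (l : ℕ), 0 < g → 100 ≤ L →
  g * L ^ 8 ≤ 1 → Sub1 L A → Sub1 L B → 31 ≤ A.card + B.card → l ∈ A →
  g / (L : ℝ) ^ 2 ≤ dA g A B l ∧ dA g A B l ≤ g * (L : ℝ) ^ 4

/-- The chain part. With `U_l = g ∑_(l ≤ i ≤ L) D_i`, `r_l = (φ_(l+1) - φ_l)/g - 1` one has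
`∑_l D_l (φ_l - g l) = ∑_(l < L) U_(l+1) r_l` (Abel), `u log (1+r) - U r ≤ 1 - u (r - log (1 + r))` for
`u = ⌊U⌋`, `r > -1`, and `r - log (1+r) ≥ min(r², 1)/6`. If `|φ_l - g l| > δ` for some `l ≤ L`, then
`|r_i| ≥ δ/(g L)` for some `i`. -/
def S_CHAIN : Prop := ∀ (L : ℕ) (g δ : ℝ) (D φ : ℕ → ℝ), 1 ≤ L → 0 < g → 0 < δ → (∀ l, 0 ≤ D l) →
  φ 0 = 0 → (∀ l < L, φ l < φ (l + 1)) →
  (∑ l ∈ range L, (⌊g * ∑ i ∈ Icc (l + 1) L, D i⌋₊ : ℝ) * Real.log ((φ (l + 1) - φ l) / g) -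
      ∑ l ∈ Icc 1 L, D l * (φ l - g * l) ≤ L) ∧
  ((∃ l, 1 ≤ l ∧ l ≤ L ∧ δ < |φ l - g * l|) →
    ∑ l ∈ range L, (⌊g * ∑ i ∈ Icc (l + 1) L, D i⌋₊ : ℝ) * Real.log ((φ (l + 1) - φ l) / g) -
      ∑ l ∈ Icc 1 L, D l * (φ l - g * l) ≤
        L - (g * D L - 1) * min ((δ / (g * L)) ^ 2) 1 / 6)

/-- Perturbation of the frontiers. Each factor of `KT` changes by at most `δ`, so `KT` changes by at
most `2 L δ`; windows change by at most `δ`; `WW` is bilinear. -/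
def S_PERT : Prop := ∀ (g δ : ℝ) (L : ℕ) (φ ψ : ℕ → ℝ) (A B A' B' : Finset ℕ), 0 < g → 100 ≤ L →
  g * L ^ 8 ≤ 1 → 0 ≤ δ → δ ≤ g → Sub1 L A → Sub1 L B → Sub1 L A' → Sub1 L B' →
  (∀ l, 0 ≤ φ l ∧ φ l ≤ 1) → (∀ l, 0 ≤ ψ l ∧ ψ l ≤ 1) →
  (∀ l, 1 ≤ l → l ≤ L → |φ l - g * l| ≤ δ ∧ |ψ l - (1 - g * l)| ≤ δ) →
  (∀ x y, 0 ≤ x → x ≤ y → y ≤ 1 → |KT φ ψ A B x y - KK g A B x y| ≤ 2 * L * δ) ∧
  |ZT φ ψ A B - ZZ g A B| ≤ 2 * L * δ ∧
  (∀ (e : Gd A B) (e' : Gd A' B'),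
    |WW (dens φ ψ A B (roleOf e)) (dens φ ψ A' B' (roleOf e')) -
      WW (dens (fun l => g * l) (fun l => 1 - g * l) A B (roleOf e))
        (dens (fun l => g * l) (fun l => 1 - g * l) A' B' (roleOf e'))| ≤ 20 * L * δ) ∧
  (∀ s s' : {l : ℕ // l ∈ A} ⊕ {l : ℕ // l ∈ B}, s ≠ s' →
    |same φ ψ A B (roleOf (.inr s : Gd A B)) (roleOf (.inr s' : Gd A B)) -
      same (fun l => g * l) (fun l => 1 - g * l) A B (roleOf (.inr s : Gd A B))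
        (roleOf (.inr s' : Gd A B))| ≤ 20 * L * δ) ∧
  (∫ x in (0 : ℝ)..(φ L), hXT φ ψ A B x) ≤ (∫ x in (0 : ℝ)..(2 * g * L), hx g A B x) + 20 * L * δ ∧
  (∫ y in (ψ L)..1, hYT φ ψ A B y) ≤ (∫ y in (1 - 2 * g * L)..1, hy g A B y) + 20 * L * δ

/-- Concentration of the frontiers. `us l = ⌊g ∑_(l+1 ≤ i ≤ L) D_i⌋`, `D_i = ∑_(t : i ∈ A t) dA g (A t) (B t) i`,
`vs` similarly with `dB`, `B t`. For `θ ∈ OmS L` `S_GRAD` and `S_CHAIN` (for `φ` and for `1 - ψ`) give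
`log (W(θ)/W(θ*)) ≤ 2 L - K`, where `K = (g · N g/L² - 1) min((δ/(g L))², 1)/6 ≥ N^(1/2)/(20 L⁴)` if `θ`
is bad, `δ = N^(-1/4)`. For `|θ - θ*| ≤ N^(-2)` (sup norm) `W(θ) ≥ W(θ*)/8` (`us, vs ≤ N`,
`S_PERT`, `S_ZB`). So `∫_bad W ≤ W(θ*) exp (2 L - K)` and `∫ W ≥ W(θ*) N^(-4 L)/8`. -/
def S_CONC : Prop := ∀ (g : ℝ) (L m N : ℕ) (A B : ℕ → Finset ℕ), 0 < g → 100 ≤ L →
  g * (L : ℝ) ^ 100 ≤ 1 → 20 ≤ m → ((L : ℝ) / g) ^ 40 ≤ N →
  (∀ t < N, (A t).card = m ∧ (B t).card = m ∧ Sub1 L (A t) ∧ Sub1 L (B t) ∧ L ∈ A t ∧ L ∈ B t) →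
  ∃ us vs : ℕ → ℕ,
    0 < ∫ θ in OmS L, wt us vs θ * ∏ k : Fin N, ZT (phi θ) (psi θ) (A k) (B k) ∧
    (∫ θ in OmS L ∩ {θ | ∃ l, 1 ≤ l ∧ l ≤ L ∧ ((N : ℝ) ^ (-(1 / 4) : ℝ) < |phi θ l - g * l| ∨
        (N : ℝ) ^ (-(1 / 4) : ℝ) < |psi θ l - (1 - g * l)|)},
      wt us vs θ * ∏ k : Fin N, ZT (phi θ) (psi θ) (A k) (B k)) ≤
    1 / N * ∫ θ in OmS L, wt us vs θ * ∏ k : Fin N, ZT (phi θ) (psi θ) (A k) (B k)

/-- The poset of the code. From `S_P1`, `S_OPVS`, `S_VD`, `S_CONC`, `S_PERT`, `S_MASS`, `S_ZB`,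
`S_T6`: if all pairs are unbalanced by `η` in the ideal model then `El` has balance constant at most
`1/2 - η/4`. Pairs of elements of different gadgets: `prob a b - prob b a` is the mean (weight `W`) of
`R(θ) = WW(dens, dens')/(Z_s Z_t)`, `|R| ≤ 1`, `|R(θ) - R(θ*)| ≤ L^12 δ` for good `θ`,
`|R(θ*)| ≥ η`. The same for two satellites of one gadget. Chain against gadget: a bottom element is
below the frontier `φ_L`, so `prob(e < b) ≤ prob(x_t < φ_L) ≤ 1/8`, for `e ≠ y_t`, and it is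
below `y_t` (since `L ∈ A t`); dually for the top chain. Other pairs are comparable. -/
def S_BAL : Prop := ∀ (g η : ℝ) (L m N : ℕ) (A B : ℕ → Finset ℕ), 0 < g → 100 ≤ L →
  g * (L : ℝ) ^ 100 ≤ 1 → 20 ≤ m → ((L : ℝ) / g) ^ 40 ≤ N → 0 < η → η ≤ 1 / 4 →
  (L : ℝ) ^ 20 * (N : ℝ) ^ (-(1 / 4) : ℝ) ≤ η →
  (∀ t < N, (A t).card = m ∧ (B t).card = m ∧ Sub1 L (A t) ∧ Sub1 L (B t) ∧ L ∈ A t ∧ L ∈ B t) →
  (∀ s t, s < N → t < N → s ≠ t → ∀ r r' : Role, Valid (A s) (B s) r → Valid (A t) (B t) r' →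
    η ≤ |WW (dens (fun l => g * l) (fun l => 1 - g * l) (A s) (B s) r)
      (dens (fun l => g * l) (fun l => 1 - g * l) (A t) (B t) r')|) →
  (∀ t, t < N → ∀ r r' : Role, Valid (A t) (B t) r → Valid (A t) (B t) r' → r ≠ r' →
    r ≠ .lo → r ≠ .hi → r' ≠ .lo → r' ≠ .hi →
    η ≤ |same (fun l => g * l) (fun l => 1 - g * l) (A t) (B t) r r'|) →
  ∃ (P : Type) (_ : Fintype P) (_ : PartialOrder P),
    Pool.Agent.H931R3.Bal.HasWidth P (2 * m * N) ∧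
    Pool.Agent.H13R3.WB.balance P ≤ 1 / 2 - η / 4

/-- Infimum of the balance constants of the finite posets of width `w`. -/
noncomputable def dAll (w : ℕ) : ℝ :=
  sInf {d : ℝ | ∃ (P : Type) (_ : Fintype P) (_ : PartialOrder P),
    Pool.Agent.H931R3.Bal.HasWidth P w ∧ Pool.Agent.H13R3.WB.balance P = d}

/-- The main theorem, from `S_IDEAL` and `S_BAL`. For large `w` take the least `J` with
`2 m_J 2^J ≥ w` (`m_J`, `L_J` from `S_IDEAL`), `N = ⌈w / (2 m_J)⌉ ≤ 2^J`, `g = L^(-100)`,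
`η = g^6/L^12`; `N ≥ 2^(J-1)/L_J` since `w > 2 m_(J-1) 2^(J-1)`; `v = 2 m N`. -/
def S_MAIN : Prop := ∃ C w₀ : ℕ, ∀ w : ℕ, w₀ ≤ w → ∃ v : ℕ, w ≤ v ∧ (v : ℝ) ≤ w + Real.log w ^ C ∧
  dAll v ≤ 1 / 2 - 1 / Real.log v ^ C

end Pool.Agent.H34.RK
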