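import Pool.Agent.H34.RK.Stm3

/-!
# Project RK, part 4: exact widths and the final theorem

The poset `El2`: `El` together with `r` extra pairs `e_j < d_j`, `j < r`, where `e_j` is above the
bottom frontier `φ_(j+1)`. This gives all large widths.
-/

set_option autoImplicit false

open Finset MeasureTheory

namespace Pool.Agent.H34.RK

/-- The elements: `El` and `r` pairs, `(j, false) < (j, true)`. -/
abbrev El2 (L N r : ℕ) (us vs : ℕ → ℕ) (A B : ℕ → Finset ℕ) : Type :=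
  El L N us vs A B ⊕ (Fin r × Bool)

/-- The frontiers of a labeling. -/
def frl {L N : ℕ} {us vs : ℕ → ℕ} {A B : ℕ → Finset ℕ} (f : El L N us vs A B → ℝ) :
    Fin L ⊕ Fin L → ℝ := fun i => f (.inr (.inl i))

/-- The order polytope. -/
def VS2 (L N r : ℕ) (us vs : ℕ → ℕ) (A B : ℕ → Finset ℕ) : Set (El2 L N r us vs A B → ℝ) :=
  {f | (fun a => f (.inl a)) ∈ VS L N us vs A B ∧
    ∀ j : Fin r, phi (frl fun a => f (.inl a)) (j + 1) < f (.inr (j, false)) ∧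
      f (.inr (j, false)) < f (.inr (j, true)) ∧ f (.inr (j, true)) < 1}

/-- The order. -/
@[reducible] def po2 (L N r : ℕ) (us vs : ℕ → ℕ) (A B : ℕ → Finset ℕ)
    (hne : (VS2 L N r us vs A B).Nonempty) : PartialOrder (El2 L N r us vs A B) where
  le a b := a = b ∨ ∀ f ∈ VS2 L N r us vs A B, f a < f b
  lt a b := (a = b ∨ ∀ f ∈ VS2 L N r us vs A B, f a < f b) ∧
    ¬ (b = a ∨ ∀ f ∈ VS2 L N r us vs A B, f b < f a)
  lt_iff_le_not_ge _ _ := Iff.rfl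
  le_refl a := Or.inl rfl
  le_trans a b c hab hbc := by
    rcases hab with rfl | hab
    · exact hbc
    · rcases hbc with rfl | hbc
      · exact Or.inr hab
      · exact Or.inr fun f hf => (hab f hf).trans (hbc f hf)
  le_antisymm a b hab hba := by
    rcases hab with rfl | hab
    · rfl
    · rcases hba with rfl | hba
      · rfl
      · obtain ⟨f, hf⟩ := hne
        exact absurd ((hab f hf).trans (hba f hf)) (lt_irrefl _)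

/-- Analogue of `S_OPVS` (same proof; `e_j` arbitrary in `(1/3, 2/3)`, `d_j = 2/3`). -/
def S_OPVS2 : Prop := ∀ (L N r : ℕ) (us vs : ℕ → ℕ) (A B : ℕ → Finset ℕ), 1 ≤ L → r ≤ L →
  (∀ t < N, Sub1 L (A t) ∧ Sub1 L (B t)) →
  (∀ (z : (Σ t : Fin N, {l : ℕ // l ∈ A t} ⊕ {l : ℕ // l ∈ B t}) → ℝ) (e : Fin r → ℝ),
    (∀ s, 1 / 3 < z s ∧ z s < 2 / 3) → (∀ j, 1 / 3 < e j ∧ e j < 2 / 3) →
    ∃ f ∈ VS2 L N r us vs A B, (∀ s, f (.inl (.inr (.inr ⟨s.1, .inr s.2⟩))) = z s) ∧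
      ∀ j, f (.inr (j, false)) = e j) ∧
  ∀ hne : (VS2 L N r us vs A B).Nonempty,
    @OP (El2 L N r us vs A B) (po2 L N r us vs A B hne) = VS2 L N r us vs A B

/-- The width is `2 m N + r` (see `S_WID`; the additional chains are `e_j < d_j`). -/
def S_WID2 : Prop := ∀ (L N r m : ℕ) (us vs : ℕ → ℕ) (A B : ℕ → Finset ℕ), 1 ≤ L → 1 ≤ N → 1 ≤ m →
  r ≤ L →
  (∀ t < N, Sub1 L (A t) ∧ Sub1 L (B t) ∧ (A t).card = m ∧ (B t).card = m ∧ L ∈ A t ∧ L ∈ B t) →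
  ∀ hne : (VS2 L N r us vs A B).Nonempty,
    @Pool.Agent.H931R3.Bal.HasWidth (El2 L N r us vs A B) (po2 L N r us vs A B hne) (2 * m * N + r)

/-- Volume of the extra pairs. -/
noncomputable def ex {L : ℕ} (S : Finset ℕ) (θ : Fin L ⊕ Fin L → ℝ) : ℝ :=
  ∏ j ∈ S, (1 - phi θ (j + 1)) ^ 2 / 2

/-- Integrating out extra pairs (Tonelli on a sum type and on a product over `Fin r`). -/
def S_X : Prop := ∀ (L N r : ℕ) (us vs : ℕ → ℕ) (A B : ℕ → Finset ℕ), 1 ≤ L → r ≤ L →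
  (∀ F : (El L N us vs A B → ℝ) → ENNReal, Measurable F →
    ∫⁻ f in VS2 L N r us vs A B, F (fun a => f (.inl a)) =
      ∫⁻ f in VS L N us vs A B, ENNReal.ofReal (ex (range r) (frl f)) * F f) ∧
  (∀ (j : Fin r) (F : (El L N us vs A B → ℝ) × (ℝ × ℝ) → ENNReal), Measurable F →
    ∫⁻ f in VS2 L N r us vs A B, F (fun a => f (.inl a), (f (.inr (j, false)), f (.inr (j, true)))) =
      ∫⁻ f in VS L N us vs A B, ENNReal.ofReal (ex ((range r).erase j) (frl f)) *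
        ∫⁻ e in Set.Ioo (phi (frl f) (j + 1)) 1, ∫⁻ d in Set.Ioo e 1, F (f, (e, d))) ∧
  (∀ (i j : Fin r) (F : (El L N us vs A B → ℝ) × ((ℝ × ℝ) × (ℝ × ℝ)) → ENNReal), i ≠ j →
    Measurable F →
    ∫⁻ f in VS2 L N r us vs A B, F (fun a => f (.inl a),
        ((f (.inr (i, false)), f (.inr (i, true))), (f (.inr (j, false)), f (.inr (j, true))))) =
      ∫⁻ f in VS L N us vs A B, ENNReal.ofReal (ex (((range r).erase i).erase j) (frl f)) *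
        ∫⁻ e in Set.Ioo (phi (frl f) (i + 1)) 1, ∫⁻ d in Set.Ioo e 1,
        ∫⁻ e' in Set.Ioo (phi (frl f) (j + 1)) 1, ∫⁻ d' in Set.Ioo e' 1, F (f, ((e, d), (e', d'))))

/-- `S_VD` with a weight `E θ` (same proof, using `S_FUB` with `F` containing `E`); the last part is the
law of one element of a gadget. -/
def S_VDE : Prop := ∀ (L N : ℕ) (us vs : ℕ → ℕ) (A B : ℕ → Finset ℕ) (E : (Fin L ⊕ Fin L → ℝ) → ℝ),
  1 ≤ L → (∀ t < N, Sub1 L (A t) ∧ Sub1 L (B t)) → Measurable E → (∀ θ, 0 ≤ E θ ∧ E θ ≤ 1) →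
  (∫⁻ f in VS L N us vs A B, ENNReal.ofReal (E (frl f))).toReal = ∫ θ in OmS L, E θ * (wt us vs θ *
    ∏ k : Fin N, ZT (phi θ) (psi θ) (A k) (B k)) ∧
  (∀ (s t : Fin N) (e : Gd (A s) (B s)) (e' : Gd (A t) (B t)), s ≠ t →
    (∫⁻ f in {f ∈ VS L N us vs A B | f (.inr (.inr ⟨s, e⟩)) < f (.inr (.inr ⟨t, e'⟩))},
        ENNReal.ofReal (E (frl f))).toReal -
      (∫⁻ f in {f ∈ VS L N us vs A B | f (.inr (.inr ⟨t, e'⟩)) < f (.inr (.inr ⟨s, e⟩))},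
        ENNReal.ofReal (E (frl f))).toReal =
    ∫ θ in OmS L, E θ * (wt us vs θ *
      (∏ k ∈ (univ.erase s).erase t, ZT (phi θ) (psi θ) (A k) (B k)) *
      WW (dens (phi θ) (psi θ) (A s) (B s) (roleOf e))
        (dens (phi θ) (psi θ) (A t) (B t) (roleOf e')))) ∧
  (∀ (t : Fin N) (s s' : {l : ℕ // l ∈ A t} ⊕ {l : ℕ // l ∈ B t}), s ≠ s' →
    (∫⁻ f in {f ∈ VS L N us vs A B | f (.inr (.inr ⟨t, .inr s⟩)) < f (.inr (.inr ⟨t, .inr s'⟩))},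
        ENNReal.ofReal (E (frl f))).toReal -
      (∫⁻ f in {f ∈ VS L N us vs A B | f (.inr (.inr ⟨t, .inr s'⟩)) < f (.inr (.inr ⟨t, .inr s⟩))},
        ENNReal.ofReal (E (frl f))).toReal =
    ∫ θ in OmS L, E θ * (wt us vs θ * (∏ k ∈ univ.erase t, ZT (phi θ) (psi θ) (A k) (B k)) *
      same (phi θ) (psi θ) (A t) (B t) (roleOf (.inr s : Gd (A t) (B t)))
        (roleOf (.inr s' : Gd (A t) (B t))))) ∧
  (∀ (t : Fin N) (e : Gd (A t) (B t)) (G : (Fin L ⊕ Fin L → ℝ) × ℝ → ℝ), Measurable G →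
    (∀ x, 0 ≤ G x ∧ G x ≤ 1) →
    (∫⁻ f in VS L N us vs A B, ENNReal.ofReal (G (frl f, f (.inr (.inr ⟨t, e⟩))))).toReal =
    ∫ θ in OmS L, wt us vs θ * (∏ k ∈ univ.erase t, ZT (phi θ) (psi θ) (A k) (B k)) *
      ∫ z in (0 : ℝ)..1, G (θ, z) * dens (phi θ) (psi θ) (A t) (B t) (roleOf e) z)

/-- Laws of the extra pairs for a frontier `a`: `e` has density `2 (1 - z)/(1 - a)²` on `[a, 1]`, `d`
has density `2 (z - a)/(1 - a)²`. Elementary integrals. For two pairs with frontiers `a < a'`: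
`P(e' < e) = ((1-a')/(1-a))²/2 ≤ 1/2 - (a' - a)/3`, `P(d' < d) ≤ 1/2 - (a' - a)/3`,
`P(d < e') ≤ 1/4` and `P(d' < e) ≤ 1/4` if `a' ≤ 1/100`. (Stated without normalisation.) -/
def S_PAIR : Prop := ∀ a a' : ℝ, 0 ≤ a → a < a' → a' ≤ 1 / 100 →
  (∫⁻ e in Set.Ioo a 1, ∫⁻ _d in Set.Ioo e 1, ∫⁻ e' in Set.Ioo a' 1, ∫⁻ _d' in Set.Ioo e' 1,
    (if e' < e then (1 : ENNReal) else 0)) ≤
      ENNReal.ofReal ((1 / 2 - (a' - a) / 3) * ((1 - a) ^ 2 / 2 * ((1 - a') ^ 2 / 2))) ∧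
  (∫⁻ e in Set.Ioo a 1, ∫⁻ d in Set.Ioo e 1, ∫⁻ e' in Set.Ioo a' 1, ∫⁻ d' in Set.Ioo e' 1,
    (if d' < d then (1 : ENNReal) else 0)) ≤
      ENNReal.ofReal ((1 / 2 - (a' - a) / 3) * ((1 - a) ^ 2 / 2 * ((1 - a') ^ 2 / 2))) ∧
  (∫⁻ e in Set.Ioo a 1, ∫⁻ d in Set.Ioo e 1, ∫⁻ e' in Set.Ioo a' 1, ∫⁻ _d' in Set.Ioo e' 1,
    (if d < e' then (1 : ENNReal) else 0)) ≤
      ENNReal.ofReal (1 / 4 * ((1 - a) ^ 2 / 2 * ((1 - a') ^ 2 / 2))) ∧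
  (∫⁻ e in Set.Ioo a 1, ∫⁻ _d in Set.Ioo e 1, ∫⁻ e' in Set.Ioo a' 1, ∫⁻ d' in Set.Ioo e' 1,
    (if d' < e then (1 : ENNReal) else 0)) ≤
      ENNReal.ofReal (1 / 4 * ((1 - a) ^ 2 / 2 * ((1 - a') ^ 2 / 2)))

/-- Extra pairs against elements of a gadget in the ideal model (frontiers in arithmetic progression,
pair with frontier `0 ≤ a ≤ 1/100`). With `w z = ((1 - z)/(1 - a))² ∧ 1` = `P(e > z)` and
`w' z = ((z - a)⁺/(1 - a))²` = `P(d < z)`: lower centre `P(e < x) ≤ 0.4`, upper centre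
`P(d > y) ≤ 0.4`, satellites `P(e > z) ≤ 0.4`, `P(d < z) ≤ 0.4`. Proof: the lower centre is below `1/8`
with probability `≥ 0.99` (density `≤ (1-x)^(M+1)/(M+1)`, mass `≥ 0.99/((M+1)(M+2))`, `M ≥ 40`), and
`P(e < 1/8) ≤ 0.26`; satellites have density at most `1.1` times the total mass, and
`∫ (1 - z)² = 1/3`. -/
def S_PG : Prop := ∀ (g a : ℝ) (L : ℕ) (A B : Finset ℕ), 0 < g → 100 ≤ L → g * L ^ 8 ≤ 1 →
  Sub1 L A → Sub1 L B → 40 ≤ A.card + B.card → 0 ≤ a → a ≤ 1 / 100 →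
  (∫ x in (0 : ℝ)..1, (1 - min (((1 - x) / (1 - a)) ^ 2) 1) * hx g A B x) ≤ 2 / 5 * ZZ g A B ∧
  (∫ y in (0 : ℝ)..1, (1 - (max (y - a) 0 / (1 - a)) ^ 2) * hy g A B y) ≤ 2 / 5 * ZZ g A B ∧
  ∀ e : {l : ℕ // l ∈ A} ⊕ {l : ℕ // l ∈ B},
    (∫ z in (0 : ℝ)..1, min (((1 - z) / (1 - a)) ^ 2) 1 *
      dens (fun l => g * l) (fun l => 1 - g * l) A B (roleOf (.inr e : Gd A B)) z) ≤
        2 / 5 * ZZ g A B ∧
    (∫ z in (0 : ℝ)..1, (max (z - a) 0 / (1 - a)) ^ 2 *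
      dens (fun l => g * l) (fun l => 1 - g * l) A B (roleOf (.inr e : Gd A B)) z) ≤
        2 / 5 * ZZ g A B

/-- Balance of the poset with extra pairs. See `S_BAL`. The mean is now with respect to the weight
`W(θ) ex (range r) θ`; `ex ≤ 2^(-r)` always and `ex ≥ 0.99 · 2^(-r)` on the good set (`φ_l ≤ 2 g L`), so
the bad set still has weight at most `2/N` (`S_CONC`). Gadget against gadget and chain against gadget
as in `S_BAL`, with `S_VDE` (`E = 2^r ex`). Chain against pair: a bottom element `b` has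
`f b ≤ φ_L`, and `P(e_j < φ_L) ≤ 1/8` since `φ_L ≤ 2 g L`; a top element has `f T ≥ ψ_L`, and
`P(d_j > ψ_L) ≤ 1/8`. Pair against gadget: `S_PG`, `S_PERT`, `S_X` (second part), last part of `S_VDE`
(`G` = `2^r ex ((range r).erase j) · (volume of the pair, restricted)`); `e_j < x` or `d_j < x` both imply
`e_j < x`; `y < e_j` or `y < d_j` both imply `y < d_j`. Pair against pair: `S_PAIR`, third part of `S_X`,
`φ_(j+1) - φ_(i+1) ≥ g/2` for `i < j` on the good set. -/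
def S_BAL2 : Prop := ∀ (g η : ℝ) (L m N r : ℕ) (A B : ℕ → Finset ℕ), 0 < g → 100 ≤ L →
  g * (L : ℝ) ^ 100 ≤ 1 → 25 ≤ m → ((L : ℝ) / g) ^ 40 ≤ N → 0 < η → η ≤ 1 / 100 → 8 * η ≤ g →
  r ≤ L → (L : ℝ) ^ 20 * (N : ℝ) ^ (-(1 / 4) : ℝ) ≤ η →
  (∀ t < N, (A t).card = m ∧ (B t).card = m ∧ Sub1 L (A t) ∧ Sub1 L (B t) ∧ L ∈ A t ∧ L ∈ B t) →
  (∀ s t, s < N → t < N → s ≠ t → ∀ r r' : Role, Valid (A s) (B s) r → Valid (A t) (B t) r' →
    η ≤ |WW (dens (fun l => g * l) (fun l => 1 - g * l) (A s) (B s) r)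
      (dens (fun l => g * l) (fun l => 1 - g * l) (A t) (B t) r')|) →
  (∀ t, t < N → ∀ r r' : Role, Valid (A t) (B t) r → Valid (A t) (B t) r' → r ≠ r' →
    r ≠ .lo → r ≠ .hi → r' ≠ .lo → r' ≠ .hi →
    η ≤ |same (fun l => g * l) (fun l => 1 - g * l) (A t) (B t) r r'|) →
  ∃ (P : Type) (_ : Fintype P) (_ : PartialOrder P),
    Pool.Agent.H931R3.Bal.HasWidth P (2 * m * N + r) ∧
    Pool.Agent.H13R3.WB.balance P ≤ 1 / 2 - η / 8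

/-- `S_IDEAL` with the additional information `25 ≤ m`, `2 m ≤ L + 1` (true for the construction:
`m = B 3^39 + 1`, `L = B 3^40 + 1`). -/
def S_IDEAL2 : Prop := ∀ J : ℕ, 2 ≤ J → ∃ (L m : ℕ) (A B : ℕ → Finset ℕ),
  L ≤ 200 * J ^ 5 * 3 ^ 40 + 1 ∧ 100 ≤ L ∧ 25 ≤ m ∧ 2 * m ≤ L + 1 ∧
  (∀ t, t < 2 ^ J → (A t).card = m ∧ (B t).card = m ∧ Sub1 L (A t) ∧ Sub1 L (B t) ∧
    L ∈ A t ∧ L ∈ B t) ∧
  ∀ g : ℝ, 0 < g → g * (L : ℝ) ^ 100 ≤ 1 →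
    (∀ s t, s < 2 ^ J → t < 2 ^ J → s ≠ t → ∀ r r' : Role, Valid (A s) (B s) r →
      Valid (A t) (B t) r' →
      g ^ 6 / (L : ℝ) ^ 12 ≤ |WW (dens (fun l => g * l) (fun l => 1 - g * l) (A s) (B s) r)
        (dens (fun l => g * l) (fun l => 1 - g * l) (A t) (B t) r')|) ∧
    (∀ t, t < 2 ^ J → ∀ r r' : Role, Valid (A t) (B t) r → Valid (A t) (B t) r' → r ≠ r' →
      r ≠ .lo → r ≠ .hi → r' ≠ .lo → r' ≠ .hi →
      g ^ 6 / (L : ℝ) ^ 12 ≤ |same (fun l => g * l) (fun l => 1 - g * l) (A t) (B t) r r'|)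

/-- All large widths. From `S_IDEAL2`, `S_BAL2`: for large `w` take the least `J` with
`2 m_J (2^J + 1) > w`... (so that `N := w / (2 m_J) ≤ 2^J`), `r := w % (2 m_J) ≤ L`,
`g = L^(-100)`, `η = g^6/L^12`. -/
def S_MAIN2 : Prop := ∃ C w₀ : ℕ, ∀ w : ℕ, w₀ ≤ w → ∃ (P : Type) (_ : Fintype P) (_ : PartialOrder P),
  Pool.Agent.H931R3.Bal.HasWidth P w ∧
  Pool.Agent.H13R3.WB.balance P ≤ 1 / 2 - 1 / Real.log w ^ C

/-- `δ w` is the infimum of the balance constants of the posets of width `w` (literally as in the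
problem). -/
def IsDel (δ : ℕ → ℝ) : Prop :=
  ∀ w : ℕ, δ w = sInf {d : ℝ | ∃ (n : ℕ) (r : Fin n → Fin n → Prop),
    (∀ a, r a a) ∧ (∀ a b c, r a b → r b c → r a c) ∧
    (∀ a b, r a b → r b a → a = b) ∧
    (∃ s : Finset (Fin n), s.card = w ∧ ∀ a ∈ s, ∀ b ∈ s, a ≠ b → ¬ r a b) ∧
    (∀ s : Finset (Fin n), (∀ a ∈ s, ∀ b ∈ s, a ≠ b → ¬ r a b) → s.card ≤ w) ∧
    d = sSup {t : ℝ | ∃ x y : Fin n, ¬ r x y ∧ ¬ r y x ∧
      t = min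
        ((Nat.card {σ : Equiv.Perm (Fin n) //
            (∀ a b, r a b → σ a ≤ σ b) ∧ σ x < σ y} : ℝ) /
          (Nat.card {σ : Equiv.Perm (Fin n) // ∀ a b, r a b → σ a ≤ σ b} : ℝ))
        ((Nat.card {σ : Equiv.Perm (Fin n) //
            (∀ a b, r a b → σ a ≤ σ b) ∧ σ y < σ x} : ℝ) /
          (Nat.card {σ : Equiv.Perm (Fin n) // ∀ a b, r a b → σ a ≤ σ b} : ℝ))}}

/-- Transfer to relations on `Fin n` (`P ≃ Fin n`; the balance constant of the relation is at most that of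
`P`; all elements of the sets are nonnegative, so `csInf_le` applies). -/
def S_TRANS : Prop := ∀ (δ : ℕ → ℝ), IsDel δ →
  ∀ (P : Type) (_ : Fintype P) (_ : PartialOrder P) (w : ℕ) (b : ℝ),
    Pool.Agent.H931R3.Bal.HasWidth P w → Pool.Agent.H13R3.WB.balance P ≤ b → δ w ≤ b

/-- Known lower bound (library). -/
def S_RATE : Prop := ∃ B : ℝ, 1 ≤ B ∧ ∀ δ : ℕ → ℝ, IsDel δ → ∀ (ε : ℝ) (w : ℕ), 0 < ε → ε ≤ 1 / 2 →
    Real.exp (B * Real.log (2 / ε) / ε) ≤ w → 1 / 2 - ε ≤ δ w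

/-- Known upper bound (library). -/
def S_DLE : Prop := ∀ δ : ℕ → ℝ, IsDel δ → ∀ w : ℕ, 1 ≤ w → δ w ≤ 1 / 2 - 1 / (12 * (w : ℝ) - 8)

/-- The final theorem, from `S_MAIN2`, `S_TRANS`, `S_RATE` (with `ε = 1/(2 (log w)^C)`) and `S_DLE` (for
the finitely many small `w`, enlarging `C`; `log 3 > 1`). Third part from the second. -/
def S_FIN : Prop := ∃ C : ℕ, ∀ δ : ℕ → ℝ, IsDel δ →
  (∀ w : ℕ, 3 ≤ w → δ w ≤ 1 / 2 - 1 / Real.log w ^ C) ∧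
  (∀ w v : ℕ, 3 ≤ w → Real.exp (Real.log w ^ C) ≤ v → δ w < δ v) ∧
  (∀ w : ℕ, 3 ≤ w → ∃ u : ℕ, w ≤ u ∧ (u : ℝ) ≤ Real.exp (Real.log w ^ C) ∧ δ u < δ (u + 1))

end Pool.Agent.H34.RK
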