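import Pool.Agent.H34.RK.Stm2

/-!
# Project RK: tools for `S_T5` and `S_T6` (helper82)
-/

set_option autoImplicit false

open Finset MeasureTheory

namespace Pool.Agent.H34.RK

namespace TA

lemma ii_of_bdd {f : ℝ → ℝ} (hf : Measurable f) {C : ℝ} (hC : ∀ x, |f x| ≤ C) (a b : ℝ) :
    IntervalIntegrable f volume a b :=
  (intervalIntegrable_const (c := C)).mono_fun' hf.aestronglyMeasurable
    (Filter.Eventually.of_forall fun x => hC x)

/-- the cut off function -/
noncomputable def cut (h : ℝ → ℝ) (z : ℝ) : ℝ := if 0 ≤ z ∧ z ≤ 1 then h z else 0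

lemma cut_eq {h : ℝ → ℝ} {z : ℝ} (h0 : 0 ≤ z) (h1 : z ≤ 1) : cut h z = h z := if_pos ⟨h0, h1⟩

lemma int_cut (h : ℝ → ℝ) (a b : ℝ) (ha : 0 ≤ a) (hab : a ≤ b) (hb : b ≤ 1) :
    ∫ z in a..b, cut h z = ∫ z in a..b, h z := by
  refine intervalIntegral.integral_congr fun z hz => ?_
  rw [Set.uIcc_of_le hab] at hz
  exact cut_eq (ha.trans hz.1) (hz.2.trans hb)

lemma ww_cut (h h' : ℝ → ℝ) : WW h h' = WW (cut h) (cut h') := by
  unfold WW
  refine intervalIntegral.integral_congr fun z hz => ?_
  rw [Set.uIcc_of_le zero_le_one] at hz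
  refine intervalIntegral.integral_congr fun z' hz' => ?_
  rw [Set.uIcc_of_le zero_le_one] at hz'
  show _ = Real.sign (z' - z) * cut h z * cut h' z'
  rw [cut_eq hz.1 hz.2, cut_eq hz'.1 hz'.2]

lemma int_le_ind (k : ℝ → ℝ) (hk : Measurable k) (hb : ∀ z, |k z| ≤ 1) (c : ℝ) (h0 : 0 ≤ c)
    (h1 : c ≤ 1) : ∫ z in (0 : ℝ)..1, (if z ≤ c then k z else 0) = ∫ z in (0 : ℝ)..c, k z := by
  have hm : Measurable fun z => if z ≤ c then k z else 0 :=
    Measurable.ite measurableSet_Iic hk measurable_const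
  have hb2 : ∀ z, |(if z ≤ c then k z else 0)| ≤ 1 := by
    intro z
    split_ifs
    · exact hb z
    · simp
  rw [← intervalIntegral.integral_add_adjacent_intervals (ii_of_bdd hm hb2 0 c)
    (ii_of_bdd hm hb2 c 1)]
  have e1 : ∫ z in (0 : ℝ)..c, (if z ≤ c then k z else 0) = ∫ z in (0 : ℝ)..c, k z := by
    refine intervalIntegral.integral_congr fun z hz => ?_
    rw [Set.uIcc_of_le h0] at hz
    exact if_pos hz.2
  have e2 : ∫ z in c..1, (if z ≤ c then k z else 0) = 0 := by
    rw [intervalIntegral.integral_of_le h1]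
    rw [setIntegral_congr_fun (g := fun _ => (0 : ℝ)) measurableSet_Ioc fun z hz =>
      if_neg (not_le.2 hz.1)]
    simp
  rw [e1, e2, add_zero]

lemma int_gt_ind (k : ℝ → ℝ) (hk : Measurable k) (hb : ∀ z, |k z| ≤ 1) (c : ℝ) (h0 : 0 ≤ c)
    (h1 : c ≤ 1) : ∫ z in (0 : ℝ)..1, (if c < z then k z else 0) = ∫ z in c..1, k z := by
  have e := int_le_ind k hk hb c h0 h1
  have e2 : ∫ z in (0 : ℝ)..1, (if c < z then k z else 0) =
      ∫ z in (0 : ℝ)..1, (k z - if z ≤ c then k z else 0) := by
    refine intervalIntegral.integral_congr fun z _ => ?_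
    by_cases h : z ≤ c
    · simp only [if_pos h, if_neg (not_lt.2 h), sub_self]
    · simp only [if_neg h, if_pos (not_le.1 h), sub_zero]
  have hm : Measurable fun z => if z ≤ c then k z else 0 :=
    Measurable.ite measurableSet_Iic hk measurable_const
  have hb2 : ∀ z, |(if z ≤ c then k z else 0)| ≤ 1 := by
    intro z
    split_ifs
    · exact hb z
    · simp
  rw [e2, intervalIntegral.integral_sub (ii_of_bdd hk hb 0 1) (ii_of_bdd hm hb2 0 1), e,
    ← intervalIntegral.integral_add_adjacent_intervals (ii_of_bdd hk hb 0 c) (ii_of_bdd hk hb c 1)]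
  ring

lemma sign_meas : Measurable Real.sign := by
  have : Real.sign = fun r : ℝ => if r < 0 then -1 else if 0 < r then 1 else 0 := by
    funext r; rfl
  rw [this]
  exact Measurable.ite measurableSet_Iio measurable_const
    (Measurable.ite measurableSet_Ioi measurable_const measurable_const)

lemma sign_abs (x : ℝ) : |Real.sign x| ≤ 1 := by
  rcases Real.sign_apply_eq x with h | h | h <;> rw [h] <;> simp

/-- the basic inequality -/
lemma ww_low (k k' : ℝ → ℝ) (hk : Measurable k) (hk' : Measurable k') (h0 : ∀ z, 0 ≤ k z)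
    (h1 : ∀ z, k z ≤ 1) (h0' : ∀ z, 0 ≤ k' z) (h1' : ∀ z, k' z ≤ 1) (c : ℝ) (hc0 : 0 ≤ c)
    (hc1 : c ≤ 1) :
    (∫ z in (0 : ℝ)..1, k z) * (∫ z in (0 : ℝ)..1, k' z) -
      2 * (∫ z in c..1, k z) * (∫ z in (0 : ℝ)..1, k' z) -
      2 * (∫ z in (0 : ℝ)..1, k z) * (∫ z in (0 : ℝ)..c, k' z) ≤ WW k k' := by
  have hb : ∀ z, |k z| ≤ 1 := fun z => by rw [abs_of_nonneg (h0 z)]; exact h1 z
  have hb' : ∀ z, |k' z| ≤ 1 := fun z => by rw [abs_of_nonneg (h0' z)]; exact h1' z
  have hm2 : Measurable fun z => if z ≤ c then k' z else 0 :=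
    Measurable.ite measurableSet_Iic hk' measurable_const
  have hb2 : ∀ z, |(if z ≤ c then k' z else 0)| ≤ 1 := by
    intro z
    split_ifs
    · exact hb' z
    · simp
  have hm3 : Measurable fun z => if c < z then k z else 0 :=
    Measurable.ite measurableSet_Ioi hk measurable_const
  have hb3 : ∀ z, |(if c < z then k z else 0)| ≤ 1 := by
    intro z
    split_ifs
    · exact hb z
    · simp
  -- the inner integral
  have inner : ∀ z, k z * (∫ z in (0 : ℝ)..1, k' z) -
      2 * (if c < z then k z else 0) * (∫ z in (0 : ℝ)..1, k' z) -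
      2 * k z * (∫ z in (0 : ℝ)..c, k' z) ≤
      ∫ z' in (0 : ℝ)..1, Real.sign (z' - z) * k z * k' z' := by
    intro z
    rw [← int_le_ind k' hk' hb' c hc0 hc1]
    have e : k z * (∫ z in (0 : ℝ)..1, k' z) -
        2 * (if c < z then k z else 0) * (∫ z in (0 : ℝ)..1, k' z) -
        2 * k z * (∫ z in (0 : ℝ)..1, if z ≤ c then k' z else 0) =
        ∫ z' in (0 : ℝ)..1, (k z * k' z' - 2 * (if c < z then k z else 0) * k' z' -
          2 * k z * (if z' ≤ c then k' z' else 0)) := by
      rw [intervalIntegral.integral_sub, intervalIntegral.integral_sub,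
        intervalIntegral.integral_const_mul, intervalIntegral.integral_const_mul,
        intervalIntegral.integral_const_mul]
      · exact (ii_of_bdd hk' hb' 0 1).const_mul _
      · exact (ii_of_bdd hk' hb' 0 1).const_mul _
      · exact ((ii_of_bdd hk' hb' 0 1).const_mul _).sub ((ii_of_bdd hk' hb' 0 1).const_mul _)
      · exact (ii_of_bdd hm2 hb2 0 1).const_mul _
    rw [e]
    refine intervalIntegral.integral_mono_on zero_le_one ?_ ?_ fun z' _ => ?_
    · exact (((ii_of_bdd hk' hb' 0 1).const_mul _).sub ((ii_of_bdd hk' hb' 0 1).const_mul _)).sub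
        ((ii_of_bdd hm2 hb2 0 1).const_mul _)
    · refine ii_of_bdd (C := 1) ?_ ?_ 0 1
      · exact ((sign_meas.comp (measurable_id.sub_const z)).mul_const _).mul hk'
      · intro z'
        rw [abs_mul, abs_mul]
        calc |Real.sign (z' - z)| * |k z| * |k' z'| ≤ 1 * 1 * 1 := by
              gcongr
              · exact sign_abs _
              · exact hb z
              · exact hb' z'
          _ = 1 := by norm_num
    · have p1 := h0 z
      have p2 := h0' z'
      have p3 : 0 ≤ k z * k' z' := mul_nonneg p1 p2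
      have p4 : -1 ≤ Real.sign (z' - z) := (abs_le.1 (sign_abs _)).1
      have p5 : -(k z * k' z') ≤ Real.sign (z' - z) * k z * k' z' := by
        have := mul_le_mul_of_nonneg_right p4 p3
        linarith
      by_cases q1 : c < z
      · rw [if_pos q1]
        by_cases q2 : z' ≤ c
        · rw [if_pos q2]; nlinarith
        · rw [if_neg q2]; nlinarith
      · rw [if_neg q1]
        by_cases q2 : z' ≤ c
        · rw [if_pos q2]; nlinarith
        · rw [if_neg q2]
          have : 0 < z' - z := by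
            have := not_lt.1 q1
            have := not_le.1 q2
            linarith
          rw [Real.sign_of_pos this]
          linarith
  have e : (∫ z in (0 : ℝ)..1, k z) * (∫ z in (0 : ℝ)..1, k' z) -
      2 * (∫ z in c..1, k z) * (∫ z in (0 : ℝ)..1, k' z) -
      2 * (∫ z in (0 : ℝ)..1, k z) * (∫ z in (0 : ℝ)..c, k' z) =
      ∫ z in (0 : ℝ)..1, (k z * (∫ z in (0 : ℝ)..1, k' z) -
      2 * (if c < z then k z else 0) * (∫ z in (0 : ℝ)..1, k' z) -
      2 * k z * (∫ z in (0 : ℝ)..c, k' z)) := by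
    rw [← int_gt_ind k hk hb c hc0 hc1]
    rw [intervalIntegral.integral_sub, intervalIntegral.integral_sub]
    · simp only [intervalIntegral.integral_mul_const, intervalIntegral.integral_const_mul]
    · exact (ii_of_bdd hk hb 0 1).mul_const _
    · exact ((ii_of_bdd hm3 hb3 0 1).const_mul _).mul_const _
    · exact ((ii_of_bdd hk hb 0 1).mul_const _).sub
        (((ii_of_bdd hm3 hb3 0 1).const_mul _).mul_const _)
    · exact ((ii_of_bdd hk hb 0 1).const_mul _).mul_const _
  rw [e]
  unfold WW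
  refine intervalIntegral.integral_mono_on zero_le_one ?_ ?_ fun z _ => inner z
  · exact (((ii_of_bdd hk hb 0 1).mul_const _).sub
        (((ii_of_bdd hm3 hb3 0 1).const_mul _).mul_const _)).sub
        (((ii_of_bdd hk hb 0 1).const_mul _).mul_const _)
  · have hF : Measurable fun p : ℝ × ℝ => Real.sign (p.2 - p.1) * k p.1 * k' p.2 :=
      ((sign_meas.comp (measurable_snd.sub measurable_fst)).mul (hk.comp measurable_fst)).mul
        (hk'.comp measurable_snd)
    have hG : Measurable fun z => ∫ z' in (0 : ℝ)..1, Real.sign (z' - z) * k z * k' z' := by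
      have := (StronglyMeasurable.integral_prod_right
        (ν := volume.restrict (Set.Ioc (0 : ℝ) 1))
        (f := fun z z' => Real.sign (z' - z) * k z * k' z') hF.stronglyMeasurable).measurable
      simp only [intervalIntegral.integral_of_le (zero_le_one : (0 : ℝ) ≤ 1)]
      exact this
    refine ii_of_bdd (C := 1) hG (fun z => ?_) 0 1
    have := intervalIntegral.norm_integral_le_of_norm_le_const (a := (0 : ℝ)) (b := 1) (C := 1)
      (f := fun z' => Real.sign (z' - z) * k z * k' z') fun z' _ => by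
        rw [Real.norm_eq_abs, abs_mul, abs_mul]
        calc |Real.sign (z' - z)| * |k z| * |k' z'| ≤ 1 * 1 * 1 := by
              gcongr
              · exact sign_abs _
              · exact hb z
              · exact hb' z'
          _ = 1 := by norm_num
    simpa using this

/-- the abstract lower bound -/
lemma ww_lower (h h' : ℝ → ℝ) (c ε ε' : ℝ) (hc0 : 0 ≤ c) (hc1 : c ≤ 1)
    (hm : Measurable (cut h)) (hm' : Measurable (cut h'))
    (hb : ∀ z, 0 ≤ z → z ≤ 1 → 0 ≤ h z ∧ h z ≤ 1)
    (hb' : ∀ z, 0 ≤ z → z ≤ 1 → 0 ≤ h' z ∧ h' z ≤ 1)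
    (e1 : ∫ z in c..1, h z ≤ ε * ∫ z in (0 : ℝ)..1, h z)
    (e2 : ∫ z in (0 : ℝ)..c, h' z ≤ ε' * ∫ z in (0 : ℝ)..1, h' z) :
    (1 - 2 * ε - 2 * ε') * ((∫ z in (0 : ℝ)..1, h z) * ∫ z in (0 : ℝ)..1, h' z) ≤ WW h h' := by
  have c0 : ∀ z, 0 ≤ cut h z := by
    intro z
    unfold cut
    split_ifs with q
    · exact (hb z q.1 q.2).1
    · exact le_refl _
  have c1 : ∀ z, cut h z ≤ 1 := by
    intro z
    unfold cut
    split_ifs with q
    · exact (hb z q.1 q.2).2
    · exact zero_le_one
  have c0' : ∀ z, 0 ≤ cut h' z := by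
    intro z
    unfold cut
    split_ifs with q
    · exact (hb' z q.1 q.2).1
    · exact le_refl _
  have c1' : ∀ z, cut h' z ≤ 1 := by
    intro z
    unfold cut
    split_ifs with q
    · exact (hb' z q.1 q.2).2
    · exact zero_le_one
  have := ww_low (cut h) (cut h') hm hm' c0 c1 c0' c1' c hc0 hc1
  rw [int_cut h 0 1 le_rfl zero_le_one le_rfl, int_cut h' 0 1 le_rfl zero_le_one le_rfl,
    int_cut h c 1 hc0 hc1 le_rfl, int_cut h' 0 c le_rfl hc0 hc1] at this
  rw [ww_cut]
  refine le_trans ?_ this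
  have p1 : 0 ≤ ∫ z in (0 : ℝ)..1, h z :=
    intervalIntegral.integral_nonneg zero_le_one fun z hz => (hb z hz.1 hz.2).1
  have p2 : 0 ≤ ∫ z in (0 : ℝ)..1, h' z :=
    intervalIntegral.integral_nonneg zero_le_one fun z hz => (hb' z hz.1 hz.2).1
  have q1 := mul_le_mul_of_nonneg_right e1 p2
  have q2 := mul_le_mul_of_nonneg_left e2 p1
  nlinarith

/-! ### explicit integrals -/

lemma int_pow_right (x a b : ℝ) (n : ℕ) :
    ∫ y in a..b, (y - x) ^ n = ((b - x) ^ (n + 1) - (a - x) ^ (n + 1)) / (n + 1) := by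
  rw [intervalIntegral.integral_comp_sub_right (fun y => y ^ n) x, integral_pow]

lemma int_pow_left (c a b : ℝ) (n : ℕ) :
    ∫ x in a..b, (c - x) ^ n = ((c - a) ^ (n + 1) - (c - b) ^ (n + 1)) / (n + 1) := by
  rw [intervalIntegral.integral_comp_sub_left (fun y => y ^ n) c, integral_pow]

end TA

end Pool.Agent.H34.RK
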