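import Pool.Agent.H34.RK.TA

/-!
# Project RK: bounds of the densities for `S_T5` and `S_T6` (helper82)
-/

set_option autoImplicit false

open Finset MeasureTheory

namespace Pool.Agent.H34.RK

namespace TA

section

variable {g : ℝ} {A B : Finset ℕ} {M : ℕ}

lemma kk_int (hK : Continuous fun xy : ℝ × ℝ => KK g A B xy.1 xy.2) (x a b : ℝ) :
    IntervalIntegrable (fun y => KK g A B x y) volume a b :=
  (hK.comp (continuous_const.prodMk continuous_id)).intervalIntegrable _ _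

/-- upper bound of a partial integral -/
lemma kk_le (hK : Continuous fun xy : ℝ × ℝ => KK g A B xy.1 xy.2)
    (hB : ∀ x y, 0 ≤ x → x ≤ y → y ≤ 1 → 0 ≤ KK g A B x y ∧ KK g A B x y ≤ (y - x) ^ M)
    (x z : ℝ) (hx0 : 0 ≤ x) (hxz : x ≤ z) (hz : z ≤ 1) :
    ∫ y in z..1, KK g A B x y ≤ (1 - x) ^ (M + 1) / (M + 1) := by
  have h1 : ∫ y in z..1, KK g A B x y ≤ ∫ y in z..1, (y - x) ^ M := by
    refine intervalIntegral.integral_mono_on hz (kk_int hK x _ _) ?_ fun y hy => ?_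
    · exact (Continuous.intervalIntegrable (by fun_prop) _ _)
    · exact (hB x y hx0 (hxz.trans hy.1) hy.2).2
  rw [int_pow_right] at h1
  refine h1.trans ?_
  have : 0 ≤ (z - x) ^ (M + 1) := pow_nonneg (by linarith) _
  exact div_le_div_of_nonneg_right (by linarith) (by positivity)

lemma kk_nn (hB : ∀ x y, 0 ≤ x → x ≤ y → y ≤ 1 → 0 ≤ KK g A B x y ∧ KK g A B x y ≤ (y - x) ^ M)
    (x a b : ℝ) (hx0 : 0 ≤ x) (hxz : x ≤ a) (hab : a ≤ b) (hz : b ≤ 1) :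
    0 ≤ ∫ y in a..b, KK g A B x y :=
  intervalIntegral.integral_nonneg hab fun y hy => (hB x y hx0 (hxz.trans hy.1) (hy.2.trans hz)).1

lemma hx_le (hK : Continuous fun xy : ℝ × ℝ => KK g A B xy.1 xy.2)
    (hB : ∀ x y, 0 ≤ x → x ≤ y → y ≤ 1 → 0 ≤ KK g A B x y ∧ KK g A B x y ≤ (y - x) ^ M)
    (x : ℝ) (hx0 : 0 ≤ x) (hx1 : x ≤ 1) : hx g A B x ≤ (1 - x) ^ (M + 1) / (M + 1) :=
  kk_le hK hB x x hx0 le_rfl hx1

lemma hx_nn (hB : ∀ x y, 0 ≤ x → x ≤ y → y ≤ 1 → 0 ≤ KK g A B x y ∧ KK g A B x y ≤ (y - x) ^ M)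
    (x : ℝ) (hx0 : 0 ≤ x) (hx1 : x ≤ 1) : 0 ≤ hx g A B x :=
  kk_nn hB x x 1 hx0 le_rfl hx1 le_rfl

lemma hx_int (hm : Measurable (cut (hx g A B)))
    (hb : ∀ z, 0 ≤ z → z ≤ 1 → 0 ≤ hx g A B z ∧ hx g A B z ≤ 1) (a b : ℝ) (ha : 0 ≤ a)
    (hab : a ≤ b) (hb1 : b ≤ 1) : IntervalIntegrable (hx g A B) volume a b := by
  have h1 : IntervalIntegrable (cut (hx g A B)) volume a b := by
    refine ii_of_bdd hm (C := 1) (fun z => ?_) a b
    unfold cut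
    split_ifs with q
    · rw [abs_of_nonneg (hb z q.1 q.2).1]; exact (hb z q.1 q.2).2
    · simp
  refine h1.congr_ae ?_
  refine (ae_restrict_iff' measurableSet_uIoc).2 (Filter.Eventually.of_forall fun z hz => ?_)
  rw [Set.uIoc_of_le hab] at hz
  exact cut_eq (ha.trans hz.1.le) (hz.2.trans hb1)

/-- the tail of the lower centre -/
lemma hx_tail (hK : Continuous fun xy : ℝ × ℝ => KK g A B xy.1 xy.2)
    (hB : ∀ x y, 0 ≤ x → x ≤ y → y ≤ 1 → 0 ≤ KK g A B x y ∧ KK g A B x y ≤ (y - x) ^ M)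
    (hm : Measurable (cut (hx g A B)))
    (hb : ∀ z, 0 ≤ z → z ≤ 1 → 0 ≤ hx g A B z ∧ hx g A B z ≤ 1) (c : ℝ) (hc0 : 0 ≤ c) (hc1 : c ≤ 1) :
    ∫ z in c..1, hx g A B z ≤ (1 - c) ^ (M + 2) / ((M + 1) * (M + 2)) := by
  have h1 : ∫ z in c..1, hx g A B z ≤ ∫ z in c..1, (1 - z) ^ (M + 1) * ((M : ℝ) + 1)⁻¹ := by
    refine intervalIntegral.integral_mono_on hc1 (hx_int hm hb c 1 hc0 hc1 le_rfl) ?_
      fun z hz => ?_
    · exact (Continuous.intervalIntegrable (by fun_prop) _ _)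
    · rw [← div_eq_mul_inv]
      exact hx_le hK hB z (hc0.trans hz.1) hz.2
  rw [intervalIntegral.integral_mul_const, int_pow_left, sub_self] at h1
  refine h1.trans (le_of_eq ?_)
  rw [zero_pow (by omega), sub_zero]
  push_cast
  field_simp
  ring_nf

end

end TA

/-- facts from `S_REG` -/
lemma reg_facts (HR : S_REG) (g : ℝ) (L : ℕ) (A B : Finset ℕ) (hg : 0 < g) (hL : 100 ≤ L)
    (hgL : g * L ^ 8 ≤ 1) (hA : Sub1 L A) (hB : Sub1 L B) (hM : 30 ≤ A.card + B.card) :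
    (Continuous fun xy : ℝ × ℝ => KK g A B xy.1 xy.2) ∧
    (∀ x y, 0 ≤ x → x ≤ y → y ≤ 1 → 0 ≤ KK g A B x y ∧ KK g A B x y ≤ (y - x) ^ (A.card + B.card)) ∧
    Measurable (TA.cut (hx g A B)) ∧ Measurable (TA.cut (hy g A B)) ∧
    (∀ z, 0 ≤ z → z ≤ 1 → 0 ≤ hx g A B z ∧ hx g A B z ≤ 1) ∧
    (∀ z, 0 ≤ z → z ≤ 1 → 0 ≤ hy g A B z ∧ hy g A B z ≤ 1) ∧
    (∀ p q : ℕ, p ≤ L → q ≤ L → Measurable (hz g A B p q) ∧
      ∀ z, 0 ≤ hz g A B p q z ∧ hz g A B p q z ≤ 1) := by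
  have hL1 : (1 : ℝ) ≤ L := by exact_mod_cast (by omega : 1 ≤ L)
  have h4 : g * (L : ℝ) ^ 4 ≤ 1 := by
    refine le_trans (mul_le_mul_of_nonneg_left ?_ hg.le) hgL
    exact pow_le_pow_right₀ hL1 (by norm_num)
  obtain ⟨r1, r2, r3, r4, r5, r6, r7⟩ := HR g L A B 0 0 hg hL h4 hA hB hM (by omega) (by omega)
  refine ⟨r4, r5, r1, r2, fun z h0 h1 => ⟨(r6 z h0 h1).1, (r6 z h0 h1).2.1⟩,
    fun z h0 h1 => ⟨(r6 z h0 h1).2.2.1, (r6 z h0 h1).2.2.2⟩, fun p q hp hq => ?_⟩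
  obtain ⟨-, -, s3, -, -, -, s7⟩ := HR g L A B p q hg hL h4 hA hB hM hp hq
  exact ⟨s3, s7⟩

/-- sizes -/
lemma card_le_L {L : ℕ} {A : Finset ℕ} (hA : Sub1 L A) : A.card ≤ L := by
  have : A ⊆ Finset.Icc 1 L := fun l hl => Finset.mem_Icc.2 (hA l hl)
  have := Finset.card_le_card this
  rwa [Nat.card_Icc, Nat.add_sub_cancel] at this

lemma gL_small {g : ℝ} {L : ℕ} (hg : 0 < g) (hL : 100 ≤ L) (hgL : g * L ^ 8 ≤ 1) (k : ℕ)
    (hk : k ≤ 8) : g * (L : ℝ) ^ k * (100 : ℝ) ^ (8 - k) ≤ 1 := by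
  have hL1 : (100 : ℝ) ≤ L := by exact_mod_cast hL
  refine le_trans ?_ hgL
  have : (L : ℝ) ^ k * (100 : ℝ) ^ (8 - k) ≤ (L : ℝ) ^ 8 := by
    calc (L : ℝ) ^ k * (100 : ℝ) ^ (8 - k) ≤ (L : ℝ) ^ k * (L : ℝ) ^ (8 - k) := by
          gcongr
      _ = (L : ℝ) ^ 8 := by rw [← pow_add]; congr 1; omega
  calc g * (L : ℝ) ^ k * (100 : ℝ) ^ (8 - k) = g * ((L : ℝ) ^ k * (100 : ℝ) ^ (8 - k)) := by ring
    _ ≤ g * (L : ℝ) ^ 8 := mul_le_mul_of_nonneg_left this hg.le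

/-- the lower half of `S_T6` -/
lemma t6_low (HR : S_REG) (HZ : S_ZB) (g : ℝ) (L : ℕ) (A B : Finset ℕ) (hg : 0 < g) (hL : 100 ≤ L)
    (hgL : g * L ^ 8 ≤ 1) (hA : Sub1 L A) (hB : Sub1 L B) (hM : 30 ≤ A.card + B.card) :
    (∫ x in (0 : ℝ)..(2 * g * L), hx g A B x) ≤ ZZ g A B / 16 := by
  obtain ⟨r1, r2, r3, r4, r5, r6, r7⟩ := reg_facts HR g L A B hg hL hgL hA hB hM
  have hz := (HZ g L A B hg hL hgL hA hB hM).2
  have hL1 : (100 : ℝ) ≤ L := by exact_mod_cast hL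
  have g1 := gL_small hg hL hgL 1 (by norm_num)
  have g2 := gL_small hg hL hgL 2 (by norm_num)
  norm_num at g1 g2
  have hgL0 : 0 ≤ 2 * g * L := by positivity
  have hgL1 : 2 * g * L ≤ 1 := by nlinarith
  set M : ℕ := A.card + B.card with hMdef
  have hML : (M : ℝ) ≤ 2 * L := by
    have h1 := card_le_L hA
    have h2 := card_le_L hB
    have : M ≤ 2 * L := by omega
    exact_mod_cast this
  have hM0 : (0 : ℝ) ≤ M := by positivity
  have b1 := intervalIntegral.norm_integral_le_of_norm_le_const (a := (0 : ℝ)) (b := 2 * g * L)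
    (C := 1 / ((M : ℝ) + 1)) (f := hx g A B) fun x hx' => by
      rw [Set.uIoc_of_le hgL0] at hx'
      have x0 : 0 ≤ x := hx'.1.le
      have x1 : x ≤ 1 := hx'.2.trans hgL1
      rw [Real.norm_eq_abs, abs_of_nonneg (r5 x x0 x1).1]
      refine (TA.hx_le r1 r2 x x0 x1).trans ?_
      refine div_le_div_of_nonneg_right ?_ (by positivity)
      exact pow_le_one₀ (by linarith) (by linarith)
  rw [sub_zero, abs_of_nonneg hgL0] at b1
  refine (le_trans (le_abs_self _) b1).trans ?_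
  have b2 : (99 / 100 : ℝ) / (((M : ℝ) + 1) * (M + 2)) ≤ ZZ g A B := hz
  refine le_trans ?_ (div_le_div_of_nonneg_right b2 (by norm_num))
  rw [div_div, div_mul_eq_mul_div, one_mul, div_le_div_iff₀ (by positivity) (by positivity)]
  have b3 : 2 * g * L * ((M : ℝ) + 2) * 16 ≤ 99 / 100 := by
    have : 2 * g * L * ((M : ℝ) + 2) * 16 ≤ 2 * g * L * (2 * L + 2) * 16 := by gcongr
    nlinarith
  nlinarith [mul_le_mul_of_nonneg_right b3 (by positivity : (0 : ℝ) ≤ (M : ℝ) + 1)]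

end Pool.Agent.H34.RK
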