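import Pool.Agent.H34.RK.Stm2

/-! Tools for `S_T1` and `S_T3`: comparison of double integrals. -/

set_option autoImplicit false

open Finset MeasureTheory

namespace Pool.Agent.H34.RK.TT

theorem sign_meas : Measurable Real.sign := by
  have : Real.sign = fun r : ℝ => if r < 0 then (-1 : ℝ) else if 0 < r then 1 else 0 := by
    funext r
    rfl
  rw [this]
  exact Measurable.ite measurableSet_Iio measurable_const
    (Measurable.ite measurableSet_Ioi measurable_const measurable_const)

theorem sign_abs (x : ℝ) : |Real.sign x| ≤ 1 := by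
  rcases Real.sign_apply_eq x with h | h | h <;> rw [h] <;> norm_num

theorem sign_mul_pos {g : ℝ} (hg : 0 < g) (x : ℝ) : Real.sign (g * x) = Real.sign x := by
  rcases lt_trichotomy x 0 with h | h | h
  · rw [Real.sign_of_neg h, Real.sign_of_neg (mul_neg_of_pos_of_neg hg h)]
  · rw [h, mul_zero]
  · rw [Real.sign_of_pos h, Real.sign_of_pos (mul_pos hg h)]

theorem bil (a b δ C : ℝ) (hab : a ≤ b) (F G : ℝ → ℝ → ℝ)
    (hF : Measurable (fun p : ℝ × ℝ => F p.1 p.2)) (hG : Measurable (fun p : ℝ × ℝ => G p.1 p.2))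
    (hFb : ∀ x, a ≤ x → x ≤ b → ∀ y, a ≤ y → y ≤ b → |F x y| ≤ C)
    (hGb : ∀ x, a ≤ x → x ≤ b → ∀ y, a ≤ y → y ≤ b → |G x y| ≤ C)
    (h : ∀ x, a ≤ x → x ≤ b → ∀ y, a ≤ y → y ≤ b → |F x y - G x y| ≤ δ) :
    |(∫ x in a..b, ∫ y in a..b, F x y) - ∫ x in a..b, ∫ y in a..b, G x y| ≤ (b - a) ^ 2 * δ := by
  have hu : Set.uIoc a b = Set.Ioc a b := Set.uIoc_of_le hab
  have key : ∀ H : ℝ → ℝ → ℝ, Measurable (fun p : ℝ × ℝ => H p.1 p.2) →
      (∀ x, a ≤ x → x ≤ b → ∀ y, a ≤ y → y ≤ b → |H x y| ≤ C) →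
      (∀ x, a ≤ x → x ≤ b → IntervalIntegrable (H x) volume a b) ∧
      IntervalIntegrable (fun x => ∫ y in a..b, H x y) volume a b := by
    intro H hH hHb
    have hin : ∀ x, a ≤ x → x ≤ b → |∫ y in a..b, H x y| ≤ C * |b - a| := by
      intro x hx1 hx2
      have := intervalIntegral.norm_integral_le_of_norm_le_const (a := a) (b := b) (C := C)
        (f := H x) (by
          intro y hy
          rw [hu] at hy
          exact hHb x hx1 hx2 y hy.1.le hy.2)
      rwa [Real.norm_eq_abs] at this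
    constructor
    · intro x hx1 hx2
      rw [intervalIntegrable_iff_integrableOn_Ioc_of_le hab]
      apply Measure.integrableOn_of_bounded (M := C)
      · simp
      · exact (hH.comp (measurable_const.prodMk measurable_id)).aestronglyMeasurable
      · rw [ae_restrict_iff' measurableSet_Ioc]
        exact Filter.Eventually.of_forall fun y hy => hHb x hx1 hx2 y hy.1.le hy.2
    · rw [intervalIntegrable_iff_integrableOn_Ioc_of_le hab]
      apply Measure.integrableOn_of_bounded (M := C * |b - a|)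
      · simp
      · have h1 : (fun x => ∫ y in a..b, H x y) = fun x => ∫ y in Set.Ioc a b, H x y := by
          funext x
          rw [intervalIntegral.integral_of_le hab]
        rw [h1]
        exact (hH.stronglyMeasurable.integral_prod_right
          (ν := volume.restrict (Set.Ioc a b))).aestronglyMeasurable
      · rw [ae_restrict_iff' measurableSet_Ioc]
        exact Filter.Eventually.of_forall fun x hx => hin x hx.1.le hx.2
  obtain ⟨hF1, hF2⟩ := key F hF hFb
  obtain ⟨hG1, hG2⟩ := key G hG hGb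
  rw [← intervalIntegral.integral_sub hF2 hG2]
  have h1 := intervalIntegral.norm_integral_le_of_norm_le_const (a := a) (b := b)
    (C := δ * |b - a|) (f := fun x => (∫ y in a..b, F x y) - ∫ y in a..b, G x y) (by
      intro x hx
      rw [hu] at hx
      rw [← intervalIntegral.integral_sub (hF1 x hx.1.le hx.2) (hG1 x hx.1.le hx.2)]
      apply intervalIntegral.norm_integral_le_of_norm_le_const
      intro y hy
      rw [hu] at hy
      exact h x hx.1.le hx.2 y hy.1.le hy.2)
  rw [Real.norm_eq_abs, abs_of_nonneg (by linarith : (0 : ℝ) ≤ b - a)] at h1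
  calc _ ≤ _ := h1
    _ = (b - a) ^ 2 * δ := by ring

/-- products of perturbed functions -/
theorem prod_close {x y x0 y0 K e : ℝ} (hx0 : |x0| ≤ K) (hy0 : |y0| ≤ K) (hx : |x - x0| ≤ e)
    (hy : |y - y0| ≤ e) : |x * y - x0 * y0| ≤ 2 * K * e + e ^ 2 := by
  have h1 : x * y - x0 * y0 = x0 * (y - y0) + (x - x0) * y0 + (x - x0) * (y - y0) := by ring
  rw [h1]
  have hK : 0 ≤ K := (abs_nonneg _).trans hx0
  have he : 0 ≤ e := (abs_nonneg _).trans hx
  calc |x0 * (y - y0) + (x - x0) * y0 + (x - x0) * (y - y0)|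
      ≤ |x0 * (y - y0)| + |(x - x0) * y0| + |(x - x0) * (y - y0)| :=
        (abs_add_le _ _).trans (add_le_add (abs_add_le _ _) le_rfl)
    _ ≤ K * e + e * K + e * e := by
        rw [abs_mul, abs_mul, abs_mul]
        exact add_le_add (add_le_add (mul_le_mul hx0 hy (abs_nonneg _) hK)
          (mul_le_mul hx hy0 (abs_nonneg _) he)) (mul_le_mul hx hy (abs_nonneg _) he)
    _ = 2 * K * e + e ^ 2 := by ring

/-- the double integral over a layer, after substitution -/
theorem layer (g a b K e : ℝ) (hg : 0 < g) (hab : a ≤ b) (he0 : 0 ≤ e) (heK : e ≤ K)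
    (f f' k k' : ℝ → ℝ) (hf : Measurable f) (hf' : Measurable f') (hk : Measurable k)
    (hk' : Measurable k') (hkb : ∀ v, a ≤ v → v ≤ b → |k v| ≤ K)
    (hkb' : ∀ v, a ≤ v → v ≤ b → |k' v| ≤ K)
    (h : ∀ v, a ≤ v → v ≤ b → |f (g * v) - k v| ≤ e)
    (h' : ∀ v, a ≤ v → v ≤ b → |f' (g * v) - k' v| ≤ e) :
    |(∫ z in (g * a)..(g * b), ∫ z' in (g * a)..(g * b), Real.sign (z' - z) * f z * f' z') -
      g ^ 2 * ∫ v in a..b, ∫ v' in a..b, Real.sign (v' - v) * k v * k' v'| ≤
      g ^ 2 * (b - a) ^ 2 * (3 * K * e) := by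
  have hK : 0 ≤ K := he0.trans heK
  have e1 : (∫ z in (g * a)..(g * b), ∫ z' in (g * a)..(g * b), Real.sign (z' - z) * f z * f' z') =
      g ^ 2 * ∫ v in a..b, ∫ v' in a..b, Real.sign (v' - v) * f (g * v) * f' (g * v') := by
    rw [← intervalIntegral.mul_integral_comp_mul_left, pow_two, mul_assoc]
    congr 1
    rw [← intervalIntegral.integral_const_mul]
    apply intervalIntegral.integral_congr
    intro v _
    simp only
    rw [← intervalIntegral.mul_integral_comp_mul_left]
    congr 1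
    apply intervalIntegral.integral_congr
    intro v' _
    simp only
    rw [← mul_sub, sign_mul_pos hg]
  rw [e1, ← mul_sub, abs_mul, abs_of_nonneg (by positivity : (0 : ℝ) ≤ g ^ 2), mul_assoc]
  apply mul_le_mul_of_nonneg_left _ (by positivity)
  have hfb : ∀ v, a ≤ v → v ≤ b → |f (g * v)| ≤ 2 * K := by
    intro v h1 h2
    have h3 := h v h1 h2
    have h4 := hkb v h1 h2
    calc |f (g * v)| = |(f (g * v) - k v) + k v| := by ring_nf
      _ ≤ |f (g * v) - k v| + |k v| := abs_add_le _ _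
      _ ≤ 2 * K := by linarith
  have hfb' : ∀ v, a ≤ v → v ≤ b → |f' (g * v)| ≤ 2 * K := by
    intro v h1 h2
    have h3 := h' v h1 h2
    have h4 := hkb' v h1 h2
    calc |f' (g * v)| = |(f' (g * v) - k' v) + k' v| := by ring_nf
      _ ≤ |f' (g * v) - k' v| + |k' v| := abs_add_le _ _
      _ ≤ 2 * K := by linarith
  apply bil a b (3 * K * e) ((2 * K) * (2 * K)) hab
  · exact ((sign_meas.comp (measurable_snd.sub measurable_fst)).mul
      (hf.comp (measurable_const.mul measurable_fst))).mul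
      (hf'.comp (measurable_const.mul measurable_snd))
  · exact ((sign_meas.comp (measurable_snd.sub measurable_fst)).mul
      (hk.comp measurable_fst)).mul (hk'.comp measurable_snd)
  · intro x hx1 hx2 y hy1 hy2
    rw [mul_assoc, abs_mul, abs_mul]
    calc |Real.sign (y - x)| * (|f (g * x)| * |f' (g * y)|) ≤ 1 * (2 * K * (2 * K)) :=
          mul_le_mul (sign_abs _) (mul_le_mul (hfb x hx1 hx2) (hfb' y hy1 hy2) (abs_nonneg _)
            (by positivity)) (by positivity) (by norm_num)
      _ = _ := one_mul _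
  · intro x hx1 hx2 y hy1 hy2
    rw [mul_assoc, abs_mul, abs_mul]
    calc |Real.sign (y - x)| * (|k x| * |k' y|) ≤ 1 * (2 * K * (2 * K)) :=
          mul_le_mul (sign_abs _) (mul_le_mul ((hkb x hx1 hx2).trans (by linarith))
            ((hkb' y hy1 hy2).trans (by linarith)) (abs_nonneg _)
            (by positivity)) (by positivity) (by norm_num)
      _ = _ := one_mul _
  · intro x hx1 hx2 y hy1 hy2
    have h1 := prod_close (hkb x hx1 hx2) (hkb' y hy1 hy2) (h x hx1 hx2) (h' y hy1 hy2)
    rw [mul_assoc, mul_assoc, ← mul_sub, abs_mul]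
    calc |Real.sign (y - x)| * |f (g * x) * f' (g * y) - k x * k' y|
        ≤ 1 * (2 * K * e + e ^ 2) := mul_le_mul (sign_abs _) h1 (abs_nonneg _) (by norm_num)
      _ ≤ 3 * K * e := by nlinarith

/-- a small double integral -/
theorem small (a b δ : ℝ) (hab : a ≤ b) (f f' : ℝ → ℝ)
    (hf : ∀ z, a ≤ z → z ≤ b → |f z| ≤ δ) (hf' : ∀ z, a ≤ z → z ≤ b → |f' z| ≤ δ) :
    |∫ z in a..b, ∫ z' in a..b, Real.sign (z' - z) * f z * f' z'| ≤ (b - a) ^ 2 * δ ^ 2 := by
  have hu : Set.uIoc a b = Set.Ioc a b := Set.uIoc_of_le hab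
  have h1 := intervalIntegral.norm_integral_le_of_norm_le_const (a := a) (b := b)
    (C := δ ^ 2 * |b - a|) (f := fun z => ∫ z' in a..b, Real.sign (z' - z) * f z * f' z') (by
      intro x hx
      rw [hu] at hx
      apply intervalIntegral.norm_integral_le_of_norm_le_const
      intro y hy
      rw [hu] at hy
      have hδ : 0 ≤ δ := (abs_nonneg _).trans (hf x hx.1.le hx.2)
      rw [Real.norm_eq_abs, mul_assoc, abs_mul, abs_mul, pow_two]
      calc |Real.sign (y - x)| * (|f x| * |f' y|) ≤ 1 * (δ * δ) :=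
            mul_le_mul (sign_abs _) (mul_le_mul (hf x hx.1.le hx.2) (hf' y hy.1.le hy.2)
              (abs_nonneg _) hδ) (by positivity) (by norm_num)
        _ = _ := one_mul _)
  rw [Real.norm_eq_abs, abs_of_nonneg (by linarith : (0 : ℝ) ≤ b - a)] at h1
  calc _ ≤ _ := h1
    _ = (b - a) ^ 2 * δ ^ 2 := by ring

end Pool.Agent.H34.RK.TT
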