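import Pool.Agent.H34.RK.Asm5
import Pool.Agent.H34.L.Y491.ID.Main
import Pool.Agent.H34.L.Q236.TP.Size

/-!
# Project RK: the minimal balance constants are determined by quasi-polynomially thin posets
-/

set_option autoImplicit false

open Finset

namespace Pool.Agent.H34.RK

open Pool.Agent.H13R3.WB Pool.Agent.H931R3.Bal Pool.Agent.Q236.TP

/-- Infimum of the balance constants of the finite posets of width `w` in which every element is
incomparable to fewer than `k` elements and in which no proper autonomous subset has width `w`. -/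
noncomputable def dThin (k : ℝ) (w : ℕ) : ℝ :=
  sInf {d : ℝ | ∃ (P : Type) (_ : Fintype P) (_ : PartialOrder P), HasWidth P w ∧
    (∀ x : P, (Nat.card {y : P // ¬ x ≤ y ∧ ¬ y ≤ x} : ℝ) < k) ∧
    (∀ M : Set P, Autonomous M → M ≠ Set.univ → ¬ HasWidth M w) ∧ balance P = d}

namespace THIN

lemma nonempty_of_width {P : Type} [PartialOrder P] {w : ℕ} (hw : 1 ≤ w) (h : HasWidth P w) :
    Nonempty P := by
  obtain ⟨⟨s, _, hs⟩, _⟩ := h
  obtain ⟨x, _⟩ := Finset.card_pos.1 (show 0 < s.card by omega)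
  exact ⟨x⟩

/-- pass to an autonomous subset (as in the library) -/
lemma exists_noAut {w : ℕ} (hw : 1 ≤ w) {k : ℝ} : ∀ (N : ℕ) (P : Type) [Fintype P]
    [PartialOrder P], Fintype.card P = N → HasWidth P w →
    (∀ x : P, (Nat.card {y : P // ¬ x ≤ y ∧ ¬ y ≤ x} : ℝ) < k) →
    ∃ (Q : Type) (_ : Fintype Q) (_ : PartialOrder Q), HasWidth Q w ∧
      (∀ x : Q, (Nat.card {y : Q // ¬ x ≤ y ∧ ¬ y ≤ x} : ℝ) < k) ∧
      (∀ M : Set Q, Autonomous M → M ≠ Set.univ → ¬ HasWidth M w) ∧
      balance Q ≤ balance P := by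
  intro N
  induction N using Nat.strong_induction_on with
  | _ N ih =>
    intro P _ _ hN hP ht
    by_cases h : ∀ M : Set P, Autonomous M → M ≠ Set.univ → ¬ HasWidth M w
    · exact ⟨P, _, _, hP, ht, h, le_rfl⟩
    push Not at h
    obtain ⟨M, hM, hne, hMw⟩ := h
    have fM : Finite M := inferInstance
    have := Fintype.ofFinite M
    have nM : Nonempty M := nonempty_of_width hw hMw
    have hlt : Fintype.card M < Fintype.card P := by
      rw [← Nat.card_eq_fintype_card, ← Nat.card_eq_fintype_card]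
      have h5 : M ⊂ Set.univ := Set.ssubset_univ_iff.2 hne
      have h6 := Set.ncard_lt_ncard h5 (Set.finite_univ)
      rw [Set.ncard_univ] at h6
      exact h6
    have htM : ∀ x : M, (Nat.card {y : M // ¬ x ≤ y ∧ ¬ y ≤ x} : ℝ) < k := by
      intro x
      refine lt_of_le_of_lt ?_ (ht x)
      have : Nat.card {y : M // ¬ x ≤ y ∧ ¬ y ≤ x} ≤
          Nat.card {y : P // ¬ (x : P) ≤ y ∧ ¬ y ≤ (x : P)} := by
        apply Nat.card_le_card_of_injective
          (fun y : {y : M // ¬ x ≤ y ∧ ¬ y ≤ x} =>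
            (⟨(y.1 : P), y.2⟩ : {y : P // ¬ (x : P) ≤ y ∧ ¬ y ≤ (x : P)}))
        intro a b hab
        apply Subtype.ext
        apply Subtype.ext
        have := congrArg Subtype.val hab
        exact this
      exact_mod_cast this
    obtain ⟨Q, i1, i2, h1, h2, h3, h4⟩ := ih (Fintype.card M) (by omega) M rfl hMw htM
    exact ⟨Q, i1, i2, h1, h2, h3, h4.trans (balance_autonomous hM)⟩

/-- the numerical facts for large `x = log w` -/
theorem large_x (B : ℝ) : ∀ᶠ x : ℝ in Filter.atTop,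
    B * (2 + 3061 * Real.log x) ^ 3 * 16 ≤ x ∧ 100 ≤ x := by
  have h2 : (fun x : ℝ => B * (2 + 3061 * Real.log x) ^ 3 * 16) =o[Filter.atTop]
      (fun x : ℝ => x) := by
    have e : (fun x : ℝ => B * (2 + 3061 * Real.log x) ^ 3 * 16) =
        fun x : ℝ => (B * 16) * (2 + 3061 * Real.log x) ^ 3 := by
      ext x
      ring
    rw [e]
    refine Asymptotics.IsLittleO.const_mul_left ?_ _
    have h3 : (fun x : ℝ => (2 + 3061 * Real.log x)) =O[Filter.atTop] (fun x : ℝ => Real.log x) := by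
      refine Asymptotics.IsBigO.add ?_ ?_
      · exact (Real.isLittleO_const_log_atTop).isBigO
      · exact (Asymptotics.isBigO_refl _ _).const_mul_left _
    exact (h3.pow 3).trans_isLittleO Real.isLittleO_pow_log_id_atTop
  have h3 := h2.def (by norm_num : (0 : ℝ) < 1)
  filter_upwards [Filter.eventually_ge_atTop (100 : ℝ), h3] with x ha hb
  refine ⟨?_, ha⟩
  have h6 : ‖x‖ = x := Real.norm_of_nonneg (by linarith)
  rw [h6, one_mul] at hb
  exact (le_abs_self _).trans hb

/-- size of the exponent -/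
theorem cEx_bound {x : ℝ} (hx : 100 ≤ x) (k : ℕ) (hk1 : 1 ≤ k)
    (hk : (k : ℝ) ≤ 2 * Real.exp (x ^ 12245)) :
    (4 : ℝ) * cEx k ≤ Real.exp (Real.exp (x ^ 12246)) := by
  obtain ⟨y, hy⟩ : ∃ y : ℝ, y = x ^ 12245 := ⟨_, rfl⟩
  have hy1 : 100 ≤ y := by
    rw [hy]
    exact hx.trans (le_self_pow₀ (by linarith) (by norm_num))
  have hxy : x ^ 12246 = x * y := by rw [hy, pow_succ']
  rw [← hy] at hk
  rw [hxy]
  have hk1' : (1 : ℝ) ≤ k := by exact_mod_cast hk1
  have hE : Real.exp y + y ≤ Real.exp (2 * y) / 200 := by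
    have h1 : y + 1 ≤ Real.exp y := Real.add_one_le_exp y
    have h2 : Real.exp (2 * y) = Real.exp y * Real.exp y := by
      rw [← Real.exp_add]; ring_nf
    have h3 : (1000 : ℝ) ≤ Real.exp y := by
      have h4 : (2 : ℝ) ^ 10 ≤ Real.exp 1 ^ 10 :=
        pow_le_pow_left₀ (by norm_num) (by linarith [Real.exp_one_gt_d9]) 10
      have h5 : Real.exp 1 ^ 10 = Real.exp 10 := by
        rw [← Real.exp_nat_mul]; norm_num
      have h6 : Real.exp 10 ≤ Real.exp y := Real.exp_le_exp.2 (by linarith)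
      rw [h5] at h4
      norm_num at h4
      linarith
    rw [h2]
    nlinarith
  have hlog : Real.log (2 * k) ≤ 2 + y := by
    have h1 : (2 : ℝ) * k ≤ 4 * Real.exp y := by linarith
    have h2 : Real.log (2 * k) ≤ Real.log (4 * Real.exp y) :=
      Real.log_le_log (by positivity) h1
    rw [Real.log_mul (by norm_num) (Real.exp_pos _).ne', Real.log_exp] at h2
    have h5 : Real.log 4 = 2 * Real.log 2 := by
      rw [show (4 : ℝ) = 2 ^ 2 by norm_num, Real.log_pow]
      norm_num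
    have h6 := Real.log_two_lt_d9
    linarith
  have hlog0 : 0 ≤ Real.log (2 * k) := Real.log_nonneg (by linarith)
  have h96 : (4 : ℝ) * 24 ≤ Real.exp 5 := by
    have h4 : (2.7 : ℝ) ^ 5 ≤ Real.exp 1 ^ 5 :=
      pow_le_pow_left₀ (by norm_num) (by linarith [Real.exp_one_gt_d9]) 5
    have h5 : Real.exp 1 ^ 5 = Real.exp 5 := by
      rw [← Real.exp_nat_mul]; norm_num
    rw [h5] at h4
    norm_num at h4
    linarith
  have hpow : ((2 * k : ℝ)) ^ (4 * k + 2) = Real.exp ((4 * k + 2 : ℕ) * Real.log (2 * k)) := by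
    rw [Real.exp_nat_mul, Real.exp_log (by positivity)]
  calc (4 : ℝ) * cEx k = 4 * 24 * (2 * k : ℝ) ^ (4 * k + 2) := by
        unfold cEx
        push_cast
        ring
    _ ≤ Real.exp 5 * Real.exp ((4 * k + 2 : ℕ) * Real.log (2 * k)) := by
        rw [hpow]
        exact mul_le_mul_of_nonneg_right h96 (Real.exp_pos _).le
    _ = Real.exp (5 + (4 * k + 2 : ℕ) * Real.log (2 * k)) := (Real.exp_add _ _).symm
    _ ≤ Real.exp (Real.exp (x * y)) := by
        apply Real.exp_le_exp.2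
        have h1 : ((4 * k + 2 : ℕ) : ℝ) ≤ 10 * Real.exp y := by
          push_cast
          have := Real.exp_pos y
          have h2 := Real.add_one_le_exp y
          linarith
        have h3 : ((4 * k + 2 : ℕ) : ℝ) * Real.log (2 * k) ≤ 10 * Real.exp y * (2 + y) :=
          mul_le_mul h1 hlog hlog0 (by positivity)
        have h4 : y + 1 ≤ Real.exp y := Real.add_one_le_exp y
        have h5 : 5 + 10 * Real.exp y * (2 + y) ≤ Real.exp y * Real.exp y * Real.exp y := by
          have h6 : (100 : ℝ) ≤ Real.exp y := by linarith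
          have h7 : 10 * Real.exp y * (2 + y) ≤ 10 * Real.exp y * (2 * Real.exp y) :=
            mul_le_mul_of_nonneg_left (by linarith) (by positivity)
          have h8 : 0 < Real.exp y * Real.exp y := by positivity
          nlinarith
        have h9 : Real.exp y * Real.exp y * Real.exp y = Real.exp (3 * y) := by
          rw [← Real.exp_add, ← Real.exp_add]; ring_nf
        have h10 : Real.exp (3 * y) ≤ Real.exp (x * y) := Real.exp_le_exp.2 (by nlinarith)
        linarith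

end THIN

open THIN in
theorem thin_ (hmain : S_MAIN2E) : ∃ w₀ : ℕ, ∀ w : ℕ, w₀ ≤ w →
    (∀ (P : Type) [Fintype P] [PartialOrder P] (x : P),
      Real.exp (Real.log w ^ 12245) ≤ Nat.card {y : P // ¬ x ≤ y ∧ ¬ y ≤ x} →
      dAll w + 1 / (2 * Real.log w ^ 3061) ≤ balance P) ∧
    dAll w = dThin (Real.exp (Real.log w ^ 12245)) w ∧
    ∀ ε : ℝ, 0 < ε → ε ≤ 1 / 2 → ∃ (Q : Type) (_ : Fintype Q) (_ : PartialOrder Q),
      HasWidth Q w ∧
      (Fintype.card Q : ℝ) ≤ (1 / ε) ^ Real.exp (Real.exp (Real.log w ^ 12246)) ∧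
      dAll w ≤ balance Q ∧ balance Q < dAll w + ε := by
  obtain ⟨w₁, h1⟩ := hmain
  obtain ⟨B, hB, hinc⟩ := Pool.Agent.Y491.ID.incomparable_balance
  have hlog : Filter.Tendsto (fun w : ℕ => Real.log (w : ℝ)) Filter.atTop Filter.atTop :=
    Real.tendsto_log_atTop.comp tendsto_natCast_atTop_atTop
  obtain ⟨w₂, hw₂⟩ := Filter.eventually_atTop.1 (hlog.eventually (large_x B))
  refine ⟨max w₁ w₂, fun w hw => ?_⟩
  obtain ⟨hx1, hx2⟩ := hw₂ w ((le_max_right _ _).trans hw)
  obtain ⟨P₀, i₁, i₂, -, hP₀, hb₀⟩ := h1 w ((le_max_left _ _).trans hw)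
  obtain ⟨x, hx⟩ : ∃ x : ℝ, x = Real.log w := ⟨_, rfl⟩
  rw [← hx] at hx1 hx2 hb₀ ⊢
  obtain ⟨z, hz⟩ : ∃ z : ℝ, z = x ^ 3061 := ⟨_, rfl⟩
  obtain ⟨E, hE⟩ : ∃ E : ℝ, E = Real.exp (x ^ 12245) := ⟨_, rfl⟩
  rw [← hz, ← hE]
  rw [← hz] at hb₀
  have hx0 : 0 < x := by linarith
  have hz1 : 1 ≤ z := by rw [hz]; exact one_le_pow₀ (by linarith)
  have hz0 : 0 < z := by linarith
  have hw1 : 1 ≤ w := by
    rcases Nat.eq_zero_or_pos w with h | h
    · rw [h, Nat.cast_zero, Real.log_zero] at hx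
      linarith
    · exact h
  have hnn : ∀ (P : Type) [Fintype P] [PartialOrder P], 0 ≤ balance P := by
    intro P _ _
    unfold balance
    refine Real.iSup_nonneg fun p => ?_
    unfold prob
    exact le_min (by positivity) (by positivity)
  have bdd : BddBelow {d : ℝ | ∃ (P : Type) (_ : Fintype P) (_ : PartialOrder P),
      HasWidth P w ∧ balance P = d} := ⟨0, by
    rintro d ⟨P, _, _, _, rfl⟩
    exact hnn P⟩
  have bdd2 : BddBelow {d : ℝ | ∃ (P : Type) (_ : Fintype P) (_ : PartialOrder P),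
      HasWidth P w ∧ (∀ x : P, (Nat.card {y : P // ¬ x ≤ y ∧ ¬ y ≤ x} : ℝ) < E) ∧
      (∀ M : Set P, Autonomous M → M ≠ Set.univ → ¬ HasWidth M w) ∧
      balance P = d} := ⟨0, by
    rintro d ⟨P, _, _, _, _, _, rfl⟩
    exact hnn P⟩
  have hup : dAll w ≤ 1 / 2 - 1 / z :=
    (csInf_le bdd ⟨P₀, i₁, i₂, hP₀, rfl⟩).trans hb₀
  -- posets which are not thin
  have far : ∀ (P : Type) [Fintype P] [PartialOrder P] (u : P),
      E ≤ Nat.card {y : P // ¬ u ≤ y ∧ ¬ y ≤ u} → dAll w + 1 / (2 * z) ≤ balance P := by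
    intro P _ _ u hu
    have h2 := hinc (1 / (2 * z)) (by positivity)
      (one_div_le_one_div_of_le (by norm_num) (by linarith)) P u (by
        refine le_trans ?_ hu
        rw [hE]
        apply Real.exp_le_exp.2
        have e1 : 2 / (1 / (2 * z)) = 4 * z := by field_simp; norm_num
        have e2 : B * Real.log (2 / (1 / (2 * z))) ^ 3 / (1 / (2 * z)) ^ 4 =
            B * Real.log (4 * z) ^ 3 * 16 * z ^ 4 := by
          rw [e1]
          field_simp
          norm_num
        rw [e2]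
        have h3 : Real.log (4 * z) ≤ 2 + 3061 * Real.log x := by
          rw [Real.log_mul (by norm_num) hz0.ne', hz, Real.log_pow]
          have h4 : Real.log 4 ≤ 2 := by
            have h5 : Real.log 4 = 2 * Real.log 2 := by
              rw [show (4 : ℝ) = 2 ^ 2 by norm_num, Real.log_pow]
              norm_num
            have h6 := Real.log_two_lt_d9
            linarith
          push_cast
          linarith
        have h30 : 0 ≤ Real.log (4 * z) := Real.log_nonneg (by linarith)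
        have h4 : Real.log (4 * z) ^ 3 ≤ (2 + 3061 * Real.log x) ^ 3 := pow_le_pow_left₀ h30 h3 3
        calc B * Real.log (4 * z) ^ 3 * 16 * z ^ 4 ≤ B * (2 + 3061 * Real.log x) ^ 3 * 16 * z ^ 4 := by
              gcongr
          _ ≤ x * z ^ 4 := mul_le_mul_of_nonneg_right hx1 (by positivity)
          _ = x ^ 12245 := by rw [hz, ← pow_mul, ← pow_succ'])
    have h5 : 1 / (2 * z) + 1 / (2 * z) = 1 / z := by field_simp; norm_num
    linarith
  -- a nearly optimal poset is thin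
  have near : ∀ ε : ℝ, 0 < ε → ∃ (P : Type) (_ : Fintype P) (_ : PartialOrder P),
      HasWidth P w ∧ (∀ u : P, (Nat.card {y : P // ¬ u ≤ y ∧ ¬ y ≤ u} : ℝ) < E) ∧
      balance P < dAll w + ε := by
    intro ε hε
    have hlt : sInf {d : ℝ | ∃ (P : Type) (_ : Fintype P) (_ : PartialOrder P), HasWidth P w ∧
        balance P = d} < dAll w + min ε (1 / (2 * z)) := by
      have : 0 < min ε (1 / (2 * z)) := lt_min hε (by positivity)
      unfold dAll
      linarith
    have hne : {d : ℝ | ∃ (P : Type) (_ : Fintype P) (_ : PartialOrder P), HasWidth P w ∧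
        balance P = d}.Nonempty := ⟨balance P₀, P₀, i₁, i₂, hP₀, rfl⟩
    obtain ⟨d, ⟨P, j1, j2, hP, hd⟩, hd2⟩ := exists_lt_of_csInf_lt hne hlt
    refine ⟨P, j1, j2, hP, fun u => ?_, ?_⟩
    · by_contra hcon
      have h3 := far P u (not_lt.1 hcon)
      have h4 := min_le_right ε (1 / (2 * z))
      rw [← hd] at hd2
      linarith
    · have h4 := min_le_left ε (1 / (2 * z))
      rw [← hd] at hd2
      linarith
  refine ⟨far, ?_, ?_⟩
  · apply le_antisymm
    · obtain ⟨P, j1, j2, hP, hT, -⟩ := near 1 one_pos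
      obtain ⟨Q, k1, k2, hQ, hQT, hQA, -⟩ := exists_noAut hw1 _ P rfl hP hT
      refine csInf_le_csInf bdd ⟨balance Q, Q, k1, k2, hQ, hQT, hQA, rfl⟩ ?_
      rintro d ⟨P, j1, j2, hP, -, -, rfl⟩
      exact ⟨P, j1, j2, hP, rfl⟩
    · refine le_of_forall_pos_le_add fun ε hε => ?_
      obtain ⟨P, j1, j2, hP, hT, hb⟩ := near ε hε
      obtain ⟨Q, k1, k2, hQ, hQT, hQA, hQb⟩ := exists_noAut hw1 _ P rfl hP hT
      exact (csInf_le bdd2 ⟨Q, k1, k2, hQ, hQT, hQA, rfl⟩).trans (hQb.trans hb.le)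
  · intro ε hε hε2
    obtain ⟨P, j1, j2, hP, hT, hb⟩ := near (ε / 2) (by linarith)
    have hEpos : 1 ≤ E := by
      rw [hE]
      exact Real.one_le_exp (by positivity)
    have hk : Thn P ⌈E⌉₊ := fun u => by
      have h4 := (hT u).trans_le (Nat.le_ceil _)
      exact_mod_cast h4
    obtain ⟨s, hs, hsw⟩ := hP.1
    obtain ⟨Q, k1, k2, q1, q2, q3, q4⟩ := small_eps hk hw1 s hs hsw hP.2 (ε := ε / 2) (by linarith)
      (by linarith)
    refine ⟨Q, k1, k2, ⟨q2, q3⟩, q1.trans ?_, csInf_le bdd ⟨Q, k1, k2, ⟨q2, q3⟩, rfl⟩, by linarith⟩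
    have hk2 : ((⌈E⌉₊ : ℕ) : ℝ) ≤ 2 * Real.exp (x ^ 12245) := by
      have := Nat.ceil_lt_add_one (show 0 ≤ E by linarith)
      rw [← hE]
      linarith
    have hk1 : 1 ≤ ⌈E⌉₊ := Nat.one_le_iff_ne_zero.2 (by
      have : 0 < ⌈E⌉₊ := Nat.ceil_pos.2 (by linarith)
      omega)
    have h5 : (4 / (ε / 2)) ≤ (1 / ε) ^ 4 := by
      rw [show 4 / (ε / 2) = 8 * (1 / ε) by field_simp; ring]
      have h6 : 2 ≤ 1 / ε := by rw [le_div_iff₀ hε]; linarith
      have h7 : 8 ≤ (1 / ε) ^ 3 := by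
        calc (8 : ℝ) = 2 ^ 3 := by norm_num
          _ ≤ _ := pow_le_pow_left₀ (by norm_num) h6 3
      calc 8 * (1 / ε) ≤ (1 / ε) ^ 3 * (1 / ε) := mul_le_mul_of_nonneg_right h7 (by positivity)
        _ = _ := by ring
    calc (4 / (ε / 2)) ^ cEx ⌈E⌉₊ ≤ ((1 / ε) ^ 4) ^ cEx ⌈E⌉₊ :=
          pow_le_pow_left₀ (by positivity) h5 _
      _ = (1 / ε) ^ ((4 * (cEx ⌈E⌉₊ : ℝ))) := by
          rw [← pow_mul, ← Real.rpow_natCast]; push_cast; rfl
      _ ≤ _ := by
          apply Real.rpow_le_rpow_of_exponent_le _ (cEx_bound hx2 _ hk1 hk2)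
          rw [le_div_iff₀ hε]; linarith

end Pool.Agent.H34.RK
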