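import Pool.Agent.H34.RK.Vde

/-!
# Project RK: integrability of the integrands of `S_VD`.
-/

set_option autoImplicit false

open Finset MeasureTheory

namespace Pool.Agent.H34.RK

open VdAux VdeAux in
/-- Integrability of the integrands of `S_VDE`. -/
theorem vdi (hF : S_FUB) (hG : S_GPROD) (hM : S_MARG) (hM2 : S_MARG2) (hS : S_MASS)
    (L N : ℕ) (us vs : ℕ → ℕ) (A B : ℕ → Finset ℕ) (E : (Fin L ⊕ Fin L → ℝ) → ℝ)
    (hE : Measurable E) (hE1 : ∀ θ, 0 ≤ E θ ∧ E θ ≤ 1) :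
    IntegrableOn (fun θ : Fin L ⊕ Fin L → ℝ => E θ * (wt us vs θ *
      ∏ k : Fin N, ZT (phi θ) (psi θ) (A k) (B k))) (OmS L) ∧
    (∀ (s t : Fin N) (e : Gd (A s) (B s)) (e' : Gd (A t) (B t)), s ≠ t →
      IntegrableOn (fun θ : Fin L ⊕ Fin L → ℝ => E θ * (wt us vs θ *
        (∏ k ∈ (univ.erase s).erase t, ZT (phi θ) (psi θ) (A k) (B k)) *
        WW (dens (phi θ) (psi θ) (A s) (B s) (roleOf e))
          (dens (phi θ) (psi θ) (A t) (B t) (roleOf e')))) (OmS L)) ∧
    (∀ (t : Fin N) (s s' : {l : ℕ // l ∈ A t} ⊕ {l : ℕ // l ∈ B t}), s ≠ s' →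
      IntegrableOn (fun θ : Fin L ⊕ Fin L → ℝ => E θ * (wt us vs θ *
        (∏ k ∈ univ.erase t, ZT (phi θ) (psi θ) (A k) (B k)) *
        same (phi θ) (psi θ) (A t) (B t) (roleOf (.inr s : Gd (A t) (B t)))
          (roleOf (.inr s' : Gd (A t) (B t))))) (OmS L)) := by
  classical
  have hz := fun (θ : Fin L ⊕ Fin L → ℝ) (hθ : θ ∈ OmS L) (k : Fin N) =>
    hS (phi θ) (psi θ) (A k) (B k) (.inl false) (phi_bd hθ) (psi_bd hθ)
  refine ⟨?_, ?_, ?_⟩
  · obtain ⟨u2, u3⟩ := coreE hF L N us vs A B E hE hE1 Set.univ MeasurableSet.univ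
    refine (integrableOn_congr_fun (fun θ hθ => ?_) (omS_meas L)).1 u3
    have h1 : {ω : ∀ t : Fin N, Gd (A t) (B t) → ℝ |
        (∀ t : Fin N, ω t ∈ GS (phi θ) (psi θ) (A t) (B t)) ∧ (θ, ω) ∈ Set.univ} =
        Set.univ.pi (fun t : Fin N => GS (phi θ) (psi θ) (A t) (B t)) := by
      ext ω
      simp only [Set.mem_univ, and_true, Set.mem_ofPred_eq, Set.mem_pi, forall_const]
    simp only [h1]
    rw [volume_pi_pi, ENNReal.toReal_prod]
    congr 2
    refine Finset.prod_congr rfl fun k _ => ?_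
    rw [(hz θ hθ k).2.2.2.2.2.1, ENNReal.toReal_ofReal (hz θ hθ k).2.2.2.1]
  · intro s t e e' hst
    obtain ⟨a2, a3⟩ := coreE hF L N us vs A B E hE hE1
      {p : (Fin L ⊕ Fin L → ℝ) × (∀ t : Fin N, Gd (A t) (B t) → ℝ) | p.2 s e < p.2 t e'}
      (measurableSet_lt ((measurable_pi_apply e).comp ((measurable_pi_apply s).comp measurable_snd))
        ((measurable_pi_apply e').comp ((measurable_pi_apply t).comp measurable_snd)))
    obtain ⟨b2, b3⟩ := coreE hF L N us vs A B E hE hE1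
      {p : (Fin L ⊕ Fin L → ℝ) × (∀ t : Fin N, Gd (A t) (B t) → ℝ) | p.2 t e' < p.2 s e}
      (measurableSet_lt ((measurable_pi_apply e').comp ((measurable_pi_apply t).comp measurable_snd))
        ((measurable_pi_apply e).comp ((measurable_pi_apply s).comp measurable_snd)))
    refine (integrableOn_congr_fun (fun θ hθ => ?_) (omS_meas L)).1 (a3.sub b3)
    have c1 := two hG hM hS A B hθ s t hst e e' {p : ℝ × ℝ | p.1 < p.2}
      (measurableSet_lt measurable_fst measurable_snd)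
    have c2 := two hG hM hS A B hθ s t hst e e' {p : ℝ × ℝ | p.2 < p.1}
      (measurableSet_lt measurable_snd measurable_fst)
    obtain ⟨-, n1, i1, -⟩ := hS (phi θ) (psi θ) (A s) (B s) e (phi_bd hθ) (psi_bd hθ)
    obtain ⟨-, n2, i2, -⟩ := hS (phi θ) (psi θ) (A t) (B t) e' (phi_bd hθ) (psi_bd hθ)
    have c3 := ww _ _ (fun z h0 h1 => (n1 z h0 h1).1) (fun z h0 h1 => (n2 z h0 h1).1) i1 i2
    have c1' := congrArg ENNReal.toReal c1
    have c2' := congrArg ENNReal.toReal c2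
    have hp : 0 ≤ ∏ k ∈ (univ.erase s).erase t, ZT (phi θ) (psi θ) (A k) (B k) :=
      Finset.prod_nonneg fun k _ => (hz θ hθ k).2.2.2.1
    rw [ENNReal.toReal_mul, ENNReal.toReal_ofReal hp] at c1' c2'
    have h5 : ∀ (E w v1 v2 p q1 q2 W : ℝ), v1 = p * q1 → v2 = p * q2 → q1 - q2 = W →
        E * (w * v1) - E * (w * v2) = E * (w * p * W) := by
      intro E w v1 v2 p q1 q2 W e1 e2 e3
      rw [e1, e2, ← e3]; ring
    exact h5 _ _ _ _ _ _ _ _ c1' c2' c3
  · intro t s s' hss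
    obtain ⟨a2, a3⟩ := coreE hF L N us vs A B E hE hE1
      {p : (Fin L ⊕ Fin L → ℝ) × (∀ t : Fin N, Gd (A t) (B t) → ℝ) |
        p.2 t (.inr s) < p.2 t (.inr s')}
      (measurableSet_lt ((measurable_pi_apply _).comp ((measurable_pi_apply t).comp measurable_snd))
        ((measurable_pi_apply _).comp ((measurable_pi_apply t).comp measurable_snd)))
    obtain ⟨b2, b3⟩ := coreE hF L N us vs A B E hE hE1
      {p : (Fin L ⊕ Fin L → ℝ) × (∀ t : Fin N, Gd (A t) (B t) → ℝ) |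
        p.2 t (.inr s') < p.2 t (.inr s)}
      (measurableSet_lt ((measurable_pi_apply _).comp ((measurable_pi_apply t).comp measurable_snd))
        ((measurable_pi_apply _).comp ((measurable_pi_apply t).comp measurable_snd)))
    refine (integrableOn_congr_fun (fun θ hθ => ?_) (omS_meas L)).1 (a3.sub b3)
    have c1 := one hG hS A B hθ t {a : Gd (A t) (B t) → ℝ | a (.inr s) < a (.inr s')}
      (measurableSet_lt (measurable_pi_apply _) (measurable_pi_apply _))
    have c2 := one hG hS A B hθ t {a : Gd (A t) (B t) → ℝ | a (.inr s') < a (.inr s)}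
      (measurableSet_lt (measurable_pi_apply _) (measurable_pi_apply _))
    have c3 := hM2 (phi θ) (psi θ) (A t) (B t) s s' hss
    have c1' := congrArg ENNReal.toReal c1
    have c2' := congrArg ENNReal.toReal c2
    have hp : 0 ≤ ∏ k ∈ univ.erase t, ZT (phi θ) (psi θ) (A k) (B k) :=
      Finset.prod_nonneg fun k _ => (hz θ hθ k).2.2.2.1
    rw [ENNReal.toReal_mul, ENNReal.toReal_ofReal hp] at c1' c2'
    have h5 : ∀ (E w v1 v2 p q1 q2 W : ℝ), v1 = p * q1 → v2 = p * q2 → q1 - q2 = W →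
        E * (w * v1) - E * (w * v2) = E * (w * p * W) := by
      intro E w v1 v2 p q1 q2 W e1 e2 e3
      rw [e1, e2, ← e3]; ring
    exact h5 _ _ _ _ _ _ _ _ c1' c2' c3

open VdAux VdeAux in
/-- Integrability of the integrand of the last part of `S_VDE`. -/
theorem vdi4 (hG : S_GPROD) (hM : S_MARG) (hS : S_MASS)
    (L N : ℕ) (us vs : ℕ → ℕ) (A B : ℕ → Finset ℕ) (t : Fin N) (e : Gd (A t) (B t))
    (G : (Fin L ⊕ Fin L → ℝ) × ℝ → ℝ) (hGm : Measurable G) (hG1 : ∀ x, 0 ≤ G x ∧ G x ≤ 1) :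
    IntegrableOn (fun θ : Fin L ⊕ Fin L → ℝ => wt us vs θ *
      (∏ k ∈ univ.erase t, ZT (phi θ) (psi θ) (A k) (B k)) *
      ∫ z in (0 : ℝ)..1, G (θ, z) * dens (phi θ) (psi θ) (A t) (B t) (roleOf e) z) (OmS L) := by
  classical
  have hFm : Measurable fun p : (Fin L ⊕ Fin L → ℝ) × (∀ t : Fin N, Gd (A t) (B t) → ℝ) =>
      ENNReal.ofReal (G (p.1, p.2 t e)) :=
    ENNReal.measurable_ofReal.comp (hGm.comp (measurable_fst.prodMk
      ((measurable_pi_apply e).comp ((measurable_pi_apply t).comp measurable_snd))))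
  set V : (Fin L ⊕ Fin L → ℝ) → ENNReal := fun θ =>
    ∫⁻ ω in {ω : ∀ t : Fin N, Gd (A t) (B t) → ℝ |
      ∀ t : Fin N, ω t ∈ GS (phi θ) (psi θ) (A t) (B t)}, ENNReal.ofReal (G (θ, ω t e)) with hV
  have hVm : Measurable V := by
    have h3 := Measurable.lintegral_prod_right'
      (ν := (volume : Measure (∀ t : Fin N, Gd (A t) (B t) → ℝ)))
      (hFm.indicator (hG0 (L := L) (N := N) A B))
    have h4 : V = fun θ => ∫⁻ ω : ∀ t : Fin N, Gd (A t) (B t) → ℝ,
        {p : (Fin L ⊕ Fin L → ℝ) × (∀ t : Fin N, Gd (A t) (B t) → ℝ) |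
          (∀ t : Fin N, p.2 t ∈ GS (phi p.1) (psi p.1) (A t) (B t))}.indicator
          (fun p => ENNReal.ofReal (G (p.1, p.2 t e))) (θ, ω) := by
      funext θ
      have hm : MeasurableSet {ω : ∀ t : Fin N, Gd (A t) (B t) → ℝ |
          ∀ t : Fin N, ω t ∈ GS (phi θ) (psi θ) (A t) (B t)} :=
        measurable_prodMk_left (x := θ) (hG0 (L := L) (N := N) A B)
      simp only [hV]
      rw [← lintegral_indicator hm]
      rfl
    rw [h4]
    exact h3
  have hV1 : ∀ θ, V θ ≤ 1 := fun θ => by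
    calc V θ ≤ ∫⁻ ω in {ω : ∀ t : Fin N, Gd (A t) (B t) → ℝ |
          ∀ t : Fin N, ω t ∈ GS (phi θ) (psi θ) (A t) (B t)}, 1 := by
          refine lintegral_mono fun ω => ?_
          rw [← ENNReal.ofReal_one]; exact ENNReal.ofReal_le_ofReal (hG1 _).2
      _ = volume {ω : ∀ t : Fin N, Gd (A t) (B t) → ℝ |
          ∀ t : Fin N, ω t ∈ GS (phi θ) (psi θ) (A t) (B t)} := by simp
      _ ≤ 1 := gd_le A B (phi θ) (psi θ)
  have h1 : IntegrableOn (fun θ => wt us vs θ * (V θ).toReal) (OmS L) := by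
    refine Measure.integrableOn_of_bounded (M := 1) ((omS_le L).trans_lt ENNReal.one_lt_top).ne ?_ ?_
    · exact ((wt_meas us vs).mul hVm.ennreal_toReal).aestronglyMeasurable
    · refine (ae_restrict_iff' (omS_meas L)).2 (Filter.Eventually.of_forall fun θ hθ => ?_)
      have h5 : (V θ).toReal ≤ 1 := by
        have := ENNReal.toReal_mono ENNReal.one_ne_top (hV1 θ)
        simpa using this
      rw [Real.norm_eq_abs, abs_of_nonneg (mul_nonneg (wt_bd hθ).1 ENNReal.toReal_nonneg)]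
      exact mul_le_one₀ (wt_bd hθ).2 ENNReal.toReal_nonneg h5
  refine (integrableOn_congr_fun (fun θ hθ => ?_) (omS_meas L)).1 h1
  have h6 := oneG hG hM hS A B hθ t e (fun z => G (θ, z)) (hGm.comp measurable_prodMk_left)
    fun z => hG1 _
  rw [mul_assoc]
  congr 1

end Pool.Agent.H34.RK
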