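import Pool.Agent.H34.RK.Stm1

/-!
# Project RK: basic lemmas on the Prouhet classes and the coded sets (helper71)
-/

set_option autoImplicit false

open Finset

namespace Pool.Agent.H34.RK

theorem Y_succ (D : ℕ) (c : ZMod 3) : Y (D + 1) c =
    (Y D c ∪ (Y D (c - 1)).image (fun n => 3 ^ D + n)) ∪
      (Y D (c - 2)).image (fun n => 2 * 3 ^ D + n) := rfl

theorem Y_lt : ∀ (D : ℕ) (c : ZMod 3) (n : ℕ), n ∈ Y D c → n < 3 ^ D := by
  intro D
  induction D with
  | zero =>
    intro c n hn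
    unfold Y at hn
    split_ifs at hn with h
    · rw [Finset.mem_singleton] at hn
      simp [hn]
    · simp at hn
  | succ D ih =>
    intro c n hn
    rw [Y_succ, Finset.mem_union, Finset.mem_union, Finset.mem_image, Finset.mem_image] at hn
    rw [pow_succ]
    rcases hn with (h | ⟨m, hm, rfl⟩) | ⟨m, hm, rfl⟩
    · have := ih _ _ h
      omega
    · have := ih _ _ hm
      omega
    · have := ih _ _ hm
      omega

theorem Y_disj : ∀ (D : ℕ) (a b : ZMod 3) (n : ℕ), n ∈ Y D a → n ∈ Y D b → a = b := by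
  intro D
  induction D with
  | zero =>
    intro a b n ha hb
    unfold Y at ha hb
    split_ifs at ha hb with h1 h2
    · rw [h1, h2]
    all_goals simp at ha hb
  | succ D ih =>
    intro a b n ha hb
    rw [Y_succ, Finset.mem_union, Finset.mem_union, Finset.mem_image, Finset.mem_image] at ha hb
    rcases ha with (h | ⟨m, hm, hmn⟩) | ⟨m, hm, hmn⟩ <;>
      rcases hb with (h' | ⟨m', hm', hmn'⟩) | ⟨m', hm', hmn'⟩
    · exact ih _ _ _ h h'
    · have := Y_lt _ _ _ h
      omega
    · have := Y_lt _ _ _ h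
      omega
    · have := Y_lt _ _ _ h'
      omega
    · have h1 : m = m' := by omega
      subst h1
      exact sub_left_injective (ih _ _ _ hm hm')
    · have := Y_lt _ _ _ hm
      omega
    · have := Y_lt _ _ _ h'
      omega
    · have := Y_lt _ _ _ hm'
      omega
    · have h1 : m = m' := by omega
      subst h1
      exact sub_left_injective (ih _ _ _ hm hm')

theorem sum_Y_succ {R : Type*} [AddCommMonoid R] (D : ℕ) (c : ZMod 3) (f : ℕ → R) :
    ∑ n ∈ Y (D + 1) c, f n = ∑ n ∈ Y D c, f n + ∑ n ∈ Y D (c - 1), f (3 ^ D + n) +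
      ∑ n ∈ Y D (c - 2), f (2 * 3 ^ D + n) := by
  rw [Y_succ, Finset.sum_union, Finset.sum_union, Finset.sum_image, Finset.sum_image]
  · intro x _ y _ h
    simpa using h
  · intro x _ y _ h
    simpa using h
  · rw [Finset.disjoint_left]
    intro n hn hn'
    rw [Finset.mem_image] at hn'
    obtain ⟨m, hm, rfl⟩ := hn'
    have := Y_lt _ _ _ hn
    omega
  · rw [Finset.disjoint_left]
    intro n hn hn'
    rw [Finset.mem_image] at hn'
    obtain ⟨m, hm, rfl⟩ := hn'
    rw [Finset.mem_union, Finset.mem_image] at hn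
    rcases hn with hn | ⟨m', hm', h⟩
    · have := Y_lt _ _ _ hn
      omega
    · have := Y_lt _ _ _ hm'
      omega

theorem Y_card (D : ℕ) (hD : 1 ≤ D) (c : ZMod 3) : (Y D c).card = 3 ^ (D - 1) := by
  have key : ∀ (D : ℕ) (c : ZMod 3), (Y (D + 1) c).card = 3 ^ D := by
    intro D
    induction D with
    | zero =>
      intro c
      rw [Finset.card_eq_sum_ones, sum_Y_succ, ← Finset.card_eq_sum_ones,
        ← Finset.card_eq_sum_ones, ← Finset.card_eq_sum_ones]
      revert c
      decide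
    | succ D ih =>
      intro c
      rw [Finset.card_eq_sum_ones, sum_Y_succ, ← Finset.card_eq_sum_ones,
        ← Finset.card_eq_sum_ones, ← Finset.card_eq_sum_ones, ih, ih, ih, pow_succ]
      ring
  obtain ⟨E, rfl⟩ : ∃ E, D = E + 1 := ⟨D - 1, by omega⟩
  rw [key]
  rfl

/-- the blocks of the coded set, the last one is the last element -/
def bk (D B : ℕ) (c : ℕ → ZMod 3) (i : ℕ) : Finset ℕ :=
  if i < B then (Y D (c i)).image (fun n => i * 3 ^ D + n + 1) else {B * 3 ^ D + 1}

theorem blk_eq (D B : ℕ) (c : ℕ → ZMod 3) : blk D B c = (range (B + 1)).biUnion (bk D B c) := by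
  ext l
  unfold blk
  rw [Finset.mem_union, Finset.mem_biUnion, Finset.mem_biUnion, Finset.mem_singleton]
  constructor
  · rintro (⟨i, hi, hl⟩ | hl)
    · rw [Finset.mem_range] at hi
      exact ⟨i, Finset.mem_range.2 (by omega), by unfold bk; rw [if_pos hi]; exact hl⟩
    · exact ⟨B, Finset.mem_range.2 (by omega), by
        unfold bk; rw [if_neg (lt_irrefl B), Finset.mem_singleton]; exact hl⟩
  · rintro ⟨i, hi, hl⟩
    unfold bk at hl
    split_ifs at hl with h
    · exact Or.inl ⟨i, Finset.mem_range.2 h, hl⟩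
    · exact Or.inr (Finset.mem_singleton.1 hl)

/-- the places of the blocks -/
theorem bk_mem {D B : ℕ} {c : ℕ → ZMod 3} {i l : ℕ} (hi : i ≤ B) (hl : l ∈ bk D B c i) :
    i * 3 ^ D < l ∧ l ≤ (i + 1) * 3 ^ D := by
  have h3 : 0 < 3 ^ D := by positivity
  have h4 : (i + 1) * 3 ^ D = i * 3 ^ D + 3 ^ D := by ring
  unfold bk at hl
  split_ifs at hl with h
  · rw [Finset.mem_image] at hl
    obtain ⟨n, hn, rfl⟩ := hl
    have := Y_lt _ _ _ hn
    omega
  · rw [Finset.mem_singleton] at hl
    have : i = B := by omega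
    subst this
    omega

theorem bk_sep {D B : ℕ} {c c' : ℕ → ZMod 3} {i j l l' : ℕ} (hij : i < j) (hj : j ≤ B)
    (hl : l ∈ bk D B c i) (hl' : l' ∈ bk D B c' j) : l < l' := by
  have h1 := bk_mem (by omega) hl
  have h2 := bk_mem hj hl'
  have h3 : (i + 1) * 3 ^ D ≤ j * 3 ^ D := Nat.mul_le_mul_right _ hij
  omega

theorem sum_blk {R : Type*} [AddCommMonoid R] (D B : ℕ) (c : ℕ → ZMod 3) (f : ℕ → R) :
    ∑ l ∈ blk D B c, f l = ∑ i ∈ range B, ∑ n ∈ Y D (c i), f (i * 3 ^ D + n + 1) +
      f (B * 3 ^ D + 1) := by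
  rw [blk_eq, Finset.sum_biUnion, Finset.sum_range_succ]
  · congr 1
    · refine Finset.sum_congr rfl fun i hi => ?_
      rw [Finset.mem_range] at hi
      unfold bk
      rw [if_pos hi, Finset.sum_image]
      intro x _ y _ h
      simpa using h
    · unfold bk
      rw [if_neg (lt_irrefl B), Finset.sum_singleton]
  · intro i hi j hj hij
    rw [Finset.mem_coe, Finset.mem_range] at hi hj
    rw [Function.onFun, Finset.disjoint_left]
    intro l hl hl'
    rcases lt_or_gt_of_ne hij with h | h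
    · exact absurd (bk_sep (c' := c) h (by omega) hl hl') (lt_irrefl l)
    · exact absurd (bk_sep (c' := c) h (by omega) hl' hl) (lt_irrefl l)

/-- the two coded sets containing `p`: the block of `p` has the same class -/
theorem blk_place {D B p : ℕ} {c c' : ℕ → ZMod 3} (h : p ∈ blk D B c) (h' : p ∈ blk D B c') :
    (p = B * 3 ^ D + 1) ∨ ∃ i₀, i₀ < B ∧ c i₀ = c' i₀ ∧ i₀ * 3 ^ D < p ∧ p ≤ (i₀ + 1) * 3 ^ D := by
  rw [blk_eq, Finset.mem_biUnion] at h h'
  obtain ⟨i, hi, hp⟩ := h
  obtain ⟨j, hj, hp'⟩ := h'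
  rw [Finset.mem_range] at hi hj
  have hij : i = j := by
    rcases lt_trichotomy i j with h | h | h
    · exact absurd (bk_sep (c' := c') h (by omega) hp hp') (lt_irrefl p)
    · exact h
    · exact absurd (bk_sep (c' := c) h (by omega) hp' hp) (lt_irrefl p)
  subst hij
  have hm := bk_mem (by omega) hp
  unfold bk at hp hp'
  split_ifs at hp hp' with hB
  · right
    rw [Finset.mem_image] at hp hp'
    obtain ⟨n, hn, hnp⟩ := hp
    obtain ⟨n', hn', hnp'⟩ := hp'
    have : n = n' := by omega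
    subst this
    exact ⟨i, hB, Y_disj _ _ _ _ hn hn', hm.1, hm.2⟩
  · left
    exact Finset.mem_singleton.1 hp

theorem zmod3_sum {R : Type*} [CommRing R] (F : ZMod 3 → R) (c : ZMod 3) :
    F c + F (c - 1) + F (c - 2) = F 0 + F 1 + F 2 := by
  have h : ∀ c : ZMod 3, c = 0 ∨ c = 1 ∨ c = 2 := by decide
  rcases h c with rfl | rfl | rfl
  · have h1 : (0 : ZMod 3) - 1 = 2 := by decide
    have h2 : (0 : ZMod 3) - 2 = 1 := by decide
    rw [h1, h2]
    ring
  · have h1 : (1 : ZMod 3) - 1 = 0 := by decide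
    have h2 : (1 : ZMod 3) - 2 = 2 := by decide
    rw [h1, h2]
    ring
  · have h1 : (2 : ZMod 3) - 1 = 1 := by decide
    have h2 : (2 : ZMod 3) - 2 = 0 := by decide
    rw [h1, h2]
    ring

theorem shift_pow {R : Type*} [CommRing R] (S : Finset ℕ) (x h : R) (a : ℕ) :
    ∑ n ∈ S, (x + h + n) ^ a =
      ∑ j ∈ range (a + 1), h ^ (a - j) * (a.choose j : R) * ∑ n ∈ S, (x + n) ^ j := by
  have h1 : ∀ n : ℕ, (x + h + n) ^ a =
      ∑ j ∈ range (a + 1), h ^ (a - j) * (a.choose j : R) * (x + n) ^ j := by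
    intro n
    have : x + h + n = (x + n) + h := by ring
    rw [this, add_pow]
    refine Finset.sum_congr rfl fun j _ => ?_
    ring
  rw [Finset.sum_congr rfl fun n _ => h1 n, Finset.sum_comm]
  refine Finset.sum_congr rfl fun j _ => ?_
  rw [Finset.mul_sum]

/-- Prouhet: the classes have the same power sums of order less than `D` -/
theorem prouhet {R : Type*} [CommRing R] : ∀ (D a : ℕ), a + 1 ≤ D → ∀ (c c' : ZMod 3) (x : R),
    ∑ n ∈ Y D c, (x + n) ^ a = ∑ n ∈ Y D c', (x + n) ^ a := by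
  intro D
  induction D with
  | zero => intro a ha; omega
  | succ D ih =>
    intro a ha c c' x
    have hsh : ∀ (u u' : ZMod 3) (h : R), ∑ n ∈ Y D u, (x + h + n) ^ a -
        ∑ n ∈ Y D u', (x + h + n) ^ a = ∑ n ∈ Y D u, (x + n) ^ a - ∑ n ∈ Y D u', (x + n) ^ a := by
      intro u u' h
      rw [shift_pow, shift_pow, Finset.sum_range_succ, Finset.sum_range_succ]
      have : ∑ j ∈ range a, h ^ (a - j) * (a.choose j : R) * ∑ n ∈ Y D u, (x + n) ^ j =
          ∑ j ∈ range a, h ^ (a - j) * (a.choose j : R) * ∑ n ∈ Y D u', (x + n) ^ j := by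
        refine Finset.sum_congr rfl fun j hj => ?_
        rw [Finset.mem_range] at hj
        rw [ih j (by omega) u u' x]
      rw [this, Nat.sub_self, Nat.choose_self]
      simp
    rw [sum_Y_succ, sum_Y_succ]
    have e1 : ∀ n : ℕ, (x + ((3 ^ D + n : ℕ) : R)) ^ a = (x + 3 ^ D + n) ^ a := by
      intro n
      push_cast
      ring
    have e2 : ∀ n : ℕ, (x + ((2 * 3 ^ D + n : ℕ) : R)) ^ a = (x + 2 * 3 ^ D + n) ^ a := by
      intro n
      push_cast
      ring
    simp only [e1, e2]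
    have h1 := hsh (c - 1) (c' - 1) (3 ^ D)
    have h2 := hsh (c - 2) (c' - 2) (2 * 3 ^ D)
    have h3 := zmod3_sum (fun u => ∑ n ∈ Y D u, (x + n) ^ a) c
    have h4 := zmod3_sum (fun u => ∑ n ∈ Y D u, (x + n) ^ a) c'
    linear_combination h1 + h2 + h3 - h4

end Pool.Agent.H34.RK
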